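import Pool.Agent.SN78.RDefs

/-!
# SN78 module RCUT: elementary consequences of rigidity

* `noloop`: if `(α d).1 = d.1` then the darts `d, α d` are two of the four darts of the site, so the
  cut of `{d.1}` has at most two edges (`{d.1} ≠ univ` as `4 ≤ card X`).
* `simple`: if two different darts lead from `v` to `u` then the cut of `{v, u}` has at most
  `8 - 4 = 4 < 6` darts.
* `cut_compl`: `α` is a bijection between the darts leaving `A` and the darts leaving `Aᶜ`.
* `cut_even`: the `4 |A|` darts of `A` are the leaving ones and the inner ones, and the inner ones are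
  paired by `α` (without fixed points).
* `balance`: each site has two darts with `o = true` and two with `o = false`; an inner edge has one
  end of each kind.  So the numbers of leaving darts with `o = true` and `o = false` are equal.
* `cut_le`: the darts leaving `A` are the images of the darts entering `A`.
* `connected`: take `A = {x | M x}` in `cut4`.
* `card_ge`: the four darts of a site lead to four different sites.
-/

namespace SN78

variable {X : Type} [Fintype X] {α : X × ZMod 4 → X × ZMod 4}

private theorem rcut_eq (α : X × ZMod 4 → X × ZMod 4) [DecidableEq X] (A : Finset X) :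
    cut α A = (Finset.univ.filter fun d : X × ZMod 4 => d.1 ∈ A ∧ (α d).1 ∉ A).card := by
  classical
  unfold cut
  rw [Nat.card_eq_fintype_card, Fintype.card_subtype]

private theorem rcut_darts [DecidableEq X] (A : Finset X) :
    (Finset.univ.filter fun d : X × ZMod 4 => d.1 ∈ A).card = 4 * A.card := by
  classical
  have h : (Finset.univ.filter fun d : X × ZMod 4 => d.1 ∈ A) = A ×ˢ (Finset.univ : Finset (ZMod 4)) := by
    ext d
    simp
  rw [h, Finset.card_product, Finset.card_univ, ZMod.card, Nat.mul_comm]

private theorem rcut_inj (h : Rigid α) : Function.Injective α := fun a b hab => by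
  rw [← h.inv a, ← h.inv b, hab]

/-- the leaving darts of `A` and a set `B` of further darts of `A` which do not leave -/
private theorem rcut_add [DecidableEq X] (A : Finset X) (B : Finset (X × ZMod 4))
    (hB : ∀ d ∈ B, d.1 ∈ A ∧ (α d).1 ∈ A) : cut α A + B.card ≤ 4 * A.card := by
  classical
  rw [rcut_eq, ← rcut_darts A, ← Finset.card_union_of_disjoint]
  · apply Finset.card_le_card
    intro d hd
    simp only [Finset.mem_union, Finset.mem_filter, Finset.mem_univ, true_and] at hd ⊢
    rcases hd with hd | hd
    · exact hd.1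
    · exact (hB d hd).1
  · rw [Finset.disjoint_left]
    intro d hd hd2
    simp only [Finset.mem_filter, Finset.mem_univ, true_and] at hd
    exact hd.2 (hB d hd2).2

theorem Rigid.noloop (h : Rigid α) (d : X × ZMod 4) : (α d).1 ≠ d.1 := by
  classical
  intro hd
  have h1 : cut α {d.1} + ({d, α d} : Finset (X × ZMod 4)).card ≤ 4 * ({d.1} : Finset X).card := by
    apply rcut_add
    intro e he
    simp only [Finset.mem_insert, Finset.mem_singleton] at he ⊢
    rcases he with rfl | rfl
    · exact ⟨rfl, hd⟩
    · rw [h.inv]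
      exact ⟨hd, rfl⟩
  have h2 : ({d, α d} : Finset (X × ZMod 4)).card = 2 := Finset.card_pair (h.ne d).symm
  have h3 : ({d.1} : Finset X) ≠ Finset.univ := by
    intro hu
    have := h.big
    rw [← Finset.card_univ, ← hu, Finset.card_singleton] at this
    omega
  have h4 := h.cut4 {d.1} (Finset.singleton_nonempty _) h3
  rw [h2, Finset.card_singleton] at h1
  omega

theorem Rigid.simple (h : Rigid α) {d d' : X × ZMod 4} (h1 : d.1 = d'.1)
    (h2 : (α d).1 = (α d').1) : d = d' := by
  classical
  by_contra hne
  have hvu : d.1 ≠ (α d).1 := (h.noloop d).symm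
  have hcard : ({d.1, (α d).1} : Finset X).card = 2 := Finset.card_pair hvu
  have h3 : cut α {d.1, (α d).1} + ({d, d', α d, α d'} : Finset (X × ZMod 4)).card ≤
      4 * ({d.1, (α d).1} : Finset X).card := by
    apply rcut_add
    intro e he
    simp only [Finset.mem_insert, Finset.mem_singleton] at he ⊢
    rcases he with rfl | rfl | rfl | rfl
    · exact ⟨Or.inl rfl, Or.inr rfl⟩
    · exact ⟨Or.inl h1.symm, Or.inr h2.symm⟩
    · rw [h.inv]
      exact ⟨Or.inr rfl, Or.inl rfl⟩
    · rw [h.inv]
      exact ⟨Or.inr h2.symm, Or.inl h1.symm⟩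
  have hinj := rcut_inj h
  have e1 : d ≠ α d := fun e => hvu (congrArg Prod.fst e)
  have e2 : d ≠ α d' := fun e => hvu ((congrArg Prod.fst e).trans h2.symm)
  have e3 : d' ≠ α d := fun e => hvu (h1.trans (congrArg Prod.fst e))
  have e4 : d' ≠ α d' := fun e => hvu (h1.trans ((congrArg Prod.fst e).trans h2.symm))
  have e5 : α d ≠ α d' := fun e => hne (hinj e)
  have h4 : ({d, d', α d, α d'} : Finset (X × ZMod 4)).card = 4 := by
    rw [Finset.card_insert_of_notMem, Finset.card_insert_of_notMem, Finset.card_pair e5]
    · simp only [Finset.mem_insert, Finset.mem_singleton, not_or]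
      exact ⟨e3, e4⟩
    · simp only [Finset.mem_insert, Finset.mem_singleton, not_or]
      exact ⟨hne, e1, e2⟩
  have h5 : 6 ≤ cut α {d.1, (α d).1} := by
    apply h.cut6
    · rw [hcard]
    · rw [hcard]
      exact h.big
  rw [h4, hcard] at h3
  omega

theorem Rigid.cut_compl [DecidableEq X] (h : Rigid α) (A : Finset X) : cut α Aᶜ = cut α A := by
  classical
  unfold cut
  refine Nat.card_congr ⟨fun d => ⟨α d.1, ?_⟩, fun d => ⟨α d.1, ?_⟩, fun d => ?_, fun d => ?_⟩
  · obtain ⟨d, hd1, hd2⟩ := d
    rw [Finset.mem_compl] at hd1 hd2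
    simp only [h.inv]
    exact ⟨not_not.mp hd2, hd1⟩
  · obtain ⟨d, hd1, hd2⟩ := d
    simp only [h.inv, Finset.mem_compl]
    exact ⟨hd2, not_not.mpr hd1⟩
  · exact Subtype.ext (h.inv d.1)
  · exact Subtype.ext (h.inv d.1)

theorem Rigid.cut_even (h : Rigid α) (A : Finset X) : Even (cut α A) := by
  classical
  have h1 : (Finset.univ.filter fun d : X × ZMod 4 => d.1 ∈ A ∧ (α d).1 ∉ A).card +
      (Finset.univ.filter fun d : X × ZMod 4 => d.1 ∈ A ∧ (α d).1 ∈ A).card = 4 * A.card := by
    rw [← rcut_darts A, ← Finset.card_union_of_disjoint]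
    · congr 1
      ext d
      simp only [Finset.mem_union, Finset.mem_filter, Finset.mem_univ, true_and]
      tauto
    · rw [Finset.disjoint_left]
      intro d hd hd2
      simp only [Finset.mem_filter, Finset.mem_univ, true_and] at hd hd2
      exact hd.2 hd2.2
  have h2 : Even (Finset.univ.filter fun d : X × ZMod 4 => d.1 ∈ A ∧ (α d).1 ∈ A).card := by
    have h3 : ∑ _d ∈ (Finset.univ.filter fun d : X × ZMod 4 => d.1 ∈ A ∧ (α d).1 ∈ A),
        (1 : ZMod 2) = 0 := by
      apply Finset.sum_involution (fun d _ => α d)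
      · intro d _
        decide
      · intro d _ _
        exact h.ne d
      · intro d hd
        simp only [Finset.mem_filter, Finset.mem_univ, true_and] at hd ⊢
        rw [h.inv]
        exact ⟨hd.2, hd.1⟩
      · intro d _
        exact h.inv d
    rw [Finset.sum_const, nsmul_eq_mul, mul_one] at h3
    exact (ZMod.natCast_eq_zero_iff_even).mp h3
  rw [rcut_eq]
  obtain ⟨k, hk⟩ := h2
  have h4 : (Finset.univ.filter fun d : X × ZMod 4 => d.1 ∈ A ∧ (α d).1 ∉ A).card =
      2 * (2 * A.card - k) := by omega
  rw [h4]
  exact even_two_mul _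

theorem Rigid.balance (h : Rigid α) {o : X × ZMod 4 → Bool} (onx : ∀ d, o (nx d) = !o d)
    (oal : ∀ d, o (α d) = !o d) (A : Finset X) :
    cut α A = 2 * Nat.card {d : X × ZMod 4 // d.1 ∈ A ∧ (α d).1 ∉ A ∧ o d = true} := by
  classical
  have hnx : ∀ d : X × ZMod 4, nx (pv d) = d := fun d => by
    simp only [nx, pv, sub_add_cancel]
  have hpv : ∀ d : X × ZMod 4, pv (nx d) = d := fun d => by
    simp only [nx, pv, add_sub_cancel_right]
  have opv : ∀ d, o (pv d) = !o d := fun d => by
    have := onx (pv d)
    rw [hnx] at this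
    rw [this, Bool.not_not]
  -- numbers of darts in `A`
  have h1 : (Finset.univ.filter fun d : X × ZMod 4 => d.1 ∈ A ∧ o d = true).card =
      (Finset.univ.filter fun d : X × ZMod 4 => d.1 ∈ A ∧ o d = false).card := by
    apply Finset.card_bij' (fun d _ => nx d) (fun d _ => pv d)
    · intro d hd
      simp only [Finset.mem_filter, Finset.mem_univ, true_and] at hd ⊢
      refine ⟨hd.1, ?_⟩
      rw [onx, hd.2]
      rfl
    · intro d hd
      simp only [Finset.mem_filter, Finset.mem_univ, true_and] at hd ⊢
      refine ⟨hd.1, ?_⟩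
      rw [opv, hd.2]
      rfl
    · intro d _
      exact hpv d
    · intro d _
      exact hnx d
  have h2 : (Finset.univ.filter fun d : X × ZMod 4 => d.1 ∈ A ∧ (α d).1 ∈ A ∧ o d = true).card =
      (Finset.univ.filter fun d : X × ZMod 4 => d.1 ∈ A ∧ (α d).1 ∈ A ∧ o d = false).card := by
    apply Finset.card_bij' (fun d _ => α d) (fun d _ => α d)
    · intro d hd
      simp only [Finset.mem_filter, Finset.mem_univ, true_and] at hd ⊢
      rw [h.inv, oal, hd.2.2]
      exact ⟨hd.2.1, hd.1, rfl⟩
    · intro d hd
      simp only [Finset.mem_filter, Finset.mem_univ, true_and] at hd ⊢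
      rw [h.inv, oal, hd.2.2]
      exact ⟨hd.2.1, hd.1, rfl⟩
    · intro d _
      exact h.inv d
    · intro d _
      exact h.inv d
  have split : ∀ b : Bool, (Finset.univ.filter fun d : X × ZMod 4 => d.1 ∈ A ∧ o d = b).card =
      (Finset.univ.filter fun d : X × ZMod 4 => d.1 ∈ A ∧ (α d).1 ∉ A ∧ o d = b).card +
      (Finset.univ.filter fun d : X × ZMod 4 => d.1 ∈ A ∧ (α d).1 ∈ A ∧ o d = b).card := by
    intro b
    rw [← Finset.card_union_of_disjoint]
    · congr 1
      ext d
      simp only [Finset.mem_union, Finset.mem_filter, Finset.mem_univ, true_and]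
      tauto
    · rw [Finset.disjoint_left]
      intro d hd hd2
      simp only [Finset.mem_filter, Finset.mem_univ, true_and] at hd hd2
      exact hd.2.1 hd2.2.1
  have h3 : cut α A =
      (Finset.univ.filter fun d : X × ZMod 4 => d.1 ∈ A ∧ (α d).1 ∉ A ∧ o d = true).card +
      (Finset.univ.filter fun d : X × ZMod 4 => d.1 ∈ A ∧ (α d).1 ∉ A ∧ o d = false).card := by
    rw [rcut_eq, ← Finset.card_union_of_disjoint]
    · congr 1
      ext d
      simp only [Finset.mem_union, Finset.mem_filter, Finset.mem_univ, true_and]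
      cases o d <;> simp
    · rw [Finset.disjoint_left]
      intro d hd hd2
      simp only [Finset.mem_filter, Finset.mem_univ, true_and] at hd hd2
      rw [hd.2.2] at hd2
      exact Bool.noConfusion hd2.2.2
  have h4 : Nat.card {d : X × ZMod 4 // d.1 ∈ A ∧ (α d).1 ∉ A ∧ o d = true} =
      (Finset.univ.filter fun d : X × ZMod 4 => d.1 ∈ A ∧ (α d).1 ∉ A ∧ o d = true).card := by
    rw [Nat.card_eq_fintype_card, Fintype.card_subtype]
  have s1 := split true
  have s2 := split false
  rw [h4, h3]
  omega

theorem Rigid.cut_le (h : Rigid α) (A : Finset X) (L : Finset (X × ZMod 4))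
    (hL : ∀ d, d.1 ∉ A → (α d).1 ∈ A → d ∈ L) : cut α A ≤ L.card := by
  classical
  rw [rcut_eq]
  apply Finset.card_le_card_of_injOn α
  · intro d hd
    have hd' : d.1 ∈ A ∧ (α d).1 ∉ A := by
      simpa using hd
    apply hL
    · exact hd'.2
    · rw [h.inv]
      exact hd'.1
  · exact (rcut_inj h).injOn

theorem Rigid.connected (h : Rigid α) (M : X → Prop) (hM : ∀ d, M d.1 → M (α d).1) {x : X}
    (hx : M x) (y : X) : M y := by
  classical
  have h1 : cut α (Finset.univ.filter M) = 0 := by
    rw [rcut_eq, Finset.card_eq_zero, Finset.filter_eq_empty_iff]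
    intro d _ hd
    simp only [Finset.mem_filter, Finset.mem_univ, true_and] at hd
    exact hd.2 (hM d hd.1)
  have h2 : Finset.univ.filter M = Finset.univ := by
    by_contra hne
    have := h.cut4 (Finset.univ.filter M) ⟨x, by simpa using hx⟩ hne
    omega
  have h3 : y ∈ Finset.univ.filter M := by
    rw [h2]
    exact Finset.mem_univ y
  simpa using h3

theorem Rigid.card_ge (h : Rigid α) : 5 ≤ Fintype.card X := by
  classical
  have hb := h.big
  have hne : Nonempty X := Fintype.card_pos_iff.mp (by omega)
  obtain ⟨x⟩ := hne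
  have h1 : (Finset.univ.image fun i : ZMod 4 => (α (x, i)).1).card = 4 := by
    rw [Finset.card_image_of_injective, Finset.card_univ, ZMod.card]
    intro i j hij
    have := h.simple (d := (x, i)) (d' := (x, j)) rfl hij
    exact (Prod.ext_iff.mp this).2
  have h2 : x ∉ (Finset.univ.image fun i : ZMod 4 => (α (x, i)).1) := by
    intro hx
    rw [Finset.mem_image] at hx
    obtain ⟨i, _, hi⟩ := hx
    exact h.noloop (x, i) hi
  have h3 := Finset.card_le_univ (insert x (Finset.univ.image fun i : ZMod 4 => (α (x, i)).1))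
  rw [Finset.card_insert_of_notMem h2, h1] at h3
  exact h3

theorem Rigid.fs_inj (h : Rigid α) : Function.Injective (fs α) := by
  intro d d' hdd
  have h1 : α d = α d' := by
    have h2 := congrArg Prod.fst hdd
    have h3 := congrArg Prod.snd hdd
    simp only [fs, pv] at h2 h3
    exact Prod.ext h2 (sub_left_injective h3)
  exact rcut_inj h h1

end SN78
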