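import Pool.Agent.SN78.AddB

/-!
# SN78 module ADDA: the mirror image of ADDB

Apply `addB` to `refl α'` and `rflD D`, and then `Dr.refl`.
`rflD (rflD D) = D`, `refl (refl α) = α`, `d2 (rflD D i) (rflD D j) = - d2 (D (3 - i)) (D (3 - j))`.
So `Pos (rflD D) ↔ Pos D`, `Pos1 0 (rflD D) ↔ Pos1 2 D`, and
`d2 (rflD D 0) (rflD D 2) = d2 (D 1) (D 3)`, `d2 (rflD D 1) (rflD D 3) = d2 (D 0) (D 2)`; so
`Gmm (refl α')` follows from `Gmm α'` and `Dr.refl`.  For `sh = only 2`: `sh (2 - i) ↔ i = 0`.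
`refl (sum single (refl α')) = sum single α'` pointwise (use `Proper α'`).
-/

namespace SN78

open Sum

private theorem z4A (i : ZMod 4) : i = 0 ∨ i = 1 ∨ i = 2 ∨ i = 3 := by
  revert i; decide

theorem rflD_rflD (D : ZMod 4 → H) : rflD (rflD D) = D := by
  funext i
  ext j
  fin_cases j <;> simp [rflD]

private theorem rfl4_rfl4 {V : Type} (d : SD V Empty Unit) : rfl4 (rfl4 d) = d := by
  rcases d with ⟨v, i⟩ | ⟨e, i⟩ | ⟨a, i⟩
  · simp only [rfl4, sub_sub_cancel]
  · exact e.elim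
  · simp only [rfl4, sub_sub_cancel]

theorem Proper.refl {V : Type} {α : Tg V} (h : Proper α) : Proper (SN78.refl α) := by
  intro i
  obtain ⟨v, j, hv⟩ := h (3 - i)
  refine ⟨v, 3 - j, ?_⟩
  show rfl4 (α (.o () (3 - i))) = _
  rw [hv]
  rfl

private theorem d2_rflD (D : ZMod 4 → H) (i j : ZMod 4) :
    d2 (rflD D i) (rflD D j) = d2 (D (3 - j)) (D (3 - i)) := by
  simp only [d2, rflD]
  simp
  ring

private theorem flat_rflD {D : ZMod 4 → H} (h : Flat D) : Flat (rflD D) := by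
  intro i
  simpa [rflD] using h (3 - i)

private theorem pos_rflD {D : ZMod 4 → H} (h : Pos D) : Pos (rflD D) := by
  refine ⟨flat_rflD h.1, fun i => ?_⟩
  rw [d2_rflD]
  have h1 := h.2 (3 - (i + 1))
  have e : 3 - (i + 1) + 1 = 3 - i := by ring
  rwa [e] at h1

private theorem pos1_rflD {D : ZMod 4 → H} (h : Pos1 2 D) : Pos1 0 (rflD D) := by
  refine ⟨flat_rflD h.1, ?_, fun i hi => ?_⟩
  · have h1 : D 3 = D 2 := h.2.1
    have e2 : (3 : ZMod 4) - (0 + 1) = 2 := by decide
    have e3 : (3 : ZMod 4) - 0 = 3 := by decide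
    simp only [rflD, e2, e3, h1]
  · rw [d2_rflD]
    have hne : 3 - (i + 1) ≠ 2 := by
      intro h1
      apply hi
      revert h1
      rcases z4A i with rfl | rfl | rfl | rfl <;> decide
    have h1 := h.2.2 (3 - (i + 1)) hne
    have e : 3 - (i + 1) + 1 = 3 - i := by ring
    rwa [e] at h1

theorem Gmm.refl {V : Type} [Fintype V] {α : Tg V} (h : Gmm α) : Gmm (SN78.refl α) := by
  intro D hD h02 h13
  have h1 : Dr α no (rflD D) := by
    refine h _ (pos_rflD hD) ?_ ?_
    · rw [d2_rflD]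
      have e0 : (3 : ZMod 4) - 0 = 3 := by decide
      have e2 : (3 : ZMod 4) - 2 = 1 := by decide
      rw [e0, e2]; exact h13
    · rw [d2_rflD]
      have e1 : (3 : ZMod 4) - 1 = 2 := by decide
      have e3 : (3 : ZMod 4) - 3 = 0 := by decide
      rw [e1, e3]; exact h02
  have h2 := Dr.refl (sh := no) (fun i hi => hi.elim) h1
  rw [rflD_rflD] at h2
  exact h2

private theorem rg_refl {V' : Type} (b : SD V' Empty Unit) :
    rfl4 (rg single (rfl4 b)) = rg single b := by
  rcases b with ⟨v, i⟩ | ⟨e, i⟩ | ⟨⟨⟩, i⟩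
  · show SD.x (inr v) (3 - (3 - i)) = SD.x (inr v) i
    rw [sub_sub_cancel]
  · exact e.elim
  · rcases z4A i with rfl | rfl | rfl | rfl <;> rfl

private theorem sum_refl {V' : Type} {α' : Tg V'} (hp : Proper α') :
    SN78.refl (sum single (SN78.refl α')) = sum single α' := by
  obtain ⟨v1, j1, h1⟩ := hp 1
  obtain ⟨v2, j2, h2⟩ := hp 2
  funext d
  rcases d with ⟨v | v, i⟩ | ⟨e, i⟩ | ⟨⟨⟩, i⟩
  · rcases v with ⟨⟩
    rcases z4A i with rfl | rfl | rfl | rfl
    · show rfl4 (match rfl4 (α' (.o () 1)) with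
        | .x v j => SD.x (inr v) j
        | _ => .o () 3) = (match α' (.o () 1) with
        | .x v j => SD.x (inr v) j
        | _ => .o () 0)
      rw [h1]
      show SD.x (inr v1) (3 - (3 - j1)) = SD.x (inr v1) j1
      rw [sub_sub_cancel]
    · rfl
    · rfl
    · show rfl4 (match rfl4 (α' (.o () 2)) with
        | .x v j => SD.x (inr v) j
        | _ => .o () 0) = (match α' (.o () 2) with
        | .x v j => SD.x (inr v) j
        | _ => .o () 3)
      rw [h2]
      show SD.x (inr v2) (3 - (3 - j2)) = SD.x (inr v2) j2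
      rw [sub_sub_cancel]
  · show rfl4 (rg single (rfl4 (α' (rfl4 (rfl4 (.x v i)))))) = rg single (α' (.x v i))
    rw [rfl4_rfl4, rg_refl]
  · exact e.elim
  · rcases z4A i with rfl | rfl | rfl | rfl
    · show rfl4 (rg single (rfl4 (α' (rfl4 (rfl4 (.o () 0)))))) = rg single (α' (.o () 0))
      rw [rfl4_rfl4, rg_refl]
    · rfl
    · rfl
    · show rfl4 (rg single (rfl4 (α' (rfl4 (rfl4 (.o () 3)))))) = rg single (α' (.o () 3))
      rw [rfl4_rfl4, rg_refl]

theorem addA {V' : Type} [Fintype V'] {α' : Tg V'} (hp : Proper α') (h : Gmm α')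
    {sh : ZMod 4 → Prop} {D : ZMod 4 → H}
    (hD : (sh = no ∧ Pos D) ∨ (sh = only 2 ∧ Pos1 2 D)) (ha : 0 < d2 (D 1) (D 3)) :
    Dr (sum single α') sh D := by
  have ha' : 0 < d2 (rflD D 0) (rflD D 2) := by
    rw [d2_rflD]
    have e0 : (3 : ZMod 4) - 0 = 3 := by decide
    have e2 : (3 : ZMod 4) - 2 = 1 := by decide
    rw [e0, e2]; exact ha
  rcases hD with ⟨rfl, hpos⟩ | ⟨rfl, hpos⟩
  · have h1 : Dr (sum single (SN78.refl α')) no (rflD D) :=
      addB hp.refl h.refl (Or.inl ⟨rfl, pos_rflD hpos⟩) ha'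
    have h2 := Dr.refl (sh := no) (fun i hi => hi.elim) h1
    rw [rflD_rflD, sum_refl hp] at h2
    exact h2
  · have hp1 := pos1_rflD hpos
    have h1 : Dr (sum single (SN78.refl α')) (only 0) (rflD D) :=
      addB hp.refl h.refl (Or.inr ⟨rfl, hp1⟩) ha'
    have h2 := Dr.refl (sh := only 0) (fun i hi => by
      have hi' : i = 0 := hi
      rw [hi']; exact hp1.2.1) h1
    rw [rflD_rflD, sum_refl hp] at h2
    have e : (fun i : ZMod 4 => only 0 (2 - i)) = only 2 := by
      funext i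
      apply propext
      show 2 - i = 0 ↔ i = 2
      constructor
      · intro h3; exact (sub_eq_zero.1 h3).symm
      · intro h3; rw [h3, sub_self]
    rw [e] at h2
    exact h2

end SN78
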