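import Pool.Agent.SN78.Alg

/-!
# SN78 module PLANE: small lemmas on directions in the plane and duality

* `exists_orth`: duality in `ZMod 4 → ℝ`: the vectors `(dot l (D i))_i` form a subspace; `m` is not in
  it, so a functional `r` vanishes on the subspace and not at `m`.  Take `l` = unit vectors.
* `exists_func`: write `v = α p + β q`, `α = d2 v q / d2 p q`, `β = d2 p v / d2 p q` (for the first two
  coordinates); one of `α, β` is negative; choose the values `1, k` or `k, 1` at `p, q` with `k` small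
  or large; the functional with given values at `p, q` exists since `d2 p q ≠ 0`.
* `exists_dir`: let `lo = D 3` if `d2 (D 1) (D 3) ≤ 0` and `lo = - D 1` otherwise; let
  `up = D 0` if `d2 (D 0) (D 2) ≤ 0` and `up = - D 2` otherwise.  Then `d2 lo up > 0` and for all
  `t > 0` the vector `d = lo + t • up` satisfies the four inequalities.  (Check the four cases.  If
  `D 1 = D 0` then `d2 (D 0) (D 2) = d2 (D 1) (D 2) > 0`, so `up = - D 2`; if `D 3 = D 2` then
  `d2 (D 1) (D 3) = d2 (D 1) (D 2) > 0`, so `lo = - D 1`.)  The linear function `dot m` cannot vanish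
  at both `lo + up` and `lo + 2 • up`, which are linearly independent.
-/

namespace SN78

theorem d2_add_right (a b c : H) : d2 a (b + c) = d2 a b + d2 a c := by
  simp only [d2, Pi.add_apply]; ring

theorem d2_add_left (a b c : H) : d2 (a + b) c = d2 a c + d2 b c := by
  simp only [d2, Pi.add_apply]; ring

theorem d2_smul_right (k : ℝ) (a b : H) : d2 a (k • b) = k * d2 a b := by
  simp only [d2, Pi.smul_apply, smul_eq_mul]; ring

theorem d2_smul_left (k : ℝ) (a b : H) : d2 (k • a) b = k * d2 a b := by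
  simp only [d2, Pi.smul_apply, smul_eq_mul]; ring

theorem d2_swap (a b : H) : d2 b a = - d2 a b := by
  simp only [d2]; ring

theorem d2_self (a : H) : d2 a a = 0 := by
  simp only [d2]; ring

/-- three directions `p, q, r` seen from the point `c` -/
theorem dt_eq_d2 (c p q : H) (hc : c 2 = 1) :
    dt c p q = d2 (p - p 2 • c) (q - q 2 • c) := by
  simp only [dt, d2, Pi.sub_apply, Pi.smul_apply, smul_eq_mul, hc]; ring

theorem exists_orth (D : ZMod 4 → H) (m : ZMod 4 → ℝ) (h : ¬ ∃ l : H, ∀ i, m i = dot l (D i)) :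
    ∃ r : ZMod 4 → ℝ, (∑ i, r i • D i = 0) ∧ ∑ i, r i * m i ≠ 0 := by
  classical
  let Φ : H →ₗ[ℝ] (ZMod 4 → ℝ) :=
    { toFun := fun l i => dot l (D i)
      map_add' := by
        intro a b
        funext i
        simp only [dot, Pi.add_apply]
        ring
      map_smul' := by
        intro k a
        funext i
        simp only [dot, Pi.smul_apply, smul_eq_mul, RingHom.id_apply]
        ring }
  have hm : m ∉ LinearMap.range Φ := by
    rintro ⟨l, hl⟩
    exact h ⟨l, fun i => by rw [← hl]; rfl⟩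
  obtain ⟨f, hf, hk⟩ := Submodule.exists_le_ker_of_notMem (V := ZMod 4 → ℝ) hm
  have hsum : ∀ w : ZMod 4 → ℝ, f w = ∑ i, f (Pi.single i 1) * w i := by
    intro w
    have h1 := LinearMap.pi_apply_eq_sum_univ f w
    rw [h1]
    apply Finset.sum_congr rfl
    intro i _
    rw [smul_eq_mul, mul_comm]
    congr 2
    funext j
    by_cases hij : i = j
    · subst hij; simp
    · rw [if_neg hij, Pi.single_eq_of_ne (Ne.symm hij)]
  refine ⟨fun i => f (Pi.single i 1), ?_, ?_⟩
  · have h2 : ∀ l : H, ∑ i, f (Pi.single i 1) * dot l (D i) = 0 := by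
      intro l
      have h3 : f (Φ l) = 0 := LinearMap.mem_ker.mp (hk ⟨l, rfl⟩)
      rw [hsum] at h3
      exact h3
    funext c
    rw [Finset.sum_apply]
    simp only [Pi.smul_apply, smul_eq_mul, Pi.zero_apply]
    have h4 := h2 (Pi.single c 1)
    fin_cases c <;> simpa [dot, Pi.single_apply] using h4
  · rw [← hsum]
    exact hf

theorem exists_func {p q v : H} (hp : p 2 = 0) (hq : q 2 = 0) (hv : v 2 = 0) (h : 0 < d2 p q)
    (hn : ¬ (0 ≤ d2 p v ∧ 0 ≤ d2 v q)) :
    ∃ l : H, l 2 = 0 ∧ 0 < dot l p ∧ 0 < dot l q ∧ dot l v < 0 := by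
  have hex : ∃ x y : ℝ, 0 < x ∧ 0 < y ∧ x * d2 v q + y * d2 p v < 0 := by
    by_cases ha : d2 v q < 0
    · refine ⟨(|d2 p v| + 1) / (-d2 v q), 1, ?_, one_pos, ?_⟩
      · have : 0 < -d2 v q := by linarith
        positivity
      · have h0 : d2 v q ≠ 0 := ha.ne
        have h1 : (|d2 p v| + 1) / (-d2 v q) * d2 v q = -(|d2 p v| + 1) := by
          field_simp
        rw [h1]
        have := le_abs_self (d2 p v)
        linarith
    · have hb : d2 p v < 0 := by
        by_contra hb
        exact hn ⟨not_lt.mp hb, not_lt.mp ha⟩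
      refine ⟨1, (|d2 v q| + 1) / (-d2 p v), one_pos, ?_, ?_⟩
      · have : 0 < -d2 p v := by linarith
        positivity
      · have h0 : d2 p v ≠ 0 := hb.ne
        have h1 : (|d2 v q| + 1) / (-d2 p v) * d2 p v = -(|d2 v q| + 1) := by
          field_simp
        rw [h1]
        have := le_abs_self (d2 v q)
        linarith
  obtain ⟨x, y, hx, hy, hxy⟩ := hex
  refine ⟨![x * q 1 - y * p 1, y * p 0 - x * q 0, 0], ?_, ?_, ?_, ?_⟩
  · rfl
  · have e : dot ![x * q 1 - y * p 1, y * p 0 - x * q 0, 0] p = x * d2 p q := by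
      simp [dot, d2]; ring
    rw [e]
    exact mul_pos hx h
  · have e : dot ![x * q 1 - y * p 1, y * p 0 - x * q 0, 0] q = y * d2 p q := by
      simp [dot, d2]; ring
    rw [e]
    exact mul_pos hy h
  · have e : dot ![x * q 1 - y * p 1, y * p 0 - x * q 0, 0] v = x * d2 v q + y * d2 p v := by
      simp [dot, d2]; ring
    rw [e]
    exact hxy

private theorem plane_aux (D0 D1 D2 D3 : H) (f0 : D0 2 = 0) (f1 : D1 2 = 0) (f2 : D2 2 = 0)
    (f3 : D3 2 = 0) (h12 : 0 < d2 D1 D2) (h30 : 0 < d2 D3 D0) (h01 : 0 ≤ d2 D0 D1)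
    (h23 : 0 ≤ d2 D2 D3) (h01' : 0 < d2 D0 D1 ∨ 0 < d2 D0 D2)
    (h23' : 0 < d2 D2 D3 ∨ 0 < d2 D1 D3) :
    ∃ lo up : H, lo 2 = 0 ∧ up 2 = 0 ∧ 0 < d2 lo up ∧ ∀ t : ℝ, 0 < t →
      0 < d2 D3 (lo + t • up) ∧ 0 < d2 D2 (lo + t • up) ∧ 0 < d2 (lo + t • up) D0 ∧
      0 < d2 (lo + t • up) D1 := by
  have s10 := d2_swap D0 D1
  have s21 := d2_swap D1 D2
  have s32 := d2_swap D2 D3
  have s03 := d2_swap D3 D0
  have s20 := d2_swap D0 D2
  have s31 := d2_swap D1 D3
  rcases le_or_gt (d2 D1 D3) 0 with h13 | h13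
  · have k23 : 0 < d2 D2 D3 := by
      rcases h23' with h | h
      · exact h
      · linarith
    rcases le_or_gt (d2 D0 D2) 0 with h02 | h02
    · have k01 : 0 < d2 D0 D1 := by
        rcases h01' with h | h
        · exact h
        · linarith
      refine ⟨D3, D0, f3, f0, h30, ?_⟩
      intro t ht
      simp only [d2_add_right, d2_add_left, d2_smul_right, d2_smul_left, d2_self]
      refine ⟨?_, ?_, ?_, ?_⟩
      · have := mul_pos ht h30; linarith
      · have := mul_nonneg ht.le (neg_nonneg.mpr h02); rw [s20]; linarith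
      · linarith
      · have := mul_pos ht k01; linarith
    · refine ⟨D3, (-1 : ℝ) • D2, f3, by simp [f2], ?_, ?_⟩
      · rw [d2_smul_right, s32]; linarith
      intro t ht
      simp only [d2_add_right, d2_add_left, d2_smul_right, d2_smul_left, d2_self]
      refine ⟨?_, ?_, ?_, ?_⟩
      · have := mul_pos ht k23; rw [s32]; linarith
      · linarith
      · have := mul_pos ht h02; rw [s20]; linarith
      · have := mul_pos ht h12; rw [s21]; linarith
  · rcases le_or_gt (d2 D0 D2) 0 with h02 | h02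
    · have k01 : 0 < d2 D0 D1 := by
        rcases h01' with h | h
        · exact h
        · linarith
      refine ⟨(-1 : ℝ) • D1, D0, by simp [f1], f0, ?_, ?_⟩
      · rw [d2_smul_left, s10]; linarith
      intro t ht
      simp only [d2_add_right, d2_add_left, d2_smul_right, d2_smul_left, d2_self]
      refine ⟨?_, ?_, ?_, ?_⟩
      · have := mul_pos ht h30; rw [s31]; linarith
      · have := mul_nonneg ht.le (neg_nonneg.mpr h02); rw [s20, s21]; linarith
      · rw [s10]; linarith
      · have := mul_pos ht k01; linarith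
    · refine ⟨(-1 : ℝ) • D1, (-1 : ℝ) • D2, by simp [f1], by simp [f2], ?_, ?_⟩
      · rw [d2_smul_left, d2_smul_right]; linarith
      intro t ht
      simp only [d2_add_right, d2_add_left, d2_smul_right, d2_smul_left, d2_self]
      refine ⟨?_, ?_, ?_, ?_⟩
      · have := mul_nonneg ht.le h23; rw [s31, s32]; linarith
      · rw [s21]; linarith
      · have := mul_pos ht h02; rw [s10, s20]; linarith
      · have := mul_pos ht h12; rw [s21]; linarith

theorem exists_dir (D : ZMod 4 → H) (m : H) (hm : m 0 ≠ 0 ∨ m 1 ≠ 0)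
    (h : Pos D ∨ Pos1 0 D ∨ Pos1 2 D) :
    ∃ d : H, d 2 = 0 ∧ 0 < d2 (D 3) d ∧ 0 < d2 (D 2) d ∧ 0 < d2 d (D 0) ∧ 0 < d2 d (D 1) ∧
      dot m d ≠ 0 := by
  have hex : ∃ lo up : H, lo 2 = 0 ∧ up 2 = 0 ∧ 0 < d2 lo up ∧ ∀ t : ℝ, 0 < t →
      0 < d2 (D 3) (lo + t • up) ∧ 0 < d2 (D 2) (lo + t • up) ∧ 0 < d2 (lo + t • up) (D 0) ∧
      0 < d2 (lo + t • up) (D 1) := by
    rcases h with ⟨hf, h⟩ | ⟨hf, he, h⟩ | ⟨hf, he, h⟩
    · have h0 := h 0
      have h1 := h 1
      have h2 := h 2
      have h3 := h 3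
      rw [show (0 : ZMod 4) + 1 = 1 from rfl] at h0
      rw [show (1 : ZMod 4) + 1 = 2 from rfl] at h1
      rw [show (2 : ZMod 4) + 1 = 3 from rfl] at h2
      rw [show (3 : ZMod 4) + 1 = 0 from rfl] at h3
      exact plane_aux _ _ _ _ (hf 0) (hf 1) (hf 2) (hf 3) h1 h3 h0.le h2.le (Or.inl h0)
        (Or.inl h2)
    · have h1 := h 1 (by decide)
      have h2 := h 2 (by decide)
      have h3 := h 3 (by decide)
      rw [show (0 : ZMod 4) + 1 = 1 from rfl] at he
      rw [show (1 : ZMod 4) + 1 = 2 from rfl] at h1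
      rw [show (2 : ZMod 4) + 1 = 3 from rfl] at h2
      rw [show (3 : ZMod 4) + 1 = 0 from rfl] at h3
      refine plane_aux _ _ _ _ (hf 0) (hf 1) (hf 2) (hf 3) h1 h3 ?_ h2.le (Or.inr ?_)
        (Or.inl h2)
      · rw [he, d2_self]
      · rw [← he]; exact h1
    · have h0 := h 0 (by decide)
      have h1 := h 1 (by decide)
      have h3 := h 3 (by decide)
      rw [show (2 : ZMod 4) + 1 = 3 from rfl] at he
      rw [show (0 : ZMod 4) + 1 = 1 from rfl] at h0
      rw [show (1 : ZMod 4) + 1 = 2 from rfl] at h1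
      rw [show (3 : ZMod 4) + 1 = 0 from rfl] at h3
      refine plane_aux _ _ _ _ (hf 0) (hf 1) (hf 2) (hf 3) h1 h3 h0.le ?_ (Or.inl h0)
        (Or.inr ?_)
      · rw [he, d2_self]
      · rw [he]; exact h1
  obtain ⟨lo, up, hlo, hup, hlu, hall⟩ := hex
  have hfin : ∀ t : ℝ, 0 < t → dot m (lo + t • up) ≠ 0 →
      ∃ d : H, d 2 = 0 ∧ 0 < d2 (D 3) d ∧ 0 < d2 (D 2) d ∧ 0 < d2 d (D 0) ∧ 0 < d2 d (D 1) ∧
      dot m d ≠ 0 := by
    intro t ht hne
    obtain ⟨a1, a2, a3, a4⟩ := hall t ht
    refine ⟨lo + t • up, ?_, a1, a2, a3, a4, hne⟩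
    simp [hlo, hup]
  by_cases h1 : dot m (lo + (1 : ℝ) • up) = 0
  · by_cases h2 : dot m (lo + (2 : ℝ) • up) = 0
    · exfalso
      simp only [dot, Pi.add_apply, Pi.smul_apply, smul_eq_mul, hlo, hup] at h1 h2
      have e1 : m 0 * up 0 + m 1 * up 1 = 0 := by linarith
      have e2 : m 0 * lo 0 + m 1 * lo 1 = 0 := by linarith
      simp only [d2] at hlu
      have g0 : m 0 * (lo 0 * up 1 - lo 1 * up 0) = 0 := by
        linear_combination up 1 * e2 - lo 1 * e1
      have g1 : m 1 * (lo 0 * up 1 - lo 1 * up 0) = 0 := by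
        linear_combination lo 0 * e1 - up 0 * e2
      rcases hm with hm | hm
      · rcases mul_eq_zero.mp g0 with h | h
        · exact hm h
        · exact hlu.ne' h
      · rcases mul_eq_zero.mp g1 with h | h
        · exact hm h
        · exact hlu.ne' h
    · exact hfin 2 (by norm_num) h2
  · exact hfin 1 one_pos h1

end SN78
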