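import Pool.Agent.SN78.Glue

/-!
# SN78: algebra of determinants
-/

namespace SN78

open Finset

theorem dt_cyc (a b c : H) : dt a b c = dt b c a := by simp only [dt]; ring

theorem dt_cyc' (a b c : H) : dt a b c = dt c a b := by simp only [dt]; ring

theorem dt_swap (a b c : H) : dt b a c = - dt a b c := by simp only [dt]; ring

theorem dt_swap' (a b c : H) : dt a c b = - dt a b c := by simp only [dt]; ring

theorem dt_smul₁ (k : ℝ) (a b c : H) : dt (k • a) b c = k * dt a b c := by
  simp only [dt, Pi.smul_apply, smul_eq_mul]; ring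

theorem dt_smul₂ (k : ℝ) (a b c : H) : dt a (k • b) c = k * dt a b c := by
  simp only [dt, Pi.smul_apply, smul_eq_mul]; ring

theorem dt_smul₃ (k : ℝ) (a b c : H) : dt a b (k • c) = k * dt a b c := by
  simp only [dt, Pi.smul_apply, smul_eq_mul]; ring

theorem dt_self₁ (a c : H) : dt a a c = 0 := by simp only [dt]; ring

theorem dt_self₂ (a c : H) : dt a c c = 0 := by simp only [dt]; ring

theorem dt_self₃ (a c : H) : dt a c a = 0 := by simp only [dt]; ring

/-- the vector product -/
def crs (a b : H) : H :=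
  ![a 1 * b 2 - a 2 * b 1, a 2 * b 0 - a 0 * b 2, a 0 * b 1 - a 1 * b 0]

theorem dot_crs (a b c : H) : dot (crs a b) c = dt a b c := by
  simp only [dot, crs, dt]
  simp
  ring

theorem dot_add (l a b : H) : dot l (a + b) = dot l a + dot l b := by
  simp only [dot, Pi.add_apply]; ring

theorem dot_sub (l a b : H) : dot l (a - b) = dot l a - dot l b := by
  simp only [dot, Pi.sub_apply]; ring

theorem dot_smul (l a : H) (k : ℝ) : dot l (k • a) = k * dot l a := by
  simp only [dot, Pi.smul_apply, smul_eq_mul]; ring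

theorem add_dot (l m a : H) : dot (l + m) a = dot l a + dot m a := by
  simp only [dot, Pi.add_apply]; ring

theorem sub_dot (l m a : H) : dot (l - m) a = dot l a - dot m a := by
  simp only [dot, Pi.sub_apply]; ring

theorem smul_dot (l a : H) (k : ℝ) : dot (k • l) a = k * dot l a := by
  simp only [dot, Pi.smul_apply, smul_eq_mul]; ring

@[simp] theorem dot_zero (l : H) : dot l 0 = 0 := by simp [dot]

@[simp] theorem zero_dot (a : H) : dot 0 a = 0 := by simp [dot]

/-- the linear relation between four vectors -/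
theorem plucker (l a b c d : H) :
    dt b c d * dot l a + dt d a b * dot l c = dt c d a * dot l b + dt a b c * dot l d := by
  simp only [dt, dot]; ring

/-- affine functions solve all height equations -/
theorem rw4_dot (l : H) (p : ZMod 4 → H) : rw4 p (fun i => dot l (p i)) = 0 := by
  have := plucker l (p 0) (p 1) (p 2) (p 3)
  simp only [rw4]
  linarith

theorem rw4_add (p : ZMod 4 → H) (z w : ZMod 4 → ℝ) :
    rw4 p (fun i => z i + w i) = rw4 p z + rw4 p w := by
  simp only [rw4]; ring

theorem rw4_sub (p : ZMod 4 → H) (z w : ZMod 4 → ℝ) :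
    rw4 p (fun i => z i - w i) = rw4 p z - rw4 p w := by
  simp only [rw4]; ring

theorem rw4_mul (p : ZMod 4 → H) (z : ZMod 4 → ℝ) (k : ℝ) :
    rw4 p (fun i => k * z i) = k * rw4 p z := by
  simp only [rw4]; ring

/-- scaling of the four homogeneous vectors -/
theorem rw4_scale (p : ZMod 4 → H) (z k : ZMod 4 → ℝ) :
    rw4 (fun i => k i • p i) (fun i => k i * z i) = k 0 * k 1 * k 2 * k 3 * rw4 p z := by
  simp only [rw4, dt_smul₁, dt_smul₂, dt_smul₃]; ring

theorem dt_shrink (c : H) (s : ℝ) (p q r : H) :
    dt (shrink c s p) (shrink c s q) (shrink c s r) = s ^ 2 * dt p q r := by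
  simp only [dt, shrink]
  simp
  ring

theorem rw4_shrink (c : H) (s z₀ : ℝ) (p : ZMod 4 → H) (z : ZMod 4 → ℝ) :
    rw4 (fun i => shrink c s (p i)) (fun i => s * z i + p i 2 * z₀) = s ^ 3 * rw4 p z := by
  simp only [rw4, dt_shrink]
  simp only [dt]
  ring

theorem shrink_zoom (c : H) (s : ℝ) (Q : H) : shrink c s (zoom c s Q) = s • Q := by
  ext i; fin_cases i <;> simp [shrink, zoom] <;> ring

theorem Sep.symm {A B C D : H} (h : Sep A B C D) : Sep C D A B := by
  obtain ⟨l, h1, h2, h3, h4⟩ := h
  refine ⟨-l, ?_, ?_, ?_, ?_⟩ <;> simp only [dot, Pi.neg_apply] at * <;> linarith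

theorem Sep.left {A B C D : H} (h : Sep A B C D) : Sep B A C D := by
  obtain ⟨l, h1, h2, h3, h4⟩ := h
  exact ⟨l, h2, h1, h3, h4⟩

theorem Sep.right {A B C D : H} (h : Sep A B C D) : Sep A B D C := by
  obtain ⟨l, h1, h2, h3, h4⟩ := h
  exact ⟨l, h1, h2, h4, h3⟩

/-- separation is invariant under positive scaling and an injective linear map -/
theorem Sep.of_shrink {c : H} {s : ℝ} (hs : 0 < s) {A B C D A' B' C' D' : H}
    (h : Sep A B C D) {a b c' d : ℝ} (ha : 0 < a) (hb : 0 < b) (hc : 0 < c') (hd : 0 < d)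
    (hA : shrink c s A = a • A') (hB : shrink c s B = b • B') (hC : shrink c s C = c' • C')
    (hD : shrink c s D = d • D') : Sep A' B' C' D' := by
  obtain ⟨l, h1, h2, h3, h4⟩ := h
  -- the functional `m` with `dot m (shrink c s p) = s * dot l p`
  let m : H := ![l 0, l 1, s * l 2 - c 0 * l 0 - c 1 * l 1]
  have key : ∀ p : H, dot m (shrink c s p) = s * dot l p := by
    intro p
    simp only [dot, m, shrink]
    simp
    ring
  have e1 := key A; have e2 := key B; have e3 := key C; have e4 := key D
  rw [hA, dot_smul] at e1; rw [hB, dot_smul] at e2; rw [hC, dot_smul] at e3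
  rw [hD, dot_smul] at e4
  refine ⟨m, ?_, ?_, ?_, ?_⟩
  · have : 0 < a * dot m A' := by rw [e1]; positivity
    exact (mul_pos_iff_of_pos_left ha).1 this
  · have : 0 < b * dot m B' := by rw [e2]; positivity
    exact (mul_pos_iff_of_pos_left hb).1 this
  · have : c' * dot m C' < 0 := by rw [e3]; exact mul_neg_of_pos_of_neg hs h3
    by_contra hcon
    push Not at hcon
    have := mul_nonneg hc.le hcon
    linarith
  · have : d * dot m D' < 0 := by rw [e4]; exact mul_neg_of_pos_of_neg hs h4
    by_contra hcon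
    push Not at hcon
    have := mul_nonneg hd.le hcon
    linarith

end SN78
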