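import Pool.Agent.SN78.Tang
import Pool.Agent.SN78.Alg

/-!
# SN78 module SYM: relabelling, rotation and reflection of drawings

Each is a transport of the picture: the beads are relabelled by a bijection `τ`
(crossing darts, outer darts; the nodes and their sides are unchanged):
new `adj = τ ∘ adj ∘ τ⁻¹`, new `ed (e v) (i + c v) = τ (ed v i)`, new labels accordingly.
* `Dr.congr`: `τ (x v i) = x (e v) (i + c v)`.
* `Dr.rot`: `τ (o i) = o (i + k)`.
* `Dr.refl`: `τ (x v i) = x v (3 - i)`, `τ (o i) = o (3 - i)`, and all positions are reflected,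
  `(x, y, w) ↦ (x, - y, w)`.  Then `dt` changes the sign, and since the orientation of all cyclic
  orders is reversed too, all conditions are preserved: new `kap v (3 - i) =` old `kap v i`;
  the condition `ord` is symmetric; `fat` is empty (`F = Empty`); `shr` for the new `i`
  is the old one for `2 - i` (the new ports `i, i + 1` are the old ports `3 - i, 2 - i`).
  The height equations change at most the sign.  A flex `u` for the reflected directions
  corresponds to the flex `fun i => u (3 - i)`.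
-/

namespace SN78

open Sum

/-- the data of a transport: orientation `s`, shift of pairs `t`, linear map `ρ` -/
private def Ori (s t : ZMod 4) (ρ : H → H) : Prop :=
  (s = 1 ∧ t = 0 ∧ ρ = id) ∨ (s = 3 ∧ t = 3 ∧ ρ = fun p => ![p 0, - p 1, p 2])

private theorem Ori.ss {s t : ZMod 4} {ρ : H → H} (h : Ori s t ρ) : s * s = 1 := by
  rcases h with ⟨rfl, -, -⟩ | ⟨rfl, -, -⟩ <;> decide

private theorem Ori.two {s t : ZMod 4} {ρ : H → H} (h : Ori s t ρ) : s * 2 = 2 := by
  rcases h with ⟨rfl, -, -⟩ | ⟨rfl, -, -⟩ <;> decide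

private theorem Ori.inv {s t : ZMod 4} {ρ : H → H} (h : Ori s t ρ) (i c : ZMod 4) :
    s * ((s * i + c) - c) = i := by
  rw [add_sub_cancel_right, ← mul_assoc, h.ss, one_mul]

private theorem Ori.inv' {s t : ZMod 4} {ρ : H → H} (h : Ori s t ρ) (j c : ZMod 4) :
    s * (s * (j - c)) + c = j := by
  rw [← mul_assoc, h.ss, one_mul, sub_add_cancel]

private theorem Ori.add2 {s t : ZMod 4} {ρ : H → H} (h : Ori s t ρ) (i c : ZMod 4) :
    s * i + c + 2 = s * (i + 2) + c := by
  rw [mul_add, h.two]; ring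

private theorem Ori.rr {s t : ZMod 4} {ρ : H → H} (h : Ori s t ρ) (p : H) : ρ (ρ p) = p := by
  rcases h with ⟨-, -, rfl⟩ | ⟨-, -, rfl⟩
  · rfl
  · ext i; fin_cases i <;> simp

private theorem Ori.c2 {s t : ZMod 4} {ρ : H → H} (h : Ori s t ρ) (p : H) : ρ p 2 = p 2 := by
  rcases h with ⟨-, -, rfl⟩ | ⟨-, -, rfl⟩ <;> simp

private theorem Ori.dot {s t : ZMod 4} {ρ : H → H} (h : Ori s t ρ) (l p : H) :
    SN78.dot (ρ l) (ρ p) = SN78.dot l p := by
  rcases h with ⟨-, -, rfl⟩ | ⟨-, -, rfl⟩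
  · rfl
  · simp [SN78.dot]

private theorem Ori.dt {s t : ZMod 4} {ρ : H → H} (h : Ori s t ρ) :
    (s = 1 ∧ t = 0 ∧ ∀ a b c, SN78.dt (ρ a) (ρ b) (ρ c) = SN78.dt a b c) ∨
    (s = 3 ∧ t = 3 ∧ ∀ a b c, SN78.dt (ρ a) (ρ b) (ρ c) = - SN78.dt a b c) := by
  rcases h with ⟨h1, h2, rfl⟩ | ⟨h1, h2, rfl⟩
  · exact Or.inl ⟨h1, h2, fun a b c => rfl⟩
  · refine Or.inr ⟨h1, h2, fun a b c => ?_⟩
    simp [SN78.dt]
    ring

private theorem Ori.sep {s t : ZMod 4} {ρ : H → H} (h : Ori s t ρ) {A B C D : H}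
    (hs : Sep A B C D) : Sep (ρ A) (ρ B) (ρ C) (ρ D) := by
  obtain ⟨l, h1, h2, h3, h4⟩ := hs
  exact ⟨ρ l, by rw [h.dot]; exact h1, by rw [h.dot]; exact h2, by rw [h.dot]; exact h3,
    by rw [h.dot]; exact h4⟩

private theorem rw4_one (p : ZMod 4 → H) (z : ZMod 4 → ℝ) :
    rw4 (fun i => p (i + 1)) (fun i => z (i + 1)) = - rw4 p z := by
  have e1 : (1 : ZMod 4) + 1 = 2 := by decide
  have e2 : (2 : ZMod 4) + 1 = 3 := by decide
  have e3 : (3 : ZMod 4) + 1 = 0 := by decide
  simp only [rw4, zero_add, e1, e2, e3]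
  ring

private theorem rw4_neg1 (p : ZMod 4 → H) (z : ZMod 4 → ℝ) :
    rw4 (fun i => p (3 * i)) (fun i => z (3 * i)) = - rw4 p z := by
  have e1 : (3 : ZMod 4) * 1 = 3 := by decide
  have e2 : (3 : ZMod 4) * 2 = 2 := by decide
  have e3 : (3 : ZMod 4) * 3 = 1 := by decide
  simp only [rw4, mul_zero, e1, e2, e3, dt]
  ring

private theorem rw4_shift (c : ZMod 4) (p : ZMod 4 → H) (z : ZMod 4 → ℝ) :
    rw4 (fun i => p (i - c)) (fun i => z (i - c)) = 0 → rw4 p z = 0 := by
  have hc : c = 0 ∨ c = 3 ∨ c = 2 ∨ c = 1 := by revert c; decide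
  have e1 : ∀ i : ZMod 4, i - 3 = i + 1 := by decide
  have e2 : ∀ i : ZMod 4, i - 2 = i + 1 + 1 := by decide
  have e3 : ∀ i : ZMod 4, i - 1 = i + 1 + 1 + 1 := by decide
  rcases hc with rfl | rfl | rfl | rfl
  · simp only [sub_zero]; exact id
  · simp only [e1, rw4_one p z]; intro h; linarith
  · simp only [e2, rw4_one (fun i => p (i + 1)) (fun i => z (i + 1)), rw4_one p z]
    intro h; linarith
  · simp only [e3, rw4_one (fun i => p (i + 1 + 1)) (fun i => z (i + 1 + 1)),
      rw4_one (fun i => p (i + 1)) (fun i => z (i + 1)), rw4_one p z]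
    intro h; linarith

private theorem rw4_lin {s t : ZMod 4} {ρ : H → H} (h : Ori s t ρ) (p : ZMod 4 → H)
    (z : ZMod 4 → ℝ) : rw4 (fun i => ρ (p i)) z = 0 → rw4 p z = 0 := by
  rcases h.dt with ⟨-, -, hd⟩ | ⟨-, -, hd⟩
  · simp only [rw4, hd]; exact id
  · simp only [rw4, hd]; intro h; linarith

private theorem rw4_tr {s t : ZMod 4} {ρ : H → H} (h : Ori s t ρ) (c : ZMod 4)
    (p : ZMod 4 → H) (z : ZMod 4 → ℝ)
    (h0 : rw4 (fun i => ρ (p (s * (i - c)))) (fun i => z (s * (i - c))) = 0) : rw4 p z = 0 := by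
  have h1 := rw4_lin h (fun i => p (s * (i - c))) _ h0
  have h2 := rw4_shift c (fun i => p (s * i)) (fun i => z (s * i)) h1
  rcases h with ⟨rfl, -, -⟩ | ⟨rfl, -, -⟩
  · simpa only [one_mul] using h2
  · rw [rw4_neg1] at h2; linarith

section
variable {V V' N : Type} (e : V ≃ V') (c : V → ZMod 4) (k s : ZMod 4)

/-- the relabelling of site darts -/
private def tau : SD V Empty Unit → SD V' Empty Unit
  | .x v i => .x (e v) (s * i + c v)
  | .f a _ => a.elim
  | .o _ i => .o () (s * i + k)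

/-- its inverse -/
private def tauI : SD V' Empty Unit → SD V Empty Unit
  | .x v i => .x (e.symm v) (s * (i - c (e.symm v)))
  | .f a _ => a.elim
  | .o _ i => .o () (s * (i - k))

/-- the relabelling of beads -/
private def tb : Bead V N Empty Unit → Bead V' N Empty Unit
  | .inl d => .inl (tau e c k s d)
  | .inr a => .inr a

private def tbI : Bead V' N Empty Unit → Bead V N Empty Unit
  | .inl d => .inl (tauI e c k s d)
  | .inr a => .inr a

private theorem tauI_tau {t : ZMod 4} {ρ : H → H} (h : Ori s t ρ) (d : SD V Empty Unit) :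
    tauI e c k s (tau e c k s d) = d := by
  rcases d with ⟨v, i⟩ | ⟨a, i⟩ | ⟨a, i⟩
  · simp only [tau, tauI, Equiv.symm_apply_apply, h.inv]
  · exact a.elim
  · simp only [tau, tauI, h.inv]

private theorem tau_tauI {t : ZMod 4} {ρ : H → H} (h : Ori s t ρ) (d : SD V' Empty Unit) :
    tau e c k s (tauI e c k s d) = d := by
  rcases d with ⟨v, i⟩ | ⟨a, i⟩ | ⟨a, i⟩
  · simp only [tau, tauI, Equiv.apply_symm_apply, h.inv']
  · exact a.elim
  · simp only [tau, tauI, h.inv']

private theorem tbI_tb {t : ZMod 4} {ρ : H → H} (h : Ori s t ρ) (b : Bead V N Empty Unit) :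
    tbI e c k s (tb e c k s b) = b := by
  rcases b with d | a
  · exact congrArg Sum.inl (tauI_tau e c k s h d)
  · rfl

private theorem tb_tbI {t : ZMod 4} {ρ : H → H} (h : Ori s t ρ) (b : Bead V' N Empty Unit) :
    tb e c k s (tbI e c k s b) = b := by
  rcases b with d | a
  · exact congrArg Sum.inl (tau_tauI e c k s h d)
  · rfl

private theorem tb_inj {t : ZMod 4} {ρ : H → H} (h : Ori s t ρ) {b b' : Bead V N Empty Unit}
    (hb : tb e c k s b = tb e c k s b') : b = b' := by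
  rw [← tbI_tb e c k s h b, hb, tbI_tb e c k s h]

private theorem tb_surj {t : ZMod 4} {ρ : H → H} (h : Ori s t ρ) (b : Bead V' N Empty Unit) :
    ∃ b', tb e c k s b' = b := ⟨_, tb_tbI e c k s h b⟩

private theorem tb_end (b : Bead V N Empty Unit) : IsEnd (tb e c k s b) ↔ IsEnd b := by
  rcases b with (⟨v, i⟩ | ⟨a, i⟩ | ⟨a, i⟩) | a
  · exact Iff.rfl
  · exact a.elim
  · exact Iff.rfl
  · exact Iff.rfl

/-- the transported picture -/
private def tP (P : Pic V N Empty Unit) : Pic V' N Empty Unit where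
  adj b := tb e c k s (P.adj (tbI e c k s b))
  ed v i := tb e c k s (P.ed (e.symm v) (s * (i - c (e.symm v))))

variable {t : ZMod 4} {ρ : H → H} (h : Ori s t ρ) (P : Pic V N Empty Unit)
include h

private theorem tP_adj (b : Bead V N Empty Unit) :
    (tP e c k s P).adj (tb e c k s b) = tb e c k s (P.adj b) := by
  show tb e c k s (P.adj (tbI e c k s (tb e c k s b))) = _
  rw [tbI_tb e c k s h]

private theorem tP_ed (v : V) (i : ZMod 4) :
    (tP e c k s P).ed (e v) (s * i + c v) = tb e c k s (P.ed v i) := by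
  show tb e c k s (P.ed (e.symm (e v)) (s * (s * i + c v - c (e.symm (e v))))) = _
  rw [Equiv.symm_apply_apply, h.inv]

private theorem tP_opp (b : Bead V N Empty Unit) :
    (tP e c k s P).opp (tb e c k s b) = tb e c k s (P.opp b) := by
  unfold Pic.opp
  rw [tP_adj e c k s h P b]
  rcases hb : P.adj b with (⟨v, i⟩ | ⟨a, i⟩ | ⟨a, i⟩) | a
  · show (tP e c k s P).ed (e v) (s * i + c v + 2) = tb e c k s (P.ed v (i + 2))
    rw [h.add2, tP_ed e c k s h P]
  · exact a.elim
  · rfl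
  · rfl

private theorem tP_kap {p : Bead V N Empty Unit → H} {p' : Bead V' N Empty Unit → H}
    (hp : ∀ b, p' (tb e c k s b) = ρ (p b)) (v : V) (i : ZMod 4) :
    (tP e c k s P).kap p' (e v) (s * i + c v) = P.kap p v i := by
  unfold Pic.kap
  rcases h.dt with ⟨hs, -, hd⟩ | ⟨hs, -, hd⟩
  · have e1 : s * i + c v + 3 = s * (i + 3) + c v := by rw [hs]; ring
    have e2 : s * i + c v + 1 = s * (i + 1) + c v := by rw [hs]; ring
    rw [e1, e2, tP_ed e c k s h P, tP_ed e c k s h P, tP_ed e c k s h P, hp, hp, hp, hd]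
  · have e1 : s * i + c v + 3 = s * (i + 1) + c v := by rw [hs]; ring
    have e2 : s * i + c v + 1 = s * (i + 3) + c v := by
      have e0 : (1 : ZMod 4) = 3 * 3 := by decide
      rw [hs, mul_add, ← e0]; ring
    rw [e1, e2, tP_ed e c k s h P, tP_ed e c k s h P, tP_ed e c k s h P, hp, hp, hp, hd]
    simp only [dt]
    ring

private theorem tP_ok (hP : P.Ok) : (tP e c k s P).Ok := by
  refine ⟨fun b => ?_, fun b => ?_, fun v i => ?_, fun v i w j hij => ?_, fun v i hi => ?_,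
    fun v i => ?_⟩
  · obtain ⟨b, rfl⟩ := tb_surj e c k s h b
    rw [tP_adj e c k s h P, tP_adj e c k s h P, hP.adj_adj]
  · obtain ⟨b, rfl⟩ := tb_surj e c k s h b
    rw [tP_adj e c k s h P]
    intro hb
    exact hP.adj_ne b (tb_inj e c k s h hb)
  · exact (tb_end e c k s _).mpr (hP.ed_end _ _)
  · obtain ⟨v, rfl⟩ := e.surjective v
    obtain ⟨w, rfl⟩ := e.surjective w
    obtain ⟨i, rfl⟩ : ∃ i', i = s * i' + c v := ⟨s * (i - c v), (h.inv' _ _).symm⟩
    obtain ⟨j, rfl⟩ : ∃ j', j = s * j' + c w := ⟨s * (j - c w), (h.inv' _ _).symm⟩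
    have h1 : (tP e c k s P).adj (tb e c k s (.inl (.x v i))) = tb e c k s (.inl (.x w j)) := hij
    rw [tP_adj e c k s h P] at h1
    have h2 := hP.ed_x v i w j (tb_inj e c k s h h1)
    rw [h.add2, tP_ed e c k s h P, tP_ed e c k s h P, h2]
  · obtain ⟨v, rfl⟩ := e.surjective v
    obtain ⟨i, rfl⟩ : ∃ i', i = s * i' + c v := ⟨s * (i - c v), (h.inv' _ _).symm⟩
    have h1 : (tP e c k s P).adj (.inl (.x (e v) (s * i + c v))) =
      tb e c k s (P.adj (.inl (.x v i))) := tP_adj e c k s h P (.inl (.x v i))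
    rw [h1] at hi ⊢
    rw [tP_ed e c k s h P, hP.ed_e v i ((tb_end e c k s _).mp hi)]
  · obtain ⟨v, rfl⟩ := e.surjective v
    obtain ⟨i, rfl⟩ : ∃ i', i = s * i' + c v := ⟨s * (i - c v), (h.inv' _ _).symm⟩
    rw [h.add2, tP_ed e c k s h P, tP_ed e c k s h P, tP_opp e c k s h P, hP.opp_ed]

private theorem tP_reach {b : Bead V N Empty Unit} {d : SD V Empty Unit}
    (hr : Reach P.adj b d) : Reach (tP e c k s P).adj (tb e c k s b) (tau e c k s d) := by
  induction hr with
  | @site b d hb =>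
    refine Reach.site ?_
    rw [tP_adj e c k s h P, hb]
    rfl
  | @node b a cc d hb _ ih =>
    refine Reach.node (a := a) (c := cc) ?_ ih
    rw [tP_adj e c k s h P, hb]
    rfl

private theorem tP_same {sh sh' : ZMod 4 → Prop} (hsh : ∀ i, sh' (s * i + k + t) ↔ sh i)
    (b b' : Bead V N Empty Unit) :
    SameNode (fun _ => sh') (tb e c k s b) (tb e c k s b') ↔ SameNode (fun _ => sh) b b' := by
  have hinj : ∀ i j : ZMod 4, s * i + k = s * j + k ↔ i = j := by
    intro i j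
    constructor
    · intro hij
      rw [← h.inv i k, hij, h.inv j k]
    · rintro rfl; rfl
  rcases b with (⟨v, i⟩ | ⟨a, i⟩ | ⟨a, i⟩) | ⟨a, i⟩
  · exact Iff.rfl
  · exact a.elim
  · rcases b' with (⟨w, j⟩ | ⟨a', j⟩ | ⟨a', j⟩) | a'
    · exact Iff.rfl
    · exact a'.elim
    · show (() = () ∧ (s * i + k = s * j + k ∨ (s * j + k = s * i + k + 1 ∧ sh' (s * i + k)) ∨
        (s * i + k = s * j + k + 1 ∧ sh' (s * j + k)))) ↔
        (a = a' ∧ (i = j ∨ (j = i + 1 ∧ sh i) ∨ (i = j + 1 ∧ sh j)))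
      rw [hinj]
      rcases h.dt with ⟨hs, ht, -⟩ | ⟨hs, ht, -⟩
      · have e1 : ∀ x : ZMod 4, s * x + k + 1 = s * (x + 1) + k := by intro x; rw [hs]; ring
        rw [ht] at hsh
        simp only [add_zero] at hsh
        rw [e1, e1, hinj, hinj, hsh, hsh]
      · have e1 : ∀ x y : ZMod 4, s * y + k = s * x + k + 1 ↔ x = y + 1 := by
          intro x y
          have e2 : s * x + k + 1 = s * (x + 3) + k := by
            have e0 : (1 : ZMod 4) = 3 * 3 := by decide
            rw [hs, mul_add, ← e0]; ring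
          rw [e2, hinj]
          clear e2
          revert x y
          decide
        have e3 : ∀ y : ZMod 4, sh' (s * (y + 1) + k) ↔ sh y := by
          intro y
          rw [← hsh y]
          have e2 : s * (y + 1) + k = s * y + k + t := by rw [hs, ht]; ring
          rw [e2]
        rw [e1, e1]
        constructor
        · rintro ⟨-, h1 | ⟨h1, h2⟩ | ⟨h1, h2⟩⟩
          · exact ⟨rfl, Or.inl h1⟩
          · subst h1
            exact ⟨rfl, Or.inr (Or.inr ⟨rfl, (e3 _).mp h2⟩)⟩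
          · subst h1
            exact ⟨rfl, Or.inr (Or.inl ⟨rfl, (e3 _).mp h2⟩)⟩
        · rintro ⟨-, h1 | ⟨h1, h2⟩ | ⟨h1, h2⟩⟩
          · exact ⟨rfl, Or.inl h1⟩
          · subst h1
            exact ⟨rfl, Or.inr (Or.inr ⟨rfl, (e3 _).mpr h2⟩)⟩
          · subst h1
            exact ⟨rfl, Or.inr (Or.inl ⟨rfl, (e3 _).mpr h2⟩)⟩
    · exact Iff.rfl
  · rcases b' with (⟨w, j⟩ | ⟨a', j⟩ | ⟨a', j⟩) | ⟨a', j⟩
    · exact Iff.rfl
    · exact a'.elim
    · exact Iff.rfl
    · exact Iff.rfl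

private theorem tP_valid {sh sh' : ZMod 4 → Prop} (hsh : ∀ i, sh' (s * i + k + t) ↔ sh i)
    {p : Bead V N Empty Unit → H} {p' : Bead V' N Empty Unit → H}
    (hp : ∀ b, p' (tb e c k s b) = ρ (p b))
    (hq : s = 3 → ∀ i, sh i → p (.inl (.o () (i + 1))) = p (.inl (.o () i)))
    (hv : P.Valid (fun _ => sh) p) : (tP e c k s P).Valid (fun _ => sh') p' := by
  refine ⟨fun v i => ?_, fun v i w j hij => ?_, fun a => ?_, fun a => a.elim, fun a i hi => ?_,
    fun b b' hb hb' hab => ?_⟩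
  · obtain ⟨v, rfl⟩ := e.surjective v
    obtain ⟨i, rfl⟩ : ∃ i', i = s * i' + c v := ⟨s * (i - c v), (h.inv' _ _).symm⟩
    rw [tP_kap e c k s h P hp]
    exact hv.cr v i
  · obtain ⟨v, rfl⟩ := e.surjective v
    obtain ⟨w, rfl⟩ := e.surjective w
    obtain ⟨i, rfl⟩ : ∃ i', i = s * i' + c v := ⟨s * (i - c v), (h.inv' _ _).symm⟩
    obtain ⟨j, rfl⟩ : ∃ j', j = s * j' + c w := ⟨s * (j - c w), (h.inv' _ _).symm⟩
    have h1 : (tP e c k s P).adj (tb e c k s (.inl (.x v i))) = tb e c k s (.inl (.x w j)) := hij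
    rw [tP_adj e c k s h P] at h1
    have h2 := hv.ord v i w j (tb_inj e c k s h h1)
    rw [h.add2, h.add2, tP_kap e c k s h P hp, tP_kap e c k s h P hp, tP_kap e c k s h P hp,
      tP_kap e c k s h P hp]
    exact h2
  · have h1 := hv.bend a
    have e1 : p' (.inr (a, true)) = ρ (p (.inr (a, true))) := hp (.inr (a, true))
    have e2 : p' ((tP e c k s P).opp (.inr (a, true))) = ρ (p (P.opp (.inr (a, true)))) := by
      rw [← hp, ← tP_opp e c k s h P]; rfl
    have e3 : p' ((tP e c k s P).opp (.inr (a, false))) = ρ (p (P.opp (.inr (a, false)))) := by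
      rw [← hp, ← tP_opp e c k s h P]; rfl
    rw [e1, e2, e3]
    rcases h.dt with ⟨-, -, hd⟩ | ⟨-, -, hd⟩
    · rw [hd]; exact h1
    · rw [hd]; exact neg_ne_zero.mpr h1
  · have e1 : ∀ j, p' (.inl (.o () (s * j + k))) = ρ (p (.inl (.o () j))) :=
      fun j => hp (.inl (.o () j))
    have e2 : ∀ j, p' ((tP e c k s P).opp (.inl (.o () (s * j + k)))) =
        ρ (p (P.opp (.inl (.o () j)))) := by
      intro j; rw [← hp, ← tP_opp e c k s h P]; rfl
    have ha : a = () := rfl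
    subst ha
    rcases h.dt with ⟨hs, ht, hd⟩ | ⟨hs, ht, hd⟩
    · obtain ⟨i, rfl⟩ : ∃ i', i = s * i' + k := ⟨s * (i - k), (h.inv' _ _).symm⟩
      have e3 : s * i + k + 1 = s * (i + 1) + k := by rw [hs]; ring
      rw [e3, e1, e2, e2, hd]
      refine hv.shr () i ((hsh i).mp ?_)
      rw [ht, add_zero]; exact hi
    · obtain ⟨i, rfl⟩ : ∃ i', i = s * (i' + 1) + k :=
        ⟨s * (i - k) - 1, by rw [sub_add_cancel]; exact (h.inv' _ _).symm⟩
      have e3 : s * (i + 1) + k + 1 = s * i + k := by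
        have e0 : (3 : ZMod 4) + 1 = 0 := by decide
        have e4 : s * (i + 1) + k + 1 = s * i + k + (s + 1) := by ring
        rw [e4, hs, e0, add_zero]
      have e5 : s * (i + 1) + k = s * i + k + t := by rw [hs, ht]; ring
      have hi' : sh i := (hsh i).mp (by rw [← e5]; exact hi)
      rw [e3, e1, e2, e2, hd, hq hs i hi']
      have h1 := hv.shr () i hi'
      simp only [dt] at h1 ⊢
      linarith
  · obtain ⟨b, rfl⟩ := tb_surj e c k s h b
    obtain ⟨b', rfl⟩ := tb_surj e c k s h b'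
    obtain ⟨a1, a2, a3, a4, a5⟩ := hab
    rw [tP_opp e c k s h P, tP_opp e c k s h P, hp, hp, hp, hp]
    refine h.sep (hv.sep b b' ((tb_end e c k s b).mp hb) ((tb_end e c k s b').mp hb') ?_)
    rw [tP_same e c k s h hsh] at a1
    rw [tP_opp e c k s h P, tP_same e c k s h hsh] at a2
    rw [tP_opp e c k s h P, tP_same e c k s h hsh] at a3
    rw [tP_opp e c k s h P, tP_opp e c k s h P, tP_same e c k s h hsh] at a4
    refine ⟨a1, a2, a3, a4, ?_⟩
    rintro ⟨v, i, h1, h2⟩
    apply a5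
    refine ⟨e v, s * i + c v, by rw [tP_ed e c k s h P, h1], ?_⟩
    rcases h.dt with ⟨hs, -, -⟩ | ⟨hs, -, -⟩
    · have e1 : s * i + c v + 3 = s * (i + 3) + c v := by rw [hs]; ring
      have e2 : s * i + c v + 1 = s * (i + 1) + c v := by rw [hs]; ring
      rw [e1, e2, tP_ed e c k s h P, tP_ed e c k s h P]
      rcases h2 with h2 | h2
      · left; rw [h2]
      · right; rw [h2]
    · have e1 : s * i + c v + 3 = s * (i + 1) + c v := by rw [hs]; ring
      have e2 : s * i + c v + 1 = s * (i + 3) + c v := by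
        have e0 : (1 : ZMod 4) = 3 * 3 := by decide
        rw [hs, mul_add, ← e0]; ring
      rw [e1, e2, tP_ed e c k s h P, tP_ed e c k s h P]
      rcases h2 with h2 | h2
      · right; rw [h2]
      · left; rw [h2]

end

private theorem Dr.gen {V V' : Type} [Fintype V] [Fintype V'] (e : V ≃ V') (c : V → ZMod 4)
    (k s t : ZMod 4) (ρ : H → H) (h : Ori s t ρ) {α : Tg V} {α' : Tg V'}
    (hα : ∀ d, α' (tau e c k s d) = tau e c k s (α d)) {sh sh' : ZMod 4 → Prop}
    (hsh : ∀ i, sh' (s * i + k + t) ↔ sh i) {D D' : ZMod 4 → H}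
    (hD' : ∀ i, D' (s * i + k) = ρ (D i)) (hsd : s = 3 → ∀ i, sh i → D (i + 1) = D i)
    (hD : Dr α sh D) : Dr α' sh' D' := by
  intro u' hu1 hu2
  have hD2 : ∀ j, D' j = ρ (D (s * (j - k))) := by
    intro j
    rw [← hD', h.inv']
  obtain ⟨N, iN, P, L, hcard, hok, hreal, hport, hnorm, hLo, hval, hrig⟩ :=
    hD (fun i => u' (s * i + k)) (by
      intro i hi
      have h1 := hu1 _ ((hsh i).mpr hi)
      show u' (s * (i + 1) + k) = u' (s * i + k)
      rcases h.dt with ⟨hs, ht, -⟩ | ⟨hs, ht, -⟩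
      · rw [ht, add_zero] at h1
        rw [← h1, hs]
        congr 1; ring
      · have e3 : s * i + k + t + 1 = s * i + k := by
          have e0 : (3 : ZMod 4) + 1 = 0 := by decide
          rw [add_assoc, ht, e0, add_zero]
        have e4 : s * (i + 1) + k = s * i + k + t := by rw [hs, ht]; ring
        rw [e3] at h1
        rw [e4, h1]) (by
      rintro ⟨l, hl⟩
      apply hu2
      refine ⟨ρ l, fun j => ?_⟩
      rw [hD2, h.dot, ← hl]
      show u' j = u' (s * (s * (j - k)) + k)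
      rw [h.inv'])
  let L' : Lab N Empty Unit H :=
    { n := fun a => ρ (L.n a)
      f := fun a => a.elim
      o := fun _ i => ρ (L.o () (s * (i - k))) }
  have hp : ∀ b, L'.at (tb e c k s b) = ρ (L.at b) := by
    intro b
    rcases b with (⟨v, i⟩ | ⟨a, i⟩ | ⟨a, i⟩) | a
    · show (0 : H) = ρ 0
      rcases h with ⟨-, -, rfl⟩ | ⟨-, -, rfl⟩
      · rfl
      · ext i; fin_cases i <;> simp
    · exact a.elim
    · show ρ (L.o () (s * (s * i + k - k))) = ρ (L.o a i)
      rw [h.inv]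
    · rfl
  refine ⟨N, iN, tP e c k s P, L', ?_, tP_ok e c k s h P hok, ?_, ?_, ?_, ?_, ?_, ?_⟩
  · rw [hcard]; exact Fintype.card_congr e
  · refine ⟨fun d => ?_, fun a cc => ?_⟩
    · obtain ⟨d, rfl⟩ : ∃ d', d = tau e c k s d' := ⟨_, (tau_tauI e c k s h d).symm⟩
      rw [hα]
      exact tP_reach e c k s h P (hreal.site d)
    · obtain ⟨d, hd⟩ := hreal.node a cc
      exact ⟨_, tP_reach e c k s h P hd⟩
  · intro i
    obtain ⟨i, rfl⟩ : ∃ i', i = s * i' + k := ⟨s * (i - k), (h.inv' _ _).symm⟩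
    obtain ⟨a, b, hab⟩ := hport i
    refine ⟨a, b, ?_⟩
    have h1 := tP_opp e c k s h P (.inl (.o () i))
    rw [hab] at h1
    exact h1
  · refine ⟨fun a => ?_, fun a => a.elim, fun a i => ?_⟩
    · show ρ (L.n a) 2 = 1
      rw [h.c2]; exact hnorm.n a
    · show ρ (L.o () _) 2 = 0
      rw [h.c2]; exact hnorm.o () _
  · intro i
    show ρ (L.o () (s * (i - k))) = D' i
    rw [hLo, hD2]
  · refine tP_valid e c k s h P hsh hp ?_ hval
    intro hs i hi
    show L.o () (i + 1) = L.o () i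
    rw [hLo, hLo]
    exact hsd hs i hi
  · intro z' hz1 _ hz3
    let z : Lab N Empty Unit ℝ :=
      { n := z'.n
        f := fun a => a.elim
        o := fun _ i => z'.o () (s * i + k) }
    have hz : ∀ b, IsEnd b → z'.at (tb e c k s b) = z.at b := by
      intro b hb
      rcases b with (⟨v, i⟩ | ⟨a, i⟩ | ⟨a, i⟩) | a
      · exact hb.elim
      · exact a.elim
      · rfl
      · rfl
    have hsol : P.Sol L z := by
      intro v
      have h1 := hz1 (e v)
      unfold Pic.row at h1 ⊢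
      refine rw4_tr h (c v) (fun i => L.at (P.ed v i)) (fun i => z.at (P.ed v i)) ?_
      have e1 : ∀ i, (tP e c k s P).ed (e v) i = tb e c k s (P.ed v (s * (i - c v))) := by
        intro i
        rw [← tP_ed e c k s h P, h.inv']
      simp only [e1, hp] at h1
      have e2 : ∀ i, z'.at (tb e c k s (P.ed v (s * (i - c v)))) =
          z.at (P.ed v (s * (i - c v))) := fun i => hz _ (hok.ed_end _ _)
      simp only [e2] at h1
      exact h1
    obtain ⟨l, hl1, -, hl3⟩ := hrig z hsol (fun a => a.elim) (by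
      obtain ⟨t0, ht0⟩ := hz3
      exact ⟨t0, fun a i => ht0 () (s * i + k)⟩)
    refine ⟨ρ l, fun a => ?_, fun a => a.elim, fun a i => ?_⟩
    · show z'.n a = dot (ρ l) (ρ (L.n a))
      rw [h.dot]; exact hl1 a
    · show z'.o a i = dot (ρ l) (ρ (L.o () (s * (i - k))))
      rw [h.dot, ← hl3]
      show z'.o a i = z'.o () (s * (s * (i - k)) + k)
      rw [h.inv']

theorem Dr.congr {V V' : Type} [Fintype V] [Fintype V'] (e : V ≃ V') (c : V → ZMod 4)
    {α : Tg V} {α' : Tg V'} (h : ∀ d, α' (rel e c 0 d) = rel e c 0 (α d))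
    {sh : ZMod 4 → Prop} {D : ZMod 4 → H} (hD : Dr α sh D) : Dr α' sh D := by
  have e1 : ∀ d, rel e c 0 d = tau e c 0 1 d := by
    intro d
    rcases d with ⟨v, i⟩ | ⟨a, i⟩ | ⟨a, i⟩
    · simp only [rel, tau, one_mul]
    · exact a.elim
    · simp only [rel, tau, one_mul]
  refine Dr.gen e c 0 1 0 id (Or.inl ⟨rfl, rfl, rfl⟩) (fun d => ?_) (fun i => ?_) (fun i => ?_)
    (fun h0 => absurd h0 (by decide)) hD
  · rw [← e1, ← e1, h]
  · rw [one_mul, add_zero, add_zero]
  · rw [one_mul, add_zero]; rfl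

theorem Dr.rot {V : Type} [Fintype V] (k : ZMod 4) {α : Tg V} {sh : ZMod 4 → Prop}
    {D : ZMod 4 → H} (hD : Dr α sh D) :
    Dr (SN78.rot k α) (fun i => sh (i - k)) (fun i => D (i - k)) := by
  have e1 : ∀ d, rel id (fun _ : V => 0) k d = tau (Equiv.refl V) (fun _ => 0) k 1 d := by
    intro d
    rcases d with ⟨v, i⟩ | ⟨a, i⟩ | ⟨a, i⟩
    · simp only [rel, tau, one_mul]; rfl
    · exact a.elim
    · simp only [rel, tau, one_mul]
  have e2 : ∀ d, rel id (fun _ : V => 0) (-k) (rel id (fun _ : V => 0) k d) = d := by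
    intro d
    rcases d with ⟨v, i⟩ | ⟨a, i⟩ | ⟨a, i⟩
    · simp only [rel, add_zero, id]
    · exact a.elim
    · simp only [rel, add_neg_cancel_right]
  refine Dr.gen (Equiv.refl V) (fun _ => 0) k 1 0 id (Or.inl ⟨rfl, rfl, rfl⟩) (fun d => ?_)
    (fun i => ?_) (fun i => ?_) (fun h0 => absurd h0 (by decide)) hD
  · rw [← e1, ← e1]
    show rel id (fun _ => 0) k (α (rel id (fun _ => 0) (-k) (rel id (fun _ => 0) k d))) = _
    rw [e2]
  · show sh (1 * i + k + 0 - k) ↔ sh i
    rw [one_mul, add_zero, add_sub_cancel_right]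
  · show D (1 * i + k - k) = D i
    rw [one_mul, add_sub_cancel_right]

theorem Dr.refl {V : Type} [Fintype V] {α : Tg V} {sh : ZMod 4 → Prop}
    {D : ZMod 4 → H} (hsd : ∀ i, sh i → D (i + 1) = D i) (hD : Dr α sh D) :
    Dr (SN78.refl α) (fun i => sh (2 - i)) (rflD D) := by
  have e0 : ∀ i : ZMod 4, 3 - i = 3 * i + 3 := by decide
  have e1 : ∀ d : SD V Empty Unit, rfl4 d = tau (Equiv.refl V) (fun _ => 3) 3 3 d := by
    intro d
    rcases d with ⟨v, i⟩ | ⟨a, i⟩ | ⟨a, i⟩
    · simp only [rfl4, tau, e0]; rfl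
    · exact a.elim
    · simp only [rfl4, tau, e0]
  have e2 : ∀ d : SD V Empty Unit, rfl4 (rfl4 d) = d := by
    intro d
    rcases d with ⟨v, i⟩ | ⟨a, i⟩ | ⟨a, i⟩
    · simp only [rfl4, sub_sub_cancel]
    · exact a.elim
    · simp only [rfl4, sub_sub_cancel]
  refine Dr.gen (Equiv.refl V) (fun _ => 3) 3 3 3 (fun p => ![p 0, - p 1, p 2])
    (Or.inr ⟨rfl, rfl, rfl⟩) (fun d => ?_) (fun i => ?_) (fun i => ?_) (fun _ => hsd) hD
  · rw [← e1, ← e1]
    show rfl4 (α (rfl4 (rfl4 d))) = _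
    rw [e2]
  · show sh (2 - (3 * i + 3 + 3)) ↔ sh i
    have e3 : ∀ i : ZMod 4, 2 - (3 * i + 3 + 3) = i := by decide
    rw [e3]
  · show ![D (3 - (3 * i + 3)) 0, - D (3 - (3 * i + 3)) 1, D (3 - (3 * i + 3)) 2] = _
    have e3 : ∀ i : ZMod 4, 3 - (3 * i + 3) = i := by decide
    rw [e3]

end SN78
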