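import Pool.Agent.SN78.Parent
import Pool.Agent.SN78.Plane
import Pool.Agent.SN78.Sym

/-!
# SN78 module ADDB: adding one crossing on the left

The parent picture `pB`: one crossing `v`, one big vertex `X` (for the tangle `T'`), one plain node `z`.
`X` is at the origin, `z` at `w`.  Sticks: `X` (dart 0) to the far point `D 0`; `X` (dart 1) through
`v` to the far point `D 2`; `X` (dart 2) to `z` (side `true`); `z` (side `false`) through `v` to the
far point `D 1`; `X` (dart 3) to the far point `D 3`.  At `v`: dart 0 leads to `X` (its dart 1), dart 1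
to the outer point 1, dart 2 to the outer point 2, dart 3 to `z`.

`w = D 2 + ε • D 3` with small `ε > 0` satisfies `d2 (D 2) w > 0`, `d2 w (D 3) > 0`,
`d2 (D 0) w > 0` (from `ha`), `d2 (D 1) w > 0` (as `d2 (D 1) (D 2) > 0`).
The directions seen by `X` are `D' = (D 0, D 2, w, D 3)`; so `Pos D'`
(`d2 (D 0) (D 2) > 0`, `d2 (D 2) w > 0`, `d2 w (D 3) > 0`, `d2 (D 3) (D 0) > 0`), and
`d2 (D' 0) (D' 2) = d2 (D 0) w > 0`, `d2 (D' 1) (D' 3) = d2 (D 2) (D 3) > 0`, as `Gmm` requires.

Validity.  Positions: `X = (0,0,1)`, `z = (w 0, w 1, 1)`, outer `D i = (.., .., 0)`.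
`kap v 0 = dt z X (D 1) = d2 (D 1) w`, `kap v 1 = dt X (D 1) (D 2) = d2 (D 1) (D 2)`,
`kap v 2 = dt (D 1) (D 2) z = d2 (D 1) (D 2)`, `kap v 3 = dt (D 2) z X = d2 (D 2) w`; all positive.
`ord`: no two crossings.  `bend` at `z`: `dt z X (D 1) > 0`.  `fat` at `X`: `Pos D'`.
`shr` if `sh = only 0`: `dt (D 0) z X = d2 (D 0) w > 0`.
`sep`: the only pairs which are apart are the stick `z - D 1` with `X - D 0` (if `sh = no`) and with
`X - D 3`.  A functional positive at `z, D 1`, negative at `X, D 0`: by `exists_func` there is `l` with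
`l 2 = 0`, positive at `D 1, w` (`d2 (D 1) w > 0`) and negative at `D 0` (since
`d2 (D 1) (D 0) < 0` if `sh = no`); then change `l 2` to a small negative number.  For `D 3`:
`d2 (D 3) w < 0`.

Rigidity.  Let `κ i = kap v i`.  The height equation of `v` is
`κ 2 * z_X + κ 0 * t u 2 = κ 3 * t u 1 + κ 1 * z_z`, `κ 1 = κ 2 = d2 (D 1) (D 2)`, so
`z_z = z_X + t ζ` with `ζ = (κ 0 * u 2 - κ 3 * u 1) / κ 1`.  The slopes at `X` are `t • u'`,
`u' = (u 0, u 2, ζ, u 3)`.  `u'` is not linear in `D'`: if `dot l (D' i) = u' i` then from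
`κ 1 • w = κ 0 • D 2 - κ 3 • D 1` (first two coordinates) we get
`κ 1 * ζ = κ 0 * u 2 - κ 3 * dot l (D 1)`, so `u 1 = dot l (D 1)` and `u` is linear in `D`,
contradiction.  By `exists_orth` choose `r` with `∑ r i • D' i = 0` and `∑ r i * u' i ≠ 0`.  Then
the equation at `X` gives `t = 0`, so `z_z = z_X`, and `z` is affine with `l = (0, 0, z_X)`.

The theorem: `Dr.of_parent` gives `Dr (glueA aB (fun _ => α')) sh D` on the crossings
`Unit ⊕ (Σ _ : Unit, V')`; transport by `Dr.congr` along the obvious bijection to `Unit ⊕ V'`; the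
shadows agree (`Proper α'` shows that the default cases of `lf`, `incA`, `outA` do not occur).
-/

namespace SN78

open Sum

/-- the parent picture for adding a crossing on the left -/
def pB : Pic Unit Unit Unit Unit where
  adj
    | inl (.x _ i) => if i = 0 then inl (.f () 1) else if i = 1 then inl (.o () 1)
        else if i = 2 then inl (.o () 2) else inr ((), false)
    | inl (.f _ i) => if i = 0 then inl (.o () 0) else if i = 1 then inl (.x () 0)
        else if i = 2 then inr ((), true) else inl (.o () 3)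
    | inl (.o _ i) => if i = 0 then inl (.f () 0) else if i = 1 then inl (.x () 1)
        else if i = 2 then inl (.x () 2) else inl (.f () 3)
    | inr (_, b) => if b then inl (.f () 2) else inl (.x () 3)
  ed _ i := if i = 0 then inl (.f () 1) else if i = 1 then inl (.o () 1)
        else if i = 2 then inl (.o () 2) else inr ((), false)

/-- its shadow -/
def aB : SD Unit Unit Unit → SD Unit Unit Unit
  | .x _ i => if i = 0 then .f () 1 else if i = 1 then .o () 1
      else if i = 2 then .o () 2 else .f () 2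
  | .f _ i => if i = 0 then .o () 0 else if i = 1 then .x () 0
      else if i = 2 then .x () 3 else .o () 3
  | .o _ i => if i = 0 then .f () 0 else if i = 1 then .x () 1
      else if i = 2 then .x () 2 else .f () 3

/-- its positions -/
def lB (D : ZMod 4 → H) (w : H) : Lab Unit Unit Unit H where
  n := fun _ => ![w 0, w 1, 1]
  f := fun _ => ![0, 0, 1]
  o := fun _ i => D i

private theorem z4B (i : ZMod 4) : i = 0 ∨ i = 1 ∨ i = 2 ∨ i = 3 := by
  revert i; decide

private theorem okB : pB.Ok where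
  adj_adj := by
    rintro ((⟨⟨⟩, i⟩ | ⟨⟨⟩, i⟩ | ⟨⟨⟩, i⟩) | ⟨⟨⟩, b⟩)
    · rcases z4B i with rfl | rfl | rfl | rfl <;> rfl
    · rcases z4B i with rfl | rfl | rfl | rfl <;> rfl
    · rcases z4B i with rfl | rfl | rfl | rfl <;> rfl
    · cases b <;> rfl
  adj_ne := by
    rintro ((⟨⟨⟩, i⟩ | ⟨⟨⟩, i⟩ | ⟨⟨⟩, i⟩) | ⟨⟨⟩, b⟩)
    · rcases z4B i with rfl | rfl | rfl | rfl <;> decide
    · rcases z4B i with rfl | rfl | rfl | rfl <;> decide
    · rcases z4B i with rfl | rfl | rfl | rfl <;> decide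
    · cases b <;> decide
  ed_end := by
    rintro ⟨⟩ i
    rcases z4B i with rfl | rfl | rfl | rfl <;> exact trivial
  ed_x := by
    rintro ⟨⟩ i ⟨⟩ j h
    exfalso
    revert h
    rcases z4B i with rfl | rfl | rfl | rfl <;> rcases z4B j with rfl | rfl | rfl | rfl <;> decide
  ed_e := by
    rintro ⟨⟩ i _
    rcases z4B i with rfl | rfl | rfl | rfl <;> rfl
  opp_ed := by
    rintro ⟨⟩ i
    rcases z4B i with rfl | rfl | rfl | rfl <;> rfl

private theorem realB : pB.Real aB where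
  site := by
    rintro (⟨⟨⟩, i⟩ | ⟨⟨⟩, i⟩ | ⟨⟨⟩, i⟩)
    · rcases z4B i with rfl | rfl | rfl | rfl
      · exact Reach.site rfl
      · exact Reach.site rfl
      · exact Reach.site rfl
      · exact Reach.node (a := ()) (c := false) rfl (Reach.site rfl)
    · rcases z4B i with rfl | rfl | rfl | rfl
      · exact Reach.site rfl
      · exact Reach.site rfl
      · exact Reach.node (a := ()) (c := true) rfl (Reach.site rfl)
      · exact Reach.site rfl
    · rcases z4B i with rfl | rfl | rfl | rfl <;> exact Reach.site rfl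
  node := by
    rintro ⟨⟩ c
    cases c
    · exact ⟨.x () 3, Reach.site rfl⟩
    · exact ⟨.f () 2, Reach.site rfl⟩

private theorem endsB (e : Bead Unit Unit Unit Unit) (he : IsEnd e) :
    e = inl (.f () 0) ∨ e = inl (.f () 1) ∨ e = inl (.f () 2) ∨ e = inl (.f () 3) ∨
    e = inl (.o () 0) ∨ e = inl (.o () 1) ∨ e = inl (.o () 2) ∨ e = inl (.o () 3) ∨
    e = inr ((), true) ∨ e = inr ((), false) := by
  rcases e with (⟨⟨⟩, i⟩ | ⟨⟨⟩, i⟩ | ⟨⟨⟩, i⟩) | ⟨⟨⟩, b⟩
  · exact he.elim
  · rcases z4B i with rfl | rfl | rfl | rfl <;> simp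
  · rcases z4B i with rfl | rfl | rfl | rfl <;> simp
  · cases b <;> simp

private theorem oppB_f0 : pB.opp (inl (.f () 0)) = inl (.o () 0) := rfl
private theorem oppB_f1 : pB.opp (inl (.f () 1)) = inl (.o () 2) := rfl
private theorem oppB_f2 : pB.opp (inl (.f () 2)) = inr ((), true) := rfl
private theorem oppB_f3 : pB.opp (inl (.f () 3)) = inl (.o () 3) := rfl
private theorem oppB_o0 : pB.opp (inl (.o () 0)) = inl (.f () 0) := rfl
private theorem oppB_o1 : pB.opp (inl (.o () 1)) = inr ((), false) := rfl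
private theorem oppB_o2 : pB.opp (inl (.o () 2)) = inl (.f () 1) := rfl
private theorem oppB_o3 : pB.opp (inl (.o () 3)) = inl (.f () 3) := rfl
private theorem oppB_nt : pB.opp (inr ((), true)) = inl (.f () 2) := rfl
private theorem oppB_nf : pB.opp (inr ((), false)) = inl (.o () 1) := rfl

/-- the two pairs of sticks which can be apart -/
private theorem apartB {sh : ZMod 4 → Prop} {e e' : Bead Unit Unit Unit Unit} (he : IsEnd e)
    (he' : IsEnd e') (h : pB.Apart (fun _ => sh) e e') :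
    ((e = inl (.f () 0) ∨ e = inl (.o () 0) ∨ e = inl (.f () 3) ∨ e = inl (.o () 3)) ∧
      (e' = inl (.o () 1) ∨ e' = inr ((), false))) ∨
    ((e' = inl (.f () 0) ∨ e' = inl (.o () 0) ∨ e' = inl (.f () 3) ∨ e' = inl (.o () 3)) ∧
      (e = inl (.o () 1) ∨ e = inr ((), false))) := by
  obtain ⟨h1, h2, h3, h4, h5⟩ := h
  rcases endsB e he with rfl | rfl | rfl | rfl | rfl | rfl | rfl | rfl | rfl | rfl <;>
  rcases endsB e' he' with rfl | rfl | rfl | rfl | rfl | rfl | rfl | rfl | rfl | rfl <;>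
  first
    | (refine Or.inl ⟨?_, ?_⟩ <;> (simp; done))
    | (refine Or.inr ⟨?_, ?_⟩ <;> (simp; done))
    | exact absurd (Eq.refl ()) h1
    | exact absurd (Eq.refl ()) h2
    | exact absurd (Eq.refl ()) h3
    | exact absurd (Eq.refl ()) h4
    | exact absurd (And.intro (Eq.refl ()) (Or.inl (Eq.refl _))) h1
    | exact absurd (And.intro (Eq.refl ()) (Or.inl (Eq.refl _))) h2
    | exact absurd (And.intro (Eq.refl ()) (Or.inl (Eq.refl _))) h3
    | exact absurd (And.intro (Eq.refl ()) (Or.inl (Eq.refl _))) h4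
    | (exfalso; apply h5; refine ⟨(), 0, ?_⟩; decide)
    | (exfalso; apply h5; refine ⟨(), 1, ?_⟩; decide)
    | (exfalso; apply h5; refine ⟨(), 2, ?_⟩; decide)
    | (exfalso; apply h5; refine ⟨(), 3, ?_⟩; decide)

/-- separation of a stick at the origin from the stick `z - D 1` -/
private theorem sepB {w d v : H} (hw : w 2 = 0) (hd : d 2 = 0) (hv : v 2 = 0) (h : 0 < d2 d w)
    (hn : ¬ (0 ≤ d2 d v ∧ 0 ≤ d2 v w)) :
    Sep ![w 0, w 1, 1] d ![0, 0, 1] v := by
  obtain ⟨l, h2, hl1, hl2, hl3⟩ := exists_func hd hw hv h hn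
  refine ⟨![l 0, l 1, - (dot l w / 2)], ?_, ?_, ?_, ?_⟩
  · have e : dot ![l 0, l 1, - (dot l w / 2)] ![w 0, w 1, 1] = dot l w / 2 := by
      simp only [dot, hw, h2]; simp; ring
    rw [e]; linarith
  · have e : dot ![l 0, l 1, - (dot l w / 2)] d = dot l d := by
      simp only [dot, hd, h2]; simp
    rw [e]; exact hl1
  · have e : dot ![l 0, l 1, - (dot l w / 2)] ![0, 0, 1] = - (dot l w / 2) := by
      simp only [dot]; simp
    rw [e]; linarith
  · have e : dot ![l 0, l 1, - (dot l w / 2)] v = dot l v := by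
      simp only [dot, hv, h2]; simp
    rw [e]; exact hl3

private theorem small_eps {p q p' q' : ℝ} (hp : 0 < p) (hp' : 0 < p') :
    ∃ ε : ℝ, 0 < ε ∧ 0 < p + ε * q ∧ 0 < p' + ε * q' := by
  have key : ∀ {p q ε : ℝ}, 0 < p → 0 < ε → ε ≤ p / (|q| + 1) → 0 < p + ε * q := by
    intro p q ε hp he h
    have h1 : 0 < |q| + 1 := by positivity
    have h2 : ε * (|q| + 1) ≤ p := by rwa [le_div_iff₀ h1] at h
    have h3 : -(ε * |q|) ≤ ε * q := by
      have := neg_abs_le q
      nlinarith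
    nlinarith
  refine ⟨min (p / (|q| + 1)) (p' / (|q'| + 1)), by positivity, ?_, ?_⟩
  · exact key hp (by positivity) (min_le_left _ _)
  · exact key hp' (by positivity) (min_le_right _ _)

/-- the directions seen by the big vertex -/
private def DB (D : ZMod 4 → H) (w : H) : ZMod 4 → H := fun i =>
  if i = 0 then D 0 else if i = 1 then D 2 else if i = 2 then w else D 3

private theorem dirB {D : ZMod 4 → H} {w : H} (hD : ∀ i, D i 2 = 0) (hw : w 2 = 0) (i : ZMod 4) :
    pB.dir (lB D w) () i = DB D w i := by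
  have key : ∀ (d : H), d 2 = 0 → d - (d 2) • (![0, 0, 1] : H) = d := by
    intro d hd
    rw [hd, zero_smul, sub_zero]
  rcases z4B i with rfl | rfl | rfl | rfl
  · exact key _ (hD 0)
  · exact key _ (hD 2)
  · show (![w 0, w 1, 1] : H) - ((![w 0, w 1, 1] : H) 2) • (![0, 0, 1] : H) = w
    ext j
    fin_cases j <;> simp [hw]
  · exact key _ (hD 3)

private theorem validB {D : ZMod 4 → H} {w : H} {sh : ZMod 4 → Prop} (hD : ∀ i, D i 2 = 0)
    (hw : w 2 = 0) (h12 : 0 < d2 (D 1) (D 2)) (h02 : 0 < d2 (D 0) (D 2))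
    (h30 : 0 < d2 (D 3) (D 0)) (h1w : 0 < d2 (D 1) w) (h2w : 0 < d2 (D 2) w)
    (h0w : 0 < d2 (D 0) w) (hw3 : 0 < d2 w (D 3))
    (hsh : (sh = no ∧ 0 < d2 (D 0) (D 1)) ∨ sh = only 0) :
    pB.Valid (fun _ => sh) (lB D w).at where
  cr := by
    rintro ⟨⟩ i
    rcases z4B i with rfl | rfl | rfl | rfl
    · show 0 < dt ![w 0, w 1, 1] ![0, 0, 1] (D 1)
      have e : dt ![w 0, w 1, 1] ![0, 0, 1] (D 1) = d2 (D 1) w := by
        simp only [dt, d2, hD]; simp; ring
      rw [e]; exact h1w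
    · show 0 < dt ![0, 0, 1] (D 1) (D 2)
      have e : dt ![0, 0, 1] (D 1) (D 2) = d2 (D 1) (D 2) := by
        simp only [dt, d2, hD]; simp
      rw [e]; exact h12
    · show 0 < dt (D 1) (D 2) ![w 0, w 1, 1]
      have e : dt (D 1) (D 2) ![w 0, w 1, 1] = d2 (D 1) (D 2) := by
        simp only [dt, d2, hD]; simp
      rw [e]; exact h12
    · show 0 < dt (D 2) ![w 0, w 1, 1] ![0, 0, 1]
      have e : dt (D 2) ![w 0, w 1, 1] ![0, 0, 1] = d2 (D 2) w := by
        simp only [dt, d2, hD]; simp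
      rw [e]; exact h2w
  ord := by
    rintro ⟨⟩ i ⟨⟩ j h
    exfalso
    revert h
    rcases z4B i with rfl | rfl | rfl | rfl <;> rcases z4B j with rfl | rfl | rfl | rfl <;> decide
  bend := by
    rintro ⟨⟩
    show dt ![w 0, w 1, 1] ![0, 0, 1] (D 1) ≠ 0
    have e : dt ![w 0, w 1, 1] ![0, 0, 1] (D 1) = d2 (D 1) w := by
      simp only [dt, d2, hD]; simp; ring
    rw [e]; exact h1w.ne'
  fat := by
    rintro ⟨⟩ i
    rcases z4B i with rfl | rfl | rfl | rfl
    · show 0 < dt ![0, 0, 1] (D 0) (D 2)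
      have e : dt ![0, 0, 1] (D 0) (D 2) = d2 (D 0) (D 2) := by
        simp only [dt, d2, hD]; simp
      rw [e]; exact h02
    · show 0 < dt ![0, 0, 1] (D 2) ![w 0, w 1, 1]
      have e : dt ![0, 0, 1] (D 2) ![w 0, w 1, 1] = d2 (D 2) w := by
        simp only [dt, d2, hD]; simp
      rw [e]; exact h2w
    · show 0 < dt ![0, 0, 1] ![w 0, w 1, 1] (D 3)
      have e : dt ![0, 0, 1] ![w 0, w 1, 1] (D 3) = d2 w (D 3) := by
        simp only [dt, d2, hD]; simp
      rw [e]; exact hw3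
    · show 0 < dt ![0, 0, 1] (D 3) (D 0)
      have e : dt ![0, 0, 1] (D 3) (D 0) = d2 (D 3) (D 0) := by
        simp only [dt, d2, hD]; simp
      rw [e]; exact h30
  shr := by
    rintro ⟨⟩ i hi
    rcases hsh with ⟨rfl, -⟩ | rfl
    · exact hi.elim
    · have hi' : i = 0 := hi
      subst hi'
      show 0 < dt (D 0) ![w 0, w 1, 1] ![0, 0, 1]
      have e : dt (D 0) ![w 0, w 1, 1] ![0, 0, 1] = d2 (D 0) w := by
        simp only [dt, d2, hD]; simp
      rw [e]; exact h0w
  sep := by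
    intro e e' he he' h
    have s3 : Sep ![w 0, w 1, 1] (D 1) ![0, 0, 1] (D 3) := by
      refine sepB hw (hD 1) (hD 3) h1w ?_
      rintro ⟨-, h2⟩
      rw [d2_swap] at h2
      linarith
    have s0 : sh = no ∧ 0 < d2 (D 0) (D 1) → Sep ![w 0, w 1, 1] (D 1) ![0, 0, 1] (D 0) := by
      rintro ⟨-, h01⟩
      refine sepB hw (hD 1) (hD 0) h1w ?_
      rintro ⟨h2, -⟩
      rw [d2_swap] at h2
      linarith
    have h' := h
    obtain ⟨h1, h2, h3, h4, h5⟩ := h'
    rcases apartB he he' h with ⟨ha, hb⟩ | ⟨ha, hb⟩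
    · rcases ha with rfl | rfl | rfl | rfl <;> rcases hb with rfl | rfl
      · rcases hsh with hs | rfl
        · exact (s0 hs).symm.right
        · exact absurd ⟨rfl, Or.inr (Or.inl ⟨rfl, rfl⟩)⟩ h3
      · rcases hsh with hs | rfl
        · exact (s0 hs).symm
        · exact absurd ⟨rfl, Or.inr (Or.inl ⟨rfl, rfl⟩)⟩ h4
      · rcases hsh with hs | rfl
        · exact (s0 hs).symm.right.left
        · exact absurd ⟨rfl, Or.inr (Or.inl ⟨rfl, rfl⟩)⟩ h1
      · rcases hsh with hs | rfl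
        · exact (s0 hs).symm.left
        · exact absurd ⟨rfl, Or.inr (Or.inl ⟨rfl, rfl⟩)⟩ h2
      · exact s3.symm.right
      · exact s3.symm
      · exact s3.symm.right.left
      · exact s3.symm.left
    · rcases ha with rfl | rfl | rfl | rfl <;> rcases hb with rfl | rfl
      · rcases hsh with hs | rfl
        · exact (s0 hs).left
        · exact absurd ⟨rfl, Or.inr (Or.inr ⟨rfl, rfl⟩)⟩ h2
      · rcases hsh with hs | rfl
        · exact (s0 hs)
        · exact absurd ⟨rfl, Or.inr (Or.inr ⟨rfl, rfl⟩)⟩ h4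
      · rcases hsh with hs | rfl
        · exact (s0 hs).right.left
        · exact absurd ⟨rfl, Or.inr (Or.inr ⟨rfl, rfl⟩)⟩ h1
      · rcases hsh with hs | rfl
        · exact (s0 hs).right
        · exact absurd ⟨rfl, Or.inr (Or.inr ⟨rfl, rfl⟩)⟩ h3
      · exact s3.left
      · exact s3
      · exact s3.right.left
      · exact s3.right

/-- the slopes seen by the big vertex -/
private noncomputable def uB (D : ZMod 4 → H) (w : H) (u : ZMod 4 → ℝ) : ZMod 4 → ℝ := fun i =>
  if i = 0 then u 0 else if i = 1 then u 2 else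
    if i = 2 then (d2 (D 1) w * u 2 - d2 (D 2) w * u 1) / d2 (D 1) (D 2) else u 3

private theorem uB_not {D : ZMod 4 → H} {w : H} {u : ZMod 4 → ℝ} (hD : ∀ i, D i 2 = 0)
    (hw : w 2 = 0) (h12 : 0 < d2 (D 1) (D 2)) (h2w : 0 < d2 (D 2) w)
    (hu : ¬ ∃ l : H, ∀ i, u i = dot l (D i)) : ¬ ∃ l : H, ∀ i, uB D w u i = dot l (DB D w i) := by
  rintro ⟨l, hl⟩
  apply hu
  have h0 : u 0 = dot l (D 0) := hl 0
  have h1 : u 2 = dot l (D 2) := hl 1
  have h2 : (d2 (D 1) w * u 2 - d2 (D 2) w * u 1) / d2 (D 1) (D 2) = dot l w := hl 2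
  have h3 : u 3 = dot l (D 3) := hl 3
  rw [div_eq_iff h12.ne', h1] at h2
  have h4 : dot l w * d2 (D 1) (D 2) = d2 (D 1) w * dot l (D 2) - d2 (D 2) w * dot l (D 1) := by
    simp only [dot, d2, hD, hw]; ring
  rw [h4] at h2
  have h5 : u 1 = dot l (D 1) := by
    have : d2 (D 2) w * (u 1 - dot l (D 1)) = 0 := by linarith
    rcases mul_eq_zero.1 this with h | h
    · exact absurd h h2w.ne'
    · linarith
  refine ⟨l, fun i => ?_⟩
  rcases z4B i with rfl | rfl | rfl | rfl
  · exact h0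
  · exact h5
  · exact h1
  · exact h3

private theorem rigB {D : ZMod 4 → H} {w : H} {u : ZMod 4 → ℝ} (hD : ∀ i, D i 2 = 0)
    (h12 : 0 < d2 (D 1) (D 2)) {r : ZMod 4 → ℝ}
    (hr : ∑ i, r i * uB D w u i ≠ 0) : pB.Rig (lB D w) (fun _ => r) (fun _ => u) := by
  rintro z hz hs ⟨t, ht⟩
  have hrow : d2 (D 1) (D 2) * z.f () + d2 (D 1) w * (t * u 2) - d2 (D 2) w * (t * u 1) -
      d2 (D 1) (D 2) * z.n () = 0 := by
    have h1 := hz ()
    have h2 : pB.row (lB D w).at z.at () =
        dt (D 1) (D 2) ![w 0, w 1, 1] * z.f () + dt ![w 0, w 1, 1] ![0, 0, 1] (D 1) * z.o () 2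
        - dt (D 2) ![w 0, w 1, 1] ![0, 0, 1] * z.o () 1 - dt ![0, 0, 1] (D 1) (D 2) * z.n () :=
      rfl
    have e1 : dt (D 1) (D 2) ![w 0, w 1, 1] = d2 (D 1) (D 2) := by
      simp only [dt, d2, hD]; simp
    have e2 : dt ![w 0, w 1, 1] ![0, 0, 1] (D 1) = d2 (D 1) w := by
      simp only [dt, d2, hD]; simp; ring
    have e3 : dt (D 2) ![w 0, w 1, 1] ![0, 0, 1] = d2 (D 2) w := by
      simp only [dt, d2, hD]; simp
    have e4 : dt ![0, 0, 1] (D 1) (D 2) = d2 (D 1) (D 2) := by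
      simp only [dt, d2, hD]; simp
    rw [h2, ht, ht, e1, e2, e3, e4] at h1
    exact h1
  have hslo : ∀ i, pB.slo (lB D w) z () i = t * uB D w u i := by
    intro i
    rcases z4B i with rfl | rfl | rfl | rfl
    · show z.o () 0 - (D 0) 2 * z.f () = t * u 0
      rw [ht, hD]; ring
    · show z.o () 2 - (D 2) 2 * z.f () = t * u 2
      rw [ht, hD]; ring
    · show z.n () - (![w 0, w 1, 1] : H) 2 * z.f () =
        t * ((d2 (D 1) w * u 2 - d2 (D 2) w * u 1) / d2 (D 1) (D 2))
      have e : (![w 0, w 1, 1] : H) 2 = 1 := rfl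
      rw [e, mul_div_assoc', eq_div_iff h12.ne']
      linarith
    · show z.o () 3 - (D 3) 2 * z.f () = t * u 3
      rw [ht, hD]; ring
  have ht0 : t = 0 := by
    have h1 := hs ()
    simp only [hslo] at h1
    have h2 : ∑ i, r i * (t * uB D w u i) = t * ∑ i, r i * uB D w u i := by
      rw [Finset.mul_sum]
      exact Finset.sum_congr rfl fun i _ => by ring
    rw [h2] at h1
    rcases mul_eq_zero.1 h1 with h | h
    · exact h
    · exact absurd h hr
  subst ht0
  have hzz : z.n () = z.f () := by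
    have h1 : d2 (D 1) (D 2) * (z.f () - z.n ()) = 0 := by linarith
    rcases mul_eq_zero.1 h1 with h | h
    · exact absurd h h12.ne'
    · linarith
  refine ⟨![0, 0, z.f ()], ?_, ?_, ?_⟩
  · rintro ⟨⟩
    rw [hzz]
    simp [dot, lB]
  · rintro ⟨⟩
    simp [dot, lB]
  · rintro ⟨⟩ i
    rw [ht]
    simp [dot, lB, hD]

/-- the bijection of the crossings -/
private def eB (V' : Type) : GV Unit (fun _ : Unit => V') ≃ Unit ⊕ V' where
  toFun := Sum.map id (fun p => p.2)
  invFun := Sum.map id (fun v => ⟨(), v⟩)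
  left_inv := by rintro (⟨⟩ | ⟨⟨⟩, v⟩) <;> rfl
  right_inv := by rintro (⟨⟩ | v) <;> rfl

private theorem glueB {V' : Type} {α' : Tg V'} (hp : Proper α')
    (d : SD (GV Unit fun _ : Unit => V') Empty Unit) :
    sum single α' (rel (eB V') (fun _ => 0) 0 d) =
      rel (eB V') (fun _ => 0) 0 (glueA aB (fun _ => α') d) := by
  obtain ⟨v0, j0, h0⟩ := hp 0
  obtain ⟨v1, j1, h1⟩ := hp 1
  obtain ⟨v2, j2, h2⟩ := hp 2
  obtain ⟨v3, j3, h3⟩ := hp 3
  have key : ∀ (b : SD V' Empty Unit) (d : SD (GV Unit fun _ : Unit => V') Empty Unit),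
      (∀ a i, b ≠ .o a i) → rg single b = rel (eB V') (fun _ => 0) 0 (dnA () d b) := by
    intro b d hb
    rcases b with ⟨v, i⟩ | ⟨e, i⟩ | ⟨a, i⟩
    · show SD.x (inr v) i = SD.x (inr v) (i + 0)
      rw [add_zero]
    · exact e.elim
    · exact absurd rfl (hb a i)
  rcases d with ⟨v | ⟨⟨⟩, v⟩, i⟩ | ⟨e, i⟩ | ⟨⟨⟩, i⟩
  · rcases v with ⟨⟩
    rcases z4B i with rfl | rfl | rfl | rfl
    · show (match α' (.o () 1) with
        | .x v j => SD.x (inr v) j
        | _ => .o () 0) = rel (eB V') (fun _ => 0) 0 (dnA () _ (α' (.o () 1)))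
      rw [h1]
      show SD.x (inr v1) j1 = SD.x (inr v1) (j1 + 0)
      rw [add_zero]
    · rfl
    · rfl
    · show (match α' (.o () 2) with
        | .x v j => SD.x (inr v) j
        | _ => .o () 3) = rel (eB V') (fun _ => 0) 0 (dnA () _ (α' (.o () 2)))
      rw [h2]
      show SD.x (inr v2) j2 = SD.x (inr v2) (j2 + 0)
      rw [add_zero]
  · have e1 : rel (eB V') (fun _ => 0) 0 (.x (inr ⟨(), v⟩) i) = SD.x (inr v) (i + 0) := rfl
    rw [e1, add_zero]
    show rg single (α' (.x v i)) = rel (eB V') (fun _ => 0) 0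
      (outA aB (fun _ => α') () (.x (inr ⟨(), v⟩) i) (α' (.x v i)))
    generalize α' (.x v i) = b
    rcases b with ⟨v, i⟩ | ⟨e, i⟩ | ⟨⟨⟩, i⟩
    · show SD.x (inr v) i = SD.x (inr v) (i + 0)
      rw [add_zero]
    · exact e.elim
    · rcases z4B i with rfl | rfl | rfl | rfl <;> rfl
  · exact e.elim
  · rcases z4B i with rfl | rfl | rfl | rfl
    · show rg single (α' (.o () (0 + 0))) = rel (eB V') (fun _ => 0) 0 (dnA () _ (α' (.o () 0)))
      rw [add_zero, h0]
      show SD.x (inr v0) j0 = SD.x (inr v0) (j0 + 0)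
      rw [add_zero]
    · rfl
    · rfl
    · show rg single (α' (.o () (3 + 0))) = rel (eB V') (fun _ => 0) 0 (dnA () _ (α' (.o () 3)))
      rw [add_zero, h3]
      show SD.x (inr v3) j3 = SD.x (inr v3) (j3 + 0)
      rw [add_zero]

theorem addB {V' : Type} [Fintype V'] {α' : Tg V'} (hp : Proper α') (h : Gmm α')
    {sh : ZMod 4 → Prop} {D : ZMod 4 → H}
    (hD : (sh = no ∧ Pos D) ∨ (sh = only 0 ∧ Pos1 0 D)) (ha : 0 < d2 (D 0) (D 2)) :
    Dr (sum single α') sh D := by
  have hflat : ∀ i, D i 2 = 0 := by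
    rcases hD with ⟨-, h⟩ | ⟨-, h⟩
    · exact h.1
    · exact h.1
  have h12 : 0 < d2 (D 1) (D 2) := by
    rcases hD with ⟨-, h⟩ | ⟨-, h⟩
    · exact h.2 1
    · exact h.2.2 1 (by decide)
  have h23 : 0 < d2 (D 2) (D 3) := by
    rcases hD with ⟨-, h⟩ | ⟨-, h⟩
    · exact h.2 2
    · exact h.2.2 2 (by decide)
  have h30 : 0 < d2 (D 3) (D 0) := by
    rcases hD with ⟨-, h⟩ | ⟨-, h⟩
    · exact h.2 3
    · exact h.2.2 3 (by decide)
  have hsh : (sh = no ∧ 0 < d2 (D 0) (D 1)) ∨ sh = only 0 := by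
    rcases hD with ⟨h1, h⟩ | ⟨h1, h⟩
    · exact Or.inl ⟨h1, h.2 0⟩
    · exact Or.inr h1
  have hsh1 : ∀ i, sh i → D (i + 1) = D i := by
    rcases hD with ⟨rfl, h⟩ | ⟨rfl, h⟩
    · intro i hi; exact hi.elim
    · intro i hi
      have hi' : i = 0 := hi
      rw [hi']; exact h.2.1
  obtain ⟨ε, hε, he0, he1⟩ := small_eps (q := d2 (D 0) (D 3)) (q' := d2 (D 1) (D 3)) ha h12
  obtain ⟨w, hwd⟩ : ∃ w : H, w = D 2 + ε • D 3 := ⟨_, rfl⟩
  have hw : w 2 = 0 := by
    rw [hwd, Pi.add_apply, Pi.smul_apply, hflat, hflat, smul_zero, add_zero]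
  have h2w : 0 < d2 (D 2) w := by
    rw [hwd, d2_add_right, d2_smul_right, d2_self, zero_add]; positivity
  have hw3 : 0 < d2 w (D 3) := by
    rw [hwd, d2_add_left, d2_smul_left, d2_self, mul_zero, add_zero]; exact h23
  have h0w : 0 < d2 (D 0) w := by
    rw [hwd, d2_add_right, d2_smul_right]; exact he0
  have h1w : 0 < d2 (D 1) w := by
    rw [hwd, d2_add_right, d2_smul_right]; exact he1
  have hpos : Pos (DB D w) := by
    refine ⟨fun i => ?_, fun i => ?_⟩
    · rcases z4B i with rfl | rfl | rfl | rfl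
      · exact hflat 0
      · exact hflat 2
      · exact hw
      · exact hflat 3
    · rcases z4B i with rfl | rfl | rfl | rfl
      · exact ha
      · exact h2w
      · exact hw3
      · exact h30
  have hgood : Dr α' no (DB D w) := h _ hpos h0w h23
  have hpar : Dr (glueA aB (fun _ : Unit => α')) sh D := by
    refine Dr.of_parent (fun _ => hp) hsh1 fun u _ hu => ?_
    obtain ⟨r, hr1, hr2⟩ := exists_orth (DB D w) (uB D w u) (uB_not hflat hw h12 h2w hu)
    refine ⟨Unit, inferInstance, pB, lB D w, fun _ => r, rfl, okB, realB, ?_, fun _ => rfl,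
      validB hflat hw h12 ha h30 h1w h2w h0w hw3 hsh, ?_, ?_, rigB hflat h12 hr2, ?_⟩
    · exact ⟨fun _ => rfl, fun _ => rfl, fun _ i => hflat i⟩
    · intro i j
      rcases z4B i with rfl | rfl | rfl | rfl <;> rcases z4B j with rfl | rfl | rfl | rfl <;>
        decide
    · rintro ⟨⟩
      simp only [dirB hflat hw]
      exact hr1
    · rintro ⟨⟩
      have e : pB.dir (lB D w) () = DB D w := funext fun i => dirB hflat hw i
      rw [e]
      exact hgood
  exact Dr.congr (eB V') (fun _ => 0) (glueB hp) hpar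

end SN78
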