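import Pool.Agent.SN78.Insert
import Pool.Agent.SN78.Plane

/-!
# SN78 module CLOSE: closing a tangle with one more crossing

The closed parent picture `pC`: one crossing `x`, one big vertex `X`, four nodes `B i` (`i : ZMod 4`),
no outer points.  `X` is at the origin, `B 0 = (10, 0)`, `B 1 = (-10, 20)`, `B 2 = (-1/2, -1/10)`,
`B 3 = (0, -10)`.  Sticks: `X – B 0`, `X – B 1`, `X – B 2`, `X – B 3` (through `x`),
`B 0 – B 2` (through `x`), `B 1 – B 3`.  The side `false` of `B i` is towards `X`.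
`adj`: `f 0 – (B 0, false)`, `f 1 – (B 1, false)`, `f 2 – (B 2, false)`, `f 3 – x 1`,
`x 3 – (B 3, false)`, `(B 0, true) – x 0`, `x 2 – (B 2, true)`, `(B 1, true) – (B 3, true)`.
The port `i` of the tangle is joined with the dart `- i` of `x`.

Validity is a finite check with explicit numbers.  `kap x 0 = dt B3 B0 X`, `kap x 1 = dt B0 X B2`,
`kap x 2 = dt X B2 B3`, `kap x 3 = dt B2 B3 B0`.  Pairs which are apart:
(`B0 – B2`, `X – B1`), (`B0 – B2`, `B1 – B3`), (`B1 – B3`, `X – B0`), (`B1 – B3`, `X – B2`).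
The directions seen by `X` are the `B i`: `Pos`, `d2 (D 0) (D 2) = -1`, `d2 (D 1) (D 3) = 100`.
Equation at `X`: `r = (1, 1, 0, 2)`: `B 0 + B 1 + 2 • B 3 = 0`.
Rigidity: given a solution `z` subtract the affine function with the same values at `X, B 0, B 3`
(not collinear); then `z_X = z_B0 = z_B3 = 0`; the equation of `x` gives `z_B2 = 0` (its
coefficient `kap x 0` is not `0`), and the equation at `X` gives `z_B1 = 0`.
The child condition `hD` of `insertion`: `h` applied to `P.dir L X` (use `dir_pos`).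
-/

namespace SN78

open Sum

/-- the closed shadow obtained from a tangle by one more crossing `none` -/
def closeA {V : Type} (α : Tg V) : Option V × ZMod 4 → Option V × ZMod 4
  | (some v, i) => match α (.x v i) with
    | .x w j => (some w, j)
    | .f e _ => e.elim
    | .o _ j => (none, - j)
  | (none, i) => match α (.o () (- i)) with
    | .x w j => (some w, j)
    | .f e _ => e.elim
    | .o _ j => (none, - j)

/-- drawable if the first angle is `> π` and the second one is `< π` -/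
def Gpm {V : Type} [Fintype V] (α : Tg V) : Prop :=
  ∀ D, Pos D → d2 (D 0) (D 2) < 0 → 0 < d2 (D 1) (D 3) → Dr α no D

/-- the shadow of the closed parent -/
def aC : SD Unit Unit Empty → SD Unit Unit Empty
  | .x _ i => .f () (- i)
  | .f _ i => .x () (- i)
  | .o e _ => e.elim

/-- beads of the closed parent -/
private abbrev CB := Bead Unit (ZMod 4) Unit Empty

/-- the pairing of the closed parent -/
private def cAdj : CB → CB
  | inl (.f _ i) =>
      (![inr (0, false), inr (1, false), inr (2, false), inl (.x () 1)] : Fin 4 → CB) i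
  | inl (.x _ i) =>
      (![inr (0, true), inl (.f () 3), inr (2, true), inr (3, false)] : Fin 4 → CB) i
  | inl (.o e _) => e.elim
  | inr (i, false) =>
      (![inl (.f () 0), inl (.f () 1), inl (.f () 2), inl (.x () 3)] : Fin 4 → CB) i
  | inr (i, true) =>
      (![inl (.x () 0), inr (3, true), inl (.x () 2), inr (1, true)] : Fin 4 → CB) i

/-- the closed parent -/
private def cP : Pic Unit (ZMod 4) Unit Empty where
  adj := cAdj
  ed := fun _ i =>
    (![inr (0, true), inl (.f () 3), inr (2, true), inr (3, false)] : Fin 4 → CB) i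

/-- positions of the closed parent -/
private noncomputable def cL : Lab (ZMod 4) Unit Empty H where
  n := fun i =>
    (![![10, 0, 1], ![-10, 20, 1], ![-1 / 2, -1 / 10, 1], ![0, -10, 1]] : Fin 4 → H) i
  f := fun _ => ![0, 0, 1]
  o := fun e _ => e.elim

private theorem all4 {Q : ZMod 4 → Prop} (h0 : Q 0) (h1 : Q 1) (h2 : Q 2) (h3 : Q 3) :
    ∀ i, Q i := by
  intro i
  have : i = 0 ∨ i = 1 ∨ i = 2 ∨ i = 3 := by revert i; decide
  rcases this with rfl | rfl | rfl | rfl <;> assumption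

private theorem cOk : cP.Ok where
  adj_adj := by
    rintro ((⟨⟨⟩, i⟩ | ⟨⟨⟩, i⟩ | ⟨e, _⟩) | ⟨i, b⟩)
    · revert i; exact all4 rfl rfl rfl rfl
    · revert i; exact all4 rfl rfl rfl rfl
    · exact e.elim
    · cases b
      · revert i; exact all4 rfl rfl rfl rfl
      · revert i; exact all4 rfl rfl rfl rfl
  adj_ne := by
    rintro ((⟨⟨⟩, i⟩ | ⟨⟨⟩, i⟩ | ⟨e, _⟩) | ⟨i, b⟩)
    · revert i; decide
    · revert i; decide
    · exact e.elim
    · cases b
      · revert i; decide
      · revert i; decide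
  ed_end := by
    rintro ⟨⟩
    exact all4 trivial trivial trivial trivial
  ed_x := by
    rintro ⟨⟩ i ⟨⟩ j h
    exfalso
    revert i j
    decide
  ed_e := by
    rintro ⟨⟩
    exact all4 (fun _ => rfl) (fun _ => rfl) (fun _ => rfl) (fun _ => rfl)
  opp_ed := by
    rintro ⟨⟩
    exact all4 rfl rfl rfl rfl

private theorem cReal : cP.Real aC where
  site := by
    rintro (⟨⟨⟩, i⟩ | ⟨⟨⟩, i⟩ | ⟨e, _⟩)
    · revert i
      refine all4 ?_ ?_ ?_ ?_
      · exact Reach.node (a := 0) (c := true) rfl (Reach.site rfl)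
      · exact Reach.site rfl
      · exact Reach.node (a := 2) (c := true) rfl (Reach.site rfl)
      · exact Reach.node (a := 3) (c := false) rfl
          (Reach.node (a := 1) (c := true) rfl (Reach.site rfl))
    · revert i
      refine all4 ?_ ?_ ?_ ?_
      · exact Reach.node (a := 0) (c := false) rfl (Reach.site rfl)
      · exact Reach.node (a := 1) (c := false) rfl
          (Reach.node (a := 3) (c := true) rfl (Reach.site rfl))
      · exact Reach.node (a := 2) (c := false) rfl (Reach.site rfl)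
      · exact Reach.site rfl
    · exact e.elim
  node := by
    intro i b
    cases b
    · revert i
      exact all4 ⟨_, Reach.site rfl⟩ ⟨_, Reach.site rfl⟩ ⟨_, Reach.site rfl⟩ ⟨_, Reach.site rfl⟩
    · revert i
      refine all4 ⟨_, Reach.site rfl⟩ ?_ ⟨_, Reach.site rfl⟩ ?_
      · exact ⟨_, Reach.node (a := 3) (c := true) rfl (Reach.site rfl)⟩
      · exact ⟨_, Reach.node (a := 1) (c := true) rfl (Reach.site rfl)⟩

private theorem cNorm : Norm cL where
  n := all4 rfl rfl rfl rfl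
  f := fun _ => rfl
  o := fun e => e.elim

private abbrev pX : H := ![0, 0, 1]
private noncomputable abbrev p0 : H := ![10, 0, 1]
private noncomputable abbrev p1 : H := ![-10, 20, 1]
private noncomputable abbrev p2 : H := ![-1 / 2, -1 / 10, 1]
private noncomputable abbrev p3 : H := ![0, -10, 1]

private theorem dt_mk (a b c d e f g h i : ℝ) : dt ![a, b, c] ![d, e, f] ![g, h, i] =
    a * (e * i - f * h) - b * (d * i - f * g) + c * (d * h - e * g) := rfl

private theorem dot_mk (a b c d e f : ℝ) : dot ![a, b, c] ![d, e, f] =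
    a * d + b * e + c * f := rfl

private theorem sepA : Sep p0 p2 pX p1 := by
  refine ⟨![1 / 5, -12, -1], ?_, ?_, ?_, ?_⟩ <;> rw [dot_mk] <;> norm_num

private theorem sepB : Sep p0 p2 p1 p3 := by
  refine ⟨![3, 1, 9], ?_, ?_, ?_, ?_⟩ <;> rw [dot_mk] <;> norm_num

private theorem sepC : Sep pX p0 p1 p3 := by
  refine ⟨![3, 1, 9], ?_, ?_, ?_, ?_⟩ <;> rw [dot_mk] <;> norm_num

private theorem sepD : Sep pX p2 p1 p3 := by
  refine ⟨![3, 1, 9], ?_, ?_, ?_, ?_⟩ <;> rw [dot_mk] <;> norm_num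

private theorem ends {Q : CB → Prop} (h0 : Q (inl (.f () 0))) (h1 : Q (inl (.f () 1)))
    (h2 : Q (inl (.f () 2))) (h3 : Q (inl (.f () 3))) (h4 : Q (inr (0, false)))
    (h5 : Q (inr (1, false))) (h6 : Q (inr (2, false))) (h7 : Q (inr (3, false)))
    (h8 : Q (inr (0, true))) (h9 : Q (inr (1, true)))
    (h10 : Q (inr (2, true))) (h11 : Q (inr (3, true))) : ∀ e, IsEnd e → Q e := by
  rintro ((⟨⟨⟩, i⟩ | ⟨⟨⟩, i⟩ | ⟨e, _⟩) | ⟨i, b⟩) he
  · exact he.elim
  · clear he; revert i; exact all4 h0 h1 h2 h3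
  · exact e.elim
  · clear he
    cases b
    · revert i; exact all4 h4 h5 h6 h7
    · revert i; exact all4 h8 h9 h10 h11

private theorem cSep : ∀ e, IsEnd e → ∀ e', IsEnd e' → cP.Apart (fun e => e.elim) e e' →
    Sep (cL.at e) (cL.at (cP.opp e)) (cL.at e') (cL.at (cP.opp e')) := by
  refine ends ?_ ?_ ?_ ?_ ?_ ?_ ?_ ?_ ?_ ?_ ?_ ?_ <;>
  refine ends ?_ ?_ ?_ ?_ ?_ ?_ ?_ ?_ ?_ ?_ ?_ ?_ <;> intro hA <;>
  first
    | exact (hA.1 rfl).elim
    | exact (hA.2.1 rfl).elim
    | exact (hA.2.2.1 rfl).elim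
    | exact (hA.2.2.2.1 rfl).elim
    | exact (hA.2.2.2.2 ⟨(), 0, rfl, Or.inl rfl⟩).elim
    | exact (hA.2.2.2.2 ⟨(), 0, rfl, Or.inr rfl⟩).elim
    | exact (hA.2.2.2.2 ⟨(), 1, rfl, Or.inl rfl⟩).elim
    | exact (hA.2.2.2.2 ⟨(), 1, rfl, Or.inr rfl⟩).elim
    | exact (hA.2.2.2.2 ⟨(), 2, rfl, Or.inl rfl⟩).elim
    | exact (hA.2.2.2.2 ⟨(), 2, rfl, Or.inr rfl⟩).elim
    | exact (hA.2.2.2.2 ⟨(), 3, rfl, Or.inl rfl⟩).elim
    | exact (hA.2.2.2.2 ⟨(), 3, rfl, Or.inr rfl⟩).elim
    | exact sepA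
    | exact sepA.left
    | exact sepA.right
    | exact sepA.left.right
    | exact sepA.symm
    | exact sepA.symm.left
    | exact sepA.symm.right
    | exact sepA.symm.left.right
    | exact sepB
    | exact sepB.left
    | exact sepB.right
    | exact sepB.left.right
    | exact sepB.symm
    | exact sepB.symm.left
    | exact sepB.symm.right
    | exact sepB.symm.left.right
    | exact sepC
    | exact sepC.left
    | exact sepC.right
    | exact sepC.left.right
    | exact sepC.symm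
    | exact sepC.symm.left
    | exact sepC.symm.right
    | exact sepC.symm.left.right
    | exact sepD
    | exact sepD.left
    | exact sepD.right
    | exact sepD.left.right
    | exact sepD.symm
    | exact sepD.symm.left
    | exact sepD.symm.right
    | exact sepD.symm.left.right

private theorem cValid : cP.Valid (fun e => e.elim) cL.at where
  cr := by
    rintro ⟨⟩
    refine all4 ?_ ?_ ?_ ?_
    · show 0 < dt p3 p0 pX
      rw [dt_mk]; norm_num
    · show 0 < dt p0 pX p2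
      rw [dt_mk]; norm_num
    · show 0 < dt pX p2 p3
      rw [dt_mk]; norm_num
    · show 0 < dt p2 p3 p0
      rw [dt_mk]; norm_num
  ord := by
    rintro ⟨⟩ i ⟨⟩ j h
    exfalso
    revert i j
    decide
  bend := by
    refine all4 ?_ ?_ ?_ ?_
    · show dt p0 p2 pX ≠ 0
      rw [dt_mk]; norm_num
    · show dt p1 p3 pX ≠ 0
      rw [dt_mk]; norm_num
    · show dt p2 p0 pX ≠ 0
      rw [dt_mk]; norm_num
    · show dt p3 p1 pX ≠ 0
      rw [dt_mk]; norm_num
  fat := by
    rintro ⟨⟩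
    refine all4 ?_ ?_ ?_ ?_
    · show 0 < dt pX p0 p1
      rw [dt_mk]; norm_num
    · show 0 < dt pX p1 p2
      rw [dt_mk]; norm_num
    · show 0 < dt pX p2 p3
      rw [dt_mk]; norm_num
    · show 0 < dt pX p3 p0
      rw [dt_mk]; norm_num
  shr := fun e => e.elim
  sep := fun e e' he he' hA => cSep e he e' he' hA

private theorem univ4 : (Finset.univ : Finset (ZMod 4)) = {0, 1, 2, 3} := rfl

private theorem sum4 {A : Type} [AddCommMonoid A] (g : ZMod 4 → A) :
    ∑ i, g i = g 0 + g 1 + g 2 + g 3 := Fin.sum_univ_four g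

private theorem cOrth : cP.Orth cL (fun _ i => (![1, 1, 0, 2] : Fin 4 → ℝ) i) := by
  rintro ⟨⟩
  rw [sum4]
  funext j
  have hj : j = 0 ∨ j = 1 ∨ j = 2 := by revert j; decide
  rcases hj with rfl | rfl | rfl
  · show (1 : ℝ) * (10 - 1 * 0) + 1 * (-10 - 1 * 0) + 0 * (-1 / 2 - 1 * 0) + 2 * (0 - 1 * 0) = 0
    norm_num
  · show (1 : ℝ) * (0 - 1 * 0) + 1 * (20 - 1 * 0) + 0 * (-1 / 10 - 1 * 0) + 2 * (-10 - 1 * 0) = 0
    norm_num
  · show (1 : ℝ) * (1 - 1 * 1) + 1 * (1 - 1 * 1) + 0 * (1 - 1 * 1) + 2 * (1 - 1 * 1) = 0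
    norm_num

private theorem cRig : cP.Rig cL (fun _ i => (![1, 1, 0, 2] : Fin 4 → ℝ) i)
    (fun e => e.elim) := by
  intro z hz hr _
  have e1 : dt pX p2 p3 * z.n 0 + dt p3 p0 pX * z.n 2 - dt p2 p3 p0 * z.f ()
      - dt p0 pX p2 * z.n 3 = 0 := hz ()
  have e2 := hr ()
  rw [sum4] at e2
  have e3 : (1 : ℝ) * (z.n 0 - 1 * z.f ()) + 1 * (z.n 1 - 1 * z.f ()) +
    0 * (z.n 2 - 1 * z.f ()) + 2 * (z.n 3 - 1 * z.f ()) = 0 := e2
  rw [dt_mk, dt_mk, dt_mk, dt_mk] at e1
  refine ⟨![(z.n 0 - z.f ()) / 10, (z.f () - z.n 3) / 10, z.f ()], ?_, ?_, fun e => e.elim⟩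
  · refine all4 ?_ ?_ ?_ ?_
    · show _ = dot _ p0
      rw [dot_mk]; linarith
    · show _ = dot _ p1
      rw [dot_mk]; linarith
    · show _ = dot _ p2
      rw [dot_mk]; linarith
    · show _ = dot _ p3
      rw [dot_mk]; linarith
  · rintro ⟨⟩
    show _ = dot _ pX
    rw [dot_mk]; linarith

theorem close_pic {V : Type} [Fintype V] {α : Tg V} (hp : Proper α) (h : Gpm α) :
    ∃ (N : Type) (_ : Fintype N) (P : Pic (GV Unit (fun _ : Unit => V)) N Empty Empty)
      (L : Lab N Empty Empty H), Fintype.card N = Fintype.card V + 4 ∧ P.Ok ∧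
      P.Real (glueA aC (fun _ => α)) ∧ Norm L ∧ P.Valid (fun e => e.elim) L.at ∧
      P.Rig L (fun e => e.elim) (fun e => e.elim) := by
  obtain ⟨v₀, -, -⟩ := hp 0
  have : Nonempty V := ⟨v₀⟩
  have hpos : Pos (cP.dir cL ()) := dir_pos cNorm cValid ()
  have hD : ∀ X : Unit, Dr α no (cP.dir cL X) := by
    rintro ⟨⟩
    refine h _ hpos ?_ ?_
    · show (10 - 1 * 0 : ℝ) * (-1 / 10 - 1 * 0) - (0 - 1 * 0) * (-1 / 2 - 1 * 0) < 0
      norm_num
    · show 0 < (-10 - 1 * 0 : ℝ) * (-10 - 1 * 0) - (20 - 1 * 0) * (0 - 1 * 0)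
      norm_num
  obtain ⟨N, iN, P, L, h1, h2, h3, -, h5, -, h7, h8⟩ :=
    insertion cOk cReal cNorm (fun e => e.elim) cValid (fun e => e.elim) cOrth cRig
      (fun _ : Unit => hp) hD
  refine ⟨N, iN, P, L, ?_, h2, h3, h5, h7, h8⟩
  rw [h1]
  simp
  have h4 : Fintype.card (ZMod 4) = 4 := rfl
  omega

end SN78
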