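import Pool.Agent.SN78.Alg

/-!
# SN78 module HEIGHTS: heights with arbitrary over- and undercrossings

The height map `h : (N → ℝ) → (W → ℝ)`, `h z v = P.row L.at z v`, is linear.  Its kernel consists of
affine functions `z a = dot l (L.n a)` by `hR`, so the kernel has dimension at most 3 (the image of
`H` under `l ↦ (dot l (L.n a))_a`).  So the rank is at least `card N - 3 = card W`, and `h` is
surjective.
-/

namespace SN78

open Sum

/-- the label with the values `z` at the nodes -/
private def heightsLab {N : Type} (z : N → ℝ) : Lab N Empty Empty ℝ :=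
  ⟨z, fun a => a.elim, fun a => a.elim⟩

private theorem heightsLab_add {W N : Type} (z w : N → ℝ) (b : Bead W N Empty Empty) :
    (heightsLab (z + w)).at b = (heightsLab z).at b + (heightsLab w).at b := by
  rcases b with (d | ⟨a, s⟩)
  · cases d with
    | x v i => simp [Lab.at]
    | f a i => exact a.elim
    | o a i => exact a.elim
  · simp [Lab.at, heightsLab]

private theorem heightsLab_smul {W N : Type} (k : ℝ) (z : N → ℝ) (b : Bead W N Empty Empty) :
    (heightsLab (k • z)).at b = k * (heightsLab z).at b := by
  rcases b with (d | ⟨a, s⟩)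
  · cases d with
    | x v i => simp [Lab.at]
    | f a i => exact a.elim
    | o a i => exact a.elim
  · simp [Lab.at, heightsLab]

private def heightsMap {W N : Type} (P : Pic W N Empty Empty) (L : Lab N Empty Empty H) :
    (N → ℝ) →ₗ[ℝ] (W → ℝ) where
  toFun z := fun v => P.row L.at (heightsLab z).at v
  map_add' z w := by
    funext v
    simp only [Pic.row, Pi.add_apply, heightsLab_add]
    exact rw4_add _ _ _
  map_smul' k z := by
    funext v
    simp only [Pic.row, Pi.smul_apply, heightsLab_smul, RingHom.id_apply, smul_eq_mul]
    exact rw4_mul _ _ _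

private def heightsAff {N : Type} (L : Lab N Empty Empty H) : H →ₗ[ℝ] (N → ℝ) where
  toFun l := fun a => dot l (L.n a)
  map_add' l m := by funext a; simp [add_dot]
  map_smul' k l := by funext a; simp [smul_dot]

theorem exists_heights {W N : Type} [Fintype W] [Fintype N] {P : Pic W N Empty Empty}
    {L : Lab N Empty Empty H} (hc : Fintype.card N = Fintype.card W + 3)
    (hR : P.Rig L (fun e => e.elim) (fun e => e.elim)) (c : W → ℝ) :
    ∃ z : Lab N Empty Empty ℝ, ∀ v, P.row L.at z.at v = c v := by
  have hker : LinearMap.ker (heightsMap P L) ≤ LinearMap.range (heightsAff L) := by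
    intro z hz
    have hz' : ∀ v, P.row L.at (heightsLab z).at v = 0 := fun v => congrFun hz v
    obtain ⟨l, h1, -, -⟩ := hR (heightsLab z) hz' (fun a => a.elim) ⟨0, fun a => a.elim⟩
    refine ⟨l, ?_⟩
    funext a
    exact (h1 a).symm
  have h1 : Module.finrank ℝ (LinearMap.ker (heightsMap P L)) ≤ 3 := by
    refine (Submodule.finrank_mono hker).trans ?_
    refine (LinearMap.finrank_range_le (heightsAff L)).trans ?_
    simp [H]
  have h2 := LinearMap.finrank_range_add_finrank_ker (heightsMap P L)
  rw [Module.finrank_fintype_fun_eq_card] at h2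
  have h3 : Module.finrank ℝ (LinearMap.range (heightsMap P L)) = Module.finrank ℝ (W → ℝ) := by
    apply le_antisymm (Submodule.finrank_le _)
    rw [Module.finrank_fintype_fun_eq_card]
    omega
  have h4 : LinearMap.range (heightsMap P L) = ⊤ := Submodule.eq_top_of_finrank_eq h3
  obtain ⟨z, hz⟩ := LinearMap.range_eq_top.1 h4 c
  exact ⟨heightsLab z, fun v => congrFun hz v⟩

end SN78
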