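import Pool.Agent.SN78.FinSimple
import Pool.Agent.SN78.Heights
import Pool.Agent.SN78.Close

/-!
# SN78 module FINAL: from closed pictures to polygons in space

`polygon_of_pic`: the beads `PB W N` and `Bead W N Empty Empty` correspond (`x v i ↔ inl (v, i)`); take
`Z a = pt3 (n a)`, `Q = qp`, and the transported `adj`.  The fields come from `FinDefs`, `FinLine`,
`FinSimple`; `reach`, `cover` from `P.Real`.  `height`: `qp_height` and the sign of the row.
`HasPolygon.congr`: transport along a bijection of crossings.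
`closed_polygon`: `close_pic`, `exists_heights` with `c v = ± 1`, `polygon_of_pic`, and transport along
`Unit ⊕ (Σ _ : Unit, V) ≃ Option V` (`glueA aC (fun _ => α)` corresponds to `closeA α`, using
`Proper α`).
-/

namespace SN78

open Sum

/-- the site darts of a closed shadow as pairs -/
def toP {W : Type} : SD W Empty Empty → W × ZMod 4
  | .x v i => (v, i)
  | .f e _ => e.elim
  | .o e _ => e.elim

private def tb {W N : Type} : Bead W N Empty Empty → PB W N
  | inl d => inl (toP d)
  | inr a => inr a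

private def fb {W N : Type} : PB W N → Bead W N Empty Empty
  | inl (v, i) => inl (.x v i)
  | inr a => inr a

private theorem tb_fb {W N : Type} (b : PB W N) : tb (fb b) = b := by
  rcases b with ⟨v, i⟩ | a <;> rfl

private theorem fb_tb {W N : Type} (b : Bead W N Empty Empty) : fb (tb b) = b := by
  rcases b with (⟨v, i⟩ | ⟨e, _⟩ | ⟨e, _⟩) | a
  · rfl
  · exact e.elim
  · exact e.elim
  · rfl

private noncomputable def tz {W N : Type} (L : Lab N Empty Empty H) (z : Lab N Empty Empty ℝ) (a : N) : Pt :=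
  pt3 (W := W) L z (inr (a, true))

private theorem bpt_tb {W N : Type} {P : Pic W N Empty Empty} {L : Lab N Empty Empty H}
    (z : Lab N Empty Empty ℝ) (b : Bead W N Empty Empty) :
    bpt (tz (W := W) L z) (qp P L z) (tb b) = bp P L z b := by
  rcases b with (⟨v, i⟩ | ⟨e, _⟩ | ⟨e, _⟩) | ⟨a, c⟩
  · rfl
  · exact e.elim
  · exact e.elim
  · rfl

private theorem same_tb {W N : Type} {b c : Bead W N Empty Empty} (h : SameS b c) :
    SameSite (tb b) (tb c) := by
  rcases b with (⟨v, i⟩ | ⟨e, _⟩ | ⟨e, _⟩) | ⟨a, k⟩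
  · rcases c with (⟨w, j⟩ | ⟨e, _⟩ | ⟨e, _⟩) | ⟨a', k'⟩
    · exact h
    · exact e.elim
    · exact e.elim
    · exact h
  · exact e.elim
  · exact e.elim
  · rcases c with (⟨w, j⟩ | ⟨e, _⟩ | ⟨e, _⟩) | ⟨a', k'⟩
    · exact h
    · exact e.elim
    · exact e.elim
    · exact h

private theorem leads_tb {W N : Type} {P : Pic W N Empty Empty} {b : Bead W N Empty Empty}
    {d : SD W Empty Empty} (h : Reach P.adj b d) :
    Leads (fun b => tb (P.adj (fb b))) (tb b) (toP d) := by
  induction h with
  | site h1 =>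
    refine Leads.here ?_
    rw [fb_tb, h1]
    rfl
  | node h1 _ ih =>
    refine Leads.bend (a := _) (c := _) ?_ ih
    rw [fb_tb, h1]
    rfl

theorem polygon_of_pic {W N : Type} [Fintype W] [Fintype N] {P : Pic W N Empty Empty}
    (hP : P.Ok) {α : SD W Empty Empty → SD W Empty Empty} (hα : P.Real α)
    {L : Lab N Empty Empty H} (hN : Norm L) (hV : P.Valid (fun e => e.elim) L.at)
    (z : Lab N Empty Empty ℝ) (ov : W → Bool)
    (hz : ∀ v, if ov v then 0 < P.row L.at z.at v else P.row L.at z.at v < 0) :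
    HasPolygon (fun d => toP (α (.x d.1 d.2))) ov (Fintype.card N) := by
  have hb : ∀ b : PB W N, bpt (tz (W := W) L z) (qp P L z) b = bp P L z (fb b) := by
    intro b
    rw [← bpt_tb (P := P) (L := L) z (fb b), tb_fb]
  have hadj : ∀ b : PB W N, bpt (tz (W := W) L z) (qp P L z) (tb (P.adj (fb b))) =
      bp P L z (P.adj (fb b)) := fun b => bpt_tb z _
  refine ⟨N, inferInstance, tz (W := W) L z, qp P L z, fun b => tb (P.adj (fb b)), rfl, ?_⟩
  refine
    { inv := ?_, ne := ?_, opp := ?_, proj := ?_, height := ?_, straight := ?_, orient := ?_,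
      nondeg := ?_, simple := ?_, reach := ?_, cover := ?_ }
  · intro b
    rw [fb_tb, hP.adj_adj, tb_fb]
  · intro b h
    apply hP.adj_ne (fb b)
    have h' : tb (P.adj (fb b)) = b := h
    rw [← fb_tb (P.adj (fb b)), h']
  · intro v i
    exact qp_add_two z v i
  · intro v i
    exact qp_proj hN hV z v i
  · intro v
    have h1 := qp_height hN hV z v
    have h2 : 0 < P.kap L.at v 0 + P.kap L.at v 2 := add_pos (hV.cr v 0) (hV.cr v 2)
    have h3 := hz v
    by_cases ho : ov v = true
    · rw [if_pos ho] at h3 ⊢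
      have := div_pos h3 h2
      rw [← h1] at this
      linarith
    · rw [if_neg ho] at h3 ⊢
      have := div_neg_of_neg_of_pos h3 h2
      rw [← h1] at this
      linarith
  · intro v i
    rw [hadj, hadj]
    exact fin_straight hP hV z v i
  · intro v i
    have h := fin_orient hP hN hV z v i
    have e1 := hadj (inl (v, i))
    have e2 := hadj (inl (v, i + 1))
    simp only [e1, e2]
    exact h
  · intro b
    rw [hadj, hb]
    exact fin_nondeg hP hN hV z (fb b)
  · intro b c h1 h2 x hx hx'
    have hx1 : x ∈ segment ℝ (pr (bpt (tz (W := W) L z) (qp P L z) b))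
      (pr (bpt (tz (W := W) L z) (qp P L z) (tb (P.adj (fb b))))) := hx
    have hx2 : x ∈ segment ℝ (pr (bpt (tz (W := W) L z) (qp P L z) c))
      (pr (bpt (tz (W := W) L z) (qp P L z) (tb (P.adj (fb c))))) := hx'
    rw [hadj, hb] at hx1 hx2
    have h3 : fb c ≠ fb b := by
      intro h
      apply h1
      rw [← tb_fb c, h, tb_fb]
    have h4 : fb c ≠ P.adj (fb b) := by
      intro h
      apply h2
      rw [← h, tb_fb]
    obtain ⟨b', c', hb', hc', hs, he⟩ := fin_simple hP hN hV z h3 h4 hx1 hx2
    refine ⟨tb b', tb c', ?_, ?_, same_tb hs, ?_⟩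
    · rcases hb' with hb' | hb'
      · left; rw [hb', tb_fb]
      · right; rw [hb']
    · rcases hc' with hc' | hc'
      · left; rw [hc', tb_fb]
      · right; rw [hc']
    · rw [bpt_tb]
      exact he
  · rintro ⟨v, i⟩
    exact leads_tb (hα.site (.x v i))
  · intro a c
    obtain ⟨d, hd⟩ := hα.node a c
    exact ⟨toP d, leads_tb hd⟩

private def te {W W' N : Type} (e : W ≃ W') : PB W N → PB W' N
  | inl (v, i) => inl (e v, i)
  | inr a => inr a

private theorem te_te {W W' N : Type} (e : W ≃ W') (b : PB W N) : te e.symm (te e b) = b := by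
  rcases b with ⟨v, i⟩ | a
  · simp [te]
  · rfl

private theorem te_te' {W W' N : Type} (e : W ≃ W') (b : PB W' N) : te e (te e.symm b) = b := by
  rcases b with ⟨v, i⟩ | a
  · simp [te]
  · rfl

private theorem bpt_te {W W' N : Type} (e : W ≃ W') (Z : N → Pt) (Q : W → ZMod 4 → Pt)
    (b : PB W N) : bpt Z (fun v i => Q (e.symm v) i) (te e b) = bpt Z Q b := by
  rcases b with ⟨v, i⟩ | ⟨a, c⟩
  · simp [te, bpt]
  · rfl

private theorem same_te {W W' N : Type} (e : W ≃ W') {b c : PB W N} (h : SameSite b c) :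
    SameSite (te e b) (te e c) := by
  rcases b with ⟨v, i⟩ | ⟨a, k⟩
  · rcases c with ⟨w, j⟩ | ⟨a', k'⟩
    · exact congrArg e h
    · exact h
  · rcases c with ⟨w, j⟩ | ⟨a', k'⟩
    · exact h
    · exact h

private theorem leads_te {W W' N : Type} (e : W ≃ W') {adj : PB W N → PB W N} {b : PB W N}
    {d : W × ZMod 4} (h : Leads adj b d) :
    Leads (fun b => te e (adj (te e.symm b))) (te e b) (e d.1, d.2) := by
  induction h with
  | here h1 =>
    refine Leads.here ?_
    rw [te_te, h1]
    rfl
  | bend h1 _ ih =>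
    refine Leads.bend (a := _) (c := _) ?_ ih
    rw [te_te, h1]
    rfl

theorem HasPolygon.congr {W W' : Type} (e : W ≃ W') {σ : W × ZMod 4 → W × ZMod 4}
    {σ' : W' × ZMod 4 → W' × ZMod 4} (h : ∀ v i, σ' (e v, i) = (e (σ (v, i)).1, (σ (v, i)).2))
    {ov : W' → Bool} {n : ℕ} (hp : HasPolygon σ (fun v => ov (e v)) n) : HasPolygon σ' ov n := by
  obtain ⟨N, hN, Z, Q, adj, hn, hA⟩ := hp
  have hb : ∀ b : PB W' N, bpt Z (fun v i => Q (e.symm v) i) b = bpt Z Q (te e.symm b) := by
    intro b
    rw [← bpt_te e Z Q, te_te']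
  refine ⟨N, hN, Z, fun v i => Q (e.symm v) i, fun b => te e (adj (te e.symm b)), hn, ?_⟩
  refine
    { inv := ?_, ne := ?_, opp := ?_, proj := ?_, height := ?_, straight := ?_, orient := ?_,
      nondeg := ?_, simple := ?_, reach := ?_, cover := ?_ }
  · intro b
    rw [te_te, hA.inv, te_te']
  · intro b hh
    apply hA.ne (te e.symm b)
    have hh' : te e (adj (te e.symm b)) = b := hh
    rw [← te_te e (adj (te e.symm b)), hh']
  · intro v i
    exact hA.opp _ _
  · intro v i
    exact hA.proj _ _
  · intro v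
    have h1 := hA.height (e.symm v)
    simp only [Equiv.apply_symm_apply] at h1
    exact h1
  · intro v i
    rw [bpt_te, bpt_te]
    exact hA.straight _ _
  · intro v i
    have h1 := hA.orient (e.symm v) i
    have e1 := bpt_te e Z Q (adj (te e.symm (inl (v, i))))
    have e2 := bpt_te e Z Q (adj (te e.symm (inl (v, i + 1))))
    simp only [e1, e2]
    exact h1
  · intro b
    rw [bpt_te, hb]
    exact hA.nondeg _
  · intro b c h1 h2 x hx hx'
    have hx1 : x ∈ segment ℝ (pr (bpt Z (fun v i => Q (e.symm v) i) b))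
      (pr (bpt Z (fun v i => Q (e.symm v) i) (te e (adj (te e.symm b))))) := hx
    have hx2 : x ∈ segment ℝ (pr (bpt Z (fun v i => Q (e.symm v) i) c))
      (pr (bpt Z (fun v i => Q (e.symm v) i) (te e (adj (te e.symm c))))) := hx'
    rw [bpt_te, hb] at hx1 hx2
    have h3 : te e.symm c ≠ te e.symm b := by
      intro hh
      apply h1
      rw [← te_te' e c, hh, te_te']
    have h4 : te e.symm c ≠ adj (te e.symm b) := by
      intro hh
      apply h2
      rw [← hh, te_te']
    obtain ⟨b', c', hb', hc', hs, he⟩ := hA.simple _ _ h3 h4 x hx1 hx2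
    refine ⟨te e b', te e c', ?_, ?_, same_te e hs, ?_⟩
    · rcases hb' with hb' | hb'
      · left; rw [hb', te_te']
      · right; rw [hb']
    · rcases hc' with hc' | hc'
      · left; rw [hc', te_te']
      · right; rw [hc']
    · rw [bpt_te]
      exact he
  · rintro ⟨v, i⟩
    have h1 := leads_te e (hA.reach (e.symm v, i))
    have h2 := h (e.symm v) i
    rw [Equiv.apply_symm_apply] at h2
    rw [h2]
    have h3 : te (N := N) e (inl (e.symm v, i)) = inl (v, i) := by
      simp [te]
    rw [← h3]
    exact h1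
  · intro a c
    obtain ⟨d, hd⟩ := hA.cover a c
    exact ⟨_, leads_te e hd⟩

private def gvE (V : Type) : GV Unit (fun _ : Unit => V) ≃ Option V where
  toFun
    | inl _ => none
    | inr p => some p.2
  invFun
    | none => inl ()
    | some v => inr ⟨(), v⟩
  left_inv := by rintro (⟨⟩ | ⟨⟨⟩, v⟩) <;> rfl
  right_inv := by rintro (_ | v) <;> rfl

theorem closed_polygon {V : Type} [Fintype V] {α : Tg V} (hp : Proper α) (h : Gpm α)
    (ov : Option V → Bool) : HasPolygon (closeA α) ov (Fintype.card V + 4) := by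
  obtain ⟨N, hF, P, L, hc, hP, hα, hN, hV, hR⟩ := close_pic hp h
  have hcard : Fintype.card N = Fintype.card (GV Unit (fun _ : Unit => V)) + 3 := by
    have : Fintype.card (GV Unit (fun _ : Unit => V)) = Fintype.card V + 1 := by
      rw [Fintype.card_congr (gvE V), Fintype.card_option]
    omega
  obtain ⟨z, hz⟩ := exists_heights hcard hR (fun v => if ov (gvE V v) then 1 else -1)
  have h1 := polygon_of_pic hP hα hN hV z (fun v => ov (gvE V v)) (by
    intro v
    rw [hz v]
    by_cases ho : ov (gvE V v) = true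
    · simp only [ho, if_true]; norm_num
    · simp only [ho]; norm_num)
  rw [hc] at h1
  refine HasPolygon.congr (gvE V) ?_ h1
  rintro (⟨⟩ | ⟨⟨⟩, v⟩) i
  · change closeA α (none, i) = (gvE V (toP (incA (fun _ => α) _ (aC (.x () i)))).1,
      (toP (incA (fun _ => α) _ (aC (.x () i)))).2)
    obtain ⟨w, j, hw⟩ := hp (- i)
    simp only [closeA, aC, incA, hw, dnA, toP]
    rfl
  · change closeA α (some v, i) = (gvE V (toP (outA aC (fun _ => α) () _ (α (.x v i)))).1,
      (toP (outA aC (fun _ => α) () _ (α (.x v i)))).2)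
    rcases hw : α (.x v i) with ⟨w, j⟩ | ⟨e, _⟩ | ⟨⟨⟩, j⟩
    · simp only [closeA, outA, hw, dnA, toP]
      rfl
    · exact e.elim
    · simp only [closeA, aC, incA, outA, hw, toP]
      rfl

end SN78
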