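import Pool.Agent.SN78.Rows
import Pool.Agent.SN78.Final

/-!
# SN78 module ARB: arborescent tangles

`Good` is the property carried through the induction:
* `el true` (a clasp turned against the row): `Proper`, `Gmm`, `Gpp`;
* `el false`: `Proper`, `Gmm`, `Gpp`, `Z 1`, `Z 3`;
* `row1` (a row which starts with a crossing, not just two crossings): `Proper`, `G3`, `Z 0`, `Z 2`;
* `row0` (a row of fat tangles): `Proper`, `G4`, `Z 0`, `Z 2`.
Each constructor is one application of the lemmas of Rows:
`clasp`: `clasp_G4`, `G3.rot_gmm`, `G3.rot_gpp`;  `turn1`, `turn0`: `G3.rot_gmm`, `G3.rot_gpp`, `Z.rot`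
(`0 + 1 = 1`, `2 + 1 = 3`, `0 + 3 = 3`, `2 + 3 = 1`);  `three`, `cons_el`, `cons_row1`, `cons_row0`:
`row_cons` with `Gmm`;  `pair`: `row_left` if the left one is not a clasp, `row_right` otherwise;
`left`: `row_left`;  `right`: `row_right`.
-/

namespace SN78

open Sum

/-- tangle shadows with their finite set of crossings -/
structure Tn where
  V : Type
  fin : Fintype V
  α : Tg V

/-- the kinds of tangles in the induction: `el true` is a clasp turned by a quarter turn, `el false` is
another fat element of a row, `row1` is a row which starts with a crossing (at least three elements if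
they are all crossings), `row0` is a row of at least two fat elements -/
inductive Kind
  | el (clasp : Bool)
  | row1
  | row0

/-- one crossing -/
def Tn.one : Tn := ⟨Unit, inferInstance, single⟩

/-- the sum (row) of two tangles -/
def Tn.add (S T : Tn) : Tn :=
  ⟨S.V ⊕ T.V, @instFintypeSum _ _ S.fin T.fin, sum S.α T.α⟩

/-- rotation by `k` quarter turns -/
def Tn.turn (k : ZMod 4) (T : Tn) : Tn := ⟨T.V, T.fin, rot k T.α⟩

/-- Arborescent (algebraic) tangles in which the crossings of each row are collected at one end of the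
row, and each row contains at most one clasp turned against the row. -/
inductive Arb : Kind → Tn → Prop
  | clasp (k : ZMod 4) (hk : k = 1 ∨ k = 3) : Arb (.el true) (Tn.turn k (Tn.one.add Tn.one))
  | turn1 {T : Tn} (k : ZMod 4) (hk : k = 1 ∨ k = 3) : Arb .row1 T → Arb (.el false) (Tn.turn k T)
  | turn0 {T : Tn} (k : ZMod 4) (hk : k = 1 ∨ k = 3) : Arb .row0 T → Arb (.el false) (Tn.turn k T)
  | three : Arb .row1 (Tn.one.add (Tn.one.add Tn.one))
  | cons_el {T : Tn} {b : Bool} : Arb (.el b) T → Arb .row1 (Tn.one.add T)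
  | cons_row1 {T : Tn} : Arb .row1 T → Arb .row1 (Tn.one.add T)
  | cons_row0 {T : Tn} : Arb .row0 T → Arb .row1 (Tn.one.add T)
  | pair {S T : Tn} {b c : Bool} (h : ¬ (b = true ∧ c = true)) :
      Arb (.el b) S → Arb (.el c) T → Arb .row0 (S.add T)
  | left {S T : Tn} : Arb (.el false) S → Arb .row0 T → Arb .row0 (S.add T)
  | right {S T : Tn} : Arb .row0 S → Arb (.el false) T → Arb .row0 (S.add T)

/-- the property carried through the induction -/
def Good (k : Kind) (T : Tn) : Prop :=
  letI := T.fin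
  match k with
  | .el true => Proper T.α ∧ Gmm T.α ∧ Gpp T.α
  | .el false => Proper T.α ∧ Gmm T.α ∧ Gpp T.α ∧ Z 1 T.α ∧ Z 3 T.α
  | .row1 => Proper T.α ∧ G3 T.α ∧ Z 0 T.α ∧ Z 2 T.α
  | .row0 => Proper T.α ∧ G4 T.α ∧ Z 0 T.α ∧ Z 2 T.α

theorem Arb.good {k : Kind} {T : Tn} (h : Arb k T) : Good k T := by
  induction h with
  | clasp k hk =>
    let _ : Fintype Tn.one.V := Tn.one.fin
    have hp : Proper (sum single single) := proper_single.sum proper_single
    exact ⟨hp.rot k, clasp_G4.g3.rot_gmm hk, clasp_G4.g3.rot_gpp hk⟩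
  | @turn1 T k hk _ ih =>
    let _ := T.fin
    obtain ⟨p, g, z0, z2⟩ := ih
    refine ⟨p.rot k, g.rot_gmm hk, g.rot_gpp hk, ?_, ?_⟩
    · rcases hk with rfl | rfl
      · have := z0.rot 1
        have e : (0 : ZMod 4) + 1 = 1 := by decide
        rwa [e] at this
      · have := z2.rot 3
        have e : (2 : ZMod 4) + 3 = 1 := by decide
        rwa [e] at this
    · rcases hk with rfl | rfl
      · have := z2.rot 1
        have e : (2 : ZMod 4) + 1 = 3 := by decide
        rwa [e] at this
      · have := z0.rot 3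
        have e : (0 : ZMod 4) + 3 = 3 := by decide
        rwa [e] at this
  | @turn0 T k hk _ ih =>
    let _ := T.fin
    obtain ⟨p, g4, z0, z2⟩ := ih
    have g := g4.g3
    refine ⟨p.rot k, g.rot_gmm hk, g.rot_gpp hk, ?_, ?_⟩
    · rcases hk with rfl | rfl
      · have := z0.rot 1
        have e : (0 : ZMod 4) + 1 = 1 := by decide
        rwa [e] at this
      · have := z2.rot 3
        have e : (2 : ZMod 4) + 3 = 1 := by decide
        rwa [e] at this
    · rcases hk with rfl | rfl
      · have := z2.rot 1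
        have e : (2 : ZMod 4) + 1 = 3 := by decide
        rwa [e] at this
      · have := z0.rot 3
        have e : (0 : ZMod 4) + 3 = 3 := by decide
        rwa [e] at this
  | three =>
    let _ : Fintype Tn.one.V := Tn.one.fin
    let _ : Fintype (Tn.one.add Tn.one).V := (Tn.one.add Tn.one).fin
    have hp : Proper (sum single single) := proper_single.sum proper_single
    obtain ⟨g, z0, z2⟩ := row_cons hp clasp_G4.g3.gmm
    exact ⟨proper_single.sum hp, g, z0, z2⟩
  | @cons_el T b _ ih =>
    let _ := T.fin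
    let _ : Fintype Tn.one.V := Tn.one.fin
    have hT : Proper T.α ∧ Gmm T.α := by
      cases b with
      | true => exact ⟨ih.1, ih.2.1⟩
      | false => exact ⟨ih.1, ih.2.1⟩
    obtain ⟨g, z0, z2⟩ := row_cons hT.1 hT.2
    exact ⟨proper_single.sum hT.1, g, z0, z2⟩
  | @cons_row1 T _ ih =>
    let _ := T.fin
    let _ : Fintype Tn.one.V := Tn.one.fin
    obtain ⟨p, g, -, -⟩ := ih
    obtain ⟨g, z0, z2⟩ := row_cons p g.gmm
    exact ⟨proper_single.sum p, g, z0, z2⟩
  | @cons_row0 T _ ih =>
    let _ := T.fin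
    let _ : Fintype Tn.one.V := Tn.one.fin
    obtain ⟨p, g, -, -⟩ := ih
    obtain ⟨g, z0, z2⟩ := row_cons p g.g3.gmm
    exact ⟨proper_single.sum p, g, z0, z2⟩
  | @pair S T b c h _ _ ihS ihT =>
    let _ := T.fin
    let _ := S.fin
    cases b with
    | false =>
      obtain ⟨p₁, -, -, -, z3⟩ := ihS
      have hT : Proper T.α ∧ Gmm T.α := by
        cases c with
        | true => exact ⟨ihT.1, ihT.2.1⟩
        | false => exact ⟨ihT.1, ihT.2.1⟩
      obtain ⟨g, z0, z2⟩ := row_left p₁ hT.1 z3 hT.2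
      exact ⟨p₁.sum hT.1, g, z0, z2⟩
    | true =>
      cases c with
      | true => exact absurd ⟨rfl, rfl⟩ h
      | false =>
        obtain ⟨p₁, -, gpp⟩ := ihS
        obtain ⟨p₂, -, -, z1, -⟩ := ihT
        obtain ⟨g, z0, z2⟩ := row_right p₁ p₂ gpp z1
        exact ⟨p₁.sum p₂, g, z0, z2⟩
  | @left S T _ _ ihS ihT =>
    let _ := T.fin
    let _ := S.fin
    obtain ⟨p₁, -, -, -, z3⟩ := ihS
    obtain ⟨p₂, g2, -, -⟩ := ihT
    obtain ⟨g, z0, z2⟩ := row_left p₁ p₂ z3 g2.g3.gmm
    exact ⟨p₁.sum p₂, g, z0, z2⟩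
  | @right S T _ _ ihS ihT =>
    let _ := T.fin
    let _ := S.fin
    obtain ⟨p₁, g1, -, -⟩ := ihS
    obtain ⟨p₂, -, -, z1, -⟩ := ihT
    obtain ⟨g, z0, z2⟩ := row_right p₁ p₂ g1.gpp z1
    exact ⟨p₁.sum p₂, g, z0, z2⟩

/-- The closure of a row by one more crossing: `n = card V + 1` crossings, `n + 3` edges. -/
theorem arb_polygon {T : Tn} (h : Arb .row1 T ∨ Arb .row0 T) (ov : Option T.V → Bool) :
    HasPolygon (closeA T.α) ov (@Fintype.card T.V T.fin + 4) := by
  let _ := T.fin
  rcases h with h | h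
  · obtain ⟨p, g, -, -⟩ := h.good
    exact closed_polygon p g.gpm ov
  · obtain ⟨p, g, -, -⟩ := h.good
    exact closed_polygon p g.g3.gpm ov

end SN78
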