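import Pool.Agent.SN78.FinDefs

/-!
# SN78 module CHAIN: the pieces of one stick do not overlap

Let `next b = x w (j + 2)` if `adj b = x w j`.  Then `base (next b) = base b` (`ed_x` or the definition
of `opp`) and `st (next b) = 1 - st (adj b) > st b` (`st_add_two`, `st_lt`).
Backwards: let `c = x w k` and `b = adj (x w (k + 2))`; then `adj b = x w (k + 2)`, `next b = c`, and
`base b = base c`.  So every bead with base `e` is obtained from `e` by iterating `next`: by strong
induction on the finite set of values of `st` (the number of beads `b` with `st b < st c`).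
So for `b ≠ c` with the same base `e` we have `b = next^m e`, `c = next^n e` with `m ≠ n`, say `m < n`.
If `n = m + 1` then `adj b = x w j`, `c = x w (j + 2)`.  If `n > m + 1` then
`1 - st (adj b) = st (next b) < st c` as `st` increases strictly along `next`.
-/

namespace SN78

open Sum

variable {W N : Type} {P : Pic W N Empty Empty} {L : Lab N Empty Empty H}
  {sh : Empty → ZMod 4 → Prop}

private theorem chain_finite [Finite W] [Finite N] : Finite (Bead W N Empty Empty) := by
  let g : Bead W N Empty Empty → (W × ZMod 4) ⊕ (N × Bool) := fun b =>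
    match b with
    | inl (.x w i) => inl (w, i)
    | inl (.f e _) => e.elim
    | inl (.o e _) => e.elim
    | inr p => inr p
  refine Finite.of_injective g ?_
  rintro ((⟨w, i⟩ | ⟨e, _⟩ | ⟨e, _⟩) | p) ((⟨w', i'⟩ | ⟨e', _⟩ | ⟨e', _⟩) | p') h
  all_goals first
    | exact e.elim
    | exact e'.elim
    | (simp only [g] at h; simp_all)

/-- the piece before the crossing dart `c = x w k` -/
private theorem chain_pred (hP : P.Ok) (hV : P.Valid sh L.at) (w : W) (k : ZMod 4) :
    base P (P.adj (inl (.x w (k + 2)))) = base P (inl (.x w k)) ∧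
      st P L (P.adj (inl (.x w (k + 2)))) < st P L (inl (.x w k)) := by
  have h4 : k + 2 + 2 = k := by
    have : (4 : ZMod 4) = 0 := by decide
    linear_combination this
  constructor
  · rw [base_adj hP]
    show P.opp (P.ed w (k + 2 + 2)) = P.ed w (k + 2)
    rw [h4, hP.opp_ed]
  · have h := st_lt hP hV (P.adj (inl (.x w (k + 2))))
    rw [hP.adj_adj, st_add_two hV w k] at h
    linarith

private def ChainBf (P : Pic W N Empty Empty) (L : Lab N Empty Empty H)
    (b c : Bead W N Empty Empty) : Prop :=
  1 - st P L (P.adj b) < st P L c ∨ ∃ w j, P.adj b = inl (.x w j) ∧ c = inl (.x w (j + 2))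

private theorem ChainBf.le (hV : P.Valid sh L.at) {b c : Bead W N Empty Empty}
    (h : ChainBf P L b c) : 1 - st P L (P.adj b) ≤ st P L c := by
  rcases h with h | ⟨w, j, h1, h2⟩
  · exact h.le
  · rw [h1, h2, st_add_two hV w j]

/-- if `b` is equal to or before the predecessor of `x w k`, it is before `x w k` -/
private theorem chain_step (hP : P.Ok) (hV : P.Valid sh L.at) (w : W) (k : ZMod 4)
    (b : Bead W N Empty Empty)
    (h : b = P.adj (inl (.x w (k + 2))) ∨ ChainBf P L b (P.adj (inl (.x w (k + 2))))) :
    ChainBf P L b (inl (.x w k)) := by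
  have h4 : k + 2 + 2 = k := by
    have : (4 : ZMod 4) = 0 := by decide
    linear_combination this
  rcases h with h | h
  · right
    refine ⟨w, k + 2, ?_, by rw [h4]⟩
    rw [h, hP.adj_adj]
  · left
    exact lt_of_le_of_lt (h.le hV) (chain_pred hP hV w k).2

/-- if the predecessor of `x w k` is before `c`, then `st (x w k) ≤ st c` -/
private theorem chain_back (hP : P.Ok) (hV : P.Valid sh L.at) (w : W) (k : ZMod 4)
    (c : Bead W N Empty Empty) (h : ChainBf P L (P.adj (inl (.x w (k + 2)))) c) :
    c = inl (.x w k) ∨ st P L (inl (.x w k)) < st P L c := by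
  have h4 : k + 2 + 2 = k := by
    have : (4 : ZMod 4) = 0 := by decide
    linear_combination this
  rcases h with h | ⟨w', j, h1, h2⟩
  · right
    rw [hP.adj_adj, st_add_two hV w k] at h
    linarith
  · left
    rw [hP.adj_adj] at h1
    have h3 := Sum.inl.inj h1
    injection h3 with h5 h6
    rw [h2, ← h5, ← h6, h4]

private theorem chain_aux [Finite W] [Finite N] (hP : P.Ok) (hV : P.Valid sh L.at)
    (b c : Bead W N Empty Empty) :
    base P b = base P c → b = c ∨ ChainBf P L b c ∨ ChainBf P L c b := by
  have hfin : Finite (Bead W N Empty Empty) := chain_finite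
  have hwf : WellFounded (fun b c : Bead W N Empty Empty => st P L b < st P L c) := by
    have : IsTrans (Bead W N Empty Empty) (fun b c => st P L b < st P L c) :=
      ⟨fun _ _ _ h1 h2 => lt_trans h1 h2⟩
    have : Std.Irrefl (fun b c : Bead W N Empty Empty => st P L b < st P L c) :=
      ⟨fun _ h => lt_irrefl _ h⟩
    exact Finite.wellFounded_of_trans_of_irrefl _
  refine Prod.GameAdd.induction (C := fun b c : Bead W N Empty Empty => base P b = base P c →
    b = c ∨ ChainBf P L b c ∨ ChainBf P L c b) hwf hwf ?_ b c
  clear b c
  intro b c ih hbc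
  have hend : ∀ e : Bead W N Empty Empty, IsEnd e → base P e = e := by
    rintro ((⟨w, i⟩ | ⟨e, _⟩ | ⟨e, _⟩) | p) h
    · exact h.elim
    · exact e.elim
    · exact e.elim
    · rfl
  have hcr : ∀ e : Bead W N Empty Empty, ¬ IsEnd e → ∃ w k, e = inl (.x w k) := by
    rintro ((⟨w, i⟩ | ⟨e, _⟩ | ⟨e, _⟩) | p) h
    · exact ⟨w, i, rfl⟩
    · exact e.elim
    · exact e.elim
    · exact (h trivial).elim
  by_cases hb : IsEnd b
  · by_cases hc : IsEnd c
    · left
      rw [← hend b hb, ← hend c hc, hbc]
    · -- `c` is a crossing dart, `b` an end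
      obtain ⟨w, k, rfl⟩ := hcr c hc
      have hp := chain_pred (L := L) hP hV w k
      have ih1 := ih b (P.adj (inl (.x w (k + 2)))) (Prod.GameAdd.snd hp.2) (by rw [hbc, hp.1])
      rcases ih1 with h | h | h
      · exact Or.inr (Or.inl (chain_step hP hV w k b (Or.inl h)))
      · exact Or.inr (Or.inl (chain_step hP hV w k b (Or.inr h)))
      · rcases chain_back hP hV w k b h with h | h
        · exact Or.inl h
        · exfalso
          have h0 : st P L b = 0 := by
            rcases b with ((⟨w, i⟩ | ⟨e, _⟩ | ⟨e, _⟩) | p)
            · exact hb.elim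
            · exact e.elim
            · exact e.elim
            · rfl
          rw [h0] at h
          exact absurd h (not_lt.mpr (st_nonneg hV _))
  · obtain ⟨v, i, rfl⟩ := hcr b hb
    have hq := chain_pred (L := L) hP hV v i
    have ih2 := ih (P.adj (inl (.x v (i + 2)))) c (Prod.GameAdd.fst hq.2) (by rw [← hbc, hq.1])
    rcases ih2 with h | h | h
    · exact Or.inr (Or.inr (chain_step hP hV v i c (Or.inl h.symm)))
    · rcases chain_back hP hV v i c h with h | h
      · exact Or.inl h.symm
      · -- `st b < st c`, so `c` is a crossing dart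
        by_cases hc : IsEnd c
        · exfalso
          have h0 : st P L c = 0 := by
            rcases c with ((⟨w, i⟩ | ⟨e, _⟩ | ⟨e, _⟩) | p)
            · exact hc.elim
            · exact e.elim
            · exact e.elim
            · rfl
          rw [h0] at h
          exact absurd h (not_lt.mpr (st_nonneg hV _))
        · obtain ⟨w, k, rfl⟩ := hcr c hc
          have hp := chain_pred (L := L) hP hV w k
          have ih1 := ih (inl (.x v i)) (P.adj (inl (.x w (k + 2)))) (Prod.GameAdd.snd hp.2)
            (by rw [hbc, hp.1])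
          rcases ih1 with h' | h' | h'
          · exact Or.inr (Or.inl (chain_step hP hV w k _ (Or.inl h')))
          · exact Or.inr (Or.inl (chain_step hP hV w k _ (Or.inr h')))
          · rcases chain_back hP hV w k _ h' with h'' | h''
            · exact Or.inl h''
            · exact absurd h (not_lt.mpr h''.le)
    · exact Or.inr (Or.inr (chain_step hP hV v i c (Or.inr h)))

theorem chain [Finite W] [Finite N] (hP : P.Ok) (hV : P.Valid sh L.at)
    {b c : Bead W N Empty Empty} (hne : b ≠ c) (hb : base P b = base P c) :
    1 - st P L (P.adj b) < st P L c ∨ 1 - st P L (P.adj c) < st P L b ∨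
      (∃ w j, P.adj b = inl (.x w j) ∧ c = inl (.x w (j + 2))) ∨
      (∃ w j, P.adj c = inl (.x w j) ∧ b = inl (.x w (j + 2))) := by
  rcases chain_aux (L := L) hP hV b c hb with h | h | h
  · exact absurd h hne
  · rcases h with h | h
    · exact Or.inl h
    · exact Or.inr (Or.inr (Or.inl h))
  · rcases h with h | h
    · exact Or.inr (Or.inl h)
    · exact Or.inr (Or.inr (Or.inr h))

end SN78
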