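import Pool.Agent.SN78.Defs

/-!
# SN78: tangle shadows, sums, rotations, reflections, and the goodness predicates
-/

namespace SN78

open Sum

/-- each port leads to a crossing -/
def Proper {V : Type} (α : Tg V) : Prop := ∀ i, ∃ v j, α (.o () i) = .x v j

/-- the shadow with one crossing -/
def single : Tg Unit
  | .x _ i => .o () i
  | .f e _ => e.elim
  | .o _ i => .x () i

/-- inclusion of the darts of the left summand; its ports `0` and `3` go to the ports `1` and `2` of
the right summand -/
def lf {V₁ V₂ : Type} (α₂ : Tg V₂) : SD V₁ Empty Unit → SD (V₁ ⊕ V₂) Empty Unit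
  | .x v i => .x (inl v) i
  | .f e _ => e.elim
  | .o _ i => if i = 0 ∨ i = 3 then
      match α₂ (.o () (if i = 0 then 1 else 2)) with
      | .x v j => .x (inr v) j
      | _ => .o () i
    else .o () i

/-- inclusion of the darts of the right summand; its ports `1` and `2` go to the ports `0` and `3`
of the left summand -/
def rg {V₁ V₂ : Type} (α₁ : Tg V₁) : SD V₂ Empty Unit → SD (V₁ ⊕ V₂) Empty Unit
  | .x v i => .x (inr v) i
  | .f e _ => e.elim
  | .o _ i => if i = 1 ∨ i = 2 then
      match α₁ (.o () (if i = 1 then 0 else 3)) with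
      | .x v j => .x (inl v) j
      | _ => .o () i
    else .o () i

/-- the sum of two tangle shadows, `α₁` on the left and `α₂` on the right -/
def sum {V₁ V₂ : Type} (α₁ : Tg V₁) (α₂ : Tg V₂) : Tg (V₁ ⊕ V₂)
  | .x (inl v) i => lf α₂ (α₁ (.x v i))
  | .x (inr v) i => rg α₁ (α₂ (.x v i))
  | .f e _ => e.elim
  | .o _ i => if i = 1 ∨ i = 2 then lf α₂ (α₁ (.o () i)) else rg α₁ (α₂ (.o () i))

/-- relabelling of darts: crossings by `e`, the darts of the crossing `v` are rotated by `c v`, the
ports are rotated by `k` -/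
def rel {V V' : Type} (e : V → V') (c : V → ZMod 4) (k : ZMod 4) :
    SD V Empty Unit → SD V' Empty Unit
  | .x v i => .x (e v) (i + c v)
  | .f e _ => e.elim
  | .o _ i => .o () (i + k)

/-- the reflection `i ↦ 3 - i` of all darts -/
def rfl4 {V : Type} : SD V Empty Unit → SD V Empty Unit
  | .x v i => .x v (3 - i)
  | .f e _ => e.elim
  | .o _ i => .o () (3 - i)

/-- rotation of a tangle: port `i` becomes port `i + k` -/
def rot {V : Type} (k : ZMod 4) (α : Tg V) : Tg V :=
  fun d => rel id (fun _ => 0) k (α (rel id (fun _ => 0) (-k) d))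

/-- reflection of a tangle in the horizontal axis -/
def refl {V : Type} (α : Tg V) : Tg V := fun d => rfl4 (α (rfl4 d))

/-- reflection of directions in the horizontal axis -/
def rflD (D : ZMod 4 → H) : ZMod 4 → H := fun i => ![D (3 - i) 0, - D (3 - i) 1, D (3 - i) 2]

section good
variable {V : Type} [Fintype V]

/-- drawable for all directions -/
def G4 (α : Tg V) : Prop := ∀ D, Pos D → Dr α no D

/-- drawable for all directions such that one of the angles `D 0, D 2` and `D 1, D 3` is `< π` -/
def G3 (α : Tg V) : Prop := ∀ D, Pos D → (0 < d2 (D 0) (D 2) ∨ 0 < d2 (D 1) (D 3)) → Dr α no D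

/-- drawable if both angles are `< π` -/
def Gmm (α : Tg V) : Prop := ∀ D, Pos D → 0 < d2 (D 0) (D 2) → 0 < d2 (D 1) (D 3) → Dr α no D

/-- drawable if both angles are `> π` -/
def Gpp (α : Tg V) : Prop := ∀ D, Pos D → d2 (D 0) (D 2) < 0 → d2 (D 1) (D 3) < 0 → Dr α no D

/-- drawable if the ports `k` and `k + 1` have a common far point -/
def Z (k : ZMod 4) (α : Tg V) : Prop := ∀ D, Pos1 k D → Dr α (only k) D

end good

end SN78
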