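import Pool.Agent.SN78.Plane
import Pool.Agent.SN78.Tang

/-!
# SN78 module CLASP: the sum of two crossings

Crossings `v = inl ()` (left), `w = inr ()` (right); nodes `A = false`, `B = true`.
`adj`: `x v 0 – (B, false)`, `(B, true) – x w 1`, `x v 3 – (A, false)`, `(A, true) – x w 2`,
`x v 1 – o 1`, `x v 2 – o 2`, `x w 0 – o 0`, `x w 3 – o 3`.
Sticks: `A – D 1` through `v` (ends `(A, false)`, `o 1`), `A – D 0` through `w` (ends `(A, true)`,
`o 0`), `B – D 2` through `v` (ends `(B, false)`, `o 2`), `B – D 3` through `w` (ends `(B, true)`, `o 3`).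
Positions `A = (0,0,1)`, `B = (y 0, y 1, 1)` with
`d2 (D 0) y > 0`, `d2 (D 3) y > 0`, `d2 y (D 1) > 0`, `d2 y (D 2) > 0`: `exists_dir` for the
rotated directions `fun i => D (i + 1)`.

`kap v 0 = dt A B (D 1) = d2 y (D 1)`, `kap v 1 = dt B (D 1) (D 2) = d2 (D 1) (D 2)`,
`kap v 2 = dt (D 1) (D 2) A = d2 (D 1) (D 2)`, `kap v 3 = dt (D 2) A B = d2 y (D 2)`;
`kap w 0 = dt (D 3) (D 0) B = d2 (D 3) (D 0)`, `kap w 1 = dt (D 0) B A = d2 (D 0) y`,
`kap w 2 = dt B A (D 3) = d2 (D 3) y`, `kap w 3 = dt A (D 3) (D 0) = d2 (D 3) (D 0)`.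
No two crossings are adjacent.  Bends: `dt A (D 0) (D 1) ≠ 0`, `dt B (D 3) (D 2) ≠ 0`.
Apart are only: (`A – D 1`, `B – D 3`) and (`A – D 0`, `B – D 2`).
First pair: a functional negative at `D 3`, `y` and positive at `D 1`: `exists_func` with
`p = D 3, q = y, v = D 1` (`d2 y (D 1) > 0`, so `d2 (D 1) y < 0`), negate it; then shift the third
coordinate so that it is slightly positive at `A` and still negative at `B`.  Second pair: negative at
`y`, `D 2`, positive at `D 0`: `p = y, q = D 2, v = D 0` (`d2 y (D 0) < 0`).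

Rigidity: normalise by a constant so that `z_A = 0`, let `z_B = β`, far values `t u i`.
Equation of `v`: `kap v 2 * β + kap v 0 * t u 2 = kap v 3 * t u 1` (as `z_A = 0`), i.e.
`β = t (kap v 3 * u 1 - kap v 0 * u 2) / kap v 2`.  This is `β = t * l₁ y` where `l₁` is
the linear function with `l₁ (D 1) = u 1`, `l₁ (D 2) = u 2` (since
`d2 (D 1) (D 2) • y = d2 y (D 2) • D 1 - d2 y (D 1) • D 2`).  Equation of `w`: `β = t * l₂ y` where
`l₂ (D 0) = u 0`, `l₂ (D 3) = u 3`.  As `u` is not linear in `D`, `l₁ ≠ l₂`; choose `y` with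
`(l₁ - l₂) y ≠ 0` (the vector `m` of `exists_dir`).  Then `t = 0` and `β = 0`.
The number of nodes is `2`, the number of crossings.
-/

namespace SN78

open Sum

/-- the pairing of the beads of the clasp -/
private def clAdj : Bead (Unit ⊕ Unit) Bool Empty Unit → Bead (Unit ⊕ Unit) Bool Empty Unit
  | .inl (.x (.inl _) i) => (![.inr (true, false), .inl (.o () 1), .inl (.o () 2),
      .inr (false, false)] : Fin 4 → Bead (Unit ⊕ Unit) Bool Empty Unit) i
  | .inl (.x (.inr _) i) => (![.inl (.o () 0), .inr (true, true), .inr (false, true),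
      .inl (.o () 3)] : Fin 4 → Bead (Unit ⊕ Unit) Bool Empty Unit) i
  | .inl (.f e _) => e.elim
  | .inl (.o _ i) => (![.inl (.x (.inr ()) 0), .inl (.x (.inl ()) 1), .inl (.x (.inl ()) 2),
      .inl (.x (.inr ()) 3)] : Fin 4 → Bead (Unit ⊕ Unit) Bool Empty Unit) i
  | .inr (true, false) => .inl (.x (.inl ()) 0)
  | .inr (true, true) => .inl (.x (.inr ()) 1)
  | .inr (false, false) => .inl (.x (.inl ()) 3)
  | .inr (false, true) => .inl (.x (.inr ()) 2)

/-- the stick ends of the clasp -/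
private def clEd : Unit ⊕ Unit → ZMod 4 → Bead (Unit ⊕ Unit) Bool Empty Unit
  | .inl _, i => (![.inr (true, false), .inl (.o () 1), .inl (.o () 2),
      .inr (false, false)] : Fin 4 → Bead (Unit ⊕ Unit) Bool Empty Unit) i
  | .inr _, i => (![.inl (.o () 0), .inr (true, true), .inr (false, true),
      .inl (.o () 3)] : Fin 4 → Bead (Unit ⊕ Unit) Bool Empty Unit) i

/-- the picture of the clasp -/
private def clPic : Pic (Unit ⊕ Unit) Bool Empty Unit := ⟨clAdj, clEd⟩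

private theorem clPic_ok : clPic.Ok := by
  refine ⟨?_, ?_, ?_, ?_, ?_, ?_⟩
  · rintro ((⟨(⟨⟩ | ⟨⟩), i⟩ | ⟨e, _⟩ | ⟨⟨⟩, i⟩) | ⟨(⟨⟩ | ⟨⟩), (⟨⟩ | ⟨⟩)⟩)
    · fin_cases i <;> rfl
    · fin_cases i <;> rfl
    · exact e.elim
    · fin_cases i <;> rfl
    all_goals rfl
  · rintro ((⟨(⟨⟩ | ⟨⟩), i⟩ | ⟨e, _⟩ | ⟨⟨⟩, i⟩) | ⟨(⟨⟩ | ⟨⟩), (⟨⟩ | ⟨⟩)⟩)
    · fin_cases i <;> intro h <;> cases h
    · fin_cases i <;> intro h <;> cases h
    · exact e.elim
    · fin_cases i <;> intro h <;> cases h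
    all_goals (intro h; cases h)
  · rintro (⟨⟩ | ⟨⟩) i <;> fin_cases i <;> trivial
  · rintro (⟨⟩ | ⟨⟩) i w j h <;> fin_cases i <;> cases h
  · rintro (⟨⟩ | ⟨⟩) i _ <;> fin_cases i <;> rfl
  · rintro (⟨⟩ | ⟨⟩) i <;> fin_cases i <;> rfl

private theorem clPic_real : clPic.Real (sum single single) := by
  refine ⟨?_, ?_⟩
  · rintro (⟨(⟨⟩ | ⟨⟩), i⟩ | ⟨e, _⟩ | ⟨⟨⟩, i⟩)
    · fin_cases i
      · exact Reach.node (a := true) (c := false) rfl (Reach.site rfl)
      · exact Reach.site rfl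
      · exact Reach.site rfl
      · exact Reach.node (a := false) (c := false) rfl (Reach.site rfl)
    · fin_cases i
      · exact Reach.site rfl
      · exact Reach.node (a := true) (c := true) rfl (Reach.site rfl)
      · exact Reach.node (a := false) (c := true) rfl (Reach.site rfl)
      · exact Reach.site rfl
    · exact e.elim
    · fin_cases i <;> exact Reach.site rfl
  · rintro (⟨⟩ | ⟨⟩) (⟨⟩ | ⟨⟩)
    all_goals exact ⟨_, Reach.site rfl⟩

/-- the positions of the clasp -/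
private def clLab (D : ZMod 4 → H) (y : H) : Lab Bool Empty Unit H where
  n b := match b with
    | false => ![0, 0, 1]
    | true => ![y 0, y 1, 1]
  f e := e.elim
  o _ i := D i

private theorem Sep.swap_left {A B C E : H} (h : Sep A B C E) : Sep B A C E := by
  obtain ⟨l, h1, h2, h3, h4⟩ := h
  exact ⟨l, h2, h1, h3, h4⟩

private theorem Sep.swap_right {A B C E : H} (h : Sep A B C E) : Sep A B E C := by
  obtain ⟨l, h1, h2, h3, h4⟩ := h
  exact ⟨l, h1, h2, h4, h3⟩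

private theorem Sep.symm' {A B C E : H} (h : Sep A B C E) : Sep C E A B := by
  obtain ⟨l, h1, h2, h3, h4⟩ := h
  refine ⟨-l, ?_, ?_, ?_, ?_⟩ <;> simp only [dot, Pi.neg_apply] at * <;> linarith

/-- the segment from the origin in the direction `v` and the segment from `y` in the direction `p` -/
private theorem cl_sep {v p y : H} (hv : v 2 = 0) (hp : p 2 = 0) (hy : y 2 = 0)
    (h : ∃ l : H, l 2 = 0 ∧ 0 < dot l p ∧ 0 < dot l y ∧ dot l v < 0) :
    Sep ![0, 0, 1] v ![y 0, y 1, 1] p := by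
  obtain ⟨l, h0, h1, h2, h3⟩ := h
  simp only [dot, hv, hp, hy] at h1 h2 h3
  refine ⟨![-l 0, -l 1, (l 0 * y 0 + l 1 * y 1) / 2], ?_, ?_, ?_, ?_⟩
  · simp [dot]; linarith
  · simp [dot, hv]; linarith
  · simp [dot]; linarith
  · simp [dot, hp]; linarith

private theorem cl_end : ∀ e : Bead (Unit ⊕ Unit) Bool Empty Unit, IsEnd e →
    e = .inl (.o () 0) ∨ e = .inl (.o () 1) ∨ e = .inl (.o () 2) ∨ e = .inl (.o () 3) ∨
    e = .inr (false, false) ∨ e = .inr (false, true) ∨ e = .inr (true, false) ∨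
    e = .inr (true, true) := by
  rintro ((⟨v, i⟩ | ⟨e, _⟩ | ⟨⟨⟩, i⟩) | ⟨(⟨⟩ | ⟨⟩), (⟨⟩ | ⟨⟩)⟩) h
  · exact h.elim
  · exact e.elim
  · have k : ∀ i : ZMod 4, i = 0 ∨ i = 1 ∨ i = 2 ∨ i = 3 := by decide
    rcases k i with rfl | rfl | rfl | rfl <;> simp
  all_goals simp

private theorem cl_no {e e' : Bead (Unit ⊕ Unit) Bool Empty Unit}
    (hA : clPic.Apart (fun _ => no) e e') (h : SameNode (fun _ : Unit => no) e e' ∨
      SameNode (fun _ : Unit => no) e (clPic.opp e') ∨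
      SameNode (fun _ : Unit => no) (clPic.opp e) e' ∨
      SameNode (fun _ : Unit => no) (clPic.opp e) (clPic.opp e') ∨
      ∃ v i, clPic.ed v i = e ∧ (clPic.ed v (i + 1) = e' ∨ clPic.ed v (i + 3) = e')) : False := by
  obtain ⟨h1, h2, h3, h4, h5⟩ := hA
  rcases h with h | h | h | h | h
  · exact h1 h
  · exact h2 h
  · exact h3 h
  · exact h4 h
  · exact h5 h

theorem clasp {D : ZMod 4 → H} (hD : Pos D) : Dr (sum single single) no D := by
  intro u _ hu
  obtain ⟨hF, hP⟩ := hD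
  have h01 := hP 0
  have h12 := hP 1
  have h23 := hP 2
  have h30 := hP 3
  rw [show (0 : ZMod 4) + 1 = 1 from rfl] at h01
  rw [show (1 : ZMod 4) + 1 = 2 from rfl] at h12
  rw [show (2 : ZMod 4) + 1 = 3 from rfl] at h23
  rw [show (3 : ZMod 4) + 1 = 0 from rfl] at h30
  set m : H := ![d2 (D 3) (D 0) * (D 2 1 * u 1 - D 1 1 * u 2) -
      d2 (D 1) (D 2) * (D 0 1 * u 3 - D 3 1 * u 0),
    d2 (D 3) (D 0) * (D 1 0 * u 2 - D 2 0 * u 1) -
      d2 (D 1) (D 2) * (D 3 0 * u 0 - D 0 0 * u 3), 0] with hm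
  have hm0 : m 0 = d2 (D 3) (D 0) * (D 2 1 * u 1 - D 1 1 * u 2) -
      d2 (D 1) (D 2) * (D 0 1 * u 3 - D 3 1 * u 0) := rfl
  have hm1 : m 1 = d2 (D 3) (D 0) * (D 1 0 * u 2 - D 2 0 * u 1) -
      d2 (D 1) (D 2) * (D 3 0 * u 0 - D 0 0 * u 3) := rfl
  have hm2 : m 2 = 0 := rfl
  have hne : m 0 ≠ 0 ∨ m 1 ≠ 0 := by
    by_contra hcon
    push Not at hcon
    obtain ⟨e0, e1⟩ := hcon
    rw [hm0] at e0
    rw [hm1] at e1
    apply hu
    refine ⟨![(D 2 1 * u 1 - D 1 1 * u 2) / d2 (D 1) (D 2),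
      (D 1 0 * u 2 - D 2 0 * u 1) / d2 (D 1) (D 2), 0], ?_⟩
    have k12 : d2 (D 1) (D 2) ≠ 0 := h12.ne'
    have k30 : d2 (D 3) (D 0) ≠ 0 := h30.ne'
    have g0 : (D 2 1 * u 1 - D 1 1 * u 2) / d2 (D 1) (D 2) =
        (D 0 1 * u 3 - D 3 1 * u 0) / d2 (D 3) (D 0) := by
      rw [div_eq_div_iff k12 k30]
      linarith
    have g1 : (D 1 0 * u 2 - D 2 0 * u 1) / d2 (D 1) (D 2) =
        (D 3 0 * u 0 - D 0 0 * u 3) / d2 (D 3) (D 0) := by
      rw [div_eq_div_iff k12 k30]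
      linarith
    have k : ∀ i : ZMod 4, i = 0 ∨ i = 1 ∨ i = 2 ∨ i = 3 := by decide
    intro i
    rcases k i with rfl | rfl | rfl | rfl
    · rw [g0, g1]
      simp only [dot, Matrix.cons_val_zero, Matrix.cons_val_one, Matrix.cons_val, zero_mul,
        add_zero]
      rw [div_mul_eq_mul_div, div_mul_eq_mul_div, ← add_div, eq_div_iff k30]
      simp only [d2]
      ring
    · simp only [dot, Matrix.cons_val_zero, Matrix.cons_val_one, Matrix.cons_val, zero_mul,
        add_zero]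
      rw [div_mul_eq_mul_div, div_mul_eq_mul_div, ← add_div, eq_div_iff k12]
      simp only [d2]
      ring
    · simp only [dot, Matrix.cons_val_zero, Matrix.cons_val_one, Matrix.cons_val, zero_mul,
        add_zero]
      rw [div_mul_eq_mul_div, div_mul_eq_mul_div, ← add_div, eq_div_iff k12]
      simp only [d2]
      ring
    · rw [g0, g1]
      simp only [dot, Matrix.cons_val_zero, Matrix.cons_val_one, Matrix.cons_val, zero_mul,
        add_zero]
      rw [div_mul_eq_mul_div, div_mul_eq_mul_div, ← add_div, eq_div_iff k30]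
      simp only [d2]
      ring
  obtain ⟨y, hy2, hy0, hy3, hy1, hy2', hmy⟩ := exists_dir (fun i => D (i + 1)) m hne
    (Or.inl ⟨fun i => hF _, fun i => hP _⟩)
  rw [show (3 : ZMod 4) + 1 = 0 from rfl] at hy0
  rw [show (2 : ZMod 4) + 1 = 3 from rfl] at hy3
  rw [show (0 : ZMod 4) + 1 = 1 from rfl] at hy1
  rw [show (1 : ZMod 4) + 1 = 2 from rfl] at hy2'
  have F0 := hF 0
  have F1 := hF 1
  have F2 := hF 2
  have F3 := hF 3
  have S1 : Sep ![0, 0, 1] (D 1) ![y 0, y 1, 1] (D 3) := by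
    refine cl_sep F1 F3 hy2 (exists_func F3 hy2 F1 hy3 ?_)
    rintro ⟨-, h⟩
    rw [d2_swap y (D 1)] at h
    linarith
  have S2 : Sep ![0, 0, 1] (D 0) ![y 0, y 1, 1] (D 2) := by
    obtain ⟨l, l0, l1, l2, l3⟩ := exists_func hy2 F2 F0 hy2' (by
      rintro ⟨h, -⟩
      rw [d2_swap (D 0) y] at h
      linarith)
    exact cl_sep F0 F2 hy2 ⟨l, l0, l2, l1, l3⟩
  refine ⟨Bool, inferInstance, clPic, clLab D y, rfl, clPic_ok, clPic_real, ?_, ?_, ?_, ?_, ?_⟩
  · intro i
    fin_cases i <;> exact ⟨_, _, rfl⟩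
  · refine ⟨?_, fun e => e.elim, fun _ i => hF i⟩
    rintro (⟨⟩ | ⟨⟩) <;> rfl
  · intro i
    rfl
  · have q0 : dt ![0, 0, 1] ![y 0, y 1, 1] (D 1) = d2 y (D 1) := by
      simp [dt, d2]
    have q1 : dt ![y 0, y 1, 1] (D 1) (D 2) = d2 (D 1) (D 2) := by
      simp [dt, d2, F1, F2]
    have q2 : dt (D 1) (D 2) ![0, 0, 1] = d2 (D 1) (D 2) := by
      simp [dt, d2, F1, F2]
    have q3 : dt (D 2) ![0, 0, 1] ![y 0, y 1, 1] = d2 y (D 2) := by
      simp [dt, d2, F2]; ring
    have r0 : dt (D 3) (D 0) ![y 0, y 1, 1] = d2 (D 3) (D 0) := by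
      simp [dt, d2, F3, F0]
    have r1 : dt (D 0) ![y 0, y 1, 1] ![0, 0, 1] = d2 (D 0) y := by
      simp [dt, d2, F0]
    have r2 : dt ![y 0, y 1, 1] ![0, 0, 1] (D 3) = d2 (D 3) y := by
      simp [dt, d2, F3]; ring
    have r3 : dt ![0, 0, 1] (D 3) (D 0) = d2 (D 3) (D 0) := by
      simp [dt, d2]
    refine ⟨?_, ?_, ?_, fun a => a.elim, fun _ _ h => h.elim, ?_⟩
    · rintro (⟨⟩ | ⟨⟩) i
      · fin_cases i
        · change 0 < dt ![0, 0, 1] ![y 0, y 1, 1] (D 1)
          rw [q0]; exact hy1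
        · change 0 < dt ![y 0, y 1, 1] (D 1) (D 2)
          rw [q1]; exact h12
        · change 0 < dt (D 1) (D 2) ![0, 0, 1]
          rw [q2]; exact h12
        · change 0 < dt (D 2) ![0, 0, 1] ![y 0, y 1, 1]
          rw [q3]; exact hy2'
      · fin_cases i
        · change 0 < dt (D 3) (D 0) ![y 0, y 1, 1]
          rw [r0]; exact h30
        · change 0 < dt (D 0) ![y 0, y 1, 1] ![0, 0, 1]
          rw [r1]; exact hy0
        · change 0 < dt ![y 0, y 1, 1] ![0, 0, 1] (D 3)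
          rw [r2]; exact hy3
        · change 0 < dt ![0, 0, 1] (D 3) (D 0)
          rw [r3]; exact h30
    · rintro (⟨⟩ | ⟨⟩) i w j h <;> fin_cases i <;> cases h
    · rintro (⟨⟩ | ⟨⟩)
      · change dt ![0, 0, 1] (D 0) (D 1) ≠ 0
        have e : dt ![0, 0, 1] (D 0) (D 1) = d2 (D 0) (D 1) := by simp [dt, d2]
        rw [e]; exact h01.ne'
      · change dt ![y 0, y 1, 1] (D 3) (D 2) ≠ 0
        have e : dt ![y 0, y 1, 1] (D 3) (D 2) = - d2 (D 2) (D 3) := by
          simp [dt, d2, F2, F3]; ring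
        rw [e]; exact (neg_neg_of_pos h23).ne
    · intro e e' he he' hA
      rcases cl_end e he with rfl | rfl | rfl | rfl | rfl | rfl | rfl | rfl
      · rcases cl_end e' he' with rfl | rfl | rfl | rfl | rfl | rfl | rfl | rfl
        · exact (cl_no hA (Or.inl ⟨rfl, Or.inl rfl⟩)).elim
        · exact (cl_no hA (Or.inr (Or.inr (Or.inr (Or.inl rfl))))).elim
        · exact S2.swap_left.swap_right
        · exact (cl_no hA (Or.inr (Or.inr (Or.inr (Or.inr ⟨.inr (), 0, rfl, Or.inr rfl⟩))))).elim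
        · exact (cl_no hA (Or.inr (Or.inr (Or.inl rfl)))).elim
        · exact (cl_no hA (Or.inr (Or.inr (Or.inl rfl)))).elim
        · exact S2.swap_left
        · exact (cl_no hA (Or.inr (Or.inr (Or.inr (Or.inr ⟨.inr (), 0, rfl, Or.inl rfl⟩))))).elim
      · rcases cl_end e' he' with rfl | rfl | rfl | rfl | rfl | rfl | rfl | rfl
        · exact (cl_no hA (Or.inr (Or.inr (Or.inr (Or.inl rfl))))).elim
        · exact (cl_no hA (Or.inl ⟨rfl, Or.inl rfl⟩)).elim
        · exact (cl_no hA (Or.inr (Or.inr (Or.inr (Or.inr ⟨.inl (), 1, rfl, Or.inl rfl⟩))))).elim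
        · exact S1.swap_left.swap_right
        · exact (cl_no hA (Or.inr (Or.inr (Or.inl rfl)))).elim
        · exact (cl_no hA (Or.inr (Or.inr (Or.inl rfl)))).elim
        · exact (cl_no hA (Or.inr (Or.inr (Or.inr (Or.inr ⟨.inl (), 1, rfl, Or.inr rfl⟩))))).elim
        · exact S1.swap_left
      · rcases cl_end e' he' with rfl | rfl | rfl | rfl | rfl | rfl | rfl | rfl
        · exact S2.swap_left.swap_right.symm'
        · exact (cl_no hA (Or.inr (Or.inr (Or.inr (Or.inr ⟨.inl (), 2, rfl, Or.inr rfl⟩))))).elim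
        · exact (cl_no hA (Or.inl ⟨rfl, Or.inl rfl⟩)).elim
        · exact (cl_no hA (Or.inr (Or.inr (Or.inr (Or.inl rfl))))).elim
        · exact (cl_no hA (Or.inr (Or.inr (Or.inr (Or.inr ⟨.inl (), 2, rfl, Or.inl rfl⟩))))).elim
        · exact S2.symm'.swap_left
        · exact (cl_no hA (Or.inr (Or.inr (Or.inl rfl)))).elim
        · exact (cl_no hA (Or.inr (Or.inr (Or.inl rfl)))).elim
      · rcases cl_end e' he' with rfl | rfl | rfl | rfl | rfl | rfl | rfl | rfl
        · exact (cl_no hA (Or.inr (Or.inr (Or.inr (Or.inr ⟨.inr (), 3, rfl, Or.inl rfl⟩))))).elim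
        · exact S1.swap_left.swap_right.symm'
        · exact (cl_no hA (Or.inr (Or.inr (Or.inr (Or.inl rfl))))).elim
        · exact (cl_no hA (Or.inl ⟨rfl, Or.inl rfl⟩)).elim
        · exact S1.symm'.swap_left
        · exact (cl_no hA (Or.inr (Or.inr (Or.inr (Or.inr ⟨.inr (), 3, rfl, Or.inr rfl⟩))))).elim
        · exact (cl_no hA (Or.inr (Or.inr (Or.inl rfl)))).elim
        · exact (cl_no hA (Or.inr (Or.inr (Or.inl rfl)))).elim
      · rcases cl_end e' he' with rfl | rfl | rfl | rfl | rfl | rfl | rfl | rfl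
        · exact (cl_no hA (Or.inr (Or.inl rfl))).elim
        · exact (cl_no hA (Or.inr (Or.inl rfl))).elim
        · exact (cl_no hA (Or.inr (Or.inr (Or.inr (Or.inr ⟨.inl (), 3, rfl, Or.inr rfl⟩))))).elim
        · exact S1.swap_right
        · exact (cl_no hA (Or.inl rfl)).elim
        · exact (cl_no hA (Or.inl rfl)).elim
        · exact (cl_no hA (Or.inr (Or.inr (Or.inr (Or.inr ⟨.inl (), 3, rfl, Or.inl rfl⟩))))).elim
        · exact S1
      · rcases cl_end e' he' with rfl | rfl | rfl | rfl | rfl | rfl | rfl | rfl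
        · exact (cl_no hA (Or.inr (Or.inl rfl))).elim
        · exact (cl_no hA (Or.inr (Or.inl rfl))).elim
        · exact S2.swap_right
        · exact (cl_no hA (Or.inr (Or.inr (Or.inr (Or.inr ⟨.inr (), 2, rfl, Or.inl rfl⟩))))).elim
        · exact (cl_no hA (Or.inl rfl)).elim
        · exact (cl_no hA (Or.inl rfl)).elim
        · exact S2
        · exact (cl_no hA (Or.inr (Or.inr (Or.inr (Or.inr ⟨.inr (), 2, rfl, Or.inr rfl⟩))))).elim
      · rcases cl_end e' he' with rfl | rfl | rfl | rfl | rfl | rfl | rfl | rfl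
        · exact S2.swap_left.symm'
        · exact (cl_no hA (Or.inr (Or.inr (Or.inr (Or.inr ⟨.inl (), 0, rfl, Or.inl rfl⟩))))).elim
        · exact (cl_no hA (Or.inr (Or.inl rfl))).elim
        · exact (cl_no hA (Or.inr (Or.inl rfl))).elim
        · exact (cl_no hA (Or.inr (Or.inr (Or.inr (Or.inr ⟨.inl (), 0, rfl, Or.inr rfl⟩))))).elim
        · exact S2.symm'
        · exact (cl_no hA (Or.inl rfl)).elim
        · exact (cl_no hA (Or.inl rfl)).elim
      · rcases cl_end e' he' with rfl | rfl | rfl | rfl | rfl | rfl | rfl | rfl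
        · exact (cl_no hA (Or.inr (Or.inr (Or.inr (Or.inr ⟨.inr (), 1, rfl, Or.inr rfl⟩))))).elim
        · exact S1.swap_left.symm'
        · exact (cl_no hA (Or.inr (Or.inl rfl))).elim
        · exact (cl_no hA (Or.inr (Or.inl rfl))).elim
        · exact S1.symm'
        · exact (cl_no hA (Or.inr (Or.inr (Or.inr (Or.inr ⟨.inr (), 1, rfl, Or.inl rfl⟩))))).elim
        · exact (cl_no hA (Or.inl rfl)).elim
        · exact (cl_no hA (Or.inl rfl)).elim
  · rintro z hz - ⟨t, ht⟩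
    have e1 : dt (D 1) (D 2) ![0, 0, 1] * z.n true + dt ![0, 0, 1] ![y 0, y 1, 1] (D 1) * z.o () 2 -
        dt (D 2) ![0, 0, 1] ![y 0, y 1, 1] * z.o () 1 -
        dt ![y 0, y 1, 1] (D 1) (D 2) * z.n false = 0 := hz (.inl ())
    have e2 : dt ![y 0, y 1, 1] ![0, 0, 1] (D 3) * z.o () 0 + dt (D 3) (D 0) ![y 0, y 1, 1] *
        z.n false - dt ![0, 0, 1] (D 3) (D 0) * z.n true -
        dt (D 0) ![y 0, y 1, 1] ![0, 0, 1] * z.o () 3 = 0 := hz (.inr ())
    have q0 : dt ![0, 0, 1] ![y 0, y 1, 1] (D 1) = d2 y (D 1) := by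
      simp [dt, d2]
    have q1 : dt ![y 0, y 1, 1] (D 1) (D 2) = d2 (D 1) (D 2) := by
      simp [dt, d2, F1, F2]
    have q2 : dt (D 1) (D 2) ![0, 0, 1] = d2 (D 1) (D 2) := by
      simp [dt, d2, F1, F2]
    have q3 : dt (D 2) ![0, 0, 1] ![y 0, y 1, 1] = d2 y (D 2) := by
      simp [dt, d2, F2]; ring
    have r0 : dt (D 3) (D 0) ![y 0, y 1, 1] = d2 (D 3) (D 0) := by
      simp [dt, d2, F3, F0]
    have r1 : dt (D 0) ![y 0, y 1, 1] ![0, 0, 1] = d2 (D 0) y := by
      simp [dt, d2, F0]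
    have r2 : dt ![y 0, y 1, 1] ![0, 0, 1] (D 3) = d2 (D 3) y := by
      simp [dt, d2, F3]; ring
    have r3 : dt ![0, 0, 1] (D 3) (D 0) = d2 (D 3) (D 0) := by
      simp [dt, d2]
    rw [q0, q1, q2, q3, ht () 1, ht () 2] at e1
    rw [r0, r1, r2, r3, ht () 0, ht () 3] at e2
    have k : t * dot m y = 0 := by
      simp only [dot, hm0, hm1, hm2, zero_mul, add_zero]
      simp only [d2] at e1 e2 ⊢
      linear_combination (D 3 0 * D 0 1 - D 3 1 * D 0 0) * e1 * (-1) -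
        (D 1 0 * D 2 1 - D 1 1 * D 2 0) * e2
    have t0 : t = 0 := by
      rcases mul_eq_zero.mp k with h | h
      · exact h
      · exact absurd h hmy
    subst t0
    have b0 : z.n true = z.n false := by
      have h : d2 (D 1) (D 2) * (z.n true - z.n false) = 0 := by linarith
      rcases mul_eq_zero.mp h with h | h
      · exact absurd h h12.ne'
      · linarith
    refine ⟨![0, 0, z.n false], ?_, fun a => a.elim, ?_⟩
    · rintro (⟨⟩ | ⟨⟩)
      · simp [clLab, dot]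
      · simp [clLab, dot, b0]
    · intro a i
      rw [ht a i]
      change 0 * u i = dot ![0, 0, z.n false] (D i)
      simp [dot, hF i]

end SN78
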