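import Mathlib

/-!
# SN78: polygons with `n + 3` edges for knot diagrams with `n` crossings

Common definitions.

A diagram piece has crossings `V`, big vertices `F` (to be replaced by tangles later) and outer
vertices `O` (the outside of a tangle).  Each of them has four darts numbered by `ZMod 4`
counterclockwise (for outer vertices: counterclockwise as seen from the tangle).  `SD V F O` is the
type of these site darts.  A combinatorial shadow is an involution of the site darts.

A picture (`Pic`) has besides plain nodes `N` (bends of the polygon), each with two sides.  A bead is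
a site dart or a side of a plain node; the involution `adj` pairs the two ends of each piece of
straight line between consecutive beads.  A stick goes straight through crossings; `ed v i` is the
end of the stick which leaves the crossing `v` in the direction `i`.

Positions are homogeneous vectors in `ℝ³`: nodes have third coordinate `1`, outer (far) points have
third coordinate `0` (directions).  All geometric conditions (`Valid`) are strict inequalities
between `3 × 3` determinants.
-/

namespace SN78

/-- homogeneous coordinates -/
abbrev H := Fin 3 → ℝ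

/-- scalar product on `H` -/
def dot (l a : H) : ℝ := l 0 * a 0 + l 1 * a 1 + l 2 * a 2

/-- the `3 × 3` determinant -/
def dt (a b c : H) : ℝ :=
  a 0 * (b 1 * c 2 - b 2 * c 1) - a 1 * (b 0 * c 2 - b 2 * c 0) + a 2 * (b 0 * c 1 - b 1 * c 0)

/-- the `2 × 2` determinant of the first two coordinates -/
def d2 (a b : H) : ℝ := a 0 * b 1 - a 1 * b 0

/-- strict separation of the segment `A B` from the segment `C D` (homogeneous) -/
def Sep (A B C D : H) : Prop :=
  ∃ l : H, 0 < dot l A ∧ 0 < dot l B ∧ dot l C < 0 ∧ dot l D < 0

/-- darts of the sites: crossings, big vertices, outer vertices -/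
inductive SD (V F O : Type)
  | x (v : V) (i : ZMod 4)
  | f (a : F) (i : ZMod 4)
  | o (a : O) (i : ZMod 4)
  deriving DecidableEq

/-- beads: site darts and sides of plain nodes -/
abbrev Bead (V N F O : Type) := SD V F O ⊕ (N × Bool)

variable {V N F O T : Type}

/-- the stick ends: all beads except the crossing darts -/
def IsEnd : Bead V N F O → Prop
  | .inl (.x _ _) => False
  | _ => True

/-- a picture: raw data -/
structure Pic (V N F O : Type) where
  adj : Bead V N F O → Bead V N F O
  ed : V → ZMod 4 → Bead V N F O

/-- the other end of the stick which starts at the end `e` -/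
def Pic.opp (P : Pic V N F O) (e : Bead V N F O) : Bead V N F O :=
  match P.adj e with
  | .inl (.x v i) => P.ed v (i + 2)
  | b => b

/-- the combinatorial axioms of a picture -/
structure Pic.Ok (P : Pic V N F O) : Prop where
  adj_adj : ∀ b, P.adj (P.adj b) = b
  adj_ne : ∀ b, P.adj b ≠ b
  ed_end : ∀ v i, IsEnd (P.ed v i)
  ed_x : ∀ v i w j, P.adj (.inl (.x v i)) = .inl (.x w j) → P.ed v i = P.ed w (j + 2)
  ed_e : ∀ v i, IsEnd (P.adj (.inl (.x v i))) → P.ed v i = P.adj (.inl (.x v i))
  opp_ed : ∀ v i, P.opp (P.ed v i) = P.ed v (i + 2)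

/-- labels of the nodes, big vertices and outer points with values in `T` -/
structure Lab (N F O T : Type) where
  n : N → T
  f : F → T
  o : O → ZMod 4 → T

/-- the label at a bead (`0` at crossing darts) -/
def Lab.at [Zero T] (L : Lab N F O T) : Bead V N F O → T
  | .inl (.x _ _) => 0
  | .inl (.f a _) => L.f a
  | .inl (.o a i) => L.o a i
  | .inr (a, _) => L.n a

/-- the determinant `[P_{i-1}, P_i, P_{i+1}]` of the stick ends around the crossing `v`;
`p` gives the positions of the stick ends -/
def Pic.kap (P : Pic V N F O) (p : Bead V N F O → H) (v : V) (i : ZMod 4) : ℝ :=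
  dt (p (P.ed v (i + 3))) (p (P.ed v i)) (p (P.ed v (i + 1)))

/-- two ends are at the same point (`sh a i`: the outer points `i` and `i + 1` of `a` coincide) -/
def SameNode (sh : O → ZMod 4 → Prop) : Bead V N F O → Bead V N F O → Prop
  | .inl (.f a _), .inl (.f b _) => a = b
  | .inl (.o a i), .inl (.o b j) => a = b ∧ (i = j ∨ (j = i + 1 ∧ sh a i) ∨ (i = j + 1 ∧ sh a j))
  | .inr (a, _), .inr (b, _) => a = b
  | _, _ => False

/-- the sticks with the ends `e` and `e'` have no common point and do not cross -/
def Pic.Apart (P : Pic V N F O) (sh : O → ZMod 4 → Prop) (e e' : Bead V N F O) : Prop :=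
  ¬ SameNode sh e e' ∧ ¬ SameNode sh e (P.opp e') ∧ ¬ SameNode sh (P.opp e) e' ∧
    ¬ SameNode sh (P.opp e) (P.opp e') ∧
    ¬ ∃ v i, P.ed v i = e ∧ (P.ed v (i + 1) = e' ∨ P.ed v (i + 3) = e')

/-- all geometric conditions of a drawing with the positions `p` of the stick ends -/
structure Pic.Valid (P : Pic V N F O) (sh : O → ZMod 4 → Prop) (p : Bead V N F O → H) :
    Prop where
  /-- the two sticks of a crossing cross with the right orientation -/
  cr : ∀ v i, 0 < P.kap p v i
  /-- the order of consecutive crossings on a stick -/
  ord : ∀ v i w j, P.adj (.inl (.x v i)) = .inl (.x w j) →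
    P.kap p v (i + 2) * P.kap p w (j + 2) < P.kap p w j * P.kap p v i
  /-- real bends at plain nodes -/
  bend : ∀ a, dt (p (.inr (a, true))) (p (P.opp (.inr (a, true)))) (p (P.opp (.inr (a, false)))) ≠ 0
  /-- the four sticks of a big vertex are in counterclockwise order, gaps less than `π` -/
  fat : ∀ a i, 0 < dt (p (.inl (.f a i))) (p (P.opp (.inl (.f a i))))
    (p (P.opp (.inl (.f a (i + 1)))))
  /-- the order of two sticks with a common outer point -/
  shr : ∀ a i, sh a i →
    0 < dt (p (.inl (.o a i))) (p (P.opp (.inl (.o a (i + 1))))) (p (P.opp (.inl (.o a i))))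
  /-- all other pairs of sticks are strictly separated -/
  sep : ∀ e e', IsEnd e → IsEnd e' → P.Apart sh e e' →
    Sep (p e) (p (P.opp e)) (p e') (p (P.opp e'))

/-- the height equation of a crossing with four stick ends at `p i` with the heights `z i` -/
def rw4 (p : ZMod 4 → H) (z : ZMod 4 → ℝ) : ℝ :=
  dt (p 1) (p 2) (p 3) * z 0 + dt (p 3) (p 0) (p 1) * z 2
    - dt (p 2) (p 3) (p 0) * z 1 - dt (p 0) (p 1) (p 2) * z 3

/-- the height equation of a crossing -/
def Pic.row (P : Pic V N F O) (p : Bead V N F O → H) (z : Bead V N F O → ℝ) (v : V) : ℝ :=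
  rw4 (fun i => p (P.ed v i)) (fun i => z (P.ed v i))

/-- the direction in which the big vertex `a` sees its neighbour number `i` -/
def Pic.dir (P : Pic V N F O) (L : Lab N F O H) (a : F) (i : ZMod 4) : H :=
  L.at (P.opp (.inl (.f a i))) - (L.at (P.opp (.inl (.f a i))) 2) • L.f a

/-- the slope in which the big vertex `a` sees its neighbour number `i` -/
def Pic.slo (P : Pic V N F O) (L : Lab N F O H) (z : Lab N F O ℝ) (a : F) (i : ZMod 4) : ℝ :=
  z.at (P.opp (.inl (.f a i))) - (L.at (P.opp (.inl (.f a i))) 2) * z.f a

/-- `z` solves all height equations of crossings -/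
def Pic.Sol (P : Pic V N F O) (L : Lab N F O H) (z : Lab N F O ℝ) : Prop :=
  ∀ v, P.row L.at z.at v = 0

/-- `z` is the restriction of a linear function -/
def Aff (L : Lab N F O H) (z : Lab N F O ℝ) : Prop :=
  ∃ l : H, (∀ a, z.n a = dot l (L.n a)) ∧ (∀ a, z.f a = dot l (L.f a)) ∧
    ∀ a i, z.o a i = dot l (L.o a i)

/-- Rigidity with the equations `r` at the big vertices and the flex `u` at the outer points: all
solutions of the height equations are affine. -/
def Pic.Rig (P : Pic V N F O) (L : Lab N F O H) (r : F → ZMod 4 → ℝ) (u : O → ZMod 4 → ℝ) : Prop :=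
  ∀ z : Lab N F O ℝ, P.Sol L z → (∀ a, ∑ i, r a i * P.slo L z a i = 0) →
    (∃ t : ℝ, ∀ a i, z.o a i = t * u a i) → Aff L z

/-- the equations at the big vertices kill the linear functions -/
def Pic.Orth (P : Pic V N F O) (L : Lab N F O H) (r : F → ZMod 4 → ℝ) : Prop :=
  ∀ a, ∑ i, r a i • P.dir L a i = 0

/-- normalisation of the third coordinates -/
structure Norm (L : Lab N F O H) : Prop where
  n : ∀ a, L.n a 2 = 1
  f : ∀ a, L.f a 2 = 1
  o : ∀ a i, L.o a i 2 = 0

/-- walking from the bead `b` along the polygon the first site dart which is met is `d` -/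
inductive Reach (adj : Bead V N F O → Bead V N F O) : Bead V N F O → SD V F O → Prop
  | site {b d} : adj b = .inl d → Reach adj b d
  | node {b a c d} : adj b = .inr (a, c) → Reach adj (.inr (a, !c)) d → Reach adj b d

/-- the picture shows the shadow `α`, and each node lies on an edge of it -/
structure Pic.Real (P : Pic V N F O) (α : SD V F O → SD V F O) : Prop where
  site : ∀ d, Reach P.adj (.inl d) (α d)
  node : ∀ a c, ∃ d, Reach P.adj (.inr (a, c)) d

/-- tangle shadows: one outer vertex with four darts (the ports) -/
abbrev Tg (V : Type) := SD V Empty Unit → SD V Empty Unit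

/-- A tangle is drawable with the directions `D` of its ports (where neighbouring ports in `sh` have
a common far point) if for each flex `u` which is not linear there is a drawing with as many nodes
as crossings which is rigid for `u`. -/
def Dr [Fintype V] (α : Tg V) (sh : ZMod 4 → Prop) (D : ZMod 4 → H) : Prop :=
  ∀ u : ZMod 4 → ℝ, (∀ i, sh i → u (i + 1) = u i) → (¬ ∃ l : H, ∀ i, u i = dot l (D i)) →
    ∃ (N : Type) (_ : Fintype N) (P : Pic V N Empty Unit) (L : Lab N Empty Unit H),
      Fintype.card N = Fintype.card V ∧ P.Ok ∧ P.Real α ∧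
      (∀ i, ∃ a b, P.opp (.inl (.o () i)) = .inr (a, b)) ∧
      Norm L ∧ (∀ i, L.o () i = D i) ∧ P.Valid (fun _ => sh) L.at ∧
      P.Rig L (fun a => a.elim) (fun _ => u)

/-- no common outer points -/
def no : ZMod 4 → Prop := fun _ => False

/-- only the outer points `k` and `k + 1` coincide -/
def only (k : ZMod 4) : ZMod 4 → Prop := fun i => i = k

/-- directions: third coordinate zero -/
def Flat (D : ZMod 4 → H) : Prop := ∀ i, D i 2 = 0

/-- the four directions are in counterclockwise order and all gaps are less than `π` -/
def Pos (D : ZMod 4 → H) : Prop := Flat D ∧ ∀ i, 0 < d2 (D i) (D (i + 1))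

/-- the directions number `k` and `k + 1` are equal, the three directions are in counterclockwise
order and all gaps are less than `π` -/
def Pos1 (k : ZMod 4) (D : ZMod 4 → H) : Prop :=
  Flat D ∧ D (k + 1) = D k ∧ ∀ i, i ≠ k → 0 < d2 (D i) (D (i + 1))

end SN78
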