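import Pool.Agent.SN78.Alg

/-!
# SN78: standing assumptions for gluing, and the definition of the row of a tangle picture
-/

namespace SN78

open Sum

/-- standing assumptions for gluing the tangle pictures `C X` with the positions `M X` into the big
vertices of the picture `P` with the positions `L` -/
structure Setup {V N F O : Type} {Vc Nc : F → Type} (P : Pic V N F O)
    (C : ∀ X, Pic (Vc X) (Nc X) Empty Unit) (L : Lab N F O H)
    (M : ∀ X, Lab (Nc X) Empty Unit H) (sh : O → ZMod 4 → Prop) : Prop where
  okP : P.Ok
  okC : ∀ X, (C X).Ok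
  fin : ∀ X i, ∃ a b, (C X).opp (inl (.o () i)) = inr (a, b)
  outP : ∀ a i b j, P.opp (inl (.o a i)) ≠ inl (.o b j)
  nL : Norm L
  nM : ∀ X, Norm (M X)
  vP : P.Valid sh L.at
  vC : ∀ X, (C X).Valid (fun _ => no) (M X).at
  dir : ∀ X i, (M X).o () i = P.dir L X i
  shL : ∀ a i, sh a i → L.o a (i + 1) = L.o a i

/-- `r` is the equation for the slopes at the ports which says that the height equations of the
tangle picture are solvable; the solution is unique up to a constant -/
structure HasRow {V N : Type} (C : Pic V N Empty Unit) (M : Lab N Empty Unit H)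
    (r : ZMod 4 → ℝ) : Prop where
  sol : ∀ z : Lab N Empty Unit ℝ, C.Sol M z → ∑ i, r i * z.o () i = 0
  cst : ∀ z : Lab N Empty Unit ℝ, C.Sol M z → (∀ i, z.o () i = 0) → ∃ c, ∀ a, z.n a = c

end SN78
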