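import Pool.Agent.SN78.FFDefs
import Pool.Agent.SN78.Setup

/-!
# SN78 module FFRIG: rigidity of the parent picture for sums

`C` is a drawing of the left tangle with row `ρ` (`HasRow C M ρ`), `M.o () = (d, D 1, D 2, d)`.
`u` is a flex for `D` which is not linear in `D`.  `l₀` is the linear function with
`dot l₀ (D 0) = u 0`, `dot l₀ (D 3) = u 3`, `l₀ 2 = 0` (`D 0, D 3` are linearly independent).  The
hypothesis `hρ` says `ρ 0 * c + ρ 1 * u 1 + ρ 2 * u 2 + ρ 3 * c ≠ 0` for `c = dot l₀ d`.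

For `s > 0` consider solutions `z` of the height equations of `ffP C` with far heights `t * u i`; put
`κ = z.n`, `ζ = s * z.f ()`.  Scaling the homogeneous vector of `X₂` (position `(d, s)`, height
`ζ`; `rw4_scale`) the height equations are those of `C` with the outer points `0, 3` at `(d, s)` with
height `ζ`, and the outer points `1, 2` at `D 1, D 2` with heights `t u 1, t u 2`.  Let
`Φ s (κ, ζ, t)` be the vector of these equations; `Φ s → Φ 0` pointwise, where `Φ 0` are the equations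
of `C` at `M`.  Fix a node `a₁` (`N` is nonempty by `hne`).

(I) For small `s`: if `Φ s (κ, ζ, t) = 0`, `κ a₁ = 0`, and for some `l` (with `l 2 = 0`)
`dot l (D 0) = t u 0`, `dot l (D 3) = t u 3`, `dot l (s • a₀ - d) = s κ a₀ - ζ`,
`dot l (s • a₃ - d) = s κ a₃ - ζ` (`a₀, a₃` the nodes at the ends of the ports 0 and 3; here
`s • a₀ - d` stands for the first two coordinates), then
everything is `0`.  This is the injectivity of a linear map depending on `s`, an open condition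
(linear independence, or `Ker`), so it suffices to check it at `s = 0`: by `ρ`
(`HasRow.sol`): `ρ 0 * ζ + ρ 1 * t u 1 + ρ 2 * t u 2 + ρ 3 * ζ = 0`, and
`dot l d = ζ`, `dot l (D 0) = t u 0`, `dot l (D 3) = t u 3`, so `dot l = t dot l₀`, `ζ = t c`, and
`hρ` gives `t = 0`; then `l = 0`, `ζ = 0`, and `HasRow.cst` and `κ a₁ = 0` give `κ = 0`.
(II) For small `s` the solutions of `Φ s (κ, ζ, t) = 0`, `κ a₁ = 0` form a space of dimension `≤ 1`:
at `s = 0` they satisfy `(ρ 0 + ρ 3) ζ + (ρ 1 u 1 + ρ 2 u 2) t = 0`, where the two coefficients are not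
both `0` (by `hρ`), and `(ζ, t) = 0` implies `κ = 0`.  Let `φ (ζ, t)` be a linear function with
`φ = 0` and the equation implying `ζ = t = 0`.  Then `(Φ, κ a₁, φ)` is injective at `s = 0`, hence
for small `s`.
(III) Fix such `s > 0`.  If all solutions `z` of `ffP C` (with far heights `t u`) are constant
(`z.n a = z.f () = c`, `t = 0`), take `r = 0`.  Otherwise let `z₀` be a non-constant solution; by (I)
(subtract the constant `z₀.n a₁` first) its slopes at `X₂` are not linear in `(ffP C).dir`: the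
directions are `D 0`, `a₀ - X₂`, `a₃ - X₂`, `D 3` with `X₂ = d / s`; multiply the equations number 1, 2 by
`s`.  By `exists_orth` choose `r` which kills the directions but not the slopes of `z₀`.  `Rig`: let `z`
be a solution with `r` = 0.  By (II) `z - const` and `z₀ - const` are linearly dependent:
`z = c + k z₀'`; and since `r` kills `z` and constants (slopes of constants are `0` or kill by
orthogonality) `k = 0` or `z` constant.  A constant solution is affine with `l = (0, 0, c)`; its far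
heights are `0 = t u i`.
-/

namespace SN78

open Sum Filter Topology

variable {V N : Type}

/-- the labels of the left tangle with the outer points `0, 3` at `(d, s)` -/
private def frM (M : Lab N Empty Unit H) (D : ZMod 4 → H) (d : H) (s : ℝ) :
    Lab N Empty Unit H where
  n := M.n
  f := fun e => e.elim
  o := fun _ i => if i = 1 ∨ i = 2 then D i else ![d 0, d 1, s]

/-- the heights -/
private def frZ (κ : N → ℝ) (ζ : ℝ) (w : ZMod 4 → ℝ) : Lab N Empty Unit ℝ where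
  n := κ
  f := fun e => e.elim
  o := fun _ i => if i = 1 ∨ i = 2 then w i else ζ

/-- the scaling factors -/
private noncomputable def frK (s : ℝ) : Bead V N Empty Unit → ℝ
  | inl (.o _ i) => if i = 1 ∨ i = 2 then 1 else s⁻¹
  | _ => 1

private theorem fr_cases (i : ZMod 4) : i = 0 ∨ i = 1 ∨ i = 2 ∨ i = 3 := by
  revert i
  decide

private theorem fr_at_rl (M : Lab N Empty Unit H) (D : ZMod 4 → H) (d : H) {s : ℝ} (hs : s ≠ 0)
    (e : Bead V N Empty Unit) :
    (ffL M D d s).at (rl e) = frK s e • (frM M D d s).at e := by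
  rcases e with (⟨v, i⟩ | ⟨a, i⟩ | ⟨a, i⟩) | ⟨a, c⟩
  · simp [rl, Lab.at, frK]
  · exact a.elim
  · rcases fr_cases i with rfl | rfl | rfl | rfl
    · show ![d 0 / s, d 1 / s, 1] = s⁻¹ • ![d 0, d 1, s]
      ext j
      fin_cases j <;> simp [hs] <;> field_simp
    · show D 1 = (1 : ℝ) • D 1
      rw [one_smul]
    · show D 2 = (1 : ℝ) • D 2
      rw [one_smul]
    · show ![d 0 / s, d 1 / s, 1] = s⁻¹ • ![d 0, d 1, s]
      ext j
      fin_cases j <;> simp [hs] <;> field_simp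
  · show M.n a = (1 : ℝ) • M.n a
    rw [one_smul]

private theorem fr_at_rl_z (z : Lab N Unit Unit ℝ) {s : ℝ} (hs : s ≠ 0)
    (e : Bead V N Empty Unit) :
    z.at (rl e) = frK s e * (frZ z.n (s * z.f ()) (z.o ())).at e := by
  rcases e with (⟨v, i⟩ | ⟨a, i⟩ | ⟨a, i⟩) | ⟨a, c⟩
  · simp [rl, Lab.at, frK]
  · exact a.elim
  · rcases fr_cases i with rfl | rfl | rfl | rfl
    · show z.f () = s⁻¹ * (s * z.f ())
      field_simp
    · show z.o () 1 = 1 * z.o () 1
      rw [one_mul]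
    · show z.o () 2 = 1 * z.o () 2
      rw [one_mul]
    · show z.f () = s⁻¹ * (s * z.f ())
      field_simp
  · show z.n a = 1 * z.n a
    rw [one_mul]

private theorem frK_ne {s : ℝ} (hs : s ≠ 0) (e : Bead V N Empty Unit) : frK s e ≠ 0 := by
  rcases e with (⟨v, i⟩ | ⟨a, i⟩ | ⟨a, i⟩) | ⟨a, c⟩
  · exact one_ne_zero
  · exact a.elim
  · show (if i = 1 ∨ i = 2 then (1 : ℝ) else s⁻¹) ≠ 0
    split_ifs
    · exact one_ne_zero
    · exact inv_ne_zero hs
  · exact one_ne_zero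

private theorem fr_row (C : Pic V N Empty Unit) (M : Lab N Empty Unit H) (D : ZMod 4 → H) (d : H)
    {s : ℝ} (hs : s ≠ 0) (z : Lab N Unit Unit ℝ) (v : V) :
    (ffP C).row (ffL M D d s).at z.at v = 0 ↔
      C.row (frM M D d s).at (frZ z.n (s * z.f ()) (z.o ())).at v = 0 := by
  have h1 : (ffP C).row (ffL M D d s).at z.at v =
      rw4 (fun i => frK s (C.ed v i) • (frM M D d s).at (C.ed v i))
        (fun i => frK s (C.ed v i) * (frZ z.n (s * z.f ()) (z.o ())).at (C.ed v i)) := by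
    unfold Pic.row
    congr 1
    · funext i
      exact fr_at_rl M D d hs _
    · funext i
      exact fr_at_rl_z z hs _
  rw [h1, rw4_scale (fun i => (frM M D d s).at (C.ed v i))
    (fun i => (frZ z.n (s * z.f ()) (z.o ())).at (C.ed v i)) (fun i => frK s (C.ed v i))]
  unfold Pic.row
  have hk := fun i => frK_ne hs (C.ed v i)
  constructor
  · intro h
    rcases mul_eq_zero.mp h with h | h
    · simp only [mul_eq_zero, hk, or_self] at h
    · exact h
  · intro h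
    rw [h, mul_zero]

private theorem frM_zero {M : Lab N Empty Unit H} {D : ZMod 4 → H} {d : H} (hd2 : d 2 = 0)
    (hM : M.o () 0 = d ∧ M.o () 1 = D 1 ∧ M.o () 2 = D 2 ∧ M.o () 3 = d)
    (e : Bead V N Empty Unit) : (frM M D d 0).at e = M.at e := by
  have hd : ![d 0, d 1, 0] = d := by
    ext j
    fin_cases j
    · rfl
    · rfl
    · exact hd2.symm
  rcases e with (⟨v, i⟩ | ⟨a, i⟩ | ⟨a, i⟩) | ⟨a, c⟩
  · rfl
  · exact a.elim
  · rcases fr_cases i with rfl | rfl | rfl | rfl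
    · show ![d 0, d 1, 0] = M.o () 0
      rw [hM.1, hd]
    · exact hM.2.1.symm
    · exact hM.2.2.1.symm
    · show ![d 0, d 1, 0] = M.o () 3
      rw [hM.2.2.2, hd]
  · rfl

private theorem frM_tendsto (M : Lab N Empty Unit H) (D : ZMod 4 → H) (d : H)
    (e : Bead V N Empty Unit) :
    Tendsto (fun s : ℝ => (frM M D d s).at e) (𝓝[>] 0) (𝓝 ((frM M D d 0).at e)) := by
  have hc : Continuous (fun s : ℝ => (![d 0, d 1, s] : H)) := by
    refine continuous_pi fun j => ?_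
    fin_cases j
    · exact continuous_const
    · exact continuous_const
    · exact continuous_id
  have hc' : Tendsto (fun s : ℝ => (![d 0, d 1, s] : H)) (𝓝[>] 0) (𝓝 ![d 0, d 1, 0]) :=
    (hc.tendsto 0).mono_left nhdsWithin_le_nhds
  rcases e with (⟨v, i⟩ | ⟨a, i⟩ | ⟨a, i⟩) | ⟨a, c⟩
  · exact tendsto_const_nhds
  · exact a.elim
  · rcases fr_cases i with rfl | rfl | rfl | rfl
    · exact hc'
    · exact tendsto_const_nhds
    · exact tendsto_const_nhds
    · exact hc'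
  · exact tendsto_const_nhds

private theorem fr_rw4_tendsto {ι : Type} {l : Filter ι} {p : ι → ZMod 4 → H} {p₀ : ZMod 4 → H}
    (hp : ∀ i, Tendsto (fun s => p s i) l (𝓝 (p₀ i))) {z : ι → ZMod 4 → ℝ} {z₀ : ZMod 4 → ℝ}
    (hz : ∀ i, Tendsto (fun s => z s i) l (𝓝 (z₀ i))) :
    Tendsto (fun s => rw4 (p s) (z s)) l (𝓝 (rw4 p₀ z₀)) := by
  unfold rw4
  exact ((((continuous_dt (hp 1) (hp 2) (hp 3)).mul (hz 0)).add
    ((continuous_dt (hp 3) (hp 0) (hp 1)).mul (hz 2))).sub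
    ((continuous_dt (hp 2) (hp 3) (hp 0)).mul (hz 1))).sub
    ((continuous_dt (hp 0) (hp 1) (hp 2)).mul (hz 3))

private theorem fr_row_tendsto (C : Pic V N Empty Unit) (M : Lab N Empty Unit H)
    (D : ZMod 4 → H) (d : H) (z : Lab N Empty Unit ℝ) (v : V) :
    Tendsto (fun s : ℝ => C.row (frM M D d s).at z.at v) (𝓝[>] 0)
      (𝓝 (C.row (frM M D d 0).at z.at v)) := by
  unfold Pic.row
  exact fr_rw4_tendsto (fun i => frM_tendsto M D d _) (fun i => tendsto_const_nhds)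

/-- eventually injective -/
private theorem fr_inj {E W : Type} [NormedAddCommGroup E] [NormedSpace ℝ E]
    [FiniteDimensional ℝ E] [NormedAddCommGroup W] [NormedSpace ℝ W] [FiniteDimensional ℝ W]
    {ι : Type} {l : Filter ι} {L : ι → E →ₗ[ℝ] W} {L₀ : E →ₗ[ℝ] W}
    (hL : ∀ x, Tendsto (fun s => L s x) l (𝓝 (L₀ x))) (h0 : ∀ x, L₀ x = 0 → x = 0) :
    ∀ᶠ s in l, ∀ x, L s x = 0 → x = 0 := by
  classical
  let b := Module.finBasis ℝ E
  have hli : LinearIndependent ℝ (fun i => L₀ (b i)) :=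
    b.linearIndependent.map' L₀ (LinearMap.ker_eq_bot'.mpr h0)
  have htend : Tendsto (fun s => (fun i => L s (b i))) l (𝓝 (fun i => L₀ (b i))) :=
    tendsto_pi_nhds.2 fun i => hL (b i)
  filter_upwards [htend.eventually hli.eventually] with s hs x hx
  have h1 : ∑ i, b.repr x i • L s (b i) = 0 := by
    have h2 : L s (∑ i, b.repr x i • b i) = 0 := by rw [b.sum_repr, hx]
    rw [map_sum] at h2
    simpa only [map_smul] using h2
  have h3 := Fintype.linearIndependent_iff.mp hs _ h1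
  apply b.repr.injective
  ext i
  rw [h3 i, map_zero]
  rfl

/-- the height equations -/
private def frΦ (C : Pic V N Empty Unit) (M : Lab N Empty Unit H) (D : ZMod 4 → H) (d : H)
    (u : ZMod 4 → ℝ) (s : ℝ) (κ : N → ℝ) (ζ t : ℝ) : V → ℝ :=
  fun v => C.row (frM M D d s).at (frZ κ ζ (fun i => t * u i)).at v

private theorem frZ_add (κ κ' : N → ℝ) (ζ ζ' t t' : ℝ) (u : ZMod 4 → ℝ)
    (e : Bead V N Empty Unit) :
    (frZ (κ + κ') (ζ + ζ') (fun i => (t + t') * u i)).at e =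
      (frZ κ ζ (fun i => t * u i)).at e + (frZ κ' ζ' (fun i => t' * u i)).at e := by
  rcases e with (⟨v, i⟩ | ⟨a, i⟩ | ⟨a, i⟩) | ⟨a, c⟩
  · exact (add_zero _).symm
  · exact a.elim
  · show (if i = 1 ∨ i = 2 then (t + t') * u i else ζ + ζ') =
      (if i = 1 ∨ i = 2 then t * u i else ζ) + (if i = 1 ∨ i = 2 then t' * u i else ζ')
    split_ifs
    · ring
    · rfl
  · rfl

private theorem frZ_smul (k : ℝ) (κ : N → ℝ) (ζ t : ℝ) (u : ZMod 4 → ℝ)
    (e : Bead V N Empty Unit) :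
    (frZ (k • κ) (k * ζ) (fun i => (k * t) * u i)).at e =
      k * (frZ κ ζ (fun i => t * u i)).at e := by
  rcases e with (⟨v, i⟩ | ⟨a, i⟩ | ⟨a, i⟩) | ⟨a, c⟩
  · exact (mul_zero _).symm
  · exact a.elim
  · show (if i = 1 ∨ i = 2 then (k * t) * u i else k * ζ) =
      k * (if i = 1 ∨ i = 2 then t * u i else ζ)
    split_ifs
    · ring
    · rfl
  · rfl

private theorem frΦ_add (C : Pic V N Empty Unit) (M : Lab N Empty Unit H) (D : ZMod 4 → H)
    (d : H) (u : ZMod 4 → ℝ) (s : ℝ) (κ κ' : N → ℝ) (ζ ζ' t t' : ℝ) :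
    frΦ C M D d u s (κ + κ') (ζ + ζ') (t + t') =
      frΦ C M D d u s κ ζ t + frΦ C M D d u s κ' ζ' t' := by
  funext v
  simp only [frΦ, Pic.row, Pi.add_apply]
  rw [← rw4_add]
  congr 1
  funext i
  exact frZ_add κ κ' ζ ζ' t t' u _

private theorem frΦ_smul (C : Pic V N Empty Unit) (M : Lab N Empty Unit H) (D : ZMod 4 → H)
    (d : H) (u : ZMod 4 → ℝ) (s k : ℝ) (κ : N → ℝ) (ζ t : ℝ) :
    frΦ C M D d u s (k • κ) (k * ζ) (k * t) = k • frΦ C M D d u s κ ζ t := by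
  funext v
  simp only [frΦ, Pic.row, Pi.smul_apply, smul_eq_mul]
  rw [← rw4_mul]
  congr 1
  funext i
  exact frZ_smul k κ ζ t u _

private theorem frΦ_tendsto (C : Pic V N Empty Unit) (M : Lab N Empty Unit H) (D : ZMod 4 → H)
    (d : H) (u : ZMod 4 → ℝ) (κ : N → ℝ) (ζ t : ℝ) :
    Tendsto (fun s => frΦ C M D d u s κ ζ t) (𝓝[>] 0) (𝓝 (frΦ C M D d u 0 κ ζ t)) :=
  tendsto_pi_nhds.2 fun v => fr_row_tendsto C M D d _ v

/-- the linear map of (I) -/
private def frL1 (C : Pic V N Empty Unit) (M : Lab N Empty Unit H) (D : ZMod 4 → H)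
    (d : H) (u : ZMod 4 → ℝ) (a₁ b₀ b₃ : N) (s : ℝ) :
    ((N → ℝ) × ℝ × ℝ × ℝ × ℝ) →ₗ[ℝ] ((V → ℝ) × ℝ × ℝ × ℝ × ℝ × ℝ) where
  toFun x := (frΦ C M D d u s x.1 x.2.1 x.2.2.1, x.1 a₁,
    x.2.2.2.1 * D 0 0 + x.2.2.2.2 * D 0 1 - x.2.2.1 * u 0,
    x.2.2.2.1 * D 3 0 + x.2.2.2.2 * D 3 1 - x.2.2.1 * u 3,
    x.2.2.2.1 * (s * M.n b₀ 0 - d 0) + x.2.2.2.2 * (s * M.n b₀ 1 - d 1) -
      (s * x.1 b₀ - x.2.1),
    x.2.2.2.1 * (s * M.n b₃ 0 - d 0) + x.2.2.2.2 * (s * M.n b₃ 1 - d 1) -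
      (s * x.1 b₃ - x.2.1))
  map_add' := by
    intro x y
    refine Prod.ext ?_ (Prod.ext ?_ (Prod.ext ?_ (Prod.ext ?_ (Prod.ext ?_ ?_))))
    · exact frΦ_add C M D d u s _ _ _ _ _ _
    · rfl
    all_goals
      simp only [Prod.fst_add, Prod.snd_add, Pi.add_apply]
      ring
  map_smul' := by
    intro k x
    refine Prod.ext ?_ (Prod.ext ?_ (Prod.ext ?_ (Prod.ext ?_ (Prod.ext ?_ ?_))))
    · exact frΦ_smul C M D d u s _ _ _ _
    · rfl
    all_goals
      simp only [Prod.smul_fst, Prod.smul_snd, Pi.smul_apply, smul_eq_mul, RingHom.id_apply]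
      ring

/-- the linear map of (II) -/
private def frL2 (C : Pic V N Empty Unit) (M : Lab N Empty Unit H) (D : ZMod 4 → H)
    (d : H) (u : ZMod 4 → ℝ) (a₁ : N) (p q : ℝ) (s : ℝ) :
    ((N → ℝ) × ℝ × ℝ) →ₗ[ℝ] ((V → ℝ) × ℝ × ℝ) where
  toFun x := (frΦ C M D d u s x.1 x.2.1 x.2.2, x.1 a₁, p * x.2.2 - q * x.2.1)
  map_add' := by
    intro x y
    refine Prod.ext ?_ (Prod.ext ?_ ?_)
    · exact frΦ_add C M D d u s _ _ _ _ _ _
    · rfl
    · simp only [Prod.fst_add, Prod.snd_add]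
      ring
  map_smul' := by
    intro k x
    refine Prod.ext ?_ (Prod.ext ?_ ?_)
    · exact frΦ_smul C M D d u s _ _ _ _
    · rfl
    · simp only [Prod.smul_fst, Prod.smul_snd, smul_eq_mul, RingHom.id_apply]
      ring

private theorem frL1_tendsto (C : Pic V N Empty Unit) (M : Lab N Empty Unit H) (D : ZMod 4 → H)
    (d : H) (u : ZMod 4 → ℝ) (a₁ b₀ b₃ : N) (x : (N → ℝ) × ℝ × ℝ × ℝ × ℝ) :
    Tendsto (fun s => frL1 C M D d u a₁ b₀ b₃ s x) (𝓝[>] 0)
      (𝓝 (frL1 C M D d u a₁ b₀ b₃ 0 x)) := by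
  have hc : ∀ b : N, Tendsto (fun s : ℝ => x.2.2.2.1 * (s * M.n b 0 - d 0) +
      x.2.2.2.2 * (s * M.n b 1 - d 1) - (s * x.1 b - x.2.1)) (𝓝[>] 0)
      (𝓝 (x.2.2.2.1 * (0 * M.n b 0 - d 0) +
      x.2.2.2.2 * (0 * M.n b 1 - d 1) - (0 * x.1 b - x.2.1))) := by
    intro b
    have hcc : Continuous (fun s : ℝ => x.2.2.2.1 * (s * M.n b 0 - d 0) +
      x.2.2.2.2 * (s * M.n b 1 - d 1) - (s * x.1 b - x.2.1)) := by fun_prop
    exact (hcc.tendsto 0).mono_left nhdsWithin_le_nhds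
  exact (frΦ_tendsto C M D d u _ _ _).prodMk_nhds (tendsto_const_nhds.prodMk_nhds
    (tendsto_const_nhds.prodMk_nhds (tendsto_const_nhds.prodMk_nhds
      ((hc b₀).prodMk_nhds (hc b₃)))))

private theorem frL2_tendsto (C : Pic V N Empty Unit) (M : Lab N Empty Unit H) (D : ZMod 4 → H)
    (d : H) (u : ZMod 4 → ℝ) (a₁ : N) (p q : ℝ) (x : (N → ℝ) × ℝ × ℝ) :
    Tendsto (fun s => frL2 C M D d u a₁ p q s x) (𝓝[>] 0)
      (𝓝 (frL2 C M D d u a₁ p q 0 x)) :=
  (frΦ_tendsto C M D d u _ _ _).prodMk_nhds (tendsto_const_nhds.prodMk_nhds tendsto_const_nhds)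

private theorem frΦ_zero (C : Pic V N Empty Unit) {M : Lab N Empty Unit H} {D : ZMod 4 → H}
    {d : H} (hd2 : d 2 = 0) (hM : M.o () 0 = d ∧ M.o () 1 = D 1 ∧ M.o () 2 = D 2 ∧ M.o () 3 = d)
    (u : ZMod 4 → ℝ) (κ : N → ℝ) (ζ t : ℝ) (h : frΦ C M D d u 0 κ ζ t = 0) :
    C.Sol M (frZ κ ζ (fun i => t * u i)) := by
  intro v
  have h1 := congrFun h v
  have h2 : (frM M D d 0).at = (M.at : Bead V N Empty Unit → H) :=
    funext fun e => frM_zero hd2 hM e
  rw [← h2]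
  exact h1

/-- the solutions at `s = 0` -/
private theorem fr_base {C : Pic V N Empty Unit} {M : Lab N Empty Unit H} {D : ZMod 4 → H}
    {d : H} (hd2 : d 2 = 0) (hM : M.o () 0 = d ∧ M.o () 1 = D 1 ∧ M.o () 2 = D 2 ∧ M.o () 3 = d)
    {ρ : ZMod 4 → ℝ} (hr : HasRow C M ρ) (u : ZMod 4 → ℝ) {κ : N → ℝ} {ζ t : ℝ}
    (h : frΦ C M D d u 0 κ ζ t = 0) :
    (ρ 0 + ρ 3) * ζ + (ρ 1 * u 1 + ρ 2 * u 2) * t = 0 ∧
      (ζ = 0 → t = 0 → ∀ a b, κ a = κ b) := by
  have h1 := frΦ_zero C hd2 hM u κ ζ t h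
  constructor
  · have h2 := hr.sol _ h1
    have h3 : ∀ f : ZMod 4 → ℝ, ∑ i, f i = f 0 + f 1 + f 2 + f 3 := fun f =>
      Fin.sum_univ_four f
    rw [h3] at h2
    have h4 : ρ 0 * ζ + ρ 1 * (t * u 1) + ρ 2 * (t * u 2) + ρ 3 * ζ = 0 := h2
    linear_combination h4
  · rintro rfl rfl a b
    have h2 : ∀ i, (frZ κ 0 (fun i => 0 * u i)).o () i = 0 := by
      intro i
      show (if i = 1 ∨ i = 2 then 0 * u i else 0) = 0
      split_ifs
      · exact zero_mul _
      · rfl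
    obtain ⟨c, hc⟩ := hr.cst _ h1 h2
    exact (hc a).trans (hc b).symm

private theorem fr_const (C : Pic V N Empty Unit) {M : Lab N Empty Unit H} (hN : Norm M)
    {D : ZMod 4 → H} (hF : Flat D) (d : H) (u : ZMod 4 → ℝ) (s c : ℝ) :
    frΦ C M D d u s (fun _ => c) (s * c) 0 = 0 := by
  funext v
  have h : ∀ e : Bead V N Empty Unit, (frZ (fun _ : N => c) (s * c) (fun i => 0 * u i)).at e =
      dot ![0, 0, c] ((frM M D d s).at e) := by
    intro e
    rcases e with (⟨v, i⟩ | ⟨a, i⟩ | ⟨a, i⟩) | ⟨a, c'⟩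
    · exact (dot_zero _).symm
    · exact a.elim
    · show (if i = 1 ∨ i = 2 then 0 * u i else s * c) =
        dot ![0, 0, c] (if i = 1 ∨ i = 2 then D i else ![d 0, d 1, s])
      split_ifs
      · simp [dot, hF i]
      · simp [dot, mul_comm]
    · show c = dot ![0, 0, c] (M.n a)
      simp [dot, hN.n a]
  simp only [frΦ, Pic.row, h]
  exact rw4_dot _ _

private theorem fr_solve (C : Pic V N Empty Unit) {M : Lab N Empty Unit H} (hN : Norm M)
    {D : ZMod 4 → H} (hF : Flat D) (d : H) (u : ZMod 4 → ℝ) {s : ℝ} (hs : s ≠ 0)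
    {z : Lab N Unit Unit ℝ} {t : ℝ} (hz : ∀ a i, z.o a i = t * u i)
    (hsol : (ffP C).Sol (ffL M D d s) z) (c : ℝ) :
    frΦ C M D d u s (fun a => z.n a - c) (s * (z.f () - c)) t = 0 := by
  have h1 : frΦ C M D d u s z.n (s * z.f ()) t = 0 := by
    funext v
    have h2 := (fr_row C M D d hs z v).mp (hsol v)
    have h3 : z.o () = fun i => t * u i := funext fun i => hz () i
    rw [h3] at h2
    exact h2
  have h2 := frΦ_add C M D d u s (fun a => z.n a - c) (fun _ => c) (s * (z.f () - c)) (s * c) t 0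
  rw [fr_const C hN hF d u s c,
    add_zero (frΦ C M D d u s (fun a => z.n a - c) (s * (z.f () - c)) t)] at h2
  rw [← h2, ← h1]
  congr 1
  · funext a
    show z.n a - c + c = z.n a
    ring
  · ring
  · ring

private theorem fr_aff {M : Lab N Empty Unit H} (hN : Norm M)
    {D : ZMod 4 → H} (hF : Flat D) (d : H) (u : ZMod 4 → ℝ) {s : ℝ}
    {z : Lab N Unit Unit ℝ} {t : ℝ} (hz : ∀ a i, z.o a i = t * u i) {c : ℝ}
    (h1 : ∀ a, z.n a = c) (h2 : z.f () = c) (h3 : t = 0) : Aff (ffL M D d s) z := by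
  refine ⟨![0, 0, c], ?_, ?_, ?_⟩
  · intro a
    show z.n a = dot ![0, 0, c] (M.n a)
    rw [h1]
    simp [dot, hN.n a]
  · intro a
    show z.f () = dot ![0, 0, c] ![d 0 / s, d 1 / s, 1]
    rw [h2]
    simp [dot]
  · intro a i
    show z.o a i = dot ![0, 0, c] (D i)
    rw [hz, h3]
    simp [dot, hF i]

theorem ff_rig [Fintype V] [Fintype N] [Nonempty N] {C : Pic V N Empty Unit} (hC : C.Ok)
    (hf : ∀ i, ∃ a b, C.opp (inl (.o () i)) = inr (a, b)) {M : Lab N Empty Unit H} (hN : Norm M)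
    {D : ZMod 4 → H} {d : H} (hF : Flat D) (hd2 : d 2 = 0)
    (hM : M.o () 0 = d ∧ M.o () 1 = D 1 ∧ M.o () 2 = D 2 ∧ M.o () 3 = d)
    (h30 : 0 < d2 (D 3) (D 0)) {ρ : ZMod 4 → ℝ} (hr : HasRow C M ρ)
    {u : ZMod 4 → ℝ} (hu : ¬ ∃ l : H, ∀ i, u i = dot l (D i)) {l₀ : H} (hl2 : l₀ 2 = 0)
    (hl0 : dot l₀ (D 0) = u 0) (hl3 : dot l₀ (D 3) = u 3)
    (hρ : ρ 0 * dot l₀ d + ρ 1 * u 1 + ρ 2 * u 2 + ρ 3 * dot l₀ d ≠ 0) :
    ∀ᶠ s in 𝓝[>] (0 : ℝ), ∃ r : Unit → ZMod 4 → ℝ, (ffP C).Orth (ffL M D d s) r ∧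
      (ffP C).Rig (ffL M D d s) r (fun _ => u) := by
  obtain ⟨b₀, c₀, hb₀⟩ := hf 0
  obtain ⟨b₃, c₃, hb₃⟩ := hf 3
  obtain ⟨a₁⟩ := ‹Nonempty N›
  obtain ⟨p, hp⟩ : ∃ p, p = ρ 0 + ρ 3 := ⟨_, rfl⟩
  obtain ⟨q, hq⟩ : ∃ q, q = ρ 1 * u 1 + ρ 2 * u 2 := ⟨_, rfl⟩
  have hpq : p * dot l₀ d + q ≠ 0 := by
    intro h
    apply hρ
    rw [← h, hp, hq]
    ring
  have hl0' : l₀ 0 * D 0 0 + l₀ 1 * D 0 1 = u 0 := by
    rw [← hl0]
    simp [dot, hl2]
  have hl3' : l₀ 0 * D 3 0 + l₀ 1 * D 3 1 = u 3 := by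
    rw [← hl3]
    simp [dot, hl2]
  have hdd : dot l₀ d = l₀ 0 * d 0 + l₀ 1 * d 1 := by
    simp [dot, hl2]
  have h1 : ∀ x, frL1 C M D d u a₁ b₀ b₃ 0 x = 0 → x = 0 := by
    rintro ⟨κ, ζ, t, l0, l1⟩ hx
    have e1 : frΦ C M D d u 0 κ ζ t = 0 := congrArg (fun y => y.1) hx
    have e2 : κ a₁ = 0 := congrArg (fun y => y.2.1) hx
    have e3 : l0 * D 0 0 + l1 * D 0 1 - t * u 0 = 0 := congrArg (fun y => y.2.2.1) hx
    have e4 : l0 * D 3 0 + l1 * D 3 1 - t * u 3 = 0 := congrArg (fun y => y.2.2.2.1) hx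
    have e5 : l0 * (0 * M.n b₀ 0 - d 0) + l1 * (0 * M.n b₀ 1 - d 1) - (0 * κ b₀ - ζ) = 0 :=
      congrArg (fun y => y.2.2.2.2.1) hx
    obtain ⟨f1, f2⟩ := fr_base hd2 hM hr u e1
    rw [← hp, ← hq] at f1
    have hne : d2 (D 3) (D 0) ≠ 0 := h30.ne'
    have g3 : (l0 - t * l₀ 0) * d2 (D 3) (D 0) = 0 := by
      simp only [d2]
      linear_combination D 0 1 * e4 - D 3 1 * e3 - t * D 0 1 * hl3' + t * D 3 1 * hl0'
    have g4 : (l1 - t * l₀ 1) * d2 (D 3) (D 0) = 0 := by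
      simp only [d2]
      linear_combination D 3 0 * e3 - D 0 0 * e4 - t * D 3 0 * hl0' + t * D 0 0 * hl3'
    have g5 : l0 = t * l₀ 0 := by
      rcases mul_eq_zero.mp g3 with h | h
      · linarith
      · exact absurd h hne
    have g6 : l1 = t * l₀ 1 := by
      rcases mul_eq_zero.mp g4 with h | h
      · linarith
      · exact absurd h hne
    have g7 : ζ = t * dot l₀ d := by
      rw [hdd]
      linear_combination e5 + d 0 * g5 + d 1 * g6
    have g8 : t * (p * dot l₀ d + q) = 0 := by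
      rw [g7] at f1
      linarith
    have g9 : t = 0 := by
      rcases mul_eq_zero.mp g8 with h | h
      · exact h
      · exact absurd h hpq
    rw [g9, zero_mul] at g5 g6 g7
    have g10 : κ = 0 := funext fun a => (f2 g7 g9 a a₁).trans e2
    rw [g5, g6, g7, g9, g10]
    rfl
  have h2 : ∀ x, frL2 C M D d u a₁ p q 0 x = 0 → x = 0 := by
    rintro ⟨κ, ζ, t⟩ hx
    have e1 : frΦ C M D d u 0 κ ζ t = 0 := congrArg (fun y => y.1) hx
    have e2 : κ a₁ = 0 := congrArg (fun y => y.2.1) hx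
    have e3 : p * t - q * ζ = 0 := congrArg (fun y => y.2.2) hx
    obtain ⟨f1, f2⟩ := fr_base hd2 hM hr u e1
    rw [← hp, ← hq] at f1
    have hne : p ^ 2 + q ^ 2 ≠ 0 := by
      intro h
      apply hpq
      have hp0 : p = 0 := by nlinarith [sq_nonneg p, sq_nonneg q]
      have hq0 : q = 0 := by nlinarith [sq_nonneg p, sq_nonneg q]
      rw [hp0, hq0]
      ring
    have g1 : (p ^ 2 + q ^ 2) * ζ = 0 := by linear_combination p * f1 - q * e3
    have g2 : (p ^ 2 + q ^ 2) * t = 0 := by linear_combination q * f1 + p * e3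
    have g3 : ζ = 0 := (mul_eq_zero.mp g1).resolve_left hne
    have g4 : t = 0 := (mul_eq_zero.mp g2).resolve_left hne
    have g5 : κ = 0 := funext fun a => (f2 g3 g4 a a₁).trans e2
    rw [g3, g4, g5]
    rfl
  filter_upwards [fr_inj (frL1_tendsto C M D d u a₁ b₀ b₃) h1,
    fr_inj (frL2_tendsto C M D d u a₁ p q) h2, self_mem_nhdsWithin] with s k1 k2 hs
  have hs0 : s ≠ 0 := ne_of_gt hs
  have K2 : ∀ (κ : N → ℝ) (ζ t : ℝ), frΦ C M D d u s κ ζ t = 0 → κ a₁ = 0 →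
      p * t - q * ζ = 0 → κ = 0 ∧ ζ = 0 ∧ t = 0 := by
    intro κ ζ t e1 e2 e3
    have h := k2 (κ, ζ, t) (Prod.ext e1 (Prod.ext e2 e3))
    exact ⟨congrArg (fun y => y.1) h, congrArg (fun y => y.2.1) h, congrArg (fun y => y.2.2) h⟩
  have o0 := ff_opp_f0 C
  have o3 := ff_opp_f3 C
  have o1 : (ffP C).opp (inl (.f () 1)) = inr (b₀, c₀) := by
    have h := ff_opp_rl hC (e := inl (.o () 0)) (by trivial)
    rw [hb₀] at h
    exact h
  have o2 : (ffP C).opp (inl (.f () 2)) = inr (b₃, c₃) := by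
    have h := ff_opp_rl hC (e := inl (.o () 3)) (by trivial)
    rw [hb₃] at h
    exact h
  by_cases hK : ∃ (κ : N → ℝ) (ζ t : ℝ), frΦ C M D d u s κ ζ t = 0 ∧ κ a₁ = 0 ∧
      p * t - q * ζ ≠ 0
  · obtain ⟨κ₀, ζ₀, t₀, e1, e2, e3⟩ := hK
    obtain ⟨z₀, hz₀⟩ : ∃ z₀ : Lab N Unit Unit ℝ, z₀ = ⟨κ₀, fun _ => ζ₀ / s, fun _ i => t₀ * u i⟩ :=
      ⟨_, rfl⟩
    have hnot : ¬ ∃ l : H, ∀ i, (ffP C).slo (ffL M D d s) z₀ () i =
        dot l ((ffP C).dir (ffL M D d s) () i) := by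
      rintro ⟨l, hl⟩
      have m0 := hl 0
      have m1 := hl 1
      have m2 := hl 2
      have m3 := hl 3
      simp only [Pic.slo, Pic.dir] at m0 m1 m2 m3
      rw [o0] at m0
      rw [o1] at m1
      rw [o2] at m2
      rw [o3] at m3
      simp only [Lab.at, ffL, hz₀, hF 0, hF 3, hN.n b₀, hN.n b₃, dot, Pi.sub_apply,
        Pi.smul_apply, smul_eq_mul] at m0 m1 m2 m3
      simp at m0 m1 m2 m3
      have n1 : l 0 * (s * M.n b₀ 0 - d 0) + l 1 * (s * M.n b₀ 1 - d 1) -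
          (s * κ₀ b₀ - ζ₀) = 0 := by
        field_simp at m1
        linarith
      have n2 : l 0 * (s * M.n b₃ 0 - d 0) + l 1 * (s * M.n b₃ 1 - d 1) -
          (s * κ₀ b₃ - ζ₀) = 0 := by
        field_simp at m2
        linarith
      have n0 : l 0 * D 0 0 + l 1 * D 0 1 - t₀ * u 0 = 0 := by linarith
      have n3 : l 0 * D 3 0 + l 1 * D 3 1 - t₀ * u 3 = 0 := by linarith
      have h := k1 (κ₀, ζ₀, t₀, l 0, l 1)
        (Prod.ext e1 (Prod.ext e2 (Prod.ext n0 (Prod.ext n3 (Prod.ext n1 n2)))))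
      have h3 : ζ₀ = 0 := congrArg (fun y => y.2.1) h
      have h4 : t₀ = 0 := congrArg (fun y => y.2.2.1) h
      apply e3
      rw [h3, h4]
      ring
    obtain ⟨r, hr1, hr2⟩ := exists_orth _ _ hnot
    refine ⟨fun _ => r, fun _ => hr1, ?_⟩
    intro z hsol hrz ht
    obtain ⟨t, hz⟩ := ht
    obtain ⟨c, hc⟩ : ∃ c, c = z.n a₁ := ⟨_, rfl⟩
    have x1 := fr_solve C hN hF d u hs0 hz hsol c
    obtain ⟨k, hk⟩ : ∃ k, k = (p * t - q * (s * (z.f () - c))) / (p * t₀ - q * ζ₀) := ⟨_, rfl⟩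
    have x2 : frΦ C M D d u s ((fun a => z.n a - c) + (-k) • κ₀) (s * (z.f () - c) + (-k) * ζ₀)
        (t + (-k) * t₀) = 0 := by
      rw [frΦ_add, frΦ_smul, x1, e1]
      simp
    obtain ⟨y1, y2, y3⟩ := K2 _ _ _ x2 (by
      show z.n a₁ - c + (-k) * κ₀ a₁ = 0
      rw [e2, hc]
      ring) (by
      rw [hk]
      field_simp
      ring)
    have y1' : ∀ a, z.n a = c + k * κ₀ a := by
      intro a
      have h := congrFun y1 a
      have h' : z.n a - c + (-k) * κ₀ a = 0 := h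
      linarith
    have y2' : z.f () = c + k * (ζ₀ / s) := by
      field_simp
      linarith
    have y3' : t = k * t₀ := by linarith
    have hk0 : k = 0 := by
      have h := hrz ()
      have hslo : ∀ i, (ffP C).slo (ffL M D d s) z () i =
          k * (ffP C).slo (ffL M D d s) z₀ () i := by
        intro i
        simp only [Pic.slo]
        rcases fr_cases i with rfl | rfl | rfl | rfl
        · rw [o0]
          simp only [Lab.at, ffL, hz₀, hF 0, hz]
          rw [y3']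
          ring
        · rw [o1]
          simp only [Lab.at, ffL, hz₀, hN.n b₀]
          rw [y1', y2']
          ring
        · rw [o2]
          simp only [Lab.at, ffL, hz₀, hN.n b₃]
          rw [y1', y2']
          ring
        · rw [o3]
          simp only [Lab.at, ffL, hz₀, hF 3, hz]
          rw [y3']
          ring
      have h5 : k * ∑ i, r i * (ffP C).slo (ffL M D d s) z₀ () i = 0 := by
        rw [← h, Finset.mul_sum]
        apply Finset.sum_congr rfl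
        intro i _
        rw [hslo]
        ring
      exact (mul_eq_zero.mp h5).resolve_right hr2
    rw [hk0] at y1' y2' y3'
    exact fr_aff hN hF d u hz (fun a => by rw [y1' a]; ring) (by rw [y2']; ring)
      (by rw [y3']; ring)
  · refine ⟨fun _ _ => 0, fun _ => by simp, ?_⟩
    intro z hsol _ ht
    obtain ⟨t, hz⟩ := ht
    have x1 := fr_solve C hN hF d u hs0 hz hsol (z.n a₁)
    have x3 : p * t - q * (s * (z.f () - z.n a₁)) = 0 := by
      by_contra hne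
      exact hK ⟨_, _, _, x1, sub_self _, hne⟩
    obtain ⟨y1, y2, y3⟩ := K2 _ _ _ x1 (sub_self _) x3
    refine fr_aff hN hF d u hz (c := z.n a₁) (fun a => ?_) ?_ y3
    · have h := congrFun y1 a
      have h' : z.n a - z.n a₁ = 0 := h
      linarith
    · have h := (mul_eq_zero.mp y2).resolve_left hs0
      linarith

end SN78
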