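import Pool.Agent.SN78.Insert

/-!
# SN78 module PARENT: the insertion theorem for tangles

`Dr.of_parent` is `insertion` for `O = Unit`, with `sh` replaced by `fun _ => sh` and `u` by
`fun _ => u`.  Proper children are nonempty.  The finiteness of the port sticks is part of the
conclusion of `insertion`.
-/

namespace SN78

open Sum

/-- There is a parent picture of the shadow `αp` with the directions `D` at the outer points, rigid
for the flex `u` and suitable equations at the big vertices, such that the directions seen by the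
big vertices are good. -/
def PDr {V F : Type} [Fintype V] (αp : SD V F Unit → SD V F Unit) (sh : ZMod 4 → Prop)
    (D : ZMod 4 → H) (u : ZMod 4 → ℝ) (good : F → (ZMod 4 → H) → Prop) : Prop :=
  ∃ (N : Type) (_ : Fintype N) (P : Pic V N F Unit) (L : Lab N F Unit H) (r : F → ZMod 4 → ℝ),
    Fintype.card N = Fintype.card V ∧ P.Ok ∧ P.Real αp ∧ Norm L ∧ (∀ i, L.o () i = D i) ∧
    P.Valid (fun _ => sh) L.at ∧ (∀ i j, P.opp (inl (.o () i)) ≠ inl (.o () j)) ∧
    P.Orth L r ∧ P.Rig L r (fun _ => u) ∧ ∀ X, good X (P.dir L X)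

theorem Dr.of_parent {V F : Type} [Fintype V] [Fintype F] {αp : SD V F Unit → SD V F Unit}
    {Vc : F → Type} [∀ X, Fintype (Vc X)] {α : ∀ X, Tg (Vc X)} (hpr : ∀ X, Proper (α X))
    {sh : ZMod 4 → Prop} {D : ZMod 4 → H} (hsh : ∀ i, sh i → D (i + 1) = D i)
    (h : ∀ u : ZMod 4 → ℝ, (∀ i, sh i → u (i + 1) = u i) → (¬ ∃ l : H, ∀ i, u i = dot l (D i)) →
      PDr αp sh D u (fun X D' => Dr (α X) no D')) :
    Dr (glueA αp α) sh D := by
  intro u hu hn
  obtain ⟨N, iN, P, L, r, hcard, okP, hreal, nL, hLD, vP, outP, hO, hR, hgood⟩ := h u hu hn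
  have : ∀ X, Nonempty (Vc X) := fun X => by
    obtain ⟨v, -, -⟩ := hpr X 0
    exact ⟨v⟩
  obtain ⟨N', iN', P', L', h1, h2, h3, h4, h5, h6, h7, h8⟩ :=
    insertion (sh := fun _ => sh) (u := fun _ => u) okP hreal nL
      (fun a i hi => by cases a; rw [hLD, hLD]; exact hsh i hi) vP
      (fun a i b j => outP i j) hO hR hpr hgood
  refine ⟨N', iN', P', L', ?_, h2, h3, fun i => h4 () i, h5, fun i => ?_, h7, ?_⟩
  · rw [h1, hcard, Fintype.card_sum]
  · rw [h6, hLD]
  · exact h8

end SN78
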