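import Pool.Agent.SN78.Setup

/-!
# SN78 module ROW: the row of a rigid tangle picture

Proof of `exists_row`.  For a solution `z` write `κ = z.n` and `m = z.o ()`.  The height equations are
a linear map `A κ + B m` with values in `V → ℝ` (`rw4` is linear in the heights, `Lab.at` is linear in
the label).

* `A κ = 0` iff `κ` is constant: `(κ, 0)` is a solution with `z.o = 0 • u`, so by `hR` it is affine,
  `z = dot l`; from `0 = dot l (M.o () i)` and `hD` we get `l 0 = l 1 = 0`, and `M.n a 2 = 1` gives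
  `κ a = l 2`.  Constants are in the kernel (`rw4_dot` with `l = (0, 0, c)`, as `M.o () i 2 = 0` and
  `M.n a 2 = 1`).  `N` is nonempty (otherwise `V` is empty by `hc`, then every `z` is a solution, so
  `z.o = u` is affine, contradicting `hu`).
* So `A` has rank `card N - 1 = card V - 1`, and there is a functional `φ ≠ 0` of `V → ℝ` with
  `φ ∘ A = 0`; moreover the kernel of `φ` is the range of `A` (same dimension).
* Let `r i = φ (B (Pi.single i 1))`.  Then `∑ r i * m i = φ (B m)`, which is `0` if `A κ + B m = 0`.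
* `∑ r i * u i = φ (B u) ≠ 0`: otherwise `B u = - A κ` for some `κ`, and `(κ, u)` is a solution
  with `z.o = 1 • u`, hence affine by `hR`, contradicting `hu`.
* `∑ r i • M.o () i = 0`: for each `l` the affine function `z = dot l` is a solution by `rw4_dot`,
  so `∑ r i * dot l (M.o () i) = 0`.
-/

namespace SN78

open Sum

variable {V N : Type}

/-- the label with the heights `κ` of the nodes and `m` of the ports -/
private def rowZ (κ : N → ℝ) (m : ZMod 4 → ℝ) : Lab N Empty Unit ℝ :=
  ⟨κ, fun e => e.elim, fun _ => m⟩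

private theorem rowZ_add (κ κ' : N → ℝ) (m m' : ZMod 4 → ℝ) (b : Bead V N Empty Unit) :
    (rowZ (κ + κ') (m + m')).at b = (rowZ κ m).at b + (rowZ κ' m').at b := by
  rcases b with (⟨v, i⟩ | e | ⟨a, i⟩) | ⟨a, c⟩
  · simp [Lab.at]
  · exact e.elim
  · simp [Lab.at, rowZ]
  · simp [Lab.at, rowZ]

private theorem rowZ_smul (t : ℝ) (κ : N → ℝ) (m : ZMod 4 → ℝ) (b : Bead V N Empty Unit) :
    (rowZ (t • κ) (t • m)).at b = t * (rowZ κ m).at b := by
  rcases b with (⟨v, i⟩ | e | ⟨a, i⟩) | ⟨a, c⟩
  · simp [Lab.at]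
  · exact e.elim
  · simp [Lab.at, rowZ]
  · simp [Lab.at, rowZ]

/-- the height equations as a linear map -/
private def rowL (C : Pic V N Empty Unit) (M : Lab N Empty Unit H) :
    ((N → ℝ) × (ZMod 4 → ℝ)) →ₗ[ℝ] (V → ℝ) where
  toFun p := fun v => C.row M.at (rowZ p.1 p.2).at v
  map_add' p q := by
    funext v
    simp only [Pic.row, Prod.fst_add, Prod.snd_add, rowZ_add, Pi.add_apply]
    exact rw4_add _ _ _
  map_smul' t p := by
    funext v
    simp only [Pic.row, Prod.smul_fst, Prod.smul_snd, rowZ_smul, Pi.smul_apply, smul_eq_mul,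
      RingHom.id_apply]
    exact rw4_mul _ _ _

private theorem row_sol_iff (C : Pic V N Empty Unit) (M : Lab N Empty Unit H) (κ : N → ℝ)
    (m : ZMod 4 → ℝ) : C.Sol M (rowZ κ m) ↔ rowL C M (κ, m) = 0 := by
  constructor
  · intro h
    funext v
    exact h v
  · intro h v
    exact congrFun h v

private theorem row_eta (z : Lab N Empty Unit ℝ) : z = rowZ z.n (z.o ()) := by
  obtain ⟨n, f, o⟩ := z
  simp only [rowZ, Lab.mk.injEq, true_and]
  refine ⟨funext fun e => e.elim, ?_⟩
  trivial

private theorem row_dot (C : Pic V N Empty Unit) (M : Lab N Empty Unit H) (l : H) :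
    rowL C M (fun a => dot l (M.n a), fun i => dot l (M.o () i)) = 0 := by
  have key : ∀ b : Bead V N Empty Unit,
      (rowZ (fun a => dot l (M.n a)) (fun i => dot l (M.o () i))).at b = dot l (M.at b) := by
    rintro ((⟨v, i⟩ | e | ⟨a, i⟩) | ⟨a, c⟩)
    · simp [Lab.at]
    · exact e.elim
    · simp [Lab.at, rowZ]
    · simp [Lab.at, rowZ]
  funext v
  show C.row M.at (rowZ (fun a => dot l (M.n a)) (fun i => dot l (M.o () i))).at v = 0
  simp only [Pic.row, key]
  exact rw4_dot l _

theorem exists_row [Fintype V] [Fintype N] (hc : Fintype.card N = Fintype.card V)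
    (C : Pic V N Empty Unit) (M : Lab N Empty Unit H) (hN : Norm M)
    (hD : ∀ l : H, (∀ i, dot l (M.o () i) = 0) → l 0 = 0 ∧ l 1 = 0)
    (u : ZMod 4 → ℝ) (hu : ¬ ∃ l : H, ∀ i, u i = dot l (M.o () i))
    (hR : C.Rig M (fun a => a.elim) (fun _ => u)) :
    ∃ r : ZMod 4 → ℝ, HasRow C M r ∧ (∑ i, r i • M.o () i = 0) ∧ ∑ i, r i * u i ≠ 0 := by
  classical
  -- `N` is nonempty
  have hne : Nonempty N := by
    by_contra hcon
    rw [not_nonempty_iff] at hcon
    have h0 : Fintype.card V = 0 := by rw [← hc]; exact Fintype.card_eq_zero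
    have hV : IsEmpty V := Fintype.card_eq_zero_iff.1 h0
    have haff := hR (rowZ (fun _ => 0) u) (fun v => (hV.false v).elim) (fun a => a.elim)
      ⟨1, fun a i => by simp [rowZ]⟩
    obtain ⟨l, -, -, h3⟩ := haff
    exact hu ⟨l, fun i => h3 () i⟩
  -- kernel of the equations with zero heights at the ports
  have hker : ∀ κ : N → ℝ, rowL C M (κ, 0) = 0 → ∃ c, ∀ a, κ a = c := by
    intro κ hκ
    have haff := hR (rowZ κ 0) ((row_sol_iff C M κ 0).2 hκ) (fun a => a.elim)
      ⟨0, fun a i => by simp [rowZ]⟩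
    obtain ⟨l, h1, -, h3⟩ := haff
    have h0 := hD l (fun i => by have := h3 () i; simpa [rowZ] using this.symm)
    refine ⟨l 2, fun a => ?_⟩
    have h4 := h1 a
    simp only [rowZ] at h4
    rw [h4]
    simp [dot, h0.1, h0.2, hN.n a]
  have hcst : rowL C M (fun _ => 1, 0) = 0 := by
    have h := row_dot C M (fun k => if k = 2 then 1 else 0)
    have e1 : (fun a => dot (fun k : Fin 3 => if k = 2 then (1 : ℝ) else 0) (M.n a)) =
        fun _ => (1 : ℝ) := by
      funext a
      simp [dot, hN.n a]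
    have e2 : (fun i => dot (fun k : Fin 3 => if k = 2 then (1 : ℝ) else 0) (M.o () i)) =
        (0 : ZMod 4 → ℝ) := by
      funext i
      simp [dot, hN.o () i]
    rw [e1, e2] at h
    exact h
  let A : (N → ℝ) →ₗ[ℝ] (V → ℝ) := (rowL C M).comp (LinearMap.inl ℝ (N → ℝ) (ZMod 4 → ℝ))
  let B : (ZMod 4 → ℝ) →ₗ[ℝ] (V → ℝ) := (rowL C M).comp (LinearMap.inr ℝ (N → ℝ) (ZMod 4 → ℝ))
  have hA : ∀ κ, A κ = rowL C M (κ, 0) := fun κ => rfl
  have hB : ∀ m, B m = rowL C M (0, m) := fun m => rfl
  have hAB : ∀ κ m, rowL C M (κ, m) = A κ + B m := by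
    intro κ m
    rw [hA, hB, ← map_add]
    simp
  -- rank of `A`
  have hkf : Module.finrank ℝ (LinearMap.ker A) = 1 := by
    refine finrank_eq_one (⟨fun _ => 1, by rw [LinearMap.mem_ker, hA]; exact hcst⟩) ?_ ?_
    · intro h
      have := congrArg Subtype.val h
      have h2 := congrFun this hne.some
      simp at h2
    · rintro ⟨κ, hκ⟩
      rw [LinearMap.mem_ker, hA] at hκ
      obtain ⟨c, hc'⟩ := hker κ hκ
      refine ⟨c, ?_⟩
      ext a
      simp [hc' a]
  have hrk : Module.finrank ℝ (LinearMap.range A) + 1 = Fintype.card V := by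
    have h := LinearMap.finrank_range_add_finrank_ker A
    rw [hkf, Module.finrank_fintype_fun_eq_card, hc] at h
    exact h
  have hlt : LinearMap.range A < ⊤ := by
    rw [lt_top_iff_ne_top]
    intro h
    rw [h, finrank_top, Module.finrank_fintype_fun_eq_card] at hrk
    omega
  obtain ⟨φ, hφ0, hφ⟩ := Submodule.exists_le_ker_of_lt_top _ hlt
  have hφk : LinearMap.range A = LinearMap.ker φ := by
    refine Submodule.eq_of_le_of_finrank_eq hφ ?_
    have h := LinearMap.finrank_range_add_finrank_ker φ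
    have h1 : Module.finrank ℝ (LinearMap.range φ) = 1 := by
      have hs : Function.Surjective φ := LinearMap.surjective hφ0
      rw [LinearMap.range_eq_top.2 hs, finrank_top, Module.finrank_self]
    rw [h1, Module.finrank_fintype_fun_eq_card] at h
    omega
  have hφA : ∀ κ, φ (A κ) = 0 := fun κ => by
    have : A κ ∈ LinearMap.ker φ := hφ ⟨κ, rfl⟩
    exact this
  let r : ZMod 4 → ℝ := fun i => φ (B (fun j => if i = j then 1 else 0))
  have hr : ∀ m : ZMod 4 → ℝ, ∑ i, r i * m i = φ (B m) := by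
    intro m
    have h := LinearMap.pi_apply_eq_sum_univ (φ.comp B) m
    rw [LinearMap.comp_apply] at h
    rw [h]
    refine Finset.sum_congr rfl fun i _ => ?_
    simp only [r, LinearMap.comp_apply, smul_eq_mul]
    ring
  have hsol : ∀ κ m, rowL C M (κ, m) = 0 → φ (B m) = 0 := by
    intro κ m h
    rw [hAB] at h
    have h2 := congrArg φ h
    rw [map_add, hφA, zero_add, map_zero] at h2
    exact h2
  refine ⟨r, ⟨?_, ?_⟩, ?_, ?_⟩
  · intro z hz
    rw [hr]
    refine hsol z.n (z.o ()) ?_
    rw [← row_sol_iff, ← row_eta]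
    exact hz
  · intro z hz h0
    refine hker z.n ?_
    have e : z.o () = 0 := funext h0
    rw [← e, ← row_sol_iff, ← row_eta]
    exact hz
  · funext k
    rw [Finset.sum_apply]
    have h := hsol _ _ (row_dot C M (fun j => if j = k then 1 else 0))
    rw [← hr] at h
    rw [Pi.zero_apply, ← h]
    refine Finset.sum_congr rfl fun i _ => ?_
    rw [Pi.smul_apply, smul_eq_mul]
    congr 1
    fin_cases k <;> simp [dot]
  · rw [hr]
    intro h
    have h1 : B u ∈ LinearMap.range A := by rw [hφk]; exact h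
    obtain ⟨κ, hκ⟩ := h1
    have h2 : rowL C M (-κ, u) = 0 := by
      rw [hAB, map_neg, hκ]
      simp
    have haff := hR (rowZ (-κ) u) ((row_sol_iff C M (-κ) u).2 h2) (fun a => a.elim)
      ⟨1, fun a i => by simp [rowZ]⟩
    obtain ⟨l, -, -, h3⟩ := haff
    exact hu ⟨l, fun i => h3 () i⟩

end SN78
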