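import Pool.Agent.SN78.FFVal
import Pool.Agent.SN78.FFRig
import Pool.Agent.SN78.Row
import Pool.Agent.SN78.Parent
import Pool.Agent.SN78.Sym

/-!
# SN78 module FF: the sum of two fat tangles

`ffl`.  Let `u` be a flex not linear in `D` (with `u (i + 1) = u i` for `sh i`).  Let `l₀, l₁` (third
coordinate 0) be the linear functions with `l₀ = u` at `D 0, D 3` and `l₁ = u` at `D 1, D 2`
(`d2 (D 3) (D 0) > 0`, `d2 (D 1) (D 2) > 0`).  `l₀ ≠ l₁` since `u` is not linear in `D`; choose `d` by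
`exists_dir` with `m = l₀ - l₁`: so `dot l₀ d ≠ dot l₁ d`.  Let `c = dot l₀ d`.  The flex
`u₁ = (c, u 1, u 2, c)` for `D₁ = (d, D 1, D 2, d)` is not linear in `D₁` (it would be `l₁` by the
values at `D 1, D 2`, but `dot l₁ d ≠ c`).  `Pos1 3 D₁`: `d2 d (D 1) > 0`, `d2 (D 1) (D 2) > 0`,
`d2 (D 2) d > 0`.  So `h₁` gives a drawing `C, M` of `T₁` with `Rig` for `u₁`; by `exists_row` it
has a row `ρ` with `∑ ρ i * u₁ i ≠ 0`, which is `hρ` of `ff_rig`.  By `ff_valid` and `ff_rig` choose a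
small `s > 0`.  This gives `PDr (ffA α₁) sh D u good` where the directions seen by `X₂` at
`d / s` are `D' = (D 0, a₀ - d / s, a₃ - d / s, D 3)`.  `Pos D'` is `dir_pos`.  For small `s`:
`d2 (D' 0) (D' 2) = d2 (D 0) a₃ + d2 d (D 0) / s > 0`,
`d2 (D' 1) (D' 3) = d2 a₀ (D 3) + d2 (D 3) d / s > 0`; so `h₂` applies.
Then `Dr.of_parent` and `Dr.congr` with `ff_glueA`.
`Norm`: `ffL` has third coordinate 1 at `X₂`.  The condition on `opp (o i)`: `ff_opp_o0`, `ff_opp_o3`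
and `ff_opp_rl`, `hf`.

`ffr`: rotate by 2.  `sum α₁ α₂` is, up to the bijection `V₁ ⊕ V₂ ≃ V₂ ⊕ V₁` of crossings, equal to
`rot 2 (sum (rot 2 α₂) (rot 2 α₁))`; `Z 3 (rot 2 α₂)` from `Z 1 α₂` and `Dr.rot`,
`Gmm (rot 2 α₁)` from `Gpp α₁` (`d2 (D (i + 2)) (D i) = - d2 (D i) (D (i + 2))`).
-/

namespace SN78

open Sum Filter Topology

private theorem ffa_four (i : ZMod 4) : i = 0 ∨ i = 1 ∨ i = 2 ∨ i = 3 := by
  revert i; decide

/-- a linear function with given values at two directions -/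
private theorem ffa_lin {p q : H} (h : 0 < d2 p q) (x y : ℝ) :
    ∃ l : H, l 2 = 0 ∧ dot l p = x ∧ dot l q = y := by
  have h0 : d2 p q ≠ 0 := h.ne'
  refine ⟨![(x * q 1 - y * p 1) / d2 p q, (y * p 0 - x * q 0) / d2 p q, 0], rfl, ?_, ?_⟩
  · have e : dot ![(x * q 1 - y * p 1) / d2 p q, (y * p 0 - x * q 0) / d2 p q, 0] p =
        x * d2 p q / d2 p q := by
      simp only [dot]
      simp
      simp only [d2]
      ring
    rw [e, mul_div_cancel_right₀ _ h0]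
  · have e : dot ![(x * q 1 - y * p 1) / d2 p q, (y * p 0 - x * q 0) / d2 p q, 0] q =
        y * d2 p q / d2 p q := by
      simp only [dot]
      simp
      simp only [d2]
      ring
    rw [e, mul_div_cancel_right₀ _ h0]

/-- two linear functions which agree at two independent directions -/
private theorem ffa_eq {p q : H} (hp : p 2 = 0) (hq : q 2 = 0) (h : 0 < d2 p q) {l m : H}
    (h1 : dot l p = dot m p) (h2 : dot l q = dot m q) : l 0 = m 0 ∧ l 1 = m 1 := by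
  have h0 : d2 p q ≠ 0 := h.ne'
  simp only [dot, hp, hq, mul_zero, add_zero] at h1 h2
  have g0 : (l 0 - m 0) * d2 p q = 0 := by
    simp only [d2]
    linear_combination q 1 * h1 - p 1 * h2
  have g1 : (l 1 - m 1) * d2 p q = 0 := by
    simp only [d2]
    linear_combination p 0 * h2 - q 0 * h1
  rcases mul_eq_zero.1 g0 with g0 | g0
  · rcases mul_eq_zero.1 g1 with g1 | g1
    · exact ⟨by linarith, by linarith⟩
    · exact absurd g1 h0
  · exact absurd g0 h0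

private theorem ffa_ev (K c : ℝ) (hc : 0 < c) : ∀ᶠ s in 𝓝[>] (0 : ℝ), 0 < K + c / s := by
  have h : Tendsto (fun s : ℝ => K * s + c) (𝓝[>] 0) (𝓝 (K * 0 + c)) := by
    refine tendsto_nhdsWithin_of_tendsto_nhds ?_
    exact (tendsto_id.const_mul K).add tendsto_const_nhds
  have h1 : ∀ᶠ s in 𝓝[>] (0 : ℝ), 0 < K * s + c :=
    h.eventually (lt_mem_nhds (by rw [mul_zero, zero_add]; exact hc))
  filter_upwards [h1, self_mem_nhdsWithin] with s hs1 hs2
  have hs2 : 0 < s := hs2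
  have e : K + c / s = (K * s + c) / s := by
    field_simp
  rw [e]
  exact div_pos hs1 hs2

private def ffaE (V₁ V₂ : Type) : GV V₁ (fun _ : Unit => V₂) ≃ V₁ ⊕ V₂ where
  toFun
    | inl v => inl v
    | inr ⟨_, v⟩ => inr v
  invFun
    | inl v => inl v
    | inr v => inr ⟨(), v⟩
  left_inv := by rintro (v | ⟨⟨⟩, v⟩) <;> rfl
  right_inv := by rintro (v | v) <;> rfl

theorem ffl {V₁ V₂ : Type} [Fintype V₁] [Fintype V₂] {α₁ : Tg V₁} {α₂ : Tg V₂}
    (p₁ : Proper α₁) (p₂ : Proper α₂) (h₁ : Z 3 α₁) (h₂ : Gmm α₂)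
    {sh : ZMod 4 → Prop} {D : ZMod 4 → H} (h : (sh = no ∧ Pos D) ∨ (sh = only 0 ∧ Pos1 0 D) ∨
      (sh = only 2 ∧ Pos1 2 D)) : Dr (sum α₁ α₂) sh D := by
  have hF : Flat D := by
    rcases h with ⟨-, h, -⟩ | ⟨-, h, -⟩ | ⟨-, h, -⟩ <;> exact h
  have h12 : 0 < d2 (D 1) (D 2) := by
    rcases h with ⟨-, -, h⟩ | ⟨-, -, -, h⟩ | ⟨-, -, -, h⟩
    · exact h 1
    · exact h 1 (by decide)
    · exact h 1 (by decide)
  have h30 : 0 < d2 (D 3) (D 0) := by
    rcases h with ⟨-, -, h⟩ | ⟨-, -, -, h⟩ | ⟨-, -, -, h⟩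
    · exact h 3
    · exact h 3 (by decide)
    · exact h 3 (by decide)
  have hshD : ∀ i, sh i → D (i + 1) = D i := by
    intro i hi
    rcases h with ⟨hh, -⟩ | ⟨hh, -, h, -⟩ | ⟨hh, -, h, -⟩
    · rw [hh] at hi; exact hi.elim
    · rw [hh] at hi
      have hi : i = 0 := hi
      rw [hi]; exact h
    · rw [hh] at hi
      have hi : i = 2 := hi
      rw [hi]; exact h
  have hpos : Pos D ∨ Pos1 0 D ∨ Pos1 2 D := by
    rcases h with ⟨-, h⟩ | ⟨-, h⟩ | ⟨-, h⟩
    · exact Or.inl h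
    · exact Or.inr (Or.inl h)
    · exact Or.inr (Or.inr h)
  refine Dr.congr (ffaE V₁ V₂) (fun _ => 0) (α := glueA (ffA α₁) (fun _ => α₂))
    (fun d => ff_glueA p₁ p₂ (ffaE V₁ V₂) (fun _ => rfl) (fun _ => rfl) d) ?_
  refine Dr.of_parent (fun _ => p₂) hshD fun u hu1 hu2 => ?_
  obtain ⟨l₀, hl02, hl03, hl00⟩ := ffa_lin h30 (u 3) (u 0)
  obtain ⟨l₁, hl12, hl11, hl12'⟩ := ffa_lin h12 (u 1) (u 2)
  have hne : (l₀ - l₁) 0 ≠ 0 ∨ (l₀ - l₁) 1 ≠ 0 := by
    by_contra hcon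
    push Not at hcon
    obtain ⟨c0, c1⟩ := hcon
    rw [Pi.sub_apply] at c0 c1
    have e : l₀ = l₁ := by
      ext i
      fin_cases i
      · show l₀ 0 = l₁ 0; linarith
      · show l₀ 1 = l₁ 1; linarith
      · show l₀ 2 = l₁ 2; rw [hl02, hl12]
    refine hu2 ⟨l₀, fun i => ?_⟩
    rcases ffa_four i with rfl | rfl | rfl | rfl
    · exact hl00.symm
    · rw [e]; exact hl11.symm
    · rw [e]; exact hl12'.symm
    · exact hl03.symm
  obtain ⟨d, hd2, g1, g2, g3, g4, g5⟩ := exists_dir D (l₀ - l₁) hne hpos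
  -- the left tangle
  set D₁ : ZMod 4 → H := fun i => if i = 0 ∨ i = 3 then d else D i with hD₁
  set u₁ : ZMod 4 → ℝ := fun i => if i = 0 ∨ i = 3 then dot l₀ d else u i with hu₁
  have D₁0 : D₁ 0 = d := by simp [hD₁]
  have D₁1 : D₁ 1 = D 1 := by
    simp only [hD₁]; rw [if_neg (by decide)]
  have D₁2 : D₁ 2 = D 2 := by
    simp only [hD₁]; rw [if_neg (by decide)]
  have D₁3 : D₁ 3 = d := by simp [hD₁]
  have u₁0 : u₁ 0 = dot l₀ d := by simp [hu₁]
  have u₁1 : u₁ 1 = u 1 := by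
    simp only [hu₁]; rw [if_neg (by decide)]
  have u₁2 : u₁ 2 = u 2 := by
    simp only [hu₁]; rw [if_neg (by decide)]
  have u₁3 : u₁ 3 = dot l₀ d := by simp [hu₁]
  have hP1 : Pos1 3 D₁ := by
    refine ⟨fun i => ?_, ?_, fun i hi => ?_⟩
    · rcases ffa_four i with rfl | rfl | rfl | rfl
      · rw [D₁0]; exact hd2
      · rw [D₁1]; exact hF 1
      · rw [D₁2]; exact hF 2
      · rw [D₁3]; exact hd2
    · rw [show (3 : ZMod 4) + 1 = 0 from rfl, D₁0, D₁3]
    · rcases ffa_four i with rfl | rfl | rfl | rfl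
      · rw [show (0 : ZMod 4) + 1 = 1 from rfl, D₁0, D₁1]; exact g4
      · rw [show (1 : ZMod 4) + 1 = 2 from rfl, D₁1, D₁2]; exact h12
      · rw [show (2 : ZMod 4) + 1 = 3 from rfl, D₁2, D₁3]; exact g2
      · exact absurd rfl hi
  have hnl : ¬ ∃ l : H, ∀ i, u₁ i = dot l (D₁ i) := by
    rintro ⟨l, hl⟩
    have e1 := hl 1
    have e2 := hl 2
    have e0 := hl 0
    rw [u₁1, D₁1] at e1
    rw [u₁2, D₁2] at e2
    rw [u₁0, D₁0] at e0
    obtain ⟨k0, k1⟩ := ffa_eq (hF 1) (hF 2) h12 (l := l) (m := l₁) (by rw [← e1, hl11])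
      (by rw [← e2, hl12'])
    apply g5
    rw [sub_dot, e0]
    simp only [dot, hd2, k0, k1]
    ring
  obtain ⟨N, iN, C, M, hcard, okC, realC, hfin, nM, hMo, vC, rigC⟩ := h₁ D₁ hP1 u₁ (by
    intro i hi
    have hi : i = 3 := hi
    rw [hi, show (3 : ZMod 4) + 1 = 0 from rfl, u₁0, u₁3]) hnl
  have hneN : Nonempty N := by
    obtain ⟨a, -, -⟩ := hfin 0
    exact ⟨a⟩
  obtain ⟨ρ, hrow, -, hρ⟩ := exists_row hcard C M nM (by
    intro l hl
    have e1 := hl 1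
    have e2 := hl 2
    rw [hMo, D₁1] at e1
    rw [hMo, D₁2] at e2
    exact ffa_eq (hF 1) (hF 2) h12 (l := l) (m := 0) (by rw [e1, zero_dot])
      (by rw [e2, zero_dot])) u₁ (by
    rintro ⟨l, hl⟩
    exact hnl ⟨l, fun i => by rw [hl i, hMo]⟩) rigC
  have hρ' : ρ 0 * dot l₀ d + ρ 1 * u 1 + ρ 2 * u 2 + ρ 3 * dot l₀ d ≠ 0 := by
    intro hcon
    apply hρ
    have e : ∑ i, ρ i * u₁ i = ρ 0 * u₁ 0 + ρ 1 * u₁ 1 + ρ 2 * u₁ 2 + ρ 3 * u₁ 3 :=
      Fin.sum_univ_four (fun i => ρ i * u₁ i)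
    rw [e, u₁0, u₁1, u₁2, u₁3]
    exact hcon
  have hM : M.o () 0 = d ∧ M.o () 1 = D 1 ∧ M.o () 2 = D 2 ∧ M.o () 3 = d := by
    rw [hMo, hMo, hMo, hMo]
    exact ⟨D₁0, D₁1, D₁2, D₁3⟩
  have evV := ff_valid okC hfin nM hF hd2 hM vC g1 g2 g3 g4 h
  have evR := ff_rig okC hfin nM hF hd2 hM h30 hrow hu2 hl02 hl00 hl03 hρ'
  obtain ⟨a0, b0, hab0⟩ := hfin 0
  obtain ⟨a1, b1, hab1⟩ := hfin 1
  obtain ⟨a2, b2, hab2⟩ := hfin 2
  obtain ⟨a3, b3, hab3⟩ := hfin 3
  have ev1 := ffa_ev (d2 (D 0) (M.n a3)) (d2 d (D 0)) g3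
  have ev2 := ffa_ev (d2 (M.n a0) (D 3)) (d2 (D 3) d) g1
  obtain ⟨s, hV, ⟨r, hO, hR⟩, k1, k2, hs⟩ :=
    (evV.and (evR.and (ev1.and (ev2.and self_mem_nhdsWithin)))).exists
  have hs : 0 < s := hs
  -- opposite ends
  have r0 : (rl (inl (.o () 0)) : Bead V₁ N Unit Unit) = inl (.f () 1) := by
    simp [rl]
  have r3 : (rl (inl (.o () 3)) : Bead V₁ N Unit Unit) = inl (.f () 2) := by
    simp only [rl]
    rw [if_neg (by decide), if_pos trivial]
  have r1 : (rl (inl (.o () 1)) : Bead V₁ N Unit Unit) = inl (.o () 1) := by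
    simp only [rl]
    rw [if_neg (by decide), if_neg (by decide)]
  have r2 : (rl (inl (.o () 2)) : Bead V₁ N Unit Unit) = inl (.o () 2) := by
    simp only [rl]
    rw [if_neg (by decide), if_neg (by decide)]
  have o0 : (ffP C).opp (inl (.f () 1)) = inr (a0, b0) := by
    rw [← r0, ff_opp_rl okC (e := inl (.o () 0)) trivial, hab0]; rfl
  have o3 : (ffP C).opp (inl (.f () 2)) = inr (a3, b3) := by
    rw [← r3, ff_opp_rl okC (e := inl (.o () 3)) trivial, hab3]; rfl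
  have o1 : (ffP C).opp (inl (.o () 1)) = inr (a1, b1) := by
    rw [← r1, ff_opp_rl okC (e := inl (.o () 1)) trivial, hab1]; rfl
  have o2 : (ffP C).opp (inl (.o () 2)) = inr (a2, b2) := by
    rw [← r2, ff_opp_rl okC (e := inl (.o () 2)) trivial, hab2]; rfl
  have nL : Norm (ffL M D d s) := ⟨nM.n, fun _ => rfl, fun _ i => hF i⟩
  refine ⟨N, iN, ffP C, ffL M D d s, r, hcard, ff_ok okC hfin, ff_real realC p₁, nL,
    fun i => rfl, hV, ?_, hO, hR, ?_⟩
  · intro i j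
    rcases ffa_four i with rfl | rfl | rfl | rfl
    · rw [ff_opp_o0]; intro hcon; cases hcon
    · rw [o1]; intro hcon; cases hcon
    · rw [o2]; intro hcon; cases hcon
    · rw [ff_opp_o3]; intro hcon; cases hcon
  · rintro ⟨⟩
    have q0 : (ffP C).dir (ffL M D d s) () 0 = D 0 - (D 0) 2 • ![d 0 / s, d 1 / s, 1] := by
      unfold Pic.dir
      rw [ff_opp_f0]; rfl
    have q3 : (ffP C).dir (ffL M D d s) () 3 = D 3 - (D 3) 2 • ![d 0 / s, d 1 / s, 1] := by
      unfold Pic.dir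
      rw [ff_opp_f3]; rfl
    have q1 : (ffP C).dir (ffL M D d s) () 1 =
        M.n a0 - (M.n a0) 2 • ![d 0 / s, d 1 / s, 1] := by
      unfold Pic.dir
      rw [o0]; rfl
    have q2 : (ffP C).dir (ffL M D d s) () 2 =
        M.n a3 - (M.n a3) 2 • ![d 0 / s, d 1 / s, 1] := by
      unfold Pic.dir
      rw [o3]; rfl
    refine h₂ _ (dir_pos nL hV ()) ?_ ?_
    · rw [q0, q2, hF 0, nM.n]
      have e : d2 (D 0 - (0 : ℝ) • ![d 0 / s, d 1 / s, 1])
          (M.n a3 - (1 : ℝ) • ![d 0 / s, d 1 / s, 1]) =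
          d2 (D 0) (M.n a3) + d2 d (D 0) / s := by
        simp only [d2, Pi.sub_apply, Pi.smul_apply, smul_eq_mul]
        simp
        ring
      rw [e]
      exact k1
    · rw [q1, q3, hF 3, nM.n]
      have e : d2 (M.n a0 - (1 : ℝ) • ![d 0 / s, d 1 / s, 1])
          (D 3 - (0 : ℝ) • ![d 0 / s, d 1 / s, 1]) =
          d2 (M.n a0) (D 3) + d2 (D 3) d / s := by
        simp only [d2, Pi.sub_apply, Pi.smul_apply, smul_eq_mul]
        simp
        ring
      rw [e]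
      exact k2

/-! ### the mirrored version -/

section
variable {V₁ V₂ : Type}

/-- the relabelling of crossings -/
private def ffaS (V₁ V₂ : Type) : V₂ ⊕ V₁ ≃ V₁ ⊕ V₂ := Equiv.sumComm V₂ V₁

private theorem ffa_rotx (k : ZMod 4) {V : Type} (α : Tg V) (v : V) (i : ZMod 4) :
    SN78.rot k α (.x v i) = rel id (fun _ => 0) k (α (.x v i)) := by
  show rel id (fun _ => 0) k (α (.x v (i + 0))) = _
  rw [add_zero]

private theorem ffa_roto (k : ZMod 4) {V : Type} (α : Tg V) (i : ZMod 4) :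
    SN78.rot k α (.o () i) = rel id (fun _ => 0) k (α (.o () (i + -k))) := rfl

private theorem ffa_rg {α₁ : Tg V₁} (p₁ : Proper α₁) (y : SD V₂ Empty Unit) :
    rg α₁ y = rel (ffaS V₁ V₂) (fun _ => 0) 0 (rel id (fun _ => 0) 2
      (lf (SN78.rot 2 α₁) (rel id (fun _ => 0) 2 y))) := by
  rcases y with ⟨v, i⟩ | ⟨a, i⟩ | ⟨a, i⟩
  · simp only [rel, lf, rg, add_zero]; rfl
  · exact a.elim
  · obtain ⟨v0, j0, h0⟩ := p₁ 0
    obtain ⟨v3, j3, h3⟩ := p₁ 3
    have e1 : SN78.rot 2 α₁ (.o () 1) = .x v3 (j3 + 0) := by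
      rw [ffa_roto, show (1 : ZMod 4) + -2 = 3 from rfl, h3]; rfl
    have e2 : SN78.rot 2 α₁ (.o () 2) = .x v0 (j0 + 0) := by
      rw [ffa_roto, show (2 : ZMod 4) + -2 = 0 from rfl, h0]; rfl
    rcases ffa_four i with rfl | rfl | rfl | rfl
    · simp only [rel, lf, rg]
      rw [if_neg (by decide), if_neg (by decide)]
      rfl
    · simp only [rel, lf, rg]
      rw [if_pos (by decide), if_pos (by decide), if_pos (by decide), if_neg (by decide), h0, e2]
      simp only [add_zero]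
      rfl
    · simp only [rel, lf, rg]
      rw [if_pos (by decide), if_neg (by decide), if_pos (by decide), if_pos (by decide), h3, e1]
      simp only [add_zero]
      rfl
    · simp only [rel, lf, rg]
      rw [if_neg (by decide), if_neg (by decide)]
      rfl

private theorem ffa_lf {α₂ : Tg V₂} (p₂ : Proper α₂) (y : SD V₁ Empty Unit) :
    lf α₂ y = rel (ffaS V₁ V₂) (fun _ => 0) 0 (rel id (fun _ => 0) 2
      (rg (SN78.rot 2 α₂) (rel id (fun _ => 0) 2 y))) := by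
  rcases y with ⟨v, i⟩ | ⟨a, i⟩ | ⟨a, i⟩
  · simp only [rel, lf, rg, add_zero]; rfl
  · exact a.elim
  · obtain ⟨v1, j1, h1⟩ := p₂ 1
    obtain ⟨v2, j2, h2⟩ := p₂ 2
    have e0 : SN78.rot 2 α₂ (.o () 0) = .x v2 (j2 + 0) := by
      rw [ffa_roto, show (0 : ZMod 4) + -2 = 2 from rfl, h2]; rfl
    have e3 : SN78.rot 2 α₂ (.o () 3) = .x v1 (j1 + 0) := by
      rw [ffa_roto, show (3 : ZMod 4) + -2 = 1 from rfl, h1]; rfl
    rcases ffa_four i with rfl | rfl | rfl | rfl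
    · simp only [rel, lf, rg]
      rw [if_pos (by decide), if_pos (by decide), if_pos (by decide), if_neg (by decide), h1, e3]
      simp only [add_zero]
      rfl
    · simp only [rel, lf, rg]
      rw [if_neg (by decide), if_neg (by decide)]
      rfl
    · simp only [rel, lf, rg]
      rw [if_neg (by decide), if_neg (by decide)]
      rfl
    · simp only [rel, lf, rg]
      rw [if_pos (by decide), if_neg (by decide), if_pos (by decide), if_pos (by decide), h2, e0]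
      simp only [add_zero]
      rfl

private theorem ffa_swap {α₁ : Tg V₁} {α₂ : Tg V₂} (p₁ : Proper α₁) (p₂ : Proper α₂)
    (d : SD (V₂ ⊕ V₁) Empty Unit) :
    sum α₁ α₂ (rel (ffaS V₁ V₂) (fun _ => 0) 0 d) = rel (ffaS V₁ V₂) (fun _ => 0) 0
      (SN78.rot 2 (sum (SN78.rot 2 α₂) (SN78.rot 2 α₁)) d) := by
  rcases d with ⟨v | v, i⟩ | ⟨a, i⟩ | ⟨a, i⟩
  · rw [ffa_rotx]
    show rg α₁ (α₂ (.x v (i + 0))) = rel (ffaS V₁ V₂) (fun _ => 0) 0 (rel id (fun _ => 0) 2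
      (lf (SN78.rot 2 α₁) (SN78.rot 2 α₂ (.x v i))))
    rw [ffa_rotx, ← ffa_rg p₁, add_zero]
  · rw [ffa_rotx]
    show lf α₂ (α₁ (.x v (i + 0))) = rel (ffaS V₁ V₂) (fun _ => 0) 0 (rel id (fun _ => 0) 2
      (rg (SN78.rot 2 α₂) (SN78.rot 2 α₁ (.x v i))))
    rw [ffa_rotx, ← ffa_lf p₂, add_zero]
  · exact a.elim
  · rw [ffa_roto]
    show (if i + 0 = 1 ∨ i + 0 = 2 then lf α₂ (α₁ (.o () (i + 0))) else
      rg α₁ (α₂ (.o () (i + 0)))) = rel (ffaS V₁ V₂) (fun _ => 0) 0 (rel id (fun _ => 0) 2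
      (if i + -2 = 1 ∨ i + -2 = 2 then lf (SN78.rot 2 α₁) (SN78.rot 2 α₂ (.o () (i + -2))) else
        rg (SN78.rot 2 α₂) (SN78.rot 2 α₁ (.o () (i + -2)))))
    rw [add_zero]
    have e : i + -2 + -2 = i := by revert i; decide
    by_cases hi : i = 1 ∨ i = 2
    · have hi' : ¬ (i + -2 = 1 ∨ i + -2 = 2) := by revert i; decide
      rw [if_pos hi, if_neg hi', ffa_roto, e, ← ffa_lf p₂]
    · have hi' : i + -2 = 1 ∨ i + -2 = 2 := by revert i; decide
      rw [if_neg hi, if_pos hi', ffa_roto, e, ← ffa_rg p₁]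

private theorem ffa_proper {V : Type} {α : Tg V} (p : Proper α) : Proper (SN78.rot 2 α) := by
  intro i
  obtain ⟨v, j, h⟩ := p (i + -2)
  refine ⟨v, j + 0, ?_⟩
  rw [ffa_roto, h]
  rfl

end

theorem ffr {V₁ V₂ : Type} [Fintype V₁] [Fintype V₂] {α₁ : Tg V₁} {α₂ : Tg V₂}
    (p₁ : Proper α₁) (p₂ : Proper α₂) (h₁ : Gpp α₁) (h₂ : Z 1 α₂)
    {sh : ZMod 4 → Prop} {D : ZMod 4 → H} (h : (sh = no ∧ Pos D) ∨ (sh = only 0 ∧ Pos1 0 D) ∨
      (sh = only 2 ∧ Pos1 2 D)) : Dr (sum α₁ α₂) sh D := by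
  have z3 : Z 3 (SN78.rot 2 α₂) := by
    intro E hE
    have h5 : Pos1 1 (fun i => E (i + 2)) := by
      refine ⟨fun i => hE.1 _, ?_, fun i hi => ?_⟩
      · exact hE.2.1
      · have e : i + 1 + 2 = i + 2 + 1 := by ring
        show 0 < d2 (E (i + 2)) (E (i + 1 + 2))
        rw [e]
        refine hE.2.2 (i + 2) ?_
        revert i; decide
    have h6 := Dr.rot 2 (h₂ _ h5)
    have e1 : (fun i : ZMod 4 => only 1 (i - 2)) = only 3 := by
      funext i
      refine propext ?_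
      show i - 2 = 1 ↔ i = 3
      revert i; decide
    have e2 : (fun i : ZMod 4 => E (i - 2 + 2)) = E := by
      funext i
      rw [sub_add_cancel]
    rw [e1, e2] at h6
    exact h6
  have gm : Gmm (SN78.rot 2 α₁) := by
    intro E hE q1 q2
    have h5 : Pos (fun i => E (i + 2)) := by
      refine ⟨fun i => hE.1 _, fun i => ?_⟩
      have e : i + 1 + 2 = i + 2 + 1 := by ring
      show 0 < d2 (E (i + 2)) (E (i + 1 + 2))
      rw [e]
      exact hE.2 (i + 2)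
    have h6 := Dr.rot 2 (h₁ _ h5 (by
      show d2 (E 2) (E 0) < 0
      rw [d2_swap]; linarith) (by
      show d2 (E 3) (E 1) < 0
      rw [d2_swap]; linarith))
    have e1 : (fun i : ZMod 4 => no (i - 2)) = no := rfl
    have e2 : (fun i : ZMod 4 => E (i - 2 + 2)) = E := by
      funext i
      rw [sub_add_cancel]
    rw [e1, e2] at h6
    exact h6
  have hP : ∀ k : ZMod 4, Pos1 k D → Pos1 (k + 2) (fun i => D (i + 2)) := by
    intro k hk
    have e0 : k + 2 + 1 + 2 = k + 1 := by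
      have : (2 : ZMod 4) + 2 = 0 := by decide
      linear_combination this
    have e1 : k + 2 + 2 = k := by
      have : (2 : ZMod 4) + 2 = 0 := by decide
      linear_combination this
    refine ⟨fun i => hk.1 _, ?_, fun i hi => ?_⟩
    · show D (k + 2 + 1 + 2) = D (k + 2 + 2)
      rw [e0, e1]
      exact hk.2.1
    · have e : i + 1 + 2 = i + 2 + 1 := by ring
      show 0 < d2 (D (i + 2)) (D (i + 1 + 2))
      rw [e]
      refine hk.2.2 (i + 2) ?_
      intro hcon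
      apply hi
      rw [← hcon]
      have : (2 : ZMod 4) + 2 = 0 := by decide
      linear_combination -this
  have key : Dr (sum (SN78.rot 2 α₂) (SN78.rot 2 α₁)) (fun i => sh (i + 2))
      (fun i => D (i + 2)) := by
    refine ffl (ffa_proper p₂) (ffa_proper p₁) z3 gm ?_
    rcases h with ⟨hh, h⟩ | ⟨hh, h⟩ | ⟨hh, h⟩
    · refine Or.inl ⟨by rw [hh]; rfl, fun i => h.1 _, fun i => ?_⟩
      have e : i + 1 + 2 = i + 2 + 1 := by ring
      show 0 < d2 (D (i + 2)) (D (i + 1 + 2))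
      rw [e]
      exact h.2 (i + 2)
    · refine Or.inr (Or.inr ⟨?_, hP 0 h⟩)
      rw [hh]
      funext i
      refine propext ?_
      show i + 2 = 0 ↔ i = 2
      revert i; decide
    · refine Or.inr (Or.inl ⟨?_, hP 2 h⟩)
      rw [hh]
      funext i
      refine propext ?_
      show i + 2 = 2 ↔ i = 0
      revert i; decide
  have h6 := Dr.rot 2 key
  have e1 : (fun i : ZMod 4 => sh (i - 2 + 2)) = sh := by
    funext i
    rw [sub_add_cancel]
  have e2 : (fun i : ZMod 4 => D (i - 2 + 2)) = D := by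
    funext i
    rw [sub_add_cancel]
  rw [e1, e2] at h6
  exact Dr.congr (ffaS V₁ V₂) (fun _ => 0) (fun d => ffa_swap p₁ p₂ d) h6

end SN78
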