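import Pool.Agent.SN78.Open
import Pool.Agent.SN78.Plane

/-!
# SN78 module FFDEFS: the parent picture for the sum of two fat tangles

`T₁` (left) is drawn with a picture `C` whose ports `3` and `0` have the common far point `d`.
In `ffP C` this far point has become a finite big vertex `X₂` (for the right tangle `T₂`):
its dart `1` is joined with the port `0` of `T₁`, its dart `2` with the port `3` of `T₁`, its darts
`0` and `3` with the outer points `0` and `3`.  The outer points `1, 2` are the ports `1, 2` of `T₁`.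

Everything by case analysis: `rl` is injective, and no bead of the form `f 0, f 3, o 0, o 3` is in its
range.  `(C.adj (o i) ≠ o j)` because port sticks end at nodes (`hf`; if `C.adj (o i) = o j` then
`C.opp (o i) = o j`).  `ff_real`: induction over `Reach`.
-/

namespace SN78

open Sum

section
variable {V N : Type}

/-- relabelling of beads: the ports `0, 3` of the left tangle become the darts `1, 2` of `X₂` -/
def rl : Bead V N Empty Unit → Bead V N Unit Unit
  | inl (.x v i) => inl (.x v i)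
  | inl (.f e _) => e.elim
  | inl (.o _ i) => if i = 0 then inl (.f () 1) else if i = 3 then inl (.f () 2) else inl (.o () i)
  | inr a => inr a

/-- the parent picture -/
def ffP (C : Pic V N Empty Unit) : Pic V N Unit Unit where
  adj
    | inl (.x v i) => rl (C.adj (inl (.x v i)))
    | inl (.f _ i) => if i = 1 then rl (C.adj (inl (.o () 0)))
        else if i = 2 then rl (C.adj (inl (.o () 3))) else inl (.o () i)
    | inl (.o _ i) => if i = 1 ∨ i = 2 then rl (C.adj (inl (.o () i))) else inl (.f () i)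
    | inr a => rl (C.adj (inr a))
  ed v i := rl (C.ed v i)

/-- relabelling of site darts -/
def rlA : SD V Empty Unit → SD V Unit Unit
  | .x v i => .x v i
  | .f e _ => e.elim
  | .o _ i => if i = 0 then .f () 1 else if i = 3 then .f () 2 else .o () i

/-- the shadow of the parent -/
def ffA (α : Tg V) : SD V Unit Unit → SD V Unit Unit
  | .x v i => rlA (α (.x v i))
  | .f _ i => if i = 1 then rlA (α (.o () 0)) else if i = 2 then rlA (α (.o () 3)) else .o () i
  | .o _ i => if i = 1 ∨ i = 2 then rlA (α (.o () i)) else .f () i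

/-- positions: `X₂` is at `d / s`, the far points are `D` -/
noncomputable def ffL (M : Lab N Empty Unit H) (D : ZMod 4 → H) (d : H) (s : ℝ) : Lab N Unit Unit H where
  n := M.n
  f := fun _ => ![d 0 / s, d 1 / s, 1]
  o := fun _ i => D i

private theorem ffd_cases (i : ZMod 4) : i = 0 ∨ i = 1 ∨ i = 2 ∨ i = 3 := by
  revert i; decide

private theorem ffd_10 : (1 : ZMod 4) ≠ 0 := by decide
private theorem ffd_20 : (2 : ZMod 4) ≠ 0 := by decide
private theorem ffd_30 : (3 : ZMod 4) ≠ 0 := by decide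
private theorem ffd_01 : (0 : ZMod 4) ≠ 1 := by decide
private theorem ffd_21 : (2 : ZMod 4) ≠ 1 := by decide
private theorem ffd_31 : (3 : ZMod 4) ≠ 1 := by decide
private theorem ffd_02 : (0 : ZMod 4) ≠ 2 := by decide
private theorem ffd_12 : (1 : ZMod 4) ≠ 2 := by decide
private theorem ffd_32 : (3 : ZMod 4) ≠ 2 := by decide
private theorem ffd_03 : (0 : ZMod 4) ≠ 3 := by decide
private theorem ffd_13 : (1 : ZMod 4) ≠ 3 := by decide
private theorem ffd_23 : (2 : ZMod 4) ≠ 3 := by decide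

/-- the relabelling of beads commutes with the adjacency -/
private theorem ffd_adj (C : Pic V N Empty Unit) (e : Bead V N Empty Unit) :
    (ffP C).adj (rl e) = rl (C.adj e) := by
  rcases e with (⟨v, i⟩ | ⟨a, i⟩ | ⟨a, i⟩) | a
  · rfl
  · exact a.elim
  · rcases ffd_cases i with rfl | rfl | rfl | rfl
    · simp [ffP, rl]
    · simp [ffP, rl, ffd_10, ffd_13]
    · simp [ffP, rl, ffd_20, ffd_23]
    · simp [ffP, rl, ffd_30, ffd_21]
  · rfl

private theorem ffd_end {e : Bead V N Empty Unit} : IsEnd (rl e) ↔ IsEnd e := by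
  rcases e with (⟨v, i⟩ | ⟨a, i⟩ | ⟨a, i⟩) | a
  · simp [rl, IsEnd]
  · exact a.elim
  · rcases ffd_cases i with rfl | rfl | rfl | rfl
    · simp [rl, IsEnd]
    · simp [rl, IsEnd, ffd_10, ffd_13]
    · simp [rl, IsEnd, ffd_20, ffd_23]
    · simp [rl, IsEnd, ffd_30]
  · simp [rl, IsEnd]

private theorem ffd_x {e : Bead V N Empty Unit} {v : V} {i : ZMod 4}
    (h : rl e = inl (.x v i)) : e = inl (.x v i) := by
  rcases e with (⟨w, j⟩ | ⟨a, j⟩ | ⟨a, j⟩) | a
  · simpa [rl] using h
  · exact a.elim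
  · rcases ffd_cases j with rfl | rfl | rfl | rfl
    · simp [rl] at h
    · simp [rl, ffd_10, ffd_13] at h
    · simp [rl, ffd_20, ffd_23] at h
    · simp [rl, ffd_30] at h
  · simp [rl] at h

/-- a left inverse of the relabelling -/
private def ffdInv : Bead V N Unit Unit → Bead V N Empty Unit
  | inl (.x v i) => inl (.x v i)
  | inl (.f _ i) => if i = 1 then inl (.o () 0) else inl (.o () 3)
  | inl (.o _ i) => inl (.o () i)
  | inr a => inr a

private theorem ffd_inv (e : Bead V N Empty Unit) : ffdInv (rl e) = e := by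
  rcases e with (⟨v, i⟩ | ⟨a, i⟩ | ⟨a, i⟩) | a
  · rfl
  · exact a.elim
  · rcases ffd_cases i with rfl | rfl | rfl | rfl
    · simp [rl, ffdInv]
    · simp [rl, ffdInv, ffd_10, ffd_13]
    · simp [rl, ffdInv, ffd_20, ffd_23]
    · simp [rl, ffdInv, ffd_30, ffd_21]
  · rfl

private theorem ffd_inj {e e' : Bead V N Empty Unit} (h : rl e = rl e') : e = e' := by
  rw [← ffd_inv e, h, ffd_inv]

/-- the beads of the parent -/
private theorem ffd_bead (b : Bead V N Unit Unit) :
    (∃ e : Bead V N Empty Unit, b = rl e) ∨ b = inl (.f () 0) ∨ b = inl (.f () 3) ∨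
      b = inl (.o () 0) ∨ b = inl (.o () 3) := by
  rcases b with (⟨v, i⟩ | ⟨a, i⟩ | ⟨a, i⟩) | a
  · exact .inl ⟨inl (.x v i), rfl⟩
  · rcases ffd_cases i with rfl | rfl | rfl | rfl
    · exact .inr (.inl rfl)
    · exact .inl ⟨inl (.o () 0), by simp [rl]⟩
    · exact .inl ⟨inl (.o () 3), by simp [rl, ffd_30]⟩
    · exact .inr (.inr (.inl rfl))
  · rcases ffd_cases i with rfl | rfl | rfl | rfl
    · exact .inr (.inr (.inr (.inl rfl)))
    · exact .inl ⟨inl (.o () 1), by simp [rl, ffd_10, ffd_13]⟩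
    · exact .inl ⟨inl (.o () 2), by simp [rl, ffd_20, ffd_23]⟩
    · exact .inr (.inr (.inr (.inr rfl)))
  · exact .inl ⟨inr a, rfl⟩

private theorem ffd_adj_f0 (C : Pic V N Empty Unit) :
    (ffP C).adj (inl (.f () 0)) = inl (.o () 0) := by
  simp [ffP, ffd_01, ffd_02]

private theorem ffd_adj_f3 (C : Pic V N Empty Unit) :
    (ffP C).adj (inl (.f () 3)) = inl (.o () 3) := by
  simp [ffP, ffd_31, ffd_32]

private theorem ffd_adj_o0 (C : Pic V N Empty Unit) :
    (ffP C).adj (inl (.o () 0)) = inl (.f () 0) := by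
  simp [ffP, ffd_01, ffd_02]

private theorem ffd_adj_o3 (C : Pic V N Empty Unit) :
    (ffP C).adj (inl (.o () 3)) = inl (.f () 3) := by
  simp [ffP, ffd_31, ffd_32]

private theorem ffd_opp (C : Pic V N Empty Unit) (e : Bead V N Empty Unit) :
    (ffP C).opp (rl e) = rl (C.opp e) := by
  unfold Pic.opp
  rw [ffd_adj]
  rcases C.adj e with (⟨v, i⟩ | ⟨a, i⟩ | ⟨a, i⟩) | a
  · rfl
  · exact a.elim
  · rcases ffd_cases i with rfl | rfl | rfl | rfl
    · simp [rl]
    · simp [rl, ffd_10, ffd_13]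
    · simp [rl, ffd_20, ffd_23]
    · simp [rl, ffd_30]
  · rfl

theorem ff_ok {C : Pic V N Empty Unit} (hC : C.Ok)
    (hf : ∀ i, ∃ a b, C.opp (inl (.o () i)) = inr (a, b)) : (ffP C).Ok where
  adj_adj b := by
    rcases ffd_bead b with ⟨e, rfl⟩ | rfl | rfl | rfl | rfl
    · rw [ffd_adj, ffd_adj, hC.adj_adj]
    · rw [ffd_adj_f0, ffd_adj_o0]
    · rw [ffd_adj_f3, ffd_adj_o3]
    · rw [ffd_adj_o0, ffd_adj_f0]
    · rw [ffd_adj_o3, ffd_adj_f3]
  adj_ne b := by
    have _ := hf
    rcases ffd_bead b with ⟨e, rfl⟩ | rfl | rfl | rfl | rfl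
    · rw [ffd_adj]
      exact fun h => hC.adj_ne e (ffd_inj h)
    · rw [ffd_adj_f0]; simp
    · rw [ffd_adj_f3]; simp
    · rw [ffd_adj_o0]; simp
    · rw [ffd_adj_o3]; simp
  ed_end v i := ffd_end.2 (hC.ed_end v i)
  ed_x v i w j h := congrArg rl (hC.ed_x v i w j (ffd_x h))
  ed_e v i h := congrArg rl (hC.ed_e v i (ffd_end.1 h))
  opp_ed v i := by
    show (ffP C).opp (rl (C.ed v i)) = rl (C.ed v (i + 2))
    rw [ffd_opp, hC.opp_ed]

theorem ff_opp_rl {C : Pic V N Empty Unit} (hC : C.Ok) {e : Bead V N Empty Unit}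
    (he : IsEnd e) : (ffP C).opp (rl e) = rl (C.opp e) := by
  have _ := hC
  have _ := he
  exact ffd_opp C e

theorem ff_opp_f0 (C : Pic V N Empty Unit) : (ffP C).opp (inl (.f () 0)) = inl (.o () 0) := by
  unfold Pic.opp
  rw [ffd_adj_f0]

theorem ff_opp_f3 (C : Pic V N Empty Unit) : (ffP C).opp (inl (.f () 3)) = inl (.o () 3) := by
  unfold Pic.opp
  rw [ffd_adj_f3]

theorem ff_opp_o0 (C : Pic V N Empty Unit) : (ffP C).opp (inl (.o () 0)) = inl (.f () 0) := by
  unfold Pic.opp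
  rw [ffd_adj_o0]

theorem ff_opp_o3 (C : Pic V N Empty Unit) : (ffP C).opp (inl (.o () 3)) = inl (.f () 3) := by
  unfold Pic.opp
  rw [ffd_adj_o3]

private theorem ffd_rl_inl (d : SD V Empty Unit) :
    (rl (inl d) : Bead V N Unit Unit) = inl (rlA d) := by
  rcases d with ⟨v, i⟩ | ⟨a, i⟩ | ⟨a, i⟩
  · rfl
  · exact a.elim
  · rcases ffd_cases i with rfl | rfl | rfl | rfl
    · simp [rl, rlA]
    · simp [rl, rlA, ffd_10, ffd_13]
    · simp [rl, rlA, ffd_20, ffd_23]
    · simp [rl, rlA, ffd_30]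

private theorem ffd_reach {C : Pic V N Empty Unit} {b : Bead V N Empty Unit}
    {d : SD V Empty Unit} (h : Reach C.adj b d) : Reach (ffP C).adj (rl b) (rlA d) := by
  induction h with
  | site h => exact Reach.site (by rw [ffd_adj, h, ffd_rl_inl])
  | node h _ ih => exact Reach.node (by rw [ffd_adj, h]; rfl) ih

theorem ff_real {C : Pic V N Empty Unit} {α : Tg V} (h : C.Real α) (hp : Proper α) :
    (ffP C).Real (ffA α) where
  site d := by
    have _ := hp
    have key : ∀ d : SD V Empty Unit, Reach (ffP C).adj (inl (rlA d)) (rlA (α d)) := by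
      intro d
      have := ffd_reach (h.site d)
      rwa [ffd_rl_inl] at this
    rcases d with ⟨v, i⟩ | ⟨a, i⟩ | ⟨a, i⟩
    · exact key (.x v i)
    · rcases ffd_cases i with rfl | rfl | rfl | rfl
      · exact Reach.site (by rw [ffd_adj_f0]; simp [ffA, ffd_01, ffd_02])
      · simpa [rlA, ffA] using key (.o () 0)
      · simpa [rlA, ffA, ffd_30, ffd_21] using key (.o () 3)
      · exact Reach.site (by rw [ffd_adj_f3]; simp [ffA, ffd_31, ffd_32])
    · rcases ffd_cases i with rfl | rfl | rfl | rfl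
      · exact Reach.site (by rw [ffd_adj_o0]; simp [ffA, ffd_01, ffd_02])
      · simpa [rlA, ffA, ffd_10, ffd_13] using key (.o () 1)
      · simpa [rlA, ffA, ffd_20, ffd_23] using key (.o () 2)
      · exact Reach.site (by rw [ffd_adj_o3]; simp [ffA, ffd_31, ffd_32])
  node a c := by
    obtain ⟨d, hd⟩ := h.node a c
    exact ⟨rlA d, ffd_reach hd⟩

/-- the glued shadow is the sum -/
theorem ff_glueA {V₁ V₂ : Type} {α₁ : Tg V₁} {α₂ : Tg V₂} (h₁ : Proper α₁) (h₂ : Proper α₂)
    (e : GV V₁ (fun _ : Unit => V₂) ≃ V₁ ⊕ V₂) (he₁ : ∀ v, e (inl v) = inl v)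
    (he₂ : ∀ v, e (inr ⟨(), v⟩) = inr v) (d) :
    sum α₁ α₂ (rel e (fun _ => 0) 0 d) =
      rel e (fun _ => 0) 0 (glueA (ffA α₁) (fun _ => α₂) d) := by
  rcases d with ⟨v | ⟨⟨⟩, v⟩, i⟩ | ⟨a, i⟩ | ⟨⟨⟩, i⟩
  · simp only [rel, he₁, add_zero, sum, glueA, ffA]
    rcases α₁ (.x v i) with ⟨w, j⟩ | ⟨a, j⟩ | ⟨⟨⟩, j⟩
    · simp [lf, rlA, incA, rel, he₁]
    · exact a.elim
    · rcases ffd_cases j with rfl | rfl | rfl | rfl
      · obtain ⟨w, k, hw⟩ := h₂ 1
        simp [lf, rlA, incA, rel, he₂, hw, dnA]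
      · simp [lf, rlA, incA, rel, ffd_10, ffd_13]
      · simp [lf, rlA, incA, rel, ffd_20, ffd_23]
      · obtain ⟨w, k, hw⟩ := h₂ 2
        simp [lf, rlA, incA, rel, he₂, hw, dnA, ffd_30]
  · simp only [rel, he₂, add_zero, sum, glueA]
    rcases α₂ (.x v i) with ⟨w, j⟩ | ⟨a, j⟩ | ⟨⟨⟩, j⟩
    · simp [rg, outA, dnA, rel, he₂]
    · exact a.elim
    · rcases ffd_cases j with rfl | rfl | rfl | rfl
      · simp [rg, outA, ffA, incA, rel, ffd_01, ffd_02]
      · obtain ⟨w, k, hw⟩ := h₁ 0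
        simp [rg, outA, ffA, rlA, incA, rel, he₁, hw]
      · obtain ⟨w, k, hw⟩ := h₁ 3
        simp [rg, outA, ffA, rlA, incA, rel, he₁, hw, ffd_21]
      · simp [rg, outA, ffA, incA, rel, ffd_31, ffd_32]
  · exact a.elim
  · rcases ffd_cases i with rfl | rfl | rfl | rfl
    · obtain ⟨w, k, hw⟩ := h₂ 0
      simp [rel, sum, glueA, ffA, incA, dnA, rg, hw, he₂, ffd_01, ffd_02]
    · obtain ⟨w, k, hw⟩ := h₁ 1
      simp [rel, sum, glueA, ffA, incA, rlA, lf, hw, he₁]
    · obtain ⟨w, k, hw⟩ := h₁ 2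
      simp [rel, sum, glueA, ffA, incA, rlA, lf, hw, he₁]
    · obtain ⟨w, k, hw⟩ := h₂ 3
      simp [rel, sum, glueA, ffA, incA, dnA, rg, hw, he₂, ffd_31, ffd_32]

end

end SN78
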