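import Pool.Agent.SN78.FFDefs

/-!
# SN78 module FFVAL: validity of the parent picture for sums

`C` is a drawing of the left tangle with the directions `D₁ = (d, D 1, D 2, d)`, ports `3, 0` common.
Use rescaled positions: since all conditions are invariant under multiplication of the position of
each bead by a positive number (`Valid.scale`), we may put `X₂` at `(d 0, d 1, s)` instead of
`(d 0 / s, d 1 / s, 1)`.  Let `q s` be these positions of `ffP C`, and `p s` the positions of `C` where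
the outer points `0, 3` are at `(d 0, d 1, s)` and the other ones at `D 1, D 2`.
`p s → M.at` as `s → 0`, so `C.Valid (fun _ => only 3) (p s)` for small `s` (`Valid.eventually`).
`q s (rl e) = p s e`.

* `cr`, `ord`, `bend`: from `C` (`ff_opp_rl`).
* `fat` at `X₂`: `i = 0`: `dt (d,s) (D 0) (a₀) → d2 d (D 0) > 0`, where `a₀` is the position of the node
  at the other end of the port 0 of `C` (third coordinate 1; `dt (d,0) (D 0) (a,1) = d2 d (D 0)`);
  `i = 1`: it is `shr` of `C` for `i = 3`; `i = 2`: `dt (d,s) a₃ (D 3) → d2 (D 3) d > 0`;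
  `i = 3`: `dt (d,s) (D 3) (D 0) = s * d2 (D 3) (D 0) > 0`.
* `shr` for `sh = only 0`: `dt (D 0) (a₁) (d,s) → dt (D 0) (a₁) (d,0) = d2 d (D 0) > 0`;
  for `sh = only 2` (`D 3 = D 2`): `dt (D 2) (pos of opp (o 3)) (pos of opp (o 2)) = dt (D 3) (d,s) a₂
  → d2 (D 3) d > 0`.
* `sep` for `e, e'` both of the form `rl _`: if they are apart in `ffP C` then they are apart in `C`
  (with `only 3`); note that in `ffP C` the ends `f 1, f 2` are at the same vertex.
* `sep` for the stick `X₂ – D 0` (ends `f 0, o 0`) and a stick `rl e – rl (C.opp e)` which is apart from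
  it.  It does not end at `X₂`, so its ends are nodes or `o 1`, `o 2` (and not `o 1` if `sh = only 0`).
  We need a functional negative at `(d, s)` and `D 0` and positive at both ends, at all nodes, say, and
  at `D 1` (or `D 2`).  For `D 2`: choose `l` with `l 2 = 0`, negative at `d, D 0`, positive at `D 2`
  (`exists_func` with `p = d, q = D 0` (`d2 d (D 0) > 0`), `v = D 2` (`d2 d (D 2) < 0`), then negate);
  put `l 2 = K` large so that it is positive at the nodes of the stick (at the far point `D 2` nothing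
  changes); for `s` small it is still negative at `(d, s)`.  For `D 1` if `sh = no` or `sh = only 2`:
  the same; now `¬ (0 ≤ d2 d (D 1) ∧ 0 ≤ d2 (D 1) (D 0))` because `d2 (D 0) (D 1) > 0`.
  A stick between two nodes: `l` as for `D 2`.  Could a stick have both ends far, `o 1` and `o 2`?  No, by
  `hf`.
* `sep` for the stick `X₂ – D 3` (ends `f 3, o 3`): symmetric; `exists_func` with `p = D 3, q = d`
  (`d2 (D 3) d > 0`), `v = D 1` (`d2 (D 1) d < 0`) or `v = D 2` (`d2 (D 3) (D 2) < 0` if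
  `sh ≠ only 2`).
* `f 0, f 3` are at the same vertex, so the two new sticks are not apart.
Here `hd : d2 (D 3) d > 0, d2 (D 2) d > 0, d2 d (D 0) > 0, d2 d (D 1) > 0`.
-/

namespace SN78

open Sum Filter Topology

variable {V N F O : Type}

private theorem ffv_four (i : ZMod 4) : i = 0 ∨ i = 1 ∨ i = 2 ∨ i = 3 := by
  revert i; decide

private theorem ffv_a (i : ZMod 4) : i + 2 + 3 = i + 1 := by revert i; decide

private theorem ffv_b (i : ZMod 4) : i + 2 + 1 = i + 3 := by revert i; decide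

private theorem ffv_c (i : ZMod 4) : i + 2 + 2 = i := by revert i; decide

/-- all conditions are invariant under positive scaling of the positions of the beads -/
theorem Pic.Valid.scale {P : Pic V N F O} (hP : P.Ok) {sh : O → ZMod 4 → Prop}
    {p q : Bead V N F O → H} {k : Bead V N F O → ℝ} (hk : ∀ b, 0 < k b)
    (hq : ∀ b, q b = k b • p b) (h : P.Valid sh p) : P.Valid sh q := by
  have hdt : ∀ a b c, dt (q a) (q b) (q c) = k a * (k b * (k c * dt (p a) (p b) (p c))) := by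
    intro a b c
    rw [hq a, hq b, hq c, dt_smul₁, dt_smul₂, dt_smul₃]
  have hpos : ∀ a b c, 0 < dt (p a) (p b) (p c) → 0 < dt (q a) (q b) (q c) := by
    intro a b c h0
    rw [hdt]
    exact mul_pos (hk a) (mul_pos (hk b) (mul_pos (hk c) h0))
  refine ⟨fun v i => hpos _ _ _ (h.cr v i), ?_, ?_, fun a i => hpos _ _ _ (h.fat a i),
    fun a i hs => hpos _ _ _ (h.shr a i hs), ?_⟩
  · intro v i w j hadj
    have e1 : P.ed v i = P.ed w (j + 2) := hP.ed_x v i w j hadj
    have e2 : P.ed v (i + 2) = P.ed w j := by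
      rw [← hP.opp_ed, e1, hP.opp_ed, ffv_c]
    have h0 := h.ord v i w j hadj
    simp only [Pic.kap] at h0 ⊢
    rw [hdt, hdt, hdt, hdt]
    simp only [ffv_a, ffv_b] at h0 ⊢
    rw [← e1, e2] at h0 ⊢
    have hc : 0 < k (P.ed v (i + 1)) * k (P.ed v (i + 3)) * k (P.ed w (j + 1)) *
        k (P.ed w (j + 3)) * k (P.ed w j) * k (P.ed v i) := by
      have := hk (P.ed v (i + 1)); have := hk (P.ed v (i + 3)); have := hk (P.ed w (j + 1))
      have := hk (P.ed w (j + 3)); have := hk (P.ed w j); have := hk (P.ed v i)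
      positivity
    have h1 := mul_lt_mul_of_pos_left h0 hc
    calc _ = _ := by ring
      _ < _ := h1
      _ = _ := by ring
  · intro a
    rw [hdt]
    exact mul_ne_zero (hk _).ne' (mul_ne_zero (hk _).ne' (mul_ne_zero (hk _).ne' (h.bend a)))
  · intro e e' he he' ha
    obtain ⟨l, h1, h2, h3, h4⟩ := h.sep e e' he he' ha
    refine ⟨l, ?_, ?_, ?_, ?_⟩
    · rw [hq, dot_smul]; exact mul_pos (hk _) h1
    · rw [hq, dot_smul]; exact mul_pos (hk _) h2
    · rw [hq, dot_smul]; exact mul_neg_of_pos_of_neg (hk _) h3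
    · rw [hq, dot_smul]; exact mul_neg_of_pos_of_neg (hk _) h4

private theorem ffv_same_symm {V N F O : Type} {sh : O → ZMod 4 → Prop}
    {e e' : Bead V N F O} (h : SameNode sh e e') : SameNode sh e' e := by
  rcases e with (_ | _ | ⟨a, i⟩) | ⟨a, b⟩ <;> rcases e' with (_ | _ | ⟨a', i'⟩) | ⟨a', b'⟩ <;>
    simp only [SameNode] at h ⊢
  · exact h.symm
  · obtain ⟨rfl, h2 | ⟨h2, h3⟩ | ⟨h2, h3⟩⟩ := h
    · exact ⟨rfl, Or.inl h2.symm⟩
    · exact ⟨rfl, Or.inr (Or.inr ⟨h2, h3⟩)⟩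
    · exact ⟨rfl, Or.inr (Or.inl ⟨h2, h3⟩)⟩
  · exact h.symm

private theorem ffv_g (i : ZMod 4) : i + 1 + 3 = i := by revert i; decide

private theorem ffv_h (i : ZMod 4) : i + 3 + 1 = i := by revert i; decide

private theorem ffv_apart_symm {V N F O : Type} {P : Pic V N F O} {sh : O → ZMod 4 → Prop}
    {e e' : Bead V N F O} (h : P.Apart sh e e') : P.Apart sh e' e := by
  obtain ⟨h1, h2, h3, h4, h5⟩ := h
  refine ⟨fun h => h1 (ffv_same_symm h), fun h => h3 (ffv_same_symm h),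
    fun h => h2 (ffv_same_symm h), fun h => h4 (ffv_same_symm h), ?_⟩
  rintro ⟨v, i, hi, hj | hj⟩
  · exact h5 ⟨v, i + 1, hj, Or.inr (by rw [ffv_g]; exact hi)⟩
  · exact h5 ⟨v, i + 3, hj, Or.inl (by rw [ffv_h]; exact hi)⟩

private theorem ffv_apart_left {V N F O : Type} {P : Pic V N F O} (hP : P.Ok)
    {sh : O → ZMod 4 → Prop} {e e' : Bead V N F O} (he : IsEnd e)
    (h : P.Apart sh e e') : P.Apart sh (P.opp e) e' := by
  obtain ⟨h1, h2, h3, h4, h5⟩ := h
  refine ⟨h3, h4, ?_, ?_, ?_⟩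
  · rw [opp_opp hP he]; exact h1
  · rw [opp_opp hP he]; exact h2
  · rintro ⟨v, i, hi, hj⟩
    refine h5 ⟨v, i + 2, ?_, ?_⟩
    · rw [← hP.opp_ed, hi, opp_opp hP he]
    · rw [ffv_a, ffv_b]; exact hj.symm

/-- the positions of the parent picture, with the point `x` for the big vertex -/
private def ffvq (M : Lab N Empty Unit H) (D : ZMod 4 → H) (x : H) : Bead V N Unit Unit → H
  | inl (.x _ _) => 0
  | inl (.f _ _) => x
  | inl (.o _ i) => D i
  | inr (a, _) => M.n a

/-- the positions of the left picture, with the point `x` for the ports `3` and `0` -/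
private def ffvp (M : Lab N Empty Unit H) (D : ZMod 4 → H) (x : H) : Bead V N Empty Unit → H
  | inl (.x _ _) => 0
  | inl (.f e _) => e.elim
  | inl (.o _ i) => if i = 0 then x else if i = 3 then x else D i
  | inr (a, _) => M.n a

private theorem ffv_p3 (M : Lab N Empty Unit H) (D : ZMod 4 → H) (x : H) :
    ffvp (V := V) M D x (inl (.o () 3)) = x := by
  show (if (3 : ZMod 4) = 0 then x else if (3 : ZMod 4) = 3 then x else D 3) = x
  rw [if_neg (by decide), if_pos rfl]

private theorem ffv_q_rl (M : Lab N Empty Unit H) (D : ZMod 4 → H) (x : H)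
    (b : Bead V N Empty Unit) : ffvq M D x (rl b) = ffvp M D x b := by
  rcases b with (⟨v, i⟩ | ⟨e, i⟩ | ⟨u, i⟩) | ⟨a, c⟩
  · rfl
  · exact e.elim
  · simp only [rl, ffvp]
    by_cases h0 : i = 0
    · rw [if_pos h0, if_pos h0]; rfl
    · by_cases h3 : i = 3
      · rw [if_neg h0, if_neg h0, if_pos h3, if_pos h3]; rfl
      · rw [if_neg h0, if_neg h0, if_neg h3, if_neg h3]; rfl
  · rfl

private theorem ffv_rl_end {b : Bead V N Empty Unit} (h : IsEnd b) : IsEnd (rl b) := by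
  rcases b with (⟨v, i⟩ | ⟨e, i⟩ | ⟨u, i⟩) | ⟨a, c⟩
  · exact h.elim
  · exact e.elim
  · simp only [rl]
    by_cases h0 : i = 0
    · rw [if_pos h0]; trivial
    · by_cases h3 : i = 3
      · rw [if_neg h0, if_pos h3]; trivial
      · rw [if_neg h0, if_neg h3]; trivial
  · trivial

private theorem ffv_rl_x {b : Bead V N Empty Unit} {w : V} {j : ZMod 4}
    (h : rl b = inl (.x w j)) : b = inl (.x w j) := by
  rcases b with (⟨v, i⟩ | ⟨e, i⟩ | ⟨u, i⟩) | ⟨a, c⟩
  · simp only [rl, inl.injEq, SD.x.injEq] at h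
    rw [h.1, h.2]
  · exact e.elim
  · exfalso
    simp only [rl] at h
    by_cases h0 : i = 0
    · rw [if_pos h0] at h; simp at h
    · by_cases h3 : i = 3
      · rw [if_neg h0, if_pos h3] at h; simp at h
      · rw [if_neg h0, if_neg h3] at h; simp at h
  · simp [rl] at h

private theorem ffv_rl_o0 : (rl (inl (.o () 0)) : Bead V N Unit Unit) = inl (.f () 1) := by
  simp [rl]

private theorem ffv_rl_o3 : (rl (inl (.o () 3)) : Bead V N Unit Unit) = inl (.f () 2) := by
  show (if (3 : ZMod 4) = 0 then inl (.f () 1) else if (3 : ZMod 4) = 3 then inl (.f () 2)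
    else inl (.o () 3) : Bead V N Unit Unit) = _
  rw [if_neg (by decide), if_pos rfl]

private theorem ffv_rl_o1 : (rl (inl (.o () 1)) : Bead V N Unit Unit) = inl (.o () 1) := by
  simp only [rl]
  rw [if_neg (by decide), if_neg (by decide)]

private theorem ffv_rl_o2 : (rl (inl (.o () 2)) : Bead V N Unit Unit) = inl (.o () 2) := by
  simp only [rl]
  rw [if_neg (by decide), if_neg (by decide)]

/-- classification of the ends of the parent picture -/
private theorem ffv_ends {e : Bead V N Unit Unit} (he : IsEnd e) :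
    (∃ c : Bead V N Empty Unit, IsEnd c ∧ e = rl c) ∨ e = inl (.f () 0) ∨ e = inl (.o () 0) ∨
      e = inl (.f () 3) ∨ e = inl (.o () 3) := by
  rcases e with (⟨v, i⟩ | ⟨⟨⟩, i⟩ | ⟨⟨⟩, i⟩) | ⟨a, c⟩
  · exact he.elim
  · rcases ffv_four i with rfl | rfl | rfl | rfl
    · exact Or.inr (Or.inl rfl)
    · exact Or.inl ⟨inl (.o () 0), trivial, ffv_rl_o0.symm⟩
    · exact Or.inl ⟨inl (.o () 3), trivial, ffv_rl_o3.symm⟩
    · exact Or.inr (Or.inr (Or.inr (Or.inl rfl)))
  · rcases ffv_four i with rfl | rfl | rfl | rfl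
    · exact Or.inr (Or.inr (Or.inl rfl))
    · exact Or.inl ⟨inl (.o () 1), trivial, ffv_rl_o1.symm⟩
    · exact Or.inl ⟨inl (.o () 2), trivial, ffv_rl_o2.symm⟩
    · exact Or.inr (Or.inr (Or.inr (Or.inr rfl)))
  · exact Or.inl ⟨inr (a, c), trivial, rfl⟩

private theorem ffv_same_refl {V N F O : Type} {sh : O → ZMod 4 → Prop}
    {e : Bead V N F O} (h : IsEnd e) : SameNode sh e e := by
  rcases e with (_ | _ | ⟨a, i⟩) | ⟨a, b⟩
  · exact h.elim
  · rfl
  · exact ⟨rfl, Or.inl rfl⟩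
  · rfl

/-- a common node of two ends of the left picture is a common node in the parent picture -/
private theorem ffv_same_rl {sh : Unit → ZMod 4 → Prop} {c c' : Bead V N Empty Unit}
    (hc : IsEnd c) (h : SameNode (fun _ => only 3) c c') : SameNode sh (rl c) (rl c') := by
  rcases c with (_ | ⟨x, _⟩ | ⟨⟨⟩, i⟩) | ⟨a, b⟩ <;>
    rcases c' with (_ | ⟨x', _⟩ | ⟨⟨⟩, i'⟩) | ⟨a', b'⟩ <;>
    try exact h.elim
  · exact x.elim
  · obtain ⟨-, h2 | ⟨h2, h3⟩ | ⟨h2, h3⟩⟩ := h
    · subst h2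
      exact ffv_same_refl (ffv_rl_end hc)
    · have h3' : i = 3 := h3
      subst h3'
      have h2' : i' = 0 := by rw [h2]; decide
      subst h2'
      rw [ffv_rl_o3, ffv_rl_o0]
      rfl
    · have h3' : i' = 3 := h3
      subst h3'
      have h2' : i = 0 := by rw [h2]; decide
      subst h2'
      rw [ffv_rl_o3, ffv_rl_o0]
      rfl
  · have h' : a = a' := h
    subst h'
    rfl

/-- two old sticks -/
private theorem ffv_sep_old {C : Pic V N Empty Unit} (hC : C.Ok) {M : Lab N Empty Unit H}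
    {D : ZMod 4 → H} {x : H} {sh : Unit → ZMod 4 → Prop}
    (hv : C.Valid (fun _ => only 3) (ffvp M D x)) {c c' : Bead V N Empty Unit} (hc : IsEnd c)
    (hc' : IsEnd c') (ha : (ffP C).Apart sh (rl c) (rl c')) :
    Sep (ffvq M D x (rl c)) (ffvq M D x ((ffP C).opp (rl c))) (ffvq M D x (rl c'))
      (ffvq M D x ((ffP C).opp (rl c'))) := by
  obtain ⟨h1, h2, h3, h4, h5⟩ := ha
  have ho := opp_end hC hc
  rw [ff_opp_rl hC hc, ff_opp_rl hC hc', ffv_q_rl, ffv_q_rl, ffv_q_rl, ffv_q_rl]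
  rw [ff_opp_rl hC hc'] at h2 h4
  rw [ff_opp_rl hC hc] at h3 h4
  refine hv.sep c c' hc hc' ⟨fun hh => h1 (ffv_same_rl hc hh), fun hh => h2 (ffv_same_rl hc hh),
    fun hh => h3 (ffv_same_rl ho hh), fun hh => h4 (ffv_same_rl ho hh), ?_⟩
  rintro ⟨v, i, hi, hj⟩
  refine h5 ⟨v, i, ?_, ?_⟩
  · show rl (C.ed v i) = rl c
    rw [hi]
  · rcases hj with hj | hj
    · left
      show rl (C.ed v (i + 1)) = rl c'
      rw [hj]
    · right
      show rl (C.ed v (i + 3)) = rl c'
      rw [hj]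

/-- a new stick and an old one -/
private theorem ffv_sep_new {C : Pic V N Empty Unit} (hC : C.Ok)
    (hf : ∀ i, ∃ a b, C.opp (inl (.o () i)) = inr (a, b)) {M : Lab N Empty Unit H}
    {D : ZMod 4 → H} {x : H} {sh : Unit → ZMod 4 → Prop} {k : ZMod 4}
    (hk : (ffP C).opp (inl (.f () k)) = inl (.o () k))
    (hl : ∀ j, j = 1 ∨ j = 2 →
      ¬ SameNode sh (inl (.o () k) : Bead V N Unit Unit) (inl (.o () j)) →
      ∃ l : H, dot l x < 0 ∧ dot l (D k) < 0 ∧ 0 < dot l (D j) ∧ ∀ a, 0 < dot l (M.n a))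
    (hl0 : ∃ l : H, dot l x < 0 ∧ dot l (D k) < 0 ∧ ∀ a, 0 < dot l (M.n a))
    {c : Bead V N Empty Unit} (hc : IsEnd c)
    (ha : (ffP C).Apart sh (inl (.f () k)) (rl c)) :
    Sep (ffvq (V := V) M D x (inl (.f () k))) (ffvq M D x ((ffP C).opp (inl (.f () k))))
      (ffvq M D x (rl c)) (ffvq M D x ((ffP C).opp (rl c))) := by
  obtain ⟨h1, h2, h3, h4, -⟩ := ha
  rw [hk] at h3 h4
  rw [ff_opp_rl hC hc] at h2 h4
  rw [hk, ff_opp_rl hC hc, ffv_q_rl, ffv_q_rl]
  -- an outer end is the port `1` or `2`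
  have hport : ∀ i : ZMod 4, ¬ SameNode sh (inl (.f () k) : Bead V N Unit Unit)
      (rl (inl (.o () i))) → ¬ SameNode sh (inl (.o () k) : Bead V N Unit Unit)
      (rl (inl (.o () i))) → ∃ l : H, dot l x < 0 ∧ dot l (D k) < 0 ∧
        0 < dot l (ffvp (V := V) M D x (inl (.o () i))) ∧ ∀ a, 0 < dot l (M.n a) := by
    intro i g1 g2
    rcases ffv_four i with rfl | rfl | rfl | rfl
    · exact absurd (by rw [ffv_rl_o0]; rfl) g1
    · rw [ffv_rl_o1] at g2
      have : ffvp (V := V) M D x (inl (.o () 1)) = D 1 := by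
        show (if (1 : ZMod 4) = 0 then x else if (1 : ZMod 4) = 3 then x else D 1) = _
        rw [if_neg (by decide), if_neg (by decide)]
      rw [this]
      exact hl 1 (Or.inl rfl) g2
    · rw [ffv_rl_o2] at g2
      have : ffvp (V := V) M D x (inl (.o () 2)) = D 2 := by
        simp only [ffvp]
        rw [if_neg (by decide), if_neg (by decide)]
      rw [this]
      exact hl 2 (Or.inr rfl) g2
    · exact absurd (by rw [ffv_rl_o3]; rfl) g1
  have fin : ∀ b b' : Bead V N Empty Unit, (∃ l : H, dot l x < 0 ∧ dot l (D k) < 0 ∧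
      0 < dot l (ffvp M D x b) ∧ 0 < dot l (ffvp M D x b')) →
      Sep x (D k) (ffvp M D x b) (ffvp M D x b') := by
    rintro b b' ⟨l, g1, g2, g3, g4⟩
    exact Sep.symm ⟨l, g3, g4, g1, g2⟩
  show Sep x (D k) (ffvp M D x c) (ffvp M D x (C.opp c))
  apply fin
  rcases c with (_ | ⟨y, _⟩ | ⟨⟨⟩, i⟩) | ⟨a, b⟩
  · exact hc.elim
  · exact y.elim
  · obtain ⟨a, b, hab⟩ := hf i
    rw [hab]
    obtain ⟨l, g1, g2, g3, g4⟩ := hport i h1 h3
    exact ⟨l, g1, g2, g3, g4 a⟩
  · have ho := opp_end hC hc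
    rcases hc2 : C.opp (inr (a, b)) with (_ | ⟨y, _⟩ | ⟨⟨⟩, i⟩) | ⟨a', b'⟩
    · rw [hc2] at ho
      exact ho.elim
    · exact y.elim
    · rw [hc2] at h2 h4
      obtain ⟨l, g1, g2, g3, g4⟩ := hport i h2 h4
      exact ⟨l, g1, g2, g4 a, g3⟩
    · obtain ⟨l, g1, g2, g4⟩ := hl0
      exact ⟨l, g1, g2, g4 a, g4 a'⟩

/-- the functional: negative at `p, q`, positive at `v` and at all nodes -/
private theorem ffv_func [Finite N] {p q v : H} (hp : p 2 = 0) (hq : q 2 = 0) (hv : v 2 = 0)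
    (h : 0 < d2 p q) (hn : ¬ (0 ≤ d2 p v ∧ 0 ≤ d2 v q)) {n : N → H} (hn2 : ∀ a, n a 2 = 1) :
    ∃ l : H, dot l p < 0 ∧ dot l q < 0 ∧ 0 < dot l v ∧ ∀ a, 0 < dot l (n a) := by
  obtain ⟨l, hl2, h1, h2, h3⟩ := exists_func hp hq hv h hn
  obtain ⟨K, hK⟩ := (Set.finite_range (fun a => dot l (n a))).bddAbove
  have hK' : ∀ a, dot l (n a) ≤ K := fun a => hK ⟨a, rfl⟩
  refine ⟨![-l 0, -l 1, K + 1], ?_, ?_, ?_, ?_⟩
  · simp only [dot, hl2, hp] at h1 ⊢
    simp
    linarith
  · simp only [dot, hl2, hq] at h2 ⊢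
    simp
    linarith
  · simp only [dot, hl2, hv] at h3 ⊢
    simp
    linarith
  · intro a
    have := hK' a
    simp only [dot, hl2, hn2] at this ⊢
    simp
    linarith

private theorem ffv_dt3 {a b c : H} (ha : a 2 = 0) (hb : b 2 = 0) (hc : c 2 = 1) :
    dt a b c = d2 a b := by
  simp only [dt, d2, ha, hb, hc]; ring

private theorem ffv_dot_cont {ι : Type} {l : Filter ι} {a : ι → H} {a₀ : H} (w : H)
    (ha : Tendsto a l (𝓝 a₀)) : Tendsto (fun s => dot w (a s)) l (𝓝 (dot w a₀)) := by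
  have ha' := tendsto_pi_nhds.1 ha
  unfold dot
  exact (((ha' 0).const_mul (w 0)).add ((ha' 1).const_mul (w 1))).add ((ha' 2).const_mul (w 2))

theorem ff_valid [Finite V] [Finite N] {C : Pic V N Empty Unit} (hC : C.Ok)
    (hf : ∀ i, ∃ a b, C.opp (inl (.o () i)) = inr (a, b)) {M : Lab N Empty Unit H} (hN : Norm M)
    {D : ZMod 4 → H} {d : H} (hF : Flat D) (hd2 : d 2 = 0)
    (hM : M.o () 0 = d ∧ M.o () 1 = D 1 ∧ M.o () 2 = D 2 ∧ M.o () 3 = d)
    (hV : C.Valid (fun _ => only 3) M.at)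
    (h1 : 0 < d2 (D 3) d) (h2 : 0 < d2 (D 2) d) (h3 : 0 < d2 d (D 0)) (h4 : 0 < d2 d (D 1))
    {sh : ZMod 4 → Prop} (h : (sh = no ∧ Pos D) ∨ (sh = only 0 ∧ Pos1 0 D) ∨
      (sh = only 2 ∧ Pos1 2 D)) :
    ∀ᶠ s in 𝓝[>] (0 : ℝ), (ffP C).Valid (fun _ => sh) (ffL M D d s).at := by
  have h30 : 0 < d2 (D 3) (D 0) := by
    rcases h with ⟨-, -, h⟩ | ⟨-, -, -, h⟩ | ⟨-, -, -, h⟩
    · exact h 3
    · exact h 3 (by decide)
    · exact h 3 (by decide)
  -- the separation of the outer points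
  have h01 : ¬ SameNode (fun _ => sh) (inl (.o () 0) : Bead V N Unit Unit) (inl (.o () 1)) →
      d2 (D 1) (D 0) < 0 := by
    intro hs
    have e : 0 < d2 (D 0) (D 1) := by
      rcases h with ⟨-, -, h⟩ | ⟨hh, -⟩ | ⟨-, -, -, h⟩
      · exact h 0
      · exact absurd ⟨rfl, Or.inr (Or.inl ⟨rfl, by rw [hh]; rfl⟩)⟩ hs
      · exact h 0 (by decide)
    rw [d2_swap] at e
    linarith
  have h32 : ¬ SameNode (fun _ => sh) (inl (.o () 3) : Bead V N Unit Unit) (inl (.o () 2)) →
      d2 (D 3) (D 2) < 0 := by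
    intro hs
    have e : 0 < d2 (D 2) (D 3) := by
      rcases h with ⟨-, -, h⟩ | ⟨-, -, -, h⟩ | ⟨hh, -⟩
      · exact h 2
      · exact h 2 (by decide)
      · exact absurd ⟨rfl, Or.inr (Or.inr ⟨rfl, by rw [hh]; rfl⟩)⟩ hs
    rw [d2_swap] at e
    linarith
  have h20 : d2 d (D 2) < 0 := by rw [d2_swap]; linarith
  have h13 : d2 (D 1) d < 0 := by rw [d2_swap]; linarith
  -- the point of the big vertex
  have hX : Tendsto (fun s : ℝ => (![d 0, d 1, s] : H)) (𝓝[>] 0) (𝓝 d) := by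
    refine tendsto_pi_nhds.2 fun i => ?_
    fin_cases i
    · exact tendsto_const_nhds
    · exact tendsto_const_nhds
    · show Tendsto (fun s : ℝ => s) (𝓝[>] 0) (𝓝 (d 2))
      rw [hd2]
      exact tendsto_nhdsWithin_of_tendsto_nhds tendsto_id
  -- the left picture
  have ev0 : ∀ᶠ s in 𝓝[>] (0 : ℝ),
      C.Valid (fun _ => only 3) (ffvp (V := V) M D ![d 0, d 1, s]) := by
    refine hV.eventually hC fun b hb => ?_
    rcases b with (_ | ⟨e, _⟩ | ⟨⟨⟩, i⟩) | ⟨a, c⟩
    · exact hb.elim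
    · exact e.elim
    · rcases ffv_four i with rfl | rfl | rfl | rfl
      · have e : ∀ s : ℝ, ffvp (V := V) M D ![d 0, d 1, s] (inl (.o () 0)) = ![d 0, d 1, s] := by
          intro s
          simp [ffvp]
        simp only [e]
        show Tendsto _ _ (𝓝 (M.o () 0))
        rw [hM.1]
        exact hX
      · have e : ∀ s : ℝ, ffvp (V := V) M D ![d 0, d 1, s] (inl (.o () 1)) = D 1 := by
          intro s
          simp only [ffvp]
          rw [if_neg (by decide), if_neg (by decide)]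
        simp only [e]
        show Tendsto _ _ (𝓝 (M.o () 1))
        rw [hM.2.1]
        exact tendsto_const_nhds
      · have e : ∀ s : ℝ, ffvp (V := V) M D ![d 0, d 1, s] (inl (.o () 2)) = D 2 := by
          intro s
          simp only [ffvp]
          rw [if_neg (by decide), if_neg (by decide)]
        simp only [e]
        show Tendsto _ _ (𝓝 (M.o () 2))
        rw [hM.2.2.1]
        exact tendsto_const_nhds
      · have e : ∀ s : ℝ, ffvp (V := V) M D ![d 0, d 1, s] (inl (.o () 3)) = ![d 0, d 1, s] := by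
          intro s
          exact ffv_p3 M D _
        simp only [e]
        show Tendsto _ _ (𝓝 (M.o () 3))
        rw [hM.2.2.2]
        exact hX
    · exact tendsto_const_nhds
  -- determinants
  have evdt : ∀ a b c : ℝ → H, ∀ a₀ b₀ c₀ : H, Tendsto a (𝓝[>] 0) (𝓝 a₀) →
      Tendsto b (𝓝[>] 0) (𝓝 b₀) → Tendsto c (𝓝[>] 0) (𝓝 c₀) → 0 < dt a₀ b₀ c₀ →
      ∀ᶠ s in 𝓝[>] (0 : ℝ), 0 < dt (a s) (b s) (c s) := by
    intro a b c a₀ b₀ c₀ ha hb hc h0
    exact (continuous_dt ha hb hc).eventually (lt_mem_nhds h0)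
  obtain ⟨a0, b0, hab0⟩ := hf 0
  obtain ⟨a1, b1, hab1⟩ := hf 1
  obtain ⟨a2, b2, hab2⟩ := hf 2
  obtain ⟨a3, b3, hab3⟩ := hf 3
  have ev1 : ∀ᶠ s in 𝓝[>] (0 : ℝ), 0 < dt ![d 0, d 1, s] (D 0) (M.n a0) :=
    evdt _ _ _ _ _ _ hX tendsto_const_nhds tendsto_const_nhds
      (by rw [ffv_dt3 hd2 (hF 0) (hN.n a0)]; exact h3)
  have ev2 : ∀ᶠ s in 𝓝[>] (0 : ℝ), 0 < dt ![d 0, d 1, s] (M.n a3) (D 3) :=
    evdt _ _ _ _ _ _ hX tendsto_const_nhds tendsto_const_nhds
      (by rw [dt_cyc', ffv_dt3 (hF 3) hd2 (hN.n a3)]; exact h1)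
  have ev3 : ∀ᶠ s in 𝓝[>] (0 : ℝ), 0 < dt (D 0) (M.n a1) ![d 0, d 1, s] :=
    evdt _ _ _ _ _ _ tendsto_const_nhds tendsto_const_nhds hX
      (by rw [dt_cyc', ffv_dt3 hd2 (hF 0) (hN.n a1)]; exact h3)
  have ev4 : ∀ᶠ s in 𝓝[>] (0 : ℝ), 0 < dt (D 2) ![d 0, d 1, s] (M.n a2) :=
    evdt _ _ _ _ _ _ tendsto_const_nhds hX tendsto_const_nhds
      (by rw [ffv_dt3 (hF 2) hd2 (hN.n a2)]; exact h2)
  -- functionals
  have evl : ∀ p q v : H, (p = d ∨ q = d) → p 2 = 0 → q 2 = 0 → v 2 = 0 → 0 < d2 p q →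
      (d2 p v < 0 ∨ d2 v q < 0) → ∀ᶠ s in 𝓝[>] (0 : ℝ), ∃ l : H, dot l ![d 0, d 1, s] < 0 ∧
        dot l p < 0 ∧ dot l q < 0 ∧ 0 < dot l v ∧ ∀ a, 0 < dot l (M.n a) := by
    intro p q v hpq hp hq hv hpos hn
    obtain ⟨l, g1, g2, g3, g4⟩ := ffv_func hp hq hv hpos
      (by rintro ⟨k1, k2⟩; rcases hn with hn | hn <;> linarith) hN.n
    have hd : dot l d < 0 := by
      rcases hpq with rfl | rfl
      · exact g1
      · exact g2
    filter_upwards [(ffv_dot_cont l hX).eventually (gt_mem_nhds hd)] with s hs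
    exact ⟨l, hs, g1, g2, g3, g4⟩
  have ev5 := evl d (D 0) (D 2) (Or.inl rfl) hd2 (hF 0) (hF 2) h3 (Or.inl h20)
  have ev6 := fun (hs : ¬ SameNode (fun _ => sh) (inl (.o () 0) : Bead V N Unit Unit)
      (inl (.o () 1))) => evl d (D 0) (D 1) (Or.inl rfl) hd2 (hF 0) (hF 1) h3 (Or.inr (h01 hs))
  have ev7 := evl (D 3) d (D 1) (Or.inr rfl) (hF 3) hd2 (hF 1) h1 (Or.inr h13)
  have ev8 := fun (hs : ¬ SameNode (fun _ => sh) (inl (.o () 3) : Bead V N Unit Unit)
      (inl (.o () 2))) => evl (D 3) d (D 2) (Or.inr rfl) (hF 3) hd2 (hF 2) h1 (Or.inl (h32 hs))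
  have ev6' := eventually_imp_distrib_left.2 ev6
  have ev8' := eventually_imp_distrib_left.2 ev8
  filter_upwards [ev0, ev1, ev2, ev3, ev4, ev5, ev6', ev7, ev8', self_mem_nhdsWithin]
    with s hv g1 g2 g3 g4 g5 g6 g7 g8 hs
  have hs : 0 < s := hs
  have hok := ff_ok hC hf
  set x : H := ![d 0, d 1, s] with hx
  suffices hq : (ffP C).Valid (fun _ => sh) (ffvq M D x) by
    refine hq.scale hok (k := fun b => match b with
      | inl (.f _ _) => 1 / s
      | _ => 1) ?_ ?_
    · intro b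
      rcases b with (_ | _ | _) | _
      · exact one_pos
      · exact one_div_pos.2 hs
      · exact one_pos
      · exact one_pos
    · intro b
      rcases b with (_ | ⟨⟨⟩, i⟩ | _) | _
      · exact (smul_zero _).symm
      · show (![d 0 / s, d 1 / s, 1] : H) = (1 / s) • x
        rw [hx]
        ext i
        fin_cases i
        · show d 0 / s = 1 / s * d 0
          ring
        · show d 1 / s = 1 / s * d 1
          ring
        · show (1 : ℝ) = 1 / s * s
          field_simp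
      · exact (one_smul _ _).symm
      · exact (one_smul _ _).symm
  -- opposite ends
  have o0 : (ffP C).opp (inl (.f () 1)) = inr (a0, b0) := by
    rw [← ffv_rl_o0, ff_opp_rl hC (e := inl (.o () 0)) trivial, hab0]; rfl
  have o3 : (ffP C).opp (inl (.f () 2)) = inr (a3, b3) := by
    rw [← ffv_rl_o3, ff_opp_rl hC (e := inl (.o () 3)) trivial, hab3]; rfl
  have o1 : (ffP C).opp (inl (.o () 1)) = inr (a1, b1) := by
    rw [← ffv_rl_o1, ff_opp_rl hC (e := inl (.o () 1)) trivial, hab1]; rfl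
  have o2 : (ffP C).opp (inl (.o () 2)) = inr (a2, b2) := by
    rw [← ffv_rl_o2, ff_opp_rl hC (e := inl (.o () 2)) trivial, hab2]; rfl
  have hkap : ∀ v i, (ffP C).kap (ffvq M D x) v i = C.kap (ffvp M D x) v i := by
    intro v i
    show dt (ffvq M D x (rl _)) (ffvq M D x (rl _)) (ffvq M D x (rl _)) = _
    rw [ffv_q_rl, ffv_q_rl, ffv_q_rl]
    rfl
  refine ⟨?_, ?_, ?_, ?_, ?_, ?_⟩
  · intro v i
    rw [hkap]
    exact hv.cr v i
  · intro v i w j hadj
    rw [hkap, hkap, hkap, hkap]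
    exact hv.ord v i w j (ffv_rl_x hadj)
  · intro a
    have e1 : (inr (a, true) : Bead V N Unit Unit) = rl (inr (a, true)) := rfl
    have e2 : (inr (a, false) : Bead V N Unit Unit) = rl (inr (a, false)) := rfl
    rw [e1, e2, ff_opp_rl hC (e := inr (a, true)) trivial,
      ff_opp_rl hC (e := inr (a, false)) trivial, ffv_q_rl, ffv_q_rl, ffv_q_rl]
    exact hv.bend a
  · rintro ⟨⟩ i
    rcases ffv_four i with rfl | rfl | rfl | rfl
    · rw [show (0 : ZMod 4) + 1 = 1 from rfl, ff_opp_f0, o0]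
      exact g1
    · rw [show (1 : ZMod 4) + 1 = 2 from rfl, o0, o3]
      have := hv.shr () 3 rfl
      rw [show (3 : ZMod 4) + 1 = 0 from rfl, hab0, hab3] at this
      rw [ffv_p3] at this
      exact this
    · rw [show (2 : ZMod 4) + 1 = 3 from rfl, ff_opp_f3, o3]
      exact g2
    · rw [show (3 : ZMod 4) + 1 = 0 from rfl, ff_opp_f3, ff_opp_f0]
      show 0 < dt x (D 3) (D 0)
      have e : dt x (D 3) (D 0) = s * d2 (D 3) (D 0) := by
        have e2 : x 2 = s := rfl
        simp only [dt, d2, e2, hF 3, hF 0]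
        ring
      rw [e]
      exact mul_pos hs h30
  · rintro ⟨⟩ i hi
    rcases h with ⟨hh, -⟩ | ⟨hh, -⟩ | ⟨hh, -⟩
    · rw [hh] at hi
      exact hi.elim
    · rw [hh] at hi
      have hi : i = 0 := hi
      subst hi
      rw [show (0 : ZMod 4) + 1 = 1 from rfl, ff_opp_o0, o1]
      exact g3
    · rw [hh] at hi
      have hi : i = 2 := hi
      subst hi
      rw [show (2 : ZMod 4) + 1 = 3 from rfl, ff_opp_o3, o2]
      exact g4
  · -- the new sticks against the old ones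
    have key0 : ∀ c : Bead V N Empty Unit, IsEnd c →
        (ffP C).Apart (fun _ => sh) (inl (.f () 0)) (rl c) →
        Sep (ffvq (V := V) M D x (inl (.f () 0))) (ffvq M D x ((ffP C).opp (inl (.f () 0))))
          (ffvq M D x (rl c)) (ffvq M D x ((ffP C).opp (rl c))) := by
      intro c hc hap
      refine ffv_sep_new hC hf (ff_opp_f0 C) ?_ ?_ hc hap
      · rintro j (rfl | rfl) hj
        · obtain ⟨l, k1, k2, k3, k4, k5⟩ := g6 hj
          exact ⟨l, k1, k3, k4, k5⟩
        · obtain ⟨l, k1, k2, k3, k4, k5⟩ := g5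
          exact ⟨l, k1, k3, k4, k5⟩
      · obtain ⟨l, k1, k2, k3, k4, k5⟩ := g5
        exact ⟨l, k1, k3, k5⟩
    have key3 : ∀ c : Bead V N Empty Unit, IsEnd c →
        (ffP C).Apart (fun _ => sh) (inl (.f () 3)) (rl c) →
        Sep (ffvq (V := V) M D x (inl (.f () 3))) (ffvq M D x ((ffP C).opp (inl (.f () 3))))
          (ffvq M D x (rl c)) (ffvq M D x ((ffP C).opp (rl c))) := by
      intro c hc hap
      refine ffv_sep_new hC hf (ff_opp_f3 C) ?_ ?_ hc hap
      · rintro j (rfl | rfl) hj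
        · obtain ⟨l, k1, k2, k3, k4, k5⟩ := g7
          exact ⟨l, k1, k2, k4, k5⟩
        · obtain ⟨l, k1, k2, k3, k4, k5⟩ := g8 hj
          exact ⟨l, k1, k2, k4, k5⟩
      · obtain ⟨l, k1, k2, k3, k4, k5⟩ := g7
        exact ⟨l, k1, k2, k5⟩
    have keyn : ∀ e : Bead V N Unit Unit, (e = inl (.f () 0) ∨ e = inl (.o () 0) ∨
        e = inl (.f () 3) ∨ e = inl (.o () 3)) → ∀ c : Bead V N Empty Unit, IsEnd c →
        (ffP C).Apart (fun _ => sh) e (rl c) →
        Sep (ffvq M D x e) (ffvq M D x ((ffP C).opp e))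
          (ffvq M D x (rl c)) (ffvq M D x ((ffP C).opp (rl c))) := by
      rintro e (rfl | rfl | rfl | rfl) c hc hap
      · exact key0 c hc hap
      · have hap2 := ffv_apart_left hok (e := inl (.o () 0)) trivial hap
        rw [ff_opp_o0] at hap2
        have h5 := key0 c hc hap2
        rw [ff_opp_f0] at h5
        rw [ff_opp_o0]
        exact h5.left
      · exact key3 c hc hap
      · have hap2 := ffv_apart_left hok (e := inl (.o () 3)) trivial hap
        rw [ff_opp_o3] at hap2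
        have h5 := key3 c hc hap2
        rw [ff_opp_f3] at h5
        rw [ff_opp_o3]
        exact h5.left
    -- two new sticks are never apart
    have keyx : ∀ e e' : Bead V N Unit Unit, (e = inl (.f () 0) ∨ e = inl (.o () 0) ∨
        e = inl (.f () 3) ∨ e = inl (.o () 3)) → (e' = inl (.f () 0) ∨ e' = inl (.o () 0) ∨
        e' = inl (.f () 3) ∨ e' = inl (.o () 3)) → ¬ (ffP C).Apart (fun _ => sh) e e' := by
      rintro e e' he he' ⟨k1, k2, k3, k4, -⟩
      rcases he with rfl | rfl | rfl | rfl <;> rcases he' with rfl | rfl | rfl | rfl <;>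
        simp only [ff_opp_f0, ff_opp_f3, ff_opp_o0, ff_opp_o3, SameNode] at k1 k2 k3 k4 <;>
        simp at k1 k2 k3 k4
    intro e e' he he' hap
    rcases ffv_ends he with ⟨c, hc, rfl⟩ | hn
    · rcases ffv_ends he' with ⟨c', hc', rfl⟩ | hn'
      · exact ffv_sep_old hC hv hc hc' hap
      · exact (keyn e' hn' c hc (ffv_apart_symm hap)).symm
    · rcases ffv_ends he' with ⟨c', hc', rfl⟩ | hn'
      · exact keyn e hn c' hc' hap
      · exact absurd hap (keyx e e' hn hn')

end SN78
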