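import Mathlib

/-!
# Polygons in space with a given diagram

A knot or link diagram is given combinatorially: a finite set `W` of crossings, each with four darts
(ends of edges) numbered by `ZMod 4` counterclockwise, the involution `σ` of the darts `W × ZMod 4`
which pairs the two ends of each edge, and `ov v : Bool`, which says whether the strand through the
darts `0, 2` of the crossing `v` is above the strand through the darts `1, 3`.
-/

namespace SN78

/-- points of space -/
abbrev Pt := Fin 3 → ℝ

/-- orthogonal projection to the plane -/
def pr (p : Pt) : Fin 2 → ℝ := ![p 0, p 1]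

/-- the beads of a polygon: crossing darts and the two sides of each vertex of the polygon -/
abbrev PB (W N : Type) := (W × ZMod 4) ⊕ (N × Bool)

/-- following the polygon from the bead `b` along the piece which starts there, and through vertices
of the polygon, the first crossing is met at the dart `d` -/
inductive Leads {W N : Type} (adj : PB W N → PB W N) : PB W N → W × ZMod 4 → Prop
  | here {b d} : adj b = .inl d → Leads adj b d
  | bend {b a c d} : adj b = .inr (a, c) → Leads adj (.inr (a, !c)) d → Leads adj b d

/-- the point of a bead: `Q v i` for the dart `i` of the crossing `v`, `Z a` for the vertex `a` -/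
def bpt {W N : Type} (Z : N → Pt) (Q : W → ZMod 4 → Pt) : PB W N → Pt
  | .inl (v, i) => Q v i
  | .inr (a, _) => Z a

/-- two beads at the same crossing or at the same vertex -/
def SameSite {W N : Type} : PB W N → PB W N → Prop
  | .inl (v, _), .inl (w, _) => v = w
  | .inr (a, _), .inr (b, _) => a = b
  | _, _ => False

/-- A closed polygonal curve (or link) in space with the vertices `Z a`, `a : N`, whose projection has
the diagram `(σ, ov)`.  `adj` pairs the beads which are joined by a straight piece of the curve.  So
the curve is the union of the segments from `bpt b` to `bpt (adj b)`; it goes straight through each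
crossing (`straight`), its only vertices are the points `Z a`; it has exactly as many edges as
vertices.  The two strands at a crossing have the same projection (`proj`) and different heights
(`height`); the projections of the four pieces at a crossing are in counterclockwise order
(`orient`); the projection has no other multiple points (`simple`, `nondeg`).  The dart `d` is
joined with the dart `σ d` (`reach`) and there are no components without crossings (`cover`). -/
structure IsPolygonOf {W N : Type} (σ : W × ZMod 4 → W × ZMod 4) (ov : W → Bool)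
    (Z : N → Pt) (Q : W → ZMod 4 → Pt) (adj : PB W N → PB W N) : Prop where
  inv : ∀ b, adj (adj b) = b
  ne : ∀ b, adj b ≠ b
  opp : ∀ v i, Q v (i + 2) = Q v i
  proj : ∀ v i, pr (Q v (i + 1)) = pr (Q v i)
  height : ∀ v, if ov v then Q v 1 2 < Q v 0 2 else Q v 0 2 < Q v 1 2
  straight : ∀ v i, Q v i ∈
    openSegment ℝ (bpt Z Q (adj (.inl (v, i)))) (bpt Z Q (adj (.inl (v, i + 2))))
  orient : ∀ v i, 0 <
    (bpt Z Q (adj (.inl (v, i))) 0 - Q v i 0) * (bpt Z Q (adj (.inl (v, i + 1))) 1 - Q v i 1) -
    (bpt Z Q (adj (.inl (v, i))) 1 - Q v i 1) * (bpt Z Q (adj (.inl (v, i + 1))) 0 - Q v i 0)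
  nondeg : ∀ b, pr (bpt Z Q b) ≠ pr (bpt Z Q (adj b))
  simple : ∀ b c, c ≠ b → c ≠ adj b → ∀ x : Fin 2 → ℝ,
    x ∈ segment ℝ (pr (bpt Z Q b)) (pr (bpt Z Q (adj b))) →
    x ∈ segment ℝ (pr (bpt Z Q c)) (pr (bpt Z Q (adj c))) →
    ∃ b' c', (b' = b ∨ b' = adj b) ∧ (c' = c ∨ c' = adj c) ∧ SameSite b' c' ∧
      x = pr (bpt Z Q b')
  reach : ∀ d, Leads adj (.inl d) (σ d)
  cover : ∀ a c, ∃ d, Leads adj (.inr (a, c)) d

/-- the diagram `(σ, ov)` is the diagram of a polygon in space with exactly `n` edges -/
def HasPolygon {W : Type} (σ : W × ZMod 4 → W × ZMod 4) (ov : W → Bool) (n : ℕ) : Prop :=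
  ∃ (N : Type) (_ : Fintype N) (Z : N → Pt) (Q : W → ZMod 4 → Pt) (adj : PB W N → PB W N),
    Fintype.card N = n ∧ IsPolygonOf σ ov Z Q adj

end SN78
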