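import Pool.Agent.SN78.Open
import Pool.Agent.SN78.Poly

/-!
# SN78 module FINDEFS: closed pictures, parameters on the sticks, points in space

`P : Pic W N Empty Empty` is a closed picture.  A bead `b` starts a piece of stick which goes from `b`
to `adj b`.  The stick, oriented in this direction, starts at the end `base b` and ends at
`P.opp (base b)`.  `st b` is the parameter (in `[0, 1)`) of the bead `b` on this oriented stick.
The parameter of `adj b` on the same oriented stick is `1 - st (adj b)`.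

`base_adj`: cases: both ends: `opp b = adj b`; `b` end, `adj b = x w j`: `base (adj b) = ed w (j + 2)
= opp b` (definition of `opp`); `b = x v i`, `adj b` an end: `ed v i = adj b` (`ed_e`), and
`opp (base b) = opp (ed v (i + 2)) = ed v (i + 4)`; both crossings: `ed_x`.
`st_lt`: if both are crossings this is `ord`; if one is an end, `st` of an end is `0` and `st` of a
crossing dart is in `(0, 1)`.
`qp_add_two`: symmetric formula.  `qp_eq`: the two strands of a crossing have the same projection:
`plucker` with the functionals of the coordinates, and `κ 0 + κ 2 = κ 1 + κ 3` (third coordinate).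
-/

namespace SN78

open Sum

section
variable {W N : Type}

/-- the starting end of the oriented stick of the piece which starts at `b` -/
def base (P : Pic W N Empty Empty) : Bead W N Empty Empty → Bead W N Empty Empty
  | inl (.x v i) => P.ed v (i + 2)
  | b => b

/-- the parameter of the bead on its oriented stick -/
noncomputable def st (P : Pic W N Empty Empty) (L : Lab N Empty Empty H) :
    Bead W N Empty Empty → ℝ
  | inl (.x v i) => P.kap L.at v (i + 2) / (P.kap L.at v i + P.kap L.at v (i + 2))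
  | _ => 0

/-- the point in space of a stick end -/
noncomputable def pt3 (L : Lab N Empty Empty H) (z : Lab N Empty Empty ℝ)
    (e : Bead W N Empty Empty) : Pt :=
  ![L.at e 0, L.at e 1, z.at e]

/-- the point in space of the strand `i, i + 2` at the crossing `v` -/
noncomputable def qp (P : Pic W N Empty Empty) (L : Lab N Empty Empty H)
    (z : Lab N Empty Empty ℝ) (v : W) (i : ZMod 4) : Pt :=
  (P.kap L.at v i + P.kap L.at v (i + 2))⁻¹ •
    (P.kap L.at v (i + 2) • pt3 L z (P.ed v i) + P.kap L.at v i • pt3 L z (P.ed v (i + 2)))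

/-- the point in space of a bead -/
noncomputable def bp (P : Pic W N Empty Empty) (L : Lab N Empty Empty H)
    (z : Lab N Empty Empty ℝ) : Bead W N Empty Empty → Pt
  | inl (.x v i) => qp P L z v i
  | b => pt3 L z b

variable {P : Pic W N Empty Empty} {L : Lab N Empty Empty H} {sh : Empty → ZMod 4 → Prop}

private theorem findefs_add4 (i : ZMod 4) : i + 2 + 2 = i := by
  revert i; decide

private theorem findefs_at2 (hN : Norm L) (hV : P.Valid sh L.at) (v : W) (i : ZMod 4) :
    L.at (P.ed v i) 2 = 1 := by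
  have h := hV.cr v i
  unfold Pic.kap at h
  rcases hb : P.ed v i with (⟨w, j⟩ | ⟨a, j⟩ | ⟨a, j⟩) | ⟨a, c⟩
  · rw [hb] at h
    simp [Lab.at, dt] at h
  · exact a.elim
  · exact a.elim
  · exact hN.n a

theorem base_end (hP : P.Ok) (b : Bead W N Empty Empty) : IsEnd (base P b) := by
  rcases b with (⟨v, i⟩ | ⟨a, i⟩ | ⟨a, i⟩) | ⟨a, c⟩
  · exact hP.ed_end v (i + 2)
  · exact a.elim
  · exact a.elim
  · trivial

theorem base_adj (hP : P.Ok) (b : Bead W N Empty Empty) :
    base P (P.adj b) = P.opp (base P b) := by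
  rcases b with (⟨v, i⟩ | ⟨a, i⟩ | ⟨a, i⟩) | ⟨a, c⟩
  · have h1 : P.opp (base P (inl (.x v i))) = P.ed v i := by
      change P.opp (P.ed v (i + 2)) = P.ed v i
      rw [hP.opp_ed, findefs_add4]
    rw [h1]
    rcases h : P.adj (inl (.x v i)) with (⟨w, j⟩ | ⟨a, j⟩ | ⟨a, j⟩) | ⟨a, c⟩
    · exact (hP.ed_x v i w j h).symm
    · exact a.elim
    · exact a.elim
    · have h2 := hP.ed_e v i (by rw [h]; trivial)
      rw [h2, h]
      rfl
  · exact a.elim
  · exact a.elim
  · change base P (P.adj (inr (a, c))) = P.opp (inr (a, c))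
    unfold Pic.opp
    rcases h : P.adj (inr (a, c)) with (⟨w, j⟩ | ⟨a, j⟩ | ⟨a, j⟩) | ⟨a, c⟩
    · rfl
    · exact a.elim
    · exact a.elim
    · rfl

private theorem findefs_stx (v : W) (i : ZMod 4) : st P L (inl (.x v i)) =
    P.kap L.at v (i + 2) / (P.kap L.at v i + P.kap L.at v (i + 2)) := rfl

private theorem findefs_stx' (hV : P.Valid sh L.at) (v : W) (i : ZMod 4) :
    1 - st P L (inl (.x v i)) = P.kap L.at v i / (P.kap L.at v i + P.kap L.at v (i + 2)) := by
  have h1 := hV.cr v i
  have h2 := hV.cr v (i + 2)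
  rw [findefs_stx]
  field_simp
  ring

theorem st_nonneg (hV : P.Valid sh L.at) (b : Bead W N Empty Empty) : 0 ≤ st P L b := by
  rcases b with (⟨v, i⟩ | ⟨a, i⟩ | ⟨a, i⟩) | ⟨a, c⟩
  · have h1 := hV.cr v i
    have h2 := hV.cr v (i + 2)
    rw [findefs_stx]
    positivity
  · exact a.elim
  · exact a.elim
  · exact le_refl 0

theorem st_pos (hV : P.Valid sh L.at) (v : W) (i : ZMod 4) :
    0 < st P L (inl (.x v i)) := by
  have h1 := hV.cr v i
  have h2 := hV.cr v (i + 2)
  rw [findefs_stx]
  positivity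

theorem st_add_two (hV : P.Valid sh L.at) (v : W) (i : ZMod 4) :
    st P L (inl (.x v (i + 2))) = 1 - st P L (inl (.x v i)) := by
  rw [findefs_stx' hV, findefs_stx, findefs_add4, add_comm (P.kap L.at v (i + 2))]

private theorem findefs_lt1 (hV : P.Valid sh L.at) (b : Bead W N Empty Empty) :
    st P L b < 1 := by
  rcases b with (⟨v, i⟩ | ⟨a, i⟩ | ⟨a, i⟩) | ⟨a, c⟩
  · have h1 := hV.cr v i
    have h2 := hV.cr v (i + 2)
    have h3 : 0 < 1 - st P L (inl (.x v i)) := by
      rw [findefs_stx' hV]
      positivity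
    linarith
  · exact a.elim
  · exact a.elim
  · exact one_pos

theorem st_lt (hP : P.Ok) (hV : P.Valid sh L.at) (b : Bead W N Empty Empty) :
    st P L b < 1 - st P L (P.adj b) := by
  rcases b with (⟨v, i⟩ | ⟨a, i⟩ | ⟨a, i⟩) | ⟨a, c⟩
  · rcases h : P.adj (inl (.x v i)) with (⟨w, j⟩ | ⟨a, j⟩ | ⟨a, j⟩) | ⟨a, c⟩
    · have h0 := hV.ord v i w j h
      have h1 := hV.cr v i
      have h2 := hV.cr v (i + 2)
      have h3 := hV.cr w j
      have h4 := hV.cr w (j + 2)
      rw [findefs_stx' hV, findefs_stx, div_lt_div_iff₀ (by positivity) (by positivity)]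
      nlinarith
    · exact a.elim
    · exact a.elim
    · have h1 : st P L (inr (a, c)) = 0 := rfl
      rw [h1, sub_zero]
      exact findefs_lt1 hV _
  · exact a.elim
  · exact a.elim
  · have h1 : st P L (inr (a, c)) = 0 := rfl
    rw [h1]
    have := findefs_lt1 (P := P) (L := L) hV (P.adj (inr (a, c)))
    linarith

/-- the bead lies on its stick at the parameter `st` -/
theorem bp_eq (hP : P.Ok) (hV : P.Valid sh L.at) (z : Lab N Empty Empty ℝ)
    (b : Bead W N Empty Empty) :
    bp P L z b = (1 - st P L b) • pt3 L z (base P b) + st P L b • pt3 L z (P.opp (base P b)) := by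
  rcases b with (⟨v, i⟩ | ⟨a, i⟩ | ⟨a, i⟩) | ⟨a, c⟩
  · have h1 : P.opp (base P (inl (.x v i))) = P.ed v i := by
      change P.opp (P.ed v (i + 2)) = P.ed v i
      rw [hP.opp_ed, findefs_add4]
    rw [h1, findefs_stx' hV, findefs_stx]
    change qp P L z v i = _ • pt3 L z (P.ed v (i + 2)) + _
    unfold qp
    rw [smul_add, smul_smul, smul_smul, add_comm]
    congr 2
    · rw [div_eq_inv_mul]
    · rw [div_eq_inv_mul]
  · exact a.elim
  · exact a.elim
  · have h1 : st P L (inr (a, c)) = 0 := rfl
    rw [h1, sub_zero, one_smul, zero_smul, add_zero]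
    rfl

theorem qp_add_two (z : Lab N Empty Empty ℝ) (v : W) (i : ZMod 4) :
    qp P L z v (i + 2) = qp P L z v i := by
  unfold qp
  rw [findefs_add4, add_comm (P.kap L.at v (i + 2)), add_comm (P.kap L.at v i • _)]

private theorem findefs_kap (v : W) (i : ZMod 4) :
    P.kap L.at v i = dt (L.at (P.ed v (i + 3))) (L.at (P.ed v i)) (L.at (P.ed v (i + 1))) ∧
    P.kap L.at v (i + 1) = dt (L.at (P.ed v i)) (L.at (P.ed v (i + 1))) (L.at (P.ed v (i + 2))) ∧
    P.kap L.at v (i + 2) =
      dt (L.at (P.ed v (i + 1))) (L.at (P.ed v (i + 2))) (L.at (P.ed v (i + 3))) ∧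
    P.kap L.at v (i + 3) = dt (L.at (P.ed v (i + 2))) (L.at (P.ed v (i + 3))) (L.at (P.ed v i)) := by
  have e1 : i + 1 + 3 = i := by revert i; decide
  have e2 : i + 1 + 1 = i + 2 := by revert i; decide
  have e3 : i + 2 + 3 = i + 1 := by revert i; decide
  have e4 : i + 2 + 1 = i + 3 := by revert i; decide
  have e5 : i + 3 + 3 = i + 2 := by revert i; decide
  have e6 : i + 3 + 1 = i := by revert i; decide
  refine ⟨rfl, ?_, ?_, ?_⟩
  · unfold Pic.kap; rw [e1, e2]
  · unfold Pic.kap; rw [e3, e4]
  · unfold Pic.kap; rw [e5, e6]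

private theorem findefs_plucker (l : H) (v : W) (i : ZMod 4) :
    P.kap L.at v (i + 2) * dot l (L.at (P.ed v i)) + P.kap L.at v i * dot l (L.at (P.ed v (i + 2))) =
    P.kap L.at v (i + 3) * dot l (L.at (P.ed v (i + 1))) +
      P.kap L.at v (i + 1) * dot l (L.at (P.ed v (i + 3))) := by
  obtain ⟨h0, h1, h2, h3⟩ := findefs_kap (P := P) (L := L) v i
  rw [h0, h1, h2, h3]
  exact plucker l _ _ _ _

private theorem findefs_sum (hN : Norm L) (hV : P.Valid sh L.at) (v : W) (i : ZMod 4) :
    P.kap L.at v (i + 1) + P.kap L.at v (i + 3) = P.kap L.at v i + P.kap L.at v (i + 2) := by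
  have h := findefs_plucker (P := P) (L := L) ![0, 0, 1] v i
  simp only [dot] at h
  simp [findefs_at2 hN hV] at h
  linarith

theorem qp_proj (hN : Norm L) (hV : P.Valid sh L.at) (z : Lab N Empty Empty ℝ) (v : W)
    (i : ZMod 4) : pr (qp P L z v (i + 1)) = pr (qp P L z v i) := by
  have e1 : i + 1 + 2 = i + 3 := by revert i; decide
  have h0 := findefs_plucker (P := P) (L := L) ![1, 0, 0] v i
  have h1 := findefs_plucker (P := P) (L := L) ![0, 1, 0] v i
  simp only [dot] at h0 h1
  simp at h0 h1
  unfold qp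
  rw [e1, findefs_sum hN hV]
  ext c
  fin_cases c
  · simp [pr, pt3]
    left
    linarith
  · simp [pr, pt3]
    left
    linarith

theorem qp_height (hN : Norm L) (hV : P.Valid sh L.at) (z : Lab N Empty Empty ℝ) (v : W) :
    qp P L z v 0 2 - qp P L z v 1 2 =
      P.row L.at z.at v / (P.kap L.at v 0 + P.kap L.at v 2) := by
  obtain ⟨h0, h1, h2, h3⟩ := findefs_kap (P := P) (L := L) v 0
  have hs := findefs_sum hN hV v 0
  simp only [zero_add] at h0 h1 h2 h3 hs
  have e1 : (1 : ZMod 4) + 2 = 3 := by decide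
  unfold qp
  rw [e1, zero_add, hs]
  simp only [Pi.smul_apply, Pi.add_apply, smul_eq_mul, pt3]
  simp only [Pic.row, rw4, ← h0, ← h1, ← h2, ← h3]
  simp
  rw [div_eq_inv_mul]
  ring

end

end SN78
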