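import Pool.Agent.SN78.FinDefs

/-!
# SN78 module FINLINE: pieces at a crossing; planar intersection facts

`fin_straight`: the piece from `x v i` goes to `adj (x v i)`; both lie on the stick from
`base (x v i) = ed v (i + 2)` to `ed v i` with parameters `st (x v i) < 1 - st (adj (x v i))`
(`bp_eq`, `base_adj`, `st_lt`), and the piece from `x v (i + 2)` goes in the other direction to the
parameter `st (adj (x v (i + 2))) < 1 - st (x v (i + 2)) = st (x v i)` (as parameter from `ed v (i + 2)`).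
So `qp v i` is strictly between the two points.
`fin_orient`: `bp (adj (x v i)) - qp v i` is a positive multiple of `P_i - P_{i+2}` (positions of
`ed v i`, `ed v (i + 2)` in the plane) and similarly for `i + 1`; and for `w`-coordinates 1
`d2 (P_i - P_{i+2}) (P_{i+1} - P_{i+3}) = κ i + κ (i + 2)`-like sum of two positive determinants:
`dt P_{i+2} P_i P_{i+1} + dt P_{i+2} P_{i+3} P_i > 0` (the quadrilateral is cut by the diagonal);
both are `κ`s: `dt P_{i+2} P_i P_{i+1} = dt P_i P_{i+1} P_{i+2} = κ (i + 1)`,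
`dt P_{i+2} P_{i+3} P_i = κ (i + 3)`.
`fin_nondeg`: the two ends of a stick have different projections (a stick with a crossing:
`κ > 0`; `P_i = P_{i+2}` would give `κ (i + 1) = 0`; a stick from `n a c` to `n a' c'` without
crossings: by `bend` at `a` the determinant is `0` if the positions of `a` and of the opposite end
agree), and the parameters `st b < 1 - st (adj b)` are different.
`sep_disj`: a functional positive on one segment and negative on the other.
`bend_inter`: if `(1 - s) X + s A = (1 - t) X + t B` then `s (A - X) = t (B - X)` and the determinant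
`dt X A B = d2 (A - X) (B - X) ≠ 0` gives `s = t = 0`.
`cross_inter`: if `(1 - s) P0 + s P2 = (1 - t) P1 + t P3`: apply `dt P1 P3 ·`:
`(1 - s) dt P1 P3 P0 + s dt P1 P3 P2 = 0` and `dt P1 P3 P0 = κ 0`, `dt P1 P3 P2 = - κ 2`; so
`s = κ 0 / (κ 0 + κ 2)`.
-/

namespace SN78

open Sum

variable {W N : Type} {P : Pic W N Empty Empty} {L : Lab N Empty Empty H}
  {sh : Empty → ZMod 4 → Prop}

private theorem fl_pr_pt3 (z : Lab N Empty Empty ℝ) (e : Bead W N Empty Empty) :
    pr (pt3 L z e) = ![L.at e 0, L.at e 1] := by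
  ext k; fin_cases k <;> simp [pr, pt3]

private theorem fl_at2 (e : Bead W N Empty Empty) (he : IsEnd e) (hN : Norm L) :
    L.at e 2 = 1 := by
  rcases e with (⟨v, i⟩ | ⟨a, i⟩ | ⟨a, i⟩) | ⟨a, c⟩
  · exact he.elim
  · exact a.elim
  · exact a.elim
  · exact hN.n a

private theorem fl_z4 (i : ZMod 4) : i + 2 + 2 = i := by
  have h : (2 : ZMod 4) + 2 = 0 := by decide
  rw [add_assoc, h, add_zero]

private theorem fl_base (P : Pic W N Empty Empty) (v : W) (i : ZMod 4) :
    base P (inl (.x v i)) = P.ed v (i + 2) := rfl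

/-- the crossing point as a point of its stick -/
private theorem fl_qp (hP : P.Ok) (hV : P.Valid sh L.at) (z : Lab N Empty Empty ℝ) (v : W)
    (i : ZMod 4) : qp P L z v i =
      (1 - st P L (inl (.x v i))) • pt3 L z (P.ed v (i + 2)) +
        st P L (inl (.x v i)) • pt3 L z (P.ed v i) := by
  have h := bp_eq hP hV z (inl (.x v i))
  rw [fl_base, hP.opp_ed, fl_z4] at h
  exact h

/-- the neighbour bead as a point of the same stick -/
private theorem fl_adj (hP : P.Ok) (hV : P.Valid sh L.at) (z : Lab N Empty Empty ℝ) (v : W)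
    (i : ZMod 4) : bp P L z (P.adj (inl (.x v i))) =
      st P L (P.adj (inl (.x v i))) • pt3 L z (P.ed v (i + 2)) +
        (1 - st P L (P.adj (inl (.x v i)))) • pt3 L z (P.ed v i) := by
  have h := bp_eq hP hV z (P.adj (inl (.x v i)))
  rw [base_adj hP, fl_base, hP.opp_ed, fl_z4, hP.opp_ed] at h
  rw [h, add_comm]

private theorem fl_comb (a b : ℝ) (p q : Pt) (k : Fin 3) :
    (a • p + b • q) k = a * p k + b * q k := by
  simp

theorem fin_straight (hP : P.Ok) (hV : P.Valid sh L.at) (z : Lab N Empty Empty ℝ) (v : W)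
    (i : ZMod 4) : qp P L z v i ∈
      openSegment ℝ (bp P L z (P.adj (inl (.x v i)))) (bp P L z (P.adj (inl (.x v (i + 2))))) := by
  have h1 := fl_adj hP hV z v i
  have h2 := fl_adj hP hV z v (i + 2)
  rw [fl_z4] at h2
  have h0 := fl_qp hP hV z v i
  have l1 := st_lt (L := L) hP hV (inl (.x v i))
  have l2 := st_lt (L := L) hP hV (inl (.x v (i + 2)))
  rw [st_add_two hV] at l2
  rw [h0, h1, h2]
  generalize st P L (P.adj (inl (.x v i))) = s1 at *
  generalize st P L (P.adj (inl (.x v (i + 2)))) = s2 at *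
  generalize st P L (inl (.x v i)) = s at *
  generalize pt3 L z (P.ed v (i + 2)) = E2 at *
  generalize pt3 L z (P.ed v i) = E0 at *
  have d1 : 0 < 1 - s1 - s := by linarith
  have d2' : 0 < s - s2 := by linarith
  have hd : 0 < (1 - s1 - s) + (s - s2) := by linarith
  refine ⟨(s - s2) / ((1 - s1 - s) + (s - s2)), (1 - s1 - s) / ((1 - s1 - s) + (s - s2)),
    div_pos d2' hd, div_pos d1 hd, ?_, ?_⟩
  · rw [← add_div, add_comm (s - s2), div_self hd.ne']
  · ext k
    simp only [Pi.add_apply, Pi.smul_apply, smul_eq_mul]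
    field_simp
    ring

theorem fin_orient (hP : P.Ok) (hN : Norm L) (hV : P.Valid sh L.at)
    (z : Lab N Empty Empty ℝ) (v : W) (i : ZMod 4) :
    0 < (bp P L z (P.adj (inl (.x v i))) 0 - qp P L z v i 0) *
          (bp P L z (P.adj (inl (.x v (i + 1)))) 1 - qp P L z v i 1) -
        (bp P L z (P.adj (inl (.x v i))) 1 - qp P L z v i 1) *
          (bp P L z (P.adj (inl (.x v (i + 1)))) 0 - qp P L z v i 0) := by
  have hpr := qp_proj hN hV z v i
  have q0 : qp P L z v (i + 1) 0 = qp P L z v i 0 := congrFun hpr 0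
  have q1 : qp P L z v (i + 1) 1 = qp P L z v i 1 := congrFun hpr 1
  have h1 := fl_adj hP hV z v i
  have h2 := fl_adj hP hV z v (i + 1)
  have g1 := fl_qp hP hV z v i
  have g2 := fl_qp hP hV z v (i + 1)
  have l1 := st_lt (L := L) hP hV (inl (.x v i))
  have l2 := st_lt (L := L) hP hV (inl (.x v (i + 1)))
  have k1 := hV.cr v (i + 1)
  have k3 := hV.cr v (i + 3)
  have e4 : i + 1 + 3 = i := by
    have h : (1 : ZMod 4) + 3 = 0 := by decide
    rw [add_assoc, h, add_zero]
  have e2 : i + 1 + 1 = i + 2 := by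
    have h : (1 : ZMod 4) + 1 = 2 := by decide
    rw [add_assoc, h]
  have e3 : i + 1 + 2 = i + 3 := by
    have h : (1 : ZMod 4) + 2 = 3 := by decide
    rw [add_assoc, h]
  have e6 : i + 3 + 3 = i + 2 := by
    have h : (3 : ZMod 4) + 3 = 2 := by decide
    rw [add_assoc, h]
  have e5 : i + 3 + 1 = i := by
    have h : (3 : ZMod 4) + 1 = 0 := by decide
    rw [add_assoc, h, add_zero]
  rw [e3] at h2 g2
  unfold Pic.kap at k1 k3
  rw [e4, e2] at k1
  rw [e6, e5] at k3
  have t0 := fl_at2 (L := L) _ (hP.ed_end v i) hN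
  have t1 := fl_at2 (L := L) _ (hP.ed_end v (i + 1)) hN
  have t2 := fl_at2 (L := L) _ (hP.ed_end v (i + 2)) hN
  have t3 := fl_at2 (L := L) _ (hP.ed_end v (i + 3)) hN
  simp only [dt, t0, t1, t2, t3] at k1 k3
  have a0 : bp P L z (P.adj (inl (.x v i))) 0 - qp P L z v i 0 =
      (1 - st P L (P.adj (inl (.x v i))) - st P L (inl (.x v i))) *
        (L.at (P.ed v i) 0 - L.at (P.ed v (i + 2)) 0) := by
    rw [h1, g1, fl_comb, fl_comb]
    simp only [pt3, Matrix.cons_val_zero]
    ring
  have a1 : bp P L z (P.adj (inl (.x v i))) 1 - qp P L z v i 1 =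
      (1 - st P L (P.adj (inl (.x v i))) - st P L (inl (.x v i))) *
        (L.at (P.ed v i) 1 - L.at (P.ed v (i + 2)) 1) := by
    rw [h1, g1, fl_comb, fl_comb]
    simp only [pt3, Matrix.cons_val_one, Matrix.cons_val_zero]
    ring
  have b0 : bp P L z (P.adj (inl (.x v (i + 1)))) 0 - qp P L z v i 0 =
      (1 - st P L (P.adj (inl (.x v (i + 1)))) - st P L (inl (.x v (i + 1)))) *
        (L.at (P.ed v (i + 1)) 0 - L.at (P.ed v (i + 3)) 0) := by
    rw [← q0, h2, g2, fl_comb, fl_comb]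
    simp only [pt3, Matrix.cons_val_zero]
    ring
  have b1 : bp P L z (P.adj (inl (.x v (i + 1)))) 1 - qp P L z v i 1 =
      (1 - st P L (P.adj (inl (.x v (i + 1)))) - st P L (inl (.x v (i + 1)))) *
        (L.at (P.ed v (i + 1)) 1 - L.at (P.ed v (i + 3)) 1) := by
    rw [← q1, h2, g2, fl_comb, fl_comb]
    simp only [pt3, Matrix.cons_val_one, Matrix.cons_val_zero]
    ring
  rw [a0, a1, b0, b1]
  have m1 : 0 < 1 - st P L (P.adj (inl (.x v i))) - st P L (inl (.x v i)) := by linarith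
  have m2 : 0 < 1 - st P L (P.adj (inl (.x v (i + 1)))) - st P L (inl (.x v (i + 1))) := by
    linarith
  have key : 0 < (L.at (P.ed v i) 0 - L.at (P.ed v (i + 2)) 0) *
        (L.at (P.ed v (i + 1)) 1 - L.at (P.ed v (i + 3)) 1) -
      (L.at (P.ed v i) 1 - L.at (P.ed v (i + 2)) 1) *
        (L.at (P.ed v (i + 1)) 0 - L.at (P.ed v (i + 3)) 0) := by
    linarith [k1, k3]
  have := mul_pos (mul_pos m1 m2) key
  refine lt_of_lt_of_eq this ?_
  ring

/-- the two ends of a stick have different projections -/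
private theorem fl_ends (hV : P.Valid sh L.at)
    (e : Bead W N Empty Empty) (he : IsEnd e) : L.at e ≠ L.at (P.opp e) := by
  intro h
  rcases e with (⟨v, i⟩ | ⟨a, i⟩ | ⟨a, i⟩) | ⟨a, c⟩
  · exact he.elim
  · exact a.elim
  · exact a.elim
  · have hb := hV.bend a
    have e1 : L.at (inr (a, true) : Bead W N Empty Empty) =
        L.at (inr (a, c) : Bead W N Empty Empty) := rfl
    cases c
    · rw [e1, ← h] at hb
      exact hb (dt_self₃ _ _)
    · rw [← h] at hb
      exact hb (dt_self₁ _ _)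

theorem fin_nondeg (hP : P.Ok) (hN : Norm L) (hV : P.Valid sh L.at)
    (z : Lab N Empty Empty ℝ) (b : Bead W N Empty Empty) :
    pr (bp P L z b) ≠ pr (bp P L z (P.adj b)) := by
  intro h
  have h1 := bp_eq hP hV z b
  have h2 := bp_eq hP hV z (P.adj b)
  rw [base_adj hP, opp_opp hP (base_end hP b)] at h2
  have l1 := st_lt (L := L) hP hV b
  have hm : 1 - st P L b - st P L (P.adj b) ≠ 0 := by
    intro h0
    linarith
  have c0 : bp P L z b 0 = bp P L z (P.adj b) 0 := congrFun h 0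
  have c1 : bp P L z b 1 = bp P L z (P.adj b) 1 := congrFun h 1
  rw [h1, h2, fl_comb, fl_comb] at c0 c1
  simp only [pt3, Matrix.cons_val_one, Matrix.cons_val_zero] at c0 c1
  have hE := base_end hP b
  have hE' := opp_end hP hE
  refine fl_ends hV (base P b) hE ?_
  have d0 : L.at (base P b) 0 = L.at (P.opp (base P b)) 0 := by
    apply mul_left_cancel₀ hm
    linarith
  have d1 : L.at (base P b) 1 = L.at (P.opp (base P b)) 1 := by
    apply mul_left_cancel₀ hm
    linarith
  ext k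
  fin_cases k
  · exact d0
  · exact d1
  · change L.at (base P b) 2 = L.at (P.opp (base P b)) 2
    rw [fl_at2 _ hE hN, fl_at2 _ hE' hN]

/-- the plane point of a homogeneous vector with third coordinate 1 -/
def pl (p : H) : Fin 2 → ℝ := ![p 0, p 1]

private theorem fl_seg {A B : H} {x : Fin 2 → ℝ} (h1 : x ∈ segment ℝ (pl A) (pl B)) :
    ∃ a b : ℝ, 0 ≤ a ∧ 0 ≤ b ∧ a + b = 1 ∧ x 0 = a * A 0 + b * B 0 ∧
      x 1 = a * A 1 + b * B 1 := by
  obtain ⟨a, b, ha, hb, hab, rfl⟩ := h1
  exact ⟨a, b, ha, hb, hab, by simp [pl], by simp [pl]⟩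

theorem sep_disj {A B C D : H} (hA : A 2 = 1) (hB : B 2 = 1) (hC : C 2 = 1) (hD : D 2 = 1)
    (h : Sep A B C D) {x : Fin 2 → ℝ} (h1 : x ∈ segment ℝ (pl A) (pl B))
    (h2 : x ∈ segment ℝ (pl C) (pl D)) : False := by
  obtain ⟨l, p1, p2, p3, p4⟩ := h
  obtain ⟨a, b, ha, hb, hab, e0, e1⟩ := fl_seg h1
  obtain ⟨c, d, hc, hd, hcd, f0, f1⟩ := fl_seg h2
  simp only [dot, hA, hB, hC, hD] at p1 p2 p3 p4
  have u1 : 0 < l 0 * x 0 + l 1 * x 1 + l 2 := by
    have : l 0 * x 0 + l 1 * x 1 + l 2 = a * (l 0 * A 0 + l 1 * A 1 + l 2 * 1) +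
        b * (l 0 * B 0 + l 1 * B 1 + l 2 * 1) := by
      rw [e0, e1]
      linear_combination (-l 2) * hab
    rw [this]
    rcases ha.eq_or_lt with h0 | h0
    · have : b = 1 := by linarith
      rw [← h0, this]
      linarith
    · have := mul_pos h0 p1
      have := mul_nonneg hb p2.le
      linarith
  have u2 : l 0 * x 0 + l 1 * x 1 + l 2 < 0 := by
    have : l 0 * x 0 + l 1 * x 1 + l 2 = c * (l 0 * C 0 + l 1 * C 1 + l 2 * 1) +
        d * (l 0 * D 0 + l 1 * D 1 + l 2 * 1) := by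
      rw [f0, f1]
      linear_combination (-l 2) * hcd
    rw [this]
    rcases hc.eq_or_lt with h0 | h0
    · have : d = 1 := by linarith
      rw [← h0, this]
      linarith
    · have := mul_neg_of_pos_of_neg h0 p3
      have := mul_nonpos_of_nonneg_of_nonpos hd p4.le
      linarith
  linarith

theorem bend_inter {X A B : H} (hX : X 2 = 1) (hA : A 2 = 1) (hB : B 2 = 1)
    (h : dt X A B ≠ 0) {x : Fin 2 → ℝ} (h1 : x ∈ segment ℝ (pl X) (pl A))
    (h2 : x ∈ segment ℝ (pl X) (pl B)) : x = pl X := by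
  obtain ⟨a, b, ha, hb, hab, e0, e1⟩ := fl_seg h1
  obtain ⟨c, d, hc, hd, hcd, f0, f1⟩ := fl_seg h2
  have h0 : b * dt X A B = 0 := by
    simp only [dt, hX, hA, hB]
    have ea : a = 1 - b := by linarith
    have ec : c = 1 - d := by linarith
    subst ea ec
    have g0 : b * (A 0 - X 0) = d * (B 0 - X 0) := by linarith
    have g1 : b * (A 1 - X 1) = d * (B 1 - X 1) := by linarith
    linear_combination (B 1 - X 1) * g0 - (B 0 - X 0) * g1
  have hb0 : b = 0 := (mul_eq_zero.1 h0).resolve_right h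
  have ha1 : a = 1 := by linarith
  ext k
  fin_cases k
  · change x 0 = X 0
    rw [e0, hb0, ha1]; ring
  · change x 1 = X 1
    rw [e1, hb0, ha1]; ring

/-- in the situation of a crossing, the intersection point has the parameter
`κ 0 / (κ 0 + κ 2)` on the segment from `P0` to `P2` -/
theorem cross_inter {P0 P1 P2 P3 : H} (h0 : P0 2 = 1) (h1 : P1 2 = 1) (h2 : P2 2 = 1)
    (h3 : P3 2 = 1) (k0 : 0 < dt P3 P0 P1) (k2 : 0 < dt P1 P2 P3) {x : Fin 2 → ℝ} {s : ℝ}
    (hx : x = (1 - s) • pl P0 + s • pl P2) (hx' : x ∈ segment ℝ (pl P1) (pl P3)) :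
    s = dt P3 P0 P1 / (dt P3 P0 P1 + dt P1 P2 P3) := by
  obtain ⟨a, b, ha, hb, hab, e0, e1⟩ := fl_seg hx'
  have x0 : x 0 = (1 - s) * P0 0 + s * P2 0 := by rw [hx]; simp [pl]
  have x1 : x 1 = (1 - s) * P0 1 + s * P2 1 := by rw [hx]; simp [pl]
  have ea : a = 1 - b := by linarith
  subst ea
  rw [eq_div_iff (by positivity)]
  simp only [dt, h0, h1, h2, h3]
  have g0 : (1 - s) * P0 0 + s * P2 0 = (1 - b) * P1 0 + b * P3 0 := by rw [← x0, e0]
  have g1 : (1 - s) * P0 1 + s * P2 1 = (1 - b) * P1 1 + b * P3 1 := by rw [← x1, e1]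
  linear_combination (P3 1 - P1 1) * g0 - (P3 0 - P1 0) * g1

end SN78
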