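import Pool.Agent.SN78.FinLine
import Pool.Agent.SN78.Chain

/-!
# SN78 module FINSIMPLE: the projection has no other multiple points

Let `b, c` be beads with `c ≠ b`, `c ≠ adj b`, and let `x` be in the projections of the pieces
`b – adj b` and `c – adj c`.  Write `e = base b`, `g = base c`.  By `bp_eq`, `base_adj` the piece of
`b` lies on the stick `e – opp e` and `x = (1 - s) e + s (opp e)` with
`st b ≤ s ≤ 1 - st (adj b)`; similarly `x = (1 - t) g + t (opp g)`, `st c ≤ t ≤ 1 - st (adj c)`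
(parameters of the points of a segment; `pr (pt3 e) = pl (L.at e)`).
Note: replacing `c` by `adj c` changes `g` to `opp g` and `t` to `1 - t`, and the hypotheses and the
conclusion are symmetric under this.

1. `g = e` (or `g = opp e`: replace `c` by `adj c`).  The ends of the stick are different points
   (see `fin_nondeg`: the two projections of `pt3 e` and `pt3 (opp e)` are different because the piece
   `b – adj b` is not degenerate), so `s = t`.  `chain` for `b ≠ c`: the first two cases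
   contradict `st c ≤ s ≤ 1 - st (adj b)` and so on.  In the third case `b' = adj b = x w j`,
   `c' = c = x w (j + 2)` are at the same site, and `s = t` is squeezed: `t ≥ st c = 1 - st (adj b) ≥ s`,
   so `x` is the point of `adj b`.  The fourth case is symmetric.
2. The sticks are different, and have ends at the same node, say (after replacing `b` by `adj b`
   and/or `c` by `adj c`) `e, g` are at the node `a`; `e ≠ g`, so they are the two sides of `a`, and by
   `bend` and `bend_inter` `x` is the point of `a`.  Hence `s = 0` and `t = 0` (nondegenerate sticks), so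
   `st b = 0`, so `b` is an end (`st_pos`), `b = base b = e`, and `c = g`.  Take `b' = b`, `c' = c`.
3. They cross: `ed v i = e`, `ed v (i + 1) ∈ {g, opp g}`; by `cross_inter`
   (with `P0 = ed v i` etc.; `κ i, κ (i + 2) > 0`) `s = κ i / (κ i + κ (i + 2)) = st (x v (i + 2))`, and
   `base (x v (i + 2)) = ed v i = e`.  Compare `b` with `x v (i + 2)` by `chain`: either
   `b = x v (i + 2)` or `adj b = x v i` (the strict inequalities contradict
   `st b ≤ s ≤ 1 - st (adj b)` and `st (x v (i + 2)) < 1 - st (adj (x v (i + 2)))`).  Similarly one of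
   `c, adj c` is a dart of `v`.  These are `b', c'`, and `x` is the point of `b'`.
4. Otherwise `Apart e g`, and `vP.sep` with `sep_disj` gives a contradiction.
All ends are nodes as `F = O = Empty`, so all third coordinates are 1 (`Norm`).
-/

namespace SN78

open Sum

variable {W N : Type} {P : Pic W N Empty Empty} {L : Lab N Empty Empty H}
  {sh : Empty → ZMod 4 → Prop}

/-- two beads at the same site -/
def SameS : Bead W N Empty Empty → Bead W N Empty Empty → Prop
  | .inl (.x v _), .inl (.x w _) => v = w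
  | .inr (a, _), .inr (b, _) => a = b
  | _, _ => False

private theorem fs_tail : ((2 : ZMod 4) + 2) = 0 := by decide

private theorem fs_at2 [Finite W] (e : Bead W N Empty Empty) (he : IsEnd e) (hN : Norm L) :
    L.at e 2 = 1 := by
  rcases e with (⟨v, i⟩ | ⟨a, i⟩ | ⟨a, i⟩) | ⟨a, c⟩
  · exact he.elim
  · exact a.elim
  · exact a.elim
  · exact hN.n a

private theorem fs_pr_pt3 (z : Lab N Empty Empty ℝ) (e : Bead W N Empty Empty) :
    pr (pt3 L z e) = pl (L.at e) := by
  ext k; fin_cases k <;> simp [pr, pt3, pl]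

private theorem fs_pr_comb (a b : ℝ) (p q : Pt) : pr (a • p + b • q) = a • pr p + b • pr q := by
  ext k; fin_cases k <;> simp [pr]

private theorem fs_pr_bp (hP : P.Ok) (hV : P.Valid sh L.at) (z : Lab N Empty Empty ℝ)
    (b : Bead W N Empty Empty) :
    pr (bp P L z b) = (1 - st P L b) • pl (L.at (base P b)) +
      st P L b • pl (L.at (P.opp (base P b))) := by
  rw [bp_eq hP hV z b, fs_pr_comb, fs_pr_pt3, fs_pr_pt3]

private theorem fs_pr_bp' (hP : P.Ok) (hV : P.Valid sh L.at) (z : Lab N Empty Empty ℝ)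
    (b : Bead W N Empty Empty) :
    pr (bp P L z (P.adj b)) = st P L (P.adj b) • pl (L.at (base P b)) +
      (1 - st P L (P.adj b)) • pl (L.at (P.opp (base P b))) := by
  rw [fs_pr_bp hP hV z (P.adj b), base_adj hP, opp_opp hP (base_end hP b), add_comm]

/-- `x` is on the stick of `b` with the parameter `s` -/
private def FsOn (P : Pic W N Empty Empty) (L : Lab N Empty Empty H) (b : Bead W N Empty Empty)
    (x : Fin 2 → ℝ) (s : ℝ) : Prop :=
  st P L b ≤ s ∧ s ≤ 1 - st P L (P.adj b) ∧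
    x = (1 - s) • pl (L.at (base P b)) + s • pl (L.at (P.opp (base P b)))

private theorem fs_param (hP : P.Ok) (hV : P.Valid sh L.at) (z : Lab N Empty Empty ℝ)
    {b : Bead W N Empty Empty} {x : Fin 2 → ℝ}
    (hx : x ∈ segment ℝ (pr (bp P L z b)) (pr (bp P L z (P.adj b)))) :
    ∃ s, FsOn P L b x s := by
  obtain ⟨a, c, ha, hc, hac, hx⟩ := hx
  have h1 := st_lt hP hV b
  refine ⟨a * st P L b + c * (1 - st P L (P.adj b)), ?_, ?_, ?_⟩
  · have : a = 1 - c := by linarith
    subst this
    nlinarith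
  · have : c = 1 - a := by linarith
    subst this
    nlinarith
  · rw [← hx, fs_pr_bp hP hV, fs_pr_bp' hP hV]
    have : c = 1 - a := by linarith
    subst this
    ext k
    simp only [Pi.add_apply, Pi.smul_apply, smul_eq_mul]
    ring

private theorem fs_ne (hP : P.Ok) (hN : Norm L) (hV : P.Valid sh L.at)
    (z : Lab N Empty Empty ℝ) (b : Bead W N Empty Empty) :
    pl (L.at (base P b)) ≠ pl (L.at (P.opp (base P b))) := by
  intro h
  apply fin_nondeg hP hN hV z b
  rw [fs_pr_bp hP hV, fs_pr_bp' hP hV, ← h]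
  ext k
  simp only [Pi.add_apply, Pi.smul_apply, smul_eq_mul]
  ring

private theorem fs_inj {p q : Fin 2 → ℝ} (h : p ≠ q) {s t : ℝ}
    (hst : (1 - s) • p + s • q = (1 - t) • p + t • q) : s = t := by
  by_contra hne
  apply h
  ext k
  have h1 := congrFun hst k
  simp only [Pi.add_apply, Pi.smul_apply, smul_eq_mul] at h1
  have h2 : (t - s) * (p k - q k) = 0 := by linarith
  rcases mul_eq_zero.1 h2 with h3 | h3
  · exact absurd (by linarith) hne
  · linarith

private theorem fs_left (hP : P.Ok) (hV : P.Valid sh L.at) (z : Lab N Empty Empty ℝ)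
    {b : Bead W N Empty Empty} {x : Fin 2 → ℝ} {s : ℝ} (h : FsOn P L b x s)
    (hs : s = st P L b) : x = pr (bp P L z b) := by
  rw [h.2.2, hs, fs_pr_bp hP hV]

private theorem fs_right (hP : P.Ok) (hV : P.Valid sh L.at) (z : Lab N Empty Empty ℝ)
    {b : Bead W N Empty Empty} {x : Fin 2 → ℝ} {s : ℝ} (h : FsOn P L b x s)
    (hs : s = 1 - st P L (P.adj b)) : x = pr (bp P L z (P.adj b)) := by
  rw [h.2.2, hs, fs_pr_bp' hP hV]
  ext k
  simp only [Pi.add_apply, Pi.smul_apply, smul_eq_mul]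
  ring

/-- the conclusion -/
private def FsQ (P : Pic W N Empty Empty) (L : Lab N Empty Empty H) (z : Lab N Empty Empty ℝ)
    (x : Fin 2 → ℝ) (b c : Bead W N Empty Empty) : Prop :=
  ∃ b' c', (b' = b ∨ b' = P.adj b) ∧ (c' = c ∨ c' = P.adj c) ∧ SameS b' c' ∧
      x = pr (bp P L z b')

private theorem fs_sym_c (hP : P.Ok) {z : Lab N Empty Empty ℝ} {x : Fin 2 → ℝ}
    {b c : Bead W N Empty Empty} (h : FsQ P L z x b (P.adj c)) : FsQ P L z x b c := by
  obtain ⟨b', c', hb, hc, hs, hx⟩ := h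
  rw [hP.adj_adj] at hc
  exact ⟨b', c', hb, hc.symm, hs, hx⟩

private theorem fs_sym_b (hP : P.Ok) {z : Lab N Empty Empty ℝ} {x : Fin 2 → ℝ}
    {b c : Bead W N Empty Empty} (h : FsQ P L z x (P.adj b) c) : FsQ P L z x b c := by
  obtain ⟨b', c', hb, hc, hs, hx⟩ := h
  rw [hP.adj_adj] at hb
  exact ⟨b', c', hb.symm, hc, hs, hx⟩

/-- `x` in the piece of `b` -/
private def FsSeg (P : Pic W N Empty Empty) (L : Lab N Empty Empty H) (z : Lab N Empty Empty ℝ)
    (x : Fin 2 → ℝ) (b : Bead W N Empty Empty) : Prop :=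
  x ∈ segment ℝ (pr (bp P L z b)) (pr (bp P L z (P.adj b)))

private theorem fs_seg_adj (hP : P.Ok) {z : Lab N Empty Empty ℝ} {x : Fin 2 → ℝ}
    {b : Bead W N Empty Empty} (h : FsSeg P L z x b) : FsSeg P L z x (P.adj b) := by
  unfold FsSeg at *
  rw [hP.adj_adj, segment_symm]
  exact h

private theorem fs_stick (hV : P.Valid sh L.at) {x : Fin 2 → ℝ} {b : Bead W N Empty Empty} {s : ℝ} (h : FsOn P L b x s) :
    x ∈ segment ℝ (pl (L.at (base P b))) (pl (L.at (P.opp (base P b)))) := by
  have h1 := st_nonneg hV b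
  have h2 := st_nonneg hV (P.adj b)
  refine ⟨1 - s, s, ?_, ?_, by ring, h.2.2.symm⟩
  · linarith [h.2.1]
  · linarith [h.1]

private theorem fs_same [Finite W] [Finite N] (hP : P.Ok) (hN : Norm L) (hV : P.Valid sh L.at)
    (z : Lab N Empty Empty ℝ) {b c : Bead W N Empty Empty} (h1 : c ≠ b)
    (hbc : base P b = base P c) {x : Fin 2 → ℝ} (hx : FsSeg P L z x b)
    (hx' : FsSeg P L z x c) : FsQ P L z x b c := by
  obtain ⟨s, hs⟩ := fs_param hP hV z hx
  obtain ⟨t, ht⟩ := fs_param hP hV z hx'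
  have hst : s = t := by
    apply fs_inj (fs_ne hP hN hV z b)
    rw [← hs.2.2, hbc, ← ht.2.2]
  subst hst
  rcases chain hP hV (Ne.symm h1) hbc with h | h | ⟨w, j, hb, hc⟩ | ⟨w, j, hc, hb⟩
  · exact absurd (h.trans_le (ht.1.trans hs.2.1)) (lt_irrefl _)
  · exact absurd (h.trans_le (hs.1.trans ht.2.1)) (lt_irrefl _)
  · have h2 : st P L c = 1 - st P L (P.adj b) := by
      rw [hc, hb, st_add_two hV]
    refine ⟨P.adj b, c, Or.inr rfl, Or.inl rfl, ?_, ?_⟩
    · rw [hb, hc]; rfl
    · exact fs_right hP hV z hs (le_antisymm hs.2.1 (h2 ▸ ht.1))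
  · have h2 : st P L b = 1 - st P L (P.adj c) := by
      rw [hc, hb, st_add_two hV]
    refine ⟨b, P.adj c, Or.inl rfl, Or.inr rfl, ?_, ?_⟩
    · rw [hb, hc]; rfl
    · exact fs_left hP hV z hs (le_antisymm (h2 ▸ ht.2.1) hs.1)

private theorem fs_base_st (hV : P.Valid sh L.at) {b : Bead W N Empty Empty}
    (h : st P L b = 0) : base P b = b := by
  rcases b with (⟨v, i⟩ | ⟨a, i⟩ | ⟨a, i⟩) | ⟨a, c⟩
  · exact absurd h (st_pos hV v i).ne'
  · exact a.elim
  · exact a.elim
  · rfl

private theorem fs_zero (hP : P.Ok) (hN : Norm L) (hV : P.Valid sh L.at)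
    (z : Lab N Empty Empty ℝ) {b : Bead W N Empty Empty} {x : Fin 2 → ℝ} {s : ℝ}
    (h : FsOn P L b x s) (hx : x = pl (L.at (base P b))) : base P b = b := by
  apply fs_base_st hV
  have h1 : s = 0 := by
    apply fs_inj (fs_ne hP hN hV z b)
    rw [← h.2.2, hx]
    simp
  have h2 := st_nonneg hV b
  have h3 := h.1
  linarith

private theorem fs_node [Finite W] [Finite N] (hP : P.Ok) (hN : Norm L) (hV : P.Valid sh L.at)
    (z : Lab N Empty Empty ℝ) {b c : Bead W N Empty Empty} (hne : base P b ≠ base P c)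
    (hsn : SameNode sh (base P b) (base P c)) {x : Fin 2 → ℝ} (hx : FsSeg P L z x b)
    (hx' : FsSeg P L z x c) : FsQ P L z x b c := by
  obtain ⟨s, hs⟩ := fs_param hP hV z hx
  obtain ⟨t, ht⟩ := fs_param hP hV z hx'
  have he := base_end hP b
  have hg := base_end hP c
  have hoe := fs_at2 (P.opp (base P b)) (opp_end hP he) hN
  have hog := fs_at2 (P.opp (base P c)) (opp_end hP hg) hN
  have key : ∀ a c₁ c₂, base P b = inr (a, c₁) → base P c = inr (a, c₂) →
      dt (L.n a) (L.at (P.opp (base P b))) (L.at (P.opp (base P c))) ≠ 0 →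
      FsQ P L z x b c := by
    intro a c₁ c₂ hb hc hd
    have h1 : L.at (base P b) = L.n a := by rw [hb]; rfl
    have h2 : L.at (base P c) = L.n a := by rw [hc]; rfl
    have h3 := fs_stick hV hs
    have h4 := fs_stick hV ht
    rw [h1] at h3
    rw [h2] at h4
    have h5 := bend_inter (hN.n a) hoe hog hd h3 h4
    have h6 := fs_zero hP hN hV z hs (by rw [h1]; exact h5)
    have h7 := fs_zero hP hN hV z ht (by rw [h2]; exact h5)
    refine ⟨b, c, Or.inl rfl, Or.inl rfl, ?_, ?_⟩
    · rw [← h6, ← h7, hb, hc]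
      rfl
    · rw [h5, ← h6, hb]
      exact (fs_pr_pt3 (W := W) (L := L) z (inr (a, c₁))).symm
  rcases hb : base P b with (⟨v, i⟩ | ⟨a, i⟩ | ⟨a, i⟩) | ⟨a, c₁⟩
  · rw [hb] at he; exact he.elim
  · exact a.elim
  · exact a.elim
  rcases hc : base P c with (⟨v, i⟩ | ⟨a', i⟩ | ⟨a', i⟩) | ⟨a', c₂⟩
  · rw [hc] at hg; exact hg.elim
  · exact a'.elim
  · exact a'.elim
  have haa : a = a' := by
    rw [hb, hc] at hsn
    exact hsn
  subst haa
  have hcc : c₁ ≠ c₂ := by
    intro h
    apply hne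
    rw [hb, hc, h]
  have hbend := hV.bend a
  apply key a c₁ c₂ hb hc
  rw [hb, hc]
  cases c₁ <;> cases c₂
  · exact absurd rfl hcc
  · intro h
    apply hbend
    have h2 := dt_swap' (L.n a) (L.at (P.opp (inr (a, false)))) (L.at (P.opp (inr (a, true))))
    rw [h] at h2
    have h3 : dt (L.n a) (L.at (P.opp (inr (a, true)))) (L.at (P.opp (inr (a, false)))) = 0 := by
      simpa using h2
    exact h3
  · exact hbend
  · exact absurd rfl hcc

private theorem fs_zm (i : ZMod 4) : i + 2 + 2 = i := by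
  rw [add_assoc, fs_tail, add_zero]

/-- a bead on a stick through `v`, with `x` on the other stick -/
private theorem fs_at [Finite W] [Finite N] (hP : P.Ok) (hN : Norm L) (hV : P.Valid sh L.at)
    (z : Lab N Empty Empty ℝ) {b : Bead W N Empty Empty} {v : W} {i : ZMod 4}
    (hb : base P b = P.ed v i) {x : Fin 2 → ℝ} (hx : FsSeg P L z x b)
    (hx' : x ∈ segment ℝ (pl (L.at (P.ed v (i + 1)))) (pl (L.at (P.ed v (i + 3))))) :
    ∃ b' j, (b' = b ∨ b' = P.adj b) ∧ b' = inl (.x v j) ∧ x = pr (bp P L z b') := by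
  obtain ⟨s, hs⟩ := fs_param hP hV z hx
  have e1 : i + 2 + 3 = i + 1 := by
    have : (2 + 3 : ZMod 4) = 1 := by decide
    rw [add_assoc, this]
  have e2 : i + 2 + 1 = i + 3 := by
    have : (2 + 1 : ZMod 4) = 3 := by decide
    rw [add_assoc, this]
  have k0 := hV.cr v i
  have k2 := hV.cr v (i + 2)
  have hk0 : P.kap L.at v i = dt (L.at (P.ed v (i + 3))) (L.at (P.ed v i))
    (L.at (P.ed v (i + 1))) := rfl
  have hk2 : P.kap L.at v (i + 2) = dt (L.at (P.ed v (i + 1))) (L.at (P.ed v (i + 2)))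
      (L.at (P.ed v (i + 3))) := by
    unfold Pic.kap
    rw [e1, e2]
  have hop : P.opp (base P b) = P.ed v (i + 2) := by rw [hb, hP.opp_ed]
  have hxs : x = (1 - s) • pl (L.at (P.ed v i)) + s • pl (L.at (P.ed v (i + 2))) := by
    have := hs.2.2
    rw [hop, hb] at this
    exact this
  have hz : ∀ j, L.at (P.ed v j) 2 = 1 := fun j => fs_at2 _ (hP.ed_end v j) hN
  have hsv := cross_inter (hz i) (hz (i + 1)) (hz (i + 2)) (hz (i + 3)) (hk0 ▸ k0) (hk2 ▸ k2)
    hxs hx'
  rw [← hk0, ← hk2] at hsv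
  have hd : st P L (inl (.x v (i + 2))) = s := by
    simp only [st]
    rw [fs_zm, hsv, add_comm (P.kap L.at v (i + 2))]
  have hbd : base P b = base P (inl (.x v (i + 2))) := by
    simp only [base]
    rw [fs_zm]
    exact hb
  by_cases hbe : b = inl (.x v (i + 2))
  · exact ⟨b, i + 2, Or.inl rfl, hbe, fs_left hP hV z hs (by rw [← hd, ← hbe])⟩
  rcases chain hP hV hbe hbd with h | h | ⟨w, j, h3, h4⟩ | ⟨w, j, h3, h4⟩
  · rw [hd] at h
    exact absurd (h.trans_le hs.2.1) (lt_irrefl _)
  · have h5 := st_lt hP hV (inl (.x v (i + 2)))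
    have h6 := hs.1
    linarith
  · have h5 : SD.x (F := Empty) (O := Empty) v (i + 2) = .x w (j + 2) := Sum.inl_injective h4
    injection h5 with h6 h7
    have h8 : i = j := add_right_cancel h7
    subst h6
    subst h8
    refine ⟨P.adj b, i, Or.inr rfl, h3, fs_right hP hV z hs ?_⟩
    rw [← hd, h3, st_add_two hV]
  · have h5 : st P L b = 1 - st P L (P.adj (inl (.x v (i + 2)))) := by
      rw [h4, h3, st_add_two hV]
    have h6 := st_lt hP hV (inl (.x v (i + 2)))
    have h7 := hs.1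
    linarith

private theorem fs_cross [Finite W] [Finite N] (hP : P.Ok) (hN : Norm L)
    (hV : P.Valid sh L.at) (z : Lab N Empty Empty ℝ) {b c : Bead W N Empty Empty} {v : W}
    {i : ZMod 4} (hb : P.ed v i = base P b) (hc : P.ed v (i + 1) = base P c) {x : Fin 2 → ℝ}
    (hx : FsSeg P L z x b) (hx' : FsSeg P L z x c) : FsQ P L z x b c := by
  obtain ⟨s, hs⟩ := fs_param hP hV z hx
  obtain ⟨t, ht⟩ := fs_param hP hV z hx'
  have h3 := fs_stick hV hs
  have h4 := fs_stick hV ht
  rw [← hb, hP.opp_ed] at h3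
  rw [← hc, hP.opp_ed] at h4
  have e1 : i + 1 + 2 = i + 3 := by
    have : (1 + 2 : ZMod 4) = 3 := by decide
    rw [add_assoc, this]
  have e2 : i + 1 + 1 = i + 2 := by
    have : (1 + 1 : ZMod 4) = 2 := by decide
    rw [add_assoc, this]
  have e3 : i + 1 + 3 = i := by
    have : (1 + 3 : ZMod 4) = 0 := by decide
    rw [add_assoc, this, add_zero]
  rw [e1] at h4
  obtain ⟨b', j, hb1, hb2, hb3⟩ := fs_at hP hN hV z hb.symm hx h4
  obtain ⟨c', k, hc1, hc2, hc3⟩ := fs_at hP hN hV z hc.symm hx' (by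
    rw [e2, e3, segment_symm]; exact h3)
  refine ⟨b', c', hb1, hc1, ?_, hb3⟩
  rw [hb2, hc2]
  rfl

theorem fin_simple [Finite W] [Finite N] (hP : P.Ok) (hN : Norm L) (hV : P.Valid sh L.at)
    (z : Lab N Empty Empty ℝ) {b c : Bead W N Empty Empty} (h1 : c ≠ b) (h2 : c ≠ P.adj b)
    {x : Fin 2 → ℝ} (hx : x ∈ segment ℝ (pr (bp P L z b)) (pr (bp P L z (P.adj b))))
    (hx' : x ∈ segment ℝ (pr (bp P L z c)) (pr (bp P L z (P.adj c)))) :
    ∃ b' c', (b' = b ∨ b' = P.adj b) ∧ (c' = c ∨ c' = P.adj c) ∧ SameS b' c' ∧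
      x = pr (bp P L z b') := by
  change FsQ P L z x b c
  have hx1 : FsSeg P L z x b := hx
  have hx2 : FsSeg P L z x c := hx'
  have hy1 := fs_seg_adj hP hx1
  have hy2 := fs_seg_adj hP hx2
  have he := base_end hP b
  have hg := base_end hP c
  have hba := base_adj hP b
  have hca := base_adj hP c
  by_cases g1 : base P b = base P c
  · exact fs_same hP hN hV z h1 g1 hx1 hx2
  by_cases g2 : base P b = P.opp (base P c)
  · refine fs_sym_c hP (fs_same hP hN hV z ?_ (g2.trans hca.symm) hx1 hy2)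
    intro h
    exact h2 (by rw [← h, hP.adj_adj])
  by_cases n1 : SameNode sh (base P b) (base P c)
  · exact fs_node hP hN hV z g1 n1 hx1 hx2
  by_cases n2 : SameNode sh (base P b) (P.opp (base P c))
  · exact fs_sym_c hP (fs_node hP hN hV z (by rw [hca]; exact g2) (by rw [hca]; exact n2) hx1 hy2)
  by_cases n3 : SameNode sh (P.opp (base P b)) (base P c)
  · refine fs_sym_b hP (fs_node hP hN hV z ?_ (by rw [hba]; exact n3) hy1 hx2)
    rw [hba]
    intro h
    exact g2 (by rw [← h, opp_opp hP he])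
  by_cases n4 : SameNode sh (P.opp (base P b)) (P.opp (base P c))
  · refine fs_sym_b hP (fs_sym_c hP (fs_node hP hN hV z ?_ (by rw [hba, hca]; exact n4) hy1 hy2))
    rw [hba, hca]
    intro h
    exact g1 (by rw [← opp_opp hP he, h, opp_opp hP hg])
  by_cases n5 : ∃ v i, P.ed v i = base P b ∧
      (P.ed v (i + 1) = base P c ∨ P.ed v (i + 3) = base P c)
  · obtain ⟨v, i, h3, h4 | h4⟩ := n5
    · exact fs_cross hP hN hV z h3 h4 hx1 hx2
    · refine fs_sym_c hP (fs_cross hP hN hV z h3 ?_ hx1 hy2)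
      rw [hca, ← h4, hP.opp_ed]
      have : (3 + 2 : ZMod 4) = 1 := by decide
      rw [add_assoc, this]
  exfalso
  obtain ⟨s, hs⟩ := fs_param hP hV z hx1
  obtain ⟨t, ht⟩ := fs_param hP hV z hx2
  exact sep_disj (fs_at2 _ he hN) (fs_at2 _ (opp_end hP he) hN) (fs_at2 _ hg hN)
    (fs_at2 _ (opp_end hP hg) hN) (hV.sep _ _ he hg ⟨n1, n2, n3, n4, n5⟩)
    (fs_stick hV hs) (fs_stick hV ht)

end SN78
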