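import Pool.Agent.SN78.Open

/-!
# SN78 module GBASE: basic facts on the composite picture

Notation: child ends `c : Bead (Vc X) (Nc X) Empty Unit` are nodes `inr (a, b)` or outer ends
`inl (.o () i)`.  By `Setup.fin` the opposite end of an outer end is a node, hence
`(C X).adj (inl (.o () i))` is never an outer bead (if it were, it would be `opp`).  The default
arguments `d` of `dnb, inc, incE, out, outE` are then irrelevant.

* `glue_ed_l`, `glue_ed_r`: by definition, the defaults are irrelevant because `ed` values are ends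
  (`Ok.ed_end`) and because of `fin`.
* `glue_opp_inc`: let `e` be an end of the parent.  (a) `e` is a node or an outer end: then
  `adj' (emb e) = inc (P.adj e)`.  If `P.adj e = x v i` then `opp' = ed' (inl v) (i + 2)` is
  `incE (P.ed v (i + 2)) = incE (P.opp e)`.  If `P.adj e` is a node or outer, clear.  If
  `P.adj e = f X i` then the next bead is `(C X).adj (o i)`: if it is a node it is
  `(C X).opp (o i)`; if it is `x v j` then `opp' = ed' (inr v) (j + 2) = outE ((C X).ed v (j + 2))`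
  and `(C X).ed v (j + 2) = (C X).opp (o i)` is a node.
  (b) `e = f X i`: `incE e` is the child node `c = (C X).opp (o i)`, `(C X).opp c = o i`, so by
  `glue_opp_node` the value is `outE (o i) = incE (P.opp (f X i))`.
* `glue_opp_node`: the same computation for a node `c` of the child `X`:
  if `(C X).adj c = x v i`: `opp' = ed' (inr v) (i + 2) = outE ((C X).ed v (i + 2))`.  If
  `(C X).adj c` is a node, clear.  If `(C X).adj c = o i` then `(C X).opp c = o i`, and the next bead is
  `inc (P.adj (f X i))`; compute as in (a) that `opp'` is `incE (P.opp (f X i))`.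
* positions: by the definitions of `gLab`, `qpos`, `zoom` and `shrink_zoom`.
* `tendsto_qpos`: `shrink c s p → p 2 • c = c` for `p 2 = 1`.
* `tendsto_hLab`: the outer point `i` is `zoom (L.f X) s (qpos ..) →
  ![Q 0 - Q 2 * c 0, Q 1 - Q 2 * c 1, 0]` with `Q = L.at (P.opp (f X i))`, `c = L.f X`, and this is
  `P.dir L X i` because `c 2 = 1`.
-/

namespace SN78

open Sum Filter Topology

variable {V N F O : Type} {Vc Nc : F → Type} {P : Pic V N F O}
  {C : ∀ X, Pic (Vc X) (Nc X) Empty Unit} {L : Lab N F O H}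
  {M : ∀ X, Lab (Nc X) Empty Unit H} {sh : O → ZMod 4 → Prop}

theorem adj_o_ne (S : Setup P C L M sh) (X : F) (i j : ZMod 4) :
    (C X).adj (inl (.o () i)) ≠ inl (.o () j) := by
  intro h
  obtain ⟨a, b, hab⟩ := S.fin X i
  have h1 : (C X).opp (inl (.o () i)) = inl (.o () j) := by
    unfold Pic.opp
    rw [h]
  rw [h1] at hab
  cases hab

private theorem gbase_incE_dflt (S : Setup P C L M sh) {e : Bead V N F O} (he : IsEnd e)
    (d d' : Bead (GV V Vc) (GV N Nc) Empty O) : incE C d e = incE C d' e := by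
  rcases e with (⟨v, i⟩ | ⟨X, i⟩ | ⟨a, i⟩) | ⟨a, b⟩
  · exact he.elim
  · obtain ⟨a, b, hab⟩ := S.fin X i
    change dnb X d ((C X).opp (inl (.o () i))) = dnb X d' ((C X).opp (inl (.o () i)))
    rw [hab]
    rfl
  · rfl
  · rfl

theorem glue_ed_l (S : Setup P C L M sh) (v : V) (i : ZMod 4)
    (d : Bead (GV V Vc) (GV N Nc) Empty O) :
    (glue P C).ed (inl v) i = incE C d (P.ed v i) :=
  gbase_incE_dflt S (S.okP.ed_end v i) _ _

private theorem gbase_outE_dflt (S : Setup P C L M sh) (X : F)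
    {c : Bead (Vc X) (Nc X) Empty Unit} (hc : IsEnd c)
    (d d' : Bead (GV V Vc) (GV N Nc) Empty O) : outE P C X d c = outE P C X d' c := by
  rcases c with (⟨v, i⟩ | ⟨e, i⟩ | ⟨u, i⟩) | ⟨a, b⟩
  · exact hc.elim
  · exact e.elim
  · exact gbase_incE_dflt S (opp_end S.okP (by trivial)) _ _
  · rfl

theorem glue_ed_r (S : Setup P C L M sh) (X : F) (v : Vc X) (i : ZMod 4)
    (d : Bead (GV V Vc) (GV N Nc) Empty O) :
    (glue P C).ed (inr ⟨X, v⟩) i = outE P C X d ((C X).ed v i) :=
  gbase_outE_dflt S X ((S.okC X).ed_end v i) _ _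

private theorem gbase_opp_x {V N F O : Type} {Q : Pic V N F O} {e : Bead V N F O} {v : V}
    {i : ZMod 4} (h : Q.adj e = inl (.x v i)) : Q.opp e = Q.ed v (i + 2) := by
  unfold Pic.opp
  rw [h]

private theorem gbase_opp_b {V N F O : Type} {Q : Pic V N F O} {e b : Bead V N F O}
    (h : Q.adj e = b) (hb : IsEnd b) : Q.opp e = b := by
  unfold Pic.opp
  rw [h]
  rcases b with (⟨v, i⟩ | ⟨X, i⟩ | ⟨a, i⟩) | ⟨a, b⟩
  · exact hb.elim
  · rfl
  · rfl
  · rfl

private theorem gbase_common (S : Setup P C L M sh) {e : Bead V N F O}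
    {e' : Bead (GV V Vc) (GV N Nc) Empty O} (d0 d : Bead (GV V Vc) (GV N Nc) Empty O)
    (h : (glue P C).adj e' = inc C d0 (P.adj e)) :
    (glue P C).opp e' = incE C d (P.opp e) := by
  rcases hb : P.adj e with (⟨v, i⟩ | ⟨X, i⟩ | ⟨a, i⟩) | ⟨a, b⟩
  · rw [hb] at h
    rw [gbase_opp_x hb]
    rw [gbase_opp_x (Q := glue P C) (e := e') (v := inl v) (i := i) h]
    exact glue_ed_l S v (i + 2) d
  · rw [hb] at h
    rw [gbase_opp_b hb (by trivial)]
    obtain ⟨a, b, hab⟩ := S.fin X i
    have h' : (glue P C).adj e' = dnb X d0 ((C X).adj (inl (.o () i))) := h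
    change (glue P C).opp e' = dnb X d ((C X).opp (inl (.o () i)))
    rcases hc : (C X).adj (inl (.o () i)) with (⟨v, j⟩ | ⟨e, j⟩ | ⟨u, j⟩) | ⟨a', b'⟩
    · rw [hc] at h'
      have h1 : (C X).opp (inl (.o () i)) = (C X).ed v (j + 2) := gbase_opp_x hc
      have h2 := glue_ed_r S X v (j + 2) d
      rw [← h1, hab] at h2
      rw [hab, gbase_opp_x (Q := glue P C) (e := e') (v := inr ⟨X, v⟩) (i := j) h']
      exact h2
    · exact e.elim
    · exact absurd hc (adj_o_ne S X i j)
    · rw [hc] at h'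
      rw [gbase_opp_b hc (by trivial)]
      exact gbase_opp_b h' (by trivial)
  · rw [hb] at h
    rw [gbase_opp_b hb (by trivial)]
    exact gbase_opp_b h (by trivial)
  · rw [hb] at h
    rw [gbase_opp_b hb (by trivial)]
    exact gbase_opp_b h (by trivial)

private theorem gbase_opp_node (S : Setup P C L M sh) (X : F) (a : Nc X) (b : Bool)
    (d : Bead (GV V Vc) (GV N Nc) Empty O) :
    (glue P C).opp (inr (inr ⟨X, a⟩, b)) = outE P C X d ((C X).opp (inr (a, b))) := by
  have hadj : (glue P C).adj (inr (inr ⟨X, a⟩, b)) =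
      out P C X (inr (inr ⟨X, a⟩, b)) ((C X).adj (inr (a, b))) := rfl
  rcases hc : (C X).adj (inr (a, b)) with (⟨v, j⟩ | ⟨e, j⟩ | ⟨u, j⟩) | ⟨a', b'⟩
  · have h1 : (C X).opp (inr (a, b)) = (C X).ed v (j + 2) := by
      unfold Pic.opp
      rw [hc]
    have h2 : (glue P C).opp (inr (inr ⟨X, a⟩, b)) = (glue P C).ed (inr ⟨X, v⟩) (j + 2) := by
      unfold Pic.opp
      rw [hadj, hc]
      rfl
    rw [h1, h2]
    exact glue_ed_r S X v (j + 2) d
  · exact e.elim
  · have h1 : (C X).opp (inr (a, b)) = inl (.o u j) := by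
      unfold Pic.opp
      rw [hc]
    rw [h1]
    rw [hc] at hadj
    exact gbase_common S (e := inl (.f X j)) _ d hadj
  · have h1 : (C X).opp (inr (a, b)) = inr (a', b') := by
      unfold Pic.opp
      rw [hc]
    have h2 : (glue P C).opp (inr (inr ⟨X, a⟩, b)) = inr (inr ⟨X, a'⟩, b') := by
      unfold Pic.opp
      rw [hadj, hc]
      rfl
    rw [h1, h2]
    rfl

theorem glue_opp_inc (S : Setup P C L M sh) {e : Bead V N F O} (he : IsEnd e)
    (d d' : Bead (GV V Vc) (GV N Nc) Empty O) :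
    (glue P C).opp (incE C d e) = incE C d' (P.opp e) := by
  rcases e with (⟨v, i⟩ | ⟨X, i⟩ | ⟨a, i⟩) | ⟨a, b⟩
  · exact he.elim
  · obtain ⟨a, b, hab⟩ := S.fin X i
    have h1 : incE C d (inl (.f X i)) = inr (inr ⟨X, a⟩, b) := by
      change dnb X d ((C X).opp (inl (.o () i))) = _
      rw [hab]
      rfl
    have h2 : (C X).opp (inr (a, b)) = inl (.o () i) := by
      rw [← hab]
      exact opp_opp (S.okC X) (by trivial)
    rw [h1, gbase_opp_node S X a b d', h2]
    rfl
  · exact gbase_common S (e := inl (.o a i)) (e' := inl (.o a i)) (inl (.o a i)) d' rfl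
  · exact gbase_common S (e := inr (a, b)) (e' := inr (inl a, b)) (inr (inl a, b)) d' rfl

theorem glue_opp_node (S : Setup P C L M sh) (X : F) (a : Nc X) (b : Bool)
    (d : Bead (GV V Vc) (GV N Nc) Empty O) :
    (glue P C).opp (inr (inr ⟨X, a⟩, b)) = outE P C X d ((C X).opp (inr (a, b))) :=
  gbase_opp_node S X a b d

theorem gLab_incE (S : Setup P C L M sh) (s : ℝ) {e : Bead V N F O} (he : IsEnd e)
    (d : Bead (GV V Vc) (GV N Nc) Empty O) :
    (gLab L M s).at (incE C d e) = qpos C L M s e := by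
  rcases e with (⟨v, i⟩ | ⟨X, i⟩ | ⟨a, i⟩) | ⟨a, b⟩
  · exact he.elim
  · obtain ⟨a, b, hab⟩ := S.fin X i
    have h1 : incE C d (inl (.f X i)) = inr (inr ⟨X, a⟩, b) := by
      change dnb X d ((C X).opp (inl (.o () i))) = _
      rw [hab]
      rfl
    have h2 : qpos C L M s (inl (.f X i) : Bead V N F O) = shrink (L.f X) s ((M X).n a) := by
      unfold qpos
      simp only [hab]
    rw [h1, h2]
    rfl
  · rfl
  · rfl

/-- the factor between actual and rescaled positions -/
def lam (s : ℝ) {V N : Type} : Bead V N Empty Unit → ℝ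
  | inl (.o _ _) => s
  | _ => 1

private theorem gbase_shrink_zoom (c : H) (s : ℝ) (Q : H) :
    shrink c s (zoom c s Q) = s • Q := by
  funext k
  fin_cases k
  · simp [shrink, zoom]; ring
  · simp [shrink, zoom]; ring
  · simp [shrink, zoom]

theorem shrink_hLab (S : Setup P C L M sh) (s : ℝ) (X : F)
    {c : Bead (Vc X) (Nc X) Empty Unit} (hc : IsEnd c) (d : Bead (GV V Vc) (GV N Nc) Empty O) :
    shrink (L.f X) s ((hLab P C L M s X).at c) =
      lam s c • (gLab L M s).at (outE P C X d c) := by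
  rcases c with (⟨v, i⟩ | ⟨e, i⟩ | ⟨u, i⟩) | ⟨a, b⟩
  · exact hc.elim
  · exact e.elim
  · change shrink (L.f X) s (zoom (L.f X) s (qpos C L M s (P.opp (inl (.f X i))))) =
      s • (gLab L M s).at (incE C d (P.opp (inl (.f X i))))
    rw [gbase_shrink_zoom, gLab_incE S s (opp_end S.okP (by trivial)) d]
  · change shrink (L.f X) s ((M X).n a) = (1 : ℝ) • shrink (L.f X) s ((M X).n a)
    rw [one_smul]

private theorem gbase_tendsto_vec {f : ℝ → H} {c : H} {l : Filter ℝ}
    (h : ∀ k, Tendsto (fun s => f s k) l (𝓝 (c k))) : Tendsto f l (𝓝 c) :=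
  tendsto_pi_nhds.2 h

private theorem gbase_tendsto_shrink (c p : H) (hc : c 2 = 1) (hp : p 2 = 1) :
    Tendsto (fun s => shrink c s p) (𝓝[>] (0 : ℝ)) (𝓝 c) := by
  have key : Tendsto (fun s => shrink c s p) (𝓝 (0 : ℝ)) (𝓝 c) := by
    apply gbase_tendsto_vec
    intro k
    fin_cases k
    · change Tendsto (fun s => s * p 0 + p 2 * c 0) (𝓝 (0 : ℝ)) (𝓝 (c 0))
      have h : Continuous (fun s : ℝ => s * p 0 + p 2 * c 0) := by fun_prop
      have h0 := h.tendsto 0
      rw [zero_mul, zero_add] at h0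
      rw [hp, one_mul] at h0
      rw [hp]
      rw [one_mul]
      exact h0
    · change Tendsto (fun s => s * p 1 + p 2 * c 1) (𝓝 (0 : ℝ)) (𝓝 (c 1))
      have h : Continuous (fun s : ℝ => s * p 1 + p 2 * c 1) := by fun_prop
      have h0 := h.tendsto 0
      rw [zero_mul, zero_add] at h0
      rw [hp, one_mul] at h0
      rw [hp]
      rw [one_mul]
      exact h0
    · change Tendsto (fun _ => p 2) (𝓝 (0 : ℝ)) (𝓝 (c 2))
      rw [hp, hc]
      exact tendsto_const_nhds
  exact key.mono_left nhdsWithin_le_nhds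

theorem tendsto_qpos (S : Setup P C L M sh) {e : Bead V N F O} (he : IsEnd e) :
    Tendsto (fun s => qpos C L M s e) (𝓝[>] (0 : ℝ)) (𝓝 (L.at e)) := by
  rcases e with (⟨v, i⟩ | ⟨X, i⟩ | ⟨a, i⟩) | ⟨a, b⟩
  · exact he.elim
  · obtain ⟨a, b, hab⟩ := S.fin X i
    have h2 : ∀ s, qpos C L M s (inl (.f X i) : Bead V N F O) =
        shrink (L.f X) s ((M X).n a) := by
      intro s
      unfold qpos
      simp only [hab]
    change Tendsto (fun s => qpos C L M s (inl (.f X i) : Bead V N F O)) _ (𝓝 (L.f X))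
    simp only [h2]
    exact gbase_tendsto_shrink _ _ (S.nL.f X) ((S.nM X).n a)
  · exact tendsto_const_nhds
  · exact tendsto_const_nhds

theorem tendsto_hLab (S : Setup P C L M sh) (X : F) (c : Bead (Vc X) (Nc X) Empty Unit) :
    Tendsto (fun s => (hLab P C L M s X).at c) (𝓝[>] (0 : ℝ)) (𝓝 ((M X).at c)) := by
  rcases c with (⟨v, i⟩ | ⟨e, i⟩ | ⟨u, i⟩) | ⟨a, b⟩
  · exact tendsto_const_nhds
  · exact e.elim
  · change Tendsto (fun s => zoom (L.f X) s (qpos C L M s (P.opp (inl (.f X i)))))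
      (𝓝[>] (0 : ℝ)) (𝓝 ((M X).o () i))
    have hq := tendsto_pi_nhds.1 (tendsto_qpos (P := P) S (e := P.opp (inl (.f X i)))
      (opp_end S.okP (by trivial)))
    rw [S.dir X i]
    have hf := S.nL.f X
    have hs : Tendsto (fun s : ℝ => s) (𝓝[>] (0 : ℝ)) (𝓝 0) :=
      tendsto_id.mono_left nhdsWithin_le_nhds
    apply gbase_tendsto_vec
    intro k
    fin_cases k
    · change Tendsto (fun s => qpos C L M s (P.opp (inl (.f X i))) 0 -
        qpos C L M s (P.opp (inl (.f X i))) 2 * L.f X 0) _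
        (𝓝 (L.at (P.opp (inl (.f X i))) 0 - L.at (P.opp (inl (.f X i))) 2 * L.f X 0))
      exact (hq 0).sub ((hq 2).mul tendsto_const_nhds)
    · change Tendsto (fun s => qpos C L M s (P.opp (inl (.f X i))) 1 -
        qpos C L M s (P.opp (inl (.f X i))) 2 * L.f X 1) _
        (𝓝 (L.at (P.opp (inl (.f X i))) 1 - L.at (P.opp (inl (.f X i))) 2 * L.f X 1))
      exact (hq 1).sub ((hq 2).mul tendsto_const_nhds)
    · change Tendsto (fun s => s * qpos C L M s (P.opp (inl (.f X i))) 2) _
        (𝓝 (L.at (P.opp (inl (.f X i))) 2 - L.at (P.opp (inl (.f X i))) 2 * L.f X 2))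
      rw [hf, mul_one, sub_self]
      have h0 := hs.mul (hq 2)
      rw [zero_mul] at h0
      exact h0
  · exact tendsto_const_nhds

end SN78
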