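import Pool.Agent.SN78.GBase

/-!
# SN78 module GCR: crossings, bends and common outer points of the composite

`kap_l`: by `glue_ed_l` and `gLab_incE`.
`kap_r`: by `glue_ed_r`, `shrink_hLab`, `dt_shrink`, `dt_smul₁₂₃`.
Then everything follows from the validity of the parent at the positions `qpos` and of the children
at the rescaled positions `hLab`.  For bends of child nodes use `glue_opp_node`, `shrink_hLab`,
`dt_shrink`; for bends of parent nodes and for `shr` use `glue_opp_inc` and `gLab_incE`.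
-/

namespace SN78

open Sum

variable {V N F O : Type} {Vc Nc : F → Type} {P : Pic V N F O}
  {C : ∀ X, Pic (Vc X) (Nc X) Empty Unit} {L : Lab N F O H}
  {M : ∀ X, Lab (Nc X) Empty Unit H} {sh : O → ZMod 4 → Prop}

private theorem gcr_lam_pos {s : ℝ} (hs : 0 < s) {V N : Type} (c : Bead V N Empty Unit) :
    0 < lam s c := by
  rcases c with (⟨v, i⟩ | ⟨a, i⟩ | ⟨a, i⟩) | ⟨a, b⟩
  · exact one_pos
  · exact one_pos
  · exact hs
  · exact one_pos

/-- determinants of child ends in the composite -/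
private theorem gcr_dt (S : Setup P C L M sh) (s : ℝ) (X : F)
    {a b c : Bead (Vc X) (Nc X) Empty Unit} (ha : IsEnd a) (hb : IsEnd b) (hc : IsEnd c)
    (d₁ d₂ d₃ : Bead (GV V Vc) (GV N Nc) Empty O) :
    lam s a * lam s b * lam s c *
      dt ((gLab L M s).at (outE P C X d₁ a)) ((gLab L M s).at (outE P C X d₂ b))
        ((gLab L M s).at (outE P C X d₃ c)) =
      s ^ 2 * dt ((hLab P C L M s X).at a) ((hLab P C L M s X).at b)
        ((hLab P C L M s X).at c) := by
  rw [← dt_shrink (L.f X), shrink_hLab S s X ha d₁, shrink_hLab S s X hb d₂,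
    shrink_hLab S s X hc d₃, dt_smul₁, dt_smul₂, dt_smul₃]
  ring

theorem kap_l (S : Setup P C L M sh) (s : ℝ) (v : V) (i : ZMod 4) :
    (glue P C).kap (gLab L M s).at (inl v) i = P.kap (qpos C L M s) v i := by
  unfold Pic.kap
  rw [glue_ed_l S v (i + 3) (inl (.x (inl v) i)), glue_ed_l S v i (inl (.x (inl v) i)),
    glue_ed_l S v (i + 1) (inl (.x (inl v) i)), gLab_incE S s (S.okP.ed_end v _),
    gLab_incE S s (S.okP.ed_end v _), gLab_incE S s (S.okP.ed_end v _)]

theorem kap_r (S : Setup P C L M sh) (s : ℝ) (X : F) (v : Vc X) (i : ZMod 4) :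
    lam s ((C X).ed v (i + 3)) * lam s ((C X).ed v i) * lam s ((C X).ed v (i + 1)) *
      (glue P C).kap (gLab L M s).at (inr ⟨X, v⟩) i = s ^ 2 * (C X).kap (hLab P C L M s X).at v i := by
  unfold Pic.kap
  rw [glue_ed_r S X v (i + 3) (inl (.x (inr ⟨X, v⟩) i)),
    glue_ed_r S X v i (inl (.x (inr ⟨X, v⟩) i)),
    glue_ed_r S X v (i + 1) (inl (.x (inr ⟨X, v⟩) i))]
  exact gcr_dt S s X ((S.okC X).ed_end v _) ((S.okC X).ed_end v _) ((S.okC X).ed_end v _) _ _ _

theorem glue_cr (S : Setup P C L M sh) {s : ℝ} (hs : 0 < s) (hv : P.Valid sh (qpos C L M s))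
    (hc : ∀ X, (C X).Valid (fun _ => no) (hLab P C L M s X).at) (v : GV V Vc) (i : ZMod 4) :
    0 < (glue P C).kap (gLab L M s).at v i := by
  rcases v with v | ⟨X, v⟩
  · rw [kap_l S s v i]
    exact hv.cr v i
  · have h := kap_r S s X v i
    have h1 : 0 < s ^ 2 * (C X).kap (hLab P C L M s X).at v i :=
      mul_pos (pow_pos hs 2) ((hc X).cr v i)
    rw [← h] at h1
    have h2 : 0 < lam s ((C X).ed v (i + 3)) * lam s ((C X).ed v i) *
        lam s ((C X).ed v (i + 1)) :=
      mul_pos (mul_pos (gcr_lam_pos hs _) (gcr_lam_pos hs _)) (gcr_lam_pos hs _)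
    exact (mul_pos_iff_of_pos_left h2).1 h1

theorem glue_bend (S : Setup P C L M sh) {s : ℝ} (hs : 0 < s) (hv : P.Valid sh (qpos C L M s))
    (hc : ∀ X, (C X).Valid (fun _ => no) (hLab P C L M s X).at) (a : GV N Nc) :
    dt ((gLab L M s).at (.inr (a, true) : Bead (GV V Vc) (GV N Nc) Empty O))
      ((gLab L M s).at ((glue P C).opp (.inr (a, true))))
      ((gLab L M s).at ((glue P C).opp (.inr (a, false)))) ≠ 0 := by
  rcases a with a | ⟨X, a⟩
  · have e1 : IsEnd (inr (a, true) : Bead V N F O) := trivial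
    have e2 : IsEnd (inr (a, false) : Bead V N F O) := trivial
    have h1 := glue_opp_inc S e1 (inr (inl a, true)) (inr (inl a, true))
    have h2 := glue_opp_inc S e2 (inr (inl a, true)) (inr (inl a, true))
    have h3 : (glue P C).opp (inr (inl a, true)) =
      incE C (inr (inl a, true)) (P.opp (inr (a, true))) := h1
    have h4 : (glue P C).opp (inr (inl a, false)) =
      incE C (inr (inl a, true)) (P.opp (inr (a, false))) := h2
    rw [h3, h4, gLab_incE S s (opp_end S.okP e1), gLab_incE S s (opp_end S.okP e2)]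
    exact hv.bend a
  · have e1 : IsEnd (inr (a, true) : Bead (Vc X) (Nc X) Empty Unit) := trivial
    have e2 : IsEnd (inr (a, false) : Bead (Vc X) (Nc X) Empty Unit) := trivial
    have h := gcr_dt S s X e1 (opp_end (S.okC X) e1) (opp_end (S.okC X) e2)
      (inr (inr ⟨X, a⟩, true)) (inr (inr ⟨X, a⟩, true)) (inr (inr ⟨X, a⟩, true))
    rw [← glue_opp_node S X a true, ← glue_opp_node S X a false] at h
    intro h0
    have h5 : outE P C X (inr (inr ⟨X, a⟩, true)) (inr (a, true)) =
      (inr (inr ⟨X, a⟩, true) : Bead (GV V Vc) (GV N Nc) Empty O) := rfl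
    rw [h5, h0, mul_zero] at h
    exact mul_ne_zero (pow_pos hs 2).ne' ((hc X).bend a) h.symm

theorem glue_shr (S : Setup P C L M sh) {s : ℝ} (hs : 0 < s) (hv : P.Valid sh (qpos C L M s))
    (a : O) (i : ZMod 4) (hi : sh a i) :
    0 < dt ((gLab L M s).at (.inl (.o a i) : Bead (GV V Vc) (GV N Nc) Empty O))
      ((gLab L M s).at ((glue P C).opp (.inl (.o a (i + 1)))))
      ((gLab L M s).at ((glue P C).opp (.inl (.o a i)))) := by
  have e1 : IsEnd (inl (.o a (i + 1)) : Bead V N F O) := trivial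
  have e2 : IsEnd (inl (.o a i) : Bead V N F O) := trivial
  have h3 : (glue P C).opp (inl (.o a (i + 1))) =
    incE C (inl (.o a i)) (P.opp (inl (.o a (i + 1)))) :=
    glue_opp_inc S e1 (inl (.o a i)) (inl (.o a i))
  have h4 : (glue P C).opp (inl (.o a i)) =
    incE C (inl (.o a i)) (P.opp (inl (.o a i))) :=
    glue_opp_inc S e2 (inl (.o a i)) (inl (.o a i))
  rw [h3, h4, gLab_incE S s (opp_end S.okP e1), gLab_incE S s (opp_end S.okP e2)]
  exact hv.shr a i hi

end SN78
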