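import Pool.Agent.SN78.GBase

/-!
# SN78 module GOK: the composite picture satisfies the axioms

All by case analysis with the lemmas of GBase (never unfold defaults by hand: use
`glue_ed_l, glue_ed_r, glue_opp_inc, glue_opp_node`, and `adj_o_ne`).
* `adj_adj`: walking back.  E.g. for `b = x (inl v) i` with `P.adj (x v i) = f X j` the next bead is
  the first bead `c = (C X).adj (o j)` of the child, `(C X).adj c = o j`, and the next bead outside is
  `inc (P.adj (f X j)) = inc (x v i) = b`.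
* `adj_ne`: if `adj' b = b` for a child bead `b` with `(C X).adj b = o j`: then
  `P.adj (f X j) = f X k` with `(C X).adj (o k) = b`, so `(C X).adj b = o k`, `k = j`,
  contradicting `P.adj (f X j) ≠ f X j`.
* `ed_x`: for adjacent crossings `v` (parent) and `w` (child `X`, entered through `f X k`):
  `P.ed v i = f X k`, `(C X).adj (o k) = x w j`, `(C X).opp (o k) = (C X).ed w (j + 2)`, so both sides
  are the child node `(C X).opp (o k)`.  Similarly in the other cases.
* `ed_e`: similar.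
* `opp_ed`: `glue_opp_inc` / `glue_opp_node` and `opp_ed` of the parts; if the child end
  `(C X).ed v i` is outer, `= o k`, then `ed' = incE (P.opp (f X k))` and by `glue_opp_inc`
  `opp' (ed') = incE (P.opp (P.opp (f X k))) = incE (f X k)` = the child node
  `(C X).opp (o k) = (C X).opp ((C X).ed v i) = (C X).ed v (i + 2)`.
-/

namespace SN78

open Sum

variable {V N F O : Type} {Vc Nc : F → Type} {P : Pic V N F O}
  {C : ∀ X, Pic (Vc X) (Nc X) Empty Unit} {L : Lab N F O H}
  {M : ∀ X, Lab (Nc X) Empty Unit H} {sh : O → ZMod 4 → Prop}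

/-- `inc` does not depend on the default -/
private theorem gok_inc_d (S : Setup P C L M sh) (d d' : Bead (GV V Vc) (GV N Nc) Empty O)
    (b : Bead V N F O) : inc C d b = inc C d' b := by
  rcases b with (⟨v, i⟩ | ⟨X, i⟩ | ⟨a, i⟩) | ⟨a, c⟩
  · rfl
  · show dnb X d ((C X).adj (inl (.o () i))) = dnb X d' ((C X).adj (inl (.o () i)))
    rcases h : (C X).adj (inl (.o () i)) with (⟨v, j⟩ | ⟨e, j⟩ | ⟨a, j⟩) | ⟨a, c⟩
    · rfl
    · exact e.elim
    · exact (adj_o_ne S X i j h).elim
    · rfl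
  · rfl
  · rfl

private theorem gok_out_d (S : Setup P C L M sh) (d d' : Bead (GV V Vc) (GV N Nc) Empty O)
    (X : F) (b : Bead (Vc X) (Nc X) Empty Unit) : out P C X d b = out P C X d' b := by
  rcases b with (⟨v, i⟩ | ⟨e, i⟩ | ⟨a, i⟩) | ⟨a, c⟩
  · rfl
  · exact e.elim
  · exact gok_inc_d S d d' _
  · rfl

/-- the involution of the composite on the beads of a child -/
private theorem gok_adj_dnb (S : Setup P C L M sh) (d d' : Bead (GV V Vc) (GV N Nc) Empty O)
    (X : F) (b : Bead (Vc X) (Nc X) Empty Unit) (hb : ∀ j, b ≠ inl (.o () j)) :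
    (glue P C).adj (dnb X d b) = out P C X d' ((C X).adj b) := by
  rcases b with (⟨v, i⟩ | ⟨e, i⟩ | ⟨a, i⟩) | ⟨a, c⟩
  · exact gok_out_d S _ d' X _
  · exact e.elim
  · exact (hb i rfl).elim
  · exact gok_out_d S _ d' X _

/-- the involution of the composite on the beads of the parent -/
private theorem gok_adj_inc (S : Setup P C L M sh) (d d' : Bead (GV V Vc) (GV N Nc) Empty O)
    (b : Bead V N F O) : (glue P C).adj (inc C d b) = inc C d' (P.adj b) := by
  rcases b with (⟨v, i⟩ | ⟨X, i⟩ | ⟨a, i⟩) | ⟨a, c⟩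
  · exact gok_inc_d S _ d' _
  · show (glue P C).adj (dnb X d ((C X).adj (inl (.o () i)))) = _
    rw [gok_adj_dnb S d d' X _ (fun j h => adj_o_ne S X i j h), (S.okC X).adj_adj]
    rfl
  · exact gok_inc_d S _ d' _
  · exact gok_inc_d S _ d' _

private theorem gok_dnb_inj (d : Bead (GV V Vc) (GV N Nc) Empty O)
    (X Y : F) (b : Bead (Vc X) (Nc X) Empty Unit) (c : Bead (Vc Y) (Nc Y) Empty Unit)
    (hb : ∀ j, b ≠ inl (.o () j)) (hc : ∀ j, c ≠ inl (.o () j))
    (h : dnb X d b = dnb Y d c) : ∃ e : X = Y, e ▸ b = c := by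
  rcases b with (⟨v, i⟩ | ⟨e, i⟩ | ⟨a, i⟩) | ⟨a, t⟩
  · rcases c with (⟨w, j⟩ | ⟨e, j⟩ | ⟨b, j⟩) | ⟨b, u⟩
    · simp only [dnb, Sum.inl.injEq, SD.x.injEq, Sum.inr.injEq, Sigma.mk.injEq] at h
      obtain ⟨⟨h1, h2⟩, h3⟩ := h
      subst h1
      cases h2
      subst h3
      exact ⟨rfl, rfl⟩
    · exact e.elim
    · exact (hc j rfl).elim
    · simp [dnb] at h
  · exact e.elim
  · exact (hb i rfl).elim
  · rcases c with (⟨w, j⟩ | ⟨e, j⟩ | ⟨b, j⟩) | ⟨b, u⟩
    · simp [dnb] at h
    · exact e.elim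
    · exact (hc j rfl).elim
    · simp only [dnb, Sum.inr.injEq, Prod.mk.injEq, Sigma.mk.injEq] at h
      obtain ⟨⟨h1, h2⟩, h3⟩ := h
      subst h1
      cases h2
      subst h3
      exact ⟨rfl, rfl⟩

/-- `inc` is injective -/
private theorem gok_inc_inj (S : Setup P C L M sh) (d : Bead (GV V Vc) (GV N Nc) Empty O)
    (b c : Bead V N F O) (h : inc C d b = inc C d c) : b = c := by
  have key : ∀ (X : F) (i : ZMod 4) (c : Bead V N F O),
      inc C d (inl (.f X i)) = inc C d c → inl (.f X i) = c := by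
    intro X i c h
    have h0 : inc C d (inl (.f X i)) = dnb X d ((C X).adj (inl (.o () i))) := rfl
    rw [h0] at h
    rcases h1 : (C X).adj (inl (.o () i)) with (⟨v, j⟩ | ⟨e, j⟩ | ⟨a, j⟩) | ⟨a, t⟩
    · rcases c with (⟨w, j⟩ | ⟨Y, j⟩ | ⟨b, j⟩) | ⟨b, u⟩
      · simp [h1, inc, dnb] at h
      · have h2 : inc C d (inl (.f Y j)) = dnb Y d ((C Y).adj (inl (.o () j))) := rfl
        rw [h2] at h
        obtain ⟨e, he⟩ := gok_dnb_inj d X Y _ _ (fun k h => adj_o_ne S X i k h)
          (fun k h => adj_o_ne S Y j k h) h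
        subst e
        have h3 := congrArg (C X).adj he
        rw [(S.okC X).adj_adj, (S.okC X).adj_adj] at h3
        simp only [Sum.inl.injEq, SD.o.injEq, true_and] at h3
        rw [h3]
      · simp [h1, inc, dnb] at h
      · simp [h1, inc, dnb] at h
    · exact e.elim
    · exact (adj_o_ne S X i j h1).elim
    · rcases c with (⟨w, j⟩ | ⟨Y, j⟩ | ⟨b, j⟩) | ⟨b, u⟩
      · simp [h1, inc, dnb] at h
      · have h2 : inc C d (inl (.f Y j)) = dnb Y d ((C Y).adj (inl (.o () j))) := rfl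
        rw [h2] at h
        obtain ⟨e, he⟩ := gok_dnb_inj d X Y _ _ (fun k h => adj_o_ne S X i k h)
          (fun k h => adj_o_ne S Y j k h) h
        subst e
        have h3 := congrArg (C X).adj he
        rw [(S.okC X).adj_adj, (S.okC X).adj_adj] at h3
        simp only [Sum.inl.injEq, SD.o.injEq, true_and] at h3
        rw [h3]
      · simp [h1, inc, dnb] at h
      · simp [h1, inc, dnb] at h
  rcases b with (⟨v, i⟩ | ⟨X, i⟩ | ⟨a, i⟩) | ⟨a, t⟩
  · rcases c with (⟨w, j⟩ | ⟨Y, j⟩ | ⟨b, j⟩) | ⟨b, u⟩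
    · simpa [inc] using h
    · exact (key Y j _ h.symm).symm
    · simp [inc] at h
    · simp [inc] at h
  · exact key X i c h
  · rcases c with (⟨w, j⟩ | ⟨Y, j⟩ | ⟨b, j⟩) | ⟨b, u⟩
    · simp [inc] at h
    · exact (key Y j _ h.symm).symm
    · simpa [inc] using h
    · simp [inc] at h
  · rcases c with (⟨w, j⟩ | ⟨Y, j⟩ | ⟨b, j⟩) | ⟨b, u⟩
    · simp [inc] at h
    · exact (key Y j _ h.symm).symm
    · simp [inc] at h
    · simpa [inc] using h

/-- each bead of the composite comes from the parent or is an inner bead of a child -/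
private theorem gok_cases (S : Setup P C L M sh) (d : Bead (GV V Vc) (GV N Nc) Empty O)
    (b : Bead (GV V Vc) (GV N Nc) Empty O) :
    (∃ c, b = inc C d c) ∨ ∃ X c, (∀ j, c ≠ inl (.o () j)) ∧ (∀ j, (C X).adj c ≠ inl (.o () j)) ∧
      b = dnb X d c := by
  have key : ∀ (X : F) (c : Bead (Vc X) (Nc X) Empty Unit), (∀ j, c ≠ inl (.o () j)) →
      b = dnb X d c → (∃ c, b = inc C d c) ∨ ∃ X c, (∀ j, c ≠ inl (.o () j)) ∧
      (∀ j, (C X).adj c ≠ inl (.o () j)) ∧ b = dnb X d c := by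
    intro X c hc hb
    by_cases h : ∃ j, (C X).adj c = inl (.o () j)
    · obtain ⟨j, hj⟩ := h
      left
      refine ⟨inl (.f X j), ?_⟩
      show b = dnb X d ((C X).adj (inl (.o () j)))
      rw [← hj, (S.okC X).adj_adj]
      exact hb
    · right
      exact ⟨X, c, hc, fun j hj => h ⟨j, hj⟩, hb⟩
  rcases b with (⟨v | ⟨X, v⟩, i⟩ | ⟨e, i⟩ | ⟨a, i⟩) | ⟨a | ⟨X, a⟩, t⟩
  · exact Or.inl ⟨inl (.x v i), rfl⟩
  · exact key X (inl (.x v i)) (fun j h => by simp at h) rfl
  · exact e.elim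
  · exact Or.inl ⟨inl (.o a i), rfl⟩
  · exact Or.inl ⟨inr (a, t), rfl⟩
  · exact key X (inr (a, t)) (fun j h => by simp at h) rfl

private theorem gok_out_eq (d : Bead (GV V Vc) (GV N Nc) Empty O)
    (X : F) (c : Bead (Vc X) (Nc X) Empty Unit) (hc : ∀ j, c ≠ inl (.o () j)) :
    out P C X d c = dnb X d c := by
  rcases c with (⟨v, i⟩ | ⟨e, i⟩ | ⟨a, i⟩) | ⟨a, t⟩
  · rfl
  · exact e.elim
  · exact (hc i rfl).elim
  · rfl

private theorem gok_adj_adj (S : Setup P C L M sh) (b : Bead (GV V Vc) (GV N Nc) Empty O) :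
    (glue P C).adj ((glue P C).adj b) = b := by
  rcases gok_cases S b b with ⟨c, hc⟩ | ⟨X, c, h1, h2, h3⟩
  · have h : (glue P C).adj ((glue P C).adj (inc C b c)) = inc C b c := by
      rw [gok_adj_inc S b b, gok_adj_inc S b b, S.okP.adj_adj]
    rw [← hc] at h
    exact h
  · have h : (glue P C).adj ((glue P C).adj (dnb X b c)) = dnb X b c := by
      rw [gok_adj_dnb S b b X c h1, gok_out_eq b X _ h2, gok_adj_dnb S b b X _ h2,
        (S.okC X).adj_adj, gok_out_eq b X _ h1]
    rw [← h3] at h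
    exact h

private theorem gok_adj_ne (S : Setup P C L M sh) (b : Bead (GV V Vc) (GV N Nc) Empty O) :
    (glue P C).adj b ≠ b := by
  intro hb
  rcases gok_cases S b b with ⟨c, hc⟩ | ⟨X, c, h1, h2, h3⟩
  · have h := gok_adj_inc S b b c
    rw [← hc, hb] at h
    rw [hc] at h
    have h4 : inc C b c = inc C b (P.adj c) := by
      rw [← hc]
      conv_lhs => rw [← hb]
      conv_lhs => rw [hc]
      exact gok_adj_inc S b b c
    exact S.okP.adj_ne c (gok_inc_inj S b _ _ h4).symm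
  · have h4 : dnb X b c = dnb X b ((C X).adj c) := by
      rw [← gok_out_eq (P := P) (C := C) b X ((C X).adj c) h2, ← gok_adj_dnb S b b X c h1, ← h3]
      exact hb.symm
    obtain ⟨e, he⟩ := gok_dnb_inj b X X _ _ h1 h2 h4
    exact (S.okC X).adj_ne c he.symm

/-- the end of a port stick in the child is a node -/
private theorem gok_incE_end (S : Setup P C L M sh) (d : Bead (GV V Vc) (GV N Nc) Empty O)
    {e : Bead V N F O} (he : IsEnd e) : IsEnd (incE C d e) := by
  rcases e with (⟨v, i⟩ | ⟨X, i⟩ | ⟨a, i⟩) | ⟨a, c⟩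
  · exact he.elim
  · obtain ⟨a, b, h⟩ := S.fin X i
    show IsEnd (dnb X d ((C X).opp (inl (.o () i))))
    rw [h]
    trivial
  · trivial
  · trivial

private theorem gok_outE_end (S : Setup P C L M sh) (d : Bead (GV V Vc) (GV N Nc) Empty O)
    (X : F) {e : Bead (Vc X) (Nc X) Empty Unit} (he : IsEnd e) : IsEnd (outE P C X d e) := by
  rcases e with (⟨v, i⟩ | ⟨e, i⟩ | ⟨a, i⟩) | ⟨a, c⟩
  · exact he.elim
  · exact e.elim
  · exact gok_incE_end S d (opp_end S.okP (e := inl (.f X i)) trivial)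
  · trivial

private theorem gok_adj_of_end {V N F O : Type} (P : Pic V N F O) (e : Bead V N F O)
    (h : IsEnd (P.adj e)) : P.opp e = P.adj e := by
  unfold Pic.opp
  rcases h1 : P.adj e with (⟨v, i⟩ | ⟨a, i⟩ | ⟨a, i⟩) | ⟨a, c⟩
  · rw [h1] at h
    exact h.elim
  · rfl
  · rfl
  · rfl

private theorem gok_opp_x {V N F O : Type} (P : Pic V N F O) (e : Bead V N F O) (v : V)
    (i : ZMod 4) (h : P.adj e = inl (.x v i)) : P.opp e = P.ed v (i + 2) := by
  unfold Pic.opp
  rw [h]

/-- entering a child `X` through the port `k`: the first bead is a dart of a crossing -/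
private theorem gok_enter_x (S : Setup P C L M sh) (d d'' : Bead (GV V Vc) (GV N Nc) Empty O)
    (X : F) (k : ZMod 4) (w : GV V Vc) (j : ZMod 4)
    (h : dnb X d'' ((C X).adj (inl (.o () k))) = inl (.x w j)) :
    dnb X d ((C X).opp (inl (.o () k))) = (glue P C).ed w (j + 2) := by
  rcases h1 : (C X).adj (inl (.o () k)) with (⟨v, i⟩ | ⟨e, i⟩ | ⟨a, i⟩) | ⟨a, c⟩
  · rw [h1] at h
    simp only [dnb, Sum.inl.injEq, SD.x.injEq] at h
    obtain ⟨h2, h3⟩ := h
    subst h2
    subst h3
    rw [glue_ed_r S X v (i + 2) d, gok_opp_x (C X) _ v i h1]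
    obtain ⟨a, b, h4⟩ := S.fin X k
    rw [gok_opp_x (C X) _ v i h1] at h4
    rw [h4]
    rfl
  · exact e.elim
  · exact (adj_o_ne S X k i h1).elim
  · rw [h1] at h
    simp [dnb] at h

/-- walking out of the parent bead `f X k` or any other: `adj` is a dart of a crossing -/
private theorem gok_step_x (S : Setup P C L M sh) (d d' : Bead (GV V Vc) (GV N Nc) Empty O)
    (e : Bead V N F O) (w : GV V Vc) (j : ZMod 4)
    (h : inc C d' (P.adj e) = inl (.x w j)) :
    incE C d (P.opp e) = (glue P C).ed w (j + 2) := by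
  rcases h1 : P.adj e with (⟨v, i⟩ | ⟨X, i⟩ | ⟨a, i⟩) | ⟨a, c⟩
  · rw [h1] at h
    simp only [inc, Sum.inl.injEq, SD.x.injEq] at h
    obtain ⟨h2, h3⟩ := h
    subst h2
    subst h3
    rw [glue_ed_l S v (i + 2) d, gok_opp_x P _ v i h1]
  · have h2 : P.opp e = inl (.f X i) := by
      rw [gok_adj_of_end P e (by rw [h1]; trivial), h1]
    rw [h2]
    rw [h1] at h
    exact gok_enter_x S d d' X i w j h
  · rw [h1] at h
    simp [inc] at h
  · rw [h1] at h
    simp [inc] at h

/-- the same for ends -/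
private theorem gok_step_e (S : Setup P C L M sh) (d d' : Bead (GV V Vc) (GV N Nc) Empty O)
    (e : Bead V N F O) (h : IsEnd (inc C d' (P.adj e))) :
    incE C d (P.opp e) = inc C d' (P.adj e) := by
  rcases h1 : P.adj e with (⟨v, i⟩ | ⟨X, i⟩ | ⟨a, i⟩) | ⟨a, c⟩
  · rw [h1] at h
    exact h.elim
  · have h2 : P.opp e = inl (.f X i) := by
      rw [gok_adj_of_end P e (by rw [h1]; trivial), h1]
    rw [h2]
    rw [h1] at h
    show dnb X d ((C X).opp (inl (.o () i))) = dnb X d' ((C X).adj (inl (.o () i)))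
    replace h : IsEnd (dnb X d' ((C X).adj (inl (.o () i)))) := h
    rcases h3 : (C X).adj (inl (.o () i)) with (⟨v, j⟩ | ⟨e, j⟩ | ⟨a, j⟩) | ⟨a, c⟩
    · rw [h3] at h
      exact h.elim
    · exact e.elim
    · exact (adj_o_ne S X i j h3).elim
    · rw [gok_adj_of_end (C X) _ (by rw [h3]; trivial), h3]
      rfl
  · rw [gok_adj_of_end P e (by rw [h1]; trivial), h1]
    rfl
  · rw [gok_adj_of_end P e (by rw [h1]; trivial), h1]
    rfl

theorem glue_ok (S : Setup P C L M sh) : (glue P C).Ok where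
  adj_adj := gok_adj_adj S
  adj_ne := gok_adj_ne S
  ed_end := by
    rintro (v | ⟨X, v⟩) i
    · exact gok_incE_end S _ (S.okP.ed_end v i)
    · exact gok_outE_end S _ X ((S.okC X).ed_end v i)
  ed_x := by
    rintro (v | ⟨X, v⟩) i w j h
    · rw [glue_ed_l S v i (inl (.x (inl v) i))]
      replace h : inc C (inl (.x (inl v) i)) (P.adj (inl (.x v i))) = inl (.x w j) := h
      rcases h1 : P.adj (inl (.x v i)) with (⟨v', i'⟩ | ⟨X, i'⟩ | ⟨a, i'⟩) | ⟨a, c⟩
      · rw [h1] at h
        simp only [inc, Sum.inl.injEq, SD.x.injEq] at h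
        obtain ⟨h2, h3⟩ := h
        subst h2
        subst h3
        rw [glue_ed_l S v' (i' + 2) (inl (.x (inl v) i)), S.okP.ed_x v i v' i' h1]
      · rw [S.okP.ed_e v i (by rw [h1]; trivial), h1]
        rw [h1] at h
        exact gok_enter_x S _ _ X i' w j h
      · rw [h1] at h
        simp [inc] at h
      · rw [h1] at h
        simp [inc] at h
    · rw [glue_ed_r S X v i (inl (.x (inr ⟨X, v⟩) i))]
      replace h : out P C X (inl (.x (inr ⟨X, v⟩) i)) ((C X).adj (inl (.x v i))) =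
        inl (.x w j) := h
      rcases h1 : (C X).adj (inl (.x v i)) with (⟨v', i'⟩ | ⟨e, i'⟩ | ⟨a, i'⟩) | ⟨a, c⟩
      · rw [h1] at h
        simp only [out, dnb, Sum.inl.injEq, SD.x.injEq] at h
        obtain ⟨h2, h3⟩ := h
        subst h2
        subst h3
        rw [glue_ed_r S X v' (i' + 2) (inl (.x (inr ⟨X, v⟩) i)), (S.okC X).ed_x v i v' i' h1]
      · exact e.elim
      · rw [(S.okC X).ed_e v i (by rw [h1]; trivial), h1]
        rw [h1] at h
        exact gok_step_x S _ _ (inl (.f X i')) w j h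
      · rw [h1] at h
        simp [out, dnb] at h
  ed_e := by
    rintro (v | ⟨X, v⟩) i h
    · rw [glue_ed_l S v i (inl (.x (inl v) i))]
      show incE C _ _ = inc C (inl (.x (inl v) i)) (P.adj (inl (.x v i)))
      replace h : IsEnd (inc C (inl (.x (inl v) i)) (P.adj (inl (.x v i)))) := h
      have h2 : IsEnd (P.adj (inl (.x v i))) := by
        rcases h1 : P.adj (inl (.x v i)) with (⟨v', i'⟩ | ⟨X, i'⟩ | ⟨a, i'⟩) | ⟨a, c⟩
        · rw [h1] at h
          exact h.elim
        · trivial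
        · trivial
        · trivial
      rw [← gok_step_e S (inl (.x (inl v) i)) (inl (.x (inl v) i)) (inl (.x v i)) h,
        gok_adj_of_end P _ h2, S.okP.ed_e v i h2]
    · rw [glue_ed_r S X v i (inl (.x (inr ⟨X, v⟩) i))]
      show outE P C X _ _ = out P C X (inl (.x (inr ⟨X, v⟩) i)) ((C X).adj (inl (.x v i)))
      replace h : IsEnd (out P C X (inl (.x (inr ⟨X, v⟩) i)) ((C X).adj (inl (.x v i)))) := h
      rcases h1 : (C X).adj (inl (.x v i)) with (⟨v', i'⟩ | ⟨e, i'⟩ | ⟨a, i'⟩) | ⟨a, c⟩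
      · rw [h1] at h
        exact h.elim
      · exact e.elim
      · rw [(S.okC X).ed_e v i (by rw [h1]; trivial), h1]
        rw [h1] at h
        exact gok_step_e S _ _ (inl (.f X i')) h
      · rw [(S.okC X).ed_e v i (by rw [h1]; trivial), h1]
        rfl
  opp_ed := by
    rintro (v | ⟨X, v⟩) i
    · rw [glue_ed_l S v i (inl (.x (inl v) i)), glue_ed_l S v (i + 2) (inl (.x (inl v) i)),
        glue_opp_inc S (S.okP.ed_end v i) _ (inl (.x (inl v) i)), S.okP.opp_ed]
    · rw [glue_ed_r S X v i (inl (.x (inr ⟨X, v⟩) i)),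
        glue_ed_r S X v (i + 2) (inl (.x (inr ⟨X, v⟩) i))]
      have h0 := (S.okC X).opp_ed v i
      rcases h1 : (C X).ed v i with (⟨v', i'⟩ | ⟨e, i'⟩ | ⟨a, i'⟩) | ⟨a, c⟩
      · have h2 := (S.okC X).ed_end v i
        rw [h1] at h2
        exact h2.elim
      · exact e.elim
      · rw [h1] at h0
        show (glue P C).opp (incE C _ (P.opp (inl (.f X i')))) = _
        rw [glue_opp_inc S (opp_end S.okP (e := inl (.f X i')) trivial) _
          (inl (.x (inr ⟨X, v⟩) i)), opp_opp S.okP (e := inl (.f X i')) trivial]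
        obtain ⟨b, c, h2⟩ := S.fin X i'
        show dnb X _ ((C X).opp (inl (.o () i'))) = _
        rw [← h0]
        have h3 : (C X).opp (inl (.o a i')) = inr (b, c) := h2
        rw [h3]
        rfl
      · rw [h1] at h0
        rw [← h0]
        exact glue_opp_node S X a c _

/-- the sticks which go to outer points end at nodes -/
theorem glue_fin (S : Setup P C L M sh) (a : O) (i : ZMod 4) :
    ∃ b c, (glue P C).opp (inl (.o a i)) = inr (b, c) := by
  have h := glue_opp_inc S (e := inl (.o a i)) trivial (inl (.o a i)) (inl (.o a i))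
  have h0 : incE C (inl (.o a i)) (inl (.o a i) : Bead V N F O) = inl (.o a i) := rfl
  rw [h0] at h
  rw [h]
  have h1 := opp_end S.okP (e := inl (.o a i)) trivial
  rcases h2 : P.opp (inl (.o a i)) with (⟨v, j⟩ | ⟨X, j⟩ | ⟨b, j⟩) | ⟨b, c⟩
  · rw [h2] at h1
    exact h1.elim
  · obtain ⟨b, c, h3⟩ := S.fin X j
    show ∃ b c, dnb X _ ((C X).opp (inl (.o () j))) = inr (b, c)
    rw [h3]
    exact ⟨_, _, rfl⟩
  · exact (S.outP a i b j h2).elim
  · exact ⟨_, _, rfl⟩

end SN78
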