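import Pool.Agent.SN78.GCr

/-!
# SN78 module GORD: the order of crossings on the sticks of the composite

For a dart `(v, i)` of the composite let `R v i = kap v (i + 2) / kap v i` (positive by `glue_cr` for
small `s`).  The condition for adjacent `(v, i)`, `(w, j)` is `R v i * R w j < 1`.

* `v` a crossing of the parent: `kap' (inl v) i = P.kap (qpos s) v i → P.kap L.at v i > 0`
  (`kap_l`, `tendsto_qpos`), so `R` has a limit, the value of the parent.
* `v` a crossing of the child `X`: by `kap_r`
  `R v i = (lam (ed (i)) / lam (ed (i + 2))) * (hat kap v (i + 2)) / (hat kap v i)`, where the hat values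
  converge to the positive values of the child at `(M X).at` (`tendsto_hLab`).
  If `(C X).ed v i` and `(C X).ed v (i + 2)` are both nodes then `R` converges to the value of the
  child.  If `(C X).ed v i` is an outer end, then `(C X).ed v (i + 2) = (C X).opp ((C X).ed v i)` is a
  node by `Setup.fin`, and `R v i` is `s` times something convergent, so `R v i → 0`.

Cases for adjacent `(v, i)`, `(w, j)` in the composite:
* both in the parent and adjacent in the parent: limit of the parent condition (`S.vP.ord`).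
* both in the same child and adjacent there, the stick is between the same two ends of the child; the
  product of the two `lam` factors is `1` because `ed v i = ed w (j + 2)`, `ed v (i + 2) = ed w j`:
  `R v i * R w j = hat R v i * hat R w j` and this converges to the value of the child (`vC.ord`).
* adjacent through a dart `f X k` (one of them is a crossing `v` of the child `X` with
  `(C X).adj (x v i) = o k`, so `(C X).ed v i = o k` and `R v i → 0`), the other is a crossing of the
  parent (`R` converges) or of a child `Y` with `(C Y).adj (x w j) = o l` (`R w j → 0`).  So the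
  product tends to `0`.
There are finitely many quadruples `(v, i, w, j)`, so the eventual statements can be combined
(`Filter.eventually_all`).
-/

namespace SN78

open Sum Filter Topology

variable {V N F O : Type} {Vc Nc : F → Type} {P : Pic V N F O}
  {C : ∀ X, Pic (Vc X) (Nc X) Empty Unit} {L : Lab N F O H}
  {M : ∀ X, Lab (Nc X) Empty Unit H} {sh : O → ZMod 4 → Prop}

/-- asymptotic data of a dart of the composite: after multiplication by a positive factor the two
determinants converge, the second one up to the factor `t` -/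
private def GOrdDat (K₁ K₂ t : ℝ → ℝ) (X Y : ℝ) : Prop :=
  ∃ m x y : ℝ → ℝ, (∀ s, 0 < s → 0 < m s) ∧ (∀ s, 0 < s → m s * K₁ s = x s) ∧
    (∀ s, 0 < s → m s * K₂ s = t s * y s) ∧
    Tendsto x (𝓝[>] (0 : ℝ)) (𝓝 X) ∧ Tendsto y (𝓝[>] (0 : ℝ)) (𝓝 Y)

private theorem gord_lt {K₁ K₂ t K₁' K₂' t' : ℝ → ℝ} {X Y X' Y' T : ℝ}
    (h : GOrdDat K₁ K₂ t X Y) (h' : GOrdDat K₁' K₂' t' X' Y')
    (hT : Tendsto (fun s => t s * t' s) (𝓝[>] (0 : ℝ)) (𝓝 T)) (hlt : T * (Y * Y') < X' * X) :
    ∀ᶠ s in 𝓝[>] (0 : ℝ), K₂ s * K₂' s < K₁' s * K₁ s := by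
  obtain ⟨m, x, y, hm, h1, h2, hx, hy⟩ := h
  obtain ⟨m', x', y', hm', h1', h2', hx', hy'⟩ := h'
  have hl := hT.mul (hy.mul hy')
  have hr := hx'.mul hx
  have hev := hl.eventually_lt hr hlt
  filter_upwards [hev, self_mem_nhdsWithin] with s hs hs0
  have hs0' : 0 < s := hs0
  have hmm : 0 < m s * m' s := mul_pos (hm s hs0') (hm' s hs0')
  have e1 : m s * m' s * (K₂ s * K₂' s) = t s * t' s * (y s * y' s) := by
    calc m s * m' s * (K₂ s * K₂' s) = (m s * K₂ s) * (m' s * K₂' s) := by ring
      _ = (t s * y s) * (t' s * y' s) := by rw [h2 s hs0', h2' s hs0']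
      _ = t s * t' s * (y s * y' s) := by ring
  have e2 : m s * m' s * (K₁' s * K₁ s) = x' s * x s := by
    calc m s * m' s * (K₁' s * K₁ s) = (m' s * K₁' s) * (m s * K₁ s) := by ring
      _ = x' s * x s := by rw [h1 s hs0', h1' s hs0']
  have e3 : m s * m' s * (K₂ s * K₂' s) < m s * m' s * (K₁' s * K₁ s) := by
    rw [e1, e2]
    exact hs
  exact lt_of_mul_lt_mul_left e3 hmm.le

private theorem gord_tendsto_dt {a b c : ℝ → H} {A B D : H}
    (ha : Tendsto a (𝓝[>] (0 : ℝ)) (𝓝 A)) (hb : Tendsto b (𝓝[>] (0 : ℝ)) (𝓝 B))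
    (hc : Tendsto c (𝓝[>] (0 : ℝ)) (𝓝 D)) :
    Tendsto (fun s => dt (a s) (b s) (c s)) (𝓝[>] (0 : ℝ)) (𝓝 (dt A B D)) := by
  have hcont : Continuous (fun q : H × H × H => dt q.1 q.2.1 q.2.2) := by
    unfold dt
    fun_prop
  exact (hcont.tendsto (A, B, D)).comp (ha.prodMk_nhds (hb.prodMk_nhds hc))

private theorem gord_lam_pos {s : ℝ} (hs : 0 < s) {V N : Type} (c : Bead V N Empty Unit) :
    0 < lam s c := by
  rcases c with (⟨v, i⟩ | ⟨a, i⟩ | ⟨a, i⟩) | ⟨a, b⟩
  · exact one_pos
  · exact one_pos
  · exact hs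
  · exact one_pos

private theorem gord_four (i : ZMod 4) : i + 2 + 3 = i + 1 ∧ i + 2 + 1 = i + 3 ∧ i + 2 + 2 = i := by
  revert i
  decide

/-- data of a dart of the parent -/
private theorem gord_dat_l (S : Setup P C L M sh) (v : V) (i : ZMod 4) :
    GOrdDat (fun s => (glue P C).kap (gLab L M s).at (inl v) i)
      (fun s => (glue P C).kap (gLab L M s).at (inl v) (i + 2)) (fun _ => 1)
      (P.kap L.at v i) (P.kap L.at v (i + 2)) := by
  refine ⟨fun _ => 1, fun s => P.kap (qpos C L M s) v i, fun s => P.kap (qpos C L M s) v (i + 2),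
    fun _ _ => one_pos, ?_, ?_, ?_, ?_⟩
  · intro s _
    beta_reduce
    rw [kap_l S s v i, one_mul]
  · intro s _
    beta_reduce
    rw [kap_l S s v (i + 2)]
  · exact gord_tendsto_dt (tendsto_qpos S (S.okP.ed_end v _)) (tendsto_qpos S (S.okP.ed_end v _))
      (tendsto_qpos S (S.okP.ed_end v _))
  · exact gord_tendsto_dt (tendsto_qpos S (S.okP.ed_end v _)) (tendsto_qpos S (S.okP.ed_end v _))
      (tendsto_qpos S (S.okP.ed_end v _))

/-- data of a dart of a child -/
private theorem gord_dat_r (S : Setup P C L M sh) (X : F) (v : Vc X) (i : ZMod 4) :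
    GOrdDat (fun s => (glue P C).kap (gLab L M s).at (inr ⟨X, v⟩) i)
      (fun s => (glue P C).kap (gLab L M s).at (inr ⟨X, v⟩) (i + 2))
      (fun s => lam s ((C X).ed v i) / lam s ((C X).ed v (i + 2)))
      ((C X).kap (M X).at v i) ((C X).kap (M X).at v (i + 2)) := by
  refine ⟨fun s => lam s ((C X).ed v (i + 3)) * lam s ((C X).ed v i) * lam s ((C X).ed v (i + 1)) /
      s ^ 2, fun s => (C X).kap (hLab P C L M s X).at v i,
    fun s => (C X).kap (hLab P C L M s X).at v (i + 2), ?_, ?_, ?_, ?_, ?_⟩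
  · intro s hs
    exact div_pos (mul_pos (mul_pos (gord_lam_pos hs _) (gord_lam_pos hs _)) (gord_lam_pos hs _))
      (pow_pos hs 2)
  · intro s hs
    have h := kap_r S s X v i
    have hs2 : s ^ 2 ≠ 0 := (pow_pos hs 2).ne'
    show _ / s ^ 2 * _ = _
    rw [div_mul_eq_mul_div, h, mul_div_cancel_left₀ _ hs2]
  · intro s hs
    have h := kap_r S s X v (i + 2)
    rw [(gord_four i).1, (gord_four i).2.1] at h
    have hs2 : s ^ 2 ≠ 0 := (pow_pos hs 2).ne'
    have hb : lam s ((C X).ed v (i + 2)) ≠ 0 := (gord_lam_pos hs _).ne'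
    show _ / s ^ 2 * _ = _ / _ * _
    rw [div_mul_eq_mul_div, div_mul_eq_mul_div, div_eq_div_iff hs2 hb]
    calc _ = lam s ((C X).ed v i) * (lam s ((C X).ed v (i + 1)) * lam s ((C X).ed v (i + 2)) *
          lam s ((C X).ed v (i + 3)) *
          (glue P C).kap (gLab L M s).at (inr ⟨X, v⟩) (i + 2)) := by ring
      _ = _ := by rw [h]; ring
  · exact gord_tendsto_dt (tendsto_hLab S X _) (tendsto_hLab S X _) (tendsto_hLab S X _)
  · exact gord_tendsto_dt (tendsto_hLab S X _) (tendsto_hLab S X _) (tendsto_hLab S X _)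

/-- data of a dart of a child on a port stick -/
private theorem gord_dat_p (S : Setup P C L M sh) (X : F) (v : Vc X) (i k : ZMod 4)
    (h : (C X).adj (inl (.x v i)) = inl (.o () k)) :
    GOrdDat (fun s => (glue P C).kap (gLab L M s).at (inr ⟨X, v⟩) i)
      (fun s => (glue P C).kap (gLab L M s).at (inr ⟨X, v⟩) (i + 2)) (fun s => s)
      ((C X).kap (M X).at v i) ((C X).kap (M X).at v (i + 2)) := by
  have he : (C X).ed v i = inl (.o () k) := by
    rw [(S.okC X).ed_e v i (by rw [h]; trivial), h]
  obtain ⟨a, b, hab⟩ := S.fin X k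
  have he2 : (C X).ed v (i + 2) = inr (a, b) := by
    rw [← (S.okC X).opp_ed v i, he, hab]
  have h0 := gord_dat_r S X v i
  rw [he, he2] at h0
  have h1 : (fun s : ℝ => lam s (inl (.o () k) : Bead (Vc X) (Nc X) Empty Unit) /
      lam s (inr (a, b) : Bead (Vc X) (Nc X) Empty Unit)) = fun s => s := by
    funext s
    show s / 1 = s
    rw [div_one]
  rw [h1] at h0
  exact h0

private theorem gord_tendsto_id : Tendsto (fun s : ℝ => s) (𝓝[>] (0 : ℝ)) (𝓝 0) :=
  tendsto_id.mono_left nhdsWithin_le_nhds

private theorem gord_swap {K₁ K₂ K₁' K₂' : ℝ → ℝ}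
    (h : ∀ᶠ s in 𝓝[>] (0 : ℝ), K₂' s * K₂ s < K₁ s * K₁' s) :
    ∀ᶠ s in 𝓝[>] (0 : ℝ), K₂ s * K₂' s < K₁' s * K₁ s := by
  filter_upwards [h] with s hs
  rw [mul_comm (K₂ s), mul_comm (K₁' s)]
  exact hs

/-- the statement for one pair of darts -/
private theorem gord_one (S : Setup P C L M sh) (v : GV V Vc) (i : ZMod 4) (w : GV V Vc)
    (j : ZMod 4) (hadj : (glue P C).adj (.inl (.x v i)) = .inl (.x w j)) :
    ∀ᶠ s in 𝓝[>] (0 : ℝ),
      (glue P C).kap (gLab L M s).at v (i + 2) * (glue P C).kap (gLab L M s).at w (j + 2) <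
        (glue P C).kap (gLab L M s).at w j * (glue P C).kap (gLab L M s).at v i := by
  rcases v with v | ⟨X, v⟩
  · have h0 : (glue P C).adj (.inl (.x (inl v) i)) =
        inc C (inl (.x (inl v) i)) (P.adj (inl (.x v i))) := rfl
    rw [h0] at hadj
    rcases hb : P.adj (inl (.x v i)) with (⟨v', i'⟩ | ⟨X, k⟩ | ⟨a, k⟩) | ⟨a, b⟩
    · rw [hb] at hadj
      have h1 : (inl (.x (inl v') i') : Bead (GV V Vc) (GV N Nc) Empty O) = inl (.x w j) := hadj
      injection h1 with h1
      injection h1 with h1 h2
      subst h1 h2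
      refine gord_lt (gord_dat_l S v i) (gord_dat_l S v' i') (T := 1) ?_ ?_
      · simp only [mul_one]
        exact tendsto_const_nhds
      · rw [one_mul]
        exact S.vP.ord v i v' i' hb
    · rw [hb] at hadj
      have h1 : dnb X (inl (.x (inl v) i)) ((C X).adj (inl (.o () k))) =
          (inl (.x w j) : Bead (GV V Vc) (GV N Nc) Empty O) := hadj
      rcases hc : (C X).adj (inl (.o () k)) with (⟨w', l⟩ | ⟨e, l⟩ | ⟨u, l⟩) | ⟨a', b'⟩
      · rw [hc] at h1
        have h2 : (inl (.x (inr ⟨X, w'⟩) l) : Bead (GV V Vc) (GV N Nc) Empty O) =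
          inl (.x w j) := h1
        injection h2 with h2
        injection h2 with h2 h3
        subst h2 h3
        have hc' : (C X).adj (inl (.x w' l)) = inl (.o () k) := by
          rw [← hc, (S.okC X).adj_adj]
        refine gord_lt (gord_dat_l S v i) (gord_dat_p S X w' l k hc') (T := 0) ?_ ?_
        · simp only [one_mul]
          exact gord_tendsto_id
        · rw [zero_mul]
          exact mul_pos ((S.vC X).cr w' l) (S.vP.cr v i)
      · exact e.elim
      · exact absurd hc (adj_o_ne S X k l)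
      · rw [hc] at h1
        have h2 : (inr (inr ⟨X, a'⟩, b') : Bead (GV V Vc) (GV N Nc) Empty O) =
          inl (.x w j) := h1
        cases h2
    · rw [hb] at hadj
      have h1 : (inl (.o a k) : Bead (GV V Vc) (GV N Nc) Empty O) = inl (.x w j) := hadj
      cases h1
    · rw [hb] at hadj
      have h1 : (inr (inl a, b) : Bead (GV V Vc) (GV N Nc) Empty O) = inl (.x w j) := hadj
      cases h1
  · have h0 : (glue P C).adj (.inl (.x (inr ⟨X, v⟩) i)) =
        out P C X (inl (.x (inr ⟨X, v⟩) i)) ((C X).adj (inl (.x v i))) := rfl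
    rw [h0] at hadj
    rcases hb : (C X).adj (inl (.x v i)) with (⟨v', i'⟩ | ⟨e, k⟩ | ⟨u, k⟩) | ⟨a, b⟩
    · rw [hb] at hadj
      have h1 : (inl (.x (inr ⟨X, v'⟩) i') : Bead (GV V Vc) (GV N Nc) Empty O) =
        inl (.x w j) := hadj
      injection h1 with h1
      injection h1 with h1 h2
      subst h1 h2
      have e1 : (C X).ed v i = (C X).ed v' (i' + 2) := (S.okC X).ed_x v i v' i' hb
      have hb' : (C X).adj (inl (.x v' i')) = inl (.x v i) := by
        rw [← hb, (S.okC X).adj_adj]
      have e2 : (C X).ed v' i' = (C X).ed v (i + 2) := (S.okC X).ed_x v' i' v i hb'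
      refine gord_lt (gord_dat_r S X v i) (gord_dat_r S X v' i') (T := 1) ?_ ?_
      · refine Tendsto.congr' ?_ tendsto_const_nhds
        filter_upwards [self_mem_nhdsWithin] with s hs
        have hs' : 0 < s := hs
        have p1 : lam s ((C X).ed v' (i' + 2)) ≠ 0 := (gord_lam_pos hs' _).ne'
        have p2 : lam s ((C X).ed v (i + 2)) ≠ 0 := (gord_lam_pos hs' _).ne'
        rw [e1, e2, div_mul_div_comm, mul_comm, div_self (mul_ne_zero p2 p1)]
      · rw [one_mul]
        exact (S.vC X).ord v i v' i' hb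
    · exact e.elim
    · rw [hb] at hadj
      have h1 : inc C (inl (.x (inr ⟨X, v⟩) i)) (P.adj (inl (.f X k))) =
          (inl (.x w j) : Bead (GV V Vc) (GV N Nc) Empty O) := hadj
      have hv := gord_dat_p S X v i k hb
      rcases hc : P.adj (inl (.f X k)) with (⟨v', i'⟩ | ⟨Y, l⟩ | ⟨a, l⟩) | ⟨a, b⟩
      · rw [hc] at h1
        have h2 : (inl (.x (inl v') i') : Bead (GV V Vc) (GV N Nc) Empty O) =
          inl (.x w j) := h1
        injection h2 with h2
        injection h2 with h2 h3
        subst h2 h3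
        refine gord_lt hv (gord_dat_l S v' i') (T := 0) ?_ ?_
        · simp only [mul_one]
          exact gord_tendsto_id
        · rw [zero_mul]
          exact mul_pos (S.vP.cr v' i') ((S.vC X).cr v i)
      · rw [hc] at h1
        have h2 : dnb Y (inl (.x (inr ⟨X, v⟩) i)) ((C Y).adj (inl (.o () l))) =
          (inl (.x w j) : Bead (GV V Vc) (GV N Nc) Empty O) := h1
        rcases hd : (C Y).adj (inl (.o () l)) with (⟨w', l'⟩ | ⟨e, l'⟩ | ⟨u', l'⟩) | ⟨a', b'⟩
        · rw [hd] at h2
          have h3 : (inl (.x (inr ⟨Y, w'⟩) l') : Bead (GV V Vc) (GV N Nc) Empty O) =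
            inl (.x w j) := h2
          injection h3 with h3
          injection h3 with h3 h4
          subst h3 h4
          have hd' : (C Y).adj (inl (.x w' l')) = inl (.o () l) := by
            rw [← hd, (S.okC Y).adj_adj]
          refine gord_lt hv (gord_dat_p S Y w' l' l hd') (T := 0) ?_ ?_
          · have h5 := gord_tendsto_id.mul gord_tendsto_id
            rw [zero_mul] at h5
            exact h5
          · rw [zero_mul]
            exact mul_pos ((S.vC Y).cr w' l') ((S.vC X).cr v i)
        · exact e.elim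
        · exact absurd hd (adj_o_ne S Y l l')
        · rw [hd] at h2
          have h3 : (inr (inr ⟨Y, a'⟩, b') : Bead (GV V Vc) (GV N Nc) Empty O) =
            inl (.x w j) := h2
          cases h3
      · rw [hc] at h1
        have h2 : (inl (.o a l) : Bead (GV V Vc) (GV N Nc) Empty O) = inl (.x w j) := h1
        cases h2
      · rw [hc] at h1
        have h2 : (inr (inl a, b) : Bead (GV V Vc) (GV N Nc) Empty O) = inl (.x w j) := h1
        cases h2
    · rw [hb] at hadj
      have h1 : (inr (inr ⟨X, a⟩, b) : Bead (GV V Vc) (GV N Nc) Empty O) =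
        inl (.x w j) := hadj
      cases h1

theorem glue_ord [Finite V] [Finite N] [Finite F] [Finite O] [∀ X, Finite (Vc X)]
    [∀ X, Finite (Nc X)] (S : Setup P C L M sh) :
    ∀ᶠ s in 𝓝[>] (0 : ℝ), ∀ v i w j, (glue P C).adj (.inl (.x v i)) = .inl (.x w j) →
      (glue P C).kap (gLab L M s).at v (i + 2) * (glue P C).kap (gLab L M s).at w (j + 2) <
        (glue P C).kap (gLab L M s).at w j * (glue P C).kap (gLab L M s).at v i := by
  rw [eventually_all]
  intro v
  rw [eventually_all]
  intro i
  rw [eventually_all]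
  intro w
  rw [eventually_all]
  intro j
  by_cases hadj : (glue P C).adj (.inl (.x v i)) = .inl (.x w j)
  · filter_upwards [gord_one S v i w j hadj] with s hs _
    exact hs
  · exact Eventually.of_forall fun s h => absurd h hadj

end SN78
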