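import Pool.Agent.SN78.GBase

/-!
# SN78 module GREAL: the composite picture shows the composite shadow

Lemma A (walking in the parent): if `Reach P.adj b d` for a bead `b` of the parent which is not a dart
of a big vertex, and `b'` is the same bead in the composite, then: if `d` is a crossing dart or an
outer dart then `Reach (glue P C).adj b' (same dart)`; if `d = f X i` then
`Reach (glue P C).adj b' (dnA X _ (α X (.o () i)))`.  The second case: the walk arrives at the dart
`i` of `X`, i.e. at the first bead `(C X).adj (o i)` of the child, and continues as the walk of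
`(hc X).site (.o () i)`; the result is a crossing dart of the child because `α X` is proper.
Lemma A' : the same for `b = f X i`, seen from inside: if `Reach P.adj (inl (f X i)) d`, then
a bead `b'` of the composite with `(glue P C).adj b' = inc C _ (P.adj (inl (f X i)))` reaches the
corresponding dart.
Lemma B (walking in the child `X`): if `Reach (C X).adj c d` for a child bead `c` (not outer), then if
`d` is a crossing dart the composite reaches it; if `d = o i` then the composite continues as the
walk of `hp.site (.f X i)` in the parent (Lemma A').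
All by induction over `Reach`.  The nodes: `node` of the parts and Lemmas A and B.
-/

namespace SN78

open Sum

variable {V N F O : Type} {Vc Nc : F → Type} {P : Pic V N F O}
  {C : ∀ X, Pic (Vc X) (Nc X) Empty Unit} {L : Lab N F O H}
  {M : ∀ X, Lab (Nc X) Empty Unit H} {sh : O → ZMod 4 → Prop}

/-- a walk in the child which ends at a crossing dart -/
private theorem greal_child_x (X : F) {c : Bead (Vc X) (Nc X) Empty Unit}
    {d : SD (Vc X) Empty Unit} (h : Reach (C X).adj c d) (v : Vc X) (j : ZMod 4)
    (hd : d = .x v j) (b : Bead (GV V Vc) (GV N Nc) Empty O)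
    (hb : (glue P C).adj b = out P C X b ((C X).adj c)) :
    Reach (glue P C).adj b (.x (inr ⟨X, v⟩) j) := by
  induction h generalizing b with
  | site h1 =>
    subst hd
    rw [h1] at hb
    exact Reach.site hb
  | @node c' a e d' h1 _ ih =>
    rw [h1] at hb
    have hb2 : (glue P C).adj b = inr (inr ⟨X, a⟩, e) := hb
    exact Reach.node hb2 (ih hd _ rfl)

private theorem greal_out_adj (S : Setup P C L M sh) (X : F) (i : ZMod 4)
    (b : Bead (GV V Vc) (GV N Nc) Empty O) :
    out P C X b ((C X).adj (inl (.o () i))) = dnb X b ((C X).adj (inl (.o () i))) := by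
  have h := fun j => adj_o_ne S X i j
  rcases hh : (C X).adj (inl (.o () i)) with (⟨v, k⟩ | ⟨e, k⟩ | ⟨u, k⟩) | ⟨a, e⟩
  · rfl
  · exact e.elim
  · exact absurd hh (h k)
  · rfl

/-- a walk in the parent -/
private theorem greal_parent (S : Setup P C L M sh) {α : ∀ X, Tg (Vc X)}
    (hc : ∀ X, (C X).Real (α X)) (hpr : ∀ X, Proper (α X)) {c : Bead V N F O} {d : SD V F O}
    (h : Reach P.adj c d) (d' : SD (GV V Vc) Empty O) (b : Bead (GV V Vc) (GV N Nc) Empty O)
    (hb : (glue P C).adj b = inc C b (P.adj c)) :
    Reach (glue P C).adj b (incA α d' d) := by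
  induction h generalizing b with
  | @site c' d h1 =>
    rw [h1] at hb
    rcases d with ⟨v, i⟩ | ⟨X, i⟩ | ⟨a, i⟩
    · exact Reach.site hb
    · obtain ⟨v, j, hv⟩ := hpr X i
      have h2 := (hc X).site (.o () i)
      rw [hv] at h2
      have h3 := greal_child_x X h2 v j rfl b (by
        rw [greal_out_adj S X i b]; exact hb)
      simp only [incA, hv, dnA]
      exact h3
    · exact Reach.site hb
  | @node c' a e d h1 _ ih =>
    rw [h1] at hb
    exact Reach.node (a := inl a) (c := e) hb (ih _ rfl)

/-- a walk in the child -/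
private theorem greal_child (S : Setup P C L M sh) {αp : SD V F O → SD V F O} (hp : P.Real αp)
    {α : ∀ X, Tg (Vc X)} (hc : ∀ X, (C X).Real (α X)) (hpr : ∀ X, Proper (α X)) (X : F)
    {c : Bead (Vc X) (Nc X) Empty Unit} {d : SD (Vc X) Empty Unit} (h : Reach (C X).adj c d)
    (d' : SD (GV V Vc) Empty O) (b : Bead (GV V Vc) (GV N Nc) Empty O)
    (hb : (glue P C).adj b = out P C X b ((C X).adj c)) :
    Reach (glue P C).adj b (outA αp α X d' d) := by
  induction h generalizing b with
  | @site c' d h1 =>
    rw [h1] at hb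
    rcases d with ⟨v, i⟩ | ⟨e, i⟩ | ⟨u, i⟩
    · exact Reach.site hb
    · exact e.elim
    · exact greal_parent S hc hpr (hp.site (.f X i)) d' b hb
  | @node c' a e d h1 _ ih =>
    rw [h1] at hb
    have hb2 : (glue P C).adj b = inr (inr ⟨X, a⟩, e) := hb
    exact Reach.node hb2 (ih _ rfl)

theorem glue_real (S : Setup P C L M sh) {αp : SD V F O → SD V F O} (hp : P.Real αp)
    {α : ∀ X, Tg (Vc X)} (hc : ∀ X, (C X).Real (α X)) (hpr : ∀ X, Proper (α X)) :
    (glue P C).Real (glueA αp α) := by
  refine ⟨?_, ?_⟩
  · rintro (⟨v | ⟨X, v⟩, i⟩ | ⟨e, i⟩ | ⟨a, i⟩)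
    · exact greal_parent S hc hpr (hp.site (.x v i)) _ _ rfl
    · exact greal_child S hp hc hpr X ((hc X).site (.x v i)) _ _ rfl
    · exact e.elim
    · exact greal_parent S hc hpr (hp.site (.o a i)) _ _ rfl
  · rintro (a | ⟨X, a⟩) c
    · obtain ⟨d, hd⟩ := hp.node a c
      rcases d with ⟨v, i⟩ | ⟨X, i⟩ | ⟨o, i⟩
      · exact ⟨_, greal_parent S hc hpr hd (.x (inl v) i) _ rfl⟩
      · obtain ⟨v, j, _⟩ := hpr X i
        exact ⟨_, greal_parent S hc hpr hd (.x (inr ⟨X, v⟩) j) _ rfl⟩
      · exact ⟨_, greal_parent S hc hpr hd (.o o i) _ rfl⟩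
    · obtain ⟨d, hd⟩ := (hc X).node a c
      obtain ⟨v, j, _⟩ := hpr X 0
      exact ⟨_, greal_child S hp hc hpr X hd (.x (inr ⟨X, v⟩) j) _ rfl⟩

end SN78
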