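import Mathlib

/-!
# SN78 module KER: semicontinuity of kernels

Proof.  Choose a complement `W` of `ker M₀` in `E`.  The linear map `A × W → E`,
`(y, w) ↦ a₀ y + w`, is surjective since `ker M₀ ≤ range a₀`.  Surjectivity of linear maps between
finite dimensional spaces is an open condition, and pointwise convergence of linear maps is
convergence in norm, so `(y, w) ↦ a s y + w` is surjective eventually.  Similarly `M₀` is injective on
`W`, so `M s` is injective on `W` eventually.  If `M s x = 0`, write `x = a s y + w`; then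
`M s w = 0`, `w = 0`, `x = a s y`.

(The Lean proof below counts ranks: the rank of a linear map is lower semicontinuous under pointwise
convergence, and `range (a s) ≤ ker (M s)` eventually.)
-/

namespace SN78

open Filter Topology

/-- The rank of a linear map is lower semicontinuous under pointwise convergence. -/
theorem ker_rank_semicont {V W : Type} [NormedAddCommGroup V] [NormedSpace ℝ V]
    [NormedAddCommGroup W] [NormedSpace ℝ W] [FiniteDimensional ℝ W]
    {ι : Type} {l : Filter ι} {L : ι → V →ₗ[ℝ] W} {L₀ : V →ₗ[ℝ] W}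
    (hL : ∀ x, Tendsto (fun s => L s x) l (𝓝 (L₀ x))) :
    ∀ᶠ s in l, Module.finrank ℝ (LinearMap.range L₀) ≤
      Module.finrank ℝ (LinearMap.range (L s)) := by
  classical
  set n := Module.finrank ℝ (LinearMap.range L₀) with hn
  let b : Module.Basis (Fin n) ℝ (LinearMap.range L₀) := Module.finBasis ℝ (LinearMap.range L₀)
  have hpre : ∀ i, ∃ v, L₀ v = (b i : W) := fun i => (b i).2
  choose v hv using hpre
  have hli : LinearIndependent ℝ (fun i => L₀ (v i)) := by
    have h1 : LinearIndependent ℝ (fun i => ((b i : LinearMap.range L₀) : W)) :=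
      b.linearIndependent.map' (LinearMap.range L₀).subtype (Submodule.ker_subtype _)
    have h2 : (fun i => L₀ (v i)) = fun i => ((b i : LinearMap.range L₀) : W) := by
      funext i; exact hv i
    rw [h2]; exact h1
  have htend : Tendsto (fun s => (fun i => L s (v i))) l (𝓝 (fun i => L₀ (v i))) :=
    tendsto_pi_nhds.2 fun i => hL (v i)
  have hev := htend.eventually hli.eventually
  filter_upwards [hev] with s hs
  have hs' : LinearIndependent ℝ
      (fun i => (⟨L s (v i), LinearMap.mem_range_self _ _⟩ : LinearMap.range (L s))) := by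
    refine LinearIndependent.of_comp (LinearMap.range (L s)).subtype ?_
    exact hs
  simpa using hs'.fintype_card_le_finrank

theorem ker_le_range {E R A : Type} [NormedAddCommGroup E] [NormedSpace ℝ E]
    [FiniteDimensional ℝ E] [NormedAddCommGroup R] [NormedSpace ℝ R] [FiniteDimensional ℝ R]
    [NormedAddCommGroup A] [NormedSpace ℝ A] [FiniteDimensional ℝ A]
    {ι : Type} {l : Filter ι} {M : ι → E →ₗ[ℝ] R} {M₀ : E →ₗ[ℝ] R}
    {a : ι → A →ₗ[ℝ] E} {a₀ : A →ₗ[ℝ] E}
    (hM : ∀ x, Tendsto (fun s => M s x) l (𝓝 (M₀ x)))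
    (ha : ∀ y, Tendsto (fun s => a s y) l (𝓝 (a₀ y)))
    (h : ∀ᶠ s in l, ∀ y, M s (a s y) = 0)
    (hk : ∀ x, M₀ x = 0 → ∃ y, a₀ y = x) :
    ∀ᶠ s in l, ∀ x, M s x = 0 → ∃ y, a s y = x := by
  have hle : LinearMap.ker M₀ ≤ LinearMap.range a₀ := by
    intro x hx
    obtain ⟨y, hy⟩ := hk x (LinearMap.mem_ker.1 hx)
    exact ⟨y, hy⟩
  have hfin : Module.finrank ℝ (LinearMap.ker M₀) ≤ Module.finrank ℝ (LinearMap.range a₀) :=
    Submodule.finrank_mono hle
  filter_upwards [h, ker_rank_semicont hM, ker_rank_semicont ha] with s h0 h1 h2 x hx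
  have hsub : LinearMap.range (a s) ≤ LinearMap.ker (M s) := by
    rintro _ ⟨y, rfl⟩
    exact LinearMap.mem_ker.2 (h0 y)
  have e1 := LinearMap.finrank_range_add_finrank_ker M₀
  have e2 := LinearMap.finrank_range_add_finrank_ker (M s)
  have heq : LinearMap.range (a s) = LinearMap.ker (M s) :=
    Submodule.eq_of_le_of_finrank_le hsub (by omega)
  have : x ∈ LinearMap.range (a s) := by
    rw [heq]; exact LinearMap.mem_ker.2 hx
  obtain ⟨y, hy⟩ := this
  exact ⟨y, hy⟩

end SN78
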