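import Pool.Agent.SN78.GBase
import Pool.Agent.SN78.Ker

/-!
# SN78 module GRIG: the composite is rigid for small `s`

Fix a node `a₁ X : Nc X` for each `X`.

Spaces: `E` = all `(z, κ, t)` with `z : N ⊕ F → ℝ`, `κ : (Σ X, Nc X) → ℝ`, `t : ℝ`;
`R = (V ⊕ Σ X, Vc X) ⊕ F → ℝ`; `A` = the subspace of all `(l, t) ∈ H × ℝ` with
`dot l (L.o a i) = t * u a i` for all `a, i`.

`M s (z, κ, t)`:
* at `v : V`: `rw4 (fun i => qpos s (P.ed v i)) (fun i => ζ (P.ed v i))` where `ζ` of a parent end is: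
  `z a` at the node `a`; `t * u a i` at outer points; `z X + s * κ b` at `f X i`, where `b` is the node
  of `(C X).opp (o i)`;
* at `⟨X, v⟩`: `rw4 (fun i => (hLab s X).at ((C X).ed v i)) (fun i => η ((C X).ed v i))` where
  `η (node a) = κ a` and `η (o i) = ζ g - (qpos s g) 2 * z X` with `g = P.opp (f X i)`;
* at `X : F`: `κ (a₁ X)`.
`a s (l, t)`: `z a = dot l (L.n a)`, `z X = dot l (shrink (L.f X) s ((M X).n (a₁ X)))`,
`κ ⟨X, b⟩ = dot l ((M X).n b - (M X).n (a₁ X))`, and `t`.

Facts: `M s x → M 0 x` and `a s y → a 0 y` (`tendsto_qpos`, `tendsto_hLab`, `dt` continuous); here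
`M 0` is defined with `L.at`, `(M X).at` instead of `qpos s`, `(hLab s X).at`.
`M s (a s y) = 0` for `s ≠ 0`: both rows are height equations of a linear function (`rw4_dot`; for
the child rows `η c = dot l' ((hLab s X).at c) + const * (third coordinate)` with a suitable `l'`:
explicitly `η = dot l' (hLab ..)` for `l' = ![l 0, l 1, - (l 0 * q 0 + l 1 * q 1)]`,
`q = (M X).n (a₁ X)`).
`M 0 x = 0 → x ∈ range (a 0)`: let `x = (z, κ, t)` and let `z' : Lab N F O ℝ` be `z` with
`z'.o = t * u`.  The child rows say that the label `(κ_X, slo z' X)` is a solution for the child `X`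
(note `(L.f X) 2 = 1`), so by `(hr X).sol` the equation `r X` holds for `slo z' X`; the parent rows
say `P.Sol L z'`.  By `hR`, `z'` is affine with some `l`; so `slo z' X i = dot l (P.dir L X i)
= dot l ((M X).o () i)`; subtracting the affine function `dot l` the label
`(κ a - dot l ((M X).n a), 0)` is a solution, so by `(hr X).cst`
`κ a = dot l ((M X).n a) + const`, and `κ (a₁ X) = 0` fixes the constant.
Now `ker_le_range` applies.

Conclusion for fixed small `s > 0`: let `w` be a label of the composite solving all height equations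
with `w.o = t * u`.  Put `z a = w (inl a)`, `z X = w ⟨X, a₁ X⟩`,
`κ ⟨X, b⟩ = (w ⟨X, b⟩ - w ⟨X, a₁ X⟩) / s`.  Then `M s x = 0`: the parent rows are the
height equations of the composite (`glue_ed_l`, `gLab_incE`); the child rows by
`rw4_shrink`, `rw4_scale`, `shrink_hLab` (actual height times `lam` = `s * η + third coordinate * z X`).
So `x = a s (l, t)`, which says that `w` is affine with `l`.
-/

namespace SN78

open Sum Filter Topology

variable {V N F O : Type} {Vc Nc : F → Type} {P : Pic V N F O}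
  {C : ∀ X, Pic (Vc X) (Nc X) Empty Unit} {L : Lab N F O H}
  {M : ∀ X, Lab (Nc X) Empty Unit H} {sh : O → ZMod 4 → Prop}

/-- the height at a parent end -/
private def zet (C : ∀ X, Pic (Vc X) (Nc X) Empty Unit) (u : O → ZMod 4 → ℝ) (s : ℝ)
    (z : N ⊕ F → ℝ) (κ : (Σ X, Nc X) → ℝ) (t : ℝ) : Bead V N F O → ℝ
  | inl (.x _ _) => 0
  | inl (.f X i) =>
      match (C X).opp (inl (.o () i)) with
      | inr (b, _) => z (inr X) + s * κ ⟨X, b⟩
      | _ => z (inr X)
  | inl (.o a i) => t * u a i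
  | inr (a, _) => z (inl a)

/-- the rescaled height at a child end -/
private def eta (P : Pic V N F O) (C : ∀ X, Pic (Vc X) (Nc X) Empty Unit) (u : O → ZMod 4 → ℝ)
    (q : Bead V N F O → H) (s : ℝ) (z : N ⊕ F → ℝ) (κ : (Σ X, Nc X) → ℝ) (t : ℝ) (X : F) :
    Bead (Vc X) (Nc X) Empty Unit → ℝ
  | inl (.x _ _) => 0
  | inl (.f e _) => e.elim
  | inl (.o _ i) => zet C u s z κ t (P.opp (inl (.f X i))) -
      (q (P.opp (inl (.f X i)))) 2 * z (inr X)
  | inr (a, _) => κ ⟨X, a⟩

private abbrev Esp (N F : Type) (Nc : F → Type) : Type :=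
  (N ⊕ F → ℝ) × ((Σ X, Nc X) → ℝ) × ℝ

private abbrev Rsp (V F : Type) (Vc : F → Type) : Type :=
  (V → ℝ) × ((Σ X, Vc X) → ℝ) × (F → ℝ)

private theorem zet_add (u : O → ZMod 4 → ℝ) (s : ℝ) (z z' : N ⊕ F → ℝ)
    (κ κ' : (Σ X, Nc X) → ℝ) (t t' : ℝ) (e : Bead V N F O) :
    zet C u s (z + z') (κ + κ') (t + t') e = zet C u s z κ t e + zet C u s z' κ' t' e := by
  rcases e with (⟨v, i⟩ | ⟨X, i⟩ | ⟨a, i⟩) | ⟨a, b⟩
  · simp [zet]
  · simp only [zet]
    split
    · simp only [Pi.add_apply]; ring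
    · simp only [Pi.add_apply]
  · simp only [zet]; ring
  · simp [zet]

private theorem zet_smul (u : O → ZMod 4 → ℝ) (s : ℝ) (c : ℝ) (z : N ⊕ F → ℝ)
    (κ : (Σ X, Nc X) → ℝ) (t : ℝ) (e : Bead V N F O) :
    zet C u s (c • z) (c • κ) (c * t) e = c * zet C u s z κ t e := by
  rcases e with (⟨v, i⟩ | ⟨X, i⟩ | ⟨a, i⟩) | ⟨a, b⟩
  · simp [zet]
  · simp only [zet]
    split
    · simp only [Pi.smul_apply, smul_eq_mul]; ring
    · simp only [Pi.smul_apply, smul_eq_mul]
  · simp only [zet]; ring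
  · simp [zet]

private theorem eta_add (u : O → ZMod 4 → ℝ) (q : Bead V N F O → H) (s : ℝ)
    (z z' : N ⊕ F → ℝ) (κ κ' : (Σ X, Nc X) → ℝ) (t t' : ℝ) (X : F)
    (e : Bead (Vc X) (Nc X) Empty Unit) :
    eta P C u q s (z + z') (κ + κ') (t + t') X e =
      eta P C u q s z κ t X e + eta P C u q s z' κ' t' X e := by
  rcases e with (⟨v, i⟩ | ⟨X, i⟩ | ⟨a, i⟩) | ⟨a, b⟩
  · simp [eta]
  · exact X.elim
  · simp only [eta, zet_add, Pi.add_apply]; ring
  · simp [eta]

private theorem eta_smul (u : O → ZMod 4 → ℝ) (q : Bead V N F O → H) (s : ℝ) (c : ℝ)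
    (z : N ⊕ F → ℝ) (κ : (Σ X, Nc X) → ℝ) (t : ℝ) (X : F)
    (e : Bead (Vc X) (Nc X) Empty Unit) :
    eta P C u q s (c • z) (c • κ) (c * t) X e = c * eta P C u q s z κ t X e := by
  rcases e with (⟨v, i⟩ | ⟨X, i⟩ | ⟨a, i⟩) | ⟨a, b⟩
  · simp [eta]
  · exact X.elim
  · simp only [eta, zet_smul, Pi.smul_apply, smul_eq_mul]; ring
  · simp [eta]

/-- the system of equations -/
private noncomputable def Msys (P : Pic V N F O) (C : ∀ X, Pic (Vc X) (Nc X) Empty Unit)
    (u : O → ZMod 4 → ℝ) (a₁ : ∀ X, Nc X) (q : Bead V N F O → H)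
    (h : ∀ X, Bead (Vc X) (Nc X) Empty Unit → H) (s : ℝ) : Esp N F Nc →ₗ[ℝ] Rsp V F Vc where
  toFun x := (fun v => rw4 (fun i => q (P.ed v i)) (fun i => zet C u s x.1 x.2.1 x.2.2 (P.ed v i)),
    fun w => rw4 (fun i => h w.1 ((C w.1).ed w.2 i))
      (fun i => eta P C u q s x.1 x.2.1 x.2.2 w.1 ((C w.1).ed w.2 i)),
    fun X => x.2.1 ⟨X, a₁ X⟩)
  map_add' x y := by
    refine Prod.ext ?_ (Prod.ext ?_ ?_)
    · funext v
      simp only [Prod.fst_add, Prod.snd_add, zet_add, Pi.add_apply]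
      exact rw4_add _ _ _
    · funext w
      simp only [Prod.fst_add, Prod.snd_add, eta_add, Pi.add_apply]
      exact rw4_add _ _ _
    · funext X
      simp only [Prod.fst_add, Prod.snd_add, Pi.add_apply]
  map_smul' c x := by
    refine Prod.ext ?_ (Prod.ext ?_ ?_)
    · funext v
      simp only [Prod.smul_fst, Prod.smul_snd, smul_eq_mul, zet_smul, Pi.smul_apply,
        RingHom.id_apply]
      exact rw4_mul _ _ _
    · funext w
      simp only [Prod.smul_fst, Prod.smul_snd, smul_eq_mul, eta_smul, Pi.smul_apply,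
        RingHom.id_apply]
      exact rw4_mul _ _ _
    · funext X
      simp only [Prod.smul_fst, Prod.smul_snd, Pi.smul_apply, RingHom.id_apply]

/-- the admissible pairs of a functional and a flex parameter -/
private def Asp (L : Lab N F O H) (u : O → ZMod 4 → ℝ) : Submodule ℝ (H × ℝ) where
  carrier := {x | ∀ a i, dot x.1 (L.o a i) = x.2 * u a i}
  add_mem' := fun {x y} hx hy a i => by
    rw [Prod.fst_add, Prod.snd_add, add_dot, hx, hy]; ring
  zero_mem' := fun a i => by simp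
  smul_mem' := fun c x hx a i => by
    rw [Prod.smul_fst, Prod.smul_snd, smul_dot, hx, smul_eq_mul]; ring

/-- the affine solutions -/
private noncomputable def aff (L : Lab N F O H) (M : ∀ X, Lab (Nc X) Empty Unit H)
    (u : O → ZMod 4 → ℝ) (a₁ : ∀ X, Nc X) (s : ℝ) : Asp L u →ₗ[ℝ] Esp N F Nc where
  toFun y := (Sum.elim (fun a => dot y.1.1 (L.n a))
      (fun X => dot y.1.1 (shrink (L.f X) s ((M X).n (a₁ X)))),
    fun w => dot y.1.1 ((M w.1).n w.2 - (M w.1).n (a₁ w.1)), y.1.2)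
  map_add' x y := by
    refine Prod.ext ?_ (Prod.ext ?_ ?_)
    · funext v
      rcases v with a | X <;>
      simp only [Submodule.coe_add, Prod.fst_add, add_dot, Sum.elim_inl, Sum.elim_inr,
        Pi.add_apply]
    · funext w
      simp only [Submodule.coe_add, Prod.fst_add, Prod.snd_add, add_dot, Pi.add_apply]
    · simp only [Submodule.coe_add, Prod.snd_add]
  map_smul' c x := by
    refine Prod.ext ?_ (Prod.ext ?_ ?_)
    · funext v
      rcases v with a | X <;>
      simp only [Submodule.coe_smul, Prod.smul_fst, smul_dot, Sum.elim_inl, Sum.elim_inr,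
        Pi.smul_apply, smul_eq_mul, RingHom.id_apply]
    · funext w
      simp only [Submodule.coe_smul, Prod.smul_fst, Prod.smul_snd, smul_dot, Pi.smul_apply,
        smul_eq_mul, RingHom.id_apply]
    · simp only [Submodule.coe_smul, Prod.smul_snd, RingHom.id_apply]

private theorem tendsto_rw4 {ι : Type} {l : Filter ι} {p : ι → ZMod 4 → H} {p₀ : ZMod 4 → H}
    {z : ι → ZMod 4 → ℝ} {z₀ : ZMod 4 → ℝ} (hp : ∀ i, Tendsto (fun s => p s i) l (𝓝 (p₀ i)))
    (hz : ∀ i, Tendsto (fun s => z s i) l (𝓝 (z₀ i))) :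
    Tendsto (fun s => rw4 (p s) (z s)) l (𝓝 (rw4 p₀ z₀)) := by
  unfold rw4
  exact ((((continuous_dt (hp 1) (hp 2) (hp 3)).mul (hz 0)).add
    ((continuous_dt (hp 3) (hp 0) (hp 1)).mul (hz 2))).sub
    ((continuous_dt (hp 2) (hp 3) (hp 0)).mul (hz 1))).sub
    ((continuous_dt (hp 0) (hp 1) (hp 2)).mul (hz 3))

private theorem tendsto_zet (u : O → ZMod 4 → ℝ) (z : N ⊕ F → ℝ) (κ : (Σ X, Nc X) → ℝ) (t : ℝ)
    (e : Bead V N F O) : Tendsto (fun s => zet C u s z κ t e) (𝓝[>] (0 : ℝ))
      (𝓝 (zet C u 0 z κ t e)) := by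
  have h : Continuous (fun s => zet C u s z κ t e) := by
    rcases e with (⟨v, i⟩ | ⟨X, i⟩ | ⟨a, i⟩) | ⟨a, b⟩
    · simp only [zet]; exact continuous_const
    · simp only [zet]
      split
      · fun_prop
      · fun_prop
    · simp only [zet]; fun_prop
    · simp only [zet]; exact continuous_const
  exact (h.tendsto 0).mono_left nhdsWithin_le_nhds

private theorem dot_sub_shrink (l c p q : H) (s : ℝ) (hp : p 2 = 1) (hq : q 2 = 1) :
    dot l (shrink c s q) + s * dot l (p - q) = dot l (shrink c s p) := by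
  simp only [dot, shrink, Pi.sub_apply]
  simp [hp, hq]
  ring

private theorem shrink_zero (c p : H) (hp : p 2 = 1) (hc : c 2 = 1) : shrink c 0 p = c := by
  ext i; fin_cases i <;> simp [shrink, hp, hc]

/-- the heights of an affine function at the parent ends -/
private theorem zet_aff (S : Setup P C L M sh) (u : O → ZMod 4 → ℝ) (a₁ : ∀ X, Nc X) (s : ℝ)
    (y : Asp L u) {e : Bead V N F O} (he : IsEnd e) :
    zet C u s (aff L M u a₁ s y).1 (aff L M u a₁ s y).2.1 (aff L M u a₁ s y).2.2 e =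
      dot y.1.1 (qpos C L M s e) := by
  rcases e with (⟨v, i⟩ | ⟨X, i⟩ | ⟨a, i⟩) | ⟨a, b⟩
  · exact he.elim
  · obtain ⟨b, c, hb⟩ := S.fin X i
    simp only [zet, qpos, hb]
    exact dot_sub_shrink _ _ _ _ _ ((S.nM X).n _) ((S.nM X).n _)
  · simp only [zet, qpos]
    exact (y.2 a i).symm
  · simp only [zet, qpos]
    rfl

private theorem eta_aff (S : Setup P C L M sh) (u : O → ZMod 4 → ℝ) (a₁ : ∀ X, Nc X) (s : ℝ)
    (y : Asp L u) (X : F) {e : Bead (Vc X) (Nc X) Empty Unit} (he : IsEnd e) :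
    eta P C u (qpos C L M s) s (aff L M u a₁ s y).1 (aff L M u a₁ s y).2.1
      (aff L M u a₁ s y).2.2 X e =
      dot ![y.1.1 0, y.1.1 1,
        - (y.1.1 0 * (M X).n (a₁ X) 0 + y.1.1 1 * (M X).n (a₁ X) 1)]
        ((hLab P C L M s X).at e) := by
  rcases e with (⟨v, i⟩ | ⟨X, i⟩ | ⟨a, i⟩) | ⟨a, b⟩
  · exact he.elim
  · exact X.elim
  · have h1 := zet_aff S u a₁ s y (opp_end S.okP (e := inl (.f X i)) trivial)
    simp only [eta, h1]
    have hz : (aff L M u a₁ s y).1 (inr X) =
      dot y.1.1 (shrink (L.f X) s ((M X).n (a₁ X))) := rfl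
    rw [hz]
    simp only [Lab.at, hLab, dot, zoom, shrink]
    simp [(S.nM X).n]
    ring
  · have h0 : (aff L M u a₁ s y).2.1 ⟨X, a⟩ = dot y.1.1 ((M X).n a - (M X).n (a₁ X)) := rfl
    simp only [eta, h0]
    simp only [Lab.at, hLab, dot, Pi.sub_apply]
    simp [(S.nM X).n]
    ring

theorem glue_rig [Fintype V] [Fintype N] [Fintype F] [Fintype O] [∀ X, Fintype (Vc X)]
    [∀ X, Fintype (Nc X)] [∀ X, Nonempty (Nc X)] (S : Setup P C L M sh)
    {r : F → ZMod 4 → ℝ} (hr : ∀ X, HasRow (C X) (M X) (r X)) {u : O → ZMod 4 → ℝ}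
    (hR : P.Rig L r u) :
    ∀ᶠ s in 𝓝[>] (0 : ℝ), (glue P C).Rig (gLab L M s) (fun e => e.elim) u := by
  classical
  obtain ⟨a₁⟩ : Nonempty (∀ X, Nc X) := inferInstance
  let Ms : ℝ → Esp N F Nc →ₗ[ℝ] Rsp V F Vc := fun s =>
    Msys P C u a₁ (qpos C L M s) (fun X => (hLab P C L M s X).at) s
  let M0 : Esp N F Nc →ₗ[ℝ] Rsp V F Vc :=
    Msys P C u a₁ L.at (fun X => (M X).at) 0
  have hM : ∀ x, Tendsto (fun s => Ms s x) (𝓝[>] (0 : ℝ)) (𝓝 (M0 x)) := by
    intro x
    refine Tendsto.prodMk_nhds ?_ (Tendsto.prodMk_nhds ?_ ?_)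
    · rw [tendsto_pi_nhds]
      intro v
      exact tendsto_rw4 (fun i => tendsto_qpos S (S.okP.ed_end v i))
        (fun i => tendsto_zet u _ _ _ _)
    · rw [tendsto_pi_nhds]
      rintro ⟨X, v⟩
      refine tendsto_rw4 (fun i => tendsto_hLab S X _) (fun i => ?_)
      show Tendsto (fun s => eta P C u (qpos C L M s) s x.1 x.2.1 x.2.2 X ((C X).ed v i))
        (𝓝[>] (0 : ℝ)) (𝓝 (eta P C u L.at 0 x.1 x.2.1 x.2.2 X ((C X).ed v i)))
      generalize (C X).ed v i = e
      rcases e with (⟨v, i⟩ | ⟨X, i⟩ | ⟨a, i⟩) | ⟨a, b⟩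
      · simp only [eta]; exact tendsto_const_nhds
      · exact X.elim
      · simp only [eta]
        refine (tendsto_zet u _ _ _ _).sub (Tendsto.mul_const _ ?_)
        exact (tendsto_pi_nhds.1 (tendsto_qpos S (opp_end S.okP (e := inl (.f X i)) trivial)) 2)
      · simp only [eta]; exact tendsto_const_nhds
    · exact tendsto_const_nhds
  have ha : ∀ y, Tendsto (fun s => aff L M u a₁ s y) (𝓝[>] (0 : ℝ)) (𝓝 (aff L M u a₁ 0 y)) := by
    intro y
    refine Tendsto.prodMk_nhds ?_ (Tendsto.prodMk_nhds ?_ ?_)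
    · rw [tendsto_pi_nhds]
      rintro (a | X)
      · exact tendsto_const_nhds
      · have h : Continuous (fun s => dot y.1.1 (shrink (L.f X) s ((M X).n (a₁ X)))) := by
          simp only [dot, shrink]
          simp
          fun_prop
        exact (h.tendsto 0).mono_left nhdsWithin_le_nhds
    · exact tendsto_const_nhds
    · exact tendsto_const_nhds
  have hz : ∀ᶠ s in 𝓝[>] (0 : ℝ), ∀ y, Ms s (aff L M u a₁ s y) = 0 := by
    refine Eventually.of_forall fun s y => ?_
    refine Prod.ext ?_ (Prod.ext ?_ ?_)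
    · funext v
      show rw4 (fun i => qpos C L M s (P.ed v i)) (fun i => zet C u s _ _ _ (P.ed v i)) = 0
      have h1 : (fun i => zet C u s (aff L M u a₁ s y).1 (aff L M u a₁ s y).2.1
          (aff L M u a₁ s y).2.2 (P.ed v i)) =
          fun i => dot y.1.1 (qpos C L M s (P.ed v i)) := by
        funext i
        exact zet_aff S u a₁ s y (S.okP.ed_end v i)
      rw [h1]
      exact rw4_dot _ _
    · funext w
      obtain ⟨X, v⟩ := w
      show rw4 (fun i => (hLab P C L M s X).at ((C X).ed v i))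
        (fun i => eta P C u (qpos C L M s) s _ _ _ X ((C X).ed v i)) = 0
      have h1 : (fun i => eta P C u (qpos C L M s) s (aff L M u a₁ s y).1
          (aff L M u a₁ s y).2.1 (aff L M u a₁ s y).2.2 X ((C X).ed v i)) =
          fun i => dot ![y.1.1 0, y.1.1 1,
            - (y.1.1 0 * (M X).n (a₁ X) 0 + y.1.1 1 * (M X).n (a₁ X) 1)]
            ((hLab P C L M s X).at ((C X).ed v i)) := by
        funext i
        exact eta_aff S u a₁ s y X ((S.okC X).ed_end v i)
      rw [h1]
      exact rw4_dot _ _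
    · funext X
      show dot y.1.1 ((M X).n (a₁ X) - (M X).n (a₁ X)) = 0
      rw [sub_self, dot_zero]
  have hk : ∀ x, M0 x = 0 → ∃ y, aff L M u a₁ 0 y = x := by
    rintro ⟨z, κ, t⟩ hx
    have hx1 : ∀ v, rw4 (fun i => L.at (P.ed v i)) (fun i => zet C u 0 z κ t (P.ed v i)) = 0 :=
      fun v => congrFun (congrArg Prod.fst hx) v
    have hx2 : ∀ X v, rw4 (fun i => (M X).at ((C X).ed v i))
        (fun i => eta P C u L.at 0 z κ t X ((C X).ed v i)) = 0 :=
      fun X v => congrFun (congrArg (fun p => p.2.1) hx) ⟨X, v⟩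
    have hx3 : ∀ X, κ ⟨X, a₁ X⟩ = 0 := fun X => congrFun (congrArg (fun p => p.2.2) hx) X
    let z' : Lab N F O ℝ :=
      { n := fun a => z (inl a)
        f := fun X => z (inr X)
        o := fun a i => t * u a i }
    have hzz : ∀ e : Bead V N F O, zet C u 0 z κ t e = z'.at e := by
      rintro ((⟨v, i⟩ | ⟨X, i⟩ | ⟨a, i⟩) | ⟨a, b⟩)
      · rfl
      · obtain ⟨b, c, hb⟩ := S.fin X i
        simp only [zet, hb, Lab.at, z']
        ring
      · rfl
      · rfl
    have hsol : P.Sol L z' := by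
      intro v
      have := hx1 v
      simp only [hzz] at this
      exact this
    let yX : ∀ X, Lab (Nc X) Empty Unit ℝ := fun X =>
      { n := fun b => κ ⟨X, b⟩
        f := fun e => e.elim
        o := fun _ i => P.slo L z' X i }
    have hee : ∀ X (e : Bead (Vc X) (Nc X) Empty Unit), eta P C u L.at 0 z κ t X e =
        (yX X).at e := by
      intro X e
      rcases e with (⟨v, i⟩ | ⟨X, i⟩ | ⟨a, i⟩) | ⟨a, b⟩
      · rfl
      · exact X.elim
      · simp only [eta, hzz]
        rfl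
      · rfl
    have hsolX : ∀ X, (C X).Sol (M X) (yX X) := by
      intro X v
      have := hx2 X v
      simp only [hee] at this
      exact this
    obtain ⟨l, hl1, hl2, hl3⟩ := hR z' hsol (fun X => (hr X).sol (yX X) (hsolX X))
      ⟨t, fun a i => rfl⟩
    have hat : ∀ e : Bead V N F O, z'.at e = dot l (L.at e) := by
      rintro ((⟨v, i⟩ | ⟨X, i⟩ | ⟨a, i⟩) | ⟨a, b⟩)
      · simp [Lab.at]
      · exact hl2 X
      · exact hl3 a i
      · exact hl1 a
    have hslo : ∀ X i, P.slo L z' X i = dot l ((M X).o () i) := by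
      intro X i
      rw [S.dir X i]
      unfold Pic.slo Pic.dir
      rw [hat, dot_sub, dot_smul]
      have : z'.f X = dot l (L.f X) := hl2 X
      rw [this]
    have hcst : ∀ X, ∃ c, ∀ b, κ ⟨X, b⟩ - dot l ((M X).n b) = c := by
      intro X
      let z₀ : Lab (Nc X) Empty Unit ℝ :=
        { n := fun b => κ ⟨X, b⟩ - dot l ((M X).n b)
          f := fun e => e.elim
          o := fun _ _ => 0 }
      refine (hr X).cst z₀ ?_ (fun _ => rfl)
      intro v
      have h1 := hsolX X v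
      unfold Pic.row at h1 ⊢
      have h2 : (fun i => z₀.at ((C X).ed v i)) =
          fun i => (yX X).at ((C X).ed v i) - dot l ((M X).at ((C X).ed v i)) := by
        funext i
        generalize (C X).ed v i = e
        rcases e with (⟨v, i⟩ | ⟨X, i⟩ | ⟨a, i⟩) | ⟨a, b⟩
        · simp [Lab.at]
        · exact X.elim
        · show (0 : ℝ) = P.slo L z' X i - dot l ((M X).o a i)
          rw [hslo, sub_self]
        · rfl
      rw [h2, rw4_sub, h1, rw4_dot, sub_zero]
    refine ⟨⟨(l, t), fun a i => (hl3 a i).symm⟩, ?_⟩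
    refine Prod.ext ?_ (Prod.ext ?_ ?_)
    · funext w
      rcases w with a | X
      · exact (hl1 a).symm
      · show dot l (shrink (L.f X) 0 ((M X).n (a₁ X))) = z (inr X)
        rw [shrink_zero _ _ ((S.nM X).n _) (S.nL.f X)]
        exact (hl2 X).symm
    · funext w
      obtain ⟨X, b⟩ := w
      obtain ⟨c, hc⟩ := hcst X
      have h1 := hc b
      have h2 := hc (a₁ X)
      rw [hx3 X] at h2
      show dot l ((M X).n b - (M X).n (a₁ X)) = κ ⟨X, b⟩
      rw [dot_sub]
      linarith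
    · rfl
  have hmain := ker_le_range hM ha hz hk
  filter_upwards [hmain, self_mem_nhdsWithin] with s hs hs0
  have hs0' : (0 : ℝ) < s := hs0
  have hsne : s ≠ 0 := hs0'.ne'
  rintro w hw - ⟨t, ht⟩
  let z : N ⊕ F → ℝ := Sum.elim (fun a => w.n (inl a)) (fun X => w.n (inr ⟨X, a₁ X⟩))
  let κ : (Σ X, Nc X) → ℝ := fun b => (w.n (inr b) - w.n (inr ⟨b.1, a₁ b.1⟩)) / s
  have hsk : ∀ X b, s * κ ⟨X, b⟩ = w.n (inr ⟨X, b⟩) - w.n (inr ⟨X, a₁ X⟩) := by
    intro X b
    show s * ((w.n (inr ⟨X, b⟩) - w.n (inr ⟨X, a₁ X⟩)) / s) = _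
    field_simp
  have hzet : ∀ {e : Bead V N F O}, IsEnd e → ∀ d, zet C u s z κ t e = w.at (incE C d e) := by
    intro e he d
    rcases e with (⟨v, i⟩ | ⟨X, i⟩ | ⟨a, i⟩) | ⟨a, b⟩
    · exact he.elim
    · obtain ⟨b, c, hb⟩ := S.fin X i
      simp only [zet, incE, hb, dnb, Lab.at]
      rw [hsk]
      show w.n (inr ⟨X, a₁ X⟩) + _ = _
      ring
    · simp only [zet, incE, Lab.at]
      exact (ht a i).symm
    · rfl
  have hker : Ms s (z, κ, t) = 0 := by
    refine Prod.ext ?_ (Prod.ext ?_ ?_)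
    · funext v
      show rw4 (fun i => qpos C L M s (P.ed v i)) (fun i => zet C u s z κ t (P.ed v i)) = 0
      have h1 := hw (inl v)
      unfold Pic.row at h1
      rw [← h1]
      congr 1
      · funext i
        rw [glue_ed_l S v i (inl (.x (inl v) i)), gLab_incE S s (S.okP.ed_end v i)]
      · funext i
        rw [glue_ed_l S v i (inl (.x (inl v) i))]
        exact hzet (S.okP.ed_end v i) _
    · funext ⟨X, v⟩
      show rw4 (fun i => (hLab P C L M s X).at ((C X).ed v i))
        (fun i => eta P C u (qpos C L M s) s z κ t X ((C X).ed v i)) = 0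
      have h1 := hw (inr ⟨X, v⟩)
      unfold Pic.row at h1
      let c : ZMod 4 → Bead (Vc X) (Nc X) Empty Unit := fun i => (C X).ed v i
      have hce : ∀ i, IsEnd (c i) := fun i => (S.okC X).ed_end v i
      let d : ZMod 4 → Bead (GV V Vc) (GV N Nc) Empty O := fun i =>
        outE P C X (inl (.x (inr ⟨X, v⟩) i)) (c i)
      have hd : ∀ i, (glue P C).ed (inr ⟨X, v⟩) i = d i := fun i => glue_ed_r S X v i _
      have h2 := rw4_scale (fun i => (gLab L M s).at (d i)) (fun i => w.at (d i))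
        (fun i => lam s (c i))
      have h3 : rw4 (fun i => (gLab L M s).at (d i)) (fun i => w.at (d i)) = 0 := by
        rw [← h1]
        simp only [hd]
      rw [h3, mul_zero] at h2
      have h4 : (fun i => lam s (c i) • (gLab L M s).at (d i)) =
          fun i => shrink (L.f X) s ((hLab P C L M s X).at (c i)) := by
        funext i
        exact (shrink_hLab S s X (hce i) _).symm
      have h5 : (fun i => lam s (c i) * w.at (d i)) =
          fun i => s * eta P C u (qpos C L M s) s z κ t X (c i) +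
            ((hLab P C L M s X).at (c i)) 2 * z (inr X) := by
        funext i
        show lam s (c i) * w.at (outE P C X (inl (.x (inr ⟨X, v⟩) i)) (c i)) = _
        have hi := hce i
        generalize c i = e at hi ⊢
        rcases e with (⟨v, j⟩ | ⟨X, j⟩ | ⟨a, j⟩) | ⟨a, b⟩
        · exact hi.elim
        · exact X.elim
        · have h6 := hzet (opp_end S.okP (e := inl (.f X j)) trivial) (inl (.x (inr ⟨X, v⟩) i))
          simp only [lam, outE, eta]
          rw [← h6]
          simp only [Lab.at, hLab, zoom]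
          simp
          ring
        · simp only [lam, outE, dnb, eta, Lab.at, hLab, (S.nM X).n]
          rw [hsk]
          show _ = _ + 1 * w.n (inr ⟨X, a₁ X⟩)
          ring
      rw [h4, h5, rw4_shrink] at h2
      rcases mul_eq_zero.1 h2 with h7 | h7
      · exact absurd h7 (pow_ne_zero _ hsne)
      · exact h7
    · funext X
      show (w.n (inr ⟨X, a₁ X⟩) - w.n (inr ⟨X, a₁ X⟩)) / s = 0
      rw [sub_self, zero_div]
  obtain ⟨y, hy⟩ := hs _ hker
  have hy1 : (aff L M u a₁ s y).1 = z := by rw [hy]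
  have hy2 : (aff L M u a₁ s y).2.1 = κ := by rw [hy]
  have hy3 : y.1.2 = t := congrArg (fun p => p.2.2) hy
  refine ⟨y.1.1, ?_, fun e => e.elim, ?_⟩
  · rintro (a | ⟨X, b⟩)
    · exact (congrFun hy1 (inl a)).symm
    · have h1 : dot y.1.1 (shrink (L.f X) s ((M X).n (a₁ X))) = w.n (inr ⟨X, a₁ X⟩) :=
        congrFun hy1 (inr X)
      have h2 : dot y.1.1 ((M X).n b - (M X).n (a₁ X)) = κ ⟨X, b⟩ := congrFun hy2 ⟨X, b⟩
      have h3 := dot_sub_shrink y.1.1 (L.f X) ((M X).n b) ((M X).n (a₁ X)) s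
        ((S.nM X).n _) ((S.nM X).n _)
      rw [h1, h2, hsk] at h3
      show w.n (inr ⟨X, b⟩) = dot y.1.1 (shrink (L.f X) s ((M X).n b))
      rw [← h3]
      ring
  · intro a i
    rw [ht a i]
    have := y.2 a i
    rw [hy3] at this
    exact this.symm

end SN78
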