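import Pool.Agent.SN78.GBase

/-!
# SN78 module GSEP: separation of the sticks of the composite

Each stick of the composite with the end `e` is of one of two kinds.
* parent kind: there is an end `g` of the parent with `e = incE C _ g` (then
  `opp' e = incE C _ (P.opp g)` by `glue_opp_inc`).  This is so for `e = inr (inl a, c)`,
  `e = inl (.o a i)`, and for a child node `e = inr (inr ⟨X, a⟩, b)` with
  `(C X).opp (inr (a, b)) = inl (.o () i)`; then `g = inl (.f X i)`.  The positions of `e, opp' e` are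
  `qpos g, qpos (P.opp g)` (`gLab_incE`).
* internal kind: `e = inr (inr ⟨X, a⟩, b)` and `(C X).opp (inr (a, b)) = inr (a', b')`; then
  `opp' e = inr (inr ⟨X, a'⟩, b')` (`glue_opp_node`).  The positions are
  `shrink (L.f X) s ((M X).n a)` and the same for `a'`.

Let `e, e'` be `Apart` in the composite.
1. Both of parent kind, from `g, g'`.  If `P.Apart sh g g'` use `hv.sep`.  A crossing of the parent
   with `P.ed v i = g` etc. gives a crossing of the composite (`glue_ed_l`), excluded.  So there is a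
   common node.  Common plain nodes or outer points are common in the composite, excluded.  So the two
   sticks have a common big vertex `X`; replacing `g` by `P.opp g` and `g'` by `P.opp g'` if necessary
   (`Apart` and `Sep` are symmetric: `Sep.left`, `Sep.right`; `opp_opp`) we have `g = f X i`,
   `g' = f X j`.  `i ≠ j` since otherwise the two child nodes coincide.  In the child `X` the ends
   `o i` and `o j` are `Apart` (for `no`): common nodes or crossings of the two port sticks
   in the child are common nodes or crossings in the composite (`glue_ed_r`; note that a crossing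
   `ed v k = o i`, `ed v (k + 1) = o j` of the child gives in the composite
   `ed' v k = opp' e`, `ed' v (k + 1) = opp' e'`, and then `ed' v (k + 2) = e`, `ed' v (k + 3) = e'`
   by `opp_ed`, `opp_opp`).  So `hc X` gives `Sep` at the rescaled positions, and `Sep.of_shrink` with
   `shrink_hLab` gives `Sep` at the actual positions.
2. `e` of parent kind from `g`, `e'` internal to `X`.  If the stick of `g` does not end at `X`
   use `h1`.  If it does, we may assume `g = f X j` (as above), and the port stick `o j` and the stick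
   `e'` are `Apart` in the child `X`; continue as in 1.
3. Both internal to the same child: `Apart` in the child; as in 1 (all factors `lam` are `1`).
4. Internal to different children: `h2`.
-/

namespace SN78

open Sum

variable {V N F O : Type} {Vc Nc : F → Type} {P : Pic V N F O}
  {C : ∀ X, Pic (Vc X) (Nc X) Empty Unit} {L : Lab N F O H}
  {M : ∀ X, Lab (Nc X) Empty Unit H} {sh : O → ZMod 4 → Prop}

private theorem gsep_a (i : ZMod 4) : i + 1 + 3 = i := by revert i; decide

private theorem gsep_b (i : ZMod 4) : i + 3 + 1 = i := by revert i; decide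

private theorem gsep_c (i : ZMod 4) : i + 2 + 3 = i + 1 := by revert i; decide

private theorem gsep_d (i : ZMod 4) : i + 2 + 1 = i + 3 := by revert i; decide

private theorem gsep_same_symm {V N F O : Type} {sh : O → ZMod 4 → Prop}
    {e e' : Bead V N F O} (h : SameNode sh e e') : SameNode sh e' e := by
  rcases e with (_ | _ | ⟨a, i⟩) | ⟨a, b⟩ <;> rcases e' with (_ | _ | ⟨a', i'⟩) | ⟨a', b'⟩ <;>
    simp only [SameNode] at h ⊢
  · exact h.symm
  · obtain ⟨rfl, h2 | ⟨h2, h3⟩ | ⟨h2, h3⟩⟩ := h
    · exact ⟨rfl, Or.inl h2.symm⟩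
    · exact ⟨rfl, Or.inr (Or.inr ⟨h2, h3⟩)⟩
    · exact ⟨rfl, Or.inr (Or.inl ⟨h2, h3⟩)⟩
  · exact h.symm

private theorem gsep_same_refl {V N F O : Type} {sh : O → ZMod 4 → Prop}
    {e : Bead V N F O} (h : IsEnd e) : SameNode sh e e := by
  rcases e with (_ | _ | ⟨a, i⟩) | ⟨a, b⟩
  · exact h.elim
  · rfl
  · exact ⟨rfl, Or.inl rfl⟩
  · rfl

private theorem gsep_end_o {V N F O : Type} (a : O) (i : ZMod 4) :
    IsEnd (inl (.o a i) : Bead V N F O) := trivial

private theorem gsep_end_f {V N F O : Type} (a : F) (i : ZMod 4) :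
    IsEnd (inl (.f a i) : Bead V N F O) := trivial

private theorem gsep_end_n {V N F O : Type} (a : N) (b : Bool) :
    IsEnd (inr (a, b) : Bead V N F O) := trivial

private theorem gsep_apart_symm {V N F O : Type} {P : Pic V N F O} {sh : O → ZMod 4 → Prop}
    {e e' : Bead V N F O} (h : P.Apart sh e e') : P.Apart sh e' e := by
  obtain ⟨h1, h2, h3, h4, h5⟩ := h
  refine ⟨fun h => h1 (gsep_same_symm h), fun h => h3 (gsep_same_symm h),
    fun h => h2 (gsep_same_symm h), fun h => h4 (gsep_same_symm h), ?_⟩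
  rintro ⟨v, i, hi, hj | hj⟩
  · exact h5 ⟨v, i + 1, hj, Or.inr (by rw [gsep_a]; exact hi)⟩
  · exact h5 ⟨v, i + 3, hj, Or.inl (by rw [gsep_b]; exact hi)⟩

private theorem gsep_apart_left {V N F O : Type} {P : Pic V N F O} (hP : P.Ok)
    {sh : O → ZMod 4 → Prop} {e e' : Bead V N F O} (he : IsEnd e)
    (h : P.Apart sh e e') : P.Apart sh (P.opp e) e' := by
  obtain ⟨h1, h2, h3, h4, h5⟩ := h
  refine ⟨h3, h4, ?_, ?_, ?_⟩
  · rw [opp_opp hP he]; exact h1
  · rw [opp_opp hP he]; exact h2
  · rintro ⟨v, i, hi, hj⟩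
    refine h5 ⟨v, i + 2, ?_, ?_⟩
    · rw [← hP.opp_ed, hi, opp_opp hP he]
    · rw [gsep_c, gsep_d]; exact hj.symm

private theorem gsep_apart_right {V N F O : Type} {P : Pic V N F O} (hP : P.Ok)
    {sh : O → ZMod 4 → Prop} {e e' : Bead V N F O} (he' : IsEnd e')
    (h : P.Apart sh e e') : P.Apart sh e (P.opp e') :=
  gsep_apart_symm (gsep_apart_left hP he' (gsep_apart_symm h))

/-- the opposite end of a stick of a child -/
private theorem gsep_opp_out (S : Setup P C L M sh) (X : F)
    {c : Bead (Vc X) (Nc X) Empty Unit} (hc : IsEnd c) (d : Bead (GV V Vc) (GV N Nc) Empty O) :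
    (glue P C).opp (outE P C X d c) = outE P C X d ((C X).opp c) := by
  rcases c with (_ | ⟨x, _⟩ | ⟨a, i⟩) | ⟨a, b⟩
  · exact hc.elim
  · exact x.elim
  · have h1 : outE P C X d (inl (.o a i)) = incE C d (P.opp (inl (.f X i))) := rfl
    rw [h1, glue_opp_inc S (opp_end S.okP (gsep_end_f X i)) d d, opp_opp S.okP (gsep_end_f X i)]
    obtain ⟨a', b', h⟩ := S.fin X i
    have h2 : incE C d (inl (.f X i)) = dnb X d ((C X).opp (inl (.o () i))) := rfl
    rw [h2, h]
    rfl
  · have h1 : outE P C X d (inr (a, b)) = inr (inr ⟨X, a⟩, b) := rfl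
    rw [h1]
    exact glue_opp_node S X a b d

private theorem gsep_out_end (S : Setup P C L M sh) (X : F)
    {c : Bead (Vc X) (Nc X) Empty Unit} (hc : IsEnd c) (d : Bead (GV V Vc) (GV N Nc) Empty O) :
    IsEnd (outE P C X d c) := by
  have inc_end : ∀ g : Bead V N F O, IsEnd g → IsEnd (incE C d g) := by
    intro g hg
    rcases g with (_ | ⟨Y, j⟩ | ⟨a, i⟩) | ⟨a, b⟩
    · exact hg.elim
    · obtain ⟨a', b', h⟩ := S.fin Y j
      have h2 : incE C d (inl (.f Y j)) = dnb Y d ((C Y).opp (inl (.o () j))) := rfl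
      rw [h2, h]
      trivial
    · trivial
    · trivial
  rcases c with (_ | ⟨x, _⟩ | ⟨a, i⟩) | ⟨a, b⟩
  · exact hc.elim
  · exact x.elim
  · exact inc_end _ (opp_end S.okP (gsep_end_f X i))
  · trivial

/-- a common node of two ends of a child is a common node in the composite -/
private theorem gsep_same_out (S : Setup P C L M sh) (X : F)
    {c c' : Bead (Vc X) (Nc X) Empty Unit} (hc : IsEnd c)
    (d : Bead (GV V Vc) (GV N Nc) Empty O) (h : SameNode (fun _ => no) c c') :
    SameNode sh (outE P C X d c) (outE P C X d c') := by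
  rcases c with (_ | ⟨x, _⟩ | ⟨a, i⟩) | ⟨a, b⟩ <;>
    rcases c' with (_ | ⟨x', _⟩ | ⟨a', i'⟩) | ⟨a', b'⟩ <;>
    try exact h.elim
  · exact x.elim
  · obtain ⟨-, h2 | ⟨-, h3⟩ | ⟨-, h3⟩⟩ := h
    · subst h2
      exact gsep_same_refl (gsep_out_end S X (gsep_end_o a i) d)
    · exact h3.elim
    · exact h3.elim
  · have h' : a = a' := h
    subst h'
    have h1 : outE P C X d (inr (a, b)) = inr (inr ⟨X, a⟩, b) := rfl
    have h2 : outE P C X d (inr (a, b')) = inr (inr ⟨X, a⟩, b') := rfl
    rw [h1, h2]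
    rfl

/-- two sticks of the same child -/
private theorem gsep_child (S : Setup P C L M sh) {s : ℝ} (hs : 0 < s)
    (hc : ∀ X, (C X).Valid (fun _ => no) (hLab P C L M s X).at) (X : F)
    {c c' : Bead (Vc X) (Nc X) Empty Unit} (h : IsEnd c) (h' : IsEnd c')
    (d : Bead (GV V Vc) (GV N Nc) Empty O)
    (ha : (glue P C).Apart sh (outE P C X d c) (outE P C X d c')) :
    Sep ((gLab L M s).at (outE P C X d c)) ((gLab L M s).at ((glue P C).opp (outE P C X d c)))
      ((gLab L M s).at (outE P C X d c'))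
      ((gLab L M s).at ((glue P C).opp (outE P C X d c'))) := by
  have lam_pos : ∀ b : Bead (Vc X) (Nc X) Empty Unit, 0 < lam s b := by
    intro b
    rcases b with (_ | ⟨x, _⟩ | ⟨a, i⟩) | ⟨a, b⟩
    · exact one_pos
    · exact x.elim
    · exact hs
    · exact one_pos
  have ho := opp_end (S.okC X) h
  have ho' := opp_end (S.okC X) h'
  have hap : (C X).Apart (fun _ => no) c c' := by
    obtain ⟨h1, h2, h3, h4, h5⟩ := ha
    rw [gsep_opp_out S X h' d] at h2 h4
    rw [gsep_opp_out S X h d] at h3 h4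
    refine ⟨fun hh => h1 (gsep_same_out S X h d hh), fun hh => h2 (gsep_same_out S X h d hh),
      fun hh => h3 (gsep_same_out S X ho d hh), fun hh => h4 (gsep_same_out S X ho d hh), ?_⟩
    rintro ⟨v, i, hi, hj⟩
    refine h5 ⟨inr ⟨X, v⟩, i, ?_, ?_⟩
    · rw [glue_ed_r S X v i d, hi]
    · rcases hj with hj | hj
      · left; rw [glue_ed_r S X v _ d, hj]
      · right; rw [glue_ed_r S X v _ d, hj]
  rw [gsep_opp_out S X h d, gsep_opp_out S X h' d]
  exact Sep.of_shrink hs ((hc X).sep c c' h h' hap) (lam_pos c) (lam_pos _) (lam_pos c')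
    (lam_pos _) (shrink_hLab S s X h d) (shrink_hLab S s X ho d) (shrink_hLab S s X h' d)
    (shrink_hLab S s X ho' d)

/-- a dart of a big vertex gives an end of a stick of the child -/
private theorem gsep_inc_f (S : Setup P C L M sh) (X : F) (i : ZMod 4)
    (d : Bead (GV V Vc) (GV N Nc) Empty O) :
    incE C d (inl (.f X i)) = outE P C X d ((C X).opp (inl (.o () i))) := by
  obtain ⟨a, b, h⟩ := S.fin X i
  have h2 : incE C d (inl (.f X i)) = dnb X d ((C X).opp (inl (.o () i))) := rfl
  rw [h2, h]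
  rfl

/-- parent kind or internal kind -/
private theorem gsep_kind (S : Setup P C L M sh)
    (d e : Bead (GV V Vc) (GV N Nc) Empty O) (he : IsEnd e) :
    (∃ g : Bead V N F O, IsEnd g ∧ e = incE C d g) ∨
      ∃ (X : F) (a : Nc X) (b : Bool) (a' : Nc X) (b' : Bool),
        e = outE P C X d (inr (a, b)) ∧ (C X).opp (inr (a, b)) = inr (a', b') := by
  rcases e with (_ | ⟨x, _⟩ | ⟨a, i⟩) | ⟨a | ⟨X, a⟩, b⟩
  · exact he.elim
  · exact x.elim
  · exact Or.inl ⟨inl (.o a i), trivial, rfl⟩
  · exact Or.inl ⟨inr (a, b), trivial, rfl⟩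
  · have h1 := opp_end (S.okC X) (e := inr (a, b)) trivial
    have h2 := opp_opp (S.okC X) (e := inr (a, b)) trivial
    rcases h : (C X).opp (inr (a, b)) with (_ | ⟨x, _⟩ | ⟨u, i⟩) | ⟨a', b'⟩
    · rw [h] at h1
      exact h1.elim
    · exact x.elim
    · left
      refine ⟨inl (.f X i), trivial, ?_⟩
      rw [h] at h2
      rw [gsep_inc_f S X i d]
      rw [show (inl (.o () i) : Bead (Vc X) (Nc X) Empty Unit) = inl (.o u i) from rfl, h2]
      rfl
    · exact Or.inr ⟨X, a, b, a', b', rfl, h⟩

/-- two sticks of parent kind with a common site or node of the parent -/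
private theorem gsep_common (S : Setup P C L M sh) {s : ℝ} (hs : 0 < s)
    (hc : ∀ X, (C X).Valid (fun _ => no) (hLab P C L M s X).at)
    (d : Bead (GV V Vc) (GV N Nc) Empty O) {g g' : Bead V N F O}
    (h : SameNode sh g g') (ha : (glue P C).Apart sh (incE C d g) (incE C d g')) :
    Sep ((gLab L M s).at (incE C d g)) ((gLab L M s).at ((glue P C).opp (incE C d g)))
      ((gLab L M s).at (incE C d g')) ((gLab L M s).at ((glue P C).opp (incE C d g'))) := by
  rcases g with (_ | ⟨X, i⟩ | ⟨a, i⟩) | ⟨a, b⟩ <;>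
    rcases g' with (_ | ⟨X', i'⟩ | ⟨a', i'⟩) | ⟨a', b'⟩ <;>
    try exact h.elim
  · have h' : X = X' := h
    subst h'
    rw [gsep_inc_f S X i d, gsep_inc_f S X i' d] at *
    exact gsep_child S hs hc X (opp_end (S.okC X) (gsep_end_o () i)) (opp_end (S.okC X) (gsep_end_o () i'))
      d ha
  · exact absurd h ha.1
  · have h' : a = a' := h
    exact absurd (show SameNode sh (incE C d (inr (a, b))) (incE C d (inr (a', b'))) from
      congrArg inl h') ha.1

/-- both sticks are of parent kind -/
private theorem gsep_pp (S : Setup P C L M sh) (hok : (glue P C).Ok) {s : ℝ} (hs : 0 < s)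
    (hv : P.Valid sh (qpos C L M s))
    (hc : ∀ X, (C X).Valid (fun _ => no) (hLab P C L M s X).at)
    (d : Bead (GV V Vc) (GV N Nc) Empty O) {g g' : Bead V N F O} (hg : IsEnd g)
    (hg' : IsEnd g') (he : IsEnd (incE C d g)) (he' : IsEnd (incE C d g'))
    (ha : (glue P C).Apart sh (incE C d g) (incE C d g')) :
    Sep ((gLab L M s).at (incE C d g)) ((gLab L M s).at ((glue P C).opp (incE C d g)))
      ((gLab L M s).at (incE C d g')) ((gLab L M s).at ((glue P C).opp (incE C d g'))) := by
  have o1 := glue_opp_inc S hg d d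
  have o2 := glue_opp_inc S hg' d d
  have oo1 := opp_opp hok he
  have oo2 := opp_opp hok he'
  by_cases hA : P.Apart sh g g'
  · have := hv.sep g g' hg hg' hA
    rw [o1, o2, gLab_incE S s hg d, gLab_incE S s hg' d, gLab_incE S s (opp_end S.okP hg) d,
      gLab_incE S s (opp_end S.okP hg') d]
    exact this
  · simp only [Pic.Apart, not_and_or, not_not] at hA
    rcases hA with hA | hA | hA | hA | ⟨v, i, hi, hj⟩
    · exact gsep_common S hs hc d hA ha
    · have ha2 := gsep_apart_right hok he' ha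
      have h3 := gsep_common S hs hc d hA (o2 ▸ ha2)
      rw [← o2, oo2] at h3
      exact h3.right
    · have ha2 := gsep_apart_left hok he ha
      have h3 := gsep_common S hs hc d hA (o1 ▸ ha2)
      rw [← o1, oo1] at h3
      exact h3.left
    · have ha2 := gsep_apart_left hok he (gsep_apart_right hok he' ha)
      have h3 := gsep_common S hs hc d hA (o1 ▸ o2 ▸ ha2)
      rw [← o1, oo1, ← o2, oo2] at h3
      exact h3.left.right
    · exfalso
      refine ha.2.2.2.2 ⟨inl v, i, ?_, ?_⟩
      · rw [glue_ed_l S v i d, hi]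
      · rcases hj with hj | hj
        · left; rw [glue_ed_l S v _ d, hj]
        · right; rw [glue_ed_l S v _ d, hj]

/-- the first stick is of parent kind, the second one is internal -/
private theorem gsep_pi (S : Setup P C L M sh) (hok : (glue P C).Ok) {s : ℝ} (hs : 0 < s)
    (hc : ∀ X, (C X).Valid (fun _ => no) (hLab P C L M s X).at)
    (h1 : ∀ X e, IsEnd e → (∀ i, e ≠ inl (.f X i)) → (∀ i, P.opp e ≠ inl (.f X i)) →
      ∃ l : H, (∀ a, 0 < dot l (shrink (L.f X) s ((M X).n a))) ∧
        dot l (qpos C L M s e) < 0 ∧ dot l (qpos C L M s (P.opp e)) < 0)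
    (d : Bead (GV V Vc) (GV N Nc) Empty O) {g : Bead V N F O} (hg : IsEnd g)
    (he : IsEnd (incE C d g)) (X : F) (a : Nc X) (b : Bool) (a' : Nc X) (b' : Bool)
    (ho : (C X).opp (inr (a, b)) = inr (a', b'))
    (ha : (glue P C).Apart sh (incE C d g) (outE P C X d (inr (a, b)))) :
    Sep ((gLab L M s).at (incE C d g)) ((gLab L M s).at ((glue P C).opp (incE C d g)))
      ((gLab L M s).at (outE P C X d (inr (a, b))))
      ((gLab L M s).at ((glue P C).opp (outE P C X d (inr (a, b))))) := by
  have o1 := glue_opp_inc S hg d d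
  have oo1 := opp_opp hok he
  by_cases hA : ∃ i, g = inl (.f X i)
  · obtain ⟨i, rfl⟩ := hA
    rw [gsep_inc_f S X i d] at *
    exact gsep_child S hs hc X (opp_end (S.okC X) (gsep_end_o () i)) (gsep_end_n a b) d ha
  by_cases hB : ∃ i, P.opp g = inl (.f X i)
  · obtain ⟨i, hi⟩ := hB
    have ha2 := gsep_apart_left hok he ha
    have o3 : (glue P C).opp (incE C d g) = outE P C X d ((C X).opp (inl (.o () i))) := by
      rw [o1, hi, gsep_inc_f S X i d]
    rw [o3] at ha2
    have h3 := gsep_child S hs hc X (opp_end (S.okC X) (gsep_end_o () i)) (gsep_end_n a b) d ha2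
    rw [← o3, oo1] at h3
    exact h3.left
  · push Not at hA hB
    obtain ⟨l, hl1, hl2, hl3⟩ := h1 X g hg hA hB
    rw [gsep_opp_out S X (gsep_end_n a b) d, ho, o1, gLab_incE S s hg d,
      gLab_incE S s (opp_end S.okP hg) d]
    exact Sep.symm ⟨l, hl1 a, hl1 a', hl2, hl3⟩

theorem glue_sep (S : Setup P C L M sh) (hok : (glue P C).Ok) {s : ℝ} (hs : 0 < s)
    (hv : P.Valid sh (qpos C L M s))
    (hc : ∀ X, (C X).Valid (fun _ => no) (hLab P C L M s X).at)
    (h1 : ∀ X e, IsEnd e → (∀ i, e ≠ inl (.f X i)) → (∀ i, P.opp e ≠ inl (.f X i)) →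
      ∃ l : H, (∀ a, 0 < dot l (shrink (L.f X) s ((M X).n a))) ∧
        dot l (qpos C L M s e) < 0 ∧ dot l (qpos C L M s (P.opp e)) < 0)
    (h2 : ∀ X Y, X ≠ Y → ∃ l : H, (∀ a, 0 < dot l (shrink (L.f X) s ((M X).n a))) ∧
      ∀ b, dot l (shrink (L.f Y) s ((M Y).n b)) < 0)
    (e e' : Bead (GV V Vc) (GV N Nc) Empty O) (he : IsEnd e) (he' : IsEnd e')
    (ha : (glue P C).Apart sh e e') :
    Sep ((gLab L M s).at e) ((gLab L M s).at ((glue P C).opp e))
      ((gLab L M s).at e') ((gLab L M s).at ((glue P C).opp e')) := by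
  obtain ⟨d, -⟩ : ∃ d : Bead (GV V Vc) (GV N Nc) Empty O, d = e := ⟨e, rfl⟩
  rcases gsep_kind S d e he with ⟨g, hg, rfl⟩ | ⟨X, a, b, a', b', rfl, ho⟩
  · rcases gsep_kind S d e' he' with ⟨g', hg', rfl⟩ | ⟨X', c, b', c', b2, rfl, ho'⟩
    · exact gsep_pp S hok hs hv hc d hg hg' he he' ha
    · exact gsep_pi S hok hs hc h1 d hg he X' c b' c' b2 ho' ha
  · rcases gsep_kind S d e' he' with ⟨g', hg', rfl⟩ | ⟨X', c, b2, c', b3, rfl, ho'⟩
    · exact (gsep_pi S hok hs hc h1 d hg' he' X a b a' b' ho (gsep_apart_symm ha)).symm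
    · by_cases hX : X = X'
      · subst hX
        exact gsep_child S hs hc X (gsep_end_n a b) (gsep_end_n c b2) d ha
      · obtain ⟨l, hl1, hl2⟩ := h2 X X' hX
        rw [gsep_opp_out S X (gsep_end_n a b) d, ho,
          gsep_opp_out S X' (gsep_end_n c b2) d, ho']
        exact ⟨l, hl1 a, hl1 a', hl2 c, hl2 c'⟩

end SN78
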