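import Pool.Agent.SN78.Open

/-!
# SN78 module PTSEP: a big vertex does not lie on the sticks which do not end there

Proof of `pt_sep`.  Let `σ` be the stick of the end `f X 0`, with the other end `g = opp (f X 0)` at
the position `G`; let `A, B` be the positions of `e, opp e`; `c = L.f X`.
* If `Apart (f X 0) e`: `vP.sep` gives the functional.
* If the two sticks cross (`ed v i = f X 0` and `ed v (i + 1)` or `ed v (i + 3)` is `e`): by `cr` for
  `i` or so, `dt c A B ≠ 0` (it is one of the four determinants up to sign, note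
  `ed v (i + 3) = opp (ed v (i + 1))`), hence there is a functional with the values `1, -1, -1` at the
  linearly independent vectors `c, A, B` (Cramer: combination of `crs A B`, `crs B c`, `crs c A`).
* If `σ` and the stick of `e` have a common node: it is not `X` by assumption.  So `g` and one of
  `e, opp e` are at the same node; say `SameNode g e` (the other case by symmetry, use `opp_opp`).
  - plain node: then `g = n a b`, `e = n a (!b)` (if `g = e` then `opp e = f X 0`, excluded), and
    `bend` says `dt A c B ≠ 0`.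
  - big vertex `Y`: `g = f Y k`, `e = f Y l`, `k ≠ l` (as before), `Y ≠ X`.  If `l = k ± 1` then `fat`
    gives `dt A c B ≠ 0`.  If `l = k + 2` let `W` be the position of `opp (f Y (k + 1))`:
    `dt A c W > 0` and `dt A W B > 0`; the functional `ψ = dt A · W` has `ψ A = 0`, `ψ c > 0`,
    `ψ B < 0`; subtract a small multiple of `dot A` (which has `dot A A > 0` as `A ≠ 0`).
  - outer points: `g = o a k`, `e = o a l`, with `k ≠ l` neighbours in `sh`; `shr` says
    `dt A c B ≠ 0` up to sign and using that the positions of `g` and `e` agree (`shL`).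
`pt_ne`: take `e = f Y j` with `opp (f Y j)` not at `X`: if all four `opp (f Y j)` were at `X` then
`fat Y 0` would be `dt _ c c = 0`.  Also `f Y j ≠ f X i`.  Then `pt_sep`.
-/

namespace SN78

open Sum

variable {V N F O : Type}

private theorem ps_cramer {c A B : H} (h : dt A c B ≠ 0) :
    ∃ l : H, 0 < dot l c ∧ dot l A < 0 ∧ dot l B < 0 := by
  have hD : dt c A B ≠ 0 := by
    intro h0
    apply h
    rw [dt_swap]
    linarith
  set D := dt c A B with hDd
  refine ⟨(1 / D) • (crs A B - crs B c - crs c A), ?_, ?_, ?_⟩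
  · rw [smul_dot, sub_dot, sub_dot, dot_crs, dot_crs, dot_crs, dt_self₂, dt_self₃, dt_cyc A B c,
      dt_cyc B c A, ← hDd]
    rw [sub_zero, sub_zero, one_div_mul_cancel hD]
    exact one_pos
  · rw [smul_dot, sub_dot, sub_dot, dot_crs, dot_crs, dot_crs, dt_self₃, dt_self₂, dt_cyc B c A,
      ← hDd]
    rw [zero_sub, sub_zero, mul_neg, one_div_mul_cancel hD]
    norm_num
  · rw [smul_dot, sub_dot, sub_dot, dot_crs, dot_crs, dot_crs, dt_self₂, dt_self₃, ← hDd]
    rw [sub_zero, zero_sub, mul_neg, one_div_mul_cancel hD]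
    norm_num

private theorem ps_straight {c A B W : H} (h1 : 0 < dt A c W) (h2 : 0 < dt A W B) :
    ∃ l : H, 0 < dot l c ∧ dot l A < 0 ∧ dot l B < 0 := by
  have hAA : 0 < dot A A := by
    by_contra hcon
    have h0 : A 0 * A 0 + A 1 * A 1 + A 2 * A 2 ≤ 0 := by
      simpa [dot] using not_lt.1 hcon
    have q0 : 0 ≤ A 0 * A 0 := mul_self_nonneg _
    have q1 : 0 ≤ A 1 * A 1 := mul_self_nonneg _
    have q2 : 0 ≤ A 2 * A 2 := mul_self_nonneg _
    have a0 : A 0 = 0 := mul_self_eq_zero.1 (by linarith)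
    have a1 : A 1 = 0 := mul_self_eq_zero.1 (by linarith)
    have a2 : A 2 = 0 := mul_self_eq_zero.1 (by linarith)
    simp [dt, a0, a1, a2] at h1
  have e1 : ∀ x : H, dot (crs W A) x = dt A x W := by
    intro x
    rw [dot_crs, dt_cyc]
  set m : ℝ := min (dt A c W) (dt A W B) with hm
  have hm0 : 0 < m := lt_min h1 h2
  set M : ℝ := |dot A c| + |dot A B| + 1 with hM
  have hM0 : 0 < M := by positivity
  have hε : 0 < m / M := div_pos hm0 hM0
  have b1 : m / M * |dot A c| < m := by
    rw [div_mul_eq_mul_div, div_lt_iff₀ hM0]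
    apply mul_lt_mul_of_pos_left _ hm0
    rw [hM]
    have := abs_nonneg (dot A B)
    linarith
  have b2 : m / M * |dot A B| < m := by
    rw [div_mul_eq_mul_div, div_lt_iff₀ hM0]
    apply mul_lt_mul_of_pos_left _ hm0
    rw [hM]
    have := abs_nonneg (dot A c)
    linarith
  refine ⟨crs W A - (m / M) • A, ?_, ?_, ?_⟩
  · rw [sub_dot, smul_dot, e1]
    have h3 : m / M * dot A c ≤ m / M * |dot A c| :=
      mul_le_mul_of_nonneg_left (le_abs_self _) hε.le
    have h4 : m ≤ dt A c W := min_le_left _ _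
    linarith
  · rw [sub_dot, smul_dot, e1, dt_self₁]
    have := mul_pos hε hAA
    linarith
  · rw [sub_dot, smul_dot, e1, dt_swap']
    have h3 : m / M * (-dot A B) ≤ m / M * |dot A B| :=
      mul_le_mul_of_nonneg_left (neg_le_abs _) hε.le
    have h4 : m ≤ dt A W B := min_le_right _ _
    linarith

private theorem ps_zmod : ∀ k l : ZMod 4, l = k ∨ l = k + 1 ∨ l = k + 2 ∨ l = k + 3 := by
  decide

private theorem ps_zmod4 : ∀ k : ZMod 4, k + 3 + 1 = k := by
  decide

private theorem ps_zmod2 : ∀ k : ZMod 4, k + 1 + 1 = k + 2 := by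
  decide

private theorem ps_zmod3 : ∀ k : ZMod 4, k + 1 + 2 = k + 3 := by
  decide

private theorem ps_zmod5 : ∀ k : ZMod 4, k + 3 + 2 = k + 1 := by
  decide

/-- the case that `e` and the other end of the stick of `f X 0` are at the same node -/
private theorem ps_same {P : Pic V N F O} (hP : P.Ok) {L : Lab N F O H} {sh : O → ZMod 4 → Prop}
    (vP : P.Valid sh L.at) (shL : ∀ a i, sh a i → L.o a (i + 1) = L.o a i)
    (X : F) {e : Bead V N F O} (h1 : ∀ i, e ≠ inl (.f X i))
    (h2 : ∀ i, P.opp e ≠ inl (.f X i)) (hs : SameNode sh (P.opp (inl (.f X 0))) e) :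
    ∃ l : H, 0 < dot l (L.f X) ∧ dot l (L.at e) < 0 ∧ dot l (L.at (P.opp e)) < 0 := by
  have hX : IsEnd (inl (.f X 0) : Bead V N F O) := trivial
  have hoo := opp_opp hP hX
  have hc : L.at (inl (.f X 0) : Bead V N F O) = L.f X := rfl
  generalize hg : P.opp (inl (.f X 0)) = g at hs hoo
  have hne : e ≠ g := by
    intro h
    apply h2 0
    rw [h, hoo]
  match g, e with
  | inl (.x _ _), _ => simp [SameNode] at hs
  | inl (.f Y k), inl (.x _ _) => simp [SameNode] at hs
  | inl (.f Y k), inl (.o _ _) => simp [SameNode] at hs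
  | inl (.f Y k), inr _ => simp [SameNode] at hs
  | inl (.o Y k), inl (.x _ _) => simp [SameNode] at hs
  | inl (.o Y k), inl (.f _ _) => simp [SameNode] at hs
  | inl (.o Y k), inr _ => simp [SameNode] at hs
  | inr _, inl (.x _ _) => simp [SameNode] at hs
  | inr _, inl (.f _ _) => simp [SameNode] at hs
  | inr _, inl (.o _ _) => simp [SameNode] at hs
  | inl (.f Y k), inl (.f Y' l) =>
    have hYY : Y = Y' := hs
    subst hYY
    have hA : L.at (inl (.f Y l) : Bead V N F O) = L.f Y := rfl
    rcases ps_zmod k l with h | h | h | h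
    · exact absurd (by rw [h]) hne
    · have := vP.fat Y k
      rw [hoo, ← h, hc] at this
      rw [hA]
      exact ps_cramer this.ne'
    · have f1 := vP.fat Y k
      have f2 := vP.fat Y (k + 1)
      rw [hoo, hc] at f1
      rw [ps_zmod2, ← h] at f2
      rw [hA]
      exact ps_straight f1 f2
    · have := vP.fat Y (k + 3)
      rw [ps_zmod4, hoo, ← h, hc] at this
      rw [hA]
      apply ps_cramer
      rw [dt_swap']
      exact neg_ne_zero.2 this.ne'
  | inl (.o a k), inl (.o b j) =>
    obtain ⟨hab, hkj⟩ : a = b ∧ (k = j ∨ (j = k + 1 ∧ sh a k) ∨ (k = j + 1 ∧ sh a j)) := hs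
    subst hab
    have hA : L.at (inl (.o a j) : Bead V N F O) = L.o a j := rfl
    rcases hkj with h | ⟨h, hsh⟩ | ⟨h, hsh⟩
    · exact absurd (by rw [h]) hne
    · have := vP.shr a k hsh
      rw [hoo, ← h, hc] at this
      have hp : L.at (inl (.o a k) : Bead V N F O) = L.at (inl (.o a j) : Bead V N F O) := by
        change L.o a k = L.o a j
        rw [h, shL a k hsh]
      rw [hp] at this
      apply ps_cramer
      rw [dt_swap']
      exact neg_ne_zero.2 this.ne'
    · have := vP.shr a j hsh
      rw [← h, hoo, hc] at this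
      exact ps_cramer this.ne'
  | inr (a, b), inr (a', b') =>
    have haa : a = a' := hs
    subst haa
    have hA : ∀ b : Bool, L.at (inr (a, b) : Bead V N F O) = L.n a := fun _ => rfl
    have hb := vP.bend a
    rw [hA] at hb
    rw [hA]
    cases b <;> cases b'
    · exact absurd rfl hne
    · rw [hoo, hc] at hb
      apply ps_cramer
      rw [dt_swap']
      exact neg_ne_zero.2 hb
    · rw [hoo, hc] at hb
      exact ps_cramer hb
    · exact absurd rfl hne

theorem pt_sep {P : Pic V N F O} (hP : P.Ok) {L : Lab N F O H} {sh : O → ZMod 4 → Prop}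
    (vP : P.Valid sh L.at) (shL : ∀ a i, sh a i → L.o a (i + 1) = L.o a i)
    (X : F) {e : Bead V N F O} (he : IsEnd e) (h1 : ∀ i, e ≠ inl (.f X i))
    (h2 : ∀ i, P.opp e ≠ inl (.f X i)) :
    ∃ l : H, 0 < dot l (L.f X) ∧ dot l (L.at e) < 0 ∧ dot l (L.at (P.opp e)) < 0 := by
  have hX : IsEnd (inl (.f X 0) : Bead V N F O) := trivial
  have hc : L.at (inl (.f X 0) : Bead V N F O) = L.f X := rfl
  have hns : ∀ e' : Bead V N F O, (∀ i, e' ≠ inl (.f X i)) → ¬ SameNode sh (inl (.f X 0)) e' := by
    intro e' he' hs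
    match e' with
    | inl (.x _ _) => simp [SameNode] at hs
    | inl (.o _ _) => simp [SameNode] at hs
    | inr _ => simp [SameNode] at hs
    | inl (.f Y l) =>
      have : X = Y := hs
      subst this
      exact he' l rfl
  by_cases hA : P.Apart sh (inl (.f X 0)) e
  · obtain ⟨l, l1, -, l3, l4⟩ := vP.sep _ _ hX he hA
    exact ⟨l, l1, l3, l4⟩
  · have hoe := opp_opp hP he
    by_cases hs1 : SameNode sh (P.opp (inl (.f X 0))) e
    · exact ps_same hP vP shL X h1 h2 hs1
    by_cases hs2 : SameNode sh (P.opp (inl (.f X 0))) (P.opp e)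
    · obtain ⟨l, l1, l2, l3⟩ := ps_same hP vP shL X h2 (by rw [hoe]; exact h1) hs2
      rw [hoe] at l3
      exact ⟨l, l1, l3, l2⟩
    have hcr : ∃ v i, P.ed v i = inl (.f X 0) ∧ (P.ed v (i + 1) = e ∨ P.ed v (i + 3) = e) := by
      by_contra hcon
      exact hA ⟨hns e h1, hns _ h2, hs1, hs2, hcon⟩
    obtain ⟨v, i, hv, h | h⟩ := hcr
    · have hk : 0 < dt (L.at (P.ed v (i + 3))) (L.at (P.ed v i)) (L.at (P.ed v (i + 1))) :=
        vP.cr v i
      have ho := hP.opp_ed v (i + 1)
      rw [ps_zmod3, h] at ho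
      rw [hv, h, ← ho, hc] at hk
      apply ps_cramer
      rw [dt_cyc, dt_swap', dt_cyc, dt_cyc] at hk
      intro h0
      linarith
    · have hk : 0 < dt (L.at (P.ed v (i + 3))) (L.at (P.ed v i)) (L.at (P.ed v (i + 1))) :=
        vP.cr v i
      have ho := hP.opp_ed v (i + 3)
      rw [ps_zmod5, h] at ho
      rw [hv, h, ← ho, hc] at hk
      exact ps_cramer hk.ne'

theorem pt_ne {P : Pic V N F O} (hP : P.Ok) {L : Lab N F O H} {sh : O → ZMod 4 → Prop}
    (vP : P.Valid sh L.at) (shL : ∀ a i, sh a i → L.o a (i + 1) = L.o a i)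
    {X Y : F} (h : X ≠ Y) : ∃ l : H, 0 < dot l (L.f X) ∧ dot l (L.f Y) < 0 := by
  have hj : ∃ j, ∀ i, P.opp (inl (.f Y j)) ≠ inl (.f X i) := by
    by_contra hcon
    push Not at hcon
    have := vP.fat Y 0
    obtain ⟨i0, h0⟩ := hcon 0
    obtain ⟨i1, h1⟩ := hcon (0 + 1)
    rw [h0, h1] at this
    have e0 : L.at (inl (.f X i0) : Bead V N F O) = L.f X := rfl
    have e1 : L.at (inl (.f X i1) : Bead V N F O) = L.f X := rfl
    rw [e0, e1, dt_self₂] at this
    exact lt_irrefl _ this
  obtain ⟨j, hj⟩ := hj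
  obtain ⟨l, l1, l2, -⟩ := pt_sep hP vP shL X (e := inl (.f Y j)) trivial
    (fun i hi => h (by injection hi with hi; injection hi with hi; exact hi.symm)) hj
  exact ⟨l, l1, l2⟩

end SN78
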