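import Pool.Agent.SN78.GOk
import Pool.Agent.SN78.GOrd
import Pool.Agent.SN78.GSep
import Pool.Agent.SN78.PtSep

/-!
# SN78 module GVAL: the composite is valid for small `s`

Combine: `Pic.Valid.eventually` for the parent (`tendsto_qpos`) and for the children (`tendsto_hLab`),
`glue_cr`, `glue_bend`, `glue_shr`, `glue_ord`, and `glue_sep`.  The hypotheses `h1`, `h2` of
`glue_sep` hold eventually: take the functional `l` of `pt_sep` / `pt_ne`;
`dot l (shrink (L.f X) s ((M X).n a)) → dot l (L.f X)` for each `a` (finitely many) as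
`(M X).n a 2 = 1` and `L.f X 2 = 1`.  There are finitely many ends `e` (`Bead` is finite).
The field `fat` is empty.
-/

namespace SN78

open Sum Filter Topology

variable {V N F O : Type} {Vc Nc : F → Type} {P : Pic V N F O}
  {C : ∀ X, Pic (Vc X) (Nc X) Empty Unit} {L : Lab N F O H}
  {M : ∀ X, Lab (Nc X) Empty Unit H} {sh : O → ZMod 4 → Prop}

private def gvEquiv : SD V F O ≃ (V × ZMod 4) ⊕ (F × ZMod 4) ⊕ (O × ZMod 4) where
  toFun
    | .x v i => .inl (v, i)
    | .f a i => .inr (.inl (a, i))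
    | .o a i => .inr (.inr (a, i))
  invFun
    | .inl (v, i) => .x v i
    | .inr (.inl (a, i)) => .f a i
    | .inr (.inr (a, i)) => .o a i
  left_inv := by rintro (⟨v, i⟩ | ⟨a, i⟩ | ⟨a, i⟩) <;> rfl
  right_inv := by rintro (⟨v, i⟩ | ⟨a, i⟩ | ⟨a, i⟩) <;> rfl

private theorem gv_tendsto_dot {ι : Type} {l : Filter ι} {a : ι → H} {a₀ : H} (w : H)
    (ha : Tendsto a l (𝓝 a₀)) : Tendsto (fun s => dot w (a s)) l (𝓝 (dot w a₀)) := by
  have ha' := tendsto_pi_nhds.1 ha
  unfold dot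
  exact (((ha' 0).const_mul (w 0)).add ((ha' 1).const_mul (w 1))).add ((ha' 2).const_mul (w 2))

private theorem gv_tendsto_shrink (c p w : H) (hc : c 2 = 1) (hp : p 2 = 1) :
    Tendsto (fun s : ℝ => dot w (shrink c s p)) (𝓝[>] (0 : ℝ)) (𝓝 (dot w c)) := by
  have h : (fun s : ℝ => dot w (shrink c s p)) =
      fun s => s * (w 0 * p 0 + w 1 * p 1) + dot w c := by
    funext s
    simp only [dot, shrink, hc, hp]
    simp
    ring
  rw [h]
  have h0 : Tendsto (fun s : ℝ => s) (𝓝[>] (0 : ℝ)) (𝓝 0) := tendsto_nhdsWithin_of_tendsto_nhds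
    tendsto_id
  have h1 := (h0.mul_const (w 0 * p 0 + w 1 * p 1)).add_const (dot w c)
  simpa using h1

theorem glue_valid [Finite V] [Finite N] [Finite F] [Finite O] [∀ X, Finite (Vc X)]
    [∀ X, Finite (Nc X)] (S : Setup P C L M sh) :
    ∀ᶠ s in 𝓝[>] (0 : ℝ), (glue P C).Valid sh (gLab L M s).at := by
  have : Finite (ZMod 4) := inferInstanceAs (Finite (Fin 4))
  have : Finite (SD V F O) := Finite.of_equiv _ (gvEquiv (V := V) (F := F) (O := O)).symm
  have : Finite (Bead V N F O) := inferInstance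
  have hpos : ∀ᶠ s in 𝓝[>] (0 : ℝ), 0 < s := eventually_mem_nhdsWithin
  have hv : ∀ᶠ s in 𝓝[>] (0 : ℝ), P.Valid sh (qpos C L M s) :=
    S.vP.eventually S.okP fun b hb => tendsto_qpos S hb
  have hc : ∀ᶠ s in 𝓝[>] (0 : ℝ), ∀ X, (C X).Valid (fun _ => no) (hLab P C L M s X).at :=
    eventually_all.2 fun X => (S.vC X).eventually (S.okC X) fun b _ => tendsto_hLab S X b
  have hsh : ∀ (X : F) (l : H), 0 < dot l (L.f X) →
      ∀ᶠ s in 𝓝[>] (0 : ℝ), ∀ a, 0 < dot l (shrink (L.f X) s ((M X).n a)) := fun X l hl =>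
    eventually_all.2 fun a =>
      (gv_tendsto_shrink _ _ l (S.nL.f X) ((S.nM X).n a)).eventually (lt_mem_nhds hl)
  have hsh' : ∀ (X : F) (l : H), dot l (L.f X) < 0 →
      ∀ᶠ s in 𝓝[>] (0 : ℝ), ∀ a, dot l (shrink (L.f X) s ((M X).n a)) < 0 := fun X l hl =>
    eventually_all.2 fun a =>
      (gv_tendsto_shrink _ _ l (S.nL.f X) ((S.nM X).n a)).eventually (gt_mem_nhds hl)
  have h1 : ∀ᶠ s in 𝓝[>] (0 : ℝ), ∀ X (e : Bead V N F O), IsEnd e → (∀ i, e ≠ inl (.f X i)) →
      (∀ i, P.opp e ≠ inl (.f X i)) →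
      ∃ l : H, (∀ a, 0 < dot l (shrink (L.f X) s ((M X).n a))) ∧
        dot l (qpos C L M s e) < 0 ∧ dot l (qpos C L M s (P.opp e)) < 0 := by
    refine eventually_all.2 fun X => eventually_all.2 fun e =>
      eventually_imp_distrib_left.2 fun he => eventually_imp_distrib_left.2 fun g1 =>
      eventually_imp_distrib_left.2 fun g2 => ?_
    obtain ⟨l, l1, l2, l3⟩ := pt_sep S.okP S.vP S.shL X he g1 g2
    filter_upwards [hsh X l l1,
      (gv_tendsto_dot l (tendsto_qpos S he)).eventually (gt_mem_nhds l2),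
      (gv_tendsto_dot l (tendsto_qpos S (opp_end S.okP he))).eventually (gt_mem_nhds l3)]
      with s f1 f2 f3
    exact ⟨l, f1, f2, f3⟩
  have h2 : ∀ᶠ s in 𝓝[>] (0 : ℝ), ∀ X Y, X ≠ Y →
      ∃ l : H, (∀ a, 0 < dot l (shrink (L.f X) s ((M X).n a))) ∧
        ∀ b, dot l (shrink (L.f Y) s ((M Y).n b)) < 0 := by
    refine eventually_all.2 fun X => eventually_all.2 fun Y =>
      eventually_imp_distrib_left.2 fun hXY => ?_
    obtain ⟨l, l1, l2⟩ := pt_ne S.okP S.vP S.shL hXY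
    filter_upwards [hsh X l l1, hsh' Y l l2] with s f1 f2
    exact ⟨l, f1, f2⟩
  filter_upwards [hpos, hv, hc, h1, h2, glue_ord S] with s hs hv hc h1 h2 ho
  exact {
    cr := glue_cr S hs hv hc
    ord := ho
    bend := glue_bend S hs hv hc
    fat := fun a => a.elim
    shr := fun a i hi => glue_shr S hs hv a i hi
    sep := fun e e' he he' ha => glue_sep S (glue_ok S) hs hv hc h1 h2 e e' he he' ha }

end SN78
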