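import Pool.Agent.SN78.Tang

/-!
# SN78: gluing tangles into the big vertices of a picture

`P` is a picture with big vertices `F`; for each `X : F` a tangle picture `C X` is glued into `X`.
Port `i` of the tangle is joined with the dart `i` of `X`.  This file has only the data of the
composite picture `glue P C`, the composite shadow `glueA`, and positions.
-/

namespace SN78

open Sum

section
variable {V N F O : Type} {Vc Nc : F → Type}

/-- the crossings of the composite -/
abbrev GV (V : Type) {F : Type} (Vc : F → Type) : Type := V ⊕ (Σ X : F, Vc X)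

/-- a bead of the child `X` in the composite (outer beads give the default `d`) -/
def dnb (X : F) (d : Bead (GV V Vc) (GV N Nc) Empty O) :
    Bead (Vc X) (Nc X) Empty Unit → Bead (GV V Vc) (GV N Nc) Empty O
  | inl (.x v i) => inl (.x (inr ⟨X, v⟩) i)
  | inl (.f e _) => e.elim
  | inl (.o _ _) => d
  | inr (a, b) => inr (inr ⟨X, a⟩, b)

/-- a bead of the parent in the composite; a dart of a big vertex is replaced by the first bead
inside the child -/
def inc (C : ∀ X, Pic (Vc X) (Nc X) Empty Unit) (d : Bead (GV V Vc) (GV N Nc) Empty O) :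
    Bead V N F O → Bead (GV V Vc) (GV N Nc) Empty O
  | inl (.x v i) => inl (.x (inl v) i)
  | inl (.f X i) => dnb X d ((C X).adj (inl (.o () i)))
  | inl (.o a i) => inl (.o a i)
  | inr (a, b) => inr (inl a, b)

/-- the same for ends of sticks: a dart of a big vertex is replaced by the end of the port stick
inside the child -/
def incE (C : ∀ X, Pic (Vc X) (Nc X) Empty Unit) (d : Bead (GV V Vc) (GV N Nc) Empty O) :
    Bead V N F O → Bead (GV V Vc) (GV N Nc) Empty O
  | inl (.x _ _) => d
  | inl (.f X i) => dnb X d ((C X).opp (inl (.o () i)))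
  | inl (.o a i) => inl (.o a i)
  | inr (a, b) => inr (inl a, b)

/-- a bead of the child `X`; an outer bead is replaced by the next bead outside -/
def out (P : Pic V N F O) (C : ∀ X, Pic (Vc X) (Nc X) Empty Unit) (X : F)
    (d : Bead (GV V Vc) (GV N Nc) Empty O) :
    Bead (Vc X) (Nc X) Empty Unit → Bead (GV V Vc) (GV N Nc) Empty O
  | inl (.o _ i) => inc C d (P.adj (inl (.f X i)))
  | b => dnb X d b

/-- the same for ends of sticks -/
def outE (P : Pic V N F O) (C : ∀ X, Pic (Vc X) (Nc X) Empty Unit) (X : F)
    (d : Bead (GV V Vc) (GV N Nc) Empty O) :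
    Bead (Vc X) (Nc X) Empty Unit → Bead (GV V Vc) (GV N Nc) Empty O
  | inl (.o _ i) => incE C d (P.opp (inl (.f X i)))
  | b => dnb X d b

/-- the composite picture -/
def glue (P : Pic V N F O) (C : ∀ X, Pic (Vc X) (Nc X) Empty Unit) :
    Pic (GV V Vc) (GV N Nc) Empty O where
  adj
    | inl (.x (inl v) i) => inc C (inl (.x (inl v) i)) (P.adj (inl (.x v i)))
    | inl (.x (inr ⟨X, v⟩) i) => out P C X (inl (.x (inr ⟨X, v⟩) i)) ((C X).adj (inl (.x v i)))
    | inl (.f e _) => e.elim
    | inl (.o a i) => inc C (inl (.o a i)) (P.adj (inl (.o a i)))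
    | inr (inl a, b) => inc C (inr (inl a, b)) (P.adj (inr (a, b)))
    | inr (inr ⟨X, a⟩, b) => out P C X (inr (inr ⟨X, a⟩, b)) ((C X).adj (inr (a, b)))
  ed
    | inl v, i => incE C (inl (.x (inl v) i)) (P.ed v i)
    | inr ⟨X, v⟩, i => outE P C X (inl (.x (inr ⟨X, v⟩) i)) ((C X).ed v i)

/-- a dart of the child `X` in the composite -/
def dnA (X : F) (d : SD (GV V Vc) Empty O) : SD (Vc X) Empty Unit → SD (GV V Vc) Empty O
  | .x v i => .x (inr ⟨X, v⟩) i
  | .f e _ => e.elim
  | .o _ _ => d

/-- a dart of the parent in the composite -/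
def incA (α : ∀ X, Tg (Vc X)) (d : SD (GV V Vc) Empty O) : SD V F O → SD (GV V Vc) Empty O
  | .x v i => .x (inl v) i
  | .f X i => dnA X d (α X (.o () i))
  | .o a i => .o a i

/-- a dart of the child `X`; an outer dart is replaced by the next dart outside -/
def outA (αp : SD V F O → SD V F O) (α : ∀ X, Tg (Vc X)) (X : F) (d : SD (GV V Vc) Empty O) :
    SD (Vc X) Empty Unit → SD (GV V Vc) Empty O
  | .o _ i => incA α d (αp (.f X i))
  | b => dnA X d b

/-- the composite shadow -/
def glueA (αp : SD V F O → SD V F O) (α : ∀ X, Tg (Vc X)) :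
    SD (GV V Vc) Empty O → SD (GV V Vc) Empty O
  | .x (inl v) i => incA α (.x (inl v) i) (αp (.x v i))
  | .x (inr ⟨X, v⟩) i => outA αp α X (.x (inr ⟨X, v⟩) i) (α X (.x v i))
  | .f e _ => e.elim
  | .o a i => incA α (.o a i) (αp (.o a i))

/-- the position of a point of a tangle which is shrunk by `s` and moved to `c` -/
def shrink (c : H) (s : ℝ) (p : H) : H :=
  ![s * p 0 + p 2 * c 0, s * p 1 + p 2 * c 1, p 2]

/-- the positions of the composite -/
def gLab (L : Lab N F O H) (M : ∀ X, Lab (Nc X) Empty Unit H) (s : ℝ) :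
    Lab (GV N Nc) Empty O H where
  n
    | inl a => L.n a
    | inr ⟨X, a⟩ => shrink (L.f X) s ((M X).n a)
  f := fun e => e.elim
  o := L.o

/-- the position in the composite of a stick end of the parent; a dart of a big vertex `X` stands
for the end of the port stick inside the child -/
def qpos (C : ∀ X, Pic (Vc X) (Nc X) Empty Unit) (L : Lab N F O H)
    (M : ∀ X, Lab (Nc X) Empty Unit H) (s : ℝ) : Bead V N F O → H
  | inl (.x _ _) => 0
  | inl (.f X i) =>
      match (C X).opp (inl (.o () i)) with
      | inr (a, _) => shrink (L.f X) s ((M X).n a)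
      | _ => 0
  | inl (.o a i) => L.o a i
  | inr (a, _) => L.n a

/-- rescaling around `c` by the factor `1 / s`, up to the positive factor `s` -/
def zoom (c : H) (s : ℝ) (Q : H) : H := ![Q 0 - Q 2 * c 0, Q 1 - Q 2 * c 1, s * Q 2]

/-- the positions of the child `X` of the composite after rescaling: the outer points are the
rescaled positions of the other ends of the four sticks -/
def hLab (P : Pic V N F O) (C : ∀ X, Pic (Vc X) (Nc X) Empty Unit) (L : Lab N F O H)
    (M : ∀ X, Lab (Nc X) Empty Unit H) (s : ℝ) (X : F) : Lab (Nc X) Empty Unit H where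
  n := (M X).n
  f := fun e => e.elim
  o := fun _ i => zoom (L.f X) s (qpos C L M s (P.opp (inl (.f X i))))

end

end SN78
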