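import Pool.Agent.SN78.Setup

/-!
# SN78 module SEQ: replacing the equations at the big vertices one by one

Proof of `choose_rows`: induction over the finite set of big vertices; the statement for a finset `A`
is: there is `r` with `r X ∈ R X` for `X ∈ A`, `r` orthogonal and the system rigid.  Step: let `r` be
given for `A` and `X ∉ A`.  Let `K` be the space of all `z : Lab N F O ℝ` with `P.Sol L z`,
the equations `r Y` for all `Y ≠ X`, and `z.o = t * u` for some `t`.
* If all `z ∈ K` are affine then any element of `R X` (nonempty by `hR'` applied to a function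
  `m : ZMod 4 → ℝ` which is not linear in `P.dir L X`; such an `m` exists because the linear ones form
  a space of dimension at most 3) can be taken.
* Otherwise let `z₀ ∈ K` be not affine.  Then `c := ∑ i, r X i * slo z₀ X i ≠ 0` by rigidity, so
  `slo z₀ X` is not of the form `dot l (dir X i)` (as `∑ r X i • dir X i = 0`).  Choose `r' ∈ R X` with
  `c' := ∑ r' i * slo z₀ X i ≠ 0`.  If `z ∈ K` satisfies the equation `r'` at `X`, put
  `d = ∑ r X i * slo z X i`; then `z - (d / c) z₀ ∈ K` satisfies the equation `r X`, hence it is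
  affine, hence its slopes at `X` are `dot l (dir X i)` and `r'` kills them (orthogonality); so
  `0 = (d / c) c'`, `d = 0`, and `z` is affine by rigidity of `r`.
(Slopes of an affine `z = dot l`: `slo z X i = dot l (dir X i)`; linearity of `slo` and `row` in `z`;
define addition of labels by hand or work with functions.)
-/

namespace SN78

open Sum

variable {V N F O : Type}

/-- an affine label is affine at all beads -/
private theorem seq_at_aff {L : Lab N F O H} {z : Lab N F O ℝ} {l : H}
    (hn : ∀ a, z.n a = dot l (L.n a)) (hf : ∀ a, z.f a = dot l (L.f a))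
    (ho : ∀ a i, z.o a i = dot l (L.o a i)) (b : Bead V N F O) :
    z.at b = dot l (L.at b) := by
  rcases b with (⟨v, i⟩ | ⟨a, i⟩ | ⟨a, i⟩) | ⟨a, c⟩
  · simp [Lab.at]
  · simp [Lab.at, hf]
  · simp [Lab.at, ho]
  · simp [Lab.at, hn]

/-- the slopes of an affine function -/
theorem slo_aff {P : Pic V N F O} (hP : P.Ok) {L : Lab N F O H} {z : Lab N F O ℝ} {l : H}
    (hn : ∀ a, z.n a = dot l (L.n a)) (hf : ∀ a, z.f a = dot l (L.f a))
    (ho : ∀ a i, z.o a i = dot l (L.o a i)) (X : F) (i : ZMod 4) :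
    P.slo L z X i = dot l (P.dir L X i) := by
  have h := seq_at_aff (V := V) hn hf ho (P.opp (inl (.f X i)))
  simp only [Pic.slo, Pic.dir, h, hf X, dot_sub, dot_smul]

/-- the label `z - k * w` -/
private def seqSub (z w : Lab N F O ℝ) (k : ℝ) : Lab N F O ℝ :=
  ⟨fun a => z.n a - k * w.n a, fun a => z.f a - k * w.f a, fun a i => z.o a i - k * w.o a i⟩

private theorem seqSub_at (z w : Lab N F O ℝ) (k : ℝ) (b : Bead V N F O) :
    (seqSub z w k).at b = z.at b - k * w.at b := by
  rcases b with (⟨v, i⟩ | ⟨a, i⟩ | ⟨a, i⟩) | ⟨a, c⟩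
  · simp [Lab.at]
  · simp [Lab.at, seqSub]
  · simp [Lab.at, seqSub]
  · simp [Lab.at, seqSub]

private theorem seqSub_slo (P : Pic V N F O) (L : Lab N F O H) (z w : Lab N F O ℝ) (k : ℝ)
    (X : F) (i : ZMod 4) :
    P.slo L (seqSub z w k) X i = P.slo L z X i - k * P.slo L w X i := by
  simp only [Pic.slo, seqSub_at]
  simp only [seqSub]
  ring

private theorem seqSub_row (P : Pic V N F O) (L : Lab N F O H) (z w : Lab N F O ℝ) (k : ℝ)
    (v : V) :
    P.row L.at (seqSub z w k).at v = P.row L.at z.at v - k * P.row L.at w.at v := by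
  simp only [Pic.row, seqSub_at]
  rw [rw4_sub, rw4_mul]

private theorem seq_sum_dot (r : ZMod 4 → ℝ) (D : ZMod 4 → H) (h : ∑ i, r i • D i = 0) (l : H) :
    ∑ i, r i * dot l (D i) = 0 := by
  have h0 := congrFun h 0
  have h1 := congrFun h 1
  have h2 := congrFun h 2
  simp only [Finset.sum_apply, Pi.smul_apply, smul_eq_mul, Pi.zero_apply] at h0 h1 h2
  have e : ∀ i, r i * dot l (D i) = l 0 * (r i * D i 0) + l 1 * (r i * D i 1)
      + l 2 * (r i * D i 2) := by
    intro i
    simp only [dot]
    ring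
  simp only [e, Finset.sum_add_distrib, ← Finset.mul_sum, h0, h1, h2]
  ring

/-- there is a function which is not linear -/
private theorem seq_exists_nonlin (D : ZMod 4 → H) :
    ∃ m : ZMod 4 → ℝ, ¬ ∃ l : H, ∀ i, m i = dot l (D i) := by
  by_contra hcon
  push Not at hcon
  let f : H →ₗ[ℝ] (ZMod 4 → ℝ) :=
    { toFun := fun l i => dot l (D i)
      map_add' := fun l m => by
        funext i
        exact add_dot l m (D i)
      map_smul' := fun k l => by
        funext i
        exact smul_dot l (D i) k }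
  have hs : Function.Surjective f := by
    intro m
    obtain ⟨l, hl⟩ := hcon m
    exact ⟨l, funext fun i => (hl i).symm⟩
  have h := LinearMap.finrank_range_le f
  rw [LinearMap.range_eq_top.2 hs, finrank_top, Module.finrank_fintype_fun_eq_card,
    Module.finrank_fintype_fun_eq_card] at h
  simp only [ZMod.card, Fintype.card_fin] at h
  omega

/-- the step of the induction -/
private theorem seq_step {P : Pic V N F O} (hP : P.Ok) {L : Lab N F O H}
    {u : O → ZMod 4 → ℝ} {r : F → ZMod 4 → ℝ} (hO : P.Orth L r) (hR : P.Rig L r u)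
    (R : F → Set (ZMod 4 → ℝ))
    (hR' : ∀ X, ∀ m : ZMod 4 → ℝ, (¬ ∃ l : H, ∀ i, m i = dot l (P.dir L X i)) →
      ∃ r' ∈ R X, (∑ i, r' i • P.dir L X i = 0) ∧ ∑ i, r' i * m i ≠ 0) (X : F) :
    ∃ r' : F → ZMod 4 → ℝ, r' X ∈ R X ∧ (∀ Y, Y ≠ X → r' Y = r Y) ∧ P.Orth L r' ∧
      P.Rig L r' u := by
  classical
  -- the new rows are orthogonal
  have horth : ∀ s : ZMod 4 → ℝ, (∑ i, s i • P.dir L X i = 0) →
      P.Orth L (Function.update r X s) := by
    intro s hs Y
    by_cases hY : Y = X
    · subst hY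
      simpa using hs
    · simpa [Function.update_of_ne hY] using hO Y
  by_cases hK : ∀ z : Lab N F O ℝ, P.Sol L z → (∀ Y, Y ≠ X → ∑ i, r Y i * P.slo L z Y i = 0) →
      (∃ t : ℝ, ∀ a i, z.o a i = t * u a i) → Aff L z
  · obtain ⟨m, hm⟩ := seq_exists_nonlin (P.dir L X)
    obtain ⟨s, hs, hs1, -⟩ := hR' X m hm
    refine ⟨Function.update r X s, by simpa using hs, fun Y hY => by
      simp [Function.update_of_ne hY], horth s hs1, ?_⟩
    intro z hz hz1 hz2
    refine hK z hz (fun Y hY => ?_) hz2
    have := hz1 Y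
    simpa [Function.update_of_ne hY] using this
  · push Not at hK
    obtain ⟨w, hw, hw1, ⟨tw, hw2⟩, hw3⟩ := hK
    have hc : ∑ i, r X i * P.slo L w X i ≠ 0 := by
      intro hc
      refine hw3 (hR w hw (fun Y => ?_) ⟨tw, hw2⟩)
      by_cases hY : Y = X
      · rw [hY]; exact hc
      · exact hw1 Y hY
    have hnl : ¬ ∃ l : H, ∀ i, P.slo L w X i = dot l (P.dir L X i) := by
      rintro ⟨l, hl⟩
      apply hc
      simp only [hl]
      exact seq_sum_dot _ _ (hO X) l
    obtain ⟨s, hs, hs1, hs2⟩ := hR' X _ hnl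
    refine ⟨Function.update r X s, by simpa using hs, fun Y hY => by
      simp [Function.update_of_ne hY], horth s hs1, ?_⟩
    intro z hz hz1 hz2
    have hzX : ∑ i, s i * P.slo L z X i = 0 := by simpa using hz1 X
    have hzY : ∀ Y, Y ≠ X → ∑ i, r Y i * P.slo L z Y i = 0 := by
      intro Y hY
      simpa [Function.update_of_ne hY] using hz1 Y
    obtain ⟨tz, hz3⟩ := hz2
    set c := ∑ i, r X i * P.slo L w X i with hcdef
    set d := ∑ i, r X i * P.slo L z X i with hddef
    have hsub : ∀ (q : ZMod 4 → ℝ) (Y : F), ∑ i, q i * P.slo L (seqSub z w (d / c)) Y i =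
        (∑ i, q i * P.slo L z Y i) - (d / c) * ∑ i, q i * P.slo L w Y i := by
      intro q Y
      rw [Finset.mul_sum, ← Finset.sum_sub_distrib]
      refine Finset.sum_congr rfl fun i _ => ?_
      rw [seqSub_slo]
      ring
    have haff : Aff L (seqSub z w (d / c)) := by
      refine hR _ (fun v => ?_) (fun Y => ?_) ⟨tz - (d / c) * tw, fun a i => ?_⟩
      · rw [seqSub_row, hz v, hw v]
        ring
      · rw [hsub]
        by_cases hY : Y = X
        · rw [hY, ← hcdef, ← hddef]
          field_simp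
          ring
        · rw [hzY Y hY, hw1 Y hY]
          ring
      · simp only [seqSub, hz3, hw2]
        ring
    obtain ⟨l, h1, h2, h3⟩ := haff
    have h4 : ∑ i, s i * P.slo L (seqSub z w (d / c)) X i = 0 := by
      have e : ∀ i, P.slo L (seqSub z w (d / c)) X i = dot l (P.dir L X i) :=
        fun i => slo_aff hP h1 h2 h3 X i
      simp only [e]
      exact seq_sum_dot _ _ hs1 l
    rw [hsub, hzX, zero_sub, neg_eq_zero, mul_eq_zero] at h4
    have hd : d = 0 := by
      rcases h4 with h4 | h4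
      · rcases div_eq_zero_iff.1 h4 with h5 | h5
        · exact h5
        · exact absurd h5 hc
      · exact absurd h4 hs2
    refine hR z hz (fun Y => ?_) ⟨tz, hz3⟩
    by_cases hY : Y = X
    · rw [hY, ← hddef]; exact hd
    · exact hzY Y hY

theorem choose_rows [Finite F] {P : Pic V N F O} (hP : P.Ok) {L : Lab N F O H}
    {u : O → ZMod 4 → ℝ} {r : F → ZMod 4 → ℝ} (hO : P.Orth L r) (hR : P.Rig L r u)
    (R : F → Set (ZMod 4 → ℝ))
    (hR' : ∀ X, ∀ m : ZMod 4 → ℝ, (¬ ∃ l : H, ∀ i, m i = dot l (P.dir L X i)) →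
      ∃ r' ∈ R X, (∑ i, r' i • P.dir L X i = 0) ∧ ∑ i, r' i * m i ≠ 0) :
    ∃ r' : F → ZMod 4 → ℝ, (∀ X, r' X ∈ R X) ∧ P.Orth L r' ∧ P.Rig L r' u := by
  classical
  cases nonempty_fintype F
  have key : ∀ A : Finset F, ∃ r' : F → ZMod 4 → ℝ, (∀ X ∈ A, r' X ∈ R X) ∧ P.Orth L r' ∧
      P.Rig L r' u := by
    intro A
    induction A using Finset.induction_on with
    | empty => exact ⟨r, fun X hX => by simp at hX, hO, hR⟩
    | insert X A hX ih =>
      obtain ⟨q, hq, hq1, hq2⟩ := ih
      obtain ⟨q', h1, h2, h3, h4⟩ := seq_step hP hq1 hq2 R hR' X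
      refine ⟨q', fun Y hY => ?_, h3, h4⟩
      rcases Finset.mem_insert.1 hY with hY | hY
      · rw [hY]; exact h1
      · rw [h2 Y (fun h => hX (h ▸ hY))]
        exact hq Y hY
  obtain ⟨r', h1, h2, h3⟩ := key Finset.univ
  exact ⟨r', fun X => h1 X (Finset.mem_univ X), h2, h3⟩

end SN78
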