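import Pool.Agent.SN78.GVal
import Pool.Agent.SN78.GRig
import Pool.Agent.SN78.GReal
import Pool.Agent.SN78.Row
import Pool.Agent.SN78.Seq

/-!
# SN78 module INSERT: the insertion theorem

`dir_pos`: `dt c Q Q' = d2 (Q - Q 2 • c) (Q' - Q' 2 • c)` for `c 2 = 1`, and `S.vP.fat`.

Proof of `insertion`.  Let `R X` be the set of all `r` such that there are `N' , fintype, C, M` with
all the properties of a drawing of `α X` with the directions `P.dir L X` (as in `Dr`, without `Rig`) and
`HasRow C M r`.  By `hD X` (applied to the flex `m`), `exists_row` (its hypothesis on `M.o = P.dir L X`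
follows from `dir_pos`) the hypothesis of `choose_rows` holds.  Choose rows `r'` and the pictures; form
`Setup`; take a common small `s > 0` from `glue_valid`, `glue_rig` (eventually in `𝓝[>] 0`, which is
not the bottom filter).  The nodes of a child are nonempty as `card Nc = card Vc > 0`.
`Norm` of `gLab`: `shrink c s p` has third coordinate `p 2 = 1`.
-/

namespace SN78

open Sum Filter Topology

theorem dir_pos {V N F O : Type} {P : Pic V N F O} {L : Lab N F O H}
    {sh : O → ZMod 4 → Prop} (nL : Norm L) (vP : P.Valid sh L.at) (X : F) :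
    Pos (P.dir L X) := by
  refine ⟨fun i => ?_, fun i => ?_⟩
  · simp only [Pic.dir, Pi.sub_apply, Pi.smul_apply, smul_eq_mul, nL.f X, mul_one, sub_self]
  · have h := vP.fat X i
    have e : dt (L.at (inl (.f X i) : Bead V N F O)) (L.at (P.opp (inl (.f X i))))
        (L.at (P.opp (inl (.f X (i + 1))))) = d2 (P.dir L X i) (P.dir L X (i + 1)) := by
      have hc : L.f X 2 = 1 := nL.f X
      have ha : L.at (inl (.f X i) : Bead V N F O) = L.f X := rfl
      rw [ha]
      simp only [dt, d2, Pic.dir, Pi.sub_apply, Pi.smul_apply, smul_eq_mul, hc]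
      ring
    rw [← e]
    exact h

/-- `r` is the row of a drawing of `α` with the directions `D` -/
private def InsRow {W : Type} [Fintype W] (α : Tg W) (D : ZMod 4 → H) (r : ZMod 4 → ℝ) : Prop :=
  ∃ (N : Type) (_ : Fintype N) (C : Pic W N Empty Unit) (M : Lab N Empty Unit H),
    Fintype.card N = Fintype.card W ∧ C.Ok ∧ C.Real α ∧
    (∀ i, ∃ a b, C.opp (.inl (.o () i)) = .inr (a, b)) ∧
    Norm M ∧ (∀ i, M.o () i = D i) ∧ C.Valid (fun _ => no) M.at ∧ HasRow C M r

private theorem ins_exists {W : Type} [Fintype W] {α : Tg W} {D : ZMod 4 → H} (hp : Pos D)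
    (hD : Dr α no D) (m : ZMod 4 → ℝ) (hm : ¬ ∃ l : H, ∀ i, m i = dot l (D i)) :
    ∃ r, InsRow α D r ∧ (∑ i, r i • D i = 0) ∧ ∑ i, r i * m i ≠ 0 := by
  obtain ⟨N, fN, C, M, h1, h2, h3, h4, h5, h6, h7, h8⟩ := hD m (fun i hi => hi.elim) hm
  have hker : ∀ l : H, (∀ i, dot l (M.o () i) = 0) → l 0 = 0 ∧ l 1 = 0 := by
    intro l hl
    have a0 := hl 0
    have a1 := hl 1
    rw [h6] at a0 a1
    have hpos := hp.2 0
    rw [show (0 : ZMod 4) + 1 = 1 from rfl] at hpos
    have f0 := hp.1 0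
    have f1 := hp.1 1
    simp only [dot, f0, f1, mul_zero, add_zero] at a0 a1
    simp only [d2] at hpos
    have g0 : l 0 * (D 0 0 * D 1 1 - D 0 1 * D 1 0) = 0 := by
      linear_combination D 1 1 * a0 - D 0 1 * a1
    have g1 : l 1 * (D 0 0 * D 1 1 - D 0 1 * D 1 0) = 0 := by
      linear_combination D 0 0 * a1 - D 1 0 * a0
    exact ⟨(mul_eq_zero.mp g0).resolve_right hpos.ne', (mul_eq_zero.mp g1).resolve_right hpos.ne'⟩
  have hu : ¬ ∃ l : H, ∀ i, m i = dot l (M.o () i) := by
    rintro ⟨l, hl⟩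
    exact hm ⟨l, fun i => by rw [hl i, h6]⟩
  obtain ⟨r, r1, r2, r3⟩ := exists_row h1 C M h5 hker m hu h8
  refine ⟨r, ⟨N, fN, C, M, h1, h2, h3, h4, h5, h6, h7, r1⟩, ?_, r3⟩
  simpa only [h6] using r2

theorem insertion {V N F O : Type} [Fintype V] [Fintype N] [Fintype F] [Fintype O]
    {P : Pic V N F O} (okP : P.Ok) {αp : SD V F O → SD V F O} (hα : P.Real αp)
    {sh : O → ZMod 4 → Prop} {L : Lab N F O H} (nL : Norm L)
    (shL : ∀ a i, sh a i → L.o a (i + 1) = L.o a i) (vP : P.Valid sh L.at)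
    (outP : ∀ a i b j, P.opp (inl (.o a i)) ≠ inl (.o b j))
    {u : O → ZMod 4 → ℝ} {r : F → ZMod 4 → ℝ} (hO : P.Orth L r) (hR : P.Rig L r u)
    {Vc : F → Type} [∀ X, Fintype (Vc X)] [∀ X, Nonempty (Vc X)] {α : ∀ X, Tg (Vc X)}
    (hpr : ∀ X, Proper (α X)) (hD : ∀ X, Dr (α X) no (P.dir L X)) :
    ∃ (N' : Type) (_ : Fintype N') (P' : Pic (GV V Vc) N' Empty O) (L' : Lab N' Empty O H),
      Fintype.card N' = Fintype.card N + Fintype.card (Σ X : F, Vc X) ∧ P'.Ok ∧
      P'.Real (glueA αp α) ∧ (∀ a i, ∃ b c, P'.opp (inl (.o a i)) = inr (b, c)) ∧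
      Norm L' ∧ (∀ a i, L'.o a i = L.o a i) ∧ P'.Valid sh L'.at ∧
      P'.Rig L' (fun e => e.elim) u := by
  classical
  obtain ⟨r', hr', hO', hR'⟩ := choose_rows okP hO hR
    (fun X => {r | InsRow (α X) (P.dir L X) r})
    (fun X m hm => ins_exists (dir_pos nL vP X) (hD X) m hm)
  choose Nc fNc C M hcard hok hreal hfin hnorm hdir hval hrow using hr'
  have S : Setup P C L M sh :=
    { okP := okP
      okC := hok
      fin := hfin
      outP := outP
      nL := nL
      nM := hnorm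
      vP := vP
      vC := hval
      dir := hdir
      shL := shL }
  have hne : ∀ X, Nonempty (Nc X) := by
    intro X
    rw [← Fintype.card_pos_iff, hcard X]
    exact Fintype.card_pos
  obtain ⟨s, hs1, hs2⟩ := ((glue_valid S).and (glue_rig S hrow hR')).exists
  refine ⟨GV N Nc, inferInstanceAs (Fintype (N ⊕ (Σ X : F, Nc X))), glue P C, gLab L M s, ?_,
    glue_ok S, glue_real S hα hreal hpr, fun a i => glue_fin S a i, ⟨?_, fun e => e.elim, nL.o⟩,
    fun _ _ => rfl, hs1, hs2⟩
  · have h1 : Fintype.card (N ⊕ (Σ X : F, Nc X)) =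
        Fintype.card N + Fintype.card (Σ X : F, Vc X) := by
      rw [Fintype.card_sum, Fintype.card_sigma, Fintype.card_sigma]
      congr 1
      exact Finset.sum_congr rfl fun X _ => hcard X
    exact h1
  · rintro (a | ⟨X, a⟩)
    · exact nL.n a
    · exact (hnorm X).n a

end SN78
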