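import Pool.Agent.SN78.MDefs

/-!
# SN78 module MBASE: elementary facts on prime plane maps

The proofs are as in `RCut.lean` (there for `Rigid`; only `inv`, `ne`, `cut4` are used).

`noloop`: otherwise the cut of `{v}` has at most three darts (`A = {v}` is nonempty and not everything,
because `2 ≤ card X`), in fact at most two.
`cut_compl`: `α` exchanges the darts leaving `A` and the darts leaving `Aᶜ`.
`cut_even`: `4 |A|` is the number of darts of `A`, those not leaving `A` are paired by `α`.
`cut_inter_union`, `cut_sdiff`: submodularity; count for each dart `d` (by the membership of `d.1`, `(α d).1` in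
`A`, `B`); `cut_sdiff` from `cut_inter_union` for `A`, `Bᶜ` and `cut_compl` (or directly; it needs that the
number of darts from `A \ B` to `B \ A` is the number of darts from `B \ A` to `A \ B`).
`connected`: the set `{y | M y}` has no leaving darts.
`conn_in`: let `B = {y ∈ A | M y}`, `C = A \ B`; there are no darts between `B` and `C`, so
`cut B + cut C = cut A = 4`; if both are nonempty this is at least `8`.
-/

namespace SN78

variable {X : Type} [Fintype X] {α : X × ZMod 4 → X × ZMod 4}

private theorem mbase_eq (α : X × ZMod 4 → X × ZMod 4) [DecidableEq X] (A : Finset X) :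
    cut α A = (Finset.univ.filter fun d : X × ZMod 4 => d.1 ∈ A ∧ (α d).1 ∉ A).card := by
  classical
  unfold cut
  rw [Nat.card_eq_fintype_card, Fintype.card_subtype]

/-- the cut as a sum over all darts -/
private theorem mbase_sum (α : X × ZMod 4 → X × ZMod 4) [DecidableEq X] (A : Finset X) :
    cut α A = ∑ d : X × ZMod 4, if d.1 ∈ A ∧ (α d).1 ∉ A then 1 else 0 := by
  classical
  rw [mbase_eq, Finset.card_filter]

private theorem mbase_darts [DecidableEq X] (A : Finset X) :
    (Finset.univ.filter fun d : X × ZMod 4 => d.1 ∈ A).card = 4 * A.card := by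
  classical
  have h : (Finset.univ.filter fun d : X × ZMod 4 => d.1 ∈ A) = A ×ˢ (Finset.univ : Finset (ZMod 4)) := by
    ext d
    simp
  rw [h, Finset.card_product, Finset.card_univ, ZMod.card, Nat.mul_comm]

/-- the leaving darts of `A` and a set `B` of further darts of `A` which do not leave -/
private theorem mbase_add [DecidableEq X] (A : Finset X) (B : Finset (X × ZMod 4))
    (hB : ∀ d ∈ B, d.1 ∈ A ∧ (α d).1 ∈ A) : cut α A + B.card ≤ 4 * A.card := by
  classical
  rw [mbase_eq, ← mbase_darts A, ← Finset.card_union_of_disjoint]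
  · apply Finset.card_le_card
    intro d hd
    simp only [Finset.mem_union, Finset.mem_filter, Finset.mem_univ, true_and] at hd ⊢
    rcases hd with hd | hd
    · exact hd.1
    · exact (hB d hd).1
  · rw [Finset.disjoint_left]
    intro d hd hd2
    simp only [Finset.mem_filter, Finset.mem_univ, true_and] at hd
    exact hd.2 (hB d hd2).2

theorem cut_compl' [DecidableEq X] (hi : ∀ d, α (α d) = d) (A : Finset X) : cut α Aᶜ = cut α A := by
  classical
  unfold cut
  refine Nat.card_congr ⟨fun d => ⟨α d.1, ?_⟩, fun d => ⟨α d.1, ?_⟩, fun d => ?_, fun d => ?_⟩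
  · obtain ⟨d, hd1, hd2⟩ := d
    rw [Finset.mem_compl] at hd1 hd2
    simp only [hi]
    exact ⟨not_not.mp hd2, hd1⟩
  · obtain ⟨d, hd1, hd2⟩ := d
    simp only [hi, Finset.mem_compl]
    exact ⟨hd2, not_not.mpr hd1⟩
  · exact Subtype.ext (hi d.1)
  · exact Subtype.ext (hi d.1)

theorem cut_even' (hi : ∀ d, α (α d) = d) (hn : ∀ d, α d ≠ d) (A : Finset X) : Even (cut α A) := by
  classical
  have h1 : (Finset.univ.filter fun d : X × ZMod 4 => d.1 ∈ A ∧ (α d).1 ∉ A).card +
      (Finset.univ.filter fun d : X × ZMod 4 => d.1 ∈ A ∧ (α d).1 ∈ A).card = 4 * A.card := by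
    rw [← mbase_darts A, ← Finset.card_union_of_disjoint]
    · congr 1
      ext d
      simp only [Finset.mem_union, Finset.mem_filter, Finset.mem_univ, true_and]
      tauto
    · rw [Finset.disjoint_left]
      intro d hd hd2
      simp only [Finset.mem_filter, Finset.mem_univ, true_and] at hd hd2
      exact hd.2 hd2.2
  have h2 : Even (Finset.univ.filter fun d : X × ZMod 4 => d.1 ∈ A ∧ (α d).1 ∈ A).card := by
    have h3 : ∑ _d ∈ (Finset.univ.filter fun d : X × ZMod 4 => d.1 ∈ A ∧ (α d).1 ∈ A),
        (1 : ZMod 2) = 0 := by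
      apply Finset.sum_involution (fun d _ => α d)
      · intro d _
        decide
      · intro d _ _
        exact hn d
      · intro d hd
        simp only [Finset.mem_filter, Finset.mem_univ, true_and] at hd ⊢
        rw [hi]
        exact ⟨hd.2, hd.1⟩
      · intro d _
        exact hi d
    rw [Finset.sum_const, nsmul_eq_mul, mul_one] at h3
    exact (ZMod.natCast_eq_zero_iff_even).mp h3
  rw [mbase_eq]
  obtain ⟨k, hk⟩ := h2
  have h4 : (Finset.univ.filter fun d : X × ZMod 4 => d.1 ∈ A ∧ (α d).1 ∉ A).card =
      2 * (2 * A.card - k) := by omega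
  rw [h4]
  exact even_two_mul _

theorem cut_inter_union [DecidableEq X] (A B : Finset X) :
    cut α (A ∩ B) + cut α (A ∪ B) ≤ cut α A + cut α B := by
  classical
  simp only [mbase_sum]
  rw [← Finset.sum_add_distrib, ← Finset.sum_add_distrib]
  apply Finset.sum_le_sum
  intro d _
  simp only [Finset.mem_inter, Finset.mem_union]
  by_cases h1 : d.1 ∈ A <;> by_cases h2 : d.1 ∈ B <;> by_cases h3 : (α d).1 ∈ A <;>
    by_cases h4 : (α d).1 ∈ B <;> simp [h1, h2, h3, h4]

theorem cut_sdiff [DecidableEq X] (hi : ∀ d, α (α d) = d) (A B : Finset X) :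
    cut α (A \ B) + cut α (B \ A) ≤ cut α A + cut α B := by
  have h := cut_inter_union (α := α) A Bᶜ
  have h1 : A ∩ Bᶜ = A \ B := by
    ext x
    simp
  have h2 : A ∪ Bᶜ = (B \ A)ᶜ := by
    ext x
    simp only [Finset.mem_union, Finset.mem_compl, Finset.mem_sdiff]
    tauto
  rw [h1, h2, cut_compl' hi, cut_compl' hi] at h
  exact h

/-- if there are no darts from `A` to `B` then the cuts add up -/
theorem cut_union_of_disj [DecidableEq X] (hi : ∀ d, α (α d) = d) {A B : Finset X} (hd : Disjoint A B)
    (h : ∀ d, d.1 ∈ A → (α d).1 ∉ B) : cut α (A ∪ B) = cut α A + cut α B := by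
  classical
  simp only [mbase_sum]
  rw [← Finset.sum_add_distrib]
  apply Finset.sum_congr rfl
  intro d _
  have e1 : d.1 ∈ A → d.1 ∉ B := fun ha hb => Finset.disjoint_left.mp hd ha hb
  have e2 : (α d).1 ∈ A → (α d).1 ∉ B := fun ha hb => Finset.disjoint_left.mp hd ha hb
  have e3 := h d
  have e4 : (α d).1 ∈ A → d.1 ∉ B := by
    have := h (α d)
    rwa [hi] at this
  simp only [Finset.mem_union]
  by_cases h1 : d.1 ∈ A <;> by_cases h2 : d.1 ∈ B <;> by_cases h3 : (α d).1 ∈ A <;>
    by_cases h4 : (α d).1 ∈ B <;> simp_all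

/-- a set without leaving darts -/
theorem cut_zero_iff (A : Finset X) : cut α A = 0 ↔ ∀ d : X × ZMod 4, d.1 ∈ A → (α d).1 ∈ A := by
  classical
  rw [mbase_eq, Finset.card_eq_zero, Finset.filter_eq_empty_iff]
  constructor
  · intro h d hd
    by_contra hn
    exact h (Finset.mem_univ d) ⟨hd, hn⟩
  · intro h d _ hd
    exact hd.2 (h d hd.1)

namespace PMap

private theorem mbase_ne_univ (h : PMap α) (v : X) : ({v} : Finset X) ≠ Finset.univ := by
  intro hu
  have := h.two
  rw [← Finset.card_univ, ← hu, Finset.card_singleton] at this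
  omega

theorem noloop (h : PMap α) (d : X × ZMod 4) : (α d).1 ≠ d.1 := by
  classical
  intro hd
  have h1 : cut α {d.1} + ({d} : Finset (X × ZMod 4)).card ≤ 4 * ({d.1} : Finset X).card := by
    apply mbase_add
    intro e he
    rw [Finset.mem_singleton] at he
    subst he
    exact ⟨Finset.mem_singleton_self _, Finset.mem_singleton.mpr hd⟩
  have h4 := h.cut4 {d.1} (Finset.singleton_nonempty _) (mbase_ne_univ h d.1)
  rw [Finset.card_singleton, Finset.card_singleton] at h1
  omega

theorem ne (h : PMap α) (d : X × ZMod 4) : α d ≠ d := fun e => h.noloop d (by rw [e])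

/-- all four darts of a site leave it -/
theorem cut_single (h : PMap α) (v : X) : cut α {v} = 4 := by
  classical
  apply le_antisymm
  · have h1 := mbase_add (α := α) ({v} : Finset X) ∅ (by simp)
    simpa using h1
  · exact h.cut4 {v} (Finset.singleton_nonempty _) (mbase_ne_univ h v)

theorem fs_inj (h : PMap α) : Function.Injective (fs α) := by
  intro d d' hdd
  have h1 : α d = α d' := by
    have h2 := congrArg Prod.fst hdd
    have h3 := congrArg Prod.snd hdd
    simp only [fs, pv] at h2 h3
    exact Prod.ext h2 (sub_left_injective h3)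
  rw [← h.inv d, ← h.inv d', h1]

theorem connected (h : PMap α) (M : X → Prop) (hM : ∀ d, M d.1 → M (α d).1) {x : X}
    (hx : M x) : ∀ y, M y := by
  classical
  intro y
  have h1 : cut α (Finset.univ.filter M) = 0 := by
    rw [cut_zero_iff]
    intro d hd
    simp only [Finset.mem_filter, Finset.mem_univ, true_and] at hd ⊢
    exact hM d hd
  have h2 : Finset.univ.filter M = Finset.univ := by
    by_contra hne
    have := h.cut4 (Finset.univ.filter M) ⟨x, by simpa using hx⟩ hne
    omega
  have h3 : y ∈ Finset.univ.filter M := by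
    rw [h2]
    exact Finset.mem_univ y
  simpa using h3

/-- a set with four leaving darts is connected -/
theorem conn_in (h : PMap α) {A : Finset X} (h4 : cut α A = 4) (M : X → Prop)
    (hM : ∀ d : X × ZMod 4, d.1 ∈ A → M d.1 → (α d).1 ∈ A → M (α d).1) {x : X} (hx : x ∈ A) (hMx : M x) :
    ∀ y ∈ A, M y := by
  classical
  intro y hy
  by_contra hMy
  have hA : A ≠ Finset.univ := by
    rintro rfl
    have : cut α (Finset.univ : Finset X) = 0 := by
      rw [cut_zero_iff]
      intro d _
      exact Finset.mem_univ _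
    omega
  have hu : A.filter M ∪ A.filter (fun z => ¬ M z) = A := Finset.filter_union_filter_not_eq M A
  have hdis : Disjoint (A.filter M) (A.filter fun z => ¬ M z) := Finset.disjoint_filter_filter_not A A M
  have h1 := cut_union_of_disj (α := α) h.inv hdis (by
    intro d hd hd2
    rw [Finset.mem_filter] at hd hd2
    exact hd2.2 (hM d hd.1 hd.2 hd2.1))
  rw [hu, h4] at h1
  have hne : ∀ B : Finset X, B ⊆ A → B ≠ Finset.univ := by
    intro B hB he
    apply hA
    rw [he] at hB
    exact Finset.eq_univ_of_forall fun z => hB (Finset.mem_univ z)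
  have h2 := h.cut4 (A.filter M) ⟨x, by rw [Finset.mem_filter]; exact ⟨hx, hMx⟩⟩
    (hne _ (Finset.filter_subset _ _))
  have h3 := h.cut4 (A.filter fun z => ¬ M z) ⟨y, by rw [Finset.mem_filter]; exact ⟨hy, hMy⟩⟩
    (hne _ (Finset.filter_subset _ _))
  omega

end PMap

end SN78
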