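import Pool.Agent.SN78.MCoh

/-!
# SN78 module MBD: the boundary cycle of a set with four leaving darts

`bd`: let `E = {d | d.1 ∈ A, (α d).1 ∉ A}` (four darts).  For `d ∈ E` walk `fs d, fs² d, ...`; the walk comes back
to `d` (`fs` is a permutation of a finite set), so there is a first `n ≥ 1` with `(fs^(n+1) d).1 ∈ A`; then
`fs^n d = α g` with `g ∈ E`; put `nxt d = g`.  `nxt : E → E` is a bijection (walk backwards: `nxt d` determines `d`
as the last dart of `A` before `α g`).
For a face function `w` and any `J ⊆ E` let `b = ` indicator of `{d | d ∈ J ∨ α d ∈ J}`; then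
`∑ d, b d * w d = ∑_{d ∈ J} w d + ∑_{g ∈ J} w (α g) = ∑_{d ∈ J} w d + ∑_{d ∈ nxt⁻¹ J} w d`, because
`w (α (nxt d)) = w d` (same face).
(1) If `J` is an orbit of `nxt` this is `0`, so by `PMap.coh` there is `p` with `b d = p d.1 + p (α d).1`: the edges of `J`
are exactly the edges which leave `S = {x | p x = 1}`; `J` is nonempty so `S` is nonempty and not everything, and
`cut α S = card J ≥ 4`; so `J = E` and `nxt` is a cyclic permutation of the four elements of `E`.
Let `δ 0 ∈ E`, `δ (i + 1) = nxt (δ i)` (a bijection `ZMod 4 → E`).  This gives `inj`, `mem`, `outw`.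
(2) `δ i` and `δ j` are in different faces if `i ≠ j`: otherwise take `J = {δ (i+1), ..., δ j}` (1, 2 or 3
elements); `∑ b w = w (δ i) + w (δ j) = 0` for each face function; by `PMap.coh` `J` is the set of edges leaving
a set `S`, nonempty and not everything, so `4 ≤ cut α S = card J ≤ 3`.
(3) `inw`: walk from `α (δ (i + 1))`; it is in the face of `δ i`, and `fs (α (δ (i+1))) = pv (δ (i+1))` is in `A`;
the first dart `f` on this walk with `(fs f).1 ∉ A` is in `E` and in the face of `δ i`; so `f = δ i` by (2).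
(The walk before `f` is in `A`.)

`compl`: with `c - i = j + 1` the conditions `outw`, `inw` are exchanged.  `single`: `{v}` has `4` leaving darts
(`cut_single`), so there is `δ` with `Bd α {v} δ`; by `inw` the walk from `α (δ (i+1))` to `δ i` is inside
`{v}`; all darts of `v` leave `{v}`, so it has one step: `δ i = pv (δ (i + 1))`.
-/

namespace SN78

variable {X : Type} [Fintype X] {α : X × ZMod 4 → X × ZMod 4}

omit [Fintype X] in
private theorem mbd_iter {w : X × ZMod 4 → ZMod 2} (hw : ∀ d, w (fs α d) = w d) (n : ℕ)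
    (d : X × ZMod 4) : w ((fs α)^[n] d) = w d := by
  induction n with
  | zero => rfl
  | succ n ih => rw [Function.iterate_succ_apply', hw, ih]

private theorem mbd_z2 (a : ZMod 2) : a = 0 ∨ a = 1 := by
  revert a; decide

private theorem mbd_key (h : PMap α) {A : Finset X} {J : Finset (X × ZMod 4)}
    (hJ : ∀ d ∈ J, d.1 ∈ A ∧ (α d).1 ∉ A) (hne : J.Nonempty)
    (hs : ∀ w : X × ZMod 4 → ZMod 2, (∀ d, w (fs α d) = w d) →
      ∑ d ∈ J, w d + ∑ d ∈ J, w (α d) = 0) : 4 ≤ J.card := by
  classical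
  have hdis : ∀ d ∈ J, α d ∉ J := fun d hd hd' => (hJ d hd).2 (hJ _ hd').1
  obtain ⟨p, hp⟩ := h.coh (fun d => (if d ∈ J then (1 : ZMod 2) else 0) + (if α d ∈ J then 1 else 0))
    (fun d => by simp only [h.inv]; rw [add_comm])
    (fun w hw => by
      have e1 : ∑ d, ((if d ∈ J then (1 : ZMod 2) else 0) + (if α d ∈ J then 1 else 0)) * w d
          = ∑ d, (if d ∈ J then w d else 0) + ∑ d, (if α d ∈ J then w d else 0) := by
        rw [← Finset.sum_add_distrib]
        refine Finset.sum_congr rfl fun d _ => ?_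
        rw [add_mul]
        split_ifs <;> simp
      have e2 : ∑ d, (if α d ∈ J then w d else 0) = ∑ d, (if d ∈ J then w (α d) else 0) := by
        have hinv : Function.Involutive α := h.inv
        refine Fintype.sum_equiv hinv.toPerm _ _ fun d => ?_
        show (if α d ∈ J then w d else 0) = if α d ∈ J then w (α (α d)) else 0
        rw [h.inv]
      rw [e1, e2, Finset.sum_ite_mem, Finset.sum_ite_mem, Finset.univ_inter]
      exact hs w hw)
  obtain ⟨S, hS⟩ : ∃ S : Finset X, ∀ x, x ∈ S ↔ p x = 1 :=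
    ⟨Finset.univ.filter (fun x => p x = 1), fun x => by simp⟩
  have key : ∀ d : X × ZMod 4, d.1 ∈ S → (α d).1 ∉ S → d ∉ J → α d ∈ J := by
    intro d h1 h2 h3
    have h4 := hp d
    rw [hS] at h1 h2
    have h5 : p (α d).1 = 0 := (mbd_z2 _).resolve_right h2
    rw [h1, h5, if_neg h3] at h4
    by_contra h6
    rw [if_neg h6] at h4
    revert h4; decide
  have hc : cut α S ≤ J.card := by
    have : J.card = Nat.card {x // x ∈ J} := by simp
    rw [this, cut]
    refine Nat.card_le_card_of_injective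
      (fun d => if hd : d.1 ∈ J then (⟨d.1, hd⟩ : {x // x ∈ J})
        else ⟨α d.1, key d.1 d.2.1 d.2.2 hd⟩) ?_
    rintro ⟨d, hd1, hd2⟩ ⟨e, he1, he2⟩ hde
    simp only at hde
    apply Subtype.ext
    show d = e
    by_cases h1 : d ∈ J <;> by_cases h2 : e ∈ J
    · rw [dif_pos h1, dif_pos h2] at hde
      exact congrArg Subtype.val hde
    · rw [dif_pos h1, dif_neg h2] at hde
      have : d = α e := congrArg Subtype.val hde
      exact absurd (this ▸ hd1) he2
    · rw [dif_neg h1, dif_pos h2] at hde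
      have : α d = e := congrArg Subtype.val hde
      exact absurd (this ▸ he1) hd2
    · rw [dif_neg h1, dif_neg h2] at hde
      have : α d = α e := congrArg Subtype.val hde
      rw [← h.inv d, this, h.inv]
  obtain ⟨d, hd⟩ := hne
  have hd1 := hp d
  rw [if_pos hd, if_neg (hdis d hd), add_zero] at hd1
  refine (h.cut4 S ?_ ?_).trans hc
  · rcases mbd_z2 (p d.1) with h1 | h1
    · exact ⟨(α d).1, (hS _).2 (by rw [hd1, h1, zero_add])⟩
    · exact ⟨d.1, (hS _).2 h1⟩
  · intro hu
    have h1 : p d.1 = 1 := (hS _).1 (hu ▸ Finset.mem_univ _)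
    have h2 : p (α d).1 = 1 := (hS _).1 (hu ▸ Finset.mem_univ _)
    rw [h1, h2] at hd1
    revert hd1; decide

/-- the walk outside `A` -/
private theorem mbd_out (h : PMap α) {A : Finset X} (d : X × ZMod 4) (h1 : d.1 ∈ A)
    (h2 : (α d).1 ∉ A) : ∃ g : X × ZMod 4, (g.1 ∈ A ∧ (α g).1 ∉ A) ∧
      ∃ n, (fs α)^[n] d = α g ∧ ∀ m, 0 < m → m ≤ n → ((fs α)^[m] d).1 ∉ A := by
  classical
  obtain ⟨N, hN, hN'⟩ := h.fs_inj.mem_periodicPts d
  have hex : ∃ n, ((fs α)^[n + 1] d).1 ∈ A :=
    ⟨N - 1, by rw [Nat.sub_add_cancel hN]; rw [hN'.eq]; exact h1⟩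
  have hn := Nat.find_spec hex
  have hm : ∀ m, 0 < m → m ≤ Nat.find hex → ((fs α)^[m] d).1 ∉ A := by
    intro m hm0 hm
    have := Nat.find_min hex (m := m - 1) (by omega)
    rwa [Nat.sub_add_cancel hm0] at this
  set n := Nat.find hex with hndef
  have hn0 : 0 < n := by
    rcases Nat.eq_zero_or_pos n with h0 | h0
    · exfalso
      rw [h0] at hn
      exact h2 hn
    · exact h0
  refine ⟨α ((fs α)^[n] d), ⟨?_, ?_⟩, n, (h.inv _).symm, hm⟩
  · rw [Function.iterate_succ_apply'] at hn
    exact hn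
  · rw [h.inv]
    exact hm n hn0 le_rfl

/-- the walk inside `A` -/
private theorem mbd_in (h : PMap α) {A : Finset X} (u : X × ZMod 4) (h1 : u.1 ∉ A)
    (h2 : (α u).1 ∈ A) : ∃ g : X × ZMod 4, (g.1 ∈ A ∧ (α g).1 ∉ A) ∧
      ∃ n, (fs α)^[n] u = g ∧ ∀ m, 0 < m → m ≤ n → ((fs α)^[m] u).1 ∈ A := by
  classical
  obtain ⟨N, hN, hN'⟩ := h.fs_inj.mem_periodicPts u
  have hex : ∃ n, ((fs α)^[n + 1] u).1 ∉ A :=
    ⟨N - 1, by rw [Nat.sub_add_cancel hN]; rw [hN'.eq]; exact h1⟩
  have hn := Nat.find_spec hex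
  have hm : ∀ m, 0 < m → m ≤ Nat.find hex → ((fs α)^[m] u).1 ∈ A := by
    intro m hm0 hm
    have := Nat.find_min hex (m := m - 1) (by omega)
    rwa [Nat.sub_add_cancel hm0, not_not] at this
  set n := Nat.find hex with hndef
  have hn0 : 0 < n := by
    rcases Nat.eq_zero_or_pos n with h0 | h0
    · exfalso
      rw [h0] at hn
      exact hn h2
    · exact h0
  refine ⟨(fs α)^[n] u, ⟨hm n hn0 le_rfl, ?_⟩, n, rfl, hm⟩
  rw [Function.iterate_succ_apply'] at hn
  exact hn

theorem PMap.bd (h : PMap α) {A : Finset X} (hA : A.Nonempty) (hA' : A ≠ Finset.univ)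
    (h4 : cut α A = 4) : ∃ δ, Bd α A δ := by
  classical
  have _ := hA
  have _ := hA'
  let E := {d : X × ZMod 4 // d.1 ∈ A ∧ (α d).1 ∉ A}
  have hE : Nat.card E = 4 := h4
  have hex : ∀ d : E, ∃ g : E, ∃ n, (fs α)^[n] d.1 = α g.1 ∧
      ∀ m, 0 < m → m ≤ n → ((fs α)^[m] d.1).1 ∉ A := by
    rintro ⟨d, h1, h2⟩
    obtain ⟨g, hg, n, hn⟩ := mbd_out h d h1 h2
    exact ⟨⟨g, hg⟩, n, hn⟩
  choose nxt hnxt using hex
  have hinj : Function.Injective nxt := by
    intro d d' hdd
    obtain ⟨n, hn, hm⟩ := hnxt d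
    obtain ⟨n', hn', hm'⟩ := hnxt d'
    rw [hdd] at hn
    rcases le_total n n' with hle | hle
    · have h1 : (fs α)^[n] d.1 = (fs α)^[n] ((fs α)^[n' - n] d'.1) := by
        rw [← Function.iterate_add_apply, Nat.add_sub_cancel' hle, hn, hn']
      have h2 := h.fs_inj.iterate n h1
      rcases Nat.eq_zero_or_pos (n' - n) with h0 | h0
      · rw [h0] at h2
        exact Subtype.ext h2
      · exact absurd (h2 ▸ d.2.1) (hm' _ h0 (Nat.sub_le _ _))
    · have h1 : (fs α)^[n'] d'.1 = (fs α)^[n'] ((fs α)^[n - n'] d.1) := by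
        rw [← Function.iterate_add_apply, Nat.add_sub_cancel' hle, hn, hn']
      have h2 := h.fs_inj.iterate n' h1
      rcases Nat.eq_zero_or_pos (n - n') with h0 | h0
      · rw [h0] at h2
        exact (Subtype.ext h2).symm
      · exact absurd (h2 ▸ d'.2.1) (hm _ h0 (Nat.sub_le _ _))
  have hnw : ∀ (w : X × ZMod 4 → ZMod 2), (∀ d, w (fs α d) = w d) → ∀ d : E,
      w (α (nxt d).1) = w d.1 := by
    intro w hw d
    obtain ⟨n, hn, -⟩ := hnxt d
    rw [← hn, mbd_iter hw]
  have hfin : Finite E := inferInstance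
  obtain ⟨d0⟩ : Nonempty E := by
    by_contra hcon
    rw [not_nonempty_iff] at hcon
    rw [Nat.card_of_isEmpty] at hE
    omega
  let e : ℕ → E := fun k => nxt^[k] d0
  have hes : ∀ k, nxt (e k) = e (k + 1) := fun k => by
    show nxt (nxt^[k] d0) = nxt^[k + 1] d0
    rw [Function.iterate_succ_apply']
  -- the key lemma for intervals
  have hint : ∀ a m, 0 < m → Set.InjOn (fun k => e (a + 1 + k)) (Finset.range m : Finset ℕ) →
      (∀ w : X × ZMod 4 → ZMod 2, (∀ d, w (fs α d) = w d) → w (e a).1 = w (e (a + m)).1) →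
      4 ≤ m := by
    intro a m hm hio hw
    have hio' : Set.InjOn (fun k => (e (a + 1 + k)).1) (Finset.range m : Finset ℕ) :=
      fun x hx y hy hxy => hio hx hy (Subtype.ext hxy)
    have := mbd_key h (A := A) (J := (Finset.range m).image (fun k => (e (a + 1 + k)).1)) ?_ ?_ ?_
    · rwa [Finset.card_image_of_injOn hio', Finset.card_range] at this
    · intro d hd
      obtain ⟨k, -, rfl⟩ := Finset.mem_image.1 hd
      exact (e (a + 1 + k)).2
    · exact ⟨_, Finset.mem_image_of_mem _ (Finset.mem_range.2 hm)⟩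
    · intro w hw'
      rw [Finset.sum_image hio', Finset.sum_image hio']
      have e1 : ∀ k, w (α (e (a + 1 + k)).1) = w (e (a + k)).1 := by
        intro k
        rw [← hnw w hw' (e (a + k)), hes, show a + k + 1 = a + 1 + k by ring]
      simp only [e1]
      have e2 : ∀ n, ∑ k ∈ Finset.range n, w (e (a + 1 + k)).1 + ∑ k ∈ Finset.range n, w (e (a + k)).1
          = w (e a).1 + w (e (a + n)).1 := by
        intro n
        induction n with
        | zero =>
          rw [Finset.sum_range_zero, Finset.sum_range_zero, add_zero, add_zero]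
          exact (CharTwo.add_self_eq_zero _).symm
        | succ n ih =>
          rw [Finset.sum_range_succ, Finset.sum_range_succ, add_add_add_comm, ih,
            show a + 1 + n = a + (n + 1) by ring]
          have : w (e (a + n)).1 + w (e (a + n)).1 = 0 := CharTwo.add_self_eq_zero _
          linear_combination this
      rw [e2, hw w hw']
      exact CharTwo.add_self_eq_zero _
  -- the period of `d0` is four
  obtain ⟨P, hP0, hP⟩ : ∃ P, 0 < P ∧ nxt^[P] d0 = d0 := by
    obtain ⟨P, hP0, hP⟩ := hinj.mem_periodicPts d0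
    exact ⟨P, hP0, hP⟩
  have hper : ∀ m n, m < n → e m = e n → nxt^[n - m] d0 = d0 := by
    intro m n hmn hee
    have h1 : nxt^[m] d0 = nxt^[m] (nxt^[n - m] d0) := by
      rw [← Function.iterate_add_apply, Nat.add_sub_cancel' hmn.le]
      exact hee
    exact (hinj.iterate m h1).symm
  have hex : ∃ P, 0 < P ∧ nxt^[P] d0 = d0 := ⟨P, hP0, hP⟩
  obtain ⟨hp0, hp⟩ := Nat.find_spec hex
  have hpmin : ∀ m, 0 < m → m < Nat.find hex → nxt^[m] d0 ≠ d0 := by
    intro m hm0 hm hmd
    exact Nat.find_min hex hm ⟨hm0, hmd⟩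
  set p := Nat.find hex with hpdef
  have heinj : ∀ m n, m < n → n - m < p → e m ≠ e n := by
    intro m n hmn hlt hee
    exact hpmin (n - m) (by omega) hlt (hper m n hmn hee)
  have hio : ∀ a m, m ≤ p → Set.InjOn (fun k => e (a + 1 + k)) (Finset.range m : Finset ℕ) := by
    intro a m hm x hx y hy hxy
    simp only [Finset.coe_range, Set.mem_Iio] at hx hy
    rcases lt_trichotomy x y with hlt | heq | hlt
    · exact absurd hxy (heinj _ _ (by omega) (by omega))
    · exact heq
    · exact absurd hxy.symm (heinj _ _ (by omega) (by omega))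
  have hp4 : 4 ≤ p := hint 0 p hp0 (hio 0 p le_rfl) (fun w hw => by
    show w (nxt^[0] d0).1 = w (nxt^[0 + p] d0).1
    rw [zero_add, hp]; rfl)
  have hp4' : p ≤ 4 := by
    have hinj' : Function.Injective (fun k : Fin p => e k) := by
      intro x y hxy
      apply Fin.ext
      rcases lt_trichotomy (x : ℕ) y with hlt | heq | hlt
      · exact absurd hxy (heinj _ _ hlt (by omega))
      · exact heq
      · exact absurd hxy.symm (heinj _ _ hlt (by omega))
    have := Nat.card_le_card_of_injective _ hinj'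
    rwa [hE, Nat.card_fin] at this
  have hp' : p = 4 := le_antisymm hp4' hp4
  rw [hp'] at hp heinj hio
  have he4 : ∀ k, e (k + 4) = e k := by
    intro k
    show nxt^[k + 4] d0 = nxt^[k] d0
    rw [Function.iterate_add_apply, hp]
  have hez : ∀ k, e k = e ((k : ZMod 4).val) := by
    intro k
    rw [ZMod.val_natCast]
    induction k using Nat.strong_induction_on with
    | _ k ih =>
      rcases lt_or_ge k 4 with hk | hk
      · rw [Nat.mod_eq_of_lt hk]
      · have h1 := ih (k - 4) (by omega)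
        rw [show k % 4 = (k - 4) % 4 by omega, ← h1, ← he4 (k - 4), Nat.sub_add_cancel hk]
  let δ : ZMod 4 → X × ZMod 4 := fun i => (e i.val).1
  have hδs : ∀ i : ZMod 4, δ (i + 1) = (e (i.val + 1)).1 := by
    intro i
    show (e (i + 1).val).1 = _
    rw [hez (i.val + 1)]
    have : ((i.val + 1 : ℕ) : ZMod 4) = i + 1 := by
      rw [Nat.cast_add, ZMod.natCast_zmod_val, Nat.cast_one]
    rw [this]
  have hδinj : Function.Injective δ := by
    intro i j hij
    have hij' : e i.val = e j.val := Subtype.ext hij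
    have hi := ZMod.val_lt i
    have hj := ZMod.val_lt j
    apply ZMod.val_injective
    rcases lt_trichotomy i.val j.val with hlt | heq | hlt
    · exact absurd hij' (heinj _ _ hlt (by omega))
    · exact heq
    · exact absurd hij'.symm (heinj _ _ hlt (by omega))
  have hδmem : ∀ d : X × ZMod 4, (d.1 ∈ A ∧ (α d).1 ∉ A) ↔ ∃ i, δ i = d := by
    intro d
    constructor
    · intro hd
      have hbij : Function.Bijective (fun i : ZMod 4 => (e i.val : E)) := by
        have := Fintype.ofFinite E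
        rw [Fintype.bijective_iff_injective_and_card]
        refine ⟨fun i j hij => hδinj (congrArg Subtype.val hij), ?_⟩
        rw [ZMod.card, ← Nat.card_eq_fintype_card, hE]
      obtain ⟨i, hi⟩ := hbij.2 ⟨d, hd⟩
      exact ⟨i, congrArg Subtype.val hi⟩
    · rintro ⟨i, rfl⟩
      exact (e i.val).2
  have hout : ∀ i : ZMod 4, ∃ n, (fs α)^[n] (δ i) = α (δ (i + 1)) ∧
      ∀ m, 0 < m → m ≤ n → ((fs α)^[m] (δ i)).1 ∉ A := by
    intro i
    rw [hδs, ← hes]
    exact hnxt (e i.val)
  refine ⟨δ, hδinj, hδmem, hout, ?_⟩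
  intro i
  have hg1 := (hδmem (δ (i + 1))).2 ⟨_, rfl⟩
  obtain ⟨g, hg, n, hn, hm⟩ := mbd_in h (A := A) (α (δ (i + 1))) hg1.2 (by rw [h.inv]; exact hg1.1)
  obtain ⟨j, rfl⟩ := (hδmem g).1 hg
  have hw : ∀ w : X × ZMod 4 → ZMod 2, (∀ d, w (fs α d) = w d) → w (δ i) = w (δ j) := by
    intro w hw
    obtain ⟨n', hn', -⟩ := hout i
    rw [← hn, mbd_iter hw, ← hn', mbd_iter hw]
  have hij : j = i := by
    by_contra hne
    have hlt : 0 < (j - i).val := by
      rcases Nat.eq_zero_or_pos (j - i).val with h0 | h0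
      · exact absurd (sub_eq_zero.1 ((ZMod.val_eq_zero _).1 h0)) hne
      · exact h0
    have hlt4 := ZMod.val_lt (j - i)
    have := hint i.val (j - i).val hlt (hio _ _ hlt4.le) (fun w hw' => by
      have h1 : e (i.val + (j - i).val) = e j.val := by
        rw [hez (i.val + (j - i).val)]
        congr 1
        push_cast
        rw [ZMod.natCast_zmod_val, ZMod.natCast_zmod_val]
        ring_nf
      rw [h1]
      exact hw w hw')
    omega
  subst hij
  exact ⟨n, hn, hm⟩

theorem Bd.shift {A : Finset X} {δ : ZMod 4 → X × ZMod 4} (h : Bd α A δ) (c : ZMod 4) :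
    Bd α A (fun i => δ (i + c)) := by
  refine ⟨fun i j hij => add_right_cancel (h.inj hij), fun d => ?_, fun i => ?_, fun i => ?_⟩
  · rw [h.mem d]
    constructor
    · rintro ⟨i, rfl⟩
      exact ⟨i - c, by simp only [sub_add_cancel]⟩
    · rintro ⟨i, rfl⟩
      exact ⟨i + c, rfl⟩
  · have := h.outw (i + c)
    rwa [add_right_comm] at this
  · have := h.inw (i + c)
    rwa [add_right_comm] at this

theorem Bd.compl [DecidableEq X] (hi : ∀ d, α (α d) = d) {A : Finset X} {δ : ZMod 4 → X × ZMod 4}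
    (h : Bd α A δ) (c : ZMod 4) : Bd α Aᶜ (fun i => α (δ (c - i))) := by
  have hαi : Function.Injective α := fun x y hxy => by rw [← hi x, hxy, hi]
  refine ⟨fun i j hij => ?_, fun d => ?_, fun i => ?_, fun i => ?_⟩
  · have := h.inj (hαi hij)
    exact sub_right_injective this
  · rw [Finset.mem_compl, Finset.mem_compl, not_not]
    have h1 := h.mem (α d)
    rw [hi] at h1
    rw [and_comm, h1]
    constructor
    · rintro ⟨i, hid⟩
      exact ⟨c - i, by simp only [sub_sub_cancel]; rw [hid, hi]⟩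
    · rintro ⟨i, hid⟩
      exact ⟨c - i, by rw [← hid, hi]⟩
  · obtain ⟨n, hn, hm⟩ := h.inw (c - (i + 1))
    have e1 : c - (i + 1) + 1 = c - i := by ring
    rw [e1] at hn hm
    refine ⟨n, ?_, fun m hm0 hmn => ?_⟩
    · show (fs α)^[n] (α (δ (c - i))) = α (α (δ (c - (i + 1))))
      rw [hn, hi]
    · rw [Finset.mem_compl, not_not]
      exact hm m hm0 hmn
  · obtain ⟨n, hn, hm⟩ := h.outw (c - (i + 1))
    have e1 : c - (i + 1) + 1 = c - i := by ring
    rw [e1] at hn
    refine ⟨n, ?_, fun m hm0 hmn => ?_⟩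
    · show (fs α)^[n] (α (α (δ (c - (i + 1))))) = α (δ (c - i))
      rw [hi, hn]
    · rw [Finset.mem_compl]
      show ((fs α)^[m] (α (α (δ (c - (i + 1)))))).1 ∉ A
      rw [hi]
      exact hm m hm0 hmn

theorem Bd.cut {A : Finset X} {δ : ZMod 4 → X × ZMod 4} (h : Bd α A δ) : cut α A = 4 := by
  have hb : Function.Bijective (fun i : ZMod 4 =>
      (⟨δ i, (h.mem _).2 ⟨i, rfl⟩⟩ : {d : X × ZMod 4 // d.1 ∈ A ∧ (α d).1 ∉ A})) := by
    refine ⟨fun i j hij => h.inj (congrArg Subtype.val hij), ?_⟩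
    rintro ⟨d, hd⟩
    obtain ⟨i, hi⟩ := (h.mem d).1 hd
    exact ⟨i, Subtype.ext hi⟩
  have := Nat.card_congr (Equiv.ofBijective _ hb)
  rw [Nat.card_eq_fintype_card, ZMod.card] at this
  exact this.symm

theorem PMap.bd_single (h : PMap α) (v : X) (c : ZMod 4) : Bd α {v} (fun i => (v, i + c)) := by
  classical
  obtain ⟨δ, hδ⟩ := h.bd (A := {v}) (Finset.singleton_nonempty v) (by
    intro hu
    have h1 := h.two
    rw [← Finset.card_univ, ← hu, Finset.card_singleton] at h1
    omega) (h.cut_single v)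
  have hv : ∀ i, (δ i).1 = v := fun i => Finset.mem_singleton.1 ((hδ.mem _).2 ⟨i, rfl⟩).1
  have hstep : ∀ i, δ i = pv (δ (i + 1)) := by
    intro i
    obtain ⟨n, hn, hm⟩ := hδ.inw i
    rcases Nat.lt_trichotomy n 1 with h0 | h0 | h0
    · have h0' : n = 0 := by omega
      rw [h0'] at hn
      have h1 : (α (δ (i + 1))).1 = v := by
        rw [← hv i, ← hn]; rfl
      exact absurd (h1.trans (hv (i + 1)).symm) (h.noloop _)
    · rw [h0] at hn
      rw [← hn]
      show pv (α (α (δ (i + 1)))) = _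
      rw [h.inv]
    · exfalso
      have h1 := Finset.mem_singleton.1 (hm 1 one_pos h0.le)
      have h2 := Finset.mem_singleton.1 (hm 2 two_pos h0)
      have h3 : ((fs α)^[2] (α (δ (i + 1)))).1 = (α ((fs α)^[1] (α (δ (i + 1))))).1 := by
        rw [Function.iterate_succ_apply']; rfl
      rw [h3] at h2
      exact h.noloop _ (h2.trans h1.symm)
  have hs2 : ∀ i, (δ (i + 1)).2 = (δ i).2 + 1 := by
    intro i
    have := congrArg Prod.snd (hstep i)
    rw [this]
    show _ = (δ (i + 1)).2 - 1 + 1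
    rw [sub_add_cancel]
  have hall : ∀ k : ℕ, (δ (k : ZMod 4)).2 = (k : ZMod 4) + (δ 0).2 := by
    intro k
    induction k with
    | zero => simp
    | succ k ih =>
      rw [Nat.cast_succ, hs2, ih]
      ring
  have hall' : ∀ i : ZMod 4, δ i = (v, i + (δ 0).2) := by
    intro i
    refine Prod.ext (hv i) ?_
    have := hall i.val
    rwa [ZMod.natCast_zmod_val] at this
  have := hδ.shift (c - (δ 0).2)
  have e1 : (fun i => δ (i + (c - (δ 0).2))) = fun i => (v, i + c) := by
    funext i
    rw [hall']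
    congr 1
    ring
  rwa [e1] at this

end SN78
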