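import Pool.Agent.SN78.MBase

/-!
# SN78 module MCOH: functions on the edges which are even on all faces are coboundaries

`coh`: For `m : X × ZMod 4 → ZMod 2` (a chain of darts) let `∂ m v = ∑ i, (m (v, i) + m (α (v, i)))` and
`B m = ∑ d, m d * b d`.  If `∂ m = 0` then `B m = 0`: `c d = m d + m (α d)` is `α`-invariant with sum `0` at each
site, so by `h.hom` there is a face function `w` with `w d + w (pv d) = c d`, and `w (pv d) = w (α d)` (because
`fs α (α d) = pv d`); so `f = (m + w) * b` is `α`-invariant, its sum over all darts is `0` mod `2` (`α` is an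
involution without fixed points), and `∑ w * b = 0` by hypothesis.
For a dart `d` the chain `Pi.single d 1` has boundary `Pi.single d.1 1 + Pi.single (α d).1 1`.  Fix `x₀`.  By
`h.connected` each `x` has a chain `m_x` with `∂ m_x = Pi.single x₀ 1 + Pi.single x 1`.  Let `p x = B (m_x)`.  For a
dart `d` the chain `m_{d.1} + Pi.single d 1 + m_{(α d).1}` has boundary `0`; this is the claim.
-/

namespace SN78

variable {X : Type} [Fintype X] {α : X × ZMod 4 → X × ZMod 4}

private theorem mcoh_char (x : ZMod 2) : x + x = 0 := by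
  revert x; decide

private theorem mcoh_move (x y z : ZMod 2) (h : x + y + z = 0) : y = x + z := by
  revert x y z; decide

/-- the boundary of a chain of darts -/
private def mcohD (α : X × ZMod 4 → X × ZMod 4) (m : X × ZMod 4 → ZMod 2) (v : X) : ZMod 2 :=
  ∑ i : ZMod 4, (m (v, i) + m (α (v, i)))

omit [Fintype X] in
private theorem mcohD_add (m m' : X × ZMod 4 → ZMod 2) (v : X) :
    mcohD α (fun d => m d + m' d) v = mcohD α m v + mcohD α m' v := by
  unfold mcohD
  rw [← Finset.sum_add_distrib]
  refine Finset.sum_congr rfl fun i _ => ?_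
  ring

private theorem mcoh_kill (h : PMap α) (b : X × ZMod 4 → ZMod 2) (hb : ∀ d, b (α d) = b d)
    (hf : ∀ w : X × ZMod 4 → ZMod 2, (∀ d, w (fs α d) = w d) → ∑ d, b d * w d = 0)
    (m : X × ZMod 4 → ZMod 2) (hm : ∀ v, mcohD α m v = 0) : ∑ d, m d * b d = 0 := by
  obtain ⟨w, hw1, hw2⟩ := h.hom (fun d => m d + m (α d)) (fun d => by
    show m (α d) + m (α (α d)) = m d + m (α d)
    rw [h.inv]; ring) hm
  have hw3 : ∀ d, w (pv d) = w (α d) := by
    intro d
    have h1 := hw1 (α d)
    have h2 : fs α (α d) = pv d := by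
      show pv (α (α d)) = pv d
      rw [h.inv]
    rw [h2] at h1
    exact h1
  have hs : ∑ d, (m d + w d) * b d = 0 := by
    refine Finset.sum_involution (fun d _ => α d) ?_ ?_ ?_ ?_
    · intro d _
      have h1 := hw2 d
      rw [hw3] at h1
      have h2 : m (α d) + w (α d) = m d + w d := by
        have h3 : w (α d) = m d + m (α d) + w d := by
          rw [← h1]
          have := mcoh_char (w d)
          linear_combination - this
        rw [h3]
        have := mcoh_char (m (α d))
        linear_combination this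
      rw [hb, h2]
      exact mcoh_char _
    · intro d _ _
      exact h.ne d
    · intro d _
      exact Finset.mem_univ _
    · intro d _
      exact h.inv d
  have h1 := hf w hw1
  have h2 : ∑ d, (m d + w d) * b d = ∑ d, m d * b d + ∑ d, b d * w d := by
    rw [← Finset.sum_add_distrib]
    refine Finset.sum_congr rfl fun d _ => ?_
    ring
  rw [h2, h1, add_zero] at hs
  exact hs

omit [Fintype X] in
private theorem mcoh_sum [DecidableEq X] (d : X × ZMod 4) (v : X) :
    ∑ i : ZMod 4, (if (v, i) = d then (1 : ZMod 2) else 0) = if v = d.1 then 1 else 0 := by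
  by_cases hv : v = d.1
  · rw [if_pos hv]
    have h1 : ∀ i : ZMod 4, (if (v, i) = d then (1 : ZMod 2) else 0) =
        if i = d.2 then 1 else 0 := by
      intro i
      by_cases hi : i = d.2
      · rw [if_pos hi, if_pos (Prod.ext hv hi)]
      · rw [if_neg hi, if_neg (fun h => hi (congrArg Prod.snd h))]
    simp only [h1, Finset.sum_ite_eq', Finset.mem_univ, if_true]
  · rw [if_neg hv]
    refine Finset.sum_eq_zero fun i _ => ?_
    rw [if_neg (fun h => hv (congrArg Prod.fst h))]

private theorem mcohD_single (h : PMap α) [DecidableEq X] (d : X × ZMod 4) (v : X) :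
    mcohD α (fun e => if e = d then 1 else 0) v =
      (if v = d.1 then 1 else 0) + if v = (α d).1 then 1 else 0 := by
  unfold mcohD
  rw [Finset.sum_add_distrib, mcoh_sum]
  congr 1
  rw [← mcoh_sum (α d) v]
  refine Finset.sum_congr rfl fun i _ => ?_
  have h1 : α (v, i) = d ↔ (v, i) = α d := by
    constructor
    · intro h2
      rw [← h2, h.inv]
    · intro h2
      rw [h2, h.inv]
  simp only [h1]

theorem PMap.coh (h : PMap α) (b : X × ZMod 4 → ZMod 2) (hb : ∀ d, b (α d) = b d)
    (hf : ∀ w : X × ZMod 4 → ZMod 2, (∀ d, w (fs α d) = w d) → ∑ d, b d * w d = 0) :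
    ∃ p : X → ZMod 2, ∀ d, b d = p d.1 + p (α d).1 := by
  classical
  have hne : Nonempty X := by
    rw [← Fintype.card_pos_iff]
    have := h.two
    omega
  obtain ⟨x₀⟩ := hne
  have hex : ∀ x, ∃ m : X × ZMod 4 → ZMod 2, ∀ v,
      mcohD α m v = (if v = x₀ then 1 else 0) + if v = x then 1 else 0 := by
    refine h.connected (fun x => ∃ m : X × ZMod 4 → ZMod 2, ∀ v,
      mcohD α m v = (if v = x₀ then 1 else 0) + if v = x then 1 else 0) ?_ (x := x₀) ?_
    · rintro d ⟨m, hm⟩
      refine ⟨fun e => m e + if e = d then 1 else 0, fun v => ?_⟩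
      rw [mcohD_add, hm, mcohD_single h]
      have := mcoh_char (if v = d.1 then (1 : ZMod 2) else 0)
      linear_combination this
    · refine ⟨fun _ => 0, fun v => ?_⟩
      rw [mcoh_char]
      exact Finset.sum_eq_zero fun i _ => add_zero 0
  choose m hm using hex
  refine ⟨fun x => ∑ d, m x d * b d, fun d => ?_⟩
  have hz := mcoh_kill h b hb hf
    (fun e => m d.1 e + (if e = d then 1 else 0) + m (α d).1 e) (fun v => by
      rw [mcohD_add (fun e => m d.1 e + (if e = d then 1 else 0)) (m (α d).1), mcohD_add, hm, hm,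
        mcohD_single h]
      have h1 := mcoh_char (if v = x₀ then (1 : ZMod 2) else 0)
      have h2 := mcoh_char (if v = d.1 then (1 : ZMod 2) else 0)
      have h3 := mcoh_char (if v = (α d).1 then (1 : ZMod 2) else 0)
      linear_combination h1 + h2 + h3)
  have hs : ∑ e, (m d.1 e + (if e = d then 1 else 0) + m (α d).1 e) * b e =
      ∑ e, m d.1 e * b e + b d + ∑ e, m (α d).1 e * b e := by
    have h1 : ∀ e, (m d.1 e + (if e = d then 1 else 0) + m (α d).1 e) * b e =
        m d.1 e * b e + (if e = d then b e else 0) + m (α d).1 e * b e := by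
      intro e
      by_cases he : e = d
      · rw [if_pos he, if_pos he]; ring
      · rw [if_neg he, if_neg he]; ring
    rw [Finset.sum_congr rfl fun e _ => h1 e, Finset.sum_add_distrib, Finset.sum_add_distrib,
      Finset.sum_ite_eq' Finset.univ d b, if_pos (Finset.mem_univ d)]
  rw [hs] at hz
  exact mcoh_move _ _ _ hz

end SN78
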