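import Pool.Agent.SN78.MCtx

/-!
# SN78 module MTE: flype equivalence of tangles is a congruence

`Rel.of_ciso`: `FlypeStep.iso` with `ov' (e v) = xor (ov v) (decide (c v = 1 ∨ c v = 3))`.
`TE.turn`: `join_turn`.  `TE.add_left`: `join (sum S T) R ≅ join S (sum T R)` (`join_assoc`) and `sum T R` is prime
(`PT.add`).  `TE.add_right`: `join_cyc`.  `TE.flype`: by definition of `FlypeStep.flype` (each function on
`(Unit ⊕ V) ⊕ R.V` is of the form `Sum.elim (Sum.elim (fun _ => x) o) o'`).  `TE.flype'`: `TE.flype` for `T.rfl'`, in the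
other direction (`EqvGen.symm`), `rfl'_rfl'`.
`TE.glue_one`: `join_glue` for `β` and for `Function.update β X S`; the context is the same:
`(fun Y : {Y // Y ≠ X} => Function.update β X S Y.1) = fun Y => β Y.1`; it is prime by `ctxA_pmap`, `PT.glue`.
`TE.glue`: change one `X` after the other (induction on a finite set `s ⊆ F`: the tangles are changed for
`X ∈ s`).
-/

namespace SN78

open Sum

section
variable {W W' W'' : Type} {σ : W × ZMod 4 → W × ZMod 4} {σ' : W' × ZMod 4 → W' × ZMod 4}
  {σ'' : W'' × ZMod 4 → W'' × ZMod 4}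

theorem Rel.refl (σ : W × ZMod 4 → W × ZMod 4) : Rel σ σ :=
  fun ov => ⟨ov, Relation.EqvGen.refl _⟩

theorem Rel.trans (h : Rel σ σ') (h' : Rel σ' σ'') : Rel σ σ'' := by
  intro ov
  obtain ⟨ov', h1⟩ := h ov
  obtain ⟨ov'', h2⟩ := h' ov'
  exact ⟨ov'', Relation.EqvGen.trans _ _ _ h1 h2⟩

theorem Rel.of_ciso (h : CIso σ σ') : Rel σ σ' := by
  obtain ⟨e, c, h⟩ := h
  intro ov
  refine ⟨fun w => xor (ov (e.symm w)) (decide (c (e.symm w) = 1 ∨ c (e.symm w) = 3)),
    Relation.EqvGen.rel _ _ (FlypeStep.iso e c h fun v => ?_)⟩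
  show xor (ov (e.symm (e v))) (decide (c (e.symm (e v)) = 1 ∨ c (e.symm (e v)) = 3)) = _
  rw [Equiv.symm_apply_apply]

end

namespace Tn

theorem TE.refl (T : Tn) : T.TE T := fun _ _ => Rel.refl _

theorem TE.trans {S T U : Tn} (h : S.TE T) (h' : T.TE U) : S.TE U :=
  fun R hR => (h R hR).trans (h' R hR)

theorem TE.of_iso {S T : Tn} (h : S.Iso T) : S.TE T := fun R _ => Rel.of_ciso (h.join R)

theorem TE.turn {S T : Tn} (h : S.TE T) (hS : S.PT) (hT : T.PT) (k : ZMod 4) :
    (S.turn k).TE (T.turn k) := by
  intro R hR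
  show Rel (SN78.join (rot k S.α) R.α) (SN78.join (rot k T.α) R.α)
  rw [join_turn hS.proper hR.proper k, join_turn hT.proper hR.proper k]
  exact h (R.turn k) (hR.turn k)

theorem TE.add_left {S S' T : Tn} (h : S.TE S') (hS : S.PT) (hS' : S'.PT) (hT : T.PT) :
    (S.add T).TE (S'.add T) := by
  intro R hR
  exact ((Rel.of_ciso (join_assoc hS.proper hT.proper hR.proper)).trans
    (h (T.add R) (hT.add hR))).trans
    (Rel.of_ciso (join_assoc hS'.proper hT.proper hR.proper).symm)

theorem TE.add_right {S T T' : Tn} (h : T.TE T') (hS : S.PT) (hT : T.PT) (hT' : T'.PT) :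
    (S.add T).TE (S.add T') := by
  intro R hR
  exact ((Rel.of_ciso (join_cyc hS.proper hT.proper hR.proper)).trans
    (h (R.add S) (hR.add hS))).trans
    (Rel.of_ciso (join_cyc hS.proper hT'.proper hR.proper).symm)

theorem TE.flype {T : Tn} (hT : T.PT) : (Tn.one.add T).TE (T.rfl'.add Tn.one) := by
  intro R hR ov
  refine ⟨Sum.elim (Sum.elim (fun v => ov (inl (inr v))) (fun _ => ov (inl (inl ()))))
    (fun v => ov (inr v)), Relation.EqvGen.rel _ _ ?_⟩
  have h := FlypeStep.flype T R hT hR (ov (inl (inl ()))) (fun v => ov (inl (inr v)))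
    (fun v => ov (inr v))
  have h1 : Sum.elim (Sum.elim (fun _ : Unit => ov (inl (inl ()))) (fun v => ov (inl (inr v))))
      (fun v => ov (inr v)) = ov := by
    funext v
    rcases v with (v | v) | v <;> rfl
  rw [h1] at h
  exact h

theorem TE.flype' {T : Tn} (hT : T.PT) : (T.add Tn.one).TE (Tn.one.add T.rfl') := by
  intro R hR ov
  refine ⟨Sum.elim (Sum.elim (fun _ => ov (inl (inr ()))) (fun v => ov (inl (inl v))))
    (fun v => ov (inr v)), Relation.EqvGen.symm _ _ (Relation.EqvGen.rel _ _ ?_)⟩
  have h : FlypeStep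
      ⟨(Unit ⊕ T.V) ⊕ R.V, SN78.join (sum single (SN78.refl T.α)) R.α,
        Sum.elim (Sum.elim (fun _ => ov (inl (inr ()))) (fun v => ov (inl (inl v))))
          (fun v => ov (inr v))⟩
      ⟨(T.V ⊕ Unit) ⊕ R.V, SN78.join (sum (SN78.refl (SN78.refl T.α)) single) R.α,
        Sum.elim (Sum.elim (fun v => ov (inl (inl v))) (fun _ => ov (inl (inr ()))))
          (fun v => ov (inr v))⟩ :=
    FlypeStep.flype T.rfl' R hT.rfl' hR (ov (inl (inr ()))) (fun v => ov (inl (inl v)))
      (fun v => ov (inr v))
  have h1 : Sum.elim (Sum.elim (fun v => ov (inl (inl v))) (fun _ : Unit => ov (inl (inr ()))))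
      (fun v => ov (inr v)) = ov := by
    funext v
    rcases v with (v | v) | v <;> rfl
  rw [h1, refl_refl] at h
  exact h

theorem TE.glue_one {V F : Type} [Fintype V] [Fintype F] [DecidableEq F]
    {αp : SD V F Unit → SD V F Unit} (hp : PMap (cls αp)) {β : F → Tn} (hβ : ∀ X, (β X).PT) (X : F)
    {S : Tn} (hS : S.PT) (h : (β X).TE S) :
    (Tn.glue αp β).TE (Tn.glue αp (Function.update β X S)) := by
  intro R hR
  have hβ' : ∀ Y, (Function.update β X S Y).PT := by
    intro Y
    by_cases hY : Y = X
    · subst hY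
      rw [Function.update_self]
      exact hS
    · rw [Function.update_of_ne hY]
      exact hβ Y
  have hc : (fun Y : {Y // Y ≠ X} => Function.update β X S Y.1) = fun Y => β Y.1 := by
    funext Y
    exact Function.update_of_ne Y.2 _ _
  have h1 := join_glue hp hβ X hR
  have h2 := join_glue hp hβ' X hR
  rw [hc, Function.update_self] at h2
  have hC : (Tn.glue (ctxA αp X) (ctxT (fun Y : {Y // Y ≠ X} => β Y.1) R)).PT := by
    refine PT.glue (ctxA_pmap hp X) fun Z => ?_
    cases Z with
    | none => exact hR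
    | some Y => exact hβ Y.1
  exact ((Rel.of_ciso h1).trans (h _ hC)).trans (Rel.of_ciso h2.symm)

theorem TE.glue {V F : Type} [Fintype V] [Fintype F] {αp : SD V F Unit → SD V F Unit}
    (hp : PMap (cls αp)) {β γ : F → Tn} (hβ : ∀ X, (β X).PT) (hγ : ∀ X, (γ X).PT)
    (h : ∀ X, (β X).TE (γ X)) : (Tn.glue αp β).TE (Tn.glue αp γ) := by
  classical
  have key : ∀ s : Finset F,
      (Tn.glue αp β).TE (Tn.glue αp (fun X => if X ∈ s then γ X else β X)) := by
    intro s
    induction s using Finset.induction_on with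
    | empty =>
      have h0 : (fun X => if X ∈ (∅ : Finset F) then γ X else β X) = β := by
        funext X
        simp
      rw [h0]
      exact TE.refl _
    | insert a s ha ih =>
      refine ih.trans ?_
      have h1 : (fun X => if X ∈ insert a s then γ X else β X) =
          Function.update (fun X => if X ∈ s then γ X else β X) a (γ a) := by
        funext X
        by_cases hX : X = a
        · subst hX
          rw [Function.update_self, if_pos (Finset.mem_insert_self _ _)]
        · rw [Function.update_of_ne hX]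
          simp only [Finset.mem_insert, hX, false_or]
      rw [h1]
      refine TE.glue_one hp (fun X => ?_) a (hγ a) ?_
      · by_cases hX : X ∈ s
        · simp only [hX, if_true]
          exact hγ X
        · simp only [hX, if_false]
          exact hβ X
      · simp only [ha, if_false]
        exact h a
  have h1 := key Finset.univ
  have h2 : (fun X => if X ∈ (Finset.univ : Finset F) then γ X else β X) = γ := by
    funext X
    simp
  rw [h2] at h1
  exact h1

end Tn

end SN78
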