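import Pool.Agent.SN78.MRows
import Pool.Agent.SN78.MTE

/-!
# SN78 module MCOMB: flypes collect the crossings of a row on the left

`rs_congr`: if `rs M` and `rs M'` are flype equivalent (`M, M'` nonempty, all tangles prime) then so are
`rs (P ++ M ++ Q)` and `rs (P ++ M' ++ Q)`: `rs_append`, `TE.add_left`, `TE.add_right`, `TE.of_iso`.
`move_one`: `rs (L ++ [one])` is flype equivalent to `rs (one :: L.map rfl')` for a nonempty list `L` of prime
tangles.  Induction: `L = [e]`: `TE.flype'`.  `L = e :: L'`: `rs (e :: L' ++ [one]) = e.add (rs (L' ++ [one]))`, by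
induction and `TE.add_right` it is equivalent to `e.add (rs (one :: L'.map rfl'))`, isomorphic with
`(e.add one).add (rs (L'.map rfl'))` (`add_assoc`), by `TE.flype'`, `TE.add_left` equivalent to
`(one.add e.rfl').add (rs (L'.map rfl'))`, isomorphic with `rs (one :: e.rfl' :: L'.map rfl')`.
`move_many`: by induction on `a₂` (for all `L₁`): there is `L₁'` of the same length, with the same clasps, all `GE`,
the same sum of cardinalities, such that `rs (ones a₁ ++ L₁ ++ ones a₂ ++ L₂)` is equivalent to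
`rs (ones (a₁ + a₂) ++ L₁' ++ L₂)`: if `L₁ = []` take `L₁' = []`; otherwise move one crossing through `L₁` by
`move_one` and `rs_congr` (`L₁` becomes `L₁.map (fun p => (p.1, p.2.rfl'))`, `GE.refl`).
`combine`: `rs_append` for the two rows and `move_many`; `L = L₁' ++ L₂`.
-/

namespace SN78

open Sum

private theorem mcomb_cons {S : Tn} {M : List Tn} (hM : M ≠ []) : rs (S :: M) = S.add (rs M) := by
  cases M with
  | nil => exact absurd rfl hM
  | cons T M => rfl

private theorem mcomb_right {Q M M' : List Tn} (hM : M ≠ []) (hM' : M' ≠ [])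
    (hQ : ∀ T ∈ Q, T.PT) (h : ∀ T ∈ M, T.PT) (h' : ∀ T ∈ M', T.PT) (hTE : (rs M).TE (rs M')) :
    (rs (M ++ Q)).TE (rs (M' ++ Q)) := by
  by_cases hq : Q = []
  · subst hq
    rw [List.append_nil, List.append_nil]
    exact hTE
  · have h1 := rs_append hM hq (fun T hT => (h T hT).proper) (fun T hT => (hQ T hT).proper)
    have h2 := rs_append hM' hq (fun T hT => (h' T hT).proper) (fun T hT => (hQ T hT).proper)
    exact (Tn.TE.of_iso h1.symm).trans
      ((hTE.add_left (rs_pt h) (rs_pt h') (rs_pt hQ)).trans (Tn.TE.of_iso h2))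

private theorem mcomb_left {P M M' : List Tn} (hM : M ≠ []) (hM' : M' ≠ [])
    (hP : ∀ T ∈ P, T.PT) (h : ∀ T ∈ M, T.PT) (h' : ∀ T ∈ M', T.PT) (hTE : (rs M).TE (rs M')) :
    (rs (P ++ M)).TE (rs (P ++ M')) := by
  by_cases hp : P = []
  · subst hp
    rw [List.nil_append, List.nil_append]
    exact hTE
  · have h1 := rs_append hp hM (fun T hT => (hP T hT).proper) (fun T hT => (h T hT).proper)
    have h2 := rs_append hp hM' (fun T hT => (hP T hT).proper) (fun T hT => (h' T hT).proper)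
    exact (Tn.TE.of_iso h1.symm).trans
      ((hTE.add_right (rs_pt hP) (rs_pt h) (rs_pt h')).trans (Tn.TE.of_iso h2))

private theorem mcomb_mem {L M : List Tn} (h : ∀ T ∈ L, T.PT) (h' : ∀ T ∈ M, T.PT) :
    ∀ T ∈ L ++ M, T.PT := by
  intro T hT
  rcases List.mem_append.1 hT with h1 | h1
  · exact h T h1
  · exact h' T h1

theorem rs_congr {P Q M M' : List Tn} (hM : M ≠ []) (hM' : M' ≠ []) (hP : ∀ T ∈ P, T.PT)
    (hQ : ∀ T ∈ Q, T.PT) (h : ∀ T ∈ M, T.PT) (h' : ∀ T ∈ M', T.PT) (hTE : (rs M).TE (rs M')) :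
    (rs (P ++ M ++ Q)).TE (rs (P ++ M' ++ Q)) := by
  rw [List.append_assoc, List.append_assoc]
  exact mcomb_left (by simp [hM]) (by simp [hM']) hP (mcomb_mem h hQ) (mcomb_mem h' hQ)
    (mcomb_right hM hM' hQ h h' hTE)

private theorem mcomb_map {L : List Tn} (h : ∀ T ∈ L, T.PT) : ∀ T ∈ L.map Tn.rfl', T.PT := by
  intro T hT
  obtain ⟨S, hS, rfl⟩ := List.mem_map.1 hT
  exact (h S hS).rfl'

private theorem mcomb_one : ∀ T ∈ [Tn.one], T.PT := by
  intro T hT
  rw [List.mem_singleton.1 hT]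
  exact Tn.one_pt

theorem move_one {L : List Tn} (hL : L ≠ []) (h : ∀ T ∈ L, T.PT) :
    (rs (L ++ [Tn.one])).TE (rs (Tn.one :: L.map Tn.rfl')) := by
  induction L with
  | nil => exact absurd rfl hL
  | cons e L ih =>
    have he : e.PT := h e (by simp)
    have hL' : ∀ T ∈ L, T.PT := fun T hT => h T (List.mem_cons_of_mem _ hT)
    by_cases hn : L = []
    · subst hn
      exact Tn.TE.flype' he
    · have hm : L.map Tn.rfl' ≠ [] := by simpa using hn
      have h1 := ih hn hL'
      have h2 : rs (e :: L ++ [Tn.one]) = e.add (rs (L ++ [Tn.one])) :=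
        mcomb_cons (M := L ++ [Tn.one]) (by simp)
      have h3 : rs (Tn.one :: (e :: L).map Tn.rfl')
          = Tn.one.add (e.rfl'.add (rs (L.map Tn.rfl'))) := by
        rw [mcomb_cons (by simp), List.map_cons, mcomb_cons hm]
      have h4 : rs (Tn.one :: L.map Tn.rfl') = Tn.one.add (rs (L.map Tn.rfl')) := mcomb_cons hm
      have hp1 : (rs (L ++ [Tn.one])).PT := rs_pt (mcomb_mem hL' mcomb_one)
      have hp2 : (rs (L.map Tn.rfl')).PT := rs_pt (mcomb_map hL')
      rw [h4] at h1
      rw [h2, h3]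
      have s1 := h1.add_right he hp1 (Tn.PT.add Tn.one_pt hp2)
      have s2 := Tn.TE.of_iso
        (Tn.add_assoc e Tn.one (rs (L.map Tn.rfl')) he.proper Tn.one_pt.proper hp2.proper).symm
      have s3 := (Tn.TE.flype' he).add_left (Tn.PT.add he Tn.one_pt) (Tn.PT.add Tn.one_pt he.rfl') hp2
      have s4 := Tn.TE.of_iso
        (Tn.add_assoc Tn.one e.rfl' (rs (L.map Tn.rfl')) Tn.one_pt.proper he.rfl'.proper hp2.proper)
      exact s1.trans (s2.trans (s3.trans s4))

private theorem mcomb_rep (a : ℕ) : ∀ T ∈ List.replicate a Tn.one, T.PT := by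
  intro T hT
  rw [List.eq_of_mem_replicate hT]
  exact Tn.one_pt

private theorem mcomb_ge {L : List (Bool × Tn)} (h : ∀ p ∈ L, GE p.1 p.2) :
    ∀ T ∈ L.map Prod.snd, T.PT := by
  intro T hT
  obtain ⟨p, hp, rfl⟩ := List.mem_map.1 hT
  exact (h p hp).pt

private def mcombS (L : List Tn) : ℕ := (L.map (fun T => Fintype.card T.V)).sum

private theorem mcombS_append (L M : List Tn) : mcombS (L ++ M) = mcombS L + mcombS M := by
  simp [mcombS]

private theorem mcombS_rep (a : ℕ) : mcombS (List.replicate a Tn.one) = a := by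
  have h1 : Fintype.card Tn.one.V = 1 := Fintype.card_unit
  simp [mcombS, h1]

private theorem mcomb_many {L₂ : List (Bool × Tn)} (h₂ : ∀ p ∈ L₂, GE p.1 p.2) (a₂ : ℕ) :
    ∀ (a₁ : ℕ) (L₁ : List (Bool × Tn)), (∀ p ∈ L₁, GE p.1 p.2) →
    ∃ L : List (Bool × Tn), (∀ p ∈ L, GE p.1 p.2) ∧ L.length = L₁.length ∧
      cl L = cl L₁ ∧ mcombS (L.map Prod.snd) = mcombS (L₁.map Prod.snd) ∧
      (rs ((List.replicate a₁ Tn.one ++ L₁.map Prod.snd) ++
          (List.replicate a₂ Tn.one ++ L₂.map Prod.snd))).TE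
        (rs (List.replicate (a₁ + a₂) Tn.one ++ (L.map Prod.snd ++ L₂.map Prod.snd))) := by
  induction a₂ with
  | zero =>
    intro a₁ L₁ h₁
    refine ⟨L₁, h₁, rfl, rfl, rfl, ?_⟩
    rw [List.replicate_zero, List.nil_append, List.append_assoc, Nat.add_zero]
    exact Tn.TE.refl _
  | succ a ih =>
    intro a₁ L₁ h₁
    obtain ⟨L, g1, g2, g3, g4, g5⟩ := ih (a₁ + 1) (L₁.map (fun p => (p.1, p.2.rfl'))) (by
      intro p hp
      obtain ⟨q, hq, rfl⟩ := List.mem_map.1 hp
      exact (h₁ q hq).refl)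
    refine ⟨L, g1, ?_, ?_, ?_, ?_⟩
    · rw [g2, List.length_map]
    · rw [g3]
      simp [cl, List.countP_map, Function.comp_def]
    · rw [g4]
      simp only [mcombS, List.map_map]
      rfl
    · have e1 : (List.replicate a₁ Tn.one ++ L₁.map Prod.snd) ++
          (List.replicate (a + 1) Tn.one ++ L₂.map Prod.snd) =
          List.replicate a₁ Tn.one ++ (L₁.map Prod.snd ++ [Tn.one]) ++
          (List.replicate a Tn.one ++ L₂.map Prod.snd) := by
        simp [List.replicate_succ]
      have e2 : (List.replicate (a₁ + 1) Tn.one ++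
          (L₁.map (fun p => (p.1, p.2.rfl'))).map Prod.snd) ++
          (List.replicate a Tn.one ++ L₂.map Prod.snd) =
          List.replicate a₁ Tn.one ++ (Tn.one :: (L₁.map Prod.snd).map Tn.rfl') ++
          (List.replicate a Tn.one ++ L₂.map Prod.snd) := by
        rw [List.replicate_succ']
        simp [List.map_map, Function.comp_def]
      have e3 : a₁ + 1 + a = a₁ + (a + 1) := by omega
      rw [e2, e3] at g5
      rw [e1]
      refine Tn.TE.trans (rs_congr (by simp) (by simp) (mcomb_rep a₁)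
        (mcomb_mem (mcomb_rep a) (mcomb_ge h₂)) (mcomb_mem (mcomb_ge h₁) mcomb_one) ?_ ?_) g5
      · intro T hT
        rcases List.mem_cons.1 hT with rfl | hT
        · exact Tn.one_pt
        · exact mcomb_map (mcomb_ge h₁) T hT
      · by_cases hn : L₁ = []
        · subst hn
          exact Tn.TE.refl _
        · exact move_one (by simpa using hn) (mcomb_ge h₁)

theorem combine {a₁ a₂ : ℕ} {L₁ L₂ : List (Bool × Tn)} (h₁ : ∀ p ∈ L₁, GE p.1 p.2)
    (h₂ : ∀ p ∈ L₂, GE p.1 p.2) (n₁ : 1 ≤ a₁ + L₁.length) (n₂ : 1 ≤ a₂ + L₂.length) :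
    ∃ L : List (Bool × Tn), (∀ p ∈ L, GE p.1 p.2) ∧ L.length = L₁.length + L₂.length ∧
      cl L = cl L₁ + cl L₂ ∧ ((rowT a₁ L₁).add (rowT a₂ L₂)).TE (rowT (a₁ + a₂) L) ∧
      Fintype.card (rowT (a₁ + a₂) L).V =
        Fintype.card (rowT a₁ L₁).V + Fintype.card (rowT a₂ L₂).V := by
  obtain ⟨L, g1, g2, g3, g4, g5⟩ := mcomb_many h₂ a₂ a₁ L₁ h₁
  have hne : ∀ (a : ℕ) (M : List (Bool × Tn)), 1 ≤ a + M.length →
      List.replicate a Tn.one ++ M.map Prod.snd ≠ [] := by
    intro a M hM he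
    have h3 := congrArg List.length he
    rw [List.length_append, List.length_replicate, List.length_map, List.length_nil] at h3
    omega
  have hcard : ∀ (a : ℕ) (M : List (Bool × Tn)), 1 ≤ a + M.length →
      Fintype.card (rowT a M).V = a + mcombS (M.map Prod.snd) := by
    intro a M hM
    have h3 := rs_card (hne a M hM)
    have h4 := mcombS_append (List.replicate a Tn.one) (M.map Prod.snd)
    rw [mcombS_rep] at h4
    rw [← h4]
    exact h3
  refine ⟨L ++ L₂, ?_, ?_, ?_, ?_, ?_⟩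
  · intro p hp
    rcases List.mem_append.1 hp with h | h
    · exact g1 p h
    · exact h₂ p h
  · rw [List.length_append, g2]
  · rw [cl, List.countP_append]
    have e1 : L.countP (fun p => p.1) = cl L := rfl
    have e2 : L₂.countP (fun p => p.1) = cl L₂ := rfl
    rw [e1, e2, g3]
  · have e1 : rowT (a₁ + a₂) (L ++ L₂) =
        rs (List.replicate (a₁ + a₂) Tn.one ++ (L.map Prod.snd ++ L₂.map Prod.snd)) := by
      rw [rowT, List.map_append]
    rw [e1]
    refine Tn.TE.trans (Tn.TE.of_iso ?_) g5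
    exact rs_append (hne a₁ L₁ n₁) (hne a₂ L₂ n₂)
      (fun T hT => (mcomb_mem (mcomb_rep a₁) (mcomb_ge h₁) T hT).proper)
      (fun T hT => (mcomb_mem (mcomb_rep a₂) (mcomb_ge h₂) T hT).proper)
  · rw [hcard _ _ n₁, hcard _ _ n₂, hcard _ _ (by rw [List.length_append, g2]; omega),
      List.map_append, mcombS_append, g4]
    omega

end SN78
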