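import Pool.Agent.SN78.MBd

/-!
# SN78 module MCONTR: contractions of prime plane maps are prime plane maps

`tjoin`: the set of functions `t` (restricted to `A`) for which there is such a `c` is closed under addition.
By `conn_in` it contains `Pi.single x 1 + Pi.single y 1` for all `x, y ∈ A` (for a dart `d` with both sites in `A`
take the indicator of `{d, α d}`); each `t` with even sum over `A` is a sum of such functions (fix `x₀ ∈ A`; `t = ∑_{y ∈ A} t y • (single x₀ 1 + single y 1)` on `A`).  If `A` is empty take `c = 0`.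

`Contr.cut`: the darts leaving the union are the `ι e` with `e` leaving `B`, by `bd.mem`, `com`, `part` and the
injectivity of `ι` (`ι_inj`: `(ι (z, i)).1 ∈ A z`).
`Contr.pmap`: `inv`: `ι (τ (τ e)) = σ (σ (ι e)) = ι e`.  `cut4`: `Contr.cut`; the union is nonempty and not
everything (`(ι (z, 0)).1 ∈ A z`).
`hom`: let `c` be a cycle on `τ`.  Define `c₀` on `W` by `c₀ (ι e) = c e` and `0` elsewhere; it is
`σ`-invariant.  For each `z` let `t_z v = ∑ i, c₀ (v, i)` for `v ∈ A z`; `∑_{v ∈ A z} t_z v = ∑ i, c (z, i) = 0`.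
(each `ι (z, i)` is a dart of a site in `A z`, and all darts of `A z` in the range of `ι` are of this form.)
By `tjoin` there is `c_z`; `c₀ + ∑ z, c_z` is a cycle on `σ`.  So there is a face function `w` with
`w d + w (pv d) = (c₀ + ∑ c_z) d`.  Let `w' e = w (ι e)`.
Face function: `fs τ e = pv (τ e)`; let `τ e = (z, j + 1)`; `ι (τ e) = σ (ι e)`, `fs τ e = (z, j)`.  By `inw` the walk
from `σ (ι (z, j + 1)) = ι e` comes to `ι (z, j)`, so `w (ι (z, j)) = w (ι e)`.
`w' e + w' (pv e) = c e`: `e = (z, i)`; `w (pv (ι e)) = w (fs σ (σ (ι e))) = w (σ (ι e))`, and by `inw` this is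
`w (ι (z, i - 1)) = w' (pv e)`; and `w (ι e) + w (pv (ι e)) = (c₀ + ∑ c_z) (ι e) = c e`, since `c_z (ι e) = 0`
(the dart `ι e` leaves its set, `part`).

`exists_contr`: `ι e = δ e.1 e.2`.  `σ (ι e)` is in some `A z'` and its image under `σ`, `ι e`, is not (since `ι e`
leaves `A e.1` and `z' ≠ e.1`); so `σ (ι e) = δ z' j` for some `j`.
-/

namespace SN78

section
variable {X : Type} [Fintype X] {α : X × ZMod 4 → X × ZMod 4}

theorem PMap.tjoin (h : PMap α) {A : Finset X} (h4 : cut α A = 4) (t : X → ZMod 2)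
    (ht : ∑ v ∈ A, t v = 0) :
    ∃ c : X × ZMod 4 → ZMod 2, (∀ d, c (α d) = c d) ∧ (∀ d, c d ≠ 0 → d.1 ∈ A ∧ (α d).1 ∈ A) ∧
      ∀ v ∈ A, ∑ i : ZMod 4, c (v, i) = t v := by
  classical
  rcases A.eq_empty_or_nonempty with hA | ⟨x₀, hx₀⟩
  · exact ⟨fun _ => 0, fun _ => rfl, fun d hd => absurd rfl hd, fun v hv => by
      rw [hA] at hv; exact absurd hv (Finset.notMem_empty v)⟩
  have key : ∀ y ∈ A, ∃ c : X × ZMod 4 → ZMod 2, (∀ d, c (α d) = c d) ∧
      (∀ d, c d ≠ 0 → d.1 ∈ A ∧ (α d).1 ∈ A) ∧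
      ∀ v, ∑ i : ZMod 4, c (v, i) = (if v = x₀ then 1 else 0) + (if v = y then 1 else 0) := by
    refine h.conn_in h4 (fun y => ∃ c : X × ZMod 4 → ZMod 2, (∀ d, c (α d) = c d) ∧
      (∀ d, c d ≠ 0 → d.1 ∈ A ∧ (α d).1 ∈ A) ∧
      ∀ v, ∑ i : ZMod 4, c (v, i) = (if v = x₀ then 1 else 0) + (if v = y then 1 else 0)) ?_ hx₀ ?_
    · rintro d hd ⟨c, hc1, hc2, hc3⟩ hd'
      refine ⟨fun e => c e + ((if e = d then 1 else 0) + (if e = α d then 1 else 0)), ?_, ?_, ?_⟩
      · intro e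
        have e1 : (α e = d) ↔ (e = α d) := by
          constructor
          · intro he; rw [← he, h.inv]
          · intro he; rw [he, h.inv]
        have e2 : (α e = α d) ↔ (e = d) := by
          constructor
          · intro he; rw [← h.inv e, he, h.inv]
          · intro he; rw [he]
        simp only [hc1, e1, e2]
        ring
      · intro e he
        by_cases h1 : e = d
        · rw [h1]; exact ⟨hd, hd'⟩
        · by_cases h2 : e = α d
          · rw [h2, h.inv]; exact ⟨hd', hd⟩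
          · simp only [if_neg h1, if_neg h2, add_zero] at he
            exact hc2 e he
      · intro v
        rw [Finset.sum_add_distrib, hc3, Finset.sum_add_distrib]
        have e3 : ∀ f : X × ZMod 4, ∑ i : ZMod 4, (if ((v, i) : X × ZMod 4) = f then (1 : ZMod 2) else 0)
            = if v = f.1 then 1 else 0 := by
          rintro ⟨x, j⟩
          by_cases hv : v = x
          · simp [hv]
          · simp [hv]
        rw [e3, e3]
        have e4 : ((if v = d.1 then (1 : ZMod 2) else 0) + (if v = d.1 then 1 else 0)) = 0 :=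
          CharTwo.add_self_eq_zero _
        linear_combination e4
    · refine ⟨fun _ => 0, fun _ => rfl, fun d hd => absurd rfl hd, fun v => ?_⟩
      rw [Finset.sum_const_zero]
      exact (CharTwo.add_self_eq_zero _).symm
  choose! c hc1 hc2 hc3 using key
  refine ⟨fun d => ∑ y ∈ A, t y * c y d, ?_, ?_, ?_⟩
  · intro d
    exact Finset.sum_congr rfl (fun y hy => by rw [hc1 y hy])
  · intro d hd
    obtain ⟨y, hy, hne⟩ := Finset.exists_ne_zero_of_sum_ne_zero hd
    exact hc2 y hy d (right_ne_zero_of_mul hne)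
  · intro v hv
    rw [Finset.sum_comm]
    have e1 : ∀ y ∈ A, ∑ i : ZMod 4, t y * c y (v, i)
        = t y * (if v = x₀ then 1 else 0) + t y * (if v = y then 1 else 0) := by
      intro y hy
      rw [← Finset.mul_sum, hc3 y hy]
      ring
    rw [Finset.sum_congr rfl e1, Finset.sum_add_distrib, ← Finset.sum_mul, ht, zero_mul, zero_add]
    simp [hv]

end

section
variable {W Z : Type} [Fintype W] [Fintype Z] {σ : W × ZMod 4 → W × ZMod 4}
  {τ : Z × ZMod 4 → Z × ZMod 4} {A : Z → Finset W} {ι : Z × ZMod 4 → W × ZMod 4}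

omit [Fintype W] [Fintype Z] in
private theorem mcontr_mem (hc : Contr σ τ A ι) (e : Z × ZMod 4) :
    (ι e).1 ∈ A e.1 ∧ (σ (ι e)).1 ∉ A e.1 :=
  ((hc.bd e.1).mem (ι e)).2 ⟨e.2, rfl⟩

omit [Fintype W] [Fintype Z] in
private theorem mcontr_uniq (hc : Contr σ τ A ι) {v : W} {z z' : Z} (h : v ∈ A z) (h' : v ∈ A z') :
    z = z' := (hc.part v).unique h h'

theorem Contr.ι_inj (hc : Contr σ τ A ι) : Function.Injective ι := by
  rintro ⟨z, i⟩ ⟨z', i'⟩ h
  have h1 := (mcontr_mem hc (z, i)).1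
  have h2 := (mcontr_mem hc (z', i')).1
  rw [← h] at h2
  have h3 : z = z' := mcontr_uniq hc h1 h2
  subst h3
  have h4 := (hc.bd z).inj h
  rw [h4]

theorem Contr.cut_eq [DecidableEq W] (hc : Contr σ τ A ι) (B : Finset Z) :
    cut τ B = cut σ (B.biUnion A) := by
  have hmem : ∀ (z : Z) (v : W), v ∈ A z → (v ∈ B.biUnion A ↔ z ∈ B) := by
    intro z v hv
    rw [Finset.mem_biUnion]
    constructor
    · rintro ⟨z', hz', hv'⟩
      rw [mcontr_uniq hc hv hv']; exact hz'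
    · intro hz
      exact ⟨z, hz, hv⟩
  have hι : ∀ e : Z × ZMod 4, ((ι e).1 ∈ B.biUnion A ∧ (σ (ι e)).1 ∉ B.biUnion A) ↔
      (e.1 ∈ B ∧ (τ e).1 ∉ B) := by
    intro e
    rw [hmem e.1 _ (mcontr_mem hc e).1, hc.com, hmem (τ e).1 _ (mcontr_mem hc (τ e)).1]
  unfold cut
  refine Nat.card_congr (Equiv.ofBijective
    (fun e : {e : Z × ZMod 4 // e.1 ∈ B ∧ (τ e).1 ∉ B} =>
      (⟨ι e.1, (hι e.1).2 e.2⟩ :
        {d : W × ZMod 4 // d.1 ∈ B.biUnion A ∧ (σ d).1 ∉ B.biUnion A})) ⟨?_, ?_⟩)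
  · intro e e' h
    exact Subtype.ext (hc.ι_inj (congrArg Subtype.val h))
  · rintro ⟨d, hd1, hd2⟩
    obtain ⟨z, hz, hdz⟩ := Finset.mem_biUnion.1 hd1
    have h1 : (σ d).1 ∉ A z := fun h => hd2 (Finset.mem_biUnion.2 ⟨z, hz, h⟩)
    obtain ⟨i, hi⟩ := ((hc.bd z).mem d).1 ⟨hdz, h1⟩
    subst hi
    exact ⟨⟨(z, i), (hι (z, i)).1 ⟨hd1, hd2⟩⟩, rfl⟩

private theorem mcontr_iter {w : W × ZMod 4 → ZMod 2} (hw : ∀ d, w (fs σ d) = w d) (n : ℕ)
    (d : W × ZMod 4) : w ((fs σ)^[n] d) = w d := by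
  induction n with
  | zero => rfl
  | succ n ih => rw [Function.iterate_succ_apply', hw, ih]

private theorem mcontr_hom (h : PMap σ) (hc : Contr σ τ A ι) : Hom τ := by
  classical
  intro c hcτ hcs
  have hinj := hc.ι_inj
  let c₀ : W × ZMod 4 → ZMod 2 := Function.extend ι c 0
  have hc₀ : ∀ e, c₀ (ι e) = c e := fun e => hinj.extend_apply c 0 e
  have hc₀' : ∀ d, (¬ ∃ e, ι e = d) → c₀ d = 0 := fun d hd =>
    Function.extend_apply' c (0 : W × ZMod 4 → ZMod 2) d hd
  have hc₀σ : ∀ d, c₀ (σ d) = c₀ d := by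
    intro d
    by_cases hd : ∃ e, ι e = d
    · obtain ⟨e, rfl⟩ := hd
      rw [hc.com, hc₀, hc₀, hcτ]
    · rw [hc₀' d hd, hc₀']
      rintro ⟨e, he⟩
      exact hd ⟨τ e, by rw [← hc.com, he, h.inv]⟩
  have hsum : ∀ z, ∑ v ∈ A z, ∑ i : ZMod 4, c₀ (v, i) = 0 := by
    intro z
    rw [← Finset.sum_product' (A z) Finset.univ (fun v i => c₀ (v, i))]
    have h1 : (Finset.univ.image (fun i : ZMod 4 => ι (z, i))) ⊆ A z ×ˢ (Finset.univ : Finset (ZMod 4)) := by
      intro d hd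
      obtain ⟨i, -, rfl⟩ := Finset.mem_image.1 hd
      rw [Finset.mem_product]
      exact ⟨(mcontr_mem hc (z, i)).1, Finset.mem_univ _⟩
    rw [← Finset.sum_subset h1 (f := fun d : W × ZMod 4 => c₀ (d.1, d.2))]
    · rw [Finset.sum_image (fun i _ j _ hij => (hc.bd z).inj hij)]
      rw [← hcs z]
      exact Finset.sum_congr rfl (fun i _ => hc₀ (z, i))
    · intro d hd hd'
      rw [Finset.mem_product] at hd
      apply hc₀'
      rintro ⟨⟨z', i⟩, he⟩
      have h2 := (mcontr_mem hc (z', i)).1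
      rw [he] at h2
      have h3 : z' = z := mcontr_uniq hc h2 hd.1
      subst h3
      exact hd' (Finset.mem_image.2 ⟨i, Finset.mem_univ _, he⟩)
  have hcz := fun z => h.tjoin (hc.bd z).cut (fun v => ∑ i : ZMod 4, c₀ (v, i)) (hsum z)
  choose cz hcz1 hcz2 hcz3 using hcz
  obtain ⟨w, hw1, hw2⟩ := h.hom (fun d => c₀ d + ∑ z, cz z d)
    (fun d => by simp only [hc₀σ, hcz1])
    (fun v => by
      rw [Finset.sum_add_distrib, Finset.sum_comm]
      obtain ⟨z₀, hz₀, -⟩ := hc.part v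
      rw [Finset.sum_eq_single z₀]
      · rw [hcz3 z₀ v hz₀]
        exact CharTwo.add_self_eq_zero _
      · intro z _ hz
        refine Finset.sum_eq_zero (fun i _ => ?_)
        by_contra hne
        exact hz (mcontr_uniq hc (hcz2 z _ hne).1 hz₀)
      · intro hz
        exact absurd (Finset.mem_univ _) hz)
  -- walking around inside of a contracted set
  have hwalk : ∀ z i, w (ι (z, i)) = w (σ (ι (z, i + 1))) := by
    intro z i
    obtain ⟨n, hn, -⟩ := (hc.bd z).inw i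
    rw [← hn]
    exact mcontr_iter hw1 n _
  refine ⟨fun e => w (ι e), ?_, ?_⟩
  · intro e
    show w (ι (pv (τ e))) = w (ι e)
    have h1 := hwalk (τ e).1 ((τ e).2 - 1)
    rw [sub_add_cancel] at h1
    have h2 : (((τ e).1, (τ e).2) : Z × ZMod 4) = τ e := rfl
    rw [h2, ← hc.com, h.inv] at h1
    exact h1
  · rintro ⟨z, i⟩
    show w (ι (z, i)) + w (ι (z, i - 1)) = c (z, i)
    have h1 := hwalk z (i - 1)
    rw [sub_add_cancel] at h1
    have h2 : w (σ (ι (z, i))) = w (pv (ι (z, i))) := by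
      rw [← hw1 (σ (ι (z, i)))]
      show w (pv (σ (σ (ι (z, i))))) = _
      rw [h.inv]
    rw [h1, h2, hw2, hc₀]
    have h3 : ∑ z', cz z' (ι (z, i)) = 0 := by
      refine Finset.sum_eq_zero (fun z' _ => ?_)
      by_contra hne
      have h4 := hcz2 z' _ hne
      have h5 := mcontr_mem hc (z, i)
      have h6 : z' = z := mcontr_uniq hc h4.1 h5.1
      subst h6
      exact h5.2 h4.2
    rw [h3, add_zero]

theorem Contr.pmap (h : PMap σ) (hc : Contr σ τ A ι) (hZ : 2 ≤ Fintype.card Z) : PMap τ := by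
  classical
  refine ⟨fun e => ?_, hZ, fun B hB hB' => ?_, mcontr_hom h hc⟩
  · apply hc.ι_inj
    rw [← hc.com, ← hc.com, h.inv]
  · rw [hc.cut_eq B]
    refine h.cut4 _ ?_ ?_
    · obtain ⟨z, hz⟩ := hB
      exact ⟨_, Finset.mem_biUnion.2 ⟨z, hz, (mcontr_mem hc (z, 0)).1⟩⟩
    · intro hu
      apply hB'
      ext z
      simp only [Finset.mem_univ, iff_true]
      have h1 : (ι (z, 0)).1 ∈ B.biUnion A := by rw [hu]; exact Finset.mem_univ _
      obtain ⟨z', hz', h2⟩ := Finset.mem_biUnion.1 h1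
      have h3 : z = z' := mcontr_uniq hc (mcontr_mem hc (z, 0)).1 h2
      rw [h3]
      exact hz'

theorem exists_contr (hi : ∀ d, σ (σ d) = d) (hp : ∀ v, ∃! z, v ∈ A z) (δ : Z → ZMod 4 → W × ZMod 4)
    (hb : ∀ z, Bd σ (A z) (δ z)) : ∃ τ, Contr σ τ A (fun e => δ e.1 e.2) := by
  have key : ∀ e : Z × ZMod 4, ∃ e' : Z × ZMod 4, σ (δ e.1 e.2) = δ e'.1 e'.2 := by
    intro e
    have h1 := ((hb e.1).mem (δ e.1 e.2)).2 ⟨e.2, rfl⟩
    obtain ⟨z', hz', -⟩ := hp (σ (δ e.1 e.2)).1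
    have h2 : (σ (σ (δ e.1 e.2))).1 ∉ A z' := by
      rw [hi]
      intro h3
      have h4 : e.1 = z' := (hp _).unique h1.1 h3
      rw [← h4] at hz'
      exact h1.2 hz'
    obtain ⟨j, hj⟩ := ((hb z').mem (σ (δ e.1 e.2))).1 ⟨hz', h2⟩
    exact ⟨(z', j), hj.symm⟩
  choose τ hτ using key
  exact ⟨τ, hp, hτ, hb⟩

end

end SN78
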