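import Pool.Agent.SN78.MIso

/-!
# SN78 module MJOIN: joining tangles

All isomorphisms have `c = 0` except the one in `join_single`, and the obvious bijections of the crossings.
`join_comm`: `1 - (1 - i) = i`.  `join_assoc`: for a dart `(v, i)` of `S` with `S (.x v i) = .o () j`:
for `j = 0, 3` it is continued by `T (.o () (1 - j))` on both sides, for `j = 1, 2` by `R (.o () (1 - j))`
(`Proper` says that ports lead to crossings).  `join_cyc`: `join_assoc`, `join_comm`, `join_assoc`.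
`join_turn`: equality: port `j` of `rot k T` is port `j - k` of `T`; port `i` of `T` is joined with port
`1 - (i + k)` of `R`, and this is port `1 - i` of `rot k R`.
`join_single`: `e (inl v) = some v`, `e (inr ()) = none`, `c (inl v) = 0`, `c (inr ()) = - 1`.
-/

namespace SN78

open Sum

private theorem MJ_cases (j : ZMod 4) : j = 0 ∨ j = 1 ∨ j = 2 ∨ j = 3 := by
  revert j; decide

private theorem MJ10 : (1 : ZMod 4) - 0 = 1 := by decide
private theorem MJ11 : (1 : ZMod 4) - 1 = 0 := by decide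
private theorem MJ12 : (1 : ZMod 4) - 2 = 3 := by decide
private theorem MJ13 : (1 : ZMod 4) - 3 = 2 := by decide
private theorem MJ02 : ¬ ((0 : ZMod 4) = 1 ∨ (0 : ZMod 4) = 2) := by decide
private theorem MJ32 : ¬ ((3 : ZMod 4) = 1 ∨ (3 : ZMod 4) = 2) := by decide
private theorem MJ1a : ((1 : ZMod 4) = 1 ∨ (1 : ZMod 4) = 2) := by decide
private theorem MJ2a : ((2 : ZMod 4) = 1 ∨ (2 : ZMod 4) = 2) := by decide
private theorem MJ0a : ((0 : ZMod 4) = 0 ∨ (0 : ZMod 4) = 3) := by decide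
private theorem MJ3a : ((3 : ZMod 4) = 0 ∨ (3 : ZMod 4) = 3) := by decide
private theorem MJ1b : ¬ ((1 : ZMod 4) = 0 ∨ (1 : ZMod 4) = 3) := by decide
private theorem MJ2b : ¬ ((2 : ZMod 4) = 0 ∨ (2 : ZMod 4) = 3) := by decide
private theorem MJ30 : ¬ ((3 : ZMod 4) = 0) := by decide
private theorem MJ21 : ¬ ((2 : ZMod 4) = 1) := by decide

section
variable {V₁ V₂ V₃ : Type}

/-! values of `lf` and `rg` -/

private theorem lf_x {α₂ : Tg V₂} (v : V₁) (i : ZMod 4) : lf α₂ (.x v i) = .x (inl v) i := rfl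

private theorem lf_0 {α₂ : Tg V₂} {w : V₂} {k : ZMod 4} (h : α₂ (.o () 1) = .x w k) (u : Unit) :
    lf (V₁ := V₁) α₂ (.o u 0) = .x (inr w) k := by
  simp [lf, h]

private theorem lf_3 {α₂ : Tg V₂} {w : V₂} {k : ZMod 4} (h : α₂ (.o () 2) = .x w k) (u : Unit) :
    lf (V₁ := V₁) α₂ (.o u 3) = .x (inr w) k := by
  simp [lf, MJ30, h]

private theorem lf_1 {α₂ : Tg V₂} (u : Unit) : lf (V₁ := V₁) α₂ (.o u 1) = .o () 1 := by
  simp only [lf, if_neg MJ1b]

private theorem lf_2 {α₂ : Tg V₂} (u : Unit) : lf (V₁ := V₁) α₂ (.o u 2) = .o () 2 := by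
  simp only [lf, if_neg MJ2b]

private theorem rg_x {α₁ : Tg V₁} (v : V₂) (i : ZMod 4) : rg α₁ (.x v i) = .x (inr v) i := rfl

private theorem rg_1 {α₁ : Tg V₁} {w : V₁} {k : ZMod 4} (h : α₁ (.o () 0) = .x w k) (u : Unit) :
    rg (V₂ := V₂) α₁ (.o u 1) = .x (inl w) k := by
  simp [rg, h]

private theorem rg_2 {α₁ : Tg V₁} {w : V₁} {k : ZMod 4} (h : α₁ (.o () 3) = .x w k) (u : Unit) :
    rg (V₂ := V₂) α₁ (.o u 2) = .x (inl w) k := by
  simp [rg, MJ21, h]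

private theorem rg_0 {α₁ : Tg V₁} (u : Unit) : rg (V₂ := V₂) α₁ (.o u 0) = .o () 0 := by
  simp only [rg, if_neg MJ02]

private theorem rg_3 {α₁ : Tg V₁} (u : Unit) : rg (V₂ := V₂) α₁ (.o u 3) = .o () 3 := by
  simp only [rg, if_neg MJ32]

private theorem sum_xl {α : Tg V₁} {β : Tg V₂} (v : V₁) (i : ZMod 4) :
    SN78.sum α β (.x (inl v) i) = lf β (α (.x v i)) := rfl

private theorem sum_xr {α : Tg V₁} {β : Tg V₂} (v : V₂) (i : ZMod 4) :
    SN78.sum α β (.x (inr v) i) = rg α (β (.x v i)) := rfl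

private theorem sum_1 {α : Tg V₁} {β : Tg V₂} (u : Unit) :
    SN78.sum α β (.o u 1) = lf β (α (.o () 1)) := by
  simp [SN78.sum]

private theorem sum_2 {α : Tg V₁} {β : Tg V₂} (u : Unit) :
    SN78.sum α β (.o u 2) = lf β (α (.o () 2)) := by
  simp [SN78.sum]

private theorem sum_0 {α : Tg V₁} {β : Tg V₂} (u : Unit) :
    SN78.sum α β (.o u 0) = rg α (β (.o () 0)) := by
  simp only [SN78.sum, if_neg MJ02]

private theorem sum_3 {α : Tg V₁} {β : Tg V₂} (u : Unit) :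
    SN78.sum α β (.o u 3) = rg α (β (.o () 3)) := by
  simp only [SN78.sum, if_neg MJ32]

theorem join_comm {α : Tg V₁} {β : Tg V₂} : CIso (join α β) (join β α) := by
  refine ⟨Equiv.sumComm V₁ V₂, fun _ => 0, ?_⟩
  rintro (v | v) i
  · simp only [Equiv.sumComm_apply, Sum.swap_inl, add_zero, join]
    rcases hα : α (.x v i) with ⟨w, j⟩ | ⟨e, _⟩ | ⟨u, j⟩
    · simp
    · exact e.elim
    · rcases hβ : β (.o () (1 - j)) with ⟨w, k⟩ | ⟨e, _⟩ | ⟨u, k⟩
      · simp [hβ]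
      · exact e.elim
      · simp [hβ]
  · simp only [Equiv.sumComm_apply, Sum.swap_inr, add_zero, join]
    rcases hβ : β (.x v i) with ⟨w, j⟩ | ⟨e, _⟩ | ⟨u, j⟩
    · simp
    · exact e.elim
    · rcases hα : α (.o () (1 - j)) with ⟨w, k⟩ | ⟨e, _⟩ | ⟨u, k⟩
      · simp [hα]
      · exact e.elim
      · simp [hα]

theorem join_assoc {α : Tg V₁} {β : Tg V₂} {γ : Tg V₃} (hα : Proper α) (hβ : Proper β)
    (hγ : Proper γ) : CIso (join (sum α β) γ) (join α (sum β γ)) := by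
  obtain ⟨wa0, ka0, a0⟩ := hα 0
  obtain ⟨wa1, ka1, a1⟩ := hα 1
  obtain ⟨wa2, ka2, a2⟩ := hα 2
  obtain ⟨wa3, ka3, a3⟩ := hα 3
  obtain ⟨wb0, kb0, b0⟩ := hβ 0
  obtain ⟨wb1, kb1, b1⟩ := hβ 1
  obtain ⟨wb2, kb2, b2⟩ := hβ 2
  obtain ⟨wb3, kb3, b3⟩ := hβ 3
  obtain ⟨wc0, kc0, c0⟩ := hγ 0
  obtain ⟨wc1, kc1, c1⟩ := hγ 1
  obtain ⟨wc2, kc2, c2⟩ := hγ 2
  obtain ⟨wc3, kc3, c3⟩ := hγ 3
  refine ⟨Equiv.sumAssoc V₁ V₂ V₃, fun _ => 0, ?_⟩
  rintro ((v | v) | v) i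
  · simp only [Equiv.sumAssoc_apply_inl_inl, add_zero, join, sum_xl]
    rcases h : α (.x v i) with ⟨w, j⟩ | ⟨e, _⟩ | ⟨u, j⟩
    · simp [lf_x]
    · exact e.elim
    · rcases MJ_cases j with rfl | rfl | rfl | rfl
      · simp [lf_0 b1, MJ10, sum_1, b1, lf_x]
      · simp [lf_1, MJ11, sum_0, c0, rg_x]
      · simp [lf_2, MJ12, sum_3, c3, rg_x]
      · simp [lf_3 b2, MJ13, sum_2, b2, lf_x]
  · simp only [Equiv.sumAssoc_apply_inl_inr, add_zero, join, sum_xr, sum_xl]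
    rcases h : β (.x v i) with ⟨w, j⟩ | ⟨e, _⟩ | ⟨u, j⟩
    · simp [lf_x, rg_x]
    · exact e.elim
    · rcases MJ_cases j with rfl | rfl | rfl | rfl
      · simp [rg_0, MJ10, lf_0 c1, c1]
      · simp [rg_1 a0, MJ11, lf_1, a0]
      · simp [rg_2 a3, MJ12, lf_2, a3]
      · simp [rg_3, MJ13, lf_3 c2, c2]
  · simp only [Equiv.sumAssoc_apply_inr, add_zero, join, sum_xr]
    rcases h : γ (.x v i) with ⟨w, j⟩ | ⟨e, _⟩ | ⟨u, j⟩
    · simp [rg_x]
    · exact e.elim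
    · rcases MJ_cases j with rfl | rfl | rfl | rfl
      · simp [rg_0, MJ10, sum_1, a1, lf_x]
      · simp [rg_1 b0, MJ11, sum_0, b0, rg_x]
      · simp [rg_2 b3, MJ12, sum_3, b3, rg_x]
      · simp [rg_3, MJ13, sum_2, a2, lf_x]

theorem join_cyc {α : Tg V₁} {β : Tg V₂} {γ : Tg V₃} (hα : Proper α) (hβ : Proper β)
    (hγ : Proper γ) : CIso (join (sum α β) γ) (join β (sum γ α)) :=
  ((join_assoc hα hβ hγ).trans join_comm).trans (join_assoc hβ hγ hα)

private theorem rot_x {α : Tg V₁} (k : ZMod 4) (v : V₁) (i : ZMod 4) :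
    rot k α (.x v i) = rel id (fun _ => 0) k (α (.x v i)) := by
  simp only [rot, rel, id, add_zero]

private theorem rot_o {α : Tg V₁} (k : ZMod 4) (u : Unit) (i : ZMod 4) :
    rot k α (.o u i) = rel id (fun _ => 0) k (α (.o () (i - k))) := by
  simp only [rot, rel, sub_eq_add_neg]

theorem join_turn {α : Tg V₁} {β : Tg V₂} (hα : Proper α) (hβ : Proper β) (k : ZMod 4) :
    join (rot k α) β = join α (rot k β) := by
  funext ⟨v, i⟩
  rcases v with v | v
  · simp only [join, rot_x, rot_o]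
    rcases h : α (.x v i) with ⟨w, j⟩ | ⟨e, _⟩ | ⟨u, j⟩
    · simp only [rel, id, add_zero]
    · exact e.elim
    · simp only [rel]
      have e1 : 1 - (j + k) = 1 - j - k := by ring
      rw [e1]
      rcases h' : β (.o () (1 - j - k)) with ⟨w, l⟩ | ⟨e, _⟩ | ⟨u, l⟩
      · simp only [rel, id, add_zero]
      · exact e.elim
      · simp only [rel]
  · simp only [join, rot_x, rot_o]
    rcases h : β (.x v i) with ⟨w, j⟩ | ⟨e, _⟩ | ⟨u, j⟩
    · simp only [rel, id, add_zero]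
    · exact e.elim
    · simp only [rel]
      have e1 : 1 - (j + k) = 1 - j - k := by ring
      rw [e1]
      rcases h' : α (.o () (1 - j - k)) with ⟨w, l⟩ | ⟨e, _⟩ | ⟨u, l⟩
      · simp only [rel, id, add_zero]
      · exact e.elim
      · simp only [rel]

/-- the bijection for `join_single` -/
private def MJ_e (V : Type) : V ⊕ Unit ≃ Option V where
  toFun
    | inl v => some v
    | inr _ => none
  invFun
    | some v => inl v
    | none => inr ()
  left_inv := by rintro (v | v) <;> rfl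
  right_inv := by rintro (_ | v) <;> rfl

theorem join_single {α : Tg V₁} (hα : Proper α) : CIso (join α single) (closeA α) := by
  refine ⟨MJ_e V₁, Sum.elim (fun _ => 0) (fun _ => -1), ?_⟩
  rintro (v | v) i
  · show closeA α (some v, i + 0) = _
    simp only [add_zero, closeA, join]
    rcases h : α (.x v i) with ⟨w, j⟩ | ⟨e, _⟩ | ⟨u, j⟩
    · simp [MJ_e]
    · exact e.elim
    · simp only [MJ_e, single, Equiv.coe_fn_mk, Sum.elim_inr, Prod.mk.injEq, true_and]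
      ring
  · show closeA α (none, i + -1) = _
    obtain ⟨w, k, hw⟩ := hα (1 - i)
    have e1 : -(i + -1) = 1 - i := by ring
    simp only [closeA, join, e1, hw, single]
    simp [MJ_e]

end

namespace Tn

theorem Iso.join {S S' : Tn} (h : S.Iso S') (R : Tn) :
    CIso (SN78.join S.α R.α) (SN78.join S'.α R.α) := by
  obtain ⟨e, c, h⟩ := h
  refine ⟨Equiv.sumCongr e (Equiv.refl R.V), Sum.elim c (fun _ => 0), ?_⟩
  rintro (v | v) i
  · have h1 := h (.x v i)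
    simp only [rel] at h1
    simp only [Equiv.sumCongr_apply, Sum.map_inl, Sum.elim_inl, SN78.join, h1]
    rcases h2 : S.α (.x v i) with ⟨w, j⟩ | ⟨e', _⟩ | ⟨u, j⟩
    · simp [rel]
    · exact e'.elim
    · simp only [rel, add_zero]
      rcases h3 : R.α (.o () (1 - j)) with ⟨w, k⟩ | ⟨e', _⟩ | ⟨u, k⟩
      · simp
      · exact e'.elim
      · simp
  · simp only [Equiv.sumCongr_apply, Sum.map_inr, Sum.elim_inr, SN78.join, add_zero,
      Equiv.refl_apply]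
    rcases h2 : R.α (.x v i) with ⟨w, j⟩ | ⟨e', _⟩ | ⟨u, j⟩
    · simp
    · exact e'.elim
    · have h1 := h (.o () (1 - j))
      simp only [rel, add_zero] at h1
      simp only [h1]
      rcases h3 : S.α (.o () (1 - j)) with ⟨w, k⟩ | ⟨e', _⟩ | ⟨u, k⟩
      · simp
      · exact e'.elim
      · simp

private theorem lf_iso {S S' T T' : Tn} {e : S.V ≃ S'.V} {c : S.V → ZMod 4} {e' : T.V ≃ T'.V}
    {c' : T.V → ZMod 4} (h' : ∀ d, T'.α (rel e' c' 0 d) = rel e' c' 0 (T.α d))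
    (d : SD S.V Empty Unit) :
    lf T'.α (rel e c 0 d) = rel (Equiv.sumCongr e e') (Sum.elim c c') 0 (lf T.α d) := by
  rcases d with ⟨v, i⟩ | ⟨a, _⟩ | ⟨u, i⟩
  · simp [rel, lf]
  · exact a.elim
  · by_cases hi : i = 0 ∨ i = 3
    · have h1 := h' (.o () (if i = 0 then 1 else 2))
      simp only [rel, add_zero] at h1
      simp only [rel, lf, add_zero, if_pos hi, h1]
      rcases h2 : T.α (.o () (if i = 0 then 1 else 2)) with ⟨w, k⟩ | ⟨a, _⟩ | ⟨u', k⟩
      · simp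
      · exact a.elim
      · simp
    · simp only [rel, lf, add_zero, if_neg hi]

private theorem rg_iso {S S' T T' : Tn} {e : S.V ≃ S'.V} {c : S.V → ZMod 4} {e' : T.V ≃ T'.V}
    {c' : T.V → ZMod 4} (h : ∀ d, S'.α (rel e c 0 d) = rel e c 0 (S.α d))
    (d : SD T.V Empty Unit) :
    rg S'.α (rel e' c' 0 d) = rel (Equiv.sumCongr e e') (Sum.elim c c') 0 (rg S.α d) := by
  rcases d with ⟨v, i⟩ | ⟨a, _⟩ | ⟨u, i⟩
  · simp [rel, rg]
  · exact a.elim
  · by_cases hi : i = 1 ∨ i = 2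
    · have h1 := h (.o () (if i = 1 then 0 else 3))
      simp only [rel, add_zero] at h1
      simp only [rel, rg, add_zero, if_pos hi, h1]
      rcases h2 : S.α (.o () (if i = 1 then 0 else 3)) with ⟨w, k⟩ | ⟨a, _⟩ | ⟨u', k⟩
      · simp
      · exact a.elim
      · simp
    · simp only [rel, rg, add_zero, if_neg hi]

theorem Iso.add {S S' T T' : Tn} (h : S.Iso S') (h' : T.Iso T') : (S.add T).Iso (S'.add T') := by
  obtain ⟨e, c, h⟩ := h
  obtain ⟨e', c', h'⟩ := h'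
  refine ⟨Equiv.sumCongr e e', Sum.elim c c', ?_⟩
  rintro (⟨v | v, i⟩ | ⟨a, _⟩ | ⟨u, i⟩)
  · have h1 := h (.x v i)
    simp only [rel] at h1
    show SN78.sum S'.α T'.α (.x (inl (e v)) (i + c v)) = rel _ _ 0 (lf T.α (S.α (.x v i)))
    rw [sum_xl, h1]
    exact lf_iso h' _
  · have h1 := h' (.x v i)
    simp only [rel] at h1
    show SN78.sum S'.α T'.α (.x (inr (e' v)) (i + c' v)) = rel _ _ 0 (rg S.α (T.α (.x v i)))
    rw [sum_xr, h1]
    exact rg_iso h _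
  · exact a.elim
  · show SN78.sum S'.α T'.α (.o () (i + 0)) = rel _ _ 0 (SN78.sum S.α T.α (.o () i))
    have h1 : S'.α (.o () (i + 0)) = rel e c 0 (S.α (.o () i)) := h (.o () i)
    have h2 : T'.α (.o () (i + 0)) = rel e' c' 0 (T.α (.o () i)) := h' (.o () i)
    rw [add_zero] at h1 h2
    simp only [add_zero, SN78.sum]
    by_cases hi : i = 1 ∨ i = 2
    · rw [if_pos hi, if_pos hi, h1]
      exact lf_iso h' _
    · rw [if_neg hi, if_neg hi, h2]
      exact rg_iso h _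

theorem add_assoc (S T U : Tn) (hS : Proper S.α) (hT : Proper T.α) (hU : Proper U.α) :
    ((S.add T).add U).Iso (S.add (T.add U)) := by
  obtain ⟨wa0, ka0, a0⟩ := hS 0
  obtain ⟨wa1, ka1, a1⟩ := hS 1
  obtain ⟨wa2, ka2, a2⟩ := hS 2
  obtain ⟨wa3, ka3, a3⟩ := hS 3
  obtain ⟨wb0, kb0, b0⟩ := hT 0
  obtain ⟨wb1, kb1, b1⟩ := hT 1
  obtain ⟨wb2, kb2, b2⟩ := hT 2
  obtain ⟨wb3, kb3, b3⟩ := hT 3
  obtain ⟨wc0, kc0, c0⟩ := hU 0
  obtain ⟨wc1, kc1, c1⟩ := hU 1
  obtain ⟨wc2, kc2, c2⟩ := hU 2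
  obtain ⟨wc3, kc3, c3⟩ := hU 3
  refine ⟨Equiv.sumAssoc S.V T.V U.V, fun _ => 0, ?_⟩
  rintro (⟨(v | v) | v, i⟩ | ⟨a, _⟩ | ⟨u, i⟩)
  · show SN78.sum S.α (SN78.sum T.α U.α) (.x (inl v) (i + 0)) =
      rel _ _ 0 (lf U.α (lf T.α (S.α (.x v i))))
    rw [add_zero, sum_xl]
    rcases h : S.α (.x v i) with ⟨w, j⟩ | ⟨e, _⟩ | ⟨u, j⟩
    · simp [lf_x, rel]; rfl
    · exact e.elim
    · rcases MJ_cases j with rfl | rfl | rfl | rfl
      · have h1 : SN78.sum T.α U.α (.o () 1) = .x (inl wb1) kb1 := by rw [sum_1, b1, lf_x]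
        simp [lf_0 b1, lf_0 h1, lf_x, rel]; rfl
      · simp [lf_1, rel]
      · simp [lf_2, rel]
      · have h1 : SN78.sum T.α U.α (.o () 2) = .x (inl wb2) kb2 := by rw [sum_2, b2, lf_x]
        simp [lf_3 b2, lf_3 h1, lf_x, rel]; rfl
  · show SN78.sum S.α (SN78.sum T.α U.α) (.x (inr (inl v)) (i + 0)) =
      rel _ _ 0 (lf U.α (rg S.α (T.α (.x v i))))
    rw [add_zero, sum_xr, sum_xl]
    rcases h : T.α (.x v i) with ⟨w, j⟩ | ⟨e, _⟩ | ⟨u, j⟩
    · simp [lf_x, rg_x, rel]; rfl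
    · exact e.elim
    · rcases MJ_cases j with rfl | rfl | rfl | rfl
      · simp [lf_0 c1, rg_0, rg_x, rel]; rfl
      · simp [lf_1, rg_1 a0, lf_x, rel]; rfl
      · simp [lf_2, rg_2 a3, lf_x, rel]; rfl
      · simp [lf_3 c2, rg_3, rg_x, rel]; rfl
  · show SN78.sum S.α (SN78.sum T.α U.α) (.x (inr (inr v)) (i + 0)) =
      rel _ _ 0 (rg (SN78.sum S.α T.α) (U.α (.x v i)))
    rw [add_zero, sum_xr, sum_xr]
    rcases h : U.α (.x v i) with ⟨w, j⟩ | ⟨e, _⟩ | ⟨u, j⟩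
    · simp [rg_x, rel]; rfl
    · exact e.elim
    · rcases MJ_cases j with rfl | rfl | rfl | rfl
      · simp [rg_0, rel]
      · have h1 : SN78.sum S.α T.α (.o () 0) = .x (inr wb0) kb0 := by rw [sum_0, b0, rg_x]
        simp [rg_1 b0, rg_1 h1, rg_x, rel]; rfl
      · have h1 : SN78.sum S.α T.α (.o () 3) = .x (inr wb3) kb3 := by rw [sum_3, b3, rg_x]
        simp [rg_2 b3, rg_2 h1, rg_x, rel]; rfl
      · simp [rg_3, rel]
  · exact a.elim
  · show SN78.sum S.α (SN78.sum T.α U.α) (.o () (i + 0)) =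
      rel _ _ 0 (SN78.sum (SN78.sum S.α T.α) U.α (.o () i))
    rw [add_zero]
    rcases MJ_cases i with rfl | rfl | rfl | rfl
    · simp [sum_0, c0, rg_x, rel]; rfl
    · simp [sum_1, a1, lf_x, rel]; rfl
    · simp [sum_2, a2, lf_x, rel]; rfl
    · simp [sum_3, c3, rg_x, rel]; rfl

end Tn

end SN78
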