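import Pool.Agent.SN78.MGlue
import Pool.Agent.SN78.MJoin

/-!
# SN78 module MCTX: the context of a tangle which is inserted into a parent

`ctxA αp X`: the parent `αp` with the roles of the outside and of the big vertex `X` exchanged; the old outside
becomes the big vertex `none` (into which the other tangle `R` of `join (glue αp β) R` is inserted).
`phi`: `.f X i ↦ .o () (1 - i)`, `.o () i ↦ .f none (1 - i)`, `.f Y i ↦ .f (some ⟨Y, _⟩) i` for `Y ≠ X`; `psi` is
its inverse.
`ctxA_pmap`: `cls (ctxA αp X)` is isomorphic with `cls αp`: `e none = some (inr none)` with `c = 1`,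
`e (some (inr X)) = none` with `c = 3`, `e (some (inr Y)) = some (inr (some Y))`, `c = 0`.
`join_glue`: the bijection of crossings: `inl (inl v) ↦ inr (inl v)`, `inl (inr ⟨X, v⟩) ↦ inl v`,
`inl (inr ⟨Y, v⟩) ↦ inr (inr ⟨some Y, v⟩)` for `Y ≠ X`, `inr v ↦ inr (inr ⟨none, v⟩)`; `c = 0`.  Check the darts:
the places where a walk passes a port: use `PT.proper`, and `αp (.f X i) ≠ .f X j`, `αp (.o () i) ≠ .o () j`
(`PMap.noloop` for `cls αp`), `PT.inv`.
-/

namespace SN78

open Sum

section
variable {V F : Type} [DecidableEq F]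

/-- exchange of the outside and `X` -/
def phi (X : F) : SD V F Unit → SD V (Option {Y : F // Y ≠ X}) Unit
  | .x v i => .x v i
  | .f Y i => if h : Y ≠ X then .f (some ⟨Y, h⟩) i else .o () (1 - i)
  | .o _ i => .f none (1 - i)

/-- the inverse of `phi` -/
def psi (X : F) : SD V (Option {Y : F // Y ≠ X}) Unit → SD V F Unit
  | .x v i => .x v i
  | .f (some Y) i => .f Y.1 i
  | .f none i => .o () (1 - i)
  | .o _ i => .f X (1 - i)

/-- the parent with the outside and `X` exchanged -/
def ctxA (αp : SD V F Unit → SD V F Unit) (X : F) :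
    SD V (Option {Y : F // Y ≠ X}) Unit → SD V (Option {Y : F // Y ≠ X}) Unit :=
  fun d => phi X (αp (psi X d))

/-- the tangles which are inserted into `ctxA αp X` -/
def ctxT {X : F} (γ : {Y : F // Y ≠ X} → Tn) (R : Tn) : Option {Y : F // Y ≠ X} → Tn
  | some Y => γ Y
  | none => R

private theorem mctx_psi_phi (X : F) (d : SD V F Unit) : psi X (phi X d) = d := by
  cases d with
  | x v i => rfl
  | f Y i =>
    by_cases h : Y ≠ X
    · simp [phi, psi, h]
    · have h' : Y = X := not_not.1 h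
      subst h'
      simp [phi, psi]
  | o a i => simp [phi, psi]

/-- the bijection of the sites of the closed maps -/
private def mctxE (X : F) : Option (V ⊕ F) → Option (V ⊕ Option {Y : F // Y ≠ X})
  | none => some (inr none)
  | some (inl v) => some (inl v)
  | some (inr Y) => if h : Y ≠ X then some (inr (some ⟨Y, h⟩)) else none

private def mctxE' (X : F) : Option (V ⊕ Option {Y : F // Y ≠ X}) → Option (V ⊕ F)
  | none => some (inr X)
  | some (inl v) => some (inl v)
  | some (inr none) => none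
  | some (inr (some Y)) => some (inr Y.1)

private def mctxEq (V : Type) (X : F) :
    Option (V ⊕ F) ≃ Option (V ⊕ Option {Y : F // Y ≠ X}) where
  toFun := mctxE X
  invFun := mctxE' X
  left_inv d := by
    rcases d with _ | v | Y
    · rfl
    · rfl
    · by_cases h : Y ≠ X
      · simp [mctxE, mctxE', h]
      · have h' : Y = X := not_not.1 h
        subst h'
        simp [mctxE, mctxE']
  right_inv d := by
    rcases d with _ | v | _ | Y
    · simp [mctxE, mctxE']
    · rfl
    · rfl
    · simp [mctxE, mctxE', Y.2]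

private def mctxC (X : F) : Option (V ⊕ F) → ZMod 4
  | none => 1
  | some (inl _) => 0
  | some (inr Y) => if Y ≠ X then 0 else 3

private theorem mctx_toX (X : F) (d : SD V F Unit) :
    toX (phi X d) = (mctxE X (toX d).1, (toX d).2 + mctxC X (toX d).1) := by
  cases d with
  | x v i => simp [phi, toX, mctxE, mctxC]
  | f Y i =>
    by_cases h : Y ≠ X
    · simp [phi, toX, mctxE, mctxC, h]
    · have h' : Y = X := not_not.1 h
      subst h'
      simp only [phi, toX, mctxE, mctxC, ne_eq, not_true_eq_false, dite_false, if_false]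
      refine Prod.ext rfl ?_
      show -(1 - i) = i + 3
      have : (3 : ZMod 4) = -1 := by decide
      rw [this]; ring
  | o a i =>
    simp only [phi, toX, mctxE, mctxC]
    refine Prod.ext rfl ?_
    show 1 - i = -i + 1
    ring

theorem ctxA_pmap [Fintype V] [Fintype F] {αp : SD V F Unit → SD V F Unit} (hp : PMap (cls αp))
    (X : F) : PMap (cls (ctxA αp X)) := by
  refine PMap.ciso hp ⟨mctxEq V X, mctxC X, fun v i => ?_⟩
  have key : ∀ d : Option (V ⊕ F) × ZMod 4,
      cls (ctxA αp X) (mctxE X d.1, d.2 + mctxC X d.1) =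
        (mctxE X (cls αp d).1, (cls αp d).2 + mctxC X (cls αp d).1) := by
    intro d
    have h1 := mctx_toX X (ofX d)
    rw [toX_ofX] at h1
    rw [← h1]
    show toX (phi X (αp (psi X (ofX (toX (phi X (ofX d))))))) = _
    rw [ofX_toX, mctx_psi_phi, mctx_toX]
    rfl
  exact key (v, i)

section joins

variable {V₁ V₂ : Type} {α : Tg V₁} {β : Tg V₂}

private theorem mctx_join_l_x {v i w j} (h : α (.x v i) = .x w j) :
    join α β (inl v, i) = (inl w, j) := by
  simp only [join, h]

private theorem mctx_join_l_o {v i a j w k} (h : α (.x v i) = .o a j)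
    (h' : β (.o () (1 - j)) = .x w k) : join α β (inl v, i) = (inr w, k) := by
  simp only [join, h, h']

private theorem mctx_join_r_x {v i w j} (h : β (.x v i) = .x w j) :
    join α β (inr v, i) = (inr w, j) := by
  simp only [join, h]

private theorem mctx_join_r_o {v i a j w k} (h : β (.x v i) = .o a j)
    (h' : α (.o () (1 - j)) = .x w k) : join α β (inr v, i) = (inl w, k) := by
  simp only [join, h, h']

end joins

section glues

variable {V' F' : Type} {Vc : F' → Type} {αq : SD V' F' Unit → SD V' F' Unit}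
  {γ : ∀ Z, Tg (Vc Z)}

private theorem mctx_inc_f {Z i w j} (d : SD (GV V' Vc) Empty Unit) (h : γ Z (.o () i) = .x w j) :
    incA γ d (.f Z i) = .x (inr ⟨Z, w⟩) j := by
  simp only [incA, h, dnA]

private theorem mctx_glue_x {Z v i w j} (h : γ Z (.x v i) = .x w j) :
    glueA αq γ (.x (inr ⟨Z, v⟩) i) = .x (inr ⟨Z, w⟩) j := by
  simp only [glueA, h, outA, dnA]

private theorem mctx_glue_o {Z v i a j} (h : γ Z (.x v i) = .o a j) :
    glueA αq γ (.x (inr ⟨Z, v⟩) i) = incA γ (.x (inr ⟨Z, v⟩) i) (αq (.f Z j)) := by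
  simp only [glueA, h, outA]

end glues

/-- the crossings of the second map as crossings of the first one -/
private def mctxG (V : Type) (β : F → Tn) (X : F) (R : Tn) :
    (β X).V ⊕ GV V (fun Z => (ctxT (X := X) (fun Y => β Y.1) R Z).V) →
      GV V (fun Y => (β Y).V) ⊕ R.V
  | inl v => inl (inr ⟨X, v⟩)
  | inr (inl v) => inl (inl v)
  | inr (inr ⟨some Y, v⟩) => inl (inr ⟨Y.1, v⟩)
  | inr (inr ⟨none, v⟩) => inr v

private theorem mctxG_bij (V : Type) (β : F → Tn) (X : F) (R : Tn) :
    Function.Bijective (mctxG V β X R) := by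
  constructor
  · rintro (v | v | ⟨_ | Y, v⟩) (w | w | ⟨_ | Z, w⟩) h
    · have h := Sum.inr.inj (Sum.inl.inj h)
      rw [Sigma.mk.inj_iff] at h
      rw [eq_of_heq h.2]
    · exact absurd (Sum.inl.inj h) (by simp)
    · exact absurd h (by simp [mctxG])
    · have h := Sum.inr.inj (Sum.inl.inj h)
      exact absurd (congrArg Sigma.fst h).symm Z.2
    · exact absurd (Sum.inl.inj h) (by simp)
    · rw [Sum.inl.inj (Sum.inl.inj h)]
    · exact absurd h (by simp [mctxG])
    · exact absurd (Sum.inl.inj h) (by simp)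
    · exact absurd h (by simp [mctxG])
    · exact absurd h (by simp [mctxG])
    · have h : v = w := Sum.inr.inj h
      rw [h]
    · exact absurd h (by simp [mctxG])
    · have h := Sum.inr.inj (Sum.inl.inj h)
      exact absurd (congrArg Sigma.fst h) Y.2
    · exact absurd (Sum.inl.inj h) (by simp)
    · exact absurd h (by simp [mctxG])
    · obtain ⟨Y, hY⟩ := Y
      obtain ⟨Z, hZ⟩ := Z
      have h := Sum.inr.inj (Sum.inl.inj h)
      have h1 : Y = Z := congrArg Sigma.fst h
      subst h1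
      have h2 : v = w := eq_of_heq (Sigma.ext_iff.1 h).2
      rw [h2]
  · rintro ((v | ⟨Y, v⟩) | v)
    · exact ⟨inr (inl v), rfl⟩
    · by_cases h : Y = X
      · subst h
        exact ⟨inl v, rfl⟩
      · exact ⟨inr (inr ⟨some ⟨Y, h⟩, v⟩), rfl⟩
    · exact ⟨inr (inr ⟨none, v⟩), rfl⟩

theorem join_glue [Fintype V] [Fintype F] {αp : SD V F Unit → SD V F Unit} (hp : PMap (cls αp))
    {β : F → Tn} (hβ : ∀ X, (β X).PT) (X : F) {R : Tn} (hR : R.PT) :
    CIso (join (Tn.glue αp β).α R.α)
      (join (β X).α (Tn.glue (ctxA αp X) (ctxT (fun Y => β Y.1) R)).α) := by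
  refine CIso.symm ?_
  choose wβ jβ eβ using fun Y => (hβ Y).proper
  choose wR jR eR using hR.proper
  -- the dart of the first map which is met when the walk arrives at the dart `δ` of the parent
  let L : SD V F Unit → (GV V (fun Y => (β Y).V) ⊕ R.V) × ZMod 4 := fun δ => match δ with
    | .x w k => (inl (inl w), k)
    | .f Y k => (inl (inr ⟨Y, wβ Y k⟩), jβ Y k)
    | .o _ k => (inr (wR (1 - k)), jR (1 - k))
  have noX : ∀ i j, αp (.f X i) ≠ .f X j := by
    intro i j h
    have := hp.noloop (some (inr X), i)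
    apply this
    show (toX (αp (.f X i))).1 = _
    rw [h]; rfl
  have noO : ∀ i a j, αp (.o () i) ≠ .o a j := by
    intro i a j h
    have := hp.noloop (none, -i)
    apply this
    show (toX (αp (.o () (- -i)))).1 = _
    rw [neg_neg, h]; rfl
  set σ' := join (Tn.glue αp β).α R.α with hσ'
  set T : Option {Y : F // Y ≠ X} → Tn := ctxT (fun Y => β Y.1) R with hT
  set σ := join (β X).α (Tn.glue (ctxA αp X) T).α with hσ
  have l1 : ∀ (u : GV V (fun Y => (β Y).V)) i d δ,
      glueA αp (fun Y => (β Y).α) (.x u i) = incA (fun Y => (β Y).α) d δ →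
      σ' (inl u, i) = L δ := by
    intro u i d δ h
    rcases δ with ⟨w, k⟩ | ⟨Y, k⟩ | ⟨a, k⟩
    · exact mctx_join_l_x h
    · rw [mctx_inc_f d (eβ Y k)] at h
      exact mctx_join_l_x h
    · exact mctx_join_l_o h (eR (1 - k))
  have l2 : ∀ v i a j, R.α (.x v i) = .o a j → σ' (inr v, i) = L (αp (.o () (1 - j))) := by
    intro v i a j h
    have h2 : (Tn.glue αp β).α (.o () (1 - j)) =
        incA (fun Y => (β Y).α) (.o () (1 - j)) (αp (.o () (1 - j))) := rfl
    rcases hd : αp (.o () (1 - j)) with ⟨w, k⟩ | ⟨Y, k⟩ | ⟨b, k⟩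
    · rw [hd] at h2
      exact mctx_join_r_o h h2
    · rw [hd, mctx_inc_f _ (eβ Y k)] at h2
      exact mctx_join_r_o h h2
    · exact absurd hd (noO _ _ _)
  have r1 : ∀ (u : GV V (fun Z => (T Z).V)) i d δ,
      glueA (ctxA αp X) (fun Z => (T Z).α) (.x u i) = incA (fun Z => (T Z).α) d (phi X δ) →
      (mctxG V β X R (σ (inr u, i)).1, (σ (inr u, i)).2) = L δ := by
    intro u i d δ h
    rcases δ with ⟨w, k⟩ | ⟨Y, k⟩ | ⟨a, k⟩
    · rw [show σ (inr u, i) = (inr (inl w), k) from mctx_join_r_x h]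
      rfl
    · by_cases hY : Y = X
      · subst hY
        have h' : glueA (ctxA αp Y) (fun Z => (T Z).α) (.x u i) = .o () (1 - k) := by
          rw [h]; simp [phi, incA]
        have e1 := eβ Y k
        have e2 : (β Y).α (.o () (1 - (1 - k))) = .x (wβ Y k) (jβ Y k) := by
          rw [sub_sub_cancel]; exact e1
        rw [show σ (inr u, i) = (inl (wβ Y k), jβ Y k) from mctx_join_r_o h' e2]
        rfl
      · have h' : glueA (ctxA αp X) (fun Z => (T Z).α) (.x u i) =
            .x (inr ⟨some ⟨Y, hY⟩, wβ Y k⟩) (jβ Y k) := by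
          rw [h]
          have : phi (V := V) X (.f Y k) = .f (some ⟨Y, hY⟩) k := by simp [phi, hY]
          rw [this]
          exact mctx_inc_f (γ := fun Z => (T Z).α) (Z := some ⟨Y, hY⟩) d (eβ Y k)
        rw [show σ (inr u, i) = (inr (inr ⟨some ⟨Y, hY⟩, wβ Y k⟩), jβ Y k) from mctx_join_r_x h']
        rfl
    · have h' : glueA (ctxA αp X) (fun Z => (T Z).α) (.x u i) =
          .x (inr ⟨none, wR (1 - k)⟩) (jR (1 - k)) := by
        rw [h]
        exact mctx_inc_f (γ := fun Z => (T Z).α) (Z := none) d (eR (1 - k))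
      rw [show σ (inr u, i) = (inr (inr ⟨none, wR (1 - k)⟩), jR (1 - k)) from mctx_join_r_x h']
      rfl
  have r2 : ∀ v i a j, (β X).α (.x v i) = .o a j →
      (mctxG V β X R (σ (inl v, i)).1, (σ (inl v, i)).2) = L (αp (.f X j)) := by
    intro v i a j h
    have h2 : (Tn.glue (ctxA αp X) T).α (.o () (1 - j)) =
        incA (fun Z => (T Z).α) (.o () (1 - j)) (phi X (αp (.f X j))) := by
      have : ctxA αp X (.o () (1 - j)) = phi X (αp (.f X j)) := by
        simp only [ctxA, psi, sub_sub_cancel]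
      rw [← this]; rfl
    rcases hd : αp (.f X j) with ⟨w, k⟩ | ⟨Y, k⟩ | ⟨b, k⟩
    · rw [hd] at h2
      rw [show σ (inl v, i) = (inr (inl w), k) from mctx_join_l_o h h2]
      rfl
    · have hY : Y ≠ X := by
        rintro rfl
        exact noX _ _ hd
      have h3 : (Tn.glue (ctxA αp X) T).α (.o () (1 - j)) =
          .x (inr ⟨some ⟨Y, hY⟩, wβ Y k⟩) (jβ Y k) := by
        rw [h2, hd]
        have : phi (V := V) X (.f Y k) = .f (some ⟨Y, hY⟩) k := by simp [phi, hY]
        rw [this]
        exact mctx_inc_f (γ := fun Z => (T Z).α) (Z := some ⟨Y, hY⟩) _ (eβ Y k)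
      rw [show σ (inl v, i) = (inr (inr ⟨some ⟨Y, hY⟩, wβ Y k⟩), jβ Y k) from mctx_join_l_o h h3]
      rfl
    · have h3 : (Tn.glue (ctxA αp X) T).α (.o () (1 - j)) =
          .x (inr ⟨none, wR (1 - k)⟩) (jR (1 - k)) := by
        rw [h2, hd]
        exact mctx_inc_f (γ := fun Z => (T Z).α) (Z := none) _ (eR (1 - k))
      rw [show σ (inl v, i) = (inr (inr ⟨none, wR (1 - k)⟩), jR (1 - k)) from mctx_join_l_o h h3]
      rfl
  refine ⟨Equiv.ofBijective _ (mctxG_bij V β X R), fun _ => 0, fun v i => ?_⟩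
  show σ' (mctxG V β X R v, i + 0) = (mctxG V β X R (σ (v, i)).1, (σ (v, i)).2 + 0)
  rw [add_zero, add_zero]
  rcases v with v | v | ⟨_ | Y, v⟩
  · -- a crossing of `β X`
    rcases hd : (β X).α (.x v i) with ⟨w, j⟩ | ⟨e, _⟩ | ⟨a, j⟩
    · rw [show σ (inl v, i) = (inl w, j) from mctx_join_l_x hd]
      exact mctx_join_l_x (mctx_glue_x (γ := fun Y => (β Y).α) hd)
    · exact e.elim
    · rw [r2 v i a j hd]
      exact l1 (inr ⟨X, v⟩) i _ _ (mctx_glue_o (γ := fun Y => (β Y).α) hd)
  · -- a crossing of the parent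
    rw [r1 (inl v) i (.x (inl v) i) (αp (.x v i)) rfl]
    exact l1 (inl v) i (.x (inl v) i) (αp (.x v i)) rfl
  · -- a crossing of `R`
    rcases hd : R.α (.x v i) with ⟨w, j⟩ | ⟨e, _⟩ | ⟨a, j⟩
    · rw [show σ (inr (inr ⟨none, v⟩), i) = (inr (inr ⟨none, w⟩), j) from
        mctx_join_r_x (mctx_glue_x (γ := fun Z => (T Z).α) (Z := none) hd)]
      exact mctx_join_r_x hd
    · exact e.elim
    · rw [r1 (inr ⟨none, v⟩) i (.x (inr ⟨none, v⟩) i) (αp (.o () (1 - j)))
        (mctx_glue_o (γ := fun Z => (T Z).α) (Z := none) hd)]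
      exact l2 v i a j hd
  · -- a crossing of `β Y`, `Y ≠ X`
    rcases hd : (β Y.1).α (.x v i) with ⟨w, j⟩ | ⟨e, _⟩ | ⟨a, j⟩
    · rw [show σ (inr (inr ⟨some Y, v⟩), i) = (inr (inr ⟨some Y, w⟩), j) from
        mctx_join_r_x (mctx_glue_x (γ := fun Z => (T Z).α) (Z := some Y) hd)]
      exact mctx_join_l_x (mctx_glue_x (γ := fun Y => (β Y).α) hd)
    · exact e.elim
    · rw [r1 (inr ⟨some Y, v⟩) i (.x (inr ⟨some Y, v⟩) i) (αp (.f Y.1 j))
        (mctx_glue_o (γ := fun Z => (T Z).α) (Z := some Y) hd)]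
      exact l1 (inr ⟨Y.1, v⟩) i _ _ (mctx_glue_o (γ := fun Y => (β Y).α) hd)

end

end SN78
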