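import Pool.Agent.SN78.MBase

/-!
# SN78 module MPLANE: planarity by homology and by the Euler formula

Exactly as in `RHom.lean` (there one direction for `Rigid`, all lemmas are private there and can be copied):
let `n = card X`.  The space `C` of `α`-invariant functions on the darts has dimension `2 n`; the subspace `Z` of
those with even sum at all sites has dimension `2 n - (n - 1) = n + 1` (the only relation between the `n`
conditions is their sum, since the map is connected).  The space of face functions has dimension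
`Nat.card (Face α)`; the map `w ↦ (d ↦ w d + w (pv d))` maps it into `Z` (`w (pv d) = w (α d)` because
`fs α (α d) = pv d`), its kernel are the constants (connectedness).  So the range has dimension
`Nat.card (Face α) - 1`, and `Hom α` says that the range is `Z`, i.e. `Nat.card (Face α) - 1 = n + 1`.
-/

namespace SN78

variable {X : Type} [Fintype X] {α : X × ZMod 4 → X × ZMod 4}

omit [Fintype X] in
private theorem mpl_pv_nx (d : X × ZMod 4) : pv (nx d) = d := by
  simp [pv, nx]

/-- the standard bilinear form -/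
private noncomputable def mplForm (X : Type) [Fintype X] :
    (X × ZMod 4 → ZMod 2) →ₗ[ZMod 2] Module.Dual (ZMod 2) (X × ZMod 4 → ZMod 2) where
  toFun z :=
    { toFun := fun r => ∑ d, z d * r d
      map_add' := by
        intro a b
        simp only [Pi.add_apply, mul_add, Finset.sum_add_distrib]
      map_smul' := by
        intro t a
        simp only [Pi.smul_apply, smul_eq_mul, RingHom.id_apply, Finset.mul_sum]
        exact Finset.sum_congr rfl fun d _ => by ring }
  map_add' := by
    intro a b
    ext r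
    simp [add_mul, Finset.sum_add_distrib]
  map_smul' := by
    intro t a
    ext r
    simp [Finset.mul_sum, mul_assoc]

private theorem mplForm_apply (z r : X × ZMod 4 → ZMod 2) :
    mplForm X z r = ∑ d, z d * r d := rfl

private theorem mplForm_inj : Function.Injective (mplForm X) := by
  classical
  intro z z' hz
  funext d
  have h := congrArg (fun f => f (Pi.single d 1)) hz
  simp only [mplForm_apply] at h
  simpa [Pi.single_apply] using h

/-- functions with `c (α d) = c d` -/
private def mplA (α : X × ZMod 4 → X × ZMod 4) : Submodule (ZMod 2) (X × ZMod 4 → ZMod 2) where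
  carrier := {c | ∀ d, c (α d) = c d}
  add_mem' := by
    intro a b ha hb d
    simp [ha d, hb d]
  zero_mem' := by intro d; rfl
  smul_mem' := by
    intro t a ha d
    simp [ha d]

/-- cycles -/
private def mplZ (α : X × ZMod 4 → X × ZMod 4) : Submodule (ZMod 2) (X × ZMod 4 → ZMod 2) where
  carrier := {c | (∀ d, c (α d) = c d) ∧ ∀ v, ∑ i : ZMod 4, c (v, i) = 0}
  add_mem' := by
    intro a b ha hb
    refine ⟨fun d => by simp [ha.1 d, hb.1 d], fun v => ?_⟩
    simp [Finset.sum_add_distrib, ha.2 v, hb.2 v]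
  zero_mem' := ⟨fun d => rfl, fun v => by simp⟩
  smul_mem' := by
    intro t a ha
    refine ⟨fun d => by simp [ha.1 d], fun v => ?_⟩
    have := ha.2 v
    simp only [Pi.smul_apply, smul_eq_mul, ← Finset.mul_sum, this, mul_zero]

/-- `c ↦ c + c ∘ α` -/
private def mplPhi (α : X × ZMod 4 → X × ZMod 4) :
    (X × ZMod 4 → ZMod 2) →ₗ[ZMod 2] (X × ZMod 4 → ZMod 2) where
  toFun c := fun d => c d + c (α d)
  map_add' := by
    intro a b
    funext d
    simp only [Pi.add_apply]
    ring
  map_smul' := by
    intro t a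
    funext d
    simp only [Pi.smul_apply, smul_eq_mul, RingHom.id_apply]
    ring

private theorem mpl_two (x y : ZMod 2) (h : x + y = 0) : x = y := by
  revert x y; decide

private theorem mpl_card_darts : Fintype.card (X × ZMod 4) = 4 * Fintype.card X := by
  simp [Fintype.card_prod, ZMod.card, mul_comm]

private theorem mplA_finrank (hi : ∀ d, α (α d) = d) :
    2 * Fintype.card X ≤ Module.finrank (ZMod 2) (mplA α) := by
  have h1 := LinearMap.finrank_range_add_finrank_ker (mplPhi α)
  have h2 : LinearMap.ker (mplPhi α) ≤ mplA α := by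
    intro c hc d
    have := congrFun (LinearMap.mem_ker.1 hc) d
    exact (mpl_two _ _ this).symm
  have h3 : LinearMap.range (mplPhi α) ≤ mplA α := by
    rintro _ ⟨c, rfl⟩ d
    show c (α d) + c (α (α d)) = c d + c (α d)
    rw [hi d, add_comm]
  have h4 := Submodule.finrank_mono h2
  have h5 := Submodule.finrank_mono h3
  rw [Module.finrank_fintype_fun_eq_card, mpl_card_darts] at h1
  omega

/-- `(a, f) ↦ a + f ∘ fst` -/
private def mplPsi (α : X × ZMod 4 → X × ZMod 4) :
    (mplA α × (X → ZMod 2)) →ₗ[ZMod 2] (X × ZMod 4 → ZMod 2) where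
  toFun c := fun d => c.1.1 d + c.2 d.1
  map_add' := by
    intro a b
    funext d
    simp only [Prod.fst_add, Submodule.coe_add, Pi.add_apply, Prod.snd_add]
    ring
  map_smul' := by
    intro t a
    funext d
    simp only [Prod.smul_fst, Submodule.coe_smul, Pi.smul_apply, smul_eq_mul, Prod.smul_snd,
      RingHom.id_apply]
    ring

omit [Fintype X] in
private theorem mplPsi_ker [Nonempty X]
    (hc : ∀ M : X → Prop, (∀ d, M d.1 → M (α d).1) → (∃ x, M x) → ∀ y, M y) :
    Module.finrank (ZMod 2) (LinearMap.ker (mplPsi α)) ≤ 1 := by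
  obtain ⟨x⟩ := (inferInstance : Nonempty X)
  let u : mplA α × (X → ZMod 2) := (⟨fun _ => 1, fun _ => rfl⟩, fun _ => 1)
  have hle : LinearMap.ker (mplPsi α) ≤ Submodule.span (ZMod 2) {u} := by
    intro c hk
    have hc' : ∀ d, c.1.1 d = c.2 d.1 := fun d =>
      mpl_two _ _ (congrFun (LinearMap.mem_ker.1 hk) d)
    have hconst : ∀ y, c.2 y = c.2 x := by
      refine hc (fun y => c.2 y = c.2 x) ?_ ⟨x, rfl⟩
      intro d hd
      show c.2 (α d).1 = c.2 x
      rw [← hc', c.1.2 d, hc', hd]
    rw [Submodule.mem_span_singleton]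
    refine ⟨c.2 x, ?_⟩
    apply Prod.ext
    · apply Subtype.ext
      funext d
      show c.2 x * 1 = c.1.1 d
      rw [hc', hconst d.1, mul_one]
    · funext y
      show c.2 x * 1 = c.2 y
      rw [hconst y, mul_one]
  calc _ ≤ Module.finrank (ZMod 2) (Submodule.span (ZMod 2) {u}) := Submodule.finrank_mono hle
    _ ≤ 1 := by
      have := finrank_span_le_card (R := ZMod 2) ({u} : Set (mplA α × (X → ZMod 2)))
      simpa using this

private theorem mplPsi_rank [Nonempty X] (hi : ∀ d, α (α d) = d)
    (hc : ∀ M : X → Prop, (∀ d, M d.1 → M (α d).1) → (∃ x, M x) → ∀ y, M y) :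
    3 * Fintype.card X ≤ Module.finrank (ZMod 2) (LinearMap.range (mplPsi α)) + 1 := by
  have h1 := LinearMap.finrank_range_add_finrank_ker (mplPsi α)
  rw [Module.finrank_prod, Module.finrank_fintype_fun_eq_card] at h1
  have h2 := mplPsi_ker hc
  have h3 := mplA_finrank hi
  omega

/-- the sum of an invariant function over all darts vanishes -/
private theorem mpl_sum (hi : ∀ d, α (α d) = d) (hn : ∀ d, α d ≠ d)
    {c : X × ZMod 4 → ZMod 2} (hc : ∀ d, c (α d) = c d) : ∑ d, c d = 0 := by
  refine Finset.sum_involution (fun d _ => α d) ?_ ?_ ?_ ?_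
  · intro d _
    rw [hc d]
    exact CharTwo.add_self_eq_zero _
  · intro d _ _
    exact hn d
  · intro d _
    exact Finset.mem_univ _
  · intro d _
    exact hi d

private theorem mpl_orth (hi : ∀ d, α (α d) = d) (hn : ∀ d, α d ≠ d)
    {z : X × ZMod 4 → ZMod 2} (hz : z ∈ mplZ α)
    {r : X × ZMod 4 → ZMod 2} (hr : r ∈ LinearMap.range (mplPsi α)) :
    ∑ d, z d * r d = 0 := by
  obtain ⟨⟨a, f⟩, rfl⟩ := hr
  show ∑ d, z d * (a.1 d + f d.1) = 0
  simp only [mul_add, Finset.sum_add_distrib]
  have e1 : ∑ d, z d * a.1 d = 0 :=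
    mpl_sum hi hn (c := fun d => z d * a.1 d) fun d => by
      show z (α d) * a.1 (α d) = z d * a.1 d
      rw [hz.1 d, a.2 d]
  have e2 : ∑ d : X × ZMod 4, z d * f d.1 = 0 := by
    rw [Fintype.sum_prod_type]
    refine Finset.sum_eq_zero fun v _ => ?_
    show ∑ i, z (v, i) * f v = 0
    rw [← Finset.sum_mul, hz.2 v, zero_mul]
  rw [e1, e2, add_zero]

private theorem mplZ_finrank_le [Nonempty X] (hi : ∀ d, α (α d) = d) (hn : ∀ d, α d ≠ d)
    (hc : ∀ M : X → Prop, (∀ d, M d.1 → M (α d).1) → (∃ x, M x) → ∀ y, M y) :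
    Module.finrank (ZMod 2) (mplZ α) ≤ Fintype.card X + 1 := by
  have h1 := Subspace.finrank_add_finrank_dualAnnihilator_eq (LinearMap.range (mplPsi α))
  rw [Module.finrank_fintype_fun_eq_card, mpl_card_darts] at h1
  have h2 : Submodule.map (mplForm X) (mplZ α) ≤
      (LinearMap.range (mplPsi α)).dualAnnihilator := by
    rintro _ ⟨z, hz, rfl⟩
    rw [Submodule.mem_dualAnnihilator]
    intro r hr
    exact mpl_orth hi hn hz hr
  have h3 := Submodule.finrank_mono h2
  rw [← (Submodule.equivMapOfInjective _ mplForm_inj (mplZ α)).finrank_eq] at h3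
  have h4 := mplPsi_rank hi hc
  omega

/-- the site sums -/
private def mplSite (α : X × ZMod 4 → X × ZMod 4) : mplA α →ₗ[ZMod 2] (X → ZMod 2) where
  toFun c := fun v => ∑ i : ZMod 4, c.1 (v, i)
  map_add' := by
    intro a b
    funext v
    simp [Finset.sum_add_distrib]
  map_smul' := by
    intro t a
    funext v
    simp [Finset.mul_sum]

/-- the sum of all values -/
private def mplTot (X : Type) [Fintype X] : (X → ZMod 2) →ₗ[ZMod 2] ZMod 2 where
  toFun f := ∑ x, f x
  map_add' := by
    intro a b
    simp [Finset.sum_add_distrib]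
  map_smul' := by
    intro t a
    simp [Finset.mul_sum]

private theorem mplZ_finrank_ge [Nonempty X] (hi : ∀ d, α (α d) = d) (hn : ∀ d, α d ≠ d) :
    Fintype.card X + 1 ≤ Module.finrank (ZMod 2) (mplZ α) := by
  classical
  have h1 := LinearMap.finrank_range_add_finrank_ker (mplSite α)
  have h2 : LinearMap.range (mplSite α) ≤ LinearMap.ker (mplTot X) := by
    rintro _ ⟨c, rfl⟩
    rw [LinearMap.mem_ker]
    show ∑ v, ∑ i : ZMod 4, c.1 (v, i) = 0
    rw [← Fintype.sum_prod_type (f := fun d : X × ZMod 4 => c.1 d)]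
    exact mpl_sum hi hn c.2
  have h3 := Submodule.finrank_mono h2
  have h4 := LinearMap.finrank_range_add_finrank_ker (mplTot X)
  have h5 : LinearMap.range (mplTot X) = ⊤ := by
    rw [LinearMap.range_eq_top]
    intro t
    obtain ⟨x⟩ := (inferInstance : Nonempty X)
    refine ⟨Pi.single x t, ?_⟩
    show ∑ y, (Pi.single x t : X → ZMod 2) y = t
    simp
  rw [h5, finrank_top, Module.finrank_self, Module.finrank_fintype_fun_eq_card] at h4
  have h6 : (LinearMap.ker (mplSite α)).map (mplA α).subtype ≤ mplZ α := by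
    rintro _ ⟨c, hc, rfl⟩
    refine ⟨c.2, fun v => ?_⟩
    exact congrFun (LinearMap.mem_ker.1 hc) v
  have h7 := Submodule.finrank_mono h6
  rw [← (Submodule.equivMapOfInjective _ (mplA α).injective_subtype
    (LinearMap.ker (mplSite α))).finrank_eq] at h7
  have h8 := mplA_finrank hi
  omega

/-- the coboundary -/
private def mplDelta (α : X × ZMod 4 → X × ZMod 4) :
    (Face α → ZMod 2) →ₗ[ZMod 2] (X × ZMod 4 → ZMod 2) where
  toFun w := fun d => w (Quot.mk _ d) + w (Quot.mk _ (pv d))
  map_add' := by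
    intro a b
    funext d
    simp only [Pi.add_apply]
    ring
  map_smul' := by
    intro t a
    funext d
    simp only [Pi.smul_apply, smul_eq_mul, RingHom.id_apply]
    ring

omit [Fintype X] in
private theorem mpl_face (d : X × ZMod 4) :
    (Quot.mk _ (fs α d) : Face α) = Quot.mk _ d := by
  symm
  apply Quot.sound
  rfl

omit [Fintype X] in
private theorem mplDelta_range (hi : ∀ d, α (α d) = d) :
    LinearMap.range (mplDelta α) ≤ mplZ α := by
  rintro _ ⟨w, rfl⟩
  refine ⟨fun d => ?_, fun v => ?_⟩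
  · show w (Quot.mk _ (α d)) + w (Quot.mk _ (pv (α d))) = w (Quot.mk _ d) + w (Quot.mk _ (pv d))
    have e1 : (Quot.mk _ (pv (α d)) : Face α) = Quot.mk _ d := mpl_face d
    have e2 : (Quot.mk _ (α d) : Face α) = Quot.mk _ (pv d) := by
      have := mpl_face (α := α) (α d)
      rw [← this]
      show Quot.mk _ (pv (α (α d))) = _
      rw [hi]
    rw [e1, e2, add_comm]
  · show ∑ i : ZMod 4, (w (Quot.mk _ (v, i)) + w (Quot.mk _ (v, i - 1))) = 0
    rw [Finset.sum_add_distrib]
    have : ∑ i : ZMod 4, w (Quot.mk _ (v, i - 1)) = ∑ i : ZMod 4, w (Quot.mk _ (v, i)) :=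
      Fintype.sum_equiv (Equiv.subRight (1 : ZMod 4)) _ _ fun i => rfl
    rw [this]
    exact CharTwo.add_self_eq_zero _

omit [Fintype X] in
private theorem mplDelta_ker [Nonempty X] [Fintype (Face α)]
    (hc : ∀ M : X → Prop, (∀ d, M d.1 → M (α d).1) → (∃ x, M x) → ∀ y, M y) :
    Module.finrank (ZMod 2) (LinearMap.ker (mplDelta α)) ≤ 1 := by
  obtain ⟨x⟩ := (inferInstance : Nonempty X)
  have hle : LinearMap.ker (mplDelta α) ≤ Submodule.span (ZMod 2) {fun _ => 1} := by
    intro w hw
    have hpv : ∀ d, w (Quot.mk _ d) = w (Quot.mk _ (pv d)) := fun d =>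
      mpl_two _ _ (congrFun (LinearMap.mem_ker.1 hw) d)
    have hnx : ∀ d, w (Quot.mk _ (nx d)) = w (Quot.mk _ d) := fun d => by
      rw [hpv (nx d), mpl_pv_nx]
    have hal : ∀ d, w (Quot.mk _ (α d)) = w (Quot.mk _ d) := fun d => by
      rw [hpv (α d)]
      exact congrArg w (mpl_face d)
    have hsite : ∀ v (i : ZMod 4), w (Quot.mk _ (v, i)) = w (Quot.mk _ (v, 0)) := by
      intro v
      have h1 : w (Quot.mk _ (v, 1)) = w (Quot.mk _ (v, 0)) := hnx (v, 0)
      have h2 : w (Quot.mk _ (v, 2)) = w (Quot.mk _ (v, 1)) := hnx (v, 1)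
      have h3 : w (Quot.mk _ (v, 3)) = w (Quot.mk _ (v, 2)) := hnx (v, 2)
      have hall : ∀ i : ZMod 4, i = 0 ∨ i = 1 ∨ i = 2 ∨ i = 3 := by decide
      intro i
      rcases hall i with rfl | rfl | rfl | rfl
      · rfl
      · exact h1
      · rw [h2, h1]
      · rw [h3, h2, h1]
    have hconst : ∀ y, w (Quot.mk _ (y, 0)) = w (Quot.mk _ (x, 0)) := by
      refine hc (fun y => w (Quot.mk _ (y, 0)) = w (Quot.mk _ (x, 0))) ?_ ⟨x, rfl⟩
      intro d hd
      show w (Quot.mk _ ((α d).1, 0)) = w (Quot.mk _ (x, 0))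
      rw [← hd, ← hsite (α d).1 (α d).2, ← hsite d.1 d.2]
      exact hal d
    rw [Submodule.mem_span_singleton]
    refine ⟨w (Quot.mk _ (x, 0)), ?_⟩
    funext q
    induction q using Quot.inductionOn with
    | h d =>
      show w (Quot.mk _ (x, 0)) * 1 = w (Quot.mk _ (d.1, d.2))
      rw [mul_one, hsite d.1 d.2, hconst d.1]
  calc _ ≤ Module.finrank (ZMod 2) (Submodule.span (ZMod 2) {(fun _ => 1 : Face α → ZMod 2)}) :=
        Submodule.finrank_mono hle
    _ ≤ 1 := by
      have := finrank_span_le_card (R := ZMod 2) ({fun _ => 1} : Set (Face α → ZMod 2))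
      simpa using this

private theorem mplDelta_ker_ge [Nonempty X] [Fintype (Face α)] :
    1 ≤ Module.finrank (ZMod 2) (LinearMap.ker (mplDelta α)) := by
  obtain ⟨x⟩ := (inferInstance : Nonempty X)
  have hmem : (fun _ => 1 : Face α → ZMod 2) ∈ LinearMap.ker (mplDelta α) := by
    rw [LinearMap.mem_ker]
    funext d
    show (1 : ZMod 2) + 1 = 0
    decide
  have hne : LinearMap.ker (mplDelta α) ≠ ⊥ := by
    intro h0
    rw [h0, Submodule.mem_bot] at hmem
    have := congrFun hmem (Quot.mk _ (x, 0))
    exact one_ne_zero this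
  exact Submodule.one_le_finrank_iff.2 hne

theorem hom_iff_euler (hi : ∀ d, α (α d) = d) (hn : ∀ d, α d ≠ d)
    (hc : ∀ M : X → Prop, (∀ d, M d.1 → M (α d).1) → (∃ x, M x) → ∀ y, M y) [Nonempty X] :
    Hom α ↔ Nat.card (Face α) = Fintype.card X + 2 := by
  have hfin : Finite (Face α) := Quot.finite _
  have : Fintype (Face α) := Fintype.ofFinite _
  have h1 := LinearMap.finrank_range_add_finrank_ker (mplDelta α)
  rw [Module.finrank_fintype_fun_eq_card, ← Nat.card_eq_fintype_card] at h1
  have h2 := mplDelta_ker hc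
  have h3 := mplDelta_ker_ge (α := α)
  have h4 := mplZ_finrank_le hi hn hc
  have h5 := mplZ_finrank_ge hi hn
  have hiff : Hom α ↔ LinearMap.range (mplDelta α) = mplZ α := by
    constructor
    · intro h
      refine le_antisymm (mplDelta_range hi) ?_
      intro c hcZ
      obtain ⟨w, hw1, hw2⟩ := h c hcZ.1 hcZ.2
      refine ⟨Quot.lift w ?_, ?_⟩
      · rintro a b rfl
        exact (hw1 a).symm
      · funext d
        exact hw2 d
    · intro h c hc1 hc2
      have hcZ : c ∈ mplZ α := ⟨hc1, hc2⟩
      rw [← h] at hcZ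
      obtain ⟨w, hw⟩ := hcZ
      exact ⟨fun d => w (Quot.mk _ d), fun d => congrArg w (mpl_face d), fun d => congrFun hw d⟩
  rw [hiff]
  constructor
  · intro h
    rw [h] at h1
    omega
  · intro h
    refine Submodule.eq_of_le_of_finrank_le (mplDelta_range hi) ?_
    omega

theorem PMap.euler (h : PMap α) : Nat.card (Face α) = Fintype.card X + 2 := by
  have h2 := h.two
  have : Nonempty X := Fintype.card_pos_iff.1 (by omega)
  exact (hom_iff_euler h.inv h.ne (fun M hM hx => by
    obtain ⟨x, hx⟩ := hx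
    exact h.connected M hM hx)).1 h.hom

end SN78
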