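import Pool.Agent.SN78.RRun

/-!
# SN78 module RPIC: the picture of a rigid piece, combinatorics

`αp` is the shadow of a parent with the crossings `V`, the big vertices `F` and four ports;
`cls αp` is the closed map on `Option (V ⊕ F)` (`none` is the outside, port `k` is the dart `(none, -k)`).
The picture `rpic` has one node for each crossing `v : V`, on the dart `s v + 1`; the side `false` of the node
is towards `v`.  `ent d`: the bead which is met when one arrives at the dart `d` along an edge.
`bd d`: the end of a stick which ends at the dart `d` (for `¬ Ps d`); `sdt e`: the dart of the end `e`.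
For a crossing `w` the dart `s w + 1` is the side `true` of its node, the dart `s w + 3` the side `false` (a stick
arriving at `s w + 3` passes the crossing and ends at the node).

`rpic_opp`, for an end `e` with the dart `d = sdt e`.
 * `e = inr (w, false)`: `adj e = inl (.x w (s w + 1))`, `opp e = ed w (s w + 3) = bd (en (w, s w + 3))`.
 * otherwise `adj e = ent (αp d)`.  If `cls αp d` is at `none`, at a big vertex, or `(w, s w + 1)`: `ent` is the end
   `bd (cls αp d)`, `en d = cls αp d`.  If it is `(w, s w + 3)`: `ent = inl (.x w (s w + 3))`,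
   `opp = ed w (s w + 5) = ed w (s w + 1) = inr (w, false) = bd (w, s w + 3)`.  If it is straight, `Ps`:
   `opp = ed w (j + 2) = bd (en (op (α d))) = bd (en d)` (`en_go`).
`rpic_ok`: `adj_adj`, `adj_ne`: cases.  `ed_x`: `ed v i` with `αp (x v i) = x w j`, `j ≠ s w + 1`, `i ≠ s v + 1`: if `j = s w + 3`
both sides are `inr (w, false)`; otherwise `en_go`.  `ed_e`: cases.  `opp_ed`: `i = s v + 1`: `opp (inr (v, false))`;
`i = s v + 3`: `opp (bd (en (v, s v + 3))) = bd (en (en (v, s v + 3))) = bd (v, s v + 3) = inr (v, false)` (`rpic_opp`, `sdt_bd`,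
`en_en`); `i` straight: `en_thru`.
`rpic_real`: one or two steps of `Reach`.
`rpic_fin`: `en_inf`.
`rlab_at`: cases.
-/

namespace SN78

open Sum

variable {V F : Type}

/-- site darts of a parent as darts of the closed map -/
def toX : SD V F Unit → Option (V ⊕ F) × ZMod 4
  | .x v i => (some (inl v), i)
  | .f a i => (some (inr a), i)
  | .o _ i => (none, -i)

/-- the inverse of `toX` -/
def ofX : Option (V ⊕ F) × ZMod 4 → SD V F Unit
  | (some (inl v), i) => .x v i
  | (some (inr a), i) => .f a i
  | (none, i) => .o () (-i)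

/-- the closed map of a shadow -/
def cls (αp : SD V F Unit → SD V F Unit) :
    Option (V ⊕ F) × ZMod 4 → Option (V ⊕ F) × ZMod 4 := fun d => toX (αp (ofX d))

/-- the site is a crossing -/
def sgl : Option (V ⊕ F) → Prop
  | some (inl _) => True
  | _ => False

/-- the bead which is met when arriving at a dart -/
def ent (s : Option (V ⊕ F) → ZMod 4) : SD V F Unit → Bead V V F Unit
  | .x w j => if j = s (some (inl w)) + 1 then inr (w, true) else inl (.x w j)
  | .f a i => inl (.f a i)
  | .o a i => inl (.o a i)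

/-- the end of a stick which ends at a dart -/
def bd (s : Option (V ⊕ F) → ZMod 4) : Option (V ⊕ F) × ZMod 4 → Bead V V F Unit
  | (some (inl w), j) => if j = s (some (inl w)) + 1 then inr (w, true) else inr (w, false)
  | (some (inr a), i) => inl (.f a i)
  | (none, i) => inl (.o () (-i))

/-- the dart of an end -/
def sdt (s : Option (V ⊕ F) → ZMod 4) : Bead V V F Unit → Option (V ⊕ F) × ZMod 4
  | inl d => toX d
  | inr (w, true) => (some (inl w), s (some (inl w)) + 1)
  | inr (w, false) => (some (inl w), s (some (inl w)) + 3)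

/-- the picture -/
noncomputable def rpic (αp : SD V F Unit → SD V F Unit) (s : Option (V ⊕ F) → ZMod 4) :
    Pic V V F Unit where
  adj
    | inl (.x v i) =>
        if i = s (some (inl v)) + 1 then inr (v, false) else ent s (αp (.x v i))
    | inl (.f a i) => ent s (αp (.f a i))
    | inl (.o a i) => ent s (αp (.o a i))
    | inr (v, false) => inl (.x v (s (some (inl v)) + 1))
    | inr (v, true) => ent s (αp (.x v (s (some (inl v)) + 1)))
  ed v i :=
    if i = s (some (inl v)) + 1 then inr (v, false)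
    else bd s (en (cls αp) sgl none s (some (inl v), i))

/-- the labels -/
def rlab (D : ZMod 4 → H) (Q : Option (V ⊕ F) → H) : Lab V F Unit H where
  n v := Q (some (inl v))
  f a := Q (some (inr a))
  o _ i := D i

private theorem rpic_13 (a : ZMod 4) : a + 3 ≠ a + 1 := by
  revert a; decide

private theorem rpic_cases (a b : ZMod 4) : a = b ∨ a = b + 1 ∨ a = b + 2 ∨ a = b + 3 := by
  revert a b; decide

theorem toX_ofX (d : Option (V ⊕ F) × ZMod 4) : toX (ofX d) = d := by
  rcases d with ⟨_ | (v | a), i⟩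
  · show (none, - -i) = (none, i)
    rw [neg_neg]
  · rfl
  · rfl

theorem ofX_toX (d : SD V F Unit) : ofX (toX d) = d := by
  rcases d with ⟨v, i⟩ | ⟨a, i⟩ | ⟨⟨⟩, i⟩
  · rfl
  · rfl
  · show SD.o () (- -i) = SD.o () i
    rw [neg_neg]

theorem sdt_bd {s : Option (V ⊕ F) → ZMod 4} {d : Option (V ⊕ F) × ZMod 4}
    (h : ¬ Ps sgl none s d) : sdt s (bd s d) = d := by
  rcases d with ⟨_ | (v | a), i⟩
  · show (none, - -i) = (none, i)
    rw [neg_neg]
  · have h1 : ¬ (i = s (some (inl v)) ∨ i = s (some (inl v)) + 2) := by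
      intro h2
      exact h ⟨by simp, trivial, h2⟩
    rcases rpic_cases i (s (some (inl v))) with e | e | e | e
    · exact absurd (Or.inl e) h1
    · simp only [bd, if_pos e]
      show (some (inl v), s (some (inl v)) + 1) = (some (inl v), i)
      rw [e]
    · exact absurd (Or.inr e) h1
    · have e2 : i ≠ s (some (inl v)) + 1 := by
        rw [e]; exact rpic_13 _
      simp only [bd, if_neg e2]
      show (some (inl v), s (some (inl v)) + 3) = (some (inl v), i)
      rw [e]
  · rfl

theorem bd_sdt {s : Option (V ⊕ F) → ZMod 4} {e : Bead V V F Unit} (h : IsEnd e) :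
    bd s (sdt s e) = e := by
  rcases e with (⟨v, i⟩ | ⟨a, i⟩ | ⟨⟨⟩, i⟩) | ⟨w, _ | _⟩
  · exact h.elim
  · rfl
  · show (inl (SD.o () (- -i)) : Bead V V F Unit) = inl (SD.o () i)
    rw [neg_neg]
  · simp only [sdt, bd, if_neg (rpic_13 _)]
  · simp only [sdt, bd, if_true]

theorem bd_end {s : Option (V ⊕ F) → ZMod 4} (d : Option (V ⊕ F) × ZMod 4) :
    IsEnd (bd s d) := by
  rcases d with ⟨_ | (v | a), i⟩
  · trivial
  · by_cases e : i = s (some (inl v)) + 1
    · simp only [bd, if_pos e]; trivial
    · simp only [bd, if_neg e]; trivial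
  · trivial

theorem nps_sdt {s : Option (V ⊕ F) → ZMod 4} {e : Bead V V F Unit} (h : IsEnd e) :
    ¬ Ps sgl none s (sdt s e) := by
  rcases e with (⟨v, i⟩ | ⟨a, i⟩ | ⟨⟨⟩, i⟩) | ⟨w, _ | _⟩
  · exact h.elim
  · intro h2
    exact h2.2.1
  · intro h2
    exact h2.1 rfl
  · intro h2
    have h3 : s (some (inl w)) + 3 = s (some (inl w)) ∨
      s (some (inl w)) + 3 = s (some (inl w)) + 2 := h2.2.2
    generalize s (some (inl w)) = c at h3
    revert c; decide
  · intro h2
    have h3 : s (some (inl w)) + 1 = s (some (inl w)) ∨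
      s (some (inl w)) + 1 = s (some (inl w)) + 2 := h2.2.2
    generalize s (some (inl w)) = c at h3
    revert c; decide

theorem rlab_at {s : Option (V ⊕ F) → ZMod 4} (D : ZMod 4 → H) (Q : Option (V ⊕ F) → H)
    {e : Bead V V F Unit} (h : IsEnd e) : (rlab D Q).at e = qs D Q none (sdt s e) := by
  rcases e with (⟨v, i⟩ | ⟨a, i⟩ | ⟨⟨⟩, i⟩) | ⟨w, _ | _⟩
  · exact h.elim
  · simp [rlab, Lab.at, qs, sdt, toX]
  · simp [rlab, Lab.at, qs, sdt, toX]
  · simp [rlab, Lab.at, qs, sdt]
  · simp [rlab, Lab.at, qs, sdt]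

variable [Fintype V] [Fintype F] {αp : SD V F Unit → SD V F Unit}
  {o : Option (V ⊕ F) × ZMod 4 → Bool} {s : Option (V ⊕ F) → ZMod 4}

private theorem rpic_cls (αp : SD V F Unit → SD V F Unit) (d : SD V F Unit) :
    cls αp (toX d) = toX (αp d) := by
  unfold cls
  rw [ofX_toX]

private theorem rpic_inj {d d' : SD V F Unit} (h : toX d = toX d') : d = d' := by
  rw [← ofX_toX d, ← ofX_toX d', h]

private theorem rpic_inv (Fr : Frame (cls αp) none o s) (d : SD V F Unit) : αp (αp d) = d := by
  apply rpic_inj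
  rw [← rpic_cls, ← rpic_cls]
  exact Fr.rig.inv _

private theorem rpic_ne (Fr : Frame (cls αp) none o s) (d : SD V F Unit) : αp d ≠ d := by
  intro h
  apply Fr.rig.ne (toX d)
  rw [rpic_cls, h]

private theorem rpic_ent1 (w : V) : ent s (.x w (s (some (inl w)) + 1)) = inr (w, true) := by
  simp only [ent, if_true]

private theorem rpic_ent2 {w : V} {j : ZMod 4} (h : j ≠ s (some (inl w)) + 1) :
    ent s (.x w j) = inl (.x w j) := by
  simp only [ent, if_neg h]

private theorem rpic_ent_inj {d d' : SD V F Unit} (h : ent s d = ent s d') : d = d' := by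
  rcases d with ⟨v, i⟩ | ⟨a, i⟩ | ⟨⟨⟩, i⟩ <;> rcases d' with ⟨w, j⟩ | ⟨b, j⟩ | ⟨⟨⟩, j⟩
  · by_cases h1 : i = s (some (inl v)) + 1
    · by_cases h2 : j = s (some (inl w)) + 1
      · subst h1 h2
        rw [rpic_ent1, rpic_ent1] at h
        have h3 : v = w := by simpa using h
        rw [h3]
      · subst h1
        rw [rpic_ent1, rpic_ent2 h2] at h
        exact absurd h (by simp)
    · by_cases h2 : j = s (some (inl w)) + 1
      · subst h2
        rw [rpic_ent1, rpic_ent2 h1] at h
        exact absurd h (by simp)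
      · rw [rpic_ent2 h1, rpic_ent2 h2] at h
        exact Sum.inl_injective h
  · by_cases h1 : i = s (some (inl v)) + 1
    · subst h1
      rw [rpic_ent1] at h
      exact absurd h (by simp [ent])
    · rw [rpic_ent2 h1] at h
      exact absurd h (by simp [ent])
  · by_cases h1 : i = s (some (inl v)) + 1
    · subst h1
      rw [rpic_ent1] at h
      exact absurd h (by simp [ent])
    · rw [rpic_ent2 h1] at h
      exact absurd h (by simp [ent])
  · by_cases h1 : j = s (some (inl w)) + 1
    · subst h1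
      rw [rpic_ent1] at h
      exact absurd h (by simp [ent])
    · rw [rpic_ent2 h1] at h
      exact absurd h (by simp [ent])
  · simpa [ent] using h
  · exact absurd h (by simp [ent])
  · by_cases h1 : j = s (some (inl w)) + 1
    · subst h1
      rw [rpic_ent1] at h
      exact absurd h (by simp [ent])
    · rw [rpic_ent2 h1] at h
      exact absurd h (by simp [ent])
  · exact absurd h (by simp [ent])
  · simpa [ent] using h

/-- `adj` on the beads which are met from outside -/
private theorem rpic_adj_ent (d : SD V F Unit) : (rpic αp s).adj (ent s d) = ent s (αp d) := by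
  rcases d with ⟨v, i⟩ | ⟨a, i⟩ | ⟨⟨⟩, i⟩
  · by_cases h1 : i = s (some (inl v)) + 1
    · subst h1
      rw [rpic_ent1]
      rfl
    · rw [rpic_ent2 h1]
      show (if i = s (some (inl v)) + 1 then _ else _) = _
      rw [if_neg h1]
  · rfl
  · rfl

private theorem rpic_adj_x1 (v : V) :
    (rpic αp s).adj (inl (.x v (s (some (inl v)) + 1))) = inr (v, false) := by
  show (if s (some (inl v)) + 1 = s (some (inl v)) + 1 then _ else _) = _
  rw [if_pos rfl]

private theorem rpic_adj_f (v : V) :
    (rpic αp s).adj (inr (v, false)) = inl (.x v (s (some (inl v)) + 1)) := rfl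

/-- the beads -/
private theorem rpic_bead (s : Option (V ⊕ F) → ZMod 4) (b : Bead V V F Unit) :
    (∃ d, b = ent s d) ∨ (∃ v, b = inl (.x v (s (some (inl v)) + 1))) ∨
      ∃ v, b = inr (v, false) := by
  rcases b with (⟨v, i⟩ | ⟨a, i⟩ | ⟨⟨⟩, i⟩) | ⟨w, _ | _⟩
  · by_cases h1 : i = s (some (inl v)) + 1
    · subst h1
      exact Or.inr (Or.inl ⟨v, rfl⟩)
    · exact Or.inl ⟨.x v i, (rpic_ent2 h1).symm⟩
  · exact Or.inl ⟨.f a i, rfl⟩
  · exact Or.inl ⟨.o () i, rfl⟩
  · exact Or.inr (Or.inr ⟨w, rfl⟩)
  · exact Or.inl ⟨.x w (s (some (inl w)) + 1), (rpic_ent1 w).symm⟩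

private theorem rpic_ed1 (v : V) :
    (rpic αp s).ed v (s (some (inl v)) + 1) = inr (v, false) := by
  show (if s (some (inl v)) + 1 = s (some (inl v)) + 1 then _ else _) = _
  rw [if_pos rfl]

private theorem rpic_ed2 {v : V} {i : ZMod 4} (h : i ≠ s (some (inl v)) + 1) :
    (rpic αp s).ed v i = bd s (en (cls αp) sgl none s (some (inl v), i)) := by
  show (if i = s (some (inl v)) + 1 then _ else _) = _
  rw [if_neg h]

private theorem rpic_en_stop {d : SD V F Unit} (h : ¬ Ps sgl none s (toX (αp d))) :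
    en (cls αp) sgl none s (toX d) = toX (αp d) := by
  rw [en_stop (by rw [rpic_cls]; exact h), rpic_cls]

private theorem rpic_nps1 (w : V) {j : ZMod 4} (h : j ≠ s (some (inl w)))
    (h2 : j ≠ s (some (inl w)) + 2) : ¬ Ps sgl none s (some (inl w), j) := by
  intro h3
  rcases h3.2.2 with e | e
  · exact h e
  · exact h2 e

private theorem rpic_z1 (a : ZMod 4) : a + 1 ≠ a ∧ a + 1 ≠ a + 2 ∧ a + 3 ≠ a ∧ a + 3 ≠ a + 2 := by
  revert a; decide

private theorem rpic_z3 (a : ZMod 4) : a + 3 + 2 = a + 1 := by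
  revert a; decide

private theorem rpic_zs (a j : ZMod 4) (h : j = a ∨ j = a + 2) : j + 2 ≠ a + 1 := by
  revert a j; decide

/-- the stick end which is met from the dart `d` -/
private theorem rpic_key (Fr : Frame (cls αp) none o s) {d : SD V F Unit}
    {w : V} {j : ZMod 4} (h : αp d = .x w j) (hj : j ≠ s (some (inl w)) + 1) :
    (rpic αp s).ed w (j + 2) = bd s (en (cls αp) sgl none s (toX d)) := by
  rcases rpic_cases j (s (some (inl w))) with e | e | e | e
  · have hp : Ps sgl none s (cls αp (toX d)) := by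
      rw [rpic_cls, h]
      exact ⟨by simp [toX], trivial, Or.inl e⟩
    rw [rpic_ed2 (rpic_zs _ _ (Or.inl e)), Fr.en_go hp]
    unfold nt
    rw [rpic_cls, h]
    rfl
  · exact absurd e hj
  · have hp : Ps sgl none s (cls αp (toX d)) := by
      rw [rpic_cls, h]
      exact ⟨by simp [toX], trivial, Or.inr e⟩
    rw [rpic_ed2 (rpic_zs _ _ (Or.inr e)), Fr.en_go hp]
    unfold nt
    rw [rpic_cls, h]
    rfl
  · have hn : ¬ Ps sgl none s (toX (αp d)) := by
      rw [h, e]
      exact rpic_nps1 w (rpic_z1 _).2.2.1 (rpic_z1 _).2.2.2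
    rw [rpic_en_stop hn, h, e, rpic_z3, rpic_ed1]
    simp only [toX, bd, if_neg (rpic_13 _)]

private theorem rpic_key2 {d : SD V F Unit} (h : IsEnd (ent s (αp d))) :
    ent s (αp d) = bd s (en (cls αp) sgl none s (toX d)) := by
  have hn : ¬ Ps sgl none s (toX (αp d)) := by
    rcases hd : αp d with ⟨w, j⟩ | ⟨a, j⟩ | ⟨⟨⟩, j⟩
    · rw [hd] at h
      by_cases hj : j = s (some (inl w)) + 1
      · subst hj
        exact rpic_nps1 w (rpic_z1 _).1 (rpic_z1 _).2.1
      · rw [rpic_ent2 hj] at h
        exact h.elim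
    · intro h2
      exact h2.2.1
    · intro h2
      exact h2.1 rfl
  rw [rpic_en_stop hn]
  rcases hd : αp d with ⟨w, j⟩ | ⟨a, j⟩ | ⟨⟨⟩, j⟩
  · rw [hd] at h
    by_cases hj : j = s (some (inl w)) + 1
    · subst hj
      simp only [ent, toX, bd, if_true]
    · rw [rpic_ent2 hj] at h
      exact h.elim
  · rfl
  · show (inl (SD.o () j) : Bead V V F Unit) = inl (SD.o () (- -j))
    rw [neg_neg]

private theorem rpic_opp_x {P : Pic V V F Unit} {e : Bead V V F Unit} {w : V} {j : ZMod 4}
    (h : P.adj e = inl (.x w j)) : P.opp e = P.ed w (j + 2) := by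
  unfold Pic.opp
  rw [h]

private theorem rpic_opp_e {P : Pic V V F Unit} {e : Bead V V F Unit}
    (h : IsEnd (P.adj e)) : P.opp e = P.adj e := by
  unfold Pic.opp
  rcases hd : P.adj e with (⟨w, j⟩ | ⟨a, j⟩ | ⟨⟨⟩, j⟩) | ⟨w, c⟩
  · rw [hd] at h
    exact h.elim
  · rfl
  · rfl
  · rfl

private theorem rpic_opp_ent (Fr : Frame (cls αp) none o s) {e : Bead V V F Unit}
    {d : SD V F Unit} (h : (rpic αp s).adj e = ent s (αp d)) :
    (rpic αp s).opp e = bd s (en (cls αp) sgl none s (toX d)) := by
  by_cases hE : IsEnd (ent s (αp d))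
  · rw [rpic_opp_e (by rw [h]; exact hE), h, rpic_key2 hE]
  · rcases hd : αp d with ⟨w, j⟩ | ⟨a, j⟩ | ⟨⟨⟩, j⟩
    · by_cases hj : j = s (some (inl w)) + 1
      · subst hj
        rw [hd, rpic_ent1] at hE
        exact absurd trivial hE
      · rw [hd, rpic_ent2 hj] at h
        rw [rpic_opp_x h, rpic_key Fr hd hj]
    · rw [hd] at hE
      exact absurd trivial hE
    · rw [hd] at hE
      exact absurd trivial hE

theorem rpic_opp (Fr : Frame (cls αp) none o s) {e : Bead V V F Unit} (he : IsEnd e) :
    (rpic αp s).opp e = bd s (en (cls αp) sgl none s (sdt s e)) := by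
  rcases e with (⟨v, i⟩ | ⟨a, i⟩ | ⟨⟨⟩, i⟩) | ⟨w, _ | _⟩
  · exact he.elim
  · exact rpic_opp_ent Fr (d := .f a i) rfl
  · exact rpic_opp_ent Fr (d := .o () i) rfl
  · rw [rpic_opp_x (rpic_adj_f w)]
    have h1 : s (some (inl w)) + 1 + 2 = s (some (inl w)) + 3 := by
      rw [add_assoc]; rfl
    rw [h1, rpic_ed2 (rpic_13 _)]
    rfl
  · exact rpic_opp_ent Fr (d := .x w (s (some (inl w)) + 1)) rfl

theorem sdt_opp (Fr : Frame (cls αp) none o s) {e : Bead V V F Unit} (he : IsEnd e) :
    sdt s ((rpic αp s).opp e) = en (cls αp) sgl none s (sdt s e) := by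
  rw [rpic_opp Fr he]
  exact sdt_bd (Fr.en_nps _)

theorem rpic_ok (Fr : Frame (cls αp) none o s) : (rpic αp s).Ok where
  adj_adj b := by
    rcases rpic_bead s b with ⟨d, rfl⟩ | ⟨v, rfl⟩ | ⟨v, rfl⟩
    · rw [rpic_adj_ent, rpic_adj_ent, rpic_inv Fr]
    · rw [rpic_adj_x1, rpic_adj_f]
    · rw [rpic_adj_f, rpic_adj_x1]
  adj_ne b := by
    rcases rpic_bead s b with ⟨d, rfl⟩ | ⟨v, rfl⟩ | ⟨v, rfl⟩
    · rw [rpic_adj_ent]
      intro h
      exact rpic_ne Fr d (rpic_ent_inj h)
    · rw [rpic_adj_x1]
      simp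
    · rw [rpic_adj_f]
      simp
  ed_end v i := by
    by_cases h : i = s (some (inl v)) + 1
    · subst h
      rw [rpic_ed1]
      trivial
    · rw [rpic_ed2 h]
      exact bd_end _
  ed_x v i w j hx := by
    by_cases h : i = s (some (inl v)) + 1
    · subst h
      rw [rpic_adj_x1] at hx
      exact absurd hx (by simp)
    · have h1 : ent s (αp (.x v i)) = inl (.x w j) := by
        rw [← hx, ← rpic_ent2 (s := s) h, rpic_adj_ent]
      have h2 : αp (.x v i) = .x w j ∧ j ≠ s (some (inl w)) + 1 := by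
        rcases hd : αp (.x v i) with ⟨w', j'⟩ | ⟨a, j'⟩ | ⟨⟨⟩, j'⟩
        · rw [hd] at h1
          by_cases hj : j' = s (some (inl w')) + 1
          · subst hj
            rw [rpic_ent1] at h1
            exact absurd h1 (by simp)
          · rw [rpic_ent2 hj] at h1
            have h3 : SD.x w' j' = (SD.x w j : SD V F Unit) := Sum.inl_injective h1
            refine ⟨h3, ?_⟩
            have h4 : w' = w ∧ j' = j := by simpa using h3
            rw [← h4.1, ← h4.2]
            exact hj
        · rw [hd] at h1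
          exact absurd h1 (by simp [ent])
        · rw [hd] at h1
          exact absurd h1 (by simp [ent])
      rw [rpic_ed2 h, rpic_key Fr h2.1 h2.2]
      rfl
  ed_e v i he := by
    by_cases h : i = s (some (inl v)) + 1
    · subst h
      rw [rpic_ed1, rpic_adj_x1]
    · have h1 : (rpic αp s).adj (inl (.x v i)) = ent s (αp (.x v i)) := by
        rw [← rpic_ent2 (s := s) h, rpic_adj_ent]
      rw [h1] at he ⊢
      rw [rpic_ed2 h, rpic_key2 he]
      rfl
  opp_ed v i := by
    rcases rpic_cases i (s (some (inl v))) with e | e | e | e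
    · have h : i ≠ s (some (inl v)) + 1 := by
        rw [e]; exact (rpic_z1 _).1.symm
      rw [rpic_ed2 h, rpic_opp Fr (bd_end _), sdt_bd (Fr.en_nps _),
        rpic_ed2 (rpic_zs _ _ (Or.inl e))]
      have h2 : Ps sgl none s (some (inl v), i + 2) := ⟨by simp, trivial, Or.inr (by
        show i + 2 = s (some (inl v)) + 2
        rw [e])⟩
      have h3 := Fr.en_thru h2
      have h4 : op ((some (inl v), i + 2) : Option (V ⊕ F) × ZMod 4) = (some (inl v), i) := by
        unfold op
        refine Prod.ext rfl ?_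
        show i + 2 + 2 = i
        have : ∀ i : ZMod 4, i + 2 + 2 = i := by decide
        exact this i
      rw [h4] at h3
      rw [h3]
    · subst e
      rw [rpic_ed1, rpic_opp_x (rpic_adj_f v)]
    · have h : i ≠ s (some (inl v)) + 1 := by
        rw [e]; exact (rpic_z1 _).2.1.symm
      rw [rpic_ed2 h, rpic_opp Fr (bd_end _), sdt_bd (Fr.en_nps _),
        rpic_ed2 (rpic_zs _ _ (Or.inr e))]
      have h2 : Ps sgl none s (some (inl v), i + 2) := ⟨by simp, trivial, Or.inl (by
        show i + 2 = s (some (inl v))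
        rw [e]
        have : ∀ i : ZMod 4, i + 2 + 2 = i := by decide
        exact this _)⟩
      have h3 := Fr.en_thru h2
      have h4 : op ((some (inl v), i + 2) : Option (V ⊕ F) × ZMod 4) = (some (inl v), i) := by
        unfold op
        refine Prod.ext rfl ?_
        show i + 2 + 2 = i
        have : ∀ i : ZMod 4, i + 2 + 2 = i := by decide
        exact this i
      rw [h4] at h3
      rw [h3]
    · have h : i ≠ s (some (inl v)) + 1 := by
        rw [e]; exact rpic_13 _
      rw [rpic_ed2 h, rpic_opp Fr (bd_end _), sdt_bd (Fr.en_nps _), Fr.en_en, e, rpic_z3,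
        rpic_ed1]
      · simp only [bd, if_neg (rpic_13 _)]
      · rw [e]
        exact rpic_nps1 v (rpic_z1 _).2.2.1 (rpic_z1 _).2.2.2

private theorem rpic_reach {b : Bead V V F Unit} {e : SD V F Unit}
    (h : (rpic αp s).adj b = ent s e) : Reach (rpic αp s).adj b e := by
  rcases e with ⟨w, j⟩ | ⟨a, j⟩ | ⟨⟨⟩, j⟩
  · by_cases hj : j = s (some (inl w)) + 1
    · subst hj
      rw [rpic_ent1] at h
      exact Reach.node h (Reach.site (rpic_adj_f w))
    · rw [rpic_ent2 hj] at h
      exact Reach.site h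
  · exact Reach.site h
  · exact Reach.site h

theorem rpic_real (Fr : Frame (cls αp) none o s) : (rpic αp s).Real αp where
  site d := by
    rcases d with ⟨v, i⟩ | ⟨a, i⟩ | ⟨⟨⟩, i⟩
    · by_cases hi : i = s (some (inl v)) + 1
      · subst hi
        exact Reach.node (rpic_adj_x1 v) (rpic_reach rfl)
      · apply rpic_reach
        rw [← rpic_ent2 (s := s) hi, rpic_adj_ent]
    · exact rpic_reach rfl
    · exact rpic_reach rfl
  node a c := by
    rcases c with _ | _
    · exact ⟨_, Reach.site (rpic_adj_f a)⟩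
    · exact ⟨αp (.x a (s (some (inl a)) + 1)), rpic_reach rfl⟩

theorem rpic_fin (Fr : Frame (cls αp) none o s) (i j : ZMod 4) :
    (rpic αp s).opp (inl (.o () i)) ≠ inl (.o () j) := by
  rw [rpic_opp Fr (by trivial)]
  have h := Fr.en_inf (sg := sgl) (d := sdt s (inl (.o () i) : Bead V V F Unit)) rfl
  generalize en (cls αp) sgl none s (sdt s (inl (.o () i) : Bead V V F Unit)) = d at h
  rcases d with ⟨_ | (v | a), k⟩
  · exact absurd rfl h
  · by_cases e : k = s (some (inl v)) + 1
    · simp [bd, if_pos e]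
    · simp [bd, if_neg e]
  · simp [bd]

end SN78
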