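import Pool.Agent.SN78.MIso
import Pool.Agent.SN78.RPic

/-!
# SN78 module MGLUE: insertion of prime tangles into a prime plane map

Let `σ = closeA (glueA αp (fun X => (β X).α))`, `τ = cls αp`, `κ X = closeA (β X).α`.  The sites of `σ`: `none`,
`some (inl v)`, `some (inr ⟨X, v⟩)`.  For a dart `e` of `τ` let `ι e` be: `(none, i) ↦ (none, i)`,
`(some (inl v), i) ↦ (some (inl v), i)`, and `(some (inr X), i) ↦ (some (inr ⟨X, v⟩), j)` where
`(β X).α (.o () i) = .x v j` (`PT.proper`).  Then
(a) `σ (ι e) = ι (τ e)` (`toX`, `ofX`);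
(b) for a dart `(v, i)` of `β X`: if `(β X).α (.x v i) = .x w j` then `σ (some (inr ⟨X, v⟩), i) = (some (inr ⟨X, w⟩), j)`,
and if `(β X).α (.x v i) = .o () j` then `(some (inr ⟨X, v⟩), i) = ι (some (inr X), j)` (`PT.inv`).
`inv` follows from (a), (b).  `two`: `none` and another site (`τ` has at least two sites; if the other one is
`some (inr X)` then `(β X).V` is nonempty).

`hom`: let `c` be a cycle on `σ`.  `cp e = c (ι e)` is a cycle on `τ` (at `some (inr X)`: the sum over the four
ports is the sum of `c` over all darts of `β X`, because the inner darts are paired by `σ`).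
`c_X (some v, i) = c (some (inr ⟨X, v⟩), i)`, `c_X (none, i) = c (ι (some (inr X), - i))` is a cycle on `κ X`.
By `hom` we have face functions `wp` and `w_X`.  At the ports of `X`:
`wp (inr X, i) + wp (inr X, i - 1) = cp (inr X, i)`, `w_X (none, - i) + w_X (none, - i - 1) = cp (inr X, i)`; with
`u i = w_X (none, - i - 1)` this says that `wp (inr X, i) + u i` does not depend on `i`; call it `K_X`.  Let
`w (some (inr ⟨X, v⟩), i) = w_X (some v, i) + K_X`, `w = wp` on the other sites.  `w d + w (pv d) = c d` is clear.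
Face function: claim `w (ι e) = wp e` for all `e` (for `e = (inr X, i)` with `ι e = (v, j)` in `β X`:
`κ X (some v, j) = (none, - i)`, so `w_X (some v, j) = w_X (fs (κ X) (some v, j)) = u i`), and `w (pv (ι e)) = wp (pv e)`
(from the claim and the two difference formulas).  So for `d = ι e`: `w (fs σ d) = w (pv (ι (τ e))) =
wp (pv (τ e)) = wp e = w d`.  For the other darts `d` of `β X` use `w_X`.

`cut4`: let `A` be a nonempty set of sites of `σ`, not everything.  Let `C_X` be the set of the sites of `β X`;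
`cut σ C_X = 4`.  For `B ⊆ C_X` nonempty `4 ≤ cut σ B` (this is a cut of `κ X`).
Say that `X` is split if `A ∩ C_X` and `C_X \ A` are nonempty.  Induction on the number of split `X`.
If no `X` is split, then `A` is the union of the `A z`, `z ∈ B`, for a set `B` of sites of `τ`, nonempty and not
everything, and `cut σ A = cut τ B` (as in `Contr.cut_eq`; the darts leaving `A` are the `ι e`, `e` leaving `B`).
If `X` is split and `A ∪ C_X` is not everything: `cut_inter_union` gives
`cut (A ∩ C_X) + cut (A ∪ C_X) ≤ cut A + 4`, so `cut (A ∪ C_X) ≤ cut A`; induction for `A ∪ C_X`.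
If `A ∪ C_X` is everything: then `Aᶜ ⊆ C_X` is nonempty and `cut A = cut Aᶜ ≥ 4`.

`aS_pmap`: `cls aS` has three sites, `L = some (inr false)`, `R = some (inr true)`, `none`; the edges are
`L0 - R1`, `L3 - R2`, `L1 - none 3`, `L2 - none 2`, `R0 - none 0`, `R3 - none 1`.  All cuts are cuts of single sites
(`cut_compl'`).  `hom`: given the cycle `c` put `w (L, 0) = 0`, `w (L, i) = ∑_{0 < k ≤ i} c (L, k)`; the
condition `w (fs d) = w d` and the differences determine the other values; the conditions at the sites make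
this consistent.
-/

namespace SN78

open Sum

/-- the parent of a sum: `false` is the left summand, `true` is the right one -/
def aS : SD Empty Bool Unit → SD Empty Bool Unit
  | .x e _ => e.elim
  | .f false i => if i = 0 then .f true 1 else if i = 3 then .f true 2 else .o () i
  | .f true i => if i = 1 then .f false 0 else if i = 2 then .f false 3 else .o () i
  | .o _ i => if i = 1 ∨ i = 2 then .f false i else .f true i

private theorem mgl_z4 (i : ZMod 4) : i = 0 ∨ i = 1 ∨ i = 2 ∨ i = 3 := by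
  revert i; decide

private theorem mgl_two (a b : ZMod 2) (h : a + b = 0) : a = b := by
  revert a b; decide

/-- a site of the closed map of the parent is `none`, left or right -/
private theorem mgl_site (z : Option (Empty ⊕ Bool)) :
    z = none ∨ z = some (inr false) ∨ z = some (inr true) := by
  rcases z with _ | (e | b)
  · exact Or.inl rfl
  · exact e.elim
  · cases b
    · exact Or.inr (Or.inl rfl)
    · exact Or.inr (Or.inr rfl)

private theorem aS_cut (A : Finset (Option (Empty ⊕ Bool))) (hA : A.Nonempty)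
    (hA2 : A ≠ Finset.univ) : 4 ≤ cut (cls aS) A := by
  have h1 : ∀ A : Finset (Option (Empty ⊕ Bool)), A.Nonempty → A ≠ Finset.univ →
      4 ≤ (Finset.univ.filter fun d : Option (Empty ⊕ Bool) × ZMod 4 =>
        d.1 ∈ A ∧ (cls aS d).1 ∉ A).card := by
    decide
  have h2 := h1 A hA hA2
  unfold cut
  rw [Nat.card_eq_fintype_card, Fintype.card_subtype]
  exact h2

theorem aS_pmap : PMap (cls aS) := by
  refine ⟨by decide, by decide, aS_cut, ?_⟩
  intro c h1 h2
  have e1 : c (some (inr true), 1) = c (some (inr false), 0) := h1 (some (inr false), 0)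
  have e2 : c (some (inr true), 2) = c (some (inr false), 3) := h1 (some (inr false), 3)
  have e3 : c (none, 3) = c (some (inr false), 1) := h1 (some (inr false), 1)
  have e4 : c (none, 2) = c (some (inr false), 2) := h1 (some (inr false), 2)
  have e5 : c (none, 0) = c (some (inr true), 0) := h1 (some (inr true), 0)
  have e6 : c (none, 1) = c (some (inr true), 3) := h1 (some (inr true), 3)
  have hs : ∀ f : ZMod 4 → ZMod 2, ∑ i : ZMod 4, f i = f 0 + f 1 + f 2 + f 3 := fun f =>
    Fin.sum_univ_four (f := f)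
  have s1 := h2 (some (inr false))
  have s2 := h2 (some (inr true))
  have s3 := h2 none
  rw [hs] at s1 s2 s3
  rw [e1, e2] at s2
  rw [e3, e4, e5, e6] at s3
  have key : ∀ a0 a1 a2 a3 b0 b3 : ZMod 2, a0 + a1 + a2 + a3 = 0 → b0 + a0 + a3 + b3 = 0 →
      b0 + b3 + a2 + a1 = 0 →
      (0 + (a1 + a2 + a3) = a0 ∧ a1 + 0 = a1 ∧ a1 + a2 + a1 = a2 ∧ a1 + a2 + a3 + (a1 + a2) = a3) ∧
      (0 + b0 = b0 ∧ a1 + a2 + a3 + 0 = a0 ∧ a1 + a2 + (a1 + a2 + a3) = a3 ∧ b0 + (a1 + a2) = b3) ∧
      (b0 + 0 = b0 ∧ a1 + a2 + b0 = b3 ∧ a1 + (a1 + a2) = a2 ∧ 0 + a1 = a1) := by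
    decide
  obtain ⟨⟨k0, k1, k2, k3⟩, ⟨l0, l1, l2, l3⟩, ⟨m0, m1, m2, m3⟩⟩ := key _ _ _ _ _ _ s1 s2 s3
  refine ⟨fun d => match d with
    | (some (inl e), _) => e.elim
    | (some (inr false), i) => (![0, c (some (inr false), 1),
        c (some (inr false), 1) + c (some (inr false), 2),
        c (some (inr false), 1) + c (some (inr false), 2) + c (some (inr false), 3)] :
          Fin 4 → ZMod 2) i
    | (some (inr true), i) => (![0,
        c (some (inr false), 1) + c (some (inr false), 2) + c (some (inr false), 3),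
        c (some (inr false), 1) + c (some (inr false), 2),
        c (some (inr true), 0)] : Fin 4 → ZMod 2) i
    | (none, i) => (![c (some (inr true), 0),
        c (some (inr false), 1) + c (some (inr false), 2),
        c (some (inr false), 1), 0] : Fin 4 → ZMod 2) i, ?_, ?_⟩
  · rintro ⟨z, i⟩
    rcases mgl_site z with rfl | rfl | rfl <;> rcases mgl_z4 i with rfl | rfl | rfl | rfl <;> rfl
  · rintro ⟨z, i⟩
    rcases mgl_site z with rfl | rfl | rfl <;> rcases mgl_z4 i with rfl | rfl | rfl | rfl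
    · exact m0.trans e5.symm
    · exact m1.trans e6.symm
    · exact m2.trans e4.symm
    · exact m3.trans e3.symm
    · exact k0
    · exact k1
    · exact k2
    · exact k3
    · exact l0
    · exact l1.trans e1.symm
    · exact l2.trans e2.symm
    · exact l3

namespace Tn

section glue
variable {V F : Type} {αp : SD V F Unit → SD V F Unit} {β : F → Tn}

/-- the sites of the composite over the sites of the parent -/
private def mglPr : Option (GV V fun X => (β X).V) → Option (V ⊕ F)
  | none => none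
  | some (inl v) => some (inl v)
  | some (inr p) => some (inr p.1)

/-- the data of the ports of the tangles -/
private structure Prt (β : F → Tn) (P : ∀ X, ZMod 4 → (β X).V × ZMod 4) : Prop where
  port : ∀ X i, (β X).α (.o () i) = .x (P X i).1 (P X i).2
  pt : ∀ X, (β X).PT

private theorem mgl_exists_port (hβ : ∀ X, (β X).PT) : ∃ P, Prt β P := by
  have h : ∀ X i, ∃ p : (β X).V × ZMod 4, (β X).α (.o () i) = .x p.1 p.2 := by
    intro X i
    obtain ⟨v, j, h⟩ := (hβ X).proper i
    exact ⟨(v, j), h⟩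
  choose P hP using h
  exact ⟨P, hP, hβ⟩

/-- the darts of the parent in the composite -/
private def mglIo (P : ∀ X, ZMod 4 → (β X).V × ZMod 4) :
    Option (V ⊕ F) × ZMod 4 → Option (GV V fun X => (β X).V) × ZMod 4
  | (none, i) => (none, i)
  | (some (inl v), i) => (some (inl v), i)
  | (some (inr X), i) => (some (inr ⟨X, (P X i).1⟩), (P X i).2)

/-- the darts of a composite tangle in the closed composite -/
private def mglCl : SD (GV V fun X => (β X).V) Empty Unit → Option (GV V fun X => (β X).V) × ZMod 4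
  | .x v i => (some v, i)
  | .f e _ => e.elim
  | .o _ i => (none, - i)

private theorem mglCl_close (α : Tg (GV V fun X => (β X).V)) (d) :
    closeA α (mglCl d) = mglCl (α d) := by
  rcases d with ⟨v, i⟩ | ⟨e, i⟩ | ⟨a, i⟩
  · rcases h : α (.x v i) with ⟨w, j⟩ | ⟨e, j⟩ | ⟨a, j⟩
    · simp only [mglCl, closeA, h]
    · exact e.elim
    · simp only [mglCl, closeA, h]
  · exact e.elim
  · rcases h : α (.o () i) with ⟨w, j⟩ | ⟨e, j⟩ | ⟨a, j⟩
    · simp only [mglCl, closeA, neg_neg, h]
    · exact e.elim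
    · simp only [mglCl, closeA, neg_neg, h]

variable {P : ∀ X, ZMod 4 → (β X).V × ZMod 4}

/-- the composite -/
private abbrev mglS (αp : SD V F Unit → SD V F Unit) (β : F → Tn) :
    Option (GV V fun X => (β X).V) × ZMod 4 → Option (GV V fun X => (β X).V) × ZMod 4 :=
  closeA (glueA αp (fun X => (β X).α))

private theorem mglS_cl (d : SD (GV V fun X => (β X).V) Empty Unit) :
    mglS αp β (mglCl d) = mglCl (glueA αp (fun X => (β X).α) d) := mglCl_close _ d

private theorem mgl_inc (hP : Prt β P) (d : SD (GV V fun X => (β X).V) Empty Unit)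
    (e : SD V F Unit) : mglCl (incA (fun X => (β X).α) d e) = mglIo P (toX e) := by
  rcases e with ⟨v, i⟩ | ⟨X, i⟩ | ⟨a, i⟩
  · rfl
  · show mglCl (dnA X d ((β X).α (.o () i))) = _
    rw [hP.port]
    rfl
  · rfl

private theorem mgl_port_inv (hP : Prt β P) (X : F) (i : ZMod 4) :
    (β X).α (.x (P X i).1 (P X i).2) = .o () i := by
  rw [← hP.port, (hP.pt X).inv]

private theorem mgl_port_eq (hP : Prt β P) {X : F} {v : (β X).V} {i j : ZMod 4}
    (h : (β X).α (.x v i) = .o () j) : P X j = (v, i) := by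
  have h1 := hP.port X j
  rw [← h, (hP.pt X).inv] at h1
  simp only [SD.x.injEq] at h1
  exact Prod.ext h1.1.symm h1.2.symm

/-- (a) -/
private theorem mgl_com (hP : Prt β P) (e : Option (V ⊕ F) × ZMod 4) :
    mglS αp β (mglIo P e) = mglIo P (cls αp e) := by
  obtain ⟨_ | (v | X), i⟩ := e
  · have h1 : mglIo (V := V) P (none, i) = mglCl (.o () (-i)) := by
      show _ = (none, - -i)
      rw [neg_neg]
      rfl
    rw [h1, mglS_cl]
    exact mgl_inc hP _ _
  · have h1 : mglIo P (some (inl v), i) = mglCl (.x (inl v) i) := rfl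
    rw [h1, mglS_cl]
    exact mgl_inc hP _ _
  · have h1 : mglIo (V := V) P (some (inr X), i) = mglCl (.x (inr ⟨X, (P X i).1⟩) (P X i).2) := rfl
    rw [h1, mglS_cl]
    show mglCl (outA αp (fun X => (β X).α) X (.x (inr ⟨X, (P X i).1⟩) (P X i).2)
      ((β X).α (.x (P X i).1 (P X i).2))) = _
    rw [mgl_port_inv hP]
    exact mgl_inc hP _ _

/-- (b) -/
private theorem mgl_in {X : F} {v w : (β X).V} {i j : ZMod 4} (h : (β X).α (.x v i) = .x w j) :
    mglS αp β (some (inr ⟨X, v⟩), i) = (some (inr ⟨X, w⟩), j) := by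
  have h1 : ((some (inr ⟨X, v⟩), i) : Option (GV V fun X => (β X).V) × ZMod 4) =
    mglCl (.x (inr ⟨X, v⟩) i) := rfl
  rw [h1, mglS_cl]
  show mglCl (outA αp (fun X => (β X).α) X (.x (inr ⟨X, v⟩) i) ((β X).α (.x v i))) = _
  rw [h]
  rfl

/-- all darts -/
private theorem mgl_cases (hP : Prt β P) (d : Option (GV V fun X => (β X).V) × ZMod 4) :
    (∃ e, d = mglIo P e) ∨ ∃ X v i w j, d = (some (inr ⟨X, v⟩), i) ∧ (β X).α (.x v i) = .x w j := by
  obtain ⟨_ | (v | ⟨X, v⟩), i⟩ := d
  · exact Or.inl ⟨(none, i), rfl⟩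
  · exact Or.inl ⟨(some (inl v), i), rfl⟩
  · rcases h : (β X).α (.x v i) with ⟨w, j⟩ | ⟨e, j⟩ | ⟨a, j⟩
    · exact Or.inr ⟨X, v, i, w, j, rfl, h⟩
    · exact e.elim
    · refine Or.inl ⟨(some (inr X), j), ?_⟩
      have h1 := mgl_port_eq hP h
      show _ = ((some (inr ⟨X, (P X j).1⟩), (P X j).2) : Option (GV V fun X => (β X).V) × ZMod 4)
      rw [h1]

private theorem mgl_io_pr (e : Option (V ⊕ F) × ZMod 4) : mglPr (mglIo P e).1 = e.1 := by
  obtain ⟨_ | (v | X), i⟩ := e <;> rfl

private theorem mgl_io_inj (hP : Prt β P) : Function.Injective (mglIo (V := V) P) := by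
  intro e e' h
  have h1 := mgl_io_pr (P := P) e
  rw [h, mgl_io_pr] at h1
  obtain ⟨z, i⟩ := e
  obtain ⟨z', i'⟩ := e'
  simp only at h1
  subst h1
  rcases z' with _ | (v | X)
  · simpa [mglIo] using h
  · simpa [mglIo] using h
  · have h2 : P X i = P X i' := by
      simp only [mglIo, Prod.mk.injEq, Option.some.injEq, Sum.inr.injEq, Sigma.mk.injEq,
        heq_eq_eq, true_and] at h
      exact Prod.ext h.1 h.2
    have h3 := mgl_port_inv hP X i
    rw [h2, mgl_port_inv hP X i'] at h3
    simp only [SD.o.injEq, true_and] at h3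
    rw [h3]

private theorem mgl_inv (hp : ∀ d, cls αp (cls αp d) = d) (hP : Prt β P) (d) :
    mglS αp β (mglS αp β d) = d := by
  rcases mgl_cases hP d with ⟨e, rfl⟩ | ⟨X, v, i, w, j, rfl, h⟩
  · rw [mgl_com hP, mgl_com hP, hp]
  · rw [mgl_in h, mgl_in]
    rw [← h, (hP.pt X).inv]

variable [Fintype V] [Fintype F]

omit [Fintype V] [Fintype F] in
/-- the preimage of a set of sites of the parent -/
private theorem mgl_cut_pr (hP : Prt β P) (A : Finset (Option (GV V fun X => (β X).V)))
    (B : Finset (Option (V ⊕ F))) (hAB : ∀ w, w ∈ A ↔ mglPr w ∈ B) :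
    cut (mglS αp β) A = cut (cls αp) B := by
  have hι : ∀ e, ((mglIo P e).1 ∈ A ∧ (mglS αp β (mglIo P e)).1 ∉ A) ↔
      (e.1 ∈ B ∧ (cls αp e).1 ∉ B) := by
    intro e
    rw [mgl_com hP, hAB, hAB, mgl_io_pr, mgl_io_pr]
  unfold cut
  refine (Nat.card_congr (Equiv.ofBijective
    (fun e : {e : Option (V ⊕ F) × ZMod 4 // e.1 ∈ B ∧ (cls αp e).1 ∉ B} =>
      (⟨mglIo P e.1, (hι e.1).2 e.2⟩ :
        {d : Option (GV V fun X => (β X).V) × ZMod 4 // d.1 ∈ A ∧ (mglS αp β d).1 ∉ A})) ⟨?_, ?_⟩)).symm
  · intro e e' h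
    exact Subtype.ext (mgl_io_inj hP (congrArg Subtype.val h))
  · rintro ⟨d, hd1, hd2⟩
    rcases mgl_cases hP d with ⟨e, rfl⟩ | ⟨X, v, i, w, j, rfl, h⟩
    · exact ⟨⟨e, (hι e).1 ⟨hd1, hd2⟩⟩, rfl⟩
    · exfalso
      rw [mgl_in h] at hd2
      rw [hAB] at hd1 hd2
      exact hd2 hd1

/-- cuts inside a tangle -/
private theorem mgl_cut_in (hn : ∀ e, (cls αp e).1 ≠ e.1) (hP : Prt β P) (X : F)
    (A : Finset (Option (GV V fun X => (β X).V))) (hA : A.Nonempty)
    (hX : ∀ w ∈ A, mglPr w = some (inr X)) : 4 ≤ cut (mglS αp β) A := by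
  classical
  let B : Finset (Option (β X).V) := Finset.univ.filter fun o => ∃ v, o = some v ∧ some (inr ⟨X, v⟩) ∈ A
  have hB : ∀ v : (β X).V, some v ∈ B ↔ some (inr ⟨X, v⟩) ∈ A := by
    intro v
    simp only [B, Finset.mem_filter, Finset.mem_univ, true_and, Option.some.injEq]
    constructor
    · rintro ⟨v', rfl, h⟩; exact h
    · intro h; exact ⟨v, rfl, h⟩
  have hBn : none ∉ B := by
    simp [B]
  have hw : ∀ w ∈ A, ∃ v : (β X).V, w = some (inr ⟨X, v⟩) := by
    intro w hw
    have h1 := hX w hw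
    rcases w with _ | (v | ⟨Y, v⟩)
    · simp [mglPr] at h1
    · simp [mglPr] at h1
    · simp only [mglPr, Option.some.injEq, Sum.inr.injEq] at h1
      subst h1
      exact ⟨v, rfl⟩
  have h4 := (hP.pt X).cut4 B (by
    obtain ⟨w, hwA⟩ := hA
    obtain ⟨v, rfl⟩ := hw w hwA
    exact ⟨some v, (hB v).2 hwA⟩) (fun hu => hBn (by rw [hu]; exact Finset.mem_univ _))
  refine h4.trans ?_
  unfold cut
  have key : ∀ d : Option (β X).V × ZMod 4, d.1 ∈ B ∧ (closeA (β X).α d).1 ∉ B →
      ∃ v, d = (some v, d.2) ∧ ((some (inr ⟨X, v⟩), d.2) : Option (GV V fun X => (β X).V) × ZMod 4).1 ∈ A ∧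
        (mglS αp β (some (inr ⟨X, v⟩), d.2)).1 ∉ A := by
    rintro ⟨_ | v, i⟩ ⟨h1, h2⟩
    · exact absurd h1 hBn
    · refine ⟨v, rfl, (hB v).1 h1, ?_⟩
      rcases h : (β X).α (.x v i) with ⟨w, j⟩ | ⟨e, j⟩ | ⟨a, j⟩
      · rw [mgl_in h]
        have h3 : closeA (β X).α (some v, i) = (some w, j) := by
          simp only [closeA, h]
        rw [h3] at h2
        exact fun h5 => h2 ((hB w).2 h5)
      · exact e.elim
      · intro h5
        have h3 : ((some (inr ⟨X, v⟩), i) : Option (GV V fun X => (β X).V) × ZMod 4) =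
            mglIo P (some (inr X), j) := by
          have h6 := mgl_port_eq hP h
          show _ = ((some (inr ⟨X, (P X j).1⟩), (P X j).2) : Option (GV V fun X => (β X).V) × ZMod 4)
          rw [h6]
        simp only at h5
        rw [h3, mgl_com hP] at h5
        have h7 := hX _ h5
        rw [mgl_io_pr] at h7
        exact hn _ h7
  choose f hf1 hf2 using key
  refine Nat.card_le_card_of_injective
    (fun d : {d : Option (β X).V × ZMod 4 // d.1 ∈ B ∧ (closeA (β X).α d).1 ∉ B} =>
      (⟨(some (inr ⟨X, f d.1 d.2⟩), d.1.2), hf2 d.1 d.2⟩ :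
        {d : Option (GV V fun X => (β X).V) × ZMod 4 // d.1 ∈ A ∧ (mglS αp β d).1 ∉ A})) ?_
  rintro ⟨d, hd⟩ ⟨d', hd'⟩ h
  have h1 := congrArg Subtype.val h
  simp only [Prod.mk.injEq, Option.some.injEq, Sum.inr.injEq, Sigma.mk.injEq,
    heq_eq_eq, true_and] at h1
  apply Subtype.ext
  show d = d'
  rw [hf1 d hd, hf1 d' hd', h1.1, h1.2]

private theorem mgl_cut4 (hp : PMap (cls αp)) (hP : Prt β P)
    (A : Finset (Option (GV V fun X => (β X).V))) (hA : A.Nonempty) (hA2 : A ≠ Finset.univ) :
    4 ≤ cut (mglS αp β) A := by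
  classical
  induction hm : (Finset.univ.filter fun X : F => (∃ w ∈ A, mglPr w = some (inr X)) ∧
      ∃ w, w ∉ A ∧ mglPr w = some (inr X)).card using Nat.strong_induction_on generalizing A with
  | _ n ih =>
  by_cases hs : ∃ X : F, (∃ w ∈ A, mglPr w = some (inr X)) ∧ ∃ w, w ∉ A ∧ mglPr w = some (inr X)
  · obtain ⟨X, ⟨w, hwA, hwX⟩, w', hwA', hwX'⟩ := hs
    let C : Finset (Option (GV V fun X => (β X).V)) :=
      Finset.univ.filter fun w => mglPr w = some (inr X)
    have hC : ∀ w, w ∈ C ↔ mglPr w = some (inr X) := by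
      intro w
      simp [C]
    have h1 : cut (mglS αp β) C = 4 := by
      rw [mgl_cut_pr hP C {some (inr X)} (fun w => by rw [hC, Finset.mem_singleton])]
      exact hp.cut_single _
    by_cases hu : A ∪ C = Finset.univ
    · rw [← cut_compl' (mgl_inv hp.inv hP)]
      refine mgl_cut_in hp.noloop hP X Aᶜ ⟨w', Finset.mem_compl.2 hwA'⟩ ?_
      intro v hv
      have h2 : v ∈ A ∪ C := by rw [hu]; exact Finset.mem_univ _
      rcases Finset.mem_union.1 h2 with h3 | h3
      · exact absurd h3 (Finset.mem_compl.1 hv)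
      · exact (hC v).1 h3
    · have h2 := cut_inter_union (α := mglS αp β) A C
      have h3 : 4 ≤ cut (mglS αp β) (A ∩ C) := by
        refine mgl_cut_in hp.noloop hP X _ ⟨w, Finset.mem_inter.2 ⟨hwA, (hC w).2 hwX⟩⟩ ?_
        intro v hv
        exact (hC v).1 (Finset.mem_inter.1 hv).2
      have h4 := ih _ ?_ (A ∪ C) ⟨w, Finset.mem_union_left _ hwA⟩ hu rfl
      · omega
      · rw [← hm]
        refine Finset.card_lt_card ?_
        rw [Finset.ssubset_iff_of_subset]
        · refine ⟨X, ?_, ?_⟩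
          · rw [Finset.mem_filter]
            exact ⟨Finset.mem_univ _, ⟨w, hwA, hwX⟩, w', hwA', hwX'⟩
          · rw [Finset.mem_filter]
            rintro ⟨-, -, v, hv, hvX⟩
            exact hv (Finset.mem_union_right _ ((hC v).2 hvX))
        · intro Y hY
          rw [Finset.mem_filter] at hY ⊢
          obtain ⟨-, ⟨v, hv, hvY⟩, v', hv', hvY'⟩ := hY
          have h5 : v' ∉ C := fun h => hv' (Finset.mem_union_right _ h)
          have h6 : v ∉ C := by
            intro h
            rw [hC] at h h5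
            rw [hvY] at h
            rw [hvY'] at h5
            exact h5 h
          refine ⟨Finset.mem_univ _, ⟨v, ?_, hvY⟩, v', fun h => hv' (Finset.mem_union_left _ h), hvY'⟩
          rcases Finset.mem_union.1 hv with h | h
          · exact h
          · exact absurd h h6
  · have hs' : ∀ w w', w ∈ A → mglPr w = mglPr w' → w' ∈ A := by
      intro w w' hw hww
      rcases w' with _ | (v | ⟨X, v⟩)
      · rcases w with _ | (u | ⟨Y, u⟩)
        · exact hw
        · simp [mglPr] at hww
        · simp [mglPr] at hww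
      · rcases w with _ | (u | ⟨Y, u⟩)
        · simp [mglPr] at hww
        · simp only [mglPr, Option.some.injEq, Sum.inl.injEq] at hww
          rw [← hww]; exact hw
        · simp [mglPr] at hww
      · by_contra h
        exact hs ⟨X, ⟨w, hw, hww⟩, _, h, rfl⟩
    rw [mgl_cut_pr hP A (Finset.univ.filter fun z => ∃ w ∈ A, mglPr w = z) (fun w => by
      rw [Finset.mem_filter]
      constructor
      · intro h
        exact ⟨Finset.mem_univ _, w, h, rfl⟩
      · rintro ⟨-, w', hw', h⟩
        exact hs' w' w hw' h)]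
    refine hp.cut4 _ ?_ ?_
    · obtain ⟨w, hw⟩ := hA
      exact ⟨mglPr w, by rw [Finset.mem_filter]; exact ⟨Finset.mem_univ _, w, hw, rfl⟩⟩
    · intro hu
      apply hA2
      ext w
      simp only [Finset.mem_univ, iff_true]
      have h1 : mglPr w ∈ Finset.univ.filter fun z : Option (V ⊕ F) => ∃ w ∈ A, mglPr w = z := by
        rw [hu]; exact Finset.mem_univ _
      rw [Finset.mem_filter] at h1
      obtain ⟨-, w', hw', h2⟩ := h1
      exact hs' w' w hw' h2

/-- the cycle on the closed tangle -/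
private def mglCX (P : ∀ X, ZMod 4 → (β X).V × ZMod 4)
    (c : Option (GV V fun X => (β X).V) × ZMod 4 → ZMod 2) (X : F) :
    Option (β X).V × ZMod 4 → ZMod 2
  | (none, i) => c (some (inr ⟨X, (P X (-i)).1⟩), (P X (-i)).2)
  | (some v, i) => c (some (inr ⟨X, v⟩), i)

omit [Fintype V] [Fintype F] in
private theorem mglCX_inv (hP : Prt β P) {c : Option (GV V fun X => (β X).V) × ZMod 4 → ZMod 2}
    (hc : ∀ d, c (mglS αp β d) = c d) (X : F) (d) :
    mglCX P c X (closeA (β X).α d) = mglCX P c X d := by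
  obtain ⟨_ | v, i⟩ := d
  · have h1 : closeA (β X).α (none, i) = (some (P X (-i)).1, (P X (-i)).2) := by
      simp only [closeA, hP.port]
    rw [h1]
    rfl
  · rcases h : (β X).α (.x v i) with ⟨w, j⟩ | ⟨e, j⟩ | ⟨a, j⟩
    · have h1 : closeA (β X).α (some v, i) = (some w, j) := by
        simp only [closeA, h]
      rw [h1]
      show c (some (inr ⟨X, w⟩), j) = c (some (inr ⟨X, v⟩), i)
      rw [← mgl_in (αp := αp) h, hc]
    · exact e.elim
    · have h1 : closeA (β X).α (some v, i) = (none, -j) := by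
        simp only [closeA, h]
      rw [h1]
      show c (some (inr ⟨X, (P X (- -j)).1⟩), (P X (- -j)).2) = c (some (inr ⟨X, v⟩), i)
      rw [neg_neg, mgl_port_eq hP h]

omit [Fintype V] [Fintype F] in
private theorem mglCX_sum (hP : Prt β P) {c : Option (GV V fun X => (β X).V) × ZMod 4 → ZMod 2}
    (hc : ∀ d, c (mglS αp β d) = c d) (hs : ∀ v, ∑ i : ZMod 4, c (v, i) = 0) (X : F) (o) :
    ∑ i : ZMod 4, mglCX P c X (o, i) = 0 := by
  rcases o with _ | v
  · have h1 : ∑ d : Option (β X).V × ZMod 4, mglCX P c X d = 0 := by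
      refine Finset.sum_involution (fun d _ => closeA (β X).α d) ?_ ?_ ?_ ?_
      · intro d _
        rw [mglCX_inv hP hc]
        exact CharTwo.add_self_eq_zero _
      · intro d _ _
        exact PMap.ne (hP.pt X) d
      · intro d _
        exact Finset.mem_univ _
      · intro d _
        exact PMap.inv (hP.pt X) d
    rw [Fintype.sum_prod_type, Fintype.sum_option] at h1
    have h2 : ∑ v : (β X).V, ∑ i : ZMod 4, mglCX P c X (some v, i) = 0 :=
      Finset.sum_eq_zero fun v _ => hs _
    rw [h2, add_zero] at h1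
    exact h1
  · exact hs _

private theorem mgl_hom (hp : PMap (cls αp)) (hP : Prt β P) : Hom (mglS αp β) := by
  intro c hc hs
  obtain ⟨wp, wp1, wp2⟩ := hp.hom (fun e => c (mglIo P e))
    (fun e => by
      show c (mglIo P (cls αp e)) = c (mglIo P e)
      rw [← mgl_com hP, hc])
    (fun z => by
      rcases z with _ | (v | X)
      · exact hs none
      · exact hs (some (inl v))
      · have h1 := mglCX_sum hP hc hs X none
        rw [← h1]
        refine Fintype.sum_equiv (Equiv.neg (ZMod 4)) _ _ fun i => ?_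
        show c (some (inr ⟨X, (P X i).1⟩), (P X i).2) =
          c (some (inr ⟨X, (P X (- -i)).1⟩), (P X (- -i)).2)
        rw [neg_neg])
  have hX := fun X => (hP.pt X).hom (mglCX P c X) (mglCX_inv hP hc X) (mglCX_sum hP hc hs X)
  choose wX wX1 wX2 using hX
  -- the constants
  have hK : ∀ X i, wp (some (inr X), i) + wX X (none, -i - 1) =
      wp (some (inr X), 0) + wX X (none, -0 - 1) := by
    intro X
    have h1 : ∀ i, wp (some (inr X), i) + wX X (none, -i - 1) =
        wp (some (inr X), i - 1) + wX X (none, -(i - 1) - 1) := by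
      intro i
      have h2 := wp2 (some (inr X), i)
      have h3 := wX2 X (none, -i)
      have h4 : mglCX P c X (none, -i) = c (mglIo P (some (inr X), i)) := by
        show c (some (inr ⟨X, (P X (- -i)).1⟩), (P X (- -i)).2) = _
        rw [neg_neg]
        rfl
      have h5 : -(i - 1) - 1 = -i := by ring
      rw [h5]
      rw [h4] at h3
      have h6 : wp (some (inr X), i) + wp (some (inr X), i - 1) =
        wX X (none, -i) + wX X (none, -i - 1) := h2.trans h3.symm
      have h7 : ∀ a b d e : ZMod 2, a + b = d + e → a + e = b + d := by decide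
      exact h7 _ _ _ _ h6
    intro i
    have h2 := h1 1
    have h3 := h1 2
    have h4 := h1 3
    have e1 : (1 : ZMod 4) - 1 = 0 := by decide
    have e2 : (2 : ZMod 4) - 1 = 1 := by decide
    have e3 : (3 : ZMod 4) - 1 = 2 := by decide
    rw [e1] at h2
    rw [e2] at h3
    rw [e3] at h4
    rcases mgl_z4 i with rfl | rfl | rfl | rfl
    · rfl
    · exact h2
    · exact h3.trans h2
    · exact h4.trans (h3.trans h2)
  let K : F → ZMod 2 := fun X => wp (some (inr X), 0) + wX X (none, -0 - 1)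
  let w : Option (GV V fun X => (β X).V) × ZMod 4 → ZMod 2 := fun d => match d with
    | (none, i) => wp (none, i)
    | (some (inl v), i) => wp (some (inl v), i)
    | (some (inr p), i) => wX p.1 (some p.2, i) + K p.1
  have hw2 : ∀ d, w d + w (pv d) = c d := by
    rintro ⟨_ | (v | ⟨X, v⟩), i⟩
    · exact wp2 (none, i)
    · exact wp2 (some (inl v), i)
    · have h1 := wX2 X (some v, i)
      show wX X (some v, i) + K X + (wX X (some v, i - 1) + K X) = c (some (inr ⟨X, v⟩), i)
      have h2 : wX X (some v, i) + wX X (some v, i - 1) = c (some (inr ⟨X, v⟩), i) := h1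
      rw [← h2]
      have h3 : K X + K X = 0 := CharTwo.add_self_eq_zero _
      linear_combination h3
  have hι : ∀ e, w (mglIo P e) = wp e := by
    rintro ⟨_ | (v | X), i⟩
    · rfl
    · rfl
    · show wX X (some (P X i).1, (P X i).2) + K X = wp (some (inr X), i)
      have h1 := wX1 X (some (P X i).1, (P X i).2)
      have h2 : closeA (β X).α (some (P X i).1, (P X i).2) = (none, -i) := by
        simp only [closeA, mgl_port_inv hP]
      have h3 : fs (closeA (β X).α) (some (P X i).1, (P X i).2) = (none, -i - 1) := by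
        unfold fs
        rw [h2]
        rfl
      rw [h3] at h1
      rw [← h1]
      have h4 : wp (some (inr X), i) + wX X (none, -i - 1) = K X := hK X i
      rw [← h4]
      have h5 := CharTwo.add_self_eq_zero (wX X (none, -i - 1))
      linear_combination h5
  have hιp : ∀ e, w (pv (mglIo P e)) = wp (pv e) := by
    intro e
    have h1 := hw2 (mglIo P e)
    have h2 := wp2 e
    rw [hι] at h1
    rw [← h1] at h2
    exact (add_left_cancel h2).symm
  refine ⟨w, fun d => ?_, hw2⟩
  rcases mgl_cases hP d with ⟨e, rfl⟩ | ⟨X, v, i, u, j, rfl, h⟩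
  · show w (pv (mglS αp β (mglIo P e))) = _
    rw [mgl_com hP, hιp, hι]
    exact wp1 e
  · show w (pv (mglS αp β (some (inr ⟨X, v⟩), i))) = _
    rw [mgl_in h]
    show wX X (some u, j - 1) + K X = wX X (some v, i) + K X
    congr 1
    have h1 := wX1 X (some v, i)
    have h2 : fs (closeA (β X).α) (some v, i) = (some u, j - 1) := by
      have h3 : closeA (β X).α (some v, i) = (some u, j) := by
        simp only [closeA, h]
      unfold fs
      rw [h3]
      rfl
    rw [h2] at h1
    exact h1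

end glue

theorem PT.glue {V F : Type} [Fintype V] [Fintype F] {αp : SD V F Unit → SD V F Unit}
    (hp : PMap (cls αp)) {β : F → Tn} (hβ : ∀ X, (β X).PT) : (Tn.glue αp β).PT := by
  obtain ⟨P, hP⟩ := mgl_exists_port hβ
  refine ⟨mgl_inv hp.inv hP, ?_, fun A hA hA2 => ?_, mgl_hom hp hP⟩
  · have h1 := hp.two
    rw [Fintype.card_option] at h1 ⊢
    have h2 : 0 < Fintype.card (V ⊕ F) := by omega
    have h3 : 0 < Fintype.card (Tn.glue αp β).V := by
      obtain ⟨v | X⟩ := Fintype.card_pos_iff.1 h2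
      · exact Fintype.card_pos_iff.2 ⟨inl v⟩
      · obtain ⟨v⟩ := Fintype.card_pos_iff.1 (hβ X).card_pos
        exact Fintype.card_pos_iff.2 ⟨inr ⟨X, v⟩⟩
    omega
  · exact mgl_cut4 hp hP A hA hA2

/-- the bijection of the crossings -/
private def mglE (S T : Tn) :
    GV Empty (fun b : Bool => (if b then T else S).V) ≃ S.V ⊕ T.V where
  toFun
    | inl e => e.elim
    | inr ⟨false, v⟩ => inl v
    | inr ⟨true, v⟩ => inr v
  invFun
    | inl v => inr ⟨false, v⟩
    | inr v => inr ⟨true, v⟩
  left_inv := by rintro (e | ⟨b, v⟩); exacts [e.elim, by cases b <;> rfl]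
  right_inv := by rintro (v | v) <;> rfl

/-- `e (inr ⟨false, v⟩) = inl v`, `e (inr ⟨true, v⟩) = inr v` -/
theorem glue_aS {S T : Tn} (hS : Proper S.α) (hT : Proper T.α) :
    (Tn.glue aS (fun b => if b then T else S)).Iso (S.add T) := by
  refine ⟨mglE S T, fun _ => 0, ?_⟩
  obtain ⟨s0, i0, hs0⟩ := hS 0
  obtain ⟨s1, i1, hs1⟩ := hS 1
  obtain ⟨s2, i2, hs2⟩ := hS 2
  obtain ⟨s3, i3, hs3⟩ := hS 3
  obtain ⟨t0, j0, ht0⟩ := hT 0
  obtain ⟨t1, j1, ht1⟩ := hT 1
  obtain ⟨t2, j2, ht2⟩ := hT 2
  obtain ⟨t3, j3, ht3⟩ := hT 3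
  have r : ∀ d, rel (mglE S T) (fun _ => 0) 0 d = match d with
      | .x v i => .x (mglE S T v) i
      | .f e _ => e.elim
      | .o _ i => .o () i := by
    rintro (⟨v, i⟩ | ⟨e, i⟩ | ⟨a, i⟩)
    · show SD.x (mglE S T v) (i + 0) = _
      rw [add_zero]
    · exact e.elim
    · show SD.o () (i + 0) = _
      rw [add_zero]
  intro d
  show sum S.α T.α (rel (mglE S T) (fun _ => 0) 0 d) = rel (mglE S T) (fun _ => 0) 0
    (glueA aS (fun b : Bool => (if b then T else S).α) d)
  rcases d with ⟨v | ⟨b, v⟩, i⟩ | ⟨e, i⟩ | ⟨a, i⟩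
  · exact v.elim
  · cases b
    · show sum S.α T.α (.x (inl v) (i + 0)) = _
      rw [add_zero]
      show lf T.α (S.α (.x v i)) = rel (mglE S T) (fun _ => 0) 0
        (outA aS (fun b : Bool => (if b then T else S).α) false (.x (inr ⟨false, v⟩) i) (S.α (.x v i)))
      rcases S.α (.x v i) with ⟨w, j⟩ | ⟨e, j⟩ | ⟨a, j⟩
      · rw [r]; rfl
      · exact e.elim
      · rcases mgl_z4 j with rfl | rfl | rfl | rfl
        · have h1 : lf T.α (.o a 0) = (.x (inr t1) j1 : SD (S.V ⊕ T.V) Empty Unit) := by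
            simp [lf, ht1]
          rw [h1]
          show _ = rel (mglE S T) (fun _ => 0) 0 (dnA true _ (T.α (.o () 1)))
          rw [ht1, r]; rfl
        · rw [r]; rfl
        · rw [r]; rfl
        · have h1 : lf T.α (.o a 3) = (.x (inr t2) j2 : SD (S.V ⊕ T.V) Empty Unit) := by
            have h3 : (3 : ZMod 4) ≠ 0 := by decide
            simp [lf, ht2, h3]
          rw [h1]
          show _ = rel (mglE S T) (fun _ => 0) 0 (dnA true _ (T.α (.o () 2)))
          rw [ht2, r]; rfl
    · show sum S.α T.α (.x (inr v) (i + 0)) = _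
      rw [add_zero]
      show rg S.α (T.α (.x v i)) = rel (mglE S T) (fun _ => 0) 0
        (outA aS (fun b : Bool => (if b then T else S).α) true (.x (inr ⟨true, v⟩) i) (T.α (.x v i)))
      rcases T.α (.x v i) with ⟨w, j⟩ | ⟨e, j⟩ | ⟨a, j⟩
      · rw [r]; rfl
      · exact e.elim
      · rcases mgl_z4 j with rfl | rfl | rfl | rfl
        · rw [r]; rfl
        · have h1 : rg S.α (.o a 1) = (.x (inl s0) i0 : SD (S.V ⊕ T.V) Empty Unit) := by
            simp [rg, hs0]
          rw [h1]
          show _ = rel (mglE S T) (fun _ => 0) 0 (dnA false _ (S.α (.o () 0)))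
          rw [hs0, r]; rfl
        · have h1 : rg S.α (.o a 2) = (.x (inl s3) i3 : SD (S.V ⊕ T.V) Empty Unit) := by
            have h3 : (2 : ZMod 4) ≠ 1 := by decide
            simp [rg, hs3, h3]
          rw [h1]
          show _ = rel (mglE S T) (fun _ => 0) 0 (dnA false _ (S.α (.o () 3)))
          rw [hs3, r]; rfl
        · rw [r]; rfl
  · exact e.elim
  · rcases mgl_z4 i with rfl | rfl | rfl | rfl
    · show rg S.α (T.α (.o () 0)) = rel (mglE S T) (fun _ => 0) 0 (dnA true _ (T.α (.o () 0)))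
      rw [ht0, r]; rfl
    · show lf T.α (S.α (.o () 1)) = rel (mglE S T) (fun _ => 0) 0 (dnA false _ (S.α (.o () 1)))
      rw [hs1, r]; rfl
    · show lf T.α (S.α (.o () 2)) = rel (mglE S T) (fun _ => 0) 0 (dnA false _ (S.α (.o () 2)))
      rw [hs2, r]; rfl
    · show rg S.α (T.α (.o () 3)) = rel (mglE S T) (fun _ => 0) 0 (dnA true _ (T.α (.o () 3)))
      rw [ht3, r]; rfl

theorem PT.add {S T : Tn} (hS : S.PT) (hT : T.PT) : (S.add T).PT :=
  (glue_aS hS.proper hT.proper).pt (PT.glue aS_pmap (fun b => by cases b <;> assumption))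

theorem Iso.glue {V F : Type} [Fintype V] [Fintype F] (αp : SD V F Unit → SD V F Unit) {β γ : F → Tn}
    (h : ∀ X, (β X).Iso (γ X)) : (Tn.glue αp β).Iso (Tn.glue αp γ) := by
  choose e c h using h
  let E : GV V (fun X => (β X).V) ≃ GV V (fun X => (γ X).V) :=
    Equiv.sumCongr (Equiv.refl V) (Equiv.sigmaCongrRight e)
  let C : GV V (fun X => (β X).V) → ZMod 4
    | inl _ => 0
    | inr p => c p.1 p.2
  have hdn : ∀ X (d : SD (GV V fun X => (β X).V) Empty Unit) (b : SD (β X).V Empty Unit),
      dnA X (rel E C 0 d) (rel (e X) (c X) 0 b) = rel E C 0 (dnA X d b) := by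
    intro X d b
    rcases b with ⟨v, i⟩ | ⟨a, i⟩ | ⟨a, i⟩
    · rfl
    · exact a.elim
    · rfl
  have hinc : ∀ (d : SD (GV V fun X => (β X).V) Empty Unit) (b : SD V F Unit),
      incA (fun X => (γ X).α) (rel E C 0 d) b = rel E C 0 (incA (fun X => (β X).α) d b) := by
    intro d b
    rcases b with ⟨v, i⟩ | ⟨X, i⟩ | ⟨a, i⟩
    · show SD.x (inl v) i = SD.x (inl v) (i + 0)
      rw [add_zero]
    · show dnA X (rel E C 0 d) ((γ X).α (.o () i)) = rel E C 0 (dnA X d ((β X).α (.o () i)))
      rw [← hdn, ← h X]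
      show _ = dnA X (rel E C 0 d) ((γ X).α (.o () (i + 0)))
      rw [add_zero]
    · show SD.o a i = SD.o () (i + 0)
      rw [add_zero]
  refine ⟨E, C, fun d => ?_⟩
  show glueA αp (fun X => (γ X).α) (rel E C 0 d) = rel E C 0 (glueA αp (fun X => (β X).α) d)
  rcases d with ⟨v | ⟨X, v⟩, i⟩ | ⟨a, i⟩ | ⟨a, i⟩
  · show glueA αp (fun X => (γ X).α) (.x (inl v) (i + 0)) = _
    rw [add_zero]
    have h1 : (SD.x (inl v) i : SD (GV V fun X => (γ X).V) Empty Unit) = rel E C 0 (.x (inl v) i) := by
      show _ = SD.x (inl v) (i + 0)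
      rw [add_zero]
    show incA (fun X => (γ X).α) (.x (inl v) i) (αp (.x v i)) = _
    rw [h1]
    exact hinc _ _
  · show outA αp (fun X => (γ X).α) X (.x (inr ⟨X, e X v⟩) (i + c X v))
      ((γ X).α (.x (e X v) (i + c X v))) = rel E C 0 (outA αp (fun X => (β X).α) X
        (.x (inr ⟨X, v⟩) i) ((β X).α (.x v i)))
    have h1 : (γ X).α (.x (e X v) (i + c X v)) = rel (e X) (c X) 0 ((β X).α (.x v i)) :=
      h X (.x v i)
    rw [h1]
    rcases (β X).α (.x v i) with ⟨w, j⟩ | ⟨a, j⟩ | ⟨a, j⟩
    · rfl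
    · exact a.elim
    · show incA (fun X => (γ X).α) (rel E C 0 (.x (inr ⟨X, v⟩) i)) (αp (.f X (j + 0))) = _
      rw [add_zero]
      exact hinc _ _
  · exact a.elim
  · show glueA αp (fun X => (γ X).α) (.o a (i + 0)) = _
    rw [add_zero]
    have h1 : (SD.o a i : SD (GV V fun X => (γ X).V) Empty Unit) = rel E C 0 (.o a i) := by
      show _ = SD.o () (i + 0)
      rw [add_zero]
    show incA (fun X => (γ X).α) (.o a i) (αp (.o a i)) = _
    rw [h1]
    exact hinc _ _

end Tn

end SN78
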