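import Pool.Agent.SN78.Sym
import Pool.Agent.SN78.Parent
import Pool.Agent.SN78.RPic

/-!
# SN78 module RROT: rotation for a single flex, rotation of parents

`Dr1` is the body of `Dr` for one `u`.  `Dr1.rot` is proved like `Dr.rot` in Sym (transport of the picture).
`Dr1.of_parent` is the proof of `Dr.of_parent`.
`glueA_rotP`: by cases.  `Rigid.rotP`: `cls (rotP k αp) = β ∘ cls αp ∘ β⁻¹` with `β (none, i) = (none, i - k)` and
`β d = d` at the other sites; `β` preserves the sites and commutes with `pv`, so cuts and the number of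
faces are the same (bijections of subtypes, of `Quot`).
-/

namespace SN78

open Sum

/-- drawable for one flex -/
def Dr1 {V : Type} [Fintype V] (α : Tg V) (sh : ZMod 4 → Prop) (D : ZMod 4 → H)
    (u : ZMod 4 → ℝ) : Prop :=
  ∃ (N : Type) (_ : Fintype N) (P : Pic V N Empty Unit) (L : Lab N Empty Unit H),
    Fintype.card N = Fintype.card V ∧ P.Ok ∧ P.Real α ∧
    (∀ i, ∃ a b, P.opp (.inl (.o () i)) = .inr (a, b)) ∧
    Norm L ∧ (∀ i, L.o () i = D i) ∧ P.Valid (fun _ => sh) L.at ∧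
    P.Rig L (fun a => a.elim) (fun _ => u)

theorem dr_iff {V : Type} [Fintype V] {α : Tg V} {sh : ZMod 4 → Prop} {D : ZMod 4 → H} :
    Dr α sh D ↔ ∀ u : ZMod 4 → ℝ, (∀ i, sh i → u (i + 1) = u i) →
      (¬ ∃ l : H, ∀ i, u i = dot l (D i)) → Dr1 α sh D u := Iff.rfl

/-! ### rotation of the ports -/

/-- rotation of the ports -/
def relP {V F : Type} (k : ZMod 4) : SD V F Unit → SD V F Unit
  | .x v i => .x v i
  | .f a i => .f a i
  | .o _ i => .o () (i + k)

private theorem relP_relP {V F : Type} (k l : ZMod 4) (d : SD V F Unit) :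
    relP k (relP l d) = relP (l + k) d := by
  rcases d with ⟨v, i⟩ | ⟨a, i⟩ | ⟨a, i⟩
  · rfl
  · rfl
  · show SD.o () (i + l + k) = SD.o () (i + (l + k))
    rw [add_assoc]

private theorem relP_zero {V F : Type} (d : SD V F Unit) : relP 0 d = d := by
  rcases d with ⟨v, i⟩ | ⟨a, i⟩ | ⟨a, i⟩
  · rfl
  · rfl
  · show SD.o () (i + 0) = SD.o a i
    rw [add_zero]

private theorem relP_neg {V F : Type} (k : ZMod 4) (d : SD V F Unit) :
    relP k (relP (-k) d) = d := by
  rw [relP_relP, neg_add_cancel, relP_zero]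

private theorem relP_neg' {V F : Type} (k : ZMod 4) (d : SD V F Unit) :
    relP (-k) (relP k d) = d := by
  rw [relP_relP, add_neg_cancel, relP_zero]

private theorem rel_eq_relP {V : Type} (k : ZMod 4) (d : SD V Empty Unit) :
    rel id (fun _ => 0) k d = relP k d := by
  rcases d with ⟨v, i⟩ | ⟨a, i⟩ | ⟨a, i⟩
  · show SD.x v (i + 0) = SD.x v i
    rw [add_zero]
  · exact a.elim
  · rfl

private theorem rot_relP {V : Type} (k : ZMod 4) (α : Tg V) (d : SD V Empty Unit) :
    SN78.rot k α (relP k d) = relP k (α d) := by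
  show rel id (fun _ => 0) k (α (rel id (fun _ => 0) (-k) (relP k d))) = _
  rw [rel_eq_relP, rel_eq_relP, relP_neg']

/-- rotation of the beads -/
private def rrb {V N : Type} (k : ZMod 4) : Bead V N Empty Unit → Bead V N Empty Unit
  | .inl d => .inl (relP k d)
  | .inr a => .inr a

section
variable {V N : Type}

private theorem rrb_neg (k : ZMod 4) (b : Bead V N Empty Unit) : rrb k (rrb (-k) b) = b := by
  rcases b with d | a
  · exact congrArg Sum.inl (relP_neg k d)
  · rfl

private theorem rrb_neg' (k : ZMod 4) (b : Bead V N Empty Unit) : rrb (-k) (rrb k b) = b := by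
  rcases b with d | a
  · exact congrArg Sum.inl (relP_neg' k d)
  · rfl

private theorem rrb_inj (k : ZMod 4) {b b' : Bead V N Empty Unit} (h : rrb k b = rrb k b') :
    b = b' := by
  rw [← rrb_neg' k b, h, rrb_neg']

private theorem rrb_surj (k : ZMod 4) (b : Bead V N Empty Unit) : ∃ b', rrb k b' = b :=
  ⟨_, rrb_neg k b⟩

private theorem rrb_end (k : ZMod 4) (b : Bead V N Empty Unit) : IsEnd (rrb k b) ↔ IsEnd b := by
  rcases b with (⟨v, i⟩ | ⟨a, i⟩ | ⟨a, i⟩) | a
  · exact Iff.rfl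
  · exact a.elim
  · exact Iff.rfl
  · exact Iff.rfl

/-- the rotated picture -/
private def rPic (k : ZMod 4) (P : Pic V N Empty Unit) : Pic V N Empty Unit where
  adj b := rrb k (P.adj (rrb (-k) b))
  ed v i := rrb k (P.ed v i)

variable (k : ZMod 4) (P : Pic V N Empty Unit)

private theorem rPic_adj (b : Bead V N Empty Unit) :
    (rPic k P).adj (rrb k b) = rrb k (P.adj b) := by
  show rrb k (P.adj (rrb (-k) (rrb k b))) = _
  rw [rrb_neg']

private theorem rPic_opp (b : Bead V N Empty Unit) :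
    (rPic k P).opp (rrb k b) = rrb k (P.opp b) := by
  unfold Pic.opp
  rw [rPic_adj k P b]
  rcases P.adj b with (⟨v, i⟩ | ⟨a, i⟩ | ⟨a, i⟩) | a
  · rfl
  · exact a.elim
  · rfl
  · rfl

private theorem rPic_ok (hP : P.Ok) : (rPic k P).Ok := by
  refine ⟨fun b => ?_, fun b => ?_, fun v i => ?_, fun v i w j hij => ?_, fun v i hi => ?_,
    fun v i => ?_⟩
  · obtain ⟨b, rfl⟩ := rrb_surj k b
    rw [rPic_adj, rPic_adj, hP.adj_adj]
  · obtain ⟨b, rfl⟩ := rrb_surj k b
    rw [rPic_adj]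
    intro hb
    exact hP.adj_ne b (rrb_inj k hb)
  · exact (rrb_end k _).mpr (hP.ed_end v i)
  · have h1 : (rPic k P).adj (rrb k (.inl (.x v i))) = rrb k (.inl (.x w j)) := hij
    rw [rPic_adj] at h1
    show rrb k (P.ed v i) = rrb k (P.ed w (j + 2))
    rw [hP.ed_x v i w j (rrb_inj k h1)]
  · have h1 : (rPic k P).adj (.inl (.x v i)) = rrb k (P.adj (.inl (.x v i))) :=
      rPic_adj k P (.inl (.x v i))
    rw [h1] at hi ⊢
    show rrb k (P.ed v i) = _
    rw [hP.ed_e v i ((rrb_end k _).mp hi)]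
  · show (rPic k P).opp (rrb k (P.ed v i)) = rrb k (P.ed v (i + 2))
    rw [rPic_opp, hP.opp_ed]

private theorem rPic_reach {b : Bead V N Empty Unit} {d : SD V Empty Unit}
    (hr : Reach P.adj b d) : Reach (rPic k P).adj (rrb k b) (relP k d) := by
  induction hr with
  | @site b d hb =>
    refine Reach.site ?_
    rw [rPic_adj, hb]
    rfl
  | @node b a cc d hb _ ih =>
    refine Reach.node (a := a) (c := cc) ?_ ih
    rw [rPic_adj, hb]
    rfl

private theorem rPic_same {sh : ZMod 4 → Prop} (b b' : Bead V N Empty Unit) :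
    SameNode (fun _ i => sh (i - k)) (rrb k b) (rrb k b') ↔ SameNode (fun _ => sh) b b' := by
  rcases b with (⟨v, i⟩ | ⟨a, i⟩ | ⟨a, i⟩) | ⟨a, i⟩
  · exact Iff.rfl
  · exact a.elim
  · rcases b' with (⟨w, j⟩ | ⟨a', j⟩ | ⟨a', j⟩) | a'
    · exact Iff.rfl
    · exact a'.elim
    · show (() = () ∧ (i + k = j + k ∨ (j + k = i + k + 1 ∧ sh (i + k - k)) ∨
        (i + k = j + k + 1 ∧ sh (j + k - k)))) ↔
        (a = a' ∧ (i = j ∨ (j = i + 1 ∧ sh i) ∨ (i = j + 1 ∧ sh j)))
      have e1 : i + k = j + k ↔ i = j := by simp only [add_left_inj]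
      have e2 : j + k = i + k + 1 ↔ j = i + 1 := by
        rw [add_right_comm i k 1]; simp only [add_left_inj]
      have e3 : i + k = j + k + 1 ↔ i = j + 1 := by
        rw [add_right_comm j k 1]; simp only [add_left_inj]
      rw [e1, e2, e3, add_sub_cancel_right, add_sub_cancel_right]
    · exact Iff.rfl
  · rcases b' with (⟨w, j⟩ | ⟨a', j⟩ | ⟨a', j⟩) | ⟨a', j⟩
    · exact Iff.rfl
    · exact a'.elim
    · exact Iff.rfl
    · exact Iff.rfl

private theorem rPic_valid {sh : ZMod 4 → Prop} {p p' : Bead V N Empty Unit → H}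
    (hp : ∀ b, p' (rrb k b) = p b) (hv : P.Valid (fun _ => sh) p) :
    (rPic k P).Valid (fun _ i => sh (i - k)) p' := by
  have hk : ∀ v i, (rPic k P).kap p' v i = P.kap p v i := by
    intro v i
    show dt (p' (rrb k (P.ed v (i + 3)))) (p' (rrb k (P.ed v i))) (p' (rrb k (P.ed v (i + 1)))) = _
    rw [hp, hp, hp]
    rfl
  refine ⟨fun v i => ?_, fun v i w j hij => ?_, fun a => ?_, fun a => a.elim, fun a i hi => ?_,
    fun b b' hb hb' hab => ?_⟩
  · rw [hk]; exact hv.cr v i
  · have h1 : (rPic k P).adj (rrb k (.inl (.x v i))) = rrb k (.inl (.x w j)) := hij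
    rw [rPic_adj] at h1
    rw [hk, hk, hk, hk]
    exact hv.ord v i w j (rrb_inj k h1)
  · have e1 : p' (.inr (a, true)) = p (.inr (a, true)) := hp (.inr (a, true))
    have e2 : p' ((rPic k P).opp (.inr (a, true))) = p (P.opp (.inr (a, true))) := by
      rw [← hp, ← rPic_opp k P]; rfl
    have e3 : p' ((rPic k P).opp (.inr (a, false))) = p (P.opp (.inr (a, false))) := by
      rw [← hp, ← rPic_opp k P]; rfl
    rw [e1, e2, e3]
    exact hv.bend a
  · have e1 : ∀ j, p' (.inl (.o () (j + k))) = p (.inl (.o () j)) :=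
      fun j => hp (.inl (.o () j))
    have e2 : ∀ j, p' ((rPic k P).opp (.inl (.o () (j + k)))) =
        p (P.opp (.inl (.o () j))) := by
      intro j; rw [← hp, ← rPic_opp k P]; rfl
    have ha : a = () := rfl
    subst ha
    obtain ⟨i, rfl⟩ : ∃ i', i = i' + k := ⟨i - k, (sub_add_cancel _ _).symm⟩
    have hi' : sh i := by
      have h2 : sh (i + k - k) := hi
      rwa [add_sub_cancel_right] at h2
    rw [add_right_comm i k 1, e1, e2, e2]
    exact hv.shr () i hi'
  · obtain ⟨b, rfl⟩ := rrb_surj k b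
    obtain ⟨b', rfl⟩ := rrb_surj k b'
    obtain ⟨a1, a2, a3, a4, a5⟩ := hab
    rw [rPic_opp, rPic_opp, hp, hp, hp, hp]
    refine hv.sep b b' ((rrb_end k b).mp hb) ((rrb_end k b').mp hb') ?_
    rw [rPic_same] at a1
    rw [rPic_opp, rPic_same] at a2
    rw [rPic_opp, rPic_same] at a3
    rw [rPic_opp, rPic_opp, rPic_same] at a4
    refine ⟨a1, a2, a3, a4, ?_⟩
    rintro ⟨v, i, h1, h2⟩
    apply a5
    refine ⟨v, i, ?_, ?_⟩
    · show rrb k (P.ed v i) = rrb k b
      rw [h1]
    · show rrb k (P.ed v (i + 1)) = rrb k b' ∨ rrb k (P.ed v (i + 3)) = rrb k b'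
      rcases h2 with h2 | h2
      · left; rw [h2]
      · right; rw [h2]

end

theorem Dr1.rot {V : Type} [Fintype V] (k : ZMod 4) {α : Tg V} {sh : ZMod 4 → Prop}
    {D : ZMod 4 → H} {u : ZMod 4 → ℝ} (h : Dr1 α sh D u) :
    Dr1 (SN78.rot k α) (fun i => sh (i - k)) (fun i => D (i - k)) (fun i => u (i - k)) := by
  obtain ⟨N, iN, P, L, hcard, hok, hreal, hport, hnorm, hLo, hval, hrig⟩ := h
  let L' : Lab N Empty Unit H :=
    { n := L.n
      f := L.f
      o := fun _ i => L.o () (i - k) }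
  have hp : ∀ b : Bead V N Empty Unit, L'.at (rrb k b) = L.at b := by
    intro b
    rcases b with (⟨v, i⟩ | ⟨a, i⟩ | ⟨a, i⟩) | a
    · rfl
    · rfl
    · show L.o () (i + k - k) = L.o a i
      rw [add_sub_cancel_right]
    · rfl
  refine ⟨N, iN, rPic k P, L', hcard, rPic_ok k P hok, ⟨fun d => ?_, fun a cc => ?_⟩, ?_, ?_, ?_,
    rPic_valid k P hp hval, ?_⟩
  · have h1 := rPic_reach k P (hreal.site (relP (-k) d))
    rw [← rot_relP, relP_neg] at h1
    have h2 : rrb k (.inl (relP (-k) d)) = (.inl d : Bead V N Empty Unit) :=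
      congrArg Sum.inl (relP_neg k d)
    rw [h2] at h1
    exact h1
  · obtain ⟨d, hd⟩ := hreal.node a cc
    exact ⟨_, rPic_reach k P hd⟩
  · intro i
    obtain ⟨i, rfl⟩ : ∃ i', i = i' + k := ⟨i - k, (sub_add_cancel _ _).symm⟩
    obtain ⟨a, b, hab⟩ := hport i
    refine ⟨a, b, ?_⟩
    have h1 := rPic_opp k P (.inl (.o () i))
    rw [hab] at h1
    exact h1
  · exact ⟨hnorm.n, hnorm.f, fun a i => hnorm.o () (i - k)⟩
  · intro i
    exact hLo (i - k)
  · intro z' hz1 _ hz3
    let z : Lab N Empty Unit ℝ :=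
      { n := z'.n
        f := z'.f
        o := fun _ i => z'.o () (i + k) }
    have hz : ∀ b : Bead V N Empty Unit, z'.at (rrb k b) = z.at b := by
      intro b
      rcases b with (⟨v, i⟩ | ⟨a, i⟩ | ⟨a, i⟩) | a
      · rfl
      · rfl
      · rfl
      · rfl
    have hsol : P.Sol L z := by
      intro v
      have h1 := hz1 v
      have e1 : ∀ i, (rPic k P).ed v i = rrb k (P.ed v i) := fun i => rfl
      unfold Pic.row at h1 ⊢
      simp only [e1, hp, hz] at h1
      exact h1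
    obtain ⟨l, hl1, hl2, hl3⟩ := hrig z hsol (fun a => a.elim) (by
      obtain ⟨t0, ht0⟩ := hz3
      refine ⟨t0, fun a i => ?_⟩
      have h1 : z'.o () (i + k) = t0 * u (i + k - k) := ht0 () (i + k)
      rw [add_sub_cancel_right] at h1
      exact h1)
    refine ⟨l, hl1, fun a => a.elim, fun a i => ?_⟩
    have h1 := hl3 () (i - k)
    have h2 : z.o () (i - k) = z'.o a i := by
      show z'.o () (i - k + k) = z'.o a i
      rw [sub_add_cancel]
    rw [← h2, h1]

theorem Dr1.of_parent {V F : Type} [Fintype V] [Fintype F] {αp : SD V F Unit → SD V F Unit}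
    {Vc : F → Type} [∀ X, Fintype (Vc X)] {α : ∀ X, Tg (Vc X)} (hpr : ∀ X, Proper (α X))
    {sh : ZMod 4 → Prop} {D : ZMod 4 → H} (hsh : ∀ i, sh i → D (i + 1) = D i)
    {u : ZMod 4 → ℝ} (h : PDr αp sh D u (fun X D' => Dr (α X) no D')) :
    Dr1 (glueA αp α) sh D u := by
  obtain ⟨N, iN, P, L, r, hcard, okP, hreal, nL, hLD, vP, outP, hO, hR, hgood⟩ := h
  have : ∀ X, Nonempty (Vc X) := fun X => by
    obtain ⟨v, -, -⟩ := hpr X 0
    exact ⟨v⟩
  obtain ⟨N', iN', P', L', h1, h2, h3, h4, h5, h6, h7, h8⟩ :=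
    insertion (sh := fun _ => sh) (u := fun _ => u) okP hreal nL
      (fun a i hi => by cases a; rw [hLD, hLD]; exact hsh i hi) vP
      (fun a i b j => outP i j) hO hR hpr hgood
  refine ⟨N', iN', P', L', ?_, h2, h3, fun i => h4 () i, h5, fun i => ?_, h7, ?_⟩
  · rw [h1, hcard, Fintype.card_sum]
  · rw [h6, hLD]
  · exact h8

/-- rotation of a parent: port `i` becomes port `i + k` -/
def rotP {V F : Type} (k : ZMod 4) (αp : SD V F Unit → SD V F Unit) : SD V F Unit → SD V F Unit :=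
  fun d => relP k (αp (relP (-k) d))

private theorem dnA_rel {V F : Type} {Vc : F → Type} (k : ZMod 4) (X : F)
    (d : SD (GV V Vc) Empty Unit) (b : SD (Vc X) Empty Unit) :
    dnA X (relP k d) b = relP k (dnA X d b) := by
  rcases b with ⟨v, i⟩ | ⟨a, i⟩ | ⟨a, i⟩
  · rfl
  · exact a.elim
  · rfl

private theorem incA_rel {V F : Type} {Vc : F → Type} (k : ZMod 4) (α : ∀ X, Tg (Vc X))
    (d : SD (GV V Vc) Empty Unit) (b : SD V F Unit) :
    incA α (relP k d) (relP k b) = relP k (incA α d b) := by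
  rcases b with ⟨v, i⟩ | ⟨a, i⟩ | ⟨a, i⟩
  · rfl
  · exact dnA_rel k a d _
  · rfl

private theorem outA_rel {V F : Type} {Vc : F → Type} (k : ZMod 4)
    (αp : SD V F Unit → SD V F Unit) (α : ∀ X, Tg (Vc X)) (X : F)
    (d : SD (GV V Vc) Empty Unit) (b : SD (Vc X) Empty Unit) :
    outA (rotP k αp) α X (relP k d) b = relP k (outA αp α X d b) := by
  rcases b with ⟨v, i⟩ | ⟨a, i⟩ | ⟨a, i⟩
  · rfl
  · exact a.elim
  · exact incA_rel k α d _

theorem glueA_rotP {V F : Type} {Vc : F → Type} (k : ZMod 4)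
    (αp : SD V F Unit → SD V F Unit) (α : ∀ X, Tg (Vc X)) :
    glueA (rotP k αp) α = SN78.rot k (glueA αp α) := by
  have key : ∀ d, glueA (rotP k αp) α (relP k d) = relP k (glueA αp α d) := by
    intro d
    rcases d with ⟨v | ⟨X, v⟩, i⟩ | ⟨a, i⟩ | ⟨a, i⟩
    · exact incA_rel k α (.x (inl v) i) (αp (.x v i))
    · exact outA_rel k αp α X (.x (inr ⟨X, v⟩) i) (α X (.x v i))
    · exact a.elim
    · show incA α (.o () (i + k)) (relP k (αp (relP (-k) (.o () (i + k))))) = _
      have e : (relP (-k) (.o () (i + k)) : SD V F Unit) = .o a i := relP_neg' k (.o a i)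
      rw [e]
      exact incA_rel k α (.o a i) (αp (.o a i))
  funext d
  have h1 := key (relP (-k) d)
  rw [relP_neg] at h1
  rw [h1, ← rot_relP, relP_neg]

theorem rotP_rotP {V F : Type} (k l : ZMod 4) (αp : SD V F Unit → SD V F Unit) :
    rotP k (rotP l αp) = rotP (l + k) αp := by
  funext d
  show relP k (relP l (αp (relP (-l) (relP (-k) d)))) = relP (l + k) (αp (relP (-(l + k)) d))
  rw [relP_relP, relP_relP, neg_add_rev]

theorem rotP_zero {V F : Type} (αp : SD V F Unit → SD V F Unit) : rotP 0 αp = αp := by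
  funext d
  show relP 0 (αp (relP (-0) d)) = αp d
  rw [neg_zero, relP_zero, relP_zero]

/-! ### the closed map -/

/-- the rotation of the outside site -/
private def rbx {X : Type} (c : X → ZMod 4) (d : X × ZMod 4) : X × ZMod 4 := (d.1, d.2 + c d.1)

private def rbxE {X : Type} (c : X → ZMod 4) : X × ZMod 4 ≃ X × ZMod 4 where
  toFun := rbx c
  invFun := rbx (fun v => - c v)
  left_inv d := by
    show (d.1, d.2 + c d.1 + - c d.1) = d
    rw [add_neg_cancel_right]
  right_inv d := by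
    show (d.1, d.2 + - c d.1 + c d.1) = d
    rw [neg_add_cancel_right]

private theorem rbx_pv {X : Type} (c : X → ZMod 4) (d : X × ZMod 4) :
    pv (rbx c d) = rbx c (pv d) := by
  show (d.1, d.2 + c d.1 - 1) = (d.1, d.2 - 1 + c d.1)
  rw [sub_add_eq_add_sub]

private theorem rr_cut {X : Type} (c : X → ZMod 4) {α α' : X × ZMod 4 → X × ZMod 4}
    (h : ∀ d, α' (rbx c d) = rbx c (α d)) (A : Finset X) : cut α' A = cut α A := by
  unfold cut
  refine (Nat.card_congr ((rbxE c).subtypeEquiv fun d => ?_)).symm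
  show (d.1 ∈ A ∧ (α d).1 ∉ A) ↔ ((rbx c d).1 ∈ A ∧ (α' (rbx c d)).1 ∉ A)
  rw [h]
  exact Iff.rfl

private theorem rr_face {X : Type} (c : X → ZMod 4) {α α' : X × ZMod 4 → X × ZMod 4}
    (h : ∀ d, α' (rbx c d) = rbx c (α d)) : Nat.card (Face α') = Nat.card (Face α) := by
  refine (Nat.card_congr (Quot.congr (rbxE c) fun d d' => ?_)).symm
  show fs α d = d' ↔ fs α' (rbx c d) = rbx c d'
  have h1 : fs α' (rbx c d) = rbx c (fs α d) := by
    show pv (α' (rbx c d)) = rbx c (pv (α d))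
    rw [h, rbx_pv]
  rw [h1]
  exact (rbxE c).injective.eq_iff.symm

private theorem rr_rigid {X : Type} [Fintype X] (c : X → ZMod 4)
    {α α' : X × ZMod 4 → X × ZMod 4} (h : ∀ d, α' (rbx c d) = rbx c (α d)) (hr : Rigid α) :
    Rigid α' := by
  refine ⟨fun d => ?_, fun d => ?_, hr.big, fun A h1 h2 => ?_, fun A h1 h2 => ?_, ?_⟩
  · obtain ⟨d, rfl⟩ := (rbxE c).surjective d
    show α' (α' (rbx c d)) = rbx c d
    rw [h, h, hr.inv]
  · obtain ⟨d, rfl⟩ := (rbxE c).surjective d
    show α' (rbx c d) ≠ rbx c d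
    rw [h]
    intro h1
    exact hr.ne d ((rbxE c).injective h1)
  · rw [rr_cut c h]; exact hr.cut4 A h1 h2
  · rw [rr_cut c h]; exact hr.cut6 A h1 h2
  · rw [rr_face c h]; exact hr.euler

theorem Rigid.rotP {V F : Type} [Fintype V] [Fintype F] {αp : SD V F Unit → SD V F Unit}
    (h : Rigid (cls αp)) (k : ZMod 4) : Rigid (cls (SN78.rotP k αp)) := by
  let c : Option (V ⊕ F) → ZMod 4 := fun v => match v with
    | none => -k
    | some _ => 0
  have hto : ∀ d : SD V F Unit, toX (relP k d) = rbx c (toX d) := by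
    intro d
    rcases d with ⟨v, i⟩ | ⟨a, i⟩ | ⟨a, i⟩
    · show (some (inl v), i) = (some (inl v), i + 0)
      rw [add_zero]
    · show (some (inr a), i) = (some (inr a), i + 0)
      rw [add_zero]
    · show (none, -(i + k)) = (none, -i + -k)
      rw [neg_add]
  have hof : ∀ d : Option (V ⊕ F) × ZMod 4, relP (-k) (ofX (rbx c d)) = ofX d := by
    intro d
    obtain ⟨d, rfl⟩ : ∃ d', d = toX d' := ⟨ofX d, (toX_ofX d).symm⟩
    rw [← hto, ofX_toX, ofX_toX, relP_neg']
  refine rr_rigid c (fun d => ?_) h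
  show toX (relP k (αp (relP (-k) (ofX (rbx c d))))) = rbx c (toX (αp (ofX d)))
  rw [hto, hof]

end SN78
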