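import Pool.Agent.SN78.MBd
import Pool.Agent.SN78.MGlue
import Pool.Agent.SN78.RRot

/-!
# SN78 module MTHREE: a parent with two big vertices and no crossings is a sum

Let `τ = cls αp`, with the sites `none`, `L = some (inr false)`, `R = some (inr true)` (`V` is empty).  Port `p` is the
dart `(none, - p)`; let `g p = τ (none, - p)`.  By `cut_single` and `noloop` each site has two edges to each other
site.  (W p): `PMap.bd_single` for `none`, `outw`: the walk `fs` from `(none, - p)` comes to `g (p - 1)`, without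
visiting `none`.  The first step of this walk is `pv (g p)`.

(A) If `g p` and `g (p - 1)` are at the same site `Y` then `pv (g p) = g (p - 1)`.  Proof: let `g p = (Y, a)`.  If
`(Y, a - 1)` leads to `none` then the walk (W p) ends there.  Otherwise `g (p - 1) ≠ (Y, a - 1)`.  `bd_single` for
`Y`, `outw`: the walk from `(Y, a - 1)` comes to `τ (Y, a) = (none, - p)` without visiting `Y`; but by (W p) the
same walk comes to `g (p - 1)`, at `Y`, without visiting `none`.  Contradiction.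
(B) It is not possible that `g 0, g 2` are at one site `Y` and `g 1, g 3` at the other one `Y'`.  Proof: let
`g 0 = (Y, a)`.  `(Y, a - 1)` does not lead to `none` (otherwise the walk (W 0) ends there, but `g 3` is not at
`Y`).  The same for `g 2`, so `g 2 = (Y, a + 2)` and `(Y, a ± 1)` lead to `Y'`.  In the same way `g 1 = (Y', c)`,
`g 3 = (Y', c + 2)`, and `(Y', c ± 1)` lead to `Y`.  (W 0): `(Y, a - 1)`, then `pv (τ (Y, a - 1))`, which is
`(Y', c)` or `(Y', c + 2)`; it leads to `none`, so it is `g 3`; so `τ (Y, a - 1) = (Y', c - 1)`.  (W 1): `(Y', c - 1)`,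
then `pv (Y, a - 1) = (Y, a + 2) = g 2`, which leads to `none`, so it has to be `g 0`.  Contradiction.

`three_aux`: let `g 1, g 2` be at the site `Y` (`Y = some (inr b)`) and so `g 3, g 0` at the other site `Y'`
(each site has two edges to `none`).  By (A) `g 1 = pv (g 2)`, `g 3 = pv (g 0)`.  Let `g 1 = (Y, 1 - k)`, so
`g 2 = (Y, 2 - k)`; the darts `(Y, 3 - k)`, `(Y, - k)` lead to `Y'`.  Let `g 0 = (Y', - l)`, `g 3 = (Y', 3 - l)`; the
darts `(Y', 1 - l)`, `(Y', 2 - l)` lead to `Y`.  (W 1): the first step is `pv (g 1) = (Y, - k)`.  If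
`τ (Y, - k) = (Y', 2 - l)` then the next ones are `(Y', 1 - l)`, and (since `τ (Y', 1 - l) = (Y, 3 - k)`)
`(Y, 2 - k) = g 2`, which leads to `none`, but it is not `g 0`.  So `τ (Y, - k) = (Y', 1 - l)` and
`τ (Y, 3 - k) = (Y', 2 - l)`.  This gives the isomorphism (`(β b).turn k`: the port `i` of `(β b).turn k` is the port
`i - k` of `β b`, which is joined with the dart `i - k` of `Y`).
`three`: if `g 1, g 2` are at the same site: `three_aux`.  Otherwise, by (B), `g 0, g 1` are at the same site; apply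
`three_aux` to `rotP 1 αp`, whose closed map is isomorphic with `cls αp`: port `p` of `αp` is port `p + 1` of
`rotP 1 αp` (`glueA_rotP`).
-/

namespace SN78

open Sum

/-! ### the walks -/

section walk
variable {X : Type} [Fintype X] {α : X × ZMod 4 → X × ZMod 4}

private theorem mt_walk (h : PMap α) (v : X) (i : ZMod 4) :
    ∃ n, 0 < n ∧ (fs α)^[n] (v, i) = α (v, i + 1) ∧
      ∀ m, 0 < m → m ≤ n → ((fs α)^[m] (v, i)).1 ≠ v := by
  obtain ⟨n, hn, hm⟩ := (h.bd_single v 0).outw i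
  simp only [add_zero] at hn hm
  refine ⟨n, ?_, hn, fun m h0 h1 => fun e => hm m h0 h1 (Finset.mem_singleton.2 e)⟩
  rcases Nat.eq_zero_or_pos n with h0 | h0
  · exfalso
    rw [h0] at hn
    have h1 : (α (v, i + 1)).1 = v := by rw [← hn]; rfl
    exact h.noloop _ h1
  · exact h0

private theorem mt_k (h : PMap α) (v : X) (i : ZMod 4) (k : ℕ) (hk : 0 < k)
    (hne : ∀ m, 0 < m → m < k → (fs α)^[m] (v, i) ≠ α (v, i + 1)) :
    ((fs α)^[k] (v, i)).1 ≠ v := by
  obtain ⟨n, h0, hn, hm⟩ := mt_walk h v i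
  refine hm k hk ?_
  by_contra h1
  exact hne n h0 (by omega) hn

private theorem mt_A (h : PMap α) (v : X) (i : ZMod 4) {y : X} {a c : ZMod 4}
    (h1 : α (v, i) = (y, a)) (h2 : α (v, i + 1) = (y, c)) : a - 1 = c := by
  obtain ⟨n, h0, hn, hm⟩ := mt_walk h v i
  obtain ⟨n', h0', hn', hm'⟩ := mt_walk h y (a - 1)
  have e1 : ∀ m, (fs α)^[m + 1] (v, i) = (fs α)^[m] (y, a - 1) := by
    intro m
    rw [Function.iterate_succ_apply]
    congr 1
    show pv (α (v, i)) = _
    rw [h1]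
    rfl
  obtain ⟨m, rfl⟩ : ∃ m, n = m + 1 := ⟨n - 1, by omega⟩
  rw [e1, h2] at hn
  rcases Nat.eq_zero_or_pos m with hm0 | hm0
  · rw [hm0] at hn
    exact (Prod.ext_iff.1 hn).2
  · exfalso
    have h3 : ¬ m ≤ n' := fun h4 => hm' m hm0 h4 (by rw [hn])
    have h4 := hm (n' + 1) (by omega) (by omega)
    rw [e1, hn', sub_add_cancel, ← h1, h.inv] at h4
    exact h4 rfl

/-! ### counting the edges between two sites -/

private theorem mt_symm [DecidableEq X] (h : PMap α) (u v : X) :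
    (Finset.univ.filter fun i : ZMod 4 => (α (u, i)).1 = v).card =
      (Finset.univ.filter fun i : ZMod 4 => (α (v, i)).1 = u).card := by
  refine Finset.card_nbij' (fun i => (α (u, i)).2) (fun i => (α (v, i)).2) ?_ ?_ ?_ ?_
  · intro i hi
    have hi' : (α (u, i)).1 = v := by simpa using hi
    have e : (v, (α (u, i)).2) = α (u, i) := by rw [← hi']
    have : (α (v, (α (u, i)).2)).1 = u := by rw [e, h.inv]
    simpa using this
  · intro i hi
    have hi' : (α (v, i)).1 = u := by simpa using hi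
    have e : (u, (α (v, i)).2) = α (v, i) := by rw [← hi']
    have : (α (u, (α (v, i)).2)).1 = v := by rw [e, h.inv]
    simpa using this
  · intro i hi
    have hi' : (α (u, i)).1 = v := by simpa using hi
    have e : (v, (α (u, i)).2) = α (u, i) := by rw [← hi']
    show (α (v, (α (u, i)).2)).2 = i
    rw [e, h.inv]
  · intro i hi
    have hi' : (α (v, i)).1 = u := by simpa using hi
    have e : (u, (α (v, i)).2) = α (v, i) := by rw [← hi']
    show (α (u, (α (v, i)).2)).2 = i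
    rw [e, h.inv]

private theorem mt_sum [DecidableEq X] (h : PMap α) {u v w : X}
    (hX : ∀ x, x = u ∨ x = v ∨ x = w) (hvw : v ≠ w) :
    (Finset.univ.filter fun i : ZMod 4 => (α (u, i)).1 = v).card +
      (Finset.univ.filter fun i : ZMod 4 => (α (u, i)).1 = w).card = 4 := by
  have h1 := Finset.card_filter_add_card_filter_not (s := (Finset.univ : Finset (ZMod 4)))
    (fun i : ZMod 4 => (α (u, i)).1 = v)
  rw [Finset.card_univ, ZMod.card] at h1
  have h2 : (Finset.univ.filter fun i : ZMod 4 => (α (u, i)).1 = w) =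
      Finset.univ.filter fun i : ZMod 4 => ¬ (α (u, i)).1 = v := by
    ext i
    simp only [Finset.mem_filter, Finset.mem_univ, true_and]
    constructor
    · intro h2 h3
      exact hvw (h3.symm.trans h2)
    · intro h2
      rcases hX (α (u, i)).1 with h3 | h3 | h3
      · exact absurd h3 (h.noloop (u, i))
      · exact absurd h3 h2
      · exact h3
  rw [h2]
  exact h1

private theorem mt_two [DecidableEq X] (h : PMap α) {u v w : X}
    (hX : ∀ x, x = u ∨ x = v ∨ x = w) (huv : u ≠ v) (huw : u ≠ w) (hvw : v ≠ w) :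
    (Finset.univ.filter fun i : ZMod 4 => (α (u, i)).1 = v).card = 2 := by
  have h1 := mt_sum h hX hvw
  have h2 := mt_sum h (u := v) (v := u) (w := w)
    (fun x => by rcases hX x with e | e | e <;> tauto) huw
  have h3 := mt_sum h (u := w) (v := u) (w := v)
    (fun x => by rcases hX x with e | e | e <;> tauto) huv
  have s1 := mt_symm h u v
  have s2 := mt_symm h u w
  have s3 := mt_symm h v w
  omega

private theorem mt_other (h : PMap α) {u v w : X}
    (hX : ∀ x, x = u ∨ x = v ∨ x = w) (huv : u ≠ v) (huw : u ≠ w) (hvw : v ≠ w)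
    {i j k : ZMod 4} (hi : (α (u, i)).1 = v) (hj : (α (u, j)).1 = v) (hij : i ≠ j) (hik : i ≠ k)
    (hjk : j ≠ k) : (α (u, k)).1 = w := by
  classical
  rcases hX (α (u, k)).1 with h3 | h3 | h3
  · exact absurd h3 (h.noloop (u, k))
  · exfalso
    have h2 := mt_two h hX huv huw hvw
    have h4 : ({i, j, k} : Finset (ZMod 4)) ⊆
        Finset.univ.filter fun i : ZMod 4 => (α (u, i)).1 = v := by
      intro x hx
      simp only [Finset.mem_insert, Finset.mem_singleton] at hx
      rcases hx with rfl | rfl | rfl <;> simp [hi, hj, h3]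
    have h5 := Finset.card_le_card h4
    rw [h2, Finset.card_eq_three.2 ⟨i, j, k, hij, hik, hjk, rfl⟩] at h5
    omega
  · exact h3

private theorem mt_z1 (i : ZMod 4) : i ≠ i + 1 := by revert i; decide
private theorem mt_z2 (i : ZMod 4) : i ≠ i + 2 := by revert i; decide
private theorem mt_z3 (i : ZMod 4) : i ≠ i - 1 := by revert i; decide
private theorem mt_z12 (i : ZMod 4) : i + 1 ≠ i + 2 := by revert i; decide
private theorem mt_z13 (i : ZMod 4) : i + 1 ≠ i - 1 := by revert i; decide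
private theorem mt_z23 (i : ZMod 4) : i - 1 ≠ i + 2 := by revert i; decide
private theorem mt_z22 (i : ZMod 4) : i - 1 - 1 ≠ i := by revert i; decide
private theorem mt_zw (a b : ZMod 4) (h1 : a ≠ b) (h2 : a ≠ b - 1) (h3 : b ≠ a - 1) :
    b = a + 2 := by
  revert a b; decide
private theorem mt_zv (m c : ZMod 4) (h1 : m ≠ c) (h2 : m ≠ c + 2) :
    m - 1 = c ∨ m - 1 = c + 2 := by
  revert m c; decide
private theorem mt_zu (m c : ZMod 4) (h1 : m - 1 = c + 2) : m = c - 1 := by
  revert m c; decide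
private theorem mt_zt (a : ZMod 4) : a - 1 - 1 = a + 2 := by revert a; decide
private theorem mt_zz (m a : ZMod 4) (h1 : m ≠ a) (h2 : m ≠ a - 1) : m = a + 1 ∨ m = a + 2 := by
  revert m a; decide
private theorem mt_zy (m i : ZMod 4) (h1 : m ≠ i) (h2 : m ≠ i + 1) (h3 : m ≠ i - 1) :
    m = i + 2 := by
  revert m i; decide
private theorem mt_p2 (i : ZMod 4) : i + 2 - 1 = i + 1 := by revert i; decide

private theorem mt_core (h : PMap α) {x y y' : X}
    (hX : ∀ z, z = x ∨ z = y ∨ z = y') (hxy : x ≠ y) (hxy' : x ≠ y') (hyy : y ≠ y')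
    {i j : ZMod 4} (h1 : α (x, 3) = (y, i)) (h2 : α (x, 2) = (y, j)) :
    j = i + 1 ∧ ∃ a, α (x, 0) = (y', a) ∧ α (x, 1) = (y', a - 1) ∧ α (y, i - 1) = (y', a + 1) ∧
      α (y, i + 2) = (y', a + 2) := by
  have hX' : ∀ z, z = y ∨ z = x ∨ z = y' := fun z => by rcases hX z with e | e | e <;> tauto
  have hX'' : ∀ z, z = y' ∨ z = x ∨ z = y := fun z => by rcases hX z with e | e | e <;> tauto
  have hj : j = i + 1 := by
    have := mt_A h x 2 h2 (show α (x, 2 + 1) = (y, i) from h1)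
    rw [← this, sub_add_cancel]
  subst hj
  have e0 : (α (x, 0)).1 = y' := mt_other h hX hxy hxy' hyy (i := 3) (j := 2) (k := 0)
    (by rw [h1]) (by rw [h2]) (by decide) (by decide) (by decide)
  have e1 : (α (x, 1)).1 = y' := mt_other h hX hxy hxy' hyy (i := 3) (j := 2) (k := 1)
    (by rw [h1]) (by rw [h2]) (by decide) (by decide) (by decide)
  obtain ⟨a, ha⟩ : ∃ a, α (x, 0) = (y', a) := ⟨(α (x, 0)).2, by rw [← e0]⟩
  obtain ⟨a', ha'⟩ : ∃ a', α (x, 1) = (y', a') := ⟨(α (x, 1)).2, by rw [← e1]⟩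
  have ha2 := mt_A h x 0 ha (show α (x, 0 + 1) = (y', a') from ha')
  subst ha2
  refine ⟨rfl, a, ha, ha', ?_⟩
  have g1 : α (y, i) = (x, 3) := by rw [← h1, h.inv]
  have g2 : α (y, i + 1) = (x, 2) := by rw [← h2, h.inv]
  have g3 : α (y', a) = (x, 0) := by rw [← ha, h.inv]
  have g4 : α (y', a - 1) = (x, 1) := by rw [← ha', h.inv]
  have f1 : (α (y, i + 2)).1 = y' := mt_other h hX' hxy.symm hyy hxy' (i := i) (j := i + 1)
    (k := i + 2) (by rw [g1]) (by rw [g2]) (mt_z1 i) (mt_z2 i) (mt_z12 i)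
  have f2 : (α (y, i - 1)).1 = y' := mt_other h hX' hxy.symm hyy hxy' (i := i) (j := i + 1)
    (k := i - 1) (by rw [g1]) (by rw [g2]) (mt_z1 i) (mt_z3 i) (mt_z13 i)
  obtain ⟨m, hm⟩ : ∃ m, α (y, i - 1) = (y', m) := ⟨(α (y, i - 1)).2, by rw [← f2]⟩
  have hm' : α (y', m) = (y, i - 1) := by rw [← hm, h.inv]
  obtain ⟨p, hp⟩ : ∃ p, α (y, i + 2) = (y', p) := ⟨(α (y, i + 2)).2, by rw [← f1]⟩
  have hp' : α (y', p) = (y, i + 2) := by rw [← hp, h.inv]
  have m1 : m ≠ a := by
    rintro rfl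
    rw [g3] at hm'
    exact hxy (Prod.ext_iff.1 hm').1
  have m2 : m ≠ a - 1 := by
    rintro rfl
    rw [g4] at hm'
    exact hxy (Prod.ext_iff.1 hm').1
  have p1 : p ≠ a := by
    rintro rfl
    rw [g3] at hp'
    exact hxy (Prod.ext_iff.1 hp').1
  have p2 : p ≠ a - 1 := by
    rintro rfl
    rw [g4] at hp'
    exact hxy (Prod.ext_iff.1 hp').1
  have pm : p ≠ m := by
    rintro rfl
    rw [hm'] at hp'
    exact mt_z23 i (Prod.ext_iff.1 hp').2
  rcases mt_zz m a m1 m2 with hma | hma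
  · subst hma
    refine ⟨hm, ?_⟩
    rcases mt_zz p a p1 p2 with hpa | hpa
    · exact absurd hpa pm
    · rw [hp, hpa]
  · exfalso
    subst hma
    have hpa : p = a + 1 := by
      rcases mt_zz p a p1 p2 with hpa | hpa
      · exact hpa
      · exact absurd hpa pm
    subst hpa
    have s1 : (fs α)^[1] (x, 3) = (y, i - 1) := by
      show pv (α (x, 3)) = _
      rw [h1]; rfl
    have s2 : (fs α)^[2] (x, 3) = (y', a + 1) := by
      rw [Function.iterate_succ_apply', s1]
      show pv (α (y, i - 1)) = _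
      rw [hm, ← mt_p2]; rfl
    have s3 : (fs α)^[3] (x, 3) = (y, i + 1) := by
      rw [Function.iterate_succ_apply', s2]
      show pv (α (y', a + 1)) = _
      rw [hp', ← mt_p2]; rfl
    have s4 : ((fs α)^[4] (x, 3)).1 = x := by
      rw [Function.iterate_succ_apply', s3]
      show (pv (α (y, i + 1))).1 = _
      rw [g2]; rfl
    have t : α (x, 3 + 1) = (y', a) := ha
    refine mt_k h x 3 4 (by omega) (fun k hk0 hk4 => ?_) s4
    rw [t]
    intro hk
    have h3 : k = 1 ∨ k = 2 ∨ k = 3 := by omega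
    rcases h3 with rfl | rfl | rfl
    · rw [s1] at hk
      exact hyy (Prod.ext_iff.1 hk).1
    · rw [s2] at hk
      exact mt_z1 a (Prod.ext_iff.1 hk).2.symm
    · rw [s3] at hk
      exact hyy (Prod.ext_iff.1 hk).1

private theorem mt_B1 (h : PMap α) {x y : X} {i a : ZMod 4} (h1 : α (x, i) = (y, a))
    (h2 : (α (x, i + 1)).1 ≠ y) : (α (y, a - 1)).1 ≠ x := by
  have s1 : (fs α)^[1] (x, i) = (y, a - 1) := by
    show pv (α (x, i)) = _
    rw [h1]; rfl
  have s2 : ((fs α)^[2] (x, i)).1 = (α (y, a - 1)).1 := by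
    rw [Function.iterate_succ_apply', s1]
    rfl
  rw [← s2]
  refine mt_k h x i 2 (by omega) (fun k hk0 hk2 => ?_)
  have h3 : k = 1 := by omega
  rw [h3, s1]
  intro hk
  apply h2
  rw [← hk]

private theorem mt_B (h : PMap α) {x y y' : X}
    (hX : ∀ z, z = x ∨ z = y ∨ z = y') (hxy : x ≠ y) (_hxy' : x ≠ y') (hyy : y ≠ y')
    (h0 : (α (x, 0)).1 = y) (h1 : (α (x, 3)).1 = y') (h2 : (α (x, 2)).1 = y)
    (h3 : (α (x, 1)).1 = y') : False := by
  obtain ⟨a, ha⟩ : ∃ a, α (x, 0) = (y, a) := ⟨(α (x, 0)).2, by rw [← h0]⟩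
  obtain ⟨b, hb⟩ : ∃ b, α (x, 2) = (y, b) := ⟨(α (x, 2)).2, by rw [← h2]⟩
  obtain ⟨c, hc⟩ : ∃ c, α (x, 3) = (y', c) := ⟨(α (x, 3)).2, by rw [← h1]⟩
  obtain ⟨d, hd⟩ : ∃ d, α (x, 1) = (y', d) := ⟨(α (x, 1)).2, by rw [← h3]⟩
  have ga : α (y, a) = (x, 0) := by rw [← ha, h.inv]
  have gb : α (y, b) = (x, 2) := by rw [← hb, h.inv]
  have gc : α (y', c) = (x, 3) := by rw [← hc, h.inv]
  have gd : α (y', d) = (x, 1) := by rw [← hd, h.inv]
  have na : (α (y, a - 1)).1 ≠ x :=
    mt_B1 h ha (by rw [show (0 : ZMod 4) + 1 = 1 from rfl, h3]; exact hyy.symm)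
  have nb : (α (y, b - 1)).1 ≠ x :=
    mt_B1 h hb (by rw [show (2 : ZMod 4) + 1 = 3 from rfl, h1]; exact hyy.symm)
  have nc : (α (y', c - 1)).1 ≠ x :=
    mt_B1 h hc (by rw [show (3 : ZMod 4) + 1 = 0 from rfl, h0]; exact hyy)
  have nd : (α (y', d - 1)).1 ≠ x :=
    mt_B1 h hd (by rw [show (1 : ZMod 4) + 1 = 2 from rfl, h2]; exact hyy)
  have hab : b = a + 2 := by
    refine mt_zw a b ?_ ?_ ?_
    · rintro rfl
      rw [ga] at gb
      exact (show (0 : ZMod 4) ≠ 2 by decide) (Prod.ext_iff.1 gb).2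
    · intro e
      apply nb
      rw [← e, ga]
    · intro e
      apply na
      rw [← e, gb]
  have hcd : d = c + 2 := by
    refine mt_zw c d ?_ ?_ ?_
    · rintro rfl
      rw [gc] at gd
      exact (show (3 : ZMod 4) ≠ 1 by decide) (Prod.ext_iff.1 gd).2
    · intro e
      apply nd
      rw [← e, gc]
    · intro e
      apply nc
      rw [← e, gd]
  subst hab hcd
  have ey : (α (y, a - 1)).1 = y' := by
    rcases hX (α (y, a - 1)).1 with e | e | e
    · exact absurd e na
    · exact absurd e (h.noloop (y, a - 1))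
    · exact e
  obtain ⟨m, hm⟩ : ∃ m, α (y, a - 1) = (y', m) := ⟨(α (y, a - 1)).2, by rw [← ey]⟩
  have hm' : α (y', m) = (y, a - 1) := by rw [← hm, h.inv]
  have m1 : m ≠ c := by
    rintro rfl
    rw [gc] at hm'
    exact hxy (Prod.ext_iff.1 hm').1
  have m2 : m ≠ c + 2 := by
    rintro rfl
    rw [gd] at hm'
    exact hxy (Prod.ext_iff.1 hm').1
  have s1 : (fs α)^[1] (x, 0) = (y, a - 1) := by
    show pv (α (x, 0)) = _
    rw [ha]; rfl
  have s2 : (fs α)^[2] (x, 0) = (y', m - 1) := by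
    rw [Function.iterate_succ_apply', s1]
    show pv (α (y, a - 1)) = _
    rw [hm]; rfl
  have s3 : ((fs α)^[3] (x, 0)).1 = x := by
    rw [Function.iterate_succ_apply', s2]
    show (pv (α (y', m - 1))).1 = _
    rcases mt_zv m c m1 m2 with e | e
    · rw [e, gc]; rfl
    · rw [e, gd]; rfl
  have hmc : m - 1 = c + 2 := by
    by_contra hmc
    refine mt_k h x 0 3 (by omega) (fun k hk0 hk3 => ?_) s3
    rw [show α (x, 0 + 1) = (y', c + 2) from hd]
    intro hk
    have h3 : k = 1 ∨ k = 2 := by omega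
    rcases h3 with rfl | rfl
    · rw [s1] at hk
      exact hyy (Prod.ext_iff.1 hk).1
    · rw [s2] at hk
      exact hmc (Prod.ext_iff.1 hk).2
  have hmc' := mt_zu m c hmc
  subst hmc'
  have t1 : (fs α)^[1] (x, 3) = (y', c - 1) := by
    show pv (α (x, 3)) = _
    rw [hc]; rfl
  have t2 : (fs α)^[2] (x, 3) = (y, a - 1 - 1) := by
    rw [Function.iterate_succ_apply', t1]
    show pv (α (y', c - 1)) = _
    rw [hm']; rfl
  have t3 : ((fs α)^[3] (x, 3)).1 = x := by
    rw [Function.iterate_succ_apply', t2]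
    show (pv (α (y, a - 1 - 1))).1 = _
    rw [mt_zt, gb]; rfl
  refine mt_k h x 3 3 (by omega) (fun k hk0 hk3 => ?_) t3
  rw [show α (x, 3 + 1) = (y, a) from ha]
  intro hk
  have h3 : k = 1 ∨ k = 2 := by omega
  rcases h3 with rfl | rfl
  · rw [t1] at hk
    exact hyy (Prod.ext_iff.1 hk).1.symm
  · rw [t2] at hk
    exact mt_z22 a (Prod.ext_iff.1 hk).2

end walk

theorem PMap.rotP {V F : Type} [Fintype V] [Fintype F] {αp : SD V F Unit → SD V F Unit}
    (hp : PMap (cls αp)) (k : ZMod 4) : PMap (cls (rotP k αp)) := by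
  obtain ⟨c, hc⟩ : ∃ c : Option (V ⊕ F) → ZMod 4, c none = - k ∧ ∀ v, c (some v) = 0 :=
    ⟨fun o => o.elim (- k) (fun _ => 0), rfl, fun _ => rfl⟩
  have hto : ∀ d : SD V F Unit,
      toX (relP k d) = ((toX d).1, (toX d).2 + c (toX d).1) := by
    intro d
    rcases d with ⟨v, i⟩ | ⟨v, i⟩ | ⟨v, i⟩
    · show (some (inl v), i) = (some (inl v), i + c (some (inl v)))
      rw [hc.2, add_zero]
    · show (some (inr v), i) = (some (inr v), i + c (some (inr v)))
      rw [hc.2, add_zero]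
    · show (none, -(i + k)) = (none, -i + c none)
      rw [hc.1, neg_add]
  have hof : ∀ v i, relP (-k) (ofX (v, i + c v)) = (ofX (v, i) : SD V F Unit) := by
    intro v i
    rcases v with _ | v | v
    · show SD.o () (-(i + c none) + -k) = SD.o () (-i)
      rw [hc.1]
      congr 1
      ring
    · show SD.x v (i + c (some (inl v))) = SD.x v i
      rw [hc.2, add_zero]
    · show SD.f v (i + c (some (inr v))) = SD.f v i
      rw [hc.2, add_zero]
  refine PMap.ciso hp ⟨Equiv.refl _, c, fun v i => ?_⟩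
  show toX (relP k (αp (relP (-k) (ofX (v, i + c v))))) = _
  rw [hof, hto]
  rfl

/-! values of `lf`, `rg`, `sum`, `rot` -/

section values
variable {V₁ V₂ V₃ : Type}

private theorem mt_n30 : ¬ ((3 : ZMod 4) = 0) := by decide
private theorem mt_n21 : ¬ ((2 : ZMod 4) = 1) := by decide
private theorem mt_n02 : ¬ ((0 : ZMod 4) = 1 ∨ (0 : ZMod 4) = 2) := by decide
private theorem mt_n32 : ¬ ((3 : ZMod 4) = 1 ∨ (3 : ZMod 4) = 2) := by decide
private theorem mt_n1b : ¬ ((1 : ZMod 4) = 0 ∨ (1 : ZMod 4) = 3) := by decide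
private theorem mt_n2b : ¬ ((2 : ZMod 4) = 0 ∨ (2 : ZMod 4) = 3) := by decide
private theorem mt_cases (j : ZMod 4) : j = 0 ∨ j = 1 ∨ j = 2 ∨ j = 3 := by
  revert j; decide

private theorem mt_lf_x {α₂ : Tg V₂} (v : V₁) (i : ZMod 4) : lf α₂ (.x v i) = .x (inl v) i := rfl

private theorem mt_lf_0 {α₂ : Tg V₂} {w : V₂} {k : ZMod 4} (h : α₂ (.o () 1) = .x w k) (u : Unit) :
    lf (V₁ := V₁) α₂ (.o u 0) = .x (inr w) k := by
  simp [lf, h]

private theorem mt_lf_3 {α₂ : Tg V₂} {w : V₂} {k : ZMod 4} (h : α₂ (.o () 2) = .x w k) (u : Unit) :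
    lf (V₁ := V₁) α₂ (.o u 3) = .x (inr w) k := by
  simp [lf, mt_n30, h]

private theorem mt_lf_1 {α₂ : Tg V₂} (u : Unit) : lf (V₁ := V₁) α₂ (.o u 1) = .o () 1 := by
  simp only [lf, if_neg mt_n1b]

private theorem mt_lf_2 {α₂ : Tg V₂} (u : Unit) : lf (V₁ := V₁) α₂ (.o u 2) = .o () 2 := by
  simp only [lf, if_neg mt_n2b]

private theorem mt_rg_x {α₁ : Tg V₁} (v : V₂) (i : ZMod 4) : rg α₁ (.x v i) = .x (inr v) i := rfl

private theorem mt_rg_1 {α₁ : Tg V₁} {w : V₁} {k : ZMod 4} (h : α₁ (.o () 0) = .x w k) (u : Unit) :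
    rg (V₂ := V₂) α₁ (.o u 1) = .x (inl w) k := by
  simp [rg, h]

private theorem mt_rg_2 {α₁ : Tg V₁} {w : V₁} {k : ZMod 4} (h : α₁ (.o () 3) = .x w k) (u : Unit) :
    rg (V₂ := V₂) α₁ (.o u 2) = .x (inl w) k := by
  simp [rg, mt_n21, h]

private theorem mt_rg_0 {α₁ : Tg V₁} (u : Unit) : rg (V₂ := V₂) α₁ (.o u 0) = .o () 0 := by
  simp only [rg, if_neg mt_n02]

private theorem mt_rg_3 {α₁ : Tg V₁} (u : Unit) : rg (V₂ := V₂) α₁ (.o u 3) = .o () 3 := by
  simp only [rg, if_neg mt_n32]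

private theorem mt_sum_1 {α : Tg V₁} {β : Tg V₂} (u : Unit) :
    SN78.sum α β (.o u 1) = lf β (α (.o () 1)) := by
  simp [SN78.sum]

private theorem mt_sum_2 {α : Tg V₁} {β : Tg V₂} (u : Unit) :
    SN78.sum α β (.o u 2) = lf β (α (.o () 2)) := by
  simp [SN78.sum]

private theorem mt_sum_0 {α : Tg V₁} {β : Tg V₂} (u : Unit) :
    SN78.sum α β (.o u 0) = rg α (β (.o () 0)) := by
  simp only [SN78.sum, if_neg mt_n02]

private theorem mt_sum_3 {α : Tg V₁} {β : Tg V₂} (u : Unit) :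
    SN78.sum α β (.o u 3) = rg α (β (.o () 3)) := by
  simp only [SN78.sum, if_neg mt_n32]

private theorem mt_rot_x (k : ZMod 4) (A : Tg V₁) (v : V₁) (t : ZMod 4) :
    SN78.rot k A (.x v t) = rel id (fun _ => 0) k (A (.x v t)) := by
  show rel id (fun _ => 0) k (A (.x v (t + 0))) = _
  rw [add_zero]

private theorem mt_rot_o (k : ZMod 4) (A : Tg V₁) (p : ZMod 4) :
    SN78.rot k A (.o () p) = rel id (fun _ => 0) k (A (.o () (p - k))) := by
  show rel id (fun _ => 0) k (A (.o () (p + -k))) = _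
  rw [sub_eq_add_neg]

private theorem mt_rot_ox (k : ZMod 4) (A : Tg V₁) {p q : ZMod 4} (hpq : p - k = q) {v : V₁}
    {t : ZMod 4} (h : A (.o () q) = .x v t) : SN78.rot k A (.o () p) = .x v t := by
  rw [mt_rot_o, hpq, h]
  show SD.x v (t + 0) = _
  rw [add_zero]

end values

private theorem mt_ap {V : Type} {αp : SD V Bool Unit → SD V Bool Unit} {d e : SD V Bool Unit}
    (h : cls αp (toX d) = toX e) : αp d = e := by
  have h1 := congrArg ofX h
  rw [ofX_toX] at h1
  rw [← h1]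
  show αp d = ofX (toX (αp (ofX (toX d))))
  rw [ofX_toX, ofX_toX]

private theorem mt_w0 (i : ZMod 4) : (0 : ZMod 4) - (1 - i) = i - 1 := by revert i; decide
private theorem mt_w1 (i : ZMod 4) : (1 : ZMod 4) - (1 - i) = i := by revert i; decide
private theorem mt_w2 (i : ZMod 4) : (2 : ZMod 4) - (1 - i) = i + 1 := by revert i; decide
private theorem mt_w3 (i : ZMod 4) : (3 : ZMod 4) - (1 - i) = i + 2 := by revert i; decide
private theorem mt_u0 (i : ZMod 4) : i - 1 + (1 - i) = 0 := by revert i; decide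
private theorem mt_u1 (i : ZMod 4) : i + (1 - i) = 1 := by revert i; decide
private theorem mt_u2 (i : ZMod 4) : i + 1 + (1 - i) = 2 := by revert i; decide
private theorem mt_u3 (i : ZMod 4) : i + 2 + (1 - i) = 3 := by revert i; decide
private theorem mt_t0 (a : ZMod 4) : a + -a = 0 := by revert a; decide
private theorem mt_t1 (a : ZMod 4) : a + 1 + -a = 1 := by revert a; decide
private theorem mt_t2 (a : ZMod 4) : a + 2 + -a = 2 := by revert a; decide
private theorem mt_t3 (a : ZMod 4) : a - 1 + -a = 3 := by revert a; decide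
private theorem mt_zs (s i : ZMod 4) : s = i - 1 ∨ s = i ∨ s = i + 1 ∨ s = i + 2 := by
  revert s i; decide
private theorem mt_zr (s a : ZMod 4) : s = a ∨ s = a + 1 ∨ s = a + 2 ∨ s = a - 1 := by
  revert s a; decide
private theorem mt_v0 (a : ZMod 4) : (0 : ZMod 4) - (-a) = a := by revert a; decide
private theorem mt_v1 (a : ZMod 4) : (1 : ZMod 4) - (-a) = a + 1 := by revert a; decide
private theorem mt_v2 (a : ZMod 4) : (2 : ZMod 4) - (-a) = a + 2 := by revert a; decide
private theorem mt_v3 (a : ZMod 4) : (3 : ZMod 4) - (-a) = a - 1 := by revert a; decide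

set_option linter.unusedSimpArgs false in
/-- the isomorphism -/
private theorem mt_iso {V : Type} [Fintype V] [IsEmpty V] {αp : SD V Bool Unit → SD V Bool Unit}
    {β : Bool → Tn} (hβ : ∀ b, Proper (β b).α) (b : Bool) (i a : ZMod 4)
    (o0 : αp (.o () 0) = .f (!b) a) (o1 : αp (.o () 1) = .f b i)
    (o2 : αp (.o () 2) = .f b (i + 1)) (o3 : αp (.o () 3) = .f (!b) (a - 1))
    (q0 : αp (.f b (i - 1)) = .f (!b) (a + 1)) (q1 : αp (.f b i) = .o () 1)
    (q2 : αp (.f b (i + 1)) = .o () 2) (q3 : αp (.f b (i + 2)) = .f (!b) (a + 2))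
    (r0 : αp (.f (!b) a) = .o () 0) (r1 : αp (.f (!b) (a + 1)) = .f b (i - 1))
    (r2 : αp (.f (!b) (a + 2)) = .f b (i + 2)) (r3 : αp (.f (!b) (a - 1)) = .o () 3) :
    (((β b).turn (1 - i)).add ((β (!b)).turn (-a))).Iso (Tn.glue αp β) := by
  obtain ⟨wa0, ka0, a0⟩ := hβ b (i - 1)
  obtain ⟨wa1, ka1, a1⟩ := hβ b i
  obtain ⟨wa2, ka2, a2⟩ := hβ b (i + 1)
  obtain ⟨wa3, ka3, a3⟩ := hβ b (i + 2)
  obtain ⟨wb0, kb0, b0⟩ := hβ (!b) a
  obtain ⟨wb1, kb1, b1⟩ := hβ (!b) (a + 1)
  obtain ⟨wb2, kb2, b2⟩ := hβ (!b) (a + 2)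
  obtain ⟨wb3, kb3, b3⟩ := hβ (!b) (a - 1)
  have A0 := mt_rot_ox (1 - i) (β b).α (mt_w0 i) a0
  have A1 := mt_rot_ox (1 - i) (β b).α (mt_w1 i) a1
  have A2 := mt_rot_ox (1 - i) (β b).α (mt_w2 i) a2
  have A3 := mt_rot_ox (1 - i) (β b).α (mt_w3 i) a3
  have B0 := mt_rot_ox (-a) (β (!b)).α (mt_v0 a) b0
  have B1 := mt_rot_ox (-a) (β (!b)).α (mt_v1 a) b1
  have B2 := mt_rot_ox (-a) (β (!b)).α (mt_v2 a) b2
  have B3 := mt_rot_ox (-a) (β (!b)).α (mt_v3 a) b3
  have hbij : Function.Bijective (fun x : (β b).V ⊕ (β (!b)).V =>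
      (Sum.elim (fun v => inr ⟨b, v⟩) (fun v => inr ⟨!b, v⟩) x : GV V (fun X => (β X).V))) := by
    constructor
    · rintro (v | v) (w | w) h
      · simpa using h
      · exfalso
        simp only [Sum.elim_inl, Sum.elim_inr, Sum.inr.injEq, Sigma.mk.injEq] at h
        cases b <;> simp at h
      · exfalso
        simp only [Sum.elim_inl, Sum.elim_inr, Sum.inr.injEq, Sigma.mk.injEq] at h
        cases b <;> simp at h
      · simpa using h
    · rintro (v | ⟨X, v⟩)
      · exact isEmptyElim v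
      · rcases (show X = b ∨ X = !b by cases b <;> cases X <;> simp) with rfl | rfl
        · exact ⟨inl v, rfl⟩
        · exact ⟨inr v, rfl⟩
  refine ⟨Equiv.ofBijective _ hbij, fun _ => 0, ?_⟩
  rintro (⟨v | v, t⟩ | ⟨e, _⟩ | ⟨u, t⟩)
  · change (β b).V at v
    show glueA αp (fun X => (β X).α) (.x (inr ⟨b, v⟩) (t + 0)) =
      rel _ (fun _ => 0) 0 (lf (SN78.rot (-a) (β (!b)).α) (SN78.rot (1 - i) (β b).α (.x v t)))
    rw [add_zero, mt_rot_x]
    show outA αp (fun X => (β X).α) b (.x (inr ⟨b, v⟩) t) ((β b).α (.x v t)) = _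
    rcases hA : (β b).α (.x v t) with ⟨w, s⟩ | ⟨e, _⟩ | ⟨u, s⟩
    · simp only [rel, outA, dnA, lf, add_zero]; rfl
    · exact e.elim
    · rcases mt_zs s i with rfl | rfl | rfl | rfl
      · simp only [rel, mt_u0, outA, q0, incA, dnA]
        rw [mt_lf_0 B1, b1]
        simp only [rel, add_zero]; rfl
      · simp only [rel, mt_u1, outA, q1, incA]
        rw [mt_lf_1]
        simp only [rel, add_zero]
      · simp only [rel, mt_u2, outA, q2, incA]
        rw [mt_lf_2]
        simp only [rel, add_zero]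
      · simp only [rel, mt_u3, outA, q3, incA, dnA]
        rw [mt_lf_3 B2, b2]
        simp only [rel, add_zero]; rfl
  · change (β (!b)).V at v
    show glueA αp (fun X => (β X).α) (.x (inr ⟨!b, v⟩) (t + 0)) =
      rel _ (fun _ => 0) 0 (rg (SN78.rot (1 - i) (β b).α) (SN78.rot (-a) (β (!b)).α (.x v t)))
    rw [add_zero, mt_rot_x]
    show outA αp (fun X => (β X).α) (!b) (.x (inr ⟨!b, v⟩) t) ((β (!b)).α (.x v t)) = _
    rcases hA : (β (!b)).α (.x v t) with ⟨w, s⟩ | ⟨e, _⟩ | ⟨u, s⟩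
    · simp only [rel, outA, dnA, rg, add_zero]; rfl
    · exact e.elim
    · rcases mt_zr s a with rfl | rfl | rfl | rfl
      · simp only [rel, mt_t0, outA, r0, incA]
        rw [mt_rg_0]
        simp only [rel, add_zero]
      · simp only [rel, mt_t1, outA, r1, incA, dnA]
        rw [mt_rg_1 A0, a0]
        simp only [rel, add_zero]; rfl
      · simp only [rel, mt_t2, outA, r2, incA, dnA]
        rw [mt_rg_2 A3, a3]
        simp only [rel, add_zero]; rfl
      · simp only [rel, mt_t3, outA, r3, incA]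
        rw [mt_rg_3]
        simp only [rel, add_zero]
  · exact e.elim
  · show glueA αp (fun X => (β X).α) (.o u (t + 0)) = rel _ (fun _ => 0) 0
      (SN78.sum (SN78.rot (1 - i) (β b).α) (SN78.rot (-a) (β (!b)).α) (.o u t))
    rw [add_zero]
    show incA (fun X => (β X).α) (.o u t) (αp (.o u t)) = _
    rcases mt_cases t with rfl | rfl | rfl | rfl
    · rw [mt_sum_0, B0, o0, mt_rg_x]
      simp only [incA, b0]
      simp only [rel, dnA, add_zero]; rfl
    · rw [mt_sum_1, A1, o1, mt_lf_x]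
      simp only [incA, a1]
      simp only [rel, dnA, add_zero]; rfl
    · rw [mt_sum_2, A2, o2, mt_lf_x]
      simp only [incA, a2]
      simp only [rel, dnA, add_zero]; rfl
    · rw [mt_sum_3, B3, o3, mt_rg_x]
      simp only [incA, b3]
      simp only [rel, dnA, add_zero]; rfl

theorem three_aux {V : Type} [Fintype V] [IsEmpty V] {αp : SD V Bool Unit → SD V Bool Unit}
    (hp : PMap (cls αp)) {β : Bool → Tn} (hβ : ∀ b, (β b).PT) (b : Bool) (i j : ZMod 4)
    (h1 : αp (.o () 1) = .f b i) (h2 : αp (.o () 2) = .f b j) :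
    ∃ k l : ZMod 4, (((β b).turn k).add ((β (!b)).turn l)).Iso (Tn.glue αp β) := by
  have hX : ∀ z : Option (V ⊕ Bool), z = none ∨ z = some (inr b) ∨ z = some (inr (!b)) := by
    rintro (_ | v | c)
    · exact Or.inl rfl
    · exact isEmptyElim v
    · cases b <;> cases c <;> simp
  have hbb : (some (inr b) : Option (V ⊕ Bool)) ≠ some (inr (!b)) := by
    cases b <;> simp
  have e1 : cls αp (none, 3) = (some (inr b), i) := by
    show toX (αp (.o () 1)) = _
    rw [h1]; rfl
  have e2 : cls αp (none, 2) = (some (inr b), j) := by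
    show toX (αp (.o () 2)) = _
    rw [h2]; rfl
  obtain ⟨hj, a, f0, f1, f2, f3⟩ := mt_core hp hX (by simp) (by simp) hbb e1 e2
  subst hj
  refine ⟨1 - i, -a, mt_iso (fun b => (hβ b).proper) b i a ?_ h1 h2 ?_ ?_ ?_ ?_ ?_ ?_ ?_ ?_ ?_⟩ <;>
    apply mt_ap
  · exact f0
  · exact f1
  · exact f2
  · show cls αp (some (inr b), i) = (none, 3)
    rw [← e1, hp.inv]
  · show cls αp (some (inr b), i + 1) = (none, 2)
    rw [← e2, hp.inv]
  · exact f3
  · show cls αp (some (inr (!b)), a) = (none, 0)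
    rw [← f0, hp.inv]
  · show cls αp (some (inr (!b)), a + 1) = (some (inr b), i - 1)
    rw [← f2, hp.inv]
  · show cls αp (some (inr (!b)), a + 2) = (some (inr b), i + 2)
    rw [← f3, hp.inv]
  · show cls αp (some (inr (!b)), a - 1) = (none, 1)
    rw [← f1, hp.inv]

theorem three {V : Type} [Fintype V] [IsEmpty V] {αp : SD V Bool Unit → SD V Bool Unit}
    (hp : PMap (cls αp)) {β : Bool → Tn} (hβ : ∀ b, (β b).PT) :
    ∃ (b : Bool) (k l : ZMod 4),
      (((β b).turn k).add ((β (!b)).turn l)).Iso (Tn.glue αp β) ∨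
      (((β b).turn k).add ((β (!b)).turn l)).Iso ((Tn.glue αp β).turn 1) := by
  have key : ∀ p : ZMod 4, ∃ b i, αp (.o () p) = .f b i := by
    intro p
    rcases h : αp (.o () p) with ⟨v, i⟩ | ⟨b, i⟩ | ⟨u, i⟩
    · exact isEmptyElim v
    · exact ⟨b, i, rfl⟩
    · exfalso
      refine hp.noloop (none, -p) ?_
      show (toX (αp (.o () (- -p)))).1 = none
      rw [neg_neg, h]; rfl
  obtain ⟨b0, i0, h0⟩ := key 0
  obtain ⟨b1, i1, h1⟩ := key 1
  obtain ⟨b2, i2, h2⟩ := key 2
  obtain ⟨b3, i3, h3⟩ := key 3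
  by_cases c12 : b1 = b2
  · subst c12
    obtain ⟨k, l, h⟩ := three_aux hp hβ b1 i1 i2 h1 h2
    exact ⟨b1, k, l, Or.inl h⟩
  by_cases c01 : b0 = b1
  · subst c01
    obtain ⟨k, l, h⟩ := three_aux (αp := rotP 1 αp) (hp.rotP 1) hβ b0 i0 i1
      (by show relP 1 (αp (.o () 0)) = _
          rw [h0]; rfl)
      (by show relP 1 (αp (.o () 1)) = _
          rw [h1]; rfl)
    refine ⟨b0, k, l, Or.inr ?_⟩
    have e : Tn.glue (rotP 1 αp) β = (Tn.glue αp β).turn 1 := by
      unfold Tn.glue Tn.turn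
      rw [glueA_rotP]
    rw [← e]
    exact h
  exfalso
  have hX : ∀ z : Option (V ⊕ Bool), z = none ∨ z = some (inr b0) ∨ z = some (inr b1) := by
    rintro (_ | v | c)
    · exact Or.inl rfl
    · exact isEmptyElim v
    · cases b0 <;> cases b1 <;> cases c <;> simp_all
  have hbb : (some (inr b0) : Option (V ⊕ Bool)) ≠ some (inr b1) := by
    simpa using c01
  have c20 : b2 = b0 := by
    cases b0 <;> cases b1 <;> cases b2 <;> simp_all
  subst c20
  have g0 : cls αp (none, 0) = (some (inr b2), i0) := by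
    show toX (αp (.o () 0)) = _
    rw [h0]; rfl
  have g1 : cls αp (none, 3) = (some (inr b1), i1) := by
    show toX (αp (.o () 1)) = _
    rw [h1]; rfl
  have g2 : cls αp (none, 2) = (some (inr b2), i2) := by
    show toX (αp (.o () 2)) = _
    rw [h2]; rfl
  have g3 : (cls αp (none, 1)).1 = some (inr b1) :=
    mt_other hp hX (by simp) (by simp) hbb (i := 0) (j := 2) (k := 1)
      (by rw [g0]) (by rw [g2]) (by decide) (by decide) (by decide)
  exact mt_B hp hX (by simp) (by simp) hbb (by rw [g0]) (by rw [g1]) (by rw [g2]) g3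

end SN78
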