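import Pool.Agent.SN78.MSplit
import Pool.Agent.SN78.MThree
import Pool.Agent.SN78.MPlane

/-!
# SN78 module MDEC: decomposition of prime tangles

Let `σ = closeA T.α`.  For `S ⊆ T.V` nonempty `4 ≤ cut σ (sm S)`; `cut σ (sm univ) = cut σ {none} = 4`.
(a) Suppose there is `S ⊆ T.V`, nonempty and not everything, with `cut σ (sm S) = 4 = cut σ (sm Sᶜ)`.  Apply
`PT.split` with `F = Bool`, `M false = S`, `M true = Sᶜ`; `V` is empty (each `a : V` is `q v` for some `v`, but
`v ∈ S` or `v ∈ Sᶜ`).  Then `three`; `PT.turn`, `card (T.turn k).V = card T.V`.
(b) Otherwise let `F` be the type of the maximal elements `S` of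
`G = {S | 2 ≤ card S, S ≠ univ, cut σ (sm S) = 4}` (for inclusion), `M X = X`.  Two different elements `S, S'` of `F`
are disjoint: suppose not.  `cut_inter_union`: `cut (S ∩ S') + cut (S ∪ S') ≤ 8`, so both are `4` (`sm` commutes
with `∩`, `∪`; `sm (S ∪ S')` does not contain `none`).  If `S ∪ S' ≠ univ` it is in `G`, contradiction to
maximality.  If `S ∪ S' = univ`: `cut_sdiff`: `cut (S \ S') + cut (S' \ S) ≤ 8`, both are nonempty (`S, S'` are not
contained in each other), so both are `4`; `S' \ S = Sᶜ`, so (a) holds for `S`.
Apply `PT.split`.  `2 ≤ card (β X).V = card X < card T.V`.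
`Rigid (cls αp)`: `inv`, `cut4`, `PMap.ne`, `PMap.euler`.
`cut6`: let `B` be a set of sites of the parent with `2 ≤ card B`, `card B + 2 ≤ card`.  Replacing `B` by `Bᶜ`
(`cut_compl'`) we may assume `none ∉ B`.  `cut (cls αp) B = cut σ (sm S)` with `S = {v | some (q v) ∈ B}`.
`2 ≤ card S` (`q` is surjective, because `M X` is nonempty, and `B` has two sites) and `S ≠ univ` (there is a
site `≠ none` outside `B`).  If `cut = 4` then `S ∈ G`, so `S ⊆ X` for some `X ∈ F` (finiteness); so `q v = inr X` for
all `v ∈ S`, so `B` has only one site.  So the cut is at least `5`, and it is even (`cut_even'`).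
`big`: if the parent has at most three sites: two sites: `none` and `z`; then all `q v` are equal; if `z = inl a`
then `card T.V = 1`, if `z = inr X` then `X = univ`; three sites `none, z, z'`: let `S = {v | q v = z}`,
`Sᶜ = {v | q v = z'}`; the cuts are `cut (cls αp) {some z} = 4` (`cut_single`), `cut (cls αp) {some z'} = 4`; so (a)
holds.
-/

namespace SN78

open Sum

namespace Tn

section

variable {T : Tn}

private theorem mdec_ge (hT : T.PT) {S : Finset T.V} (hS : S.Nonempty) :
    4 ≤ cut (closeA T.α) (sm S) := by
  apply PMap.cut4 hT
  · exact hS.map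
  · intro hu
    have h1 : (none : Option T.V) ∈ sm S := by
      rw [hu]
      exact Finset.mem_univ _
    simp [sm] at h1

private theorem mdec_iu (S S' : Finset T.V) [DecidableEq T.V] :
    cut (closeA T.α) (sm (S ∩ S')) + cut (closeA T.α) (sm (S ∪ S')) ≤
      cut (closeA T.α) (sm S) + cut (closeA T.α) (sm S') := by
  classical
  have h := cut_inter_union (α := closeA T.α) (sm S) (sm S')
  have h1 : sm S ∩ sm S' = sm (S ∩ S') := by
    ext o
    cases o with
    | none => simp [sm]
    | some v => simp [sm]
  have h2 : sm S ∪ sm S' = sm (S ∪ S') := by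
    ext o
    cases o with
    | none => simp [sm]
    | some v => simp [sm]
  rw [h1, h2] at h
  exact h

private theorem mdec_sd (hT : T.PT) (S S' : Finset T.V) [DecidableEq T.V] :
    cut (closeA T.α) (sm (S \ S')) + cut (closeA T.α) (sm (S' \ S)) ≤
      cut (closeA T.α) (sm S) + cut (closeA T.α) (sm S') := by
  classical
  have h := cut_sdiff (α := closeA T.α) (PMap.inv hT) (sm S) (sm S')
  have h1 : sm S \ sm S' = sm (S \ S') := by
    ext o
    cases o with
    | none => simp [sm]
    | some v => simp [sm]
  have h2 : sm S' \ sm S = sm (S' \ S) := by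
    ext o
    cases o with
    | none => simp [sm]
    | some v => simp [sm]
  rw [h1, h2] at h
  exact h

/-- case (a) -/
private theorem mdec_sum (hT : T.PT) (S : Finset T.V) [DecidableEq T.V] (hS : S.Nonempty)
    (hS' : Sᶜ.Nonempty) (h4 : cut (closeA T.α) (sm S) = 4) (h4' : cut (closeA T.α) (sm Sᶜ) = 4) :
    ∃ S U : Tn, S.PT ∧ U.PT ∧ Fintype.card S.V + Fintype.card U.V = Fintype.card T.V ∧
      ((S.add U).Iso T ∨ (S.add U).Iso (T.turn 1)) := by
  obtain ⟨V, fV, αp, β, q, hp, hβ, hc, hI, h1, h2, -⟩ :=
    hT.split (F := Bool) (fun b => if b then Sᶜ else S)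
      (by
        intro b
        cases b with
        | true => simpa using hS'
        | false => simpa using hS)
      (by
        intro b
        cases b with
        | true => simpa using h4'
        | false => simpa using h4)
      (by
        intro a b v ha hb
        cases a <;> cases b <;> simp at ha hb <;> first | rfl | exact absurd ha hb | exact absurd hb ha)
  have hV : IsEmpty V := by
    refine ⟨fun a => ?_⟩
    obtain ⟨v, hv, -⟩ := h1 a
    by_cases hvS : v ∈ S
    · have := (h2 false v).2 (by simpa using hvS)
      rw [hv] at this
      exact absurd this (by simp)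
    · have := (h2 true v).2 (by simpa using hvS)
      rw [hv] at this
      exact absurd this (by simp)
  obtain ⟨b, k, l, hbkl⟩ := three hp hβ
  refine ⟨(β b).turn k, (β (!b)).turn l, (hβ b).turn k, (hβ (!b)).turn l, ?_, ?_⟩
  · have e1 : Fintype.card ((β b).turn k).V = Fintype.card (β b).V := rfl
    have e2 : Fintype.card ((β (!b)).turn l).V = Fintype.card (β (!b)).V := rfl
    rw [e1, e2, hc, hc]
    have e3 : S.card + Sᶜ.card = Fintype.card T.V := Finset.card_add_card_compl S
    cases b with
    | true =>
      simp only [if_true, Bool.not_true, Bool.false_eq_true, if_false]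
      omega
    | false =>
      simp only [if_true, Bool.not_false, Bool.false_eq_true, if_false]
      omega
  · rcases hbkl with h | h
    · exact Or.inl (h.trans hI)
    · exact Or.inr (h.trans (hI.turn 1))

/-- the sets of sites which can be contracted -/
private def MG (T : Tn) (S : Finset T.V) : Prop :=
  2 ≤ S.card ∧ S ≠ Finset.univ ∧ cut (closeA T.α) (sm S) = 4

private theorem mdec_disj (hT : T.PT) [DecidableEq T.V]
    (ha : ∀ S : Finset T.V, S.Nonempty → Sᶜ.Nonempty → cut (closeA T.α) (sm S) = 4 →
      cut (closeA T.α) (sm Sᶜ) ≠ 4)
    {S S' : Finset T.V} (hS : Maximal (MG T) S) (hS' : Maximal (MG T) S') {v : T.V}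
    (hv : v ∈ S) (hv' : v ∈ S') : S = S' := by
  by_contra hne
  have h1 : ¬ S ⊆ S' := fun h => hne (subset_antisymm h (hS.2 hS'.1 h))
  have h2 : ¬ S' ⊆ S := fun h => hne (subset_antisymm (hS'.2 hS.1 h) h)
  have hiu := mdec_iu S S'
  have hi := mdec_ge hT (S := S ∩ S') ⟨v, Finset.mem_inter.2 ⟨hv, hv'⟩⟩
  have hu := mdec_ge hT (S := S ∪ S') ⟨v, Finset.mem_union_left _ hv⟩
  rw [hS.1.2.2, hS'.1.2.2] at hiu
  by_cases hun : S ∪ S' = Finset.univ
  · have hsd := mdec_sd hT S S'
    rw [hS.1.2.2, hS'.1.2.2] at hsd
    have hn1 : (S \ S').Nonempty := Finset.sdiff_nonempty.2 h1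
    have hn2 : (S' \ S).Nonempty := Finset.sdiff_nonempty.2 h2
    have g1 := mdec_ge hT hn1
    have g2 := mdec_ge hT hn2
    have e : S' \ S = Sᶜ := by
      ext x
      simp only [Finset.mem_sdiff, Finset.mem_compl]
      constructor
      · intro h
        exact h.2
      · intro h
        refine ⟨?_, h⟩
        have : x ∈ S ∪ S' := by
          rw [hun]
          exact Finset.mem_univ x
        rcases Finset.mem_union.1 this with h' | h'
        · exact absurd h' h
        · exact h'
    rw [e] at hn2
    have h4 : cut (closeA T.α) (sm (S' \ S)) = 4 := by omega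
    rw [e] at h4
    exact ha S ⟨v, hv⟩ hn2 hS.1.2.2 h4
  · have hG : MG T (S ∪ S') := by
      refine ⟨?_, hun, by omega⟩
      exact hS.1.1.trans (Finset.card_le_card Finset.subset_union_left)
    exact h2 (Finset.subset_union_right.trans (hS.2 hG Finset.subset_union_left))

end

theorem PT.decomp {T : Tn} (hT : T.PT) (h2 : 2 ≤ Fintype.card T.V) :
    (∃ S U : Tn, S.PT ∧ U.PT ∧ Fintype.card S.V + Fintype.card U.V = Fintype.card T.V ∧
      ((S.add U).Iso T ∨ (S.add U).Iso (T.turn 1))) ∨
    ∃ (V F : Type) (_ : Fintype V) (_ : Fintype F) (αp : SD V F Unit → SD V F Unit) (β : F → Tn),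
      Rigid (cls αp) ∧ PMap (cls αp) ∧ (∀ X, (β X).PT ∧ 2 ≤ Fintype.card (β X).V ∧
        Fintype.card (β X).V < Fintype.card T.V) ∧ (Tn.glue αp β).Iso T := by
  classical
  by_cases ha : ∃ S : Finset T.V, S.Nonempty ∧ Sᶜ.Nonempty ∧ cut (closeA T.α) (sm S) = 4 ∧
      cut (closeA T.α) (sm Sᶜ) = 4
  · obtain ⟨S, hS, hS', h4, h4'⟩ := ha
    exact Or.inl (mdec_sum hT S hS hS' h4 h4')
  · right
    have ha' : ∀ S : Finset T.V, S.Nonempty → Sᶜ.Nonempty → cut (closeA T.α) (sm S) = 4 →
        cut (closeA T.α) (sm Sᶜ) ≠ 4 := fun S h1 h3 h4 h5 => ha ⟨S, h1, h3, h4, h5⟩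
    obtain ⟨V, fV, αp, β, q, hp, hβ, hc, hI, h1, hM, hcut⟩ :=
      hT.split (F := {S : Finset T.V // Maximal (MG T) S}) (fun X => X.1)
        (fun X => Finset.card_pos.1 (lt_of_lt_of_le (by norm_num) X.2.1.1))
        (fun X => X.2.1.2.2)
        (fun X Y v hX hY => Subtype.ext (mdec_disj hT ha' X.2 Y.2 hX hY))
    have hq : Function.Surjective q := by
      rintro (a | X)
      · obtain ⟨v, hv, -⟩ := h1 a
        exact ⟨v, hv⟩
      · obtain ⟨v, hv⟩ : X.1.Nonempty :=
          Finset.card_pos.1 (lt_of_lt_of_le (by norm_num) X.2.1.1)
        exact ⟨v, (hM X v).2 hv⟩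
    refine ⟨V, {S : Finset T.V // Maximal (MG T) S}, fV, inferInstance, αp, β, ?_, hp, ?_, hI⟩
    · -- rigidity
      have key : ∀ B : Finset (Option (V ⊕ {S : Finset T.V // Maximal (MG T) S})), none ∉ B →
          2 ≤ B.card → B.card + 2 ≤ Fintype.card (Option (V ⊕ {S : Finset T.V // Maximal (MG T) S})) →
          6 ≤ cut (cls αp) B := by
        intro B hn hB1 hB2
        let S : Finset T.V := Finset.univ.filter fun v => some (q v) ∈ B
        have hSB : cut (cls αp) B = cut (closeA T.α) (sm S) := by
          rw [hcut B]
          congr 1
          ext o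
          cases o with
          | none => simp [sm, hn]
          | some v => simp [sm, S]
        have hsub : B ⊆ S.image fun v => some (q v) := by
          intro z hz
          cases z with
          | none => exact absurd hz hn
          | some z =>
            obtain ⟨v, rfl⟩ := hq z
            rw [Finset.mem_image]
            exact ⟨v, by simpa [S] using hz, rfl⟩
        have hcS : 2 ≤ S.card := hB1.trans ((Finset.card_le_card hsub).trans Finset.card_image_le)
        have hSu : S ≠ Finset.univ := by
          intro hu
          have hcov : Bᶜ ⊆ {none} := by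
            intro z hz
            cases z with
            | none => simp
            | some z =>
              obtain ⟨v, rfl⟩ := hq z
              have : v ∈ S := by
                rw [hu]
                exact Finset.mem_univ v
              have h5 : some (q v) ∈ B := by simpa [S] using this
              exact absurd h5 (Finset.mem_compl.1 hz)
          have h6 := Finset.card_le_card hcov
          rw [Finset.card_compl, Finset.card_singleton] at h6
          omega
        have hge : 4 ≤ cut (cls αp) B := by
          rw [hSB]
          exact mdec_ge hT (Finset.card_pos.1 (by omega))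
        have hn4 : cut (cls αp) B ≠ 4 := by
          intro h4
          rw [hSB] at h4
          have hG : MG T S := ⟨hcS, hSu, h4⟩
          obtain ⟨X, hSX, hX⟩ := (Set.toFinite {S : Finset T.V | MG T S}).exists_le_maximal hG
          have hB3 : B ⊆ {some (inr ⟨X, hX⟩)} := by
            intro z hz
            obtain ⟨v, hv, rfl⟩ := Finset.mem_image.1 (hsub hz)
            have := (hM ⟨X, hX⟩ v).2 (hSX hv)
            rw [this]
            exact Finset.mem_singleton_self _
          have := Finset.card_le_card hB3
          rw [Finset.card_singleton] at this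
          omega
        obtain ⟨m, hm⟩ := cut_even' (α := cls αp) hp.inv hp.ne B
        omega
      refine ⟨hp.inv, hp.ne, ?_, hp.cut4, ?_, hp.euler⟩
      · by_contra hlt
        push Not at hlt
        rw [Fintype.card_option] at hlt
        have hne : Nonempty T.V := Fintype.card_pos_iff.1 (by omega)
        obtain ⟨v0⟩ := hne
        by_cases hall : ∀ x : V ⊕ {S : Finset T.V // Maximal (MG T) S}, x = q v0
        · -- two sites
          cases hz : q v0 with
          | inl a =>
            obtain ⟨v, hv, hu⟩ := h1 a
            have : ∀ w : T.V, w = v := fun w => hu w (by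
              show q w = inl a
              rw [hall (q w), hz])
            have h5 : Fintype.card T.V ≤ 1 := Fintype.card_le_one_iff.2 fun x y => by
              rw [this x, this y]
            omega
          | inr X =>
            apply X.2.1.2.1
            ext w
            constructor
            · intro _
              exact Finset.mem_univ w
            · intro _
              exact (hM X w).1 (by rw [hall (q w), hz])
        · push Not at hall
          obtain ⟨z', hz'⟩ := hall
          have hx : ∀ x, x = q v0 ∨ x = z' := by
            intro x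
            by_contra hx
            push Not at hx
            have : ({x, q v0, z'} : Finset _).card ≤
                Fintype.card (V ⊕ {S : Finset T.V // Maximal (MG T) S}) := Finset.card_le_univ _
            rw [Finset.card_eq_three.2 ⟨x, q v0, z', hx.1, hx.2, hz'.symm, rfl⟩] at this
            omega
          obtain ⟨v1, hv1⟩ := hq z'
          let S : Finset T.V := Finset.univ.filter fun v => q v = q v0
          have hS1 : cut (closeA T.α) (sm S) = 4 := by
            have h7 := hcut {some (q v0)}
            rw [hp.cut_single] at h7
            rw [h7]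
            congr 1
            ext o
            cases o with
            | none => simp [sm]
            | some v => simp [sm, S]
          have hS2 : cut (closeA T.α) (sm Sᶜ) = 4 := by
            have h7 := hcut {some z'}
            rw [hp.cut_single] at h7
            rw [h7]
            congr 1
            ext o
            cases o with
            | none => simp [sm]
            | some v =>
              simp only [sm, S, Finset.mem_map, Finset.mem_compl, Finset.mem_filter,
                Finset.mem_univ, true_and, Function.Embedding.some_apply, Option.some.injEq,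
                exists_eq_right, Option.map_some, Finset.mem_singleton]
              constructor
              · intro h8
                rcases hx (q v) with h9 | h9
                · exact absurd h9 h8
                · exact h9
              · intro h8 h9
                exact hz' (h8.symm.trans h9)
          exact ha ⟨S, ⟨v0, by simp [S]⟩, ⟨v1, by simp [S, hv1, hz']⟩, hS1, hS2⟩
      · intro A hA1 hA2
        by_cases hn : none ∈ A
        · rw [← cut_compl' hp.inv A]
          apply key
          · simpa using hn
          · rw [Finset.card_compl]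
            omega
          · rw [Finset.card_compl]
            omega
        · exact key A hn hA1 hA2
    · intro X
      refine ⟨hβ X, ?_, ?_⟩
      · rw [hc]
        exact X.2.1.1
      · rw [hc]
        exact Finset.card_lt_card (Finset.ssubset_univ_iff.2 X.2.1.2.1)

end Tn

end SN78
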