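import Pool.Agent.SN78.RDefs
import Pool.Agent.SN78.Arb

/-!
# SN78: decomposition of prime diagrams, definitions

`PMap`: prime plane maps (all nontrivial cuts have at least four edges; planarity is expressed by
`Hom`: every cycle mod 2 bounds).  `Tn` (Arb.lean) are tangle shadows.  `Tn.PT`: the closure of the tangle by
one crossing is a prime plane map.  `Tn.Iso`: isomorphism of tangle shadows (the ports are fixed, the darts
of each crossing may be renumbered by a rotation).  `Tn.NC`: no closed components; `Tn.TI`: port `0` is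
connected with port `3` and port `1` with port `2`.

`join S T`: the closed map obtained by joining port `i` of `S` with port `1 - i` of `T`; `sum` then `join` is
associative.

`Diag`: link diagrams; `FlypeStep`: isomorphism and flype; `FlypeEq`: the equivalence relation generated.
`Rel σ σ'`: for all over/under data on `σ` there are some on `σ'` such that the diagrams are flype
equivalent.  `Tn.TE S T`: `S` can be replaced by `T` in all prime plane diagrams up to flypes.
-/

namespace SN78

open Sum

/-- every cycle mod 2 is a sum of boundaries of faces -/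
def Hom {X : Type} (α : X × ZMod 4 → X × ZMod 4) : Prop :=
  ∀ c : X × ZMod 4 → ZMod 2, (∀ d, c (α d) = c d) → (∀ v, ∑ i : ZMod 4, c (v, i) = 0) →
    ∃ w : X × ZMod 4 → ZMod 2, (∀ d, w (fs α d) = w d) ∧ ∀ d, w d + w (pv d) = c d

/-- prime plane maps -/
structure PMap {X : Type} [Fintype X] (α : X × ZMod 4 → X × ZMod 4) : Prop where
  inv : ∀ d, α (α d) = d
  two : 2 ≤ Fintype.card X
  cut4 : ∀ A : Finset X, A.Nonempty → A ≠ Finset.univ → 4 ≤ cut α A
  hom : Hom α

/-- isomorphism of closed maps -/
def CIso {W W' : Type} (σ : W × ZMod 4 → W × ZMod 4) (σ' : W' × ZMod 4 → W' × ZMod 4) : Prop :=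
  ∃ (e : W ≃ W') (c : W → ZMod 4),
    ∀ v i, σ' (e v, i + c v) = (e (σ (v, i)).1, (σ (v, i)).2 + c (σ (v, i)).1)

/-- `δ` numbers the darts leaving `A` counterclockwise; walking around the face to the left of `δ i` one
stays outside `A` until one comes back along `δ (i + 1)`, and then inside `A` until one comes to `δ i` -/
structure Bd {X : Type} (α : X × ZMod 4 → X × ZMod 4) (A : Finset X)
    (δ : ZMod 4 → X × ZMod 4) : Prop where
  inj : Function.Injective δ
  mem : ∀ d, (d.1 ∈ A ∧ (α d).1 ∉ A) ↔ ∃ i, δ i = d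
  outw : ∀ i, ∃ n, (fs α)^[n] (δ i) = α (δ (i + 1)) ∧
    ∀ m, 0 < m → m ≤ n → ((fs α)^[m] (δ i)).1 ∉ A
  inw : ∀ i, ∃ n, (fs α)^[n] (α (δ (i + 1))) = δ i ∧
    ∀ m, 0 < m → m ≤ n → ((fs α)^[m] (α (δ (i + 1)))).1 ∈ A

/-- The closed map `τ` is obtained from `σ` by contracting the sets `A z`; the dart `e` of `τ` is the dart
`ι e` of `σ`. -/
structure Contr {W Z : Type} (σ : W × ZMod 4 → W × ZMod 4) (τ : Z × ZMod 4 → Z × ZMod 4)
    (A : Z → Finset W) (ι : Z × ZMod 4 → W × ZMod 4) : Prop where
  part : ∀ v, ∃! z, v ∈ A z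
  com : ∀ e, σ (ι e) = ι (τ e)
  bd : ∀ z, Bd σ (A z) (fun i => ι (z, i))

/-- the closed map obtained by joining two tangles, port `i` with port `1 - i` -/
def join {V V' : Type} (α : Tg V) (β : Tg V') : (V ⊕ V') × ZMod 4 → (V ⊕ V') × ZMod 4
  | (inl v, i) => match α (.x v i) with
    | .x w j => (inl w, j)
    | .f e _ => e.elim
    | .o _ j => match β (.o () (1 - j)) with
      | .x w k => (inr w, k)
      | _ => (inl v, i)
  | (inr v, i) => match β (.x v i) with
    | .x w j => (inr w, j)
    | .f e _ => e.elim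
    | .o _ j => match α (.o () (1 - j)) with
      | .x w k => (inl w, k)
      | _ => (inr v, i)

/-- link diagrams: crossings `W`, the involution `σ` of the darts, over/under data -/
structure Diag where
  W : Type
  σ : W × ZMod 4 → W × ZMod 4
  ov : W → Bool

/-- the strand which leaves along the dart `d` ends at port `j` -/
inductive Ends {V : Type} (α : Tg V) : SD V Empty Unit → ZMod 4 → Prop
  | fin {d j} : α d = .o () j → Ends α d j
  | go {d v i j} : α d = .x v i → Ends α (.x v (i + 2)) j → Ends α d j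

namespace Tn

attribute [instance] Tn.fin

/-- the closure by one crossing is a prime plane map -/
def PT (T : Tn) : Prop := PMap (closeA T.α)

/-- no closed components -/
def NC (T : Tn) : Prop := ∀ v i, ∃ j, Ends T.α (.x v i) j

/-- the strands connect port `0` with port `3` and port `1` with port `2` -/
def TI (T : Tn) : Prop := Ends T.α (.o () 0) 3 ∧ Ends T.α (.o () 1) 2

/-- isomorphism of tangle shadows -/
def Iso (S T : Tn) : Prop :=
  ∃ (e : S.V ≃ T.V) (c : S.V → ZMod 4), ∀ d, T.α (rel e c 0 d) = rel e c 0 (S.α d)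

/-- reflection in the horizontal axis -/
def rfl' (T : Tn) : Tn := ⟨T.V, T.fin, SN78.refl T.α⟩

/-- insertion of tangles into a parent -/
def glue {V F : Type} [Fintype V] [Fintype F] (αp : SD V F Unit → SD V F Unit) (β : F → Tn) : Tn :=
  ⟨GV V (fun X => (β X).V), inferInstance, glueA αp (fun X => (β X).α)⟩

end Tn

/-- isomorphisms of diagrams and flypes.  A flype moves a crossing from the left of a tangle `T` to its
right, while `T` is turned over (rotated by a half turn around the horizontal axis). -/
inductive FlypeStep : Diag → Diag → Prop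
  | iso {D D' : Diag} (e : D.W ≃ D'.W) (c : D.W → ZMod 4)
      (h : ∀ v i, D'.σ (e v, i + c v) = (e (D.σ (v, i)).1, (D.σ (v, i)).2 + c (D.σ (v, i)).1))
      (hov : ∀ v, D'.ov (e v) = xor (D.ov v) (decide (c v = 1 ∨ c v = 3))) : FlypeStep D D'
  | flype (T R : Tn) (hT : T.PT) (hR : R.PT) (x : Bool) (o : T.V → Bool) (o' : R.V → Bool) :
      FlypeStep ⟨(Unit ⊕ T.V) ⊕ R.V, join (sum single T.α) R.α,
          Sum.elim (Sum.elim (fun _ => x) o) o'⟩
        ⟨(T.V ⊕ Unit) ⊕ R.V, join (sum (refl T.α) single) R.α,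
          Sum.elim (Sum.elim o (fun _ => x)) o'⟩

/-- flype equivalence of diagrams -/
def FlypeEq : Diag → Diag → Prop := Relation.EqvGen FlypeStep

/-- flype equivalence of closed maps -/
def Rel {W W' : Type} (σ : W × ZMod 4 → W × ZMod 4) (σ' : W' × ZMod 4 → W' × ZMod 4) : Prop :=
  ∀ ov : W → Bool, ∃ ov' : W' → Bool, FlypeEq ⟨W, σ, ov⟩ ⟨W', σ', ov'⟩

/-- flype equivalence of tangles -/
def Tn.TE (S T : Tn) : Prop := ∀ R : Tn, R.PT → Rel (join S.α R.α) (join T.α R.α)

end SN78
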