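import Pool.Agent.SN78.MNF

/-!
# SN78 module MFIN: polygons with `n + 3` edges for all prime knot diagrams

`pmap_of`: connectedness: a set of sites without leaving darts has cut `0`; `hom_iff_euler`.
`exists_tangle`: choose a site `w`, crossings `{v // v ≠ w}`; a dart which leads to `(w, j)` leads to port `- j`;
`e w = none`, `e v = some v`, `c = 0` (`PMap.noloop`).
`main`: `T` from `exists_tangle`; `T.PT` by `PMap.ciso`, `T.NC` by `NC.of_comp`, `OneComp.ciso`; `nf_flex` gives `T'`;
`Flex.turn_gpm` gives `k` with `Gpm (T'.turn k).α`; `closed_polygon`.  `Rel σ (closeA T.α)`,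
`Rel (closeA T.α) (join T.α single)` (`join_single`, `CIso.symm`), `Rel (join T.α single) (join T'.α single)`
(`TE` with `R = one`, `one_pt`), `Rel (join T'.α single) (closeA T'.α)`, `Rel (closeA T'.α) (closeA (T'.turn k).α)`
(`closeA_rot`).
-/

namespace SN78

open Sum

variable {W : Type} [Fintype W] {σ : W × ZMod 4 → W × ZMod 4}

theorem pmap_of (hi : ∀ d, σ (σ d) = d)
    (hcut : ∀ A : Finset W, A.Nonempty → A ≠ Finset.univ → 4 ≤ cut σ A)
    (heul : Nat.card (Face σ) = Fintype.card W + 2) (h2 : 2 ≤ Fintype.card W) : PMap σ := by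
  classical
  have hne : Nonempty W := Fintype.card_pos_iff.1 (by omega)
  -- an auxiliary statement which does not use `Hom`
  have hn : ∀ d, σ d ≠ d := by
    intro d hd
    have h1 := hcut {d.1} (Finset.singleton_nonempty _) (by
      intro hu
      rw [← Finset.card_univ, ← hu, Finset.card_singleton] at h2
      omega)
    have h3 : cut σ {d.1} ≤ 3 := by
      unfold cut
      rw [Nat.card_eq_fintype_card, Fintype.card_subtype]
      have h4 : (Finset.univ.filter fun e : W × ZMod 4 =>
          e.1 ∈ ({d.1} : Finset W) ∧ (σ e).1 ∉ ({d.1} : Finset W)) ⊆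
          ({(d.1, d.2 + 1), (d.1, d.2 + 2), (d.1, d.2 + 3)} : Finset (W × ZMod 4)) := by
        rintro ⟨x, i⟩ he
        simp only [Finset.mem_filter, Finset.mem_univ, true_and, Finset.mem_singleton] at he
        obtain ⟨rfl, he⟩ := he
        have h5 : i ≠ d.2 := by
          rintro rfl
          exact he (congrArg Prod.fst hd)
        have h6 : ∀ a b : ZMod 4, b ≠ a → b = a + 1 ∨ b = a + 2 ∨ b = a + 3 := by decide
        rcases h6 _ _ h5 with h | h | h <;> simp [h]
      exact (Finset.card_le_card h4).trans Finset.card_le_three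
    omega
  have hc : ∀ M : W → Prop, (∀ d, M d.1 → M (σ d).1) → (∃ x, M x) → ∀ y, M y := by
    intro M hM hx y
    by_contra hy
    have h1 : cut σ (Finset.univ.filter M) = 0 := by
      rw [cut_zero_iff]
      intro d hd
      simp only [Finset.mem_filter, Finset.mem_univ, true_and] at hd ⊢
      exact hM d hd
    have h3 := hcut (Finset.univ.filter M) (by
      obtain ⟨x, hx⟩ := hx
      exact ⟨x, by simpa using hx⟩) (by
      intro hu
      have : y ∈ Finset.univ.filter M := by rw [hu]; exact Finset.mem_univ y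
      exact hy (by simpa using this))
    omega
  exact ⟨hi, h2, hcut, (hom_iff_euler hi hn hc).2 heul⟩

open Classical in
/-- the tangle obtained by removing the site `w` -/
private noncomputable def mfinA (σ : W × ZMod 4 → W × ZMod 4) (w : W) : Tg {v : W // v ≠ w}
  | .x v i => if h : (σ (v.1, i)).1 = w then .o () (-(σ (v.1, i)).2)
      else .x ⟨(σ (v.1, i)).1, h⟩ (σ (v.1, i)).2
  | .f e _ => e.elim
  | .o _ i => if h : (σ (w, -i)).1 = w then .o () i
      else .x ⟨(σ (w, -i)).1, h⟩ (σ (w, -i)).2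

theorem exists_tangle (h : PMap σ) :
    ∃ T : Tn, CIso σ (closeA T.α) ∧ Fintype.card T.V + 1 = Fintype.card W := by
  classical
  have h2 := h.two
  have hne : Nonempty W := Fintype.card_pos_iff.1 (by omega)
  obtain ⟨w⟩ := hne
  refine ⟨⟨{v : W // v ≠ w}, inferInstance, mfinA σ w⟩,
    ⟨(Equiv.optionSubtypeNe w).symm, fun _ => 0, ?_⟩, ?_⟩
  · intro v i
    rw [add_zero, add_zero]
    by_cases hv : v = w
    · subst hv
      rw [Equiv.optionSubtypeNe_symm_self]
      have h3 : (σ (v, i)).1 ≠ v := h.noloop (v, i)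
      rw [Equiv.optionSubtypeNe_symm_of_ne h3]
      have h4 : mfinA σ v (.o () (-i)) = .x ⟨(σ (v, i)).1, h3⟩ (σ (v, i)).2 := by
        have h5 : - -i = i := neg_neg i
        simp only [mfinA, h5, dif_neg h3]
      simp only [closeA, h4]
    · rw [Equiv.optionSubtypeNe_symm_of_ne hv]
      by_cases h3 : (σ (v, i)).1 = w
      · have h4 : mfinA σ w (.x ⟨v, hv⟩ i) = .o () (-(σ (v, i)).2) := by
          simp only [mfinA, dif_pos h3]
        simp only [closeA, h4, neg_neg]
        rw [h3, Equiv.optionSubtypeNe_symm_self]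
      · rw [Equiv.optionSubtypeNe_symm_of_ne h3]
        have h4 : mfinA σ w (.x ⟨v, hv⟩ i) = .x ⟨(σ (v, i)).1, h3⟩ (σ (v, i)).2 := by
          simp only [mfinA, dif_neg h3]
        simp only [closeA, h4]
  · show Fintype.card {v : W // v ≠ w} + 1 = Fintype.card W
    rw [← Fintype.card_congr (Equiv.optionSubtypeNe w), Fintype.card_option]

theorem main (h : PMap σ) (hone : OneComp σ) (h3 : 3 ≤ Fintype.card W) (ov : W → Bool) :
    ∃ D : Diag, FlypeEq ⟨W, σ, ov⟩ D ∧ HasPolygon D.σ D.ov (Fintype.card W + 3) := by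
  obtain ⟨T, hT, hcard⟩ := exists_tangle h
  have hPT : T.PT := h.ciso hT
  have hNC : T.NC := Tn.NC.of_comp (hone.ciso hT)
  obtain ⟨T', hTE, hprop, hflex, hPT', hcard'⟩ := nf_flex hPT hNC (by omega)
  obtain ⟨k, hk⟩ := Flex.turn_gpm hflex
  have hpol := fun ov' => closed_polygon (α := (T'.turn k).α)
    (Tn.PT.proper (Tn.PT.turn hPT' k)) hk ov'
  have hrel : Rel σ (closeA (T'.turn k).α) :=
    (Rel.of_ciso hT).trans <| (Rel.of_ciso (CIso.symm (join_single (Tn.PT.proper hPT)))).trans <|
      (hTE Tn.one Tn.one_pt).trans <| (Rel.of_ciso (join_single hprop)).trans <|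
        Rel.of_ciso (closeA_rot k T'.α)
  obtain ⟨ov', hov⟩ := hrel ov
  refine ⟨⟨Option (T'.turn k).V, closeA (T'.turn k).α, ov'⟩, hov, ?_⟩
  have h4 : Fintype.card (T'.turn k).V + 4 = Fintype.card W + 3 := by
    have h5 : Fintype.card (T'.turn k).V = Fintype.card T'.V := rfl
    omega
  rw [← h4]
  exact hpol ov'

end SN78
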