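import Pool.Agent.SN78.AddA
import Pool.Agent.SN78.Clasp
import Pool.Agent.SN78.FF

/-!
# SN78 module ROWS: goodness of rows of tangles

Directions: `rot k α` at `D` corresponds to `α` at `fun i => D (i + k)` (`Dr.rot` applied to
`D' = fun i => D (i + k)`, `D' (i - k) = D i`).  For `k = 1`:
`d2 (D' 0) (D' 2) = d2 (D 1) (D 3)`, `d2 (D' 1) (D' 3) = d2 (D 2) (D 0) = - d2 (D 0) (D 2)`.  For `k = 3`:
`d2 (D' 0) (D' 2) = d2 (D 3) (D 1) = - d2 (D 1) (D 3)`, `d2 (D' 1) (D' 3) = d2 (D 0) (D 2)`.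
-/

namespace SN78

open Sum

variable {V V₁ V₂ : Type} [Fintype V] [Fintype V₁] [Fintype V₂]

theorem proper_single : Proper single := fun i => ⟨(), i, rfl⟩

theorem Proper.sum {α₁ : Tg V₁} {α₂ : Tg V₂} (h₁ : Proper α₁) (h₂ : Proper α₂) :
    Proper (SN78.sum α₁ α₂) := by
  intro i
  by_cases hi : i = 1 ∨ i = 2
  · obtain ⟨v, j, hv⟩ := h₁ i
    refine ⟨inl v, j, ?_⟩
    simp only [SN78.sum, if_pos hi, hv, lf]
  · obtain ⟨v, j, hv⟩ := h₂ i
    refine ⟨inr v, j, ?_⟩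
    simp only [SN78.sum, if_neg hi, hv, rg]

theorem Proper.rot {α : Tg V} (h : Proper α) (k : ZMod 4) : Proper (SN78.rot k α) := by
  intro i
  obtain ⟨v, j, hv⟩ := h (i + -k)
  refine ⟨v, j + 0, ?_⟩
  simp only [SN78.rot, rel, hv, id]

theorem G4.g3 {α : Tg V} (h : G4 α) : G3 α := fun D hD _ => h D hD

theorem G3.gmm {α : Tg V} (h : G3 α) : Gmm α := fun D hD h0 _ => h D hD (Or.inl h0)

theorem G4.gpp {α : Tg V} (h : G4 α) : Gpp α := fun D hD _ _ => h D hD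

/-- from `d2 (D 1) (D 3) > 0` -/
theorem G3.gpm {α : Tg V} (h : G3 α) :
    ∀ D, Pos D → d2 (D 0) (D 2) < 0 → 0 < d2 (D 1) (D 3) → Dr α no D :=
  fun D hD _ h1 => h D hD (Or.inr h1)

private theorem rows_pos {D : ZMod 4 → H} (h : Pos D) (k : ZMod 4) : Pos (fun i => D (i + k)) := by
  refine ⟨fun i => h.1 (i + k), fun i => ?_⟩
  have := h.2 (i + k)
  have e : i + 1 + k = i + k + 1 := by ring
  show 0 < d2 (D (i + k)) (D (i + 1 + k))
  rw [e]; exact this

private theorem rows_rot {α : Tg V} {D : ZMod 4 → H} {k : ZMod 4}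
    (h : Dr α no (fun i => D (i + k))) : Dr (SN78.rot k α) no D := by
  have h1 := Dr.rot k h
  have e1 : (fun i : ZMod 4 => no (i - k)) = no := rfl
  have e2 : (fun i : ZMod 4 => D (i - k + k)) = D := by
    funext i; rw [sub_add_cancel]
  rw [e1] at h1
  have h2 : Dr (SN78.rot k α) no (fun i : ZMod 4 => D (i - k + k)) := h1
  rw [e2] at h2
  exact h2

private theorem rows_swap (a b : H) : d2 a b = - d2 b a := by simp only [d2]; ring

/-- a rotated row (by a quarter turn) is good for the parent row: for `k = 1` and for `k = 3`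
one of the two conditions of `G3` holds if both determinants are positive, and if both are
negative -/
theorem G3.rot_gmm {α : Tg V} (h : G3 α) {k : ZMod 4} (hk : k = 1 ∨ k = 3) :
    Gmm (rot k α) := by
  intro D hD h0 h1
  refine rows_rot (h _ (rows_pos hD k) ?_)
  rcases hk with rfl | rfl
  · left
    show 0 < d2 (D (0 + 1)) (D (2 + 1))
    have e1 : (0 : ZMod 4) + 1 = 1 := by decide
    have e2 : (2 : ZMod 4) + 1 = 3 := by decide
    rw [e1, e2]; exact h1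
  · right
    show 0 < d2 (D (1 + 3)) (D (3 + 3))
    have e1 : (1 : ZMod 4) + 3 = 0 := by decide
    have e2 : (3 : ZMod 4) + 3 = 2 := by decide
    rw [e1, e2]; exact h0

theorem G3.rot_gpp {α : Tg V} (h : G3 α) {k : ZMod 4} (hk : k = 1 ∨ k = 3) :
    Gpp (rot k α) := by
  intro D hD h0 h1
  refine rows_rot (h _ (rows_pos hD k) ?_)
  rcases hk with rfl | rfl
  · right
    show 0 < d2 (D (1 + 1)) (D (3 + 1))
    have e1 : (1 : ZMod 4) + 1 = 2 := by decide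
    have e2 : (3 : ZMod 4) + 1 = 0 := by decide
    rw [e1, e2, rows_swap]; linarith
  · left
    show 0 < d2 (D (0 + 3)) (D (2 + 3))
    have e1 : (0 : ZMod 4) + 3 = 3 := by decide
    have e2 : (2 : ZMod 4) + 3 = 1 := by decide
    rw [e1, e2, rows_swap]; linarith

/-- `Pos1 (j + k) D` implies `Pos1 j (fun i => D (i + k))` -/
theorem Z.rot {α : Tg V} {j : ZMod 4} (h : Z j α) (k : ZMod 4) : Z (j + k) (SN78.rot k α) := by
  intro D hD
  have hD' : Pos1 j (fun i => D (i + k)) := by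
    refine ⟨fun i => hD.1 (i + k), ?_, fun i hi => ?_⟩
    · have e : j + 1 + k = j + k + 1 := by ring
      show D (j + 1 + k) = D (j + k)
      rw [e]; exact hD.2.1
    · have e : i + 1 + k = i + k + 1 := by ring
      show 0 < d2 (D (i + k)) (D (i + 1 + k))
      rw [e]
      exact hD.2.2 (i + k) (fun h' => hi (add_right_cancel h'))
  have h1 := Dr.rot k (h _ hD')
  have e1 : (fun i : ZMod 4 => only j (i - k)) = only (j + k) := by
    funext i
    show (i - k = j) = (i = j + k)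
    exact propext sub_eq_iff_eq_add
  have e2 : (fun i : ZMod 4 => D (i - k + k)) = D := by
    funext i; rw [sub_add_cancel]
  have h2 : Dr (SN78.rot k α) (fun i : ZMod 4 => only j (i - k))
      (fun i : ZMod 4 => D (i - k + k)) := h1
  rw [e1, e2] at h2
  exact h2

/-- adding a crossing on the left: `addA`, `addB` -/
theorem row_cons {α : Tg V} (hp : Proper α) (h : Gmm α) :
    G3 (sum single α) ∧ Z 0 (sum single α) ∧ Z 2 (sum single α) := by
  refine ⟨fun D hD hor => ?_, fun D hD => ?_, fun D hD => ?_⟩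
  · rcases hor with h0 | h1
    · exact addB hp h (Or.inl ⟨rfl, hD⟩) h0
    · exact addA hp h (Or.inl ⟨rfl, hD⟩) h1
  · refine addB hp h (Or.inr ⟨rfl, hD⟩) ?_
    have h12 := hD.2.2 1 (by decide)
    have e : D 1 = D 0 := hD.2.1
    have e2 : (1 : ZMod 4) + 1 = 2 := by decide
    rw [e2, e] at h12
    exact h12
  · refine addA hp h (Or.inr ⟨rfl, hD⟩) ?_
    have h12 := hD.2.2 1 (by decide)
    have e2 : (1 : ZMod 4) + 1 = 2 := by decide
    have e3 : (2 : ZMod 4) + 1 = 3 := by decide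
    have e : D 3 = D 2 := by have := hD.2.1; rwa [e3] at this
    rw [e2] at h12
    rw [e]; exact h12

theorem clasp_G4 : G4 (sum single single) := fun _ hD => clasp hD

/-- `ffl` -/
theorem row_left {α₁ : Tg V₁} {α₂ : Tg V₂} (p₁ : Proper α₁) (p₂ : Proper α₂)
    (h₁ : Z 3 α₁) (h₂ : Gmm α₂) :
    G4 (sum α₁ α₂) ∧ Z 0 (sum α₁ α₂) ∧ Z 2 (sum α₁ α₂) :=
  ⟨fun _ hD => ffl p₁ p₂ h₁ h₂ (Or.inl ⟨rfl, hD⟩),
    fun _ hD => ffl p₁ p₂ h₁ h₂ (Or.inr (Or.inl ⟨rfl, hD⟩)),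
    fun _ hD => ffl p₁ p₂ h₁ h₂ (Or.inr (Or.inr ⟨rfl, hD⟩))⟩

/-- `ffr` -/
theorem row_right {α₁ : Tg V₁} {α₂ : Tg V₂} (p₁ : Proper α₁) (p₂ : Proper α₂)
    (h₁ : Gpp α₁) (h₂ : Z 1 α₂) :
    G4 (sum α₁ α₂) ∧ Z 0 (sum α₁ α₂) ∧ Z 2 (sum α₁ α₂) :=
  ⟨fun _ hD => ffr p₁ p₂ h₁ h₂ (Or.inl ⟨rfl, hD⟩),
    fun _ hD => ffr p₁ p₂ h₁ h₂ (Or.inr (Or.inl ⟨rfl, hD⟩)),
    fun _ hD => ffr p₁ p₂ h₁ h₂ (Or.inr (Or.inr ⟨rfl, hD⟩))⟩

end SN78
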