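import Pool.Agent.SN78.RT
import Pool.Agent.SN78.RRot
import Pool.Agent.SN78.Rows

/-!
# SN78 module RPOLY: rigid pieces with tangles are good for all generic directions

`Gs s t`: drawable for generic directions with prescribed signs of `d2 (D 0) (D 2)`, `d2 (D 1) (D 3)`.
`Flex`: there is a sign `s` which is good for both `t`, and a sign `t` which is good for both `s`.

`G3.flex`: let `D' i = D (i + k)`; `Dr (rot k α) no D` follows from `Dr α no D'` (`Dr.rot`).  `G3` applies if
`0 < d2 (D' 0) (D' 2)` or `0 < d2 (D' 1) (D' 3)`.  `k = 0`: `s = true` or `t = true` suffices; `k = 1`: `t = true` or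
`s = false`; `k = 2`: `s = false` or `t = false`; `k = 3`: `t = false` or `s = true`.

`poly_dr1`: `Dr1.of_parent` and `rt_parent` with `c0 X` the good first sign and `c1 X` the good second sign of
`Flex (α X)`; `GoodS` and `Flex` give `Dr (α X) no D'`.

`poly_rot`: let `D' i = D (i + k)`, `u' i = u (i + k)`, `sh' i = sh (i + k)`; apply `poly_dr1` to `rotP (-k) αp`
(`Rigid.rotP`) and rotate back by `k` (`Dr1.rot`, `glueA_rotP`, `rotP_rotP`, `rotP_zero`).

`poly_good`, first part: let `D` be generic, `u` not linear.  If `d2 (D 0) (D 2) < 0` let `k = 0`, otherwise `k = 2`: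
then `0 < d2 (D (k + 2)) (D k)`.  If `d2 (D 1) (D 3) < 0` let `k' = 1`, otherwise `k' = 3`.  If the sum in `poly_rot`
is not zero for `k` or for `k'` we are done.  Otherwise: the sum is zero for `k` iff there is a flat `l`
with `u i = dot l (D i)` for `i = k, k + 1, k + 2`; for `k, k'` we get `l, l'`; they agree on two neighbouring
directions `D j, D (j + 1)` (`{k, k + 1, k + 2} ∩ {k', k' + 1, k' + 2}`), which are linearly independent, so
`l = l'` and `u` is linear, contradiction.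
Second part: `Pos1 k D`, `D (k + 1) = D k`, `u (k + 1) = u k`.  Use `poly_rot` with the rotation `k + 1`:
`D' 3 = D k`, `D' 0 = D (k + 1)`.  If the sum vanishes then `u` is linear on `D (k + 1), D (k + 2), D (k + 3)` and
so on all four.
`poly_proper`: port `i` leads to a crossing or a big vertex (`noloop` at `none`).
-/

namespace SN78

open Sum

/-- drawable for generic directions with prescribed signs -/
def Gs {V : Type} [Fintype V] (s t : Bool) (α : Tg V) : Prop :=
  ∀ D, Pos D → d2 (D 0) (D 2) ≠ 0 → d2 (D 1) (D 3) ≠ 0 → (0 < d2 (D 0) (D 2) ↔ s = true) →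
    (0 < d2 (D 1) (D 3) ↔ t = true) → Dr α no D

/-- the condition for tangles which are inserted into rigid pieces -/
def Flex {V : Type} [Fintype V] (α : Tg V) : Prop :=
  (∃ s, ∀ t, Gs s t α) ∧ ∃ t, ∀ s, Gs s t α

private theorem rp_swap (a b : H) : d2 a b = - d2 b a := by simp only [d2]; ring

private theorem rp_rot {V : Type} [Fintype V] {α : Tg V} {D : ZMod 4 → H} {k : ZMod 4}
    (h : Dr α no (fun i => D (i + k))) : Dr (SN78.rot k α) no D := by
  have h1 := Dr.rot k h
  have e1 : (fun i : ZMod 4 => no (i - k)) = no := rfl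
  have e2 : (fun i : ZMod 4 => D (i - k + k)) = D := by
    funext i; rw [sub_add_cancel]
  rw [e1] at h1
  have h2 : Dr (SN78.rot k α) no (fun i : ZMod 4 => D (i - k + k)) := h1
  rw [e2] at h2
  exact h2

private theorem rp_pos {D : ZMod 4 → H} (h : Pos D) (k : ZMod 4) : Pos (fun i => D (i + k)) := by
  refine ⟨fun i => h.1 (i + k), fun i => ?_⟩
  have := h.2 (i + k)
  have e : i + 1 + k = i + k + 1 := by ring
  show 0 < d2 (D (i + k)) (D (i + 1 + k))
  rw [e]; exact this

private theorem rp_z4 (j : ZMod 4) : j = 0 ∨ j = 1 ∨ j = 2 ∨ j = 3 := by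
  revert j; decide

theorem G3.flex {V : Type} [Fintype V] {α : Tg V} (h : G3 α) (k : ZMod 4) :
    Flex (SN78.rot k α) := by
  -- the two conditions for the rotated directions
  have key : ∀ D, Pos D → (0 < d2 (D k) (D (k + 2)) ∨ 0 < d2 (D (k + 1)) (D (k + 3))) →
      Dr (SN78.rot k α) no D := by
    intro D hD hor
    refine rp_rot (h _ (rp_pos hD k) ?_)
    show 0 < d2 (D (0 + k)) (D (2 + k)) ∨ 0 < d2 (D (1 + k)) (D (3 + k))
    rw [zero_add, add_comm 2 k, add_comm 1 k, add_comm 3 k]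
    exact hor
  have a1 : (1 : ZMod 4) + 1 = 2 := by decide
  have a2 : (1 : ZMod 4) + 2 = 3 := by decide
  have a3 : (1 : ZMod 4) + 3 = 0 := by decide
  have b1 : (2 : ZMod 4) + 1 = 3 := by decide
  have b2 : (2 : ZMod 4) + 2 = 0 := by decide
  have b3 : (2 : ZMod 4) + 3 = 1 := by decide
  have c1 : (3 : ZMod 4) + 1 = 0 := by decide
  have c2 : (3 : ZMod 4) + 2 = 1 := by decide
  have c3 : (3 : ZMod 4) + 3 = 2 := by decide
  rcases rp_z4 k with rfl | rfl | rfl | rfl
  · refine ⟨⟨true, fun t D hD h0 h1 hs ht => key D hD ?_⟩,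
      ⟨true, fun s D hD h0 h1 hs ht => key D hD ?_⟩⟩
    · left; simpa using hs.2 rfl
    · right; simpa using ht.2 rfl
  · rw [a1, a2, a3] at key
    refine ⟨⟨false, fun t D hD h0 h1 hs ht => key D hD ?_⟩,
      ⟨true, fun s D hD h0 h1 hs ht => key D hD ?_⟩⟩
    · right
      have : ¬ 0 < d2 (D 0) (D 2) := by simpa using hs
      rw [rp_swap]
      have := lt_of_le_of_ne (not_lt.1 this) h0
      linarith
    · left; exact ht.2 rfl
  · rw [b1, b2, b3] at key
    refine ⟨⟨false, fun t D hD h0 h1 hs ht => key D hD ?_⟩,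
      ⟨false, fun s D hD h0 h1 hs ht => key D hD ?_⟩⟩
    · left
      have : ¬ 0 < d2 (D 0) (D 2) := by simpa using hs
      rw [rp_swap]
      have := lt_of_le_of_ne (not_lt.1 this) h0
      linarith
    · right
      have : ¬ 0 < d2 (D 1) (D 3) := by simpa using ht
      rw [rp_swap]
      have := lt_of_le_of_ne (not_lt.1 this) h1
      linarith
  · rw [c1, c2, c3] at key
    refine ⟨⟨true, fun t D hD h0 h1 hs ht => key D hD ?_⟩,
      ⟨false, fun s D hD h0 h1 hs ht => key D hD ?_⟩⟩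
    · right; exact hs.2 rfl
    · left
      have : ¬ 0 < d2 (D 1) (D 3) := by simpa using ht
      rw [rp_swap]
      have := lt_of_le_of_ne (not_lt.1 this) h1
      linarith

theorem Gs.flex {V : Type} [Fintype V] {α : Tg V} (h : ∀ s t, Gs s t α) : Flex α :=
  ⟨⟨true, fun t => h true t⟩, ⟨true, fun s => h s true⟩⟩

variable {V F : Type} [Fintype V] [Fintype F] {αp : SD V F Unit → SD V F Unit}
  {Vc : F → Type} [∀ X, Fintype (Vc X)] {α : ∀ X, Tg (Vc X)}

private theorem rp_sh {sh : ZMod 4 → Prop} {D : ZMod 4 → H} (h : ShCase sh D) :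
    ∀ i, sh i → D (i + 1) = D i := by
  rcases h with ⟨rfl, _⟩ | ⟨rfl, h⟩
  · intro i hi; exact absurd hi (fun h => h)
  · intro i hi
    have e : i = 3 := hi
    subst e
    exact h.2.1

theorem poly_dr1 (hr : Rigid (cls αp)) (hpr : ∀ X, Proper (α X)) (hfl : ∀ X, Flex (α X))
    {sh : ZMod 4 → Prop} {D : ZMod 4 → H} (hsh : ShCase sh D) (h20 : 0 < d2 (D 2) (D 0))
    (h13 : d2 (D 1) (D 3) ≠ 0) {u : ZMod 4 → ℝ}
    (hu : d2 (D 1) (D 2) * u 0 + d2 (D 2) (D 0) * u 1 + d2 (D 0) (D 1) * u 2 ≠ 0) :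
    Dr1 (glueA αp α) sh D u := by
  refine Dr1.of_parent hpr (rp_sh hsh) ?_
  obtain ⟨N, iN, P, L, r, q1, q2, q3, q4, q5, q6, q7, q8, q9, q10⟩ :=
    rt_parent hr hsh h20 h13 hu (fun X => (hfl X).1.choose) (fun X => (hfl X).2.choose)
  refine ⟨N, iN, P, L, r, q1, q2, q3, q4, q5, q6, q7, q8, q9, fun X => ?_⟩
  obtain ⟨g1, g2, g3, g4⟩ := q10 X
  rcases g4 with g4 | g4
  · exact (hfl X).1.choose_spec (decide (0 < d2 (P.dir L X 1) (P.dir L X 3))) _ g1 g2 g3 g4
      (by simp)
  · exact (hfl X).2.choose_spec (decide (0 < d2 (P.dir L X 0) (P.dir L X 2))) _ g1 g2 g3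
      (by simp) g4

theorem poly_rot (hr : Rigid (cls αp)) (hpr : ∀ X, Proper (α X)) (hfl : ∀ X, Flex (α X))
    (k : ZMod 4) {sh : ZMod 4 → Prop} {D : ZMod 4 → H}
    (hsh : ShCase (fun i => sh (i + k)) (fun i => D (i + k)))
    (h20 : 0 < d2 (D (k + 2)) (D k)) (h13 : d2 (D (k + 1)) (D (k + 3)) ≠ 0) {u : ZMod 4 → ℝ}
    (hu : d2 (D (k + 1)) (D (k + 2)) * u k + d2 (D (k + 2)) (D k) * u (k + 1) +
      d2 (D k) (D (k + 1)) * u (k + 2) ≠ 0) :
    Dr1 (glueA αp α) sh D u := by
  have h1 := poly_dr1 (αp := rotP (-k) αp) (hr.rotP (-k)) hpr hfl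
    (sh := fun i => sh (i + k)) (D := fun i => D (i + k)) hsh
    (by show 0 < d2 (D (2 + k)) (D (0 + k)); rw [zero_add, add_comm 2 k]; exact h20)
    (by show d2 (D (1 + k)) (D (3 + k)) ≠ 0; rw [add_comm 1 k, add_comm 3 k]; exact h13)
    (u := fun i => u (i + k))
    (by
      show d2 (D (1 + k)) (D (2 + k)) * u (0 + k) + d2 (D (2 + k)) (D (0 + k)) * u (1 + k) +
        d2 (D (0 + k)) (D (1 + k)) * u (2 + k) ≠ 0
      rw [zero_add, add_comm 1 k, add_comm 2 k]; exact hu)
  have h2 := Dr1.rot k h1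
  rw [← glueA_rotP, rotP_rotP, neg_add_cancel, rotP_zero] at h2
  have e1 : (fun i : ZMod 4 => sh (i - k + k)) = sh := by funext i; rw [sub_add_cancel]
  have e2 : (fun i : ZMod 4 => D (i - k + k)) = D := by funext i; rw [sub_add_cancel]
  have e3 : (fun i : ZMod 4 => u (i - k + k)) = u := by funext i; rw [sub_add_cancel]
  have h3 : Dr1 (glueA αp α) (fun i : ZMod 4 => sh (i - k + k)) (fun i : ZMod 4 => D (i - k + k))
      (fun i : ZMod 4 => u (i - k + k)) := h2
  rw [e1, e2, e3] at h3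
  exact h3

theorem poly_proper (hr : Rigid (cls αp)) (hpr : ∀ X, Proper (α X)) :
    Proper (glueA αp α) := by
  intro i
  have h := hr.noloop (none, -i)
  have e : cls αp (none, -i) = toX (αp (.o () i)) := by
    show toX (αp (.o () (- -i))) = _
    rw [neg_neg]
  rw [e] at h
  show ∃ v j, incA α (.o () i) (αp (.o () i)) = .x v j
  rcases hα : αp (.o () i) with ⟨v, j⟩ | ⟨X, j⟩ | ⟨a, j⟩
  · exact ⟨inl v, j, rfl⟩
  · obtain ⟨v, l, hv⟩ := hpr X j
    refine ⟨inr ⟨X, v⟩, l, ?_⟩
    show dnA X (.o () i) (α X (.o () j)) = _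
    rw [hv]
    rfl
  · rw [hα] at h
    exact absurd rfl h

private theorem rp_three {A B C l : H} {x y z : ℝ} (hA : A 2 = 0) (hB : B 2 = 0) (hC : C 2 = 0)
    (h : d2 B C * x + d2 C A * y + d2 A B * z = 0) (hx : x = dot l A) (hy : y = dot l B)
    (hne : d2 A B ≠ 0) : z = dot l C := by
  have : d2 A B * (z - dot l C) = 0 := by
    have e : d2 B C * dot l A + d2 C A * dot l B + d2 A B * dot l C = 0 := by
      simp only [d2, dot, hA, hB, hC]; ring
    rw [← hx, ← hy] at e
    linear_combination h - e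
  have := (mul_eq_zero.1 this).resolve_left hne
  linarith

private theorem rp_exl {A B : H} (hA : A 2 = 0) (hB : B 2 = 0) (hne : d2 A B ≠ 0) (x y : ℝ) :
    ∃ l : H, x = dot l A ∧ y = dot l B := by
  refine ⟨![(x * B 1 - y * A 1) / d2 A B, (y * A 0 - x * B 0) / d2 A B, 0], ?_, ?_⟩
  · have : d2 A B = A 0 * B 1 - A 1 * B 0 := rfl
    simp only [dot, Matrix.cons_val_zero, Matrix.cons_val_one, Matrix.cons_val, zero_mul, add_zero]
    rw [div_mul_eq_mul_div, div_mul_eq_mul_div, ← add_div, eq_div_iff hne, this]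
    ring
  · have : d2 A B = A 0 * B 1 - A 1 * B 0 := rfl
    simp only [dot, Matrix.cons_val_zero, Matrix.cons_val_one, Matrix.cons_val, zero_mul, add_zero]
    rw [div_mul_eq_mul_div, div_mul_eq_mul_div, ← add_div, eq_div_iff hne, this]
    ring

private theorem rp_all {Q : ZMod 4 → Prop} (k : ZMod 4) (h0 : Q k) (h1 : Q (k + 1))
    (h2 : Q (k + 2)) (h3 : Q (k + 3)) (i : ZMod 4) : Q i := by
  have : i = k + (i - k) := by ring
  rw [this]
  rcases rp_z4 (i - k) with e | e | e | e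
  · rw [e, add_zero]; exact h0
  · rw [e]; exact h1
  · rw [e]; exact h2
  · rw [e]; exact h3

private theorem rp_lin {D : ZMod 4 → H} (hD : Flat D) {u : ZMod 4 → ℝ} (k : ZMod 4)
    (hne : d2 (D (k + 1)) (D (k + 2)) ≠ 0)
    (h : d2 (D (k + 1)) (D (k + 2)) * u k + d2 (D (k + 2)) (D k) * u (k + 1) +
      d2 (D k) (D (k + 1)) * u (k + 2) = 0)
    (h' : d2 (D (k + 2)) (D (k + 3)) * u (k + 1) + d2 (D (k + 3)) (D (k + 1)) * u (k + 2) +
      d2 (D (k + 1)) (D (k + 2)) * u (k + 3) = 0) :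
    ∃ l : H, ∀ i, u i = dot l (D i) := by
  obtain ⟨l, h1, h2⟩ := rp_exl (hD (k + 1)) (hD (k + 2)) hne (u (k + 1)) (u (k + 2))
  refine ⟨l, rp_all k ?_ h1 h2 ?_⟩
  · exact rp_three (hD _) (hD _) (hD _) (by linear_combination h) h1 h2 hne
  · exact rp_three (hD _) (hD _) (hD _) h' h1 h2 hne

theorem poly_good (hr : Rigid (cls αp)) (hpr : ∀ X, Proper (α X)) (hfl : ∀ X, Flex (α X)) :
    (∀ s t, Gs s t (glueA αp α)) ∧ ∀ k, Z k (glueA αp α) := by
  have a1 : (1 : ZMod 4) + 1 = 2 := by decide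
  have a2 : (1 : ZMod 4) + 2 = 3 := by decide
  have a3 : (1 : ZMod 4) + 3 = 0 := by decide
  have b1 : (2 : ZMod 4) + 1 = 3 := by decide
  have b2 : (2 : ZMod 4) + 2 = 0 := by decide
  have b3 : (2 : ZMod 4) + 3 = 1 := by decide
  have c1 : (3 : ZMod 4) + 1 = 0 := by decide
  have c2 : (3 : ZMod 4) + 2 = 1 := by decide
  have c3 : (3 : ZMod 4) + 3 = 2 := by decide
  refine ⟨fun s t D hD h0 h1 _ _ => ?_, fun k D hD => ?_⟩
  · rw [dr_iff]
    intro u _ hn
    have hsh : ∀ k : ZMod 4, ShCase (fun i => no (i + k)) (fun i => D (i + k)) := fun k =>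
      Or.inl ⟨rfl, rp_pos hD k⟩
    have hne : ∀ k : ZMod 4, d2 (D k) (D (k + 1)) ≠ 0 := fun k => (hD.2 k).ne'
    have h2 : ∀ k : ZMod 4, 0 < d2 (D (k + 2)) (D k) → d2 (D (k + 1)) (D (k + 3)) ≠ 0 →
        ¬ Dr1 (glueA αp α) no D u →
        d2 (D (k + 1)) (D (k + 2)) * u k + d2 (D (k + 2)) (D k) * u (k + 1) +
      d2 (D k) (D (k + 1)) * u (k + 2) = 0 := by
      intro k h3 h4 h5
      by_contra h6
      exact h5 (poly_rot hr hpr hfl k (hsh k) h3 h4 h6)
    by_contra hcon
    apply hn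
    have s0 : d2 (D 2) (D 0) = - d2 (D 0) (D 2) := rp_swap _ _
    have s1 : d2 (D 3) (D 1) = - d2 (D 1) (D 3) := rp_swap _ _
    have h0' : d2 (D 2) (D 0) ≠ 0 := by rw [s0]; exact neg_ne_zero.2 h0
    have h1' : d2 (D 3) (D 1) ≠ 0 := by rw [s1]; exact neg_ne_zero.2 h1
    have g0 := h2 0
    have g1 := h2 1
    have g2 := h2 2
    have g3 := h2 3
    simp only [zero_add, a1, a2, a3, b1, b2, b3, c1, c2, c3] at g0 g1 g2 g3
    have n0 := hne 0
    have n1 := hne 1
    have n2 := hne 2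
    have n3 := hne 3
    simp only [zero_add, a1, b1, c1] at n0 n1 n2 n3
    rcases lt_or_gt_of_ne h0 with e0 | e0
    · have k0 := g0 (by rw [s0]; linarith) h1 hcon
      rcases lt_or_gt_of_ne h1 with e1 | e1
      · have k1 := g1 (by rw [s1]; linarith) h0' hcon
        exact rp_lin hD.1 0 (by simpa using n1) (by simpa using k0) (by simpa using k1)
      · have k3 := g3 e1 h0 hcon
        refine rp_lin hD.1 3 ?_ ?_ ?_ <;> rw [c1, c2]
        · exact n0
        · exact k3
        · rw [c3]; exact k0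
    · have k2 := g2 e0 h1' hcon
      rcases lt_or_gt_of_ne h1 with e1 | e1
      · have k1 := g1 (by rw [s1]; linarith) h0' hcon
        refine rp_lin hD.1 1 ?_ ?_ ?_ <;> rw [a1, a2]
        · exact n2
        · exact k1
        · rw [a3]; exact k2
      · have k3 := g3 e1 h0 hcon
        refine rp_lin hD.1 2 ?_ ?_ ?_ <;> rw [b1, b2]
        · exact n3
        · exact k2
        · rw [b3]; exact k3
  · rw [dr_iff]
    intro u hu hn
    have hu1 : u (k + 1) = u k := hu k rfl
    have e4 : (4 : ZMod 4) = 0 := by decide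
    have f2 : k + 1 + 1 = k + 2 := by rw [add_assoc, a1]
    have f3 : k + 1 + 2 = k + 3 := by rw [add_assoc, a2]
    have f4 : k + 1 + 3 = k := by rw [add_assoc, a3, add_zero]
    have f5 : k + 3 + 1 = k := by rw [add_assoc, c1, add_zero]
    have hk1 : k + 1 ≠ k := by
      intro h; have h' : (1 : ZMod 4) = 0 := by simpa using h
      exact absurd h' (by decide)
    have hk3 : k + 3 ≠ k := by
      intro h; have h' : (3 : ZMod 4) = 0 := by simpa using h
      exact absurd h' (by decide)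
    have p1 : 0 < d2 (D (k + 1)) (D (k + 2)) := by
      have := hD.2.2 (k + 1) hk1
      rwa [f2] at this
    have p3 : 0 < d2 (D (k + 3)) (D k) := by
      have := hD.2.2 (k + 3) hk3
      rwa [f5] at this
    refine poly_rot hr hpr hfl (k + 1) (Or.inr ⟨?_, ?_⟩) ?_ ?_ ?_
    · funext i
      show (i + (k + 1) = k) = (i = 3)
      apply propext
      constructor
      · intro h
        have h' : i = k - (k + 1) := eq_sub_of_add_eq h
        rw [h']
        have : k - (k + 1) = -1 := by ring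
        rw [this]; decide
      · rintro rfl
        rw [add_comm]; exact f4
    · refine ⟨fun i => hD.1 _, ?_, fun i hi => ?_⟩
      · show D (3 + 1 + (k + 1)) = D (3 + (k + 1))
        rw [c1, zero_add, add_comm 3 (k + 1), f4]
        exact hD.2.1
      · show 0 < d2 (D (i + (k + 1))) (D (i + 1 + (k + 1)))
        have e : i + 1 + (k + 1) = i + (k + 1) + 1 := by ring
        rw [e]
        refine hD.2.2 _ fun h => hi ?_
        have h' : i = k - (k + 1) := eq_sub_of_add_eq h
        rw [h']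
        have : k - (k + 1) = -1 := by ring
        rw [this]; decide
    · rw [f3, hD.2.1]; exact p3
    · rw [f2, f4, ← hD.2.1, rp_swap]
      exact neg_ne_zero.2 p1.ne'
    · rw [f2, f3]
      intro h
      apply hn
      obtain ⟨l, h1, h2⟩ := rp_exl (hD.1 (k + 1)) (hD.1 (k + 2)) p1.ne' (u (k + 1)) (u (k + 2))
      refine ⟨l, rp_all k ?_ h1 h2 ?_⟩
      · rw [← hu1, ← hD.2.1]; exact h1
      · exact rp_three (hD.1 _) (hD.1 _) (hD.1 _) h h1 h2 p1.ne'

end SN78
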