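import Pool.Agent.SN78.MGlue
import Pool.Agent.SN78.RPoly

/-!
# SN78 module MGOOD: elements of rows

`GE b T`: `T` can be used as an element of a row which is not a crossing; `b = true` for a clasp.
Symmetries: `Iso`: `Dr.congr`.  `refl`: `Dr.refl` applied to `D' = rflD D` (`rflD (rflD D) = D`):
`D' i = ρ (D (3 - i))` with the reflection `ρ`, so `d2 (D' 0) (D' 2) = - d2 (D 3) (D 1) = d2 (D 1) (D 3)`,
`d2 (D' 1) (D' 3) = - d2 (D 2) (D 0) = d2 (D 0) (D 2)`; `Pos D'`; `Pos1 k D` gives `Pos1 (2 - k) D'`.  So `Gmm`, `Gpp` are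
preserved, `Gs s t` becomes `Gs t s`, `Z k` becomes `Z (2 - k)` (`1 ↦ 1`, `3 ↦ 3`).
`Flex.turn_gpm`: choose `s` with `Gs s true T`, by `Flex`.  `Dr (rot k α) no D` follows from
`Dr α no (fun i => D (i + k))` (as in `G3.rot_gmm`).  For `D` with `d2 (D 0) (D 2) < 0`, `0 < d2 (D 1) (D 3)` the signs
of `d2 (D' 0) (D' 2)`, `d2 (D' 1) (D' 3)` for `D' i = D (i + k)` are: `k = 0`: `(-, +)`, `k = 1`: `(+, +)`, ... so
take `k = 0` if `s = false` and `k = 1` if `s = true`.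
`GE.poly`: `poly_good`, `poly_proper`, `Gs.flex`; `Gmm`, `Gpp` from `Gs`.
`GE.row`: `G3.rot_gmm`, `G3.rot_gpp`, `G3.flex`, `Z.rot`, `PT.turn`.
-/

namespace SN78

open Sum

/-- fat elements of rows -/
structure GE (b : Bool) (T : Tn) : Prop where
  pr : Proper T.α
  mm : Gmm T.α
  pp : Gpp T.α
  fl : Flex T.α
  z : b = false → Z 1 T.α ∧ Z 3 T.α
  pt : T.PT

private theorem mgd_iso {S T : Tn} (h : S.Iso T) {sh : ZMod 4 → Prop} {D : ZMod 4 → H}
    (hD : Dr S.α sh D) : Dr T.α sh D := by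
  obtain ⟨e, c, hc⟩ := h
  exact Dr.congr e c hc hD

theorem G3.iso {S T : Tn} (h : S.Iso T) (hS : G3 S.α) : G3 T.α :=
  fun D hD hor => mgd_iso h (hS D hD hor)

theorem G4.iso {S T : Tn} (h : S.Iso T) (hS : G4 S.α) : G4 T.α :=
  fun D hD => mgd_iso h (hS D hD)

theorem Z.iso {S T : Tn} (h : S.Iso T) {k : ZMod 4} (hS : Z k S.α) : Z k T.α :=
  fun D hD => mgd_iso h (hS D hD)

private theorem mgd_rr (D : ZMod 4 → H) : rflD (rflD D) = D := by
  funext i c
  have e : ∀ i : ZMod 4, 3 - (3 - i) = i := by decide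
  fin_cases c
  · show D (3 - (3 - i)) 0 = _
    rw [e]; rfl
  · show - - D (3 - (3 - i)) 1 = _
    rw [e, neg_neg]; rfl
  · show D (3 - (3 - i)) 2 = _
    rw [e]; rfl

private theorem mgd_d2 (D : ZMod 4 → H) (i j : ZMod 4) :
    d2 (rflD D i) (rflD D j) = d2 (D (3 - j)) (D (3 - i)) := by
  show D (3 - i) 0 * (- D (3 - j) 1) - (- D (3 - i) 1) * D (3 - j) 0 =
    D (3 - j) 0 * D (3 - i) 1 - D (3 - j) 1 * D (3 - i) 0
  ring

private theorem mgd_flat {D : ZMod 4 → H} (h : Flat D) : Flat (rflD D) := fun i => h (3 - i)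

private theorem mgd_pos {D : ZMod 4 → H} (h : Pos D) : Pos (rflD D) := by
  refine ⟨mgd_flat h.1, fun i => ?_⟩
  rw [mgd_d2]
  have e : ∀ i : ZMod 4, 3 - i = 3 - (i + 1) + 1 := by decide
  rw [e i]
  exact h.2 _

private theorem mgd_02 (D : ZMod 4 → H) : d2 (rflD D 0) (rflD D 2) = d2 (D 1) (D 3) := by
  rw [mgd_d2]
  have e1 : (3 : ZMod 4) - 2 = 1 := by decide
  rw [e1, sub_zero]

private theorem mgd_13 (D : ZMod 4 → H) : d2 (rflD D 1) (rflD D 3) = d2 (D 0) (D 2) := by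
  rw [mgd_d2]
  have e1 : (3 : ZMod 4) - 1 = 2 := by decide
  rw [e1, sub_self]

private theorem mgd_refl {V : Type} [Fintype V] {α : Tg V} {D : ZMod 4 → H}
    (h : Dr α no (rflD D)) : Dr (SN78.refl α) no D := by
  have h1 := Dr.refl (fun i (hi : no i) => hi.elim) h
  rw [mgd_rr] at h1
  exact h1

private theorem mgd_Z {V : Type} [Fintype V] {α : Tg V} {k : ZMod 4} (h : Z (2 - k) α) :
    Z k (SN78.refl α) := by
  intro D hD
  have hD' : Pos1 (2 - k) (rflD D) := by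
    refine ⟨mgd_flat hD.1, ?_, fun i hi => ?_⟩
    · have e1 : ∀ k : ZMod 4, 3 - (2 - k + 1) = k := by decide
      have e2 : ∀ k : ZMod 4, 3 - (2 - k) = k + 1 := by decide
      have h2 := hD.2.1
      unfold rflD
      rw [e1, e2, h2]
    · rw [mgd_d2]
      have e : ∀ i : ZMod 4, 3 - i = 3 - (i + 1) + 1 := by decide
      rw [e i]
      refine hD.2.2 _ ?_
      have e3 : ∀ i k : ZMod 4, i ≠ 2 - k → 3 - (i + 1) ≠ k := by decide
      exact e3 i k hi
  have h1 := Dr.refl (fun i (hi : only (2 - k) i) => by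
    have hi' : i = 2 - k := hi
    subst hi'
    exact hD'.2.1) (h _ hD')
  rw [mgd_rr] at h1
  have e4 : (fun i : ZMod 4 => only (2 - k) (2 - i)) = only k := by
    funext i
    have e5 : ∀ i k : ZMod 4, (2 - i = 2 - k) ↔ (i = k) := by decide
    exact propext (e5 i k)
  rw [e4] at h1
  exact h1

private theorem mgd_Gs {V : Type} [Fintype V] {α : Tg V} {s t : Bool} (h : Gs s t α) :
    Gs t s (SN78.refl α) := by
  intro D hD h0 h1 hs ht
  apply mgd_refl
  refine h _ (mgd_pos hD) ?_ ?_ ?_ ?_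
  · rw [mgd_02]; exact h1
  · rw [mgd_13]; exact h0
  · rw [mgd_02]; exact ht
  · rw [mgd_13]; exact hs

theorem GE.refl {b : Bool} {T : Tn} (h : GE b T) : GE b T.rfl' := by
  refine ⟨?_, ?_, ?_, ?_, ?_, h.pt.rfl'⟩
  · intro i
    obtain ⟨v, j, hv⟩ := h.pr (3 - i)
    refine ⟨v, 3 - j, ?_⟩
    show rfl4 (T.α (.o () (3 - i))) = _
    rw [hv]
    rfl
  · intro D hD h0 h1
    apply mgd_refl
    refine h.mm _ (mgd_pos hD) ?_ ?_
    · rw [mgd_02]; exact h1
    · rw [mgd_13]; exact h0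
  · intro D hD h0 h1
    apply mgd_refl
    refine h.pp _ (mgd_pos hD) ?_ ?_
    · rw [mgd_02]; exact h1
    · rw [mgd_13]; exact h0
  · obtain ⟨⟨s, hs⟩, ⟨t, ht⟩⟩ := h.fl
    exact ⟨⟨t, fun s' => mgd_Gs (ht s')⟩, ⟨s, fun t' => mgd_Gs (hs t')⟩⟩
  · intro hb
    obtain ⟨z1, z3⟩ := h.z hb
    have e1 : (2 : ZMod 4) - 1 = 1 := by decide
    have e3 : (2 : ZMod 4) - 3 = 3 := by decide
    exact ⟨mgd_Z (k := 1) (by rw [e1]; exact z1), mgd_Z (k := 3) (by rw [e3]; exact z3)⟩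

private theorem mgd_pos_rot {D : ZMod 4 → H} (h : Pos D) (k : ZMod 4) :
    Pos (fun i => D (i + k)) := by
  refine ⟨fun i => h.1 (i + k), fun i => ?_⟩
  have := h.2 (i + k)
  have e : i + 1 + k = i + k + 1 := by ring
  show 0 < d2 (D (i + k)) (D (i + 1 + k))
  rw [e]; exact this

private theorem mgd_rot {V : Type} [Fintype V] {α : Tg V} {D : ZMod 4 → H} {k : ZMod 4}
    (h : Dr α no (fun i => D (i + k))) : Dr (SN78.rot k α) no D := by
  have h1 := Dr.rot k h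
  have e2 : (fun i : ZMod 4 => D (i - k + k)) = D := by
    funext i; rw [sub_add_cancel]
  have h2 : Dr (SN78.rot k α) no (fun i : ZMod 4 => D (i - k + k)) := h1
  rw [e2] at h2
  exact h2

theorem Flex.turn_gpm {T : Tn} (h : Flex T.α) : ∃ k, Gpm (T.turn k).α := by
  obtain ⟨s, hs⟩ := h.1
  cases s with
  | false =>
    refine ⟨0, fun D hD h0 h1 => ?_⟩
    apply mgd_rot (k := 0)
    have e : (fun i : ZMod 4 => D (i + 0)) = D := by
      funext i; rw [add_zero]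
    rw [e]
    exact hs true D hD h0.ne h1.ne' (by simp [h0.le]) (by simp [h1])
  | true =>
    refine ⟨1, fun D hD h0 h1 => ?_⟩
    apply mgd_rot (k := 1)
    have e2 : (2 : ZMod 4) + 1 = 3 := by decide
    have e1 : (1 : ZMod 4) + 1 = 2 := by decide
    have e3 : (3 : ZMod 4) + 1 = 0 := by decide
    have h2 : 0 < d2 (D (0 + 1)) (D (2 + 1)) := by
      rw [zero_add, e2]; exact h1
    have h3 : 0 < d2 (D (1 + 1)) (D (3 + 1)) := by
      rw [e1, e3, d2_swap]; linarith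
    exact hs true _ (mgd_pos_rot hD 1) h2.ne' h3.ne' ⟨fun _ => rfl, fun _ => h2⟩
      ⟨fun _ => rfl, fun _ => h3⟩

theorem GE.poly {V F : Type} [Fintype V] [Fintype F] {αp : SD V F Unit → SD V F Unit} {β : F → Tn}
    (hr : Rigid (cls αp)) (hp : PMap (cls αp)) (hβ : ∀ X, Proper (β X).α ∧ Flex (β X).α ∧ (β X).PT) :
    GE false (Tn.glue αp β) := by
  obtain ⟨g, z⟩ := poly_good (α := fun X => (β X).α) hr (fun X => (hβ X).1)
    (fun X => (hβ X).2.1)
  refine ⟨poly_proper (α := fun X => (β X).α) hr (fun X => (hβ X).1), ?_, ?_, Gs.flex g,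
    fun _ => ⟨z 1, z 3⟩, Tn.PT.glue hp fun X => (hβ X).2.2⟩
  · intro D hD h0 h1
    exact g true true D hD h0.ne' h1.ne' (by simp [h0]) (by simp [h1])
  · intro D hD h0 h1
    exact g false false D hD h0.ne h1.ne (by simp [h0.le]) (by simp [h1.le])

theorem GE.row {b : Bool} {T : Tn} (hT : T.PT) (hg : G3 T.α) (hz : b = false → Z 0 T.α ∧ Z 2 T.α)
    {k : ZMod 4} (hk : k = 1 ∨ k = 3) : GE b (T.turn k) := by
  refine ⟨hT.proper.rot k, hg.rot_gmm hk, hg.rot_gpp hk, hg.flex k, fun hb => ?_, hT.turn k⟩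
  obtain ⟨z0, z2⟩ := hz hb
  rcases hk with rfl | rfl
  · have e0 : (0 : ZMod 4) + 1 = 1 := by decide
    have e2 : (2 : ZMod 4) + 1 = 3 := by decide
    have h0 := z0.rot 1
    have h2 := z2.rot 1
    rw [e0] at h0
    rw [e2] at h2
    exact ⟨h0, h2⟩
  · have e0 : (0 : ZMod 4) + 3 = 3 := by decide
    have e2 : (2 : ZMod 4) + 3 = 1 := by decide
    have h0 := z0.rot 3
    have h2 := z2.rot 3
    rw [e0] at h0
    rw [e2] at h2
    exact ⟨h2, h0⟩

end SN78
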