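import Pool.Agent.SN78.MBase

/-!
# SN78 module MISO: isomorphisms, mirror images, basic properties of prime tangles

`PMap.ciso`: transport along `(v, i) ↦ (e v, i + c v)`, which commutes with `pv` and so with `fs`; cuts correspond.
`PMap.mir`: let `r (v, i) = (v, c v - i)`; `mir c α d = r (α (r d))`.  Cuts are the same.  `Hom`: given a cycle
`c'` on `mir c α`, `c'' d = c' (r d)` is a cycle on `α`; let `w` be the face function for `c''`, and put
`w' (v, i) = w (v, c v - i - 1)`.  Then `w' d + w' (pv d) = w (pv (r d)) + w (r d) = c' d`.  Let `α (r d) = (u, j)`, so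
`mir c α d = (u, c u - j)`, `fs (mir c α) d = (u, c u - j - 1)`, `w' (fs (mir c α) d) = w (u, j)`, and
`w (u, j) = w (fs α (u, j)) = w (pv (r d)) = w' d`.
`closeA_refl`: check all cases (`refl α d = rfl4 (α (rfl4 d))`).
`Iso.close`: `closeA` of isomorphic tangles.  `PT.proper`: `noloop` at `none`.
`PT.inv`: from `inv` of `closeA`: all darts of `T` except the ports by `(some v, i)`; the ports by `(none, - i)`.
`closeA_rot`: `closeA (rot k α)` is isomorphic with `closeA α`: `e = id`, `c none = - k`, `c (some v) = 0`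
(from `closeA α` to `closeA (rot k α)`).
`one_pt`: `closeA single` has two sites and four faces; `closeA single (none, i) = (some (), - i)`.  `cut4`:
the only sets are the two single sites, and all darts leave them.  `hom`: given the cycle `c`, let
`w (some (), i) = ∑_{0 < k ≤ i} c (some (), k)` (`w 0 = 0`, `w 1 = c 1`, `w 2 = c 1 + c 2`, `w 3 = c 1 + c 2 + c 3`),
and `w (none, - i - 1) = w (some (), i)`.
-/

namespace SN78

open Sum

private theorem miso_z4 (i : ZMod 4) : i = 0 ∨ i = 1 ∨ i = 2 ∨ i = 3 := by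
  revert i; decide

/-! ### closed maps -/

section
variable {W W' W'' : Type} {σ : W × ZMod 4 → W × ZMod 4} {σ' : W' × ZMod 4 → W' × ZMod 4}
  {σ'' : W'' × ZMod 4 → W'' × ZMod 4}

theorem CIso.refl (σ : W × ZMod 4 → W × ZMod 4) : CIso σ σ :=
  ⟨Equiv.refl W, fun _ => 0, fun v i => by simp⟩

theorem CIso.symm (h : CIso σ σ') : CIso σ' σ := by
  obtain ⟨e, c, h⟩ := h
  refine ⟨e.symm, fun v => - c (e.symm v), fun v i => ?_⟩
  have h1 := h (e.symm v) (i + - c (e.symm v))
  rw [Equiv.apply_symm_apply, neg_add_cancel_right] at h1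
  rw [h1]
  simp only [Equiv.symm_apply_apply, add_neg_cancel_right]

theorem CIso.trans (h : CIso σ σ') (h' : CIso σ' σ'') : CIso σ σ'' := by
  obtain ⟨e, c, h⟩ := h
  obtain ⟨e', c', h'⟩ := h'
  refine ⟨e.trans e', fun v => c v + c' (e v), fun v i => ?_⟩
  have h1 := h' (e v) (i + c v)
  rw [h v i] at h1
  simp only [Equiv.trans_apply]
  rw [← add_assoc, h1]
  simp only [add_assoc]

/-- transport of darts -/
private def misoPhi (e : W ≃ W') (c : W → ZMod 4) : W × ZMod 4 ≃ W' × ZMod 4 where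
  toFun d := (e d.1, d.2 + c d.1)
  invFun d := (e.symm d.1, d.2 - c (e.symm d.1))
  left_inv d := by simp
  right_inv d := by simp

private theorem misoPhi_pv (e : W ≃ W') (c : W → ZMod 4) (d : W × ZMod 4) :
    pv (misoPhi e c d) = misoPhi e c (pv d) := by
  simp only [misoPhi, pv, Equiv.coe_fn_mk]
  congr 1
  ring

private theorem misoCut (f : W × ZMod 4 ≃ W' × ZMod 4) {A : Finset W} {A' : Finset W'}
    (hA : ∀ d, d.1 ∈ A ↔ (f d).1 ∈ A') (hf : ∀ d, σ' (f d) = f (σ d)) :
    cut σ A = cut σ' A' := by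
  unfold cut
  refine Nat.card_congr (Equiv.subtypeEquiv f fun d => ?_)
  rw [hf, ← hA, ← hA]

theorem PMap.ciso [Fintype W] [Fintype W'] (h : PMap σ) (e : CIso σ σ') : PMap σ' := by
  classical
  obtain ⟨e, c, he⟩ := e
  have hf : ∀ d, σ' (misoPhi e c d) = misoPhi e c (σ d) := fun d => he d.1 d.2
  have hs : ∀ d, σ' d = misoPhi e c (σ ((misoPhi e c).symm d)) := fun d => by
    rw [← hf, Equiv.apply_symm_apply]
  refine ⟨fun d => ?_, ?_, fun A' hA hA2 => ?_, fun c' h1 h2 => ?_⟩
  · rw [hs (σ' d), hs d, Equiv.symm_apply_apply, h.inv, Equiv.apply_symm_apply]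
  · rw [← Fintype.card_congr e]
    exact h.two
  · have hm : ∀ v, v ∈ A'.map e.symm.toEmbedding ↔ e v ∈ A' := by
      intro v
      rw [Finset.mem_map_equiv, Equiv.symm_symm]
    rw [← misoCut (misoPhi e c) (A := A'.map e.symm.toEmbedding) (fun d => hm d.1) hf]
    apply h.cut4
    · exact hA.map
    · intro hu
      apply hA2
      ext v
      have h3 := (hm (e.symm v)).1 (by rw [hu]; exact Finset.mem_univ _)
      rw [Equiv.apply_symm_apply] at h3
      simp [h3]
  · obtain ⟨w, w1, w2⟩ := h.hom (fun d => c' (misoPhi e c d))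
      (fun d => by
        show c' (misoPhi e c (σ d)) = _
        rw [← hf, h1])
      (fun v => by
        rw [← h2 (e v)]
        exact Fintype.sum_equiv (Equiv.addRight (c v)) _ _ (fun i => rfl))
    refine ⟨fun d => w ((misoPhi e c).symm d), fun d => ?_, fun d => ?_⟩
    · obtain ⟨d, rfl⟩ := (misoPhi e c).surjective d
      show w ((misoPhi e c).symm (pv (σ' (misoPhi e c d)))) =
        w ((misoPhi e c).symm (misoPhi e c d))
      rw [hf, misoPhi_pv, Equiv.symm_apply_apply, Equiv.symm_apply_apply]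
      exact w1 d
    · obtain ⟨d, rfl⟩ := (misoPhi e c).surjective d
      show w ((misoPhi e c).symm (misoPhi e c d)) + w ((misoPhi e c).symm (pv (misoPhi e c d))) = _
      rw [misoPhi_pv, Equiv.symm_apply_apply, Equiv.symm_apply_apply]
      exact w2 d

/-- the mirror image -/
def mir (c : W → ZMod 4) (σ : W × ZMod 4 → W × ZMod 4) (d : W × ZMod 4) : W × ZMod 4 :=
  ((σ (d.1, c d.1 - d.2)).1, c (σ (d.1, c d.1 - d.2)).1 - (σ (d.1, c d.1 - d.2)).2)

/-- reflection of darts -/
private def misoR (c : W → ZMod 4) : W × ZMod 4 ≃ W × ZMod 4 where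
  toFun d := (d.1, c d.1 - d.2)
  invFun d := (d.1, c d.1 - d.2)
  left_inv d := by simp
  right_inv d := by simp

private theorem misoR_misoR (c : W → ZMod 4) (d : W × ZMod 4) : misoR c (misoR c d) = d := by
  simp [misoR]

private theorem mir_eq (c : W → ZMod 4) (d : W × ZMod 4) :
    mir c σ d = misoR c (σ (misoR c d)) := rfl

theorem PMap.mir [Fintype W] (h : PMap σ) (c : W → ZMod 4) : PMap (mir c σ) := by
  classical
  refine ⟨fun d => ?_, h.two, fun A hA hA2 => ?_, fun c' h1 h2 => ?_⟩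
  · rw [mir_eq, mir_eq, misoR_misoR, h.inv, misoR_misoR]
  · rw [← misoCut (σ := σ) (misoR c) (A := A) (fun d => Iff.rfl) (fun d => by
      rw [mir_eq, misoR_misoR])]
    exact h.cut4 A hA hA2
  · obtain ⟨w, w1, w2⟩ := h.hom (fun d => c' (misoR c d))
      (fun d => by
        show c' (misoR c (σ d)) = _
        have h3 := h1 (misoR c d)
        rwa [mir_eq, misoR_misoR] at h3)
      (fun v => by
        rw [← h2 v]
        exact Fintype.sum_equiv (Equiv.subLeft (c v)) _ _ (fun i => rfl))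
    refine ⟨fun d => w (pv (misoR c d)), fun d => ?_, fun d => ?_⟩
    · have h3 := w1 (σ (misoR c d))
      have h4 : fs σ (σ (misoR c d)) = pv (misoR c d) := by
        unfold fs
        rw [h.inv]
      rw [h4] at h3
      show w (pv (misoR c (pv (misoR c (σ (misoR c d)))))) = w (pv (misoR c d))
      rw [h3]
      congr 1
      simp only [misoR, pv, Equiv.coe_fn_mk]
      refine Prod.ext rfl ?_
      simp only
      ring
    · have h3 := w2 (misoR c d)
      rw [misoR_misoR] at h3
      rw [← h3, add_comm]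
      congr 1
      show w (pv (misoR c (pv d))) = w (misoR c d)
      congr 1
      simp only [misoR, pv, Equiv.coe_fn_mk]
      refine Prod.ext rfl ?_
      simp only
      ring

end

/-! ### tangles -/

private theorem miso_rfl4 {V : Type} (d : SD V Empty Unit) : rfl4 (rfl4 d) = d := by
  rcases d with ⟨v, i⟩ | ⟨e, i⟩ | ⟨a, i⟩
  · simp only [rfl4, sub_sub_cancel]
  · exact e.elim
  · simp only [rfl4, sub_sub_cancel]

private theorem miso_rel {V V' V'' : Type} (e : V → V') (c : V → ZMod 4) (k : ZMod 4)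
    (e' : V' → V'') (c' : V' → ZMod 4) (k' : ZMod 4) (d : SD V Empty Unit) :
    rel e' c' k' (rel e c k d) = rel (fun v => e' (e v)) (fun v => c v + c' (e v)) (k + k') d := by
  rcases d with ⟨v, i⟩ | ⟨e, i⟩ | ⟨a, i⟩
  · simp only [rel, add_assoc]
  · exact e.elim
  · simp only [rel, add_assoc]

private theorem miso_rel0 {V : Type} (d : SD V Empty Unit) :
    rel (fun v => v) (fun _ => 0) 0 d = d := by
  rcases d with ⟨v, i⟩ | ⟨e, i⟩ | ⟨a, i⟩
  · simp only [rel, add_zero]
  · exact e.elim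
  · simp only [rel, add_zero]

theorem refl_refl {V : Type} (α : Tg V) : refl (refl α) = α := by
  funext d
  show rfl4 (rfl4 (α (rfl4 (rfl4 d)))) = α d
  rw [miso_rfl4, miso_rfl4]

theorem rot_rot {V : Type} (k l : ZMod 4) (α : Tg V) : rot k (rot l α) = rot (k + l) α := by
  funext d
  show rel id (fun _ => 0) k (rel id (fun _ => 0) l (α (rel id (fun _ => 0) (-l)
    (rel id (fun _ => 0) (-k) d)))) = rel id (fun _ => 0) (k + l) (α (rel id (fun _ => 0)
      (-(k + l)) d))
  rw [miso_rel, miso_rel]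
  have e1 : l + k = k + l := by ring
  have e2 : -k + -l = -(k + l) := by ring
  rw [e1, e2]
  simp only [add_zero]
  rfl

theorem rot_zero {V : Type} (α : Tg V) : rot 0 α = α := by
  funext d
  show rel (fun v => v) (fun _ => 0) 0 (α (rel (fun v => v) (fun _ => 0) (-0) d)) = α d
  rw [neg_zero, miso_rel0, miso_rel0]

/-- the reflection of the closed map of a tangle -/
def cm {V : Type} : Option V → ZMod 4
  | none => 1
  | some _ => 3

private theorem closeA_some {V : Type} (α : Tg V) (v : V) (i : ZMod 4) :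
    (∃ w j, α (.x v i) = .x w j ∧ closeA α (some v, i) = (some w, j)) ∨
    ∃ j, α (.x v i) = .o () j ∧ closeA α (some v, i) = (none, - j) := by
  rcases h : α (.x v i) with ⟨w, j⟩ | ⟨e, j⟩ | ⟨a, j⟩
  · refine Or.inl ⟨w, j, rfl, ?_⟩
    simp only [closeA, h]
  · exact e.elim
  · refine Or.inr ⟨j, rfl, ?_⟩
    simp only [closeA, h]

private theorem closeA_none {V : Type} (α : Tg V) (i : ZMod 4) :
    (∃ w j, α (.o () (-i)) = .x w j ∧ closeA α (none, i) = (some w, j)) ∨
    ∃ j, α (.o () (-i)) = .o () j ∧ closeA α (none, i) = (none, - j) := by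
  rcases h : α (.o () (-i)) with ⟨w, j⟩ | ⟨e, j⟩ | ⟨a, j⟩
  · refine Or.inl ⟨w, j, rfl, ?_⟩
    simp only [closeA, h]
  · exact e.elim
  · refine Or.inr ⟨j, rfl, ?_⟩
    simp only [closeA, h]

/-- the dart of the closed map -/
private def misoD {V : Type} : SD V Empty Unit → Option V × ZMod 4
  | .x v i => (some v, i)
  | .f e _ => e.elim
  | .o _ i => (none, - i)

private theorem misoD_close {V : Type} (α : Tg V) (d : SD V Empty Unit) :
    closeA α (misoD d) = misoD (α d) := by
  rcases d with ⟨v, i⟩ | ⟨e, i⟩ | ⟨a, i⟩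
  · rcases closeA_some α v i with ⟨w, j, h1, h2⟩ | ⟨j, h1, h2⟩
    · rw [h1]; exact h2
    · rw [h1]; exact h2
  · exact e.elim
  · rcases closeA_none α (-i) with ⟨w, j, h1, h2⟩ | ⟨j, h1, h2⟩
    · rw [neg_neg] at h1
      rw [h1]; exact h2
    · rw [neg_neg] at h1
      rw [h1]; exact h2

private theorem misoD_surj {V : Type} (d : Option V × ZMod 4) :
    ∃ d' : SD V Empty Unit, misoD d' = d := by
  obtain ⟨v | v, i⟩ := d
  · exact ⟨.o () (-i), by simp [misoD]⟩
  · exact ⟨.x v i, rfl⟩

private theorem misoD_inj {V : Type} {d d' : SD V Empty Unit} (h : misoD d = misoD d') : d = d' := by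
  rcases d with ⟨v, i⟩ | ⟨e, i⟩ | ⟨a, i⟩ <;> rcases d' with ⟨v', i'⟩ | ⟨e', i'⟩ | ⟨a', i'⟩
  · simp only [misoD, Prod.mk.injEq, Option.some.injEq] at h
    rw [h.1, h.2]
  · exact e'.elim
  · simp [misoD] at h
  · exact e.elim
  · exact e.elim
  · exact e.elim
  · simp [misoD] at h
  · exact e'.elim
  · simp only [misoD, Prod.mk.injEq, neg_inj] at h
    rw [h.2]

theorem closeA_refl {V : Type} (α : Tg V) : closeA (refl α) = mir cm (closeA α) := by
  have key : ∀ d : SD V Empty Unit, misoD (rfl4 d) = misoR cm (misoD d) := by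
    intro d
    rcases d with ⟨v, i⟩ | ⟨e, i⟩ | ⟨a, i⟩
    · rfl
    · exact e.elim
    · show ((none : Option V), -(3 - i)) = (none, 1 - -i)
      congr 1
      rcases miso_z4 i with rfl | rfl | rfl | rfl <;> decide
  funext d
  obtain ⟨d, rfl⟩ := misoD_surj d
  rw [mir_eq, misoD_close, ← key, misoD_close, ← key]
  rfl

/-- general form of the isomorphisms of closed maps -/
private theorem miso_ciso {V V' : Type} {α : Tg V} {β : Tg V'} (e : V ≃ V') (c : V → ZMod 4)
    (k : ZMod 4) (h : ∀ d, β (rel e c k d) = rel e c k (α d)) : CIso (closeA α) (closeA β) := by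
  refine ⟨Equiv.optionCongr e, fun o => o.elim (-k) c, fun v i => ?_⟩
  have key : ∀ d : SD V Empty Unit, misoD (rel e c k d) =
      ((Equiv.optionCongr e) (misoD d).1, (misoD d).2 + (misoD d).1.elim (-k) c) := by
    intro d
    rcases d with ⟨v, i⟩ | ⟨e, i⟩ | ⟨a, i⟩
    · rfl
    · exact e.elim
    · show ((none : Option V'), -(i + k)) = (none, -i + -k)
      congr 1
      ring
  obtain ⟨d, hd⟩ := misoD_surj (v, i)
  have h1 := key d
  rw [hd] at h1
  simp only at h1
  rw [← h1, misoD_close, h, key, ← hd, misoD_close]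

theorem closeA_rot {V : Type} (k : ZMod 4) (α : Tg V) : CIso (closeA α) (closeA (rot k α)) := by
  refine miso_ciso (Equiv.refl V) (fun _ => 0) k fun d => ?_
  show rel id (fun _ => 0) k (α (rel id (fun _ => 0) (-k) (rel id (fun _ => 0) k d))) =
    rel id (fun _ => 0) k (α d)
  rw [miso_rel]
  simp only [add_neg_cancel, add_zero, id]
  rw [miso_rel0]

namespace Tn

theorem Iso.refl (S : Tn) : S.Iso S := by
  refine ⟨Equiv.refl _, fun _ => 0, fun d => ?_⟩
  show S.α (rel (fun v => v) (fun _ => 0) 0 d) = rel (fun v => v) (fun _ => 0) 0 (S.α d)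
  rw [miso_rel0, miso_rel0]

theorem Iso.symm {S T : Tn} (h : S.Iso T) : T.Iso S := by
  obtain ⟨e, c, h⟩ := h
  have h1 : ∀ d, rel e.symm (fun v => - c (e.symm v)) 0 (rel e c 0 d) = d := by
    intro d
    rw [miso_rel]
    simp only [Equiv.symm_apply_apply, add_neg_cancel, add_zero]
    exact miso_rel0 d
  have h2 : ∀ d, rel e c 0 (rel e.symm (fun v => - c (e.symm v)) 0 d) = d := by
    intro d
    rw [miso_rel]
    simp only [Equiv.apply_symm_apply, neg_add_cancel, add_zero]
    exact miso_rel0 d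
  refine ⟨e.symm, fun v => - c (e.symm v), fun d => ?_⟩
  have h3 := h (rel e.symm (fun v => - c (e.symm v)) 0 d)
  rw [h2] at h3
  rw [h3, h1]

theorem Iso.trans {S T U : Tn} (h : S.Iso T) (h' : T.Iso U) : S.Iso U := by
  obtain ⟨e, c, h⟩ := h
  obtain ⟨e', c', h'⟩ := h'
  refine ⟨e.trans e', fun v => c v + c' (e v), fun d => ?_⟩
  have h1 := h' (rel e c 0 d)
  rw [h, miso_rel, miso_rel, add_zero] at h1
  exact h1

theorem Iso.card {S T : Tn} (h : S.Iso T) : Fintype.card S.V = Fintype.card T.V := by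
  obtain ⟨e, -, -⟩ := h
  exact Fintype.card_congr e

theorem Iso.turn {S T : Tn} (h : S.Iso T) (k : ZMod 4) : (S.turn k).Iso (T.turn k) := by
  obtain ⟨e, c, h⟩ := h
  refine ⟨e, c, fun d => ?_⟩
  show rel id (fun _ => 0) k (T.α (rel id (fun _ => 0) (-k) (rel e c 0 d))) =
    rel e c 0 (rel id (fun _ => 0) k (S.α (rel id (fun _ => 0) (-k) d)))
  have h1 : ∀ (l : ZMod 4) (d : SD S.V Empty Unit), rel id (fun _ => 0) l (rel e c 0 d) =
      rel e c 0 (rel id (fun _ => 0) l d) := by
    intro l d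
    rw [miso_rel, miso_rel]
    simp only [add_zero, zero_add, id]
  rw [h1, h, h1]

theorem Iso.rfl' {S T : Tn} (h : S.Iso T) : S.rfl'.Iso T.rfl' := by
  obtain ⟨e, c, h⟩ := h
  refine ⟨e, fun v => - c v, fun d => ?_⟩
  show rfl4 (T.α (rfl4 (rel e (fun v => - c v) 0 d))) = rel e (fun v => - c v) 0 (rfl4 (S.α (rfl4 d)))
  have h1 : ∀ d : SD S.V Empty Unit, rfl4 (rel e (fun v => - c v) 0 d) = rel e c 0 (rfl4 d) := by
    intro d
    rcases d with ⟨v, i⟩ | ⟨e, i⟩ | ⟨a, i⟩
    · show SD.x (e v) (3 - (i + - c v)) = SD.x (e v) (3 - i + c v)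
      congr 1
      ring
    · exact e.elim
    · show SD.o () (3 - (i + 0)) = SD.o () (3 - i + 0)
      rw [add_zero, add_zero]
  have h2 : ∀ d : SD S.V Empty Unit, rfl4 (rel e c 0 d) = rel e (fun v => - c v) 0 (rfl4 d) := by
    intro d
    have h3 := h1 (rfl4 d)
    rw [miso_rfl4] at h3
    rw [← h3, miso_rfl4]
  rw [h1, h, h2]

theorem Iso.close {S T : Tn} (h : S.Iso T) : CIso (closeA S.α) (closeA T.α) := by
  obtain ⟨e, c, h⟩ := h
  exact miso_ciso e c 0 h

theorem Iso.proper {S T : Tn} (h : S.Iso T) (hS : Proper S.α) : Proper T.α := by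
  obtain ⟨e, c, h⟩ := h
  intro i
  obtain ⟨v, j, h1⟩ := hS i
  have h2 := h (.o () i)
  rw [h1] at h2
  have h3 : rel e c 0 (.o () i : SD S.V Empty Unit) = .o () i := by
    simp only [rel, add_zero]
  rw [h3] at h2
  exact ⟨e v, j + c v, h2⟩

theorem Iso.pt {S T : Tn} (h : S.Iso T) (hS : S.PT) : T.PT := PMap.ciso hS h.close

theorem PT.turn {T : Tn} (h : T.PT) (k : ZMod 4) : (T.turn k).PT := PMap.ciso h (closeA_rot k T.α)

theorem PT.rfl' {T : Tn} (h : T.PT) : T.rfl'.PT := by
  have := PMap.mir h cm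
  rw [← closeA_refl] at this
  exact this

theorem turn_turn (T : Tn) (k l : ZMod 4) : (T.turn l).turn k = T.turn (k + l) := by
  show (⟨T.V, T.fin, rot k (rot l T.α)⟩ : Tn) = ⟨T.V, T.fin, rot (k + l) T.α⟩
  rw [rot_rot]

theorem turn_zero (T : Tn) : T.turn 0 = T := by
  show (⟨T.V, T.fin, rot 0 T.α⟩ : Tn) = T
  rw [rot_zero]

theorem rfl'_rfl' (T : Tn) : T.rfl'.rfl' = T := by
  show (⟨T.V, T.fin, SN78.refl (SN78.refl T.α)⟩ : Tn) = T
  rw [refl_refl]

theorem PT.proper {T : Tn} (h : T.PT) : Proper T.α := by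
  intro i
  have h1 := PMap.noloop h (misoD (.o () i))
  rw [misoD_close] at h1
  rcases h2 : T.α (.o () i) with ⟨w, j⟩ | ⟨e, j⟩ | ⟨a, j⟩
  · exact ⟨w, j, rfl⟩
  · exact e.elim
  · exfalso
    apply h1
    rw [h2]
    rfl

theorem PT.inv {T : Tn} (h : T.PT) (d : SD T.V Empty Unit) : T.α (T.α d) = d := by
  have h1 := PMap.inv h (misoD d)
  rw [misoD_close, misoD_close] at h1
  exact misoD_inj h1

theorem PT.ne {T : Tn} (h : T.PT) (d : SD T.V Empty Unit) : T.α d ≠ d := by
  intro h1
  have h2 := PMap.ne h (misoD d)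
  rw [misoD_close, h1] at h2
  exact h2 rfl

/-- the face function -/
private def misoF (c : ZMod 4 → ZMod 2) (i : ZMod 4) : ZMod 2 :=
  if i = 0 then 0 else if i = 1 then c 1 else if i = 2 then c 1 + c 2 else c 1 + c 2 + c 3

private theorem misoF_add (c : ZMod 4 → ZMod 2) (h : ∑ i : ZMod 4, c i = 0) (i : ZMod 4) :
    misoF c i + misoF c (i - 1) = c i := by
  have h4 : c 0 + c 1 + c 2 + c 3 = 0 := by
    rw [← h]
    exact (Fin.sum_univ_four (f := c)).symm
  have key : ∀ a b d e : ZMod 2, a + b + d + e = 0 →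
      0 + (b + d + e) = a ∧ b + 0 = b ∧ b + d + b = d ∧ b + d + e + (b + d) = e := by decide
  obtain ⟨k0, k1, k2, k3⟩ := key _ _ _ _ h4
  rcases miso_z4 i with rfl | rfl | rfl | rfl
  · exact k0
  · exact k1
  · exact k2
  · exact k3

theorem one_pt : Tn.one.PT := by
  refine ⟨?_, ?_, ?_, ?_⟩
  · rintro ⟨⟨⟩ | ⟨⟨⟩⟩, i⟩
    · show ((none : Option Unit), - - i) = (none, i)
      rw [neg_neg]
    · show ((some () : Option Unit), - - i) = (some (), i)
      rw [neg_neg]
  · rw [Fintype.card_option]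
    show 2 ≤ Fintype.card Unit + 1
    rw [Fintype.card_unit]
  · intro A hA hA2
    obtain ⟨a, ha⟩ := hA
    have hb : ∃ b, b ∉ A := by
      by_contra hb
      push Not at hb
      exact hA2 (Finset.eq_univ_iff_forall.2 hb)
    obtain ⟨b, hb⟩ := hb
    have hab : a ≠ b := fun h => hb (h ▸ ha)
    have h1 : ∀ i, (closeA Tn.one.α (a, i)).1 = b := by
      intro i
      rcases a with _ | ⟨⟨⟩⟩ <;> rcases b with _ | ⟨⟨⟩⟩
      · exact absurd rfl hab
      · rfl
      · rfl
      · exact absurd rfl hab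
    have h2 : Nat.card (ZMod 4) ≤ cut (closeA Tn.one.α) A := by
      unfold cut
      have : Finite (Option Tn.one.V × ZMod 4) := by
        show Finite (Option Unit × ZMod 4)
        infer_instance
      apply Nat.card_le_card_of_injective
        (fun i : ZMod 4 => (⟨(a, i), ha, by rw [h1]; exact hb⟩ :
          {d : Option Tn.one.V × ZMod 4 // d.1 ∈ A ∧ (closeA Tn.one.α d).1 ∉ A}))
      intro i j hij
      simp only [Subtype.mk.injEq, Prod.mk.injEq, true_and] at hij
      exact hij
    rwa [Nat.card_zmod] at h2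
  · intro c h1 h2
    have h3 : ∀ i, c (some (), - i) = c (none, i) := fun i => h1 (none, i)
    refine ⟨fun d => match d with
      | (some _, i) => misoF (fun j => c (some (), j)) i
      | (none, i) => misoF (fun j => c (some (), j)) (- i - 1), ?_, ?_⟩
    · rintro ⟨⟨⟩ | ⟨⟨⟩⟩, i⟩
      · rfl
      · show misoF (fun j => c (some (), j)) (- (- i - 1) - 1) = misoF (fun j => c (some (), j)) i
        congr 1
        ring
    · rintro ⟨⟨⟩ | ⟨⟨⟩⟩, i⟩
      · show misoF (fun j => c (some (), j)) (- i - 1) +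
          misoF (fun j => c (some (), j)) (- (i - 1) - 1) = c (none, i)
        have h4 := misoF_add (fun j => c (some (), j)) (h2 (some ())) (- i)
        have e1 : - (i - 1) - 1 = - i := by ring
        rw [e1, add_comm, h4]
        exact h3 i
      · exact misoF_add (fun j => c (some (), j)) (h2 (some ())) i

theorem PT.card_pos {T : Tn} (h : T.PT) : 0 < Fintype.card T.V := by
  have h2 := PMap.two h
  rw [Fintype.card_option] at h2
  omega

end Tn

end SN78
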