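import Pool.Agent.SN78.MIso

/-!
# SN78 module MSTR: strands of tangles

`Ends α d j`: the strand which leaves along the dart `d` ends at port `j`.  `unique`: by induction (a dart `d`
determines the next step).  `StepsTo α d n e`: `n` steps; use it to show that a strand which comes back to its
start never ends: if `Ends α d j` then the number of steps is unique, but going around adds steps.
`port_ends`: for a prime tangle (`T.α` is an involution without fixed points) the strand starting at port `i` ends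
at some port: `d ↦ op (α d)` is injective on darts, so a strand which starts at a port cannot become periodic
(finitely many darts).  `ends_symm`: walk backwards.  `ends_ne`: if the strand starting at port `i` ended at port `i`,
it would be its own reversal, so it would contain a dart `d` with `α d = d` or a crossing dart with `i + 2 = i`.
So the strands give a pairing of the four ports.

`NC.add_left`: a strand in `S.add T` which starts at a dart of `S` leaves `S` at some point, or ends in `S` at the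
ports `1`, `2`: induction on the derivation of `Ends (sum S.α T.α) (.x (inl v) i) j`: if
`S.α (.x v i) = .o () k` this is the end, otherwise `S.α (.x v i) = .x w k` and the strand goes on with
`.x (inl w) (k + 2)`.  `NC.glue` is the same.
`NC.of_comp`: the walk `e ↦ op (σ e)` of `σ = closeA T.α` from `(some v, i)` comes to a dart of `none` (take
`d' = (none, 0)`); the steps before the first dart of `none` are the steps of the strand.

`not_TI_both`: let `S` connect `0 - 3` and `1 - 2` and `T` too.  Follow the strand of `S.add T` which starts inside `S`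
at port `0` (at the dart `.x (inl w) (k + 2)` where `S.α (.o () 0) = .x w k`): it leaves `S` at port `3`, enters `T`
at port `2`, leaves `T` at port `1`, enters `S` at port `0`.  So it is periodic and does not end: contradiction to
`NC`.
`TI_add`: let `S.TI` (the other case is symmetric).  In `S.add T` port `1` is connected with port `2` through `S`.
The strand of `T` from port `3` ends at port `j ≠ 3`.  If `j = 0` then ports `1` and `2` of `T` are connected, and
together with the strand `0 - 3` of `S` this is a closed component: contradiction as before.  If `j = 1` or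
`j = 2`: it goes on through `S` (from port `0` to port `3` or back) and enters `T` at port `2` or `1`, and ends at
port `0` (the pairing of the ports of `T`).  Use a lemma: if `Ends S.α d j` with `j = 0` or `j = 3` for a dart `d`
of `S` and the strand of `T` from port `1 - j` continues to `e`, then ... (formulate it for the lifted darts).
-/

namespace SN78

open Sum

theorem Ends.unique {V : Type} {α : Tg V} {d : SD V Empty Unit} {j j' : ZMod 4} (h : Ends α d j)
    (h' : Ends α d j') : j = j' := by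
  induction h generalizing j' with
  | fin e =>
    cases h' with
    | fin e' =>
      rw [e] at e'
      exact (SD.o.injEq _ _ _ _ ▸ e').2
    | go e' _ =>
      rw [e] at e'
      exact absurd e' (by simp)
  | go e _ ih =>
    cases h' with
    | fin e' =>
      rw [e] at e'
      exact absurd e' (by simp)
    | go e' h2 =>
      rw [e] at e'
      have e1 := (SD.x.injEq _ _ _ _ ▸ e')
      obtain ⟨e1, e2⟩ := e1
      subst e1
      subst e2
      exact ih h2

/-- the map shows a knot -/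
def OneComp {W : Type} (σ : W × ZMod 4 → W × ZMod 4) : Prop :=
  ∀ d d' : W × ZMod 4, ∃ n : ℕ, (fun e => op (σ e))^[n] d = d' ∨ (fun e => op (σ e))^[n] d = op d'

theorem OneComp.ciso {W W' : Type} {σ : W × ZMod 4 → W × ZMod 4} {σ' : W' × ZMod 4 → W' × ZMod 4}
    (h : OneComp σ) (e : CIso σ σ') : OneComp σ' := by
  obtain ⟨e, c, he⟩ := e
  let φ : W × ZMod 4 → W' × ZMod 4 := fun d => (e d.1, d.2 + c d.1)
  have hop : ∀ d, op (φ d) = φ (op d) := by
    intro d
    show ((e d.1, d.2 + c d.1 + 2) : W' × ZMod 4) = (e d.1, d.2 + 2 + c d.1)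
    congr 1
    ring
  have hs : ∀ d, σ' (φ d) = φ (σ d) := fun d => he d.1 d.2
  have hit : ∀ n d, (fun e => op (σ' e))^[n] (φ d) = φ ((fun e => op (σ e))^[n] d) := by
    intro n
    induction n with
    | zero => intro d; rfl
    | succ n ih =>
      intro d
      rw [Function.iterate_succ_apply, Function.iterate_succ_apply]
      show (fun e => op (σ' e))^[n] (op (σ' (φ d))) = _
      rw [hs, hop, ih]
  have hsur : ∀ d', ∃ d, φ d = d' := by
    intro d'
    refine ⟨(e.symm d'.1, d'.2 - c (e.symm d'.1)), ?_⟩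
    simp [φ]
  intro d d'
  obtain ⟨d, rfl⟩ := hsur d
  obtain ⟨d', rfl⟩ := hsur d'
  obtain ⟨n, hn⟩ := h d d'
  refine ⟨n, ?_⟩
  rw [hit, hop]
  rcases hn with hn | hn
  · left; rw [hn]
  · right; rw [hn]

/-! ### transport of strands -/

private theorem mstr_rel {V V' : Type} {α : Tg V} {β : Tg V'} (e : V → V') (c : V → ZMod 4)
    (k : ZMod 4) (h : ∀ d, β (rel e c k d) = rel e c k (α d)) {d : SD V Empty Unit} {j : ZMod 4}
    (hd : Ends α d j) : Ends β (rel e c k d) (j + k) := by
  induction hd with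
  | fin e1 =>
    refine Ends.fin ?_
    rw [h, e1]
    rfl
  | @go d v i j e1 _ ih =>
    have e2 : β (rel e c k d) = .x (e v) (i + c v) := by
      rw [h, e1]
      rfl
    refine Ends.go e2 ?_
    have e3 : (rel e c k (.x v (i + 2)) : SD V' Empty Unit) = .x (e v) (i + c v + 2) := by
      show SD.x (e v) (i + 2 + c v) = SD.x (e v) (i + c v + 2)
      congr 1
      ring
    rw [e3] at ih
    exact ih

private theorem mstr_symm {V : Type} {α : Tg V} (hi : ∀ d, α (α d) = d) {i : ZMod 4}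
    {d : SD V Empty Unit} {j : ZMod 4} (hd : Ends α d j) :
    (∀ k, d = .o () k → k = i) → (∀ v k, d = .x v k → Ends α (.x v (k + 2)) i) →
    Ends α (.o () j) i := by
  induction hd with
  | @fin d j e1 =>
    intro h1 h2
    have e2 : α (.o () j) = d := by rw [← e1, hi]
    rcases d with ⟨v, k⟩ | ⟨e, k⟩ | ⟨a, k⟩
    · exact Ends.go e2 (h2 v k rfl)
    · exact e.elim
    · rw [← h1 k rfl]
      exact Ends.fin e2
  | @go d v k j e1 _ ih =>
    intro h1 h2
    apply ih
    · intro k' hk'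
      exact absurd hk' (by simp)
    · intro w l hw
      have hw' := (SD.x.injEq _ _ _ _ ▸ hw)
      obtain ⟨rfl, rfl⟩ := hw'
      have e3 : k + 2 + 2 = k := by
        rw [add_assoc]
        have : (2 : ZMod 4) + 2 = 0 := by decide
        rw [this, add_zero]
      rw [e3]
      have e2 : α (.x v k) = d := by rw [← e1, hi]
      rcases d with ⟨w, l⟩ | ⟨e, l⟩ | ⟨a, l⟩
      · exact Ends.go e2 (h2 w l rfl)
      · exact e.elim
      · rw [← h1 l rfl]
        exact Ends.fin e2

private theorem mstr_port_symm {V : Type} {α : Tg V} (hi : ∀ d, α (α d) = d) {i j : ZMod 4}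
    (hd : Ends α (.o () i) j) : Ends α (.o () j) i := by
  refine mstr_symm hi hd ?_ ?_
  · intro k hk
    exact ((SD.o.injEq _ _ _ _ ▸ hk).2).symm
  · intro v k hk
    exact absurd hk (by simp)

/-- `n` steps of the strand lead from `d` to `e` -/
private inductive MstrW {V : Type} (α : Tg V) : SD V Empty Unit → ℕ → SD V Empty Unit → Prop
  | z (d) : MstrW α d 0 d
  | s {d v k n e} : α d = .x v k → MstrW α (.x v (k + 2)) n e → MstrW α d (n + 1) e

private theorem mstrW_last {V : Type} {α : Tg V} : ∀ (n : ℕ) {d e : SD V Empty Unit},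
    MstrW α d (n + 1) e → ∃ e' v k, MstrW α d n e' ∧ α e' = .x v k ∧ e = .x v (k + 2) := by
  intro n
  induction n with
  | zero =>
    intro d e h
    cases h with
    | @s _ v k _ _ e1 h2 =>
      cases h2
      exact ⟨d, _, _, MstrW.z d, e1, rfl⟩
  | succ n ih =>
    intro d e h
    cases h with
    | s e1 h2 =>
      obtain ⟨e', v', k', h3, h4, h5⟩ := ih h2
      exact ⟨e', v', k', MstrW.s e1 h3, h4, h5⟩

private theorem mstrW_ne {V : Type} {α : Tg V} (hi : ∀ d, α (α d) = d) (hn : ∀ d, α d ≠ d) :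
    ∀ (n : ℕ) {d e : SD V Empty Unit}, MstrW α d n e → α e ≠ d := by
  intro n
  induction n using Nat.strong_induction_on with
  | _ n ih =>
    intro d e h he
    have h22 : (2 : ZMod 4) + 2 = 0 := by decide
    cases h with
    | z => exact hn _ he
    | @s _ v k m _ e1 h2 =>
      have e2 : e = .x v k := by rw [← hi e, he, e1]
      cases m with
      | zero =>
        cases h2
        have e3 := (SD.x.injEq _ _ _ _ ▸ e2)
        have e4 : (2 : ZMod 4) = 0 := by
          have := e3.2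
          have h5 : k + 2 = k + 0 := by rw [this, add_zero]
          exact add_left_cancel h5
        exact absurd e4 (by decide)
      | succ m =>
        obtain ⟨e', v', k', h3, h4, h5⟩ := mstrW_last m h2
        rw [e2] at h5
        have h6 := (SD.x.injEq _ _ _ _ ▸ h5)
        obtain ⟨rfl, rfl⟩ := h6
        apply ih m (by omega) h3
        rw [h4, add_assoc, h22, add_zero]

private theorem mstr_steps {V : Type} {α : Tg V} {d : SD V Empty Unit} {j : ZMod 4}
    (hd : Ends α d j) : ∃ n e, MstrW α d n e ∧ α e = .o () j := by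
  induction hd with
  | @fin d j e1 => exact ⟨0, d, MstrW.z d, e1⟩
  | go e1 _ ih =>
    obtain ⟨n, e, h1, h2⟩ := ih
    exact ⟨n + 1, e, MstrW.s e1 h1, h2⟩

private theorem mstr_ne {V : Type} {α : Tg V} (hi : ∀ d, α (α d) = d) (hn : ∀ d, α d ≠ d)
    {i j : ZMod 4} (hd : Ends α (.o () i) j) : j ≠ i := by
  rintro rfl
  obtain ⟨n, e, h1, h2⟩ := mstr_steps hd
  exact mstrW_ne hi hn n h1 h2

/-- a set of darts which is closed under walking -/
private theorem mstr_closed {V : Type} {α : Tg V} (C : V → ZMod 4 → Prop)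
    (h : ∀ v i, C v i → ∃ w k, α (.x v i) = .x w k ∧ C w (k + 2)) {d : SD V Empty Unit}
    {j : ZMod 4} (hd : Ends α d j) : ∀ v i, d = .x v i → ¬ C v i := by
  induction hd with
  | fin e1 =>
    rintro v i rfl hC
    obtain ⟨w, k, h1, -⟩ := h v i hC
    rw [h1] at e1
    exact absurd e1 (by simp)
  | go e1 _ ih =>
    rintro v i rfl hC
    obtain ⟨w, k, h1, h2⟩ := h v i hC
    rw [h1] at e1
    have e2 := (SD.x.injEq _ _ _ _ ▸ e1)
    obtain ⟨rfl, rfl⟩ := e2
    exact ih _ _ rfl h2

/-! ### strands in a sum -/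

private theorem mstr_lf {V₁ V₂ : Type} {α₂ : Tg V₂} {k l : ZMod 4} {w : V₂}
    (hk : (k = 0 ∧ α₂ (.o () 1) = .x w l) ∨ (k = 3 ∧ α₂ (.o () 2) = .x w l)) :
    (lf α₂ (.o () k) : SD (V₁ ⊕ V₂) Empty Unit) = .x (inr w) l := by
  have h30 : ¬ ((3 : ZMod 4) = 0) := by decide
  rcases hk with ⟨rfl, h⟩ | ⟨rfl, h⟩
  · simp [lf, h]
  · simp [lf, h, h30]

private theorem mstr_lf' {V₁ V₂ : Type} {α₂ : Tg V₂} {k : ZMod 4} (hk : k = 1 ∨ k = 2) :
    (lf α₂ (.o () k) : SD (V₁ ⊕ V₂) Empty Unit) = .o () k := by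
  have h1 : ¬ ((1 : ZMod 4) = 0 ∨ (1 : ZMod 4) = 3) := by decide
  have h2 : ¬ ((2 : ZMod 4) = 0 ∨ (2 : ZMod 4) = 3) := by decide
  rcases hk with rfl | rfl
  · simp only [lf, if_neg h1]
  · simp only [lf, if_neg h2]

private theorem mstr_rg {V₁ V₂ : Type} {α₁ : Tg V₁} {k l : ZMod 4} {w : V₁}
    (hk : (k = 1 ∧ α₁ (.o () 0) = .x w l) ∨ (k = 2 ∧ α₁ (.o () 3) = .x w l)) :
    (rg α₁ (.o () k) : SD (V₁ ⊕ V₂) Empty Unit) = .x (inl w) l := by
  have h21 : ¬ ((2 : ZMod 4) = 1) := by decide
  rcases hk with ⟨rfl, h⟩ | ⟨rfl, h⟩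
  · simp [rg, h]
  · simp [rg, h, h21]

private theorem mstr_rg' {V₁ V₂ : Type} {α₁ : Tg V₁} {k : ZMod 4} (hk : k = 0 ∨ k = 3) :
    (rg α₁ (.o () k) : SD (V₁ ⊕ V₂) Empty Unit) = .o () k := by
  have h1 : ¬ ((0 : ZMod 4) = 1 ∨ (0 : ZMod 4) = 2) := by decide
  have h2 : ¬ ((3 : ZMod 4) = 1 ∨ (3 : ZMod 4) = 2) := by decide
  rcases hk with rfl | rfl
  · simp only [rg, if_neg h1]
  · simp only [rg, if_neg h2]

private theorem mstr_left_out {V₁ V₂ : Type} {α₁ : Tg V₁} {α₂ : Tg V₂} {d : SD V₁ Empty Unit}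
    {k : ZMod 4} (hd : Ends α₁ d k) (hk : k = 1 ∨ k = 2) :
    ∀ v i, d = .x v i → Ends (sum α₁ α₂) (.x (inl v) i) k := by
  induction hd with
  | fin e1 =>
    rintro v i rfl
    refine Ends.fin ?_
    show lf α₂ (α₁ (.x v i)) = _
    rw [e1, mstr_lf' hk]
  | go e1 _ ih =>
    rintro v i rfl
    refine Ends.go (v := inl _) ?_ (ih hk _ _ rfl)
    show lf α₂ (α₁ (.x v i)) = _
    rw [e1]
    rfl

private theorem mstr_left_in {V₁ V₂ : Type} {α₁ : Tg V₁} {α₂ : Tg V₂} {d : SD V₁ Empty Unit}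
    {k l j : ZMod 4} {w : V₂} (hd : Ends α₁ d k)
    (hk : (k = 0 ∧ α₂ (.o () 1) = .x w l) ∨ (k = 3 ∧ α₂ (.o () 2) = .x w l))
    (hc : Ends (sum α₁ α₂) (.x (inr w) (l + 2)) j) :
    ∀ v i, d = .x v i → Ends (sum α₁ α₂) (.x (inl v) i) j := by
  induction hd with
  | fin e1 =>
    rintro v i rfl
    refine Ends.go ?_ hc
    show lf α₂ (α₁ (.x v i)) = _
    rw [e1, mstr_lf hk]
  | go e1 _ ih =>
    rintro v i rfl
    refine Ends.go (v := inl _) ?_ (ih hk _ _ rfl)
    show lf α₂ (α₁ (.x v i)) = _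
    rw [e1]
    rfl

private theorem mstr_right_out {V₁ V₂ : Type} {α₁ : Tg V₁} {α₂ : Tg V₂} {d : SD V₂ Empty Unit}
    {k : ZMod 4} (hd : Ends α₂ d k) (hk : k = 0 ∨ k = 3) :
    ∀ v i, d = .x v i → Ends (sum α₁ α₂) (.x (inr v) i) k := by
  induction hd with
  | fin e1 =>
    rintro v i rfl
    refine Ends.fin ?_
    show rg α₁ (α₂ (.x v i)) = _
    rw [e1, mstr_rg' hk]
  | go e1 _ ih =>
    rintro v i rfl
    refine Ends.go (v := inr _) ?_ (ih hk _ _ rfl)
    show rg α₁ (α₂ (.x v i)) = _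
    rw [e1]
    rfl

private theorem mstr_right_in {V₁ V₂ : Type} {α₁ : Tg V₁} {α₂ : Tg V₂} {d : SD V₂ Empty Unit}
    {k l j : ZMod 4} {w : V₁} (hd : Ends α₂ d k)
    (hk : (k = 1 ∧ α₁ (.o () 0) = .x w l) ∨ (k = 2 ∧ α₁ (.o () 3) = .x w l))
    (hc : Ends (sum α₁ α₂) (.x (inl w) (l + 2)) j) :
    ∀ v i, d = .x v i → Ends (sum α₁ α₂) (.x (inr v) i) j := by
  induction hd with
  | fin e1 =>
    rintro v i rfl
    refine Ends.go ?_ hc
    show rg α₁ (α₂ (.x v i)) = _
    rw [e1, mstr_rg hk]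
  | go e1 _ ih =>
    rintro v i rfl
    refine Ends.go (v := inr _) ?_ (ih hk _ _ rfl)
    show rg α₁ (α₂ (.x v i)) = _
    rw [e1]
    rfl

/-- the strand goes on from a port -/
private theorem mstr_from {V : Type} {α : Tg V} {k l j : ZMod 4} {w : V} (hw : α (.o () k) = .x w l)
    (h : Ends α (.o () k) j) : Ends α (.x w (l + 2)) j := by
  cases h with
  | fin e1 =>
    rw [hw] at e1
    exact absurd e1 (by simp)
  | go e1 h2 =>
    rw [hw] at e1
    have e2 := (SD.x.injEq _ _ _ _ ▸ e1)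
    obtain ⟨rfl, rfl⟩ := e2
    exact h2

/-- if `0 - 3` is connected in the left tangle and `1 - 2` in the right one then there is a closed
component -/
private theorem mstr_loop {S T : Tn} (hS : S.PT) (hT : T.PT) (h : (S.add T).NC)
    (h1 : Ends S.α (.o () 0) 3) (h2 : Ends T.α (.o () 1) 2) : False := by
  have h1' := mstr_port_symm hS.inv h1
  have h2' := mstr_port_symm hT.inv h2
  obtain ⟨w0, l0, e0⟩ := hS.proper 0
  obtain ⟨w3, l3, e3⟩ := hS.proper 3
  obtain ⟨w1, l1, e1⟩ := hT.proper 1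
  obtain ⟨w2, l2, e2⟩ := hT.proper 2
  have a0 := mstr_from e0 h1
  have a3 := mstr_from e3 h1'
  have a1 := mstr_from e1 h2
  have a2 := mstr_from e2 h2'
  obtain ⟨j, hj⟩ := h (inl w0) (l0 + 2)
  refine mstr_closed (α := (S.add T).α)
    (C := fun v i => (∃ u, v = inl u ∧ (Ends S.α (.x u i) 0 ∨ Ends S.α (.x u i) 3)) ∨
      (∃ u, v = inr u ∧ (Ends T.α (.x u i) 1 ∨ Ends T.α (.x u i) 2))) ?_ hj (inl w0) (l0 + 2) rfl
      (Or.inl ⟨w0, rfl, Or.inr a0⟩)
  rintro v i (⟨u, rfl, hu⟩ | ⟨u, rfl, hu⟩)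
  · rcases hx : S.α (.x u i) with ⟨v, k⟩ | ⟨e, k⟩ | ⟨a, k⟩
    · refine ⟨inl v, k, ?_, Or.inl ⟨v, rfl, ?_⟩⟩
      · show lf T.α (S.α (.x u i)) = _
        rw [hx]
        rfl
      · have key : ∀ j, Ends S.α (.x u i) j → Ends S.α (.x v (k + 2)) j := by
          intro j hj'
          cases hj' with
          | fin e5 =>
            rw [hx] at e5
            exact absurd e5 (by simp)
          | go e5 h6 =>
            rw [hx] at e5
            have e6 := (SD.x.injEq _ _ _ _ ▸ e5)
            obtain ⟨rfl, rfl⟩ := e6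
            exact h6
        exact hu.imp (key 0) (key 3)
    · exact e.elim
    · have key : ∀ j, Ends S.α (.x u i) j → k = j := by
        intro j hj'
        exact (Ends.fin hx).unique hj'
      rcases hu with hu | hu
      · have hk := key 0 hu
        subst hk
        refine ⟨inr w1, l1, ?_, Or.inr ⟨w1, rfl, Or.inr a1⟩⟩
        show lf T.α (S.α (.x u i)) = _
        rw [hx]
        exact mstr_lf (Or.inl ⟨rfl, e1⟩)
      · have hk := key 3 hu
        subst hk
        refine ⟨inr w2, l2, ?_, Or.inr ⟨w2, rfl, Or.inl a2⟩⟩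
        show lf T.α (S.α (.x u i)) = _
        rw [hx]
        exact mstr_lf (Or.inr ⟨rfl, e2⟩)
  · rcases hx : T.α (.x u i) with ⟨v, k⟩ | ⟨e, k⟩ | ⟨a, k⟩
    · refine ⟨inr v, k, ?_, Or.inr ⟨v, rfl, ?_⟩⟩
      · show rg S.α (T.α (.x u i)) = _
        rw [hx]
        rfl
      · have key : ∀ j, Ends T.α (.x u i) j → Ends T.α (.x v (k + 2)) j := by
          intro j hj'
          cases hj' with
          | fin e5 =>
            rw [hx] at e5
            exact absurd e5 (by simp)
          | go e5 h6 =>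
            rw [hx] at e5
            have e6 := (SD.x.injEq _ _ _ _ ▸ e5)
            obtain ⟨rfl, rfl⟩ := e6
            exact h6
        exact hu.imp (key 1) (key 2)
    · exact e.elim
    · have key : ∀ j, Ends T.α (.x u i) j → k = j := by
        intro j hj'
        exact (Ends.fin hx).unique hj'
      rcases hu with hu | hu
      · have hk := key 1 hu
        subst hk
        refine ⟨inl w0, l0, ?_, Or.inl ⟨w0, rfl, Or.inr a0⟩⟩
        show rg S.α (T.α (.x u i)) = _
        rw [hx]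
        exact mstr_rg (Or.inl ⟨rfl, e0⟩)
      · have hk := key 2 hu
        subst hk
        refine ⟨inl w3, l3, ?_, Or.inl ⟨w3, rfl, Or.inl a3⟩⟩
        show rg S.α (T.α (.x u i)) = _
        rw [hx]
        exact mstr_rg (Or.inr ⟨rfl, e3⟩)

private theorem mstr_z4 (i : ZMod 4) : i = 0 ∨ i = 1 ∨ i = 2 ∨ i = 3 := by
  revert i; decide

/-- the pairing of the ports: either `0 - 3` (then `1 - 2`) or one of two others -/
private theorem mstr_pair {V : Type} {α : Tg V} (hi : ∀ d, α (α d) = d) (hn : ∀ d, α d ≠ d)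
    (hp : ∀ i, ∃ j, Ends α (.o () i) j) :
    (Ends α (.o () 0) 3 ∧ Ends α (.o () 1) 2) ∨ (Ends α (.o () 0) 1 ∧ Ends α (.o () 3) 2) ∨
      (Ends α (.o () 0) 2 ∧ Ends α (.o () 1) 3) := by
  obtain ⟨j0, h0⟩ := hp 0
  have n0 := mstr_ne hi hn h0
  have s0 := mstr_port_symm hi h0
  rcases mstr_z4 j0 with rfl | rfl | rfl | rfl
  · exact absurd rfl n0
  · right; left
    refine ⟨h0, ?_⟩
    obtain ⟨j3, h3⟩ := hp 3
    have n3 := mstr_ne hi hn h3
    have s3 := mstr_port_symm hi h3
    rcases mstr_z4 j3 with rfl | rfl | rfl | rfl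
    · exact absurd (s3.unique h0) (by decide)
    · exact absurd (s3.unique s0) (by decide)
    · exact h3
    · exact absurd rfl n3
  · right; right
    refine ⟨h0, ?_⟩
    obtain ⟨j1, h1⟩ := hp 1
    have n1 := mstr_ne hi hn h1
    have s1 := mstr_port_symm hi h1
    rcases mstr_z4 j1 with rfl | rfl | rfl | rfl
    · exact absurd (s1.unique h0) (by decide)
    · exact absurd rfl n1
    · exact absurd (s1.unique s0) (by decide)
    · exact h1
  · left
    refine ⟨h0, ?_⟩
    obtain ⟨j1, h1⟩ := hp 1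
    have n1 := mstr_ne hi hn h1
    have s1 := mstr_port_symm hi h1
    rcases mstr_z4 j1 with rfl | rfl | rfl | rfl
    · exact absurd (s1.unique h0) (by decide)
    · exact absurd rfl n1
    · exact h1
    · exact absurd (s1.unique s0) (by decide)

private theorem mstr_rot_aux {V : Type} (α : Tg V) (k : ZMod 4) (d : SD V Empty Unit) :
    rot k α (rel id (fun _ => 0) k d) = rel id (fun _ => 0) k (α d) := by
  have h1 : rel id (fun _ => 0) (-k) (rel id (fun _ => 0) k d) = d := by
    rcases d with ⟨v, i⟩ | ⟨e, i⟩ | ⟨a, i⟩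
    · simp [rel]
    · exact e.elim
    · simp [rel]
  show rel id (fun _ => 0) k (α (rel id (fun _ => 0) (-k) (rel id (fun _ => 0) k d))) = _
  rw [h1]

private theorem mstr_turnx {V : Type} {α : Tg V} (k : ZMod 4) {v : V} {i j : ZMod 4}
    (h : Ends α (.x v i) j) : Ends (rot k α) (.x v i) (j + k) := by
  have h1 := mstr_rel (α := α) (β := rot k α) id (fun _ => 0) k (mstr_rot_aux α k) h
  have h2 : (rel id (fun _ => 0) k (.x v i) : SD V Empty Unit) = .x v i := by
    simp [rel]
  rw [h2] at h1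
  exact h1

private theorem mstr_turn {V : Type} {α : Tg V} (k : ZMod 4) {i j : ZMod 4}
    (h : Ends α (.o () i) j) : Ends (rot k α) (.o () (i + k)) (j + k) :=
  mstr_rel (α := α) (β := rot k α) id (fun _ => 0) k (mstr_rot_aux α k) h

private theorem mstr_clasp : Ends (sum single single) (.o () 0) 1 ∧
    Ends (sum single single) (.o () 1) 0 ∧ Ends (sum single single) (.o () 2) 3 ∧
    Ends (sum single single) (.o () 3) 2 := by
  have a1 : sum single single (.o () 1) = .x (inl ()) 1 := by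
    show (if (1 : ZMod 4) = 1 ∨ (1 : ZMod 4) = 2 then lf single (single (.o () 1))
      else rg single (single (.o () 1))) = _
    rw [if_pos (Or.inl rfl)]
    rfl
  have a2 : sum single single (.o () 2) = .x (inl ()) 2 := by
    show (if (2 : ZMod 4) = 1 ∨ (2 : ZMod 4) = 2 then lf single (single (.o () 2))
      else rg single (single (.o () 2))) = _
    rw [if_pos (Or.inr rfl)]
    rfl
  have a0 : sum single single (.o () 0) = .x (inr ()) 0 := by
    show (if (0 : ZMod 4) = 1 ∨ (0 : ZMod 4) = 2 then lf single (single (.o () 0))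
      else rg single (single (.o () 0))) = _
    rw [if_neg (by decide)]
    rfl
  have a3 : sum single single (.o () 3) = .x (inr ()) 3 := by
    show (if (3 : ZMod 4) = 1 ∨ (3 : ZMod 4) = 2 then lf single (single (.o () 3))
      else rg single (single (.o () 3))) = _
    rw [if_neg (by decide)]
    rfl
  have b : ∀ i, sum single single (.x (inl ()) i) = lf single (.o () i) := fun i => rfl
  have c : ∀ i, sum single single (.x (inr ()) i) = rg single (.o () i) := fun i => rfl
  refine ⟨?_, ?_, ?_, ?_⟩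
  · refine Ends.go a0 (Ends.go (v := inl ()) (i := 3) ?_ (Ends.fin ?_))
    · rw [c]
      exact mstr_rg (Or.inr ⟨by decide, rfl⟩)
    · rw [b]
      exact mstr_lf' (k := 3 + 2) (Or.inl (by decide))
  · refine Ends.go a1 (Ends.go (v := inr ()) (i := 2) ?_ (Ends.fin ?_))
    · rw [b]
      exact mstr_lf (Or.inr ⟨by decide, rfl⟩)
    · rw [c]
      exact mstr_rg' (k := 2 + 2) (Or.inl (by decide))
  · refine Ends.go a2 (Ends.go (v := inr ()) (i := 1) ?_ (Ends.fin ?_))
    · rw [b]
      exact mstr_lf (Or.inl ⟨by decide, rfl⟩)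
    · rw [c]
      exact mstr_rg' (k := 1 + 2) (Or.inr (by decide))
  · refine Ends.go a3 (Ends.go (v := inl ()) (i := 0) ?_ (Ends.fin ?_))
    · rw [c]
      exact mstr_rg (Or.inl ⟨by decide, rfl⟩)
    · rw [b]
      exact mstr_lf' (k := 0 + 2) (Or.inr (by decide))

namespace Tn

theorem NC.iso {S T : Tn} (h : S.Iso T) (hS : S.NC) : T.NC := by
  obtain ⟨e, c, h⟩ := h
  intro w i
  obtain ⟨j, hj⟩ := hS (e.symm w) (i - c (e.symm w))
  refine ⟨j + 0, ?_⟩
  have h1 := mstr_rel (α := S.α) (β := T.α) e c 0 h hj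
  have h2 : (rel e c 0 (.x (e.symm w) (i - c (e.symm w))) : SD T.V Empty Unit) = .x w i := by
    simp [rel]
  rw [h2] at h1
  exact h1

theorem NC.turn {T : Tn} (h : T.NC) (k : ZMod 4) : (T.turn k).NC := by
  intro w i
  obtain ⟨j, hj⟩ := h w i
  exact ⟨j + k, mstr_turnx k hj⟩

theorem NC.add_left {S T : Tn} (h : (S.add T).NC) : S.NC := by
  intro v i
  obtain ⟨j, hj⟩ := h (inl v) i
  have key : ∀ {d : SD (S.V ⊕ T.V) Empty Unit} {j : ZMod 4}, Ends (sum S.α T.α) d j →
      ∀ v i, d = .x (inl v) i → ∃ j, Ends S.α (.x v i) j := by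
    intro d j hd
    induction hd with
    | fin e1 =>
      rintro v i rfl
      rcases hx : S.α (.x v i) with ⟨w, k⟩ | ⟨e, k⟩ | ⟨a, k⟩
      · exfalso
        have e2 : lf T.α (S.α (.x v i)) = .o () _ := e1
        rw [hx] at e2
        exact absurd e2 (by simp [lf])
      · exact e.elim
      · exact ⟨k, Ends.fin hx⟩
    | go e1 _ ih =>
      rintro v i rfl
      rcases hx : S.α (.x v i) with ⟨w, k⟩ | ⟨e, k⟩ | ⟨a, k⟩
      · have e2 : lf T.α (S.α (.x v i)) = .x _ _ := e1
        rw [hx] at e2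
        have e3 : (SD.x (inl w) k : SD (S.V ⊕ T.V) Empty Unit) = .x _ _ := e2
        have e4 := (SD.x.injEq _ _ _ _ ▸ e3)
        obtain ⟨rfl, rfl⟩ := e4
        obtain ⟨j', hj'⟩ := ih _ _ rfl
        exact ⟨j', Ends.go hx hj'⟩
      · exact e.elim
      · exact ⟨k, Ends.fin hx⟩
  exact key hj v i rfl

theorem NC.add_right {S T : Tn} (h : (S.add T).NC) : T.NC := by
  intro v i
  obtain ⟨j, hj⟩ := h (inr v) i
  have key : ∀ {d : SD (S.V ⊕ T.V) Empty Unit} {j : ZMod 4}, Ends (sum S.α T.α) d j →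
      ∀ v i, d = .x (inr v) i → ∃ j, Ends T.α (.x v i) j := by
    intro d j hd
    induction hd with
    | fin e1 =>
      rintro v i rfl
      rcases hx : T.α (.x v i) with ⟨w, k⟩ | ⟨e, k⟩ | ⟨a, k⟩
      · exfalso
        have e2 : rg S.α (T.α (.x v i)) = .o () _ := e1
        rw [hx] at e2
        exact absurd e2 (by simp [rg])
      · exact e.elim
      · exact ⟨k, Ends.fin hx⟩
    | go e1 _ ih =>
      rintro v i rfl
      rcases hx : T.α (.x v i) with ⟨w, k⟩ | ⟨e, k⟩ | ⟨a, k⟩
      · have e2 : rg S.α (T.α (.x v i)) = .x _ _ := e1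
        rw [hx] at e2
        have e3 : (SD.x (inr w) k : SD (S.V ⊕ T.V) Empty Unit) = .x _ _ := e2
        have e4 := (SD.x.injEq _ _ _ _ ▸ e3)
        obtain ⟨rfl, rfl⟩ := e4
        obtain ⟨j', hj'⟩ := ih _ _ rfl
        exact ⟨j', Ends.go hx hj'⟩
      · exact e.elim
      · exact ⟨k, Ends.fin hx⟩
  exact key hj v i rfl

theorem NC.glue {V F : Type} [Fintype V] [Fintype F] {αp : SD V F Unit → SD V F Unit} {β : F → Tn}
    (h : (Tn.glue αp β).NC) (X : F) : (β X).NC := by
  intro v i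
  obtain ⟨j, hj⟩ := h (inr ⟨X, v⟩) i
  have key : ∀ {d : SD (GV V (fun X => (β X).V)) Empty Unit} {j : ZMod 4},
      Ends (glueA αp (fun X => (β X).α)) d j →
      ∀ v i, d = .x (inr ⟨X, v⟩) i → ∃ j, Ends (β X).α (.x v i) j := by
    intro d j hd
    induction hd with
    | fin e1 =>
      rintro v i rfl
      rcases hx : (β X).α (.x v i) with ⟨w, k⟩ | ⟨e, k⟩ | ⟨a, k⟩
      · exfalso
        have e2 : outA αp (fun X => (β X).α) X (.x (inr ⟨X, v⟩) i) ((β X).α (.x v i)) =
          .o () _ := e1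
        rw [hx] at e2
        exact absurd e2 (by simp [outA, dnA])
      · exact e.elim
      · exact ⟨k, Ends.fin hx⟩
    | go e1 _ ih =>
      rintro v i rfl
      rcases hx : (β X).α (.x v i) with ⟨w, k⟩ | ⟨e, k⟩ | ⟨a, k⟩
      · have e2 : outA αp (fun X => (β X).α) X (.x (inr ⟨X, v⟩) i) ((β X).α (.x v i)) =
          .x _ _ := e1
        rw [hx] at e2
        have e3 : (SD.x (inr ⟨X, w⟩) k : SD (GV V (fun X => (β X).V)) Empty Unit) = .x _ _ := e2
        have e4 := (SD.x.injEq _ _ _ _ ▸ e3)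
        obtain ⟨rfl, rfl⟩ := e4
        obtain ⟨j', hj'⟩ := ih _ _ rfl
        exact ⟨j', Ends.go hx hj'⟩
      · exact e.elim
      · exact ⟨k, Ends.fin hx⟩
  exact key hj v i rfl

theorem NC.of_comp {T : Tn} (h : OneComp (closeA T.α)) : T.NC := by
  have key : ∀ (n : ℕ) (v : T.V) (i : ZMod 4),
      ((fun e => op (closeA T.α e))^[n] (some v, i)).1 = none → ∃ j, Ends T.α (.x v i) j := by
    intro n
    induction n with
    | zero =>
      intro v i h0
      exact absurd h0 (by simp)
    | succ n ih =>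
      intro v i h0
      rcases hx : T.α (.x v i) with ⟨w, k⟩ | ⟨e, k⟩ | ⟨a, k⟩
      · have e1 : op (closeA T.α (some v, i)) = (some w, k + 2) := by
          simp only [closeA, hx, op]
        rw [Function.iterate_succ_apply] at h0
        have h1 : ((fun e => op (closeA T.α e))^[n] (some w, k + 2)).1 = none := by
          rw [← e1]
          exact h0
        obtain ⟨j, hj⟩ := ih w (k + 2) h1
        exact ⟨j, Ends.go hx hj⟩
      · exact e.elim
      · exact ⟨k, Ends.fin hx⟩
  intro v i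
  obtain ⟨n, hn⟩ := h (some v, i) (none, 0)
  refine key n v i ?_
  rcases hn with hn | hn
  · rw [hn]
  · rw [hn]
    rfl

theorem TI.iso {S T : Tn} (h : S.Iso T) (hS : S.TI) : T.TI := by
  obtain ⟨e, c, h⟩ := h
  have h1 := mstr_rel (α := S.α) (β := T.α) e c 0 h hS.1
  have h2 := mstr_rel (α := S.α) (β := T.α) e c 0 h hS.2
  have e0 : (rel e c 0 (.o () 0) : SD T.V Empty Unit) = .o () 0 := by simp [rel]
  have e1 : (rel e c 0 (.o () 1) : SD T.V Empty Unit) = .o () 1 := by simp [rel]
  rw [e0, add_zero] at h1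
  rw [e1, add_zero] at h2
  exact ⟨h1, h2⟩

theorem TI_clasp {k : ZMod 4} (hk : k = 1 ∨ k = 3) : ((Tn.one.add Tn.one).turn k).TI := by
  obtain ⟨h0, h1, h2, h3⟩ := mstr_clasp
  rcases hk with rfl | rfl
  · exact ⟨mstr_turn 1 h3, mstr_turn 1 h0⟩
  · exact ⟨mstr_turn 3 h1, mstr_turn 3 h2⟩

theorem not_TI_both {S T : Tn} (hS : S.PT) (hT : T.PT) (h : (S.add T).NC) : ¬ (S.TI ∧ T.TI) := by
  rintro ⟨h1, h2⟩
  exact mstr_loop hS hT h h1.1 h2.2

theorem TI_add {S T : Tn} (hS : S.PT) (hT : T.PT) (h : (S.add T).NC) (hti : S.TI ∨ T.TI) :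
    (S.add T).TI := by
  have nS := h.add_left
  have nT := h.add_right
  have pS : ∀ i, ∃ j, Ends S.α (.o () i) j := by
    intro i
    obtain ⟨w, l, e⟩ := hS.proper i
    obtain ⟨j, hj⟩ := nS w (l + 2)
    exact ⟨j, Ends.go e hj⟩
  have pT : ∀ i, ∃ j, Ends T.α (.o () i) j := by
    intro i
    obtain ⟨w, l, e⟩ := hT.proper i
    obtain ⟨j, hj⟩ := nT w (l + 2)
    exact ⟨j, Ends.go e hj⟩
  obtain ⟨s0, m0, es0⟩ := hS.proper 0
  obtain ⟨s1, m1, es1⟩ := hS.proper 1
  obtain ⟨s3, m3, es3⟩ := hS.proper 3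
  obtain ⟨t0, n0, et0⟩ := hT.proper 0
  obtain ⟨t1, n1, et1⟩ := hT.proper 1
  obtain ⟨t2, n2, et2⟩ := hT.proper 2
  have start1 : (S.add T).α (.o () 1) = .x (inl s1) m1 := by
    show (if (1 : ZMod 4) = 1 ∨ (1 : ZMod 4) = 2 then lf T.α (S.α (.o () 1))
      else rg S.α (T.α (.o () 1))) = _
    rw [if_pos (Or.inl rfl), es1]
    rfl
  have start0 : (S.add T).α (.o () 0) = .x (inr t0) n0 := by
    show (if (0 : ZMod 4) = 1 ∨ (0 : ZMod 4) = 2 then lf T.α (S.α (.o () 0))
      else rg S.α (T.α (.o () 0))) = _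
    rw [if_neg (by decide), et0]
    rfl
  have zS := mstr_pair hS.inv hS.ne pS
  have zT := mstr_pair hT.inv hT.ne pT
  rcases hti with hti | hti
  · have s03 := mstr_from es0 hti.1
    have s30 := mstr_from es3 (mstr_port_symm hS.inv hti.1)
    refine ⟨Ends.go start0 ?_, Ends.go start1 (mstr_left_out (mstr_from es1 hti.2) (Or.inr rfl)
      s1 (m1 + 2) rfl)⟩
    rcases zT with ⟨-, h12⟩ | ⟨h01, h32⟩ | ⟨h02, h13⟩
    · exact (mstr_loop hS hT h hti.1 h12).elim
    · have h23 := mstr_port_symm hT.inv h32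
      refine mstr_right_in (mstr_from et0 h01) (Or.inl ⟨rfl, es0⟩) ?_ t0 (n0 + 2) rfl
      refine mstr_left_in s03 (Or.inr ⟨rfl, et2⟩) ?_ s0 (m0 + 2) rfl
      exact mstr_right_out (mstr_from et2 h23) (Or.inr rfl) t2 (n2 + 2) rfl
    · refine mstr_right_in (mstr_from et0 h02) (Or.inr ⟨rfl, es3⟩) ?_ t0 (n0 + 2) rfl
      refine mstr_left_in s30 (Or.inl ⟨rfl, et1⟩) ?_ s3 (m3 + 2) rfl
      exact mstr_right_out (mstr_from et1 h13) (Or.inr rfl) t1 (n1 + 2) rfl
  · have t12 := mstr_from et1 hti.2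
    have t21 := mstr_from et2 (mstr_port_symm hT.inv hti.2)
    refine ⟨Ends.go start0 (mstr_right_out (mstr_from et0 hti.1) (Or.inr rfl) t0 (n0 + 2) rfl),
      Ends.go start1 ?_⟩
    rcases zS with ⟨h03, -⟩ | ⟨h01, h32⟩ | ⟨h02, h13⟩
    · exact (mstr_loop hS hT h h03 hti.2).elim
    · have h10 := mstr_port_symm hS.inv h01
      refine mstr_left_in (mstr_from es1 h10) (Or.inl ⟨rfl, et1⟩) ?_ s1 (m1 + 2) rfl
      refine mstr_right_in t12 (Or.inr ⟨rfl, es3⟩) ?_ t1 (n1 + 2) rfl
      exact mstr_left_out (mstr_from es3 h32) (Or.inr rfl) s3 (m3 + 2) rfl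
    · refine mstr_left_in (mstr_from es1 h13) (Or.inr ⟨rfl, et2⟩) ?_ s1 (m1 + 2) rfl
      refine mstr_right_in t21 (Or.inl ⟨rfl, es0⟩) ?_ t2 (n2 + 2) rfl
      exact mstr_left_out (mstr_from es0 h02) (Or.inr rfl) s0 (m0 + 2) rfl

end Tn

end SN78
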