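import Pool.Agent.SN78.MComb
import Pool.Agent.SN78.MDec
import Pool.Agent.SN78.MStr

/-!
# SN78 module MNF: normal forms of prime tangles

`HR T`: the tangle `T` is flype equivalent to a row.

`HR.of_sum`: let `(S.add U).Iso T` with `HR S`, `HR U`, all prime, `T.NC`.  `S.add U` is equivalent to
`(rowT a₁ L₁).add (rowT a₂ L₂)` (`TE.add_left`, `TE.add_right`), then `combine`.  `cl L = cl L₁ + cl L₂ ≤ 1`: if both
are `1` then `S.TI` and `U.TI`, impossible by `not_TI_both` (`NC.iso`).  If `cl L = 1` then `S.TI` or `U.TI`, so `T.TI`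
by `TI_add`, `TI.iso`.  The length `a + L.length` is at least `2`.

`nf`: strong induction on `card T.V`.  If `card T.V = 1`: `PT.eq_one`, `a = 1`, `L = []`.  Otherwise
`PT.decomp`:
(i) `(S.add U).Iso T`: `HR.of_sum` (`NC.add_left`, `NC.add_right` for `S`, `U`; they are smaller because
`PT.card_pos`).
(ii) `(S.add U).Iso (T.turn 1)`: by `HR.of_sum` the tangle `T' = T.turn 1` has `T'.TE (rowT a L)` with
`2 ≤ a + L.length`, `cl L ≤ 1`.  `T = T'.turn 3`, so `T.TE ((rowT a L).turn 3)` (`TE.turn`).  By `row_good`, `GE.row`: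
if `a = 2`, `L = []` then `GE true ((rowT a L).turn 3)`, and `card T.V = 2`, `card S.V = card U.V = 1`, so
`S`, `U` are isomorphic with `one` (`PT.eq_one`), `T` is isomorphic with `(one.add one).turn 3`, `TI_clasp`.
Otherwise `GE false`.  So `HR T` with `a = 0` and `L = [(b, (rowT a L).turn 3)]`.
(iii) `Rigid (cls αp)`, `(glue αp β).Iso T`: by induction (`NC.glue`, `NC.iso`) each `β X` is equivalent to a row
`γ X`, with `Flex` (`row_flex`), `Proper` and `PT` (`row_pt`, `PT.proper`).  `T.TE (glue αp γ)` by `TE.glue`;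
`GE.poly`; `a = 0`, `L = [(false, glue αp γ)]`; the cardinalities: `card (glue αp β).V = card V + ∑ X, card (β X).V`.

`nf_flex`: for `2 ≤ card T.V`: from `nf` and `row_flex`, `row_pt`.
-/

namespace SN78

open Sum

/-- the tangle is flype equivalent to a row -/
def HR (T : Tn) : Prop :=
  ∃ (a : ℕ) (L : List (Bool × Tn)), (∀ p ∈ L, GE p.1 p.2) ∧ 1 ≤ a + L.length ∧ cl L ≤ 1 ∧
    (cl L = 1 → T.TI) ∧ T.TE (rowT a L) ∧ Fintype.card (rowT a L).V = Fintype.card T.V

theorem HR.of_sum {S U T : Tn} (hS : HR S) (hU : HR U) (pS : S.PT) (pU : U.PT) (hT : T.NC)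
    (h : (S.add U).Iso T) :
    ∃ (a : ℕ) (L : List (Bool × Tn)), (∀ p ∈ L, GE p.1 p.2) ∧ 2 ≤ a + L.length ∧ cl L ≤ 1 ∧
      (cl L = 1 → T.TI) ∧ T.TE (rowT a L) ∧ Fintype.card (rowT a L).V = Fintype.card T.V := by
  obtain ⟨a₁, L₁, g₁, n₁, c₁, t₁, e₁, k₁⟩ := hS
  obtain ⟨a₂, L₂, g₂, n₂, c₂, t₂, e₂, k₂⟩ := hU
  obtain ⟨L, g, hl, hcl, hTE, hcard⟩ := combine g₁ g₂ n₁ n₂
  have p₁ : (rowT a₁ L₁).PT := row_pt g₁
  have p₂ : (rowT a₂ L₂).PT := row_pt g₂
  have nc : (S.add U).NC := Tn.NC.iso h.symm hT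
  have hle : cl L₁ + cl L₂ ≤ 1 := by
    by_contra hlt
    exact Tn.not_TI_both pS pU nc ⟨t₁ (by omega), t₂ (by omega)⟩
  refine ⟨a₁ + a₂, L, g, by omega, by omega, fun h1 => ?_, ?_, ?_⟩
  · refine Tn.TI.iso h (Tn.TI_add pS pU nc ?_)
    have h2 : cl L₁ = 1 ∨ cl L₂ = 1 := by omega
    rcases h2 with h2 | h2
    · exact Or.inl (t₁ h2)
    · exact Or.inr (t₂ h2)
  · exact (Tn.TE.of_iso h.symm).trans ((e₁.add_left pS p₁ pU).trans
      ((e₂.add_right p₁ pU p₂).trans hTE))
  · have h3 : Fintype.card (S.add U).V = Fintype.card S.V + Fintype.card U.V :=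
      Fintype.card_sum
    rw [hcard, k₁, k₂, ← h3, h.card]

private theorem mnf_turn (T : Tn) : (T.turn 1).turn 3 = T := by
  have e : (3 : ZMod 4) + 1 = 0 := by decide
  rw [Tn.turn_turn, e, Tn.turn_zero]

private theorem mnf_row {T : Tn} {b : Bool} {X : Tn} (hX : GE b X) (ht : b = true → T.TI)
    (h : T.TE X) (hc : Fintype.card X.V = Fintype.card T.V) : HR T := by
  refine ⟨0, [(b, X)], ?_, by simp, ?_, ?_, h, hc⟩
  · intro p hp
    rw [List.mem_singleton.1 hp]
    exact hX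
  · cases b <;> simp [cl]
  · intro h1
    cases b with
    | true => exact ht rfl
    | false => simp [cl] at h1

private theorem mnf_turned {T S U : Tn} (hT : T.PT) (hc : T.NC) (hS : HR S) (hU : HR U)
    (pS : S.PT) (pU : U.PT) (hcard : Fintype.card S.V + Fintype.card U.V = Fintype.card T.V)
    (h : (S.add U).Iso (T.turn 1)) : HR T := by
  obtain ⟨a, L, g, n, c, t, e, k⟩ := HR.of_sum hS hU pS pU (hc.turn 1) h
  have hTE : T.TE ((rowT a L).turn 3) := by
    have h1 := e.turn (hT.turn 1) (row_pt g) 3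
    rw [mnf_turn] at h1
    exact h1
  have hk : Fintype.card ((rowT a L).turn 3).V = Fintype.card T.V := k
  obtain ⟨hg, hz⟩ := row_good g c n
  rcases hz with ⟨rfl, rfl⟩ | hz
  · have hGE : GE true ((rowT 2 []).turn 3) :=
      GE.row (row_pt g) hg (fun h0 => absurd h0 (by simp)) (Or.inr rfl)
    refine mnf_row hGE (fun _ => ?_) hTE hk
    have h2 : Fintype.card T.V = 2 := by
      rw [← hk]
      rfl
    have s0 := pS.card_pos
    have u0 := pU.card_pos
    have hs := pS.eq_one (by omega)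
    have hu := pU.eq_one (by omega)
    have h3 : ((Tn.one.add Tn.one).turn 3).Iso ((T.turn 1).turn 3) :=
      ((Tn.Iso.add hs hu).trans h).turn 3
    rw [mnf_turn] at h3
    exact Tn.TI.iso h3 (Tn.TI_clasp (Or.inr rfl))
  · exact mnf_row (b := false) (GE.row (row_pt g) hg (fun _ => hz) (Or.inr rfl))
      (fun h0 => absurd h0 (by simp)) hTE hk

private theorem mnf_flex {T : Tn} (h : HR T) (h2 : 2 ≤ Fintype.card T.V) :
    ∃ T' : Tn, T.TE T' ∧ Proper T'.α ∧ Flex T'.α ∧ T'.PT ∧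
      Fintype.card T'.V = Fintype.card T.V := by
  obtain ⟨a, L, g, n, c, t, e, k⟩ := h
  exact ⟨rowT a L, e, (row_pt g).proper, row_flex g c (by rw [k]; exact h2), row_pt g, k⟩

private theorem mnf_poly {T : Tn} (hc : T.NC) {V F : Type} [Fintype V] [Fintype F]
    {αp : SD V F Unit → SD V F Unit} {β : F → Tn} (hr : Rigid (cls αp)) (hp : PMap (cls αp))
    (hβ : ∀ X, (β X).PT ∧ 2 ≤ Fintype.card (β X).V ∧ HR (β X))
    (hI : (Tn.glue αp β).Iso T) : HR T := by
  have h1 : ∀ X, ∃ T' : Tn, (β X).TE T' ∧ Proper T'.α ∧ Flex T'.α ∧ T'.PT ∧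
      Fintype.card T'.V = Fintype.card (β X).V := fun X => mnf_flex (hβ X).2.2 (hβ X).2.1
  choose γ e pr fl pt k using h1
  have hTE : T.TE (Tn.glue αp γ) :=
    (Tn.TE.of_iso hI.symm).trans (Tn.TE.glue hp (fun X => (hβ X).1) pt e)
  have hcard : Fintype.card (Tn.glue αp γ).V = Fintype.card (Tn.glue αp β).V := by
    have h2 : ∀ X, Nonempty ((γ X).V ≃ (β X).V) := fun X => Fintype.card_eq.1 (k X)
    exact Fintype.card_congr (Equiv.sumCongr (Equiv.refl V)
      (Equiv.sigmaCongrRight fun X => Classical.choice (h2 X)))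
  exact mnf_row (b := false) (GE.poly hr hp fun X => ⟨pr X, fl X, pt X⟩)
    (fun h0 => absurd h0 (by simp)) hTE (hcard.trans hI.card)

theorem nf {T : Tn} (hT : T.PT) (hc : T.NC) : HR T := by
  have key : ∀ (n : ℕ) (T : Tn), Fintype.card T.V = n → T.PT → T.NC → HR T := by
    intro n
    induction n using Nat.strong_induction_on with
    | _ n ih =>
      intro T hn hT hc
      have hpos := hT.card_pos
      by_cases h1 : Fintype.card T.V = 1
      · exact ⟨1, [], by simp, by simp, by simp [cl], fun h => by simp [cl] at h,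
          Tn.TE.of_iso (hT.eq_one h1).symm, h1.symm⟩
      · have h2 : 2 ≤ Fintype.card T.V := by omega
        rcases hT.decomp h2 with ⟨S, U, pS, pU, hcard, h⟩ | ⟨V, F, iV, iF, αp, β, hr, hp, hβ, hI⟩
        · have s0 := pS.card_pos
          have u0 := pU.card_pos
          rcases h with h | h
          · have nc : (S.add U).NC := Tn.NC.iso h.symm hc
            obtain ⟨a, L, g, m, c, t, e, k⟩ := HR.of_sum
              (ih _ (by omega) S rfl pS nc.add_left) (ih _ (by omega) U rfl pU nc.add_right)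
              pS pU hc h
            exact ⟨a, L, g, by omega, c, t, e, k⟩
          · have nc : (S.add U).NC := Tn.NC.iso h.symm (hc.turn 1)
            exact mnf_turned hT hc (ih _ (by omega) S rfl pS nc.add_left)
              (ih _ (by omega) U rfl pU nc.add_right) pS pU hcard h
        · have nc : (Tn.glue αp β).NC := Tn.NC.iso hI.symm hc
          exact mnf_poly hc hr hp (fun X => ⟨(hβ X).1, (hβ X).2.1,
            ih _ (by have := (hβ X).2.2; omega) (β X) rfl (hβ X).1 (nc.glue X)⟩) hI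
  exact key _ T rfl hT hc

theorem nf_flex {T : Tn} (hT : T.PT) (hc : T.NC) (h2 : 2 ≤ Fintype.card T.V) :
    ∃ T' : Tn, T.TE T' ∧ Proper T'.α ∧ Flex T'.α ∧ T'.PT ∧
      Fintype.card T'.V = Fintype.card T.V :=
  mnf_flex (nf hT hc) h2

end SN78
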