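import Pool.Agent.SN78.MGood
import Pool.Agent.SN78.MJoin

/-!
# SN78 module MROWS: rows

`rs L`: the sum of a nonempty list of tangles, bracketed to the right.  `rowT a L`: `a` crossings followed by the
elements `L`; the `Bool` in `L` says whether the element is a clasp; `cl L` is the number of clasps.

`rs_pt`, `rs_card`: induction, `PT.add`, `one_pt`.
`rs_append`: induction on `L`, `add_assoc`, `Iso.add`, `Iso.refl`.
`row_acc`: let `S` be `Proper` with `Gpp`, `S.PT`, and `M` a nonempty list of elements `GE false`.  Then
`rs (S :: M)` has `G4`, `Z 0`, `Z 2`.  Induction on `M`: for `M = [e]`: `row_right` (`Z 1 e`).  For `M = e :: M'`, `M'`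
nonempty: `S.add e` has `G4` (`row_right`), so `Gpp`; by induction `rs (S.add e :: M')` is good, and it is isomorphic
with `rs (S :: e :: M')` (`add_assoc`).
`row_fat`: a list `L` of at least two elements with at most one clasp: `rs` has `G4`, `Z 0`, `Z 2`.  Induction: if the
first element `e` is not a clasp: the rest is one element (`Gmm` by `GE.mm`) or at least two (`G4` by induction, so
`Gmm`); `row_left` (`Z 3 e`).  If the first element is a clasp, the others are not: `row_acc` (`GE.pp`).
`row_good`: induction on `a`: `a = 0`: `row_fat`.  `a = 1`: `L` is one element (`row_cons`, `GE.mm`) or `row_fat` and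
`row_cons`.  `a ≥ 2`: if `a = 2`, `L = []`: `clasp_G4`.  Otherwise the rest `rowT (a - 1) L` has at least two elements
and `G3` by induction, so `Gmm`; `row_cons`.
`row_flex`: a row of length 1 which is not a crossing is an element (`GE.fl`); otherwise `G3.flex` with `k = 0`,
`rot_zero`.
-/

namespace SN78

open Sum

/-- the sum of a list of tangles -/
def rs : List Tn → Tn
  | [] => Tn.one
  | [T] => T
  | S :: T :: L => S.add (rs (T :: L))

/-- the row with `a` crossings and the elements `L` -/
def rowT (a : ℕ) (L : List (Bool × Tn)) : Tn := rs (List.replicate a Tn.one ++ L.map Prod.snd)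

/-- the number of clasps -/
def cl (L : List (Bool × Tn)) : ℕ := L.countP (fun p => p.1)

theorem rs_pt {L : List Tn} (h : ∀ T ∈ L, T.PT) : (rs L).PT := by
  induction L with
  | nil => exact Tn.one_pt
  | cons S L ih =>
    cases L with
    | nil => exact h S (by simp)
    | cons T L => exact Tn.PT.add (h S (by simp)) (ih (fun U hU => h U (List.mem_cons_of_mem _ hU)))

theorem rs_card {L : List Tn} (hL : L ≠ []) :
    Fintype.card (rs L).V = (L.map (fun T => Fintype.card T.V)).sum := by
  induction L with
  | nil => exact absurd rfl hL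
  | cons S L ih =>
    cases L with
    | nil =>
      simp only [List.map_cons, List.map_nil, List.sum_cons, List.sum_nil, add_zero]
      rfl
    | cons T L =>
      have h1 := ih (List.cons_ne_nil _ _)
      have h2 : Fintype.card (rs (S :: T :: L)).V = Fintype.card S.V + Fintype.card (rs (T :: L)).V :=
        Fintype.card_sum
      rw [h2, h1]
      simp only [List.map_cons, List.sum_cons]

private theorem mrows_proper {L : List Tn} (h : ∀ T ∈ L, Proper T.α) : Proper (rs L).α := by
  induction L with
  | nil => exact proper_single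
  | cons S L ih =>
    cases L with
    | nil => exact h S (by simp)
    | cons T L =>
      exact Proper.sum (h S (by simp)) (ih (fun U hU => h U (List.mem_cons_of_mem _ hU)))

theorem rs_append {L M : List Tn} (hL : L ≠ []) (hM : M ≠ []) (h : ∀ T ∈ L, Proper T.α)
    (h' : ∀ T ∈ M, Proper T.α) : ((rs L).add (rs M)).Iso (rs (L ++ M)) := by
  induction L with
  | nil => exact absurd rfl hL
  | cons S L ih =>
    cases L with
    | nil =>
      cases M with
      | nil => exact absurd rfl hM
      | cons T M => exact Tn.Iso.refl _
    | cons T L =>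
      have h1 := ih (List.cons_ne_nil _ _) (fun U hU => h U (List.mem_cons_of_mem _ hU))
      have h2 := Tn.add_assoc S (rs (T :: L)) (rs M) (h S (by simp))
        (mrows_proper (fun U hU => h U (List.mem_cons_of_mem _ hU))) (mrows_proper h')
      exact Tn.Iso.trans h2 (Tn.Iso.add (Tn.Iso.refl S) h1)

private theorem mrows_acc {M : List Tn} (hM : M ≠ []) (h : ∀ T ∈ M, GE false T) :
    ∀ S : Tn, Proper S.α → Gpp S.α →
      G4 (rs (S :: M)).α ∧ Z 0 (rs (S :: M)).α ∧ Z 2 (rs (S :: M)).α := by
  induction M with
  | nil => exact absurd rfl hM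
  | cons e M ih =>
    intro S hS hg
    have he := h e (by simp)
    cases M with
    | nil => exact row_right hS he.pr hg (he.z rfl).1
    | cons f M =>
      have h1 := row_right hS he.pr hg (he.z rfl).1
      have h2 := ih (List.cons_ne_nil _ _) (fun U hU => h U (List.mem_cons_of_mem _ hU)) (S.add e)
        (Proper.sum hS he.pr) h1.1.gpp
      have h3 : (rs (S.add e :: f :: M)).Iso (rs (S :: e :: f :: M)) :=
        Tn.add_assoc S e (rs (f :: M)) hS he.pr
          (mrows_proper (fun U hU => (h U (List.mem_cons_of_mem _ hU)).pr))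
      exact ⟨h2.1.iso h3, h2.2.1.iso h3, h2.2.2.iso h3⟩

private theorem mrows_fat {L : List (Bool × Tn)} (hL : ∀ p ∈ L, GE p.1 p.2) (hc : cl L ≤ 1)
    (h2 : 2 ≤ L.length) :
    G4 (rs (L.map Prod.snd)).α ∧ Z 0 (rs (L.map Prod.snd)).α ∧ Z 2 (rs (L.map Prod.snd)).α := by
  induction L with
  | nil => simp at h2
  | cons p L ih =>
    obtain ⟨b, S⟩ := p
    have hS : GE b S := hL (b, S) (by simp)
    have hL' : ∀ p ∈ L, GE p.1 p.2 := fun p hp => hL p (List.mem_cons_of_mem _ hp)
    cases L with
    | nil => simp at h2
    | cons q L =>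
      cases b with
      | false =>
        have hc' : cl (q :: L) ≤ 1 := by
          have : cl ((false, S) :: q :: L) = cl (q :: L) := by simp [cl]
          omega
        have hpr : Proper (rs ((q :: L).map Prod.snd)).α := mrows_proper (fun T hT => by
          obtain ⟨p, hp, rfl⟩ := List.mem_map.1 hT
          exact (hL' p hp).pr)
        have hmm : Gmm (rs ((q :: L).map Prod.snd)).α := by
          cases L with
          | nil => exact (hL' q (by simp)).mm
          | cons r L => exact (ih hL' hc' (by simp)).1.g3.gmm
        exact row_left hS.pr hpr (hS.z rfl).2 hmm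
      | true =>
        have hc' : ∀ p ∈ q :: L, p.1 = false := by
          have h3 : cl ((true, S) :: q :: L) = cl (q :: L) + 1 := by simp [cl]
          have h4 : cl (q :: L) = 0 := by omega
          intro p hp
          have h5 := List.countP_eq_zero.1 h4 p hp
          simpa using h5
        refine mrows_acc (M := (q :: L).map Prod.snd) (by simp) ?_ S hS.pr hS.pp
        intro T hT
        obtain ⟨p, hp, rfl⟩ := List.mem_map.1 hT
        have := hL' p hp
        rw [hc' p hp] at this
        exact this

private theorem mrows_succ {a : ℕ} {L : List (Bool × Tn)} (h : 1 ≤ a + L.length) :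
    rowT (a + 1) L = Tn.one.add (rowT a L) := by
  have h1 : rowT (a + 1) L = rs (Tn.one :: (List.replicate a Tn.one ++ L.map Prod.snd)) := rfl
  have h2 : List.replicate a Tn.one ++ L.map Prod.snd ≠ [] := by
    intro he
    have h3 := congrArg List.length he
    rw [List.length_append, List.length_replicate, List.length_map, List.length_nil] at h3
    omega
  rw [h1, rowT]
  generalize List.replicate a Tn.one ++ L.map Prod.snd = M at h2
  cases M with
  | nil => exact absurd rfl h2
  | cons T M => rfl

private theorem mrows_row_proper {a : ℕ} {L : List (Bool × Tn)} (hL : ∀ p ∈ L, GE p.1 p.2) :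
    Proper (rowT a L).α := by
  refine mrows_proper (fun T hT => ?_)
  rcases List.mem_append.1 hT with h | h
  · rw [List.eq_of_mem_replicate h]
    exact proper_single
  · obtain ⟨p, hp, rfl⟩ := List.mem_map.1 h
    exact (hL p hp).pr

theorem row_good {a : ℕ} {L : List (Bool × Tn)} (hL : ∀ p ∈ L, GE p.1 p.2) (hc : cl L ≤ 1)
    (h2 : 2 ≤ a + L.length) :
    G3 (rowT a L).α ∧ ((a = 2 ∧ L = []) ∨ (Z 0 (rowT a L).α ∧ Z 2 (rowT a L).α)) := by
  induction a with
  | zero =>
    have h3 := mrows_fat hL hc (by omega)
    have h4 : rowT 0 L = rs (L.map Prod.snd) := rfl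
    rw [h4]
    exact ⟨h3.1.g3, Or.inr h3.2⟩
  | succ a ih =>
    have hpr := mrows_row_proper (a := a) hL
    have he := mrows_succ (a := a) (L := L) (by omega)
    by_cases h3 : 2 ≤ a + L.length
    · have h4 := row_cons hpr (ih h3).1.gmm
      rw [he]
      exact ⟨h4.1, Or.inr h4.2⟩
    · have h5 : (a = 1 ∧ L = []) ∨ (a = 0 ∧ L.length = 1) := by
        rcases Nat.eq_zero_or_pos a with h | h
        · right
          exact ⟨h, by omega⟩
        · left
          exact ⟨by omega, List.length_eq_zero_iff.1 (by omega)⟩
      rcases h5 with ⟨rfl, rfl⟩ | ⟨rfl, h6⟩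
      · rw [he]
        exact ⟨clasp_G4.g3, Or.inl ⟨rfl, rfl⟩⟩
      · obtain ⟨p, rfl⟩ := List.length_eq_one_iff.1 h6
        have h7 : Gmm (rowT 0 [p]).α := (hL p (by simp)).mm
        have h4 := row_cons hpr h7
        rw [he]
        exact ⟨h4.1, Or.inr h4.2⟩

theorem row_pt {a : ℕ} {L : List (Bool × Tn)} (hL : ∀ p ∈ L, GE p.1 p.2) : (rowT a L).PT := by
  refine rs_pt (fun T hT => ?_)
  rcases List.mem_append.1 hT with h | h
  · rw [List.eq_of_mem_replicate h]
    exact Tn.one_pt
  · obtain ⟨p, hp, rfl⟩ := List.mem_map.1 h
    exact (hL p hp).pt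

theorem row_flex {a : ℕ} {L : List (Bool × Tn)} (hL : ∀ p ∈ L, GE p.1 p.2) (hc : cl L ≤ 1)
    (h2 : 2 ≤ Fintype.card (rowT a L).V) : Flex (rowT a L).α := by
  by_cases h3 : 2 ≤ a + L.length
  · have h4 := (row_good hL hc h3).1.flex 0
    rw [rot_zero] at h4
    exact h4
  · have h1 : Fintype.card Tn.one.V = 1 := Fintype.card_unit
    rcases Nat.eq_zero_or_pos a with rfl | ha
    · cases L with
      | nil =>
        exfalso
        have h5 : rowT 0 [] = Tn.one := rfl
        rw [h5, h1] at h2
        omega
      | cons p L =>
        cases L with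
        | nil => exact (hL p (by simp)).fl
        | cons q L =>
          exfalso
          simp at h3
    · have ha' : a = 1 := by omega
      subst ha'
      have hl : L = [] := List.length_eq_zero_iff.1 (by omega)
      subst hl
      exfalso
      have h5 : rowT 1 [] = Tn.one := rfl
      rw [h5, h1] at h2
      omega

end SN78
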