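import Pool.Agent.SN78.MContr
import Pool.Agent.SN78.MGlue

/-!
# SN78 module MSPLIT: a prime tangle is a parent with tangles inserted

Let `σ = closeA T.α`, `V = {v // ∀ X, v ∉ M X}`, `q v = inl ⟨v, _⟩` if `v ∈ V` and `q v = inr X` if `v ∈ M X`
(`hd`: this is well defined).  Sites of the parent: `Z = Option (V ⊕ F)`; `A z = {o | o.map q = z}`.  By `PMap.bd`
choose `δ X` with `Bd σ (sm (M X)) (δ X)` (`sm (M X) = A (some (inr X))`, it does not contain `none`).  The others:
`δ none i = (none, i)`, `δ (some (inl v)) i = (some v, i)` (`PMap.bd_single`).  `exists_contr` gives `τ` with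
`Contr σ τ A ι`; `αp d = ofX (τ (toX d))`, so `cls αp = τ` (`toX`, `ofX` are inverse to each other).  `Contr.pmap`
(`Z` has `none` and at least one more site, since `T.V` is nonempty), `Contr.cut_eq`.

`β X`: crossings `{v // v ∈ M X}`; `β (.o () j) = .x v i` if `δ X j = (some v, i)`; `β (.x v i) = .x w j` if
`T.α (.x v i) = .x w j` with `w ∈ M X`; otherwise `(some v, i)` leaves `sm (M X)`, so it is `δ X j` for some `j`, and
`β (.x v i) = .o () j`.
`PT (β X)`: `Contr σ (closeA (β X)) A' ι'` with `A' none = (sm (M X))ᶜ`, `A' (some v) = {some v}`,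
`ι' (none, i) = σ (δ X (- i))` (`Bd.compl` with `c = 0`), `ι' (some v, i) = (some v, i)`; `Contr.pmap`.
`Iso`: the bijection `V ⊕ (Σ X, {v // v ∈ M X}) ≃ T.V`, `c = 0`.  For a dart `d` of `T` let `T.α d = d'`.  If `d` is a
dart of a crossing in `M X` which leaves `M X`, then `(β X).α (.x v i) = .o () j` and `glueA` continues with
`αp (.f X j)`; `ι (τ (some (inr X), j)) = σ (δ X j) = σ (some v, i)`.  And so on.

`eq_one`: let `v` be the only crossing.  All darts of `v` lead to ports (`PMap.noloop`), and all ports lead to `v`.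
`PMap.bd_single` for `none` (`outw`): the walk from `(none, i)` comes to `σ (none, i + 1)` without visiting `none`;
`fs σ (none, i) = pv (σ (none, i))` is a dart of `v`, so the next one is at `none`; so
`σ (none, i + 1) = pv (σ (none, i))`.  So `σ (none, i) = (some v, c - i)`.
-/

namespace SN78

open Sum Classical

/-- the sites of a set of crossings -/
def sm {V : Type} (M : Finset V) : Finset (Option V) := M.map Function.Embedding.some

/-- the darts of a tangle in its closure -/
private def msTo {V : Type} : SD V Empty Unit → Option V × ZMod 4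
  | .x v i => (some v, i)
  | .f e _ => e.elim
  | .o _ i => (none, -i)

/-- the darts of the closure in the tangle -/
private def msFr {V : Type} : Option V × ZMod 4 → SD V Empty Unit
  | (some v, i) => .x v i
  | (none, i) => .o () (-i)

private theorem msTo_fr {V : Type} (d : Option V × ZMod 4) : msTo (msFr d) = d := by
  obtain ⟨_ | v, i⟩ := d
  · show (none, - -i) = _
    rw [neg_neg]
  · rfl

private theorem msFr_to {V : Type} (d : SD V Empty Unit) : msFr (msTo d) = d := by
  rcases d with ⟨v, i⟩ | ⟨e, i⟩ | ⟨⟨⟩, i⟩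
  · rfl
  · exact e.elim
  · show SD.o () (- -i) = _
    rw [neg_neg]

private theorem ms_close {V : Type} (α : Tg V) (d : Option V × ZMod 4) :
    closeA α d = msTo (α (msFr d)) := by
  obtain ⟨_ | v, i⟩ := d
  · rcases h : α (.o () (-i)) with ⟨w, j⟩ | ⟨e, j⟩ | ⟨a, j⟩
    · simp only [closeA, msFr, msTo, h]
    · exact e.elim
    · simp only [closeA, msFr, msTo, h]
  · rcases h : α (.x v i) with ⟨w, j⟩ | ⟨e, j⟩ | ⟨a, j⟩
    · simp only [closeA, msFr, msTo, h]
    · exact e.elim
    · simp only [closeA, msFr, msTo, h]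

private theorem ms_close_opn {V : Type} (κ : Option V × ZMod 4 → Option V × ZMod 4) :
    closeA (fun d => msFr (κ (msTo d))) = κ := by
  funext d
  rw [ms_close]
  simp only [msTo_fr]

private theorem ms_toX {V F : Type} (d : Option (V ⊕ F) × ZMod 4) : toX (ofX d) = d := by
  obtain ⟨_ | (v | X), i⟩ := d
  · show (none, - -i) = _
    rw [neg_neg]
  · rfl
  · rfl

namespace Tn

theorem PT.split {T : Tn} (hT : T.PT) {F : Type} [Fintype F] (M : F → Finset T.V)
    (hne : ∀ X, (M X).Nonempty) (h4 : ∀ X, cut (closeA T.α) (sm (M X)) = 4)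
    (hd : ∀ X Y v, v ∈ M X → v ∈ M Y → X = Y) :
    ∃ (V : Type) (_ : Fintype V) (αp : SD V F Unit → SD V F Unit) (β : F → Tn) (q : T.V → V ⊕ F),
      PMap (cls αp) ∧ (∀ X, (β X).PT) ∧ (∀ X, Fintype.card (β X).V = (M X).card) ∧
      (Tn.glue αp β).Iso T ∧ (∀ a, ∃! v, q v = inl a) ∧ (∀ X v, q v = inr X ↔ v ∈ M X) ∧
      ∀ B : Finset (Option (V ⊕ F)), cut (cls αp) B =
        cut (closeA T.α) (Finset.univ.filter (fun o => Option.map q o ∈ B)) := by
  have hp : PMap (closeA T.α) := hT
  -- the sites of the parent
  let V : Type := {v : T.V // ∀ X, v ∉ M X}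
  let q : T.V → V ⊕ F := fun v =>
    if h : ∃ X, v ∈ M X then inr h.choose else inl ⟨v, fun X hX => h ⟨X, hX⟩⟩
  have hqr : ∀ X v, q v = inr X ↔ v ∈ M X := by
    intro X v
    by_cases h : ∃ X, v ∈ M X
    · have h1 : q v = inr h.choose := dif_pos h
      rw [h1]
      constructor
      · intro h2
        rw [← inr_injective h2]
        exact h.choose_spec
      · intro h2
        rw [hd _ _ v h.choose_spec h2]
    · have h1 : q v = inl ⟨v, fun X hX => h ⟨X, hX⟩⟩ := dif_neg h
      rw [h1]
      constructor
      · intro h2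
        cases h2
      · intro h2
        exact absurd ⟨X, h2⟩ h
  have hql : ∀ (a : V) v, q v = inl a ↔ v = a.1 := by
    intro a v
    by_cases h : ∃ X, v ∈ M X
    · have h1 : q v = inr h.choose := dif_pos h
      rw [h1]
      constructor
      · intro h2
        cases h2
      · intro h2
        obtain ⟨X, hX⟩ := h
        rw [h2] at hX
        exact absurd hX (a.2 X)
    · have h1 : q v = inl ⟨v, fun X hX => h ⟨X, hX⟩⟩ := dif_neg h
      rw [h1]
      constructor
      · intro h2
        rw [← inl_injective h2]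
      · intro h2
        congr 1
        exact Subtype.ext h2
  let A : Option (V ⊕ F) → Finset (Option T.V) := fun z => Finset.univ.filter (fun o => Option.map q o = z)
  have hAm : ∀ z o, o ∈ A z ↔ Option.map q o = z := by
    intro z o
    simp only [A, Finset.mem_filter, Finset.mem_univ, true_and]
  have hA0 : A none = {none} := by
    ext o
    rw [hAm, Finset.mem_singleton]
    rcases o with _ | v <;> simp
  have hAl : ∀ a : V, A (some (inl a)) = {some a.1} := by
    intro a
    ext o
    rw [hAm, Finset.mem_singleton]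
    rcases o with _ | v
    · simp
    · simp only [Option.map_some, Option.some.injEq]
      exact hql a v
  have hAr : ∀ X : F, A (some (inr X)) = sm (M X) := by
    intro X
    ext o
    rw [hAm]
    rcases o with _ | v
    · simp [sm]
    · simp only [Option.map_some, Option.some.injEq, sm, Finset.mem_map, Function.Embedding.some_apply,
        exists_eq_right]
      exact hqr X v
  have hpart : ∀ o, ∃! z, o ∈ A z := by
    intro o
    refine ⟨Option.map q o, (hAm _ _).2 rfl, ?_⟩
    intro z hz
    exact ((hAm _ _).1 hz).symm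
  -- the boundaries
  have hbX : ∀ X, ∃ δ, Bd (closeA T.α) (sm (M X)) δ := by
    intro X
    refine hp.bd ?_ ?_ (h4 X)
    · obtain ⟨v, hv⟩ := hne X
      exact ⟨some v, by simp [sm, hv]⟩
    · intro h
      have h1 : (none : Option T.V) ∈ sm (M X) := by rw [h]; exact Finset.mem_univ _
      simp [sm] at h1
  choose dX hdX using hbX
  let δ : Option (V ⊕ F) → ZMod 4 → Option T.V × ZMod 4 := fun z i =>
    match z with
    | none => (none, i)
    | some (inl a) => (some a.1, i)
    | some (inr X) => dX X i
  have hb : ∀ z, Bd (closeA T.α) (A z) (δ z) := by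
    rintro (_ | (a | X))
    · rw [hA0]
      have h := hp.bd_single none 0
      simp only [add_zero] at h
      exact h
    · rw [hAl]
      have h := hp.bd_single (some a.1) 0
      simp only [add_zero] at h
      exact h
    · rw [hAr]
      exact hdX X
  obtain ⟨τ, hτ⟩ := exists_contr hp.inv hpart δ hb
  -- the children
  have hch : ∀ X, ∃ κ : Option {v // v ∈ M X} × ZMod 4 → Option {v // v ∈ M X} × ZMod 4,
      PMap κ ∧ (∀ v i w j, κ (some v, i) = (some w, j) → closeA T.α (some v.1, i) = (some w.1, j)) ∧
      (∀ v i j, κ (some v, i) = (none, j) → (some v.1, i) = dX X (-j)) ∧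
      ∀ i, ∃ v j, κ (none, i) = (some v, j) ∧ dX X (-i) = (some v.1, j) := by
    intro X
    let A' : Option {v // v ∈ M X} → Finset (Option T.V) := fun z =>
      match z with
      | none => (sm (M X))ᶜ
      | some v => {some v.1}
    let δ' : Option {v // v ∈ M X} → ZMod 4 → Option T.V × ZMod 4 := fun z i =>
      match z with
      | none => closeA T.α (dX X (0 - i))
      | some v => (some v.1, i)
    have hpart' : ∀ o, ∃! z, o ∈ A' z := by
      intro o
      by_cases h : o ∈ sm (M X)
      · obtain ⟨v, hv, rfl⟩ := Finset.mem_map.1 h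
        refine ⟨some ⟨v, hv⟩, Finset.mem_singleton_self _, ?_⟩
        rintro (_ | w) hw
        · exact absurd h (Finset.mem_compl.1 hw)
        · have h1 := Finset.mem_singleton.1 hw
          congr 1
          exact Subtype.ext (Option.some.inj h1).symm
      · refine ⟨none, Finset.mem_compl.2 h, ?_⟩
        rintro (_ | w) hw
        · rfl
        · exfalso
          have h1 := Finset.mem_singleton.1 hw
          apply h
          rw [h1]
          exact Finset.mem_map.2 ⟨w.1, w.2, rfl⟩
    have hb' : ∀ z, Bd (closeA T.α) (A' z) (δ' z) := by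
      rintro (_ | v)
      · exact (hdX X).compl hp.inv 0
      · have h := hp.bd_single (some v.1) 0
        simp only [add_zero] at h
        exact h
    obtain ⟨κ, hκ⟩ := exists_contr hp.inv hpart' δ' hb'
    have hcom := hκ.com
    refine ⟨κ, hκ.pmap hp ?_, ?_, ?_, ?_⟩
    · obtain ⟨v, hv⟩ := hne X
      have : Nonempty {v // v ∈ M X} := ⟨⟨v, hv⟩⟩
      rw [Fintype.card_option]
      have := Fintype.card_pos (α := {v // v ∈ M X})
      omega
    · intro v i w j h
      have h1 := hcom (some v, i)
      rw [h] at h1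
      exact h1
    · intro v i j h
      have h1 := hcom (some v, i)
      rw [h] at h1
      have h2 : closeA T.α (some v.1, i) = closeA T.α (dX X (0 - j)) := h1
      rw [zero_sub] at h2
      have h3 := congrArg (closeA T.α) h2
      rw [hp.inv, hp.inv] at h3
      exact h3
    · intro i
      have h1 := hcom (none, i)
      have h2 : closeA T.α (closeA T.α (dX X (0 - i))) = δ' (κ (none, i)).1 (κ (none, i)).2 := h1
      rw [hp.inv, zero_sub] at h2
      have h3 := ((hdX X).mem (dX X (-i))).2 ⟨_, rfl⟩
      rcases h4 : (κ (none, i)).1 with _ | v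
      · exfalso
        rw [h4] at h2
        have h5 := ((hb' none).mem (δ' none (κ (none, i)).2)).2 ⟨_, rfl⟩
        rw [← h2] at h5
        exact Finset.mem_compl.1 h5.1 h3.1
      · refine ⟨v, (κ (none, i)).2, Prod.ext h4 rfl, ?_⟩
        rw [h4] at h2
        exact h2
  choose κ hκP hκx hκo hκn using hch
  let β : F → Tn := fun X => ⟨{v // v ∈ M X}, inferInstance, fun d => msFr (κ X (msTo d))⟩
  let αp : SD V F Unit → SD V F Unit := fun d => ofX (τ (toX d))
  have hcls : cls αp = τ := by
    funext d
    show toX (ofX (τ (toX (ofX d)))) = τ d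
    rw [ms_toX, ms_toX]
  have hcom := hτ.com
  refine ⟨V, inferInstance, αp, β, q, ?_, ?_, ?_, ?_, ?_, hqr, ?_⟩
  · rw [hcls]
    refine hτ.pmap hp ?_
    have h2 := hp.two
    rw [Fintype.card_option] at h2
    have h3 : 0 < Fintype.card T.V := by omega
    obtain ⟨v⟩ := Fintype.card_pos_iff.1 h3
    have : Nonempty (V ⊕ F) := ⟨q v⟩
    rw [Fintype.card_option]
    have := Fintype.card_pos (α := V ⊕ F)
    omega
  · intro X
    show PMap (closeA (fun d => msFr (κ X (msTo d))))
    rw [ms_close_opn]
    exact hκP X
  · intro X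
    exact Fintype.card_coe _
  · -- the isomorphism
    let e0 : GV V (fun X => (β X).V) → T.V := fun
      | inl a => a.1
      | inr p => p.2.1
    have he0 : Function.Bijective e0 := by
      constructor
      · rintro (a | ⟨X, v⟩) (b | ⟨Y, w⟩) h
        · exact congrArg inl (Subtype.ext h)
        · exfalso
          have h' : a.1 = w.1 := h
          exact a.2 Y (by rw [h']; exact w.2)
        · exfalso
          have h' : v.1 = b.1 := h
          exact b.2 X (by rw [← h']; exact v.2)
        · have h' : v.1 = w.1 := h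
          have h2 : X = Y := hd X Y v.1 v.2 (by rw [h']; exact w.2)
          subst h2
          have h3 : v = w := Subtype.ext h'
          rw [h3]
      · intro v
        by_cases h : ∃ X, v ∈ M X
        · obtain ⟨X, hX⟩ := h
          exact ⟨inr ⟨X, ⟨v, hX⟩⟩, rfl⟩
        · exact ⟨inl ⟨v, fun X hX => h ⟨X, hX⟩⟩, rfl⟩
    refine ⟨Equiv.ofBijective e0 he0, fun _ => 0, ?_⟩
    have hinj : Function.Injective (msTo (V := T.V)) := fun a b h => by
      rw [← msFr_to a, h, msFr_to]
    have hto : ∀ d, msTo (T.α d) = closeA T.α (msTo d) := by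
      intro d
      rw [ms_close, msFr_to]
    have hinc : ∀ (d : SD (GV V fun X => (β X).V) Empty Unit) (e : SD V F Unit),
        msTo (rel e0 (fun _ => 0) 0 (incA (fun X => (β X).α) d e)) = δ (toX e).1 (toX e).2 := by
      rintro d (⟨a, i⟩ | ⟨X, i⟩ | ⟨a, i⟩)
      · show (some a.1, i + 0) = _
        rw [add_zero]
        rfl
      · obtain ⟨v, j, h1, h2⟩ := hκn X (-i)
        rw [neg_neg] at h2
        have h3 : (β X).α (.o () i) = .x v j := by
          show msFr (κ X (none, -i)) = _
          rw [h1]
          rfl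
        show msTo (rel e0 (fun _ => 0) 0 (dnA X d ((β X).α (.o () i)))) = dX X i
        rw [h3, h2]
        show (some v.1, j + 0) = _
        rw [add_zero]
      · show (none, -(i + 0)) = _
        rw [add_zero]
        rfl
    have hp1 : ∀ (d : SD (GV V fun X => (β X).V) Empty Unit) (e : SD V F Unit),
        msTo (rel e0 (fun _ => 0) 0 (incA (fun X => (β X).α) d (αp e))) =
          closeA T.α (δ (toX e).1 (toX e).2) := by
      intro d e
      rw [hinc]
      rw [hcom (toX e)]
      show δ (toX (ofX (τ (toX e)))).1 (toX (ofX (τ (toX e)))).2 = _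
      rw [ms_toX]
    intro d
    apply hinj
    rw [hto]
    show closeA T.α (msTo (rel e0 (fun _ => 0) 0 d)) = msTo (rel e0 (fun _ => 0) 0
      (glueA αp (fun X => (β X).α) d))
    rcases d with ⟨a | ⟨X, v⟩, i⟩ | ⟨e, i⟩ | ⟨⟨⟩, i⟩
    · show closeA T.α (some a.1, i + 0) = msTo (rel e0 (fun _ => 0) 0
        (incA (fun X => (β X).α) (.x (inl a) i) (αp (.x a i))))
      rw [hp1, add_zero]
      rfl
    · show closeA T.α (some v.1, i + 0) = msTo (rel e0 (fun _ => 0) 0
        (outA αp (fun X => (β X).α) X (.x (inr ⟨X, v⟩) i) ((β X).α (.x v i))))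
      rw [add_zero]
      rcases h : κ X (some v, i) with ⟨_ | w, j⟩
      · have h1 : (β X).α (.x v i) = .o () (-j) := by
          show msFr (κ X (some v, i)) = _
          rw [h]
          rfl
        rw [h1]
        show _ = msTo (rel e0 (fun _ => 0) 0
          (incA (fun X => (β X).α) (.x (inr ⟨X, v⟩) i) (αp (.f X (-j)))))
        rw [hp1, hκo X v i j h]
        rfl
      · have h1 : (β X).α (.x v i) = .x w j := by
          show msFr (κ X (some v, i)) = _
          rw [h]
          rfl
        rw [h1, hκx X v i w j h]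
        show _ = (some w.1, j + 0)
        rw [add_zero]
    · exact e.elim
    · show closeA T.α (none, -(i + 0)) = msTo (rel e0 (fun _ => 0) 0
        (incA (fun X => (β X).α) (.o () i) (αp (.o () i))))
      rw [hp1, add_zero]
      rfl
  · intro a
    exact ⟨a.1, (hql a a.1).2 rfl, fun v hv => (hql a v).1 hv⟩
  · intro B
    rw [hcls, hτ.cut_eq B]
    congr 1
    ext o
    simp only [Finset.mem_biUnion, Finset.mem_filter, Finset.mem_univ, true_and, hAm]
    constructor
    · rintro ⟨z, hz, rfl⟩
      exact hz
    · intro h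
      exact ⟨_, h, rfl⟩

theorem PT.eq_one {T : Tn} (hT : T.PT) (h1 : Fintype.card T.V = 1) : Tn.one.Iso T := by
  obtain ⟨v, hv⟩ := Fintype.card_eq_one_iff.1 h1
  have hp : PMap (closeA T.α) := hT
  have hn : ∀ i, ((closeA T.α) (none, i)).1 = some v := by
    intro i
    rcases ho : ((closeA T.α) (none, i)).1 with _ | w
    · exact absurd ho (hp.noloop (none, i))
    · rw [hv w]
  have hs : ∀ i, ((closeA T.α) (some v, i)).1 = none := by
    intro i
    rcases ho : ((closeA T.α) (some v, i)).1 with _ | w
    · rfl
    · rw [hv w] at ho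
      exact absurd ho (hp.noloop (some v, i))
  have hst : ∀ i, closeA T.α (none, i + 1) = pv (closeA T.α (none, i)) := by
    intro i
    obtain ⟨n, hn1, hn2⟩ := (hp.bd_single none 0).outw i
    simp only [add_zero] at hn1 hn2
    rcases n with _ | _ | n
    · exfalso
      have h2 := hn (i + 1)
      rw [← hn1] at h2
      exact absurd h2 (by simp)
    · rw [← hn1]
      rfl
    · exfalso
      refine hn2 2 (by omega) (by omega) ?_
      have h3 : fs (closeA T.α) (none, i) = (some v, (closeA T.α (none, i)).2 - 1) := by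
        show pv (closeA T.α (none, i)) = _
        unfold pv
        rw [hn i]
      show (fs (closeA T.α) (fs (closeA T.α) (none, i))).1 ∈ _
      rw [h3]
      show (pv (closeA T.α (some v, _))).1 ∈ _
      have h4 := hs ((closeA T.α (none, i)).2 - 1)
      simp only [pv, h4, Finset.mem_singleton]
  obtain ⟨c, hc⟩ : ∃ c, closeA T.α (none, 0) = (some v, c) :=
    ⟨_, Prod.ext (hn 0) rfl⟩
  have h1' : closeA T.α (none, 1) = (some v, c - 1) := by
    have := hst 0
    rw [hc, zero_add] at this
    exact this
  have h2' : closeA T.α (none, 2) = (some v, c - 1 - 1) := by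
    have := hst 1
    rw [h1'] at this
    exact this
  have h3' : closeA T.α (none, 3) = (some v, c - 1 - 1 - 1) := by
    have := hst 2
    rw [h2'] at this
    exact this
  have hall : ∀ i, closeA T.α (none, i) = (some v, c - i) := by
    intro i
    have hi : i = 0 ∨ i = 1 ∨ i = 2 ∨ i = 3 := by revert i; decide
    rcases hi with rfl | rfl | rfl | rfl
    · rw [hc, sub_zero]
    · exact h1'
    · rw [h2', sub_sub]; rfl
    · rw [h3', sub_sub, sub_sub]; rfl
  have hall' : ∀ i, closeA T.α (some v, c - i) = (none, i) := by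
    intro i
    rw [← hall i, hp.inv]
  have hO : ∀ j, T.α (.o () j) = .x v (c + j) := by
    intro j
    have h := hall (-j)
    rcases ho : T.α (.o () j) with ⟨w, k⟩ | ⟨e, _⟩ | ⟨⟨⟩, k⟩
    · rw [closeA, neg_neg, ho] at h
      simp only [Prod.mk.injEq, Option.some.injEq, sub_neg_eq_add] at h
      rw [h.1, h.2]
    · exact e.elim
    · rw [closeA, neg_neg, ho] at h
      simp at h
  have hX : ∀ j, T.α (.x v (c + j)) = .o () j := by
    intro j
    have h := hall' (-j)
    rw [sub_neg_eq_add] at h
    rcases ho : T.α (.x v (c + j)) with ⟨w, k⟩ | ⟨e, _⟩ | ⟨⟨⟩, k⟩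
    · rw [closeA, ho] at h
      simp at h
    · exact e.elim
    · rw [closeA, ho] at h
      simp only [Prod.mk.injEq, neg_inj, true_and] at h
      rw [h]
  refine ⟨⟨fun _ => v, fun _ => (), fun _ => rfl, fun w => (hv w).symm⟩, fun _ => c, ?_⟩
  rintro (⟨⟨⟩, i⟩ | ⟨e, _⟩ | ⟨⟨⟩, i⟩)
  · show T.α (.x v (i + c)) = .o () (i + 0)
    rw [add_comm i c, hX, add_zero]
  · exact e.elim
  · show T.α (.o () (i + 0)) = .x v (i + c)
    rw [add_zero, hO, add_comm]

end Tn

end SN78
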