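import Pool.Agent.SN78.Setup

/-!
# SN78 module OPEN: validity is an open condition

All conditions of `Pic.Valid` are finitely many strict inequalities between continuous functions of
the positions of stick ends (`dt` is a polynomial; `Sep` is an existential over a functional `l`
which can be kept).  The conditions only use positions at stick ends (`IsEnd`): `P.ed v i` is an end
by `Ok.ed_end`, and `P.opp e` is an end if `e` is one (`opp_end`).
-/

namespace SN78

open Sum Filter Topology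

variable {V N F O : Type}

theorem opp_end {P : Pic V N F O} (hP : P.Ok) {e : Bead V N F O} (he : IsEnd e) :
    IsEnd (P.opp e) := by
  unfold Pic.opp
  rcases h : P.adj e with (⟨v, i⟩ | ⟨a, i⟩ | ⟨a, i⟩) | ⟨a, c⟩
  · exact hP.ed_end v (i + 2)
  · trivial
  · trivial
  · trivial

/-- Proof: if `adj e = x v i` then `e = adj (x v i) = ed v i` by `ed_e`, so
`opp e = ed v (i + 2)` and `opp (opp e) = opp (ed v (i + 2)) = ed v (i + 4) = e`.  Otherwise
`opp e = adj e =: e'` is an end, `adj e' = e` is an end, so `opp e' = e`. -/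
theorem opp_opp {P : Pic V N F O} (hP : P.Ok) {e : Bead V N F O} (he : IsEnd e) :
    P.opp (P.opp e) = e := by
  have key : ∀ b : Bead V N F O, IsEnd b → P.adj e = b → P.opp (P.opp e) = e := by
    intro b hb h
    have h1 : P.opp e = b := by
      unfold Pic.opp
      rw [h]
      rcases b with (⟨v, i⟩ | ⟨a, i⟩ | ⟨a, i⟩) | ⟨a, c⟩
      · exact hb.elim
      · rfl
      · rfl
      · rfl
    have h2 : P.adj b = e := by rw [← h, hP.adj_adj]
    rw [h1]
    unfold Pic.opp
    rw [h2]
    rcases e with (⟨v, i⟩ | ⟨a, i⟩ | ⟨a, i⟩) | ⟨a, c⟩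
    · exact he.elim
    · rfl
    · rfl
    · rfl
  rcases h : P.adj e with (⟨v, i⟩ | ⟨a, i⟩ | ⟨a, i⟩) | ⟨a, c⟩
  · have h1 : P.opp e = P.ed v (i + 2) := by
      unfold Pic.opp
      rw [h]
    have h2 : P.adj (.inl (.x v i)) = e := by rw [← h, hP.adj_adj]
    have h3 : P.ed v i = e := by
      rw [hP.ed_e v i (by rw [h2]; exact he), h2]
    rw [h1, hP.opp_ed]
    have h4 : i + 2 + 2 = i := by
      rw [add_assoc]
      have : (2 + 2 : ZMod 4) = 0 := by decide
      rw [this, add_zero]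
    rw [h4, h3]
  · exact key _ (by trivial) h
  · exact key _ (by trivial) h
  · exact key _ (by trivial) h

theorem continuous_dt {ι : Type} {l : Filter ι} {a b c : ι → H} {a₀ b₀ c₀ : H}
    (ha : Tendsto a l (𝓝 a₀)) (hb : Tendsto b l (𝓝 b₀)) (hc : Tendsto c l (𝓝 c₀)) :
    Tendsto (fun s => dt (a s) (b s) (c s)) l (𝓝 (dt a₀ b₀ c₀)) := by
  have ha' := tendsto_pi_nhds.1 ha
  have hb' := tendsto_pi_nhds.1 hb
  have hc' := tendsto_pi_nhds.1 hc
  unfold dt
  exact (((ha' 0).mul (((hb' 1).mul (hc' 2)).sub ((hb' 2).mul (hc' 1)))).sub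
    ((ha' 1).mul (((hb' 0).mul (hc' 2)).sub ((hb' 2).mul (hc' 0))))).add
    ((ha' 2).mul (((hb' 0).mul (hc' 1)).sub ((hb' 1).mul (hc' 0))))

private theorem continuous_dot {ι : Type} {l : Filter ι} {a : ι → H} {a₀ : H} (w : H)
    (ha : Tendsto a l (𝓝 a₀)) : Tendsto (fun s => dot w (a s)) l (𝓝 (dot w a₀)) := by
  have ha' := tendsto_pi_nhds.1 ha
  unfold dot
  exact (((ha' 0).const_mul (w 0)).add ((ha' 1).const_mul (w 1))).add ((ha' 2).const_mul (w 2))

private theorem sep_eventually {ι : Type} {l : Filter ι} {a b c d : ι → H} {a₀ b₀ c₀ d₀ : H}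
    (ha : Tendsto a l (𝓝 a₀)) (hb : Tendsto b l (𝓝 b₀)) (hc : Tendsto c l (𝓝 c₀))
    (hd : Tendsto d l (𝓝 d₀)) (h : Sep a₀ b₀ c₀ d₀) :
    ∀ᶠ s in l, Sep (a s) (b s) (c s) (d s) := by
  obtain ⟨w, h1, h2, h3, h4⟩ := h
  filter_upwards [(continuous_dot w ha).eventually (lt_mem_nhds h1),
    (continuous_dot w hb).eventually (lt_mem_nhds h2),
    (continuous_dot w hc).eventually (gt_mem_nhds h3),
    (continuous_dot w hd).eventually (gt_mem_nhds h4)] with s g1 g2 g3 g4
  exact ⟨w, g1, g2, g3, g4⟩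

private def sdEquiv : SD V F O ≃ (V × ZMod 4) ⊕ (F × ZMod 4) ⊕ (O × ZMod 4) where
  toFun
    | .x v i => .inl (v, i)
    | .f a i => .inr (.inl (a, i))
    | .o a i => .inr (.inr (a, i))
  invFun
    | .inl (v, i) => .x v i
    | .inr (.inl (a, i)) => .f a i
    | .inr (.inr (a, i)) => .o a i
  left_inv := by rintro (⟨v, i⟩ | ⟨a, i⟩ | ⟨a, i⟩) <;> rfl
  right_inv := by rintro (⟨v, i⟩ | ⟨a, i⟩ | ⟨a, i⟩) <;> rfl

theorem Pic.Valid.eventually [Finite V] [Finite N] [Finite F] [Finite O] {P : Pic V N F O}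
    (hP : P.Ok) {sh : O → ZMod 4 → Prop} {p : Bead V N F O → H} (h : P.Valid sh p)
    {ι : Type} {l : Filter ι} {q : ι → Bead V N F O → H}
    (hq : ∀ b, IsEnd b → Tendsto (fun s => q s b) l (𝓝 (p b))) :
    ∀ᶠ s in l, P.Valid sh (q s) := by
  have : Finite (ZMod 4) := inferInstanceAs (Finite (Fin 4))
  have : Finite (SD V F O) := Finite.of_equiv _ (sdEquiv (V := V) (F := F) (O := O)).symm
  have : Finite (Bead V N F O) := inferInstance
  have hk : ∀ v i, Tendsto (fun s => P.kap (q s) v i) l (𝓝 (P.kap p v i)) := fun v i =>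
    continuous_dt (hq _ (hP.ed_end _ _)) (hq _ (hP.ed_end _ _)) (hq _ (hP.ed_end _ _))
  have hcr : ∀ᶠ s in l, ∀ v i, 0 < P.kap (q s) v i := by
    refine eventually_all.2 fun v => eventually_all.2 fun i => ?_
    exact (hk v i).eventually (lt_mem_nhds (h.cr v i))
  have hord : ∀ᶠ s in l, ∀ v i w j, P.adj (.inl (.x v i)) = .inl (.x w j) →
      P.kap (q s) v (i + 2) * P.kap (q s) w (j + 2) < P.kap (q s) w j * P.kap (q s) v i := by
    refine eventually_all.2 fun v => eventually_all.2 fun i => eventually_all.2 fun w =>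
      eventually_all.2 fun j => eventually_imp_distrib_left.2 fun hh => ?_
    exact ((hk v (i + 2)).mul (hk w (j + 2))).eventually_lt ((hk w j).mul (hk v i))
      (h.ord v i w j hh)
  have hbend : ∀ᶠ s in l, ∀ a, dt (q s (.inr (a, true))) (q s (P.opp (.inr (a, true))))
      (q s (P.opp (.inr (a, false)))) ≠ 0 := by
    refine eventually_all.2 fun a => ?_
    exact (continuous_dt (hq _ (by trivial)) (hq _ (opp_end hP (by trivial)))
      (hq _ (opp_end hP (by trivial)))).eventually_ne (h.bend a)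
  have hfat : ∀ᶠ s in l, ∀ a i, 0 < dt (q s (.inl (.f a i))) (q s (P.opp (.inl (.f a i))))
      (q s (P.opp (.inl (.f a (i + 1))))) := by
    refine eventually_all.2 fun a => eventually_all.2 fun i => ?_
    exact (continuous_dt (hq _ (by trivial)) (hq _ (opp_end hP (by trivial)))
      (hq _ (opp_end hP (by trivial)))).eventually (lt_mem_nhds (h.fat a i))
  have hshr : ∀ᶠ s in l, ∀ a i, sh a i → 0 < dt (q s (.inl (.o a i)))
      (q s (P.opp (.inl (.o a (i + 1))))) (q s (P.opp (.inl (.o a i)))) := by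
    refine eventually_all.2 fun a => eventually_all.2 fun i =>
      eventually_imp_distrib_left.2 fun hh => ?_
    exact (continuous_dt (hq _ (by trivial)) (hq _ (opp_end hP (by trivial)))
      (hq _ (opp_end hP (by trivial)))).eventually (lt_mem_nhds (h.shr a i hh))
  have hsep : ∀ᶠ s in l, ∀ e e', IsEnd e → IsEnd e' → P.Apart sh e e' →
      Sep (q s e) (q s (P.opp e)) (q s e') (q s (P.opp e')) := by
    refine eventually_all.2 fun e => eventually_all.2 fun e' =>
      eventually_imp_distrib_left.2 fun he => eventually_imp_distrib_left.2 fun he' =>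
      eventually_imp_distrib_left.2 fun hh => ?_
    exact sep_eventually (hq _ he) (hq _ (opp_end hP he)) (hq _ he') (hq _ (opp_end hP he'))
      (h.sep e e' he he' hh)
  filter_upwards [hcr, hord, hbend, hfat, hshr, hsep] with s g1 g2 g3 g4 g5 g6
  exact ⟨g1, g2, g3, g4, g5, g6⟩

end SN78
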