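import Mathlib

/-!
# SN78 module RCHAIN: an abstract chain

`R d e`: `e` is the next element after `d`.  By `h3` there is at most one element without successor,
each element has at most one predecessor (`h2`), and `x` decreases along `R` (`h1`).  Induction on the
number of elements: if `E` is nonempty there is an element `z` without successor (take `x z` minimal).
Let `E' = E \ {z}`.  If `E'` is nonempty some element of `E'` has no successor in `E'` (minimal `x`), so it
has `z` as a successor (`h3`); so it is the unique predecessor of `z`; `h3` holds for `E'`.  Every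
element of `E'` reaches `z`, so `x z < x d` for all `d ∈ E'` (each `d ≠ z` has a successor, with smaller `x`;
iterate).  So `x` is injective.  For the second statement: let `R d e`, `x e < x g < x d`.  Then `e ≠ z`
or `e = z`; if `e = z`, `d` is the predecessor of `z`, which is the element without successor of `E'`, so
its `x` is minimal on `E'`, contradiction to `g ∈ E'`, `x g < x d`; if `e ≠ z` then `g ≠ z` and `d ≠ z` and
one uses the induction hypothesis.
-/

namespace SN78

theorem chain_lemma {ι : Type} (E : Finset ι) (x : ι → ℝ) (R : ι → ι → Prop)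
    (h1 : ∀ d ∈ E, ∀ e ∈ E, R d e → x e < x d)
    (h2 : ∀ d ∈ E, ∀ d' ∈ E, ∀ e ∈ E, R d e → R d' e → d = d')
    (h3 : ∀ d ∈ E, ∀ d' ∈ E, (∀ e ∈ E, ¬ R d e) → (∀ e ∈ E, ¬ R d' e) → d = d') :
    (∀ d ∈ E, ∀ e ∈ E, x d = x e → d = e) ∧
      ∀ d ∈ E, ∀ e ∈ E, ∀ g ∈ E, R d e → ¬ (x e < x g ∧ x g < x d) := by
  classical
  induction hn : E.card using Nat.strong_induction_on generalizing E with
  | _ n ih =>
    rcases E.eq_empty_or_nonempty with rfl | hE
    · simp
    obtain ⟨z, hz, hmin⟩ := E.exists_min_image x hE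
    have hzs : ∀ e ∈ E, ¬ R z e := fun e he hr =>
      absurd (h1 z hz e he hr) (not_lt.mpr (hmin e he))
    have hsuc : ∀ d ∈ E, d ≠ z → ∃ e ∈ E, R d e := by
      intro d hd hdz
      by_contra hc
      push Not at hc
      exact hdz (h3 d hd z hz hc hzs)
    have hlt : ∀ d ∈ E, d ≠ z → x z < x d := by
      intro d hd hdz
      obtain ⟨e, he, hr⟩ := hsuc d hd hdz
      exact lt_of_le_of_lt (hmin e he) (h1 d hd e he hr)
    have hmem : ∀ {d}, d ∈ E.erase z → d ∈ E := fun h => Finset.mem_of_mem_erase h
    have hne : ∀ {d}, d ∈ E.erase z → d ≠ z := fun h => Finset.ne_of_mem_erase h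
    have hpred : ∀ d ∈ E.erase z, (∀ e ∈ E.erase z, ¬ R d e) → R d z := by
      intro d hd hc
      obtain ⟨e, he, hr⟩ := hsuc d (hmem hd) (hne hd)
      by_cases hez : e = z
      · rw [← hez]; exact hr
      · exact absurd hr (hc e (Finset.mem_erase.mpr ⟨hez, he⟩))
    have hih := ih (E.erase z).card
      (by rw [← hn]; exact Finset.card_erase_lt_of_mem hz) (E.erase z)
      (fun d hd e he => h1 d (hmem hd) e (hmem he))
      (fun d hd d' hd' e he => h2 d (hmem hd) d' (hmem hd') e (hmem he))
      (fun d hd d' hd' hc hc' =>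
        h2 d (hmem hd) d' (hmem hd') z hz (hpred d hd hc) (hpred d' hd' hc'))
      rfl
    obtain ⟨i1, i2⟩ := hih
    refine ⟨?_, ?_⟩
    · intro d hd e he hx
      by_cases hdz : d = z
      · by_cases hez : e = z
        · rw [hdz, hez]
        · have := hlt e he hez
          rw [hdz] at hx
          exact absurd hx this.ne
      · by_cases hez : e = z
        · have := hlt d hd hdz
          rw [hez] at hx
          exact absurd hx this.ne'
        · exact i1 d (Finset.mem_erase.mpr ⟨hdz, hd⟩) e (Finset.mem_erase.mpr ⟨hez, he⟩) hx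
    · intro d hd e he g hg hr hx
      obtain ⟨hx1, hx2⟩ := hx
      have hgz : g ≠ z := fun h => absurd (lt_of_lt_of_le hx1 (h ▸ hmin e he)) (lt_irrefl _)
      have hdz : d ≠ z := fun h => hzs e he (h ▸ hr)
      have hd' : d ∈ E.erase z := Finset.mem_erase.mpr ⟨hdz, hd⟩
      have hg' : g ∈ E.erase z := Finset.mem_erase.mpr ⟨hgz, hg⟩
      by_cases hez : e = z
      · obtain ⟨z', hz', hmin'⟩ := (E.erase z).exists_min_image x ⟨d, hd'⟩
        have hzs' : ∀ e ∈ E.erase z, ¬ R z' e := fun e he hr =>
          absurd (h1 z' (hmem hz') e (hmem he) hr) (not_lt.mpr (hmin' e he))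
        have h5 : d = z' := h2 d hd z' (hmem hz') z hz (hez ▸ hr) (hpred z' hz' hzs')
        have h6 := hmin' g hg'
        rw [← h5] at h6
        exact absurd hx2 (not_lt.mpr h6)
      · exact i2 d hd' e (Finset.mem_erase.mpr ⟨hez, he⟩) g hg' hr ⟨hx1, hx2⟩

end SN78
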