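import Pool.Agent.SN78.RSep

/-!
# SN78 module RCLO: closed sets of sites contain the port sites; the walk of a frame

`closed`.  Write `t₀, t₁, t₂` for the port sites.  Suppose not all of them are in `M`.  `M` has at
least two elements (`noloop`: for `v ∈ M` also `(α (v, s v + 2)).1 ∈ M`).  The complement contains `inf`
and a port site, so `cut M ≥ 6` and by `balance` at least three darts with `o = true` leave `M`.
For `v ∈ M` different from `t₀, t₁, t₂` no dart with `o = true` leaves `M` (`st_iff`: these are `(v, s v)`,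
`(v, s v + 2)`); for `t₀, t₂` only the port dart does; `t₁` has two darts with `o = true`, they are not
on its strand.  So `t₁ ∈ M`, exactly one of `t₀, t₂`, say `t` is in `M`, and both darts of `t₁` with
`o = true` leave `M`; `cut M = 6`.  The port dart of `t₁` leaves `M`, too.  So `M' = M \ {t₁}` has
`cut M' = 6 - 3 + 1 = 4`; its complement contains `inf, t₁`, so `M'` has one element, `M' = {t}`, and the
neighbour `(α (t₁, s t₁ + 2)).1` of `t₁` in `M` is `t`: contradiction to `star_ne`.

`walk`: `ainf`, `binf`: `a_inf`, `b_inf`; `ab`: `simple`; `sep`: `Frame.sep` with `st_iff`.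
-/

namespace SN78

variable {X : Type} [Fintype X] {α : X × ZMod 4 → X × ZMod 4} {inf : X}
  {o : X × ZMod 4 → Bool} {s : X → ZMod 4}

private theorem rclo_card {P : X × ZMod 4 → Prop} (L : Finset (X × ZMod 4))
    (h : ∀ d, P d → d ∈ L) : Nat.card {d // P d} ≤ L.card := by
  classical
  rw [Nat.card_eq_fintype_card, Fintype.card_subtype]
  refine Finset.card_le_card fun d hd => h d ?_
  simpa using hd

private theorem rclo_z (k : ZMod 4) (hk : k ≠ 3) : k = 0 ∨ k = 1 ∨ k = 2 := by
  revert k; decide

omit [Fintype X] in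
private theorem rclo_nst {d : X × ZMod 4} (h : ¬ St s d) :
    d = (d.1, s d.1 + 1) ∨ d = (d.1, s d.1 + 3) := by
  obtain ⟨x, i⟩ := d
  unfold St at h
  simp only at h ⊢
  generalize s x = c at h ⊢
  have : i = c + 1 ∨ i = c + 3 := by
    revert i c; decide
  rcases this with rfl | rfl
  · exact Or.inl rfl
  · exact Or.inr rfl

theorem Frame.closed (F : Frame α inf o s) (M : Finset X) (hM : M.Nonempty) (hinf : inf ∉ M)
    (hb : ∀ v ∈ M, (α (v, s v + 2)).1 ∈ M)
    (ha : ∀ v ∈ M, (∀ k : ZMod 4, k ≠ 3 → v ≠ tp α inf k) → (α (v, s v)).1 ∈ M)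
    {k : ZMod 4} (hk : k ≠ 3) : tp α inf k ∈ M := by
  classical
  by_contra hkM
  have hne : ∀ v ∈ M, v ≠ inf := fun v hv e => hinf (e ▸ hv)
  -- the darts which leave `M`
  have hout : ∀ d : X × ZMod 4, d.1 ∈ M → (α d).1 ∉ M → o d = true → d.1 ≠ tp α inf 1 →
      ∃ l : ZMod 4, (l = 0 ∨ l = 2) ∧ tp α inf l ∈ M ∧ d = (tp α inf l, s (tp α inf l)) := by
    intro d h1 h2 h3 h4
    have h5 : St s d := (F.st_iff (hne _ h1) h4).2 h3
    rcases h5 with h5 | h5
    · have e1 : d = (d.1, s d.1) := Prod.ext rfl h5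
      by_contra hcon
      apply h2
      rw [e1]
      refine ha _ h1 fun l hl hl' => ?_
      rcases rclo_z l hl with rfl | rfl | rfl
      · exact hcon ⟨0, Or.inl rfl, hl' ▸ h1, by rw [e1, hl']⟩
      · exact h4 hl'
      · exact hcon ⟨2, Or.inr rfl, hl' ▸ h1, by rw [e1, hl']⟩
    · exfalso
      apply h2
      have e1 : d = (d.1, s d.1 + 2) := Prod.ext rfl h5
      rw [e1]
      exact hb _ h1
  have hcard2 : 2 ≤ M.card := by
    obtain ⟨v, hv⟩ := hM
    have h1 : (α (v, s v + 2)).1 ≠ v := F.rig.noloop (v, s v + 2)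
    have h2 : ({(α (v, s v + 2)).1, v} : Finset X) ⊆ M := by
      intro x hx
      simp only [Finset.mem_insert, Finset.mem_singleton] at hx
      rcases hx with rfl | rfl
      · exact hb _ hv
      · exact hv
    have := Finset.card_le_card h2
    rwa [Finset.card_pair h1] at this
  have hcompl : ∀ (A : Finset X) (x : X), inf ∉ A → x ≠ inf → x ∉ A →
      A.card + 2 ≤ Fintype.card X := by
    intro A x h1 h2 h3
    have h4 : (insert x (insert inf A)).card = A.card + 2 := by
      rw [Finset.card_insert_of_notMem, Finset.card_insert_of_notMem h1]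
      simp only [Finset.mem_insert, not_or]
      exact ⟨h2, h3⟩
    rw [← h4]
    exact Finset.card_le_univ _
  have hcut : 6 ≤ cut α M := F.rig.cut6 M hcard2 (hcompl M _ hinf (F.rig.tp_ne inf k) hkM)
  rw [F.rig.balance F.onx F.oal M] at hcut
  -- `t₁ ∈ M`
  have ht1 : tp α inf 1 ∈ M := by
    by_contra h1
    have := rclo_card (P := fun d : X × ZMod 4 => d.1 ∈ M ∧ (α d).1 ∉ M ∧ o d = true)
      {(tp α inf 0, s (tp α inf 0)), (tp α inf 2, s (tp α inf 2))} (by
        rintro d ⟨h2, h3, h4⟩
        obtain ⟨l, hl, _, rfl⟩ := hout d h2 h3 h4 fun e => h1 (e ▸ h2)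
        rcases hl with rfl | rfl <;> simp)
    have h5 := this.trans Finset.card_le_two
    omega
  -- one of the other two sites is in `M`, the other one is not
  obtain ⟨t, ht, htM⟩ : ∃ t : ZMod 4, (t = 0 ∨ t = 2) ∧ ∀ l : ZMod 4, (l = 0 ∨ l = 2) →
      tp α inf l ∈ M → l = t := by
    rcases rclo_z k hk with rfl | rfl | rfl
    · refine ⟨2, Or.inr rfl, ?_⟩
      rintro l (rfl | rfl) h
      · exact absurd h hkM
      · rfl
    · exact absurd ht1 hkM
    · refine ⟨0, Or.inl rfl, ?_⟩
      rintro l (rfl | rfl) h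
      · rfl
      · exact absurd h hkM
  have htM' : tp α inf t ∈ M := by
    by_contra h1
    have := rclo_card (P := fun d : X × ZMod 4 => d.1 ∈ M ∧ (α d).1 ∉ M ∧ o d = true)
      {(tp α inf 1, s (tp α inf 1) + 1), (tp α inf 1, s (tp α inf 1) + 3)} (by
        rintro d ⟨h2, h3, h4⟩
        by_cases h5 : d.1 = tp α inf 1
        · have h6 : ¬ St s d := by
            rw [F.st_iff1 h5, h4]; simp
          rcases rclo_nst h6 with h7 | h7
          · rw [h5] at h7; simp [← h7]
          · rw [h5] at h7; simp [← h7]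
        · obtain ⟨l, hl, hl2, rfl⟩ := hout d h2 h3 h4 h5
          have := htM l hl hl2
          subst this
          exact absurd hl2 h1)
    have h5 := this.trans Finset.card_le_two
    omega
  have htne : tp α inf t ≠ tp α inf 1 := by
    intro e
    have := F.rig.tp_inj inf e
    rcases ht with rfl | rfl
    · exact absurd this (by decide)
    · exact absurd this (by decide)
  -- `M' = M \ {t₁}`
  have hinf' : inf ∉ M.erase (tp α inf 1) := fun h => hinf (Finset.mem_of_mem_erase h)
  have hcut' : cut α (M.erase (tp α inf 1)) ≤ 4 := by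
    rw [F.rig.balance F.onx F.oal]
    have := rclo_card (P := fun d : X × ZMod 4 => d.1 ∈ M.erase (tp α inf 1) ∧
        (α d).1 ∉ M.erase (tp α inf 1) ∧ o d = true)
      {(tp α inf t, s (tp α inf t)), α (tp α inf 1, s (tp α inf 1) + 2)} (by
        rintro d ⟨h2, h3, h4⟩
        rw [Finset.mem_erase] at h2 h3
        by_cases h5 : (α d).1 = tp α inf 1
        · have h6 : St s (α d) := by
            rw [F.st_iff1 h5, F.oal, h4]; rfl
          have h7 : d = α (α d) := (F.rig.inv d).symm
          rcases h6 with h6 | h6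
          · exfalso
            have h8 : α d = α (inf, -1) := by
              rw [F.port_eq (k := 1) (by decide)]
              exact Prod.ext h5 (by rw [h6, h5])
            rw [h8, F.rig.inv] at h7
            exact hinf (by rw [h7] at h2; exact h2.2)
          · have h8 : α d = (tp α inf 1, s (tp α inf 1) + 2) := Prod.ext h5 (by rw [h6, h5])
            rw [h8] at h7
            rw [h7]
            simp
        · obtain ⟨l, hl, hl2, rfl⟩ := hout d h2.2 (fun h => h3 ⟨h5, h⟩) h4 h2.1
          have := htM l hl hl2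
          subst this
          simp)
    have h5 := this.trans Finset.card_le_two
    omega
  have hcard' : (M.erase (tp α inf 1)).card < 2 := by
    by_contra h1
    have := F.rig.cut6 (M.erase (tp α inf 1)) (not_lt.1 h1)
      (hcompl _ (tp α inf 1) hinf' (F.rig.tp_ne inf 1) (Finset.notMem_erase _ _))
    omega
  have h1 : tp α inf t ∈ M.erase (tp α inf 1) := Finset.mem_erase.2 ⟨htne, htM'⟩
  have h2 : (α (tp α inf 1, s (tp α inf 1) + 2)).1 ∈ M.erase (tp α inf 1) :=
    Finset.mem_erase.2 ⟨F.rig.noloop _, hb _ ht1⟩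
  have h3 : (M.erase (tp α inf 1)).card ≤ 1 := by omega
  exact F.star_ne t (Finset.card_le_one.1 h3 _ h2 _ h1)

theorem Frame.walk (F : Frame α inf o s) :
    Walk inf ![tp α inf 0, tp α inf 1, tp α inf 2] (fun v => (α (v, s v)).1)
      (fun v => (α (v, s v + 2)).1) := by
  have hport : ∀ v, (∀ k : Fin 3, v ≠ ![tp α inf 0, tp α inf 1, tp α inf 2] k) →
      ∀ k : ZMod 4, k ≠ 3 → v ≠ tp α inf k := by
    intro v h k hk
    rcases rclo_z k hk with rfl | rfl | rfl
    · exact h 0
    · exact h 1
    · exact h 2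
  have hport' : ∀ v, (∀ k : ZMod 4, k ≠ 3 → v ≠ tp α inf k) →
      ∀ k : Fin 3, v ≠ ![tp α inf 0, tp α inf 1, tp α inf 2] k := by
    intro v h k
    fin_cases k
    · exact h 0 (by decide)
    · exact h 1 (by decide)
    · exact h 2 (by decide)
  refine ⟨?_, ?_, ?_, ?_, ?_, ?_, ?_, ?_, ?_⟩
  · intro i j hij
    have key : ∀ {k l : ZMod 4}, k ≠ l → tp α inf k ≠ tp α inf l :=
      fun h e => h (F.rig.tp_inj inf e)
    have h01 : tp α inf 0 ≠ tp α inf 1 := key (by decide)
    have h02 : tp α inf 0 ≠ tp α inf 2 := key (by decide)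
    have h12 : tp α inf 1 ≠ tp α inf 2 := key (by decide)
    fin_cases i <;> fin_cases j <;> simp at hij ⊢
    · exact h01 hij
    · exact h02 hij
    · exact h01 hij.symm
    · exact h12 hij
    · exact h02 hij.symm
    · exact h12 hij.symm
  · intro k
    fin_cases k
    · exact F.rig.tp_ne inf 0
    · exact F.rig.tp_ne inf 1
    · exact F.rig.tp_ne inf 2
  · intro v hv h e
    obtain ⟨k, hk, hk'⟩ := (F.a_inf hv).1 e
    exact hport v h k hk hk'
  · intro v hv
    exact F.b_inf hv
  · intro v _ e
    have h1 := F.rig.simple (d := (v, s v)) (d' := (v, s v + 2)) rfl e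
    have h2 : s v = s v + 2 := congrArg Prod.snd h1
    have h3 : (2 : ZMod 4) = 0 := by simpa using h2.symm
    exact absurd h3 (by decide)
  · intro v _
    exact F.rig.noloop (v, s v)
  · intro v _
    exact F.rig.noloop (v, s v + 2)
  · intro M h1 h2 h3 h4 k
    have h5 : ∀ k : ZMod 4, k ≠ 3 → tp α inf k ∈ M := fun k hk =>
      F.closed M h1 h2 h3 (fun v hv hv' => h4 v hv (hport' v hv')) hk
    fin_cases k
    · exact h5 0 (by decide)
    · exact h5 1 (by decide)
    · exact h5 2 (by decide)
  · intro S Y h1 h2 h3 h4 h5 h6 h7 h8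
    have h9 : ∀ k : ZMod 4, k ≠ 3 → tp α inf k ∉ S := by
      intro k hk
      rcases rclo_z k hk with rfl | rfl | rfl
      · exact h6 0
      · exact h6 1
      · exact h6 2
    refine F.sep S Y h1 h2 h3 h4 h5 h9 ?_
    intro d hd ho
    have e1 : d.1 ≠ inf := fun e => h4 (e ▸ hd)
    have e2 : d.1 ≠ tp α inf 1 := fun e => h9 1 (by decide) (e ▸ hd)
    rcases (F.st_iff e1 e2).2 ho with h | h
    · have e3 : d = (d.1, s d.1) := Prod.ext rfl h
      rw [e3]
      exact h7 _ hd
    · have e3 : d = (d.1, s d.1 + 2) := Prod.ext rfl h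
      rw [e3]
      exact h8 _ hd

end SN78
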