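import Pool.Agent.SN78.RSgn

/-!
# SN78 module RCONV: the faces are convex

Let `hp : Conv` (all corners positive).  For a dart `d` let `l0 x = d2 (dr d) x` (as a functional, `l0 2 = 0`) and
`L z = dt (P (bs d)) (dr d) z = dot l0 z - z 2 * dot l0 (P (bs d))` (`dt_eq_d2`-like).  `L` vanishes at `P u` for
both ends `u ≠ inf` of `d`, and `L D = dot l0 D` for flat `D`.  All sites and far points of the face to the left
of `d` satisfy `L ≥ 0`, with `>` for sites which are not ends of `d`.

Recall `(fs α e).1 = (α e).1`, and `d2 (dr e) (dr (fs α e)) > 0` if `(fs α e).1 ≠ inf` (`turn`, `hp`).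

(A) The face of `d` does not contain `inf`.  Let `N` be the period, `y n = (fs α)^[n] d`.
`dot l0 (dr (y 1)) > 0`, `dot l0 (dr (y (N - 1))) < 0` (so `N ≥ 3`).  There are no `1 ≤ j < k ≤ N - 1` with
`dot l0 (dr (y j)) < 0 < dot l0 (dr (y k))`: otherwise `1 < j < k < N - 1`, and `exists_gen` near `l0` (with
`g = y 1`) contradicts `patC` (signs `+, -, +, -` at `1 < j < k < N - 1`; shift the indices by one: apply it to
the dart `y 1` or use `i = 1`, `m = N - 1 < 1 + N`).
`P (y m).1 = P (y 1).1 + ∑ 1 ≤ r < m, dr (y r) = P (y 0).1 - ∑ m ≤ r < N, dr (y r)`.  For `2 ≤ m ≤ N - 1`: if all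
`dot l0 (dr (y r)) ≥ 0` for `r < m` then `L (P (y m).1) ≥ dot l0 (dr (y 1)) > 0`; otherwise all
`dot l0 (dr (y r)) ≤ 0` for `r ≥ m`, and `L (P (y m).1) ≥ - dot l0 (dr (y (N - 1))) > 0`.  For `m = 0, 1` the site is an
end of `d`.

(B) The face contains `inf`.  By `exists_back` `d = Y j`, `Y n = (fs α)^[n] (inf, i)`, no `inf` for `0 < n ≤ j`.
Let `N > j` be minimal with `(Y N).1 = inf`; then `Y N = (inf, i)` (`inf_once`), and all darts of the face are
`Y 0, ..., Y (N - 1)`; only `Y 0` is at `inf`.
 * `j < m < N`: `0 ≤ dot l0 (dr (Y m))`, strictly for `m = j + 1`.  If it is negative for `m > j + 1`: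
   `exists_gen` with `g = α d` (`dot l (dr d) < 0`) gives the signs `-, +, -` at `j < j + 1 < m`: contradiction to
   `patL'`.
 * `m < j`: `dot l0 (dr (Y m)) ≤ 0`, strictly for `m = j - 1`.  If it is positive for `m < j - 1`:
   `exists_gen` with `g = d` gives `+, -, +` at `m < j - 1 < j`: contradiction to `patL`.
 * Sites `Y m`, `1 ≤ m < N`: for `m > j`, `L (P (Y m).1) = ∑ j < r < m, dot l0 (dr (Y r))`, which is `> 0` for
   `m > j + 1`; for `m ≤ j`, `L (P (Y m).1) = - ∑ m ≤ r < j, dot l0 (dr (Y r))`, which is `> 0` for `m < j`.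
 * Far points: `D (-i) = - dr (Y 0)` and `D (-i - 1) = dr (Y (N - 1))`, since `Y (N - 1) = α (inf, i + 1)`.

`two_sides`: suppose `(fs α)^[n] d = α d`.  Apply the statements to `d` and to `α d` (same face,
`L` changes the sign): all sites of the face satisfy `L = 0` and all far points too.  But if
`(fs α d).1 ≠ inf` then `dot l0 (dr (fs α d)) > 0`, and this is `L (P (fs α (fs α d)).1)` or `L` of a far point of the
face.  If `(fs α d).1 = inf` then `d.1 ≠ inf`; use the dart `e` before `d` (`fs α e = d`, `e` is in the face):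
`dot l0 (dr e) < 0`, and this is `- L (P e.1)` or minus `L` of a far point.
-/

namespace SN78

open Function

/-! ### arithmetic -/

private theorem rc_arithA (s L : ℕ → ℝ) (N : ℕ) (hs1 : 0 < s 1) (hsN : s (N - 1) < 0)
    (hN : 1 ≤ N) (hL1 : L 1 = 0) (hLN : L N = 0) (hstep : ∀ m, L (m + 1) = L m + s m)
    (hX : ∀ j k, 1 ≤ j → j < k → k ≤ N - 1 → s j < 0 → s k ≤ 0) :
    ∀ m, 2 ≤ m → m ≤ N - 1 → 0 < L m := by
  intro m hm1 hm2
  by_cases hall : ∀ r, 1 ≤ r → r < m → 0 ≤ s r
  · have key : ∀ k, 2 ≤ k → k ≤ m → s 1 ≤ L k := by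
      intro k hk
      induction k, hk using Nat.le_induction with
      | base =>
        intro _
        have := hstep 1
        norm_num at this
        linarith
      | succ k hk ih =>
        intro hk2
        have h1 := ih (by omega)
        have h2 := hall k (by omega) (by omega)
        rw [hstep k]
        linarith
    have := key m hm1 le_rfl
    linarith
  · push Not at hall
    obtain ⟨j, hj1, hj2, hj3⟩ := hall
    have key : ∀ k, m ≤ k → k ≤ N - 1 → L k ≤ L m := by
      intro k hk
      induction k, hk using Nat.le_induction with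
      | base => intro _; exact le_rfl
      | succ k hk ih =>
        intro hk2
        have h1 := ih (by omega)
        have h2 := hX j k hj1 (by omega) (by omega) hj3
        rw [hstep k]
        linarith
    have h1 := key (N - 1) hm2 le_rfl
    have h2 := hstep (N - 1)
    rw [Nat.sub_add_cancel hN, hLN] at h2
    linarith

private theorem rc_arithB (s L : ℕ → ℝ) (N j : ℕ)
    (hstep : ∀ m, 1 ≤ m → m + 1 < N → L (m + 1) = L m + s m)
    (hup0 : j + 1 < N → L (j + 1) = 0 ∧ 0 < s (j + 1))
    (hup : ∀ m, j < m → m < N → 0 ≤ s m)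
    (hdn0 : 1 ≤ j → L j = 0 ∧ s (j - 1) < 0) (hjN : j < N)
    (hdn : ∀ m, m < j → s m ≤ 0) :
    ∀ m, 1 ≤ m → m < N → m ≠ j → m ≠ j + 1 → 0 < L m := by
  intro m hm1 hm2 hm3 hm4
  rcases lt_or_gt_of_ne hm3 with hlt | hgt
  · have key : ∀ k, m ≤ k → k ≤ j - 1 → L k ≤ L m := by
      intro k hk
      induction k, hk using Nat.le_induction with
      | base => intro _; exact le_rfl
      | succ k hk ih =>
        intro hk2
        have h1 := ih (by omega)
        have h2 := hdn k (by omega)
        rw [hstep k (by omega) (by omega)]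
        linarith
    have h1 := key (j - 1) (by omega) le_rfl
    have h2 := hstep (j - 1) (by omega) (by omega)
    obtain ⟨h3, h4⟩ := hdn0 (by omega)
    rw [Nat.sub_add_cancel (by omega : 1 ≤ j), h3] at h2
    linarith
  · have hj : j + 1 < N := by omega
    obtain ⟨h3, h4⟩ := hup0 hj
    have key : ∀ k, j + 2 ≤ k → k ≤ m → s (j + 1) ≤ L k := by
      intro k hk
      induction k, hk using Nat.le_induction with
      | base =>
        intro _
        have := hstep (j + 1) (by omega) (by omega)
        rw [h3] at this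
        have e : j + 1 + 1 = j + 2 := by ring
        rw [e] at this
        linarith
      | succ k hk ih =>
        intro hk2
        have h1 := ih (by omega)
        have h2 := hup k (by omega) (by omega)
        rw [hstep k (by omega) (by omega)]
        linarith
    have := key m (by omega) le_rfl
    linarith

variable {X : Type} [Fintype X] {α : X × ZMod 4 → X × ZMod 4} {inf : X} {s : X → ZMod 4}
  {D : ZMod 4 → H} {P : X → H}

omit [Fintype X] in
private theorem rc_L (dw : Draw α inf s D P) (d : X × ZMod 4) (z : H) :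
    dt (P (bs α inf d)) (dr α inf D P d) z =
      d2 (dr α inf D P d) z - z 2 * d2 (dr α inf D P d) (P (bs α inf d)) := by
  rw [dt_eq_d2 _ _ _ (dw.nP _), dw.flat d, zero_smul, sub_zero]
  simp only [d2, Pi.sub_apply, Pi.smul_apply, smul_eq_mul]
  ring

omit [Fintype X] in
private theorem rc_flat (dw : Draw α inf s D P) (d : X × ZMod 4) {r : H} (hr : r 2 = 0) :
    dt (P (bs α inf d)) (dr α inf D P d) r = d2 (dr α inf D P d) r := by
  rw [rc_L dw, hr, zero_mul, sub_zero]

private theorem rc_add (a b c e : H) : dt a b (c + e) = dt a b c + dt a b e := by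
  simp only [dt, Pi.add_apply]; ring

/-- the functional of a dart -/
private noncomputable def rc_f (a : H) : H := ![-(a 1), a 0, 0]

private theorem rc_f2 (a : H) : rc_f a 2 = 0 := rfl

private theorem rc_fdot (a x : H) : dot (rc_f a) x = d2 a x := by
  simp only [dot, rc_f, d2, Matrix.cons_val_zero, Matrix.cons_val_one, Matrix.cons_val]
  ring

omit [Fintype X] in
private theorem rc_fs (d : X × ZMod 4) : (fs α d).1 = (α d).1 := rfl

private theorem rc_negr (a b : H) : d2 a (-b) = - d2 a b := by
  simp only [d2, Pi.neg_apply]; ring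

private theorem rc_negl (a b : H) : d2 (-a) b = - d2 a b := by
  simp only [d2, Pi.neg_apply]; ring

omit [Fintype X] in
private theorem rc_end (d : X × ZMod 4) {u : X}
    (hu : u ≠ inf) (hu' : u = d.1 ∨ u = (α d).1) :
    dt (P (bs α inf d)) (dr α inf D P d) (P u) = 0 := by
  by_cases h1 : d.1 = inf
  · have e1 : bs α inf d = (α d).1 := by simp [bs, h1]
    rcases hu' with rfl | rfl
    · exact absurd h1 hu
    · rw [e1, dt_self₃]
  · have e1 : bs α inf d = d.1 := by simp [bs, h1]
    rcases hu' with rfl | rfl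
    · rw [e1, dt_self₃]
    · rw [e1, dr_edge h1 hu]
      have : P (α d).1 = P d.1 + (P (α d).1 - P d.1) := by abel
      conv_lhs => rw [this]
      simp only [dt, Pi.add_apply, Pi.sub_apply]
      ring

private theorem rc_turn (h : Rigid α) (hp : Conv α inf D P) (e : X × ZMod 4)
    (he : (fs α e).1 ≠ inf) : 0 < d2 (dr α inf D P e) (dr α inf D P (fs α e)) := by
  rw [h.turn e]
  exact hp _ he

omit [Fintype X] in
private theorem rc_step (dw : Draw α inf s D P) (d : X × ZMod 4) {e : X × ZMod 4}
    (h1 : e.1 ≠ inf) (h2 : (fs α e).1 ≠ inf) :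
    dt (P (bs α inf d)) (dr α inf D P d) (P (fs α e).1) =
      dt (P (bs α inf d)) (dr α inf D P d) (P e.1) + d2 (dr α inf D P d) (dr α inf D P e) := by
  have e1 : P (fs α e).1 = P e.1 + dr α inf D P e := by
    have h3 : dr α inf D P e = P (α e).1 - P e.1 := dr_edge h1 h2
    rw [h3, rc_fs]
    abel
  rw [e1, rc_add, rc_flat dw d (dw.flat e)]

/-- the main statement: sites and far points of the face of `d` -/
private theorem rc_core (h : Rigid α) (dw : Draw α inf s D P) (hp : Conv α inf D P)
    (d : X × ZMod 4) :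
    (∀ n, ((fs α)^[n] d).1 ≠ inf →
      ((((fs α)^[n] d).1 = d.1 ∨ ((fs α)^[n] d).1 = (α d).1) ∧
        dt (P (bs α inf d)) (dr α inf D P d) (P ((fs α)^[n] d).1) = 0) ∨
      0 < dt (P (bs α inf d)) (dr α inf D P d) (P ((fs α)^[n] d).1)) ∧
    (∀ n i, (fs α)^[n] d = (inf, i) → 0 ≤ dt (P (bs α inf d)) (dr α inf D P d) (D (-i)) ∧
      0 ≤ dt (P (bs α inf d)) (dr α inf D P d) (D (-i - 1))) := by
  have hself : d2 (dr α inf D P d) (dr α inf D P d) = 0 := d2_self _
  by_cases hc : ∀ n, ((fs α)^[n] d).1 ≠ inf
  · refine ⟨?_, fun n i hn => absurd (by rw [hn]) (hc n)⟩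
    set N := minimalPeriod (fs α) d with hN
    have hNpos : 0 < N := h.period_pos d
    have hperN : (fs α)^[N] d = d := iterate_minimalPeriod
    have hs1 : 0 < d2 (dr α inf D P d) (dr α inf D P ((fs α)^[1] d)) :=
      rc_turn h hp d (hc 1)
    have hsN : d2 (dr α inf D P d) (dr α inf D P ((fs α)^[N - 1] d)) < 0 := by
      have h1 : fs α ((fs α)^[N - 1] d) = d := by
        rw [← iterate_succ_apply' (fs α)]
        have e : (N - 1).succ = N := by omega
        rw [e, hperN]
      have h2 := rc_turn (inf := inf) (D := D) (P := P) h hp ((fs α)^[N - 1] d)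
        (by rw [h1]; exact hc 0)
      rw [h1, d2_swap] at h2
      linarith
    have hX : ∀ j k, 1 ≤ j → j < k → k ≤ N - 1 →
        d2 (dr α inf D P d) (dr α inf D P ((fs α)^[j] d)) < 0 →
        d2 (dr α inf D P d) (dr α inf D P ((fs α)^[k] d)) ≤ 0 := by
      intro j k hj1 hjk hk hsj
      by_contra hsk
      rw [not_le] at hsk
      have hj1' : 1 < j := by
        rcases hj1.lt_or_eq with h1 | h1
        · exact h1
        · rw [← h1] at hsj; linarith
      have hk' : k < N - 1 := by
        rcases hk.lt_or_eq with h1 | h1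
        · exact h1
        · rw [h1] at hsk; linarith
      obtain ⟨l, hl, -, hl2⟩ := dw.exists_gen h (rc_f (dr α inf D P d)) (rc_f2 _)
        ((fs α)^[1] d) (by rw [rc_fdot]; exact hs1.le)
      simp only [rc_fdot] at hl2
      have h3 := dw.patC h hl hc (i := 1) (j := j) (k := k) (m := N - 1) hj1' hjk hk'
        (by omega) ((hl2 _).1 hs1) ((hl2 _).2 hsj) ((hl2 _).1 hsk)
      have h4 := (hl2 _).2 hsN
      linarith
    have hA := rc_arithA (fun m => d2 (dr α inf D P d) (dr α inf D P ((fs α)^[m] d)))
      (fun m => dt (P (bs α inf d)) (dr α inf D P d) (P ((fs α)^[m] d).1)) N hs1 hsN hNpos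
      (rc_end d (hc 1) (Or.inr rfl))
      (by show dt _ _ (P ((fs α)^[N] d).1) = 0
          rw [hperN]; exact rc_end d (hc 0) (Or.inl rfl))
      (by
        intro m
        show dt _ _ (P ((fs α)^[m + 1] d).1) = _
        rw [iterate_succ_apply' (fs α)]
        apply rc_step dw d (hc m)
        have := hc (m + 1)
        rw [iterate_succ_apply' (fs α)] at this
        exact this)
      hX
    intro n hn
    have e1 : (fs α)^[n] d = (fs α)^[n % N] d := (iterate_mod_minimalPeriod_eq).symm
    have hlt : n % N < N := Nat.mod_lt _ hNpos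
    rw [e1] at hn ⊢
    rcases Nat.lt_or_ge (n % N) 2 with h2 | h2
    · left
      have h3 : n % N = 0 ∨ n % N = 1 := by omega
      rcases h3 with h3 | h3
      · rw [h3] at hn ⊢
        exact ⟨Or.inl rfl, rc_end d hn (Or.inl rfl)⟩
      · rw [h3] at hn ⊢
        exact ⟨Or.inr rfl, rc_end d hn (Or.inr rfl)⟩
    · right
      exact hA (n % N) h2 (by omega)
  · push Not at hc
    obtain ⟨n0, hn0⟩ := hc
    obtain ⟨i, j0, hj0, -⟩ := h.exists_back (inf := inf) (e := d) hn0
    set N := minimalPeriod (fs α) (inf, i) with hN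
    have hNpos : 0 < N := h.period_pos (inf, i)
    have hperN : (fs α)^[N] (inf, i) = (inf, i) := iterate_minimalPeriod
    have hmod : ∀ n, (fs α)^[n] (inf, i) = (fs α)^[n % N] (inf, i) :=
      fun n => (iterate_mod_minimalPeriod_eq).symm
    obtain ⟨j, hjN, hj⟩ : ∃ j, j < N ∧ (fs α)^[j] (inf, i) = d :=
      ⟨j0 % N, Nat.mod_lt _ hNpos, by rw [← hmod, hj0]⟩
    have hni : ∀ n, 0 < n → n < N → ((fs α)^[n] (inf, i)).1 ≠ inf := by
      intro n h1 h2 h3
      have h4 : (fs α)^[n] (inf, i) = (inf, ((fs α)^[n] (inf, i)).2) := Prod.ext h3 rfl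
      have h5 := dw.inf_once h h4
      rw [← h5] at h4
      have h6 : IsPeriodicPt (fs α) n (inf, i) := h4
      have h7 := h6.minimalPeriod_le h1
      omega
    have hsj : d2 (dr α inf D P d) (dr α inf D P ((fs α)^[j] (inf, i))) = 0 := by
      rw [hj, hself]
    have hup0 : j + 1 < N →
        dt (P (bs α inf d)) (dr α inf D P d) (P ((fs α)^[j + 1] (inf, i)).1) = 0 ∧
        0 < d2 (dr α inf D P d) (dr α inf D P ((fs α)^[j + 1] (inf, i))) := by
      intro h1
      have h2 := hni (j + 1) (by omega) h1
      rw [iterate_succ_apply' (fs α), hj] at h2 ⊢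
      exact ⟨rc_end d h2 (Or.inr rfl), rc_turn h hp d h2⟩
    have hdn0 : 1 ≤ j →
        dt (P (bs α inf d)) (dr α inf D P d) (P ((fs α)^[j] (inf, i)).1) = 0 ∧
        d2 (dr α inf D P d) (dr α inf D P ((fs α)^[j - 1] (inf, i))) < 0 := by
      intro h1
      have h2 := hni j (by omega) hjN
      have h3 : fs α ((fs α)^[j - 1] (inf, i)) = d := by
        rw [← iterate_succ_apply' (fs α)]
        have e : (j - 1).succ = j := by omega
        rw [e, hj]
      have h4 := rc_turn (inf := inf) (D := D) (P := P) h hp ((fs α)^[j - 1] (inf, i))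
        (by rw [h3, ← hj]; exact h2)
      rw [h3, d2_swap] at h4
      rw [hj] at h2 ⊢
      exact ⟨rc_end d h2 (Or.inl rfl), by linarith⟩
    have hup : ∀ m, j < m → m < N →
        0 ≤ d2 (dr α inf D P d) (dr α inf D P ((fs α)^[m] (inf, i))) := by
      intro m h1 h2
      by_contra h3
      rw [not_le] at h3
      obtain ⟨-, h4⟩ := hup0 (by omega)
      have h5 : j + 1 < m := by
        rcases (Nat.succ_le_of_lt h1).lt_or_eq with h6 | h6
        · exact h6
        · have e : j + 1 = m := h6
          rw [← e] at h3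
          linarith
      obtain ⟨l, hl, hl1, hl2⟩ := dw.exists_gen h (rc_f (dr α inf D P d)) (rc_f2 _)
        (α d) (by rw [rc_fdot, h.dr_neg, rc_negr, hself]; simp)
      simp only [rc_fdot] at hl2
      rw [h.dr_neg] at hl1
      have hl3 : dot l (dr α inf D P d) < 0 := by
        have : dot l (- dr α inf D P d) = - dot l (dr α inf D P d) := by
          rw [← neg_one_smul ℝ, dot_smul]; ring
        linarith
      have h7 := dw.patL' h hl (i := i) (j := j) (k := j + 1) (m := m) (by omega) h5
        (fun n hn1 hn2 => hni n hn1 (by omega)) (by rw [hj]; exact hl3) ((hl2 _).1 h4)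
      have h8 := (hl2 _).2 h3
      linarith
    have hdn : ∀ m, m < j →
        d2 (dr α inf D P d) (dr α inf D P ((fs α)^[m] (inf, i))) ≤ 0 := by
      intro m h1
      by_contra h3
      rw [not_le] at h3
      obtain ⟨-, h4⟩ := hdn0 (by omega)
      have h5 : m < j - 1 := by
        rcases (Nat.le_sub_one_of_lt h1).lt_or_eq with h6 | h6
        · exact h6
        · rw [← h6] at h4
          linarith
      obtain ⟨l, hl, hl1, hl2⟩ := dw.exists_gen h (rc_f (dr α inf D P d)) (rc_f2 _)
        d (by rw [rc_fdot, hself])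
      simp only [rc_fdot] at hl2
      have h7 := dw.patL h hl (i := i) (j := m) (k := j - 1) (m := j) h5 (by omega)
        (fun n hn1 hn2 => hni n hn1 (by omega)) ((hl2 _).1 h3) ((hl2 _).2 h4)
      rw [hj] at h7
      linarith
    have hB := rc_arithB (fun m => d2 (dr α inf D P d) (dr α inf D P ((fs α)^[m] (inf, i))))
      (fun m => dt (P (bs α inf d)) (dr α inf D P d) (P ((fs α)^[m] (inf, i)).1)) N j
      (by
        intro m h1 h2
        show dt _ _ (P ((fs α)^[m + 1] (inf, i)).1) = _
        have h3 := hni (m + 1) (by omega) h2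
        rw [iterate_succ_apply' (fs α)] at h3 ⊢
        exact rc_step dw d (hni m (by omega) (by omega)) h3)
      hup0 hup hdn0 hjN hdn
    have hshift : ∀ n, (fs α)^[n] d = (fs α)^[(n + j) % N] (inf, i) := by
      intro n
      rw [← hmod, iterate_add_apply, hj]
    refine ⟨?_, ?_⟩
    · intro n hn
      rw [hshift] at hn ⊢
      set m := (n + j) % N with hm
      have hmN : m < N := Nat.mod_lt _ hNpos
      have hm0 : 1 ≤ m := by
        by_contra h1
        have : m = 0 := by omega
        rw [this] at hn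
        exact hn rfl
      by_cases h1 : m = j
      · left
        rw [h1] at hn ⊢
        rw [hj] at hn ⊢
        exact ⟨Or.inl rfl, rc_end d hn (Or.inl rfl)⟩
      by_cases h2 : m = j + 1
      · left
        rw [h2, iterate_succ_apply' (fs α), hj] at hn ⊢
        exact ⟨Or.inr rfl, rc_end d hn (Or.inr rfl)⟩
      · right
        exact hB m hm0 hmN h1 h2
    · intro n i' hn
      have h1 : (fs α)^[n + j] (inf, i) = (inf, i') := by
        rw [iterate_add_apply, hj, hn]
      have h2 := dw.inf_once h h1
      subst h2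
      constructor
      · rw [rc_flat dw d (dw.cfg.flat _)]
        have h3 : D (-i) = - dr α inf D P ((fs α)^[0] (inf, i)) := by
          show D (-i) = - dr α inf D P (inf, i)
          rw [dr_inf, neg_neg]
        have h4 : d2 (dr α inf D P d) (dr α inf D P ((fs α)^[0] (inf, i))) ≤ 0 := by
          rcases Nat.eq_zero_or_pos j with h5 | h5
          · rw [← h5, hsj]
          · exact hdn 0 h5
        rw [h3, rc_negr]
        linarith
      · rw [rc_flat dw d (dw.cfg.flat _)]
        have h3 : D (-i - 1) = dr α inf D P ((fs α)^[N - 1] (inf, i)) := by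
          have h5 : fs α ((fs α)^[N - 1] (inf, i)) = (inf, i) := by
            rw [← iterate_succ_apply' (fs α)]
            have e : (N - 1).succ = N := by omega
            rw [e, hperN]
          have h6 : α ((fs α)^[N - 1] (inf, i)) = (inf, i + 1) := by
            have h7 : nx (fs α ((fs α)^[N - 1] (inf, i))) = α ((fs α)^[N - 1] (inf, i)) := by
              simp only [nx, fs, pv, sub_add_cancel]
            rw [← h7, h5]
            rfl
          have h8 : (fs α)^[N - 1] (inf, i) = α (inf, i + 1) := by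
            rw [← h6, h.inv]
          rw [h8, h.dr_port]
          congr 1
          ring
        have h4 : 0 ≤ d2 (dr α inf D P d) (dr α inf D P ((fs α)^[N - 1] (inf, i))) := by
          rcases (Nat.le_sub_one_of_lt hjN).lt_or_eq with h5 | h5
          · exact hup (N - 1) h5 (by omega)
          · rw [← h5, hsj]
        rw [h3]
        exact h4

theorem Draw.conv_site (h : Rigid α) (dw : Draw α inf s D P) (hp : Conv α inf D P)
    (d : X × ZMod 4) (n : ℕ) (hg : ((fs α)^[n] d).1 ≠ inf) :
    0 ≤ dt (P (bs α inf d)) (dr α inf D P d) (P ((fs α)^[n] d).1) := by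
  rcases (rc_core h dw hp d).1 n hg with h1 | h1
  · exact h1.2.ge
  · exact h1.le

theorem Draw.conv_site' (h : Rigid α) (dw : Draw α inf s D P) (hp : Conv α inf D P)
    (d : X × ZMod 4) (n : ℕ) (hg : ((fs α)^[n] d).1 ≠ inf) (h1 : ((fs α)^[n] d).1 ≠ d.1)
    (h2 : ((fs α)^[n] d).1 ≠ (α d).1) :
    0 < dt (P (bs α inf d)) (dr α inf D P d) (P ((fs α)^[n] d).1) := by
  rcases (rc_core h dw hp d).1 n hg with h3 | h3
  · rcases h3.1 with h4 | h4
    · exact absurd h4 h1
    · exact absurd h4 h2
  · exact h3

theorem Draw.conv_far (h : Rigid α) (dw : Draw α inf s D P) (hp : Conv α inf D P)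
    (d : X × ZMod 4) (n : ℕ) {i : ZMod 4} (hg : (fs α)^[n] d = (inf, i)) :
    0 ≤ dt (P (bs α inf d)) (dr α inf D P d) (D (-i)) ∧
      0 ≤ dt (P (bs α inf d)) (dr α inf D P d) (D (-i - 1)) :=
  (rc_core h dw hp d).2 n i hg

/-- the functional of the opposite dart -/
private theorem rc_opp (h : Rigid α) (d : X × ZMod 4) (z : H) :
    dt (P (bs α inf (α d))) (dr α inf D P (α d)) z =
      - dt (P (bs α inf d)) (dr α inf D P d) z := by
  have hneg : ∀ a b c : H, dt a (-b) c = - dt a b c := by
    intro a b c
    simp only [dt, Pi.neg_apply]; ring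
  rw [h.dr_neg, hneg]
  by_cases h1 : d.1 = inf
  · have h2 : (α d).1 ≠ inf := by
      intro h3
      exact h.noloop d (h3.trans h1.symm)
    have e1 : bs α inf d = (α d).1 := by simp [bs, h1]
    have e2 : bs α inf (α d) = (α d).1 := by simp [bs, h2]
    rw [e1, e2]
  by_cases h2 : (α d).1 = inf
  · have e1 : bs α inf d = d.1 := by simp [bs, h1]
    have e2 : bs α inf (α d) = d.1 := by simp [bs, h2, h.inv]
    rw [e1, e2]
  · have e1 : bs α inf d = d.1 := by simp [bs, h1]
    have e2 : bs α inf (α d) = (α d).1 := by simp [bs, h2]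
    rw [e1, e2, dr_edge h1 h2]
    simp only [dt, Pi.sub_apply]
    ring

theorem Draw.two_sides (h : Rigid α) (dw : Draw α inf s D P) (hp : Conv α inf D P)
    (d : X × ZMod 4) (n : ℕ) : (fs α)^[n] d ≠ α d := by
  intro hn
  set N := minimalPeriod (fs α) d with hN
  have hNpos : 0 < N := h.period_pos d
  have hperN : (fs α)^[N] d = d := iterate_minimalPeriod
  have hreach : ∀ m, ∃ k, (fs α)^[k] (α d) = (fs α)^[m] d := by
    intro m
    refine ⟨m + n * (N - 1), ?_⟩
    rw [← hn, ← iterate_add_apply]
    have e : m + n * (N - 1) + n = m + N * n := by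
      obtain ⟨q, hq⟩ : ∃ q, N = q + 1 := ⟨N - 1, by omega⟩
      rw [hq]
      simp only [Nat.add_sub_cancel]
      ring
    rw [e, iterate_add_apply]
    have : IsPeriodicPt (fs α) (N * n) d := (isPeriodicPt_minimalPeriod (fs α) d).mul_const n
    rw [show (fs α)^[N * n] d = d from this]
  -- upper bounds from the opposite dart
  have hsite : ∀ m, ((fs α)^[m] d).1 ≠ inf →
      dt (P (bs α inf d)) (dr α inf D P d) (P ((fs α)^[m] d).1) ≤ 0 := by
    intro m hm
    obtain ⟨k, hk⟩ := hreach m
    have h1 := dw.conv_site h hp (α d) k (by rw [hk]; exact hm)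
    rw [hk, rc_opp h] at h1
    linarith
  have hfar : ∀ m i, (fs α)^[m] d = (inf, i) →
      dt (P (bs α inf d)) (dr α inf D P d) (D (-i)) ≤ 0 ∧
      dt (P (bs α inf d)) (dr α inf D P d) (D (-i - 1)) ≤ 0 := by
    intro m i hm
    obtain ⟨k, hk⟩ := hreach m
    have h1 := dw.conv_far h hp (α d) k (hk.trans hm)
    rw [rc_opp h, rc_opp h] at h1
    exact ⟨by linarith [h1.1], by linarith [h1.2]⟩
  by_cases h1 : (fs α d).1 ≠ inf
  · have h2 := rc_turn (inf := inf) (D := D) (P := P) h hp d h1
    by_cases h3 : (fs α (fs α d)).1 ≠ inf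
    · have h4 := rc_step dw d h1 h3
      have h5 : dt (P (bs α inf d)) (dr α inf D P d) (P (fs α d).1) = 0 :=
        rc_end d h1 (Or.inr rfl)
      have h6 := hsite 2 h3
      have h7 : (fs α)^[2] d = fs α (fs α d) := rfl
      rw [h7] at h6
      linarith
    · rw [not_not] at h3
      have h4 : (fs α)^[2] d = (inf, (fs α (fs α d)).2) := Prod.ext h3 rfl
      have h5 := (hfar 2 _ h4).2
      rw [rc_flat dw d (dw.cfg.flat _)] at h5
      have h6 : (α (fs α d)).1 = inf := h3
      have h7 : dr α inf D P (fs α d) = D (-(fs α (fs α d)).2 - 1) := by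
        have h8 : dr α inf D P (fs α d) = D (-(α (fs α d)).2) := by
          simp only [dr, h1, h6, if_false, if_true]
        rw [h8]
        congr 1
        show -(α (fs α d)).2 = -((α (fs α d)).2 - 1) - 1
        ring
      rw [← h7] at h5
      linarith
  · rw [not_not] at h1
    have h2 : (α d).1 = inf := h1
    have h3 : d.1 ≠ inf := by
      intro h4
      exact h.noloop d (h2.trans h4.symm)
    set e := (fs α)^[N - 1] d with he
    have h4 : fs α e = d := by
      rw [he, ← iterate_succ_apply' (fs α)]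
      have e : (N - 1).succ = N := by omega
      rw [e, hperN]
    have h5 := rc_turn (inf := inf) (D := D) (P := P) h hp e (by rw [h4]; exact h3)
    rw [h4, d2_swap] at h5
    by_cases h6 : e.1 ≠ inf
    · have h7 := rc_step dw d h6 (by rw [h4]; exact h3)
      rw [h4, rc_end d h3 (Or.inl rfl)] at h7
      have h8 := hsite (N - 1) h6
      rw [← he] at h8
      linarith
    · rw [not_not] at h6
      have h7 : (fs α)^[N - 1] d = (inf, e.2) := Prod.ext h6 rfl
      have h8 := (hfar (N - 1) _ h7).1
      rw [rc_flat dw d (dw.cfg.flat _)] at h8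
      have h9 : dr α inf D P e = - D (-e.2) := by
        have : e = (inf, e.2) := Prod.ext h6 rfl
        conv_lhs => rw [this]
        exact dr_inf _
      rw [h9, rc_negr] at h5
      linarith

end SN78
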