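import Pool.Agent.SN78.Plane

/-!
# SN78: rigid (polyhedral) pieces, definitions

A closed 4-valent plane map is given by its sites `X` and the involution `α` of the darts
`X × ZMod 4`; the darts of a site are numbered counterclockwise.  The walk `fs` goes around the face
to the left of a dart.  One site `inf` is the outside of a tangle; port `k` of the tangle is the dart
`(inf, - k)`.

`Rigid α`: the map is connected, plane (Euler), every nontrivial cut has at least four edges, and at
least six edges if both sides have at least two sites.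

The flexible picture of a rigid piece: ports `0, 1, 2` are pulled.  Let `o` be the checkerboard
orientation (`o d = true`: the edge is oriented out of the site of `d`) with the ports `0, 2` oriented
outwards.  Each site `v ≠ inf` is a straight crossing for the two darts `s v`, `s v + 2`, which are the
outgoing darts, with one exception: at the site `t₁` of port `1` the ingoing darts are taken, so that
all three ports `0, 1, 2` leave their sites along straight strands.
-/

namespace SN78

section
variable {X : Type}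

/-- the next dart of the site, counterclockwise -/
def nx (d : X × ZMod 4) : X × ZMod 4 := (d.1, d.2 + 1)

/-- the previous dart of the site -/
def pv (d : X × ZMod 4) : X × ZMod 4 := (d.1, d.2 - 1)

/-- the opposite dart of the site -/
def op (d : X × ZMod 4) : X × ZMod 4 := (d.1, d.2 + 2)

/-- the next dart on the boundary walk of the face to the left of `d` -/
def fs (α : X × ZMod 4 → X × ZMod 4) (d : X × ZMod 4) : X × ZMod 4 := pv (α d)

/-- the faces -/
abbrev Face (α : X × ZMod 4 → X × ZMod 4) : Type := Quot fun d d' => fs α d = d'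

/-- the number of edges between `A` and the complement of `A` -/
noncomputable def cut (α : X × ZMod 4 → X × ZMod 4) (A : Finset X) : ℕ :=
  Nat.card {d : X × ZMod 4 // d.1 ∈ A ∧ (α d).1 ∉ A}

/-- rigid (polyhedral) plane maps -/
structure Rigid [Fintype X] (α : X × ZMod 4 → X × ZMod 4) : Prop where
  inv : ∀ d, α (α d) = d
  ne : ∀ d, α d ≠ d
  big : 4 ≤ Fintype.card X
  cut4 : ∀ A : Finset X, A.Nonempty → A ≠ Finset.univ → 4 ≤ cut α A
  cut6 : ∀ A : Finset X, 2 ≤ A.card → A.card + 2 ≤ Fintype.card X → 6 ≤ cut α A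
  euler : Nat.card (Face α) = Fintype.card X + 2

/-- the site of port `k` -/
def tp (α : X × ZMod 4 → X × ZMod 4) (inf : X) (k : ZMod 4) : X := (α (inf, -k)).1

/-- a rigid map with the orientation `o` and the straight strands `s` -/
structure Frame [Fintype X] (α : X × ZMod 4 → X × ZMod 4) (inf : X) (o : X × ZMod 4 → Bool)
    (s : X → ZMod 4) : Prop where
  rig : Rigid α
  onx : ∀ d, o (nx d) = !o d
  oal : ∀ d, o (α d) = !o d
  oinf : o (inf, 0) = false
  port : ∀ k, k ≠ 3 → s (tp α inf k) = (α (inf, -k)).2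
  out : ∀ v, v ≠ inf → v ≠ tp α inf 1 → o (v, s v) = true

/-- the dart belongs to the straight strand of its site -/
def St (s : X → ZMod 4) (d : X × ZMod 4) : Prop := d.2 = s d.1 ∨ d.2 = s d.1 + 2

/-! ### equilibrium equations -/

/-- the combinatorial hypotheses for the equilibrium equations: `a v`, `b v` are the two neighbours
of `v`; at the three sites `t k` only the neighbour `b` is used -/
structure Walk (inf : X) (t : Fin 3 → X) (a b : X → X) : Prop where
  tinj : Function.Injective t
  tinf : ∀ k, t k ≠ inf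
  ainf : ∀ v, v ≠ inf → (∀ k, v ≠ t k) → a v ≠ inf
  binf : ∀ v, v ≠ inf → b v ≠ inf
  ab : ∀ v, v ≠ inf → a v ≠ b v
  av : ∀ v, v ≠ inf → a v ≠ v
  bv : ∀ v, v ≠ inf → b v ≠ v
  closed : ∀ M : Finset X, M.Nonempty → inf ∉ M →
    (∀ v ∈ M, b v ∈ M) → (∀ v ∈ M, (∀ k, v ≠ t k) → a v ∈ M) → ∀ k, t k ∈ M
  sep : ∀ S Y : Finset X, S.Nonempty → Disjoint S Y → Y.card ≤ 2 → inf ∉ S → inf ∉ Y →
    (∀ k, t k ∉ S) → (∀ v ∈ S, a v ∈ S ∨ a v ∈ Y) → (∀ v ∈ S, b v ∈ S ∨ b v ∈ Y) → S.card = 1

/-- `om` are the barycentric coordinates with respect to the sites `t k` for the weights `lam` -/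
structure Bary (inf : X) (t : Fin 3 → X) (a b : X → X) (lam : X → ℝ) (om : X → H) : Prop where
  l0 : ∀ v, 0 < lam v
  l1 : ∀ v, lam v < 1
  om_inf : om inf = 0
  base : ∀ k, om (t k) = Pi.single k 1
  eq : ∀ v, v ≠ inf → (∀ k, v ≠ t k) → om v = lam v • om (a v) + (1 - lam v) • om (b v)

/-- `h` solves the inhomogeneous equilibrium equations with right hand side `R` -/
def WSol (inf : X) (t : Fin 3 → X) (a b : X → X) (lam h R : X → ℝ) : Prop :=
  (∀ v, v ≠ inf → (∀ k, v ≠ t k) → h v = lam v * h (a v) + (1 - lam v) * h (b v) + R v) ∧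
  ∀ k, h (t k) = h (b (t k)) + R (t k)

/-- generic equilibrium positions `P`; the site `t k` is pulled in the direction `E k` -/
structure Eqm (inf : X) (t : Fin 3 → X) (a b : X → X) (E : Fin 3 → H) (lam : X → ℝ)
    (τ : Fin 3 → ℝ) (P : X → H) : Prop where
  l0 : ∀ v, 0 < lam v
  l1 : ∀ v, lam v < 1
  t0 : ∀ k, 0 < τ k
  nP : ∀ v, P v 2 = 1
  eq : ∀ v, v ≠ inf → (∀ k, v ≠ t k) → P v = lam v • P (a v) + (1 - lam v) • P (b v)
  eqt : ∀ k, P (t k) = P (b (t k)) + τ k • E k
  inj : ∀ v w, v ≠ inf → w ≠ inf → P v = P w → v = w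
  tri : ∀ x y z, x ≠ inf → y ≠ inf → z ≠ inf → x ≠ y → y ≠ z → z ≠ x →
    dt (P x) (P y) (P z) = 0 → ∃ v, v ≠ inf ∧ (∀ k, v ≠ t k) ∧ ({x, y, z} : Set X) = {v, a v, b v}
  sum : ∀ z r : X → ℝ,
    (∀ v, v ≠ inf → (∀ k, v ≠ t k) → z v = lam v * z (a v) + (1 - lam v) * z (b v)) →
    (∀ k, z (t k) = z (b (t k)) + τ k * r (t k)) →
    d2 (E 1) (E 2) * r (t 0) + d2 (E 2) (E 0) * r (t 1) + d2 (E 0) (E 1) * r (t 2) = 0

/-! ### the drawing -/

/-- the directions of the ports: the ports `0, 1, 2` pull in three directions with gaps less than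
`π`, port `3` is between port `2` and port `0`, possibly parallel to port `0` -/
structure Cfg (D : ZMod 4 → H) : Prop where
  flat : Flat D
  d01 : 0 < d2 (D 0) (D 1)
  d12 : 0 < d2 (D 1) (D 2)
  d20 : 0 < d2 (D 2) (D 0)
  d3 : ∃ x y : ℝ, 0 ≤ x ∧ 0 < y ∧ D 3 = x • D 2 + y • D 0

open Classical in
/-- the direction of the dart `d`; at `inf` the dart `(inf, - k)` comes from infinity -/
noncomputable def dr (α : X × ZMod 4 → X × ZMod 4) (inf : X) (D : ZMod 4 → H) (P : X → H)
    (d : X × ZMod 4) : H :=
  if d.1 = inf then - D (-d.2) else if (α d).1 = inf then D (-(α d).2) else P (α d).1 - P d.1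

/-- the limit drawing: the strands are straight and all other corners are generic -/
structure Draw (α : X × ZMod 4 → X × ZMod 4) (inf : X) (s : X → ZMod 4) (D : ZMod 4 → H)
    (P : X → H) : Prop where
  nP : ∀ v, P v 2 = 1
  cfg : Cfg D
  str : ∀ v, v ≠ inf → ∃ c : ℝ, 0 < c ∧
    dr α inf D P (v, s v + 2) = -(c • dr α inf D P (v, s v))
  nd : ∀ v i, v ≠ inf → (α (v, i)).1 ≠ inf → (α (v, i + 1)).1 ≠ inf →
    d2 (dr α inf D P (v, i)) (dr α inf D P (v, i + 1)) ≠ 0
  nd2 : ∀ v i, v ≠ inf → ¬ St s (v, i) → (α (v, i)).1 ≠ inf → (α (v, i + 2)).1 ≠ inf →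
    d2 (dr α inf D P (v, i)) (dr α inf D P (v, i + 2)) ≠ 0
  inj : ∀ v w, v ≠ inf → w ≠ inf → P v = P w → v = w

/-- the functional is generic for the drawing -/
def Gen (α : X × ZMod 4 → X × ZMod 4) (inf : X) (D : ZMod 4 → H) (P : X → H) (l : H) : Prop :=
  l 2 = 0 ∧ ∀ d, dot l (dr α inf D P d) ≠ 0

/-- all corners of the drawing are positive -/
def Conv (α : X × ZMod 4 → X × ZMod 4) (inf : X) (D : ZMod 4 → H) (P : X → H) : Prop :=
  ∀ d : X × ZMod 4, d.1 ≠ inf → 0 < d2 (dr α inf D P d) (dr α inf D P (nx d))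

open Classical in
/-- a site on the edge `d` different from `inf` -/
noncomputable def bs (α : X × ZMod 4 → X × ZMod 4) (inf : X) (d : X × ZMod 4) : X :=
  if d.1 = inf then (α d).1 else d.1

open Classical in
/-- the position of the site of `e`, and the direction of the port if the site is `inf` -/
noncomputable def qs (D : ZMod 4 → H) (P : X → H) (inf : X) (e : X × ZMod 4) : H :=
  if e.1 = inf then D (-e.2) else P e.1

/-! ### straight sticks; `sg v` says that the site `v` is a single crossing -/

/-- a stick arriving at the dart `d` goes straight on through the site (and does not end there) -/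
def Ps (sg : X → Prop) (inf : X) (s : X → ZMod 4) (d : X × ZMod 4) : Prop :=
  d.1 ≠ inf ∧ sg d.1 ∧ St s d

/-- the next dart of the stick -/
def nt (α : X × ZMod 4 → X × ZMod 4) (d : X × ZMod 4) : X × ZMod 4 := op (α d)

open Classical in
/-- the dart at which the stick which leaves along the dart `d` ends (a stick goes through at most
two sites) -/
noncomputable def en (α : X × ZMod 4 → X × ZMod 4) (sg : X → Prop) (inf : X) (s : X → ZMod 4)
    (d : X × ZMod 4) : X × ZMod 4 :=
  if Ps sg inf s (α d) then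
    if Ps sg inf s (α (nt α d)) then α (nt α (nt α d)) else α (nt α d)
  else α d

/-- the dart `g` is traversed by the stick which leaves along the dart `d` -/
def InRun (α : X × ZMod 4 → X × ZMod 4) (sg : X → Prop) (inf : X) (s : X → ZMod 4)
    (d g : X × ZMod 4) : Prop :=
  g = d ∨ (Ps sg inf s (α d) ∧ g = nt α d) ∨
    (Ps sg inf s (α d) ∧ Ps sg inf s (α (nt α d)) ∧ g = nt α (nt α d))

end

end SN78
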