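import Pool.Agent.SN78.RFrame

/-!
# SN78 module RDRAW: simple facts about the directions; the equilibrium positions give a drawing

`dr_neg`: the cases `d.1 = inf`, `(α d).1 = inf` (not both by `noloop`), both different from `inf`.
`turn`: `nx (fs α e) = α e`.
`bent`: `d.2 = s d.1 + 1` or `s d.1 + 3`; use `str`.
`Cfg.gap`, `d23`, `d30`, `zero`: from `D 3 = x • D 2 + y • D 0`.

`Frame.draw`.  Write `a v`, `b v` for the neighbours.
* `str`: for `v` not a port site `0, 1, 2`: `(1 - lam v) • (P (b v) - P v) = - lam v • (P (a v) - P v)`.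
  For `v = tp α inf k`: `dr (v, s v) = D k` and `dr (v, s v + 2) = P (b v) - P v = - τ k • D k`.
* `nd`, `nd2`: let `x, y` be the sites of `α (v, i)`, `α (v, j)` with `j = i + 1` or `j = i + 2`.  The
  determinant is `dt (P v) (P x) (P y)` (`dt_eq_d2`).  If it is `0` then `{v, x, y} = {u, a u, b u}` with `u`
  not a port site `0, 1, 2` (`Eqm.tri`).  If `u = v` then `{x, y} = {a v, b v}`, so by `simple`
  `{i, j} = {s v, s v + 2}`, impossible.  If `u = x` then the darts of `x` which lead to `v` and to `y` are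
  opposite, contradiction to `Rigid.tl` with `d = (v, i)`, `d' = (v, j)`; similarly for `u = y`.
-/

namespace SN78

variable {X : Type} {α : X × ZMod 4 → X × ZMod 4} {inf : X} {s : X → ZMod 4} {D : ZMod 4 → H}
  {P : X → H}

private theorem rd_z4 (j : ZMod 4) : j = 0 ∨ j = 1 ∨ j = 2 ∨ j = 3 := by
  revert j; decide

theorem Cfg.d23 (h : Cfg D) : 0 < d2 (D 2) (D 3) := by
  obtain ⟨x, y, hx, hy, e⟩ := h.d3
  rw [e, d2_add_right, d2_smul_right, d2_smul_right, d2_self]
  have := mul_pos hy h.d20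
  linarith

theorem Cfg.d30 (h : Cfg D) : 0 ≤ d2 (D 3) (D 0) := by
  obtain ⟨x, y, hx, hy, e⟩ := h.d3
  rw [e, d2_add_left, d2_smul_left, d2_smul_left, d2_self]
  have := mul_nonneg hx h.d20.le
  linarith

theorem Cfg.gap (h : Cfg D) (k : ZMod 4) : 0 ≤ d2 (D k) (D (k + 1)) := by
  rcases rd_z4 k with rfl | rfl | rfl | rfl
  · exact h.d01.le
  · exact h.d12.le
  · exact h.d23.le
  · exact h.d30

theorem Cfg.gap' (h : Cfg D) {k : ZMod 4} (hk : k ≠ 3) : 0 < d2 (D k) (D (k + 1)) := by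
  rcases rd_z4 k with rfl | rfl | rfl | rfl
  · exact h.d01
  · exact h.d12
  · exact h.d23
  · exact absurd rfl hk

theorem Cfg.zero (h : Cfg D) (h0 : ¬ 0 < d2 (D 3) (D 0)) : ∃ c : ℝ, 0 < c ∧ D 3 = c • D 0 := by
  obtain ⟨x, y, hx, hy, e⟩ := h.d3
  have h1 : d2 (D 3) (D 0) = x * d2 (D 2) (D 0) := by
    rw [e, d2_add_left, d2_smul_left, d2_smul_left, d2_self]; ring
  have h2 : x = 0 := by
    rcases hx.eq_or_lt with h3 | h3
    · exact h3.symm
    · exact absurd (h1 ▸ mul_pos h3 h.d20) h0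
  refine ⟨y, hy, ?_⟩
  rw [e, h2, zero_smul, zero_add]

theorem Cfg.ne (h : Cfg D) (k : ZMod 4) : D k ≠ 0 := by
  intro h0
  have key : ∀ a : H, d2 a 0 = 0 := by intro a; simp [d2]
  rcases rd_z4 k with rfl | rfl | rfl | rfl
  · have := h.d20; rw [h0, key] at this; exact lt_irrefl _ this
  · have := h.d01; rw [h0, key] at this; exact lt_irrefl _ this
  · have := h.d12; rw [h0, key] at this; exact lt_irrefl _ this
  · have := h.d23; rw [h0, key] at this; exact lt_irrefl _ this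

theorem dr_inf (i : ZMod 4) : dr α inf D P (inf, i) = - D (-i) := by
  simp [dr]

theorem dr_edge {d : X × ZMod 4} (h1 : d.1 ≠ inf) (h2 : (α d).1 ≠ inf) :
    dr α inf D P d = P (α d).1 - P d.1 := by
  simp [dr, h1, h2]

private theorem rd_dr_out {d : X × ZMod 4} (h1 : d.1 ≠ inf) (h2 : (α d).1 = inf) :
    dr α inf D P d = D (-(α d).2) := by
  simp [dr, h1, h2]

private theorem rd_dr_in {d : X × ZMod 4} (h1 : d.1 = inf) :
    dr α inf D P d = - D (-d.2) := by
  simp [dr, h1]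

theorem Draw.flat (dw : Draw α inf s D P) (d : X × ZMod 4) : dr α inf D P d 2 = 0 := by
  by_cases h1 : d.1 = inf
  · rw [rd_dr_in h1, Pi.neg_apply, dw.cfg.flat, neg_zero]
  by_cases h2 : (α d).1 = inf
  · rw [rd_dr_out h1 h2, dw.cfg.flat]
  · rw [dr_edge h1 h2, Pi.sub_apply, dw.nP, dw.nP, sub_self]

/-- the direction in terms of the other end of the edge -/
theorem Draw.dr_qs (dw : Draw α inf s D P) {d : X × ZMod 4} (h1 : d.1 ≠ inf) :
    dr α inf D P d = qs D P inf (α d) - (qs D P inf (α d) 2) • P d.1 := by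
  by_cases h2 : (α d).1 = inf
  · rw [rd_dr_out h1 h2]
    have e : qs D P inf (α d) = D (-(α d).2) := by simp [qs, h2]
    rw [e, dw.cfg.flat, zero_smul, sub_zero]
  · rw [dr_edge h1 h2]
    have e : qs D P inf (α d) = P (α d).1 := by simp [qs, h2]
    rw [e, dw.nP, one_smul]

theorem Draw.op_st (dw : Draw α inf s D P) {d : X × ZMod 4} (h1 : d.1 ≠ inf) (h2 : St s d) :
    ∃ c : ℝ, 0 < c ∧ dr α inf D P (op d) = -(c • dr α inf D P d) := by
  obtain ⟨c, hc, e⟩ := dw.str d.1 h1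
  rcases h2 with h2 | h2
  · refine ⟨c, hc, ?_⟩
    have e1 : op d = (d.1, s d.1 + 2) := by rw [op, h2]
    have e2 : d = (d.1, s d.1) := Prod.ext rfl h2
    rw [e1, e]
    rw [← e2]
  · refine ⟨c⁻¹, inv_pos.mpr hc, ?_⟩
    have e1 : op d = (d.1, s d.1) := by
      rw [op, h2, add_assoc]
      have : (2 : ZMod 4) + 2 = 0 := by decide
      rw [this, add_zero]
    have e2 : d = (d.1, s d.1 + 2) := Prod.ext rfl h2
    have e3 : dr α inf D P d = -(c • dr α inf D P (d.1, s d.1)) := by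
      rw [← e, ← e2]
    rw [e1, e3, smul_neg, neg_neg, smul_smul, inv_mul_cancel₀ hc.ne', one_smul]

theorem Draw.bent (dw : Draw α inf s D P) {d : X × ZMod 4} (h1 : d.1 ≠ inf) (h2 : ¬ St s d) :
    ∃ c : ℝ, 0 < c ∧ d2 (dr α inf D P d) (dr α inf D P (nx d)) =
      c * d2 (dr α inf D P (pv d)) (dr α inf D P d) := by
  have h3 : St s (pv d) := by
    have hz : ∀ i j : ZMod 4, ¬ (i = j ∨ i = j + 2) → (i - 1 = j ∨ i - 1 = j + 2) := by decide
    exact hz d.2 (s d.1) h2
  have h4 : op (pv d) = nx d := by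
    have hz : ∀ i : ZMod 4, i - 1 + 2 = i + 1 := by decide
    simp only [op, pv, nx, hz]
  obtain ⟨c, hc, e⟩ := dw.op_st (d := pv d) h1 h3
  refine ⟨c, hc, ?_⟩
  rw [h4] at e
  rw [e]
  simp only [d2, Pi.neg_apply, Pi.smul_apply, smul_eq_mul]
  ring

variable [Fintype X]

theorem Rigid.dr_port (h : Rigid α) (i : ZMod 4) : dr α inf D P (α (inf, i)) = D (-i) := by
  have h1 : (α (inf, i)).1 ≠ inf := h.noloop (inf, i)
  have h2 : (α (α (inf, i))).1 = inf := by rw [h.inv]
  rw [rd_dr_out h1 h2, h.inv]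

theorem Rigid.dr_neg (h : Rigid α) (d : X × ZMod 4) :
    dr α inf D P (α d) = - dr α inf D P d := by
  by_cases h1 : d.1 = inf
  · have e : d = (inf, d.2) := Prod.ext h1 rfl
    rw [rd_dr_in h1, neg_neg]
    conv_lhs => rw [e]
    exact h.dr_port d.2
  by_cases h2 : (α d).1 = inf
  · rw [rd_dr_out h1 h2, rd_dr_in h2]
  · have h3 : (α (α d)).1 ≠ inf := by rw [h.inv]; exact h1
    rw [dr_edge h1 h2, dr_edge h2 h3, h.inv, neg_sub]

theorem Rigid.turn (h : Rigid α) (e : X × ZMod 4) :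
    d2 (dr α inf D P e) (dr α inf D P (fs α e)) =
      d2 (dr α inf D P (fs α e)) (dr α inf D P (nx (fs α e))) := by
  have h1 : nx (fs α e) = α e := by
    simp only [nx, fs, pv, sub_add_cancel]
  rw [h1, h.dr_neg]
  simp only [d2, Pi.neg_apply]
  ring

theorem Draw.ne0 (h : Rigid α) (dw : Draw α inf s D P) (d : X × ZMod 4) :
    dr α inf D P d ≠ 0 := by
  by_cases h1 : d.1 = inf
  · rw [rd_dr_in h1]
    exact neg_ne_zero.mpr (dw.cfg.ne _)
  by_cases h2 : (α d).1 = inf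
  · rw [rd_dr_out h1 h2]
    exact dw.cfg.ne _
  · rw [dr_edge h1 h2]
    intro h3
    exact h.noloop d (dw.inj _ _ h2 h1 (sub_eq_zero.mp h3))

private theorem rd_set {v x y u a b : X} (h : ({v, x, y} : Set X) = {u, a, b}) (h1 : v ≠ x)
    (h2 : x ≠ y) (h3 : y ≠ v) :
    (u = v ∧ ((a = x ∧ b = y) ∨ (b = x ∧ a = y))) ∨
    (u = x ∧ ((a = v ∧ b = y) ∨ (b = v ∧ a = y))) ∨
    (u = y ∧ ((a = v ∧ b = x) ∨ (b = v ∧ a = x))) := by
  have hv : v ∈ ({u, a, b} : Set X) := by rw [← h]; simp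
  have hx : x ∈ ({u, a, b} : Set X) := by rw [← h]; simp
  have hy : y ∈ ({u, a, b} : Set X) := by rw [← h]; simp
  simp only [Set.mem_insert_iff, Set.mem_singleton_iff] at hv hx hy
  rcases hv with hv | hv | hv <;> rcases hx with hx | hx | hx <;> rcases hy with hy | hy | hy <;>
    first
    | exact absurd (hv.trans hx.symm) h1
    | exact absurd (hx.trans hy.symm) h2
    | exact absurd (hy.trans hv.symm) h3
    | simp [hv, hx, hy]

/-- no triangle with a straight passage, in terms of the two straight neighbours -/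
private theorem rd_tl {o : X × ZMod 4 → Bool} (F : Frame α inf o s) (d d' : X × ZMod 4)
    (hd : d'.1 = d.1)
    (h : ((α ((α d).1, s (α d).1)).1 = d.1 ∧ (α ((α d).1, s (α d).1 + 2)).1 = (α d').1) ∨
      ((α ((α d).1, s (α d).1 + 2)).1 = d.1 ∧ (α ((α d).1, s (α d).1)).1 = (α d').1)) :
    False := by
  have h0 : (α (α d)).1 = d.1 := by rw [F.rig.inv]
  have h22 : (2 : ZMod 4) + 2 = 0 := by decide
  apply F.rig.tl d d' hd
  rcases h with ⟨h1, h2⟩ | ⟨h1, h2⟩
  · have e : α d = ((α d).1, s (α d).1) := F.rig.simple rfl (h0.trans h1.symm)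
    have e2 : op (α d) = ((α d).1, s (α d).1 + 2) := by
      have e3 := congrArg Prod.snd e
      simp only at e3
      simp only [op, e3]
    rw [e2]; exact h2
  · have e : α d = ((α d).1, s (α d).1 + 2) := F.rig.simple rfl (h0.trans h1.symm)
    have e2 : op (α d) = ((α d).1, s (α d).1) := by
      have e3 := congrArg Prod.snd e
      simp only at e3
      simp only [op, e3, add_assoc, h22, add_zero]
    rw [e2]; exact h2

private theorem rd_nd {o : X × ZMod 4 → Bool} (F : Frame α inf o s) {E : Fin 3 → H}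
    {lam : X → ℝ} {τ : Fin 3 → ℝ} {t : Fin 3 → X}
    (he : Eqm inf t (fun v => (α (v, s v)).1) (fun v => (α (v, s v + 2)).1) E lam τ P)
    (v : X) (i j : ZMod 4) (hv : v ≠ inf) (hi : (α (v, i)).1 ≠ inf) (hj : (α (v, j)).1 ≠ inf)
    (hij : i ≠ j) (hs : ¬ ((s v = i ∧ s v + 2 = j) ∨ (s v + 2 = i ∧ s v = j))) :
    d2 (dr α inf D P (v, i)) (dr α inf D P (v, j)) ≠ 0 := by
  intro h0
  have hvi : (α (v, i)).1 ≠ v := F.rig.noloop (v, i)
  have hvj : (α (v, j)).1 ≠ v := F.rig.noloop (v, j)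
  have hxy : (α (v, i)).1 ≠ (α (v, j)).1 := by
    intro h
    have := F.rig.simple (d := (v, i)) (d' := (v, j)) rfl h
    exact hij (congrArg Prod.snd this)
  have h1 : dt (P v) (P (α (v, i)).1) (P (α (v, j)).1) = 0 := by
    rw [dt_eq_d2 _ _ _ (he.nP v), he.nP, he.nP, one_smul]
    rw [dr_edge (d := (v, i)) hv hi, dr_edge (d := (v, j)) hv hj] at h0
    exact h0
  obtain ⟨u, hu, -, hset⟩ := he.tri _ _ _ hv hi hj hvi.symm hxy hvj h1
  rcases rd_set hset hvi.symm hxy hvj with ⟨e, h2⟩ | ⟨e, h2⟩ | ⟨e, h2⟩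
  · subst e
    apply hs
    rcases h2 with ⟨h3, h4⟩ | ⟨h3, h4⟩
    · left
      have a1 := F.rig.simple (d := (u, s u)) (d' := (u, i)) rfl h3
      have a2 := F.rig.simple (d := (u, s u + 2)) (d' := (u, j)) rfl h4
      exact ⟨congrArg Prod.snd a1, congrArg Prod.snd a2⟩
    · right
      have a1 := F.rig.simple (d := (u, s u + 2)) (d' := (u, i)) rfl h3
      have a2 := F.rig.simple (d := (u, s u)) (d' := (u, j)) rfl h4
      exact ⟨congrArg Prod.snd a1, congrArg Prod.snd a2⟩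
  · subst e
    exact rd_tl F (v, i) (v, j) rfl h2
  · subst e
    exact rd_tl F (v, j) (v, i) rfl h2

theorem Frame.draw {o : X × ZMod 4 → Bool} (F : Frame α inf o s) (hD : Cfg D) {lam : X → ℝ}
    {τ : Fin 3 → ℝ}
    (he : Eqm inf ![tp α inf 0, tp α inf 1, tp α inf 2] (fun v => (α (v, s v)).1)
      (fun v => (α (v, s v + 2)).1) ![D 0, D 1, D 2] lam τ P) : Draw α inf s D P := by
  have hport : ∀ k : ZMod 4, k ≠ 3 → ∃ c : ℝ, 0 < c ∧
      P (tp α inf k) = P (α (tp α inf k, s (tp α inf k) + 2)).1 + c • D k := by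
    intro k hk
    rcases rd_z4 k with rfl | rfl | rfl | rfl
    · exact ⟨τ 0, he.t0 0, he.eqt 0⟩
    · exact ⟨τ 1, he.t0 1, he.eqt 1⟩
    · exact ⟨τ 2, he.t0 2, he.eqt 2⟩
    · exact absurd rfl hk
  refine ⟨he.nP, hD, ?_, ?_, ?_, he.inj⟩
  · intro v hv
    have hb := F.b_inf hv
    by_cases hk : ∃ k : ZMod 4, k ≠ 3 ∧ v = tp α inf k
    · obtain ⟨k, hk, rfl⟩ := hk
      obtain ⟨c, hc, e⟩ := hport k hk
      refine ⟨c, hc, ?_⟩
      have e1 : dr α inf D P (tp α inf k, s (tp α inf k)) = D k := by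
        rw [← F.port_eq hk, F.rig.dr_port, neg_neg]
      rw [e1, dr_edge (d := (tp α inf k, s (tp α inf k) + 2)) hv hb]
      show P (α (tp α inf k, s (tp α inf k) + 2)).1 - P (tp α inf k) = _
      rw [e]
      abel
    · have ha : (α (v, s v)).1 ≠ inf := fun h => hk ((F.a_inf hv).1 h)
      have ht : ∀ k : Fin 3, v ≠ ![tp α inf 0, tp α inf 1, tp α inf 2] k := by
        intro k e
        fin_cases k
        · exact hk ⟨0, by decide, e⟩
        · exact hk ⟨1, by decide, e⟩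
        · exact hk ⟨2, by decide, e⟩
      have heq := he.eq v hv ht
      have l0 := he.l0 v
      have l1 := he.l1 v
      have l2 : 0 < 1 - lam v := by linarith
      refine ⟨lam v / (1 - lam v), div_pos l0 l2, ?_⟩
      rw [dr_edge (d := (v, s v)) hv ha, dr_edge (d := (v, s v + 2)) hv hb]
      funext c
      have hc := congrFun heq c
      simp only [Pi.add_apply, Pi.smul_apply, smul_eq_mul] at hc
      simp only [Pi.sub_apply, Pi.neg_apply, Pi.smul_apply, smul_eq_mul]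
      field_simp
      linarith
  · intro v i hv h1 h2
    have hz : ∀ i : ZMod 4, i ≠ i + 1 := by decide
    have hz2 : ∀ i j : ZMod 4, ¬ ((j = i ∧ j + 2 = i + 1) ∨ (j + 2 = i ∧ j = i + 1)) := by
      decide
    exact rd_nd F he v i (i + 1) hv h1 h2 (hz i) (hz2 i (s v))
  · intro v i hv hs h1 h2
    have hz : ∀ i : ZMod 4, i ≠ i + 2 := by decide
    refine rd_nd F he v i (i + 2) hv h1 h2 (hz i) ?_
    rintro (⟨h3, -⟩ | ⟨h3, -⟩)
    · exact hs (Or.inl h3.symm)
    · exact hs (Or.inr h3.symm)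

end SN78
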