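import Pool.Agent.SN78.RSweep

/-!
# SN78 module REMB: edges meet only at common ends

The edge of a dart `d` with `d.1 ≠ inf` consists of the points `x • P d.1 + y • qs (α d)`, `x, y ≥ 0`
(homogeneous coordinates; `qs (α d)` is `P (α d).1` or the direction of the port).

`cone`: all corners at `v` are positive and `dr (v, s v)`, `dr (v, s v + 2)` are opposite, so each flat
vector `u ≠ 0` is in one of the four half-open cones: compare `u` with the line of `dr (v, s v)`, then with
`dr (v, s v + 1)` or `dr (v, s v + 3)`.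

`site_on`: let `v ≠ inf` not be an end of `d'`, and `P v` a point of the edge `d'` (`d'.1 ≠ inf`).  By `inj` it is an
inner point: `P v = P d'.1 + μ • dr d'` with `0 < μ` (and `μ < 1` if `(α d').1 ≠ inf`).  By `cone`
`dr d' = x • dr (v, i) + y • dr (v, i + 1)`, `x > 0`, `y ≥ 0`.  Let `g = (v, i)`, `g' = (v, i + 1)`.
 * `y = 0`: for small `ε > 0` the point `z = P v + ε • dr d'` is an inner point of the edges `g` and `d'` and
   different from all `P u`.  By `inner` below `d' = g` or `d' = α g`, so `v` is an end of `d'`.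
 * `y > 0`: `exists_gen` near `l0 x = d2 (dr g - dr g') x` (positive on `dr g`, `dr g'`) with a generic `l`; let
   `c` be slightly larger than `dot l (P v)`, such that no site has a level in `(dot l (P v), c]`.  Then `g, g',
   d'` satisfy `Cr l c`, `fs α (α g') = g`, so `(fs α)^[n] g = α g'` for some `n` (`orbit_symm`), and the crossing
   point of `d'` is strictly between those of `g` and `g'`: contradiction to the second part of `sweep`
   (the crossing point of `g'` is to the left of the one of `g` since `d2 (dr g) (dr g') > 0`).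

`inner`: a point `z` (`z 2 = 1`), different from all `P u`, `u ≠ inf`, on the edges `d, d'`: then `d' = d` or
`d' = α d`.  Choose `l` generic with also `dot l (P u - z) ≠ 0` for all `u ≠ inf` (`exists_generic`).  With `c = dot l z` one
of `d, α d` and one of `d', α d'` satisfies `Cr l c`, and their crossing points are `z`; use `sweep`.

`edge_meet`: let `p` be the common point.  If `p 2 = 0`: `x = 0`, `z = 0`, and `p = y • qs (α d) = w • qs (α d')`.  If
`y = 0` or `w = 0` then `p = 0` and all coefficients vanish (`Cfg.ne`).  Otherwise the third alternative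
holds.  If `p 2 > 0` divide by `p 2` and use `inner` and `site_on`.
-/

namespace SN78

variable {X : Type} [Fintype X] {α : X × ZMod 4 → X × ZMod 4} {inf : X} {s : X → ZMod 4}
  {D : ZMod 4 → H} {P : X → H}

omit [Fintype X] in
private theorem re_q (dw : Draw α inf s D P) (e : X × ZMod 4) :
    (e.1 = inf ∧ qs D P inf e = D (-e.2) ∧ qs D P inf e 2 = 0) ∨
    (e.1 ≠ inf ∧ qs D P inf e = P e.1 ∧ qs D P inf e 2 = 1) := by
  by_cases h : e.1 = inf
  · left
    have e1 : qs D P inf e = D (-e.2) := by simp [qs, h]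
    exact ⟨h, e1, by rw [e1]; exact dw.cfg.flat _⟩
  · right
    have e1 : qs D P inf e = P e.1 := by simp [qs, h]
    exact ⟨h, e1, by rw [e1]; exact dw.nP _⟩

/-- a flat vector in the cone of two flat vectors -/
private theorem re_comb {a b u : H} (ha : a 2 = 0) (hb : b 2 = 0) (hu : u 2 = 0)
    (hab : 0 < d2 a b) : u = (d2 u b / d2 a b) • a + (d2 a u / d2 a b) • b := by
  have hne := hab.ne'
  funext k
  simp only [Pi.add_apply, Pi.smul_apply, smul_eq_mul]
  fin_cases k
  · simp only [Fin.zero_eta]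
    field_simp
    simp only [d2]
    ring
  · simp only [Fin.mk_one]
    field_simp
    simp only [d2]
    ring
  · simp only [Fin.reduceFinMk]
    rw [ha, hb, hu]
    ring

private theorem re_cyc (f : ZMod 4 → ℝ) {j k : ZMod 4} (hk : 0 ≤ f k) (hj : f j < 0) :
    ∃ i, 0 ≤ f i ∧ f (i + 1) < 0 := by
  by_contra hc
  push Not at hc
  have key : ∀ n : ℕ, 0 ≤ f (k + n) := by
    intro n
    induction n with
    | zero => simpa using hk
    | succ n ih =>
      have := hc _ ih
      have e : k + ((n + 1 : ℕ) : ZMod 4) = k + n + 1 := by push_cast; ring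
      rw [e]; exact this
  have := key (j - k).val
  rw [ZMod.natCast_zmod_val, add_sub_cancel] at this
  linarith

theorem Draw.cone (dw : Draw α inf s D P) (hp : Conv α inf D P) {v : X} (hv : v ≠ inf) {u : H}
    (hu2 : u 2 = 0) (hu : u ≠ 0) : ∃ (i : ZMod 4) (x y : ℝ), 0 < x ∧ 0 ≤ y ∧
      u = x • dr α inf D P (v, i) + y • dr α inf D P (v, i + 1) := by
  have hpos : ∀ i, 0 < d2 (dr α inf D P (v, i)) (dr α inf D P (v, i + 1)) :=
    fun i => hp (v, i) hv
  have key : ∃ k j : ZMod 4, 0 ≤ d2 (dr α inf D P (v, k)) u ∧ d2 (dr α inf D P (v, j)) u < 0 := by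
    obtain ⟨c, hc, e⟩ := dw.str v hv
    have e1 : d2 (dr α inf D P (v, s v + 2)) u = -(c * d2 (dr α inf D P (v, s v)) u) := by
      rw [e]
      simp only [d2, Pi.neg_apply, Pi.smul_apply, smul_eq_mul]
      ring
    rcases lt_trichotomy (d2 (dr α inf D P (v, s v)) u) 0 with h | h | h
    · refine ⟨s v + 2, s v, ?_, h⟩
      rw [e1]
      have := mul_neg_of_pos_of_neg hc h
      linarith
    · have h1 := re_comb (dw.flat (v, s v)) (dw.flat (v, s v + 1)) hu2 (hpos (s v))
      rw [h, zero_div, zero_smul, add_zero] at h1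
      set t := d2 u (dr α inf D P (v, s v + 1)) /
        d2 (dr α inf D P (v, s v)) (dr α inf D P (v, s v + 1)) with ht
      have h2 : d2 (dr α inf D P (v, s v + 1)) u =
          -(t * d2 (dr α inf D P (v, s v)) (dr α inf D P (v, s v + 1))) := by
        rw [h1, d2_smul_right, d2_swap]
        ring
      have h3 : d2 (dr α inf D P (v, s v + 3)) u =
          t * d2 (dr α inf D P (v, s v + 3)) (dr α inf D P (v, s v)) := by
        conv_lhs => rw [h1, d2_smul_right]
      have h4 := hpos (s v + 3)
      have h5 : s v + 3 + 1 = s v := by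
        rw [add_assoc]
        have : (3 : ZMod 4) + 1 = 0 := by decide
        rw [this, add_zero]
      rw [h5] at h4
      have h6 := hpos (s v)
      have ht0 : t ≠ 0 := by
        intro h0
        rw [h0, zero_smul] at h1
        exact hu h1
      rcases lt_or_gt_of_ne ht0 with h7 | h7
      · refine ⟨s v, s v + 3, h.ge, ?_⟩
        rw [h3]
        exact mul_neg_of_neg_of_pos h7 h4
      · refine ⟨s v, s v + 1, h.ge, ?_⟩
        rw [h2]
        have := mul_pos h7 h6
        linarith
    · refine ⟨s v, s v + 2, h.le, ?_⟩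
      rw [e1]
      have := mul_pos hc h
      linarith
  obtain ⟨k, j, hk, hj⟩ := key
  obtain ⟨i, h1, h2⟩ := re_cyc (fun i => d2 (dr α inf D P (v, i)) u) hk hj
  refine ⟨i, _, _, ?_, ?_, re_comb (dw.flat (v, i)) (dw.flat (v, i + 1)) hu2 (hpos i)⟩
  · apply div_pos _ (hpos i)
    rw [d2_swap]
    linarith
  · exact div_nonneg h1 (hpos i).le

omit [Fintype X] in
/-- points of an edge -/
private theorem re_form (dw : Draw α inf s D P) {d : X × ZMod 4} (hd : d.1 ≠ inf) {z : H}
    (hz2 : z 2 = 1) {x y : ℝ} (hx : 0 ≤ x) (he : z = x • P d.1 + y • qs D P inf (α d)) :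
    z = P d.1 + y • dr α inf D P d ∧
      ((α d).1 ≠ inf → y ≤ 1 ∧ (y = 1 → z = P (α d).1)) := by
  have h1 := dw.dr_qs (d := d) hd
  have h2 : x + y * qs D P inf (α d) 2 = 1 := by
    have := congrFun he 2
    simp only [Pi.add_apply, Pi.smul_apply, smul_eq_mul] at this
    rw [hz2, dw.nP, mul_one] at this
    exact this.symm
  constructor
  · rw [h1, he, smul_sub, smul_smul]
    have : x = 1 - y * qs D P inf (α d) 2 := by linarith
    rw [this, sub_smul, one_smul]
    abel
  · intro h3
    rcases re_q dw (α d) with ⟨h4, -, -⟩ | ⟨-, h5, h6⟩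
    · exact absurd h4 h3
    · rw [h6, mul_one] at h2
      refine ⟨by linarith, fun h7 => ?_⟩
      have h8 : x = 0 := by linarith
      rw [he, h8, h7, h5, zero_smul, zero_add, one_smul]

omit [Fintype X] in
private theorem re_on (dw : Draw α inf s D P) {d : X × ZMod 4} (hd : d.1 ≠ inf) {t : ℝ}
    (ht : 0 ≤ t) (ht1 : (α d).1 ≠ inf → t ≤ 1) :
    ∃ x y : ℝ, 0 ≤ x ∧ 0 ≤ y ∧
      P d.1 + t • dr α inf D P d = x • P d.1 + y • qs D P inf (α d) := by
  have h1 := dw.dr_qs (d := d) hd
  refine ⟨1 - t * qs D P inf (α d) 2, t, ?_, ht, ?_⟩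
  · rcases re_q dw (α d) with ⟨-, -, h4⟩ | ⟨h4, -, h5⟩
    · rw [h4]; linarith
    · rw [h5]; have := ht1 h4; linarith
  · rw [h1, smul_sub, smul_smul, sub_smul, one_smul]
    abel

private theorem re_dadd (l a b : H) : dot l (a + b) = dot l a + dot l b := by
  simp only [dot, Pi.add_apply]; ring

private theorem re_dsmul (l a : H) (k : ℝ) : dot l (k • a) = k * dot l a := by
  simp only [dot, Pi.smul_apply, smul_eq_mul]; ring

private theorem re_dneg (l a : H) : dot l (-a) = - dot l a := by
  simp only [dot, Pi.neg_apply]; ring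

private theorem re_dsub (l a b : H) : dot l (a - b) = dot l a - dot l b := by
  simp only [dot, Pi.sub_apply]; ring

private theorem re_cr (h : Rigid α) (dw : Draw α inf s D P) {l : H} (hl : Gen α inf D P l)
    {z : H} (hz2 : z 2 = 1) (hz : ∀ u, u ≠ inf → z ≠ P u) {d : X × ZMod 4} (hd : d.1 ≠ inf)
    (h1 : ∃ x y : ℝ, 0 ≤ x ∧ 0 ≤ y ∧ z = x • P d.1 + y • qs D P inf (α d)) :
    ∃ e, (e = d ∨ e = α d) ∧ Cr α inf D P l (dot l z) e ∧
      zc α inf D P l (dot l z) e = z := by
  obtain ⟨x, y, hx, hy, he⟩ := h1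
  obtain ⟨h2, h3⟩ := re_form dw hd hz2 hx he
  have hy0 : 0 < y := by
    rcases hy.eq_or_lt with h4 | h4
    · rw [← h4, zero_smul, add_zero] at h2
      exact absurd h2 (hz _ hd)
    · exact h4
  have hy1 : (α d).1 ≠ inf → y < 1 := by
    intro h4
    obtain ⟨h5, h6⟩ := h3 h4
    rcases h5.eq_or_lt with h7 | h7
    · exact absurd (h6 h7) (hz _ h4)
    · exact h7
  have hm := hl.2 d
  have hc : dot l z = dot l (P d.1) + y * dot l (dr α inf D P d) := by
    conv_lhs => rw [h2]
    rw [re_dadd, re_dsmul]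
  have hP : (α d).1 ≠ inf → P (α d).1 = P d.1 + dr α inf D P d := by
    intro h4
    rw [dr_edge hd h4]; abel
  have hPl : (α d).1 ≠ inf → dot l (P (α d).1) = dot l (P d.1) + dot l (dr α inf D P d) := by
    intro h4
    rw [hP h4, re_dadd]
  rcases lt_or_gt_of_ne hm with hm' | hm'
  · refine ⟨α d, Or.inr rfl, ⟨?_, ?_, ?_⟩, ?_⟩
    · rw [h.dr_neg, re_dneg]; linarith
    · intro h4
      rw [hPl h4, hc]
      have := mul_neg_of_pos_of_neg (sub_pos.2 (hy1 h4)) hm'
      linarith
    · intro _
      rw [h.inv, hc]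
      have := mul_neg_of_pos_of_neg hy0 hm'
      linarith
    · unfold zc
      by_cases h4 : (α d).1 = inf
      · have e1 : bs α inf (α d) = d.1 := by simp [bs, h4, h.inv]
        rw [e1, h.dr_neg, re_dneg, hc]
        have e2 : (dot l (P d.1) + y * dot l (dr α inf D P d) - dot l (P d.1)) /
            -dot l (dr α inf D P d) = -y := by
          field_simp
          ring
        rw [e2, h2]
        simp
      · have e1 : bs α inf (α d) = (α d).1 := by simp [bs, h4]
        rw [e1, h.dr_neg, re_dneg, hc, hPl h4]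
        have e2 : (dot l (P d.1) + y * dot l (dr α inf D P d) -
            (dot l (P d.1) + dot l (dr α inf D P d))) / -dot l (dr α inf D P d) = 1 - y := by
          field_simp
          ring
        rw [e2, hP h4, h2, smul_neg, sub_smul, one_smul]
        abel
  · refine ⟨d, Or.inl rfl, ⟨hm', ?_, ?_⟩, ?_⟩
    · intro _
      rw [hc]
      have := mul_pos hy0 hm'
      linarith
    · intro h4
      rw [hPl h4, hc]
      have := mul_pos (sub_pos.2 (hy1 h4)) hm'
      linarith
    · unfold zc
      have e1 : bs α inf d = d.1 := by simp [bs, hd]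
      rw [e1, hc]
      have e2 : (dot l (P d.1) + y * dot l (dr α inf D P d) - dot l (P d.1)) /
          dot l (dr α inf D P d) = y := by
        field_simp
        ring
      rw [e2, h2]

theorem Draw.inner (h : Rigid α) (dw : Draw α inf s D P) (hp : Conv α inf D P) {z : H}
    (hz : ∀ u, u ≠ inf → z ≠ P u) (hz2 : z 2 = 1) {d d' : X × ZMod 4} (hd : d.1 ≠ inf)
    (hd' : d'.1 ≠ inf) (h1 : ∃ x y : ℝ, 0 ≤ x ∧ 0 ≤ y ∧ z = x • P d.1 + y • qs D P inf (α d))
    (h2 : ∃ x y : ℝ, 0 ≤ x ∧ 0 ≤ y ∧ z = x • P d'.1 + y • qs D P inf (α d')) :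
    d' = d ∨ d' = α d := by
  classical
  obtain ⟨l, hl2, -, hl⟩ := exists_generic
    ((Finset.univ.image fun e : X × ZMod 4 => dr α inf D P e) ∪
      ((Finset.univ.filter fun u : X => u ≠ inf).image fun u => P u - z))
    (by
      intro x hx
      rw [Finset.mem_union, Finset.mem_image, Finset.mem_image] at hx
      rcases hx with ⟨e, -, rfl⟩ | ⟨u, hu, rfl⟩
      · exact ⟨dw.flat e, dw.ne0 h e⟩
      · rw [Finset.mem_filter] at hu
        refine ⟨by rw [Pi.sub_apply, dw.nP, hz2, sub_self], fun h3 => ?_⟩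
        exact hz u hu.2 (sub_eq_zero.1 h3).symm)
    0 rfl (dr α inf D P d) (dw.flat d) (dw.ne0 h d) (by simp [dot])
  have hgen : Gen α inf D P l := ⟨hl2, fun e => (hl _ (by
    rw [Finset.mem_union, Finset.mem_image]
    exact Or.inl ⟨e, Finset.mem_univ _, rfl⟩)).1⟩
  have hlev : ∀ v, v ≠ inf → dot l (P v) ≠ dot l z := by
    intro v hv h3
    have := (hl (P v - z) (by
      rw [Finset.mem_union, Finset.mem_image, Finset.mem_image]
      exact Or.inr ⟨v, by rw [Finset.mem_filter]; exact ⟨Finset.mem_univ _, hv⟩, rfl⟩)).1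
    apply this
    rw [re_dsub, h3, sub_self]
  obtain ⟨e, he, hc, hzc⟩ := re_cr h dw hgen hz2 hz hd h1
  obtain ⟨e', he', hc', hzc'⟩ := re_cr h dw hgen hz2 hz hd' h2
  have := (dw.sweep h hp hgen hlev).1 e e' hc hc' (by rw [hzc, hzc'])
  rcases he with he | he <;> rcases he' with he' | he'
  · left; rw [← he', ← this, he]
  · right
    have : α d' = d := by rw [← he', ← this, he]
    rw [← this, h.inv]
  · right; rw [← he', ← this, he]
  · left
    have : α d' = α d := by rw [← he', ← this, he]
    have := congrArg α this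
    rwa [h.inv, h.inv] at this

private theorem re_xc (l a b : H) (hl : l 2 = 0) :
    xc l b * dot l a - xc l a * dot l b = -((l 0 ^ 2 + l 1 ^ 2) * d2 a b) := by
  simp only [xc, dot, d2, hl]; ring

private theorem re_xadd (l a b : H) : xc l (a + b) = xc l a + xc l b := by
  simp only [xc, Pi.add_apply]; ring

private theorem re_xsmul (l a : H) (k : ℝ) : xc l (k • a) = k * xc l a := by
  simp only [xc, Pi.smul_apply, smul_eq_mul]; ring

/-- a small positive number avoiding a finite set -/
private theorem re_small (S : Finset ℝ) {δ : ℝ} (hδ : 0 < δ) : ∃ ε, 0 < ε ∧ ε < δ ∧ ε ∉ S := by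
  have : (Set.Ioo 0 δ \ (S : Set ℝ)).Nonempty :=
    ((Set.Ioo_infinite hδ).sdiff S.finite_toSet).nonempty
  obtain ⟨ε, h1, h2⟩ := this
  exact ⟨ε, h1.1, h1.2, by simpa using h2⟩

private theorem re_gap (f : X → ℝ) (t : ℝ) : ∃ ε, 0 < ε ∧ ∀ u, t < f u → t + ε < f u := by
  classical
  by_cases hne : (Finset.univ.filter fun u => t < f u).Nonempty
  · obtain ⟨u, hu, hmin⟩ := Finset.exists_min_image _ f hne
    rw [Finset.mem_filter] at hu
    refine ⟨(f u - t) / 2, by linarith [hu.2], fun w hw => ?_⟩
    have := hmin w (by rw [Finset.mem_filter]; exact ⟨Finset.mem_univ _, hw⟩)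
    linarith [hu.2]
  · rw [Finset.not_nonempty_iff_eq_empty, Finset.filter_eq_empty_iff] at hne
    exact ⟨1, one_pos, fun u hu => absurd hu (hne (Finset.mem_univ u))⟩

private theorem re_site (h : Rigid α) (dw : Draw α inf s D P) (hp : Conv α inf D P) {v : X}
    (hv : v ≠ inf) {d : X × ZMod 4} (hd : d.1 ≠ inf) (h1 : v ≠ d.1) (h2 : v ≠ (α d).1) {μ : ℝ}
    (hμ : 0 < μ) (hμ1 : (α d).1 ≠ inf → μ < 1) (he : P v = P d.1 + μ • dr α inf D P d) :
    False := by
  classical
  obtain ⟨i, x, y, hx, hy, hc⟩ := dw.cone hp hv (dw.flat d) (dw.ne0 h d)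
  rcases hy.eq_or_lt with hy0 | hy0
  · -- parallel
    rw [← hy0, zero_smul, add_zero] at hc
    have hδ : ∃ δ, 0 < δ ∧ ((α d).1 ≠ inf → μ + δ ≤ 1) ∧ x * δ ≤ 1 := by
      by_cases h3 : (α d).1 = inf
      · exact ⟨1 / x, by positivity, fun h4 => absurd h3 h4, by
          rw [mul_one_div, div_self hx.ne']⟩
      · have h4 := hμ1 h3
        refine ⟨min (1 - μ) (1 / x), lt_min (by linarith) (by positivity), fun _ => ?_, ?_⟩
        · have := min_le_left (1 - μ) (1 / x)
          linarith
        · calc x * min (1 - μ) (1 / x) ≤ x * (1 / x) :=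
                mul_le_mul_of_nonneg_left (min_le_right _ _) hx.le
            _ = 1 := by rw [mul_one_div, div_self hx.ne']
    obtain ⟨δ, hδ0, hδ1, hδ2⟩ := hδ
    -- choose a coordinate in which the direction is not zero
    have hne := dw.ne0 h d
    obtain ⟨k, hk⟩ : ∃ k, dr α inf D P d k ≠ 0 := by
      by_contra hcon
      push Not at hcon
      exact hne (funext hcon)
    obtain ⟨ε, hε0, hε1, hε2⟩ := re_small
      (Finset.univ.image fun u : X => (P u k - P v k) / dr α inf D P d k) hδ0
    have hz : ∀ u, u ≠ inf → P v + ε • dr α inf D P d ≠ P u := by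
      intro u _ h3
      apply hε2
      rw [Finset.mem_image]
      refine ⟨u, Finset.mem_univ _, ?_⟩
      rw [← h3, Pi.add_apply, Pi.smul_apply, smul_eq_mul, add_sub_cancel_left,
        mul_div_cancel_right₀ _ hk]
    have hz2 : (P v + ε • dr α inf D P d) 2 = 1 := by
      rw [Pi.add_apply, Pi.smul_apply, dw.nP, dw.flat, smul_zero, add_zero]
    have hg : (v, i).1 ≠ inf := hv
    have hon1 : ∃ x' y' : ℝ, 0 ≤ x' ∧ 0 ≤ y' ∧
        P v + ε • dr α inf D P d = x' • P (v, i).1 + y' • qs D P inf (α (v, i)) := by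
      obtain ⟨x', y', a1, a2, a3⟩ := re_on dw (d := (v, i)) hv (t := x * ε) (by positivity)
        (fun _ => by
          have := mul_le_mul_of_nonneg_left hε1.le hx.le
          linarith)
      refine ⟨x', y', a1, a2, ?_⟩
      rw [← a3]
      show P v + ε • dr α inf D P d = P v + (x * ε) • dr α inf D P (v, i)
      rw [hc, smul_smul, mul_comm x ε]
    have hon2 : ∃ x' y' : ℝ, 0 ≤ x' ∧ 0 ≤ y' ∧
        P v + ε • dr α inf D P d = x' • P d.1 + y' • qs D P inf (α d) := by
      obtain ⟨x', y', a1, a2, a3⟩ := re_on dw (d := d) hd (t := μ + ε) (by linarith)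
        (fun h4 => by have := hδ1 h4; linarith)
      refine ⟨x', y', a1, a2, ?_⟩
      rw [← a3, he, add_smul]
      abel
    rcases dw.inner h hp hz hz2 hg hd hon1 hon2 with h3 | h3
    · exact h1 (by rw [h3])
    · exact h2 (by rw [h3, h.inv])
  · -- between two darts
    have hpos : 0 < d2 (dr α inf D P (v, i)) (dr α inf D P (v, i + 1)) := hp (v, i) hv
    set a := dr α inf D P (v, i) with ha
    set b := dr α inf D P (v, i + 1) with hb
    have hl0 : ∀ u : H, dot ![-((a - b) 1), (a - b) 0, 0] u = d2 (a - b) u := by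
      intro u
      simp only [dot, d2, Matrix.cons_val_zero, Matrix.cons_val_one, Matrix.cons_val]
      ring
    have hA : 0 < d2 (a - b) a := by
      have : d2 (a - b) a = d2 a b := by simp only [d2, Pi.sub_apply]; ring
      rw [this]; exact hpos
    have hB : 0 < d2 (a - b) b := by
      have : d2 (a - b) b = d2 a b := by simp only [d2, Pi.sub_apply]; ring
      rw [this]; exact hpos
    obtain ⟨l, hl, hla, hlb⟩ := dw.exists_gen h ![-((a - b) 1), (a - b) 0, 0] rfl (v, i)
      (by rw [hl0]; exact hA.le)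
    have hlb' : 0 < dot l b := (hlb (v, i + 1)).1 (by rw [hl0]; exact hB)
    have hla' : 0 < dot l a := hla
    have hld : 0 < dot l (dr α inf D P d) := by
      rw [hc, re_dadd, re_dsmul, re_dsmul]
      have := mul_pos hx hla'
      have := mul_pos hy0 hlb'
      linarith
    obtain ⟨ε, hε, hgap⟩ := re_gap (fun u => dot l (P u)) (dot l (P v))
    have hlev : ∀ u, u ≠ inf → dot l (P u) ≠ dot l (P v) + ε := by
      intro u _ h3
      have := hgap u (by rw [h3]; linarith)
      rw [h3] at this
      exact lt_irrefl _ this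
    have hcrv : ∀ g : X × ZMod 4, g.1 = v → 0 < dot l (dr α inf D P g) →
        Cr α inf D P l (dot l (P v) + ε) g := by
      intro g hg hpos'
      refine ⟨hpos', fun _ => by rw [hg]; linarith, fun h4 => ?_⟩
      apply hgap
      have h5 := dr_edge (D := D) (P := P) (hg ▸ hv : g.1 ≠ inf) h4
      rw [h5, re_dsub, hg] at hpos'
      linarith
    have hcra := hcrv (v, i) rfl hla
    have hcrb := hcrv (v, i + 1) rfl hlb'
    have hlv : dot l (P v) = dot l (P d.1) + μ * dot l (dr α inf D P d) := by
      conv_lhs => rw [he]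
      rw [re_dadd, re_dsmul]
    have hcrd : Cr α inf D P l (dot l (P v) + ε) d := by
      refine ⟨hld, fun _ => ?_, fun h4 => ?_⟩
      · rw [hlv]
        have := mul_pos hμ hld
        linarith
      · apply hgap
        have h5 := dr_edge (D := D) (P := P) hd h4
        have h6 : dot l (P (α d).1) = dot l (P d.1) + dot l (dr α inf D P d) := by
          rw [h5, re_dsub]; ring
        rw [h6, hlv]
        have := mul_pos (sub_pos.2 (hμ1 h4)) hld
        linarith
    have hza : xc l (zc α inf D P l (dot l (P v) + ε) (v, i)) =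
        xc l (P v) + ε / dot l a * xc l a := by
      unfold zc
      have e1 : bs α inf (v, i) = v := by simp [bs, hv]
      rw [e1, re_xadd, re_xsmul, add_sub_cancel_left]
    have hzb : xc l (zc α inf D P l (dot l (P v) + ε) (v, i + 1)) =
        xc l (P v) + ε / dot l b * xc l b := by
      unfold zc
      have e1 : bs α inf (v, i + 1) = v := by simp [bs, hv]
      rw [e1, re_xadd, re_xsmul, add_sub_cancel_left]
    have hzd : xc l (zc α inf D P l (dot l (P v) + ε) d) =
        xc l (P v) + ε / dot l (dr α inf D P d) * xc l (dr α inf D P d) := by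
      unfold zc
      have e1 : bs α inf d = d.1 := by simp [bs, hd]
      rw [e1, re_xadd, re_xsmul, hlv, he, re_xadd, re_xsmul]
      have hne := hld.ne'
      field_simp
      ring
    have hfs : (fs α)^[1] (α (v, i + 1)) = (v, i) := by
      simp only [Function.iterate_one, fs, pv, h.inv, add_sub_cancel_right]
    obtain ⟨m, hm⟩ := h.orbit_symm hfs
    refine (dw.sweep h hp hl hlev).2 (v, i) (v, i + 1) d hcra hcrb hcrd ⟨m, hm⟩ ?_
    rw [hza, hzb, hzd, hc]
    rw [re_dadd, re_dsmul, re_dsmul, re_xadd, re_xsmul, re_xsmul]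
    have hX := re_xc l a b hl.1
    have hll : 0 < l 0 ^ 2 + l 1 ^ 2 := by
      by_contra hcon
      have h3 : l 0 ^ 2 + l 1 ^ 2 = 0 := le_antisymm (not_lt.1 hcon) (by positivity)
      have h4 : l 0 = 0 := by nlinarith [sq_nonneg (l 0), sq_nonneg (l 1)]
      have h5 : l 1 = 0 := by nlinarith [sq_nonneg (l 0), sq_nonneg (l 1)]
      have : dot l a = 0 := by simp only [dot, h4, h5, hl.1]; ring
      linarith
    have hX' : xc l b * dot l a < xc l a * dot l b := by
      have := mul_pos hll hpos
      linarith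
    have hT : 0 < x * dot l a + y * dot l b := by positivity
    constructor
    · have : xc l b / dot l b < (x * xc l a + y * xc l b) / (x * dot l a + y * dot l b) := by
        rw [div_lt_div_iff₀ hlb' hT]
        have := mul_lt_mul_of_pos_left hX' hx
        nlinarith
      have h4 := mul_lt_mul_of_pos_left this hε
      have e1 : ε * (xc l b / dot l b) = ε / dot l b * xc l b := by ring
      have e2 : ε * ((x * xc l a + y * xc l b) / (x * dot l a + y * dot l b)) =
        ε / (x * dot l a + y * dot l b) * (x * xc l a + y * xc l b) := by ring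
      rw [e1, e2] at h4
      linarith
    · have : (x * xc l a + y * xc l b) / (x * dot l a + y * dot l b) < xc l a / dot l a := by
        rw [div_lt_div_iff₀ hT hla']
        have := mul_lt_mul_of_pos_left hX' hy0
        nlinarith
      have h4 := mul_lt_mul_of_pos_left this hε
      have e1 : ε * (xc l a / dot l a) = ε / dot l a * xc l a := by ring
      have e2 : ε * ((x * xc l a + y * xc l b) / (x * dot l a + y * dot l b)) =
        ε / (x * dot l a + y * dot l b) * (x * xc l a + y * xc l b) := by ring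
      rw [e1, e2] at h4
      linarith

private theorem re_norm {c : ℝ} (hc : 0 < c) {x y : ℝ} {p q r : H}
    (he : x • p + y • q = c • r) : r = (x / c) • p + (y / c) • q := by
  have h1 : (1 / c) • (c • r) = r := by rw [smul_smul, one_div_mul_cancel hc.ne', one_smul]
  rw [← h1, ← he, smul_add, smul_smul, smul_smul]
  congr 2 <;> ring

theorem Draw.site_on (h : Rigid α) (dw : Draw α inf s D P) (hp : Conv α inf D P) {v : X}
    (hv : v ≠ inf) {d : X × ZMod 4} (hd : d.1 ≠ inf) {x y c : ℝ} (hx : 0 ≤ x) (hy : 0 ≤ y)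
    (hc : 0 < c) (he : x • P d.1 + y • qs D P inf (α d) = c • P v) :
    v = d.1 ∨ v = (α d).1 := by
  by_contra hcon
  push Not at hcon
  have h1 := re_norm hc he
  obtain ⟨h2, h3⟩ := re_form dw hd (dw.nP v) (div_nonneg hx hc.le) h1
  refine re_site h dw hp hv hd hcon.1 hcon.2 (μ := y / c) ?_ ?_ h2
  · rcases (div_nonneg hy hc.le).eq_or_lt with h4 | h4
    · rw [← h4, zero_smul, add_zero] at h2
      exact absurd (dw.inj _ _ hv hd h2) hcon.1
    · exact h4
  · intro h4
    obtain ⟨h5, h6⟩ := h3 h4
    rcases h5.eq_or_lt with h7 | h7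
    · exact absurd (dw.inj _ _ hv h4 (h6 h7)) hcon.2
    · exact h7

omit [Fintype X] in
private theorem re_qne (dw : Draw α inf s D P) (e : X × ZMod 4) : qs D P inf e ≠ 0 := by
  rcases re_q dw e with ⟨-, h1, -⟩ | ⟨-, -, h1⟩
  · rw [h1]; exact dw.cfg.ne _
  · intro h2; rw [h2] at h1; simp at h1

theorem Draw.edge_meet (h : Rigid α) (dw : Draw α inf s D P) (hp : Conv α inf D P)
    {d d' : X × ZMod 4} (hd : d.1 ≠ inf) (hd' : d'.1 ≠ inf) (h1 : d' ≠ d) (h2 : d' ≠ α d)
    {x y z w : ℝ} (hx : 0 ≤ x) (hy : 0 ≤ y) (hz : 0 ≤ z) (hw : 0 ≤ w)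
    (he : x • P d.1 + y • qs D P inf (α d) = z • P d'.1 + w • qs D P inf (α d')) :
    (x = 0 ∧ y = 0 ∧ z = 0 ∧ w = 0) ∨
    (∃ (u : X) (c : ℝ), u ≠ inf ∧ 0 < c ∧ (u = d.1 ∨ u = (α d).1) ∧
      (u = d'.1 ∨ u = (α d').1) ∧ x • P d.1 + y • qs D P inf (α d) = c • P u) ∨
    ((α d).1 = inf ∧ (α d').1 = inf ∧
      ∃ c : ℝ, 0 < c ∧ qs D P inf (α d') = c • qs D P inf (α d)) := by
  have hcoord : ∀ (e : X × ZMod 4) (x y : ℝ),
      (x • P e.1 + y • qs D P inf (α e)) 2 = x + y * qs D P inf (α e) 2 := by
    intro e x y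
    simp only [Pi.add_apply, Pi.smul_apply, smul_eq_mul, dw.nP, mul_one]
  have hq : ∀ e : X × ZMod 4, 0 ≤ qs D P inf e 2 := by
    intro e
    rcases re_q dw e with ⟨-, -, h3⟩ | ⟨-, -, h3⟩ <;> rw [h3]
    exact zero_le_one
  have hr0 : 0 ≤ x + y * qs D P inf (α d) 2 := by
    have := mul_nonneg hy (hq (α d))
    linarith
  have hr' : x + y * qs D P inf (α d) 2 = z + w * qs D P inf (α d') 2 := by
    rw [← hcoord, he, hcoord]
  rcases hr0.eq_or_lt with hr | hr
  · have a1 := mul_nonneg hy (hq (α d))
    have a2 := mul_nonneg hw (hq (α d'))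
    have x0 : x = 0 := by linarith
    have z0 : z = 0 := by linarith
    have yq : y * qs D P inf (α d) 2 = 0 := by linarith
    have wq : w * qs D P inf (α d') 2 = 0 := by linarith
    rw [x0, z0, zero_smul, zero_smul, zero_add, zero_add] at he
    by_cases y0 : y = 0
    · rw [y0, zero_smul] at he
      rcases smul_eq_zero.1 he.symm with h3 | h3
      · exact Or.inl ⟨x0, y0, z0, h3⟩
      · exact absurd h3 (re_qne dw _)
    by_cases w0 : w = 0
    · rw [w0, zero_smul] at he
      rcases smul_eq_zero.1 he with h3 | h3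
      · exact absurd h3 y0
      · exact absurd h3 (re_qne dw _)
    right; right
    have q0 : qs D P inf (α d) 2 = 0 := (mul_eq_zero.1 yq).resolve_left y0
    have q0' : qs D P inf (α d') 2 = 0 := (mul_eq_zero.1 wq).resolve_left w0
    have i1 : (α d).1 = inf := by
      rcases re_q dw (α d) with ⟨h3, -, -⟩ | ⟨-, -, h3⟩
      · exact h3
      · rw [q0] at h3; exact absurd h3 zero_ne_one
    have i2 : (α d').1 = inf := by
      rcases re_q dw (α d') with ⟨h3, -, -⟩ | ⟨-, -, h3⟩
      · exact h3
      · rw [q0'] at h3; exact absurd h3 zero_ne_one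
    have yp : 0 < y := lt_of_le_of_ne hy (Ne.symm y0)
    have wp : 0 < w := lt_of_le_of_ne hw (Ne.symm w0)
    refine ⟨i1, i2, y / w, div_pos yp wp, ?_⟩
    have : (1 / w) • (w • qs D P inf (α d')) = qs D P inf (α d') := by
      rw [smul_smul, one_div_mul_cancel wp.ne', one_smul]
    rw [← this, ← he, smul_smul]
    congr 1
    ring
  · set r := x + y * qs D P inf (α d) 2 with hrdef
    by_cases hsite : ∃ u, u ≠ inf ∧ (1 / r) • (x • P d.1 + y • qs D P inf (α d)) = P u
    · obtain ⟨u, hu, hue⟩ := hsite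
      have e1 : x • P d.1 + y • qs D P inf (α d) = r • P u := by
        rw [← hue, smul_smul, mul_one_div, div_self hr.ne', one_smul]
      right; left
      exact ⟨u, r, hu, hr, dw.site_on h hp hu hd hx hy hr e1,
        dw.site_on h hp hu hd' hz hw hr (he ▸ e1), e1⟩
    · exfalso
      push Not at hsite
      have e1 : (1 / r) • (x • P d.1 + y • qs D P inf (α d)) =
          (x / r) • P d.1 + (y / r) • qs D P inf (α d) := by
        rw [smul_add, smul_smul, smul_smul]
        congr 2 <;> ring
      have e2 : (1 / r) • (x • P d.1 + y • qs D P inf (α d)) =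
          (z / r) • P d'.1 + (w / r) • qs D P inf (α d') := by
        rw [he, smul_add, smul_smul, smul_smul]
        congr 2 <;> ring
      rcases dw.inner h hp (z := (1 / r) • (x • P d.1 + y • qs D P inf (α d)))
        (fun u hu => hsite u hu)
        (by rw [Pi.smul_apply, hcoord, smul_eq_mul, ← hrdef, one_div_mul_cancel hr.ne'])
        hd hd' ⟨x / r, y / r, div_nonneg hx hr.le, div_nonneg hy hr.le, e1⟩
        ⟨z / r, w / r, div_nonneg hz hr.le, div_nonneg hw hr.le, e2⟩ with h3 | h3
      · exact h1 h3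
      · exact h2 h3

end SN78
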