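import Pool.Agent.SN78.RTL

/-!
# SN78 module RFRAME: frames

`exists_frame`: take `o` from `checkerboard`; if `o (inf, 0) = true` replace `o` by its negation.  For
`v = tp α inf k` with `k ∈ {0, 1, 2}` (`tp` is injective) let `s v = (α (inf, -k)).2`; for all other `v`
choose `s v` with `o (v, s v) = true`.  For `k = 0, 2` we have
`o (α (inf, -k)) = !o (inf, -k) = !o (inf, 0) = true`, so `out` holds for these sites too.
For `k = 1` we have `o (α (inf, -1)) = false`, for `k = 3` also.

`st_two`: if neither of the two sites is `t₁ = tp α inf 1` then `o d = true` and `o (α d) = true`,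
contradiction to `oal`.  So say `d.1 = t₁`; `d.2 = s t₁` is excluded, since this dart leads to `inf`.
`nst_two` is similar.  `star_ne` and `through_ne` are `Rigid.tl` at the site `inf`.
-/

namespace SN78

variable {X : Type} [Fintype X] {α : X × ZMod 4 → X × ZMod 4} {inf : X}
  {o : X × ZMod 4 → Bool} {s : X → ZMod 4}

private theorem rf_z4 (j : ZMod 4) : j = 0 ∨ j = 1 ∨ j = 2 ∨ j = 3 := by
  revert j; decide

private theorem rf_add {o : X × ZMod 4 → Bool} (onx : ∀ d, o (nx d) = !o d) (v : X)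
    (i j : ZMod 4) : (o (v, i + j) = true) ↔ ((j = 0 ∨ j = 2) ↔ o (v, i) = true) := by
  have h1 : ∀ i, o (v, i + 1) = !o (v, i) := fun i => onx (v, i)
  have h2 : ∀ i, o (v, i + 2) = o (v, i) := by
    intro i
    have : i + 2 = (i + 1) + 1 := by rw [add_assoc]; congr 1
    rw [this, h1, h1]; simp
  have h3 : ∀ i, o (v, i + 3) = !o (v, i) := by
    intro i
    have : i + 3 = (i + 2) + 1 := by rw [add_assoc]; congr 1
    rw [this, h1, h2]
  rcases rf_z4 j with rfl | rfl | rfl | rfl
  · simp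
  · rw [h1]
    have e : ¬ ((1 : ZMod 4) = 0 ∨ (1 : ZMod 4) = 2) := by decide
    simp [e]
  · rw [h2]
    have e : ((2 : ZMod 4) = 0 ∨ (2 : ZMod 4) = 2) := by decide
    simp [e]
  · rw [h3]
    have e : ¬ ((3 : ZMod 4) = 0 ∨ (3 : ZMod 4) = 2) := by decide
    simp [e]

private theorem rf_st (s : X → ZMod 4) (d : X × ZMod 4) :
    St s d ↔ (d.2 - s d.1 = 0 ∨ d.2 - s d.1 = 2) := by
  unfold St
  rw [sub_eq_zero, sub_eq_iff_eq_add, add_comm (2 : ZMod 4)]

private theorem rf_st_o {o : X × ZMod 4 → Bool} (onx : ∀ d, o (nx d) = !o d) (s : X → ZMod 4)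
    (d : X × ZMod 4) : (o d = true) ↔ (St s d ↔ o (d.1, s d.1) = true) := by
  have := rf_add onx d.1 (s d.1) (d.2 - s d.1)
  rw [add_sub_cancel, ← rf_st] at this
  exact this

theorem Rigid.tp_inj (h : Rigid α) (inf : X) {k l : ZMod 4} (hkl : tp α inf k = tp α inf l) :
    k = l := by
  have := h.simple (d := (inf, -k)) (d' := (inf, -l)) rfl hkl
  have h2 : -k = -l := congrArg Prod.snd this
  exact neg_injective h2

theorem Rigid.tp_ne (h : Rigid α) (inf : X) (k : ZMod 4) : tp α inf k ≠ inf :=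
  h.noloop (inf, -k)

private theorem rf_exists (h : Rigid α) (inf : X) (o : X × ZMod 4 → Bool)
    (onx : ∀ d, o (nx d) = !o d) (oal : ∀ d, o (α d) = !o d) (oinf : o (inf, 0) = false) :
    ∃ s, Frame α inf o s := by
  classical
  let s : X → ZMod 4 := fun v =>
    if hk : ∃ k, k ≠ 3 ∧ tp α inf k = v then (α (inf, -hk.choose)).2
    else if o (v, 0) = true then 0 else 1
  have hs1 : ∀ k, k ≠ 3 → s (tp α inf k) = (α (inf, -k)).2 := by
    intro k hk
    have hex : ∃ k', k' ≠ 3 ∧ tp α inf k' = tp α inf k := ⟨k, hk, rfl⟩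
    have : hex.choose = k := h.tp_inj inf hex.choose_spec.2
    show (if hk : ∃ k', k' ≠ 3 ∧ tp α inf k' = tp α inf k then (α (inf, -hk.choose)).2
      else if o (tp α inf k, 0) = true then 0 else 1) = _
    rw [dif_pos hex, this]
  refine ⟨s, h, onx, oal, oinf, hs1, ?_⟩
  intro v hv hv1
  by_cases hex : ∃ k, k ≠ 3 ∧ tp α inf k = v
  · obtain ⟨k, hk3, rfl⟩ := hex
    have hk1 : k ≠ 1 := fun e => hv1 (by rw [e])
    have e1 : (tp α inf k, s (tp α inf k)) = α (inf, -k) := by
      rw [hs1 k hk3]; rfl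
    rw [e1, oal]
    have e2 := rf_add onx inf 0 (-k)
    rw [zero_add, oinf] at e2
    rcases rf_z4 k with rfl | rfl | rfl | rfl
    · simp [oinf]
    · exact absurd rfl hk1
    · have e : ((-2 : ZMod 4) = 0 ∨ (-2 : ZMod 4) = 2) := by decide
      have : ¬ (o (inf, -2) = true) := by
        rw [e2]; intro h5; exact absurd (h5.1 e) (by decide)
      simpa using this
    · exact absurd rfl hk3
  · have : s v = if o (v, 0) = true then 0 else 1 := by
      show (if hk : ∃ k', k' ≠ 3 ∧ tp α inf k' = v then (α (inf, -hk.choose)).2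
        else if o (v, 0) = true then 0 else 1) = _
      rw [dif_neg hex]
    rw [this]
    by_cases ho : o (v, 0) = true
    · rw [if_pos ho]; exact ho
    · rw [if_neg ho]
      have := onx (v, 0)
      unfold nx at this
      simp only [zero_add] at this
      rw [this]; simpa using ho

theorem Rigid.exists_frame (h : Rigid α) (inf : X) : ∃ o s, Frame α inf o s := by
  obtain ⟨o, onx, oal⟩ := h.checkerboard
  by_cases ho : o (inf, 0) = true
  · refine ⟨fun d => !o d, rf_exists h inf _ ?_ ?_ ?_⟩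
    · intro d; simp only [onx]
    · intro d; simp only [oal]
    · simp [ho]
  · exact ⟨o, rf_exists h inf o onx oal (by simpa using ho)⟩

theorem Frame.port_eq (F : Frame α inf o s) {k : ZMod 4} (hk : k ≠ 3) :
    α (inf, -k) = (tp α inf k, s (tp α inf k)) := by
  rw [F.port k hk]; rfl

theorem Frame.st_iff (F : Frame α inf o s) {d : X × ZMod 4} (h1 : d.1 ≠ inf)
    (h2 : d.1 ≠ tp α inf 1) : St s d ↔ o d = true := by
  have := rf_st_o F.onx s d
  rw [F.out d.1 h1 h2] at this
  simpa using this.symm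

private theorem rf_o1 (F : Frame α inf o s) : o (tp α inf 1, s (tp α inf 1)) = false := by
  rw [← F.port_eq (k := 1) (by decide), F.oal]
  have e2 := rf_add F.onx inf (-1) 1
  have e3 : ¬ ((1 : ZMod 4) = 0 ∨ (1 : ZMod 4) = 2) := by decide
  rw [neg_add_cancel, F.oinf] at e2
  simp only [e3, false_iff] at e2
  simp at e2
  simp [e2]

theorem Frame.st_iff1 (F : Frame α inf o s) {d : X × ZMod 4} (h : d.1 = tp α inf 1) :
    St s d ↔ o d = false := by
  have := rf_st_o F.onx s d
  rw [h, rf_o1 F] at this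
  cases ho : o d
  · rw [ho] at this; simp at this; simp [this]
  · rw [ho] at this; simp at this; simp [this]

/-- port `3` is not on the straight strand of its site -/
theorem Frame.nst_port (F : Frame α inf o s) : ¬ St s (α (inf, -3)) := by
  have h1 : (α (inf, -3)).1 ≠ inf := F.rig.tp_ne inf 3
  have h2 : (α (inf, -3)).1 ≠ tp α inf 1 := fun e => by
    have := F.rig.tp_inj inf (k := 3) (l := 1) e
    exact absurd this (by decide)
  rw [F.st_iff h1 h2, F.oal]
  have e2 := rf_add F.onx inf 0 (-3)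
  have e3 : ¬ ((-3 : ZMod 4) = 0 ∨ (-3 : ZMod 4) = 2) := by decide
  rw [zero_add, F.oinf] at e2
  simp only [e3, false_iff] at e2
  simp at e2
  simp [e2]

theorem Frame.st_two (F : Frame α inf o s) {d : X × ZMod 4} (h1 : d.1 ≠ inf)
    (h2 : (α d).1 ≠ inf) (h3 : St s d) (h4 : St s (α d)) :
    d = (tp α inf 1, s (tp α inf 1) + 2) ∨ α d = (tp α inf 1, s (tp α inf 1) + 2) := by
  have key : ∀ e : X × ZMod 4, (α e).1 ≠ inf → St s e → e.1 = tp α inf 1 →
      e = (tp α inf 1, s (tp α inf 1) + 2) := by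
    intro e he hst h1
    rcases hst with h | h
    · exfalso
      have : e = α (inf, -1) := by
        rw [F.port_eq (k := 1) (by decide)]
        exact Prod.ext h1 (by rw [h, h1])
      rw [this, F.rig.inv] at he
      exact he rfl
    · exact Prod.ext h1 (by rw [h, h1])
  by_cases c1 : d.1 = tp α inf 1
  · exact Or.inl (key d h2 h3 c1)
  by_cases c2 : (α d).1 = tp α inf 1
  · exact Or.inr (key (α d) (by rw [F.rig.inv]; exact h1) h4 c2)
  exfalso
  have a1 := (F.st_iff h1 c1).1 h3
  have a2 := (F.st_iff h2 c2).1 h4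
  rw [F.oal, a1] at a2
  simp at a2

theorem Frame.nst_two (F : Frame α inf o s) {d : X × ZMod 4} (h1 : d.1 ≠ inf)
    (h2 : (α d).1 ≠ inf) (h3 : ¬ St s d) (h4 : ¬ St s (α d)) :
    d.1 = tp α inf 1 ∨ (α d).1 = tp α inf 1 := by
  by_contra hc
  push Not at hc
  rw [F.st_iff h1 hc.1] at h3
  rw [F.st_iff h2 hc.2, F.oal] at h4
  simp at h3 h4
  rw [h3] at h4
  exact absurd h4 (by decide)

theorem Frame.a_inf (F : Frame α inf o s) {v : X} (hv : v ≠ inf) :
    (α (v, s v)).1 = inf ↔ ∃ k : ZMod 4, k ≠ 3 ∧ v = tp α inf k := by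
  constructor
  · intro h
    have e1 : α (v, s v) = (inf, -(-(α (v, s v)).2)) := by
      rw [neg_neg]; exact Prod.ext h rfl
    have e2 : (v, s v) = α (inf, -(-(α (v, s v)).2)) := by
      rw [← e1, F.rig.inv]
    refine ⟨-(α (v, s v)).2, ?_, congrArg Prod.fst e2⟩
    intro e3
    rw [e3] at e2
    apply F.nst_port
    rw [← e2]
    exact Or.inl rfl
  · rintro ⟨k, hk, rfl⟩
    rw [← F.port_eq hk, F.rig.inv]

theorem Frame.b_inf (F : Frame α inf o s) {v : X} (hv : v ≠ inf) :
    (α (v, s v + 2)).1 ≠ inf := by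
  intro h
  have e1 : α (v, s v + 2) = (inf, -(-(α (v, s v + 2)).2)) := by
    rw [neg_neg]; exact Prod.ext h rfl
  have e2 : (v, s v + 2) = α (inf, -(-(α (v, s v + 2)).2)) := by
    rw [← e1, F.rig.inv]
  by_cases e3 : -(α (v, s v + 2)).2 = 3
  · rw [e3] at e2
    apply F.nst_port
    rw [← e2]
    exact Or.inr rfl
  · rw [F.port_eq e3] at e2
    have e4 : v = tp α inf (-(α (v, s v + 2)).2) := congrArg Prod.fst e2
    have e5 : s v + 2 = s (tp α inf (-(α (v, s v + 2)).2)) := congrArg Prod.snd e2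
    rw [← e4] at e5
    have e6 : (2 : ZMod 4) = 0 := by
      have := congrArg (fun x => x - s v) e5
      simpa using this
    exact absurd e6 (by decide)

/-- the edge `(t₁, s t₁ + 2)` is straight at both ends -/
theorem Frame.star_st (F : Frame α inf o s) : St s (α (tp α inf 1, s (tp α inf 1) + 2)) := by
  have h1 : (α (tp α inf 1, s (tp α inf 1) + 2)).1 ≠ inf := F.b_inf (F.rig.tp_ne inf 1)
  have h2 : (α (tp α inf 1, s (tp α inf 1) + 2)).1 ≠ tp α inf 1 := F.rig.noloop _
  rw [F.st_iff h1 h2, F.oal]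
  have := (F.st_iff1 (d := (tp α inf 1, s (tp α inf 1) + 2)) rfl).1 (Or.inr rfl)
  rw [this]; rfl

theorem Frame.star_ne (F : Frame α inf o s) (k : ZMod 4) :
    (α (tp α inf 1, s (tp α inf 1) + 2)).1 ≠ tp α inf k := by
  have := F.rig.tl (inf, -1) (inf, -k) rfl
  rw [F.port_eq (k := 1) (by decide)] at this
  exact this

theorem Frame.through_ne (F : Frame α inf o s) (i k : ZMod 4) :
    (α (op (α (inf, i)))).1 ≠ tp α inf k :=
  F.rig.tl (inf, i) (inf, -k) rfl

end SN78
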