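import Pool.Agent.SN78.RCut

/-!
# SN78 module RHOM: in a plane map each cycle mod 2 bounds

Proof (dimension count over `ZMod 2`, or counting elements).  Let `C⁰` be the functions on the faces
(functions `w` of darts with `w (fs α d) = w d`), `Z` the space of all `c : X × ZMod 4 → ZMod 2` with
`c (α d) = c d` and all site sums `0`.  The map `δ w d = w d + w (pv d)` sends `C⁰` to `Z`:
`w (α d) = w (fs α (α d)) = w (pv d)` and `w (pv (α d)) = w (fs α d) = w d`, so `δ w (α d) = δ w d`; the
site sums telescope.  Its kernel: `w` is constant on each site and `w (α d) = w d`, so `w` is constant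
by `Rigid.connected`: two elements.  So the image has `2 ^ (card (Face α) - 1) = 2 ^ (card X + 1)`
elements.  `Z`: the functions with `c (α d) = c d` are the functions on the `2 card X` edges
(`4 card X` darts, `α` has no fixed point), `2 ^ (2 card X)` elements; the map to the site sums
`X → ZMod 2` has rank at least `card X - 1`: the sums of two neighbouring sites `x, y` can be
changed simultaneously by the function which is `1` on one edge between them (no loops), so by
connectedness the image contains all functions with even sum.  So `Z` has at most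
`2 ^ (2 card X - (card X - 1)) = 2 ^ (card X + 1)` elements, and the image of `δ` is `Z`.
-/

namespace SN78

variable {X : Type} [Fintype X] {α : X × ZMod 4 → X × ZMod 4}

omit [Fintype X] in
private theorem rhom_pv_nx (d : X × ZMod 4) : pv (nx d) = d := by
  simp [pv, nx]

omit [Fintype X] in
private theorem rhom_nx_pv (d : X × ZMod 4) : nx (pv d) = d := by
  simp [pv, nx]

/-- the standard bilinear form -/
private noncomputable def rhomForm (X : Type) [Fintype X] :
    (X × ZMod 4 → ZMod 2) →ₗ[ZMod 2] Module.Dual (ZMod 2) (X × ZMod 4 → ZMod 2) where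
  toFun z :=
    { toFun := fun r => ∑ d, z d * r d
      map_add' := by
        intro a b
        simp only [Pi.add_apply, mul_add, Finset.sum_add_distrib]
      map_smul' := by
        intro t a
        simp only [Pi.smul_apply, smul_eq_mul, RingHom.id_apply, Finset.mul_sum]
        exact Finset.sum_congr rfl fun d _ => by ring }
  map_add' := by
    intro a b
    ext r
    simp [add_mul, Finset.sum_add_distrib]
  map_smul' := by
    intro t a
    ext r
    simp [Finset.mul_sum, mul_assoc]

private theorem rhomForm_apply (z r : X × ZMod 4 → ZMod 2) :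
    rhomForm X z r = ∑ d, z d * r d := rfl

private theorem rhomForm_inj : Function.Injective (rhomForm X) := by
  classical
  intro z z' hz
  funext d
  have h := congrArg (fun f => f (Pi.single d 1)) hz
  simp only [rhomForm_apply] at h
  simpa [Pi.single_apply] using h

/-- functions with `c (α d) = c d` -/
private def rhomA (α : X × ZMod 4 → X × ZMod 4) : Submodule (ZMod 2) (X × ZMod 4 → ZMod 2) where
  carrier := {c | ∀ d, c (α d) = c d}
  add_mem' := by
    intro a b ha hb d
    simp [ha d, hb d]
  zero_mem' := by intro d; rfl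
  smul_mem' := by
    intro t a ha d
    simp [ha d]

/-- cycles -/
private def rhomZ (α : X × ZMod 4 → X × ZMod 4) : Submodule (ZMod 2) (X × ZMod 4 → ZMod 2) where
  carrier := {c | (∀ d, c (α d) = c d) ∧ ∀ v, ∑ i : ZMod 4, c (v, i) = 0}
  add_mem' := by
    intro a b ha hb
    refine ⟨fun d => by simp [ha.1 d, hb.1 d], fun v => ?_⟩
    simp [Finset.sum_add_distrib, ha.2 v, hb.2 v]
  zero_mem' := ⟨fun d => rfl, fun v => by simp⟩
  smul_mem' := by
    intro t a ha
    refine ⟨fun d => by simp [ha.1 d], fun v => ?_⟩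
    have := ha.2 v
    simp only [Pi.smul_apply, smul_eq_mul, ← Finset.mul_sum, this, mul_zero]

/-- `c ↦ c + c ∘ α` -/
private def rhomPhi (α : X × ZMod 4 → X × ZMod 4) :
    (X × ZMod 4 → ZMod 2) →ₗ[ZMod 2] (X × ZMod 4 → ZMod 2) where
  toFun c := fun d => c d + c (α d)
  map_add' := by
    intro a b
    funext d
    simp only [Pi.add_apply]
    ring
  map_smul' := by
    intro t a
    funext d
    simp only [Pi.smul_apply, smul_eq_mul, RingHom.id_apply]
    ring

private theorem rhom_two (x y : ZMod 2) (h : x + y = 0) : x = y := by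
  revert x y; decide

private theorem rhom_card_darts : Fintype.card (X × ZMod 4) = 4 * Fintype.card X := by
  simp [Fintype.card_prod, ZMod.card, mul_comm]

private theorem rhomA_finrank (h : Rigid α) :
    2 * Fintype.card X ≤ Module.finrank (ZMod 2) (rhomA α) := by
  have h1 := LinearMap.finrank_range_add_finrank_ker (rhomPhi α)
  have h2 : LinearMap.ker (rhomPhi α) ≤ rhomA α := by
    intro c hc d
    have := congrFun (LinearMap.mem_ker.1 hc) d
    exact (rhom_two _ _ this).symm
  have h3 : LinearMap.range (rhomPhi α) ≤ rhomA α := by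
    rintro _ ⟨c, rfl⟩ d
    show c (α d) + c (α (α d)) = c d + c (α d)
    rw [h.inv d, add_comm]
  have h4 := Submodule.finrank_mono h2
  have h5 := Submodule.finrank_mono h3
  rw [Module.finrank_fintype_fun_eq_card, rhom_card_darts] at h1
  omega

/-- `(a, f) ↦ a + f ∘ fst` -/
private def rhomPsi (α : X × ZMod 4 → X × ZMod 4) :
    (rhomA α × (X → ZMod 2)) →ₗ[ZMod 2] (X × ZMod 4 → ZMod 2) where
  toFun c := fun d => c.1.1 d + c.2 d.1
  map_add' := by
    intro a b
    funext d
    simp only [Prod.fst_add, Submodule.coe_add, Pi.add_apply, Prod.snd_add]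
    ring
  map_smul' := by
    intro t a
    funext d
    simp only [Prod.smul_fst, Submodule.coe_smul, Pi.smul_apply, smul_eq_mul, Prod.smul_snd,
      RingHom.id_apply]
    ring

private theorem rhomPsi_ker (h : Rigid α) :
    Module.finrank (ZMod 2) (LinearMap.ker (rhomPsi α)) ≤ 1 := by
  have hX : Nonempty X := Fintype.card_pos_iff.1 (by have := h.big; omega)
  obtain ⟨x⟩ := hX
  let u : rhomA α × (X → ZMod 2) := (⟨fun _ => 1, fun _ => rfl⟩, fun _ => 1)
  have hle : LinearMap.ker (rhomPsi α) ≤ Submodule.span (ZMod 2) {u} := by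
    intro c hc
    have hc' : ∀ d, c.1.1 d = c.2 d.1 := fun d =>
      rhom_two _ _ (congrFun (LinearMap.mem_ker.1 hc) d)
    have hconst : ∀ y, c.2 y = c.2 x := by
      intro y
      refine h.connected (fun y => c.2 y = c.2 x) ?_ (x := x) rfl y
      intro d hd
      show c.2 (α d).1 = c.2 x
      rw [← hc', c.1.2 d, hc', hd]
    rw [Submodule.mem_span_singleton]
    refine ⟨c.2 x, ?_⟩
    apply Prod.ext
    · apply Subtype.ext
      funext d
      show c.2 x * 1 = c.1.1 d
      rw [hc', hconst d.1, mul_one]
    · funext y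
      show c.2 x * 1 = c.2 y
      rw [hconst y, mul_one]
  calc _ ≤ Module.finrank (ZMod 2) (Submodule.span (ZMod 2) {u}) := Submodule.finrank_mono hle
    _ ≤ 1 := by
      have := finrank_span_le_card (R := ZMod 2) ({u} : Set (rhomA α × (X → ZMod 2)))
      simpa using this

private theorem rhomPsi_rank (h : Rigid α) :
    3 * Fintype.card X ≤ Module.finrank (ZMod 2) (LinearMap.range (rhomPsi α)) + 1 := by
  have h1 := LinearMap.finrank_range_add_finrank_ker (rhomPsi α)
  rw [Module.finrank_prod, Module.finrank_fintype_fun_eq_card] at h1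
  have h2 := rhomPsi_ker h
  have h3 := rhomA_finrank h
  omega

private theorem rhom_orth (h : Rigid α) {z : X × ZMod 4 → ZMod 2} (hz : z ∈ rhomZ α)
    {r : X × ZMod 4 → ZMod 2} (hr : r ∈ LinearMap.range (rhomPsi α)) :
    ∑ d, z d * r d = 0 := by
  obtain ⟨⟨a, f⟩, rfl⟩ := hr
  show ∑ d, z d * (a.1 d + f d.1) = 0
  simp only [mul_add, Finset.sum_add_distrib]
  have e1 : ∑ d, z d * a.1 d = 0 := by
    refine Finset.sum_involution (fun d _ => α d) ?_ ?_ ?_ ?_
    · intro d _
      rw [hz.1 d, a.2 d]
      exact CharTwo.add_self_eq_zero _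
    · intro d _ _
      exact h.ne d
    · intro d _
      exact Finset.mem_univ _
    · intro d _
      exact h.inv d
  have e2 : ∑ d : X × ZMod 4, z d * f d.1 = 0 := by
    rw [Fintype.sum_prod_type]
    refine Finset.sum_eq_zero fun v _ => ?_
    show ∑ i, z (v, i) * f v = 0
    rw [← Finset.sum_mul, hz.2 v, zero_mul]
  rw [e1, e2, add_zero]

private theorem rhomZ_finrank (h : Rigid α) :
    Module.finrank (ZMod 2) (rhomZ α) ≤ Fintype.card X + 1 := by
  have h1 := Subspace.finrank_add_finrank_dualAnnihilator_eq (LinearMap.range (rhomPsi α))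
  rw [Module.finrank_fintype_fun_eq_card, rhom_card_darts] at h1
  have h2 : Submodule.map (rhomForm X) (rhomZ α) ≤
      (LinearMap.range (rhomPsi α)).dualAnnihilator := by
    rintro _ ⟨z, hz, rfl⟩
    rw [Submodule.mem_dualAnnihilator]
    intro r hr
    exact rhom_orth h hz hr
  have h3 := Submodule.finrank_mono h2
  rw [← (Submodule.equivMapOfInjective _ rhomForm_inj (rhomZ α)).finrank_eq] at h3
  have h4 := rhomPsi_rank h
  omega

/-- the coboundary -/
private def rhomDelta (α : X × ZMod 4 → X × ZMod 4) :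
    (Face α → ZMod 2) →ₗ[ZMod 2] (X × ZMod 4 → ZMod 2) where
  toFun w := fun d => w (Quot.mk _ d) + w (Quot.mk _ (pv d))
  map_add' := by
    intro a b
    funext d
    simp only [Pi.add_apply]
    ring
  map_smul' := by
    intro t a
    funext d
    simp only [Pi.smul_apply, smul_eq_mul, RingHom.id_apply]
    ring

omit [Fintype X] in
private theorem rhom_face (d : X × ZMod 4) :
    (Quot.mk _ (fs α d) : Face α) = Quot.mk _ d := by
  symm
  apply Quot.sound
  rfl

private theorem rhomDelta_range (h : Rigid α) : LinearMap.range (rhomDelta α) ≤ rhomZ α := by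
  rintro _ ⟨w, rfl⟩
  refine ⟨fun d => ?_, fun v => ?_⟩
  · show w (Quot.mk _ (α d)) + w (Quot.mk _ (pv (α d))) = w (Quot.mk _ d) + w (Quot.mk _ (pv d))
    have e1 : (Quot.mk _ (pv (α d)) : Face α) = Quot.mk _ d := rhom_face d
    have e2 : (Quot.mk _ (α d) : Face α) = Quot.mk _ (pv d) := by
      have := rhom_face (α := α) (α d)
      rw [← this]
      show Quot.mk _ (pv (α (α d))) = _
      rw [h.inv]
    rw [e1, e2, add_comm]
  · show ∑ i : ZMod 4, (w (Quot.mk _ (v, i)) + w (Quot.mk _ (v, i - 1))) = 0
    rw [Finset.sum_add_distrib]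
    have : ∑ i : ZMod 4, w (Quot.mk _ (v, i - 1)) = ∑ i : ZMod 4, w (Quot.mk _ (v, i)) :=
      Fintype.sum_equiv (Equiv.subRight (1 : ZMod 4)) _ _ fun i => rfl
    rw [this]
    exact CharTwo.add_self_eq_zero _

private theorem rhomDelta_ker (h : Rigid α) [Fintype (Face α)] :
    Module.finrank (ZMod 2) (LinearMap.ker (rhomDelta α)) ≤ 1 := by
  have hX : Nonempty X := Fintype.card_pos_iff.1 (by have := h.big; omega)
  obtain ⟨x⟩ := hX
  have hle : LinearMap.ker (rhomDelta α) ≤ Submodule.span (ZMod 2) {fun _ => 1} := by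
    intro w hw
    have hpv : ∀ d, w (Quot.mk _ d) = w (Quot.mk _ (pv d)) := fun d =>
      rhom_two _ _ (congrFun (LinearMap.mem_ker.1 hw) d)
    have hnx : ∀ d, w (Quot.mk _ (nx d)) = w (Quot.mk _ d) := fun d => by
      rw [hpv (nx d), rhom_pv_nx]
    have hal : ∀ d, w (Quot.mk _ (α d)) = w (Quot.mk _ d) := fun d => by
      rw [hpv (α d)]
      exact congrArg w (rhom_face d)
    have hsite : ∀ v (i : ZMod 4), w (Quot.mk _ (v, i)) = w (Quot.mk _ (v, 0)) := by
      intro v
      have h1 : w (Quot.mk _ (v, 1)) = w (Quot.mk _ (v, 0)) := hnx (v, 0)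
      have h2 : w (Quot.mk _ (v, 2)) = w (Quot.mk _ (v, 1)) := hnx (v, 1)
      have h3 : w (Quot.mk _ (v, 3)) = w (Quot.mk _ (v, 2)) := hnx (v, 2)
      have hall : ∀ i : ZMod 4, i = 0 ∨ i = 1 ∨ i = 2 ∨ i = 3 := by decide
      intro i
      rcases hall i with rfl | rfl | rfl | rfl
      · rfl
      · exact h1
      · rw [h2, h1]
      · rw [h3, h2, h1]
    have hconst : ∀ y, w (Quot.mk _ (y, 0)) = w (Quot.mk _ (x, 0)) := by
      intro y
      refine h.connected (fun y => w (Quot.mk _ (y, 0)) = w (Quot.mk _ (x, 0))) ?_ (x := x) rfl y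
      intro d hd
      show w (Quot.mk _ ((α d).1, 0)) = w (Quot.mk _ (x, 0))
      rw [← hd, ← hsite (α d).1 (α d).2, ← hsite d.1 d.2]
      exact hal d
    rw [Submodule.mem_span_singleton]
    refine ⟨w (Quot.mk _ (x, 0)), ?_⟩
    funext q
    induction q using Quot.inductionOn with
    | h d =>
      show w (Quot.mk _ (x, 0)) * 1 = w (Quot.mk _ (d.1, d.2))
      rw [mul_one, hsite d.1 d.2, hconst d.1]
  calc _ ≤ Module.finrank (ZMod 2) (Submodule.span (ZMod 2) {(fun _ => 1 : Face α → ZMod 2)}) :=
        Submodule.finrank_mono hle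
    _ ≤ 1 := by
      have := finrank_span_le_card (R := ZMod 2) ({fun _ => 1} : Set (Face α → ZMod 2))
      simpa using this

private theorem rhomDelta_eq (h : Rigid α) : LinearMap.range (rhomDelta α) = rhomZ α := by
  have hfin : Finite (Face α) := Nat.finite_of_card_ne_zero (by rw [h.euler]; omega)
  have : Fintype (Face α) := Fintype.ofFinite _
  refine Submodule.eq_of_le_of_finrank_le (rhomDelta_range h) ?_
  have h1 := LinearMap.finrank_range_add_finrank_ker (rhomDelta α)
  rw [Module.finrank_fintype_fun_eq_card, ← Nat.card_eq_fintype_card, h.euler] at h1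
  have h2 := rhomDelta_ker h
  have h3 := rhomZ_finrank h
  omega

theorem Rigid.homology (h : Rigid α) (c : X × ZMod 4 → ZMod 2) (hc : ∀ d, c (α d) = c d)
    (hv : ∀ v, ∑ i : ZMod 4, c (v, i) = 0) :
    ∃ w : X × ZMod 4 → ZMod 2, (∀ d, w (fs α d) = w d) ∧ ∀ d, w d + w (pv d) = c d := by
  have hcZ : c ∈ rhomZ α := ⟨hc, hv⟩
  rw [← rhomDelta_eq h] at hcZ
  obtain ⟨w, hw⟩ := hcZ
  exact ⟨fun d => w (Quot.mk _ d), fun d => congrArg w (rhom_face d), fun d => congrFun hw d⟩

/-- the checkerboard colouring: take `c = 1` in `homology`; then `w (nx d) = w d + 1` and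
`w (α d) = w (pv d) = w d + 1` -/
theorem Rigid.checkerboard (h : Rigid α) :
    ∃ o : X × ZMod 4 → Bool, (∀ d, o (nx d) = !o d) ∧ ∀ d, o (α d) = !o d := by
  obtain ⟨w, h1, h2⟩ := h.homology (fun _ => 1) (fun _ => rfl) (fun _ => by
    simp only [Finset.sum_const, Finset.card_univ, ZMod.card]
    decide)
  have key : ∀ x y : ZMod 2, x + y = 1 → decide (x = 1) = !decide (y = 1) := by decide
  refine ⟨fun d => decide (w d = 1), fun d => ?_, fun d => ?_⟩
  · have := h2 (nx d)
    rw [rhom_pv_nx] at this
    exact key _ _ this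
  · have := h2 (α d)
    have e : w (pv (α d)) = w d := h1 d
    rw [e] at this
    exact key _ _ this

end SN78
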