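import Pool.Agent.SN78.RCut

/-!
# SN78 module RIDX: the index formula

`σ` gives each dart a sign such that `d` and `α d` have opposite signs.  At the site `v` the
corner between `d` and `nx d` is a vertex change if `σ d ≠ σ (nx d)`.  The boundary walk of the face
of this corner comes along `e = α (nx d)` (`fs α e = d`) and leaves along `d`; it changes the sign there if
`σ e ≠ σ d`, i.e. iff `σ (nx d) = σ d`, since `σ e = !σ (nx d)`.  So each dart `d` is either a vertex change
or a face change.  There are `4 n` darts (`n = card X`) and by `hv` `2 n` vertex changes, so `2 n` face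
changes.  There are `n + 2` faces.  The number of face changes in each face is even (a cyclic
sequence).  Call a corner `(inf, i)` straddling if it is a vertex change; there are two of them
(`hv`).  A face without straddling corner has at least one face change: if it has no corner at
`inf` this is `hf`, and a corner at `inf` which is not straddling is a face change.  So it has at
least two.  So `2 n ≥ 2 (n + 2 - (number of faces with straddling corners)) ≥ 2 n`.  Hence the two straddling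
corners are in different faces, these two faces have no face change (`straddle`), and all other
faces have exactly two face changes.

`index_L`: walk from the corner `(inf, i)`; let `y n = (fs α)^[n] (inf, i)`, and no `y n`, `0 < n ≤ m`, is at
`inf`.  If `(inf, i)` is in a face without face changes there is nothing to show.  Otherwise the face has
no straddling corner, so `(inf, i)` is a face change.  If `σ (y j) = σ (y m) ≠ σ (y k)` with `j < k < m` then there
are two more face changes `y n` with `0 < n ≤ m` (one of each sign), three in total.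

`index_C`: a face without corner at `inf` has exactly two face changes; with signs alternating at
`i < j < k < m < i + period` there would be four (in `(i, j]`, `(j, k]`, `(k, m]`, `(m, i + period]`).

`exists_back`: `fs α` is injective, so `e` is periodic; take the last dart at `inf` before `e`.
-/

namespace SN78

open Function

variable {X : Type} [Fintype X] {α : X × ZMod 4 → X × ZMod 4}

theorem Rigid.period_pos (h : Rigid α) (d : X × ZMod 4) : 0 < minimalPeriod (fs α) d :=
  minimalPeriod_pos_of_mem_periodicPts (h.fs_inj.mem_periodicPts d)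

private theorem RIdx_symm (h : Rigid α) {d e : X × ZMod 4} {n : ℕ} (hn : (fs α)^[n] d = e) :
    ∃ m, (fs α)^[m] e = d := by
  have hp := h.period_pos d
  have hper : (fs α)^[minimalPeriod (fs α) d * (n + 1)] d = d :=
    (isPeriodicPt_minimalPeriod (fs α) d).mul_const (n + 1)
  have hle : n ≤ minimalPeriod (fs α) d * (n + 1) := by nlinarith
  refine ⟨minimalPeriod (fs α) d * (n + 1) - n, ?_⟩
  rw [← hn, ← iterate_add_apply, Nat.sub_add_cancel hle, hper]

theorem Rigid.exists_back (h : Rigid α) {inf : X} {e : X × ZMod 4} {n : ℕ}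
    (hn : ((fs α)^[n] e).1 = inf) : ∃ (i : ZMod 4) (j : ℕ), (fs α)^[j] (inf, i) = e ∧
      ∀ m, 0 < m → m ≤ j → ((fs α)^[m] (inf, i)).1 ≠ inf := by
  classical
  have hex : ∃ j : ℕ, ∃ i : ZMod 4, (fs α)^[j] (inf, i) = e := by
    have h1 : (fs α)^[n] e = (inf, ((fs α)^[n] e).2) := Prod.ext hn rfl
    obtain ⟨m, hm⟩ := RIdx_symm h h1
    exact ⟨m, _, hm⟩
  obtain ⟨i, hi⟩ := Nat.find_spec hex
  refine ⟨i, Nat.find hex, hi, ?_⟩
  intro m hm0 hmj hinf
  have h1 : (fs α)^[m] (inf, i) = (inf, ((fs α)^[m] (inf, i)).2) := Prod.ext hinf rfl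
  have h2 : (fs α)^[Nat.find hex - m] (inf, ((fs α)^[m] (inf, i)).2) = e := by
    rw [← h1, ← iterate_add_apply, Nat.sub_add_cancel hmj, hi]
  exact Nat.find_min hex (by omega) ⟨_, h2⟩

/-- orbits of `fs α` are cyclic -/
theorem Rigid.orbit_symm (h : Rigid α) {d e : X × ZMod 4} {n : ℕ} (hn : (fs α)^[n] d = e) :
    ∃ m, (fs α)^[m] e = d := RIdx_symm h hn

private theorem RIdx_fs_anx (h : Rigid α) (d : X × ZMod 4) : fs α (α (nx d)) = d := by
  simp only [fs, h.inv]
  simp [pv, nx]

private theorem RIdx_anx_fs (h : Rigid α) (e : X × ZMod 4) : α (nx (fs α e)) = e := by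
  have h1 : nx (fs α e) = α e := by simp [fs, pv, nx]
  rw [h1, h.inv]

private theorem RIdx_mk (h : Rigid α) (d e : X × ZMod 4) :
    (Quot.mk _ d : Face α) = Quot.mk _ e ↔ ∃ n, (fs α)^[n] d = e := by
  constructor
  · intro hh
    have hg := Quot.eqvGen_exact hh
    clear hh
    induction hg with
    | rel x y hxy => exact ⟨1, hxy⟩
    | refl x => exact ⟨0, rfl⟩
    | symm x y _ ih =>
      obtain ⟨n, hn⟩ := ih
      exact RIdx_symm h hn
    | trans x y z _ _ ih1 ih2 =>
      obtain ⟨n, hn⟩ := ih1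
      obtain ⟨m, hm⟩ := ih2
      exact ⟨m + n, by rw [iterate_add_apply, hn, hm]⟩
  · rintro ⟨n, rfl⟩
    induction n with
    | zero => rfl
    | succ n ih =>
      rw [ih, iterate_succ_apply']
      exact Quot.sound rfl

private theorem RIdx_parity (b : ℕ → Bool) (m : ℕ) :
    ((Finset.range m).filter (fun n => b n ≠ b (n + 1))).card % 2 = 0 ↔ b 0 = b m := by
  induction m with
  | zero => simp
  | succ m ih =>
    rw [Finset.range_add_one, Finset.filter_insert]
    by_cases hb : b m ≠ b (m + 1)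
    · rw [if_pos hb, Finset.card_insert_of_notMem (by simp)]
      have h2 : b 0 = b (m + 1) ↔ ¬ b 0 = b m := by
        revert hb
        cases b 0 <;> cases b m <;> cases b (m + 1) <;> simp
      rw [h2, ← ih]
      omega
    · rw [if_neg hb]
      have h2 : b m = b (m + 1) := by simpa using hb
      rw [ih, h2]

private theorem RIdx_change (b : ℕ → Bool) {a c : ℕ} (hac : a ≤ c) (hne : b a ≠ b c) :
    ∃ n, a ≤ n ∧ n < c ∧ b n ≠ b (n + 1) := by
  induction c, hac using Nat.le_induction with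
  | base => exact absurd rfl hne
  | succ c hac ih =>
    by_cases hb : b a = b c
    · exact ⟨c, hac, by omega, by rw [← hb]; exact hne⟩
    · obtain ⟨n, h1, h2, h3⟩ := ih hb
      exact ⟨n, h1, by omega, h3⟩

/-- the number of face changes along the orbit of `d` -/
private noncomputable def RIdx_cnt (α : X × ZMod 4 → X × ZMod 4) (σ : X × ZMod 4 → Bool)
    (d : X × ZMod 4) : ℕ :=
  ((Finset.range (minimalPeriod (fs α) d)).filter
    (fun n => σ ((fs α)^[n] d) ≠ σ ((fs α)^[n + 1] d))).card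

open Classical in
private noncomputable def RIdx_c (α : X × ZMod 4 → X × ZMod 4) (σ : X × ZMod 4 → Bool)
    (F : Face α) : ℕ :=
  (Finset.univ.filter (fun e : X × ZMod 4 => (Quot.mk _ e : Face α) = F ∧ σ e ≠ σ (fs α e))).card

private theorem RIdx_c_eq (h : Rigid α) (σ : X × ZMod 4 → Bool) (d : X × ZMod 4) :
    RIdx_c α σ (Quot.mk _ d) = RIdx_cnt α σ d := by
  classical
  symm
  unfold RIdx_c RIdx_cnt
  refine Finset.card_bij (fun n _ => (fs α)^[n] d) ?_ ?_ ?_
  · intro n hn
    simp only [Finset.mem_filter, Finset.mem_range] at hn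
    simp only [Finset.mem_filter, Finset.mem_univ, true_and]
    refine ⟨((RIdx_mk h _ _).2 ⟨n, rfl⟩).symm, ?_⟩
    rw [← iterate_succ_apply' (fs α) n d]
    exact hn.2
  · intro n hn m hm hnm
    simp only [Finset.mem_filter, Finset.mem_range] at hn hm
    exact iterate_injOn_Iio_minimalPeriod (f := fs α) (x := d) hn.1 hm.1 hnm
  · intro e he
    simp only [Finset.mem_filter, Finset.mem_univ, true_and] at he
    obtain ⟨n, hn⟩ := (RIdx_mk h d e).1 he.1.symm
    refine ⟨n % minimalPeriod (fs α) d, ?_, ?_⟩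
    · simp only [Finset.mem_filter, Finset.mem_range]
      refine ⟨Nat.mod_lt _ (h.period_pos d), ?_⟩
      rw [iterate_succ_apply', iterate_mod_minimalPeriod_eq, hn]
      exact he.2
    · rw [iterate_mod_minimalPeriod_eq, hn]

omit [Fintype X] in
private theorem RIdx_even (σ : X × ZMod 4 → Bool) (d : X × ZMod 4) :
    RIdx_cnt α σ d % 2 = 0 := by
  have h1 := (RIdx_parity (fun n => σ ((fs α)^[n] d)) (minimalPeriod (fs α) d)).2
    (by simp [iterate_minimalPeriod])
  exact h1

private theorem RIdx_const (h : Rigid α) (σ : X × ZMod 4 → Bool) (d : X × ZMod 4)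
    (h0 : RIdx_cnt α σ d = 0) (n : ℕ) : σ ((fs α)^[n] d) = σ d := by
  classical
  have h1 : RIdx_c α σ (Quot.mk _ d) = 0 := by rw [RIdx_c_eq h, h0]
  unfold RIdx_c at h1
  rw [Finset.card_eq_zero, Finset.filter_eq_empty_iff] at h1
  induction n with
  | zero => rfl
  | succ n ih =>
    have h2 := h1 (Finset.mem_univ ((fs α)^[n] d))
    rw [iterate_succ_apply', ← ih]
    by_contra hne
    exact h2 ⟨((RIdx_mk h _ _).2 ⟨n, rfl⟩).symm, fun h3 => hne h3.symm⟩

section
variable {inf : X} {σ : X × ZMod 4 → Bool}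

private theorem RIdx_total (h : Rigid α) (hσ : ∀ d, σ (α d) = !σ d)
    (hv : ∀ v, Nat.card {i : ZMod 4 // σ (v, i) ≠ σ (v, i + 1)} = 2) :
    (Finset.univ.filter (fun e : X × ZMod 4 => σ e ≠ σ (fs α e))).card
      = 2 * Fintype.card X := by
  classical
  have h1 : (Finset.univ.filter (fun e : X × ZMod 4 => σ e ≠ σ (fs α e))).card
      = (Finset.univ.filter (fun d : X × ZMod 4 => ¬ σ d ≠ σ (nx d))).card := by
    refine Finset.card_bij (fun e _ => fs α e) ?_ ?_ ?_
    · intro e he
      simp only [Finset.mem_filter, Finset.mem_univ, true_and] at he ⊢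
      have h2 : σ e = !σ (nx (fs α e)) := by
        rw [← hσ, RIdx_anx_fs h]
      intro h3
      apply h3
      rw [h2] at he
      revert he
      cases σ (nx (fs α e)) <;> cases σ (fs α e) <;> simp
    · intro e _ e' _ hee
      exact h.fs_inj hee
    · intro d hd
      simp only [Finset.mem_filter, Finset.mem_univ, true_and] at hd
      refine ⟨α (nx d), ?_, RIdx_fs_anx h d⟩
      simp only [Finset.mem_filter, Finset.mem_univ, true_and]
      rw [RIdx_fs_anx h, hσ]
      revert hd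
      cases σ (nx d) <;> cases σ d <;> simp
  have h2 : (Finset.univ.filter (fun d : X × ZMod 4 => σ d ≠ σ (nx d))).card
      = 2 * Fintype.card X := by
    rw [Finset.card_filter, Fintype.sum_prod_type]
    have h3 : ∀ v : X, (∑ i : ZMod 4, if σ (v, i) ≠ σ (nx (v, i)) then 1 else 0) = 2 := by
      intro v
      rw [← Finset.card_filter, ← hv v, Nat.card_eq_fintype_card, Fintype.card_subtype]
      rfl
    rw [Finset.sum_congr rfl (fun v _ => h3 v)]
    simp [mul_comm]
  have h3 := Finset.card_filter_add_card_filter_not (s := (Finset.univ : Finset (X × ZMod 4)))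
    (fun d : X × ZMod 4 => σ d ≠ σ (nx d))
  rw [h2, ← h1, Finset.card_univ, Fintype.card_prod, ZMod.card] at h3
  omega

/-- the darts at `inf` which are vertex changes are in faces without face changes, all other faces
have exactly two face changes -/
private theorem RIdx_main (h : Rigid α) (hσ : ∀ d, σ (α d) = !σ d)
    (hv : ∀ v, Nat.card {i : ZMod 4 // σ (v, i) ≠ σ (v, i + 1)} = 2)
    (hf : ∀ d, (∀ n, ((fs α)^[n] d).1 ≠ inf) → ∃ n, σ ((fs α)^[n] d) ≠ σ d)
    (d : X × ZMod 4) :
    ((∃ (n : ℕ) (i : ZMod 4), (fs α)^[n] d = (inf, i) ∧ σ (inf, i) ≠ σ (inf, i + 1)) →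
      RIdx_cnt α σ d = 0) ∧
    ((¬ ∃ (n : ℕ) (i : ZMod 4), (fs α)^[n] d = (inf, i) ∧ σ (inf, i) ≠ σ (inf, i + 1)) →
      RIdx_cnt α σ d = 2) := by
  classical
  have : Finite (Face α) := Quot.finite _
  let _ : Fintype (Face α) := Fintype.ofFinite _
  have htot : ∑ F : Face α, RIdx_c α σ F = 2 * Fintype.card X := by
    rw [← RIdx_total h hσ hv]
    rw [Finset.card_eq_sum_card_fiberwise (f := fun e => (Quot.mk _ e : Face α))
      (t := Finset.univ) (fun _ _ => Finset.mem_coe.2 (Finset.mem_univ _))]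
    refine Finset.sum_congr rfl fun F _ => ?_
    unfold RIdx_c
    rw [Finset.filter_filter]
    congr 1
    ext e
    simp [and_comm]
  have hcard : Fintype.card (Face α) = Fintype.card X + 2 := by
    rw [← Nat.card_eq_fintype_card]; exact h.euler
  set T : Finset (Face α) := (Finset.univ.filter (fun i : ZMod 4 => σ (inf, i) ≠ σ (inf, i + 1))).image
    (fun i => (Quot.mk _ (inf, i) : Face α)) with hT
  have hTcard : T.card ≤ 2 := by
    refine Finset.card_image_le.trans (le_of_eq ?_)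
    rw [← hv inf, Nat.card_eq_fintype_card, Fintype.card_subtype]
  have hTmem : ∀ d : X × ZMod 4, (Quot.mk _ d : Face α) ∈ T ↔
      ∃ (n : ℕ) (i : ZMod 4), (fs α)^[n] d = (inf, i) ∧ σ (inf, i) ≠ σ (inf, i + 1) := by
    intro d
    rw [hT]
    simp only [Finset.mem_image, Finset.mem_filter, Finset.mem_univ, true_and]
    constructor
    · rintro ⟨i, hi, hi2⟩
      obtain ⟨n, hn⟩ := (RIdx_mk h _ _).1 hi2.symm
      exact ⟨n, i, hn, hi⟩
    · rintro ⟨n, i, hn, hi⟩
      exact ⟨i, hi, ((RIdx_mk h _ _).2 ⟨n, hn⟩).symm⟩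
  have hlow : ∀ F ∈ Tᶜ, 2 ≤ RIdx_c α σ F := by
    intro F hF
    obtain ⟨d, rfl⟩ := Quot.exists_rep F
    rw [Finset.mem_compl, hTmem] at hF
    have h0 : RIdx_c α σ (Quot.mk _ d) ≠ 0 := by
      intro h0
      have hc0 : RIdx_cnt α σ d = 0 := by rw [← RIdx_c_eq h]; exact h0
      by_cases hcor : ∀ n, ((fs α)^[n] d).1 ≠ inf
      · obtain ⟨n, hn⟩ := hf d hcor
        exact hn (RIdx_const h σ d hc0 n)
      · push Not at hcor
        obtain ⟨n, hn⟩ := hcor
        have h1 : (fs α)^[n] d = (inf, ((fs α)^[n] d).2) := Prod.ext hn rfl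
        have h2 : σ (inf, ((fs α)^[n] d).2) = σ (inf, ((fs α)^[n] d).2 + 1) := by
          by_contra hne
          exact hF ⟨n, _, h1, hne⟩
        set i := ((fs α)^[n] d).2 with hi
        unfold RIdx_c at h0
        rw [Finset.card_eq_zero, Finset.filter_eq_empty_iff] at h0
        refine h0 (Finset.mem_univ (α (nx (inf, i)))) ⟨?_, ?_⟩
        · have h3 : (Quot.mk _ (α (nx (inf, i))) : Face α) = Quot.mk _ (inf, i) :=
            (RIdx_mk h _ _).2 ⟨1, RIdx_fs_anx h _⟩
          rw [h3]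
          exact ((RIdx_mk h _ _).2 ⟨n, h1⟩).symm
        · rw [RIdx_fs_anx h, hσ]
          have h4 : σ (nx (inf, i)) = σ (inf, i) := h2.symm
          rw [h4]
          cases σ (inf, i) <;> simp
    have h1 := RIdx_even (α := α) σ d
    rw [← RIdx_c_eq h] at h1
    omega
  have hsplit : ∑ F ∈ T, RIdx_c α σ F + ∑ F ∈ Tᶜ, RIdx_c α σ F = 2 * Fintype.card X := by
    rw [Finset.sum_add_sum_compl, htot]
  have hTc : Fintype.card X ≤ Tᶜ.card := by
    rw [Finset.card_compl, hcard]; omega
  have hge : ∑ F ∈ Tᶜ, 2 ≤ ∑ F ∈ Tᶜ, RIdx_c α σ F := Finset.sum_le_sum hlow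
  rw [Finset.sum_const, smul_eq_mul] at hge
  constructor
  · intro hd
    have hdT : (Quot.mk _ d : Face α) ∈ T := (hTmem d).2 hd
    have h1 : ∑ F ∈ T, RIdx_c α σ F = 0 := by omega
    rw [← RIdx_c_eq h]
    exact (Finset.sum_eq_zero_iff.1 h1) _ hdT
  · intro hd
    have hdT : (Quot.mk _ d : Face α) ∈ Tᶜ := by
      rw [Finset.mem_compl, hTmem]; exact hd
    rw [← RIdx_c_eq h]
    by_contra hne
    have h2 := hlow _ hdT
    have h3 : ∑ F ∈ Tᶜ, 2 < ∑ F ∈ Tᶜ, RIdx_c α σ F :=
      Finset.sum_lt_sum hlow ⟨_, hdT, by omega⟩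
    rw [Finset.sum_const, smul_eq_mul] at h3
    omega

theorem Rigid.straddle (h : Rigid α) (hσ : ∀ d, σ (α d) = !σ d)
    (hv : ∀ v, Nat.card {i : ZMod 4 // σ (v, i) ≠ σ (v, i + 1)} = 2)
    (hf : ∀ d, (∀ n, ((fs α)^[n] d).1 ≠ inf) → ∃ n, σ ((fs α)^[n] d) ≠ σ d)
    {i : ZMod 4} (hi : σ (inf, i) ≠ σ (inf, i + 1)) (n : ℕ) :
    σ ((fs α)^[n] (inf, i)) = σ (inf, i) :=
  RIdx_const h σ _ ((RIdx_main h hσ hv hf (inf, i)).1 ⟨0, i, rfl, hi⟩) n

omit [Fintype X] in
private theorem RIdx_three (d : X × ZMod 4) {a b c : ℕ} (hab : a < b) (hbc : b < c)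
    (hc : c < minimalPeriod (fs α) d)
    (ha : σ ((fs α)^[a] d) ≠ σ ((fs α)^[a + 1] d))
    (hb : σ ((fs α)^[b] d) ≠ σ ((fs α)^[b + 1] d))
    (hc' : σ ((fs α)^[c] d) ≠ σ ((fs α)^[c + 1] d)) : 3 ≤ RIdx_cnt α σ d := by
  have h1 : ({a, b, c} : Finset ℕ) ⊆ (Finset.range (minimalPeriod (fs α) d)).filter
      (fun n => σ ((fs α)^[n] d) ≠ σ ((fs α)^[n + 1] d)) := by
    intro x hx
    simp only [Finset.mem_insert, Finset.mem_singleton] at hx
    simp only [Finset.mem_filter, Finset.mem_range]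
    rcases hx with rfl | rfl | rfl
    · exact ⟨by omega, ha⟩
    · exact ⟨by omega, hb⟩
    · exact ⟨by omega, hc'⟩
  have h2 := Finset.card_le_card h1
  have h3 : ({a, b, c} : Finset ℕ).card = 3 :=
    Finset.card_eq_three.2 ⟨a, b, c, by omega, by omega, by omega, rfl⟩
  rw [h3] at h2
  exact h2

theorem Rigid.index_L (h : Rigid α) (hσ : ∀ d, σ (α d) = !σ d)
    (hv : ∀ v, Nat.card {i : ZMod 4 // σ (v, i) ≠ σ (v, i + 1)} = 2)
    (hf : ∀ d, (∀ n, ((fs α)^[n] d).1 ≠ inf) → ∃ n, σ ((fs α)^[n] d) ≠ σ d)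
    {i : ZMod 4} {j k m : ℕ} (hjk : j < k) (hkm : k < m)
    (hm : ∀ n, 0 < n → n ≤ m → ((fs α)^[n] (inf, i)).1 ≠ inf)
    (hjm : σ ((fs α)^[j] (inf, i)) = σ ((fs α)^[m] (inf, i))) :
    σ ((fs α)^[k] (inf, i)) = σ ((fs α)^[m] (inf, i)) := by
  have hpp := h.period_pos (inf, i)
  have hper : (fs α)^[minimalPeriod (fs α) (inf, i)] (inf, i) = (inf, i) := iterate_minimalPeriod
  have hmp : m < minimalPeriod (fs α) (inf, i) := by
    by_contra hcon
    exact hm _ hpp (by omega) (by rw [hper])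
  by_cases hst : ∃ (n : ℕ) (i' : ZMod 4), (fs α)^[n] (inf, i) = (inf, i') ∧
      σ (inf, i') ≠ σ (inf, i' + 1)
  · have h0 := (RIdx_main h hσ hv hf (inf, i)).1 hst
    rw [RIdx_const h σ _ h0 k, RIdx_const h σ _ h0 m]
  · have h2 := (RIdx_main h hσ hv hf (inf, i)).2 hst
    by_contra hne
    have hi : σ (inf, i) = σ (inf, i + 1) := by
      by_contra hne'
      exact hst ⟨0, i, rfl, hne'⟩
    obtain ⟨a, ha1, ha2, ha3⟩ := RIdx_change (fun n => σ ((fs α)^[n] (inf, i))) (le_of_lt hjk)
      (by rw [hjm]; exact fun hh => hne hh.symm)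
    obtain ⟨b, hb1, hb2, hb3⟩ := RIdx_change (fun n => σ ((fs α)^[n] (inf, i))) (le_of_lt hkm)
      (by simpa using hne)
    obtain ⟨p, hp⟩ : ∃ p, minimalPeriod (fs α) (inf, i) = p + 1 := ⟨_, (Nat.succ_pred_eq_of_pos hpp).symm⟩
    have hc3 : σ ((fs α)^[p] (inf, i)) ≠ σ ((fs α)^[p + 1] (inf, i)) := by
      have h5 : (fs α)^[p + 1] (inf, i) = (inf, i) := by rw [← hp]; exact hper
      have h6 : (fs α)^[p] (inf, i) = α (nx (inf, i)) := by
        apply h.fs_inj
        rw [← iterate_succ_apply' (fs α) p, h5, RIdx_fs_anx h]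
      rw [h5, h6, hσ]
      have h4 : σ (nx (inf, i)) = σ (inf, i) := hi.symm
      rw [h4]
      cases σ (inf, i) <;> simp
    have h7 := RIdx_three (α := α) (σ := σ) (inf, i) (a := a) (b := b) (c := p) (by omega)
      (by omega) (by omega) ha3 hb3 hc3
    omega

theorem Rigid.index_C (h : Rigid α) (hσ : ∀ d, σ (α d) = !σ d)
    (hv : ∀ v, Nat.card {i : ZMod 4 // σ (v, i) ≠ σ (v, i + 1)} = 2)
    (hf : ∀ d, (∀ n, ((fs α)^[n] d).1 ≠ inf) → ∃ n, σ ((fs α)^[n] d) ≠ σ d)
    {d : X × ZMod 4} (hd : ∀ n, ((fs α)^[n] d).1 ≠ inf) {i j k m : ℕ} (hij : i < j)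
    (hjk : j < k) (hkm : k < m) (hmi : m < i + minimalPeriod (fs α) d)
    (h1 : σ ((fs α)^[i] d) ≠ σ ((fs α)^[j] d)) (h2 : σ ((fs α)^[j] d) ≠ σ ((fs α)^[k] d)) :
    σ ((fs α)^[k] d) = σ ((fs α)^[m] d) := by
  by_contra hne
  have hp : minimalPeriod (fs α) ((fs α)^[i] d) = minimalPeriod (fs α) d :=
    minimalPeriod_apply_iterate (h.fs_inj.mem_periodicPts d) i
  have hst : ¬ ∃ (n : ℕ) (i' : ZMod 4), (fs α)^[n] ((fs α)^[i] d) = (inf, i') ∧
      σ (inf, i') ≠ σ (inf, i' + 1) := by
    rintro ⟨n, i', hn, -⟩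
    rw [← iterate_add_apply] at hn
    exact hd (n + i) (by rw [hn])
  have hc := (RIdx_main h hσ hv hf ((fs α)^[i] d)).2 hst
  have hz : ∀ x, i ≤ x → (fs α)^[x - i] ((fs α)^[i] d) = (fs α)^[x] d := by
    intro x hx
    rw [← iterate_add_apply, Nat.sub_add_cancel hx]
  obtain ⟨a, ha1, ha2, ha3⟩ := RIdx_change (fun n => σ ((fs α)^[n] ((fs α)^[i] d)))
    (a := i - i) (c := j - i) (by omega)
    (by rw [hz i le_rfl, hz j (by omega)]; exact h1)
  obtain ⟨b, hb1, hb2, hb3⟩ := RIdx_change (fun n => σ ((fs α)^[n] ((fs α)^[i] d)))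
    (a := j - i) (c := k - i) (by omega)
    (by rw [hz j (by omega), hz k (by omega)]; exact h2)
  obtain ⟨c, hc1, hc2, hc3⟩ := RIdx_change (fun n => σ ((fs α)^[n] ((fs α)^[i] d)))
    (a := k - i) (c := m - i) (by omega)
    (by rw [hz k (by omega), hz m (by omega)]; exact hne)
  have h7 := RIdx_three (α := α) (σ := σ) ((fs α)^[i] d) (a := a) (b := b) (c := c) (by omega)
    (by omega) (by rw [hp]; omega) ha3 hb3 hc3
  omega

end

end SN78
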