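import Pool.Agent.SN78.RRun
import Pool.Agent.SN78.REmb

/-!
# SN78 module RLIM: the sticks of the limit drawing

`lim_dir`: the end of the stick which leaves the site `v = d.1` along `d` is at `P v + t • dr d` (or in the
direction `t • dr d` at infinity).  If `¬ Ps (α d)`: `dr_qs` with `t = 1`.  If `Ps (α d)`, `w = (α d).1`: `nt α d = op (α d)`
has the direction `- c • dr (α d) = c • dr d`, `c > 0` (`op_st`, `dr_neg`); use the statement for `nt α d` (at most
two steps, unfold `en`) and `P w = P v + dr d`, and `0 ≤ qs .. 2` (it is `0` or `1`).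
`lim_edge`: each point of the stick is on one of its edges; same recursion: if `x, y ≥ 0` then
`x • P v + y • Q` with `Q - (Q 2) • P w = t' • dr (nt α d) = t' c • dr d` is on the edge from `v` to `w` or on the
rest of the stick.
`Sep.of_no_meet`: the convex hull of `A, B, -C, -E` does not contain `0` (a convex combination which is `0`
gives a common point), it is compact, so there is a functional which is positive on it
(`geometric_hahn_banach_...`; every linear functional on `H` is `dot l`).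
`Sep.of_side`: `l = - crs B A + η • g` with `dot g A = dot g B = 1` (`A, B` are linearly independent since
`dt A C B ≠ 0`) and small `η > 0`.
`lim_sep`: by `of_no_meet`.  Let `p` be a common point.  Choose `e₀ ∈ {d, en d}` with `e₀.1 ≠ inf` (`en_inf`), similarly
`e₀' ∈ {d', en d'}`; the run from `e₀` is the run of `d` or its reverse (`run_rev`, `en_en`).  By `lim_edge` `p` is on an
edge `g` of the run of `e₀` and on an edge `g'` of the run of `e₀'` (`g.1, g'.1 ≠ inf`).  `g' ≠ g, α g` by `hsite`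
(`g.1` would be a common site).  `edge_meet`: the second alternative contradicts `hsite`, the third
contradicts `hfar` (`(α g).1 = inf` implies `α g = en e₀` since the run ends at `inf`).
-/

namespace SN78

/-- the point `p 0 • A + p 1 • B - p 2 • C - p 3 • E` as a linear map of `p` -/
private def rlimT (A B C E : H) : (Fin 4 → ℝ) →ₗ[ℝ] H where
  toFun p := p 0 • A + p 1 • B - p 2 • C - p 3 • E
  map_add' p q := by
    simp only [Pi.add_apply, add_smul]
    abel
  map_smul' k p := by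
    simp only [Pi.smul_apply, smul_eq_mul, RingHom.id_apply, mul_smul, smul_add, smul_sub]

private theorem rlimT_apply (A B C E : H) (p : Fin 4 → ℝ) :
    rlimT A B C E p = p 0 • A + p 1 • B - p 2 • C - p 3 • E := rfl

theorem Sep.of_no_meet {A B C E : H}
    (h : ∀ x y z w : ℝ, 0 ≤ x → 0 ≤ y → 0 ≤ z → 0 ≤ w → x • A + y • B = z • C + w • E →
      x = 0 ∧ y = 0 ∧ z = 0 ∧ w = 0) : Sep A B C E := by
  have hcomp : IsCompact (rlimT A B C E '' stdSimplex ℝ (Fin 4)) :=
    (isCompact_stdSimplex ℝ (Fin 4)).image (LinearMap.continuous_of_finiteDimensional _)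
  have hconv : Convex ℝ (rlimT A B C E '' stdSimplex ℝ (Fin 4)) :=
    (convex_stdSimplex ℝ (Fin 4)).linear_image _
  have h0 : (0 : H) ∉ rlimT A B C E '' stdSimplex ℝ (Fin 4) := by
    rintro ⟨p, ⟨hp, hs⟩, he⟩
    rw [rlimT_apply] at he
    have h1 : p 0 • A + p 1 • B = p 2 • C + p 3 • E := by
      have : p 0 • A + p 1 • B - p 2 • C - p 3 • E = 0 := he
      rw [sub_sub, sub_eq_zero] at this
      exact this
    obtain ⟨a0, a1, a2, a3⟩ := h _ _ _ _ (hp 0) (hp 1) (hp 2) (hp 3) h1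
    rw [Fin.sum_univ_four, a0, a1, a2, a3] at hs
    norm_num at hs
  obtain ⟨f, u, hu, hf⟩ := geometric_hahn_banach_point_closed hconv hcomp.isClosed h0
  rw [map_zero] at hu
  have hdot : ∀ v : H, f v = dot ![f (Pi.single 0 1), f (Pi.single 1 1), f (Pi.single 2 1)] v := by
    intro v
    have h1 : v = v 0 • Pi.single 0 1 + v 1 • Pi.single 1 1 + v 2 • Pi.single 2 1 := by
      funext i
      fin_cases i <;> simp
    calc f v = f (v 0 • Pi.single 0 1 + v 1 • Pi.single 1 1 + v 2 • Pi.single 2 1) := by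
          rw [← h1]
      _ = _ := by
          rw [map_add, map_add, map_smul, map_smul, map_smul]
          simp only [dot, smul_eq_mul]
          simp
          ring
  have hpos : ∀ p ∈ stdSimplex ℝ (Fin 4), 0 < f (rlimT A B C E p) :=
    fun p hp => hu.trans (hf _ ⟨p, hp, rfl⟩)
  have hs : ∀ i : Fin 4, (Pi.single i 1 : Fin 4 → ℝ) ∈ stdSimplex ℝ (Fin 4) :=
    fun i => single_mem_stdSimplex ℝ i
  refine ⟨![f (Pi.single 0 1), f (Pi.single 1 1), f (Pi.single 2 1)], ?_, ?_, ?_, ?_⟩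
  · rw [← hdot]
    have := hpos _ (hs 0)
    rw [rlimT_apply] at this
    simpa using this
  · rw [← hdot]
    have := hpos _ (hs 1)
    rw [rlimT_apply] at this
    simpa using this
  · rw [← hdot]
    have := hpos _ (hs 2)
    rw [rlimT_apply] at this
    simp at this
    linarith
  · rw [← hdot]
    have := hpos _ (hs 3)
    rw [rlimT_apply] at this
    simp at this
    linarith

theorem Sep.of_side {A B C E : H} (h1 : 0 < dt A C B) (h2 : 0 < dt A E B) : Sep A B C E := by
  set g : H := (1 / dt A C B) • (crs C B + crs A C) with hg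
  have gA : dot g A = 1 := by
    rw [hg, smul_dot, add_dot, dot_crs, dot_crs, dt_self₃]
    rw [show dt C B A = dt A C B by simp only [dt]; ring]
    field_simp
    ring
  have gB : dot g B = 1 := by
    rw [hg, smul_dot, add_dot, dot_crs, dot_crs, dt_self₂]
    field_simp
    ring
  have gC : dot g C = 0 := by
    rw [hg, smul_dot, add_dot, dot_crs, dot_crs, dt_self₃, dt_self₂]
    ring
  set η : ℝ := dt A E B / (|dot g E| + 1) with hη
  have hpos : 0 < |dot g E| + 1 := by positivity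
  have η0 : 0 < η := div_pos h2 hpos
  have η1 : η * dot g E < dt A E B := by
    have a1 : η * dot g E ≤ η * |dot g E| := mul_le_mul_of_nonneg_left (le_abs_self _) η0.le
    have a2 : η * |dot g E| < η * (|dot g E| + 1) := by
      rw [mul_add, mul_one]
      linarith
    have a3 : η * (|dot g E| + 1) = dt A E B := by
      rw [hη]
      field_simp
    linarith
  refine ⟨η • g - crs B A, ?_, ?_, ?_, ?_⟩
  · rw [sub_dot, smul_dot, gA, dot_crs, dt_self₂]
    linarith
  · rw [sub_dot, smul_dot, gB, dot_crs, dt_self₃]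
    linarith
  · rw [sub_dot, smul_dot, gC, dot_crs]
    rw [show dt B A C = dt A C B by simp only [dt]; ring]
    linarith
  · rw [sub_dot, smul_dot, dot_crs]
    rw [show dt B A E = dt A E B by simp only [dt]; ring]
    linarith

variable {X : Type} [Fintype X] {α : X × ZMod 4 → X × ZMod 4} {inf : X} {s : X → ZMod 4}
  {o : X × ZMod 4 → Bool} {sg : X → Prop} {D : ZMod 4 → H} {P : X → H}

/-- induction along a stick -/
private theorem rlim_ind (F : Frame α inf o s) {p : X × ZMod 4 → Prop}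
    (h0 : ∀ d, ¬ Ps sg inf s (α d) → p d)
    (h1 : ∀ d, Ps sg inf s (α d) → ¬ (Ps sg inf s (α (nt α d)) ∧
      Ps sg inf s (α (nt α (nt α d)))) → p (nt α d) → p d) (d : X × ZMod 4) : p d := by
  have three : ∀ d : X × ZMod 4, Ps sg inf s (α d) → ¬ (Ps sg inf s (α (nt α d)) ∧
      Ps sg inf s (α (nt α (nt α d)))) := by
    rintro d a1 ⟨a2, a3⟩
    have h := F.en_nps (sg := sg) d
    rw [F.en_go a1, F.en_go a2] at h
    by_cases a4 : Ps sg inf s (α (nt α (nt α (nt α d))))
    · have h3 := F.en_nps (sg := sg) (d := d)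
      have e : en α sg inf s d = α (nt α (nt α d)) := by
        unfold en
        rw [if_pos a1, if_pos a2]
      rw [e] at h3
      exact h3 a3
    · have h3 := F.en_nps (sg := sg) (d := d)
      have e : en α sg inf s d = α (nt α (nt α d)) := by
        unfold en
        rw [if_pos a1, if_pos a2]
      rw [e] at h3
      exact h3 a3
  by_cases a1 : Ps sg inf s (α d)
  · apply h1 d a1 (three d a1)
    by_cases a2 : Ps sg inf s (α (nt α d))
    · apply h1 _ a2 (three _ a2)
      apply h0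
      intro a3
      exact three d a1 ⟨a2, a3⟩
    · exact h0 _ a2
  · exact h0 _ a1

omit [Fintype X] in
private theorem rlim_q (dw : Draw α inf s D P) (e : X × ZMod 4) :
    (e.1 = inf ∧ qs D P inf e = D (-e.2) ∧ qs D P inf e 2 = 0) ∨
    (e.1 ≠ inf ∧ qs D P inf e = P e.1 ∧ qs D P inf e 2 = 1) := by
  by_cases h : e.1 = inf
  · left
    have e1 : qs D P inf e = D (-e.2) := by simp [qs, h]
    exact ⟨h, e1, by rw [e1]; exact dw.cfg.flat _⟩
  · right
    have e1 : qs D P inf e = P e.1 := by simp [qs, h]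
    exact ⟨h, e1, by rw [e1]; exact dw.nP _⟩

omit [Fintype X] in
private theorem rlim_q0 (dw : Draw α inf s D P) (e : X × ZMod 4) : 0 ≤ qs D P inf e 2 := by
  rcases rlim_q dw e with ⟨-, -, h⟩ | ⟨-, -, h⟩ <;> rw [h]
  exact zero_le_one

omit [Fintype X] in
private theorem rlim_qne (dw : Draw α inf s D P) (e : X × ZMod 4) : qs D P inf e ≠ 0 := by
  rcases rlim_q dw e with ⟨-, h, -⟩ | ⟨-, -, h⟩
  · rw [h]; exact dw.cfg.ne _
  · intro h0; rw [h0] at h; simp at h

/-- the direction after a passed site -/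
private theorem rlim_step (F : Frame α inf o s) (dw : Draw α inf s D P) {d : X × ZMod 4}
    (hp : Ps sg inf s (α d)) : ∃ c : ℝ, 0 < c ∧
      dr α inf D P (nt α d) = c • dr α inf D P d := by
  obtain ⟨c, hc, e⟩ := dw.op_st hp.1 hp.2.2
  refine ⟨c, hc, ?_⟩
  show dr α inf D P (op (α d)) = _
  rw [e, F.rig.dr_neg, smul_neg, neg_neg]

theorem Draw.lim_dir (F : Frame α inf o s) (dw : Draw α inf s D P) {d : X × ZMod 4}
    (hd : d.1 ≠ inf) : ∃ t : ℝ, 0 < t ∧
      qs D P inf (en α sg inf s d) - (qs D P inf (en α sg inf s d) 2) • P d.1 =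
        t • dr α inf D P d := by
  revert hd
  refine rlim_ind (sg := sg) F (p := fun d => d.1 ≠ inf → ∃ t : ℝ, 0 < t ∧
      qs D P inf (en α sg inf s d) - (qs D P inf (en α sg inf s d) 2) • P d.1 =
        t • dr α inf D P d) ?_ ?_ d
  · intro d h0 hd
    refine ⟨1, one_pos, ?_⟩
    rw [en_stop h0, one_smul, dw.dr_qs hd]
  · intro d hp _ ih hd
    obtain ⟨t, ht, e⟩ := ih hp.1
    obtain ⟨c, hc, e2⟩ := rlim_step F dw hp
    have e3 : dr α inf D P d = P (α d).1 - P d.1 := dr_edge hd hp.1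
    rw [F.en_go hp]
    have e4 : (nt α d).1 = (α d).1 := rfl
    rw [e4, e2, smul_smul] at e
    refine ⟨t * c + qs D P inf (en α sg inf s (nt α d)) 2, ?_, ?_⟩
    · have := mul_pos ht hc
      have := rlim_q0 dw (en α sg inf s (nt α d))
      linarith
    · rw [add_smul, ← e, e3, smul_sub]
      abel

theorem Draw.lim_edge (F : Frame α inf o s) (dw : Draw α inf s D P) {d : X × ZMod 4}
    (hd : d.1 ≠ inf) {x y : ℝ} (hx : 0 ≤ x) (hy : 0 ≤ y) : ∃ (g : X × ZMod 4) (x' y' : ℝ),
      InRun α sg inf s d g ∧ g.1 ≠ inf ∧ 0 ≤ x' ∧ 0 ≤ y' ∧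
      x • P d.1 + y • qs D P inf (en α sg inf s d) = x' • P g.1 + y' • qs D P inf (α g) := by
  revert hd hx hy x y
  refine rlim_ind (sg := sg) F (p := fun d => ∀ (_ : d.1 ≠ inf) {x y : ℝ} (_ : 0 ≤ x)
      (_ : 0 ≤ y), ∃ (g : X × ZMod 4) (x' y' : ℝ),
      InRun α sg inf s d g ∧ g.1 ≠ inf ∧ 0 ≤ x' ∧ 0 ≤ y' ∧
      x • P d.1 + y • qs D P inf (en α sg inf s d) = x' • P g.1 + y' • qs D P inf (α g)) ?_ ?_ d
  · intro d h0 hd x y hx hy
    exact ⟨d, x, y, Or.inl rfl, hd, hx, hy, by rw [en_stop h0]⟩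
  · intro d hp h3 ih hd x y hx hy
    obtain ⟨t, ht, e⟩ := dw.lim_dir (sg := sg) F (d := nt α d) hp.1
    obtain ⟨c, hc, e2⟩ := rlim_step F dw hp
    have e3 : dr α inf D P d = P (α d).1 - P d.1 := dr_edge hd hp.1
    have e4 : (nt α d).1 = (α d).1 := rfl
    rw [e4, e2, smul_smul, e3] at e
    have hT : 0 < t * c := mul_pos ht hc
    have hq := rlim_q0 dw (en α sg inf s (nt α d))
    rw [F.en_go hp]
    generalize hQ : qs D P inf (en α sg inf s (nt α d)) = Q at *
    generalize t * c = T at *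
    have eQ : Q = (Q 2 + T) • P (α d).1 - T • P d.1 := by
      have h5 : Q = Q 2 • P (α d).1 + T • (P (α d).1 - P d.1) := by
        rw [← e]; abel
      rw [add_smul]
      rw [smul_sub] at h5
      calc Q = _ := h5
        _ = _ := by abel
    have qw : qs D P inf (α d) = P (α d).1 := by simp [qs, hp.1]
    by_cases hc2 : y * T ≤ x
    · refine ⟨d, x - y * T, y * (Q 2 + T), Or.inl rfl, hd, by linarith,
        mul_nonneg hy (by linarith), ?_⟩
      rw [qw]
      funext i
      have h6 := congrFun eQ i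
      simp only [Pi.add_apply, Pi.sub_apply, Pi.smul_apply, smul_eq_mul] at h6 ⊢
      linear_combination y * h6
    · have hlt : x < y * T := not_le.mp hc2
      have hx2 : 0 ≤ x / T * (Q 2 + T) := mul_nonneg (div_nonneg hx hT.le) (by linarith)
      have hy2 : 0 ≤ y - x / T := by
        rw [sub_nonneg, div_le_iff₀ hT]
        exact hlt.le
      obtain ⟨g, x', y', hg, hg1, hx', hy', he⟩ := ih hp.1 hx2 hy2
      refine ⟨g, x', y', ?_, hg1, hx', hy', ?_⟩
      · rcases hg with rfl | ⟨a1, rfl⟩ | ⟨a1, a2, rfl⟩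
        · exact Or.inr (Or.inl ⟨hp, rfl⟩)
        · exact Or.inr (Or.inr ⟨hp, a1, rfl⟩)
        · exact absurd ⟨a1, a2⟩ h3
      · rw [← he, e4]
        funext i
        have h6 := congrFun eQ i
        simp only [Pi.add_apply, Pi.sub_apply, Pi.smul_apply, smul_eq_mul] at h6 ⊢
        have hT0 : T ≠ 0 := hT.ne'
        have h7 : x / T * T = x := div_mul_cancel₀ x hT0
        linear_combination (x / T) * h6 + (- P d.1 i) * h7

private theorem rlim_pick (F : Frame α inf o s) {d : X × ZMod 4} (hd : ¬ Ps sg inf s d) :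
    ∃ e : X × ZMod 4, e.1 ≠ inf ∧
      ((e = d ∧ en α sg inf s e = en α sg inf s d) ∨
        (e = en α sg inf s d ∧ en α sg inf s e = d)) ∧
      ∀ g, InRun α sg inf s e g → ∃ g', InRun α sg inf s d g' ∧ (g' = g ∨ g' = α g) := by
  by_cases h : d.1 = inf
  · refine ⟨en α sg inf s d, F.en_inf h, Or.inr ⟨rfl, F.en_en hd⟩, ?_⟩
    intro g hg
    have := F.run_rev (F.en_nps (sg := sg) d) hg
    rw [F.en_en hd] at this
    exact ⟨_, this, Or.inr rfl⟩
  · exact ⟨d, h, Or.inl ⟨rfl, rfl⟩, fun g hg => ⟨g, hg, Or.inl rfl⟩⟩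

theorem Draw.lim_sep (F : Frame α inf o s) (dw : Draw α inf s D P) (hp : Conv α inf D P)
    {d d' : X × ZMod 4} (hd : ¬ Ps sg inf s d) (hd' : ¬ Ps sg inf s d')
    (hsite : ∀ g g', InRun α sg inf s d g → InRun α sg inf s d' g' → ∀ u, u ≠ inf →
      ¬ ((u = g.1 ∨ u = (α g).1) ∧ (u = g'.1 ∨ u = (α g').1)))
    (hfar : ∀ e e', (e = d ∨ e = en α sg inf s d) → (e' = d' ∨ e' = en α sg inf s d') →
      e.1 = inf → e'.1 = inf → ¬ ∃ c : ℝ, 0 < c ∧ qs D P inf e' = c • qs D P inf e) :
    Sep (qs D P inf d) (qs D P inf (en α sg inf s d)) (qs D P inf d')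
      (qs D P inf (en α sg inf s d')) := by
  have inv := F.rig.inv
  obtain ⟨e, he1, he2, he3⟩ := rlim_pick (sg := sg) F hd
  obtain ⟨e', he1', he2', he3'⟩ := rlim_pick (sg := sg) F hd'
  -- the points of a stick in terms of the chosen end
  have zero : ∀ {e : X × ZMod 4}, e.1 ≠ inf → ∀ {x y : ℝ}, 0 ≤ x → 0 ≤ y →
      x • P e.1 + y • qs D P inf (en α sg inf s e) = 0 → x = 0 ∧ y = 0 := by
    intro e _ x y hx hy h0
    have h2 := congrFun h0 2
    simp only [Pi.add_apply, Pi.smul_apply, smul_eq_mul, dw.nP, mul_one, Pi.zero_apply] at h2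
    have h3 := mul_nonneg hy (rlim_q0 dw (en α sg inf s e))
    have x0 : x = 0 := by linarith
    rw [x0, zero_smul, zero_add] at h0
    refine ⟨x0, ?_⟩
    rcases smul_eq_zero.1 h0 with h4 | h4
    · exact h4
    · exact absurd h4 (rlim_qne dw _)
  have main : ∀ x y z w : ℝ, 0 ≤ x → 0 ≤ y → 0 ≤ z → 0 ≤ w →
      x • P e.1 + y • qs D P inf (en α sg inf s e) =
        z • P e'.1 + w • qs D P inf (en α sg inf s e') →
      x = 0 ∧ y = 0 ∧ z = 0 ∧ w = 0 := by
    intro x y z w hx hy hz hw heq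
    obtain ⟨g, x1, y1, hg, hg1, hx1, hy1, hge⟩ := dw.lim_edge (sg := sg) F he1 hx hy
    obtain ⟨g', z1, w1, hg', hg1', hz1, hw1, hge'⟩ := dw.lim_edge (sg := sg) F he1' hz hw
    obtain ⟨γ, hγ, hγ2⟩ := he3 g hg
    obtain ⟨γ', hγ', hγ2'⟩ := he3' g' hg'
    have hs : ∀ u, u ≠ inf → ¬ ((u = g.1 ∨ u = (α g).1) ∧ (u = g'.1 ∨ u = (α g').1)) := by
      rintro u hu ⟨h1, h2⟩
      refine hsite γ γ' hγ hγ' u hu ⟨?_, ?_⟩
      · rcases hγ2 with rfl | rfl
        · exact h1
        · rw [inv]; exact h1.symm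
      · rcases hγ2' with rfl | rfl
        · exact h2
        · rw [inv]; exact h2.symm
    have n1 : g' ≠ g := by
      intro h
      exact hs g.1 hg1 ⟨Or.inl rfl, Or.inl (by rw [h])⟩
    have n2 : g' ≠ α g := by
      intro h
      exact hs g'.1 hg1' ⟨Or.inr (by rw [h]), Or.inl rfl⟩
    have hmeet : x1 • P g.1 + y1 • qs D P inf (α g) = z1 • P g'.1 + w1 • qs D P inf (α g') := by
      rw [← hge, ← hge', heq]
    rcases dw.edge_meet F.rig hp hg1 hg1' n1 n2 hx1 hy1 hz1 hw1 hmeet with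
      ⟨a1, a2, a3, a4⟩ | ⟨u, c, hu, -, h1, h2, -⟩ | ⟨h1, h2, h3⟩
    · rw [a1, a2, zero_smul, zero_smul, add_zero] at hge
      rw [a3, a4, zero_smul, zero_smul, add_zero] at hge'
      obtain ⟨b1, b2⟩ := zero he1 hx hy hge
      obtain ⟨b3, b4⟩ := zero he1' hz hw hge'
      exact ⟨b1, b2, b3, b4⟩
    · exact absurd ⟨h1, h2⟩ (hs u hu)
    · exfalso
      have k1 : α g = en α sg inf s e := by
        rcases F.run_end hg with h | ⟨h, -⟩
        · exact h
        · exact absurd h1 h.1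
      have k2 : α g' = en α sg inf s e' := by
        rcases F.run_end hg' with h | ⟨h, -⟩
        · exact h
        · exact absurd h2 h.1
      refine hfar (α g) (α g') ?_ ?_ h1 h2 h3
      · rcases he2 with ⟨_, h⟩ | ⟨_, h⟩
        · right; rw [k1, h]
        · left; rw [k1, h]
      · rcases he2' with ⟨_, h⟩ | ⟨_, h⟩
        · right; rw [k2, h]
        · left; rw [k2, h]
  have tr : ∀ {d e : X × ZMod 4}, e.1 ≠ inf →
      ((e = d ∧ en α sg inf s e = en α sg inf s d) ∨
        (e = en α sg inf s d ∧ en α sg inf s e = d)) →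
      ∀ x y : ℝ, 0 ≤ x → 0 ≤ y → ∃ x1 y1 : ℝ, 0 ≤ x1 ∧ 0 ≤ y1 ∧
        x • qs D P inf d + y • qs D P inf (en α sg inf s d) =
          x1 • P e.1 + y1 • qs D P inf (en α sg inf s e) ∧
        (x1 = 0 → y1 = 0 → x = 0 ∧ y = 0) := by
    intro d e he h x y hx hy
    have qe : qs D P inf e = P e.1 := by simp [qs, he]
    rcases h with ⟨h1, h2⟩ | ⟨h1, h2⟩
    · refine ⟨x, y, hx, hy, ?_, fun a b => ⟨a, b⟩⟩
      rw [h2, ← qe, h1]
    · refine ⟨y, x, hy, hx, ?_, fun a b => ⟨b, a⟩⟩
      rw [h2, ← qe, ← h1, add_comm]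
  apply Sep.of_no_meet
  intro x y z w hx hy hz hw heq
  obtain ⟨x1, y1, hx1, hy1, a1, a2⟩ := tr he1 he2 x y hx hy
  obtain ⟨z1, w1, hz1, hw1, b1, b2⟩ := tr he1' he2' z w hz hw
  obtain ⟨c1, c2, c3, c4⟩ := main x1 y1 z1 w1 hx1 hy1 hz1 hw1 (by rw [← a1, ← b1, heq])
  obtain ⟨f1, f2⟩ := a2 c1 c2
  obtain ⟨f3, f4⟩ := b2 c3 c4
  exact ⟨f1, f2, f3, f4⟩

end SN78
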