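import Pool.Agent.SN78.RSgn

/-!
# SN78 module RND: no corner is degenerate

Let `d.1 = v ≠ inf`.  If both `d` and `nx d` do not lead to `inf` this is `Draw.nd`.  So one of them is a
port dart, `v = tp α inf k`, and only one dart of `v` leads to `inf` (`simple`).

(1) `k ≠ 3`: the port dart is `(v, s v)` (`port_eq`).  So `d = (v, s v)` or `nx d = (v, s v)`, i.e. the corner is
adjacent to the bent dart `g = (v, s v + 1)` or `g = (v, s v + 3)`; by `Draw.bent` it is a nonzero multiple of the
other corner at `g`, which is between two darts not leading to `inf`: `nd`.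

(2) `k = 3`: the port dart `(v, j) = α (inf, -3) = α (inf, 1)` is not straight (`nst_port`); its two
corners are multiples of each other (`bent`).  Suppose they are degenerate:
`dr (v, j + 1) = κ • D 3`, `κ ≠ 0` (`dr (v, j) = D 3`), and `dr (v, j - 1) = - c κ • D 3` with `c > 0`
(`op_st`).
 * `κ < 0`.  Consider the face of the corner `(inf, 1)` (ports `2, 3`): `(inf, 1) → (v, j - 1)`, as
   `fs α (inf, 1) = pv (v, j)`.  `dr (inf, 1) = - D 3` and `dr (v, j - 1)` is a positive multiple of `D 3`.
   Since `d2 (D 2) (D 3) > 0` there is a generic `l` with `dot l (D 2)`, `dot l (D 3)` of opposite signs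
   (`exists_gen` near `x ↦ d2 (D 2 + D 3) x`), so `(inf, 1)`, `(inf, 2)` have opposite signs: contradiction to
   `straddle` (`n = 1`).
 * `κ > 0`.  Consider the face of the corner `(inf, 0)` (ports `3, 0`); the dart before `(inf, 0)` is
   `α (inf, 1) = (v, j)` (`fs α (v, j) = pv (inf, 1)`), and the one before that is `α (v, j + 1) =: e`, with
   direction `- κ • D 3`.  If `d2 (D 3) (D 0) > 0`: a generic `l` with `D 3`, `D 0` of opposite signs
   contradicts `straddle` at `e` and `(v, j)` (they are in the orbit of `(inf, 0)`).  Otherwise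
   `D 3 = c • D 0`, `c > 0` (`Cfg.zero`).  Let `y n = (fs α)^[n] (inf, 0)`, `y N = (inf, 0)` the first return to
   `inf` (`inf_once`: the first return to a dart at `inf` is a return to `(inf, 0)`), so
   `y (N - 1) = (v, j)`, `y (N - 2) = e`.  For generic `l` with `dot l (D 0) > 0`: `y 0` and `y (N - 2)` are negative,
   so by `patL'` `y 1` is negative (if `1 < N - 2`; if `N - 2 = 1` trivially; `N - 2 = 0` is impossible
   since `e.1 ≠ inf`: `e.1 = inf` would give two edges between `v` and `inf`).  So `dot l (dr (y 1)) < 0` for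
   all generic `l` with `dot l (D 0) > 0`; hence `dr (y 1)` is parallel to `D 0` (otherwise take `exists_gen` near
   a functional positive on both).  But `y 1 = pv (α (inf, 0)) = (t₀, s t₀ - 1)` is the dart next to the port
   dart `(t₀, s t₀)` with direction `D 0`: contradiction to (1).
-/

namespace SN78

variable {X : Type} [Fintype X] {α : X × ZMod 4 → X × ZMod 4} {inf : X} {s : X → ZMod 4}
  {o : X × ZMod 4 → Bool} {D : ZMod 4 → H} {P : X → H}

/-- the functional `x ↦ d2 S x` -/
private def rnL (S : H) : H := ![-(S 1), S 0, 0]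

private theorem rnL_two (S : H) : rnL S 2 = 0 := rfl

private theorem dot_rnL (S x : H) : dot (rnL S) x = d2 S x := by
  simp only [rnL, dot, d2, Matrix.cons_val_zero, Matrix.cons_val_one, Matrix.cons_val]
  ring

private theorem dot_smul_r (l x : H) (c : ℝ) : dot l (c • x) = c * dot l x := by
  simp only [dot, Pi.smul_apply, smul_eq_mul]; ring

private theorem dot_neg_r (l x : H) : dot l (-x) = - dot l x := by
  simp only [dot, Pi.neg_apply]; ring

private theorem rn_par {u w : H} (hu2 : u 2 = 0) (hw2 : w 2 = 0) (hu : u ≠ 0)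
    (h : d2 u w = 0) : ∃ κ : ℝ, w = κ • u := by
  have h' : u 0 * w 1 - u 1 * w 0 = 0 := h
  by_cases h0 : u 0 = 0
  · have h1 : u 1 ≠ 0 := by
      intro h1
      apply hu
      funext i
      fin_cases i
      · exact h0
      · exact h1
      · exact hu2
    refine ⟨w 1 / u 1, ?_⟩
    funext i
    fin_cases i
    · have : u 1 * w 0 = 0 := by rw [h0] at h'; linarith
      have h3 : w 0 = 0 := (mul_eq_zero.1 this).resolve_left h1
      simp [h3, h0]
    · simp; field_simp
    · simp [hu2, hw2]
  · refine ⟨w 0 / u 0, ?_⟩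
    funext i
    fin_cases i
    · simp; field_simp
    · simp only [Fin.mk_one, Pi.smul_apply, smul_eq_mul]
      field_simp
      linarith
    · simp [hu2, hw2]

/-- only one dart of the site leads to `inf` -/
private theorem rn_uniq (h : Rigid α) {p q : X × ZMod 4} (hp : (α p).1 = inf)
    (hpq : q.1 = p.1) (hne : q ≠ p) : (α q).1 ≠ inf := fun e =>
  hne (h.simple hpq (by rw [hp, e]))

omit [Fintype X] in
private theorem rn_nst (s : X → ZMod 4) (d : X × ZMod 4) (h : ¬ St s d) : St s (nx d) := by
  have key : ∀ j r : ZMod 4, ¬ (j = r ∨ j = r + 2) → (j + 1 = r ∨ j + 1 = r + 2) := by decide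
  exact key d.2 (s d.1) h

omit [Fintype X] in
private theorem rn_st (v : X) (i : ZMod 4) (j : ZMod 4) (hi : i = s v + j) (hj : j = 1 ∨ j = 3) :
    ¬ St s (v, i) := by
  rintro (h | h)
  · have h1 : i = s v := h
    rw [hi] at h1
    have h2 : j = 0 := by simpa using h1
    rcases hj with rfl | rfl <;> exact absurd h2 (by decide)
  · have h1 : i = s v + 2 := h
    rw [hi] at h1
    have h2 : j = 2 := add_left_cancel h1
    rcases hj with rfl | rfl <;> exact absurd h2 (by decide)

/-- case (1): the corners adjacent to the dart of a port `k ≠ 3` -/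
private theorem rn_one (F : Frame α inf o s) (dw : Draw α inf s D P) {k : ZMod 4} (hk : k ≠ 3)
    {d : X × ZMod 4} (hd : d = α (inf, -k) ∨ nx d = α (inf, -k)) :
    d2 (dr α inf D P d) (dr α inf D P (nx d)) ≠ 0 := by
  have hp := F.port_eq hk
  have hv : tp α inf k ≠ inf := F.rig.tp_ne inf k
  have hinf : (α (tp α inf k, s (tp α inf k))).1 = inf := by
    rw [← hp, F.rig.inv]
  generalize htv : tp α inf k = v at *
  rcases hd with hd | hd
  · rw [hp] at hd
    subst hd
    have hg : ¬ St s (v, s v + 1) := rn_st v _ 1 rfl (Or.inl rfl)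
    obtain ⟨c, hc, e⟩ := dw.bent (d := (v, s v + 1)) hv hg
    have e1 : pv (v, s v + 1) = (v, s v) := by simp [pv]
    rw [e1] at e
    have e2 : nx (v, s v) = (v, s v + 1) := rfl
    rw [e2]
    intro e0
    rw [e0, mul_zero] at e
    refine dw.nd v (s v + 1) hv ?_ ?_ e
    · exact rn_uniq F.rig hinf rfl (by
        intro h
        have h1 : s v + 1 = s v := congrArg Prod.snd h
        have h2 : (1 : ZMod 4) = 0 := by simpa using h1
        exact absurd h2 (by decide))
    · refine rn_uniq F.rig hinf rfl (by
        intro h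
        have h1 : s v + 1 + 1 = s v := congrArg Prod.snd h
        rw [add_assoc] at h1
        have h2 : (1 + 1 : ZMod 4) = 0 := by simpa using h1
        exact absurd h2 (by decide))
  · rw [hp] at hd
    have hd' : d = (v, s v + 3) := by
      have h1 : d.1 = v := congrArg Prod.fst hd
      have h2 : d.2 + 1 = s v := congrArg Prod.snd hd
      refine Prod.ext h1 ?_
      show d.2 = s v + 3
      rw [← h2, add_assoc]
      have : (1 + 3 : ZMod 4) = 0 := by decide
      rw [this, add_zero]
    subst hd'
    have hg : ¬ St s (v, s v + 3) := rn_st v _ 3 rfl (Or.inr rfl)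
    obtain ⟨c, hc, e⟩ := dw.bent (d := (v, s v + 3)) hv hg
    rw [e]
    have e1 : pv (v, s v + 3) = (v, s v + 2) := by
      simp only [pv]
      congr 1
      rw [add_sub_assoc]
      congr 1
    have e2 : ((v, s v + 3) : X × ZMod 4) = (v, s v + 2 + 1) := by
      congr 1
      rw [add_assoc]
      congr 1
    rw [e1]
    refine mul_ne_zero hc.ne' ?_
    rw [e2]
    refine dw.nd v (s v + 2) hv ?_ ?_
    · exact rn_uniq F.rig hinf rfl (by
        intro h
        have h1 : s v + 2 = s v := congrArg Prod.snd h
        have h2 : (2 : ZMod 4) = 0 := by simpa using h1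
        exact absurd h2 (by decide))
    · refine rn_uniq F.rig hinf rfl (by
        intro h
        have h1 : s v + 2 + 1 = s v := congrArg Prod.snd h
        rw [add_assoc] at h1
        have h2 : (2 + 1 : ZMod 4) = 0 := by simpa using h1
        exact absurd h2 (by decide))

/-- case (2): the corner after the dart of port `3` -/
private theorem rn_two (F : Frame α inf o s) (dw : Draw α inf s D P) :
    d2 (dr α inf D P (α (inf, 1))) (dr α inf D P (nx (α (inf, 1)))) ≠ 0 := by
  intro h0
  have m3 : (-3 : ZMod 4) = 1 := by decide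
  have m1 : (-1 : ZMod 4) = 3 := by decide
  have m2 : (-2 : ZMod 4) = 2 := by decide
  have hR := F.rig
  set p := α (inf, 1) with hpdef
  have hnst : ¬ St s p := by
    have := F.nst_port
    rwa [m3] at this
  have hp1 : p.1 ≠ inf := hR.noloop (inf, 1)
  have hap : α p = (inf, 1) := hR.inv _
  have hdp : dr α inf D P p = D 3 := by
    have := hR.dr_port (inf := inf) (D := D) (P := P) 1
    rw [m1] at this
    exact this
  have hD3 : D 3 ≠ 0 := dw.cfg.ne 3
  have hD32 : D 3 2 = 0 := dw.cfg.flat 3
  rw [hdp] at h0
  obtain ⟨κ, hκ⟩ := rn_par hD32 (dw.flat (nx p)) hD3 h0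
  have hκ0 : κ ≠ 0 := by
    rintro rfl
    rw [zero_smul] at hκ
    exact dw.ne0 hR _ hκ
  have hst : St s (nx p) := rn_nst s p hnst
  obtain ⟨c, hc, hop⟩ := dw.op_st (d := nx p) hp1 hst
  have hopv : op (nx p) = pv p := by
    simp only [op, nx, pv]
    congr 1
    rw [add_assoc, sub_eq_add_neg]
    congr 1
  rw [hopv, hκ] at hop
  rcases lt_or_gt_of_ne hκ0 with hneg | hpos
  · -- `κ < 0`
    have hd1 : dr α inf D P (inf, 1) = - D 3 := by rw [dr_inf, m1]
    have hd2 : dr α inf D P (inf, 1 + 1) = - D 2 := by
      rw [dr_inf]; congr 2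
    have h23 := dw.cfg.d23
    have q1 : dot (rnL (D 2 + D 3)) (D 3) = d2 (D 2) (D 3) := by
      rw [dot_rnL, d2_add_left, d2_self, add_zero]
    have q2 : dot (rnL (D 2 + D 3)) (D 2) = - d2 (D 2) (D 3) := by
      rw [dot_rnL, d2_add_left, d2_self, zero_add, d2_swap]
    obtain ⟨l, hl, -, hs⟩ := dw.exists_gen hR (rnL (D 2 + D 3)) (rnL_two _) p
      (by rw [hdp, q1]; exact h23.le)
    have s1 : dot l (dr α inf D P (inf, 1)) < 0 := (hs (inf, 1)).2 (by
      rw [hd1, dot_neg_r, q1]; linarith)
    have s2 : 0 < dot l (dr α inf D P (inf, 1 + 1)) := (hs (inf, 1 + 1)).1 (by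
      rw [hd2, dot_neg_r, q2]; linarith)
    have s3 := dw.straddle hR hl (i := 1) (mul_neg_of_neg_of_pos s1 s2) 1
    have e1 : (fs α)^[1] (inf, 1) = pv p := rfl
    rw [e1, hop, hd1, dot_neg_r, dot_neg_r, dot_smul_r, dot_smul_r] at s3
    have : c * κ < 0 := mul_neg_of_pos_of_neg hc hneg
    nlinarith [sq_nonneg (dot l (D 3))]
  · -- `κ > 0`
    set e := α (nx p) with hedef
    have hde : dr α inf D P e = - (κ • D 3) := by rw [hedef, hR.dr_neg, hκ]
    have hfe : fs α e = p := by
      show pv (α (α (nx p))) = p
      rw [hR.inv]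
      simp [pv, nx]
    have hfp : fs α p = (inf, 0) := by
      show pv (α p) = (inf, 0)
      rw [hap]
      simp [pv]
    have hd0 : dr α inf D P (inf, 0) = - D 0 := by rw [dr_inf, neg_zero]
    by_cases h30 : 0 < d2 (D 3) (D 0)
    · have hd1 : dr α inf D P (inf, 0 + 1) = - D 3 := by
        rw [dr_inf]; congr 2
      have q1 : dot (rnL (D 3 + D 0)) (D 0) = d2 (D 3) (D 0) := by
        rw [dot_rnL, d2_add_left, d2_self, add_zero]
      have q2 : dot (rnL (D 3 + D 0)) (D 3) = - d2 (D 3) (D 0) := by
        rw [dot_rnL, d2_add_left, d2_self, zero_add, d2_swap]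
      obtain ⟨l, hl, -, hs⟩ := dw.exists_gen hR (rnL (D 3 + D 0)) (rnL_two _) (inf, 0 + 1)
        (by rw [hd1, dot_neg_r, q2]; linarith)
      have s1 : dot l (dr α inf D P (inf, 0)) < 0 := (hs (inf, 0)).2 (by
        rw [hd0, dot_neg_r, q1]; linarith)
      have s2 : 0 < dot l (dr α inf D P (inf, 0 + 1)) := (hs (inf, 0 + 1)).1 (by
        rw [hd1, dot_neg_r, q2]; linarith)
      obtain ⟨m, hm⟩ := hR.orbit_symm (d := p) (e := (inf, 0)) (n := 1) hfp
      obtain ⟨m', hm'⟩ := hR.orbit_symm (d := e) (e := (inf, 0)) (n := 2) (by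
        show fs α (fs α e) = _
        rw [hfe, hfp])
      have s3 := dw.straddle hR hl (i := 0) (mul_neg_of_neg_of_pos s1 s2) m
      have s4 := dw.straddle hR hl (i := 0) (mul_neg_of_neg_of_pos s1 s2) m'
      rw [hm, hdp] at s3
      rw [hm', hde, dot_neg_r, dot_smul_r] at s4
      have s5 : dot l (D 3) < 0 := by
        by_contra hcon
        push Not at hcon
        have := mul_nonpos_of_nonpos_of_nonneg s1.le hcon
        linarith
      have s6 : 0 < -(κ * dot l (D 3)) := by
        have := mul_neg_of_pos_of_neg hpos s5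
        linarith
      have := mul_neg_of_neg_of_pos s1 s6
      linarith
    · obtain ⟨c', hc', h3⟩ := dw.cfg.zero h30
      obtain ⟨i, M, hM, hMi⟩ := hR.exists_back (inf := inf) (e := p) (n := 1) (by
        show (fs α p).1 = inf
        rw [hfp])
      have hi : i = 0 := by
        refine dw.inf_once hR (n := M + 1) ?_
        rw [Function.iterate_succ_apply', hM, hfp]
      subst hi
      have hM0 : M ≠ 0 := by
        rintro rfl
        exact hp1 (by rw [← hM]; rfl)
      obtain ⟨M', rfl⟩ := Nat.exists_eq_succ_of_ne_zero hM0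
      have heM : (fs α)^[M'] (inf, 0) = e := by
        apply hR.fs_inj
        rw [hfe, ← hM, Function.iterate_succ_apply']
      have he1 : e.1 ≠ inf := by
        refine rn_uniq hR (p := p) (q := nx p) (by rw [hap]) rfl ?_
        intro h
        have h1 : p.2 + 1 = p.2 := congrArg Prod.snd h
        have h2 : (1 : ZMod 4) = 0 := by simpa using h1
        exact absurd h2 (by decide)
      have hM'0 : M' ≠ 0 := by
        rintro rfl
        exact he1 (by rw [← heM]; rfl)
      -- the dart `y 1`
      have hy1 : fs α (inf, 0) = pv (α (inf, 0)) := rfl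
      have hne := rn_one F dw (k := 0) (by decide) (d := fs α (inf, 0)) (Or.inr (by
        rw [hy1, neg_zero]
        simp [pv, nx]))
      have hnx : nx (fs α (inf, 0)) = α (inf, 0) := by
        rw [hy1]; simp [pv, nx]
      have hdD0 : dr α inf D P (α (inf, 0)) = D 0 := by
        have := hR.dr_port (inf := inf) (D := D) (P := P) 0
        rw [neg_zero] at this
        exact this
      rw [hnx, hdD0] at hne
      have key : ∀ l, Gen α inf D P l → 0 < dot l (D 0) →
          dot l (dr α inf D P (fs α (inf, 0))) < 0 := by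
        intro l hl hl0
        have t0 : dot l (dr α inf D P ((fs α)^[0] (inf, 0))) < 0 := by
          show dot l (dr α inf D P (inf, 0)) < 0
          rw [hd0, dot_neg_r]; linarith
        have te : dot l (dr α inf D P ((fs α)^[M'] (inf, 0))) < 0 := by
          rw [heM, hde, h3, dot_neg_r, dot_smul_r, dot_smul_r]
          have := mul_pos hpos (mul_pos hc' hl0)
          linarith
        rcases lt_or_gt_of_ne (hl.2 (fs α (inf, 0))) with hlt | hgt
        · exact hlt
        · exfalso
          by_cases hM1 : M' = 1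
          · rw [hM1] at te
            have : (fs α)^[1] (inf, 0) = fs α (inf, 0) := rfl
            rw [this] at te
            linarith
          · have := dw.patL' hR hl (i := 0) (j := 0) (k := 1) (m := M') (by norm_num)
              (by omega) (fun n h1 h2 => hMi n h1 (by omega)) t0 hgt
            linarith
      have f1 : fs α (inf, 0) = fs α (inf, 0) := rfl
      set u := dr α inf D P (fs α (inf, 0)) with hu
      set δ := d2 u (D 0) with hδ
      have q1 : dot (rnL (δ • (u - D 0))) (D 0) = δ * δ := by
        rw [dot_rnL, d2_smul_left]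
        have : d2 (u - D 0) (D 0) = d2 u (D 0) := by
          simp only [d2, Pi.sub_apply]; ring
        rw [this]
      have q2 : dot (rnL (δ • (u - D 0))) u = δ * δ := by
        rw [dot_rnL, d2_smul_left]
        have : d2 (u - D 0) u = d2 u (D 0) := by
          simp only [d2, Pi.sub_apply]; ring
        rw [this]
      have hδ2 : 0 < δ * δ := mul_self_pos.2 hne
      obtain ⟨l, hl, hlg, hs⟩ := dw.exists_gen hR (rnL (δ • (u - D 0))) (rnL_two _)
        (α (inf, 0)) (by rw [hdD0, q1]; exact hδ2.le)
      rw [hdD0] at hlg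
      have t1 := key l hl hlg
      have t2 : 0 < dot l u := (hs (fs α (inf, 0))).1 (by rw [← hu, q2]; exact hδ2)
      linarith

theorem Draw.nondeg (F : Frame α inf o s) (dw : Draw α inf s D P) {d : X × ZMod 4}
    (hd : d.1 ≠ inf) : d2 (dr α inf D P d) (dr α inf D P (nx d)) ≠ 0 := by
  have hR := F.rig
  have main : ∀ k : ZMod 4, (d = α (inf, -k) ∨ nx d = α (inf, -k)) →
      d2 (dr α inf D P d) (dr α inf D P (nx d)) ≠ 0 := by
    intro k hk
    by_cases hk3 : k = 3
    · subst hk3
      have m3 : (-3 : ZMod 4) = 1 := by decide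
      rw [m3] at hk
      rcases hk with hk | hk
      · rw [hk]
        exact rn_two F dw
      · have hnst : ¬ St s (α (inf, 1)) := by
          have := F.nst_port
          rwa [m3] at this
        obtain ⟨c, hc, e⟩ := dw.bent (d := α (inf, 1)) (hR.noloop (inf, 1)) hnst
        have e1 : pv (α (inf, 1)) = d := by rw [← hk]; simp [pv, nx]
        rw [e1] at e
        rw [hk]
        intro h0
        rw [h0, mul_zero] at e
        exact rn_two F dw e
    · exact rn_one F dw hk3 hk
  by_cases h1 : (α d).1 = inf
  · refine main (-(α d).2) (Or.inl ?_)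
    have : (inf, -(-(α d).2)) = α d := by rw [neg_neg]; exact Prod.ext h1.symm rfl
    rw [this, hR.inv]
  by_cases h2 : (α (nx d)).1 = inf
  · refine main (-(α (nx d)).2) (Or.inr ?_)
    have : (inf, -(-(α (nx d)).2)) = α (nx d) := by rw [neg_neg]; exact Prod.ext h2.symm rfl
    rw [this, hR.inv]
  exact dw.nd d.1 d.2 hd h1 h2

end SN78
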