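import Pool.Agent.SN78.WFred

/-!
# SN78 module WNOR: perturbations with given normal components

For each `v ≠ inf, t k` the vector `P (a v) - P v` is flat and not `0` (`Eqm.inj`, `Walk.av`), so there is a
flat `e v` with `d2 (P (a v) - P v) (e v) = n v`; similarly flat `e (t k)` with
`d2 (E k) (e (t k)) = n (t k)` for `k = 2`, and `e (t 0) = f₀ + μ₀ • E 0`, `e (t 1) = f₁ + μ₁ • E 1` with
`d2 (E k) (f k) = n (t k)` and free `μ₀, μ₁`.  With `ν` from `Walk.fredholm` choose `μ₀, μ₁` such that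
`∑ v, ν v • e v = 0` (`ν (t 0), ν (t 1) > 0`, and `E 0, E 1` are a basis of the flat vectors as
`d2 (E 0) (E 1) ≠ 0`).  Solve the equations for both coordinates of `δ` (third coordinate `0`).
-/

namespace SN78

variable {X : Type} [Fintype X] {inf : X} {t : Fin 3 → X} {a b : X → X}

private theorem wnor_vec (q : H) (h : q 0 ≠ 0 ∨ q 1 ≠ 0) (m : ℝ) :
    ∃ e : H, e 2 = 0 ∧ d2 q e = m := by
  have hs : 0 < q 0 ^ 2 + q 1 ^ 2 := by
    rcases h with h | h <;> positivity
  refine ⟨![-(m / (q 0 ^ 2 + q 1 ^ 2) * q 1), m / (q 0 ^ 2 + q 1 ^ 2) * q 0, 0], rfl, ?_⟩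
  have e1 : d2 q ![-(m / (q 0 ^ 2 + q 1 ^ 2) * q 1), m / (q 0 ^ 2 + q 1 ^ 2) * q 0, 0] =
      q 0 * (m / (q 0 ^ 2 + q 1 ^ 2) * q 0) - q 1 * (-(m / (q 0 ^ 2 + q 1 ^ 2) * q 1)) := rfl
  rw [e1]
  field_simp
  ring

private theorem wnor_ne_of_d2 {p q : H} (h : d2 p q ≠ 0) : p 0 ≠ 0 ∨ p 1 ≠ 0 := by
  by_contra hc
  push Not at hc
  apply h
  simp [d2, hc.1, hc.2]

theorem Walk.exists_normal (w : Walk inf t a b) {E : Fin 3 → H} (hE : ∀ k, E k 2 = 0)
    (h01 : 0 < d2 (E 0) (E 1)) (h12 : 0 < d2 (E 1) (E 2)) {lam : X → ℝ} {τ : Fin 3 → ℝ}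
    {P : X → H} (he : Eqm inf t a b E lam τ P) (n : X → ℝ) :
    ∃ δ : X → H, (∀ v, δ v 2 = 0) ∧
      (∀ v, v ≠ inf → (∀ k, v ≠ t k) →
        d2 (P (a v) - P v) (δ v - (lam v • δ (a v) + (1 - lam v) • δ (b v))) = n v) ∧
      ∀ k, d2 (E k) (δ (t k) - δ (b (t k))) = n (t k) := by
  classical
  obtain ⟨ν, -, -, hνt, -, hν2⟩ := w.fredholm he.l0 he.l1
  -- the direction at each site
  obtain ⟨q, hq1, hq2⟩ : ∃ q : X → H, (∀ k, q (t k) = E k) ∧
      ∀ v, (∀ k, v ≠ t k) → q v = P (a v) - P v := by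
    refine ⟨fun v => if h : ∃ k, v = t k then E h.choose else P (a v) - P v, ?_, ?_⟩
    · intro k
      have h : ∃ j, t k = t j := ⟨k, rfl⟩
      have h2 : h.choose = k := (w.tinj h.choose_spec).symm
      simp only [dif_pos h, h2]
    · intro v hv
      have h : ¬ ∃ k, v = t k := fun ⟨k, hk⟩ => hv k hk
      simp only [dif_neg h]
  have hqne : ∀ v, v ≠ inf → q v 0 ≠ 0 ∨ q v 1 ≠ 0 := by
    intro v hv
    by_cases hk : ∃ k, v = t k
    · obtain ⟨k, rfl⟩ := hk
      rw [hq1]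
      fin_cases k
      · exact wnor_ne_of_d2 h01.ne'
      · exact wnor_ne_of_d2 h12.ne'
      · refine wnor_ne_of_d2 (q := E 1) ?_
        have := d2_swap (E 1) (E 2)
        intro h0
        have h3 : d2 (E 2) (E 1) = 0 := h0
        linarith
    · have hk' : ∀ k, v ≠ t k := fun k h => hk ⟨k, h⟩
      rw [hq2 v hk']
      by_contra hc
      push Not at hc
      apply w.av v hv
      refine he.inj _ _ (w.ainf v hv hk') hv ?_
      funext c
      have h2 : (P (a v) - P v) 2 = 0 := by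
        rw [Pi.sub_apply, he.nP, he.nP, sub_self]
      have h3 : (P (a v) - P v) c = 0 := by
        fin_cases c
        · exact hc.1
        · exact hc.2
        · exact h2
      exact sub_eq_zero.mp h3
  have hex : ∀ v, ∃ e : H, (v ≠ inf → d2 (q v) e = n v) := by
    intro v
    by_cases hv : v = inf
    · exact ⟨0, fun h => absurd hv h⟩
    · obtain ⟨e, -, h⟩ := wnor_vec (q v) (hqne v hv) (n v)
      exact ⟨e, fun _ => h⟩
  choose e0 he0 using hex
  have hn0 := (hνt 0).ne'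
  have hn1 := (hνt 1).ne'
  -- the correction at the first two ports
  obtain ⟨S, hS⟩ : ∃ S : H, ∀ c, S c = ∑ v, ν v * e0 v c := ⟨fun c => ∑ v, ν v * e0 v c, fun _ => rfl⟩
  obtain ⟨μ0, hμ0⟩ : ∃ μ0 : ℝ, ν (t 0) * μ0 = - d2 S (E 1) / d2 (E 0) (E 1) :=
    ⟨(- d2 S (E 1) / d2 (E 0) (E 1)) / ν (t 0), by field_simp⟩
  obtain ⟨μ1, hμ1⟩ : ∃ μ1 : ℝ, ν (t 1) * μ1 = - d2 (E 0) S / d2 (E 0) (E 1) :=
    ⟨(- d2 (E 0) S / d2 (E 0) (E 1)) / ν (t 1), by field_simp⟩
  obtain ⟨e, hee⟩ : ∃ e : X → H, ∀ v c, e v c = e0 v c + (if v = t 0 then μ0 * E 0 c else 0) +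
      (if v = t 1 then μ1 * E 1 c else 0) :=
    ⟨fun v c => e0 v c + (if v = t 0 then μ0 * E 0 c else 0) +
      (if v = t 1 then μ1 * E 1 c else 0), fun _ _ => rfl⟩
  have hD := h01.ne'
  have hsum : ∀ c : Fin 3, c ≠ 2 → ∑ v, ν v * e v c = 0 := by
    intro c hc
    have h1 : ∑ v, ν v * e v c = S c + ν (t 0) * μ0 * E 0 c + ν (t 1) * μ1 * E 1 c := by
      rw [hS]
      have : ∀ v, ν v * e v c = ν v * e0 v c + (if v = t 0 then ν v * (μ0 * E 0 c) else 0) +
          (if v = t 1 then ν v * (μ1 * E 1 c) else 0) := by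
        intro v
        rw [hee]
        split_ifs <;> ring
      rw [Finset.sum_congr rfl fun v _ => this v, Finset.sum_add_distrib, Finset.sum_add_distrib,
        Finset.sum_ite_eq', Finset.sum_ite_eq']
      simp only [Finset.mem_univ, if_true]
      ring
    rw [h1, hμ0, hμ1]
    have hcc : c = 0 ∨ c = 1 := by
      fin_cases c
      · exact Or.inl rfl
      · exact Or.inr rfl
      · exact absurd rfl hc
    have key : S c * d2 (E 0) (E 1) + - d2 S (E 1) * E 0 c + - d2 (E 0) S * E 1 c = 0 := by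
      simp only [d2]
      rcases hcc with rfl | rfl
      · ring
      · ring
    generalize d2 (E 0) (E 1) = D at hD key
    field_simp
    linarith
  obtain ⟨x, hx1, hx2⟩ := hν2 (fun v => e v 0) (hsum 0 (by decide))
  obtain ⟨y, hy1, hy2⟩ := hν2 (fun v => e v 1) (hsum 1 (by decide))
  have hed : ∀ v, v ≠ inf → d2 (q v) (e v) = n v := by
    intro v hv
    rw [← he0 v hv]
    have t01 : t 0 ≠ t 1 := fun h => by simpa using w.tinj h
    by_cases h0 : v = t 0
    · subst h0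
      simp only [d2, hee, hq1, if_true, if_neg t01]
      ring
    · by_cases h1 : v = t 1
      · subst h1
        simp only [d2, hee, hq1, if_true, if_neg h0]
        ring
      · simp only [d2, hee, if_neg h0, if_neg h1]
        ring
  refine ⟨fun v => ![x v, y v, 0], fun v => rfl, ?_, ?_⟩
  · intro v hv hk
    have h1 := hx1 v hv hk
    have h2 := hy1 v hv hk
    rw [← hed v hv, hq2 v hk]
    have ex : (![x v, y v, 0] - (lam v • ![x (a v), y (a v), 0] +
        (1 - lam v) • ![x (b v), y (b v), 0]) : H) 0 = e v 0 := by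
      simp only [Pi.sub_apply, Pi.add_apply, Pi.smul_apply, smul_eq_mul, Matrix.cons_val_zero]
      linarith
    have ey : (![x v, y v, 0] - (lam v • ![x (a v), y (a v), 0] +
        (1 - lam v) • ![x (b v), y (b v), 0]) : H) 1 = e v 1 := by
      simp only [Pi.sub_apply, Pi.add_apply, Pi.smul_apply, smul_eq_mul, Matrix.cons_val_one,
        Matrix.cons_val_zero]
      linarith
    simp only [d2]
    rw [ex, ey]
  · intro k
    have h1 := hx2 k
    have h2 := hy2 k
    have hti := w.tinf k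
    rw [← hed (t k) hti, hq1]
    have ex : (![x (t k), y (t k), 0] - ![x (b (t k)), y (b (t k)), 0] : H) 0 = e (t k) 0 := by
      simp only [Pi.sub_apply, Matrix.cons_val_zero]
      linarith
    have ey : (![x (t k), y (t k), 0] - ![x (b (t k)), y (b (t k)), 0] : H) 1 = e (t k) 1 := by
      simp only [Pi.sub_apply, Matrix.cons_val_one, Matrix.cons_val_zero]
      linarith
    simp only [d2]
    rw [ex, ey]

end SN78
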