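import Pool.Agent.SN78.RLim
import Pool.Agent.SN78.RClo
import Pool.Agent.SN78.WNor
import Pool.Agent.SN78.Open

/-!
# SN78 module RPERT: the perturbation of the positions

`pe P δ ε v = P v + ε • δ v`.  Write `Q ε e = qs D (pe P δ ε) inf e`.  We want `δ` such that each site `v` moves
off the stick (strand) through it to the side given by the sign of `c v`.

Let `a v`, `b v` be the two neighbours on the strand and `e v = δ v - (lam v • δ (a v) + (1 - lam v) • δ (b v))` for
`v` not a port site `0, 1, 2`, and `e (t k) = δ (t k) - δ (b (t k))`.  So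
`pe v = lam v • pe (a v) + (1 - lam v) • pe (b v) + ε • e v`, `pe (t k) = pe (b (t k)) + τ k • D k + ε • e (t k)`.
By `Walk.exists_normal` (`Frame.walk`) there is `δ` with arbitrary given values `n v` of
`d2 (P (a v) - P v) (e v)` and `n (t k)` of `d2 (D k) (e (t k))`.

Let `t₁ = tp α inf 1`, `y = (α (t₁, s t₁ + 2)).1`.
(1) `v ≠ t₁, y`.  The strand of `v` ends at its direct neighbours: `en (v, s v) = α (v, s v)`,
`en (v, s v + 2) = α (v, s v + 2)` (`st_two`: the edges are bent at the other end or lead to `inf`).  If `v` is not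
a port site `0, 1, 2`:
`dt (pe (a v)) (pe v) (pe (b v)) = ε * dt (pe (a v)) (e v) (pe (b v))`, and for `ε → 0` the last factor tends to
`dt (P a) (e v) (P b) = d2 (P a - P b) (e v) = n v / (1 - lam v)`.
If `v = t k` (`k = 0, 2`): `dt (D k) (pe v) (pe (b v)) = ε * dt (D k) (e v) (pe (b v)) = ε * n v`.  So take `n v = c v`.
(2) `v = t₁, y`.  `y` is not a port site.  The two straight neighbours of `y` are `t₁` and a site
`z ≠ inf`; let `μ` be the weight of `t₁` in the equation of `y`, so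
`pe y = μ • pe t₁ + (1 - μ) • pe z + ε • e y` and `pe t₁ = pe y + τ 1 • D 1 + ε • e t₁`.  With `h x = d2 (D 1) x`, `A = h (e t₁)`,
`B = h (e y)`: `h (pe y - pe z) = ε (B + μ A) / (1 - μ)`, `h (pe t₁ - pe z) = ε (A + B) / (1 - μ)`,
`h (pe t₁ - pe y) = ε A`.  The strand of `t₁` ends at `inf` (port `1`) and at `z` if `sg y`, at `y` otherwise; the
strand of `y` ends at `z`, and at `inf` (port `1`) if `sg t₁`, at `t₁` otherwise.  So the determinants to be
controlled are `ε` times (plus `O(ε²)` in the case that the strand of `y` ends at `t₁`) a nonzero constant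
times: for `t₁`: `A + B` or `A`; for `y`: `B + μ A` or `B`.  In each of the four cases the map from `(A, B)` to
these two numbers is bijective (`0 < μ < 1`), so `A, B` can be chosen with the required signs; `A = n t₁`, and
`B` is a nonzero multiple of `n y` (`P (a y) - P y` is parallel to `D 1`).
(3) `t₃ = tp α inf 3`, `g = op (α (inf, -3))`, `e = en g`: we want
`d2 (D 3) (Q ε e - (Q ε e 2) • pe t₃) ≠ 0` for small `ε > 0`.  If `e.1 = inf` then `e = (inf, -1)` (`en_far`, `through_ne`), and this is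
`d2 (D 3) (D 1) ≠ 0`.  Otherwise it is `d2 (D 3) (P e.1 - P t₃) + ε * d2 (D 3) (δ e.1 - δ t₃)`.  If the first term is
not `0` fine.  If it is `0` and the second term is `0`, replace `δ t₃` by `δ t₃ + η • x` with a flat `x`,
`d2 (D 3) x ≠ 0`, and `η` so small that the finitely many first order signs in (1), (2) do not change
(they depend continuously on `δ`); `e.1 ≠ t₃` since `P e.1 - P t₃ ≠ 0` by `lim_dir`.
It is convenient to prove (1), (2) in the form: the determinant is a polynomial in `ε` without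
constant term whose linear coefficient is a linear function of `δ` and has the sign of `c v`.
-/

namespace SN78

open Filter Topology

/-- perturbed positions -/
def pe {X : Type} (P δ : X → H) (ε : ℝ) : X → H := fun v => P v + ε • δ v

/-- the properties of the perturbation -/
structure Pert {X : Type} (α : X × ZMod 4 → X × ZMod 4) (sg : X → Prop) (inf : X)
    (s : X → ZMod 4) (D : ZMod 4 → H) (P : X → H) (c : X → ℝ) (δ : X → H) : Prop where
  flat : ∀ v, δ v 2 = 0
  off : ∀ v, v ≠ inf → ∀ᶠ ε in 𝓝[>] (0 : ℝ), 0 < c v *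
    dt (qs D (pe P δ ε) inf (en α sg inf s (v, s v))) (pe P δ ε v)
      (qs D (pe P δ ε) inf (en α sg inf s (v, s v + 2)))
  t3 : ∀ᶠ ε in 𝓝[>] (0 : ℝ), d2 (D 3)
    (qs D (pe P δ ε) inf (en α sg inf s (op (α (inf, -3)))) -
      (qs D (pe P δ ε) inf (en α sg inf s (op (α (inf, -3)))) 2) • pe P δ ε (tp α inf 3)) ≠ 0

/-! ### first order expansion -/

/-- the linear coefficient -/
private def rpL (A0 A1 p x B0 B1 : H) : ℝ := dt A1 p B0 + dt A0 x B0 + dt A0 p B1

private theorem rp_z4 (j : ZMod 4) : j = 0 ∨ j = 1 ∨ j = 2 ∨ j = 3 := by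
  revert j; decide

private theorem rp_tendsto (K L M N : ℝ) :
    Tendsto (fun ε : ℝ => K + ε * L + ε ^ 2 * M + ε ^ 3 * N) (𝓝[>] 0) (𝓝 K) := by
  have h : Continuous fun ε : ℝ => K + ε * L + ε ^ 2 * M + ε ^ 3 * N := by fun_prop
  have h2 := h.tendsto 0
  simp only [zero_mul, add_zero, ne_eq, OfNat.ofNat_ne_zero, not_false_eq_true, zero_pow] at h2
  exact h2.mono_left nhdsWithin_le_nhds

private theorem rp_ev {A0 A1 p x B0 B1 : H} {c : ℝ} (h0 : dt A0 p B0 = 0)
    (h1 : 0 < c * rpL A0 A1 p x B0 B1) :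
    ∀ᶠ ε in 𝓝[>] (0 : ℝ), 0 < c * dt (A0 + ε • A1) (p + ε • x) (B0 + ε • B1) := by
  have h2 := (rp_tendsto (c * rpL A0 A1 p x B0 B1)
    (c * (dt A1 x B0 + dt A1 p B1 + dt A0 x B1)) (c * dt A1 x B1) 0).eventually (lt_mem_nhds h1)
  filter_upwards [h2, self_mem_nhdsWithin] with ε h3 h4
  have h4' : 0 < ε := h4
  have h5 := mul_pos h4' h3
  have h6 : c * dt (A0 + ε • A1) (p + ε • x) (B0 + ε • B1) = c * dt A0 p B0 +
      ε * (c * rpL A0 A1 p x B0 B1 + ε * (c * (dt A1 x B0 + dt A1 p B1 + dt A0 x B1)) +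
        ε ^ 2 * (c * dt A1 x B1) + ε ^ 3 * 0) := by
    simp only [rpL, dt, Pi.add_apply, Pi.smul_apply, smul_eq_mul]
    ring
  rw [h6, h0, mul_zero, zero_add]
  exact h5

private theorem rp_val {A0 A1 p x B0 B1 u : H} {αa αb ta tb : ℝ} (hA : A0 = αa • p + ta • u)
    (hB : B0 = αb • p - tb • u) (hp : p 2 = 1) (hu : u 2 = 0) (hx : x 2 = 0) (hA1 : A1 2 = 0)
    (hB1 : B1 2 = 0) :
    rpL A0 A1 p x B0 B1 = tb * d2 u (αa • x - A1) + ta * d2 u (αb • x - B1) := by
  subst hA hB
  simp only [rpL, dt, d2, Pi.add_apply, Pi.sub_apply, Pi.smul_apply, smul_eq_mul, hp, hu, hx,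
    hA1, hB1]
  ring

private theorem rp_col {A0 p B0 u : H} {αa αb ta tb : ℝ} (hA : A0 = αa • p + ta • u)
    (hB : B0 = αb • p - tb • u) : dt A0 p B0 = 0 := by
  subst hA hB
  simp only [dt, Pi.add_apply, Pi.sub_apply, Pi.smul_apply, smul_eq_mul]
  ring

private theorem rp_swap (A0 A1 p x B0 B1 : H) : rpL B0 B1 p x A0 A1 = - rpL A0 A1 p x B0 B1 := by
  simp only [rpL, dt]
  ring

private theorem rp_lin (A0 A1 p x B0 B1 A1' x' B1' : H) (η : ℝ) :
    rpL A0 (A1 + η • A1') p (x + η • x') B0 (B1 + η • B1') =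
      rpL A0 A1 p x B0 B1 + η * rpL A0 A1' p x' B0 B1' := by
  simp only [rpL, dt, Pi.add_apply, Pi.smul_apply, smul_eq_mul]
  ring

private theorem rp_nz {K L : ℝ} (h : K ≠ 0 ∨ L ≠ 0) :
    ∀ᶠ ε in 𝓝[>] (0 : ℝ), K + ε * L ≠ 0 := by
  by_cases hK : K = 0
  · have hL : L ≠ 0 := by
      rcases h with h | h
      · exact absurd hK h
      · exact h
    filter_upwards [self_mem_nhdsWithin] with ε h4
    have h4' : 0 < ε := h4
    rw [hK, zero_add]
    exact mul_ne_zero h4'.ne' hL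
  · have h2 := (rp_tendsto K L 0 0).eventually_ne hK
    filter_upwards [h2] with ε h3
    simpa using h3

/-- first order term of the position of an end -/
private noncomputable def rpq {X : Type} (δ : X → H) (inf : X) (e : X × ZMod 4) : H := by
  classical
  exact if e.1 = inf then 0 else δ e.1

private theorem rpq_inf {X : Type} (δ : X → H) {inf : X} {e : X × ZMod 4} (h : e.1 = inf) :
    rpq δ inf e = 0 := by
  simp [rpq, h]

private theorem rpq_ne {X : Type} (δ : X → H) {inf : X} {e : X × ZMod 4} (h : e.1 ≠ inf) :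
    rpq δ inf e = δ e.1 := by
  simp [rpq, h]

private theorem rpq_flat {X : Type} {δ : X → H} (hδ : ∀ v, δ v 2 = 0) (inf : X)
    (e : X × ZMod 4) : rpq δ inf e 2 = 0 := by
  by_cases h : e.1 = inf
  · rw [rpq_inf δ h]; rfl
  · rw [rpq_ne δ h]; exact hδ _

private theorem rpq_add {X : Type} (δ x : X → H) (η : ℝ) (inf : X) (e : X × ZMod 4) :
    rpq (fun v => δ v + η • x v) inf e = rpq δ inf e + η • rpq x inf e := by
  by_cases h : e.1 = inf
  · rw [rpq_inf _ h, rpq_inf _ h, rpq_inf _ h]; simp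
  · rw [rpq_ne _ h, rpq_ne _ h, rpq_ne _ h]

private theorem rp_qs {X : Type} (D : ZMod 4 → H) (P δ : X → H) (ε : ℝ) (inf : X)
    (e : X × ZMod 4) : qs D (pe P δ ε) inf e = qs D P inf e + ε • rpq δ inf e := by
  by_cases h : e.1 = inf
  · rw [rpq_inf _ h]; simp [qs, h]
  · rw [rpq_ne _ h]; simp [qs, h, pe]

variable {X : Type} [Fintype X] {α : X × ZMod 4 → X × ZMod 4} {inf : X} {s : X → ZMod 4}
  {o : X × ZMod 4 → Bool} {D : ZMod 4 → H} {P : X → H}

/-! ### the ends of the sticks -/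

/-- the star dart at `t₁` -/
private def rpg (α : X × ZMod 4 → X × ZMod 4) (inf : X) (s : X → ZMod 4) : X × ZMod 4 :=
  (tp α inf 1, s (tp α inf 1) + 2)

omit [Fintype X] in
private theorem rp_op_op (d : X × ZMod 4) : op (op d) = d := by
  have h : ∀ i : ZMod 4, i + 2 + 2 = i := by decide
  simp only [op, h]

omit [Fintype X] in
private theorem rp_st_op {d : X × ZMod 4} (h : St s d) : St s (op d) := by
  have hz : ∀ i j : ZMod 4, (i = j ∨ i = j + 2) → (i + 2 = j ∨ i + 2 = j + 2) := by decide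
  exact hz _ _ h

private theorem rp_y_inf (F : Frame α inf o s) : (α (rpg α inf s)).1 ≠ inf :=
  F.b_inf (F.rig.tp_ne inf 1)

private theorem rp_st {F : Frame α inf o s} : St s (α (rpg α inf s)) := F.star_st

private theorem rp_stop (F : Frame α inf o s) {sg : X → Prop} {d : X × ZMod 4} (hd : d.1 ≠ inf)
    (hst : St s d) (h1 : d ≠ rpg α inf s) (h2 : d ≠ α (rpg α inf s)) :
    en α sg inf s d = α d := by
  apply en_stop
  rintro ⟨h3, -, h4⟩
  rcases F.st_two hd h3 hst h4 with h | h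
  · exact h1 h
  · apply h2
    rw [rpg, ← h, F.rig.inv]

private theorem rp_z_stop (F : Frame α inf o s) {sg : X → Prop} :
    en α sg inf s (op (α (rpg α inf s))) = α (op (α (rpg α inf s))) := by
  have hne : (α (rpg α inf s)).1 ≠ tp α inf 1 := F.rig.noloop (rpg α inf s)
  refine rp_stop F (d := op (α (rpg α inf s))) (rp_y_inf F) (rp_st_op F.star_st) ?_ ?_
  · intro h
    have h2 : (op (α (rpg α inf s))).1 = (rpg α inf s).1 := congrArg Prod.fst h
    exact hne h2
  · intro h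
    have h2 := congrArg Prod.snd h
    have hz : ∀ i : ZMod 4, i + 2 ≠ i := by decide
    exact hz _ h2

private theorem rp_z_inf (F : Frame α inf o s) : (α (op (α (rpg α inf s)))).1 ≠ inf := by
  have hst : St s (op (α (rpg α inf s))) := rp_st_op F.star_st
  have hy := rp_y_inf F
  rcases hst with h | h
  · have e : op (α (rpg α inf s)) = ((α (rpg α inf s)).1, s (α (rpg α inf s)).1) :=
      Prod.ext rfl h
    rw [e]
    intro h2
    obtain ⟨k, -, hk⟩ := (F.a_inf hy).1 h2
    exact F.star_ne k hk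
  · have e : op (α (rpg α inf s)) = ((α (rpg α inf s)).1, s (α (rpg α inf s)).1 + 2) :=
      Prod.ext rfl h
    rw [e]
    exact F.b_inf hy

private theorem rp_t1a (F : Frame α inf o s) {sg : X → Prop} :
    en α sg inf s (tp α inf 1, s (tp α inf 1)) = (inf, -1) := by
  have h : α (tp α inf 1, s (tp α inf 1)) = (inf, -1) := by
    rw [← F.port_eq (k := 1) (by decide), F.rig.inv]
  rw [en_stop, h]
  rw [h]
  rintro ⟨h1, -⟩
  exact h1 rfl

private theorem rp_t1b (F : Frame α inf o s) {sg : X → Prop} (h : sg (α (rpg α inf s)).1) :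
    en α sg inf s (rpg α inf s) = α (op (α (rpg α inf s))) := by
  rw [F.en_go ⟨rp_y_inf F, h, F.star_st⟩]
  exact rp_z_stop F

omit [Fintype X] in
private theorem rp_t1b' {sg : X → Prop} (h : ¬ sg (α (rpg α inf s)).1) :
    en α sg inf s (rpg α inf s) = α (rpg α inf s) :=
  en_stop fun h2 => h h2.2.1

private theorem rp_ya (F : Frame α inf o s) {sg : X → Prop} (h : sg (tp α inf 1)) :
    en α sg inf s (α (rpg α inf s)) = (inf, -1) := by
  have h1 : α (α (rpg α inf s)) = rpg α inf s := F.rig.inv _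
  have h2 : Ps sg inf s (α (α (rpg α inf s))) := by
    rw [h1]
    exact ⟨F.rig.tp_ne inf 1, h, Or.inr rfl⟩
  have h3 : nt α (α (rpg α inf s)) = (tp α inf 1, s (tp α inf 1)) := by
    have hz : ∀ i : ZMod 4, i + 2 + 2 = i := by decide
    rw [nt, h1]
    simp only [op, rpg, hz]
  rw [F.en_go h2, h3]
  exact rp_t1a F

private theorem rp_ya' (F : Frame α inf o s) {sg : X → Prop} (h : ¬ sg (tp α inf 1)) :
    en α sg inf s (α (rpg α inf s)) = rpg α inf s := by
  have h1 : α (α (rpg α inf s)) = rpg α inf s := F.rig.inv _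
  rw [en_stop, h1]
  rw [h1]
  exact fun h2 => h h2.2.1

/-! ### the linear coefficients -/

/-- the linear coefficient of the determinant for the stick ends of the darts `d`, `d'` at `v` -/
private noncomputable def rpF (α : X × ZMod 4 → X × ZMod 4) (sg : X → Prop) (inf : X)
    (s : X → ZMod 4) (D : ZMod 4 → H) (P δ : X → H) (d d' : X × ZMod 4) : ℝ :=
  rpL (qs D P inf (en α sg inf s d)) (rpq δ inf (en α sg inf s d)) (P d.1) (δ d.1)
    (qs D P inf (en α sg inf s d')) (rpq δ inf (en α sg inf s d'))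

private theorem rp_choice {μ τ c1 c2 : ℝ} (h1 : μ < 1) (ht : 0 < τ) (hc1 : c1 ≠ 0)
    (hc2 : c2 ≠ 0) (p q : Prop) : ∃ A B : ℝ,
      (p → 0 < c1 * ((A + B) / (1 - μ))) ∧ (¬ p → 0 < c1 * A) ∧
      (q → 0 < c2 * ((B + μ * A) / (1 - μ))) ∧ (¬ q → 0 < c2 * (τ / (1 - μ) * B)) := by
  have h2 : 0 < 1 - μ := by linarith
  have s1 : 0 < c1 * c1 := mul_self_pos.mpr hc1
  have s2 : 0 < c2 * c2 := mul_self_pos.mpr hc2
  by_cases hp : p <;> by_cases hq : q
  · refine ⟨(c1 - c2) / (1 - μ), c1 - (c1 - c2) / (1 - μ), fun _ => ?_, fun h => absurd hp h,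
      fun _ => ?_, fun h => absurd hq h⟩
    · have : c1 * (((c1 - c2) / (1 - μ) + (c1 - (c1 - c2) / (1 - μ))) / (1 - μ)) =
          c1 * c1 / (1 - μ) := by ring
      rw [this]
      positivity
    · have : c2 * ((c1 - (c1 - c2) / (1 - μ) + μ * ((c1 - c2) / (1 - μ))) / (1 - μ)) =
          c2 * c2 / (1 - μ) := by field_simp; ring
      rw [this]
      positivity
  · refine ⟨c1 - c2, c2, fun _ => ?_, fun h => absurd hp h, fun h => absurd h hq, fun _ => ?_⟩
    · have : c1 * ((c1 - c2 + c2) / (1 - μ)) = c1 * c1 / (1 - μ) := by ring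
      rw [this]
      positivity
    · have : c2 * (τ / (1 - μ) * c2) = c2 * c2 * (τ / (1 - μ)) := by ring
      rw [this]
      positivity
  · refine ⟨c1, c2 - μ * c1, fun h => absurd h hp, fun _ => s1, fun _ => ?_,
      fun h => absurd hq h⟩
    have : c2 * ((c2 - μ * c1 + μ * c1) / (1 - μ)) = c2 * c2 / (1 - μ) := by ring
    rw [this]
    positivity
  · refine ⟨c1, c2, fun h => absurd h hp, fun _ => s1, fun h => absurd h hq, fun _ => ?_⟩
    have : c2 * (τ / (1 - μ) * c2) = c2 * c2 * (τ / (1 - μ)) := by ring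
    rw [this]
    positivity

/-- values at `t₁` -/
private theorem rp_val_t (F : Frame α inf o s) {sg : X → Prop} (hD : Flat D)
    (hP : ∀ v, P v 2 = 1) {τ μ : ℝ} (h1 : μ < 1)
    (hy : P (tp α inf 1) = P (α (rpg α inf s)).1 + τ • D 1)
    (hz : P (α (rpg α inf s)).1 = μ • P (tp α inf 1) + (1 - μ) • P (α (op (α (rpg α inf s)))).1)
    {δ : X → H} (hδ : ∀ v, δ v 2 = 0) {A B : ℝ}
    (hA : d2 (D 1) (δ (tp α inf 1) - δ (α (rpg α inf s)).1) = A)
    (hB : d2 (D 1) (δ (α (rpg α inf s)).1 -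
      (μ • δ (tp α inf 1) + (1 - μ) • δ (α (op (α (rpg α inf s)))).1)) = B) :
    (sg (α (rpg α inf s)).1 → rpF α sg inf s D P δ (tp α inf 1, s (tp α inf 1))
      (rpg α inf s) = (A + B) / (1 - μ)) ∧
    (¬ sg (α (rpg α inf s)).1 → rpF α sg inf s D P δ (tp α inf 1, s (tp α inf 1))
      (rpg α inf s) = A) ∧
    (sg (tp α inf 1) → rpF α sg inf s D P δ (α (rpg α inf s)) (op (α (rpg α inf s))) =
      (B + μ * A) / (1 - μ)) ∧
    (¬ sg (tp α inf 1) → rpF α sg inf s D P δ (α (rpg α inf s)) (op (α (rpg α inf s))) =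
      τ / (1 - μ) * B) := by
  have h2 : 0 < 1 - μ := by linarith
  have hyi := rp_y_inf F
  have hzi := rp_z_inf F
  have qinf : qs D P inf (inf, -1) = D 1 := by simp [qs]
  have qz : qs D P inf (α (op (α (rpg α inf s)))) = P (α (op (α (rpg α inf s)))).1 := by
    simp [qs, hzi]
  have qy : qs D P inf (α (rpg α inf s)) = P (α (rpg α inf s)).1 := by simp [qs, hyi]
  have qt : qs D P inf (rpg α inf s) = P (tp α inf 1) := by
    have : (rpg α inf s).1 ≠ inf := F.rig.tp_ne inf 1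
    simp only [qs, this, if_false]
    rfl
  have rinf : rpq δ inf ((inf, -1) : X × ZMod 4) = 0 := rpq_inf δ rfl
  have rz : rpq δ inf (α (op (α (rpg α inf s)))) = δ (α (op (α (rpg α inf s)))).1 :=
    rpq_ne δ hzi
  have ry : rpq δ inf (α (rpg α inf s)) = δ (α (rpg α inf s)).1 := rpq_ne δ hyi
  have rt : rpq δ inf (rpg α inf s) = δ (tp α inf 1) := rpq_ne δ (F.rig.tp_ne inf 1)
  have flat0 := hδ (tp α inf 1)
  have flat1 := hδ (α (rpg α inf s)).1
  have flat2 := hδ (α (op (α (rpg α inf s)))).1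
  have hzt : P (α (op (α (rpg α inf s)))).1 = (1 : ℝ) • P (tp α inf 1) - (τ / (1 - μ)) • D 1 := by
    funext c
    have e1 := congrFun hy c
    have e2 := congrFun hz c
    simp only [Pi.add_apply, Pi.sub_apply, Pi.smul_apply, smul_eq_mul] at e1 e2 ⊢
    field_simp
    rw [e1] at e2 ⊢
    linarith
  have hzy : P (α (op (α (rpg α inf s)))).1 =
      (1 : ℝ) • P (α (rpg α inf s)).1 - (μ / (1 - μ) * τ) • D 1 := by
    funext c
    have e1 := congrFun hy c
    have e2 := congrFun hz c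
    simp only [Pi.add_apply, Pi.sub_apply, Pi.smul_apply, smul_eq_mul] at e1 e2 ⊢
    field_simp
    rw [e1] at e2
    linarith
  have hyt : P (α (rpg α inf s)).1 = (1 : ℝ) • P (tp α inf 1) - τ • D 1 := by
    rw [hy]; simp
  have hty : P (tp α inf 1) = (1 : ℝ) • P (α (rpg α inf s)).1 + τ • D 1 := by
    rw [hy]; simp
  have hDt : D 1 = (0 : ℝ) • P (tp α inf 1) + (1 : ℝ) • D 1 := by simp
  have hDy : D 1 = (0 : ℝ) • P (α (rpg α inf s)).1 + (1 : ℝ) • D 1 := by simp
  subst hA hB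
  refine ⟨fun hs => ?_, fun hs => ?_, fun hs => ?_, fun hs => ?_⟩
  · rw [rpF, rp_t1a F, rp_t1b F hs, qinf, qz, rinf, rz]
    show rpL _ _ (P (tp α inf 1)) (δ (tp α inf 1)) _ _ = _
    rw [rp_val hDt hzt (hP _) (hD _) flat0 rfl flat2]
    simp only [d2, Pi.add_apply, Pi.sub_apply, Pi.smul_apply, smul_eq_mul, Pi.zero_apply]
    field_simp
    ring
  · rw [rpF, rp_t1a F, rp_t1b' hs, qinf, qy, rinf, ry]
    show rpL _ _ (P (tp α inf 1)) (δ (tp α inf 1)) _ _ = _
    rw [rp_val hDt hyt (hP _) (hD _) flat0 rfl flat1]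
    simp only [d2, Pi.sub_apply, Pi.smul_apply, smul_eq_mul, Pi.zero_apply]
    ring
  · rw [rpF, rp_ya F hs, rp_z_stop F, qinf, qz, rinf, rz]
    rw [rp_val hDy hzy (hP _) (hD _) flat1 rfl flat2]
    simp only [d2, Pi.add_apply, Pi.sub_apply, Pi.smul_apply, smul_eq_mul, Pi.zero_apply]
    field_simp
    ring
  · rw [rpF, rp_ya' F hs, rp_z_stop F, qt, qz, rt, rz]
    rw [rp_val hty hzy (hP _) (hD _) flat1 flat0 flat2]
    simp only [d2, Pi.add_apply, Pi.sub_apply, Pi.smul_apply, smul_eq_mul]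
    field_simp
    ring

/-- the data of the site `y` -/
private theorem rp_y_data (F : Frame α inf o s) (sg : X → Prop) {lam : X → ℝ} {τ : ℝ}
    (l0 : ∀ v, 0 < lam v) (l1 : ∀ v, lam v < 1) (hτ : 0 < τ)
    (heq : P (α (rpg α inf s)).1 =
      lam (α (rpg α inf s)).1 • P (α ((α (rpg α inf s)).1, s (α (rpg α inf s)).1)).1 +
      (1 - lam (α (rpg α inf s)).1) • P (α ((α (rpg α inf s)).1, s (α (rpg α inf s)).1 + 2)).1)
    (hy : P (tp α inf 1) = P (α (rpg α inf s)).1 + τ • D 1) :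
    ∃ μ κ σ : ℝ, μ < 1 ∧ κ ≠ 0 ∧ σ ≠ 0 ∧
      P (α (rpg α inf s)).1 = μ • P (tp α inf 1) + (1 - μ) • P (α (op (α (rpg α inf s)))).1 ∧
      (∀ δ : X → H, d2 (P (α ((α (rpg α inf s)).1, s (α (rpg α inf s)).1)).1 -
          P (α (rpg α inf s)).1) (δ (α (rpg α inf s)).1 -
          (lam (α (rpg α inf s)).1 • δ (α ((α (rpg α inf s)).1, s (α (rpg α inf s)).1)).1 +
          (1 - lam (α (rpg α inf s)).1) •
            δ (α ((α (rpg α inf s)).1, s (α (rpg α inf s)).1 + 2)).1)) =
        κ * d2 (D 1) (δ (α (rpg α inf s)).1 -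
          (μ • δ (tp α inf 1) + (1 - μ) • δ (α (op (α (rpg α inf s)))).1))) ∧
      (∀ δ : X → H, rpF α sg inf s D P δ ((α (rpg α inf s)).1, s (α (rpg α inf s)).1)
          ((α (rpg α inf s)).1, s (α (rpg α inf s)).1 + 2) =
        σ * rpF α sg inf s D P δ (α (rpg α inf s)) (op (α (rpg α inf s)))) := by
  have hinv : α (α (rpg α inf s)) = rpg α inf s := F.rig.inv _
  have l0y := l0 (α (rpg α inf s)).1
  have l1y := l1 (α (rpg α inf s)).1
  rcases F.star_st with h | h
  · have h' : (α (rpg α inf s)).2 = s (α (rpg α inf s)).1 := h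
    have e1 : ((α (rpg α inf s)).1, s (α (rpg α inf s)).1) = α (rpg α inf s) := by
      rw [← h']
    have e2 : ((α (rpg α inf s)).1, s (α (rpg α inf s)).1 + 2) = op (α (rpg α inf s)) := by
      rw [← h']; rfl
    have e3 : (rpg α inf s).1 = tp α inf 1 := rfl
    rw [e1, e2, hinv, e3] at heq
    rw [e1, e2, hinv, e3]
    refine ⟨lam (α (rpg α inf s)).1, τ, 1, l1y, hτ.ne', one_ne_zero, heq, fun δ => ?_,
      fun δ => (one_mul _).symm⟩
    have e4 : P (tp α inf 1) - P (α (rpg α inf s)).1 = τ • D 1 := by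
      rw [hy]; simp
    rw [e4, d2_smul_left]
  · have hz : ∀ i : ZMod 4, i + 2 + 2 = i := by decide
    have h' : (α (rpg α inf s)).2 = s (α (rpg α inf s)).1 + 2 := h
    have e1 : ((α (rpg α inf s)).1, s (α (rpg α inf s)).1) = op (α (rpg α inf s)) := by
      simp only [op, h', hz]
    have e2 : ((α (rpg α inf s)).1, s (α (rpg α inf s)).1 + 2) = α (rpg α inf s) := by
      rw [← h']
    have e3 : (rpg α inf s).1 = tp α inf 1 := rfl
    rw [e1, e2, hinv, e3] at heq
    rw [e1, e2, hinv, e3]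
    have e5 : (1 : ℝ) - (1 - lam (α (rpg α inf s)).1) = lam (α (rpg α inf s)).1 := by ring
    have h2 : 0 < 1 - lam (α (rpg α inf s)).1 := by linarith
    refine ⟨1 - lam (α (rpg α inf s)).1,
      -((1 - lam (α (rpg α inf s)).1) / lam (α (rpg α inf s)).1 * τ), -1, by linarith, ?_,
      by norm_num, ?_, fun δ => ?_, fun δ => ?_⟩
    · exact (neg_neg_of_pos (by positivity)).ne
    · rw [e5, add_comm]
      exact heq
    · rw [e5]
      have e4 : P (α (op (α (rpg α inf s)))).1 - P (α (rpg α inf s)).1 =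
          (-((1 - lam (α (rpg α inf s)).1) / lam (α (rpg α inf s)).1 * τ)) • D 1 := by
        funext c
        have e6 := congrFun hy c
        have e7 := congrFun heq c
        simp only [Pi.add_apply, Pi.sub_apply, Pi.smul_apply, smul_eq_mul] at e6 e7 ⊢
        field_simp
        rw [e6] at e7
        linarith
      rw [e4, d2_smul_left, add_comm (lam (α (rpg α inf s)).1 • _)]
    · rw [rpF, rpF, rp_swap]
      simp only [op, neg_one_mul]

private theorem rp_two (F : Frame α inf o s) (sg : X → Prop) {v : X} (hv : v ≠ inf)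
    (h1 : v ≠ tp α inf 1) (h2 : v ≠ (α (rpg α inf s)).1) :
    en α sg inf s (v, s v) = α (v, s v) ∧ en α sg inf s (v, s v + 2) = α (v, s v + 2) :=
  ⟨rp_stop F hv (Or.inl rfl) (fun h => h1 (congrArg Prod.fst h))
      (fun h => h2 (congrArg Prod.fst h)),
    rp_stop F hv (Or.inr rfl) (fun h => h1 (congrArg Prod.fst h))
      (fun h => h2 (congrArg Prod.fst h))⟩

private theorem rp_port (F : Frame α inf o s) {sg : X → Prop} (hD : Flat D)
    (hP : ∀ v, P v 2 = 1) {k : ZMod 4} (hk : k ≠ 3) (h1 : tp α inf k ≠ tp α inf 1)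
    (h2 : tp α inf k ≠ (α (rpg α inf s)).1) {τ : ℝ}
    (hy : P (tp α inf k) = P (α (tp α inf k, s (tp α inf k) + 2)).1 + τ • D k)
    {δ : X → H} (hδ : ∀ v, δ v 2 = 0) :
    rpF α sg inf s D P δ (tp α inf k, s (tp α inf k)) (tp α inf k, s (tp α inf k) + 2) =
      d2 (D k) (δ (tp α inf k) - δ (α (tp α inf k, s (tp α inf k) + 2)).1) := by
  have hv : tp α inf k ≠ inf := F.rig.tp_ne inf k
  have hb := F.b_inf hv
  obtain ⟨ea0, eb⟩ := rp_two F sg hv h1 h2
  have ea : en α sg inf s (tp α inf k, s (tp α inf k)) = (inf, -k) := by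
    rw [ea0, ← F.port_eq hk, F.rig.inv]
  have q1 : qs D P inf (inf, -k) = D k := by simp [qs]
  have q2 : qs D P inf (α (tp α inf k, s (tp α inf k) + 2)) =
      P (α (tp α inf k, s (tp α inf k) + 2)).1 := by simp [qs, hb]
  have r1 : rpq δ inf ((inf, -k) : X × ZMod 4) = 0 := rpq_inf δ rfl
  have r2 : rpq δ inf (α (tp α inf k, s (tp α inf k) + 2)) =
      δ (α (tp α inf k, s (tp α inf k) + 2)).1 := rpq_ne δ hb
  have g1 : D k = (0 : ℝ) • P (tp α inf k) + (1 : ℝ) • D k := by simp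
  have g2 : P (α (tp α inf k, s (tp α inf k) + 2)).1 = (1 : ℝ) • P (tp α inf k) - τ • D k := by
    rw [hy]; simp
  rw [rpF, ea, eb, q1, q2, r1, r2]
  show rpL _ _ (P (tp α inf k)) (δ (tp α inf k)) _ _ = _
  rw [rp_val g1 g2 (hP _) (hD _) (hδ _) rfl (hδ _)]
  simp only [d2, Pi.sub_apply, Pi.smul_apply, smul_eq_mul, Pi.zero_apply]
  ring

private theorem rp_reg (F : Frame α inf o s) {sg : X → Prop}
    (hP : ∀ v, P v 2 = 1) {v : X} (hv : v ≠ inf) (h1 : v ≠ tp α inf 1)
    (h2 : v ≠ (α (rpg α inf s)).1) (ha : (α (v, s v)).1 ≠ inf) {l : ℝ} (hl : l < 1)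
    (hy : P v = l • P (α (v, s v)).1 + (1 - l) • P (α (v, s v + 2)).1)
    {δ : X → H} (hδ : ∀ v, δ v 2 = 0) :
    rpF α sg inf s D P δ (v, s v) (v, s v + 2) = (1 - l)⁻¹ *
      d2 (P (α (v, s v)).1 - P v) (δ v - (l • δ (α (v, s v)).1 +
        (1 - l) • δ (α (v, s v + 2)).1)) := by
  have hb := F.b_inf hv
  have hl' : 0 < 1 - l := by linarith
  obtain ⟨ea, eb⟩ := rp_two F sg hv h1 h2
  have q1 : qs D P inf (α (v, s v)) = P (α (v, s v)).1 := by simp [qs, ha]
  have q2 : qs D P inf (α (v, s v + 2)) = P (α (v, s v + 2)).1 := by simp [qs, hb]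
  have r1 : rpq δ inf (α (v, s v)) = δ (α (v, s v)).1 := rpq_ne δ ha
  have r2 : rpq δ inf (α (v, s v + 2)) = δ (α (v, s v + 2)).1 := rpq_ne δ hb
  have g1 : P (α (v, s v)).1 = (1 : ℝ) • P v + (1 : ℝ) • (P (α (v, s v)).1 - P v) := by simp
  have g2 : P (α (v, s v + 2)).1 =
      (1 : ℝ) • P v - (l / (1 - l)) • (P (α (v, s v)).1 - P v) := by
    funext c
    have e6 := congrFun hy c
    simp only [Pi.add_apply, Pi.sub_apply, Pi.smul_apply, smul_eq_mul] at e6 ⊢
    field_simp
    linarith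
  rw [rpF, ea, eb, q1, q2, r1, r2]
  show rpL _ _ (P v) (δ v) _ _ = _
  rw [rp_val g1 g2 (hP _) (by rw [Pi.sub_apply, hP, hP, sub_self]) (hδ _) (hδ _) (hδ _)]
  generalize P (α (v, s v)).1 - P v = u
  simp only [d2, Pi.sub_apply, Pi.add_apply, Pi.smul_apply, smul_eq_mul]
  field_simp
  ring

private theorem rp_main (F : Frame α inf o s) (sg : X → Prop) (hD : Cfg D)
    {lam : X → ℝ} {τ : Fin 3 → ℝ}
    (he : Eqm inf ![tp α inf 0, tp α inf 1, tp α inf 2] (fun v => (α (v, s v)).1)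
      (fun v => (α (v, s v + 2)).1) ![D 0, D 1, D 2] lam τ P) {c : X → ℝ} (hc : ∀ v, c v ≠ 0) :
    ∃ δ : X → H, (∀ v, δ v 2 = 0) ∧
      ∀ v, v ≠ inf → 0 < c v * rpF α sg inf s D P δ (v, s v) (v, s v + 2) := by
  classical
  have hE : ∀ k, (![D 0, D 1, D 2] : Fin 3 → H) k 2 = 0 := by
    intro k
    fin_cases k
    · exact hD.flat 0
    · exact hD.flat 1
    · exact hD.flat 2
  have hnt : ∀ v, (∀ k : ZMod 4, v ≠ tp α inf k) →
      ∀ k, v ≠ (![tp α inf 0, tp α inf 1, tp α inf 2] : Fin 3 → X) k := by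
    intro v hv k
    fin_cases k
    · exact hv 0
    · exact hv 1
    · exact hv 2
  have hnt' : ∀ v, v ≠ inf → (∀ k : ZMod 4, k ≠ 3 → v ≠ tp α inf k) →
      (α (v, s v)).1 ≠ inf ∧ ∀ k, v ≠ (![tp α inf 0, tp α inf 1, tp α inf 2] : Fin 3 → X) k := by
    intro v hv hk
    refine ⟨fun h => ?_, ?_⟩
    · obtain ⟨k, hk3, rfl⟩ := (F.a_inf hv).1 h
      exact hk k hk3 rfl
    · intro k
      fin_cases k
      · exact hk 0 (by decide)
      · exact hk 1 (by decide)
      · exact hk 2 (by decide)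
  have hyi := rp_y_inf F
  have hyk : ∀ k : ZMod 4, (α (rpg α inf s)).1 ≠ tp α inf k := F.star_ne
  have hyt : P (tp α inf 1) = P (α (rpg α inf s)).1 + τ 1 • D 1 := he.eqt 1
  have heq := he.eq (α (rpg α inf s)).1 hyi (hnt _ hyk)
  obtain ⟨μ, κ, σ, hμ, hκ, hσ, hz, hκe, hσe⟩ :=
    rp_y_data F sg he.l0 he.l1 (he.t0 1) heq hyt
  obtain ⟨A, B, hAB1, hAB2, hAB3, hAB4⟩ := rp_choice hμ (he.t0 1) (hc (tp α inf 1))
    (mul_ne_zero (hc (α (rpg α inf s)).1) hσ) (sg (α (rpg α inf s)).1) (sg (tp α inf 1))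
  obtain ⟨δ, hδ, hδ1, hδ2⟩ := F.walk.exists_normal hE hD.d01 hD.d12 he
    (fun v => if v = tp α inf 1 then A else if v = (α (rpg α inf s)).1 then κ * B else c v)
  have hAe : d2 (D 1) (δ (tp α inf 1) - δ (α (rpg α inf s)).1) = A := by
    have h := hδ2 1
    simp only [Matrix.cons_val_one, Matrix.cons_val_zero, if_true] at h
    exact h
  have hBe : d2 (D 1) (δ (α (rpg α inf s)).1 -
      (μ • δ (tp α inf 1) + (1 - μ) • δ (α (op (α (rpg α inf s)))).1)) = B := by
    have h := hδ1 (α (rpg α inf s)).1 hyi (hnt _ hyk)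
    simp only [hyk 1, if_false, if_true] at h
    rw [hκe δ] at h
    exact mul_left_cancel₀ hκ h
  obtain ⟨v1, v2, v3, v4⟩ := rp_val_t F (sg := sg) hD.flat he.nP hμ hyt hz hδ hAe hBe
  refine ⟨δ, hδ, ?_⟩
  intro v hv
  by_cases h1 : v = tp α inf 1
  · subst h1
    by_cases hs : sg (α (rpg α inf s)).1
    · have := hAB1 hs
      rw [← v1 hs] at this
      exact this
    · have := hAB2 hs
      rw [← v2 hs] at this
      exact this
  by_cases h2 : v = (α (rpg α inf s)).1
  · subst h2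
    rw [hσe δ, ← mul_assoc]
    by_cases hs : sg (tp α inf 1)
    · have := hAB3 hs
      rw [← v3 hs] at this
      exact this
    · have := hAB4 hs
      rw [← v4 hs] at this
      exact this
  by_cases h3 : ∃ k : ZMod 4, k ≠ 3 ∧ v = tp α inf k
  · obtain ⟨k, hk, rfl⟩ := h3
    rcases rp_z4 k with rfl | rfl | rfl | rfl
    · rw [rp_port F hD.flat he.nP hk h1 h2 (he.eqt 0) hδ]
      have h := hδ2 0
      simp only [Matrix.cons_val_zero, h1, h2, if_false] at h
      rw [h]
      exact mul_self_pos.mpr (hc _)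
    · exact absurd rfl h1
    · rw [rp_port F hD.flat he.nP hk h1 h2 (he.eqt 2) hδ]
      have h := hδ2 2
      simp only [Matrix.cons_val, h1, h2, if_false] at h
      rw [h]
      exact mul_self_pos.mpr (hc _)
    · exact absurd rfl hk
  · have h4 : ∀ k : ZMod 4, k ≠ 3 → v ≠ tp α inf k := fun k hk e => h3 ⟨k, hk, e⟩
    obtain ⟨h5, h6⟩ := hnt' v hv h4
    rw [rp_reg F he.nP hv h1 h2 h5 (he.l1 v) (he.eq v hv h6) hδ]
    have h := hδ1 v hv h6
    simp only [h1, h2, if_false] at h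
    rw [h]
    have l1 := he.l1 v
    have h7 : 0 < (1 - lam v)⁻¹ := inv_pos.mpr (by linarith)
    have h8 : 0 < c v * c v := mul_self_pos.mpr (hc v)
    calc 0 < (1 - lam v)⁻¹ * (c v * c v) := mul_pos h7 h8
      _ = c v * ((1 - lam v)⁻¹ * c v) := by ring

theorem exists_pert (F : Frame α inf o s) (sg : X → Prop) (hD : Cfg D)
    (h13 : d2 (D 1) (D 3) ≠ 0) {lam : X → ℝ} {τ : Fin 3 → ℝ}
    (he : Eqm inf ![tp α inf 0, tp α inf 1, tp α inf 2] (fun v => (α (v, s v)).1)
      (fun v => (α (v, s v + 2)).1) ![D 0, D 1, D 2] lam τ P)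
    (dw : Draw α inf s D P) {c : X → ℝ} (hc : ∀ v, c v ≠ 0) :
    ∃ δ, Pert α sg inf s D P c δ := by
  classical
  obtain ⟨δ0, hδ0, hoff0⟩ := rp_main F sg hD he hc
  -- from the linear coefficient to the sign
  have hoff : ∀ δ : X → H,
      (∀ v, v ≠ inf → 0 < c v * rpF α sg inf s D P δ (v, s v) (v, s v + 2)) →
      ∀ v, v ≠ inf → ∀ᶠ ε in 𝓝[>] (0 : ℝ), 0 < c v *
        dt (qs D (pe P δ ε) inf (en α sg inf s (v, s v))) (pe P δ ε v)
          (qs D (pe P δ ε) inf (en α sg inf s (v, s v + 2))) := by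
    intro δ h v hv
    obtain ⟨ta, -, e1⟩ := dw.lim_dir F (sg := sg) (d := (v, s v)) hv
    obtain ⟨tb, -, e2⟩ := dw.lim_dir F (sg := sg) (d := (v, s v + 2)) hv
    obtain ⟨k, -, e3⟩ := dw.str v hv
    have h0 : dt (qs D P inf (en α sg inf s (v, s v))) (P v)
        (qs D P inf (en α sg inf s (v, s v + 2))) = 0 := by
      refine rp_col (αa := qs D P inf (en α sg inf s (v, s v)) 2)
        (αb := qs D P inf (en α sg inf s (v, s v + 2)) 2) (ta := ta) (tb := tb * k)
        (u := dr α inf D P (v, s v)) ?_ ?_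
      · rw [← e1]; simp
      · rw [e3] at e2
        have e4 : (tb * k) • dr α inf D P (v, s v) =
            -(tb • -(k • dr α inf D P (v, s v))) := by
          rw [smul_neg, neg_neg, smul_smul]
        rw [e4, ← e2]; simp
    have h1 := rp_ev h0 (h v hv)
    simp only [rp_qs]
    exact h1
  -- the condition at port 3
  set e : X × ZMod 4 := en α sg inf s (op (α (inf, -3))) with hedef
  have ht3 : ∀ δ : X → H, (∀ v, δ v 2 = 0) → ∀ ε : ℝ,
      d2 (D 3) (qs D (pe P δ ε) inf e - (qs D (pe P δ ε) inf e 2) • pe P δ ε (tp α inf 3)) =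
        d2 (D 3) (qs D P inf e - (qs D P inf e 2) • P (tp α inf 3)) +
        ε * d2 (D 3) (rpq δ inf e - (qs D P inf e 2) • δ (tp α inf 3)) := by
    intro δ hδ ε
    have h1 := rpq_flat hδ inf e
    rw [rp_qs]
    simp only [d2, pe, Pi.add_apply, Pi.sub_apply, Pi.smul_apply, smul_eq_mul, h1]
    ring
  have hd1 : (op (α (inf, -3))).1 ≠ inf := F.rig.tp_ne inf 3
  have hne3 : (α (op (α (inf, -3)))).1 ≠ inf := by
    intro h
    have h2 : (α (inf, -3)).1 = (op (α (inf, -3))).1 := rfl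
    have h3 := F.rig.simple h2 (by rw [h, F.rig.inv])
    have h4 := congrArg Prod.snd h3
    have hz : ∀ i : ZMod 4, i ≠ i + 2 := by decide
    exact hz _ h4
  by_cases hK : d2 (D 3) (qs D P inf e - (qs D P inf e 2) • P (tp α inf 3)) = 0
  · have he1 : e.1 ≠ inf := by
      intro h
      have h2 : e = (inf, -1) := F.en_far (d := op (α (inf, -3))) hne3
        (fun k => F.through_ne (-3) k) h
      have h3 : qs D P inf e = D 1 := by rw [h2]; simp [qs]
      rw [h3, hD.flat, zero_smul, sub_zero, d2_swap] at hK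
      exact h13 (by linarith)
    have hqe : qs D P inf e 2 = 1 := by simp [qs, he1, dw.nP]
    have het : e.1 ≠ tp α inf 3 := by
      intro h
      obtain ⟨t, ht, e1⟩ := dw.lim_dir F (sg := sg) (d := op (α (inf, -3))) hd1
      rw [← hedef, hqe, one_smul] at e1
      have h2 : qs D P inf e = P (op (α (inf, -3))).1 := by
        have h3 : qs D P inf e = P e.1 := by simp [qs, he1]
        rw [h3, h]; rfl
      rw [h2, sub_self] at e1
      rcases smul_eq_zero.mp e1.symm with h3 | h3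
      · exact ht.ne' h3
      · exact dw.ne0 F.rig _ h3
    -- perturb the perturbation
    set x : X → H := fun v => if v = tp α inf 3 then D 2 else 0 with hx
    have hx2 : ∀ v, x v 2 = 0 := by
      intro v
      by_cases h : v = tp α inf 3
      · simp only [hx, h, if_true]; exact hD.flat 2
      · simp only [hx, h, if_false]; rfl
    have hflat : ∀ η : ℝ, ∀ v, (fun v => δ0 v + η • x v) v 2 = 0 := by
      intro η v
      show (δ0 v + η • x v) 2 = 0
      rw [Pi.add_apply, Pi.smul_apply, hδ0, hx2, smul_zero, add_zero]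
    have hlin : ∀ η : ℝ, ∀ v, rpF α sg inf s D P (fun v => δ0 v + η • x v) (v, s v)
        (v, s v + 2) = rpF α sg inf s D P δ0 (v, s v) (v, s v + 2) +
          η * rpF α sg inf s D P x (v, s v) (v, s v + 2) := by
      intro η v
      simp only [rpF, rpq_add]
      exact rp_lin _ _ _ _ _ _ _ _ _ _
    have ev1 : ∀ᶠ η in 𝓝[>] (0 : ℝ), ∀ v, v ≠ inf →
        0 < c v * rpF α sg inf s D P (fun v => δ0 v + η • x v) (v, s v) (v, s v + 2) := by
      refine eventually_all.2 fun v => eventually_imp_distrib_left.2 fun hv => ?_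
      have h2 := (rp_tendsto (c v * rpF α sg inf s D P δ0 (v, s v) (v, s v + 2))
        (c v * rpF α sg inf s D P x (v, s v) (v, s v + 2)) 0 0).eventually
        (lt_mem_nhds (hoff0 v hv))
      filter_upwards [h2] with η h3
      rw [hlin, mul_add]
      have h4 : c v * (η * rpF α sg inf s D P x (v, s v) (v, s v + 2)) =
        η * (c v * rpF α sg inf s D P x (v, s v) (v, s v + 2)) := by ring
      rw [h4]
      simpa using h3
    have hd32 : - d2 (D 3) (D 2) ≠ 0 := by
      have := hD.d23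
      rw [d2_swap] at this
      linarith
    have ev2 := rp_nz (K := d2 (D 3) (rpq δ0 inf e - (1 : ℝ) • δ0 (tp α inf 3)))
      (L := - d2 (D 3) (D 2)) (Or.inr hd32)
    obtain ⟨η, h1, h2⟩ := (ev1.and ev2).exists
    refine ⟨fun v => δ0 v + η • x v, hflat η, hoff _ h1, ?_⟩
    have h3 := rp_nz (K := d2 (D 3) (qs D P inf e - (qs D P inf e 2) • P (tp α inf 3)))
      (L := d2 (D 3) (rpq (fun v => δ0 v + η • x v) inf e -
        (qs D P inf e 2) • (fun v => δ0 v + η • x v) (tp α inf 3))) (Or.inr ?_)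
    · filter_upwards [h3] with ε h4
      rw [ht3 _ (hflat η)]
      exact h4
    · intro h4
      apply h2
      rw [← h4, hqe, rpq_ne _ he1, rpq_ne _ he1]
      have x1 : x e.1 = 0 := by simp only [hx, het, if_false]
      have x3 : x (tp α inf 3) = D 2 := by simp only [hx, if_true]
      simp only [x1, x3]
      simp only [d2, Pi.add_apply, Pi.sub_apply, Pi.smul_apply, smul_eq_mul, Pi.zero_apply]
      ring
  · refine ⟨δ0, hδ0, hoff _ hoff0, ?_⟩
    have h3 := rp_nz (K := d2 (D 3) (qs D P inf e - (qs D P inf e 2) • P (tp α inf 3)))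
      (L := d2 (D 3) (rpq δ0 inf e - (qs D P inf e 2) • δ0 (tp α inf 3))) (Or.inl hK)
    filter_upwards [h3] with ε h4
    rw [ht3 _ hδ0]
    exact h4

end SN78
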