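import Pool.Agent.SN78.RZig
import Pool.Agent.SN78.RNd

/-!
# SN78 module RPOS: all corners are positive

Write `κ d = d2 (dr d) (dr (nx d))` for `d.1 ≠ inf`; it is not `0` (`nondeg`); `turn`: for `(fs α e).1 ≠ inf` the turn
`d2 (dr e) (dr (fs α e))` is `κ (fs α e)`.
Define `w : darts → ZMod 2`, `w d = 0` iff `κ d' > 0`, where `d' = d` if `d.1 ≠ inf` and `d' = fs α d` if
`d.1 = inf` (then `d'.1 ≠ inf`).

(1) `w (fs α d) = w d` for all `d`.  If `d.1 = inf`: by definition.  If `d.1 ≠ inf`, `(fs α d).1 ≠ inf`: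
`Draw.same` with `e` the dart before `d`, i.e. `e = α (nx d)`, `fs α e = d`.  If `(fs α d).1 = inf`: let
`fs α d = (inf, i)`.  Going on from `(inf, i)` let `y n = (fs α)^[n] (inf, i)` and `N > 0` minimal with `(y N).1 = inf`
(exists by periodicity); `y N = (inf, i)` by `inf_once`, so `y (N - 1) = d` (`fs_inj`), and
`w (y 1) = w (y 2) = ... = w (y (N - 1)) = w d` by the previous case, `w (inf, i) = w (y 1)`.

(2) Let `c d = w d + w (pv d)`.  Then `c (α d) = w (α d) + w (pv (α d)) = w (pv d) + w d` by (1)
(`fs α (α d) = pv d`, `pv (α d) = fs α d`), so `c (α d) = c d`, and the sum of `c` over the four darts of a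
site is `0`.  If `d.1 ≠ inf` and `d` is not straight then `c d = 0` (`Draw.bent`).  So `c d = 0` unless both
ends of the edge are straight or at `inf`.  Port `3`: `c (α (inf, 1)) = 0` (`nst_port`).  An edge between
sites different from `inf` with both ends straight is the edge `g = (t₁, s t₁ + 2)`, `α g` (`st_two`).
At `t₀ = tp α inf 0`: the straight darts are the port dart and its opposite, which is not `g` or `α g`
(`star_ne`), so `c = 0` there, and by the site sum `c` is `0` at the port dart.  The same for `t₂`.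
At `y = (α g).1`: the straight darts are `α g` and `op (α g)`; the latter does not lead to `inf`
(`star_ne` and `a_inf`, `b_inf`), so `c (op (α g)) = 0` and hence `c (α g) = 0`.  Then also
`c` is `0` at the port dart of `t₁`.  So `c = 0`.

(3) So `w (pv d) = w d` and `w (α d) = w (pv d) = w d` for all `d`, so `w` is constant (`connected`).

(4) `w (inf, -1) = 0`: let `e = fs α (inf, -1)`, a dart of `t₁`; `κ e = d2 (dr (inf, -1)) (dr e) = d2 (- D 1) (dr e)`.
Suppose it is negative.  Take `l0 = (x ↦ d2 (- D 1) x)`: `dot l0 (D 0) = d2 (D 0) (D 1) > 0`,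
`dot l0 (dr e) < 0`, `dot l0 (- D 1) = 0`; `exists_gen` with `g = (inf, -1)` (direction `- D 1`) gives a
generic `l` with `dot l (- D 1) > 0`, `dot l (D 0) > 0` (`(inf, 0)` has direction `- D 0`), `dot l (dr e) < 0`:
contradiction to `straddle` for `i = -1` (`i + 1 = 0`), `n = 1`.
-/

namespace SN78

variable {X : Type} [Fintype X] {α : X × ZMod 4 → X × ZMod 4} {inf : X} {s : X → ZMod 4}
  {o : X × ZMod 4 → Bool} {D : ZMod 4 → H} {P : X → H}

/-- the corner of the dart `d` -/
private noncomputable def rpK (α : X × ZMod 4 → X × ZMod 4) (inf : X) (D : ZMod 4 → H) (P : X → H)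
    (d : X × ZMod 4) : ℝ :=
  d2 (dr α inf D P d) (dr α inf D P (nx d))

open Classical in
/-- `0` for positive corners, `1` for negative corners -/
private noncomputable def rpW (α : X × ZMod 4 → X × ZMod 4) (inf : X) (D : ZMod 4 → H) (P : X → H)
    (d : X × ZMod 4) : ZMod 2 :=
  if 0 < rpK α inf D P (if d.1 = inf then fs α d else d) then 0 else 1

open Classical in
omit [Fintype X] in
private theorem rpW_congr {d d' : X × ZMod 4}
    (h : 0 < rpK α inf D P (if d.1 = inf then fs α d else d) ↔
      0 < rpK α inf D P (if d'.1 = inf then fs α d' else d')) :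
    rpW α inf D P d = rpW α inf D P d' := by
  unfold rpW
  by_cases h1 : 0 < rpK α inf D P (if d.1 = inf then fs α d else d)
  · rw [if_pos h1, if_pos (h.1 h1)]
  · rw [if_neg h1, if_neg (fun h2 => h1 (h.2 h2))]

omit [Fintype X] in
private theorem rp_pv_nx (d : X × ZMod 4) : pv (nx d) = d := by
  simp [pv, nx]

omit [Fintype X] in
private theorem rp_nx_pv (d : X × ZMod 4) : nx (pv d) = d := by
  simp [pv, nx]

/-- the sign does not change along the faces -/
private theorem rpW_fs (F : Frame α inf o s) (dw : Draw α inf s D P) (d : X × ZMod 4) :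
    rpW α inf D P (fs α d) = rpW α inf D P d := by
  have hR := F.rig
  have hfs1 : ∀ e : X × ZMod 4, (fs α e).1 = (α e).1 := fun e => rfl
  have c1 : ∀ e : X × ZMod 4, e.1 = inf → rpW α inf D P (fs α e) = rpW α inf D P e := by
    intro e he
    apply rpW_congr
    have h1 : (fs α e).1 ≠ inf := by
      rw [hfs1, ← he]
      exact hR.noloop e
    rw [if_neg h1, if_pos he]
  have c2 : ∀ e : X × ZMod 4, e.1 ≠ inf → (fs α e).1 ≠ inf →
      rpW α inf D P (fs α e) = rpW α inf D P e := by
    intro e he he2
    apply rpW_congr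
    rw [if_neg he, if_neg he2]
    have h1 : fs α (α (nx e)) = e := by
      simp only [fs, hR.inv, rp_pv_nx]
    have h2 := dw.same (s := s) hR (e := α (nx e)) (by rw [h1]; exact he) (by rw [h1]; exact he2)
      (by rw [hR.turn, h1]; exact dw.nondeg F he)
      (by rw [hR.turn, h1]; exact dw.nondeg F he2)
    rw [hR.turn, hR.turn, h1] at h2
    exact h2.symm
  by_cases h1 : d.1 = inf
  · exact c1 d h1
  by_cases h2 : (fs α d).1 = inf
  swap
  · exact c2 d h1 h2
  have hpp := hR.period_pos (fs α d)
  have hper : (fs α)^[Function.minimalPeriod (fs α) (fs α d)] (fs α d) = fs α d :=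
    Function.iterate_minimalPeriod
  have hni : ∀ n, 0 < n → n < Function.minimalPeriod (fs α) (fs α d) →
      ((fs α)^[n] (fs α d)).1 ≠ inf := by
    intro n hn0 hn hc
    have e1 : fs α d = (inf, (fs α d).2) := Prod.ext h2 rfl
    have e2 : (fs α)^[n] (fs α d) = (inf, ((fs α)^[n] (fs α d)).2) := Prod.ext hc rfl
    have e3 : (fs α)^[n] (inf, (fs α d).2) = (inf, ((fs α)^[n] (fs α d)).2) := by
      rw [← e1]; exact e2
    have e4 := dw.inf_once hR e3
    have e5 : (fs α)^[n] (fs α d) = fs α d := by
      rw [e2, ← e4, ← e1]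
    have e6 : Function.IsPeriodicPt (fs α) n (fs α d) := e5
    exact absurd (e6.minimalPeriod_le hn0) (by omega)
  obtain ⟨p, hp⟩ : ∃ p, Function.minimalPeriod (fs α) (fs α d) = p + 1 :=
    ⟨_, (Nat.succ_pred_eq_of_pos hpp).symm⟩
  have hpd : (fs α)^[p] (fs α d) = d := by
    apply hR.fs_inj
    rw [← Function.iterate_succ_apply' (fs α) p]
    rw [hp] at hper
    exact hper
  have hstep : ∀ n, n ≤ p → rpW α inf D P ((fs α)^[n] (fs α d)) = rpW α inf D P (fs α d) := by
    intro n
    induction n with
    | zero => intro _; rfl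
    | succ n ih =>
      intro hn
      rw [Function.iterate_succ_apply']
      by_cases hn0 : n = 0
      · subst hn0
        exact c1 _ h2
      · rw [c2 _ (hni n (by omega) (by omega)) ?_]
        · exact ih (by omega)
        · rw [← Function.iterate_succ_apply' (fs α) n]
          exact hni (n + 1) (by omega) (by omega)
  have := hstep p le_rfl
  rw [hpd] at this
  exact this.symm

/-- the change of the sign -/
private noncomputable def rpC (α : X × ZMod 4 → X × ZMod 4) (inf : X) (D : ZMod 4 → H) (P : X → H)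
    (d : X × ZMod 4) : ZMod 2 :=
  rpW α inf D P d + rpW α inf D P (pv d)

private theorem rpC_al (F : Frame α inf o s) (dw : Draw α inf s D P) (d : X × ZMod 4) :
    rpC α inf D P (α d) = rpC α inf D P d := by
  have h1 : rpW α inf D P (pv (α d)) = rpW α inf D P d := rpW_fs F dw d
  have h2 : rpW α inf D P (pv d) = rpW α inf D P (α d) := by
    have := rpW_fs F dw (α d)
    rwa [fs, F.rig.inv] at this
  unfold rpC
  rw [h1, h2, add_comm]

omit [Fintype X] in
private theorem rpC_nst (dw : Draw α inf s D P) {d : X × ZMod 4} (h1 : d.1 ≠ inf)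
    (h2 : ¬ St s d) : rpC α inf D P d = 0 := by
  obtain ⟨c, hc, e⟩ := dw.bent h1 h2
  have h3 : rpW α inf D P d = rpW α inf D P (pv d) := by
    apply rpW_congr
    rw [if_neg h1, if_neg (show (pv d).1 ≠ inf from h1)]
    unfold rpK
    rw [rp_nx_pv, e]
    constructor
    · intro h
      by_contra h4
      have := mul_nonpos_of_nonneg_of_nonpos hc.le (not_lt.1 h4)
      linarith
    · intro h
      exact mul_pos hc h
  unfold rpC
  rw [h3]
  exact CharTwo.add_self_eq_zero _

omit [Fintype X] in
private theorem rp_st_nx (s : X → ZMod 4) {d : X × ZMod 4} (h : St s d) : ¬ St s (nx d) := by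
  have hz : ∀ i j : ZMod 4, (i = j ∨ i = j + 2) → ¬ (i + 1 = j ∨ i + 1 = j + 2) := by decide
  exact hz d.2 (s d.1) h

omit [Fintype X] in
private theorem rp_st_pv (s : X → ZMod 4) {d : X × ZMod 4} (h : St s d) : ¬ St s (pv d) := by
  have hz : ∀ i j : ZMod 4, (i = j ∨ i = j + 2) → ¬ (i - 1 = j ∨ i - 1 = j + 2) := by decide
  exact hz d.2 (s d.1) h

omit [Fintype X] in
private theorem rp_st_op (s : X → ZMod 4) {d : X × ZMod 4} (h : St s d) : St s (op d) := by
  have hz : ∀ i j : ZMod 4, (i = j ∨ i = j + 2) → (i + 2 = j ∨ i + 2 = j + 2) := by decide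
  exact hz d.2 (s d.1) h

omit [Fintype X] in
/-- the two straight darts have the same change -/
private theorem rpC_op (dw : Draw α inf s D P) {d : X × ZMod 4} (h1 : d.1 ≠ inf)
    (h2 : St s d) : rpC α inf D P d = rpC α inf D P (op d) := by
  have a1 := rpC_nst dw (d := nx d) h1 (rp_st_nx s h2)
  have a2 := rpC_nst dw (d := pv d) h1 (rp_st_pv s h2)
  have e1 : pv (pv d) = op d := by
    have hz : ∀ i : ZMod 4, i - 1 - 1 = i + 2 := by decide
    simp only [pv, op, hz]
  have e2 : pv (op d) = nx d := by
    have hz : ∀ i : ZMod 4, i + 2 - 1 = i + 1 := by decide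
    simp only [pv, op, nx, hz]
  unfold rpC at a1 a2 ⊢
  rw [rp_pv_nx] at a1
  rw [e1] at a2
  rw [e2]
  have b1 := CharTwo.add_eq_zero.1 a1
  have b2 := CharTwo.add_eq_zero.1 a2
  rw [b1, b2, add_comm]

/-- there are no changes -/
private theorem rpC_zero (F : Frame α inf o s) (dw : Draw α inf s D P) (d : X × ZMod 4) :
    rpC α inf D P d = 0 := by
  have hR := F.rig
  have gi : (α (tp α inf 1, s (tp α inf 1) + 2)).1 ≠ inf := F.b_inf (hR.tp_ne inf 1)
  -- edges inside
  have inner : ∀ e : X × ZMod 4, e.1 ≠ inf → (α e).1 ≠ inf →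
      e ≠ (tp α inf 1, s (tp α inf 1) + 2) → α e ≠ (tp α inf 1, s (tp α inf 1) + 2) →
      rpC α inf D P e = 0 := by
    intro e h1 h2 h3 h4
    by_cases s1 : St s e
    · by_cases s2 : St s (α e)
      · rcases F.st_two h1 h2 s1 s2 with h | h
        · exact absurd h h3
        · exact absurd h h4
      · rw [← rpC_al F dw]
        exact rpC_nst dw h2 s2
    · exact rpC_nst dw h1 s1
  have op_ne : ∀ e : X × ZMod 4, op e ≠ e := by
    intro e he
    have hz : ∀ i : ZMod 4, i + 2 ≠ i := by decide
    exact hz e.2 (congrArg Prod.snd he)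
  -- the edge `g`
  have hg2 : rpC α inf D P (α (tp α inf 1, s (tp α inf 1) + 2)) = 0 := by
    rw [rpC_op dw gi F.star_st]
    refine inner _ gi ?_ ?_ ?_
    · intro h
      have e1 : α (op (α (tp α inf 1, s (tp α inf 1) + 2))) =
          (inf, -(-(α (op (α (tp α inf 1, s (tp α inf 1) + 2)))).2)) := by
        rw [neg_neg]; exact Prod.ext h rfl
      have e2 := congrArg α e1
      rw [hR.inv] at e2
      have e3 : (α (tp α inf 1, s (tp α inf 1) + 2)).1 =
          tp α inf (-(α (op (α (tp α inf 1, s (tp α inf 1) + 2)))).2) := by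
        have e4 := congrArg Prod.fst e2
        exact e4
      exact F.star_ne _ e3
    · intro h
      have e3 : (α (tp α inf 1, s (tp α inf 1) + 2)).1 = tp α inf 1 := by
        have e4 := congrArg Prod.fst h
        exact e4
      exact hR.noloop (tp α inf 1, s (tp α inf 1) + 2) e3
    · intro h
      have e2 := congrArg α h
      rw [hR.inv] at e2
      exact op_ne _ e2
  have hg : rpC α inf D P (tp α inf 1, s (tp α inf 1) + 2) = 0 := by
    rw [← rpC_al F dw]; exact hg2
  have ports : ∀ k : ZMod 4, rpC α inf D P (α (inf, -k)) = 0 := by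
    intro k
    by_cases h3 : k = 3
    · subst h3
      exact rpC_nst dw (hR.tp_ne inf 3) F.nst_port
    · rw [F.port_eq h3]
      have hst : St s (tp α inf k, s (tp α inf k)) := Or.inl rfl
      rw [rpC_op dw (d := (tp α inf k, s (tp α inf k))) (hR.tp_ne inf k) hst]
      show rpC α inf D P (tp α inf k, s (tp α inf k) + 2) = 0
      by_cases h1 : k = 1
      · subst h1
        exact hg
      · refine inner _ (hR.tp_ne inf k) (F.b_inf (hR.tp_ne inf k)) ?_ ?_
        · intro h
          have e4 := congrArg Prod.fst h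
          exact h1 (hR.tp_inj inf e4)
        · intro h
          have e2 := congrArg α h
          rw [hR.inv] at e2
          exact F.star_ne k (congrArg Prod.fst e2).symm
  by_cases h1 : d.1 = inf
  · rw [← rpC_al F dw]
    have e : d = (inf, -(-d.2)) := by rw [neg_neg]; exact Prod.ext h1 rfl
    rw [e]
    exact ports _
  by_cases h2 : (α d).1 = inf
  · have e : α d = (inf, -(-(α d).2)) := by rw [neg_neg]; exact Prod.ext h2 rfl
    have e2 := congrArg α e
    rw [hR.inv] at e2
    rw [e2]
    exact ports _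
  by_cases h3 : d = (tp α inf 1, s (tp α inf 1) + 2)
  · rw [h3]; exact hg
  by_cases h4 : α d = (tp α inf 1, s (tp α inf 1) + 2)
  · rw [← rpC_al F dw, h4]; exact hg
  exact inner d h1 h2 h3 h4

/-- the functional `x ↦ d2 S x` -/
private def rpL (S : H) : H := ![-(S 1), S 0, 0]

private theorem dot_rpL (S x : H) : dot (rpL S) x = d2 S x := by
  simp only [rpL, dot, d2, Matrix.cons_val_zero, Matrix.cons_val_one, Matrix.cons_val]
  ring

private theorem rp_first (F : Frame α inf o s) (dw : Draw α inf s D P) :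
    0 < rpK α inf D P (fs α (inf, -1)) := by
  have hR := F.rig
  have hni : (fs α (inf, -1)).1 ≠ inf := hR.noloop (inf, -1)
  by_contra hc
  have hlt : rpK α inf D P (fs α (inf, -1)) < 0 :=
    lt_of_le_of_ne (not_lt.1 hc) (dw.nondeg F hni)
  unfold rpK at hlt
  rw [← hR.turn] at hlt
  have hd1 : dr α inf D P (inf, -1) = - D 1 := by rw [dr_inf, neg_neg]
  have hd0 : dr α inf D P (inf, 0) = - D 0 := by rw [dr_inf, neg_zero]
  obtain ⟨l, hl, hg, hs⟩ := dw.exists_gen hR (rpL (dr α inf D P (inf, -1))) rfl (inf, -1)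
    (by rw [dot_rpL, d2_self])
  have q1 : dot l (dr α inf D P (fs α (inf, -1))) < 0 := by
    apply (hs _).2
    rw [dot_rpL]; exact hlt
  have q2 : dot l (dr α inf D P (inf, 0)) < 0 := by
    apply (hs _).2
    rw [dot_rpL, hd1, hd0]
    have h1 : d2 (-D 1) (-D 0) = - d2 (D 0) (D 1) := by
      simp only [d2, Pi.neg_apply]; ring
    rw [h1]
    have := dw.cfg.d01
    linarith
  have h5 := dw.straddle hR hl (i := -1)
    (by rw [neg_add_cancel]; exact mul_neg_of_pos_of_neg hg q2) 1
  rw [Function.iterate_one] at h5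
  have := mul_neg_of_pos_of_neg hg q1
  linarith

theorem Draw.conv (F : Frame α inf o s) (dw : Draw α inf s D P) : Conv α inf D P := by
  have hR := F.rig
  have hpv : ∀ d, rpW α inf D P (pv d) = rpW α inf D P d := by
    intro d
    have := rpC_zero F dw d
    unfold rpC at this
    exact (CharTwo.add_eq_zero.1 this).symm
  have hal : ∀ d, rpW α inf D P (α d) = rpW α inf D P d := by
    intro d
    have h1 := rpW_fs F dw d
    rw [← h1, fs, hpv]
  have hall : ∀ (v : X) (i : ZMod 4), rpW α inf D P (v, i) = rpW α inf D P (v, 0) := by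
    intro v i
    have h1 : ∀ j : ZMod 4, rpW α inf D P (v, j - 1) = rpW α inf D P (v, j) := fun j => hpv (v, j)
    have h3 : (0 : ZMod 4) - 1 = 3 := by decide
    have h2 : (3 : ZMod 4) - 1 = 2 := by decide
    have h0 : (2 : ZMod 4) - 1 = 1 := by decide
    have a3 := h1 0
    rw [h3] at a3
    have a2 := h1 3
    rw [h2] at a2
    have a1 := h1 2
    rw [h0] at a1
    have hz : i = 0 ∨ i = 1 ∨ i = 2 ∨ i = 3 := by revert i; decide
    rcases hz with rfl | rfl | rfl | rfl
    · rfl
    · rw [a1, a2, a3]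
    · rw [a2, a3]
    · exact a3
  have hinf : rpW α inf D P (inf, 0) = 0 := by
    rw [← hall inf (-1)]
    unfold rpW
    rw [if_pos]
    rw [if_pos rfl]
    exact rp_first F dw
  have hM : ∀ v, rpW α inf D P (v, 0) = 0 := by
    intro v
    refine hR.connected (fun v => rpW α inf D P (v, 0) = 0) ?_ hinf v
    intro d hd
    have h1 : rpW α inf D P (d.1, d.2) = 0 := by rw [hall]; exact hd
    have h2 : rpW α inf D P (α d) = 0 := by rw [hal]; exact h1
    have h3 : rpW α inf D P ((α d).1, (α d).2) = 0 := h2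
    rw [hall] at h3
    exact h3
  intro d hd
  have h1 : rpW α inf D P (d.1, d.2) = 0 := by rw [hall]; exact hM d.1
  by_contra hc
  have h2 : rpW α inf D P (d.1, d.2) = 1 := by
    unfold rpW
    rw [if_neg hd, if_neg]
    exact hc
  rw [h2] at h1
  exact absurd h1 (by decide)

end SN78
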