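import Pool.Agent.SN78.RVal
import Pool.Agent.SN78.Ker

/-!
# SN78 module RRIG: rigidity of the perturbed picture

`rrow`: the equation at the big vertex `a` is the linear relation between the directions number
`k, k + 1, k + 2` (`k = s (some (inr a))` is a straight dart); at the limit the middle coefficient vanishes.
`Orth`: `d2 q r • p + d2 r p • q + d2 p q • r = 0` for flat vectors; the directions `dir` are flat.

`rpic_rig`.  Let `E = (V → ℝ) × (F → ℝ) × ℝ` (heights of the nodes and of the big vertices, and `x` with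
`z.o () i = x * u i`), and `M ε : E → (V → ℝ) × (F → ℝ)` the linear map with the components
`(rpic αp s).row (L ε).at z.at v` and `∑ i, rrow .. a i * slo a i`.  It depends continuously on `ε`
(`M ε x → M 0 x` for `ε → 0`, where `M 0` is defined with the limit positions: all coefficients are
polynomials in positions of ends; they converge by `tendsto_qs`).  `A : ℝ → E`, `A y = (y, y, 0)` (the constants)
is in the kernel of all `M ε`.  Claim: `ker (M 0) ≤ range A`.  Then `ker_le_range` gives: for small `ε > 0` every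
solution is a constant, which is affine (`l = ![0, 0, y]`): this is `Rig`.

Claim.  Let `z, x` be in the kernel of `M 0`.  Write `Z e` for the height at the dart `e`: `z` of the site, or
`x * u (-i)` for `e = (none, i)`.  For each site `v ≠ none` let `A = en (v, s v)`, `B = en (v, s v + 2)`.
 (i) For a crossing `v`, `kp v (s v + 1) = 0` at the limit (the strand is straight), and the row says
   `κ (s v + 2) * Z A + κ (s v) * Z B = κ (s v + 3) * z v` (up to sign), where the same relation holds with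
   `qs A`, `qs B`, `P v` instead of the heights (`plucker`), with positive coefficients `κ (s v)`, `κ (s v + 2)`,
   `κ (s v + 3)`.
 (ii) For a big vertex `v` the middle coefficient of `rrow` vanishes at the limit, and the row says
   `r * (Z A - A₂ * z v) + r' * (Z B - B₂ * z v) = 0` with `r, r' > 0`, and the same relation holds for
   `qs A - A₂ • P v`, `qs B - B₂ • P v` (`A₂ = qs A 2` etc.).
 So in both cases: if `P v = p • qs A + q • qs B` (such `p, q > 0` exist and are unique by `lim_dir`, `op_st`,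
 `not_both`) then `z v = p * Z A + q * Z B`.
 (iii) Hence `z` satisfies the equations of the equilibrium: for `v` not a port site `0, 1, 2`:
   `z v = lam v * z (a v) + (1 - lam v) * z (b v)`, and `z (t k) = z (b (t k)) + τ k * (x * u k)` for `k = 0, 1, 2`.
   For `v` different from `t₁` and `y = (α (t₁, s t₁ + 2)).1` the ends `A, B` are the direct neighbours and this
   is (i), (ii) with `Eqm.eq`, `Eqm.eqt`.  For `t₁`, `y`: let `z₀` be the other straight neighbour of `y`; then
   `P t₁ = P z₀ + a₁ • D 1`, `P y = P z₀ + a₂ • D 1`; in all four cases (`t₁`, `y` crossings or big vertices) one gets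
   `z t₁ = z z₀ + a₁ * (x * u 1)`, `z y = z z₀ + a₂ * (x * u 1)`, and the equations follow.
 (iv) `Eqm.sum` with `r (t k) = x * u k`: `x * (d2 (D 1) (D 2) * u 0 + d2 (D 2) (D 0) * u 1 + d2 (D 0) (D 1) * u 2) = 0`,
   so `x = 0` by `hu`.  Then `z` is constant by `Walk.const`.
-/

namespace SN78

open Sum Filter Topology



/-! ### the equations at the three port sites and the star edge -/

section general

variable {X : Type} [Fintype X] {α : X × ZMod 4 → X × ZMod 4} {inf : X} {s : X → ZMod 4}
  {o : X × ZMod 4 → Bool} {sg : X → Prop} {D : ZMod 4 → H} {P : X → H}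

/-- the star dart -/
private def rrg (α : X × ZMod 4 → X × ZMod 4) (inf : X) (s : X → ZMod 4) : X × ZMod 4 :=
  (tp α inf 1, s (tp α inf 1) + 2)

open Classical in
/-- the height at a dart -/
private noncomputable def rrZ (inf : X) (h : X → ℝ) (r : ZMod 4 → ℝ) (e : X × ZMod 4) : ℝ :=
  if e.1 = inf then r (-e.2) else h e.1

omit [Fintype X] in
private theorem rrZ_inf (h : X → ℝ) (r : ZMod 4 → ℝ) {e : X × ZMod 4} (he : e.1 = inf) :
    rrZ inf h r e = r (-e.2) := by
  simp [rrZ, he]

omit [Fintype X] in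
private theorem rrZ_ne (h : X → ℝ) (r : ZMod 4 → ℝ) {e : X × ZMod 4} (he : e.1 ≠ inf) :
    rrZ inf h r e = h e.1 := by
  simp [rrZ, he]

omit [Fintype X] in
private theorem rrg_qs_ne (P : X → H) {e : X × ZMod 4} (he : e.1 ≠ inf) :
    qs D P inf e = P e.1 := by
  simp [qs, he]

omit [Fintype X] in
private theorem rrg_st_op {d : X × ZMod 4} (h : St s d) : St s (op d) := by
  have hz : ∀ i j : ZMod 4, (i = j ∨ i = j + 2) → (i + 2 = j ∨ i + 2 = j + 2) := by decide
  exact hz _ _ h

private theorem rrg_y_inf (F : Frame α inf o s) : (α (rrg α inf s)).1 ≠ inf :=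
  F.b_inf (F.rig.tp_ne inf 1)

private theorem rrg_stop (F : Frame α inf o s) {sg : X → Prop} {d : X × ZMod 4} (hd : d.1 ≠ inf)
    (hst : St s d) (h1 : d ≠ rrg α inf s) (h2 : d ≠ α (rrg α inf s)) :
    en α sg inf s d = α d := by
  apply en_stop
  rintro ⟨h3, -, h4⟩
  rcases F.st_two hd h3 hst h4 with h | h
  · exact h1 h
  · apply h2
    rw [rrg, ← h, F.rig.inv]

private theorem rrg_z_stop (F : Frame α inf o s) {sg : X → Prop} :
    en α sg inf s (op (α (rrg α inf s))) = α (op (α (rrg α inf s))) := by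
  have hne : (α (rrg α inf s)).1 ≠ tp α inf 1 := F.rig.noloop (rrg α inf s)
  refine rrg_stop F (d := op (α (rrg α inf s))) (rrg_y_inf F) (rrg_st_op F.star_st) ?_ ?_
  · intro h
    have h2 : (op (α (rrg α inf s))).1 = (rrg α inf s).1 := congrArg Prod.fst h
    exact hne h2
  · intro h
    have h2 := congrArg Prod.snd h
    have hz : ∀ i : ZMod 4, i + 2 ≠ i := by decide
    exact hz _ h2

private theorem rrg_z_inf (F : Frame α inf o s) : (α (op (α (rrg α inf s)))).1 ≠ inf := by
  have hst : St s (op (α (rrg α inf s))) := rrg_st_op F.star_st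
  have hy := rrg_y_inf F
  rcases hst with h | h
  · have e : op (α (rrg α inf s)) = ((α (rrg α inf s)).1, s (α (rrg α inf s)).1) :=
      Prod.ext rfl h
    rw [e]
    intro h2
    obtain ⟨k, -, hk⟩ := (F.a_inf hy).1 h2
    exact F.star_ne k hk
  · have e : op (α (rrg α inf s)) = ((α (rrg α inf s)).1, s (α (rrg α inf s)).1 + 2) :=
      Prod.ext rfl h
    rw [e]
    exact F.b_inf hy

private theorem rrg_t1a (F : Frame α inf o s) {sg : X → Prop} :
    en α sg inf s (tp α inf 1, s (tp α inf 1)) = (inf, -1) := by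
  have h : α (tp α inf 1, s (tp α inf 1)) = (inf, -1) := by
    rw [← F.port_eq (k := 1) (by decide), F.rig.inv]
  rw [en_stop, h]
  rw [h]
  rintro ⟨h1, -⟩
  exact h1 rfl

private theorem rrg_t1b (F : Frame α inf o s) {sg : X → Prop} (h : sg (α (rrg α inf s)).1) :
    en α sg inf s (rrg α inf s) = α (op (α (rrg α inf s))) := by
  rw [F.en_go ⟨rrg_y_inf F, h, F.star_st⟩]
  exact rrg_z_stop F

omit [Fintype X] in
private theorem rrg_t1b' {sg : X → Prop} (h : ¬ sg (α (rrg α inf s)).1) :
    en α sg inf s (rrg α inf s) = α (rrg α inf s) :=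
  en_stop fun h2 => h h2.2.1

private theorem rrg_ya (F : Frame α inf o s) {sg : X → Prop} (h : sg (tp α inf 1)) :
    en α sg inf s (α (rrg α inf s)) = (inf, -1) := by
  have h1 : α (α (rrg α inf s)) = rrg α inf s := F.rig.inv _
  have h2 : Ps sg inf s (α (α (rrg α inf s))) := by
    rw [h1]
    exact ⟨F.rig.tp_ne inf 1, h, Or.inr rfl⟩
  have h3 : nt α (α (rrg α inf s)) = (tp α inf 1, s (tp α inf 1)) := by
    have hz : ∀ i : ZMod 4, i + 2 + 2 = i := by decide
    rw [nt, h1]
    simp only [op, rrg, hz]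
  rw [F.en_go h2, h3]
  exact rrg_t1a F

private theorem rrg_ya' (F : Frame α inf o s) {sg : X → Prop} (h : ¬ sg (tp α inf 1)) :
    en α sg inf s (α (rrg α inf s)) = rrg α inf s := by
  have h1 : α (α (rrg α inf s)) = rrg α inf s := F.rig.inv _
  rw [en_stop, h1]
  rw [h1]
  exact fun h2 => h h2.2.1

/-- the hypothesis at the sites, for both orders of the strand -/
private def RrHz (α : X × ZMod 4 → X × ZMod 4) (sg : X → Prop) (inf : X) (s : X → ZMod 4)
    (D : ZMod 4 → H) (P : X → H) (h : X → ℝ) (r : ZMod 4 → ℝ) : Prop :=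
  ∀ d : X × ZMod 4, d.1 ≠ inf → St s d → ∀ p q : ℝ,
    P d.1 = p • qs D P inf (en α sg inf s d) + q • qs D P inf (en α sg inf s (op d)) →
    h d.1 = p * rrZ inf h r (en α sg inf s d) + q * rrZ inf h r (en α sg inf s (op d))

/-- the two equations at the star edge -/
private theorem rrg_star (F : Frame α inf o s) {h : X → ℝ} {r : ZMod 4 → ℝ}
    (hz : RrHz α sg inf s D P h r) {μ τ : ℝ} (h1 : μ < 1)
    (hP1 : P (tp α inf 1) = P (α (rrg α inf s)).1 + τ • D 1)
    (hP2 : P (α (rrg α inf s)).1 = μ • P (tp α inf 1) +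
      (1 - μ) • P (α (op (α (rrg α inf s)))).1) :
    h (tp α inf 1) = h (α (rrg α inf s)).1 + τ * r 1 ∧
    h (α (rrg α inf s)).1 = μ * h (tp α inf 1) + (1 - μ) * h (α (op (α (rrg α inf s)))).1 := by
  have hμ : 1 - μ ≠ 0 := by intro h0; linarith
  have e0 : op (rrg α inf s) = (tp α inf 1, s (tp α inf 1)) := by
    have hz : ∀ i : ZMod 4, i + 2 + 2 = i := by decide
    simp only [op, rrg, hz]
  have q1 : qs D P inf ((inf, -1) : X × ZMod 4) = D 1 := by simp [qs]
  have z1 : rrZ inf h r ((inf, -1) : X × ZMod 4) = r 1 := by simp [rrZ]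
  have qz : qs D P inf (α (op (α (rrg α inf s)))) = P (α (op (α (rrg α inf s)))).1 :=
    rrg_qs_ne P (rrg_z_inf F)
  have zz : rrZ inf h r (α (op (α (rrg α inf s)))) = h (α (op (α (rrg α inf s)))).1 :=
    rrZ_ne h r (rrg_z_inf F)
  have qy : qs D P inf (α (rrg α inf s)) = P (α (rrg α inf s)).1 := rrg_qs_ne P (rrg_y_inf F)
  have zy : rrZ inf h r (α (rrg α inf s)) = h (α (rrg α inf s)).1 := rrZ_ne h r (rrg_y_inf F)
  have qt : qs D P inf (rrg α inf s) = P (tp α inf 1) := rrg_qs_ne P (F.rig.tp_ne inf 1)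
  have zt : rrZ inf h r (rrg α inf s) = h (tp α inf 1) := rrZ_ne h r (F.rig.tp_ne inf 1)
  -- the positions relative to the third site
  have hP1' : P (tp α inf 1) = P (α (op (α (rrg α inf s)))).1 + (τ / (1 - μ)) • D 1 := by
    funext c
    have a1 := congrFun hP1 c
    have a2 := congrFun hP2 c
    simp only [Pi.add_apply, Pi.smul_apply, smul_eq_mul] at a1 a2 ⊢
    field_simp
    rw [a1] at a2
    linear_combination (1 - μ) * a1 + a2
  have hP2' : P (α (rrg α inf s)).1 = P (α (op (α (rrg α inf s)))).1 +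
      (μ * τ / (1 - μ)) • D 1 := by
    funext c
    have a1 := congrFun hP1 c
    have a2 := congrFun hP2 c
    simp only [Pi.add_apply, Pi.smul_apply, smul_eq_mul] at a1 a2 ⊢
    field_simp
    rw [a1] at a2
    linear_combination a2
  -- the equation at `t₁`
  have k1 : (sg (α (rrg α inf s)).1 ∧
      h (tp α inf 1) = h (α (op (α (rrg α inf s)))).1 + τ / (1 - μ) * r 1) ∨
      h (tp α inf 1) = h (α (rrg α inf s)).1 + τ * r 1 := by
    have h2 := hz (rrg α inf s) (F.rig.tp_ne inf 1) (Or.inr rfl)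
    rw [e0, rrg_t1a F, q1, z1] at h2
    by_cases hs : sg (α (rrg α inf s)).1
    · left
      refine ⟨hs, ?_⟩
      rw [rrg_t1b F hs, qz, zz] at h2
      have h3 := h2 1 (τ / (1 - μ)) (by rw [one_smul]; exact hP1')
      rw [one_mul] at h3
      exact h3
    · right
      rw [rrg_t1b' hs, qy, zy] at h2
      have h3 := h2 1 τ (by rw [one_smul]; exact hP1)
      rw [one_mul] at h3
      exact h3
  have k2 : h (α (rrg α inf s)).1 = h (α (op (α (rrg α inf s)))).1 + μ * τ / (1 - μ) * r 1 ∨
      h (α (rrg α inf s)).1 = μ * h (tp α inf 1) +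
        (1 - μ) * h (α (op (α (rrg α inf s)))).1 := by
    have h2 := hz (α (rrg α inf s)) (rrg_y_inf F) F.star_st
    rw [rrg_z_stop F, qz, zz] at h2
    by_cases hs : sg (tp α inf 1)
    · left
      rw [rrg_ya F hs, q1, z1] at h2
      have h3 := h2 (μ * τ / (1 - μ)) 1 (by rw [one_smul, add_comm]; exact hP2')
      rw [one_mul, add_comm] at h3
      exact h3
    · right
      rw [rrg_ya' F hs, qt, zt] at h2
      exact h2 μ (1 - μ) hP2
  rcases k1 with ⟨-, k1⟩ | k1 <;> rcases k2 with k2 | k2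
  · constructor
    · rw [k1, k2]; field_simp; ring
    · rw [k1, k2]; field_simp; ring
  · constructor
    · rw [k1] at k2 ⊢
      rw [k2]; field_simp; ring
    · exact k2
  · constructor
    · exact k1
    · have h3 : (1 - μ) * (h (α (rrg α inf s)).1 - h (α (op (α (rrg α inf s)))).1) =
          μ * τ * r 1 := by
        rw [k2]; field_simp; ring
      rw [k1]
      linear_combination h3
  · exact ⟨k1, k2⟩

private theorem rrg_eqs (F : Frame α inf o s) {lam : X → ℝ} {τ : Fin 3 → ℝ}
    (he : Eqm inf ![tp α inf 0, tp α inf 1, tp α inf 2] (fun v => (α (v, s v)).1)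
      (fun v => (α (v, s v + 2)).1) ![D 0, D 1, D 2] lam τ P) {h : X → ℝ} {r : ZMod 4 → ℝ}
    (hz : RrHz α sg inf s D P h r) :
    (∀ v, v ≠ inf → (∀ k, v ≠ (![tp α inf 0, tp α inf 1, tp α inf 2] : Fin 3 → X) k) →
      h v = lam v * h (α (v, s v)).1 + (1 - lam v) * h (α (v, s v + 2)).1) ∧
    ∀ k : Fin 3, h ((![tp α inf 0, tp α inf 1, tp α inf 2] : Fin 3 → X) k) =
      h (α ((![tp α inf 0, tp α inf 1, tp α inf 2] : Fin 3 → X) k,
        s ((![tp α inf 0, tp α inf 1, tp α inf 2] : Fin 3 → X) k) + 2)).1 +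
      τ k * ![r 0, r 1, r 2] k := by
  have hyi := rrg_y_inf F
  have hyk : ∀ k : ZMod 4, (α (rrg α inf s)).1 ≠ tp α inf k := F.star_ne
  have hnt : ∀ v, (∀ k : ZMod 4, v ≠ tp α inf k) →
      ∀ k, v ≠ (![tp α inf 0, tp α inf 1, tp α inf 2] : Fin 3 → X) k := by
    intro v hv k
    fin_cases k
    · exact hv 0
    · exact hv 1
    · exact hv 2
  have hyt : P (tp α inf 1) = P (α (rrg α inf s)).1 + τ 1 • D 1 := he.eqt 1
  have heq := he.eq (α (rrg α inf s)).1 hyi (hnt _ hyk)
  have hinv : α (α (rrg α inf s)) = rrg α inf s := F.rig.inv _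
  -- the equations of the star edge
  have hstar : h (tp α inf 1) = h (α (rrg α inf s)).1 + τ 1 * r 1 ∧
      h (α (rrg α inf s)).1 = lam (α (rrg α inf s)).1 *
        h (α ((α (rrg α inf s)).1, s (α (rrg α inf s)).1)).1 +
        (1 - lam (α (rrg α inf s)).1) *
        h (α ((α (rrg α inf s)).1, s (α (rrg α inf s)).1 + 2)).1 := by
    have l0y := he.l0 (α (rrg α inf s)).1
    have l1y := he.l1 (α (rrg α inf s)).1
    rcases F.star_st with hs | hs
    · have h' : (α (rrg α inf s)).2 = s (α (rrg α inf s)).1 := hs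
      have e1 : ((α (rrg α inf s)).1, s (α (rrg α inf s)).1) = α (rrg α inf s) := by
        rw [← h']
      have e2 : ((α (rrg α inf s)).1, s (α (rrg α inf s)).1 + 2) = op (α (rrg α inf s)) := by
        rw [← h']; rfl
      have e3 : (rrg α inf s).1 = tp α inf 1 := rfl
      rw [e1, e2, hinv, e3] at heq ⊢
      exact rrg_star F hz l1y hyt heq
    · have hz4 : ∀ i : ZMod 4, i + 2 + 2 = i := by decide
      have h' : (α (rrg α inf s)).2 = s (α (rrg α inf s)).1 + 2 := hs
      have e1 : ((α (rrg α inf s)).1, s (α (rrg α inf s)).1) = op (α (rrg α inf s)) := by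
        simp only [op, h', hz4]
      have e2 : ((α (rrg α inf s)).1, s (α (rrg α inf s)).1 + 2) = α (rrg α inf s) := by
        rw [← h']
      have e3 : (rrg α inf s).1 = tp α inf 1 := rfl
      have e5 : (1 : ℝ) - (1 - lam (α (rrg α inf s)).1) = lam (α (rrg α inf s)).1 := by ring
      rw [e1, e2, hinv, e3] at heq ⊢
      have h3 := rrg_star F hz (μ := 1 - lam (α (rrg α inf s)).1) (by linarith) hyt
        (by rw [e5, add_comm]; exact heq)
      rw [e5] at h3
      refine ⟨h3.1, ?_⟩
      rw [add_comm]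
      exact h3.2
  -- the regular sites
  have two : ∀ {v : X}, v ≠ inf → v ≠ tp α inf 1 → v ≠ (α (rrg α inf s)).1 →
      en α sg inf s (v, s v) = α (v, s v) ∧
        en α sg inf s (op (v, s v)) = α (v, s v + 2) := by
    intro v hv h1 h2
    exact ⟨rrg_stop F hv (Or.inl rfl) (fun h => h1 (congrArg Prod.fst h))
        (fun h => h2 (congrArg Prod.fst h)),
      rrg_stop F hv (Or.inr rfl) (fun h => h1 (congrArg Prod.fst h))
        (fun h => h2 (congrArg Prod.fst h))⟩
  refine ⟨?_, ?_⟩
  · intro v hv hk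
    by_cases h2 : v = (α (rrg α inf s)).1
    · subst h2
      exact hstar.2
    have h1 : v ≠ tp α inf 1 := hk 1
    have ha : (α (v, s v)).1 ≠ inf := by
      intro h3
      obtain ⟨k, hk3, hk4⟩ := (F.a_inf hv).1 h3
      have hz4 : ∀ k : ZMod 4, k ≠ 3 → k = 0 ∨ k = 1 ∨ k = 2 := by decide
      rcases hz4 k hk3 with rfl | rfl | rfl
      · exact hk 0 hk4
      · exact hk 1 hk4
      · exact hk 2 hk4
    have hb := F.b_inf hv
    obtain ⟨ea, eb⟩ := two hv h1 h2
    have h3 := hz (v, s v) hv (Or.inl rfl) (lam v) (1 - lam v)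
    rw [ea, eb, rrg_qs_ne P ha, rrg_qs_ne P hb, rrZ_ne h r ha, rrZ_ne h r hb] at h3
    exact h3 (he.eq v hv hk)
  · have port : ∀ (k : ZMod 4) (t : ℝ), k ≠ 3 → k ≠ 1 →
        P (tp α inf k) = P (α (tp α inf k, s (tp α inf k) + 2)).1 + t • D k →
        h (tp α inf k) = h (α (tp α inf k, s (tp α inf k) + 2)).1 + t * r k := by
      intro k t hk hk1 hp
      have hv : tp α inf k ≠ inf := F.rig.tp_ne inf k
      have hb := F.b_inf hv
      obtain ⟨ea0, eb⟩ := two hv (fun e => hk1 (F.rig.tp_inj inf e)) (hyk k).symm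
      have ea : en α sg inf s (tp α inf k, s (tp α inf k)) = (inf, -k) := by
        rw [ea0, ← F.port_eq hk, F.rig.inv]
      have q1 : qs D P inf ((inf, -k) : X × ZMod 4) = D k := by simp [qs]
      have z1 : rrZ inf h r ((inf, -k) : X × ZMod 4) = r k := by simp [rrZ]
      have h3 := hz (tp α inf k, s (tp α inf k)) hv (Or.inl rfl) t 1
      rw [ea, eb, q1, z1, rrg_qs_ne P hb, rrZ_ne h r hb, one_smul, one_mul] at h3
      rw [h3 (by rw [add_comm]; exact hp)]
      exact add_comm _ _
    intro k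
    fin_cases k
    · exact port 0 (τ 0) (by decide) (by decide) (he.eqt 0)
    · exact hstar.1
    · exact port 2 (τ 2) (by decide) (by decide) (he.eqt 2)

/-- from the site equation to the barycentric form -/
private theorem rrg_comb {p u A B : H} {t t' k l m n ZA ZB z : ℝ} (hp : p 2 = 1) (hu : u 2 = 0)
    (hu0 : u ≠ 0) (hA : A = k • p + t • u) (hB : B = l • p - t' • u) (hD : 0 < k * t' + l * t)
    (hz : t' * ZA + t * ZB = (k * t' + l * t) * z) (hc : p = m • A + n • B) :
    z = m * ZA + n * ZB := by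
  have h2 : m * k + n * l = 1 := by
    have h := congrFun hc 2
    rw [hA, hB] at h
    simp only [Pi.add_apply, Pi.sub_apply, Pi.smul_apply, smul_eq_mul, hp, hu] at h
    linarith
  have h3 : m * t = n * t' := by
    by_contra hne
    apply hu0
    have h4 : (m * t - n * t') • u = 0 := by
      funext c
      have h := congrFun hc c
      rw [hA, hB] at h
      simp only [Pi.add_apply, Pi.sub_apply, Pi.smul_apply, smul_eq_mul, Pi.zero_apply] at h ⊢
      linear_combination (-1 : ℝ) * h - p c * h2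
    rcases smul_eq_zero.1 h4 with h5 | h5
    · exact absurd (by linarith) hne
    · exact h5
  have h4 : (k * t' + l * t) * m = t' := by linear_combination l * h3 + t' * h2
  have h5 : (k * t' + l * t) * n = t := by linear_combination (-k) * h3 + t * h2
  have h6 : (k * t' + l * t) * z = (k * t' + l * t) * (m * ZA + n * ZB) := by
    rw [← hz]
    linear_combination (-ZA) * h4 - ZB * h5
  exact mul_left_cancel₀ hD.ne' h6

/-- the two ends of the straight strand -/
private theorem rrg_line (F : Frame α inf o s) (dw : Draw α inf s D P) {d : X × ZMod 4}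
    (hv : d.1 ≠ inf) (hi : St s d) : ∃ t t' : ℝ, 0 < t ∧ 0 < t' ∧
      qs D P inf (en α sg inf s d) =
        qs D P inf (en α sg inf s d) 2 • P d.1 + t • dr α inf D P d ∧
      qs D P inf (en α sg inf s (op d)) =
        qs D P inf (en α sg inf s (op d)) 2 • P d.1 - t' • dr α inf D P d := by
  obtain ⟨r, hr, e⟩ := dw.op_st hv hi
  obtain ⟨t1, ht1, hA⟩ := dw.lim_dir (sg := sg) F (d := d) hv
  obtain ⟨t2, ht2, hB⟩ := dw.lim_dir (sg := sg) F (d := op d) hv
  rw [e, smul_neg, smul_smul] at hB
  refine ⟨t1, t2 * r, ht1, mul_pos ht2 hr, ?_, ?_⟩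
  · rw [add_comm]; exact sub_eq_iff_eq_add.1 hA
  · have h := (sub_eq_iff_eq_add.1 hB).trans (add_comm _ _)
    exact h.trans (sub_eq_add_neg _ _).symm

omit [Fintype X] in
private theorem rrg_q2 (dw : Draw α inf s D P) (e : X × ZMod 4) :
    (e.1 = inf ∧ qs D P inf e 2 = 0) ∨ (e.1 ≠ inf ∧ qs D P inf e 2 = 1) := by
  by_cases h : e.1 = inf
  · left
    refine ⟨h, ?_⟩
    simp only [qs, h, if_true]
    exact dw.cfg.flat _
  · right
    refine ⟨h, ?_⟩
    simp only [qs, h, if_false]
    exact dw.nP _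

private theorem rrg_den (F : Frame α inf o s) (dw : Draw α inf s D P) {v : X} (hv : v ≠ inf)
    {t t' : ℝ} (ht : 0 < t) (ht' : 0 < t') :
    0 < qs D P inf (en α sg inf s (v, s v)) 2 * t' +
      qs D P inf (en α sg inf s (v, s v + 2)) 2 * t := by
  have hnb := F.not_both (sg := sg) hv
  rcases rrg_q2 dw (en α sg inf s (v, s v)) with ⟨a1, a2⟩ | ⟨a1, a2⟩ <;>
    rcases rrg_q2 dw (en α sg inf s (v, s v + 2)) with ⟨b1, b2⟩ | ⟨b1, b2⟩
  · exact absurd ⟨a1, b1⟩ hnb
  · rw [a2, b2]; linarith
  · rw [a2, b2]; linarith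
  · rw [a2, b2]; linarith

/-- it is enough to know the site equations -/
private theorem rrg_hz (F : Frame α inf o s) (dw : Draw α inf s D P) {h : X → ℝ}
    {r : ZMod 4 → ℝ}
    (hs : ∀ v, v ≠ inf → ∀ t t' : ℝ, 0 < t → 0 < t' →
      qs D P inf (en α sg inf s (v, s v)) =
        qs D P inf (en α sg inf s (v, s v)) 2 • P v + t • dr α inf D P (v, s v) →
      qs D P inf (en α sg inf s (v, s v + 2)) =
        qs D P inf (en α sg inf s (v, s v + 2)) 2 • P v - t' • dr α inf D P (v, s v) →
      t' * rrZ inf h r (en α sg inf s (v, s v)) + t * rrZ inf h r (en α sg inf s (v, s v + 2)) =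
        (qs D P inf (en α sg inf s (v, s v)) 2 * t' +
          qs D P inf (en α sg inf s (v, s v + 2)) 2 * t) * h v) :
    RrHz α sg inf s D P h r := by
  have key : ∀ v, v ≠ inf → ∀ p q : ℝ,
      P v = p • qs D P inf (en α sg inf s (v, s v)) +
        q • qs D P inf (en α sg inf s (v, s v + 2)) →
      h v = p * rrZ inf h r (en α sg inf s (v, s v)) +
        q * rrZ inf h r (en α sg inf s (v, s v + 2)) := by
    intro v hv p q hpq
    obtain ⟨t, t', ht, ht', hA, hB⟩ :=
      rrg_line (sg := sg) F dw (d := (v, s v)) hv (Or.inl rfl)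
    exact rrg_comb (dw.nP v) (dw.flat (v, s v)) (dw.ne0 F.rig (v, s v)) hA hB
      (rrg_den F dw hv ht ht') (hs v hv t t' ht ht' hA hB) hpq
  intro d hd hst p q hpq
  rcases hst with hst | hst
  · have e : d = (d.1, s d.1) := Prod.ext rfl hst
    have e2 : op d = (d.1, s d.1 + 2) := by rw [op, hst]
    rw [e2] at hpq ⊢
    have h3 := key d.1 hd p q
    rw [← e] at h3
    exact h3 hpq
  · have e : d = (d.1, s d.1 + 2) := Prod.ext rfl hst
    have e2 : op d = (d.1, s d.1) := by
      have hz : ∀ i : ZMod 4, i + 2 + 2 = i := by decide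
      rw [op, hst, hz]
    rw [e2] at hpq ⊢
    have h3 := key d.1 hd q p
    rw [← e] at h3
    rw [add_comm] at hpq ⊢
    exact h3 hpq

end general

variable {V F : Type}

/-- the equations at the big vertices -/
noncomputable def rrow (P : Pic V V F Unit) (L : Lab V F Unit H) (s : Option (V ⊕ F) → ZMod 4)
    (a : F) (i : ZMod 4) : ℝ :=
  if i = s (some (inr a)) then
    d2 (P.dir L a (s (some (inr a)) + 1)) (P.dir L a (s (some (inr a)) + 2))
  else if i = s (some (inr a)) + 1 then
    d2 (P.dir L a (s (some (inr a)) + 2)) (P.dir L a (s (some (inr a))))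
  else if i = s (some (inr a)) + 2 then
    d2 (P.dir L a (s (some (inr a)))) (P.dir L a (s (some (inr a)) + 1))
  else 0

private theorem rrg_z4 (k : ZMod 4) : k = 0 ∨ k = 1 ∨ k = 2 ∨ k = 3 := by
  revert k; decide

private theorem rrg_sum {M : Type} [AddCommMonoid M] (f : ZMod 4 → M) (k : ZMod 4) :
    ∑ i, f i = f k + f (k + 1) + f (k + 2) + f (k + 3) := by
  have h0 : ∑ i, f i = f 0 + f 1 + f 2 + f 3 := Fin.sum_univ_four f
  rw [h0]
  rcases rrg_z4 k with rfl | rfl | rfl | rfl
  · rw [zero_add, zero_add, zero_add]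
  · have e1 : (1 : ZMod 4) + 1 = 2 := by decide
    have e2 : (1 : ZMod 4) + 2 = 3 := by decide
    have e3 : (1 : ZMod 4) + 3 = 0 := by decide
    rw [e1, e2, e3]; abel
  · have e1 : (2 : ZMod 4) + 1 = 3 := by decide
    have e2 : (2 : ZMod 4) + 2 = 0 := by decide
    have e3 : (2 : ZMod 4) + 3 = 1 := by decide
    rw [e1, e2, e3]; abel
  · have e1 : (3 : ZMod 4) + 1 = 0 := by decide
    have e2 : (3 : ZMod 4) + 2 = 1 := by decide
    have e3 : (3 : ZMod 4) + 3 = 2 := by decide
    rw [e1, e2, e3]; abel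

/-- the sum with the coefficients `rrow` -/
private theorem rrg_rrow {M : Type} [AddCommGroup M] [Module ℝ M] (P : Pic V V F Unit)
    (L : Lab V F Unit H) (s : Option (V ⊕ F) → ZMod 4) (a : F) (f : ZMod 4 → M) :
    ∑ i, rrow P L s a i • f i =
      d2 (P.dir L a (s (some (inr a)) + 1)) (P.dir L a (s (some (inr a)) + 2)) •
        f (s (some (inr a))) +
      d2 (P.dir L a (s (some (inr a)) + 2)) (P.dir L a (s (some (inr a)))) •
        f (s (some (inr a)) + 1) +
      d2 (P.dir L a (s (some (inr a)))) (P.dir L a (s (some (inr a)) + 1)) •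
        f (s (some (inr a)) + 2) := by
  rw [rrg_sum _ (s (some (inr a)))]
  have h1 : ∀ k : ZMod 4, k + 1 ≠ k := by decide
  have h2 : ∀ k : ZMod 4, k + 2 ≠ k := by decide
  have h3 : ∀ k : ZMod 4, k + 2 ≠ k + 1 := by decide
  have h4 : ∀ k : ZMod 4, k + 3 ≠ k := by decide
  have h5 : ∀ k : ZMod 4, k + 3 ≠ k + 1 := by decide
  have h6 : ∀ k : ZMod 4, k + 3 ≠ k + 2 := by decide
  have r0 : rrow P L s a (s (some (inr a))) =
      d2 (P.dir L a (s (some (inr a)) + 1)) (P.dir L a (s (some (inr a)) + 2)) := by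
    rw [rrow, if_pos rfl]
  have r1 : rrow P L s a (s (some (inr a)) + 1) =
      d2 (P.dir L a (s (some (inr a)) + 2)) (P.dir L a (s (some (inr a)))) := by
    rw [rrow, if_neg (h1 _), if_pos rfl]
  have r2 : rrow P L s a (s (some (inr a)) + 2) =
      d2 (P.dir L a (s (some (inr a)))) (P.dir L a (s (some (inr a)) + 1)) := by
    rw [rrow, if_neg (h2 _), if_neg (h3 _), if_pos rfl]
  have r3 : rrow P L s a (s (some (inr a)) + 3) = 0 := by
    rw [rrow, if_neg (h4 _), if_neg (h5 _), if_neg (h6 _)]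
  rw [r0, r1, r2, r3, zero_smul, add_zero]

theorem rrow_orth (P : Pic V V F Unit) {L : Lab V F Unit H} (nL : Norm L)
    (s : Option (V ⊕ F) → ZMod 4) : P.Orth L (rrow P L s) := by
  intro a
  have hf : ∀ i, P.dir L a i 2 = 0 := by
    intro i
    simp [Pic.dir, nL.f a]
  rw [rrg_rrow]
  have id3 : ∀ p q r : H, p 2 = 0 → q 2 = 0 → r 2 = 0 →
      d2 q r • p + d2 r p • q + d2 p q • r = 0 := by
    intro p q r hp hq hr
    funext c
    fin_cases c
    · simp [d2]; ring
    · simp [d2]; ring
    · simp [hp, hq, hr]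
  exact id3 _ _ _ (hf _) (hf _) (hf _)

variable [Fintype V] [Fintype F] {αp : SD V F Unit → SD V F Unit}
  {o : Option (V ⊕ F) × ZMod 4 → Bool} {s : Option (V ⊕ F) → ZMod 4} {D : ZMod 4 → H}
  {P δ : Option (V ⊕ F) → H} {c : Option (V ⊕ F) → ℝ}

/-- the heights at the sites -/
private def rrh (z : Lab V F Unit ℝ) : Option (V ⊕ F) → ℝ
  | none => 0
  | some (inl v) => z.n v
  | some (inr a) => z.f a

omit [Fintype V] [Fintype F] in
private theorem rrg_at (z : Lab V F Unit ℝ) {e : Bead V V F Unit} (he : IsEnd e) :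
    z.at e = rrZ none (rrh z) (z.o ()) (sdt s e) := by
  rcases e with (⟨v, i⟩ | ⟨a, i⟩ | ⟨a, i⟩) | ⟨w, b⟩
  · exact absurd he (by simp [IsEnd])
  · simp [Lab.at, rrZ, sdt, toX, rrh]
  · simp [Lab.at, rrZ, sdt, toX]
  · cases b
    · simp [Lab.at, rrZ, sdt, rrh]
    · simp [Lab.at, rrZ, sdt, rrh]

omit [Fintype V] [Fintype F] in
private theorem rrg_at_bd (z : Lab V F Unit ℝ) {d : Option (V ⊕ F) × ZMod 4}
    (h : ¬ Ps sgl none s d) : z.at (bd s d : Bead V V F Unit) =
      rrZ none (rrh z) (z.o ()) d := by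
  rw [rrg_at (s := s) z (bd_end d), sdt_bd h]

omit [Fintype V] [Fintype F] in
private theorem rrg_L_bd {Q : Option (V ⊕ F) → H} {d : Option (V ⊕ F) × ZMod 4}
    (h : ¬ Ps sgl none s d) : (rlab D Q).at (bd s d : Bead V V F Unit) = qs D Q none d := by
  rw [rlab_at D Q (bd_end d), sdt_bd h]

omit [Fintype V] [Fintype F] in
private theorem rrg_ed1 (v : V) :
    (rpic αp s).ed v (s (some (inl v)) + 1) = inr (v, false) := by
  simp [rpic]

omit [Fintype V] [Fintype F] in
private theorem rrg_ed {v : V} {i : ZMod 4} (hi : i ≠ s (some (inl v)) + 1) :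
    (rpic αp s).ed v i = bd s (en (cls αp) sgl none s (some (inl v), i)) := by
  simp [rpic, hi]

/-- the height equation starting with the dart `k` -/
private theorem rrg_rw4 (p : ZMod 4 → H) (z : ZMod 4 → ℝ) (h : rw4 p z = 0) (k : ZMod 4) :
    dt (p (k + 1)) (p (k + 2)) (p (k + 3)) * z k + dt (p (k + 3)) (p k) (p (k + 1)) * z (k + 2)
      - dt (p (k + 2)) (p (k + 3)) (p k) * z (k + 1)
      - dt (p k) (p (k + 1)) (p (k + 2)) * z (k + 3) = 0 := by
  rcases rrg_z4 k with rfl | rfl | rfl | rfl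
  · rw [zero_add, zero_add, zero_add]
    exact h
  · have e1 : (1 : ZMod 4) + 1 = 2 := by decide
    have e2 : (1 : ZMod 4) + 2 = 3 := by decide
    have e3 : (1 : ZMod 4) + 3 = 0 := by decide
    rw [e1, e2, e3]
    unfold rw4 at h
    linear_combination (-1 : ℝ) * h
  · have e1 : (2 : ZMod 4) + 1 = 3 := by decide
    have e2 : (2 : ZMod 4) + 2 = 0 := by decide
    have e3 : (2 : ZMod 4) + 3 = 1 := by decide
    rw [e1, e2, e3]
    unfold rw4 at h
    linear_combination h
  · have e1 : (3 : ZMod 4) + 1 = 0 := by decide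
    have e2 : (3 : ZMod 4) + 2 = 1 := by decide
    have e3 : (3 : ZMod 4) + 3 = 2 := by decide
    rw [e1, e2, e3]
    unfold rw4 at h
    linear_combination (-1 : ℝ) * h

/-- the equation of a crossing at the limit -/
private theorem rrg_x {p u w A B C : H} {t t' t'' k l m ZA ZB ZC z : ℝ} (hp : p 2 = 1)
    (hu : u 2 = 0) (hw : w 2 = 0) (ht : 0 < t'') (hd : 0 < d2 w u)
    (hA : A = k • p + t • u) (hB : B = l • p - t' • u) (hC : C = m • p + t'' • w)
    (hr : dt p B C * ZA + dt C A p * ZB - dt B C A * z - dt A p B * ZC = 0) :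
    t' * ZA + t * ZB = (k * t' + l * t) * z := by
  have h1 : dt p B C = t' * (t'' * d2 w u) := by
    subst hB hC
    simp only [dt, d2, Pi.add_apply, Pi.sub_apply, Pi.smul_apply, smul_eq_mul, hp, hu, hw]
    ring
  have h2 : dt C A p = t * (t'' * d2 w u) := by
    subst hA hC
    simp only [dt, d2, Pi.add_apply, Pi.smul_apply, smul_eq_mul, hp, hu, hw]
    ring
  have h3 : dt B C A = (k * t' + l * t) * (t'' * d2 w u) := by
    subst hA hB hC
    simp only [dt, d2, Pi.add_apply, Pi.sub_apply, Pi.smul_apply, smul_eq_mul, hp, hu, hw]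
    ring
  have h4 : dt A p B = 0 := by
    subst hA hB
    simp only [dt, Pi.add_apply, Pi.sub_apply, Pi.smul_apply, smul_eq_mul]
    ring
  rw [h1, h2, h3, h4] at hr
  have h5 : 0 < t'' * d2 w u := mul_pos ht hd
  have h6 : (t'' * d2 w u) * (t' * ZA + t * ZB) = (t'' * d2 w u) * ((k * t' + l * t) * z) := by
    linear_combination hr
  exact mul_left_cancel₀ h5.ne' h6

/-- the site equations at the limit -/
private theorem rrg_site (Fr : Frame (cls αp) none o s) (dw : Draw (cls αp) none s D P)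
    (hp : Conv (cls αp) none D P) {z : Lab V F Unit ℝ} (hsol : (rpic αp s).Sol (rlab D P) z)
    (hbig : ∀ a, ∑ i, rrow (rpic αp s) (rlab D P) s a i *
      (rpic αp s).slo (rlab D P) z a i = 0) :
    RrHz (cls αp) sgl none s D P (rrh z) (z.o ()) := by
  have k1 : ∀ k : ZMod 4, k + 2 ≠ k + 1 := by decide
  have k2 : ∀ k : ZMod 4, k + 3 ≠ k + 1 := by decide
  have k3 : ∀ k : ZMod 4, k ≠ k + 1 := by decide
  have k4 : ∀ k : ZMod 4, k + 3 + 1 = k := by decide
  apply rrg_hz Fr dw
  intro v hv t t' ht ht' hA hB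
  rcases v with _ | v | a
  · exact absurd rfl hv
  · -- a crossing
    obtain ⟨t3, ht3, hC⟩ := dw.lim_dir (sg := sgl) Fr
      (d := (some (inl v), s (some (inl v)) + 3)) hv
    have hC' := (sub_eq_iff_eq_add.1 hC).trans (add_comm _ _)
    have hpos : 0 < d2 (dr (cls αp) none D P (some (inl v), s (some (inl v)) + 3))
        (dr (cls αp) none D P (some (inl v), s (some (inl v)))) := by
      have h := hp (some (inl v), s (some (inl v)) + 3) hv
      have e3 : nx (some (inl v), s (some (inl v)) + 3) =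
          ((some (inl v), s (some (inl v))) : Option (V ⊕ F) × ZMod 4) :=
        Prod.ext rfl (k4 _)
      rw [e3] at h
      exact h
    have hr := rrg_rw4 _ _ (hsol v) (s (some (inl v)))
    rw [rrg_ed1, rrg_ed (k3 _), rrg_ed (k1 _), rrg_ed (k2 _), rrg_L_bd (Fr.en_nps _),
      rrg_L_bd (Fr.en_nps _), rrg_L_bd (Fr.en_nps _), rrg_at_bd _ (Fr.en_nps _),
      rrg_at_bd _ (Fr.en_nps _), rrg_at_bd _ (Fr.en_nps _)] at hr
    exact rrg_x (dw.nP (some (inl v))) (dw.flat (some (inl v), s (some (inl v))))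
      (dw.flat (some (inl v), s (some (inl v)) + 3)) ht3 hpos hA hB hC' hr
  · -- a big vertex
    have hopp : ∀ i : ZMod 4, (rpic αp s).opp (inl (.f a i)) =
        bd s (en (cls αp) sgl none s (some (inr a), i)) := fun i =>
      rpic_opp Fr (e := inl (.f a i)) trivial
    have hdir : ∀ i : ZMod 4, (rpic αp s).dir (rlab D P) a i =
        qs D P none (en (cls αp) sgl none s (some (inr a), i)) -
          (qs D P none (en (cls αp) sgl none s (some (inr a), i)) 2) • P (some (inr a)) := by
      intro i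
      unfold Pic.dir
      rw [hopp, rrg_L_bd (Fr.en_nps _)]
      rfl
    have hslo : ∀ i : ZMod 4, (rpic αp s).slo (rlab D P) z a i =
        rrZ none (rrh z) (z.o ()) (en (cls αp) sgl none s (some (inr a), i)) -
          (qs D P none (en (cls αp) sgl none s (some (inr a), i)) 2) *
            rrh z (some (inr a)) := by
      intro i
      unfold Pic.slo
      rw [hopp, rrg_L_bd (Fr.en_nps _), rrg_at_bd _ (Fr.en_nps _)]
      rfl
    obtain ⟨t3, ht3, hC⟩ := dw.lim_dir (sg := sgl) Fr
      (d := (some (inr a), s (some (inr a)) + 1)) hv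
    have hpos : 0 < d2 (dr (cls αp) none D P (some (inr a), s (some (inr a))))
        (dr (cls αp) none D P (some (inr a), s (some (inr a)) + 1)) :=
      hp (some (inr a), s (some (inr a))) hv
    have dA : (rpic αp s).dir (rlab D P) a (s (some (inr a))) =
        t • dr (cls αp) none D P (some (inr a), s (some (inr a))) := by
      rw [hdir, sub_eq_iff_eq_add]
      exact hA.trans (add_comm _ _)
    have dB : (rpic αp s).dir (rlab D P) a (s (some (inr a)) + 2) =
        (-t') • dr (cls αp) none D P (some (inr a), s (some (inr a))) := by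
      rw [hdir, sub_eq_iff_eq_add, neg_smul]
      exact hB.trans (by rw [sub_eq_add_neg, add_comm])
    have dC : (rpic αp s).dir (rlab D P) a (s (some (inr a)) + 1) =
        t3 • dr (cls αp) none D P (some (inr a), s (some (inr a)) + 1) := by
      rw [hdir]
      exact hC
    have hb := hbig a
    simp only [← smul_eq_mul] at hb
    rw [rrg_rrow, dA, dB, dC, hslo, hslo, hslo] at hb
    simp only [d2_smul_left, d2_smul_right, d2_self, smul_eq_mul] at hb
    have hsw := d2_swap (dr (cls αp) none D P (some (inr a), s (some (inr a))))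
      (dr (cls αp) none D P (some (inr a), s (some (inr a)) + 1))
    rw [hsw] at hb
    have h5 := mul_pos ht3 hpos
    have h6 : (t3 * d2 (dr (cls αp) none D P (some (inr a), s (some (inr a))))
        (dr (cls αp) none D P (some (inr a), s (some (inr a)) + 1))) *
        (t' * rrZ none (rrh z) (z.o ())
            (en (cls αp) sgl none s (some (inr a), s (some (inr a)))) +
          t * rrZ none (rrh z) (z.o ())
            (en (cls αp) sgl none s (some (inr a), s (some (inr a)) + 2))) =
        (t3 * d2 (dr (cls αp) none D P (some (inr a), s (some (inr a))))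
        (dr (cls αp) none D P (some (inr a), s (some (inr a)) + 1))) *
        ((qs D P none (en (cls αp) sgl none s (some (inr a), s (some (inr a)))) 2 * t' +
          qs D P none (en (cls αp) sgl none s (some (inr a), s (some (inr a)) + 2)) 2 * t) *
            rrh z (some (inr a))) := by
      linear_combination hb
    exact mul_left_cancel₀ h5.ne' h6

/-- solutions at the limit are constant -/
private theorem rrg_const (Fr : Frame (cls αp) none o s) {lam : Option (V ⊕ F) → ℝ}
    {τ : Fin 3 → ℝ}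
    (he : Eqm none ![tp (cls αp) none 0, tp (cls αp) none 1, tp (cls αp) none 2]
      (fun v => (cls αp (v, s v)).1) (fun v => (cls αp (v, s v + 2)).1) ![D 0, D 1, D 2] lam τ P)
    (dw : Draw (cls αp) none s D P) (hp : Conv (cls αp) none D P) {u : ZMod 4 → ℝ}
    (hu : d2 (D 1) (D 2) * u 0 + d2 (D 2) (D 0) * u 1 + d2 (D 0) (D 1) * u 2 ≠ 0)
    {z : Lab V F Unit ℝ} {x : ℝ} (hx : ∀ i, z.o () i = x * u i)
    (hsol : (rpic αp s).Sol (rlab D P) z)
    (hbig : ∀ a, ∑ i, rrow (rpic αp s) (rlab D P) s a i *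
      (rpic αp s).slo (rlab D P) z a i = 0) :
    x = 0 ∧ ∀ v v', v ≠ none → v' ≠ none → rrh z v = rrh z v' := by
  obtain ⟨h1, h2⟩ := rrg_eqs Fr he (rrg_site Fr dw hp hsol hbig)
  have tne : ∀ k l : ZMod 4, k ≠ l → tp (cls αp) none k ≠ tp (cls αp) none l :=
    fun k l hkl e => hkl (Fr.rig.tp_inj none e)
  classical
  set r : Option (V ⊕ F) → ℝ := fun v =>
    if v = tp (cls αp) none 0 then z.o () 0 else
      if v = tp (cls αp) none 1 then z.o () 1 else z.o () 2 with hr
  have r0 : r (tp (cls αp) none 0) = z.o () 0 := by simp [hr]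
  have r1 : r (tp (cls αp) none 1) = z.o () 1 := by
    simp [hr, tne 1 0 (by decide)]
  have r2 : r (tp (cls αp) none 2) = z.o () 2 := by
    simp [hr, tne 2 0 (by decide), tne 2 1 (by decide)]
  have h3 := he.sum (rrh z) r h1 (by
    intro k
    rw [h2 k]
    congr 2
    fin_cases k
    · exact r0.symm
    · exact r1.symm
    · exact r2.symm)
  have h4 : d2 (D 1) (D 2) * z.o () 0 + d2 (D 2) (D 0) * z.o () 1 +
      d2 (D 0) (D 1) * z.o () 2 = 0 := by
    rw [← r0, ← r1, ← r2]
    exact h3
  rw [hx, hx, hx] at h4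
  have h5 : x * (d2 (D 1) (D 2) * u 0 + d2 (D 2) (D 0) * u 1 + d2 (D 0) (D 1) * u 2) = 0 := by
    linear_combination h4
  have hx0 : x = 0 := by
    rcases mul_eq_zero.1 h5 with h6 | h6
    · exact h6
    · exact absurd h6 hu
  refine ⟨hx0, ?_⟩
  intro v v' hv hv'
  refine Fr.walk.const he.l0 he.l1 (h := rrh z) ⟨?_, ?_⟩ hv hv'
  · intro w hw hk
    rw [add_zero]
    exact h1 w hw hk
  · intro k
    rw [h2 k]
    have h7 : (![z.o () 0, z.o () 1, z.o () 2] : Fin 3 → ℝ) k = 0 := by
      fin_cases k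
      · simp [hx, hx0]
      · simp [hx, hx0]
      · simp [hx, hx0]
    rw [h7, mul_zero]

/-- the label of a vector -/
private def rrlb (u : ZMod 4 → ℝ) (w : (V → ℝ) × (F → ℝ) × ℝ) : Lab V F Unit ℝ where
  n := w.1
  f := w.2.1
  o _ i := w.2.2 * u i

omit [Fintype V] [Fintype F] in
private theorem rrlb_add (u : ZMod 4 → ℝ) (w w' : (V → ℝ) × (F → ℝ) × ℝ)
    (e : Bead V V F Unit) : (rrlb u (w + w')).at e = (rrlb u w).at e + (rrlb u w').at e := by
  rcases e with (⟨v, i⟩ | ⟨a, i⟩ | ⟨a, i⟩) | ⟨b, d⟩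
  · simp [Lab.at]
  · rfl
  · show (w + w').2.2 * u i = w.2.2 * u i + w'.2.2 * u i
    rw [← add_mul]; rfl
  · rfl

omit [Fintype V] [Fintype F] in
private theorem rrlb_smul (u : ZMod 4 → ℝ) (k : ℝ) (w : (V → ℝ) × (F → ℝ) × ℝ)
    (e : Bead V V F Unit) : (rrlb u (k • w)).at e = k * (rrlb u w).at e := by
  rcases e with (⟨v, i⟩ | ⟨a, i⟩ | ⟨a, i⟩) | ⟨b, d⟩
  · simp [Lab.at]
  · rfl
  · show (k • w).2.2 * u i = k * (w.2.2 * u i)
    rw [← mul_assoc]; rfl
  · rfl

/-- the system of the equations -/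
private noncomputable def rrM (αp : SD V F Unit → SD V F Unit) (s : Option (V ⊕ F) → ZMod 4)
    (D : ZMod 4 → H) (u : ZMod 4 → ℝ) (Q : Option (V ⊕ F) → H) :
    ((V → ℝ) × (F → ℝ) × ℝ) →ₗ[ℝ] ((V → ℝ) × (F → ℝ)) where
  toFun w := (fun v => (rpic αp s).row (rlab D Q).at (rrlb u w).at v,
    fun a => ∑ i, rrow (rpic αp s) (rlab D Q) s a i *
      (rpic αp s).slo (rlab D Q) (rrlb u w) a i)
  map_add' w w' := by
    refine Prod.ext (funext fun v => ?_) (funext fun a => ?_)
    · show (rpic αp s).row _ _ v = (rpic αp s).row _ _ v + (rpic αp s).row _ _ v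
      unfold Pic.row
      rw [← rw4_add]
      congr 1
      funext i
      exact rrlb_add u w w' _
    · show ∑ i : ZMod 4, rrow (rpic αp s) (rlab D Q) s a i *
          (rpic αp s).slo (rlab D Q) (rrlb u (w + w')) a i =
        ∑ i : ZMod 4, rrow (rpic αp s) (rlab D Q) s a i *
          (rpic αp s).slo (rlab D Q) (rrlb u w) a i +
        ∑ i : ZMod 4, rrow (rpic αp s) (rlab D Q) s a i *
          (rpic αp s).slo (rlab D Q) (rrlb u w') a i
      rw [← Finset.sum_add_distrib]
      refine Finset.sum_congr rfl fun i _ => ?_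
      unfold Pic.slo
      rw [rrlb_add]
      show _ * (_ - _ * (w.2.1 a + w'.2.1 a)) = _ * (_ - _ * w.2.1 a) + _ * (_ - _ * w'.2.1 a)
      ring
  map_smul' k w := by
    refine Prod.ext (funext fun v => ?_) (funext fun a => ?_)
    · show (rpic αp s).row _ _ v = k * (rpic αp s).row _ _ v
      unfold Pic.row
      rw [← rw4_mul]
      congr 1
      funext i
      exact rrlb_smul u k w _
    · show ∑ i : ZMod 4, rrow (rpic αp s) (rlab D Q) s a i *
          (rpic αp s).slo (rlab D Q) (rrlb u (k • w)) a i =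
        k * ∑ i : ZMod 4, rrow (rpic αp s) (rlab D Q) s a i *
          (rpic αp s).slo (rlab D Q) (rrlb u w) a i
      rw [Finset.mul_sum]
      refine Finset.sum_congr rfl fun i _ => ?_
      unfold Pic.slo
      rw [rrlb_smul]
      show _ * (_ - _ * (k * w.2.1 a)) = k * (_ * (_ - _ * w.2.1 a))
      ring

omit [Fintype V] [Fintype F] in
private theorem rrg_cont_at (e : Bead V V F Unit) :
    Continuous fun Q : Option (V ⊕ F) → H => (rlab D Q).at e := by
  rcases e with (⟨v, i⟩ | ⟨a, i⟩ | ⟨a, i⟩) | ⟨b, d⟩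
  · exact continuous_const
  · exact continuous_apply (some (inr a))
  · exact continuous_const
  · exact continuous_apply (some (inl b))

private theorem rrg_cont_dt {X : Type} [TopologicalSpace X] {f g h : X → H} (hf : Continuous f)
    (hg : Continuous g) (hh : Continuous h) : Continuous fun x => dt (f x) (g x) (h x) := by
  unfold dt
  fun_prop

private theorem rrg_cont_d2 {X : Type} [TopologicalSpace X] {f g : X → H} (hf : Continuous f)
    (hg : Continuous g) : Continuous fun x => d2 (f x) (g x) := by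
  unfold d2
  fun_prop

omit [Fintype V] [Fintype F] in
private theorem rrg_cont_dir (a : F) (i : ZMod 4) :
    Continuous fun Q : Option (V ⊕ F) → H => (rpic αp s).dir (rlab D Q) a i := by
  unfold Pic.dir
  have h1 := rrg_cont_at (V := V) (F := F) (D := D) ((rpic αp s).opp (inl (.f a i)))
  have h2 : Continuous fun Q : Option (V ⊕ F) → H => (rlab D Q).f a :=
    continuous_apply (some (inr a))
  fun_prop

omit [Fintype V] [Fintype F] in
private theorem rrg_cont (u : ZMod 4 → ℝ) (w : (V → ℝ) × (F → ℝ) × ℝ) :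
    Continuous fun Q : Option (V ⊕ F) → H => rrM αp s D u Q w := by
  have h1 : Continuous fun Q : Option (V ⊕ F) → H =>
      fun v => (rpic αp s).row (rlab D Q).at (rrlb u w).at v := by
    refine continuous_pi fun v => ?_
    unfold Pic.row rw4
    have hc : ∀ i, Continuous fun Q : Option (V ⊕ F) → H =>
        (rlab D Q).at ((rpic αp s).ed v i) := fun i => rrg_cont_at _
    exact ((((rrg_cont_dt (hc 1) (hc 2) (hc 3)).mul continuous_const).add
      ((rrg_cont_dt (hc 3) (hc 0) (hc 1)).mul continuous_const)).sub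
      ((rrg_cont_dt (hc 2) (hc 3) (hc 0)).mul continuous_const)).sub
      ((rrg_cont_dt (hc 0) (hc 1) (hc 2)).mul continuous_const)
  have h2 : Continuous fun Q : Option (V ⊕ F) → H =>
      fun a => ∑ i, rrow (rpic αp s) (rlab D Q) s a i *
        (rpic αp s).slo (rlab D Q) (rrlb u w) a i := by
    refine continuous_pi fun a => continuous_finsetSum _ fun i _ => ?_
    refine Continuous.mul ?_ ?_
    · unfold rrow
      split_ifs
      · exact rrg_cont_d2 (rrg_cont_dir a _) (rrg_cont_dir a _)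
      · exact rrg_cont_d2 (rrg_cont_dir a _) (rrg_cont_dir a _)
      · exact rrg_cont_d2 (rrg_cont_dir a _) (rrg_cont_dir a _)
      · exact continuous_const
    · unfold Pic.slo
      have h3 := rrg_cont_at (V := V) (F := F) (D := D) ((rpic αp s).opp (inl (.f a i)))
      fun_prop
  exact h1.prodMk h2

theorem rpic_rig (Fr : Frame (cls αp) none o s) {lam : Option (V ⊕ F) → ℝ} {τ : Fin 3 → ℝ}
    (he : Eqm none ![tp (cls αp) none 0, tp (cls αp) none 1, tp (cls αp) none 2]
      (fun v => (cls αp (v, s v)).1) (fun v => (cls αp (v, s v + 2)).1) ![D 0, D 1, D 2] lam τ P)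
    (dw : Draw (cls αp) none s D P) (hp : Conv (cls αp) none D P)
    (pt : Pert (cls αp) sgl none s D P c δ) {u : ZMod 4 → ℝ}
    (hu : d2 (D 1) (D 2) * u 0 + d2 (D 2) (D 0) * u 1 + d2 (D 0) (D 1) * u 2 ≠ 0) :
    ∀ᶠ ε in 𝓝[>] (0 : ℝ), (rpic αp s).Rig (rlab D (pe P δ ε))
      (rrow (rpic αp s) (rlab D (pe P δ ε)) s) (fun _ => u) := by
  -- the constants
  let A : ℝ →ₗ[ℝ] ((V → ℝ) × (F → ℝ) × ℝ) :=
    { toFun := fun y => (fun _ => y, fun _ => y, 0)
      map_add' := fun y y' => by
        refine Prod.ext rfl (Prod.ext rfl ?_)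
        show (0 : ℝ) = 0 + 0
        rw [add_zero]
      map_smul' := fun k y => by
        refine Prod.ext rfl (Prod.ext rfl ?_)
        show (0 : ℝ) = k * 0
        rw [mul_zero] }
  have hA : ∀ y, A y = (fun _ => y, fun _ => y, 0) := fun y => rfl
  have hn : ∀ ε v, pe P δ ε v 2 = 1 := by
    intro ε v
    simp [pe, dw.nP v, pt.flat v]
  have hconst : ∀ ε y, rrM αp s D u (pe P δ ε) (A y) = 0 := by
    intro ε y
    have hat : ∀ e : Bead V V F Unit, (rrlb u (A y)).at e =
        dot ![0, 0, y] ((rlab D (pe P δ ε)).at e) := by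
      intro e
      rcases e with (⟨v, i⟩ | ⟨a, i⟩ | ⟨a, i⟩) | ⟨b, d⟩
      · simp [Lab.at]
      · show y = _
        simp [Lab.at, rlab, dot, hn]
      · show (0 : ℝ) * u i = _
        have h0 := dw.cfg.flat i
        simp [Lab.at, rlab, dot, h0]
      · show y = _
        simp [Lab.at, rlab, dot, hn]
    refine Prod.ext (funext fun v => ?_) (funext fun a => ?_)
    · show (rpic αp s).row _ _ v = 0
      unfold Pic.row
      have h1 : (fun i => (rrlb u (A y)).at ((rpic αp s).ed v i)) =
          fun i => dot ![0, 0, y] ((rlab D (pe P δ ε)).at ((rpic αp s).ed v i)) :=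
        funext fun i => hat _
      rw [h1]
      exact rw4_dot _ _
    · show ∑ i : ZMod 4, rrow (rpic αp s) (rlab D (pe P δ ε)) s a i *
          (rpic αp s).slo (rlab D (pe P δ ε)) (rrlb u (A y)) a i = (0 : ℝ)
      refine Finset.sum_eq_zero fun i _ => ?_
      have h1 : (rpic αp s).slo (rlab D (pe P δ ε)) (rrlb u (A y)) a i = 0 := by
        unfold Pic.slo
        rw [hat]
        show dot ![0, 0, y] _ - _ * y = 0
        simp [dot]
        ring
      rw [h1, mul_zero]
  have hker : ∀ w, rrM αp s D u P w = 0 → ∃ y, A y = w := by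
    intro w hw
    have hsol : (rpic αp s).Sol (rlab D P) (rrlb u w) := fun v =>
      congrFun (congrArg Prod.fst hw) v
    have hbig : ∀ a, ∑ i, rrow (rpic αp s) (rlab D P) s a i *
        (rpic αp s).slo (rlab D P) (rrlb u w) a i = 0 := fun a =>
      congrFun (congrArg Prod.snd hw) a
    obtain ⟨h1, h2⟩ := rrg_const Fr he dw hp hu (x := w.2.2) (fun i => rfl) hsol hbig
    refine ⟨rrh (rrlb u w) (tp (cls αp) none 0), ?_⟩
    have h3 := Fr.rig.tp_ne none 0
    rw [hA]
    refine Prod.ext (funext fun v => ?_) (Prod.ext (funext fun a => ?_) h1.symm)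
    · exact h2 _ (some (inl v)) h3 (by simp)
    · exact h2 _ (some (inr a)) h3 (by simp)
  have hlim : ∀ w, Tendsto (fun ε => rrM αp s D u (pe P δ ε) w) (𝓝[>] (0 : ℝ))
      (𝓝 (rrM αp s D u P w)) := by
    intro w
    have h1 : Continuous fun ε : ℝ => rrM αp s D u (pe P δ ε) w := by
      refine (rrg_cont u w).comp ?_
      unfold pe
      fun_prop
    have h2 : pe P δ 0 = P := by
      funext v
      simp [pe]
    have h3 := (h1.tendsto 0).mono_left (nhdsWithin_le_nhds (s := Set.Ioi (0 : ℝ)))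
    rw [h2] at h3
    exact h3
  have hev := ker_le_range (M := fun ε => rrM αp s D u (pe P δ ε)) (M₀ := rrM αp s D u P)
    (a := fun _ => A) (a₀ := A) hlim (fun y => tendsto_const_nhds)
    (Eventually.of_forall hconst) hker
  filter_upwards [hev] with ε hε
  intro z hsol hbig ht
  obtain ⟨t, ht⟩ := ht
  have hz : rrlb u (z.n, z.f, t) = z := by
    have h1 : (fun (_ : Unit) (i : ZMod 4) => t * u i) = z.o := by
      funext a i
      exact (ht a i).symm
    cases z
    simp only [rrlb] at h1 ⊢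
    rw [h1]
  obtain ⟨y, hy⟩ := hε (z.n, z.f, t) (by
    refine Prod.ext (funext fun v => ?_) (funext fun a => ?_)
    · show (rpic αp s).row _ (rrlb u (z.n, z.f, t)).at v = 0
      rw [hz]
      exact hsol v
    · show ∑ i : ZMod 4, _ * (rpic αp s).slo _ (rrlb u (z.n, z.f, t)) a i = (0 : ℝ)
      rw [hz]
      exact hbig a)
  have hy1 : (fun _ => y) = z.n := congrArg Prod.fst hy
  have hy2 : (fun _ => y) = z.f := congrArg (fun q => q.2.1) hy
  have hy3 : (0 : ℝ) = t := congrArg (fun q => q.2.2) hy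
  refine ⟨![0, 0, y], ?_, ?_, ?_⟩
  · intro a
    rw [← hy1]
    simp [rlab, dot, hn]
  · intro a
    rw [← hy2]
    simp [rlab, dot, hn]
  · intro a i
    rw [ht a i, ← hy3, zero_mul]
    have h0 := dw.cfg.flat i
    simp [rlab, dot, h0]

end SN78
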