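import Pool.Agent.SN78.RFrame

/-!
# SN78 module RRUN: straight sticks in the closed map

A stick goes straight on through a site `v` with `sg v` along the darts `s v`, `s v + 2` (`Ps`).  It leaves
along a dart `d` and ends at the dart `en d`.  `nt α d = op (α d)`.

`en_nps`: the only nontrivial case is `Ps (α d)`, `Ps (α (nt d))`: then the edge of `nt d` is straight at
both ends, so by `st_two` it is the star edge `g = (t₁, s t₁ + 2)` or `α g`.  If `nt d = g` then the stick goes
on from `y = (α g).1` along `op (α g)`; this edge leads to a site `z ≠ inf` (`star_ne`, `a_inf`, `b_inf`), and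
it is not straight at `z` (by `st_two` it would be the star edge, but `y ≠ t₁`, and `z = t₁` would give
two edges between `t₁` and `y`).  If `nt d = α g` then the stick goes on from `t₁` along
`op g = (t₁, s t₁ + 4) = (t₁, s t₁)`, the port dart, which leads to `inf`.
`en_go`: if `Ps (α d)` both sides are computed by the definition; use `en_nps`-type argument for the case of
two further sites (the third site is never passed).
`en_en`: `Ps` of `α` of the reversed darts: `nt (α (nt d)) = op (α (α (nt d))) = op (nt d) = α d` (`op (op x) = x`), so the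
reversed run goes back; it ends at `d` since `¬ Ps d`.
`en_thru`: let `e = en (op d)`, then `en e`: the reversed run comes back to `op d`, passes the site
(`Ps d`, so also `Ps (op d)`) and goes on along `d`.
`en_inf`: from `d = (inf, i)`: `α d` is a port dart of `t = tp α inf (-i)`; if it is not passed we are done.
Otherwise the next site is `(α (op (α d))).1`, not `inf` (`simple`), not a port site (`through_ne`); if it is
passed, the next site is not `inf` by `a_inf`, `b_inf`.
`en_far`: `α d` is passed (otherwise `en d = α d`); the next site is not `inf` (`a_inf`, `b_inf`), so it is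
passed, too; by `st_two` the edge between the two sites is the star edge; the first site is not `t₁`,
so the second one is `t₁` and the stick goes on to port `1`.
-/

namespace SN78

variable {X : Type} {α : X × ZMod 4 → X × ZMod 4} {inf : X} {s : X → ZMod 4}
  {o : X × ZMod 4 → Bool} {sg : X → Prop}

private theorem rrun_22 : (2 : ZMod 4) + 2 = 0 := by decide

private theorem rrun_opop (d : X × ZMod 4) : op (op d) = d := by
  unfold op
  refine Prod.ext rfl ?_
  show d.2 + 2 + 2 = d.2
  rw [add_assoc, rrun_22, add_zero]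

private theorem rrun_op_ne (d : X × ZMod 4) : op d ≠ d := by
  intro h
  have h1 : d.2 + 2 = d.2 := congrArg Prod.snd h
  have h2 : (2 : ZMod 4) = 0 := by
    have := congrArg (fun x => x - d.2) h1
    simpa using this
  exact absurd h2 (by decide)

private theorem rrun_op_mk (u : X) (i : ZMod 4) : op (u, i) = (u, i + 2) := rfl

private theorem rrun_op_mk2 (u : X) (i : ZMod 4) : op (u, i + 2) = (u, i) := by
  unfold op
  refine Prod.ext rfl ?_
  show i + 2 + 2 = i
  rw [add_assoc, rrun_22, add_zero]

private theorem rrun_st_op {d : X × ZMod 4} (h : St s d) : St s (op d) := by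
  rcases h with h | h
  · right
    show d.2 + 2 = s d.1 + 2
    rw [h]
  · left
    show d.2 + 2 = s d.1
    rw [h, add_assoc, rrun_22, add_zero]

private theorem rrun_ps_op {d : X × ZMod 4} (h : Ps sg inf s d) : Ps sg inf s (op d) :=
  ⟨h.1, h.2.1, rrun_st_op h.2.2⟩

private theorem rrun_ps_nt {d : X × ZMod 4} (h : Ps sg inf s (α d)) : Ps sg inf s (nt α d) :=
  rrun_ps_op h

private theorem rrun_nt_rev (inv : ∀ d, α (α d) = d) (d : X × ZMod 4) :
    nt α (α (nt α d)) = α d := by
  show op (α (α (nt α d))) = α d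
  rw [inv]
  exact rrun_opop (α d)

private theorem rrun_en1 {d : X × ZMod 4} (h : Ps sg inf s (α d))
    (h2 : ¬ Ps sg inf s (α (nt α d))) : en α sg inf s d = α (nt α d) := by
  unfold en
  rw [if_pos h, if_neg h2]

private theorem rrun_en2 {d : X × ZMod 4} (h : Ps sg inf s (α d))
    (h2 : Ps sg inf s (α (nt α d))) : en α sg inf s d = α (nt α (nt α d)) := by
  unfold en
  rw [if_pos h, if_pos h2]

theorem en_stop {d : X × ZMod 4} (h : ¬ Ps sg inf s (α d)) : en α sg inf s d = α d := by
  unfold en
  rw [if_neg h]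

/-- a dart which is not passed at a single site is one of the two bent darts -/
theorem nps_bent {d : X × ZMod 4} (h : ¬ Ps sg inf s d) (h1 : d.1 ≠ inf) (h2 : sg d.1) :
    d = (d.1, s d.1 + 1) ∨ d = (d.1, s d.1 + 3) := by
  have h3 : ¬ St s d := fun h3 => h ⟨h1, h2, h3⟩
  have key : ∀ a b : ZMod 4, ¬ (a = b ∨ a = b + 2) → a = b + 1 ∨ a = b + 3 := by decide
  rcases key d.2 (s d.1) h3 with e | e
  · left; exact Prod.ext rfl e
  · right; exact Prod.ext rfl e

variable [Fintype X]

/-- a stick does not go through three sites -/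
private theorem rrun_three (F : Frame α inf o s) {d : X × ZMod 4} (h1 : Ps sg inf s (α d))
    (h2 : Ps sg inf s (α (nt α d))) : ¬ Ps sg inf s (α (nt α (nt α d))) := by
  intro h3
  set e := nt α d with he
  have e1 : Ps sg inf s e := rrun_ps_nt h1
  set f := nt α e with hf
  have f1 : Ps sg inf s f := rrun_ps_nt h2
  rcases F.st_two e1.1 h2.1 e1.2.2 h2.2.2 with g | g
  · rcases F.st_two f1.1 h3.1 f1.2.2 h3.2.2 with g' | g'
    · have h4 : (α e).1 = e.1 := by
        show f.1 = e.1
        rw [g', g]
      exact F.rig.noloop e h4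
    · have h4 : α f = e := by rw [g', g]
      have h5 : f = α e := by rw [← h4, F.rig.inv]
      exact rrun_op_ne (α e) h5
  · have h4 : f = (tp α inf 1, s (tp α inf 1)) := by
      rw [hf]
      show op (α e) = _
      rw [g, rrun_op_mk2]
    apply h3.1
    rw [h4, ← F.port_eq (k := 1) (by decide), F.rig.inv]

theorem Frame.en_nps (F : Frame α inf o s) (d : X × ZMod 4) :
    ¬ Ps sg inf s (en α sg inf s d) := by
  by_cases h1 : Ps sg inf s (α d)
  · by_cases h2 : Ps sg inf s (α (nt α d))
    · rw [rrun_en2 h1 h2]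
      exact rrun_three F h1 h2
    · rw [rrun_en1 h1 h2]
      exact h2
  · rw [en_stop h1]
    exact h1

theorem Frame.en_go (F : Frame α inf o s) {d : X × ZMod 4} (h : Ps sg inf s (α d)) :
    en α sg inf s d = en α sg inf s (nt α d) := by
  by_cases h2 : Ps sg inf s (α (nt α d))
  · rw [rrun_en2 h h2, rrun_en1 h2 (rrun_three F h h2)]
  · rw [rrun_en1 h h2, en_stop h2]

private theorem rrun_back (F : Frame α inf o s) (d : X × ZMod 4) :
    en α sg inf s (en α sg inf s d) = en α sg inf s (α d) := by
  by_cases h1 : Ps sg inf s (α d)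
  · by_cases h2 : Ps sg inf s (α (nt α d))
    · rw [rrun_en2 h1 h2, F.en_go (d := α (nt α (nt α d))), rrun_nt_rev F.rig.inv,
        F.en_go (d := α (nt α d)), rrun_nt_rev F.rig.inv]
      · rw [F.rig.inv]; exact rrun_ps_nt h1
      · rw [F.rig.inv]; exact rrun_ps_nt h2
    · rw [rrun_en1 h1 h2, F.en_go (d := α (nt α d)), rrun_nt_rev F.rig.inv]
      rw [F.rig.inv]; exact rrun_ps_nt h1
  · rw [en_stop h1]

theorem Frame.en_en (F : Frame α inf o s) {d : X × ZMod 4} (h : ¬ Ps sg inf s d) :
    en α sg inf s (en α sg inf s d) = d := by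
  rw [rrun_back F, en_stop (by rw [F.rig.inv]; exact h), F.rig.inv]

theorem Frame.en_thru (F : Frame α inf o s) {d : X × ZMod 4} (h : Ps sg inf s d) :
    en α sg inf s (en α sg inf s (op d)) = en α sg inf s d := by
  rw [rrun_back F, F.en_go (by rw [F.rig.inv]; exact rrun_ps_op h)]
  show en α sg inf s (op (α (α (op d)))) = _
  rw [F.rig.inv, rrun_opop]

theorem Frame.en_inf (F : Frame α inf o s) {d : X × ZMod 4} (h : d.1 = inf) :
    (en α sg inf s d).1 ≠ inf := by
  have hd : d = (inf, d.2) := Prod.ext h rfl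
  by_cases h1 : Ps sg inf s (α d)
  · by_cases h2 : Ps sg inf s (α (nt α d))
    · rw [rrun_en2 h1 h2]
      have f1 : Ps sg inf s (nt α (nt α d)) := rrun_ps_nt h2
      have hne : ∀ k, (nt α (nt α d)).1 ≠ tp α inf k := by
        intro k
        have := F.through_ne d.2 k
        rw [← hd] at this
        exact this
      intro h3
      rcases f1.2.2 with e | e
      · have e2 : nt α (nt α d) = ((nt α (nt α d)).1, s (nt α (nt α d)).1) := Prod.ext rfl e
        rw [e2] at h3
        obtain ⟨k, -, hk⟩ := (F.a_inf f1.1).1 h3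
        exact hne k hk
      · have e2 : nt α (nt α d) = ((nt α (nt α d)).1, s (nt α (nt α d)).1 + 2) := Prod.ext rfl e
        rw [e2] at h3
        exact F.b_inf f1.1 h3
    · rw [rrun_en1 h1 h2]
      intro h3
      have h4 : d = α (nt α d) := F.rig.simple (d := d) (d' := α (nt α d)) (h.trans h3.symm)
        (by rw [F.rig.inv]; rfl)
      have h5 : α d = nt α d := by
        have := congrArg α h4
        rwa [F.rig.inv] at this
      exact rrun_op_ne (α d) h5.symm
  · rw [en_stop h1]
    have := F.rig.noloop d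
    rwa [h] at this

/-- only port `1` can be reached through a site which is not a port site -/
theorem Frame.en_far (F : Frame α inf o s) {d : X × ZMod 4} (h1 : (α d).1 ≠ inf)
    (h2 : ∀ k, (α d).1 ≠ tp α inf k) (h3 : (en α sg inf s d).1 = inf) :
    en α sg inf s d = (inf, -1) := by
  by_cases p1 : Ps sg inf s (α d)
  · have e1 : Ps sg inf s (nt α d) := rrun_ps_nt p1
    by_cases p2 : Ps sg inf s (α (nt α d))
    · rw [rrun_en2 p1 p2]
      rcases F.st_two e1.1 p2.1 e1.2.2 p2.2.2 with g | g
      · exfalso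
        apply h2 1
        show (nt α d).1 = _
        rw [g]
      · have h4 : nt α (nt α d) = (tp α inf 1, s (tp α inf 1)) := by
          show op (α (nt α d)) = _
          rw [g, rrun_op_mk2]
        rw [h4, ← F.port_eq (k := 1) (by decide), F.rig.inv]
    · rw [rrun_en1 p1 p2] at h3
      exfalso
      rcases e1.2.2 with e | e
      · have e2 : nt α d = ((nt α d).1, s (nt α d).1) := Prod.ext rfl e
        rw [e2] at h3
        obtain ⟨k, -, hk⟩ := (F.a_inf e1.1).1 h3
        exact h2 k hk
      · have e2 : nt α d = ((nt α d).1, s (nt α d).1 + 2) := Prod.ext rfl e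
        rw [e2] at h3
        exact F.b_inf e1.1 h3
  · rw [en_stop p1] at h3
    exact absurd h3 h1

theorem Frame.run_en (F : Frame α inf o s) {d g : X × ZMod 4} (hg : InRun α sg inf s d g) :
    en α sg inf s g = en α sg inf s d := by
  rcases hg with rfl | ⟨h1, rfl⟩ | ⟨h1, h2, rfl⟩
  · rfl
  · exact (F.en_go h1).symm
  · rw [F.en_go h1, F.en_go h2]

theorem Frame.run_mid (F : Frame α inf o s) {d g : X × ZMod 4} (hg : InRun α sg inf s d g)
    (hne : g ≠ d) : Ps sg inf s g := by
  have _ := F
  rcases hg with rfl | ⟨h1, rfl⟩ | ⟨h1, h2, rfl⟩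
  · exact absurd rfl hne
  · exact rrun_ps_nt h1
  · exact rrun_ps_nt h2

theorem Frame.run_end (F : Frame α inf o s) {d g : X × ZMod 4} (hg : InRun α sg inf s d g) :
    α g = en α sg inf s d ∨ (Ps sg inf s (α g) ∧ InRun α sg inf s d (nt α g)) := by
  have _ := F
  rcases hg with rfl | ⟨h1, rfl⟩ | ⟨h1, h2, rfl⟩
  · by_cases h1 : Ps sg inf s (α g)
    · exact Or.inr ⟨h1, Or.inr (Or.inl ⟨h1, rfl⟩)⟩
    · exact Or.inl (en_stop h1).symm
  · by_cases h2 : Ps sg inf s (α (nt α d))
    · exact Or.inr ⟨h2, Or.inr (Or.inr ⟨h1, h2, rfl⟩)⟩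
    · exact Or.inl (rrun_en1 h1 h2).symm
  · exact Or.inl (rrun_en2 h1 h2).symm

theorem Frame.run_rev (F : Frame α inf o s) {d g : X × ZMod 4} (hd : ¬ Ps sg inf s d)
    (hg : InRun α sg inf s d g) : InRun α sg inf s (en α sg inf s d) (α g) := by
  have _ := hd
  have inv := F.rig.inv
  have rev := rrun_nt_rev inv
  by_cases p1 : Ps sg inf s (α d)
  · by_cases p2 : Ps sg inf s (α (nt α d))
    · rw [rrun_en2 p1 p2]
      have q1 : Ps sg inf s (α (α (nt α (nt α d)))) := by rw [inv]; exact rrun_ps_nt p2
      have r1 : nt α (α (nt α (nt α d))) = α (nt α d) := rev _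
      have q2 : Ps sg inf s (α (nt α (α (nt α (nt α d))))) := by
        rw [r1, inv]; exact rrun_ps_nt p1
      have r2 : nt α (nt α (α (nt α (nt α d)))) = α d := by rw [r1, rev]
      rcases hg with rfl | ⟨h1, rfl⟩ | ⟨h1, h2, rfl⟩
      · exact Or.inr (Or.inr ⟨q1, q2, r2.symm⟩)
      · exact Or.inr (Or.inl ⟨q1, r1.symm⟩)
      · exact Or.inl rfl
    · rw [rrun_en1 p1 p2]
      have q1 : Ps sg inf s (α (α (nt α d))) := by rw [inv]; exact rrun_ps_nt p1
      have r1 : nt α (α (nt α d)) = α d := rev _
      rcases hg with rfl | ⟨h1, rfl⟩ | ⟨h1, h2, rfl⟩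
      · exact Or.inr (Or.inl ⟨q1, r1.symm⟩)
      · exact Or.inl rfl
      · exact absurd h2 p2
  · rw [en_stop p1]
    rcases hg with rfl | ⟨h1, rfl⟩ | ⟨h1, h2, rfl⟩
    · exact Or.inl rfl
    · exact absurd h1 p1
    · exact absurd h1 p1

theorem Frame.run_back (F : Frame α inf o s) {d g : X × ZMod 4} (hd : ¬ Ps sg inf s d)
    (hg : InRun α sg inf s d g) (hp : Ps sg inf s g) : en α sg inf s (op g) = d := by
  have inv := F.rig.inv
  have h0 : en α sg inf s (α d) = d := by
    rw [en_stop (by rw [inv]; exact hd), inv]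
  rcases hg with rfl | ⟨h1, rfl⟩ | ⟨h1, h2, rfl⟩
  · exact absurd hp hd
  · show en α sg inf s (op (op (α d))) = d
    rw [rrun_opop, h0]
  · show en α sg inf s (op (op (α (nt α d)))) = d
    rw [rrun_opop, F.en_go (by rw [inv]; exact rrun_ps_nt h1), rrun_nt_rev inv, h0]

/-- the sites of a stick are its ends and the sites it passes -/
theorem Frame.run_site (F : Frame α inf o s) {d g : X × ZMod 4} (hd : ¬ Ps sg inf s d)
    (hg : InRun α sg inf s d g) {u : X} (hu : u ≠ inf) (h : u = g.1 ∨ u = (α g).1) :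
    u = d.1 ∨ u = (en α sg inf s d).1 ∨ (sg u ∧
      ((d = en α sg inf s (u, s u) ∧ en α sg inf s d = en α sg inf s (u, s u + 2)) ∨
       (d = en α sg inf s (u, s u + 2) ∧ en α sg inf s d = en α sg inf s (u, s u)))) := by
  have _ := hu
  have key : ∀ g, InRun α sg inf s d g → u = g.1 →
      u = d.1 ∨ u = (en α sg inf s d).1 ∨ (sg u ∧
      ((d = en α sg inf s (u, s u) ∧ en α sg inf s d = en α sg inf s (u, s u + 2)) ∨
       (d = en α sg inf s (u, s u + 2) ∧ en α sg inf s d = en α sg inf s (u, s u)))) := by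
    intro g hg h
    by_cases hgd : g = d
    · left; rw [h, hgd]
    · right; right
      have hp := F.run_mid hg hgd
      have h1 := F.run_en hg
      have h2 := F.run_back hd hg hp
      subst h
      refine ⟨hp.2.1, ?_⟩
      rcases hp.2.2 with e | e
      · right
        have e1 : g = (g.1, s g.1) := Prod.ext rfl e
        constructor
        · rw [← rrun_op_mk, ← e1, h2]
        · rw [← e1, h1]
      · left
        have e1 : g = (g.1, s g.1 + 2) := Prod.ext rfl e
        constructor
        · rw [← rrun_op_mk2, ← e1, h2]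
        · rw [← e1, h1]
  rcases h with h | h
  · exact key g hg h
  · rcases F.run_end hg with h1 | ⟨h1, h2⟩
    · right; left; rw [h, h1]
    · exact key (nt α g) h2 h

/-- Two different sticks which do not end at the same site and do not cross have no common site, or one
of them ends at the outer bent dart of a site passed by the other. -/
theorem Frame.touch (F : Frame α inf o s) {d d' : X × ZMod 4} (hd : ¬ Ps sg inf s d)
    (hd' : ¬ Ps sg inf s d') (h1 : d' ≠ d) (h2 : d' ≠ en α sg inf s d)
    (he : ∀ e e', (e = d ∨ e = en α sg inf s d) → (e' = d' ∨ e' = en α sg inf s d') →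
      e.1 ≠ inf → e.1 ≠ e'.1)
    (hc : ∀ w, w ≠ inf → sg w → (d = en α sg inf s (w, s w) ∨ d = en α sg inf s (w, s w + 2)) →
      d' ≠ (w, s w + 3) ∧ en α sg inf s d' ≠ (w, s w + 3))
    (hc' : ∀ w, w ≠ inf → sg w → (d' = en α sg inf s (w, s w) ∨ d' = en α sg inf s (w, s w + 2)) →
      d ≠ (w, s w + 3) ∧ en α sg inf s d ≠ (w, s w + 3)) :
    (∀ g g', InRun α sg inf s d g → InRun α sg inf s d' g' → ∀ u, u ≠ inf →
      ¬ ((u = g.1 ∨ u = (α g).1) ∧ (u = g'.1 ∨ u = (α g').1))) ∨
    (∃ w, w ≠ inf ∧ sg w ∧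
      ((d = en α sg inf s (w, s w) ∧ en α sg inf s d = en α sg inf s (w, s w + 2)) ∨
       (d = en α sg inf s (w, s w + 2) ∧ en α sg inf s d = en α sg inf s (w, s w))) ∧
      (d' = (w, s w + 1) ∨ en α sg inf s d' = (w, s w + 1))) ∨
    (∃ w, w ≠ inf ∧ sg w ∧
      ((d' = en α sg inf s (w, s w) ∧ en α sg inf s d' = en α sg inf s (w, s w + 2)) ∨
       (d' = en α sg inf s (w, s w + 2) ∧ en α sg inf s d' = en α sg inf s (w, s w))) ∧
      (d = (w, s w + 1) ∨ en α sg inf s d = (w, s w + 1))) := by
  by_contra hcon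
  push Not at hcon
  obtain ⟨⟨g, g', hg, hg', u, hu, hug, hug'⟩, hn1, hn2⟩ := hcon
  have hn := F.en_nps (sg := sg) d
  have hn' := F.en_nps (sg := sg) d'
  -- one stick ends at a site which is passed by the other one
  have key : ∀ {d d' : X × ZMod 4}, ¬ Ps sg inf s d → ¬ Ps sg inf s (en α sg inf s d) →
      (u = d.1 ∨ u = (en α sg inf s d).1) → sg u →
      ((d' = en α sg inf s (u, s u) ∧ en α sg inf s d' = en α sg inf s (u, s u + 2)) ∨
       (d' = en α sg inf s (u, s u + 2) ∧ en α sg inf s d' = en α sg inf s (u, s u))) →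
      (∀ w, w ≠ inf → sg w → (d' = en α sg inf s (w, s w) ∨ d' = en α sg inf s (w, s w + 2)) →
        d ≠ (w, s w + 3) ∧ en α sg inf s d ≠ (w, s w + 3)) →
      d = (u, s u + 1) ∨ en α sg inf s d = (u, s u + 1) := by
    intro d d' a1 a2 a3 a4 a5 a6
    have a7 := a6 u hu a4 (a5.imp And.left And.left)
    rcases a3 with a3 | a3
    · left
      rcases nps_bent a1 (by rw [← a3]; exact hu) (by rw [← a3]; exact a4) with b | b
      · rw [← a3] at b; exact b
      · rw [← a3] at b; exact absurd b a7.1
    · right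
      rcases nps_bent a2 (by rw [← a3]; exact hu) (by rw [← a3]; exact a4) with b | b
      · rw [← a3] at b; exact b
      · rw [← a3] at b; exact absurd b a7.2
  have ends : (u = d.1 ∨ u = (en α sg inf s d).1) → (u = d'.1 ∨ u = (en α sg inf s d').1) →
      False := by
    intro b1 b2
    rcases b1 with b1 | b1 <;> rcases b2 with b2 | b2
    · exact he d d' (Or.inl rfl) (Or.inl rfl) (by rw [← b1]; exact hu) (by rw [← b1, ← b2])
    · exact he d _ (Or.inl rfl) (Or.inr rfl) (by rw [← b1]; exact hu) (by rw [← b1, ← b2])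
    · exact he _ d' (Or.inr rfl) (Or.inl rfl) (by rw [← b1]; exact hu) (by rw [← b1, ← b2])
    · exact he _ _ (Or.inr rfl) (Or.inr rfl) (by rw [← b1]; exact hu) (by rw [← b1, ← b2])
  have c1 := F.run_site hd hg hu hug
  have c2 := F.run_site hd' hg' hu hug'
  rw [← or_assoc] at c1 c2
  rcases c1 with c1 | ⟨su, c1⟩
  · rcases c2 with c2 | ⟨su, c2⟩
    · exact ends c1 c2
    · rcases key hd hn c1 su c2 hc' with b | b
      · exact (hn2 u hu su c2).1 b
      · exact (hn2 u hu su c2).2 b
  · rcases c2 with c2 | ⟨-, c2⟩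
    · rcases key hd' hn' c2 su c1 hc with b | b
      · exact (hn1 u hu su c1).1 b
      · exact (hn1 u hu su c1).2 b
    · rcases c1 with ⟨x1, x2⟩ | ⟨x1, x2⟩ <;> rcases c2 with ⟨y1, y2⟩ | ⟨y1, y2⟩
      · exact h1 (by rw [x1, y1])
      · exact h2 (by rw [x2, y1])
      · exact h2 (by rw [x2, y1])
      · exact h1 (by rw [x1, y1])

end SN78
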