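import Pool.Agent.SN78.RFrame

/-!
# SN78 module RSEP: a set of sites with at most two sites seen by its outgoing edges

`sep`: let `S` be a nonempty set of sites not containing `inf` and the sites of the ports `0, 1, 2`;
let `Y` be disjoint from `S`, `card Y ≤ 2`, `inf ∉ Y`, such that all outgoing (`o d = true`) edges of
`S` end in `S ∪ Y`.  Then `S` has only one element.

Proof.  Strong induction on `card S`.  Let `n` be the number of outgoing edges from `S` to `Y`; by
`balance`, `cut S = 2 n`.  Each `y ∈ Y` has only two ingoing darts, so `n ≤ 4`.  Suppose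
`2 ≤ card S`.  The complement of `S` contains `inf` and three port sites, so `cut6` gives
`n ∈ {3, 4}`.  In particular `Y = {y₁, y₂}` has two elements, and at least one of them, say `y₁`,
has both ingoing darts coming from `S`.

(1) `S` is not connected: `S = S₁ ∪ S₂`, disjoint nonempty without edges between them.  By induction
`S₁ = {v}, S₂ = {v'}` (same `Y`).  The outgoing edges of `v` and of `v'` go to `y₁` and `y₂` (`simple`),
so `n = 4` and the four ingoing darts of `y₁, y₂` are used.  Let `c` be the indicator of the four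
edges `v - y₁ - v' - y₂ - v`; its two darts at each of the four sites are opposite.  `Rigid.homology`
gives `w` and sides as in the proof of `Rigid.tl`: for sites `x` outside the cycle `w` is constant on the
darts of `x`; let `A ρ` be the set of these sites on the side `ρ`.  On each side there is exactly one
dart of each of the four sites, and these do not lead to one of the four sites: `v, v'` are not
neighbours, `y₁, y₂` are not neighbours (their ingoing darts come from `v, v'`), and `simple`.  So
`cut (A ρ) = 4` for both `ρ`, `A ρ` is not empty, and `card (A ρ) ≤ 1` by `cut6` (the complement has at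
least four elements).  For the side of `inf` we get `A ρ = {inf}`, so the four port sites are
`v, v', y₁, y₂`; then `v` or `v'` is the site of one of the ports `0, 1, 2`, contradiction.

(2) `S` is connected (there is no such decomposition).  Let `y ∈ Y` be such that both ingoing darts
`e, e'` (`e' = op e`) of `y` come from `S`, and `y'` the other element of `Y`.  Since `S` is connected
there is a function `c₀` of darts mod 2, invariant under `α`, supported on inner edges of `S`, with
site sums `0` except at the sites of `α e`, `α e'` (if these are different; `c₀ = 0` otherwise): the set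
of `x ∈ S` for which there is such a `c₀` for `(α e).1, x` is closed under neighbours in `S`.  Add the
edges `e, e'`; `homology` gives `w`.  Let `A ρ` be the set of sites not in `S ∪ {y}` on the side `ρ`.
Let `y'` be on the side `ρ'` and `ρ = ρ' + 1`.  The edges leaving `A ρ` go to `S ∪ {y}`.  Edges between `S`
and `A ρ` are not outgoing from `S` (they would end in `y` or `y'`), so the only outgoing (`o = true`) dart
outside `A ρ` leading to `A ρ` is the outgoing dart `g` of `y` on the side `ρ` (`y` has one outgoing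
dart on each side, since `e, e'` are opposite).  So by `balance` `cut (A ρ) ≤ 2`, and `A ρ` is empty.
So `g` leads to `S` (not to `y' `, which is on the other side).
 * If `n = 3`: let `S' = S ∪ {y}`.  Its outgoing darts leaving `S'` are the one from `S` to `y'`, and at
   most one of `y` (namely `op g`).  So `cut S' ≤ 4`, but `card S' ≥ 2` and the complement contains `inf` and
   two of the three port sites: contradiction to `cut6`.
 * If `n = 4`: the same argument for `y'` gives an outgoing dart of `y'` leading to `S`.  Let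
   `S' = S ∪ {y, y'}`; the outgoing darts leaving `S'` are among the four outgoing darts of `y, y'`,
   two of them go to `S`.  So `cut S' ≤ 4`, but `card S' ≥ 2` and the complement contains `inf` and one
   of the three port sites: contradiction to `cut6`.
-/

namespace SN78

variable {X : Type} [Fintype X] {α : X × ZMod 4 → X × ZMod 4} {inf : X}
  {o : X × ZMod 4 → Bool} {s : X → ZMod 4}

section aux

omit [Fintype X]

private theorem rs_z4 (j : ZMod 4) : j = 0 ∨ j = 1 ∨ j = 2 ∨ j = 3 := by
  revert j; decide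

private theorem rs_z2 (j : ZMod 2) : j = 0 ∨ j = 1 := by
  revert j; decide

private theorem rs_op_op (d : X × ZMod 4) : op (op d) = d := by
  unfold op
  refine Prod.ext rfl ?_
  show d.2 + 2 + 2 = d.2
  have : (2 : ZMod 4) + 2 = 0 := by decide
  rw [add_assoc, this, add_zero]

private theorem rs_pv_nx (d : X × ZMod 4) : pv (nx d) = d := by
  simp [pv, nx]

private theorem rs_nx_pv (d : X × ZMod 4) : nx (pv d) = d := by
  simp [pv, nx]

private theorem rs_pv_op (d : X × ZMod 4) : pv (op d) = nx d := by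
  unfold op pv nx
  refine Prod.ext rfl ?_
  show d.2 + 2 - 1 = d.2 + 1
  have : (2 : ZMod 4) - 1 = 1 := by decide
  rw [add_sub_assoc, this]

private theorem rs_pv_pv (d : X × ZMod 4) : pv (pv d) = op d := by
  unfold op pv
  refine Prod.ext rfl ?_
  show d.2 - 1 - 1 = d.2 + 2
  have : (-1 : ZMod 4) - 1 = 2 := by decide
  rw [sub_eq_add_neg, sub_eq_add_neg, add_assoc, ← sub_eq_add_neg, this]

private theorem rs_cases {d d' : X × ZMod 4} (h : d'.1 = d.1) :
    d' = d ∨ d' = nx d ∨ d' = op d ∨ d' = pv d := by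
  have h1 : d' = (d.1, d.2 + (d'.2 - d.2)) := Prod.ext h (by simp)
  rcases rs_z4 (d'.2 - d.2) with e | e | e | e <;> rw [e] at h1
  · left; rw [h1]; simp
  · right; left; rw [h1]; rfl
  · right; right; left; rw [h1]; rfl
  · right; right; right; rw [h1]
    refine Prod.ext rfl ?_
    show d.2 + 3 = d.2 - 1
    have : (3 : ZMod 4) = -1 := by decide
    rw [this, ← sub_eq_add_neg]

private theorem rs_ne_nx (d : X × ZMod 4) : nx d ≠ d := by
  intro h
  have := congrArg Prod.snd h
  simp only [nx] at this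
  have h2 : (1 : ZMod 4) = 0 := by
    have := congrArg (fun x => x - d.2) this
    simpa using this
  exact absurd h2 (by decide)

private theorem rs_ne_op (d : X × ZMod 4) : op d ≠ d := by
  intro h
  have := congrArg Prod.snd h
  simp only [op] at this
  have h2 : (2 : ZMod 4) = 0 := by
    have := congrArg (fun x => x - d.2) this
    simpa using this
  exact absurd h2 (by decide)

private theorem rs_o_pv (onx : ∀ d, o (nx d) = !o d) (d : X × ZMod 4) : o (pv d) = !o d := by
  have := onx (pv d)
  rw [rs_nx_pv] at this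
  rw [this]; simp

private theorem rs_o_op (onx : ∀ d, o (nx d) = !o d) (d : X × ZMod 4) : o (op d) = o d := by
  rw [← rs_pv_pv, rs_o_pv onx, rs_o_pv onx]; simp

private theorem rs_two (onx : ∀ d, o (nx d) = !o d) {d d' : X × ZMod 4} (h : d'.1 = d.1)
    (ho : o d' = o d) : d' = d ∨ d' = op d := by
  rcases rs_cases h with e | e | e | e
  · exact Or.inl e
  · exfalso; rw [e, onx] at ho; simp at ho
  · exact Or.inr e
  · exfalso; rw [e, rs_o_pv onx] at ho; simp at ho

/-- if the two opposite darts `e`, `op e` are on the cycle then there is at most one dart off the cycle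
on each side -/
private theorem rs_inj {c w : X × ZMod 4 → ZMod 2} (hw : ∀ d, w d + w (pv d) = c d)
    {e : X × ZMod 4} (h1 : c e = 1) (h2 : c (op e) = 1) {d d' : X × ZMod 4} (hd : d.1 = e.1)
    (hd' : d'.1 = e.1) (c1 : c d = 0) (c2 : c d' = 0) (hww : w d = w d') : d = d' := by
  have key : ∀ a b x y : ZMod 2, a + b = 0 → x + y = 0 → y + a = 1 → a ≠ x := by decide
  have key2 : c (nx e) = 0 → c (pv e) = 0 → w (nx e) ≠ w (pv e) := by
    intro g1 g2
    have a1 := hw (nx e)
    have a2 := hw (pv e)
    have a3 := hw (op e)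
    rw [rs_pv_nx, g1] at a1
    rw [rs_pv_pv, g2] at a2
    rw [rs_pv_op, h2] at a3
    exact key _ _ _ _ a1 a2 a3
  have z : (1 : ZMod 2) ≠ 0 := by decide
  rcases rs_cases hd with r | r | r | r
  · rw [r, h1] at c1; exact absurd c1 z
  · rcases rs_cases hd' with q | q | q | q
    · rw [q, h1] at c2; exact absurd c2 z
    · rw [r, q]
    · rw [q, h2] at c2; exact absurd c2 z
    · rw [r] at hww c1; rw [q] at hww c2
      exact absurd hww (key2 c1 c2)
  · rw [r, h2] at c1; exact absurd c1 z
  · rcases rs_cases hd' with q | q | q | q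
    · rw [q, h1] at c2; exact absurd c2 z
    · rw [r] at hww c1; rw [q] at hww c2
      exact absurd hww.symm (key2 c2 c1)
    · rw [q, h2] at c2; exact absurd c2 z
    · rw [r, q]

/-- off the cycle the two ends of an edge are on the same side -/
private theorem rs_side {c w : X × ZMod 4 → ZMod 2} (hc : ∀ d, c (α d) = c d)
    (hf : ∀ d, w (fs α d) = w d) (hw : ∀ d, w d + w (pv d) = c d) {d : X × ZMod 4}
    (h : c d = 0) : w (α d) = w d := by
  have h1 := hw (α d)
  rw [hc, h] at h1
  have h2 : w (pv (α d)) = w d := hf d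
  rw [h2] at h1
  have key : ∀ a b : ZMod 2, a + b = 0 → a = b := by decide
  exact key _ _ h1

/-- a site off the cycle is on one side -/
private theorem rs_const {c w : X × ZMod 4 → ZMod 2} (hw : ∀ d, w d + w (pv d) = c d) {x : X}
    (h : ∀ i, c (x, i) = 0) (i : ZMod 4) : w (x, i) = w (x, 0) := by
  have key : ∀ a b : ZMod 2, a + b = 0 → a = b := by decide
  have h1 : ∀ i : ZMod 4, w (x, i + 1) = w (x, i) := by
    intro i
    have := hw (x, i + 1)
    rw [h] at this
    have e : pv (x, i + 1) = (x, i) := by simp [pv]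
    rw [e] at this
    exact key _ _ this
  have a1 := h1 0
  have a2 := h1 1
  have a3 := h1 2
  have e1 : (0 : ZMod 4) + 1 = 1 := by decide
  have e2 : (1 : ZMod 4) + 1 = 2 := by decide
  have e3 : (2 : ZMod 4) + 1 = 3 := by decide
  rw [e1] at a1
  rw [e2] at a2
  rw [e3] at a3
  rcases rs_z4 i with rfl | rfl | rfl | rfl
  · rfl
  · exact a1
  · rw [a2, a1]
  · rw [a3, a2, a1]

open Classical in
private noncomputable def rsInd (g d : X × ZMod 4) : ZMod 2 := if d = g then 1 else 0

private theorem rs_ind_self (g : X × ZMod 4) : rsInd g g = 1 := by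
  unfold rsInd; simp

private theorem rs_ind_ne {g d : X × ZMod 4} (h : d ≠ g) : rsInd g d = 0 := by
  unfold rsInd; rw [if_neg h]

private theorem rs_ind_ne1 {g d : X × ZMod 4} (h : d.1 ≠ g.1) : rsInd g d = 0 :=
  rs_ind_ne fun e => h (by rw [e])

open Classical in
private theorem rs_ind_sum (g : X × ZMod 4) (v : X) :
    ∑ i : ZMod 4, rsInd g (v, i) = if v = g.1 then 1 else 0 := by
  by_cases h : v = g.1
  · rw [if_pos h]
    have : ∀ i : ZMod 4, rsInd g (v, i) = if i = g.2 then 1 else 0 := by
      intro i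
      unfold rsInd
      by_cases hi : i = g.2
      · rw [if_pos hi, if_pos (Prod.ext h hi)]
      · rw [if_neg hi, if_neg (fun e => hi (congrArg Prod.snd e))]
    rw [Finset.sum_congr rfl fun i _ => this i]
    simp
  · rw [if_neg h]
    exact Finset.sum_eq_zero fun i _ => rs_ind_ne1 h

private theorem rs_ind_al (inv : ∀ d, α (α d) = d) (g d : X × ZMod 4) :
    rsInd g (α d) = rsInd (α g) d := by
  unfold rsInd
  by_cases h : α d = g
  · rw [if_pos h, if_pos (by rw [← h, inv])]
  · rw [if_neg h, if_neg (fun e => h (by rw [e, inv]))]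

end aux

/-- the case of a disconnected set -/
private theorem rs_disc (F : Frame α inf o s) {v v' y₁ y₂ : X} (hvv : v ≠ v') (hyy : y₁ ≠ y₂)
    (h11 : v ≠ y₁) (h12 : v ≠ y₂) (h21 : v' ≠ y₁) (h22 : v' ≠ y₂)
    (hv : v ≠ inf) (hv' : v' ≠ inf) (hy1 : y₁ ≠ inf) (hy2 : y₂ ≠ inf)
    (ht : ∀ k : ZMod 4, k ≠ 3 → tp α inf k ≠ v ∧ tp α inf k ≠ v')
    (hout : ∀ d : X × ZMod 4, d.1 = v ∨ d.1 = v' → o d = true → (α d).1 = y₁ ∨ (α d).1 = y₂) :
    False := by
  classical
  have R := F.rig
  -- the outgoing darts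
  have hex : ∀ x : X, (x = v ∨ x = v') → ∃ a : X × ZMod 4, a.1 = x ∧ o a = true ∧
      (α a).1 = y₁ ∧ (α (op a)).1 = y₂ := by
    intro x hx
    have h0 : ∃ a : X × ZMod 4, a.1 = x ∧ o a = true := by
      by_cases h : o (x, 0) = true
      · exact ⟨(x, 0), rfl, h⟩
      · refine ⟨nx (x, 0), rfl, ?_⟩
        rw [F.onx]; simpa using h
    obtain ⟨a, ha, hoa⟩ := h0
    have hop : o (op a) = true := by rw [rs_o_op F.onx, hoa]
    have b1 := hout a (by rw [ha]; exact hx) hoa
    have b2 := hout (op a) (by show a.1 = v ∨ a.1 = v'; rw [ha]; exact hx) hop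
    have b3 : (α a).1 ≠ (α (op a)).1 := fun e =>
      rs_ne_op a (R.simple (d := a) (d' := op a) rfl e).symm
    rcases b1 with b1 | b1 <;> rcases b2 with b2 | b2
    · exact absurd (b1.trans b2.symm) b3
    · exact ⟨a, ha, hoa, b1, b2⟩
    · exact ⟨op a, ha, hop, b2, by rw [rs_op_op]; exact b1⟩
    · exact absurd (b1.trans b2.symm) b3
  obtain ⟨a, ha, hoa, ha1, ha2⟩ := hex v (Or.inl rfl)
  obtain ⟨b, hb, hob, hb1, hb2⟩ := hex v' (Or.inr rfl)
  have hopa : (op a).1 = v := ha
  have hopb : (op b).1 = v' := hb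
  set c : X × ZMod 4 → ZMod 2 := fun d => rsInd a d + rsInd (α a) d + (rsInd (op a) d +
    rsInd (α (op a)) d) + (rsInd b d + rsInd (α b) d) + (rsInd (op b) d + rsInd (α (op b)) d)
    with hcdef
  have hc : ∀ d, c (α d) = c d := by
    intro d
    simp only [hcdef, rs_ind_al R.inv, R.inv]
    ring
  have hv0 : ∀ x, ∑ i : ZMod 4, c (x, i) = 0 := by
    intro x
    simp only [hcdef, Finset.sum_add_distrib, rs_ind_sum, ha, hopa, hb, hopb, ha1, ha2, hb1, hb2]
    have key : ∀ p q r t : ZMod 2, p + q + (p + r) + (t + q) + (t + r) = 0 := by decide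
    exact key _ _ _ _
  obtain ⟨w, hf, hw⟩ := R.homology c hc hv0
  -- the sites off the cycle
  have hoff : ∀ x, x ≠ v → x ≠ v' → x ≠ y₁ → x ≠ y₂ → ∀ i, c (x, i) = 0 := by
    intro x x1 x2 x3 x4 i
    simp only [hcdef]
    rw [rs_ind_ne1 (by rw [ha]; exact x1), rs_ind_ne1 (by rw [ha1]; exact x3),
      rs_ind_ne1 (by rw [hopa]; exact x1), rs_ind_ne1 (by rw [ha2]; exact x4),
      rs_ind_ne1 (by rw [hb]; exact x2), rs_ind_ne1 (by rw [hb1]; exact x3),
      rs_ind_ne1 (by rw [hopb]; exact x2), rs_ind_ne1 (by rw [hb2]; exact x4)]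
    simp
  -- on the cycle
  have hyy' := hyy.symm
  have hvv' := hvv.symm
  have g11 := h11.symm
  have g12 := h12.symm
  have g21 := h21.symm
  have g22 := h22.symm
  have cv : c a = 1 ∧ c (op a) = 1 := by
    constructor
    · simp only [hcdef]
      rw [rs_ind_self, rs_ind_ne1 (g := α a) (by rw [ha1, ha]; exact h11),
        rs_ind_ne (g := op a) (rs_ne_op a).symm,
        rs_ind_ne1 (g := α (op a)) (by rw [ha2, ha]; exact h12),
        rs_ind_ne1 (g := b) (by rw [hb, ha]; exact hvv),
        rs_ind_ne1 (g := α b) (by rw [hb1, ha]; exact h11),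
        rs_ind_ne1 (g := op b) (by rw [hopb, ha]; exact hvv),
        rs_ind_ne1 (g := α (op b)) (by rw [hb2, ha]; exact h12)]
      simp
    · simp only [hcdef]
      rw [rs_ind_self, rs_ind_ne1 (g := α a) (by rw [ha1, hopa]; exact h11),
        rs_ind_ne (g := a) (rs_ne_op a),
        rs_ind_ne1 (g := α (op a)) (by rw [ha2, hopa]; exact h12),
        rs_ind_ne1 (g := b) (by rw [hb, hopa]; exact hvv),
        rs_ind_ne1 (g := α b) (by rw [hb1, hopa]; exact h11),
        rs_ind_ne1 (g := op b) (by rw [hopb, hopa]; exact hvv),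
        rs_ind_ne1 (g := α (op b)) (by rw [hb2, hopa]; exact h12)]
      simp
  have cv' : c b = 1 ∧ c (op b) = 1 := by
    constructor
    · simp only [hcdef]
      rw [rs_ind_self, rs_ind_ne1 (g := α a) (by rw [ha1, hb]; exact h21),
        rs_ind_ne1 (g := a) (by rw [ha, hb]; exact hvv'),
        rs_ind_ne (g := op b) (rs_ne_op b).symm,
        rs_ind_ne1 (g := α (op a)) (by rw [ha2, hb]; exact h22),
        rs_ind_ne1 (g := op a) (by rw [hopa, hb]; exact hvv'),
        rs_ind_ne1 (g := α b) (by rw [hb1, hb]; exact h21),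
        rs_ind_ne1 (g := α (op b)) (by rw [hb2, hb]; exact h22)]
      simp
    · simp only [hcdef]
      rw [rs_ind_self, rs_ind_ne1 (g := α a) (by rw [ha1, hopb]; exact h21),
        rs_ind_ne1 (g := a) (by rw [ha, hopb]; exact hvv'),
        rs_ind_ne (g := b) (rs_ne_op b),
        rs_ind_ne1 (g := α (op a)) (by rw [ha2, hopb]; exact h22),
        rs_ind_ne1 (g := op a) (by rw [hopa, hopb]; exact hvv'),
        rs_ind_ne1 (g := α b) (by rw [hb1, hopb]; exact h21),
        rs_ind_ne1 (g := α (op b)) (by rw [hb2, hopb]; exact h22)]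
      simp
  have hab : α b = op (α a) := by
    have h1 : o (α b) = o (α a) := by rw [F.oal, F.oal, hoa, hob]
    rcases rs_two F.onx (d := α a) (d' := α b) (by rw [ha1, hb1]) h1 with e | e
    · exfalso
      have := congrArg α e
      rw [R.inv, R.inv] at this
      apply hvv
      rw [← ha, ← hb, this]
    · exact e
  have hab2 : α (op b) = op (α (op a)) := by
    have h1 : o (α (op b)) = o (α (op a)) := by
      rw [F.oal, F.oal, rs_o_op F.onx, rs_o_op F.onx, hoa, hob]
    rcases rs_two F.onx (d := α (op a)) (d' := α (op b)) (by rw [ha2, hb2]) h1 with e | e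
    · exfalso
      have := congrArg α e
      rw [R.inv, R.inv] at this
      apply hvv
      rw [← hopa, ← hopb, this]
    · exact e
  have cy1 : c (α a) = 1 ∧ c (op (α a)) = 1 := by
    refine ⟨by rw [hc]; exact cv.1, ?_⟩
    rw [← hab, hc]; exact cv'.1
  have cy2 : c (α (op a)) = 1 ∧ c (op (α (op a))) = 1 := by
    refine ⟨by rw [hc]; exact cv.2, ?_⟩
    rw [← hab2, hc]; exact cv'.2
  -- the side of inf
  set ρ := w (inf, 0) with hρ
  set Q : Finset X := {v, v', y₁, y₂} with hQ
  have hQm : ∀ x, x ∈ Q ↔ x = v ∨ x = v' ∨ x = y₁ ∨ x = y₂ := by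
    intro x; rw [hQ]; simp
  have hoffQ : ∀ x, x ∉ Q → ∀ i, c (x, i) = 0 := by
    intro x hx
    rw [hQm] at hx
    push Not at hx
    exact hoff x hx.1 hx.2.1 hx.2.2.1 hx.2.2.2
  have hQc : Q.card ≤ 4 := by
    rw [hQ]
    refine (Finset.card_insert_le _ _).trans ?_
    have := Finset.card_insert_le v' ({y₁, y₂} : Finset X)
    have h2 := Finset.card_insert_le y₁ ({y₂} : Finset X)
    have h3 := Finset.card_singleton y₂
    omega
  have hinfQ : inf ∉ Q := by
    rw [hQm]
    push Not
    exact ⟨hv.symm, hv'.symm, hy1.symm, hy2.symm⟩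
  set A : Finset X := Finset.univ.filter fun x => x ∉ Q ∧ w (x, 0) = ρ with hA
  have hAm : ∀ x, x ∈ A ↔ x ∉ Q ∧ w (x, 0) = ρ := by intro x; rw [hA]; simp
  have hinfA : inf ∈ A := by rw [hAm]; exact ⟨hinfQ, rfl⟩
  have hstep : ∀ d : X × ZMod 4, d.1 ∈ A → (α d).1 ∉ A → (α d).1 ∈ Q ∧ c d = 0 ∧ w d = ρ := by
    intro d hd1 hd2
    rw [hAm] at hd1
    have hcd : c d = 0 := hoffQ d.1 hd1.1 d.2
    have hwd : w d = ρ := by
      have := rs_const hw (hoffQ d.1 hd1.1) d.2
      rw [← hd1.2, ← this]
    refine ⟨?_, hcd, hwd⟩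
    by_contra hq
    apply hd2
    rw [hAm]
    refine ⟨hq, ?_⟩
    have h1 := rs_const hw (hoffQ (α d).1 hq) (α d).2
    rw [← h1]
    show w (α d) = ρ
    rw [rs_side hc hf hw hcd, hwd]
  set L : Finset (X × ZMod 4) := Finset.univ.filter fun d => d.1 ∈ Q ∧ c d = 0 ∧ w d = ρ with hL
  have hLc : L.card ≤ 4 := by
    refine le_trans ?_ hQc
    refine Finset.card_le_card_of_injOn Prod.fst ?_ ?_
    · intro d hd
      simp only [hL, Finset.coe_filter, Finset.mem_univ, true_and, Set.mem_setOf_eq] at hd
      exact hd.1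
    · intro d hd d' hd' he
      simp only [hL, Finset.coe_filter, Finset.mem_univ, true_and, Set.mem_setOf_eq] at hd hd'
      have hq := (hQm _).1 hd.1
      rcases hq with q | q | q | q
      · exact rs_inj hw cv.1 cv.2 (by rw [q, ha]) (by rw [← he, q, ha]) hd.2.1 hd'.2.1
          (by rw [hd.2.2, hd'.2.2])
      · exact rs_inj hw cv'.1 cv'.2 (by rw [q, hb]) (by rw [← he, q, hb]) hd.2.1 hd'.2.1
          (by rw [hd.2.2, hd'.2.2])
      · exact rs_inj hw cy1.1 cy1.2 (by rw [q, ha1]) (by rw [← he, q, ha1]) hd.2.1 hd'.2.1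
          (by rw [hd.2.2, hd'.2.2])
      · exact rs_inj hw cy2.1 cy2.2 (by rw [q, ha2]) (by rw [← he, q, ha2]) hd.2.1 hd'.2.1
          (by rw [hd.2.2, hd'.2.2])
  have hcut : cut α A ≤ 4 := by
    refine (R.cut_le A L ?_).trans hLc
    intro d hd1 hd2
    have := hstep (α d) hd2 (by rw [R.inv]; exact hd1)
    rw [R.inv, hc] at this
    simp only [hL, Finset.mem_filter, Finset.mem_univ, true_and]
    refine ⟨this.1, this.2.1, ?_⟩
    rw [← this.2.2, rs_side hc hf hw this.2.1]
  have hAcard : A.card ≤ 1 := by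
    by_contra hlt
    have hQ4 : Q.card = 4 := by
      rw [hQ]
      rw [Finset.card_insert_of_notMem, Finset.card_insert_of_notMem,
        Finset.card_insert_of_notMem, Finset.card_singleton]
      · simpa using hyy
      · simp only [Finset.mem_insert, Finset.mem_singleton]; push Not; exact ⟨h21, h22⟩
      · simp only [Finset.mem_insert, Finset.mem_singleton]; push Not; exact ⟨hvv, h11, h12⟩
    have hdis : Disjoint A Q := by
      rw [Finset.disjoint_left]
      intro x hx
      exact ((hAm x).1 hx).1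
    have h1 : A.card + Q.card ≤ Fintype.card X := by
      rw [← Finset.card_union_of_disjoint hdis]
      exact Finset.card_le_univ _
    have := R.cut6 A (by omega) (by omega)
    omega
  have hAinf : ∀ x, x ∈ A → x = inf := by
    intro x hx
    exact Finset.card_le_one.1 hAcard x hx inf hinfA
  have htpQ : ∀ k : ZMod 4, tp α inf k ∈ Q := by
    intro k
    have := hstep (inf, -k) hinfA (fun e => R.tp_ne inf k (hAinf _ e))
    exact this.1
  have htpy : ∀ k : ZMod 4, k ≠ 3 → tp α inf k = y₁ ∨ tp α inf k = y₂ := by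
    intro k hk
    have := (hQm _).1 (htpQ k)
    rcases this with h | h | h | h
    · exact absurd h (ht k hk).1
    · exact absurd h (ht k hk).2
    · exact Or.inl h
    · exact Or.inr h
  have i01 : (0 : ZMod 4) ≠ 1 := by decide
  have i02 : (0 : ZMod 4) ≠ 2 := by decide
  have i12 : (1 : ZMod 4) ≠ 2 := by decide
  rcases htpy 0 (by decide) with e0 | e0 <;> rcases htpy 1 (by decide) with e1 | e1 <;>
    rcases htpy 2 (by decide) with e2 | e2
  · exact i01 (R.tp_inj inf (e0.trans e1.symm))
  · exact i01 (R.tp_inj inf (e0.trans e1.symm))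
  · exact i02 (R.tp_inj inf (e0.trans e2.symm))
  · exact i12 (R.tp_inj inf (e1.trans e2.symm))
  · exact i12 (R.tp_inj inf (e1.trans e2.symm))
  · exact i02 (R.tp_inj inf (e0.trans e2.symm))
  · exact i01 (R.tp_inj inf (e0.trans e1.symm))
  · exact i01 (R.tp_inj inf (e0.trans e1.symm))

open Classical in
/-- there is a path from `x₀` to `x` in `S` (in homological form) -/
private def RsR (α : X × ZMod 4 → X × ZMod 4) (S : Finset X) (x₀ x : X) : Prop :=
  ∃ c : X × ZMod 4 → ZMod 2, (∀ d, c (α d) = c d) ∧ (∀ d, c d ≠ 0 → d.1 ∈ S) ∧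
    ∀ v, ∑ i : ZMod 4, c (v, i) = (if v = x₀ then 1 else 0) + (if v = x then 1 else 0)

private theorem rsR_refl (S : Finset X) (x₀ : X) : RsR α S x₀ x₀ := by
  classical
  refine ⟨fun _ => 0, fun _ => rfl, fun d h => absurd rfl h, fun v => ?_⟩
  have key : ∀ a : ZMod 2, 0 = a + a := by decide
  simp only [Finset.sum_const_zero]
  exact key _

private theorem rsR_step (inv : ∀ d, α (α d) = d) {S : Finset X} {x₀ : X} {d : X × ZMod 4}
    (h1 : d.1 ∈ S) (h2 : (α d).1 ∈ S) (h : RsR α S x₀ d.1) : RsR α S x₀ (α d).1 := by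
  classical
  obtain ⟨c, c1, c2, c3⟩ := h
  refine ⟨fun g => c g + (rsInd d g + rsInd (α d) g), fun g => ?_, fun g hg => ?_, fun v => ?_⟩
  · show c (α g) + (rsInd d (α g) + rsInd (α d) (α g)) = c g + (rsInd d g + rsInd (α d) g)
    rw [c1, rs_ind_al inv, rs_ind_al inv, inv]
    ring
  · by_contra hgS
    apply hg
    have a1 : c g = 0 := by
      by_contra hne
      exact hgS (c2 g hne)
    show c g + (rsInd d g + rsInd (α d) g) = 0
    rw [a1, rs_ind_ne1 (fun e => hgS (by rw [e]; exact h1)),
      rs_ind_ne1 (fun e => hgS (by rw [e]; exact h2))]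
    simp
  · simp only [Finset.sum_add_distrib, c3, rs_ind_sum]
    have key : ∀ a b e : ZMod 2, a + b + (b + e) = a + e := by decide
    exact key _ _ _

/-- if both ingoing darts of `y` come from the connected set `S` then an outgoing dart of `y` goes
back to `S` -/
private theorem rs_back (F : Frame α inf o s) {S : Finset X} {y y' : X} {e : X × ZMod 4}
    (hyS : y ∉ S) (hyS' : y' ∉ S) (hyy : y' ≠ y)
    (hout : ∀ d : X × ZMod 4, d.1 ∈ S → o d = true → (α d).1 ∈ S ∨ (α d).1 = y ∨ (α d).1 = y')
    (he : e.1 = y) (hoe : o e = false) (h1 : (α e).1 ∈ S) (h2 : (α (op e)).1 ∈ S)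
    (hR : RsR α S (α e).1 (α (op e)).1) :
    ∃ g : X × ZMod 4, g.1 = y ∧ o g = true ∧ (α g).1 ∈ S := by
  classical
  have R := F.rig
  obtain ⟨c₀, c1, c2, c3⟩ := hR
  have hope : (op e).1 = y := he
  have c20 : ∀ d : X × ZMod 4, d.1 ∉ S → c₀ d = 0 := by
    intro d hd
    by_contra hne
    exact hd (c2 d hne)
  set c : X × ZMod 4 → ZMod 2 := fun d => c₀ d + (rsInd e d + rsInd (α e) d) + (rsInd (op e) d +
    rsInd (α (op e)) d) with hcdef
  have hc : ∀ d, c (α d) = c d := by
    intro d
    simp only [hcdef, rs_ind_al R.inv, R.inv, c1]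
    ring
  have hv0 : ∀ x, ∑ i : ZMod 4, c (x, i) = 0 := by
    intro x
    simp only [hcdef, Finset.sum_add_distrib, rs_ind_sum, c3, he, hope]
    have key : ∀ p q r : ZMod 2, p + q + (r + p) + (r + q) = 0 := by decide
    exact key _ _ _
  obtain ⟨w, hf, hw⟩ := R.homology c hc hv0
  have hoff : ∀ x, x ∉ S → x ≠ y → ∀ i, c (x, i) = 0 := by
    intro x x1 x2 i
    simp only [hcdef]
    rw [c20 _ x1, rs_ind_ne1 (by rw [he]; exact x2),
      rs_ind_ne1 (fun q => x1 (by rw [show x = (α e).1 from q]; exact h1)),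
      rs_ind_ne1 (by rw [hope]; exact x2),
      rs_ind_ne1 (fun q => x1 (by rw [show x = (α (op e)).1 from q]; exact h2))]
    simp
  have n1 : y ≠ (α e).1 := fun q => hyS (by rw [q]; exact h1)
  have n2 : y ≠ (α (op e)).1 := fun q => hyS (by rw [q]; exact h2)
  have hcy : ∀ d : X × ZMod 4, d.1 = y → c d = rsInd e d + rsInd (op e) d := by
    intro d hd
    simp only [hcdef]
    rw [c20 d (by rw [hd]; exact hyS), rs_ind_ne1 (g := α e) (by rw [hd]; exact n1),
      rs_ind_ne1 (g := α (op e)) (by rw [hd]; exact n2)]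
    simp
  have ce1 : c e = 1 := by
    rw [hcy e he, rs_ind_self, rs_ind_ne (rs_ne_op e).symm, add_zero]
  have ce2 : c (op e) = 1 := by
    rw [hcy (op e) hope, rs_ind_self, rs_ind_ne (rs_ne_op e), zero_add]
  have cot : ∀ d : X × ZMod 4, d.1 = y → o d = true → c d = 0 := by
    intro d hd hod
    rw [hcy d hd, rs_ind_ne (fun q => by rw [q, hoe] at hod; exact absurd hod (by decide)),
      rs_ind_ne (fun q => by
        rw [q, rs_o_op F.onx, hoe] at hod; exact absurd hod (by decide)), add_zero]
  set ρ : ZMod 2 := w (y', 0) + 1 with hρ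
  set A : Finset X := Finset.univ.filter fun x => x ∉ S ∧ x ≠ y ∧ w (x, 0) = ρ with hA
  have hAm : ∀ x, x ∈ A ↔ x ∉ S ∧ x ≠ y ∧ w (x, 0) = ρ := by intro x; rw [hA]; simp
  have hy'A : y' ∉ A := by
    rw [hAm]
    rintro ⟨_, _, h⟩
    rw [hρ] at h
    have key : ∀ a : ZMod 2, a ≠ a + 1 := by decide
    exact key _ h
  have hyA : y ∉ A := by
    rw [hAm]
    rintro ⟨_, h, _⟩
    exact h rfl
  have hin : ∀ d : X × ZMod 4, (α d).1 ∈ A → c d = 0 ∧ w d = ρ := by
    intro d hd
    rw [hAm] at hd
    have hcd : c (α d) = 0 := hoff (α d).1 hd.1 hd.2.1 (α d).2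
    have hwd : w (α d) = ρ := by
      have := rs_const hw (hoff (α d).1 hd.1 hd.2.1) (α d).2
      rw [← hd.2.2, ← this]
    refine ⟨by rw [← hc]; exact hcd, ?_⟩
    have := rs_side hc hf hw hcd
    rw [R.inv] at this
    rw [this, hwd]
  -- A is empty
  have hAe : A = ∅ := by
    by_contra hne
    have hne' : A.Nonempty := Finset.nonempty_iff_ne_empty.2 hne
    have hu : A ≠ Finset.univ := fun q => hyA (by rw [q]; exact Finset.mem_univ _)
    have h4 := R.cut4 A hne' hu
    have hb := R.balance F.onx F.oal Aᶜ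
    rw [R.cut_compl] at hb
    have hle : Nat.card {d : X × ZMod 4 // d.1 ∈ Aᶜ ∧ (α d).1 ∉ Aᶜ ∧ o d = true} ≤ 1 := by
      rw [Finite.card_le_one_iff_subsingleton]
      constructor
      rintro ⟨d, d1, d2, d3⟩ ⟨d', d1', d2', d3'⟩
      rw [Finset.mem_compl, not_not] at d2 d2'
      rw [Finset.mem_compl] at d1 d1'
      have hy0 : ∀ g : X × ZMod 4, g.1 ∉ A → (α g).1 ∈ A → o g = true → g.1 = y := by
        intro g g1 g2 g3
        by_contra hgy
        by_cases hgS : g.1 ∈ S
        · rcases hout g hgS g3 with q | q | q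
          · exact ((hAm _).1 g2).1 q
          · exact ((hAm _).1 g2).2.1 q
          · rw [q] at g2; exact hy'A g2
        · apply g1
          rw [hAm]
          refine ⟨hgS, hgy, ?_⟩
          have := rs_const hw (hoff g.1 hgS hgy) g.2
          rw [← this]
          exact (hin g g2).2
      have e1 := hy0 d d1 d2 d3
      have e2 := hy0 d' d1' d2' d3'
      have f1 := hin d d2
      have f2 := hin d' d2'
      have := rs_inj hw ce1 ce2 (by rw [e1, he]) (by rw [e2, he]) f1.1 f2.1
        (by rw [f1.2, f2.2])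
      exact Subtype.ext this
    omega
  -- the dart g
  have hcn : c (nx e) = 0 := cot _ he (by rw [F.onx, hoe]; rfl)
  have hcp : c (pv e) = 0 := cot _ he (by rw [rs_o_pv F.onx, hoe]; rfl)
  have hg : ∃ g : X × ZMod 4, g.1 = y ∧ o g = true ∧ c g = 0 ∧ w g = ρ := by
    have hne : w (nx e) ≠ w (pv e) := by
      intro q
      have := rs_inj hw ce1 ce2 (d := nx e) (d' := pv e) rfl rfl hcn hcp q
      have h6 : e.2 + 1 = e.2 - 1 := congrArg Prod.snd this
      have h7 : (1 : ZMod 4) = -1 := by
        have := congrArg (fun x => x - e.2) h6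
        simpa [sub_eq_add_neg, add_comm, add_left_comm, add_assoc] using this
      exact absurd h7 (by decide)
    have key : ∀ a b r : ZMod 2, a ≠ b → a = r ∨ b = r := by decide
    rcases key _ _ ρ hne with q | q
    · exact ⟨nx e, he, by rw [F.onx, hoe]; rfl, hcn, q⟩
    · exact ⟨pv e, he, by rw [rs_o_pv F.onx, hoe]; rfl, hcp, q⟩
  obtain ⟨g, g1, g2, g3, g4⟩ := hg
  refine ⟨g, g1, g2, ?_⟩
  by_contra hgS
  have hgy : (α g).1 ≠ y := by
    rw [← g1]; exact R.noloop g
  have : (α g).1 ∈ A := by
    rw [hAm]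
    refine ⟨hgS, hgy, ?_⟩
    have q1 := rs_const hw (hoff (α g).1 hgS hgy) (α g).2
    rw [← q1]
    show w (α g) = ρ
    rw [rs_side hc hf hw g3, g4]
  rw [hAe] at this
  exact absurd this (Finset.notMem_empty _)

/-- the ingoing darts of `y` from `S` -/
private def RsB (α : X × ZMod 4 → X × ZMod 4) (o : X × ZMod 4 → Bool) (S : Finset X) (y : X) :
    Prop :=
  ∃ e : X × ZMod 4, e.1 = y ∧ o e = false ∧ (α e).1 ∈ S ∧ (α (op e)).1 ∈ S

open Classical in
private noncomputable def rsI (α : X × ZMod 4 → X × ZMod 4) (o : X × ZMod 4 → Bool)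
    (S : Finset X) (y : X) : Finset (X × ZMod 4) :=
  Finset.univ.filter fun d => d.1 ∈ S ∧ (α d).1 = y ∧ o d = true

private theorem rsI_le2 (F : Frame α inf o s) (S : Finset X) (y : X) :
    (rsI α o S y).card ≤ 2 := by
  classical
  have R := F.rig
  by_contra hlt
  have h3 : 2 < (rsI α o S y).card := by omega
  obtain ⟨a, b, c, ha, hb, hc, hab, hac, hbc⟩ := Finset.two_lt_card_iff.1 h3
  simp only [rsI, Finset.mem_filter, Finset.mem_univ, true_and] at ha hb hc
  have hal : ∀ d d' : X × ZMod 4, α d = α d' → d = d' := fun d d' q => by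
    have := congrArg α q
    rwa [R.inv, R.inv] at this
  rcases rs_two F.onx (d := α a) (d' := α b) (by rw [ha.2.1, hb.2.1])
    (by rw [F.oal, F.oal, ha.2.2, hb.2.2]) with q | q
  · exact hab (hal _ _ q).symm
  rcases rs_two F.onx (d := α a) (d' := α c) (by rw [ha.2.1, hc.2.1])
    (by rw [F.oal, F.oal, ha.2.2, hc.2.2]) with r | r
  · exact hac (hal _ _ r).symm
  exact hbc (hal _ _ (q.trans r.symm))

private theorem rsI_le1 (F : Frame α inf o s) {S : Finset X} {y : X} (h : ¬ RsB α o S y) :
    (rsI α o S y).card ≤ 1 := by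
  classical
  have R := F.rig
  rw [Finset.card_le_one]
  intro a ha b hb
  simp only [rsI, Finset.mem_filter, Finset.mem_univ, true_and] at ha hb
  by_contra hab
  have hal : ∀ d d' : X × ZMod 4, α d = α d' → d = d' := fun d d' q => by
    have := congrArg α q
    rwa [R.inv, R.inv] at this
  rcases rs_two F.onx (d := α a) (d' := α b) (by rw [ha.2.1, hb.2.1])
    (by rw [F.oal, F.oal, ha.2.2, hb.2.2]) with q | q
  · exact hab (hal _ _ q).symm
  · apply h
    refine ⟨α a, ha.2.1, by rw [F.oal, ha.2.2]; rfl, by rw [R.inv]; exact ha.1, ?_⟩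
    rw [← q, R.inv]; exact hb.1

private theorem rs_cutle (F : Frame α inf o s) (A : Finset X) (L : Finset (X × ZMod 4))
    (hL : ∀ d : X × ZMod 4, d.1 ∈ A → (α d).1 ∉ A → o d = true → d ∈ L) :
    cut α A ≤ 2 * L.card := by
  classical
  rw [F.rig.balance F.onx F.oal A]
  have : Nat.card {d : X × ZMod 4 // d.1 ∈ A ∧ (α d).1 ∉ A ∧ o d = true} ≤ L.card := by
    have h1 : Nat.card {d : X × ZMod 4 // d.1 ∈ A ∧ (α d).1 ∉ A ∧ o d = true} ≤ Nat.card L := by
      apply Nat.card_le_card_of_injective
        (fun d => (⟨d.1, hL d.1 d.2.1 d.2.2.1 d.2.2.2⟩ : L))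
      intro d d' hdd
      exact Subtype.ext (congrArg (fun g : L => g.1) hdd)
    have h2 : Nat.card L = L.card := by
      rw [Nat.card_eq_fintype_card, Fintype.card_coe]
    rw [h2] at h1
    exact h1
  omega

theorem Frame.sep (F : Frame α inf o s) (S Y : Finset X) (hS : S.Nonempty) (hSY : Disjoint S Y)
    (hY : Y.card ≤ 2) (hS' : inf ∉ S) (hY' : inf ∉ Y)
    (ht : ∀ k : ZMod 4, k ≠ 3 → tp α inf k ∉ S)
    (hout : ∀ d : X × ZMod 4, d.1 ∈ S → o d = true → (α d).1 ∈ S ∨ (α d).1 ∈ Y) :
    S.card = 1 := by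
  classical
  have R := F.rig
  have i01 : (0 : ZMod 4) ≠ 1 := by decide
  have i02 : (0 : ZMod 4) ≠ 2 := by decide
  have i12 : (1 : ZMod 4) ≠ 2 := by decide
  have t01 : tp α inf 0 ≠ tp α inf 1 := fun q => i01 (R.tp_inj inf q)
  have t02 : tp α inf 0 ≠ tp α inf 2 := fun q => i02 (R.tp_inj inf q)
  have t12 : tp α inf 1 ≠ tp α inf 2 := fun q => i12 (R.tp_inj inf q)
  -- the set of inf and the three port sites
  have hP : ∀ A Z : Finset X, A ⊆ S ∪ Z → inf ∉ Z → Z.card ≤ 2 → A.card + 2 ≤ Fintype.card X := by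
    intro A Z hAZ hZi hZ
    set P : Finset X := {tp α inf 0, tp α inf 1, tp α inf 2} with hPd
    have hPc : P.card = 3 := Finset.card_eq_three.2 ⟨_, _, _, t01, t02, t12, rfl⟩
    have h1 : 1 ≤ (P \ Z).card := by
      have := Finset.le_card_sdiff Z P
      omega
    have hdis : Disjoint A (insert inf (P \ Z)) := by
      rw [Finset.disjoint_left]
      intro x hx hx2
      have hxS := hAZ hx
      rw [Finset.mem_union] at hxS
      rw [Finset.mem_insert] at hx2
      rcases hx2 with rfl | hx2
      · rcases hxS with q | q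
        · exact hS' q
        · exact hZi q
      · rw [Finset.mem_sdiff] at hx2
        rcases hxS with q | q
        · have := hx2.1
          rw [hPd] at this
          simp only [Finset.mem_insert, Finset.mem_singleton] at this
          rcases this with r | r | r
          · rw [r] at q; exact ht 0 (by decide) q
          · rw [r] at q; exact ht 1 (by decide) q
          · rw [r] at q; exact ht 2 (by decide) q
        · exact hx2.2 q
    have hni : inf ∉ P \ Z := by
      rw [Finset.mem_sdiff, hPd]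
      simp only [Finset.mem_insert, Finset.mem_singleton]
      rintro ⟨q | q | q, _⟩
      · exact R.tp_ne inf 0 q.symm
      · exact R.tp_ne inf 1 q.symm
      · exact R.tp_ne inf 2 q.symm
    have h2 : (insert inf (P \ Z)).card = (P \ Z).card + 1 := Finset.card_insert_of_notMem hni
    have h3 : A.card + (insert inf (P \ Z)).card ≤ Fintype.card X := by
      rw [← Finset.card_union_of_disjoint hdis]
      exact Finset.card_le_univ _
    omega
  induction hn : S.card using Nat.strong_induction_on generalizing S with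
  | _ n ih =>
  subst hn
  by_contra hcard
  have hpos : 0 < S.card := hS.card_pos
  have h2 : 2 ≤ S.card := by omega
  have hSc : S.card + 2 ≤ Fintype.card X :=
    hP S ∅ (Finset.subset_union_left) (Finset.notMem_empty _) (by simp)
  have h6 := R.cut6 S h2 hSc
  -- Y has two elements
  have hYS : ∀ y ∈ Y, y ∉ S := fun y hy hyS => Finset.disjoint_left.1 hSY hyS hy
  have hcutU : ∀ L : Finset (X × ZMod 4),
      (∀ y ∈ Y, ∀ d : X × ZMod 4, d.1 ∈ S → (α d).1 = y → o d = true → d ∈ L) →
      cut α S ≤ 2 * L.card := by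
    intro L hL
    apply rs_cutle F
    intro d d1 d2 d3
    rcases hout d d1 d3 with q | q
    · exact absurd q d2
    · exact hL _ q d d1 rfl d3
  have hYc : Y.card = 2 := by
    by_contra hne
    have hle : Y.card ≤ 1 := by omega
    by_cases hY0 : Y = ∅
    · have := hcutU ∅ (fun y hy => by rw [hY0] at hy; exact absurd hy (Finset.notMem_empty _))
      simp at this
      omega
    · obtain ⟨y, hy⟩ := Finset.nonempty_iff_ne_empty.2 hY0
      have := hcutU (rsI α o S y) (fun y' hy' d d1 d2 d3 => by
        have : y' = y := Finset.card_le_one.1 hle y' hy' y hy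
        simp only [rsI, Finset.mem_filter, Finset.mem_univ, true_and]
        exact ⟨d1, by rw [d2, this], d3⟩)
      have h3 := rsI_le2 F S y
      omega
  obtain ⟨y₁, y₂, hyy, hYe⟩ := Finset.card_eq_two.1 hYc
  have hy1 : y₁ ∈ Y := by rw [hYe]; simp
  have hy2 : y₂ ∈ Y := by rw [hYe]; simp
  have hYm : ∀ x, x ∈ Y ↔ x = y₁ ∨ x = y₂ := by intro x; rw [hYe]; simp
  -- one of the two sites has both ingoing darts from S
  have hB : RsB α o S y₁ ∨ RsB α o S y₂ := by
    by_contra hc
    push Not at hc
    have a1 := rsI_le1 F hc.1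
    have a2 := rsI_le1 F hc.2
    have := hcutU (rsI α o S y₁ ∪ rsI α o S y₂) (fun y hy d d1 d2 d3 => by
      simp only [rsI, Finset.mem_union, Finset.mem_filter, Finset.mem_univ, true_and]
      rcases (hYm y).1 hy with q | q
      · exact Or.inl ⟨d1, by rw [d2, q], d3⟩
      · exact Or.inr ⟨d1, by rw [d2, q], d3⟩)
    have h3 := Finset.card_union_le (rsI α o S y₁) (rsI α o S y₂)
    omega
  -- connectedness
  have hconn : ∀ x₀ ∈ S, ∀ x ∈ S, RsR α S x₀ x := by
    by_contra hc
    push Not at hc
    obtain ⟨x₀, hx₀, x, hx, hxR⟩ := hc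
    set S₁ : Finset X := S.filter fun x => RsR α S x₀ x with hS1
    set S₂ : Finset X := S.filter fun x => ¬ RsR α S x₀ x with hS2
    have m1 : ∀ z, z ∈ S₁ ↔ z ∈ S ∧ RsR α S x₀ z := by intro z; rw [hS1, Finset.mem_filter]
    have m2 : ∀ z, z ∈ S₂ ↔ z ∈ S ∧ ¬ RsR α S x₀ z := by intro z; rw [hS2, Finset.mem_filter]
    have n1 : x₀ ∈ S₁ := (m1 _).2 ⟨hx₀, rsR_refl S x₀⟩
    have n2 : x ∈ S₂ := (m2 _).2 ⟨hx, hxR⟩
    have nadj : ∀ d : X × ZMod 4, d.1 ∈ S₁ → (α d).1 ∉ S₂ := by
      intro d hd hd2
      exact ((m2 _).1 hd2).2 (rsR_step R.inv ((m1 _).1 hd).1 ((m2 _).1 hd2).1 ((m1 _).1 hd).2)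
    have nadj2 : ∀ d : X × ZMod 4, d.1 ∈ S₂ → (α d).1 ∉ S₁ := by
      intro d hd hd2
      exact nadj (α d) hd2 (by rw [R.inv]; exact hd)
    have hsum : S₁.card + S₂.card = S.card := by
      rw [hS1, hS2]; exact Finset.card_filter_add_card_filter_not _
    have p1 : 0 < S₁.card := Finset.card_pos.2 ⟨_, n1⟩
    have p2 : 0 < S₂.card := Finset.card_pos.2 ⟨_, n2⟩
    have sub1 : S₁ ⊆ S := Finset.filter_subset _ _
    have sub2 : S₂ ⊆ S := Finset.filter_subset _ _
    have out1 : ∀ d : X × ZMod 4, d.1 ∈ S₁ → o d = true → (α d).1 ∈ S₁ ∨ (α d).1 ∈ Y := by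
      intro d d1 d2
      rcases hout d (sub1 d1) d2 with q | q
      · left
        rw [m1]
        refine ⟨q, ?_⟩
        by_contra hr
        exact nadj d d1 ((m2 _).2 ⟨q, hr⟩)
      · exact Or.inr q
    have out2 : ∀ d : X × ZMod 4, d.1 ∈ S₂ → o d = true → (α d).1 ∈ S₂ ∨ (α d).1 ∈ Y := by
      intro d d1 d2
      rcases hout d (sub2 d1) d2 with q | q
      · left
        rw [m2]
        refine ⟨q, ?_⟩
        intro hr
        exact nadj2 d d1 ((m1 _).2 ⟨q, hr⟩)
      · exact Or.inr q
    have hP' : ∀ S₀ : Finset X, S₀ ⊆ S → ∀ A Z : Finset X, A ⊆ S₀ ∪ Z → inf ∉ Z → Z.card ≤ 2 →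
        A.card + 2 ≤ Fintype.card X := fun S₀ h0 A Z hA =>
      hP A Z (hA.trans (Finset.union_subset_union_left h0))
    have k1 := ih S₁.card (by omega) S₁ ⟨_, n1⟩ (Finset.disjoint_of_subset_left sub1 hSY)
      (fun q => hS' (sub1 q)) (fun k hk q => ht k hk (sub1 q)) out1 (hP' S₁ sub1) rfl
    have k2 := ih S₂.card (by omega) S₂ ⟨_, n2⟩ (Finset.disjoint_of_subset_left sub2 hSY)
      (fun q => hS' (sub2 q)) (fun k hk q => ht k hk (sub2 q)) out2 (hP' S₂ sub2) rfl
    have e1 : ∀ z, z ∈ S₁ → z = x₀ := fun z hz =>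
      Finset.card_le_one.1 (le_of_eq k1) z hz x₀ n1
    have e2 : ∀ z, z ∈ S₂ → z = x := fun z hz =>
      Finset.card_le_one.1 (le_of_eq k2) z hz x n2
    have hne : x₀ ≠ x := by
      rintro rfl
      exact ((m2 _).1 n2).2 ((m1 _).1 n1).2
    refine rs_disc F (v := x₀) (v' := x) hne hyy ?_ ?_ ?_ ?_ ?_ ?_ ?_ ?_ ?_ ?_
    · rintro rfl; exact hYS _ hy1 hx₀
    · rintro rfl; exact hYS _ hy2 hx₀
    · rintro rfl; exact hYS _ hy1 hx
    · rintro rfl; exact hYS _ hy2 hx
    · rintro rfl; exact hS' hx₀
    · rintro rfl; exact hS' hx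
    · rintro rfl; exact hY' hy1
    · rintro rfl; exact hY' hy2
    · intro k hk
      exact ⟨fun q => ht k hk (by rw [q]; exact hx₀), fun q => ht k hk (by rw [q]; exact hx)⟩
    · intro d hd hod
      rcases hd with hd | hd
      · rcases out1 d (by rw [hd]; exact n1) hod with q | q
        · exact absurd ((e1 _ q).trans hd.symm) (R.noloop d)
        · exact (hYm _).1 q
      · rcases out2 d (by rw [hd]; exact n2) hod with q | q
        · exact absurd ((e2 _ q).trans hd.symm) (R.noloop d)
        · exact (hYm _).1 q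
  have hback : ∀ y y' : X, y ∈ Y → y' ∈ Y → y' ≠ y → RsB α o S y →
      ∃ g : X × ZMod 4, g.1 = y ∧ o g = true ∧ (α g).1 ∈ S := by
    rintro y y' hy hy' hne ⟨e, e1, e2, e3, e4⟩
    refine rs_back F (hYS y hy) (hYS y' hy') hne ?_ e1 e2 e3 e4 (hconn _ e3 _ e4)
    intro d d1 d2
    rcases hout d d1 d2 with q | q
    · exact Or.inl q
    · right
      have hyc := (hYm _).1 q
      have c1 := (hYm _).1 hy
      have c2 := (hYm _).1 hy'
      rcases c1 with c1 | c1 <;> rcases c2 with c2 | c2
      · exact absurd (c2.trans c1.symm) hne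
      · rw [c1, c2]; exact hyc
      · rw [c1, c2]; exact hyc.symm
      · exact absurd (c2.trans c1.symm) hne
  -- the final contradiction
  have hfin : ∀ y y' : X, y ∈ Y → y' ∈ Y → y' ≠ y → (∀ x, x ∈ Y → x = y ∨ x = y') →
      RsB α o S y → False := by
    intro y y' hy hy' hne hYY hBy
    obtain ⟨g, g1, g2, g3⟩ := hback y y' hy hy' hne hBy
    by_cases hBy' : RsB α o S y'
    · obtain ⟨g', g1', g2', g3'⟩ := hback y' y hy' hy hne.symm hBy'
      have hc := rs_cutle F (S ∪ Y) ({op g, op g'} : Finset (X × ZMod 4)) (by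
        intro d d1 d2 d3
        rw [Finset.mem_union] at d1 d2
        push Not at d2
        rcases d1 with d1 | d1
        · rcases hout d d1 d3 with q | q
          · exact absurd q d2.1
          · exact absurd q d2.2
        · simp only [Finset.mem_insert, Finset.mem_singleton]
          rcases hYY _ d1 with q | q
          · left
            rcases rs_two F.onx (d := g) (d' := d) (by rw [q, g1]) (by rw [d3, g2]) with r | r
            · rw [r] at d2; exact absurd g3 d2.1
            · exact r
          · right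
            rcases rs_two F.onx (d := g') (d' := d) (by rw [q, g1']) (by rw [d3, g2']) with r | r
            · rw [r] at d2; exact absurd g3' d2.1
            · exact r)
      have hc2 : ({op g, op g'} : Finset (X × ZMod 4)).card ≤ 2 := Finset.card_le_two
      have hb := hP (S ∪ Y) Y (Finset.Subset.refl _) hY' hY
      have ha : S.card ≤ (S ∪ Y).card := Finset.card_le_card Finset.subset_union_left
      have := R.cut6 (S ∪ Y) (by omega) hb
      omega
    · have hI := rsI_le1 F hBy'
      have hc := rs_cutle F (insert y S) (insert (op g) (rsI α o S y')) (by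
        intro d d1 d2 d3
        rw [Finset.mem_insert] at d1 d2
        push Not at d2
        rw [Finset.mem_insert]
        rcases d1 with d1 | d1
        · left
          rcases rs_two F.onx (d := g) (d' := d) (by rw [d1, g1]) (by rw [d3, g2]) with r | r
          · rw [r] at d2; exact absurd g3 d2.2
          · exact r
        · right
          rcases hout d d1 d3 with q | q
          · exact absurd q d2.2
          · rcases hYY _ q with r | r
            · exact absurd r d2.1
            · simp only [rsI, Finset.mem_filter, Finset.mem_univ, true_and]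
              exact ⟨d1, r, d3⟩)
      have hc2 := Finset.card_insert_le (op g) (rsI α o S y')
      have hb := hP (insert y S) {y} (by
        intro z hz
        rw [Finset.mem_insert] at hz
        rw [Finset.mem_union, Finset.mem_singleton]
        exact hz.symm) (by
          rw [Finset.mem_singleton]; rintro rfl; exact hY' hy) (by simp)
      have ha : S.card ≤ (insert y S).card := Finset.card_le_card (Finset.subset_insert _ _)
      have := R.cut6 (insert y S) (by omega) hb
      omega
  rcases hB with q | q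
  · exact hfin y₁ y₂ hy1 hy2 hyy.symm (fun x hx => (hYm x).1 hx) q
  · exact hfin y₂ y₁ hy2 hy1 hyy (fun x hx => ((hYm x).1 hx).symm) q

end SN78
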