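import Pool.Agent.SN78.RDraw
import Pool.Agent.SN78.RIdx

/-!
# SN78 module RSGN: sign patterns along the faces of a drawing

`exists_generic`: `l = l0 + ε • m` with a functional `m` (`m 2 = 0`) which is not zero on `g` and all `x ∈ Fs`
(finitely many proper subspaces of the plane), positive on `g` (change the sign of `m`), and small
`ε > 0`.

For a generic functional `l` let `σ d = decide (0 < dot l (dr d))`.  The hypotheses of RIDX:
`hσ` from `dr_neg`.  `hv` at a site `v ≠ inf`: `dr (v, s v)` and `dr (v, s v + 2)` have opposite signs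
(`Draw.str`), so there is exactly one change between `s v` and `s v + 2` and one between `s v + 2` and
`s v + 4`.  `hv` at `inf`: `dr (inf, i) = - D (-i)`; there is a positive linear relation between
`D 0, D 1, D 2` (coefficients `d2 (D 1) (D 2)`, `d2 (D 2) (D 0)`, `d2 (D 0) (D 1)`), so they do not all have the
same sign, and `D 3` is between `D 2` and `D 0`: if these two have the same sign so has `D 3`.
`hf`: if all `dr ((fs α)^[n] d)` have the same sign and no site is `inf` then the sum over one period is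
not zero, but each term is `P` (next site) `- P` (site) (`(fs α e).1 = (α e).1`), so the sum is `0`.

`straddle`, `patL`, `patL'`, `patC`: from RIDX.
`inf_once`: suppose `(fs α)^[n] (inf, i) = (inf, j)`, `i ≠ j`.  The gap at `(inf, i)` is the one between
the ports `-i-1` and `-i`.  One of the two gaps, say (by `orbit_symm`) the one of `i`, is positive
(`Cfg.gap'`: `-i-1 ≠ 3`).  Then there is `l` generic (`exists_generic` near the functional
`x ↦ d2 (D k + D (k+1)) x`, `k = -i-1`) with `dot l (D k) < 0 < dot l (D (k + 1))`.  By `straddle` all darts of the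
face have the same sign.  If `(inf, j)` is not straddling then its face change is a contradiction
(the dart before it in the face is `α (inf, j+1)`).  If it is straddling then, since there are only two
sign changes at `inf`, `σ (inf, i) ≠ σ (inf, j)`, contradiction.
-/

namespace SN78

open Function

private theorem rs_dot_neg (l x : H) : dot l (-x) = - dot l x := by
  simp only [dot, Pi.neg_apply]; ring

private theorem rs_avoid (Gs : Finset H) (hG : ∀ x ∈ Gs, x 2 = 0 ∧ x ≠ 0) :
    ∃ t : ℝ, ∀ x ∈ Gs, x 0 + t * x 1 ≠ 0 := by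
  classical
  obtain ⟨t, ht⟩ := Infinite.exists_notMem_finset (Gs.image (fun x : H => - x 0 / x 1))
  refine ⟨t, fun x hx h0 => ?_⟩
  obtain ⟨h2, hne⟩ := hG x hx
  by_cases h1 : x 1 = 0
  · apply hne
    rw [h1, mul_zero, add_zero] at h0
    funext c
    fin_cases c
    · exact h0
    · exact h1
    · exact h2
  · apply ht
    rw [Finset.mem_image]
    refine ⟨x, hx, ?_⟩
    field_simp
    linarith

theorem exists_generic (Fs : Finset H) (hF : ∀ x ∈ Fs, x 2 = 0 ∧ x ≠ 0) (l0 : H)
    (h0 : l0 2 = 0) (g : H) (hg2 : g 2 = 0) (hg0 : g ≠ 0) (hg : 0 ≤ dot l0 g) :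
    ∃ l : H, l 2 = 0 ∧ 0 < dot l g ∧
      ∀ x ∈ Fs, dot l x ≠ 0 ∧ (0 < dot l0 x → 0 < dot l x) ∧ (dot l0 x < 0 → dot l x < 0) := by
  classical
  obtain ⟨m, hm2, hmF, hmg⟩ : ∃ m : H, m 2 = 0 ∧ (∀ x ∈ Fs, dot m x ≠ 0) ∧ 0 < dot m g := by
    obtain ⟨t, ht⟩ := rs_avoid (insert g Fs) (by
      intro x hx
      rcases Finset.mem_insert.mp hx with rfl | hx
      · exact ⟨hg2, hg0⟩
      · exact hF x hx)
    have e : ∀ x : H, dot ![1, t, 0] x = x 0 + t * x 1 := by
      intro x; simp [dot]
    have hgt := ht g (Finset.mem_insert_self _ _)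
    rcases lt_or_gt_of_ne hgt with h1 | h1
    · refine ⟨(-1 : ℝ) • ![1, t, 0], ?_, ?_, ?_⟩
      · simp
      · intro x hx
        rw [smul_dot, e]
        have := ht x (Finset.mem_insert_of_mem hx)
        intro h5
        apply this
        linarith
      · rw [smul_dot, e]; linarith
    · refine ⟨![1, t, 0], rfl, ?_, ?_⟩
      · intro x hx
        rw [e]
        exact ht x (Finset.mem_insert_of_mem hx)
      · rw [e]; exact h1
  have key : ∀ x : H, Filter.Tendsto (fun ε : ℝ => dot (l0 + ε • m) x) (nhdsWithin 0 (Set.Ioi 0))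
      (nhds (dot l0 x)) := by
    intro x
    have h1 : (fun ε : ℝ => dot (l0 + ε • m) x) = fun ε : ℝ => dot l0 x + ε * dot m x := by
      funext ε
      rw [add_dot, smul_dot]
    rw [h1]
    have h2 : Continuous fun ε : ℝ => dot l0 x + ε * dot m x := by fun_prop
    have h3 := (h2.tendsto 0).mono_left (nhdsWithin_le_nhds (s := Set.Ioi (0 : ℝ)))
    simpa using h3
  have hpos : ∀ᶠ ε : ℝ in nhdsWithin 0 (Set.Ioi 0), 0 < ε := self_mem_nhdsWithin
  have h1 : ∀ x ∈ Fs, ∀ᶠ ε : ℝ in nhdsWithin 0 (Set.Ioi 0), dot (l0 + ε • m) x ≠ 0 ∧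
      (0 < dot l0 x → 0 < dot (l0 + ε • m) x) ∧ (dot l0 x < 0 → dot (l0 + ε • m) x < 0) := by
    intro x hx
    rcases lt_trichotomy (dot l0 x) 0 with h | h | h
    · filter_upwards [(key x).eventually (gt_mem_nhds h)] with ε hε
      exact ⟨hε.ne, fun h' => absurd h' (not_lt.mpr h.le), fun _ => hε⟩
    · filter_upwards [hpos] with ε hε
      refine ⟨?_, fun h' => absurd h' (by rw [h]; exact lt_irrefl _),
        fun h' => absurd h' (by rw [h]; exact lt_irrefl _)⟩
      rw [add_dot, smul_dot, h, zero_add]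
      exact mul_ne_zero hε.ne' (hmF x hx)
    · filter_upwards [(key x).eventually (lt_mem_nhds h)] with ε hε
      exact ⟨hε.ne', fun _ => hε, fun h' => absurd h' (not_lt.mpr h.le)⟩
  have h2 := (Filter.eventually_all_finset Fs).mpr h1
  obtain ⟨ε, hε, hall⟩ := (hpos.and h2).exists
  refine ⟨l0 + ε • m, ?_, ?_, hall⟩
  · simp [h0, hm2]
  · rw [add_dot, smul_dot]
    have := mul_pos hε hmg
    linarith

variable {X : Type} [Fintype X] {α : X × ZMod 4 → X × ZMod 4} {inf : X} {s : X → ZMod 4}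
  {D : ZMod 4 → H} {P : X → H}

/-- generic functionals near a given one -/
theorem Draw.exists_gen (h : Rigid α) (dw : Draw α inf s D P) (l0 : H) (h0 : l0 2 = 0)
    (g : X × ZMod 4) (hg : 0 ≤ dot l0 (dr α inf D P g)) :
    ∃ l, Gen α inf D P l ∧ 0 < dot l (dr α inf D P g) ∧
      ∀ d, (0 < dot l0 (dr α inf D P d) → 0 < dot l (dr α inf D P d)) ∧
        (dot l0 (dr α inf D P d) < 0 → dot l (dr α inf D P d) < 0) := by
  classical
  obtain ⟨l, hl2, hlg, hl⟩ := exists_generic (Finset.univ.image (dr α inf D P)) (by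
      intro x hx
      obtain ⟨d, -, rfl⟩ := Finset.mem_image.mp hx
      exact ⟨dw.flat d, dw.ne0 h d⟩) l0 h0 (dr α inf D P g) (dw.flat g) (dw.ne0 h g) hg
  have hl' : ∀ d, dot l (dr α inf D P d) ≠ 0 ∧
      (0 < dot l0 (dr α inf D P d) → 0 < dot l (dr α inf D P d)) ∧
        (dot l0 (dr α inf D P d) < 0 → dot l (dr α inf D P d) < 0) :=
    fun d => hl _ (Finset.mem_image_of_mem _ (Finset.mem_univ d))
  exact ⟨l, ⟨hl2, fun d => (hl' d).1⟩, hlg, fun d => (hl' d).2⟩

private theorem rs_bool1 : ∀ c : ZMod 4 → Bool, ¬ (c 0 = c 3 ∧ c 3 = c 2) →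
    (c 2 = c 0 → c 1 = c 0) →
    (Finset.univ.filter (fun i : ZMod 4 => c i ≠ c (i + 1))).card = 2 := by
  decide

private theorem rs_bool2 : ∀ (c : ZMod 4 → Bool) (t : ZMod 4), c (t + 2) = !c t →
    (Finset.univ.filter (fun i : ZMod 4 => c i ≠ c (i + 1))).card = 2 := by
  decide

private theorem rs_bool3 : ∀ (c : ZMod 4 → Bool) (i j : ZMod 4), i ≠ j → c i = c j →
    c i ≠ c (i + 1) → c j ≠ c (j + 1) →
    (Finset.univ.filter (fun i : ZMod 4 => c i ≠ c (i + 1))).card ≠ 2 := by
  decide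

/-- the sign of a dart -/
private noncomputable def rs_sg (α : X × ZMod 4 → X × ZMod 4) (inf : X) (D : ZMod 4 → H)
    (P : X → H) (l : H) (d : X × ZMod 4) : Bool :=
  @decide (0 < dot l (dr α inf D P d)) (Classical.dec _)

omit [Fintype X] in
private theorem rs_sg_true {l : H} {d : X × ZMod 4} :
    rs_sg α inf D P l d = true ↔ 0 < dot l (dr α inf D P d) := by
  simp [rs_sg]

omit [Fintype X] in
private theorem rs_sg_false {l : H} (hl : Gen α inf D P l) {d : X × ZMod 4} :
    rs_sg α inf D P l d = false ↔ dot l (dr α inf D P d) < 0 := by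
  simp only [rs_sg, decide_eq_false_iff_not, not_lt]
  exact ⟨fun h => lt_of_le_of_ne h (hl.2 d), fun h => h.le⟩

omit [Fintype X] in
private theorem rs_port_sign (dw : Draw α inf s D P) {l : H} (hl : Gen α inf D P l) :
    ¬ (rs_sg α inf D P l (inf, 0) = rs_sg α inf D P l (inf, 3) ∧
      rs_sg α inf D P l (inf, 3) = rs_sg α inf D P l (inf, 2)) ∧
    (rs_sg α inf D P l (inf, 2) = rs_sg α inf D P l (inf, 0) →
      rs_sg α inf D P l (inf, 1) = rs_sg α inf D P l (inf, 0)) := by
  have e3 : (-3 : ZMod 4) = 1 := by decide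
  have e2 : (-2 : ZMod 4) = 2 := by decide
  have e1 : (-1 : ZMod 4) = 3 := by decide
  have e0 : (-0 : ZMod 4) = 0 := by decide
  have hv : ∀ i : ZMod 4, dot l (dr α inf D P (inf, i)) = - dot l (D (-i)) := by
    intro i; rw [dr_inf, rs_dot_neg]
  have n0 : dot l (D 0) ≠ 0 := by
    have := hl.2 (inf, 0); rw [hv, e0] at this; simpa using this
  have n1 : dot l (D 1) ≠ 0 := by
    have := hl.2 (inf, 3); rw [hv, e3] at this; simpa using this
  have n2 : dot l (D 2) ≠ 0 := by
    have := hl.2 (inf, 2); rw [hv, e2] at this; simpa using this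
  have t : ∀ i : ZMod 4, rs_sg α inf D P l (inf, i) = true ↔ dot l (D (-i)) < 0 := by
    intro i
    rw [rs_sg_true, hv]
    constructor <;> intro h <;> linarith
  have f : ∀ i : ZMod 4, rs_sg α inf D P l (inf, i) = false ↔ 0 < dot l (D (-i)) := by
    intro i
    rw [rs_sg_false hl, hv]
    constructor <;> intro h <;> linarith
  have f0 := dw.cfg.flat 0
  have f1 := dw.cfg.flat 1
  have f2 := dw.cfg.flat 2
  have hrel : d2 (D 1) (D 2) * dot l (D 0) + d2 (D 2) (D 0) * dot l (D 1) +
      d2 (D 0) (D 1) * dot l (D 2) = 0 := by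
    simp only [d2, dot, f0, f1, f2]; ring
  have p01 := dw.cfg.d01
  have p12 := dw.cfg.d12
  have p20 := dw.cfg.d20
  constructor
  · rintro ⟨h1, h2⟩
    cases h3 : rs_sg α inf D P l (inf, 0)
    · rw [h3] at h1
      rw [← h1] at h2
      have a0 := (f 0).1 h3
      have a1 := (f 3).1 h1.symm
      have a2 := (f 2).1 h2.symm
      rw [e0] at a0; rw [e3] at a1; rw [e2] at a2
      have := mul_pos p12 a0
      have := mul_pos p20 a1
      have := mul_pos p01 a2
      linarith
    · rw [h3] at h1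
      rw [← h1] at h2
      have a0 := (t 0).1 h3
      have a1 := (t 3).1 h1.symm
      have a2 := (t 2).1 h2.symm
      rw [e0] at a0; rw [e3] at a1; rw [e2] at a2
      have := mul_neg_of_pos_of_neg p12 a0
      have := mul_neg_of_pos_of_neg p20 a1
      have := mul_neg_of_pos_of_neg p01 a2
      linarith
  · intro h1
    obtain ⟨x, y, hx, hy, e⟩ := dw.cfg.d3
    have h3 : dot l (D 3) = x * dot l (D 2) + y * dot l (D 0) := by
      rw [e, dot_add, dot_smul, dot_smul]
    cases h4 : rs_sg α inf D P l (inf, 0)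
    · rw [h4] at h1
      have a0 := (f 0).1 h4
      have a2 := (f 2).1 h1
      rw [e0] at a0; rw [e2] at a2
      rw [f 1, e1, h3]
      have := mul_nonneg hx a2.le
      have := mul_pos hy a0
      linarith
    · rw [h4] at h1
      have a0 := (t 0).1 h4
      have a2 := (t 2).1 h1
      rw [e0] at a0; rw [e2] at a2
      rw [t 1, e1, h3]
      have := mul_nonpos_of_nonneg_of_nonpos hx a2.le
      have := mul_neg_of_pos_of_neg hy a0
      linarith

private theorem rs_hs (h : Rigid α) {l : H} (hl : Gen α inf D P l) (d : X × ZMod 4) :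
    rs_sg α inf D P l (α d) = !rs_sg α inf D P l d := by
  have e : dot l (dr α inf D P (α d)) = - dot l (dr α inf D P d) := by
    rw [h.dr_neg, rs_dot_neg]
  cases h1 : rs_sg α inf D P l d
  · rw [rs_sg_false hl] at h1
    simp only [Bool.not_false]
    rw [rs_sg_true, e]; linarith
  · rw [rs_sg_true] at h1
    simp only [Bool.not_true]
    rw [rs_sg_false hl, e]; linarith

omit [Fintype X] in
private theorem rs_hv (dw : Draw α inf s D P) {l : H} (hl : Gen α inf D P l) (v : X) :
    Nat.card {i : ZMod 4 // rs_sg α inf D P l (v, i) ≠ rs_sg α inf D P l (v, i + 1)} = 2 := by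
  classical
  rw [Nat.card_eq_fintype_card, Fintype.card_subtype]
  by_cases hv : v = inf
  · subst hv
    obtain ⟨h1, h2⟩ := rs_port_sign dw hl
    exact rs_bool1 (fun i => rs_sg α v D P l (v, i)) h1 h2
  · obtain ⟨c, hc, e⟩ := dw.str v hv
    refine rs_bool2 (fun i => rs_sg α inf D P l (v, i)) (s v) ?_
    have e1 : dot l (dr α inf D P (v, s v + 2)) = - (c * dot l (dr α inf D P (v, s v))) := by
      rw [e, rs_dot_neg, dot_smul]
    show rs_sg α inf D P l (v, s v + 2) = !rs_sg α inf D P l (v, s v)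
    cases h1 : rs_sg α inf D P l (v, s v)
    · rw [rs_sg_false hl] at h1
      simp only [Bool.not_false]
      rw [rs_sg_true, e1]
      have := mul_neg_of_pos_of_neg hc h1
      linarith
    · rw [rs_sg_true] at h1
      simp only [Bool.not_true]
      rw [rs_sg_false hl, e1]
      have := mul_pos hc h1
      linarith

private theorem rs_hf (h : Rigid α) {l : H} (hl : Gen α inf D P l) (d : X × ZMod 4)
    (hd : ∀ n, ((fs α)^[n] d).1 ≠ inf) :
    ∃ n, rs_sg α inf D P l ((fs α)^[n] d) ≠ rs_sg α inf D P l d := by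
  by_contra hcon
  push Not at hcon
  have hp := h.period_pos d
  set p := minimalPeriod (fs α) d with hpdef
  have hstep : ∀ n, dr α inf D P ((fs α)^[n] d) =
      P ((fs α)^[n + 1] d).1 - P ((fs α)^[n] d).1 := by
    intro n
    have h1 : ((fs α)^[n + 1] d).1 = (α ((fs α)^[n] d)).1 := by
      rw [iterate_succ_apply']; rfl
    rw [dr_edge (hd n) (by rw [← h1]; exact hd (n + 1)), h1]
  have hsum : ∑ n ∈ Finset.range p, dot l (dr α inf D P ((fs α)^[n] d)) = 0 := by
    have h1 : ∀ n ∈ Finset.range p, dot l (dr α inf D P ((fs α)^[n] d)) =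
        dot l (P ((fs α)^[n + 1] d).1) - dot l (P ((fs α)^[n] d).1) := by
      intro n _
      rw [hstep, dot_sub]
    rw [Finset.sum_congr rfl h1,
      Finset.sum_range_sub (fun n => dot l (P ((fs α)^[n] d).1)) p]
    have h2 : (fs α)^[p] d = d := iterate_minimalPeriod
    rw [h2]
    simp
  cases h1 : rs_sg α inf D P l d
  · have h2 : ∀ n ∈ Finset.range p, dot l (dr α inf D P ((fs α)^[n] d)) < 0 := by
      intro n _
      rw [← rs_sg_false hl, hcon n, h1]
    have h3 := Finset.sum_lt_sum_of_nonempty (Finset.nonempty_range_iff.mpr hp.ne') h2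
    rw [hsum] at h3
    simp at h3
  · have h2 : ∀ n ∈ Finset.range p, 0 < dot l (dr α inf D P ((fs α)^[n] d)) := by
      intro n _
      rw [← rs_sg_true, hcon n, h1]
    have h3 := Finset.sum_pos h2 (Finset.nonempty_range_iff.mpr hp.ne')
    rw [hsum] at h3
    exact lt_irrefl _ h3

omit [Fintype X] in
private theorem rs_mul_pos {l : H} (hl : Gen α inf D P l) {d e : X × ZMod 4}
    (h : rs_sg α inf D P l e = rs_sg α inf D P l d) :
    0 < dot l (dr α inf D P d) * dot l (dr α inf D P e) := by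
  cases h1 : rs_sg α inf D P l d
  · rw [h1] at h
    rw [rs_sg_false hl] at h h1
    exact mul_pos_of_neg_of_neg h1 h
  · rw [h1] at h
    rw [rs_sg_true] at h h1
    exact mul_pos h1 h

theorem Draw.inf_changes (h : Rigid α) (dw : Draw α inf s D P) {l : H}
    (hl : Gen α inf D P l) :
    Nat.card {i : ZMod 4 // ¬ (0 < dot l (dr α inf D P (inf, i)) ↔
      0 < dot l (dr α inf D P (inf, i + 1)))} = 2 := by
  classical
  have h1 := rs_hv dw hl inf
  rw [← h1]
  apply Nat.card_congr
  apply Equiv.subtypeEquivRight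
  intro i
  rw [← rs_sg_true (P := P), ← rs_sg_true (P := P)]
  cases rs_sg α inf D P l (inf, i) <;> cases rs_sg α inf D P l (inf, i + 1) <;> simp

theorem Draw.straddle (h : Rigid α) (dw : Draw α inf s D P) {l : H} (hl : Gen α inf D P l)
    {i : ZMod 4} (hi : dot l (dr α inf D P (inf, i)) * dot l (dr α inf D P (inf, i + 1)) < 0)
    (n : ℕ) :
    0 < dot l (dr α inf D P (inf, i)) * dot l (dr α inf D P ((fs α)^[n] (inf, i))) := by
  have hne : rs_sg α inf D P l (inf, i) ≠ rs_sg α inf D P l (inf, i + 1) := by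
    intro h1
    have := rs_mul_pos hl h1.symm
    linarith
  exact rs_mul_pos hl (h.straddle (rs_hs h hl) (rs_hv dw hl) (rs_hf h hl) hne n)

theorem Draw.patL (h : Rigid α) (dw : Draw α inf s D P) {l : H} (hl : Gen α inf D P l)
    {i : ZMod 4} {j k m : ℕ} (hjk : j < k) (hkm : k < m)
    (hm : ∀ n, 0 < n → n ≤ m → ((fs α)^[n] (inf, i)).1 ≠ inf)
    (h1 : 0 < dot l (dr α inf D P ((fs α)^[j] (inf, i))))
    (h2 : dot l (dr α inf D P ((fs α)^[k] (inf, i))) < 0) :
    dot l (dr α inf D P ((fs α)^[m] (inf, i))) < 0 := by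
  by_contra hcon
  rw [← rs_sg_false hl] at hcon
  have h3 : rs_sg α inf D P l ((fs α)^[m] (inf, i)) = true := by
    revert hcon; cases rs_sg α inf D P l ((fs α)^[m] (inf, i)) <;> simp
  rw [← rs_sg_true] at h1
  rw [← rs_sg_false hl] at h2
  have h4 := h.index_L (rs_hs h hl) (rs_hv dw hl) (rs_hf h hl) hjk hkm hm (h1.trans h3.symm)
  rw [h2, h3] at h4
  exact absurd h4 (by decide)

theorem Draw.patL' (h : Rigid α) (dw : Draw α inf s D P) {l : H} (hl : Gen α inf D P l)
    {i : ZMod 4} {j k m : ℕ} (hjk : j < k) (hkm : k < m)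
    (hm : ∀ n, 0 < n → n ≤ m → ((fs α)^[n] (inf, i)).1 ≠ inf)
    (h1 : dot l (dr α inf D P ((fs α)^[j] (inf, i))) < 0)
    (h2 : 0 < dot l (dr α inf D P ((fs α)^[k] (inf, i)))) :
    0 < dot l (dr α inf D P ((fs α)^[m] (inf, i))) := by
  by_contra hcon
  rw [← rs_sg_true] at hcon
  have h3 : rs_sg α inf D P l ((fs α)^[m] (inf, i)) = false := by
    revert hcon; cases rs_sg α inf D P l ((fs α)^[m] (inf, i)) <;> simp
  rw [← rs_sg_true] at h2
  rw [← rs_sg_false hl] at h1
  have h4 := h.index_L (rs_hs h hl) (rs_hv dw hl) (rs_hf h hl) hjk hkm hm (h1.trans h3.symm)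
  rw [h2, h3] at h4
  exact absurd h4 (by decide)

theorem Draw.patC (h : Rigid α) (dw : Draw α inf s D P) {l : H} (hl : Gen α inf D P l)
    {d : X × ZMod 4} (hd : ∀ n, ((fs α)^[n] d).1 ≠ inf) {i j k m : ℕ} (hij : i < j)
    (hjk : j < k) (hkm : k < m) (hmi : m < i + minimalPeriod (fs α) d)
    (h1 : 0 < dot l (dr α inf D P ((fs α)^[i] d)))
    (h2 : dot l (dr α inf D P ((fs α)^[j] d)) < 0)
    (h3 : 0 < dot l (dr α inf D P ((fs α)^[k] d))) :
    0 < dot l (dr α inf D P ((fs α)^[m] d)) := by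
  rw [← rs_sg_true] at h1 h3 ⊢
  rw [← rs_sg_false hl] at h2
  rw [← h3]
  exact (h.index_C (rs_hs h hl) (rs_hv dw hl) (rs_hf h hl) hd hij hjk hkm hmi
    (by rw [h1, h2]; decide) (by rw [h2, h3]; decide)).symm

private theorem rs_once (h : Rigid α) (dw : Draw α inf s D P) {i j : ZMod 4} {n : ℕ}
    (hn : (fs α)^[n] (inf, i) = (inf, j)) (hi : i ≠ 0) : i = j := by
  by_contra hij
  have hk3 : -i - 1 ≠ (3 : ZMod 4) := by
    have h0 : ∀ i : ZMod 4, i ≠ 0 → -i - 1 ≠ (3 : ZMod 4) := by decide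
    exact h0 i hi
  have hgap := dw.cfg.gap' hk3
  have hk1 : -i - 1 + 1 = (-i : ZMod 4) := by ring
  rw [hk1] at hgap
  set w : H := D (-i - 1) + D (-i) with hw
  have el0 : ∀ x : H, dot ![-(w 1), w 0, 0] x = d2 w x := by
    intro x; simp [dot, d2]; ring
  have hv1 : dot ![-(w 1), w 0, 0] (D (-i - 1)) < 0 := by
    rw [el0, hw, d2_add_left, d2_self, zero_add, d2_swap]
    linarith
  have hv2 : 0 < dot ![-(w 1), w 0, 0] (D (-i)) := by
    rw [el0, hw, d2_add_left, d2_self, add_zero]
    exact hgap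
  have hi1 : -(i + 1) = (-i - 1 : ZMod 4) := by ring
  have hd1 : dot ![-(w 1), w 0, 0] (dr α inf D P (inf, i)) < 0 := by
    rw [dr_inf, rs_dot_neg]; linarith
  have hd2 : 0 < dot ![-(w 1), w 0, 0] (dr α inf D P (inf, i + 1)) := by
    rw [dr_inf, rs_dot_neg, hi1]; linarith
  obtain ⟨l, hl, -, hl'⟩ := dw.exists_gen h ![-(w 1), w 0, 0] rfl (inf, i + 1) hd2.le
  have c1 : rs_sg α inf D P l (inf, i) = false := (rs_sg_false hl).2 ((hl' _).2 hd1)
  have c2 : rs_sg α inf D P l (inf, i + 1) = true := rs_sg_true.2 ((hl' _).1 hd2)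
  have hne : rs_sg α inf D P l (inf, i) ≠ rs_sg α inf D P l (inf, i + 1) := by
    rw [c1, c2]; decide
  have hstr := h.straddle (rs_hs h hl) (rs_hv dw hl) (rs_hf h hl) hne
  have c3 : rs_sg α inf D P l (inf, j) = false := by rw [← hn, hstr n, c1]
  by_cases hj : rs_sg α inf D P l (inf, j) = rs_sg α inf D P l (inf, j + 1)
  · have e1 : fs α (α (inf, j + 1)) = (inf, j) := by
      simp only [fs, h.inv]
      simp [pv]
    obtain ⟨m, hm⟩ := h.orbit_symm (d := α (inf, j + 1)) (e := (inf, j)) (n := 1) e1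
    have c4 : rs_sg α inf D P l (α (inf, j + 1)) = false := by
      rw [← hm, ← hn, ← iterate_add_apply, hstr, c1]
    rw [rs_hs h hl, ← hj, c3] at c4
    exact absurd c4 (by decide)
  · have h5 := rs_hv dw hl inf
    classical
    rw [Nat.card_eq_fintype_card, Fintype.card_subtype] at h5
    exact rs_bool3 (fun i => rs_sg α inf D P l (inf, i)) i j hij (c1.trans c3.symm) hne hj h5

theorem Draw.inf_once (h : Rigid α) (dw : Draw α inf s D P) {i j : ZMod 4} {n : ℕ}
    (hn : (fs α)^[n] (inf, i) = (inf, j)) : i = j := by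
  by_cases hi : i = 0
  · obtain ⟨m, hm⟩ := h.orbit_symm hn
    by_cases hj : j = 0
    · rw [hi, hj]
    · exact (rs_once h dw hm hj).symm
  · exact rs_once h dw hn hi

end SN78
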