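import Pool.Agent.SN78.RConv
import Pool.Agent.SN78.RChain

/-!
# SN78 module RSWEEP: the edges crossing a generic line

`l` is a generic functional, `c` a level different from the levels of all sites.  `Cr l c d`: the dart
`d` goes up (`dot l (dr d) > 0`) and crosses the level `c`; `zc l c d` is the crossing point; `xc l` measures
the position on the level line (to the right).  For points `z, z'` with third coordinate `1` on the same
level, `z' - z = ((xc l z' - xc l z) / (l 0 ^ 2 + l 1 ^ 2)) • (l 1, - l 0, 0)`, and for a direction `u` with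
`dot l u > 0`: `dt z u z' > 0` iff `xc l z' < xc l z`.

`zc_lvl`: easy.  `sweep`: apply `chain_lemma` to the finite set `E` of all `d` with `Cr l c d`, `x = xc l ∘ zc`,
`R d e := ∃ n, (fs α)^[n] d = α e` (`α e` is a dart of the face to the left of `d` which goes down).

h1: let `R d e`, `L z = dt (P (bs d)) (dr d) z`.  `zc e` is a combination with positive coefficients of the two
homogeneous ends of `e` (`P` of a site, or `D (-i)` for the end `inf`).  Both ends are sites (far points) of
the face: the site of `α e = (fs α)^[n] d` and the site of `fs α (α e)`; a far end of `e` is the far point of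
port `α e` or of the next corner.  So `L (zc e) ≥ 0` by RCONV, and `L (zc e) > 0`, hence `x e < x d`, unless
both ends give `0`.  In that case the ends `≠ inf` of `e` are ends of `d` (`conv_site'`).  If `e` has no far end:
`α e = d` or `α e = α d` by `simple`; the first is impossible since `d` goes up and `α e` goes down; the
second is excluded by `two_sides`.  If `e` has a far end and the site `u`: `u` is an end of `d`, and the
port direction is parallel to `dr d`.  `d ≠ α e`, and `d ≠ e` by `two_sides`.  So two different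
darts of `u` have parallel directions; by `hp` and since all four corners are positive they are
opposite darts with opposite directions; then `d` and `e` are on different sides of the level of `u`
and cannot both cross the level `c`.

h2: let `R d e`, `R d' e`, so `d, d'` are in the same orbit.  Suppose `d ≠ d'`.
(A) no `inf` in the orbit: `d' = y j`, `y n = (fs α)^[n] d`, `0 < j < N = period`.  After `y 0` the level is
above `c`, before `y j` it is below `c`, so there is `0 < r < j` with `y r` going down; similarly
`j < r' < N`.  Signs `+, -, +, -` contradict `patC`.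
(B) otherwise with `Y n` as in RCONV, `d = Y j`, `d' = Y j'`, `j < j'` (say): there is `j < r < j'` with
`Y r` going down, and `patL` gives a contradiction.

h3: claim: if `d ∈ E` has no successor then its face has a corner `(inf, i)` with
`dot l (dr (inf, i)) > 0`, `dot l (dr (inf, i + 1)) < 0`.  By `inf_changes` there is at most one such `i`, so two such
`d, d'` are in the same orbit, and they are equal as in h2.  Proof of the claim:
(A) no `inf` in the orbit: after `d` the level is above `c`, at the end (before `d` again) below `c`;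
let `y r` be the first dart with end below `c`: it goes down, `e = α (y r)` satisfies `Cr`.
(B) `d = Y j`.  If `Y (N - 1)` goes down: among `Y (j + 1), ..., Y (N - 1)` the first dart whose end is
below `c` (or at infinity) crosses the level downwards.  If `Y 0 = (inf, i)` goes down: among
`Y 0, ..., Y (j - 1)` the last dart whose beginning is above `c` (or at infinity) crosses
downwards.  If both go up: `dot l (dr (inf, i)) > 0`, and
`dr (inf, i + 1) = - dr (α (inf, i + 1)) = - dr (Y (N - 1))`.
-/

namespace SN78

open Function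

variable {X : Type}

/-- the dart `d` goes up and crosses the level `c` -/
def Cr (α : X × ZMod 4 → X × ZMod 4) (inf : X) (D : ZMod 4 → H) (P : X → H) (l : H) (c : ℝ)
    (d : X × ZMod 4) : Prop :=
  0 < dot l (dr α inf D P d) ∧ (d.1 ≠ inf → dot l (P d.1) < c) ∧
    ((α d).1 ≠ inf → c < dot l (P (α d).1))

/-- the crossing point -/
noncomputable def zc (α : X × ZMod 4 → X × ZMod 4) (inf : X) (D : ZMod 4 → H) (P : X → H)
    (l : H) (c : ℝ) (d : X × ZMod 4) : H :=
  P (bs α inf d) +
    ((c - dot l (P (bs α inf d))) / dot l (dr α inf D P d)) • dr α inf D P d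

/-- the position on the level line -/
def xc (l z : H) : ℝ := l 1 * z 0 - l 0 * z 1

variable [Fintype X] {α : X × ZMod 4 → X × ZMod 4} {inf : X} {s : X → ZMod 4}
  {D : ZMod 4 → H} {P : X → H}

private theorem sw_neg (l a : H) : dot l (-a) = - dot l a := by
  simp only [dot, Pi.neg_apply]; ring

private theorem sw_key {l p u z : H} (hl : l 2 = 0) (hp : p 2 = 1) (hu : u 2 = 0) (hz : z 2 = 1)
    {t : ℝ} (ht : dot l z = dot l p + t * dot l u) :
    (l 0 ^ 2 + l 1 ^ 2) * dt p u z = (xc l (p + t • u) - xc l z) * dot l u := by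
  simp only [dot, hl, zero_mul, add_zero] at ht ⊢
  simp only [dt, xc, Pi.add_apply, Pi.smul_apply, smul_eq_mul, hp, hu, hz]
  linear_combination (l 1 * u 0 - l 0 * u 1) * ht

theorem Draw.zc_lvl (h : Rigid α) (dw : Draw α inf s D P) {l : H} (hl : Gen α inf D P l)
    (c : ℝ) (d : X × ZMod 4) :
    dot l (zc α inf D P l c d) = c ∧ zc α inf D P l c d 2 = 1 := by
  have h0 := hl.2 d
  constructor
  · unfold zc
    rw [dot_add, dot_smul, div_mul_cancel₀ _ h0]
    ring
  · simp only [zc, Pi.add_apply, Pi.smul_apply, smul_eq_mul, dw.nP, dw.flat d]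
    ring

omit [Fintype X] in
private theorem sw_flat (dw : Draw α inf s D P) (d : X × ZMod 4) {r : H} (hr : r 2 = 0) :
    dt (P (bs α inf d)) (dr α inf D P d) r = d2 (dr α inf D P d) r := by
  rw [dt_eq_d2 _ _ _ (dw.nP _), dw.flat d, hr, zero_smul, sub_zero, sub_zero]

private theorem sw_add (a b c e : H) : dt a b (c + e) = dt a b c + dt a b e := by
  simp only [dt, Pi.add_apply]; ring

private theorem sw_sub (a b c e : H) : dt a b (c - e) = dt a b c - dt a b e := by
  simp only [dt, Pi.sub_apply]; ring

private theorem sw_dneg (a b c : H) : dt a b (-c) = - dt a b c := by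
  simp only [dt, Pi.neg_apply]; ring

private theorem sw_side (h : Rigid α) {l : H} {c : ℝ} {d a : X × ZMod 4}
    (hd : Cr α inf D P l c d) (ha : a = d ∨ a = α d) (hi : a.1 ≠ inf) :
    0 < dot l (dr α inf D P a) * (c - dot l (P a.1)) := by
  rcases ha with rfl | rfl
  · have := hd.2.1 hi
    exact mul_pos hd.1 (by linarith)
  · have := hd.2.2 hi
    rw [h.dr_neg, sw_neg]
    exact mul_pos_of_neg_of_neg (by linarith [hd.1]) (by linarith)

omit [Fintype X] in
private theorem sw_par (hp : Conv α inf D P) {l : H} (hl : Gen α inf D P l)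
    {a b : X × ZMod 4} (hab : b.1 = a.1) (hne : b ≠ a) (hi : a.1 ≠ inf)
    (h0 : d2 (dr α inf D P a) (dr α inf D P b) = 0) :
    dot l (dr α inf D P a) * dot l (dr α inf D P b) < 0 := by
  have hk : ∀ i j : ZMod 4, i ≠ j → i = j + 1 ∨ i = j + 1 + 1 ∨ j = i + 1 := by decide
  have hne2 : b.2 ≠ a.2 := fun e => hne (Prod.ext hab e)
  rcases hk b.2 a.2 hne2 with h1 | h1 | h1
  · have e : b = nx a := Prod.ext hab h1
    have := hp a hi
    rw [← e, h0] at this
    exact absurd this (lt_irrefl _)
  · have e : b = nx (nx a) := Prod.ext hab h1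
    have g1 := hp a hi
    have g2 := hp (nx a) hi
    rw [← e] at g2
    have key : dot l (dr α inf D P b) * d2 (dr α inf D P a) (dr α inf D P (nx a)) +
        dot l (dr α inf D P a) * d2 (dr α inf D P (nx a)) (dr α inf D P b) = 0 := by
      have h2 : dot l (dr α inf D P b) * d2 (dr α inf D P a) (dr α inf D P (nx a)) +
        dot l (dr α inf D P a) * d2 (dr α inf D P (nx a)) (dr α inf D P b) =
        dot l (dr α inf D P (nx a)) * d2 (dr α inf D P a) (dr α inf D P b) := by
        simp only [dot, d2, hl.1]
        ring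
      rw [h2, h0, mul_zero]
    have h3 := hl.2 a
    have h4 : 0 < dot l (dr α inf D P a) ^ 2 := by positivity
    by_contra h5
    rw [not_lt] at h5
    have h6 := mul_nonneg h5 g1.le
    have h7 := mul_pos h4 g2
    have h8 : dot l (dr α inf D P a) * dot l (dr α inf D P b) *
        d2 (dr α inf D P a) (dr α inf D P (nx a)) =
        - (dot l (dr α inf D P a) ^ 2 * d2 (dr α inf D P (nx a)) (dr α inf D P b)) := by
      linear_combination dot l (dr α inf D P a) * key
    linarith
  · have e : a = nx b := Prod.ext hab.symm h1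
    have := hp b (by rw [hab]; exact hi)
    rw [← e, d2_swap, h0] at this
    simp at this

private theorem sw_contra (h : Rigid α) (dw : Draw α inf s D P) (hp : Conv α inf D P) {l : H}
    (hl : Gen α inf D P l) {c : ℝ} {d e a b : X × ZMod 4} {n : ℕ} (hd : Cr α inf D P l c d)
    (he : Cr α inf D P l c e) (hn : (fs α)^[n] d = α e) (ha : a = d ∨ a = α d)
    (hb : b = e ∨ b = α e) (hab : b.1 = a.1) (hi : a.1 ≠ inf)
    (h0 : d2 (dr α inf D P d) (dr α inf D P e) = 0) : False := by
  have hde : d ≠ e := by
    rintro rfl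
    exact dw.two_sides h hp d n hn
  have hdae : d ≠ α e := by
    intro h1
    have h2 := hd.1
    rw [h1, h.dr_neg, sw_neg] at h2
    linarith [he.1]
  have hne : b ≠ a := by
    intro h1
    rcases ha with rfl | rfl <;> rcases hb with rfl | rfl
    · exact hde h1.symm
    · exact hdae h1.symm
    · apply hdae
      rw [h1, h.inv]
    · apply hde
      have := congrArg α h1
      rw [h.inv, h.inv] at this
      exact this.symm
  have h1 : d2 (dr α inf D P a) (dr α inf D P b) = 0 := by
    have hnl : ∀ x y : H, d2 (-x) y = - d2 x y := by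
      intro x y; simp only [d2, Pi.neg_apply]; ring
    have hnr : ∀ x y : H, d2 x (-y) = - d2 x y := by
      intro x y; simp only [d2, Pi.neg_apply]; ring
    rcases ha with rfl | rfl <;> rcases hb with rfl | rfl
    · exact h0
    · rw [h.dr_neg, hnr, h0, neg_zero]
    · rw [h.dr_neg, hnl, h0, neg_zero]
    · rw [h.dr_neg, h.dr_neg, hnl, hnr, h0, neg_zero, neg_zero]
  have h2 := sw_par hp hl hab hne hi h1
  have h3 := sw_side h hd ha hi
  have h4 := sw_side h he hb (by rw [hab]; exact hi)
  rw [hab] at h4
  have h5 := mul_pos h3 h4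
  have h6 : dot l (dr α inf D P a) * (c - dot l (P a.1)) *
      (dot l (dr α inf D P b) * (c - dot l (P a.1))) =
      (dot l (dr α inf D P a) * dot l (dr α inf D P b)) * (c - dot l (P a.1)) ^ 2 := by ring
  rw [h6] at h5
  have h7 := mul_nonpos_of_nonpos_of_nonneg h2.le (sq_nonneg (c - dot l (P a.1)))
  linarith

private theorem sw_pos (h : Rigid α) (dw : Draw α inf s D P) (hp : Conv α inf D P) {l : H}
    (hl : Gen α inf D P l) {c : ℝ} {d e : X × ZMod 4} {n : ℕ} (hd : Cr α inf D P l c d)
    (he : Cr α inf D P l c e) (hn : (fs α)^[n] d = α e) :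
    0 < dt (P (bs α inf d)) (dr α inf D P d) (zc α inf D P l c e) := by
  set L : H → ℝ := fun z => dt (P (bs α inf d)) (dr α inf D P d) z with hL
  have hn1 : (fs α)^[n + 1] d = pv e := by
    rw [iterate_succ_apply' (fs α), hn]
    show pv (α (α e)) = pv e
    rw [h.inv]
  have hs1 : (α e).1 ≠ inf → 0 ≤ L (P (α e).1) ∧
      (L (P (α e).1) = 0 → (α e).1 = d.1 ∨ (α e).1 = (α d).1) := by
    intro h1
    refine ⟨?_, ?_⟩
    · have := dw.conv_site h hp d n (by rw [hn]; exact h1)
      rw [hn] at this
      exact this
    · intro h2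
      by_contra h3
      rw [not_or] at h3
      have := dw.conv_site' h hp d n (by rw [hn]; exact h1) (by rw [hn]; exact h3.1)
        (by rw [hn]; exact h3.2)
      rw [hn] at this
      exact absurd h2 this.ne'
  have hs2 : e.1 ≠ inf → 0 ≤ L (P e.1) ∧
      (L (P e.1) = 0 → e.1 = d.1 ∨ e.1 = (α d).1) := by
    intro h1
    refine ⟨?_, ?_⟩
    · have := dw.conv_site h hp d (n + 1) (by rw [hn1]; exact h1)
      rw [hn1] at this
      exact this
    · intro h2
      by_contra h3
      rw [not_or] at h3
      have := dw.conv_site' h hp d (n + 1) (by rw [hn1]; exact h1) (by rw [hn1]; exact h3.1)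
        (by rw [hn1]; exact h3.2)
      rw [hn1] at this
      exact absurd h2 this.ne'
  have hLdr : L (dr α inf D P e) = d2 (dr α inf D P d) (dr α inf D P e) :=
    sw_flat dw d (dw.flat e)
  have hzero : L (P (bs α inf e)) = 0 → L (dr α inf D P e) = 0 → False := by
    intro h1 h2
    rw [hLdr] at h2
    by_cases hi : e.1 = inf
    · have hi' : (α e).1 ≠ inf := fun h3 => h.noloop e (h3.trans hi.symm)
      have hbs : bs α inf e = (α e).1 := by simp [bs, hi]
      rw [hbs] at h1
      rcases (hs1 hi').2 h1 with h3 | h3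
      · exact sw_contra h dw hp hl hd he hn (a := d) (b := α e) (Or.inl rfl) (Or.inr rfl) h3
          (by rw [← h3]; exact hi') h2
      · exact sw_contra h dw hp hl hd he hn (a := α d) (b := α e) (Or.inr rfl) (Or.inr rfl) h3
          (by rw [← h3]; exact hi') h2
    · have hbs : bs α inf e = e.1 := by simp [bs, hi]
      rw [hbs] at h1
      rcases (hs2 hi).2 h1 with h3 | h3
      · exact sw_contra h dw hp hl hd he hn (a := d) (b := e) (Or.inl rfl) (Or.inl rfl) h3
          (by rw [← h3]; exact hi) h2
      · exact sw_contra h dw hp hl hd he hn (a := α d) (b := e) (Or.inr rfl) (Or.inl rfl) h3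
          (by rw [← h3]; exact hi) h2
  have hexp : L (zc α inf D P l c e) = L (P (bs α inf e)) +
      ((c - dot l (P (bs α inf e))) / dot l (dr α inf D P e)) * L (dr α inf D P e) := by
    simp only [hL, zc]
    rw [sw_add, dt_smul₃]
  show 0 < L (zc α inf D P l c e)
  rw [hexp]
  have hup := he.1
  by_cases hi : e.1 = inf
  · have hi' : (α e).1 ≠ inf := fun h3 => h.noloop e (h3.trans hi.symm)
    have hbs : bs α inf e = (α e).1 := by simp [bs, hi]
    have h1 := (hs1 hi').1
    have h2 : L (dr α inf D P e) ≤ 0 := by
      have h3 : (fs α)^[n + 1] d = (inf, e.2 - 1) := by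
        rw [hn1]; exact Prod.ext hi rfl
      have h4 := (dw.conv_far h hp d (n + 1) h3).2
      have h5 : dr α inf D P e = - D (-(e.2 - 1) - 1) := by
        have h6 : e = (inf, e.2) := Prod.ext hi rfl
        conv_lhs => rw [h6]
        rw [dr_inf]
        congr 2
        ring
      have h7 : L (- D (-(e.2 - 1) - 1)) = - L (D (-(e.2 - 1) - 1)) := sw_dneg _ _ _
      rw [h5, h7]
      have h8 : 0 ≤ L (D (-(e.2 - 1) - 1)) := h4
      linarith
    rw [hbs] at hzero ⊢
    have h3 : (c - dot l (P (α e).1)) / dot l (dr α inf D P e) < 0 :=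
      div_neg_of_neg_of_pos (by linarith [he.2.2 hi']) hup
    have h4 : 0 ≤ (c - dot l (P (α e).1)) / dot l (dr α inf D P e) * L (dr α inf D P e) :=
      mul_nonneg_of_nonpos_of_nonpos h3.le h2
    rcases h1.lt_or_eq with h5 | h5
    · linarith
    · rcases h2.lt_or_eq with h6 | h6
      · have := mul_pos_of_neg_of_neg h3 h6
        linarith
      · exact (hzero h5.symm h6).elim
  · have hbs : bs α inf e = e.1 := by simp [bs, hi]
    have h1 := (hs2 hi).1
    rw [hbs] at hzero ⊢
    have hlow := he.2.1 hi
    have h3 : 0 < (c - dot l (P e.1)) / dot l (dr α inf D P e) :=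
      div_pos (by linarith) hup
    by_cases hi' : (α e).1 = inf
    · have h2 : 0 ≤ L (dr α inf D P e) := by
        have h4 : (fs α)^[n] d = (inf, (α e).2) := by
          rw [hn]; exact Prod.ext hi' rfl
        have h5 := (dw.conv_far h hp d n h4).1
        have h6 : dr α inf D P e = D (-(α e).2) := by
          simp only [dr, hi, hi', if_false, if_true]
        rw [h6]
        exact h5
      have h4 : 0 ≤ (c - dot l (P e.1)) / dot l (dr α inf D P e) * L (dr α inf D P e) :=
        mul_nonneg h3.le h2
      rcases h1.lt_or_eq with h5 | h5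
      · linarith
      · rcases h2.lt_or_eq with h6 | h6
        · have := mul_pos h3 h6
          linarith
        · exact (hzero h5.symm h6.symm).elim
    · have h2 := (hs1 hi').1
      have h4 : dr α inf D P e = P (α e).1 - P e.1 := dr_edge hi hi'
      have h5 : L (dr α inf D P e) = L (P (α e).1) - L (P e.1) := by
        rw [h4]; exact sw_sub _ _ _ _
      have h6 : (c - dot l (P e.1)) / dot l (dr α inf D P e) < 1 := by
        rw [div_lt_one hup, h4, dot_sub]
        linarith [he.2.2 hi']
      set τ := (c - dot l (P e.1)) / dot l (dr α inf D P e) with hτ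
      have h7 : L (P e.1) + τ * L (dr α inf D P e) = (1 - τ) * L (P e.1) + τ * L (P (α e).1) := by
        rw [h5]; ring
      have h8 := mul_nonneg (by linarith : 0 ≤ 1 - τ) h1
      have h9 := mul_nonneg h3.le h2
      rw [h7]
      rcases h1.lt_or_eq with h10 | h10
      · have := mul_pos (by linarith : 0 < 1 - τ) h10
        linarith
      · rcases h2.lt_or_eq with h11 | h11
        · have := mul_pos h3 h11
          linarith
        · exact (hzero h10.symm (by rw [h5, ← h10, ← h11, sub_zero])).elim

private theorem sw_h1 (h : Rigid α) (dw : Draw α inf s D P) (hp : Conv α inf D P) {l : H}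
    (hl : Gen α inf D P l) {c : ℝ} {d e : X × ZMod 4} {n : ℕ} (hd : Cr α inf D P l c d)
    (he : Cr α inf D P l c e) (hn : (fs α)^[n] d = α e) :
    xc l (zc α inf D P l c e) < xc l (zc α inf D P l c d) := by
  have h1 := sw_pos h dw hp hl hd he hn
  have h2 := dw.zc_lvl h hl c e
  have h3 : dot l (zc α inf D P l c e) = dot l (P (bs α inf d)) +
      ((c - dot l (P (bs α inf d))) / dot l (dr α inf D P d)) * dot l (dr α inf D P d) := by
    rw [h2.1, div_mul_cancel₀ _ (hl.2 d)]
    ring
  have h4 := sw_key hl.1 (dw.nP _) (dw.flat d) h2.2 h3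
  have h5 : 0 < l 0 ^ 2 + l 1 ^ 2 := by
    have h6 := hl.2 d
    by_contra h7
    apply h6
    have h8 : l 0 = 0 := by nlinarith [sq_nonneg (l 0), sq_nonneg (l 1)]
    have h9 : l 1 = 0 := by nlinarith [sq_nonneg (l 0), sq_nonneg (l 1)]
    simp only [dot, h8, h9, hl.1]
    ring
  have h6 := mul_pos h5 h1
  rw [h4] at h6
  have h7 := (pos_iff_pos_of_mul_pos h6).2 hd.1
  have h8 : P (bs α inf d) + ((c - dot l (P (bs α inf d))) / dot l (dr α inf D P d)) •
      dr α inf D P d = zc α inf D P l c d := rfl
  rw [h8] at h7
  linarith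

private theorem sw_desc (f : ℕ → ℝ) (c : ℝ) {a : ℕ} (ha : c < f a) (b : ℕ) (hab : a ≤ b) :
    (∀ k, a ≤ k → k ≤ b → f k ≠ c) → f b < c →
    ∃ r, a ≤ r ∧ r < b ∧ c < f r ∧ f (r + 1) < c := by
  induction b, hab using Nat.le_induction with
  | base => intro _ h; linarith
  | succ b hab ih =>
    intro hne hb
    rcases lt_trichotomy (f b) c with h1 | h1 | h1
    · obtain ⟨r, h2, h3, h4, h5⟩ := ih (fun k hk hk2 => hne k hk (by omega)) h1
      exact ⟨r, h2, by omega, h4, h5⟩
    · exact absurd h1 (hne b hab (by omega))
    · exact ⟨b, hab, by omega, h1, hb⟩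

omit [Fintype X] in
private theorem sw_step {l : H} {y : X × ZMod 4} (h1 : y.1 ≠ inf) (h2 : (fs α y).1 ≠ inf) :
    dot l (P (fs α y).1) = dot l (P y.1) + dot l (dr α inf D P y) := by
  have h3 : dr α inf D P y = P (α y).1 - P y.1 := dr_edge h1 h2
  rw [h3, dot_sub]
  show dot l (P (α y).1) = _
  ring

private theorem sw_face (h : Rigid α) (dw : Draw α inf s D P) {d : X × ZMod 4} {n0 : ℕ}
    (hn0 : ((fs α)^[n0] d).1 = inf) :
    ∃ (i : ZMod 4) (j : ℕ), j < minimalPeriod (fs α) (inf, i) ∧ (fs α)^[j] (inf, i) = d ∧
      ∀ n, 0 < n → n < minimalPeriod (fs α) (inf, i) → ((fs α)^[n] (inf, i)).1 ≠ inf := by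
  obtain ⟨i, j0, hj0, -⟩ := h.exists_back (inf := inf) (e := d) hn0
  have hNpos : 0 < minimalPeriod (fs α) (inf, i) := h.period_pos (inf, i)
  refine ⟨i, j0 % minimalPeriod (fs α) (inf, i), Nat.mod_lt _ hNpos, ?_, ?_⟩
  · rw [iterate_mod_minimalPeriod_eq, hj0]
  · intro n h1 h2 h3
    have h4 : (fs α)^[n] (inf, i) = (inf, ((fs α)^[n] (inf, i)).2) := Prod.ext h3 rfl
    have h5 := dw.inf_once h h4
    rw [← h5] at h4
    have h6 : IsPeriodicPt (fs α) n (inf, i) := h4
    have h7 := h6.minimalPeriod_le h1
    omega

/-- two crossing darts of a face with `inf` -/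
private theorem sw_uniqB (h : Rigid α) (dw : Draw α inf s D P) {l : H}
    (hl : Gen α inf D P l) {c : ℝ} (hc : ∀ v, v ≠ inf → dot l (P v) ≠ c) {i : ZMod 4} {j j' : ℕ}
    (hni : ∀ n, 0 < n → n < minimalPeriod (fs α) (inf, i) → ((fs α)^[n] (inf, i)).1 ≠ inf)
    (hjj : j < j') (hj' : j' < minimalPeriod (fs α) (inf, i))
    (hd : Cr α inf D P l c ((fs α)^[j] (inf, i)))
    (hd' : Cr α inf D P l c ((fs α)^[j'] (inf, i))) : False := by
  have h1 : c < dot l (P ((fs α)^[j + 1] (inf, i)).1) := by
    have h2 := hni (j + 1) (by omega) (by omega)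
    rw [iterate_succ_apply' (fs α)] at h2 ⊢
    exact hd.2.2 h2
  have h2 : dot l (P ((fs α)^[j'] (inf, i)).1) < c := hd'.2.1 (hni j' (by omega) hj')
  obtain ⟨r, hr1, hr2, hr3, hr4⟩ := sw_desc (fun k => dot l (P ((fs α)^[k] (inf, i)).1)) c h1 j'
    (by omega) (fun k hk1 hk2 => hc _ (hni k (by omega) (by omega))) h2
  have h3 : dot l (dr α inf D P ((fs α)^[r] (inf, i))) < 0 := by
    have h4 := hni (r + 1) (by omega) (by omega)
    rw [iterate_succ_apply' (fs α)] at h4
    have h5 := sw_step (l := l) (D := D) (P := P) (hni r (by omega) (by omega)) h4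
    have h6 : dot l (P ((fs α)^[r + 1] (inf, i)).1) < c := hr4
    rw [iterate_succ_apply' (fs α), h5] at h6
    have h7 : c < dot l (P ((fs α)^[r] (inf, i)).1) := hr3
    linarith
  have h4 := dw.patL h hl (i := i) (j := j) (k := r) (m := j') (by omega) hr2
    (fun n hn1 hn2 => hni n hn1 (by omega)) hd.1 h3
  linarith [hd'.1]

private theorem sw_uniq (h : Rigid α) (dw : Draw α inf s D P) {l : H}
    (hl : Gen α inf D P l) {c : ℝ} (hc : ∀ v, v ≠ inf → dot l (P v) ≠ c) {d d' : X × ZMod 4}
    {n : ℕ} (hd : Cr α inf D P l c d) (hd' : Cr α inf D P l c d') (hn : (fs α)^[n] d = d') :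
    d = d' := by
  by_cases hcc : ∀ n, ((fs α)^[n] d).1 ≠ inf
  · set N := minimalPeriod (fs α) d with hN
    have hNpos : 0 < N := h.period_pos d
    have hperN : (fs α)^[N] d = d := iterate_minimalPeriod
    have hjN : n % N < N := Nat.mod_lt _ hNpos
    have hj : (fs α)^[n % N] d = d' := by
      rw [hN, iterate_mod_minimalPeriod_eq, hn]
    set j := n % N with hjdef
    by_contra hne
    have hj0 : 0 < j := by
      rcases Nat.eq_zero_or_pos j with h1 | h1
      · rw [h1] at hj
        exact absurd hj hne
      · exact h1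
    have hst : ∀ k, dot l (P ((fs α)^[k + 1] d).1) =
        dot l (P ((fs α)^[k] d).1) + dot l (dr α inf D P ((fs α)^[k] d)) := by
      intro k
      have h1 := hcc (k + 1)
      rw [iterate_succ_apply' (fs α)] at h1 ⊢
      exact sw_step (hcc k) h1
    have h1 : c < dot l (P ((fs α)^[1] d).1) := hd.2.2 (hcc 1)
    have h2 : dot l (P ((fs α)^[j] d).1) < c := by
      rw [hj]
      apply hd'.2.1
      rw [← hj]; exact hcc j
    have h3 : c < dot l (P ((fs α)^[j + 1] d).1) := by
      have h4 := hcc (j + 1)
      rw [iterate_succ_apply' (fs α), hj] at h4 ⊢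
      exact hd'.2.2 h4
    have h4 : dot l (P ((fs α)^[N] d).1) < c := by
      rw [hperN]
      exact hd.2.1 (hcc 0)
    obtain ⟨r, hr1, hr2, hr3, hr4⟩ := sw_desc (fun k => dot l (P ((fs α)^[k] d).1)) c h1 j
      (by omega) (fun k _ _ => hc _ (hcc k)) h2
    obtain ⟨r', hr1', hr2', hr3', hr4'⟩ := sw_desc (fun k => dot l (P ((fs α)^[k] d).1)) c h3 N
      (by omega) (fun k _ _ => hc _ (hcc k)) h4
    have h5 : dot l (dr α inf D P ((fs α)^[r] d)) < 0 := by
      have h6 := hst r
      have h7 : dot l (P ((fs α)^[r + 1] d).1) < c := hr4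
      have h8 : c < dot l (P ((fs α)^[r] d).1) := hr3
      linarith
    have h6 : dot l (dr α inf D P ((fs α)^[r'] d)) < 0 := by
      have h6 := hst r'
      have h7 : dot l (P ((fs α)^[r' + 1] d).1) < c := hr4'
      have h8 : c < dot l (P ((fs α)^[r'] d).1) := hr3'
      linarith
    have h7 := dw.patC h hl hcc (i := 0) (j := r) (k := j) (m := r') (by omega) hr2
      (by omega) (by omega) hd.1 h5 (by rw [hj]; exact hd'.1)
    linarith
  · push Not at hcc
    obtain ⟨n0, hn0⟩ := hcc
    obtain ⟨i, j, hjN, hj, hni⟩ := sw_face h dw hn0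
    have hNpos : 0 < minimalPeriod (fs α) (inf, i) := h.period_pos (inf, i)
    have hj' : (fs α)^[(n + j) % minimalPeriod (fs α) (inf, i)] (inf, i) = d' := by
      rw [iterate_mod_minimalPeriod_eq, iterate_add_apply, hj, hn]
    have hjN' : (n + j) % minimalPeriod (fs α) (inf, i) < minimalPeriod (fs α) (inf, i) :=
      Nat.mod_lt _ hNpos
    set j' := (n + j) % minimalPeriod (fs α) (inf, i)
    rcases lt_trichotomy j j' with h1 | h1 | h1
    · exact (sw_uniqB h dw hl hc hni h1 hjN' (by rw [hj]; exact hd) (by rw [hj']; exact hd')).elim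
    · rw [← hj, ← hj', h1]
    · exact (sw_uniqB h dw hl hc hni h1 hjN (by rw [hj']; exact hd') (by rw [hj]; exact hd)).elim

/-- a dart without successor belongs to a face with `inf`, with a sign change `+, -` there -/
private theorem sw_last (h : Rigid α) (dw : Draw α inf s D P) {l : H}
    (hl : Gen α inf D P l) {c : ℝ} (hc : ∀ v, v ≠ inf → dot l (P v) ≠ c) {d : X × ZMod 4}
    (hd : Cr α inf D P l c d)
    (hno : ∀ e, Cr α inf D P l c e → ¬ ∃ n, (fs α)^[n] d = α e) :
    ∃ (i : ZMod 4) (j : ℕ), (fs α)^[j] (inf, i) = d ∧ 0 < dot l (dr α inf D P (inf, i)) ∧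
      dot l (dr α inf D P (inf, i + 1)) < 0 := by
  by_cases hcc : ∀ n, ((fs α)^[n] d).1 ≠ inf
  · exfalso
    set N := minimalPeriod (fs α) d with hN
    have hNpos : 0 < N := h.period_pos d
    have hperN : (fs α)^[N] d = d := iterate_minimalPeriod
    have h1 : c < dot l (P ((fs α)^[1] d).1) := hd.2.2 (hcc 1)
    have h4 : dot l (P ((fs α)^[N] d).1) < c := by
      rw [hperN]
      exact hd.2.1 (hcc 0)
    obtain ⟨r, hr1, hr2, hr3, hr4⟩ := sw_desc (fun k => dot l (P ((fs α)^[k] d).1)) c h1 N
      (by omega) (fun k _ _ => hc _ (hcc k)) h4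
    have h7 : dot l (P ((fs α)^[r + 1] d).1) < c := hr4
    have h8 : c < dot l (P ((fs α)^[r] d).1) := hr3
    have h9 := hcc (r + 1)
    rw [iterate_succ_apply' (fs α)] at h7 h9
    apply hno (α ((fs α)^[r] d))
    · refine ⟨?_, fun _ => h7, fun _ => ?_⟩
      · have h5 := sw_step (l := l) (D := D) (P := P) (hcc r) h9
        rw [h.dr_neg, sw_neg]
        linarith
      · rw [h.inv]
        exact h8
    · exact ⟨r, by rw [h.inv]⟩
  · push Not at hcc
    obtain ⟨n0, hn0⟩ := hcc
    obtain ⟨i, j, hjN, hj, hni⟩ := sw_face h dw hn0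
    set N := minimalPeriod (fs α) (inf, i) with hN
    have hNpos : 0 < N := h.period_pos (inf, i)
    have hperN : (fs α)^[N] (inf, i) = (inf, i) := iterate_minimalPeriod
    have hlast : (fs α)^[N - 1] (inf, i) = α (inf, i + 1) := by
      have h5 : fs α ((fs α)^[N - 1] (inf, i)) = (inf, i) := by
        rw [← iterate_succ_apply' (fs α)]
        have e : (N - 1).succ = N := by omega
        rw [e, hperN]
      have h6 : α ((fs α)^[N - 1] (inf, i)) = (inf, i + 1) := by
        have h7 : nx (fs α ((fs α)^[N - 1] (inf, i))) = α ((fs α)^[N - 1] (inf, i)) := by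
          simp only [nx, fs, pv, sub_add_cancel]
        rw [← h7, h5]
        rfl
      rw [← h6, h.inv]
    refine ⟨i, j, hj, ?_, ?_⟩
    · by_contra h0
      have hdown : dot l (dr α inf D P (inf, i)) < 0 :=
        lt_of_le_of_ne (not_lt.1 h0) (hl.2 _)
      have hj0 : 0 < j := by
        rcases Nat.eq_zero_or_pos j with h1 | h1
        · rw [h1] at hj
          have h2 : d = (inf, i) := hj.symm
          rw [← h2] at hdown
          linarith [hd.1]
        · exact h1
      have hdj : d.1 ≠ inf := by
        rw [← hj]; exact hni j hj0 hjN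
      obtain ⟨r, hr1, hr2, hr3, hr4⟩ := sw_desc
        (fun k => if 0 < k then dot l (P ((fs α)^[k] (inf, i)).1) else c + 1) c (a := 0)
        (by simp) j (by omega)
        (by
          intro k _ hk2
          by_cases hk : 0 < k
          · simp only [hk, if_true]
            exact hc _ (hni k hk (by omega))
          · simp only [hk, if_false]
            linarith)
        (by
          simp only [hj0, if_true]
          rw [hj]
          exact hd.2.1 hdj)
      have h7 : dot l (P ((fs α)^[r + 1] (inf, i)).1) < c := by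
        have h8 : (if 0 < r + 1 then dot l (P ((fs α)^[r + 1] (inf, i)).1) else c + 1) < c := hr4
        simpa using h8
      have h8 : 0 < r → c < dot l (P ((fs α)^[r] (inf, i)).1) := by
        intro hr
        have h9 : c < (if 0 < r then dot l (P ((fs α)^[r] (inf, i)).1) else c + 1) := hr3
        simpa [hr] using h9
      have h9 := hni (r + 1) (by omega) (by omega)
      rw [iterate_succ_apply' (fs α)] at h7 h9
      apply hno (α ((fs α)^[r] (inf, i)))
      · refine ⟨?_, fun _ => h7, fun h10 => ?_⟩
        · rw [h.dr_neg, sw_neg]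
          rcases Nat.eq_zero_or_pos r with hr | hr
          · rw [hr]
            show 0 < - dot l (dr α inf D P (inf, i))
            linarith
          · have h5 := sw_step (l := l) (D := D) (P := P) (hni r hr (by omega)) h9
            have h6 := h8 hr
            linarith
        · rw [h.inv] at h10 ⊢
          apply h8
          rcases Nat.eq_zero_or_pos r with hr | hr
          · rw [hr] at h10
            exact absurd rfl h10
          · exact hr
      · refine ⟨N - j + r, ?_⟩
        rw [h.inv, ← hj, ← iterate_add_apply]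
        have e : N - j + r + j = r + N := by omega
        rw [e, iterate_add_apply, hperN]
    · rw [← h.inv (inf, i + 1), h.dr_neg, sw_neg, ← hlast]
      by_contra h0
      have hdown : dot l (dr α inf D P ((fs α)^[N - 1] (inf, i))) < 0 := by
        have := hl.2 ((fs α)^[N - 1] (inf, i))
        rcases lt_trichotomy (dot l (dr α inf D P ((fs α)^[N - 1] (inf, i)))) 0 with h1 | h1 | h1
        · exact h1
        · exact absurd h1 this
        · exact absurd (by linarith) h0
      have hj1 : j + 1 < N := by
        by_contra h1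
        have h2 : j = N - 1 := by omega
        rw [← h2, hj] at hdown
        linarith [hd.1]
      have hstart : c < dot l (P ((fs α)^[j + 1] (inf, i)).1) := by
        have h2 := hni (j + 1) (by omega) (by omega)
        rw [iterate_succ_apply' (fs α), hj] at h2 ⊢
        exact hd.2.2 h2
      obtain ⟨r, hr1, hr2, hr3, hr4⟩ := sw_desc
        (fun k => if k < N then dot l (P ((fs α)^[k] (inf, i)).1) else c - 1) c (a := j + 1)
        (by simp only [hj1, if_true]; exact hstart) N (by omega)
        (by
          intro k hk1 _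
          by_cases hk : k < N
          · simp only [hk, if_true]
            exact hc _ (hni k (by omega) (by omega))
          · simp only [hk, if_false]
            linarith)
        (by simp)
      have h8 : c < dot l (P ((fs α)^[r] (inf, i)).1) := by
        have h9 : c < (if r < N then dot l (P ((fs α)^[r] (inf, i)).1) else c - 1) := hr3
        simpa [hr2] using h9
      have h7 : r + 1 < N → dot l (P ((fs α)^[r + 1] (inf, i)).1) < c := by
        intro hr
        have h8 : (if r + 1 < N then dot l (P ((fs α)^[r + 1] (inf, i)).1) else c - 1) < c := hr4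
        simpa [hr] using h8
      have h9 := hni r (by omega) (by omega)
      apply hno (α ((fs α)^[r] (inf, i)))
      · refine ⟨?_, fun h10 => ?_, fun h10 => ?_⟩
        · rw [h.dr_neg, sw_neg]
          by_cases hr : r + 1 < N
          · have h6 := h7 hr
            have h10 := hni (r + 1) (by omega) hr
            rw [iterate_succ_apply' (fs α)] at h6 h10
            have h5 := sw_step (l := l) (D := D) (P := P) h9 h10
            linarith
          · have h5 : r = N - 1 := by omega
            rw [h5]
            linarith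
        · have hr : r + 1 < N := by
            by_contra h11
            have h12 : r + 1 = N := by omega
            apply h10
            have h13 : ((fs α)^[r + 1] (inf, i)).1 = inf := by rw [h12, hperN]
            rw [iterate_succ_apply' (fs α)] at h13
            exact h13
          have h6 := h7 hr
          rw [iterate_succ_apply' (fs α)] at h6
          exact h6
        · rw [h.inv]
          exact h8
      · refine ⟨r - j, ?_⟩
        rw [h.inv, ← hj, ← iterate_add_apply]
        congr 1
        omega

private theorem sw_signs : ∀ b : ZMod 4 → Bool,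
    (Finset.univ.filter fun i => b i ≠ b (i + 1)).card = 2 → ∀ i j : ZMod 4,
    b i = true → b (i + 1) = false → b j = true → b (j + 1) = false → i = j := by
  decide

private theorem sw_infuniq (h : Rigid α) (dw : Draw α inf s D P) {l : H}
    (hl : Gen α inf D P l) {i j : ZMod 4} (hi : 0 < dot l (dr α inf D P (inf, i)))
    (hi' : dot l (dr α inf D P (inf, i + 1)) < 0) (hj : 0 < dot l (dr α inf D P (inf, j)))
    (hj' : dot l (dr α inf D P (inf, j + 1)) < 0) : i = j := by
  classical
  have h1 := dw.inf_changes h hl
  set b : ZMod 4 → Bool := fun i => decide (0 < dot l (dr α inf D P (inf, i))) with hb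
  refine sw_signs b ?_ i j (by simpa [hb] using hi) (by simpa [hb] using hi'.le)
    (by simpa [hb] using hj) (by simpa [hb] using hj'.le)
  rw [← h1, Nat.card_eq_fintype_card, Fintype.card_subtype]
  congr 1
  ext k
  simp only [Finset.mem_filter, Finset.mem_univ, true_and, hb, ne_eq, decide_eq_decide]

theorem Draw.sweep (h : Rigid α) (dw : Draw α inf s D P) (hp : Conv α inf D P) {l : H}
    (hl : Gen α inf D P l) {c : ℝ} (hc : ∀ v, v ≠ inf → dot l (P v) ≠ c) :
    (∀ d e, Cr α inf D P l c d → Cr α inf D P l c e →
      xc l (zc α inf D P l c d) = xc l (zc α inf D P l c e) → d = e) ∧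
    ∀ d e g, Cr α inf D P l c d → Cr α inf D P l c e → Cr α inf D P l c g →
      (∃ n, (fs α)^[n] d = α e) →
      ¬ (xc l (zc α inf D P l c e) < xc l (zc α inf D P l c g) ∧
        xc l (zc α inf D P l c g) < xc l (zc α inf D P l c d)) := by
  classical
  have hm : ∀ d, d ∈ (Finset.univ.filter fun d => Cr α inf D P l c d) ↔ Cr α inf D P l c d := by
    intro d; simp
  have key := chain_lemma (Finset.univ.filter fun d => Cr α inf D P l c d)
    (fun d => xc l (zc α inf D P l c d)) (fun d e => ∃ n, (fs α)^[n] d = α e)
    (by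
      rintro d hd e he ⟨n, hn⟩
      exact sw_h1 h dw hp hl ((hm d).1 hd) ((hm e).1 he) hn)
    (by
      rintro d hd d' hd' e he ⟨n, hn⟩ ⟨n', hn'⟩
      obtain ⟨k, hk⟩ := h.orbit_symm hn'
      apply sw_uniq h dw hl hc ((hm d).1 hd) ((hm d').1 hd') (n := k + n)
      rw [iterate_add_apply, hn, hk])
    (by
      intro d hd d' hd' h1 h2
      obtain ⟨i, j, hj, hi1, hi2⟩ := sw_last h dw hl hc ((hm d).1 hd)
        (fun e he => h1 e ((hm e).2 he))
      obtain ⟨i', j', hj', hi1', hi2'⟩ := sw_last h dw hl hc ((hm d').1 hd')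
        (fun e he => h2 e ((hm e).2 he))
      have e1 := sw_infuniq h dw hl hi1 hi2 hi1' hi2'
      subst e1
      obtain ⟨k, hk⟩ := h.orbit_symm hj
      apply sw_uniq h dw hl hc ((hm d).1 hd) ((hm d').1 hd') (n := j' + k)
      rw [iterate_add_apply, hk, hj'])
  constructor
  · intro d e hd he hx
    exact key.1 d ((hm d).2 hd) e ((hm e).2 he) hx
  · intro d e g hd he hg hn
    exact key.2 d ((hm d).2 hd) e ((hm e).2 he) g ((hm g).2 hg) hn

end SN78
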