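import Pool.Agent.SN78.WDir

/-!
# SN78 module WFRED: the stationary measure and solvability

Let `T` be the linear map of functions on the sites
`T h v = h v - lam v * h (a v) - (1 - lam v) * h (b v)` for `v ≠ inf, t k`, `T h (t k) = h (t k) - h (b (t k))`,
`T h inf = h inf`.  Its kernel consists of the functions with `h inf = 0` which are constant on the
other sites (`Walk.const`), so it has dimension one, and so has the kernel of the transpose: there is
`ν ≠ 0` with `∑ v, ν v * T h v = 0` for all `h`.  With `h = δ_inf` we get `ν inf = 0` (no neighbour is `inf`).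
With `h = δ_u`: `ν u = ∑ v, ν v * A v u`, where `A v u ≥ 0` are the weights, `∑ u, A v u = 1` for `v ≠ inf`.
So `|ν u| ≤ ∑ v, |ν v| * A v u`; summing over `u` we get equality.  So replace `ν` by `|ν|`.  The support
`{v | 0 < ν v}` is nonempty, does not contain `inf` and is closed (if `ν v > 0` then `ν u > 0` for all
neighbours `u` used at `v`), so it contains the `t k` (`Walk.closed`).  The range of `T` is contained in
`{R | ∑ ν v * R v = 0}` and has the same dimension `card X - 1`.
-/

namespace SN78

variable {X : Type} [Fintype X] {inf : X} {t : Fin 3 → X} {a b : X → X}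

open Classical in
/-- the weights of the walk -/
noncomputable def wtA (inf : X) (t : Fin 3 → X) (a b : X → X) (lam : X → ℝ) (v u : X) : ℝ :=
  if v = inf then 0 else if ∃ k, v = t k then (if u = b v then 1 else 0)
    else lam v * (if u = a v then 1 else 0) + (1 - lam v) * (if u = b v then 1 else 0)

theorem wtA_nonneg {lam : X → ℝ} (h0 : ∀ v, 0 < lam v) (h1 : ∀ v, lam v < 1) (v u : X) :
    0 ≤ wtA inf t a b lam v u := by
  have hx := h0 v
  have hy : 0 < 1 - lam v := by linarith [h1 v]
  unfold wtA
  split_ifs <;> simp <;> linarith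

open Classical in
theorem wtA_sum {lam : X → ℝ} (v : X) (h : X → ℝ) :
    ∑ u, wtA inf t a b lam v u * h u = if v = inf then 0 else if ∃ k, v = t k then h (b v)
      else lam v * h (a v) + (1 - lam v) * h (b v) := by
  classical
  unfold wtA
  split_ifs
  · simp
  · simp
  · simp [add_mul, Finset.sum_add_distrib, mul_assoc, ← Finset.mul_sum]

theorem wtA_inf (w : Walk inf t a b) {lam : X → ℝ} (v : X) :
    wtA inf t a b lam v inf = 0 := by
  classical
  unfold wtA
  split_ifs with h1 h2 h3 h4 h5 h6
  · rfl
  · exact absurd h3.symm (w.binf v h1)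
  · rfl
  · exact absurd h4.symm (w.ainf v h1 (fun k hk => h2 ⟨k, hk⟩))
  · exact absurd h4.symm (w.ainf v h1 (fun k hk => h2 ⟨k, hk⟩))
  · exact absurd h6.symm (w.binf v h1)
  · simp

theorem wtA_b (w : Walk inf t a b) {lam : X → ℝ} (h1 : ∀ v, lam v < 1) {v : X} (hv : v ≠ inf) :
    0 < wtA inf t a b lam v (b v) := by
  classical
  have hy : 0 < 1 - lam v := by linarith [h1 v]
  unfold wtA
  rw [if_neg hv]
  by_cases h2 : ∃ k, v = t k
  · rw [if_pos h2, if_pos rfl]
    norm_num
  · rw [if_neg h2, if_neg (w.ab v hv).symm, if_pos rfl]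
    simpa using hy

theorem wtA_a (w : Walk inf t a b) {lam : X → ℝ} (h0 : ∀ v, 0 < lam v) {v : X} (hv : v ≠ inf)
    (ht : ∀ k, v ≠ t k) : 0 < wtA inf t a b lam v (a v) := by
  classical
  have hy := h0 v
  unfold wtA
  rw [if_neg hv, if_neg (by push Not; exact ht), if_pos rfl, if_neg (w.ab v hv)]
  simpa using hy

open Classical in
/-- the linear map `T` -/
noncomputable def wtT (inf : X) (t : Fin 3 → X) (a b : X → X) (lam : X → ℝ) :
    (X → ℝ) →ₗ[ℝ] (X → ℝ) where
  toFun h v := h v - ∑ u, wtA inf t a b lam v u * h u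
  map_add' h h' := by
    funext v
    simp only [Pi.add_apply, mul_add, Finset.sum_add_distrib]
    ring
  map_smul' c h := by
    funext v
    simp only [Pi.smul_apply, smul_eq_mul, RingHom.id_apply, mul_sub, Finset.mul_sum]
    congr 1
    exact Finset.sum_congr rfl (fun u _ => by ring)

theorem wtT_apply (lam : X → ℝ) (h : X → ℝ) (v : X) :
    wtT inf t a b lam h v = h v - ∑ u, wtA inf t a b lam v u * h u := rfl

theorem wtT_sol {lam : X → ℝ} {h R : X → ℝ} (w : Walk inf t a b)
    (hR : ∀ v, v ≠ inf → wtT inf t a b lam h v = R v) : WSol inf t a b lam h R := by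
  constructor
  · intro v hv ht
    have := hR v hv
    rw [wtT_apply, wtA_sum, if_neg hv, if_neg (by push Not; exact ht)] at this
    linarith
  · intro k
    have := hR (t k) (w.tinf k)
    rw [wtT_apply, wtA_sum, if_neg (w.tinf k), if_pos ⟨k, rfl⟩] at this
    linarith

theorem wtT_of_sol {lam : X → ℝ} {h R : X → ℝ} (hs : WSol inf t a b lam h R) {v : X}
    (hv : v ≠ inf) : wtT inf t a b lam h v = R v := by
  rw [wtT_apply, wtA_sum, if_neg hv]
  split_ifs with hk
  · obtain ⟨k, rfl⟩ := hk
    linarith [hs.2 k]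
  · push Not at hk
    linarith [hs.1 v hv hk]

/-- the stationary measure -/
theorem wt_stat (w : Walk inf t a b) {lam : X → ℝ} (h0 : ∀ v, 0 < lam v)
    (h1 : ∀ v, lam v < 1) : ∃ μ : X → ℝ, (∀ v, 0 ≤ μ v) ∧ μ ≠ 0 ∧
      ∀ u, μ u = ∑ v, μ v * wtA inf t a b lam v u := by
  classical
  -- the kernel is not trivial
  have hker : ¬ Function.Injective (wtT inf t a b lam) := by
    intro hinj
    let e : X → ℝ := fun v => if v = inf then 0 else 1
    have he : wtT inf t a b lam e = 0 := by
      funext v
      rw [wtT_apply, wtA_sum]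
      by_cases hv : v = inf
      · simp [e, hv]
      · rw [if_neg hv]
        split_ifs with hk
        · simp [e, hv, w.binf v hv]
        · push Not at hk
          simp [e, hv, w.binf v hv, w.ainf v hv hk]
    have := hinj (he.trans (map_zero _).symm)
    have h2 := congrFun this (t 0)
    simp [e, w.tinf 0] at h2
  have hsurj : ¬ Function.Surjective (wtT inf t a b lam) :=
    fun hs => hker (LinearMap.injective_iff_surjective.2 hs)
  have hlt : LinearMap.range (wtT inf t a b lam) < ⊤ := by
    rw [lt_top_iff_ne_top]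
    exact fun he => hsurj (LinearMap.range_eq_top.1 he)
  obtain ⟨f, hf0, hf⟩ := Submodule.exists_le_ker_of_lt_top _ hlt
  let ν : X → ℝ := fun u => f (Pi.single u 1)
  have hfν : ∀ h : X → ℝ, f h = ∑ v, ν v * h v := by
    intro h
    rw [LinearMap.pi_apply_eq_sum_univ f h]
    refine Finset.sum_congr rfl (fun v _ => ?_)
    rw [smul_eq_mul, mul_comm]
    congr 2
    funext j
    simp [Pi.single_apply, eq_comm]
  have hν0 : ν ≠ 0 := by
    intro hz
    apply hf0
    ext u
    simpa [ν] using congrFun hz u
  have hstat : ∀ u, ν u = ∑ v, ν v * wtA inf t a b lam v u := by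
    intro u
    have h2 : f (wtT inf t a b lam (Pi.single u 1)) = 0 := hf ⟨_, rfl⟩
    rw [hfν] at h2
    have h3 : ∀ v, wtT inf t a b lam (Pi.single u 1) v
        = (if v = u then 1 else 0) - wtA inf t a b lam v u := by
      intro v
      rw [wtT_apply]
      simp [Pi.single_apply]
    simp only [h3, mul_sub, Finset.sum_sub_distrib] at h2
    simp at h2
    linarith
  -- the absolute value
  have hle : ∀ u, |ν u| ≤ ∑ v, |ν v| * wtA inf t a b lam v u := by
    intro u
    rw [hstat u]
    refine (Finset.abs_sum_le_sum_abs _ _).trans (le_of_eq ?_)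
    refine Finset.sum_congr rfl (fun v _ => ?_)
    rw [abs_mul, abs_of_nonneg (wtA_nonneg h0 h1 v u)]
  have hinf : ν inf = 0 := by
    rw [hstat inf]
    simp [wtA_inf w]
  have hrow : ∀ v, |ν v| * ∑ u, wtA inf t a b lam v u = |ν v| := by
    intro v
    have h3 := wtA_sum (inf := inf) (t := t) (a := a) (b := b) (lam := lam) v (fun _ => 1)
    simp only [mul_one] at h3
    rw [h3]
    by_cases hv : v = inf
    · rw [hv, hinf]; simp
    · rw [if_neg hv]
      split_ifs <;> ring
  have htot : ∑ u, ∑ v, |ν v| * wtA inf t a b lam v u = ∑ u, |ν u| := by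
    rw [Finset.sum_comm]
    refine Finset.sum_congr rfl (fun v _ => ?_)
    rw [← Finset.mul_sum, hrow]
  have heq : ∀ u, |ν u| = ∑ v, |ν v| * wtA inf t a b lam v u := by
    intro u
    have h4 := (Finset.sum_eq_sum_iff_of_le (fun u _ => hle u)).1 htot.symm
    exact h4 u (Finset.mem_univ u)
  refine ⟨fun v => |ν v|, fun v => abs_nonneg _, ?_, heq⟩
  intro hz
  apply hν0
  funext v
  have := congrFun hz v
  simpa using this

theorem Walk.fredholm (w : Walk inf t a b) {lam : X → ℝ} (h0 : ∀ v, 0 < lam v)
    (h1 : ∀ v, lam v < 1) : ∃ ν : X → ℝ, (∀ v, 0 ≤ ν v) ∧ ν inf = 0 ∧ (∀ k, 0 < ν (t k)) ∧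
      (∀ h R, WSol inf t a b lam h R → ∑ v, ν v * R v = 0) ∧
      ∀ R : X → ℝ, ∑ v, ν v * R v = 0 → ∃ h, WSol inf t a b lam h R := by
  classical
  obtain ⟨μ, hμ, hμ0, hst⟩ := wt_stat w h0 h1
  have hinf : μ inf = 0 := by
    rw [hst inf]
    simp [wtA_inf w]
  have hT : ∀ h : X → ℝ, ∑ v, μ v * wtT inf t a b lam h v = 0 := by
    intro h
    simp only [wtT_apply, mul_sub, Finset.sum_sub_distrib]
    rw [sub_eq_zero]
    have : ∑ v, μ v * ∑ u, wtA inf t a b lam v u * h u
        = ∑ u, (∑ v, μ v * wtA inf t a b lam v u) * h u := by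
      simp only [Finset.mul_sum, Finset.sum_mul]
      rw [Finset.sum_comm]
      exact Finset.sum_congr rfl (fun u _ => Finset.sum_congr rfl (fun v _ => by ring))
    rw [this]
    exact Finset.sum_congr rfl (fun u _ => by rw [← hst u])
  have hsum : ∀ h R, WSol inf t a b lam h R → ∑ v, μ v * R v = 0 := by
    intro h R hs
    rw [← hT h]
    refine Finset.sum_congr rfl (fun v _ => ?_)
    by_cases hv : v = inf
    · rw [hv, hinf]; ring
    · rw [wtT_of_sol hs hv]
  -- positivity at the sites `t k`
  have hpos : ∀ v u, 0 < μ v → 0 < wtA inf t a b lam v u → 0 < μ u := by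
    intro v u hv hA
    rw [hst u]
    refine Finset.sum_pos' (fun v' _ => mul_nonneg (hμ v') (wtA_nonneg h0 h1 v' u))
      ⟨v, Finset.mem_univ v, mul_pos hv hA⟩
  have hclosed : ∀ k, t k ∈ Finset.univ.filter (fun v => 0 < μ v) := by
    apply w.closed
    · by_contra hne
      rw [Finset.not_nonempty_iff_eq_empty] at hne
      apply hμ0
      funext v
      have : v ∉ Finset.univ.filter (fun v => 0 < μ v) := by rw [hne]; simp
      have h3 : ¬ 0 < μ v := by simpa using this
      exact le_antisymm (not_lt.1 h3) (hμ v)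
    · simp [hinf]
    · intro v hv
      have hv' : 0 < μ v := by simpa using hv
      have hvi : v ≠ inf := by
        rintro rfl
        rw [hinf] at hv'
        exact lt_irrefl _ hv'
      simpa using hpos v _ hv' (wtA_b w h1 hvi)
    · intro v hv ht
      have hv' : 0 < μ v := by simpa using hv
      have hvi : v ≠ inf := by
        rintro rfl
        rw [hinf] at hv'
        exact lt_irrefl _ hv'
      simpa using hpos v _ hv' (wtA_a w h0 hvi ht)
  refine ⟨μ, hμ, hinf, fun k => by simpa using hclosed k, hsum, ?_⟩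
  -- solvability
  intro R hR
  let φ : (X → ℝ) →ₗ[ℝ] ℝ :=
    { toFun := fun h => ∑ v, μ v * h v
      map_add' := by
        intro x y
        simp only [Pi.add_apply, mul_add, Finset.sum_add_distrib]
      map_smul' := by
        intro c x
        simp only [Pi.smul_apply, smul_eq_mul, RingHom.id_apply, Finset.mul_sum]
        exact Finset.sum_congr rfl (fun u _ => by ring) }
  have hle : LinearMap.range (wtT inf t a b lam) ≤ LinearMap.ker φ := by
    rintro _ ⟨h, rfl⟩
    exact hT h
  have hφ0 : φ ≠ 0 := by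
    intro hz
    have h3 := congrArg (fun g : (X → ℝ) →ₗ[ℝ] ℝ => g (Pi.single (t 0) 1)) hz
    have h4 : ∑ v, μ v * (Pi.single (t 0) (1 : ℝ) : X → ℝ) v = 0 := h3
    simp [Pi.single_apply] at h4
    have h5 : 0 < μ (t 0) := by simpa using hclosed 0
    linarith
  have hk1 : Module.finrank ℝ (LinearMap.ker (wtT inf t a b lam)) ≤ 1 := by
    let e : X → ℝ := fun v => if v = inf then 0 else 1
    have hsub : LinearMap.ker (wtT inf t a b lam) ≤ Submodule.span ℝ {e} := by
      intro h hh
      have hh' : wtT inf t a b lam h = 0 := hh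
      have hs : WSol inf t a b lam h (fun _ => 0) :=
        wtT_sol w (fun v _ => by rw [hh']; rfl)
      have hi : h inf = 0 := by
        have := congrFun hh' inf
        rw [wtT_apply, wtA_sum, if_pos rfl] at this
        simpa using this
      rw [Submodule.mem_span_singleton]
      refine ⟨h (t 0), ?_⟩
      funext v
      by_cases hv : v = inf
      · simp [e, hv, hi]
      · simp [e, hv, w.const h0 h1 hs hv (w.tinf 0)]
    refine (Submodule.finrank_mono hsub).trans ?_
    refine finrank_le_one (⟨e, Submodule.mem_span_singleton_self e⟩ : Submodule.span ℝ {e}) ?_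
    rintro ⟨x, hx⟩
    obtain ⟨c, hc⟩ := Submodule.mem_span_singleton.1 hx
    exact ⟨c, Subtype.ext hc⟩
  have hrn := LinearMap.finrank_range_add_finrank_ker (wtT inf t a b lam)
  have hrn2 := LinearMap.finrank_range_add_finrank_ker φ
  have hr1 : Module.finrank ℝ (LinearMap.range φ) = 1 := by
    have hs : Function.Surjective φ := LinearMap.surjective hφ0
    rw [LinearMap.range_eq_top.2 hs]
    simp
  have heq := Submodule.eq_of_le_of_finrank_le hle (by omega)
  have hRm : R ∈ LinearMap.ker φ := hR
  rw [← heq] at hRm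
  obtain ⟨h, rfl⟩ := hRm
  exact ⟨h, wtT_sol w (fun v _ => rfl)⟩

end SN78
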