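import Pool.Agent.SN78.WGen
import Pool.Agent.SN78.WFred

/-!
# SN78 module WPOS: generic equilibrium positions

Take `lam, om` from `Walk.generic` and `ν` from `Walk.fredholm`.  Let `κ₀ = d2 (E 1) (E 2)`,
`κ₁ = d2 (E 2) (E 0)`, `κ₂ = d2 (E 0) (E 1)` (positive) and `τ k = κ k / ν (t k)`.  Then
`κ₀ • E 0 + κ₁ • E 1 + κ₂ • E 2 = 0`, so for each coordinate the right hand side `R (t k) = τ k * E k i`,
`R v = 0` elsewhere satisfies `∑ ν v * R v = 0`.  Let `P v i` (`i = 0, 1`) be the solutions and `P v 2 = 1`;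
this gives `eq` and `eqt` (`E k 2 = 0`).

`P v = ∑ k, om v k • P (t k)` for all `v ≠ inf` (`Walk.unique`: both sides satisfy the same equations; use
`Bary.sum` for the third coordinate).  So for `x, y, z ≠ inf`
`dt (P x) (P y) (P z) = dt (om x) (om y) (om z) * dt (P (t 0)) (P (t 1)) (P (t 2))`.
The last factor is not `0`: otherwise there is `l ≠ 0` with `dot l (P (t k)) = 0` for all `k`, so
`f v = dot l (P v) = 0` for all `v ≠ inf`, and `0 = f (t k) = f (b (t k)) + τ k * dot l (E k)`, so
`dot l (E k) = 0` for all `k`.  As `d2 (E 0) (E 1) > 0` and the `E k` are flat, `l 0 = l 1 = 0`, and then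
`l 2 = dot l (P (t 0)) = 0`.  So `inj` and `tri` follow from `Walk.generic` (if `P x = P y` then, with
`Q k = P (t k)` linearly independent, `om x = om y`).

`sum`: apply `ν` to `WSol z R` with `R (t k) = τ k * r (t k)`, `R v = 0` elsewhere.
-/

namespace SN78

variable {X : Type} [Fintype X] {inf : X} {t : Fin 3 → X} {a b : X → X}

open Classical in
/-- the function with value `r k` at `t k` and `0` elsewhere -/
private noncomputable def wposR (t : Fin 3 → X) (r : Fin 3 → ℝ) (v : X) : ℝ :=
  ∑ k, if v = t k then r k else 0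

omit [Fintype X] in
private theorem wposR_t (w : Function.Injective t) (r : Fin 3 → ℝ) (k : Fin 3) :
    wposR t r (t k) = r k := by
  classical
  unfold wposR
  rw [Finset.sum_eq_single k]
  · simp
  · intro j _ hj
    rw [if_neg]
    intro h
    exact hj (w h).symm
  · intro h
    exact absurd (Finset.mem_univ k) h

omit [Fintype X] in
private theorem wposR_ne (r : Fin 3 → ℝ) {v : X} (hv : ∀ k, v ≠ t k) : wposR t r v = 0 := by
  classical
  unfold wposR
  apply Finset.sum_eq_zero
  intro k _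
  rw [if_neg (hv k)]

private theorem wposR_sum (ν : X → ℝ) (r : Fin 3 → ℝ) :
    ∑ v, ν v * wposR t r v = ν (t 0) * r 0 + ν (t 1) * r 1 + ν (t 2) * r 2 := by
  classical
  unfold wposR
  simp only [Finset.mul_sum]
  rw [Finset.sum_comm, Fin.sum_univ_three]
  have : ∀ k, ∑ v, ν v * (if v = t k then r k else 0) = ν (t k) * r k := by
    intro k
    rw [Finset.sum_eq_single (t k)]
    · simp
    · intro v _ hv
      rw [if_neg hv, mul_zero]
    · intro h
      exact absurd (Finset.mem_univ _) h
  rw [this, this, this]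

theorem Walk.exists_eqm (w : Walk inf t a b) {E : Fin 3 → H} (hE : ∀ k, E k 2 = 0)
    (h01 : 0 < d2 (E 0) (E 1)) (h12 : 0 < d2 (E 1) (E 2)) (h20 : 0 < d2 (E 2) (E 0)) :
    ∃ lam τ P, Eqm inf t a b E lam τ P := by
  classical
  obtain ⟨lam, om, hb, hinj, htri⟩ := w.generic
  obtain ⟨ν, ν0, νinf, νt, ν1, ν2⟩ := w.fredholm hb.l0 hb.l1
  -- the weights
  obtain ⟨κ, hκ⟩ : ∃ κ : Fin 3 → ℝ, κ = ![d2 (E 1) (E 2), d2 (E 2) (E 0), d2 (E 0) (E 1)] :=
    ⟨_, rfl⟩
  have κ0 : κ 0 = d2 (E 1) (E 2) := by rw [hκ]; rfl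
  have κ1 : κ 1 = d2 (E 2) (E 0) := by rw [hκ]; rfl
  have κ2 : κ 2 = d2 (E 0) (E 1) := by rw [hκ]; rfl
  have κpos : ∀ k, 0 < κ k := by
    intro k
    fin_cases k
    · change 0 < κ 0
      rw [κ0]; exact h12
    · change 0 < κ 1
      rw [κ1]; exact h20
    · change 0 < κ 2
      rw [κ2]; exact h01
  obtain ⟨τ, hτ⟩ : ∃ τ : Fin 3 → ℝ, ∀ k, τ k = κ k / ν (t k) := ⟨fun k => κ k / ν (t k), fun k => rfl⟩
  have τpos : ∀ k, 0 < τ k := fun k => by rw [hτ]; exact div_pos (κpos k) (νt k)
  have ντ : ∀ k, ν (t k) * τ k = κ k := by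
    intro k
    rw [hτ]
    have := (νt k).ne'
    field_simp
  have hsol : ∀ i : Fin 3, ∃ h, WSol inf t a b lam h (wposR t (fun k => τ k * E k i)) := by
    intro i
    apply ν2
    rw [wposR_sum]
    have e : ∀ k, ν (t k) * (τ k * E k i) = κ k * E k i := by
      intro k
      rw [← ντ k]; ring
    rw [e, e, e, κ0, κ1, κ2]
    fin_cases i
    · simp only [d2]
      change (E 1 0 * E 2 1 - E 1 1 * E 2 0) * E 0 0 + (E 2 0 * E 0 1 - E 2 1 * E 0 0) * E 1 0 +
        (E 0 0 * E 1 1 - E 0 1 * E 1 0) * E 2 0 = 0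
      ring
    · simp only [d2]
      change (E 1 0 * E 2 1 - E 1 1 * E 2 0) * E 0 1 + (E 2 0 * E 0 1 - E 2 1 * E 0 0) * E 1 1 +
        (E 0 0 * E 1 1 - E 0 1 * E 1 0) * E 2 1 = 0
      ring
    · change d2 (E 1) (E 2) * E 0 2 + d2 (E 2) (E 0) * E 1 2 + d2 (E 0) (E 1) * E 2 2 = 0
      rw [hE, hE, hE]; ring
  obtain ⟨p0, hp0⟩ := hsol 0
  obtain ⟨p1, hp1⟩ := hsol 1
  obtain ⟨P, hP⟩ : ∃ P : X → H, ∀ v, P v = ![p0 v, p1 v, 1] := ⟨fun v => ![p0 v, p1 v, 1], fun v => rfl⟩
  have P0 : ∀ v, P v 0 = p0 v := fun v => by rw [hP]; rfl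
  have P1 : ∀ v, P v 1 = p1 v := fun v => by rw [hP]; rfl
  have P2 : ∀ v, P v 2 = 1 := fun v => by rw [hP]; rfl
  have Peq : ∀ v, v ≠ inf → (∀ k, v ≠ t k) → P v = lam v • P (a v) + (1 - lam v) • P (b v) := by
    intro v hv hk
    funext i
    fin_cases i
    · change P v 0 = lam v * P (a v) 0 + (1 - lam v) * P (b v) 0
      rw [P0, P0, P0, hp0.1 v hv hk, wposR_ne _ hk, add_zero]
    · change P v 1 = lam v * P (a v) 1 + (1 - lam v) * P (b v) 1
      rw [P1, P1, P1, hp1.1 v hv hk, wposR_ne _ hk, add_zero]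
    · change P v 2 = lam v * P (a v) 2 + (1 - lam v) * P (b v) 2
      rw [P2, P2, P2]; ring
  have Peqt : ∀ k, P (t k) = P (b (t k)) + τ k • E k := by
    intro k
    funext i
    fin_cases i
    · change P (t k) 0 = P (b (t k)) 0 + τ k * E k 0
      rw [P0, P0, hp0.2 k, wposR_t w.tinj]
    · change P (t k) 1 = P (b (t k)) 1 + τ k * E k 1
      rw [P1, P1, hp1.2 k, wposR_t w.tinj]
    · change P (t k) 2 = P (b (t k)) 2 + τ k * E k 2
      rw [P2, P2, hE, mul_zero, add_zero]
  -- barycentric coordinates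
  have rep : ∀ v, v ≠ inf → ∀ i, P v i =
      om v 0 * P (t 0) i + om v 1 * P (t 1) i + om v 2 * P (t 2) i := by
    intro v hv i
    have hz : (fun v => if v = inf then 0 else
        P v i - (om v 0 * P (t 0) i + om v 1 * P (t 1) i + om v 2 * P (t 2) i)) = (0 : X → ℝ) := by
      apply w.unique hb.l0 hb.l1 ({inf} ∪ Set.range t) (by simp) (by simp)
      · rintro u (hu | ⟨k, rfl⟩)
        · have hu' : u = inf := hu
          simp [hu']
        · rw [if_neg (w.tinf k), hb.base k]
          fin_cases k <;> simp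
      · intro u hu
        have hu1 : u ≠ inf := fun h => hu (Or.inl h)
        have hu2 : ∀ k, u ≠ t k := fun k h => hu (Or.inr ⟨k, h.symm⟩)
        rw [if_neg hu1, if_neg (w.ainf u hu1 hu2), if_neg (w.binf u hu1)]
        have e1 := congrFun (Peq u hu1 hu2) i
        have e2 := hb.eq u hu1 hu2
        have e20 := congrFun e2 0
        have e21 := congrFun e2 1
        have e22 := congrFun e2 2
        simp only [Pi.add_apply, Pi.smul_apply, smul_eq_mul] at e1 e20 e21 e22
        rw [e1, e20, e21, e22]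
        ring
    have := congrFun hz v
    beta_reduce at this
    rw [if_neg hv] at this
    simp only [Pi.zero_apply] at this
    linarith
  have hdt : ∀ x y z, x ≠ inf → y ≠ inf → z ≠ inf → dt (P x) (P y) (P z) =
      dt (om x) (om y) (om z) * dt (P (t 0)) (P (t 1)) (P (t 2)) := by
    intro x y z hx hy hz
    simp only [dt]
    rw [rep x hx 0, rep x hx 1, rep x hx 2, rep y hy 0, rep y hy 1, rep y hy 2, rep z hz 0,
      rep z hz 1, rep z hz 2]
    ring
  have hne : dt (P (t 0)) (P (t 1)) (P (t 2)) ≠ 0 := by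
    intro h0
    have hdet : (Matrix.of ![P (t 0), P (t 1), P (t 2)]).det = 0 := by
      rw [Matrix.det_fin_three]
      simp only [dt] at h0
      simp only [Matrix.of_apply, Matrix.cons_val_zero, Matrix.cons_val_one, Matrix.cons_val]
      linarith
    obtain ⟨l, hl, hl0⟩ := Matrix.exists_mulVec_eq_zero_iff.mpr hdet
    have dl : ∀ k, dot l (P (t k)) = 0 := by
      intro k
      have := congrFun hl0 k
      rw [Matrix.mulVec, dotProduct, Fin.sum_univ_three] at this
      simp only [dot]
      fin_cases k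
      · simp only [Matrix.of_apply] at this
        simp at this
        simp
        linarith
      · simp only [Matrix.of_apply] at this
        simp at this
        simp
        linarith
      · simp only [Matrix.of_apply] at this
        simp at this
        simp
        linarith
    have dall : ∀ v, v ≠ inf → dot l (P v) = 0 := by
      intro v hv
      have a0 := dl 0
      have a1 := dl 1
      have a2 := dl 2
      simp only [dot] at a0 a1 a2 ⊢
      rw [rep v hv 0, rep v hv 1, rep v hv 2]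
      linear_combination om v 0 * a0 + om v 1 * a1 + om v 2 * a2
    have dE : ∀ k, dot l (E k) = 0 := by
      intro k
      have h1 := dl k
      rw [Peqt k, dot_add, dot_smul, dall _ (w.binf _ (w.tinf k)), zero_add] at h1
      rcases mul_eq_zero.mp h1 with h | h
      · exact absurd h (τpos k).ne'
      · exact h
    have dE0 := dE 0
    have dE1 := dE 1
    simp only [dot] at dE0 dE1
    rw [hE, mul_zero, add_zero] at dE0 dE1
    have l0 : l 0 * d2 (E 0) (E 1) = 0 := by
      simp only [d2]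
      linear_combination E 1 1 * dE0 - E 0 1 * dE1
    have l1 : l 1 * d2 (E 0) (E 1) = 0 := by
      simp only [d2]
      linear_combination E 0 0 * dE1 - E 1 0 * dE0
    have l0' : l 0 = 0 := (mul_eq_zero.mp l0).resolve_right h01.ne'
    have l1' : l 1 = 0 := (mul_eq_zero.mp l1).resolve_right h01.ne'
    have l2' : l 2 = 0 := by
      have := dl 0
      simp only [dot] at this
      rw [l0', l1', P2] at this
      linarith
    apply hl
    funext i
    fin_cases i
    · exact l0'
    · exact l1'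
    · exact l2'
  refine ⟨lam, τ, P, hb.l0, hb.l1, τpos, P2, Peq, Peqt, ?_, ?_, ?_⟩
  · intro x y hx hy hxy
    apply hinj x y hx hy
    have e : ∀ i, (om x 0 - om y 0) * P (t 0) i + (om x 1 - om y 1) * P (t 1) i +
        (om x 2 - om y 2) * P (t 2) i = 0 := by
      intro i
      have h1 := rep x hx i
      have h2 := rep y hy i
      rw [hxy] at h1
      linarith
    have e0 := e 0
    have e1 := e 1
    have e2 := e 2
    have c0 : (om x 0 - om y 0) * dt (P (t 0)) (P (t 1)) (P (t 2)) = 0 := by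
      simp only [dt]
      linear_combination (P (t 1) 1 * P (t 2) 2 - P (t 1) 2 * P (t 2) 1) * e0 -
        (P (t 1) 0 * P (t 2) 2 - P (t 1) 2 * P (t 2) 0) * e1 +
        (P (t 1) 0 * P (t 2) 1 - P (t 1) 1 * P (t 2) 0) * e2
    have c1 : (om x 1 - om y 1) * dt (P (t 0)) (P (t 1)) (P (t 2)) = 0 := by
      simp only [dt]
      linear_combination (P (t 2) 1 * P (t 0) 2 - P (t 2) 2 * P (t 0) 1) * e0 -
        (P (t 2) 0 * P (t 0) 2 - P (t 2) 2 * P (t 0) 0) * e1 +
        (P (t 2) 0 * P (t 0) 1 - P (t 2) 1 * P (t 0) 0) * e2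
    have c2 : (om x 2 - om y 2) * dt (P (t 0)) (P (t 1)) (P (t 2)) = 0 := by
      simp only [dt]
      linear_combination (P (t 0) 1 * P (t 1) 2 - P (t 0) 2 * P (t 1) 1) * e0 -
        (P (t 0) 0 * P (t 1) 2 - P (t 0) 2 * P (t 1) 0) * e1 +
        (P (t 0) 0 * P (t 1) 1 - P (t 0) 1 * P (t 1) 0) * e2
    funext i
    fin_cases i
    · have := (mul_eq_zero.mp c0).resolve_right hne
      change om x 0 = om y 0
      linarith
    · have := (mul_eq_zero.mp c1).resolve_right hne
      change om x 1 = om y 1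
      linarith
    · have := (mul_eq_zero.mp c2).resolve_right hne
      change om x 2 = om y 2
      linarith
  · intro x y z hx hy hz hxy hyz hzx h0
    rw [hdt x y z hx hy hz] at h0
    exact htri x y z hx hy hz hxy hyz hzx ((mul_eq_zero.mp h0).resolve_right hne)
  · intro z r hz hzt
    have hw : WSol inf t a b lam z (wposR t (fun k => τ k * r (t k))) := by
      refine ⟨?_, ?_⟩
      · intro v hv hk
        rw [wposR_ne _ hk, add_zero]
        exact hz v hv hk
      · intro k
        rw [wposR_t w.tinj]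
        exact hzt k
    have h1 := ν1 z _ hw
    rw [wposR_sum] at h1
    have e : ∀ k, ν (t k) * (τ k * r (t k)) = κ k * r (t k) := by
      intro k
      rw [← ντ k]; ring
    rw [e, e, e, κ0, κ1, κ2] at h1
    exact h1

end SN78
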