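import Pool.Agent.SN78.RRig
import Pool.Agent.SN78.RPos
import Pool.Agent.SN78.WPos
import Pool.Agent.SN78.Parent

/-!
# SN78 module RT: parent pictures of rigid pieces

Proof.  `exists_frame` with `inf = none`; `Cfg D` from `ShCase` and `h20` (`D 3 = x • D 2 + y • D 0` with
`x = d2 (D 3) (D 0) / d2 (D 2) (D 0)`, `y = d2 (D 2) (D 3) / d2 (D 2) (D 0)` for flat vectors);
`Frame.walk`, `Walk.exists_eqm`, `Frame.draw`, `Draw.conv`.
`c v = 1` for `v = some (inl _)` and `none`; for `v = some (inr a)`, `k = s v`: for small `ε > 0`,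
with `D' = dir a`, `Pert.off` says that `d2 (D' k) (D' (k + 2))` has the sign of `- c v`
(`d2 (D' i) (D' j) = dt (pe v) Q Q' `, `dt_eq_d2`; `opp (f a i) = bd (en (v, i))`).  Choose `c v = ± 1` such that
`0 < d2 (D' 0) (D' 2) ↔ c0 a` if `k = 0, 2` and `0 < d2 (D' 1) (D' 3) ↔ c1 a` if `k = 1, 3`.
`exists_pert`, `rpic_valid`, `rrow_orth`, `rpic_rig`, `Pert.bend` (the other determinant is not `0`),
`dir_pos`; take a small `ε > 0` (`𝓝[>] 0` is not the bottom filter).
-/

namespace SN78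

open Sum Filter Topology

/-- the big vertex sees generic directions, and one of the two signs is prescribed -/
def GoodS (c0 c1 : Bool) (D : ZMod 4 → H) : Prop :=
  Pos D ∧ d2 (D 0) (D 2) ≠ 0 ∧ d2 (D 1) (D 3) ≠ 0 ∧
    ((0 < d2 (D 0) (D 2) ↔ c0 = true) ∨ (0 < d2 (D 1) (D 3) ↔ c1 = true))

private theorem rt_cramer {a b c : H} (ha : a 2 = 0) (hb : b 2 = 0) (hc : c 2 = 0)
    (h : 0 < d2 b a) : c = (d2 c a / d2 b a) • b + (d2 b c / d2 b a) • a := by
  have h' : d2 b a ≠ 0 := h.ne'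
  funext i
  simp only [Pi.add_apply, Pi.smul_apply, smul_eq_mul]
  rw [div_mul_eq_mul_div, div_mul_eq_mul_div, ← add_div, eq_div_iff h']
  fin_cases i
  · simp only [d2, Fin.zero_eta, Fin.isValue]; ring
  · simp only [d2, Fin.mk_one, Fin.isValue]; ring
  · simp only [Fin.reduceFinMk, ha, hb, hc]; ring

theorem cfg_of_shCase {sh : ZMod 4 → Prop} {D : ZMod 4 → H} (h : ShCase sh D)
    (h20 : 0 < d2 (D 2) (D 0)) : Cfg D := by
  have e30 : (3 : ZMod 4) + 1 = 0 := by decide
  have e01 : (0 : ZMod 4) + 1 = 1 := by decide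
  have e12 : (1 : ZMod 4) + 1 = 2 := by decide
  have e23 : (2 : ZMod 4) + 1 = 3 := by decide
  rcases h with ⟨-, hf, hp⟩ | ⟨-, hf, h1, hp⟩
  · have a0 := hp 0
    have a1 := hp 1
    have a2 := hp 2
    have a3 := hp 3
    rw [e01] at a0
    rw [e12] at a1
    rw [e23] at a2
    rw [e30] at a3
    exact ⟨hf, a0, a1, h20, d2 (D 3) (D 0) / d2 (D 2) (D 0), d2 (D 2) (D 3) / d2 (D 2) (D 0),
      (div_pos a3 h20).le, div_pos a2 h20, rt_cramer (hf 0) (hf 2) (hf 3) h20⟩
  · have a0 := hp 0 (by decide)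
    have a1 := hp 1 (by decide)
    have a2 := hp 2 (by decide)
    rw [e01] at a0
    rw [e12] at a1
    rw [e23] at a2
    rw [e30] at h1
    have a3 : d2 (D 3) (D 0) = 0 := by rw [h1]; exact d2_self _
    exact ⟨hf, a0, a1, h20, d2 (D 3) (D 0) / d2 (D 2) (D 0), d2 (D 2) (D 3) / d2 (D 2) (D 0),
      by rw [a3, zero_div], div_pos a2 h20, rt_cramer (hf 0) (hf 2) (hf 3) h20⟩

private theorem rt_z4 (j : ZMod 4) : j = 0 ∨ j = 1 ∨ j = 2 ∨ j = 3 := by
  revert j; decide

/-- the sign which is prescribed at a big vertex with the straight darts `k`, `k + 2` -/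
private noncomputable def rtc (c0 c1 : Bool) (k : ZMod 4) : ℝ :=
  if k = 0 then (if c0 then -1 else 1) else if k = 1 then (if c1 then -1 else 1) else
  if k = 2 then (if c0 then 1 else -1) else (if c1 then 1 else -1)

private theorem rtc_ne (c0 c1 : Bool) (k : ZMod 4) : rtc c0 c1 k ≠ 0 := by
  unfold rtc
  split_ifs <;> norm_num

private theorem rt_good {c0 c1 : Bool} {k : ZMod 4} {D : ZMod 4 → H} (hp : Pos D)
    (h1 : rtc c0 c1 k * d2 (D k) (D (k + 2)) < 0) (h2 : d2 (D (k + 1)) (D (k + 3)) ≠ 0) :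
    GoodS c0 c1 D := by
  have e02 : (0 : ZMod 4) + 2 = 2 := by decide
  have e01 : (0 : ZMod 4) + 1 = 1 := by decide
  have e03 : (0 : ZMod 4) + 3 = 3 := by decide
  have e12 : (1 : ZMod 4) + 2 = 3 := by decide
  have e11 : (1 : ZMod 4) + 1 = 2 := by decide
  have e13 : (1 : ZMod 4) + 3 = 0 := by decide
  have e22 : (2 : ZMod 4) + 2 = 0 := by decide
  have e21 : (2 : ZMod 4) + 1 = 3 := by decide
  have e23 : (2 : ZMod 4) + 3 = 1 := by decide
  have e32 : (3 : ZMod 4) + 2 = 1 := by decide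
  have e31 : (3 : ZMod 4) + 1 = 0 := by decide
  have e33 : (3 : ZMod 4) + 3 = 2 := by decide
  have n10 : ¬ (1 : ZMod 4) = 0 := by decide
  have n20 : ¬ (2 : ZMod 4) = 0 := by decide
  have n21 : ¬ (2 : ZMod 4) = 1 := by decide
  have n30 : ¬ (3 : ZMod 4) = 0 := by decide
  have n31 : ¬ (3 : ZMod 4) = 1 := by decide
  have n32 : ¬ (3 : ZMod 4) = 2 := by decide
  rcases rt_z4 k with rfl | rfl | rfl | rfl
  · rw [e02] at h1
    rw [e01, e03] at h2
    simp only [rtc, if_true] at h1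
    have h3 : d2 (D 0) (D 2) ≠ 0 := by rintro h; rw [h, mul_zero] at h1; exact lt_irrefl _ h1
    refine ⟨hp, h3, h2, Or.inl ?_⟩
    cases c0 with
    | false =>
      simp only [Bool.false_eq_true, if_false, one_mul, iff_false, not_lt] at h1 ⊢
      exact h1.le
    | true =>
      simp only [if_true, iff_true] at h1 ⊢
      linarith
  · rw [e12] at h1
    rw [e11, e13] at h2
    simp only [rtc, n10, if_true, if_false] at h1
    have h3 : d2 (D 1) (D 3) ≠ 0 := by rintro h; rw [h, mul_zero] at h1; exact lt_irrefl _ h1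
    have h4 : d2 (D 0) (D 2) ≠ 0 := by rw [d2_swap]; exact neg_ne_zero.mpr h2
    refine ⟨hp, h4, h3, Or.inr ?_⟩
    cases c1 with
    | false =>
      simp only [Bool.false_eq_true, if_false, one_mul, iff_false, not_lt] at h1 ⊢
      exact h1.le
    | true =>
      simp only [if_true, iff_true] at h1 ⊢
      linarith
  · rw [e22, d2_swap] at h1
    rw [e21, e23] at h2
    simp only [rtc, n20, n21, if_true, if_false] at h1
    have h3 : d2 (D 0) (D 2) ≠ 0 := by
      rintro h; rw [h, neg_zero, mul_zero] at h1; exact lt_irrefl _ h1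
    have h4 : d2 (D 1) (D 3) ≠ 0 := by rw [d2_swap]; exact neg_ne_zero.mpr h2
    refine ⟨hp, h3, h4, Or.inl ?_⟩
    cases c0 with
    | false =>
      simp only [Bool.false_eq_true, if_false, iff_false, not_lt] at h1 ⊢
      linarith
    | true =>
      simp only [if_true, iff_true] at h1 ⊢
      linarith
  · rw [e32, d2_swap] at h1
    rw [e31, e33] at h2
    simp only [rtc, n30, n31, n32, if_false] at h1
    have h3 : d2 (D 1) (D 3) ≠ 0 := by
      rintro h; rw [h, neg_zero, mul_zero] at h1; exact lt_irrefl _ h1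
    refine ⟨hp, h2, h3, Or.inr ?_⟩
    cases c1 with
    | false =>
      simp only [Bool.false_eq_true, if_false, iff_false, not_lt] at h1 ⊢
      linarith
    | true =>
      simp only [if_true, iff_true] at h1 ⊢
      linarith

theorem rt_parent {V F : Type} [Fintype V] [Fintype F] {αp : SD V F Unit → SD V F Unit}
    (hr : Rigid (cls αp)) {sh : ZMod 4 → Prop} {D : ZMod 4 → H} (hsh : ShCase sh D)
    (h20 : 0 < d2 (D 2) (D 0)) (h13 : d2 (D 1) (D 3) ≠ 0) {u : ZMod 4 → ℝ}
    (hu : d2 (D 1) (D 2) * u 0 + d2 (D 2) (D 0) * u 1 + d2 (D 0) (D 1) * u 2 ≠ 0)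
    (c0 c1 : F → Bool) :
    PDr αp sh D u (fun a D' => GoodS (c0 a) (c1 a) D') := by
  obtain ⟨o, s, Fr⟩ := hr.exists_frame none
  have hD := cfg_of_shCase hsh h20
  obtain ⟨lam, τ, P, he⟩ := Fr.walk.exists_eqm (E := ![D 0, D 1, D 2])
    (by intro k; fin_cases k <;> exact hD.flat _) hD.d01 hD.d12 hD.d20
  have dw := Fr.draw hD he
  have hp := dw.conv Fr
  obtain ⟨c, hcdef⟩ : ∃ c : Option (V ⊕ F) → ℝ, c = fun v => match v with
      | some (inr a) => rtc (c0 a) (c1 a) (s (some (inr a)))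
      | _ => 1 := ⟨_, rfl⟩
  have hc : ∀ v, c v ≠ 0 := by
    intro v
    rw [hcdef]
    rcases v with _ | (v | a)
    · exact one_ne_zero
    · exact one_ne_zero
    · exact rtc_ne _ _ _
  have hc' : ∀ v, sgl v → 0 < c v := by
    intro v hv
    rw [hcdef]
    rcases v with _ | (v | a)
    · exact one_pos
    · exact one_pos
    · exact hv.elim
  obtain ⟨δ, pt⟩ := exists_pert Fr sgl hD h13 he dw hc
  have ev1 := rpic_valid Fr hsh dw hp pt hc'
  have ev2 := rpic_rig Fr he dw hp pt hu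
  have ev3 := eventually_all.2 fun a : F => pt.off (some (inr a)) (by simp)
  have ev4 := eventually_all.2 fun a : F => pt.bend Fr dw hp (v := some (inr a)) (by simp)
  obtain ⟨ε, h1, h2, h3, h4⟩ := (ev1.and (ev2.and (ev3.and ev4))).exists
  have hn : ∀ v, pe P δ ε v 2 = 1 := by
    intro v
    simp only [pe, Pi.add_apply, Pi.smul_apply, dw.nP, pt.flat, smul_zero, add_zero]
  have nL : Norm (rlab D (pe P δ ε)) := ⟨fun a => hn _, fun a => hn _, fun a i => hD.flat i⟩
  refine ⟨V, inferInstance, rpic αp s, rlab D (pe P δ ε),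
    rrow (rpic αp s) (rlab D (pe P δ ε)) s, rfl, rpic_ok Fr, rpic_real Fr, nL, fun i => rfl, h1,
    rpic_fin Fr, rrow_orth _ nL s, h2, ?_⟩
  intro a
  have hpos := dir_pos nL h1 a
  have hdir : ∀ i j, d2 ((rpic αp s).dir (rlab D (pe P δ ε)) a i)
      ((rpic αp s).dir (rlab D (pe P δ ε)) a j) = dt (pe P δ ε (some (inr a)))
        (qs D (pe P δ ε) none (en (cls αp) sgl none s (some (inr a), i)))
        (qs D (pe P δ ε) none (en (cls αp) sgl none s (some (inr a), j))) := by
    intro i j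
    have hat : ∀ i, (rlab D (pe P δ ε)).at ((rpic αp s).opp (inl (.f a i))) =
        qs D (pe P δ ε) none (en (cls αp) sgl none s (some (inr a), i)) := by
      intro i
      have hend : IsEnd (inl (.f a i) : Bead V V F Unit) := trivial
      have h5 : IsEnd ((rpic αp s).opp (inl (.f a i))) := by
        rw [rpic_opp Fr hend]
        exact bd_end _
      rw [rlab_at D (pe P δ ε) (s := s) h5, sdt_opp Fr hend]
      rfl
    rw [dt_eq_d2 _ _ _ (hn _)]
    simp only [Pic.dir, hat]
    rfl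
  apply rt_good (k := s (some (inr a))) hpos
  · rw [hdir]
    have h5 := h3 a
    have h6 : ∀ x y z : H, dt y x z = - dt x y z := by
      intro x y z; simp only [dt]; ring
    rw [h6, hcdef] at h5
    simp only at h5
    linarith
  · rw [hdir]
    exact h4 a

end SN78
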