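import Pool.Agent.SN78.RHom

/-!
# SN78 module RTL: there is no triangle with a straight passage

`tl`: going from the site `v` along `d` to the site `p` and straight on to the site `q`, one does not
come to a neighbour of `v`.

Proof.  Suppose `q = (α (op (α d))).1 = (α d').1`, `d'.1 = d.1`.  By `noloop`, `simple` the sites
`v = d.1, p = (α d).1, q` are different, `d' ≠ d`, and the six darts `d, α d, op (α d), α (op (α d)), d',
α d'` of the triangle are different.  Let `c` be their indicator function; it satisfies the
hypotheses of `homology`; take `w`.  For a site `x ∉ {v, p, q}` the function `w` is constant on the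
darts of `x`; call the value `w x`.  For `ρ : ZMod 2` let `A ρ` be the set of all `x ∉ {v, p, q}` with
`w x = ρ`.  If `c d = 0` then `w d = w (pv d)`, and `w (α d) = w (pv d)`, so both ends of an edge outside
the triangle are on the same side (the side of a dart `d` with `c d = 0` is `w d`).  So all edges
leaving `A ρ` go to the darts of `v, p, q` on the side `ρ` outside the triangle.  The six other
darts of `v, p, q` are on the two sides, so one of the sides `ρ` has at most `3` of them; `p` has one
on each side, since its triangle darts are opposite.  Then `cut (A ρ) ≤ 3` (`cut_le`), so `A ρ` is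
empty by `cut4` (its complement contains `v`).  So the dart of `p` on the side `ρ` leads to `v` or
`q`, contradiction to `simple`.
-/

namespace SN78

variable {X : Type} [Fintype X] {α : X × ZMod 4 → X × ZMod 4}

omit [Fintype X] in
open Classical in
private theorem rtl_sum (t : X × ZMod 4) (y : X) :
    ∑ i : ZMod 4, (if (y, i) = t then (1 : ZMod 2) else 0) = if t.1 = y then 1 else 0 := by
  by_cases h : t.1 = y
  · rw [if_pos h, Finset.sum_eq_single t.2]
    · rw [if_pos]
      rw [← h]
    · intro i _ hi
      rw [if_neg]
      intro h'
      apply hi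
      rw [← h']
    · intro h'
      exact absurd (Finset.mem_univ _) h'
  · rw [if_neg h]
    apply Finset.sum_eq_zero
    intro i _
    rw [if_neg]
    intro h'
    apply h
    rw [← h']

theorem Rigid.tl (h : Rigid α) (d d' : X × ZMod 4) (hd : d'.1 = d.1) :
    (α (op (α d))).1 ≠ (α d').1 := by
  classical
  intro hq
  set e : X × ZMod 4 := op (α d) with he
  have he1 : e.1 = (α d).1 := rfl
  have he2 : e.2 = (α d).2 + 2 := rfl
  have vp : (α d).1 ≠ d.1 := h.noloop d
  have pq : (α e).1 ≠ (α d).1 := by
    have := h.noloop e
    rwa [he1] at this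
  have qv : (α e).1 ≠ d.1 := by
    have := h.noloop d'
    rwa [← hq, hd] at this
  have inj : ∀ x y, α x = α y → x = y := by
    intro x y hxy
    rw [← h.inv x, ← h.inv y, hxy]
  have inv := h.inv
  -- the six darts are different
  have z2 : (2 : ZMod 4) ≠ 0 := by decide
  have n1 : d ≠ α d := fun h' => vp (congrArg Prod.fst h').symm
  have n2 : d ≠ e := fun h' => vp (by rw [← he1]; exact (congrArg Prod.fst h').symm)
  have n3 : d ≠ α e := fun h' => qv (congrArg Prod.fst h').symm
  have n4 : d ≠ d' := by
    intro h'
    apply pq
    rw [hq, ← h']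
  have n5 : d ≠ α d' := by
    intro h'
    apply qv
    rw [hq, ← h']
  have n6 : α d ≠ e := by
    intro h'
    have := congrArg Prod.snd h'
    rw [he2] at this
    exact z2 (left_eq_add.mp this)
  have n7 : α d ≠ α e := fun h' => pq (congrArg Prod.fst h').symm
  have n8 : α d ≠ d' := by
    intro h'
    apply vp
    rw [h', hd]
  have n9 : α d ≠ α d' := fun h' => n4 (inj _ _ h')
  have n10 : e ≠ α e := (h.ne e).symm
  have n11 : e ≠ d' := by
    intro h'
    apply vp
    rw [← he1, h', hd]
  have n12 : e ≠ α d' := by
    intro h'
    apply pq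
    rw [hq, ← h', he1]
  have n13 : α e ≠ d' := by
    intro h'
    apply qv
    rw [h', hd]
  have n14 : α e ≠ α d' := fun h' => n11 (inj _ _ h')
  have n15 : d' ≠ α d' := (h.ne d').symm
  let δ : X × ZMod 4 → X × ZMod 4 → ZMod 2 := fun t x => if x = t then 1 else 0
  have δα : ∀ t x, δ t (α x) = δ (α t) x := by
    intro t x
    by_cases hx : x = α t
    · simp [δ, hx, inv]
    · have : α x ≠ t := by
        intro h'
        apply hx
        rw [← h', inv]
      simp [δ, hx, this]
  have δs : ∀ t x, t ≠ x → δ t x = 0 := by
    intro t x hx
    simp only [δ]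
    rw [if_neg (Ne.symm hx)]
  have δt : ∀ t, δ t t = 1 := by
    intro t
    simp [δ]
  let c : X × ZMod 4 → ZMod 2 := fun x =>
    δ d x + δ (α d) x + δ e x + δ (α e) x + δ d' x + δ (α d') x
  have hc : ∀ x, c (α x) = c x := by
    intro x
    simp only [c, δα, inv]
    ring
  have hv : ∀ y, ∑ i : ZMod 4, c (y, i) = 0 := by
    intro y
    simp only [c, δ, Finset.sum_add_distrib, rtl_sum]
    rw [he1, hd, ← hq]
    have two : ∀ a : ZMod 2, a + a = 0 := by decide
    generalize (if d.1 = y then (1 : ZMod 2) else 0) = a1
    generalize (if (α d).1 = y then (1 : ZMod 2) else 0) = a2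
    generalize (if (α e).1 = y then (1 : ZMod 2) else 0) = a3
    have : a1 + a2 + a2 + a3 + a1 + a3 = (a1 + a1) + (a2 + a2) + (a3 + a3) := by ring
    rw [this, two a1, two a2, two a3]
    simp
  obtain ⟨w, hw1, hw2⟩ := h.homology c hc hv
  let T : Finset (X × ZMod 4) := {d, α d, e, α e, d', α d'}
  have cT : ∀ x, x ∉ T → c x = 0 := by
    intro x hx
    simp only [T, Finset.mem_insert, Finset.mem_singleton, not_or] at hx
    obtain ⟨h1, h2, h3, h4, h5, h6⟩ := hx
    simp only [c]
    rw [δs _ _ (Ne.symm h1), δs _ _ (Ne.symm h2), δs _ _ (Ne.symm h3), δs _ _ (Ne.symm h4),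
      δs _ _ (Ne.symm h5), δs _ _ (Ne.symm h6)]
    simp
  have ce : c e = 1 := by
    simp only [c]
    rw [δs _ _ n2, δs _ _ n6, δt, δs _ _ n10.symm, δs _ _ n11.symm, δs _ _ n12.symm]
    simp
  have Tα : ∀ x, x ∈ T → α x ∈ T := by
    intro x hx
    simp only [T, Finset.mem_insert, Finset.mem_singleton] at hx ⊢
    rcases hx with rfl | rfl | rfl | rfl | rfl | rfl <;> simp [inv]
  have Tα' : ∀ x, x ∉ T → α x ∉ T := by
    intro x hx hx'
    apply hx
    have := Tα _ hx'
    rwa [inv] at this
  have wz : ∀ x, x ∉ T → w x = w (pv x) := by
    intro x hx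
    have h1 := hw2 x
    rw [cT x hx] at h1
    have : ∀ a b : ZMod 2, a + b = 0 → a = b := by decide
    exact this _ _ h1
  have wα : ∀ x, w (α x) = w (pv x) := by
    intro x
    rw [← hw1 (α x), fs, inv]
  have wside : ∀ x, x ∉ T → w (α x) = w x := by
    intro x hx
    rw [wα, ← wz x hx]
  let Q : Finset X := {d.1, (α d).1, (α e).1}
  have TQ : ∀ x, x ∈ T → x.1 ∈ Q := by
    intro x hx
    simp only [T, Finset.mem_insert, Finset.mem_singleton] at hx
    simp only [Q, Finset.mem_insert, Finset.mem_singleton]
    rcases hx with rfl | rfl | rfl | rfl | rfl | rfl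
    · left; rfl
    · right; left; rfl
    · right; left; exact he1
    · right; right; rfl
    · left; exact hd
    · right; right; exact hq.symm
  have wconst : ∀ y, y ∉ Q → ∀ i : ZMod 4, w (y, i) = w (y, 0) := by
    intro y hy
    have hstep : ∀ i : ZMod 4, w (y, i) = w (y, i - 1) := by
      intro i
      exact wz (y, i) (fun h' => hy (TQ _ h'))
    have h1 := hstep 1
    have h2 := hstep 2
    have h3 := hstep 3
    rw [show (1 : ZMod 4) - 1 = 0 from by decide] at h1
    rw [show (2 : ZMod 4) - 1 = 1 from by decide] at h2
    rw [show (3 : ZMod 4) - 1 = 2 from by decide] at h3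
    intro i
    have hi : i = 0 ∨ i = 1 ∨ i = 2 ∨ i = 3 := by
      revert i; decide
    rcases hi with rfl | rfl | rfl | rfl
    · rfl
    · exact h1
    · exact h2.trans h1
    · exact h3.trans (h2.trans h1)
  -- no dart outside the triangle joins two of the three sites
  have key : ∀ x, x.1 ∈ Q → (α x).1 ∈ Q → x ∈ T := by
    intro x h1 h2
    simp only [Q, Finset.mem_insert, Finset.mem_singleton] at h1 h2
    simp only [T, Finset.mem_insert, Finset.mem_singleton]
    have nl := h.noloop x
    rcases h1 with h1 | h1 | h1 <;> rcases h2 with h2 | h2 | h2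
    · exact absurd (h2.trans h1.symm) nl
    · left; exact h.simple h1 h2
    · right; right; right; right; left
      exact h.simple (h1.trans hd.symm) (h2.trans hq)
    · right; left
      exact h.simple h1 (by rw [h2, inv])
    · exact absurd (h2.trans h1.symm) nl
    · right; right; left
      exact h.simple (h1.trans he1.symm) h2
    · right; right; right; right; right
      exact h.simple (h1.trans hq) (by rw [h2, inv, hd])
    · right; right; right; left
      exact h.simple h1 (by rw [h2, inv, he1])
    · exact absurd (h2.trans h1.symm) nl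
  let S : Finset (X × ZMod 4) := Q ×ˢ (Finset.univ : Finset (ZMod 4))
  have hQ : Q.card = 3 := by
    simp only [Q]
    rw [Finset.card_insert_of_notMem, Finset.card_insert_of_notMem, Finset.card_singleton]
    · simpa using pq.symm
    · simp only [Finset.mem_insert, Finset.mem_singleton, not_or]
      exact ⟨vp.symm, qv.symm⟩
  have hS : S.card = 12 := by
    simp only [S]
    rw [Finset.card_product, hQ, Finset.card_univ, ZMod.card]
  have hT : T.card = 6 := by
    simp only [T]
    rw [Finset.card_insert_of_notMem, Finset.card_insert_of_notMem, Finset.card_insert_of_notMem,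
      Finset.card_insert_of_notMem, Finset.card_insert_of_notMem, Finset.card_singleton]
    · simpa using n15
    · simp only [Finset.mem_insert, Finset.mem_singleton, not_or]
      exact ⟨n13, n14⟩
    · simp only [Finset.mem_insert, Finset.mem_singleton, not_or]
      exact ⟨n10, n11, n12⟩
    · simp only [Finset.mem_insert, Finset.mem_singleton, not_or]
      exact ⟨n6, n7, n8, n9⟩
    · simp only [Finset.mem_insert, Finset.mem_singleton, not_or]
      exact ⟨n1, n2, n3, n4, n5⟩
  have TS : T ⊆ S := by
    intro x hx
    simp only [S, Finset.mem_product]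
    exact ⟨TQ x hx, Finset.mem_univ _⟩
  have hL : (S \ T).card = 6 := by
    rw [Finset.card_sdiff_of_subset TS, hS, hT]
  have hsplit := Finset.card_filter_add_card_filter_not (s := S \ T) (fun x => w x = 0)
  have hex : ∃ ρ : ZMod 2, ((S \ T).filter (fun x => w x = ρ)).card ≤ 3 := by
    by_contra hcon
    push Not at hcon
    have h0 := hcon 0
    have h1 := hcon 1
    have : ((S \ T).filter (fun x => ¬ w x = 0)) = ((S \ T).filter (fun x => w x = 1)) := by
      apply Finset.filter_congr
      intro x _
      have : ∀ a : ZMod 2, ¬ a = 0 ↔ a = 1 := by decide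
      exact this _
    rw [this] at hsplit
    omega
  obtain ⟨ρ, hρ⟩ := hex
  let A : Finset X := Finset.univ.filter (fun y => y ∉ Q ∧ w (y, 0) = ρ)
  have hmem : ∀ y, y ∈ A ↔ y ∉ Q ∧ w (y, 0) = ρ := by
    intro y
    simp [A]
  have hcut : cut α A ≤ 3 := by
    refine le_trans (h.cut_le A _ ?_) hρ
    intro x h1 h2
    rw [hmem] at h1 h2
    have hxT : x ∉ T := by
      intro h'
      exact h2.1 (TQ _ (Tα _ h'))
    have hwx : w x = ρ := by
      rw [← wside x hxT, ← h2.2]
      exact wconst _ h2.1 _
    have hxQ : x.1 ∈ Q := by
      by_contra hx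
      apply h1
      refine ⟨hx, ?_⟩
      rw [← hwx, ← wconst _ hx x.2]
    rw [Finset.mem_filter, Finset.mem_sdiff]
    refine ⟨⟨?_, hxT⟩, hwx⟩
    simp only [S, Finset.mem_product]
    exact ⟨hxQ, Finset.mem_univ _⟩
  have hA : A = ∅ := by
    by_contra hA
    have := h.cut4 A (Finset.nonempty_iff_ne_empty.mpr hA) (by
      intro h'
      have : d.1 ∈ A := by rw [h']; exact Finset.mem_univ _
      rw [hmem] at this
      exact this.1 (by simp [Q]))
    omega
  -- the dart of `p` on the side `ρ`
  have hp : ∃ x : X × ZMod 4, x.1 = (α d).1 ∧ x ∉ T ∧ w x = ρ := by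
    set i := (α d).2 with hi
    have hαd : α d = ((α d).1, i) := rfl
    have hee : e = ((α d).1, i + 2) := rfl
    have m1 : ((α d).1, i + 1) ∉ T := by
      simp only [T, Finset.mem_insert, Finset.mem_singleton, not_or]
      refine ⟨?_, ?_, ?_, ?_, ?_, ?_⟩
      · intro h'
        have := congrArg Prod.fst h'
        exact vp this
      · intro h'
        have := congrArg Prod.snd h'
        change i + 1 = i at this
        revert this
        generalize i = j
        revert j; decide
      · intro h'
        have := congrArg Prod.snd h'
        change i + 1 = i + 2 at this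
        revert this
        generalize i = j
        revert j; decide
      · intro h'
        have := congrArg Prod.fst h'
        exact pq this.symm
      · intro h'
        have := congrArg Prod.fst h'
        rw [hd] at this
        exact vp this
      · intro h'
        have := congrArg Prod.fst h'
        apply pq
        rw [hq]
        exact this.symm
    have m3 : ((α d).1, i + 3) ∉ T := by
      simp only [T, Finset.mem_insert, Finset.mem_singleton, not_or]
      refine ⟨?_, ?_, ?_, ?_, ?_, ?_⟩
      · intro h'
        have := congrArg Prod.fst h'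
        exact vp this
      · intro h'
        have := congrArg Prod.snd h'
        change i + 3 = i at this
        revert this
        generalize i = j
        revert j; decide
      · intro h'
        have := congrArg Prod.snd h'
        change i + 3 = i + 2 at this
        revert this
        generalize i = j
        revert j; decide
      · intro h'
        have := congrArg Prod.fst h'
        exact pq this.symm
      · intro h'
        have := congrArg Prod.fst h'
        rw [hd] at this
        exact vp this
      · intro h'
        have := congrArg Prod.fst h'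
        apply pq
        rw [hq]
        exact this.symm
    have r2 := hw2 e
    rw [ce] at r2
    have r3 := wz _ m3
    have p2 : pv e = ((α d).1, i + 1) := by
      rw [hee, pv]
      simp only [Prod.mk.injEq, true_and]
      generalize i = j
      revert j; decide
    have p3 : pv ((α d).1, i + 3) = e := by
      rw [hee, pv]
      simp only [Prod.mk.injEq, true_and]
      generalize i = j
      revert j; decide
    rw [p2] at r2
    rw [p3] at r3
    by_cases hcase : w ((α d).1, i + 1) = ρ
    · exact ⟨((α d).1, i + 1), rfl, m1, hcase⟩
    · refine ⟨((α d).1, i + 3), rfl, m3, ?_⟩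
      rw [r3]
      have : ∀ a b r : ZMod 2, a + b = 1 → ¬ b = r → a = r := by decide
      exact this _ _ _ r2 hcase
  obtain ⟨x, hx1, hxT, hwx⟩ := hp
  have hxQ : x.1 ∈ Q := by
    rw [hx1]
    simp [Q]
  have hαx : (α x).1 ∈ Q := by
    by_contra hn
    have : (α x).1 ∈ A := by
      rw [hmem]
      refine ⟨hn, ?_⟩
      rw [← hwx, ← wside x hxT, ← wconst _ hn (α x).2]
    rw [hA] at this
    exact absurd this (Finset.notMem_empty _)
  exact hxT (key x hxQ hαx)

end SN78
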