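import Pool.Agent.SN78.RPert

/-!
# SN78 module RVA: the perturbed drawing, conditions at single sites

`Q ε e = qs D (pe P δ ε) inf e` tends to `qs D P inf e`.  `pp` is the position of the end of the stick which leaves
`v` along the dart `i`, where the node of `v` is on the bent dart `s v + 1`; `kp` is the determinant `kap`.

Limits.  Put `A = qs (en (v, i))`, `B = qs (en (v, i + 1))`; by `lim_dir` `A - A 2 • P v = t • dr (v, i)`,
`B - B 2 • P v = t' • dr (v, i + 1)`, `t, t' > 0`, so `dt (P v) A B = t * t' * d2 (dr (v, i)) (dr (v, i + 1)) > 0`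
(`dt_eq_d2`, `Conv`); this gives `fat`.
`outer`: let `u = dr (v, j + 3)`, so `dr (v, j + 1) = - c • u` with `c > 0` (the straight darts; `op_st`), `w = dr (v, j)`,
`d2 u w > 0`.  With `A = A 2 • P v + t₁ • u`, `B = B 2 • P v - t₂ • u`, `C = C 2 • P v + t₃ • w` (`A, C, B` the ends for
`j + 3, j, j + 1`), `dt A C B = t₃ * (A 2 * t₂ + B 2 * t₁) * d2 u w`, and `A 2, B 2 ∈ {0, 1}` are not both `0` (`not_both`).
`not_both`: suppose `(en (v, s v + 2)).1 = inf`.  `(α (v, s v + 2)).1 ≠ inf` (`b_inf`), so `α (v, s v + 2)` is passed and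
the edge is straight at both ends.  With `g = (t₁, s t₁ + 2)`, `t₁ = tp α inf 1`, `y = (α g).1`, `st_two` gives
`(v, s v + 2) = g` or `α (v, s v + 2) = g`.  If `v = t₁`: the stick passes `y` (or ends there) and the next site is
not `inf` (`star_ne`, `a_inf`, `b_inf`) and not passed (`st_two`), contradiction.  So `v = y`, `(v, s v + 2) = α g`.  Now
`(α (v, s v)).1 ≠ inf` (`star_ne`, `a_inf`), and it is not passed: otherwise `(v, s v)` would be `g` or `α g` by
`st_two`.  So `en (v, s v) = α (v, s v)` is not at `inf`.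
`cr`: `kp v (s v + 1) = dt Q(s v) (pe v) Q(s v + 2)` is `off`; `kp v (s v)`, `kp v (s v + 2)` are cyclic permutations of
`fat` for `i = s v + 3` and `i = s v + 2`; `kp v (s v + 3)` is `outer` for `j = s v + 3`.
`bend`: if both bent darts do not lead to `inf`: `nd2` and `lim_dir`.  Otherwise `v = tp α inf 3` and one of them is
the port dart `α (inf, -3)`, with `en = (inf, -3)`, the other one is its opposite: `t3`.
`shr`: `en (inf, -3) = α (inf, -3)` (`nst_port`) at `t₃ = tp α inf 3`.  `en (inf, 0)` is at a site with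
`qs = P t₀ - t • D 0`, `t ≥ 0` (`t₀ = tp α inf 0`; `lim_dir` at `t₀` if it is passed).  As `D 3` is parallel to
`D 0`, the limit is `dt (D 3) (P t₀) (P t₃) = dt (P t₃) (D 3) (P t₀)`, positive by `conv_site'` for the dart
`d = α (inf, 1) = α (inf, -3)` (direction `D 3`), `fs α d = (inf, 0)`, `fs α (inf, 0)` is at `t₀`.
-/

namespace SN78

open Filter Topology

variable {X : Type} {α : X × ZMod 4 → X × ZMod 4} {inf : X} {s : X → ZMod 4}
  {sg : X → Prop} {D : ZMod 4 → H} {P δ : X → H} {c : X → ℝ}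

/-- the end of the stick which leaves `v` along the dart `i` -/
noncomputable def pp (α : X × ZMod 4 → X × ZMod 4) (sg : X → Prop) (inf : X) (s : X → ZMod 4)
    (D : ZMod 4 → H) (Q : X → H) (v : X) (i : ZMod 4) : H :=
  if i = s v + 1 then Q v else qs D Q inf (en α sg inf s (v, i))

/-- the determinant of three consecutive ends -/
noncomputable def kp (α : X × ZMod 4 → X × ZMod 4) (sg : X → Prop) (inf : X) (s : X → ZMod 4)
    (D : ZMod 4 → H) (Q : X → H) (v : X) (i : ZMod 4) : ℝ :=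
  dt (pp α sg inf s D Q v (i + 3)) (pp α sg inf s D Q v i) (pp α sg inf s D Q v (i + 1))

private theorem rva_qs_inf (Q : X → H) {e : X × ZMod 4} (h : e.1 = inf) :
    qs D Q inf e = D (-e.2) := by
  simp [qs, h]

private theorem rva_qs_site (Q : X → H) {e : X × ZMod 4} (h : e.1 ≠ inf) :
    qs D Q inf e = Q e.1 := by
  simp [qs, h]

private theorem rva_tendsto_pe (v : X) :
    Tendsto (fun ε => pe P δ ε v) (𝓝[>] (0 : ℝ)) (𝓝 (P v)) := by
  have h : Continuous fun ε : ℝ => pe P δ ε v := by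
    unfold pe
    fun_prop
  have h2 := h.tendsto 0
  simp only [pe, zero_smul, add_zero] at h2
  exact h2.mono_left nhdsWithin_le_nhds

private theorem rva_tendsto_dt {f g k : ℝ → H} {a b d : H} {l : Filter ℝ}
    (hf : Tendsto f l (𝓝 a)) (hg : Tendsto g l (𝓝 b)) (hk : Tendsto k l (𝓝 d)) :
    Tendsto (fun ε => dt (f ε) (g ε) (k ε)) l (𝓝 (dt a b d)) := by
  rw [tendsto_pi_nhds] at hf hg hk
  unfold dt
  exact ((((hf 0).mul (((hg 1).mul (hk 2)).sub ((hg 2).mul (hk 1))))).sub
    ((hf 1).mul (((hg 0).mul (hk 2)).sub ((hg 2).mul (hk 0))))).add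
    ((hf 2).mul (((hg 0).mul (hk 1)).sub ((hg 1).mul (hk 0))))

private theorem rva_22 : (2 : ZMod 4) + 2 = 0 := by decide

private theorem rva_op_ne (d : X × ZMod 4) : op d ≠ d := by
  intro h
  have h1 : d.2 + 2 = d.2 := congrArg Prod.snd h
  have h2 : (2 : ZMod 4) = 0 := by
    have := congrArg (fun x => x - d.2) h1
    simpa using this
  exact absurd h2 (by decide)

private theorem rva_z4 (i j : ZMod 4) : i = j ∨ i = j + 1 ∨ i = j + 2 ∨ i = j + 3 := by
  revert i j; decide

private theorem rva_st_op {d : X × ZMod 4} (h : St s d) : St s (op d) := by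
  rcases h with h | h
  · right
    show d.2 + 2 = s d.1 + 2
    rw [h]
  · left
    show d.2 + 2 = s d.1
    rw [h, add_assoc, rva_22, add_zero]

theorem tendsto_qs (e : X × ZMod 4) :
    Tendsto (fun ε => qs D (pe P δ ε) inf e) (𝓝[>] (0 : ℝ)) (𝓝 (qs D P inf e)) := by
  by_cases h : e.1 = inf
  · simp only [rva_qs_inf _ h]
    exact tendsto_const_nhds
  · simp only [rva_qs_site _ h]
    exact rva_tendsto_pe e.1

theorem tendsto_pp (v : X) (i : ZMod 4) :
    Tendsto (fun ε => pp α sg inf s D (pe P δ ε) v i) (𝓝[>] (0 : ℝ))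
      (𝓝 (pp α sg inf s D P v i)) := by
  unfold pp
  by_cases h : i = s v + 1
  · simp only [if_pos h]
    exact rva_tendsto_pe v
  · simp only [if_neg h]
    exact tendsto_qs _

private theorem rva_q2 (dw : Draw α inf s D P) (e : X × ZMod 4) :
    (e.1 = inf ∧ qs D P inf e 2 = 0) ∨ (e.1 ≠ inf ∧ qs D P inf e 2 = 1) := by
  by_cases h : e.1 = inf
  · left
    refine ⟨h, ?_⟩
    rw [rva_qs_inf _ h]
    exact dw.cfg.flat _
  · right
    refine ⟨h, ?_⟩
    rw [rva_qs_site _ h]
    exact dw.nP _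

variable [Fintype X] {o : X × ZMod 4 → Bool}

/-- the edge beyond a site passed coming from another site does not lead to infinity, unless the
site is the site of a port -/
private theorem rva_next (F : Frame α inf o s) {f : X × ZMod 4} (h1 : f.1 ≠ inf) (h2 : St s f)
    (h3 : ∀ k, f.1 ≠ tp α inf k) : (α f).1 ≠ inf := by
  intro h4
  rcases h2 with e | e
  · have e2 : f = (f.1, s f.1) := Prod.ext rfl e
    rw [e2] at h4
    obtain ⟨k, -, hk⟩ := (F.a_inf h1).1 h4
    exact h3 k hk
  · have e2 : f = (f.1, s f.1 + 2) := Prod.ext rfl e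
    rw [e2] at h4
    exact F.b_inf h1 h4

theorem Frame.not_both (F : Frame α inf o s) {v : X} (hv : v ≠ inf) :
    ¬ ((en α sg inf s (v, s v)).1 = inf ∧ (en α sg inf s (v, s v + 2)).1 = inf) := by
  rintro ⟨ha, hb⟩
  have b1 : (α (v, s v + 2)).1 ≠ inf := F.b_inf hv
  have b2 : Ps sg inf s (α (v, s v + 2)) := by
    by_contra h
    rw [en_stop h] at hb
    exact b1 hb
  rcases F.st_two (d := (v, s v + 2)) hv b1 (Or.inr rfl) b2.2.2 with g | g
  · set f := nt α (v, s v + 2) with hf
    have f1 : f.1 ≠ inf := b1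
    have f2 : St s f := rva_st_op b2.2.2
    have f3 : ∀ k, f.1 ≠ tp α inf k := by
      intro k
      show (α (v, s v + 2)).1 ≠ _
      rw [g]
      exact F.star_ne k
    have f4 : (α f).1 ≠ inf := rva_next F f1 f2 f3
    have f5 : ¬ Ps sg inf s (α f) := by
      intro h
      rcases F.st_two f1 f4 f2 h.2.2 with q | q
      · exact f3 1 (by rw [q])
      · have h4 : f = α (v, s v + 2) := by
          rw [g, ← q, F.rig.inv]
        exact rva_op_ne (α (v, s v + 2)) h4
    rw [F.en_go b2, en_stop f5] at hb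
    exact f4 hb
  · have a0 : ∀ k, v ≠ tp α inf k := by
      intro k
      have h4 : (α (tp α inf 1, s (tp α inf 1) + 2)).1 = v := by rw [← g, F.rig.inv]
      rw [← h4]
      exact F.star_ne k
    have a1 : (α (v, s v)).1 ≠ inf := rva_next F (f := (v, s v)) hv (Or.inl rfl) a0
    have a2 : Ps sg inf s (α (v, s v)) := by
      by_contra h
      rw [en_stop h] at ha
      exact a1 ha
    rcases F.st_two (d := (v, s v)) hv a1 (Or.inl rfl) a2.2.2 with q | q
    · exact a0 1 (congrArg Prod.fst q)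
    · have h4 : (v, s v) = (v, s v + 2) := by
        rw [← F.rig.inv (v, s v), q, ← g, F.rig.inv]
      exact rva_op_ne (v, s v) h4.symm

private theorem rva_dt_lim (F : Frame α inf o s) (dw : Draw α inf s D P) {d d' : X × ZMod 4}
    (hd : d.1 ≠ inf) (hd' : d'.1 = d.1) : ∃ t : ℝ, 0 < t ∧
      dt (P d.1) (qs D P inf (en α sg inf s d)) (qs D P inf (en α sg inf s d')) =
        t * d2 (dr α inf D P d) (dr α inf D P d') := by
  obtain ⟨t, ht, e⟩ := dw.lim_dir (sg := sg) F hd
  obtain ⟨t', ht', e'⟩ := dw.lim_dir (sg := sg) F (d := d') (by rw [hd']; exact hd)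
  rw [hd'] at e'
  refine ⟨t * t', mul_pos ht ht', ?_⟩
  rw [dt_eq_d2 _ _ _ (dw.nP _), e, e', d2_smul_left, d2_smul_right]
  ring

theorem Pert.fat (F : Frame α inf o s) (dw : Draw α inf s D P) (hp : Conv α inf D P)
    (pt : Pert α sg inf s D P c δ) {v : X} (hv : v ≠ inf) (i : ZMod 4) :
    ∀ᶠ ε in 𝓝[>] (0 : ℝ), 0 < dt (pe P δ ε v)
      (qs D (pe P δ ε) inf (en α sg inf s (v, i)))
      (qs D (pe P δ ε) inf (en α sg inf s (v, i + 1))) := by
  have _ := pt
  obtain ⟨t, ht, e⟩ := rva_dt_lim (sg := sg) F dw (d := (v, i)) (d' := (v, i + 1)) hv rfl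
  have h1 : 0 < dt (P v) (qs D P inf (en α sg inf s (v, i)))
      (qs D P inf (en α sg inf s (v, i + 1))) := by
    rw [show dt (P v) (qs D P inf (en α sg inf s (v, i)))
      (qs D P inf (en α sg inf s (v, i + 1))) = _ from e]
    exact mul_pos ht (hp (v, i) hv)
  exact (rva_tendsto_dt (rva_tendsto_pe v) (tendsto_qs _) (tendsto_qs _)).eventually
    (lt_mem_nhds h1)

private theorem rva_outer_eq {p u w A B C : H} {a b k t1 t2 t3 : ℝ} (hp : p 2 = 1)
    (hu : u 2 = 0) (hw : w 2 = 0) (hA : A = a • p + t1 • u) (hB : B = b • p - t2 • u)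
    (hC : C = k • p + t3 • w) : dt A C B = t3 * (a * t2 + b * t1) * d2 u w := by
  subst hA hB hC
  simp only [dt, d2, Pi.add_apply, Pi.sub_apply, Pi.smul_apply, smul_eq_mul, hp, hu, hw]
  ring

theorem Pert.outer (F : Frame α inf o s) (dw : Draw α inf s D P) (hp : Conv α inf D P)
    (pt : Pert α sg inf s D P c δ) {v : X} (hv : v ≠ inf) {j : ZMod 4} (hj : ¬ St s (v, j)) :
    ∀ᶠ ε in 𝓝[>] (0 : ℝ), 0 < dt (qs D (pe P δ ε) inf (en α sg inf s (v, j + 3)))
      (qs D (pe P δ ε) inf (en α sg inf s (v, j)))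
      (qs D (pe P δ ε) inf (en α sg inf s (v, j + 1))) := by
  have _ := pt
  have key : ∀ i k : ZMod 4, ¬ (i = k ∨ i = k + 2) →
      (i + 3 = k ∧ i + 1 = k + 2) ∨ (i + 3 = k + 2 ∧ i + 1 = k) := by decide
  have hj' := key j (s v) hj
  have hst : St s (v, j + 3) := by
    rcases hj' with h | h
    · exact Or.inl h.1
    · exact Or.inr h.1
  obtain ⟨r, hr, e⟩ := dw.op_st (d := (v, j + 3)) hv hst
  have e1 : op (v, j + 3) = (v, j + 1) := by
    have : ∀ j : ZMod 4, j + 3 + 2 = j + 1 := by decide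
    exact Prod.ext rfl (this j)
  have e2 : nx (v, j + 3) = (v, j) := by
    have : ∀ j : ZMod 4, j + 3 + 1 = j := by decide
    exact Prod.ext rfl (this j)
  rw [e1] at e
  have hpos := hp (v, j + 3) hv
  rw [e2] at hpos
  obtain ⟨t1, ht1, hA⟩ := dw.lim_dir (sg := sg) F (d := (v, j + 3)) hv
  obtain ⟨t2, ht2, hB⟩ := dw.lim_dir (sg := sg) F (d := (v, j + 1)) hv
  obtain ⟨t3, ht3, hC⟩ := dw.lim_dir (sg := sg) F (d := (v, j)) hv
  rw [e] at hB
  have hA' := sub_eq_iff_eq_add.1 hA
  have hB' := sub_eq_iff_eq_add.1 hB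
  have hC' := sub_eq_iff_eq_add.1 hC
  have hval := rva_outer_eq (dw.nP v) (dw.flat (v, j + 3)) (dw.flat (v, j))
    (A := qs D P inf (en α sg inf s (v, j + 3))) (B := qs D P inf (en α sg inf s (v, j + 1)))
    (C := qs D P inf (en α sg inf s (v, j))) (a := qs D P inf (en α sg inf s (v, j + 3)) 2)
    (b := qs D P inf (en α sg inf s (v, j + 1)) 2) (k := qs D P inf (en α sg inf s (v, j)) 2)
    (t1 := t1) (t2 := t2 * r) (t3 := t3)
    (hA'.trans (add_comm _ _))
    (by
      rw [smul_neg, smul_smul] at hB'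
      rw [sub_eq_add_neg]
      exact hB'.trans (add_comm _ _))
    (hC'.trans (add_comm _ _))
  have hnb := F.not_both (sg := sg) hv
  have hAB : 0 < qs D P inf (en α sg inf s (v, j + 3)) 2 * (t2 * r) +
      qs D P inf (en α sg inf s (v, j + 1)) 2 * t1 := by
    have ht2r := mul_pos ht2 hr
    rcases rva_q2 dw (en α sg inf s (v, j + 3)) with ⟨a1, a2⟩ | ⟨a1, a2⟩ <;>
      rcases rva_q2 dw (en α sg inf s (v, j + 1)) with ⟨b1, b2⟩ | ⟨b1, b2⟩
    · exfalso
      rcases hj' with ⟨h1, h2⟩ | ⟨h1, h2⟩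
      · rw [h1] at a1
        rw [h2] at b1
        exact hnb ⟨a1, b1⟩
      · rw [h1] at a1
        rw [h2] at b1
        exact hnb ⟨b1, a1⟩
    · rw [a2, b2]; linarith
    · rw [a2, b2]; linarith
    · rw [a2, b2]; linarith
  have h1 : 0 < dt (qs D P inf (en α sg inf s (v, j + 3)))
      (qs D P inf (en α sg inf s (v, j)))
      (qs D P inf (en α sg inf s (v, j + 1))) := by
    rw [hval]
    exact mul_pos (mul_pos ht3 hAB) hpos
  exact (rva_tendsto_dt (tendsto_qs _) (tendsto_qs _) (tendsto_qs _)).eventually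
    (lt_mem_nhds h1)

private theorem rva_cyc (a b k : H) : dt a b k = dt k a b := by
  simp only [dt]; ring

theorem Pert.cr (F : Frame α inf o s) (dw : Draw α inf s D P) (hp : Conv α inf D P)
    (pt : Pert α sg inf s D P c δ) {v : X} (hv : v ≠ inf) (hc : 0 < c v) (i : ZMod 4) :
    ∀ᶠ ε in 𝓝[>] (0 : ℝ), 0 < kp α sg inf s D (pe P δ ε) v i := by
  have pos : ∀ Q : X → H, pp α sg inf s D Q v (s v + 1) = Q v := by
    intro Q
    unfold pp
    rw [if_pos rfl]
  have neg : ∀ (Q : X → H) (i : ZMod 4), i ≠ s v + 1 →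
      pp α sg inf s D Q v i = qs D Q inf (en α sg inf s (v, i)) := by
    intro Q i h
    unfold pp
    rw [if_neg h]
  have k3 : ∀ j : ZMod 4, j + 3 ≠ j + 1 := by decide
  have k2 : ∀ j : ZMod 4, j + 2 ≠ j + 1 := by decide
  have k0 : ∀ j : ZMod 4, j ≠ j + 1 := by decide
  rcases rva_z4 i (s v) with rfl | rfl | rfl | rfl
  · filter_upwards [pt.fat F dw hp hv (s v + 3)] with ε h
    unfold kp
    rw [pos, neg _ _ (k3 _), neg _ _ (k0 _), rva_cyc]
    have e : s v + 3 + 1 = s v := by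
      have : ∀ j : ZMod 4, j + 3 + 1 = j := by decide
      exact this _
    rw [e] at h
    exact h
  · filter_upwards [pt.off v hv] with ε h
    unfold kp
    have e : s v + 1 + 3 = s v := by
      have : ∀ j : ZMod 4, j + 1 + 3 = j := by decide
      exact this _
    have e2 : s v + 1 + 1 = s v + 2 := by
      have : ∀ j : ZMod 4, j + 1 + 1 = j + 2 := by decide
      exact this _
    rw [e, e2, pos, neg _ _ (k2 _), neg _ _ (k0 _)]
    exact (mul_pos_iff_of_pos_left hc).1 h
  · filter_upwards [pt.fat F dw hp hv (s v + 2)] with ε h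
    unfold kp
    have e : s v + 2 + 3 = s v + 1 := by
      have : ∀ j : ZMod 4, j + 2 + 3 = j + 1 := by decide
      exact this _
    have e2 : s v + 2 + 1 = s v + 3 := by
      have : ∀ j : ZMod 4, j + 2 + 1 = j + 3 := by decide
      exact this _
    rw [e, e2, pos, neg _ _ (k2 _), neg _ _ (k3 _)]
    rw [e2] at h
    exact h
  · have hj : ¬ St s (v, s v + 3) := by
      have : ∀ j : ZMod 4, ¬ (j + 3 = j ∨ j + 3 = j + 2) := by decide
      exact this _
    filter_upwards [pt.outer F dw hp hv hj] with ε h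
    unfold kp
    have e : s v + 3 + 3 = s v + 2 := by
      have : ∀ j : ZMod 4, j + 3 + 3 = j + 2 := by decide
      exact this _
    have e2 : s v + 3 + 1 = s v := by
      have : ∀ j : ZMod 4, j + 3 + 1 = j := by decide
      exact this _
    rw [e, e2, neg _ _ (k2 _), neg _ _ (k3 _), neg _ _ (k0 _)]
    rw [e, e2] at h
    exact h

theorem Pert.bend (F : Frame α inf o s) (dw : Draw α inf s D P) (hp : Conv α inf D P)
    (pt : Pert α sg inf s D P c δ) {v : X} (hv : v ≠ inf) :
    ∀ᶠ ε in 𝓝[>] (0 : ℝ), dt (pe P δ ε v)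
      (qs D (pe P δ ε) inf (en α sg inf s (v, s v + 1)))
      (qs D (pe P δ ε) inf (en α sg inf s (v, s v + 3))) ≠ 0 := by
  have _ := hp
  have n1 : ¬ St s (v, s v + 1) := by
    have : ∀ j : ZMod 4, ¬ (j + 1 = j ∨ j + 1 = j + 2) := by decide
    exact this _
  have n3 : ¬ St s (v, s v + 3) := by
    have : ∀ j : ZMod 4, ¬ (j + 3 = j ∨ j + 3 = j + 2) := by decide
    exact this _
  have o1 : op (v, s v + 1) = (v, s v + 3) := by
    have : ∀ j : ZMod 4, j + 1 + 2 = j + 3 := by decide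
    exact Prod.ext rfl (this _)
  have o3 : op (v, s v + 3) = (v, s v + 1) := by
    have : ∀ j : ZMod 4, j + 3 + 2 = j + 1 := by decide
    exact Prod.ext rfl (this _)
  have hpe2 : ∀ ε, pe P δ ε v 2 = 1 := by
    intro ε
    simp only [pe, Pi.add_apply, Pi.smul_apply, smul_eq_mul, dw.nP, pt.flat, mul_zero, add_zero]
  -- a bent dart to infinity is the dart of port 3
  have port : ∀ d : X × ZMod 4, d.1 = v → ¬ St s d → (α d).1 = inf →
      d = α (inf, -3) ∧ en α sg inf s d = (inf, -3) ∧ v = tp α inf 3 ∧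
        ∀ Q : X → H, qs D Q inf (en α sg inf s d) = D 3 := by
    intro d h1 h2 h3
    have e1 : α d = (inf, -(-(α d).2)) := by
      rw [neg_neg]; exact Prod.ext h3 rfl
    have e2 : d = α (inf, -(-(α d).2)) := by rw [← e1, F.rig.inv]
    have e3 : -(α d).2 = 3 := by
      by_contra hk
      apply h2
      rw [e2, F.port_eq hk]
      exact Or.inl rfl
    rw [e3] at e1 e2
    have e4 : en α sg inf s d = (inf, -3) := by
      rw [en_stop, e1]
      intro h
      exact h.1 h3
    refine ⟨e2, e4, ?_, ?_⟩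
    · rw [← h1, e2]; rfl
    · intro Q
      rw [rva_qs_inf _ (by rw [e4]), e4, neg_neg]
  by_cases h1 : (α (v, s v + 1)).1 = inf
  · obtain ⟨p1, p2, p3, p4⟩ := port _ rfl n1 h1
    filter_upwards [pt.t3] with ε h
    rw [← p1, o1, ← p3] at h
    rw [p4, dt_eq_d2 _ _ _ (hpe2 ε), dw.cfg.flat, zero_smul, sub_zero]
    exact h
  by_cases h3 : (α (v, s v + 3)).1 = inf
  · obtain ⟨p1, p2, p3, p4⟩ := port _ rfl n3 h3
    filter_upwards [pt.t3] with ε h
    rw [← p1, o3, ← p3] at h
    rw [p4, dt_eq_d2 _ _ _ (hpe2 ε), dw.cfg.flat, zero_smul, sub_zero, d2_swap, neg_ne_zero]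
    exact h
  · obtain ⟨t, ht, e⟩ := rva_dt_lim (sg := sg) F dw (d := (v, s v + 1)) (d' := (v, s v + 3)) hv rfl
    have hk : s v + 1 + 2 = s v + 3 := by
      have : ∀ j : ZMod 4, j + 1 + 2 = j + 3 := by decide
      exact this _
    have hn := dw.nd2 v (s v + 1) hv n1 h1 (by rw [hk]; exact h3)
    rw [hk] at hn
    have h1 : dt (P v) (qs D P inf (en α sg inf s (v, s v + 1)))
        (qs D P inf (en α sg inf s (v, s v + 3))) ≠ 0 := by
      rw [show dt (P v) (qs D P inf (en α sg inf s (v, s v + 1)))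
        (qs D P inf (en α sg inf s (v, s v + 3))) = _ from e]
      exact mul_ne_zero ht.ne' hn
    exact (rva_tendsto_dt (rva_tendsto_pe v) (tendsto_qs _) (tendsto_qs _)).eventually_ne h1

theorem Pert.shr (F : Frame α inf o s) (dw : Draw α inf s D P) (hp : Conv α inf D P)
    (pt : Pert α sg inf s D P c δ) (h : ∃ x : ℝ, 0 < x ∧ D 3 = x • D 0) :
    ∀ᶠ ε in 𝓝[>] (0 : ℝ), 0 < dt (D 3)
      (qs D (pe P δ ε) inf (en α sg inf s (inf, 0)))
      (qs D (pe P δ ε) inf (en α sg inf s (inf, -3))) := by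
  have _ := pt
  obtain ⟨x, hx, hD⟩ := h
  have R := F.rig
  have e3 : en α sg inf s (inf, -3) = α (inf, -3) := by
    apply en_stop
    intro h
    exact F.nst_port h.2.2
  have q3 : qs D P inf (en α sg inf s (inf, -3)) = P (tp α inf 3) := by
    rw [e3, rva_qs_site _ (R.tp_ne inf 3)]; rfl
  have q0 : ∃ t : ℝ, qs D P inf (en α sg inf s (inf, 0)) = P (tp α inf 0) - t • D 0 := by
    by_cases hps : Ps sg inf s (α (inf, 0))
    · have h1 : (en α sg inf s (inf, 0)).1 ≠ inf := F.en_inf rfl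
      obtain ⟨t, ht, e⟩ := dw.lim_dir (sg := sg) F (d := nt α (inf, 0)) hps.1
      rw [← F.en_go hps] at e
      have e2 : qs D P inf (en α sg inf s (inf, 0)) 2 = 1 := by
        rw [rva_qs_site _ h1, dw.nP]
      obtain ⟨r, hr, e4⟩ := dw.op_st hps.1 hps.2.2
      have e5 : dr α inf D P (nt α (inf, 0)) = -(r • D 0) := by
        show dr α inf D P (op (α (inf, 0))) = _
        rw [e4, R.dr_port, neg_zero]
      rw [e2, one_smul, e5, smul_neg, smul_smul] at e
      refine ⟨t * r, ?_⟩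
      have e6 := sub_eq_iff_eq_add.1 e
      rw [e6]
      have e7 : (nt α (inf, 0)).1 = tp α inf 0 := by
        show (α (inf, 0)).1 = (α (inf, -0)).1
        rw [neg_zero]
      rw [e7]
      abel
    · refine ⟨0, ?_⟩
      rw [en_stop hps, zero_smul, sub_zero]
      have e7 : (α (inf, 0)).1 = tp α inf 0 := by
        show (α (inf, 0)).1 = (α (inf, -0)).1
        rw [neg_zero]
      rw [rva_qs_site _ (by rw [e7]; exact R.tp_ne inf 0), e7]
  obtain ⟨t, q0⟩ := q0
  have m3 : (-3 : ZMod 4) = 1 := by decide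
  have m1 : (-1 : ZMod 4) = 3 := by decide
  have hd1 : (α (inf, 1)).1 = tp α inf 3 := by
    show (α (inf, 1)).1 = (α (inf, -3)).1
    rw [m3]
  have hit : ((fs α)^[2] (α (inf, 1))).1 = tp α inf 0 := by
    show (pv (α (pv (α (α (inf, 1)))))).1 = (α (inf, -0)).1
    rw [R.inv]
    have : pv ((inf, 1) : X × ZMod 4) = (inf, -0) := by
      refine Prod.ext rfl ?_
      show (1 : ZMod 4) - 1 = -0
      decide
    rw [this]
    rfl
  have hmain := dw.conv_site' R hp (α (inf, 1)) 2 (by rw [hit]; exact R.tp_ne inf 0)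
    (by
      rw [hit, hd1]
      intro h5
      exact absurd (R.tp_inj inf h5) (by decide))
    (by rw [hit, R.inv]; exact R.tp_ne inf 0)
  have hbs : bs α inf (α (inf, 1)) = tp α inf 3 := by
    unfold bs
    rw [if_neg (by rw [hd1]; exact R.tp_ne inf 3), hd1]
  rw [hbs, hit, R.dr_port, m1] at hmain
  have h1 : 0 < dt (D 3) (qs D P inf (en α sg inf s (inf, 0)))
      (qs D P inf (en α sg inf s (inf, -3))) := by
    rw [q3, q0]
    have e8 : dt (D 3) (P (tp α inf 0) - t • D 0) (P (tp α inf 3)) =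
        dt (P (tp α inf 3)) (D 3) (P (tp α inf 0)) := by
      rw [hD]
      simp only [dt, Pi.sub_apply, Pi.smul_apply, smul_eq_mul]
      ring
    rw [e8]
    exact hmain
  exact (rva_tendsto_dt tendsto_const_nhds (tendsto_qs _) (tendsto_qs _)).eventually
    (lt_mem_nhds h1)

end SN78
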