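import Pool.Agent.SN78.RVA

/-!
# SN78 module RVB: the order of consecutive crossings on a stick

It is enough to prove the strict inequality for the limit positions.  At the limit
`kp v (s v + 1) = dt A (P v) B = 0` (`A, B` the ends of the strand of `v`; `P v` is on the line by `lim_dir`, `op_st`), and the
other three `kp v i` are positive (limits of RVA: `lim_dir`).  `i ∈ {s v, s v + 2, s v + 3}`, `j ∈ {s w, s w + 2, s w + 3}`.
 * `i = s v + 3`: then `kp v (i + 2) = kp v (s v + 1) = 0` and the right hand side is positive.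
 * `j = s w + 3`: the same for `w`.
 * both `(v, i)`, `(w, j)` straight.  Let `A = pp v i = pp w (j + 2)` (`en_go`: `en (v, i) = en (w, j + 2)` as `w` is
   passed) and `B = pp v (i + 2) = pp w j`.  Let `u = dr (v, i)`, so `P w = P v + u`.  `A = A 2 • P v + a • u`,
   `B = B 2 • P v - b • u` with `a, b > 0` (`lim_dir`, `op_st`), so `A = A 2 • P w + (a - A 2) • u`,
   `B = B 2 • P w - (b + B 2) • u`, and `a - A 2 > 0` (`lim_dir` at `w`).  Let `C` be the end for `(v, s v + 3)`; since the
   other stick of `v` has the ends `P v` and `C`: `kp v i = a * κ`, `kp v (i + 2) = b * κ` with the same `κ > 0`.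
   Similarly `kp w j = (b + B 2) * κ'`, `kp w (j + 2) = (a - A 2) * κ'`, `κ' > 0`.  The claim is
   `b * (a - A 2) < (b + B 2) * a`, i.e. `0 < A 2 * b + B 2 * a`, which holds since `A 2, B 2 ∈ {0, 1}` are not
   both `0` (`Frame.not_both`).
-/

namespace SN78

open Filter Topology

variable {X : Type} [Fintype X] {α : X × ZMod 4 → X × ZMod 4} {inf : X} {s : X → ZMod 4}
  {o : X × ZMod 4 → Bool} {sg : X → Prop} {D : ZMod 4 → H} {P δ : X → H} {c : X → ℝ}

private theorem rvb_z4 (i j : ZMod 4) : i = j ∨ i = j + 1 ∨ i = j + 2 ∨ i = j + 3 := by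
  revert i j; decide

private theorem rvb_tendsto_dt {f g k : ℝ → H} {a b d : H} {l : Filter ℝ}
    (hf : Tendsto f l (𝓝 a)) (hg : Tendsto g l (𝓝 b)) (hk : Tendsto k l (𝓝 d)) :
    Tendsto (fun ε => dt (f ε) (g ε) (k ε)) l (𝓝 (dt a b d)) := by
  rw [tendsto_pi_nhds] at hf hg hk
  unfold dt
  exact ((((hf 0).mul (((hg 1).mul (hk 2)).sub ((hg 2).mul (hk 1))))).sub
    ((hf 1).mul (((hg 0).mul (hk 2)).sub ((hg 2).mul (hk 0))))).add
    ((hf 2).mul (((hg 0).mul (hk 1)).sub ((hg 1).mul (hk 0))))

omit [Fintype X] in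
private theorem rvb_tendsto_kp (v : X) (i : ZMod 4) :
    Tendsto (fun ε => kp α sg inf s D (pe P δ ε) v i) (𝓝[>] (0 : ℝ))
      (𝓝 (kp α sg inf s D P v i)) := by
  unfold kp
  exact rvb_tendsto_dt (tendsto_pp v _) (tendsto_pp v _) (tendsto_pp v _)

omit [Fintype X] in
private theorem rvb_q2 (dw : Draw α inf s D P) (e : X × ZMod 4) :
    (e.1 = inf ∧ qs D P inf e 2 = 0) ∨ (e.1 ≠ inf ∧ qs D P inf e 2 = 1) := by
  by_cases h : e.1 = inf
  · left
    refine ⟨h, ?_⟩
    simp only [qs, h, if_true]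
    exact dw.cfg.flat _
  · right
    refine ⟨h, ?_⟩
    simp only [qs, h, if_false]
    exact dw.nP _

omit [Fintype X] in
private theorem rvb_pp0 (v : X) : pp α sg inf s D P v (s v + 1) = P v := by
  unfold pp; rw [if_pos rfl]

omit [Fintype X] in
private theorem rvb_pp1 {v : X} {i : ZMod 4} (h : i ≠ s v + 1) :
    pp α sg inf s D P v i = qs D P inf (en α sg inf s (v, i)) := by
  unfold pp; rw [if_neg h]

private theorem rvb_cyc (a b k : H) : dt a b k = dt k a b := by
  simp only [dt]; ring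

private theorem rvb_dt_lim (F : Frame α inf o s) (dw : Draw α inf s D P) {d d' : X × ZMod 4}
    (hd : d.1 ≠ inf) (hd' : d'.1 = d.1) : ∃ t : ℝ, 0 < t ∧
      dt (P d.1) (qs D P inf (en α sg inf s d)) (qs D P inf (en α sg inf s d')) =
        t * d2 (dr α inf D P d) (dr α inf D P d') := by
  obtain ⟨t, ht, e⟩ := dw.lim_dir (sg := sg) F hd
  obtain ⟨t', ht', e'⟩ := dw.lim_dir (sg := sg) F (d := d') (by rw [hd']; exact hd)
  rw [hd'] at e'
  refine ⟨t * t', mul_pos ht ht', ?_⟩
  rw [dt_eq_d2 _ _ _ (dw.nP _), e, e', d2_smul_left, d2_smul_right]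
  ring

private theorem rvb_fat (F : Frame α inf o s) (dw : Draw α inf s D P) (hp : Conv α inf D P)
    {v : X} (hv : v ≠ inf) (i : ZMod 4) : 0 < dt (P v) (qs D P inf (en α sg inf s (v, i)))
      (qs D P inf (en α sg inf s (v, i + 1))) := by
  obtain ⟨t, ht, e⟩ := rvb_dt_lim (sg := sg) F dw (d := (v, i)) (d' := (v, i + 1)) hv rfl
  rw [show dt (P v) (qs D P inf (en α sg inf s (v, i)))
    (qs D P inf (en α sg inf s (v, i + 1))) = _ from e]
  exact mul_pos ht (hp (v, i) hv)

private theorem rvb_outer_eq {p u w A B C : H} {a b k t1 t2 t3 : ℝ} (hp : p 2 = 1)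
    (hu : u 2 = 0) (hw : w 2 = 0) (hA : A = a • p + t1 • u) (hB : B = b • p - t2 • u)
    (hC : C = k • p + t3 • w) : dt A C B = t3 * (a * t2 + b * t1) * d2 u w := by
  subst hA hB hC
  simp only [dt, d2, Pi.add_apply, Pi.sub_apply, Pi.smul_apply, smul_eq_mul, hp, hu, hw]
  ring

/-- the two ends of the straight strand -/
private theorem rvb_line (F : Frame α inf o s) (dw : Draw α inf s D P) {v : X} (hv : v ≠ inf)
    {i : ZMod 4} (hi : St s (v, i)) : ∃ t t' : ℝ, 0 < t ∧ 0 < t' ∧
      qs D P inf (en α sg inf s (v, i)) =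
        qs D P inf (en α sg inf s (v, i)) 2 • P v + t • dr α inf D P (v, i) ∧
      qs D P inf (en α sg inf s (v, i + 2)) =
        qs D P inf (en α sg inf s (v, i + 2)) 2 • P v - t' • dr α inf D P (v, i) := by
  obtain ⟨r, hr, e⟩ := dw.op_st (d := (v, i)) hv hi
  obtain ⟨t1, ht1, hA⟩ := dw.lim_dir (sg := sg) F (d := (v, i)) hv
  obtain ⟨t2, ht2, hB⟩ := dw.lim_dir (sg := sg) F (d := op (v, i)) hv
  rw [e, smul_neg, smul_smul] at hB
  refine ⟨t1, t2 * r, ht1, mul_pos ht2 hr, ?_, ?_⟩
  · rw [add_comm]; exact sub_eq_iff_eq_add.1 hA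
  · have h := (sub_eq_iff_eq_add.1 hB).trans (add_comm _ _)
    exact h.trans (sub_eq_add_neg _ _).symm

private theorem rvb_zero (F : Frame α inf o s) (dw : Draw α inf s D P) {v : X} (hv : v ≠ inf) :
    kp α sg inf s D P v (s v + 1) = 0 := by
  obtain ⟨t, t', -, -, hA, hB⟩ := rvb_line (sg := sg) F dw hv (i := s v) (Or.inl rfl)
  have e1 : s v + 1 + 3 = s v := by
    have : ∀ j : ZMod 4, j + 1 + 3 = j := by decide
    exact this _
  have e2 : s v + 1 + 1 = s v + 2 := by
    have : ∀ j : ZMod 4, j + 1 + 1 = j + 2 := by decide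
    exact this _
  have k2 : ∀ j : ZMod 4, j + 2 ≠ j + 1 := by decide
  have k0 : ∀ j : ZMod 4, j ≠ j + 1 := by decide
  unfold kp
  rw [e1, e2, rvb_pp0, rvb_pp1 (k2 _), rvb_pp1 (k0 _), hA, hB]
  simp only [dt, Pi.add_apply, Pi.sub_apply, Pi.smul_apply, smul_eq_mul]
  ring

private theorem rvb_pos (F : Frame α inf o s) (dw : Draw α inf s D P) (hp : Conv α inf D P)
    {v : X} (hv : v ≠ inf) {i : ZMod 4} (hi : i ≠ s v + 1) : 0 < kp α sg inf s D P v i := by
  have k3 : ∀ j : ZMod 4, j + 3 ≠ j + 1 := by decide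
  have k2 : ∀ j : ZMod 4, j + 2 ≠ j + 1 := by decide
  have k0 : ∀ j : ZMod 4, j ≠ j + 1 := by decide
  rcases rvb_z4 i (s v) with rfl | rfl | rfl | rfl
  · have h := rvb_fat (sg := sg) F dw hp hv (s v + 3)
    unfold kp
    rw [rvb_pp0, rvb_pp1 (k3 _), rvb_pp1 (k0 _), rvb_cyc]
    have e : s v + 3 + 1 = s v := by
      have : ∀ j : ZMod 4, j + 3 + 1 = j := by decide
      exact this _
    rw [e] at h
    exact h
  · exact absurd rfl hi
  · have h := rvb_fat (sg := sg) F dw hp hv (s v + 2)
    unfold kp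
    have e : s v + 2 + 3 = s v + 1 := by
      have : ∀ j : ZMod 4, j + 2 + 3 = j + 1 := by decide
      exact this _
    have e2 : s v + 2 + 1 = s v + 3 := by
      have : ∀ j : ZMod 4, j + 2 + 1 = j + 3 := by decide
      exact this _
    rw [e, e2, rvb_pp0, rvb_pp1 (k2 _), rvb_pp1 (k3 _)]
    rw [e2] at h
    exact h
  · obtain ⟨t1, t2, ht1, ht2, hB, hA⟩ :=
      rvb_line (sg := sg) F dw hv (i := s v) (Or.inl rfl)
    obtain ⟨t3, ht3, hC⟩ := dw.lim_dir (sg := sg) F (d := (v, s v + 3)) hv
    have hC' := (sub_eq_iff_eq_add.1 hC).trans (add_comm _ _)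
    have e : s v + 3 + 3 = s v + 2 := by
      have : ∀ j : ZMod 4, j + 3 + 3 = j + 2 := by decide
      exact this _
    have e2 : s v + 3 + 1 = s v := by
      have : ∀ j : ZMod 4, j + 3 + 1 = j := by decide
      exact this _
    have hpos : 0 < d2 (dr α inf D P (v, s v + 3)) (dr α inf D P (v, s v)) := by
      have h := hp (v, s v + 3) hv
      have e3 : nx (v, s v + 3) = (v, s v) := Prod.ext rfl e2
      rw [e3] at h
      exact h
    have hval := rvb_outer_eq (dw.nP v) (dw.flat (v, s v)) (dw.flat (v, s v + 3)) hB hA hC'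
    have hnb := F.not_both (sg := sg) hv
    have hAB : 0 < qs D P inf (en α sg inf s (v, s v)) 2 * t2 +
        qs D P inf (en α sg inf s (v, s v + 2)) 2 * t1 := by
      rcases rvb_q2 dw (en α sg inf s (v, s v)) with ⟨a1, a2⟩ | ⟨a1, a2⟩ <;>
        rcases rvb_q2 dw (en α sg inf s (v, s v + 2)) with ⟨b1, b2⟩ | ⟨b1, b2⟩
      · exact absurd ⟨a1, b1⟩ hnb
      · rw [a2, b2]; linarith
      · rw [a2, b2]; linarith
      · rw [a2, b2]; linarith
    unfold kp
    rw [e, e2, rvb_pp1 (k2 _), rvb_pp1 (k3 _), rvb_pp1 (k0 _)]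
    have e4 : ∀ a b k : H, dt a b k = - dt k b a := by
      intro a b k; simp only [dt]; ring
    rw [e4, hval, d2_swap]
    have := mul_pos (mul_pos ht3 hAB) hpos
    linarith

/-- the two determinants of a straight stick through `v` -/
private theorem rvb_pair (F : Frame α inf o s) (dw : Draw α inf s D P) (hp : Conv α inf D P)
    {v : X} (hv : v ≠ inf) {i : ZMod 4} (hi : St s (v, i)) {u : H} {A2 B2 a b : ℝ}
    (ha : 0 < a)
    (hA : qs D P inf (en α sg inf s (v, i)) = A2 • P v + a • u)
    (hB : qs D P inf (en α sg inf s (v, i + 2)) = B2 • P v - b • u) :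
    ∃ κ : ℝ, 0 < κ ∧ kp α sg inf s D P v i = a * κ ∧ kp α sg inf s D P v (i + 2) = b * κ := by
  have k3 : ∀ j : ZMod 4, j + 3 ≠ j + 1 := by decide
  have k2 : ∀ j : ZMod 4, j + 2 ≠ j + 1 := by decide
  have k0 : ∀ j : ZMod 4, j ≠ j + 1 := by decide
  have e23 : s v + 2 + 3 = s v + 1 := by
    have : ∀ j : ZMod 4, j + 2 + 3 = j + 1 := by decide
    exact this _
  have e21 : s v + 2 + 1 = s v + 3 := by
    have : ∀ j : ZMod 4, j + 2 + 1 = j + 3 := by decide
    exact this _
  have e22 : s v + 2 + 2 = s v := by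
    have : ∀ j : ZMod 4, j + 2 + 2 = j := by decide
    exact this _
  have hne : i ≠ s v + 1 := by
    intro h
    rcases hi with h' | h'
    · exact k0 _ (h'.symm.trans h)
    · exact k2 _ (h'.symm.trans h)
  have hpos := rvb_pos (sg := sg) F dw hp hv hne
  rcases hi with hi | hi
  · have hi' : i = s v := hi
    subst hi'
    have f1 : kp α sg inf s D P v (s v) =
        a * dt (qs D P inf (en α sg inf s (v, s v + 3))) u (P v) := by
      unfold kp
      rw [rvb_pp0, rvb_pp1 (k3 _), rvb_pp1 (k0 _), hA]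
      simp only [dt, Pi.add_apply, Pi.smul_apply, smul_eq_mul]
      ring
    have f2 : kp α sg inf s D P v (s v + 2) =
        b * dt (qs D P inf (en α sg inf s (v, s v + 3))) u (P v) := by
      unfold kp
      rw [e23, e21, rvb_pp0, rvb_pp1 (k2 _), rvb_pp1 (k3 _), hB]
      simp only [dt, Pi.sub_apply, Pi.smul_apply, smul_eq_mul]
      ring
    refine ⟨_, ?_, f1, f2⟩
    rw [f1] at hpos
    exact (mul_pos_iff_of_pos_left ha).1 hpos
  · have hi' : i = s v + 2 := hi
    subst hi'
    rw [e22] at hB ⊢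
    have f1 : kp α sg inf s D P v (s v + 2) =
        a * dt (P v) u (qs D P inf (en α sg inf s (v, s v + 3))) := by
      unfold kp
      rw [e23, e21, rvb_pp0, rvb_pp1 (k2 _), rvb_pp1 (k3 _), hA]
      simp only [dt, Pi.add_apply, Pi.smul_apply, smul_eq_mul]
      ring
    have f2 : kp α sg inf s D P v (s v) =
        b * dt (P v) u (qs D P inf (en α sg inf s (v, s v + 3))) := by
      unfold kp
      rw [rvb_pp0, rvb_pp1 (k3 _), rvb_pp1 (k0 _), hB]
      simp only [dt, Pi.sub_apply, Pi.smul_apply, smul_eq_mul]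
      ring
    refine ⟨_, ?_, f1, f2⟩
    rw [f1] at hpos
    exact (mul_pos_iff_of_pos_left ha).1 hpos

theorem Pert.ord (F : Frame α inf o s) (dw : Draw α inf s D P) (hp : Conv α inf D P)
    (pt : Pert α sg inf s D P c δ) {v w : X} (hv : v ≠ inf) (hw : w ≠ inf) (gv : sg v)
    (gw : sg w) {i j : ZMod 4} (hij : α (v, i) = (w, j)) (hi : i ≠ s v + 1)
    (hj : j ≠ s w + 1) :
    ∀ᶠ ε in 𝓝[>] (0 : ℝ),
      kp α sg inf s D (pe P δ ε) v (i + 2) * kp α sg inf s D (pe P δ ε) w (j + 2) <
        kp α sg inf s D (pe P δ ε) w j * kp α sg inf s D (pe P δ ε) v i := by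
  have _ := pt
  have key : kp α sg inf s D P v (i + 2) * kp α sg inf s D P w (j + 2) <
      kp α sg inf s D P w j * kp α sg inf s D P v i := by
    have hpv := rvb_pos (sg := sg) F dw hp hv hi
    have hpw := rvb_pos (sg := sg) F dw hp hw hj
    have h3 : ∀ j : ZMod 4, j + 3 + 2 = j + 1 := by decide
    have hst : ∀ (x : X) (k : ZMod 4), k ≠ s x + 1 → k ≠ s x + 3 → St s (x, k) := by
      intro x k h1 h2
      rcases rvb_z4 k (s x) with h | h | h | h
      · exact Or.inl h
      · exact absurd h h1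
      · exact Or.inr h
      · exact absurd h h2
    by_cases hi3 : i = s v + 3
    · have h0 : kp α sg inf s D P v (i + 2) = 0 := by
        rw [hi3, h3]; exact rvb_zero F dw hv
      rw [h0, zero_mul]
      exact mul_pos hpw hpv
    by_cases hj3 : j = s w + 3
    · have h0 : kp α sg inf s D P w (j + 2) = 0 := by
        rw [hj3, h3]; exact rvb_zero F dw hw
      rw [h0, mul_zero]
      exact mul_pos hpw hpv
    have sv : St s (v, i) := hst v i hi hi3
    have sw : St s (w, j) := hst w j hj hj3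
    have hji : α (w, j) = (v, i) := by rw [← hij, F.rig.inv]
    have en1 : en α sg inf s (v, i) = en α sg inf s (w, j + 2) := by
      have h : Ps sg inf s (α (v, i)) := by rw [hij]; exact ⟨hw, gw, sw⟩
      rw [F.en_go h]
      show en α sg inf s (op (α (v, i))) = _
      rw [hij]; rfl
    have en2 : en α sg inf s (w, j) = en α sg inf s (v, i + 2) := by
      have h : Ps sg inf s (α (w, j)) := by rw [hji]; exact ⟨hv, gv, sv⟩
      rw [F.en_go h]
      show en α sg inf s (op (α (w, j))) = _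
      rw [hji]; rfl
    have ev : dr α inf D P (v, i) = P w - P v := by
      rw [dr_edge (show (v, i).1 ≠ inf from hv) (by rw [hij]; exact hw), hij]
    have ew : dr α inf D P (w, j) = P v - P w := by
      rw [dr_edge (show (w, j).1 ≠ inf from hw) (by rw [hji]; exact hv), hji]
    obtain ⟨-, b, -, hb, -, hB⟩ := rvb_line (sg := sg) F dw hv sv
    obtain ⟨-, a, -, ha, -, hA⟩ := rvb_line (sg := sg) F dw hw sw
    rw [ev] at hB
    rw [ew] at hA
    set B2 := qs D P inf (en α sg inf s (v, i + 2)) 2 with hB2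
    set A2 := qs D P inf (en α sg inf s (w, j + 2)) 2 with hA2
    have hA2' : A2 = 0 ∨ A2 = 1 := by
      rcases rvb_q2 dw (en α sg inf s (w, j + 2)) with h | h
      · exact Or.inl h.2
      · exact Or.inr h.2
    have hB2' : B2 = 0 ∨ B2 = 1 := by
      rcases rvb_q2 dw (en α sg inf s (v, i + 2)) with h | h
      · exact Or.inl h.2
      · exact Or.inr h.2
    have a0 : 0 ≤ A2 := by rcases hA2' with h | h <;> rw [h] <;> norm_num
    have b0 : 0 ≤ B2 := by rcases hB2' with h | h <;> rw [h] <;> norm_num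
    have hAB : 0 < A2 + B2 := by
      by_contra hcon
      have z1 : A2 = 0 := by linarith
      have z2 : B2 = 0 := by linarith
      have i1 : (en α sg inf s (v, i)).1 = inf := by
        rw [en1]
        rcases rvb_q2 dw (en α sg inf s (w, j + 2)) with h | h
        · exact h.1
        · rw [← hA2, z1] at h
          exact absurd h.2 (by norm_num)
      have i2 : (en α sg inf s (v, i + 2)).1 = inf := by
        rcases rvb_q2 dw (en α sg inf s (v, i + 2)) with h | h
        · exact h.1
        · rw [← hB2, z2] at h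
          exact absurd h.2 (by norm_num)
      have h22 : ∀ j : ZMod 4, j + 2 + 2 = j := by decide
      apply F.not_both (sg := sg) hv
      rcases sv with h | h
      · have h' : i = s v := h
        rw [← h']
        exact ⟨i1, i2⟩
      · have h' : i = s v + 2 := h
        rw [h'] at i1 i2
        rw [h22] at i2
        exact ⟨i2, i1⟩
    -- at v
    obtain ⟨κ, hκ, f1, f2⟩ := rvb_pair (sg := sg) F dw hp hv sv (u := P w - P v) (A2 := A2)
      (B2 := B2) (a := A2 + a) (b := b) (by linarith)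
      (by
        rw [en1, hA]
        ext k
        simp only [Pi.add_apply, Pi.sub_apply, Pi.smul_apply, smul_eq_mul]
        ring) hB
    -- at w
    obtain ⟨κ', hκ', g1, g2⟩ := rvb_pair (sg := sg) F dw hp hw sw (u := P v - P w) (A2 := B2)
      (B2 := A2) (a := B2 + b) (b := a) (by linarith)
      (by
        rw [en2, hB]
        ext k
        simp only [Pi.add_apply, Pi.sub_apply, Pi.smul_apply, smul_eq_mul]
        ring) hA
    rw [f1, f2, g1, g2]
    have h5 : 0 < κ * κ' * (B2 * A2 + B2 * a + b * A2) := by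
      apply mul_pos (mul_pos hκ hκ')
      have h6 := mul_nonneg b0 a0
      have h7 := mul_nonneg b0 ha.le
      have h8 := mul_nonneg hb.le a0
      rcases hA2' with h | h
      · have : B2 = 1 := by
          rcases hB2' with h' | h'
          · rw [h, h'] at hAB; exact absurd hAB (by norm_num)
          · exact h'
        rw [this, h]; linarith
      · rw [h]; linarith
    nlinarith [h5]
  have h1 := (rvb_tendsto_kp (α := α) (sg := sg) (inf := inf) (s := s) (D := D) (P := P) (δ := δ)
    v (i + 2)).mul (rvb_tendsto_kp (α := α) (sg := sg) (inf := inf) (s := s) (D := D) (P := P)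
      (δ := δ) w (j + 2))
  have h2 := (rvb_tendsto_kp (α := α) (sg := sg) (inf := inf) (s := s) (D := D) (P := P) (δ := δ)
    w j).mul (rvb_tendsto_kp (α := α) (sg := sg) (inf := inf) (s := s) (D := D) (P := P)
      (δ := δ) v i)
  exact h1.eventually_lt h2 key

end SN78
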