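import Pool.Agent.SN78.RVA

/-!
# SN78 module RVC: separation of the perturbed sticks

By `Frame.touch` there are three cases.
(1) no common site: `lim_sep`, and `Sep` is an open condition (the functional can be kept), with
`tendsto_qs`.
(2) there is `w` with `sg w`, the stick of `d` is the strand of `w`: `{d, en d} = {e₁, e₂}`, `e₁ = en (w, s w)`,
`e₂ = en (w, s w + 2)`, and `d'` or `en d'` is the bent dart `e' = (w, s w + 1)`; the other end is `en e'` (`en_en`).
`0 < dt (Q e₁) (pe w) (Q e₂)` (`off`, `0 < c w`), and `Q e' = pe w`; `0 < dt (Q e₁) (Q (en e')) (Q e₂)` (`outer` with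
`j = s w + 1`: `j + 3 = s w`).  So `Sep.of_side` separates `e₁, e₂` from `e', en e'`; use the symmetries of `Sep`.
(3) the same with the roles of `d, d'` exchanged.
-/

namespace SN78

open Filter Topology

variable {X : Type} [Fintype X] {α : X × ZMod 4 → X × ZMod 4} {inf : X} {s : X → ZMod 4}
  {o : X × ZMod 4 → Bool} {sg : X → Prop} {D : ZMod 4 → H} {P δ : X → H} {c : X → ℝ}

omit [Fintype X] in
private theorem rvc_dot (l : H) (e : X × ZMod 4) :
    Tendsto (fun ε => dot l (qs D (pe P δ ε) inf e)) (𝓝[>] (0 : ℝ)) (𝓝 (dot l (qs D P inf e))) := by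
  have h : Continuous fun x : H => dot l x := by
    unfold dot
    fun_prop
  exact (h.tendsto _).comp (tendsto_qs e)

private theorem rvc_side (F : Frame α inf o s) (dw : Draw α inf s D P) (hp : Conv α inf D P)
    (pt : Pert α sg inf s D P c δ) {w : X} (hw : w ≠ inf) (hcw : 0 < c w) {d d' : X × ZMod 4}
    (hd' : ¬ Ps sg inf s d')
    (h : (d = en α sg inf s (w, s w) ∧ en α sg inf s d = en α sg inf s (w, s w + 2)) ∨
      (d = en α sg inf s (w, s w + 2) ∧ en α sg inf s d = en α sg inf s (w, s w)))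
    (h' : d' = (w, s w + 1) ∨ en α sg inf s d' = (w, s w + 1)) :
    ∀ᶠ ε in 𝓝[>] (0 : ℝ), Sep (qs D (pe P δ ε) inf d)
      (qs D (pe P δ ε) inf (en α sg inf s d)) (qs D (pe P δ ε) inf d')
      (qs D (pe P δ ε) inf (en α sg inf s d')) := by
  have hj : ¬ St s (w, s w + 1) := by
    have hz : ∀ i : ZMod 4, ¬ (i + 1 = i ∨ i + 1 = i + 2) := by decide
    exact hz _
  have e3 : s w + 1 + 3 = s w := by
    have hz : ∀ i : ZMod 4, i + 1 + 3 = i := by decide
    exact hz _
  have e1 : s w + 1 + 1 = s w + 2 := by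
    have hz : ∀ i : ZMod 4, i + 1 + 1 = i + 2 := by decide
    exact hz _
  have ho := pt.outer F dw hp hw hj
  rw [e3, e1] at ho
  filter_upwards [ho, pt.off w hw] with ε h1 h2
  have h3 := (mul_pos_iff_of_pos_left hcw).1 h2
  have hq : qs D (pe P δ ε) inf (w, s w + 1) = pe P δ ε w := by
    simp [qs, hw]
  -- the stick of the bent dart is on one side of the strand
  have key : Sep (qs D (pe P δ ε) inf (en α sg inf s (w, s w)))
      (qs D (pe P δ ε) inf (en α sg inf s (w, s w + 2)))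
      (qs D (pe P δ ε) inf d') (qs D (pe P δ ε) inf (en α sg inf s d')) := by
    rcases h' with h' | h'
    · rw [h', hq]
      exact Sep.of_side h3 h1
    · have h4 := F.en_en hd'
      rw [h'] at h4
      rw [← h4] at h'
      have h5 : qs D (pe P δ ε) inf (en α sg inf s d') = pe P δ ε w := by
        rw [← h4, h', hq]
      rw [h5, ← h4]
      exact (Sep.of_side h3 h1).right
  rcases h with ⟨ha, hb⟩ | ⟨ha, hb⟩
  · rw [hb, ha]
    exact key
  · rw [hb, ha]
    exact key.left

theorem Pert.sep (F : Frame α inf o s) (dw : Draw α inf s D P) (hp : Conv α inf D P)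
    (pt : Pert α sg inf s D P c δ) (hcs : ∀ v, sg v → 0 < c v) {d d' : X × ZMod 4}
    (hd : ¬ Ps sg inf s d) (hd' : ¬ Ps sg inf s d') (h1 : d' ≠ d)
    (h2 : d' ≠ en α sg inf s d)
    (he : ∀ e e', (e = d ∨ e = en α sg inf s d) → (e' = d' ∨ e' = en α sg inf s d') →
      e.1 ≠ inf → e.1 ≠ e'.1)
    (hc : ∀ w, w ≠ inf → sg w → (d = en α sg inf s (w, s w) ∨ d = en α sg inf s (w, s w + 2)) →
      d' ≠ (w, s w + 3) ∧ en α sg inf s d' ≠ (w, s w + 3))
    (hc' : ∀ w, w ≠ inf → sg w → (d' = en α sg inf s (w, s w) ∨ d' = en α sg inf s (w, s w + 2)) →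
      d ≠ (w, s w + 3) ∧ en α sg inf s d ≠ (w, s w + 3))
    (hfar : ∀ e e', (e = d ∨ e = en α sg inf s d) → (e' = d' ∨ e' = en α sg inf s d') →
      e.1 = inf → e'.1 = inf → ¬ ∃ x : ℝ, 0 < x ∧ qs D P inf e' = x • qs D P inf e) :
    ∀ᶠ ε in 𝓝[>] (0 : ℝ), Sep (qs D (pe P δ ε) inf d)
      (qs D (pe P δ ε) inf (en α sg inf s d)) (qs D (pe P δ ε) inf d')
      (qs D (pe P δ ε) inf (en α sg inf s d')) := by
  rcases F.touch hd hd' h1 h2 he hc hc' with h | ⟨w, hw, hs, h, h'⟩ | ⟨w, hw, hs, h, h'⟩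
  · obtain ⟨l, l1, l2, l3, l4⟩ := dw.lim_sep F hp hd hd' h hfar
    filter_upwards [(rvc_dot l d).eventually (lt_mem_nhds l1),
      (rvc_dot l (en α sg inf s d)).eventually (lt_mem_nhds l2),
      (rvc_dot l d').eventually (gt_mem_nhds l3),
      (rvc_dot l (en α sg inf s d')).eventually (gt_mem_nhds l4)] with ε k1 k2 k3 k4
    exact ⟨l, k1, k2, k3, k4⟩
  · exact rvc_side F dw hp pt hw (hcs w hs) hd' h h'
  · filter_upwards [rvc_side F dw hp pt hw (hcs w hs) hd h h'] with ε k
    exact k.symm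

end SN78
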