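import Pool.Agent.SN78.RPic
import Pool.Agent.SN78.RVB
import Pool.Agent.SN78.RVC

/-!
# SN78 module RVAL: the perturbed picture of a rigid piece is valid

With `L = rlab D (pe P δ ε)`, `L.at e = qs .. (sdt e)` for ends (`rlab_at`), `sdt (opp e) = en (sdt e)` (`sdt_opp`), and
`L.at (ed v i) = pp .. (some (inl v)) i`, `kap v i = kp .. (some (inl v)) i` (for `i = s v + 1` the end is
`inr (v, false)`, position `pe (some (inl v))`; otherwise `sdt_bd` with `en_nps`).
All conditions are finitely many conditions of the modules RVA, RVB, RVC which hold eventually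
(`eventually_all`).
* `cr`: `Pert.cr` (`c = 1` on crossings is not needed, `0 < c v` for `sgl v`).
* `ord`: `adj (x v i) = x w j` means `i ≠ s v + 1`, `αp (x v i) = x w j`, `j ≠ s w + 1`.
* `bend`: `sdt (inr (v, true)) = (v, s v + 1)`, `sdt (inr (v, false)) = (v, s v + 3)`: `Pert.bend`.
* `fat`: `Pert.fat`.
* `shr`: only for `sh = only 3`, `i = 3`, `i + 1 = 0`: `sdt (o 3) = (none, -3)`, `sdt (o 0) = (none, 0)`; `D 3 = D 0`.
* `sep`: let `e, e'` be ends which are `Apart`; `d = sdt e`, `d' = sdt e'`.  Check the hypotheses of `Pert.sep`: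
  `bd` and `sdt` are inverse to each other on ends and non-passed darts.  `h1`, `h2`: otherwise
  `e' = e` or `e' = opp e`, and `SameNode` holds.  `he`: two ends with the same site `≠ none` are `SameNode` (same
  node or same big vertex).  `hc`: if `d = en (w, s w)` or `en (w, s w + 2)` then `e = ed w i` with `i = s w` or
  `s w + 2`; `d' = (w, s w + 3)` would give `e' = inr (w, false) = ed w (s w + 1)`, a crossing pair; if
  `en d' = (w, s w + 3)` then `d' = en (w, s w + 3)` (`en_en`), `e' = ed w (s w + 3)`, the same.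
  `hc'`: symmetric: `ed w i = e'` and `e = ed w (i ± 1)`.
  `hfar`: if both have far ends with parallel directions then, as the directions `D k` are pairwise not
  parallel (same direction) except `D 3, D 0` if `sh = only 3` (`Pos D` or `Pos1 3 D`: for `Pos`, opposite
  ports `k, k + 2` with the same direction are impossible since `0 < d2 (D k) (D (k+1))` and
  `0 < d2 (D (k+1)) (D (k+2))`), they are the same port or the two shared ports: `SameNode`.
-/

namespace SN78

open Sum Filter Topology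

variable {V F : Type} [Fintype V] [Fintype F] {αp : SD V F Unit → SD V F Unit}
  {o : Option (V ⊕ F) × ZMod 4 → Bool} {s : Option (V ⊕ F) → ZMod 4} {D : ZMod 4 → H}
  {P δ : Option (V ⊕ F) → H} {c : Option (V ⊕ F) → ℝ} {sh : ZMod 4 → Prop}

/-- the two cases for the common far points -/
def ShCase (sh : ZMod 4 → Prop) (D : ZMod 4 → H) : Prop :=
  (sh = no ∧ Pos D) ∨ (sh = only 3 ∧ Pos1 3 D)

omit [Fintype V] [Fintype F] in
private theorem rvl_at_bd {Q : Option (V ⊕ F) → H} {d : Option (V ⊕ F) × ZMod 4}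
    (h : ¬ Ps sgl none s d) : (rlab D Q).at (bd s d : Bead V V F Unit) = qs D Q none d := by
  rw [rlab_at D Q (bd_end d), sdt_bd h]

private theorem rvl_at_opp (Fr : Frame (cls αp) none o s) (Q : Option (V ⊕ F) → H)
    {e : Bead V V F Unit} (he : IsEnd e) : (rlab D Q).at ((rpic αp s).opp e) =
      qs D Q none (en (cls αp) sgl none s (sdt s e)) := by
  rw [rpic_opp Fr he, rvl_at_bd (Fr.en_nps _)]

private theorem rvl_at_ed (Fr : Frame (cls αp) none o s) (Q : Option (V ⊕ F) → H) (v : V)
    (i : ZMod 4) : (rlab D Q).at ((rpic αp s).ed v i) =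
      pp (cls αp) sgl none s D Q (some (inl v)) i := by
  unfold pp
  by_cases hi : i = s (some (inl v)) + 1
  · rw [if_pos hi]
    have e : (rpic αp s).ed v i = inr (v, false) := by
      simp [rpic, hi]
    rw [e]
    rfl
  · rw [if_neg hi]
    have e : (rpic αp s).ed v i = bd s (en (cls αp) sgl none s (some (inl v), i)) := by
      simp [rpic, hi]
    rw [e, rvl_at_bd (Fr.en_nps _)]

omit [Fintype V] [Fintype F] in
private theorem rvl_ed1 (v : V) :
    (rpic αp s).ed v (s (some (inl v)) + 1) = inr (v, false) := by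
  simp [rpic]

omit [Fintype V] [Fintype F] in
private theorem rvl_ed {v : V} {i : ZMod 4} (hi : i ≠ s (some (inl v)) + 1) :
    (rpic αp s).ed v i = bd s (en (cls αp) sgl none s (some (inl v), i)) := by
  simp [rpic, hi]

omit [Fintype V] [Fintype F] in
private theorem rvl_adj {v w : V} {i j : ZMod 4}
    (h : (rpic αp s).adj (inl (.x v i)) = inl (.x w j)) :
    cls αp (some (inl v), i) = (some (inl w), j) ∧ i ≠ s (some (inl v)) + 1 ∧
      j ≠ s (some (inl w)) + 1 := by
  by_cases hi : i = s (some (inl v)) + 1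
  · simp [rpic, hi] at h
  · have h1 : ent s (αp (.x v i)) = inl (.x w j) := by
      simpa [rpic, hi] using h
    have h2 : cls αp (some (inl v), i) = toX (αp (.x v i)) := rfl
    cases h3 : αp (.x v i) with
    | x w' j' =>
      rw [h3] at h1
      by_cases hj : j' = s (some (inl w')) + 1
      · simp [ent, hj] at h1
      · simp only [ent, if_neg hj] at h1
        have h4 := Sum.inl.inj h1
        injection h4 with h5 h6
        subst h5 h6
        refine ⟨?_, hi, hj⟩
        rw [h2, h3]
        rfl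
    | f a j' =>
      rw [h3] at h1
      simp [ent] at h1
    | o a j' =>
      rw [h3] at h1
      simp [ent] at h1

omit [Fintype V] [Fintype F] in
private theorem rvl_site {sh' : Unit → ZMod 4 → Prop} {e e' : Bead V V F Unit} (he : IsEnd e)
    (he' : IsEnd e') (h1 : (sdt s e).1 ≠ none) (h : (sdt s e).1 = (sdt s e').1) :
    SameNode sh' e e' := by
  have c1 : (∃ a i, e = inl (.f a i)) ∨ (∃ a i, e = inl (.o a i)) ∨ (∃ w b, e = inr (w, b)) := by
    rcases e with (⟨v, i⟩ | ⟨a, i⟩ | ⟨a, i⟩) | ⟨w, b⟩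
    · exact absurd he (by simp [IsEnd])
    · exact Or.inl ⟨a, i, rfl⟩
    · exact Or.inr (Or.inl ⟨a, i, rfl⟩)
    · exact Or.inr (Or.inr ⟨w, b, rfl⟩)
  have c2 : (∃ a i, e' = inl (.f a i)) ∨ (∃ a i, e' = inl (.o a i)) ∨ (∃ w b, e' = inr (w, b)) := by
    rcases e' with (⟨v, i⟩ | ⟨a, i⟩ | ⟨a, i⟩) | ⟨w, b⟩
    · exact absurd he' (by simp [IsEnd])
    · exact Or.inl ⟨a, i, rfl⟩
    · exact Or.inr (Or.inl ⟨a, i, rfl⟩)
    · exact Or.inr (Or.inr ⟨w, b, rfl⟩)
  have hb : ∀ (w : V) (b : Bool), (sdt s (inr (w, b) : Bead V V F Unit)).1 = some (inl w) := by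
    intro w b
    cases b <;> rfl
  rcases c1 with ⟨a, i, rfl⟩ | ⟨a, i, rfl⟩ | ⟨w, b, rfl⟩
  · rcases c2 with ⟨a', i', rfl⟩ | ⟨a', i', rfl⟩ | ⟨w', b', rfl⟩
    · have h2 : (some (inr a) : Option (V ⊕ F)) = some (inr a') := h
      have h3 : a = a' := by simpa using h2
      exact h3
    · exact absurd (h.symm.trans (Eq.refl (some (inr a)))) (by
        intro h5
        have h6 : (none : Option (V ⊕ F)) = some (inr a) := h5
        exact absurd h6 (by simp))
    · rw [hb] at h
      have h2 : (some (inr a) : Option (V ⊕ F)) = some (inl w') := h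
      simp at h2
  · exact absurd rfl h1
  · rw [hb] at h
    rcases c2 with ⟨a', i', rfl⟩ | ⟨a', i', rfl⟩ | ⟨w', b', rfl⟩
    · have h2 : (some (inl w) : Option (V ⊕ F)) = some (inr a') := h
      simp at h2
    · have h2 : (some (inl w) : Option (V ⊕ F)) = none := h
      simp at h2
    · rw [hb] at h
      have h3 : w = w' := by simpa using h
      exact h3

omit [Fintype V] [Fintype F] in
private theorem rvl_out {e : Bead V V F Unit} (he : IsEnd e) (h1 : (sdt s e).1 = none) :
    ∃ k : ZMod 4, e = inl (.o () k) ∧ sdt s e = (none, -k) := by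
  rcases e with (⟨v, i⟩ | ⟨a, i⟩ | ⟨a, i⟩) | ⟨w, b⟩
  · exact absurd he (by simp [IsEnd])
  · exact absurd h1 (by simp [sdt, toX])
  · exact ⟨i, rfl, rfl⟩
  · cases b
    · exact absurd h1 (by simp [sdt])
    · exact absurd h1 (by simp [sdt])

private theorem rvl_far (hsh : ShCase sh D) {k l : ZMod 4} {r : ℝ} (hr : 0 < r)
    (h : D l = r • D k) : k = l ∨ (l = k + 1 ∧ sh k) ∨ (k = l + 1 ∧ sh l) := by
  have h0 : d2 (D k) (D l) = 0 := by rw [h, d2_smul_right, d2_self, mul_zero]
  have h0' : d2 (D l) (D k) = 0 := by rw [d2_swap, h0, neg_zero]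
  rcases hsh with ⟨rfl, hf, hpos⟩ | ⟨rfl, hf, heq, hpos⟩
  · have hz : ∀ k l : ZMod 4, k = l ∨ l = k + 1 ∨ l = k + 1 + 1 ∨ k = l + 1 := by decide
    rcases hz k l with e | e | e | e
    · exact Or.inl e
    · have h1 := hpos k
      rw [← e, h0] at h1
      exact absurd h1 (lt_irrefl _)
    · have h1 := hpos (k + 1)
      rw [← e, h, d2_smul_right, d2_swap] at h1
      have h2 := mul_pos hr (hpos k)
      linarith
    · have h1 := hpos l
      rw [← e, h0'] at h1
      exact absurd h1 (lt_irrefl _)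
  · have e31 : (3 : ZMod 4) + 1 = 0 := by decide
    have e21 : (2 : ZMod 4) + 1 = 3 := by decide
    have e11 : (1 : ZMod 4) + 1 = 2 := by decide
    rw [e31] at heq
    have p0 : 0 < d2 (D 0) (D 1) := by
      have := hpos 0 (by decide)
      rwa [zero_add] at this
    have p1 : 0 < d2 (D 1) (D 2) := by
      have := hpos 1 (by decide)
      rwa [e11] at this
    have p2 : 0 < d2 (D 2) (D 3) := by
      have := hpos 2 (by decide)
      rwa [e21] at this
    have s0 := d2_swap (D 0) (D 1)
    have s1 := d2_swap (D 1) (D 2)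
    have s2 := d2_swap (D 2) (D 3)
    rw [heq] at p0 s0
    have hz : ∀ k : ZMod 4, k = 0 ∨ k = 1 ∨ k = 2 ∨ k = 3 := by decide
    rcases hz k with rfl | rfl | rfl | rfl <;> rcases hz l with rfl | rfl | rfl | rfl <;>
      first
      | exact Or.inl rfl
      | exact Or.inr (Or.inl ⟨by decide, rfl⟩)
      | exact Or.inr (Or.inr ⟨by decide, rfl⟩)
      | (exfalso; (try rw [heq] at h0 h0'); linarith)

theorem kap_rpic (Fr : Frame (cls αp) none o s) (Q : Option (V ⊕ F) → H) (v : V)
    (i : ZMod 4) : (rpic αp s).kap (rlab D Q).at v i =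
      kp (cls αp) sgl none s D Q (some (inl v)) i := by
  unfold Pic.kap kp
  rw [rvl_at_ed Fr, rvl_at_ed Fr, rvl_at_ed Fr]

private theorem rvl_sep (Fr : Frame (cls αp) none o s) (hsh : ShCase sh D)
    (dw : Draw (cls αp) none s D P) (hp : Conv (cls αp) none D P)
    (pt : Pert (cls αp) sgl none s D P c δ) (hc : ∀ v, sgl v → 0 < c v)
    {e e' : Bead V V F Unit} (he : IsEnd e) (he' : IsEnd e')
    (ha : (rpic αp s).Apart (fun _ => sh) e e') :
    ∀ᶠ ε in 𝓝[>] (0 : ℝ), Sep ((rlab D (pe P δ ε)).at e)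
      ((rlab D (pe P δ ε)).at ((rpic αp s).opp e)) ((rlab D (pe P δ ε)).at e')
      ((rlab D (pe P δ ε)).at ((rpic αp s).opp e')) := by
  obtain ⟨a1, a2, a3, a4, a5⟩ := ha
  have hend : ∀ {e : Bead V V F Unit}, IsEnd e → IsEnd ((rpic αp s).opp e) := by
    intro e he
    rw [rpic_opp Fr he]
    exact bd_end _
  have hsd : ∀ {e : Bead V V F Unit}, IsEnd e → sdt s ((rpic αp s).opp e) =
      en (cls αp) sgl none s (sdt s e) := fun he => sdt_opp Fr he
  have hself : ∀ {e : Bead V V F Unit}, IsEnd e → SameNode (fun _ => sh) e e := by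
    intro e he
    rcases e with (⟨v, i⟩ | ⟨a, i⟩ | ⟨a, i⟩) | ⟨w, b⟩
    · exact absurd he (by simp [IsEnd])
    · exact rfl
    · exact ⟨rfl, Or.inl rfl⟩
    · exact rfl
  have hd := nps_sdt (s := s) he
  have hd' := nps_sdt (s := s) he'
  have hz31 : ∀ i : ZMod 4, i + 3 ≠ i + 1 := by decide
  have hz0 : ∀ i : ZMod 4, i ≠ i + 1 := by decide
  have hz2 : ∀ i : ZMod 4, i + 2 ≠ i + 1 := by decide
  have hz23 : ∀ i : ZMod 4, i + 2 + 3 = i + 1 := by decide
  have hz21 : ∀ i : ZMod 4, i + 2 + 1 = i + 3 := by decide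
  have hz11 : ∀ i : ZMod 4, i + 1 + 1 = i + 2 := by decide
  have hz13 : ∀ i : ZMod 4, i + 1 + 3 = i := by decide
  have hz31' : ∀ i : ZMod 4, i + 3 + 1 = i := by decide
  have hz33 : ∀ i : ZMod 4, i + 3 + 3 = i + 2 := by decide
  -- the end with the dart `en (w, s w)` or `en (w, s w + 2)`
  have edA : ∀ {e : Bead V V F Unit} {w : V}, IsEnd e →
      (sdt s e = en (cls αp) sgl none s (some (inl w), s (some (inl w))) →
        (rpic αp s).ed w (s (some (inl w))) = e) ∧
      (sdt s e = en (cls αp) sgl none s (some (inl w), s (some (inl w)) + 2) →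
        (rpic αp s).ed w (s (some (inl w)) + 2) = e) := by
    intro e w he
    refine ⟨fun h => ?_, fun h => ?_⟩
    · rw [rvl_ed (hz0 _), ← h, bd_sdt he]
    · rw [rvl_ed (hz2 _), ← h, bd_sdt he]
  -- the end with the dart `(w, s w + 3)` and its opposite
  have edB : ∀ {e : Bead V V F Unit} {w : V}, IsEnd e →
      (sdt s e = (some (inl w), s (some (inl w)) + 3) →
        (rpic αp s).ed w (s (some (inl w)) + 1) = e) ∧
      (en (cls αp) sgl none s (sdt s e) = (some (inl w), s (some (inl w)) + 3) →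
        (rpic αp s).ed w (s (some (inl w)) + 3) = e) := by
    intro e w he
    refine ⟨fun h => ?_, fun h => ?_⟩
    · have h2 := bd_sdt (s := s) he
      rw [h] at h2
      rw [rvl_ed1, ← h2]
      have h3 : s (some (inl w)) + 3 ≠ s (some (inl w)) + 1 := hz31 _
      simp [bd, h3]
    · have h2 := Fr.en_en (nps_sdt (s := s) he)
      rw [h] at h2
      rw [rvl_ed (hz31 _), h2, bd_sdt he]
  have key := pt.sep Fr dw hp hc (d := sdt s e) (d' := sdt s e') hd hd' ?_ ?_ ?_ ?_ ?_ ?_
  · filter_upwards [key] with ε h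
    rw [rlab_at D _ he, rlab_at D _ he', rvl_at_opp Fr _ he, rvl_at_opp Fr _ he']
    exact h
  · intro h
    apply a1
    have h2 : e' = e := by rw [← bd_sdt (s := s) he', h, bd_sdt he]
    rw [h2]
    exact hself he
  · intro h
    apply a3
    have h2 : e' = (rpic αp s).opp e := by
      rw [← bd_sdt (s := s) he', h, ← hsd he, bd_sdt (hend he)]
    rw [← h2]
    exact hself he'
  · intro x x' hx hx' hn hxx
    rcases hx with rfl | rfl <;> rcases hx' with rfl | rfl
    · exact a1 (rvl_site he he' hn hxx)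
    · rw [← hsd he'] at hxx
      exact a2 (rvl_site he (hend he') hn hxx)
    · rw [← hsd he] at hn hxx
      exact a3 (rvl_site (hend he) he' hn hxx)
    · rw [← hsd he] at hn
      rw [← hsd he, ← hsd he'] at hxx
      exact a4 (rvl_site (hend he) (hend he') hn hxx)
  · intro w hw hs h
    obtain ⟨w, rfl⟩ : ∃ w', w = some (inl w') := by
      rcases w with _ | w | w
      · exact absurd rfl hw
      · exact ⟨w, rfl⟩
      · exact absurd hs (by simp [sgl])
    refine ⟨fun h' => ?_, fun h' => ?_⟩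
    · have h2 := (edB (w := w) he').1 h'
      rcases h with h | h
      · exact a5 ⟨w, _, (edA (w := w) he).1 h, Or.inl h2⟩
      · exact a5 ⟨w, _, (edA (w := w) he).2 h, Or.inr (by rw [hz23]; exact h2)⟩
    · have h2 := (edB (w := w) he').2 h'
      rcases h with h | h
      · exact a5 ⟨w, _, (edA (w := w) he).1 h, Or.inr h2⟩
      · exact a5 ⟨w, _, (edA (w := w) he).2 h, Or.inl (by rw [hz21]; exact h2)⟩
  · intro w hw hs h
    obtain ⟨w, rfl⟩ : ∃ w', w = some (inl w') := by
      rcases w with _ | w | w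
      · exact absurd rfl hw
      · exact ⟨w, rfl⟩
      · exact absurd hs (by simp [sgl])
    refine ⟨fun h' => ?_, fun h' => ?_⟩
    · have h2 := (edB (w := w) he).1 h'
      rcases h with h | h
      · exact a5 ⟨w, _, h2, Or.inr (by rw [hz13]; exact (edA (w := w) he').1 h)⟩
      · exact a5 ⟨w, _, h2, Or.inl (by rw [hz11]; exact (edA (w := w) he').2 h)⟩
    · have h2 := (edB (w := w) he).2 h'
      rcases h with h | h
      · exact a5 ⟨w, _, h2, Or.inl (by rw [hz31']; exact (edA (w := w) he').1 h)⟩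
      · exact a5 ⟨w, _, h2, Or.inr (by rw [hz33]; exact (edA (w := w) he').2 h)⟩
  · -- two far ends
    have far : ∀ {e e' : Bead V V F Unit}, IsEnd e → IsEnd e' → (sdt s e).1 = none →
        (sdt s e').1 = none → (∃ x : ℝ, 0 < x ∧ qs D P none (sdt s e') =
          x • qs D P none (sdt s e)) → SameNode (fun _ => sh) e e' := by
      intro e e' he he' h1 h1' hx
      obtain ⟨k, hk, hk2⟩ := rvl_out he h1
      obtain ⟨l, hl, hl2⟩ := rvl_out he' h1'
      obtain ⟨x, hx0, hx⟩ := hx
      rw [hk2, hl2] at hx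
      have hq : ∀ k : ZMod 4, qs D P none ((none, -k) : Option (V ⊕ F) × ZMod 4) = D k := by
        intro k
        simp [qs]
      rw [hq, hq] at hx
      rw [hk, hl]
      exact ⟨rfl, rvl_far hsh hx0 hx⟩
    intro x x' hx hx' h1 h1' hex
    rcases hx with rfl | rfl <;> rcases hx' with rfl | rfl
    · exact a1 (far he he' h1 h1' hex)
    · rw [← hsd he'] at h1' hex
      exact a2 (far he (hend he') h1 h1' hex)
    · rw [← hsd he] at h1 hex
      exact a3 (far (hend he) he' h1 h1' hex)
    · rw [← hsd he] at h1 hex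
      rw [← hsd he'] at h1' hex
      exact a4 (far (hend he) (hend he') h1 h1' hex)

theorem rpic_valid (Fr : Frame (cls αp) none o s) (hsh : ShCase sh D)
    (dw : Draw (cls αp) none s D P) (hp : Conv (cls αp) none D P)
    (pt : Pert (cls αp) sgl none s D P c δ) (hc : ∀ v, sgl v → 0 < c v) :
    ∀ᶠ ε in 𝓝[>] (0 : ℝ), (rpic αp s).Valid (fun _ => sh) (rlab D (pe P δ ε)).at := by
  classical
  have hfin : Finite (SD V F Unit) :=
    Finite.of_injective toX (fun a b h => by rw [← ofX_toX a, h, ofX_toX b])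
  have hfinB : Finite (Bead V V F Unit) := inferInstance
  have e_cr : ∀ᶠ ε in 𝓝[>] (0 : ℝ), ∀ (v : V) (i : ZMod 4),
      0 < kp (cls αp) sgl none s D (pe P δ ε) (some (inl v)) i := by
    refine eventually_all.2 fun v => eventually_all.2 fun i => ?_
    exact pt.cr Fr dw hp (by simp) (hc (some (inl v)) trivial) i
  have e_ord : ∀ᶠ ε in 𝓝[>] (0 : ℝ), ∀ (v : V) (i : ZMod 4) (w : V) (j : ZMod 4),
      (rpic αp s).adj (inl (.x v i)) = inl (.x w j) →
      kp (cls αp) sgl none s D (pe P δ ε) (some (inl v)) (i + 2) *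
        kp (cls αp) sgl none s D (pe P δ ε) (some (inl w)) (j + 2) <
        kp (cls αp) sgl none s D (pe P δ ε) (some (inl w)) j *
          kp (cls αp) sgl none s D (pe P δ ε) (some (inl v)) i := by
    refine eventually_all.2 fun v => eventually_all.2 fun i => eventually_all.2 fun w =>
      eventually_all.2 fun j => ?_
    by_cases h : (rpic αp s).adj (inl (.x v i)) = inl (.x w j)
    · obtain ⟨h1, h2, h3⟩ := rvl_adj h
      filter_upwards [pt.ord Fr dw hp (v := some (inl v)) (w := some (inl w)) (by simp) (by simp)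
        trivial trivial h1 h2 h3] with ε hε _
      exact hε
    · exact Eventually.of_forall fun _ h' => absurd h' h
  have e_bend : ∀ᶠ ε in 𝓝[>] (0 : ℝ), ∀ v : V, dt (pe P δ ε (some (inl v)))
      (qs D (pe P δ ε) none (en (cls αp) sgl none s (some (inl v), s (some (inl v)) + 1)))
      (qs D (pe P δ ε) none (en (cls αp) sgl none s (some (inl v), s (some (inl v)) + 3))) ≠ 0 := by
    refine eventually_all.2 fun v => ?_
    exact pt.bend Fr dw hp (by simp)
  have e_fat : ∀ᶠ ε in 𝓝[>] (0 : ℝ), ∀ (a : F) (i : ZMod 4), 0 < dt (pe P δ ε (some (inr a)))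
      (qs D (pe P δ ε) none (en (cls αp) sgl none s (some (inr a), i)))
      (qs D (pe P δ ε) none (en (cls αp) sgl none s (some (inr a), i + 1))) := by
    refine eventually_all.2 fun a => eventually_all.2 fun i => ?_
    exact pt.fat Fr dw hp (by simp) i
  have e_sep : ∀ᶠ ε in 𝓝[>] (0 : ℝ), ∀ e e' : Bead V V F Unit, IsEnd e → IsEnd e' →
      (rpic αp s).Apart (fun _ => sh) e e' → Sep ((rlab D (pe P δ ε)).at e)
      ((rlab D (pe P δ ε)).at ((rpic αp s).opp e)) ((rlab D (pe P δ ε)).at e')
      ((rlab D (pe P δ ε)).at ((rpic αp s).opp e')) := by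
    refine eventually_all.2 fun e => eventually_all.2 fun e' => ?_
    by_cases h : IsEnd e ∧ IsEnd e' ∧ (rpic αp s).Apart (fun _ => sh) e e'
    · filter_upwards [rvl_sep Fr hsh dw hp pt hc h.1 h.2.1 h.2.2] with ε hε _ _ _
      exact hε
    · exact Eventually.of_forall fun _ h1 h2 h3 => absurd ⟨h1, h2, h3⟩ h
  have e_shr : ∀ᶠ ε in 𝓝[>] (0 : ℝ), ∀ i : ZMod 4, sh i →
      0 < dt (D i)
        (qs D (pe P δ ε) none (en (cls αp) sgl none s (none, -(i + 1))))
        (qs D (pe P δ ε) none (en (cls αp) sgl none s (none, -i))) := by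
    rcases hsh with ⟨rfl, -⟩ | ⟨rfl, hf, heq, -⟩
    · exact Eventually.of_forall fun _ i h => h.elim
    · have e31 : (3 : ZMod 4) + 1 = 0 := by decide
      rw [e31] at heq
      filter_upwards [pt.shr Fr dw hp ⟨1, one_pos, by rw [one_smul, heq]⟩] with ε hε i hi
      have hi' : i = 3 := hi
      subst hi'
      rw [e31, neg_zero]
      exact hε
  filter_upwards [e_cr, e_ord, e_bend, e_fat, e_sep, e_shr] with ε k1 k2 k3 k4 k5 k6
  refine ⟨?_, ?_, ?_, ?_, ?_, k5⟩
  · intro v i
    rw [kap_rpic Fr]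
    exact k1 v i
  · intro v i w j h
    rw [kap_rpic Fr, kap_rpic Fr, kap_rpic Fr, kap_rpic Fr]
    exact k2 v i w j h
  · intro a
    rw [rvl_at_opp Fr _ (e := inr (a, true)) trivial, rvl_at_opp Fr _ (e := inr (a, false)) trivial]
    exact k3 a
  · intro a i
    rw [rvl_at_opp Fr _ (e := inl (.f a i)) trivial,
      rvl_at_opp Fr _ (e := inl (.f a (i + 1))) trivial]
    exact k4 a i
  · intro a i hi
    rw [rvl_at_opp Fr _ (e := inl (.o a i)) trivial,
      rvl_at_opp Fr _ (e := inl (.o a (i + 1))) trivial]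
    exact k6 i hi

end SN78
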