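import Pool.Agent.SN78.RSgn

/-!
# SN78 module RZIG: consecutive corners of a face have the same sign

Let `e₁ = e, e₂ = fs α e, e₃ = fs α (fs α e)` and suppose the two turns `d2 (dr e₁) (dr e₂)`,
`d2 (dr e₂) (dr e₃)` have opposite signs.  Let `l0 = ± (x ↦ d2 (dr e₂) x)` with the sign such that
`dot l0 (dr e₁) < 0`, `dot l0 (dr e₃) < 0` (both have the same sign).

(1) The face contains a dart at `inf`: by `exists_back` `e₁ = (fs α)^[j] (inf, i)` without `inf` in between,
and `e₂.1, e₃.1 ≠ inf` by hypothesis.  By `exists_gen` with `g = e₂` there is a generic `l` with signs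
`-, +, -` at `e₁, e₂, e₃`: contradiction to `patL'` (`j < j + 1 < j + 2`).

(2) The face does not contain `inf`.  Let `N` be the period of `e₁`, `y n = (fs α)^[n] e₁`.  Claim:
`dot l0 (dr (y n)) ≤ 0` for all `n`; then the sum over a period is negative (`n = 0`) but it is `0`
(closed polygon), contradiction.  Suppose `dot l0 (dr (y n)) > 0` with `n < N`, so `3 ≤ n`.  By
`exists_gen` with `g = e₂` the signs at `0 < 1 < 2 < n` are `-, +, -, +`: contradiction to `patC` (for `-l`).
-/

namespace SN78

variable {X : Type} [Fintype X] {α : X × ZMod 4 → X × ZMod 4} {inf : X} {s : X → ZMod 4}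
  {D : ZMod 4 → H} {P : X → H}

private theorem rzig_core (h : Rigid α) (dw : Draw α inf s D P) {e : X × ZMod 4}
    (h1 : (fs α e).1 ≠ inf) (h2 : (fs α (fs α e)).1 ≠ inf) (l0 : H) (h0 : l0 2 = 0)
    (hz : dot l0 (dr α inf D P (fs α e)) = 0) (hA : dot l0 (dr α inf D P e) < 0)
    (hB : dot l0 (dr α inf D P (fs α (fs α e))) < 0) : False := by
  by_cases hinf : ∃ n, ((fs α)^[n] e).1 = inf
  · obtain ⟨n, hn⟩ := hinf
    obtain ⟨i, j, hj, hm⟩ := h.exists_back hn
    obtain ⟨l, hl, hg, hs⟩ := dw.exists_gen h l0 h0 (fs α e) hz.ge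
    have e1 : (fs α)^[j + 1] (inf, i) = fs α e := by
      rw [Function.iterate_succ_apply', hj]
    have e2 : (fs α)^[j + 2] (inf, i) = fs α (fs α e) := by
      rw [Function.iterate_succ_apply', e1]
    have hm' : ∀ n, 0 < n → n ≤ j + 2 → ((fs α)^[n] (inf, i)).1 ≠ inf := by
      intro n hn0 hn2
      rcases Nat.lt_or_ge j n with h3 | h3
      · rcases Nat.lt_or_ge (j + 1) n with h4 | h4
        · have : n = j + 2 := by omega
          rw [this, e2]; exact h2
        · have : n = j + 1 := by omega
          rw [this, e1]; exact h1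
      · exact hm n hn0 h3
    have h5 := dw.patL' h hl (i := i) (j := j) (k := j + 1) (m := j + 2) (by omega) (by omega)
      hm' (by rw [hj]; exact (hs e).2 hA) (by rw [e1]; exact hg)
    rw [e2] at h5
    exact lt_asymm h5 ((hs _).2 hB)
  · have hni : ∀ n, ((fs α)^[n] e).1 ≠ inf := fun n hn => hinf ⟨n, hn⟩
    have hterm : ∀ n, dr α inf D P ((fs α)^[n] e) =
        P ((fs α)^[n + 1] e).1 - P ((fs α)^[n] e).1 := by
      intro n
      have h3 : (α ((fs α)^[n] e)).1 = ((fs α)^[n + 1] e).1 := by
        rw [Function.iterate_succ_apply']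
        rfl
      rw [dr_edge (hni n) (by rw [h3]; exact hni (n + 1)), h3]
    have hsum : ∑ n ∈ Finset.range (Function.minimalPeriod (fs α) e),
        dot l0 (dr α inf D P ((fs α)^[n] e)) = 0 := by
      have h4 : ∀ n, dot l0 (dr α inf D P ((fs α)^[n] e)) =
          dot l0 (P ((fs α)^[n + 1] e).1) - dot l0 (P ((fs α)^[n] e).1) := by
        intro n
        rw [hterm, dot_sub]
      rw [Finset.sum_congr rfl fun n _ => h4 n,
        Finset.sum_range_sub (fun n => dot l0 (P ((fs α)^[n] e).1))]
      rw [Function.iterate_minimalPeriod]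
      simp
    have hle : ∀ n ∈ Finset.range (Function.minimalPeriod (fs α) e),
        dot l0 (dr α inf D P ((fs α)^[n] e)) ≤ 0 := by
      intro n hn
      rw [Finset.mem_range] at hn
      by_contra hc
      rw [not_le] at hc
      have n0 : n ≠ 0 := by
        rintro rfl
        exact lt_asymm hc hA
      have n1 : n ≠ 1 := by
        rintro rfl
        have : dot l0 (dr α inf D P (fs α e)) = 0 := hz
        exact hc.ne' this
      have n2 : n ≠ 2 := by
        rintro rfl
        exact lt_asymm hc hB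
      obtain ⟨l, hl, hg, hs⟩ := dw.exists_gen h l0 h0 (fs α e) hz.ge
      have hneg : ∀ x : H, dot (-l) x = - dot l x := by
        intro x
        simp only [dot, Pi.neg_apply]
        ring
      have hl' : Gen α inf D P (-l) := by
        refine ⟨?_, fun d => ?_⟩
        · rw [Pi.neg_apply, hl.1, neg_zero]
        · rw [hneg]
          exact neg_ne_zero.mpr (hl.2 d)
      have h5 := dw.patC h hl' hni (i := 0) (j := 1) (k := 2) (m := n) (by omega) (by omega)
        (by omega) (by omega)
        (by rw [hneg]; exact neg_pos.mpr ((hs _).2 hA))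
        (by rw [hneg]; exact neg_lt_zero.mpr hg)
        (by rw [hneg]; exact neg_pos.mpr ((hs _).2 hB))
      rw [hneg] at h5
      have h6 := (hs _).1 hc
      linarith
    have hlt : ∑ n ∈ Finset.range (Function.minimalPeriod (fs α) e),
        dot l0 (dr α inf D P ((fs α)^[n] e)) < 0 := by
      refine Finset.sum_neg' hle ⟨0, Finset.mem_range.mpr (h.period_pos e), hA⟩
    exact hlt.ne hsum

theorem Draw.same (h : Rigid α) (dw : Draw α inf s D P) {e : X × ZMod 4}
    (h1 : (fs α e).1 ≠ inf) (h2 : (fs α (fs α e)).1 ≠ inf)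
    (hA : d2 (dr α inf D P e) (dr α inf D P (fs α e)) ≠ 0)
    (hB : d2 (dr α inf D P (fs α e)) (dr α inf D P (fs α (fs α e))) ≠ 0) :
    0 < d2 (dr α inf D P e) (dr α inf D P (fs α e)) ↔
      0 < d2 (dr α inf D P (fs α e)) (dr α inf D P (fs α (fs α e))) := by
  have key : ∀ (c : ℝ) (x : H), dot ![-(c * dr α inf D P (fs α e) 1),
      c * dr α inf D P (fs α e) 0, 0] x = c * d2 (dr α inf D P (fs α e)) x := by
    intro c x
    simp [dot, d2]
    ring
  constructor
  · intro hp
    by_contra hq
    have hq' : d2 (dr α inf D P (fs α e)) (dr α inf D P (fs α (fs α e))) < 0 :=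
      lt_of_le_of_ne (not_lt.mp hq) hB
    refine rzig_core h dw h1 h2 ![-(1 * dr α inf D P (fs α e) 1),
      1 * dr α inf D P (fs α e) 0, 0] rfl ?_ ?_ ?_
    · rw [key, d2_self, mul_zero]
    · rw [key, d2_swap (dr α inf D P e)]
      linarith
    · rw [key]
      linarith
  · intro hq
    by_contra hp
    have hp' : d2 (dr α inf D P e) (dr α inf D P (fs α e)) < 0 :=
      lt_of_le_of_ne (not_lt.mp hp) hA
    refine rzig_core h dw h1 h2 ![-((-1) * dr α inf D P (fs α e) 1),
      (-1) * dr α inf D P (fs α e) 0, 0] rfl ?_ ?_ ?_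
    · rw [key, d2_self, mul_zero]
    · rw [key, d2_swap (dr α inf D P e)]
      linarith
    · rw [key]
      linarith

end SN78
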