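import Pool.Agent.SN78.WVar

/-!
# SN78 module WCRIT: weights with the maximal number of nonzero determinants

Among all `lam, om` with `Bary` (there is one: `exists_bary` with `lam = 1/2`) choose one with the
maximal number of triples `(x, y, z)` with `dt (om x) (om y) (om z) ≠ 0`.  Let `s, g` be given.  For small
`x₀` the variation `om' = om + (x₀ * g) • D` of `Bary.vary` is admissible, all nonzero determinants stay
nonzero (finitely many, continuity), so by maximality the vanishing determinants stay zero.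
`dt (om' x) (om' y) (om' z) = dt (om x) (om y) (om z) + x₀ * (first order term)` exactly, since `dt` is
trilinear and vanishes if two arguments are multiples of `D`.  Take a small `x₀ ≠ 0`.
-/

namespace SN78

variable {X : Type} [Fintype X] {inf : X} {t : Fin 3 → X} {a b : X → X}

open Classical in
/-- the triples with nonzero determinant -/
private noncomputable def wcNz (om : X → H) : Finset (X × X × X) :=
  Finset.univ.filter fun q => dt (om q.1) (om q.2.1) (om q.2.2) ≠ 0

private theorem wc_dt (u v w D : H) (p q r x : ℝ) :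
    dt (u + (x * p) • D) (v + (x * q) • D) (w + (x * r) • D) =
      dt u v w + x * (p * dt D v w + q * dt u D w + r * dt u v D) := by
  simp only [dt, Pi.add_apply, Pi.smul_apply, smul_eq_mul]
  ring

private theorem wc_max (w : Walk inf t a b) : ∃ lam om, Bary inf t a b lam om ∧
    ∀ lam' om', Bary inf t a b lam' om' → (wcNz om').card ≤ (wcNz om).card := by
  classical
  let S : Set ℕ := {n | ∃ lam om, Bary inf t a b lam om ∧ (wcNz om).card = n}
  have hne : S.Nonempty := by
    obtain ⟨om, h⟩ := w.exists_bary (lam := fun _ => (1 / 2 : ℝ)) (fun _ => by norm_num)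
      (fun _ => by norm_num)
    exact ⟨_, _, om, h, rfl⟩
  have hbd : BddAbove S := by
    refine ⟨Fintype.card (X × X × X), ?_⟩
    rintro n ⟨lam, om, -, rfl⟩
    exact Finset.card_le_univ _
  obtain ⟨lam, om, h, e⟩ := Nat.sSup_mem hne hbd
  refine ⟨lam, om, h, fun lam' om' h' => ?_⟩
  rw [e]
  exact le_csSup hbd ⟨lam', om', h', rfl⟩

theorem Walk.critical (w : Walk inf t a b) : ∃ lam om, Bary inf t a b lam om ∧
    ∀ x y z, dt (om x) (om y) (om z) = 0 → ∀ s g, s ≠ inf → (∀ k, s ≠ t k) →
      Green inf t a b lam s g →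
      g x * dt (om (a s) - om (b s)) (om y) (om z) + g y * dt (om x) (om (a s) - om (b s)) (om z) +
        g z * dt (om x) (om y) (om (a s) - om (b s)) = 0 := by
  classical
  obtain ⟨lam, om, hB, hmax⟩ := wc_max w
  refine ⟨lam, om, hB, ?_⟩
  intro x y z h0 s g hs hs' hg
  set D := om (a s) - om (b s) with hD
  have h1 := hB.vary w hs hs' hg
  have h2 : ∀ᶠ x₀ in nhds (0 : ℝ), ∀ q : X × X × X, dt (om q.1) (om q.2.1) (om q.2.2) ≠ 0 →
      dt (om q.1) (om q.2.1) (om q.2.2) + x₀ * (g q.1 * dt D (om q.2.1) (om q.2.2) +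
        g q.2.1 * dt (om q.1) D (om q.2.2) + g q.2.2 * dt (om q.1) (om q.2.1) D) ≠ 0 := by
    rw [Filter.eventually_all]
    intro q
    by_cases hq : dt (om q.1) (om q.2.1) (om q.2.2) = 0
    · exact Filter.Eventually.of_forall fun _ h => absurd hq h
    · have hc : Continuous fun x₀ : ℝ => dt (om q.1) (om q.2.1) (om q.2.2) +
          x₀ * (g q.1 * dt D (om q.2.1) (om q.2.2) +
            g q.2.1 * dt (om q.1) D (om q.2.2) + g q.2.2 * dt (om q.1) (om q.2.1) D) := by
        fun_prop
      have hn : (fun x₀ : ℝ => dt (om q.1) (om q.2.1) (om q.2.2) +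
          x₀ * (g q.1 * dt D (om q.2.1) (om q.2.2) +
            g q.2.1 * dt (om q.1) D (om q.2.2) + g q.2.2 * dt (om q.1) (om q.2.1) D)) 0 ≠ 0 := by
        simpa using hq
      exact (hc.continuousAt.eventually_ne hn).mono fun _ h _ => h
  have h3 : ∀ᶠ x₀ in nhdsWithin (0 : ℝ) {0}ᶜ, (x₀ ≠ 0) ∧ ((∃ lam', Bary inf t a b lam'
      (fun v => om v + (x₀ * g v) • (om (a s) - om (b s)))) ∧
      ∀ q : X × X × X, dt (om q.1) (om q.2.1) (om q.2.2) ≠ 0 →
      dt (om q.1) (om q.2.1) (om q.2.2) + x₀ * (g q.1 * dt D (om q.2.1) (om q.2.2) +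
        g q.2.1 * dt (om q.1) D (om q.2.2) + g q.2.2 * dt (om q.1) (om q.2.1) D) ≠ 0) :=
    (show ∀ᶠ x₀ in nhdsWithin (0 : ℝ) {0}ᶜ, x₀ ≠ 0 from self_mem_nhdsWithin).and
      ((h1.and h2).filter_mono nhdsWithin_le_nhds)
  obtain ⟨x₀, hx0, ⟨lam', hB'⟩, hnz⟩ := h3.exists
  have hsub : wcNz om ⊆ wcNz (fun v => om v + (x₀ * g v) • (om (a s) - om (b s))) := by
    intro q hq
    simp only [wcNz, Finset.mem_filter, Finset.mem_univ, true_and] at hq ⊢
    rw [wc_dt]
    exact hnz q hq
  have heq := Finset.eq_of_subset_of_card_le hsub (hmax _ _ hB')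
  have hnot : (x, y, z) ∉ wcNz (fun v => om v + (x₀ * g v) • (om (a s) - om (b s))) := by
    rw [← heq]
    simp only [wcNz, Finset.mem_filter, Finset.mem_univ, true_and, not_not]
    exact h0
  simp only [wcNz, Finset.mem_filter, Finset.mem_univ, true_and, not_not] at hnot
  rw [wc_dt, h0, zero_add] at hnot
  exact (mul_eq_zero.1 hnot).resolve_left hx0

end SN78
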