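import Pool.Agent.SN78.RDefs

/-!
# SN78 module WDIR: the Dirichlet problem for a walk

`unique`: let `m` be the maximum of `h` over the sites different from `inf` (`h` vanishes at `t 0`, so
`m ≥ 0`).  If `m > 0` then `M = {v ≠ inf | h v = m}` is disjoint from `B`, and for `v ∈ M` also `a v, b v ∈ M`
(average of two values `≤ m`; `a v, b v ≠ inf` by `ainf`, `binf`, as `v ∉ B`).  So `Walk.closed` gives
`t 0 ∈ M`, contradiction.  The same for `-h`.
`dirichlet`: the affine system is square; the linear map
`h ↦ (v ↦ if v ∈ B then h v else h v - lam v * h (a v) - (1 - lam v) * h (b v))` is injective by `unique`,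
hence surjective (`LinearMap.injective_iff_surjective`).
`const`: the set of all `v ≠ inf` with `h v` maximal is closed, the set with `h v` minimal too; both
contain `t 0`.
-/

namespace SN78

variable {X : Type} [Fintype X] {inf : X} {t : Fin 3 → X} {a b : X → X}

private theorem wdir_avg {l x y m : ℝ} (h0 : 0 < l) (h1 : l < 1) (hx : x ≤ m) (hy : y ≤ m)
    (h : m = l * x + (1 - l) * y) : x = m ∧ y = m := by
  have h2 : 0 < 1 - l := by linarith
  have e : l * (m - x) + (1 - l) * (m - y) = 0 := by linarith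
  have e1 : 0 ≤ l * (m - x) := mul_nonneg h0.le (by linarith)
  have e2 : 0 ≤ (1 - l) * (m - y) := mul_nonneg h2.le (by linarith)
  have e3 : l * (m - x) = 0 := by linarith
  have e4 : (1 - l) * (m - y) = 0 := by linarith
  rcases mul_eq_zero.1 e3 with h3 | h3
  · exact absurd h3 h0.ne'
  · rcases mul_eq_zero.1 e4 with h4 | h4
    · exact absurd h4 h2.ne'
    · constructor <;> linarith

private theorem wdir_le (w : Walk inf t a b) {lam : X → ℝ} (h0 : ∀ v, 0 < lam v)
    (h1 : ∀ v, lam v < 1) (B : Set X) (hB : inf ∈ B) (hB' : ∀ k, t k ∈ B) {h : X → ℝ}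
    (hb : ∀ v ∈ B, h v = 0)
    (he : ∀ v, v ∉ B → h v = lam v * h (a v) + (1 - lam v) * h (b v)) (v : X) : h v ≤ 0 := by
  classical
  by_contra hv
  push Not at hv
  obtain ⟨u, -, hu⟩ := Finset.exists_max_image Finset.univ h ⟨v, Finset.mem_univ v⟩
  have hm : 0 < h u := lt_of_lt_of_le hv (hu v (Finset.mem_univ v))
  have hnB : ∀ x, h x = h u → x ∉ B := by
    intro x hx hxB
    rw [hb x hxB] at hx
    exact hm.ne hx
  have key : ∀ x, h x = h u → h (a x) = h u ∧ h (b x) = h u := by
    intro x hx
    have h2 := he x (hnB x hx)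
    rw [hx] at h2
    exact wdir_avg (h0 x) (h1 x) (hu _ (Finset.mem_univ _)) (hu _ (Finset.mem_univ _)) h2
  have h3 := w.closed (Finset.univ.filter fun x => h x = h u) ⟨u, by simp⟩
    (by
      simp only [Finset.mem_filter, Finset.mem_univ, true_and]
      intro h4
      exact hnB _ h4 hB)
    (by
      intro x hx
      simp only [Finset.mem_filter, Finset.mem_univ, true_and] at hx ⊢
      exact (key x hx).2)
    (by
      intro x hx _
      simp only [Finset.mem_filter, Finset.mem_univ, true_and] at hx ⊢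
      exact (key x hx).1) 0
  simp only [Finset.mem_filter, Finset.mem_univ, true_and] at h3
  exact hnB _ h3 (hB' 0)

theorem Walk.unique (w : Walk inf t a b) {lam : X → ℝ} (h0 : ∀ v, 0 < lam v)
    (h1 : ∀ v, lam v < 1) (B : Set X) (hB : inf ∈ B) (hB' : ∀ k, t k ∈ B) {h : X → ℝ}
    (hb : ∀ v ∈ B, h v = 0)
    (he : ∀ v, v ∉ B → h v = lam v * h (a v) + (1 - lam v) * h (b v)) : h = 0 := by
  funext v
  have e1 := wdir_le w h0 h1 B hB hB' hb he v
  have e2 := wdir_le w h0 h1 B hB hB' (h := fun x => - h x)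
    (fun x hx => by rw [hb x hx, neg_zero])
    (fun x hx => by
      show - h x = lam x * - h (a x) + (1 - lam x) * - h (b x)
      rw [he x hx]
      ring) v
  show h v = 0
  linarith

theorem Walk.dirichlet (w : Walk inf t a b) {lam : X → ℝ} (h0 : ∀ v, 0 < lam v)
    (h1 : ∀ v, lam v < 1) (B : Set X) (hB : inf ∈ B) (hB' : ∀ k, t k ∈ B) (φ R : X → ℝ) :
    ∃ h : X → ℝ, (∀ v ∈ B, h v = φ v) ∧
      ∀ v, v ∉ B → h v = lam v * h (a v) + (1 - lam v) * h (b v) + R v := by
  classical
  let F : (X → ℝ) →ₗ[ℝ] (X → ℝ) :=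
    { toFun := fun h v => if v ∈ B then h v else h v - lam v * h (a v) - (1 - lam v) * h (b v)
      map_add' := by
        intro f g
        funext v
        simp only [Pi.add_apply]
        split_ifs
        · rfl
        · ring
      map_smul' := by
        intro k f
        funext v
        simp only [Pi.smul_apply, smul_eq_mul, RingHom.id_apply]
        split_ifs
        · rfl
        · ring }
  have hF : ∀ h v, F h v = if v ∈ B then h v else h v - lam v * h (a v) - (1 - lam v) * h (b v) :=
    fun _ _ => rfl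
  have hinj : Function.Injective F := by
    rw [injective_iff_map_eq_zero]
    intro h hh
    apply w.unique h0 h1 B hB hB'
    · intro v hv
      have h2 := hF h v
      rw [hh, if_pos hv] at h2
      exact h2.symm
    · intro v hv
      have h2 := hF h v
      rw [hh, if_neg hv] at h2
      have h3 : (0 : X → ℝ) v = 0 := rfl
      rw [h3] at h2
      linarith
  obtain ⟨h, hh⟩ := (LinearMap.injective_iff_surjective.1 hinj) (fun v => if v ∈ B then φ v else R v)
  refine ⟨h, fun v hv => ?_, fun v hv => ?_⟩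
  · have h2 := hF h v
    rw [hh, if_pos hv] at h2
    simp only [if_pos hv] at h2
    exact h2.symm
  · have h2 := hF h v
    rw [hh, if_neg hv] at h2
    simp only [if_neg hv] at h2
    linarith

private theorem wdir_const (w : Walk inf t a b) {lam : X → ℝ} (h0 : ∀ v, 0 < lam v)
    (h1 : ∀ v, lam v < 1) {h : X → ℝ} (hs : WSol inf t a b lam h (fun _ => 0)) {v : X}
    (hv : v ≠ inf) : h v ≤ h (t 0) := by
  classical
  obtain ⟨u, hu1, hu⟩ := Finset.exists_max_image (Finset.univ.filter fun x => x ≠ inf) h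
    ⟨v, by simp [hv]⟩
  simp only [Finset.mem_filter, Finset.mem_univ, true_and] at hu1 hu
  have key : ∀ x, x ≠ inf → h x = h u → h (b x) = h u ∧ ((∀ k, x ≠ t k) → h (a x) = h u) := by
    intro x hx hxu
    by_cases hk : ∀ k, x ≠ t k
    · have h2 := hs.1 x hx hk
      rw [add_zero, hxu] at h2
      have h3 := wdir_avg (h0 x) (h1 x) (hu _ (w.ainf x hx hk)) (hu _ (w.binf x hx)) h2
      exact ⟨h3.2, fun _ => h3.1⟩
    · refine ⟨?_, fun h => absurd h hk⟩
      push Not at hk
      obtain ⟨k, rfl⟩ := hk
      have h2 := hs.2 k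
      rw [add_zero, hxu] at h2
      exact h2.symm
  have h3 := w.closed (Finset.univ.filter fun x => x ≠ inf ∧ h x = h u)
    ⟨u, by simp [hu1]⟩ (by simp)
    (by
      intro x hx
      simp only [Finset.mem_filter, Finset.mem_univ, true_and] at hx ⊢
      exact ⟨w.binf x hx.1, (key x hx.1 hx.2).1⟩)
    (by
      intro x hx hk
      simp only [Finset.mem_filter, Finset.mem_univ, true_and] at hx ⊢
      exact ⟨w.ainf x hx.1 hk, (key x hx.1 hx.2).2 hk⟩) 0
  simp only [Finset.mem_filter, Finset.mem_univ, true_and] at h3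
  rw [h3.2]
  exact hu v hv

theorem Walk.const (w : Walk inf t a b) {lam : X → ℝ} (h0 : ∀ v, 0 < lam v)
    (h1 : ∀ v, lam v < 1) {h : X → ℝ} (hs : WSol inf t a b lam h (fun _ => 0)) {v v' : X}
    (hv : v ≠ inf) (hv' : v' ≠ inf) : h v = h v' := by
  have hs' : WSol inf t a b lam (fun x => - h x) (fun _ => 0) := by
    refine ⟨fun x hx hk => ?_, fun k => ?_⟩
    · show - h x = lam x * - h (a x) + (1 - lam x) * - h (b x) + 0
      rw [hs.1 x hx hk]
      ring
    · show - h (t k) = - h (b (t k)) + 0
      rw [hs.2 k]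
      ring
  have e1 := wdir_const w h0 h1 hs hv
  have e2 := wdir_const w h0 h1 hs hv'
  have e3 := wdir_const w h0 h1 hs' hv
  have e4 := wdir_const w h0 h1 hs' hv'
  linarith

end SN78
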