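import Pool.Agent.SN78.WCrit

/-!
# SN78 module WGEN: generic weights

`green_inj`: let `Z = {v ∈ C | c v ≠ 0}`.  By `Walk.dirichlet` with `B = Z ∪ {inf} ∪ range t` there is `h`
with `h v = c v` on `Z`, `h = 0` at `inf` and at the `t k` (these are not in `C`), harmonic elsewhere.  For
`s ∈ Z` let `ρ s = h s - lam s * h (a s) - (1 - lam s) * h (b s)`.  Then `h - ∑ s ∈ Z, ρ s • γ s` satisfies
the hypotheses of `Walk.unique` with `B = {inf} ∪ range t`, so `h = ∑ s ∈ Z, ρ s • γ s`, and
`∑ v, c v * h v = 0`.  But `∑ v, c v * h v = ∑ v ∈ Z, c v ^ 2`.  So `Z` is empty.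

`generic`: take `lam, om` from `Walk.critical`, `γ s` a Green function for each `s ≠ inf, t k`.

Injectivity.  Let `x ≠ y` (different from `inf`) with `om x = om y`.  Let `Ω = {v ≠ inf | om v = om x}`,
`C = {s ≠ inf, t k | om (a s) ≠ om (b s)}`, `Y = {v ∈ Ω | v ∈ C ∨ ∃ k, v = t k}`, `S = Ω \ Y`.
(i) For `x', y' ∈ Ω` and `s ∈ C`: `γ s x' = γ s y'`.  Apply `critical` to the triples `x', y', t k`: with
`D = om (a s) - om (b s)` we get `(γ s x' - γ s y') * dt D (om x') (om (t k)) = 0` for `k = 0, 1, 2`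
(the term with `dt (om x') (om y') D` vanishes).  If `γ s x' ≠ γ s y'` then the vector product of `D` and
`om x'` vanishes; `om x' ≠ 0`, so `D = μ • om x'`, and the coordinate sums are `0` and `1`, so `D = 0`.
(ii) `Y` has at most one element: let `x' ≠ y'` be in `Y`, and `c = δ_{x'} - δ_{y'}`.  By (i) and
`green_inj` `c` vanishes on `C`, so `x', y'` are `t k, t l`, but then `om x' ≠ om y'`.
(iii) For `v ∈ S`: `om (a v) = om (b v)`, and `om v` is a convex combination of them, so `a v, b v ∈ Ω`.
If `S` is not empty then `Walk.sep` gives `S = {v}`, so `a v, b v ∈ Y` and `a v = b v`, contradiction.  So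
`Ω = Y` has at most one element.

Triples.  Let `x, y, z` be different with vanishing determinant; let `l = crs (om x) (om y)`; `l ≠ 0` since
`om x ≠ om y` have coordinate sum `1`.  Then `dot l` vanishes at `om x, om y, om z`.  Let
`Ω = {v ≠ inf | dot l (om v) = 0}`, `C = {s ≠ inf, t k | dot l (om (a s) - om (b s)) ≠ 0}`,
`Y = {v ∈ Ω | v ∈ C ∨ ∃ k, v = t k}`, `S = Ω \ Y`.
(i) `Y` has at most two elements: let `x', y', z'` be three different elements of `Y`.  Their `om` are
pairwise different with coordinate sum `1` and orthogonal to `l ≠ 0`; so the determinant is `0`, and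
`crs (om y') (om z') = c₁ • l`, `crs (om z') (om x') = c₂ • l`, `crs (om x') (om y') = c₃ • l` with
`c₁, c₂, c₃ ≠ 0`.  By `critical`, `(c₁ γ s x' + c₂ γ s y' + c₃ γ s z') * dot l D = 0` for all `s`, so the
bracket vanishes for `s ∈ C`.  By `green_inj` none of `x', y', z'` is in `C`; so they are `t 0, t 1, t 2` in
some order, but then the determinant is `± 1`.
(ii) As before, for `v ∈ S`: `a v, b v ∈ Ω`.  `Ω` contains `x, y, z`, so `S` is not empty, and `Walk.sep` gives
`S = {v}`; `a v ≠ b v` are in `Y`, so `Y = {a v, b v}` and `{x, y, z} = Ω = {v, a v, b v}`.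
-/

namespace SN78

variable {X : Type} [Fintype X] {inf : X} {t : Fin 3 → X} {a b : X → X}

private theorem crs_zero {D p : H} (h : crs D p = 0) (hD : D 0 + D 1 + D 2 = 0)
    (hp : p 0 + p 1 + p 2 = 1) : D = 0 := by
  have e0 : D 1 * p 2 - D 2 * p 1 = 0 := by
    have := congrFun h 0
    simpa [crs] using this
  have e1 : D 2 * p 0 - D 0 * p 2 = 0 := by
    have := congrFun h 1
    simpa [crs] using this
  have e2 : D 0 * p 1 - D 1 * p 0 = 0 := by
    have := congrFun h 2
    simpa [crs] using this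
  funext i
  fin_cases i
  · show D 0 = 0
    linear_combination (-D 0) * hp + e2 - e1 + p 0 * hD
  · show D 1 = 0
    linear_combination (-D 1) * hp - e2 + e0 + p 1 * hD
  · show D 2 = 0
    linear_combination (-D 2) * hp + e1 - e0 + p 2 * hD

private theorem crs_ne {p q : H} (h : p ≠ q) (hp : p 0 + p 1 + p 2 = 1)
    (hq : q 0 + q 1 + q 2 = 1) : crs p q ≠ 0 := by
  intro h0
  apply h
  have h1 : crs (p - q) q = 0 := by
    have : crs (p - q) q = crs p q := by
      funext i
      fin_cases i <;> simp [crs] <;> ring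
    rw [this, h0]
  have h2 : p - q = 0 := by
    apply crs_zero h1 _ hq
    simp only [Pi.sub_apply]
    linarith
  exact sub_eq_zero.mp h2

private theorem crs_par {l u v : H} (hl : l ≠ 0) (hu : dot l u = 0) (hv : dot l v = 0) :
    ∃ c : ℝ, crs u v = c • l := by
  obtain ⟨i, hi⟩ := Function.ne_iff.mp hl
  have key : ∀ j k : Fin 3, crs u v j * l k = crs u v k * l j := by
    simp only [dot] at hu hv
    intro j k
    fin_cases j <;> fin_cases k <;> simp [crs]
    · linear_combination v 2 * hu - u 2 * hv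
    · linear_combination u 1 * hv - v 1 * hu
    · linear_combination u 2 * hv - v 2 * hu
    · linear_combination v 0 * hu - u 0 * hv
    · linear_combination v 1 * hu - u 1 * hv
    · linear_combination u 0 * hv - v 0 * hu
  refine ⟨crs u v i / l i, ?_⟩
  funext j
  rw [Pi.smul_apply, smul_eq_mul, div_mul_eq_mul_div, eq_div_iff (by simpa using hi)]
  exact key j i

theorem Walk.green_inj (w : Walk inf t a b) {lam : X → ℝ} (h0 : ∀ v, 0 < lam v)
    (h1 : ∀ v, lam v < 1) {γ : X → X → ℝ} (C : Set X)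
    (hC : ∀ s ∈ C, s ≠ inf ∧ (∀ k, s ≠ t k) ∧ Green inf t a b lam s (γ s)) {c : X → ℝ}
    (hc : ∀ v, c v ≠ 0 → v ∈ C ∨ ∃ k, v = t k) (h : ∀ s ∈ C, ∑ v, c v * γ s v = 0) :
    ∀ v ∈ C, c v = 0 := by
  classical
  let Z : Finset X := Finset.univ.filter (fun v => v ∈ C ∧ c v ≠ 0)
  have hZ : ∀ v, v ∈ Z ↔ v ∈ C ∧ c v ≠ 0 := by intro v; simp [Z]
  let B : Set X := {v | v ∈ Z ∨ v = inf ∨ ∃ k, v = t k}
  obtain ⟨g, hg1, hg2⟩ := w.dirichlet h0 h1 B (Or.inr (Or.inl rfl))
    (fun k => Or.inr (Or.inr ⟨k, rfl⟩)) (fun v => if v ∈ Z then c v else 0) (fun _ => 0)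
  have hinfC : inf ∉ C := fun hi => (hC _ hi).1 rfl
  have htC : ∀ k, t k ∉ C := fun k hi => (hC _ hi).2.1 k rfl
  have ginf : g inf = 0 := by
    rw [hg1 inf (Or.inr (Or.inl rfl)), if_neg]
    intro hi
    exact hinfC ((hZ _).mp hi).1
  have gt : ∀ k, g (t k) = 0 := by
    intro k
    rw [hg1 (t k) (Or.inr (Or.inr ⟨k, rfl⟩)), if_neg]
    intro hi
    exact htC k ((hZ _).mp hi).1
  have gZ : ∀ v ∈ Z, g v = c v := by
    intro v hv
    rw [hg1 v (Or.inl hv), if_pos hv]
  let ρ : X → ℝ := fun s => g s - lam s * g (a s) - (1 - lam s) * g (b s)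
  have huniq : (fun v => g v - ∑ s ∈ Z, ρ s * γ s v) = 0 := by
    apply w.unique h0 h1 {v | v = inf ∨ ∃ k, v = t k} (Or.inl rfl) (fun k => Or.inr ⟨k, rfl⟩)
    · rintro v (rfl | ⟨k, rfl⟩)
      · show g v - ∑ s ∈ Z, ρ s * γ s v = 0
        rw [ginf, Finset.sum_eq_zero, sub_zero]
        intro s hs
        rw [(hC s ((hZ s).mp hs).1).2.2.g_inf, mul_zero]
      · show g (t k) - ∑ s ∈ Z, ρ s * γ s (t k) = 0
        rw [gt, Finset.sum_eq_zero, sub_zero]
        intro s hs
        rw [(hC s ((hZ s).mp hs).1).2.2.g_t, mul_zero]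
    · intro v hv
      have hv1 : v ≠ inf := fun e => hv (Or.inl e)
      have hv2 : ∀ k, v ≠ t k := fun k e => hv (Or.inr ⟨k, e⟩)
      have hgam : ∀ s ∈ Z, γ s v = lam v * γ s (a v) + (1 - lam v) * γ s (b v) +
          (if s = v then 1 else 0) := by
        intro s hs
        have G := (hC s ((hZ s).mp hs).1).2.2
        by_cases e : s = v
        · subst e
          rw [if_pos rfl]
          exact G.at_s
        · rw [if_neg e, add_zero]
          exact G.off v hv1 hv2 (fun e' => e e'.symm)
      have hsum : ∑ s ∈ Z, ρ s * γ s v = lam v * ∑ s ∈ Z, ρ s * γ s (a v) +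
          (1 - lam v) * ∑ s ∈ Z, ρ s * γ s (b v) + (if v ∈ Z then ρ v else 0) := by
        have e1 : ∑ s ∈ Z, ρ s * γ s v = ∑ s ∈ Z, (lam v * (ρ s * γ s (a v)) +
            (1 - lam v) * (ρ s * γ s (b v)) + (if s = v then ρ s else 0)) := by
          apply Finset.sum_congr rfl
          intro s hs
          rw [hgam s hs]
          split_ifs <;> ring
        rw [e1, Finset.sum_add_distrib, Finset.sum_add_distrib, ← Finset.mul_sum,
          ← Finset.mul_sum, Finset.sum_ite_eq']
      have hgv : g v = lam v * g (a v) + (1 - lam v) * g (b v) + (if v ∈ Z then ρ v else 0) := by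
        by_cases hz : v ∈ Z
        · rw [if_pos hz]
          simp only [ρ]
          ring
        · rw [if_neg hz, hg2 v]
          rintro (h' | h' | ⟨k, h'⟩)
          · exact hz h'
          · exact hv1 h'
          · exact hv2 k h'
      show g v - ∑ s ∈ Z, ρ s * γ s v = lam v * (g (a v) - ∑ s ∈ Z, ρ s * γ s (a v)) +
        (1 - lam v) * (g (b v) - ∑ s ∈ Z, ρ s * γ s (b v))
      rw [hsum, hgv]
      ring
  have hgs : ∀ v, g v = ∑ s ∈ Z, ρ s * γ s v := by
    intro v
    have := congrFun huniq v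
    simp only [Pi.zero_apply] at this
    linarith
  have hz0 : ∑ v, c v * g v = 0 := by
    have e1 : ∑ v, c v * g v = ∑ s ∈ Z, ρ s * ∑ v, c v * γ s v := by
      have : ∀ v, c v * g v = ∑ s ∈ Z, ρ s * (c v * γ s v) := by
        intro v
        rw [hgs v, Finset.mul_sum]
        apply Finset.sum_congr rfl
        intro s _
        ring
      rw [Finset.sum_congr rfl (fun v _ => this v), Finset.sum_comm]
      apply Finset.sum_congr rfl
      intro s _
      rw [Finset.mul_sum]
    rw [e1]
    apply Finset.sum_eq_zero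
    intro s hs
    rw [h s ((hZ s).mp hs).1, mul_zero]
  have hz1 : ∑ v, c v * g v = ∑ v, (if v ∈ Z then c v ^ 2 else 0) := by
    apply Finset.sum_congr rfl
    intro v _
    by_cases hz : v ∈ Z
    · rw [if_pos hz, gZ v hz]
      ring
    · rw [if_neg hz]
      by_cases hcv : c v = 0
      · rw [hcv, zero_mul]
      · rcases hc v hcv with h' | ⟨k, rfl⟩
        · exact absurd ((hZ v).mpr ⟨h', hcv⟩) hz
        · rw [gt, mul_zero]
  intro v hv
  by_contra hcv
  have hz : v ∈ Z := (hZ v).mpr ⟨hv, hcv⟩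
  have h3 := (Finset.sum_eq_zero_iff_of_nonneg (s := Finset.univ)
    (f := fun v => if v ∈ Z then c v ^ 2 else 0)
    (fun v _ => by split_ifs <;> positivity)).mp (hz1 ▸ hz0) v (Finset.mem_univ v)
  simp only [if_pos hz] at h3
  exact hcv (pow_eq_zero_iff (two_ne_zero) |>.mp h3)

theorem Walk.generic (w : Walk inf t a b) : ∃ lam om, Bary inf t a b lam om ∧
    (∀ x y, x ≠ inf → y ≠ inf → om x = om y → x = y) ∧
    ∀ x y z, x ≠ inf → y ≠ inf → z ≠ inf → x ≠ y → y ≠ z → z ≠ x →
      dt (om x) (om y) (om z) = 0 →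
      ∃ v, v ≠ inf ∧ (∀ k, v ≠ t k) ∧ ({x, y, z} : Set X) = {v, a v, b v} := by
  classical
  obtain ⟨lam, om, hb, hcr⟩ := w.critical
  have hγ' : ∀ s, ∃ g : X → ℝ, s ≠ inf → (∀ k, s ≠ t k) → Green inf t a b lam s g := by
    intro s
    by_cases hs : s ≠ inf ∧ ∀ k, s ≠ t k
    · obtain ⟨g, hg⟩ := w.exists_green hb.l0 hb.l1 hs.1 hs.2
      exact ⟨g, fun _ _ => hg⟩
    · exact ⟨0, fun h1 h2 => absurd ⟨h1, h2⟩ hs⟩
  choose γ hγ using hγ'
  have hsum : ∀ v, v ≠ inf → om v 0 + om v 1 + om v 2 = 1 := fun v hv => hb.sum w hv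
  have hinj : ∀ x y, x ≠ inf → y ≠ inf → om x = om y → x = y := by
    intro x y hx hy hxy
    by_contra hne
    -- step (i)
    have st1 : ∀ x' y' s, x' ≠ inf → om x' = om y' → s ≠ inf → (∀ k, s ≠ t k) →
        om (a s) ≠ om (b s) → γ s x' = γ s y' := by
      intro x' y' s hx' hxy' hs hs' hab
      by_contra hg
      have hG := hγ s hs hs'
      apply hab
      rw [← sub_eq_zero]
      apply crs_zero (p := om x') _ _ (hsum x' hx')
      · have hk : ∀ k, dt (om (a s) - om (b s)) (om x') (Pi.single k 1) = 0 := by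
          intro k
          have h1 := hcr x' y' (t k) (by rw [← hxy']; exact dt_self₁ _ _) s (γ s) hs hs' hG
          rw [hG.g_t k, ← hxy', hb.base k, dt_swap (om (a s) - om (b s)) (om x')] at h1
          have h2 : (γ s x' - γ s y') * dt (om (a s) - om (b s)) (om x') (Pi.single k 1) = 0 := by
            linarith
          rcases mul_eq_zero.mp h2 with h3 | h3
          · exact absurd (sub_eq_zero.mp h3) hg
          · exact h3
        have h0 := hk 0
        have h1 := hk 1
        have h2 := hk 2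
        rw [← dot_crs] at h0 h1 h2
        funext i
        fin_cases i
        · simpa [dot] using h0
        · simpa [dot] using h1
        · simpa [dot] using h2
      · have e1 := hsum (a s) (w.ainf s hs hs')
        have e2 := hsum (b s) (w.binf s hs)
        simp only [Pi.sub_apply]
        linarith
    let C : Set X := {s | s ≠ inf ∧ (∀ k, s ≠ t k) ∧ om (a s) ≠ om (b s)}
    have hC : ∀ s ∈ C, s ≠ inf ∧ (∀ k, s ≠ t k) ∧ Green inf t a b lam s (γ s) :=
      fun s hs => ⟨hs.1, hs.2.1, hγ s hs.1 hs.2.1⟩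
    -- step (ii)
    have st2 : ∀ x' y', x' ≠ inf → y' ≠ inf → om x' = om y' → (x' ∈ C ∨ ∃ k, x' = t k) →
        (y' ∈ C ∨ ∃ k, y' = t k) → x' = y' := by
      intro x' y' hx' hy' hxy' hxC hyC
      by_contra hne'
      have key := w.green_inj hb.l0 hb.l1 C hC
        (c := fun v => (if v = x' then (1 : ℝ) else 0) - (if v = y' then 1 else 0))
        (by
          intro v hv
          by_cases e1 : v = x'
          · subst e1; exact hxC
          · by_cases e2 : v = y'
            · subst e2; exact hyC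
            · exfalso; apply hv; simp [e1, e2])
        (by
          intro s hs
          have : ∀ v, ((if v = x' then (1 : ℝ) else 0) - (if v = y' then 1 else 0)) * γ s v =
              (if v = x' then γ s v else 0) - (if v = y' then γ s v else 0) := by
            intro v
            split_ifs <;> ring
          rw [Finset.sum_congr rfl (fun v _ => this v), Finset.sum_sub_distrib]
          rw [Finset.sum_ite_eq' Finset.univ x', Finset.sum_ite_eq' Finset.univ y']
          simp only [Finset.mem_univ, if_true]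
          rw [st1 x' y' s hx' hxy' hs.1 hs.2.1 hs.2.2, sub_self])
      have hx2 : x' ∉ C := by
        intro hh
        have := key x' hh
        simp [hne'] at this
      have hy2 : y' ∉ C := by
        intro hh
        have := key y' hh
        simp [Ne.symm hne'] at this
      obtain ⟨k, hk⟩ := hxC.resolve_left hx2
      obtain ⟨l, hl⟩ := hyC.resolve_left hy2
      subst hk
      subst hl
      rw [hb.base, hb.base] at hxy'
      have : k = l := by
        by_contra hkl
        have := congrFun hxy' k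
        rw [Pi.single_eq_same, Pi.single_eq_of_ne hkl] at this
        exact one_ne_zero this
      exact hne' (by rw [this])
    let Y : Finset X := Finset.univ.filter
      (fun v => (v ≠ inf ∧ om v = om x) ∧ (v ∈ C ∨ ∃ k, v = t k))
    let S : Finset X := Finset.univ.filter
      (fun v => (v ≠ inf ∧ om v = om x) ∧ ¬ (v ∈ C ∨ ∃ k, v = t k))
    have hY : ∀ v, v ∈ Y ↔ (v ≠ inf ∧ om v = om x) ∧ (v ∈ C ∨ ∃ k, v = t k) := by
      intro v; simp only [Y, Finset.mem_filter, Finset.mem_univ, true_and]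
    have hS : ∀ v, v ∈ S ↔ (v ≠ inf ∧ om v = om x) ∧ ¬ (v ∈ C ∨ ∃ k, v = t k) := by
      intro v; simp only [S, Finset.mem_filter, Finset.mem_univ, true_and]
    have hYY : ∀ u v, u ∈ Y → v ∈ Y → u = v := by
      intro u v hu hv
      have hu' := (hY u).mp hu
      have hv' := (hY v).mp hv
      exact st2 u v hu'.1.1 hv'.1.1 (hu'.1.2.trans hv'.1.2.symm) hu'.2 hv'.2
    have hSY : ∀ v, v ≠ inf → om v = om x → v ∈ S ∨ v ∈ Y := by
      intro v h1 h2
      by_cases h3 : v ∈ C ∨ ∃ k, v = t k
      · exact Or.inr ((hY v).mpr ⟨⟨h1, h2⟩, h3⟩)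
      · exact Or.inl ((hS v).mpr ⟨⟨h1, h2⟩, h3⟩)
    have hstep : ∀ v ∈ S, (a v ∈ S ∨ a v ∈ Y) ∧ (b v ∈ S ∨ b v ∈ Y) := by
      intro v hv
      obtain ⟨⟨h1, h2⟩, h3⟩ := (hS v).mp hv
      have h4 : ∀ k, v ≠ t k := fun k e => h3 (Or.inr ⟨k, e⟩)
      have h5 : om (a v) = om (b v) := by
        by_contra h
        exact h3 (Or.inl ⟨h1, h4, h⟩)
      have h6 := hb.eq v h1 h4
      have h7 : om v = om (b v) := by
        rw [h6, h5, ← add_smul]
        simp
      exact ⟨hSY _ (w.ainf v h1 h4) (by rw [h5, ← h7, h2]),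
        hSY _ (w.binf v h1) (by rw [← h7, h2])⟩
    have hSne : S.Nonempty := by
      rw [Finset.nonempty_iff_ne_empty]
      intro hemp
      have hx3 : x ∈ Y := by
        rcases hSY x hx rfl with h | h
        · rw [hemp] at h; exact absurd h (Finset.notMem_empty _)
        · exact h
      have hy3 : y ∈ Y := by
        rcases hSY y hy hxy.symm with h | h
        · rw [hemp] at h; exact absurd h (Finset.notMem_empty _)
        · exact h
      exact hne (hYY x y hx3 hy3)
    have hcard := w.sep S Y hSne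
      (by
        rw [Finset.disjoint_left]
        intro v hv hv'
        exact ((hS v).mp hv).2 ((hY v).mp hv').2)
      (by
        have : Y.card ≤ 1 := Finset.card_le_one.mpr (fun u hu v hv => hYY u v hu hv)
        omega)
      (fun h => ((hS _).mp h).1.1 rfl) (fun h => ((hY _).mp h).1.1 rfl)
      (fun k h => ((hS _).mp h).2 (Or.inr ⟨k, rfl⟩))
      (fun v hv => (hstep v hv).1) (fun v hv => (hstep v hv).2)
    obtain ⟨v, hv⟩ := Finset.card_eq_one.mp hcard
    have hvS : v ∈ S := by rw [hv]; exact Finset.mem_singleton_self v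
    have hvi : v ≠ inf := ((hS v).mp hvS).1.1
    have haY : a v ∈ Y := by
      rcases (hstep v hvS).1 with h | h
      · rw [hv, Finset.mem_singleton] at h
        exact absurd h (w.av v hvi)
      · exact h
    have hbY : b v ∈ Y := by
      rcases (hstep v hvS).2 with h | h
      · rw [hv, Finset.mem_singleton] at h
        exact absurd h (w.bv v hvi)
      · exact h
    exact w.ab v hvi (hYY _ _ haY hbY)
  refine ⟨lam, om, hb, hinj, ?_⟩
  intro x y z hx hy hz hxy hyz hzx hdt
  let l : H := crs (om x) (om y)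
  have hl : l ≠ 0 := crs_ne (fun e => hxy (hinj x y hx hy e)) (hsum x hx) (hsum y hy)
  have hlx : dot l (om x) = 0 := by
    show dot (crs (om x) (om y)) (om x) = 0
    rw [dot_crs, dt_self₃]
  have hly : dot l (om y) = 0 := by
    show dot (crs (om x) (om y)) (om y) = 0
    rw [dot_crs, dt_self₂]
  have hlz : dot l (om z) = 0 := by
    show dot (crs (om x) (om y)) (om z) = 0
    rw [dot_crs, hdt]
  let C : Set X := {s | s ≠ inf ∧ (∀ k, s ≠ t k) ∧ dot l (om (a s) - om (b s)) ≠ 0}
  have hC : ∀ s ∈ C, s ≠ inf ∧ (∀ k, s ≠ t k) ∧ Green inf t a b lam s (γ s) :=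
    fun s hs => ⟨hs.1, hs.2.1, hγ s hs.1 hs.2.1⟩
  let Y : Finset X := Finset.univ.filter
    (fun v => (v ≠ inf ∧ dot l (om v) = 0) ∧ (v ∈ C ∨ ∃ k, v = t k))
  let S : Finset X := Finset.univ.filter
    (fun v => (v ≠ inf ∧ dot l (om v) = 0) ∧ ¬ (v ∈ C ∨ ∃ k, v = t k))
  have hY : ∀ v, v ∈ Y ↔ (v ≠ inf ∧ dot l (om v) = 0) ∧ (v ∈ C ∨ ∃ k, v = t k) := by
    intro v; simp only [Y, Finset.mem_filter, Finset.mem_univ, true_and]
  have hS : ∀ v, v ∈ S ↔ (v ≠ inf ∧ dot l (om v) = 0) ∧ ¬ (v ∈ C ∨ ∃ k, v = t k) := by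
    intro v; simp only [S, Finset.mem_filter, Finset.mem_univ, true_and]
  have hSY : ∀ v, v ≠ inf → dot l (om v) = 0 → v ∈ S ∨ v ∈ Y := by
    intro v h1 h2
    by_cases h3 : v ∈ C ∨ ∃ k, v = t k
    · exact Or.inr ((hY v).mpr ⟨⟨h1, h2⟩, h3⟩)
    · exact Or.inl ((hS v).mpr ⟨⟨h1, h2⟩, h3⟩)
  have hY2 : Y.card ≤ 2 := by
    by_contra hcon
    rw [not_le, Finset.two_lt_card] at hcon
    obtain ⟨x', hx', y', hy', z', hz', hxy', hxz', hyz'⟩ := hcon
    obtain ⟨⟨hxi, hxl⟩, hxC⟩ := (hY x').mp hx'
    obtain ⟨⟨hyi, hyl⟩, hyC⟩ := (hY y').mp hy'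
    obtain ⟨⟨hzi, hzl⟩, hzC⟩ := (hY z').mp hz'
    obtain ⟨c₁, hc₁⟩ := crs_par hl hyl hzl
    obtain ⟨c₂, hc₂⟩ := crs_par hl hzl hxl
    obtain ⟨c₃, hc₃⟩ := crs_par hl hxl hyl
    have hdet : dt (om x') (om y') (om z') = 0 := by
      rw [← dot_crs, hc₃, smul_dot, hzl, mul_zero]
    have n₁ : c₁ ≠ 0 := by
      rintro rfl
      rw [zero_smul] at hc₁
      exact crs_ne (fun e => hyz' (hinj _ _ hyi hzi e)) (hsum _ hyi) (hsum _ hzi) hc₁
    have n₂ : c₂ ≠ 0 := by
      rintro rfl
      rw [zero_smul] at hc₂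
      exact crs_ne (fun e => hxz' (hinj _ _ hzi hxi e).symm) (hsum _ hzi) (hsum _ hxi) hc₂
    have n₃ : c₃ ≠ 0 := by
      rintro rfl
      rw [zero_smul] at hc₃
      exact crs_ne (fun e => hxy' (hinj _ _ hxi hyi e)) (hsum _ hxi) (hsum _ hyi) hc₃
    have key := w.green_inj hb.l0 hb.l1 C hC
      (c := fun v => (if v = x' then c₁ else 0) + (if v = y' then c₂ else 0) +
        (if v = z' then c₃ else 0))
      (by
        intro v hv
        by_cases e1 : v = x'
        · subst e1; exact hxC
        · by_cases e2 : v = y'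
          · subst e2; exact hyC
          · by_cases e3 : v = z'
            · subst e3; exact hzC
            · exfalso; apply hv; simp [e1, e2, e3])
      (by
        intro s hs
        have : ∀ v, ((if v = x' then c₁ else 0) + (if v = y' then c₂ else 0) +
            (if v = z' then c₃ else 0)) * γ s v =
            (if v = x' then c₁ * γ s v else 0) + (if v = y' then c₂ * γ s v else 0) +
            (if v = z' then c₃ * γ s v else 0) := by
          intro v
          split_ifs <;> ring
        rw [Finset.sum_congr rfl (fun v _ => this v), Finset.sum_add_distrib,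
          Finset.sum_add_distrib]
        rw [Finset.sum_ite_eq' Finset.univ x', Finset.sum_ite_eq' Finset.univ y',
          Finset.sum_ite_eq' Finset.univ z']
        simp only [Finset.mem_univ, if_true]
        have h1 := hcr x' y' z' hdet s (γ s) hs.1 hs.2.1 (hγ s hs.1 hs.2.1)
        have d1 : dt (om (a s) - om (b s)) (om y') (om z') =
            c₁ * dot l (om (a s) - om (b s)) := by
          rw [dt_cyc, ← dot_crs, hc₁, smul_dot]
        have d2' : dt (om x') (om (a s) - om (b s)) (om z') =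
            c₂ * dot l (om (a s) - om (b s)) := by
          rw [dt_cyc', ← dot_crs, hc₂, smul_dot]
        have d3 : dt (om x') (om y') (om (a s) - om (b s)) =
            c₃ * dot l (om (a s) - om (b s)) := by
          rw [← dot_crs, hc₃, smul_dot]
        rw [d1, d2', d3] at h1
        have h2 : (c₁ * γ s x' + c₂ * γ s y' + c₃ * γ s z') *
            dot l (om (a s) - om (b s)) = 0 := by
          linear_combination h1
        exact (mul_eq_zero.mp h2).resolve_right hs.2.2)
    have hx2 : x' ∉ C := by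
      intro hh
      have := key x' hh
      simp [hxy', hxz'] at this
      exact n₁ this
    have hy2 : y' ∉ C := by
      intro hh
      have := key y' hh
      simp [Ne.symm hxy', hyz'] at this
      exact n₂ this
    have hz2 : z' ∉ C := by
      intro hh
      have := key z' hh
      simp [Ne.symm hxz', Ne.symm hyz'] at this
      exact n₃ this
    obtain ⟨i, hi⟩ := hxC.resolve_left hx2
    obtain ⟨j, hj⟩ := hyC.resolve_left hy2
    obtain ⟨k, hk⟩ := hzC.resolve_left hz2
    subst hi
    subst hj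
    subst hk
    have hij : i ≠ j := fun e => hxy' (by rw [e])
    have hik : i ≠ k := fun e => hxz' (by rw [e])
    have hjk : j ≠ k := fun e => hyz' (by rw [e])
    rw [hb.base, hb.base, hb.base] at hdet
    revert hdet hij hik hjk
    clear * -
    fin_cases i <;> fin_cases j <;> fin_cases k <;> simp [dt]
  have hstep : ∀ v ∈ S, (a v ∈ S ∨ a v ∈ Y) ∧ (b v ∈ S ∨ b v ∈ Y) := by
    intro v hv
    obtain ⟨⟨h1, h2⟩, h3⟩ := (hS v).mp hv
    have h4 : ∀ k, v ≠ t k := fun k e => h3 (Or.inr ⟨k, e⟩)
    have h5 : dot l (om (a v) - om (b v)) = 0 := by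
      by_contra h
      exact h3 (Or.inl ⟨h1, h4, h⟩)
    rw [dot_sub] at h5
    have h6 := hb.eq v h1 h4
    have h7 : dot l (om v) = lam v * dot l (om (a v)) + (1 - lam v) * dot l (om (b v)) := by
      rw [h6, dot_add, dot_smul, dot_smul]
    have h8 : dot l (om (b v)) = 0 := by
      rw [h2] at h7
      linear_combination (-1 : ℝ) * h7 - lam v * h5
    have h9 : dot l (om (a v)) = 0 := by linarith
    exact ⟨hSY _ (w.ainf v h1 h4) h9, hSY _ (w.binf v h1) h8⟩
  have hxO := hSY x hx hlx
  have hyO := hSY y hy hly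
  have hzO := hSY z hz hlz
  have hSne : S.Nonempty := by
    rw [Finset.nonempty_iff_ne_empty]
    intro hemp
    have hx3 : x ∈ Y := hxO.resolve_left (by rw [hemp]; exact Finset.notMem_empty _)
    have hy3 : y ∈ Y := hyO.resolve_left (by rw [hemp]; exact Finset.notMem_empty _)
    have hz3 : z ∈ Y := hzO.resolve_left (by rw [hemp]; exact Finset.notMem_empty _)
    have : 2 < Y.card := by
      rw [Finset.two_lt_card]
      exact ⟨x, hx3, y, hy3, z, hz3, hxy, hzx.symm, hyz⟩
    omega
  have hcard := w.sep S Y hSne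
    (by
      rw [Finset.disjoint_left]
      intro v hv hv'
      exact ((hS v).mp hv).2 ((hY v).mp hv').2)
    hY2
    (fun h => ((hS _).mp h).1.1 rfl) (fun h => ((hY _).mp h).1.1 rfl)
    (fun k h => ((hS _).mp h).2 (Or.inr ⟨k, rfl⟩))
    (fun v hv => (hstep v hv).1) (fun v hv => (hstep v hv).2)
  obtain ⟨v, hv⟩ := Finset.card_eq_one.mp hcard
  have hvS : v ∈ S := by rw [hv]; exact Finset.mem_singleton_self v
  have hvi : v ≠ inf := ((hS v).mp hvS).1.1
  have hvt : ∀ k, v ≠ t k := fun k e => ((hS v).mp hvS).2 (Or.inr ⟨k, e⟩)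
  have haY : a v ∈ Y := by
    rcases (hstep v hvS).1 with h | h
    · rw [hv, Finset.mem_singleton] at h
      exact absurd h (w.av v hvi)
    · exact h
  have hbY : b v ∈ Y := by
    rcases (hstep v hvS).2 with h | h
    · rw [hv, Finset.mem_singleton] at h
      exact absurd h (w.bv v hvi)
    · exact h
  have hab := w.ab v hvi
  have hYeq : ({a v, b v} : Finset X) = Y := by
    apply Finset.eq_of_subset_of_card_le
    · intro u hu
      rw [Finset.mem_insert, Finset.mem_singleton] at hu
      rcases hu with rfl | rfl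
      · exact haY
      · exact hbY
    · rw [Finset.card_pair hab]
      exact hY2
  have hmem : ∀ u, (u ∈ S ∨ u ∈ Y) → u ∈ ({v, a v, b v} : Finset X) := by
    intro u hu
    rcases hu with h | h
    · rw [hv, Finset.mem_singleton] at h
      rw [h]
      simp
    · rw [← hYeq] at h
      exact Finset.mem_insert_of_mem h
  have hfin : ({x, y, z} : Finset X) = {v, a v, b v} := by
    apply Finset.eq_of_subset_of_card_le
    · intro u hu
      simp only [Finset.mem_insert, Finset.mem_singleton] at hu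
      rcases hu with rfl | rfl | rfl
      · exact hmem _ hxO
      · exact hmem _ hyO
      · exact hmem _ hzO
    · have h3 : ({x, y, z} : Finset X).card = 3 := by
        rw [Finset.card_eq_three]
        exact ⟨x, y, z, hxy, hzx.symm, hyz, rfl⟩
      rw [h3]
      exact Finset.card_le_three
  refine ⟨v, hvi, hvt, ?_⟩
  have := congrArg (fun s : Finset X => (s : Set X)) hfin
  simpa using this

end SN78
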