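import Pool.Agent.SN78.WDir

/-!
# SN78 module WVAR: barycentric coordinates and their variation

`exists_bary`: `Walk.dirichlet` with `B = {inf} ∪ range t` for each coordinate.
`Bary.sum`: `v ↦ om v 0 + om v 1 + om v 2` and the function which is `1` for `v ≠ inf` and `0` at `inf`
satisfy the same equations (`Walk.unique` for the difference).
`exists_green`: `Walk.dirichlet`.
`vary`: for small `x` let `y = x / (1 + x * (g (a s) - g (b s)))` and `lam' = lam` except
`lam' s = lam s + y`.  The equations at `v ≠ s` are linear; at `s`, with `D = om (a s) - om (b s)` and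
`om' v = om v + (x * g v) • D`:
`lam' s • om' (a s) + (1 - lam' s) • om' (b s) = om s + (x * (g s - 1) + y + x * y * (g (a s) - g (b s))) • D
 = om' s`.
-/

namespace SN78

open Filter Topology

variable {X : Type} [Fintype X] {inf : X} {t : Fin 3 → X} {a b : X → X}

/-- the Green function of the site `s`: expected number of visits of `s` before the walk stops at
one of the sites `t k` -/
structure Green (inf : X) (t : Fin 3 → X) (a b : X → X) (lam : X → ℝ) (s : X) (g : X → ℝ) :
    Prop where
  g_inf : g inf = 0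
  g_t : ∀ k, g (t k) = 0
  off : ∀ v, v ≠ inf → (∀ k, v ≠ t k) → v ≠ s → g v = lam v * g (a v) + (1 - lam v) * g (b v)
  at_s : g s = lam s * g (a s) + (1 - lam s) * g (b s) + 1

/-- the boundary set -/
private def WVar_B (inf : X) (t : Fin 3 → X) : Set X := {v | v = inf ∨ ∃ k, v = t k}

omit [Fintype X] in
private theorem WVar_notB {v : X} (hv : v ∉ WVar_B inf t) : v ≠ inf ∧ ∀ k, v ≠ t k := by
  constructor
  · intro h; exact hv (Or.inl h)
  · intro k h; exact hv (Or.inr ⟨k, h⟩)

omit [Fintype X] in
private theorem WVar_notB' {v : X} (hv : v ≠ inf) (hv' : ∀ k, v ≠ t k) : v ∉ WVar_B inf t := by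
  rintro (h | ⟨k, h⟩)
  · exact hv h
  · exact hv' k h

theorem Walk.exists_bary (w : Walk inf t a b) {lam : X → ℝ} (h0 : ∀ v, 0 < lam v)
    (h1 : ∀ v, lam v < 1) : ∃ om, Bary inf t a b lam om := by
  classical
  have key : ∀ k : Fin 3, ∃ h : X → ℝ, (∀ v ∈ WVar_B inf t, h v = if v = t k then 1 else 0) ∧
      ∀ v, v ∉ WVar_B inf t → h v = lam v * h (a v) + (1 - lam v) * h (b v) + 0 := fun k =>
    w.dirichlet h0 h1 (WVar_B inf t) (Or.inl rfl) (fun k => Or.inr ⟨k, rfl⟩)
      (fun v => if v = t k then 1 else 0) (fun _ => 0)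
  choose h hb he using key
  refine ⟨fun v k => h k v, ⟨h0, h1, ?_, ?_, ?_⟩⟩
  · funext k
    have := hb k inf (Or.inl rfl)
    rw [if_neg (fun e => w.tinf k e.symm)] at this
    exact this
  · intro j
    funext k
    have := hb k (t j) (Or.inr ⟨j, rfl⟩)
    show h k (t j) = _
    rw [this]
    by_cases hjk : j = k
    · subst hjk
      simp
    · rw [if_neg (fun e => hjk (w.tinj e)), Pi.single_eq_of_ne (Ne.symm hjk)]
  · intro v hv hv'
    funext k
    have := he k v (WVar_notB' hv hv')
    simp only [Pi.add_apply, Pi.smul_apply, smul_eq_mul]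
    rw [this]; ring

theorem Bary.sum (w : Walk inf t a b) {lam : X → ℝ} {om : X → H} (hb : Bary inf t a b lam om)
    {v : X} (hv : v ≠ inf) : om v 0 + om v 1 + om v 2 = 1 := by
  classical
  have key := w.unique hb.l0 hb.l1 (WVar_B inf t) (Or.inl rfl) (fun k => Or.inr ⟨k, rfl⟩)
    (h := fun v => om v 0 + om v 1 + om v 2 - (if v = inf then 0 else 1)) ?_ ?_
  · have := congrFun key v
    simp only [if_neg hv, Pi.zero_apply] at this
    linarith
  · rintro v (h | ⟨k, h⟩)
    · subst h
      simp [hb.om_inf]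
    · subst h
      have hk := w.tinf k
      simp only [if_neg hk, hb.base]
      fin_cases k <;> simp
  · intro v hv
    obtain ⟨hv1, hv2⟩ := WVar_notB hv
    have ha := w.ainf v hv1 hv2
    have hbb := w.binf v hv1
    have e := hb.eq v hv1 hv2
    have e0 := congrFun e 0
    have e1 := congrFun e 1
    have e2 := congrFun e 2
    simp only [Pi.add_apply, Pi.smul_apply, smul_eq_mul] at e0 e1 e2
    simp only [if_neg hv1, if_neg ha, if_neg hbb]
    rw [e0, e1, e2]; ring

theorem Walk.exists_green (w : Walk inf t a b) {lam : X → ℝ} (h0 : ∀ v, 0 < lam v)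
    (h1 : ∀ v, lam v < 1) {s : X} (hs : s ≠ inf) (hs' : ∀ k, s ≠ t k) :
    ∃ g, Green inf t a b lam s g := by
  classical
  obtain ⟨g, hb, he⟩ := w.dirichlet h0 h1 (WVar_B inf t) (Or.inl rfl) (fun k => Or.inr ⟨k, rfl⟩)
    (fun _ => 0) (fun v => if v = s then 1 else 0)
  refine ⟨g, ⟨hb inf (Or.inl rfl), fun k => hb (t k) (Or.inr ⟨k, rfl⟩), ?_, ?_⟩⟩
  · intro v hv hv' hvs
    have := he v (WVar_notB' hv hv')
    simp only [if_neg hvs, add_zero] at this
    exact this
  · have := he s (WVar_notB' hs hs')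
    simpa using this

theorem Bary.vary (w : Walk inf t a b) {lam : X → ℝ} {om : X → H}
    (hb : Bary inf t a b lam om) {s : X} (hs : s ≠ inf) (hs' : ∀ k, s ≠ t k) {g : X → ℝ}
    (hg : Green inf t a b lam s g) :
    ∀ᶠ x in 𝓝 (0 : ℝ), ∃ lam', Bary inf t a b lam'
      (fun v => om v + (x * g v) • (om (a s) - om (b s))) := by
  classical
  set c : ℝ := g (a s) - g (b s) with hc
  have hcont : ContinuousAt (fun x : ℝ => 1 + x * c) 0 := by fun_prop
  have hne : (1 + (0 : ℝ) * c) ≠ 0 := by simp
  have hy : ContinuousAt (fun x : ℝ => lam s + x / (1 + x * c)) 0 := by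
    refine continuousAt_const.add (ContinuousAt.div continuousAt_id hcont hne)
  have hy0 : (fun x : ℝ => lam s + x / (1 + x * c)) 0 = lam s := by simp
  have e1 : ∀ᶠ x in 𝓝 (0 : ℝ), (1 + x * c) ≠ 0 := hcont.eventually_ne hne
  have e2 : ∀ᶠ x in 𝓝 (0 : ℝ), 0 < lam s + x / (1 + x * c) := by
    have h0s := hb.l0 s
    rw [← hy0] at h0s
    exact hy.eventually (lt_mem_nhds h0s)
  have e3 : ∀ᶠ x in 𝓝 (0 : ℝ), lam s + x / (1 + x * c) < 1 := by
    have h1s := hb.l1 s
    rw [← hy0] at h1s
    exact hy.eventually (gt_mem_nhds h1s)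
  filter_upwards [e1, e2, e3] with x h1 h2 h3
  refine ⟨Function.update lam s (lam s + x / (1 + x * c)), ⟨?_, ?_, ?_, ?_, ?_⟩⟩
  · intro v
    by_cases hv : v = s
    · subst hv; simpa using h2
    · rw [Function.update_of_ne hv]; exact hb.l0 v
  · intro v
    by_cases hv : v = s
    · subst hv; simpa using h3
    · rw [Function.update_of_ne hv]; exact hb.l1 v
  · simp [hb.om_inf, hg.g_inf]
  · intro k
    simp [hb.base, hg.g_t]
  · intro v hv hv'
    by_cases hvs : v = s
    · subst hvs
      funext i
      have e := congrFun (hb.eq v hv hv') i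
      have eg := hg.at_s
      simp only [Function.update_self, Pi.add_apply, Pi.smul_apply, Pi.sub_apply, smul_eq_mul]
        at e ⊢
      set y : ℝ := x / (1 + x * c) with hyd
      have hyx : y * (1 + x * c) = x := by
        rw [hyd]; field_simp
      rw [eg, e]
      have : y + x * y * (g (a v) - g (b v)) = x := by
        rw [← hc]; linarith
      linear_combination (-(om (a v) i - om (b v) i)) * this
    · funext i
      have e := congrFun (hb.eq v hv hv') i
      have eg := hg.off v hv hv' hvs
      rw [Function.update_of_ne hvs]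
      simp only [Pi.add_apply, Pi.smul_apply, Pi.sub_apply, smul_eq_mul] at e ⊢
      rw [eg, e]; ring

end SN78
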